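import Pool.Agent.Lib.MP_973905_nt.K7.Base
import Pool.Agent.Lib.MP_973905_nt.K1.Averages

/-! The mean of the weight `WF`, crudely. -/

namespace Pool.Agent.Lib.MP_973905_nt
namespace K7

open MeasureTheory ProbabilityTheory Complex Filter Topology K1 K4 K5

namespace WMean

lemma half_cast : (((1 / 2 : ℝ)) : ℂ) = 1 / 2 := by push_cast; rfl

/-- Exponential moments of `|P|` over a block of primes. -/
lemma exp_mom {q : ℝ} (hq : 0 ≤ q) : ∃ C : ℝ, 0 ≤ C ∧ ∀ (A : ℕ) (S : Finset ℕ), 1 ≤ A →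
    (∀ p ∈ S, p.Prime) →
    ES S (fun f => Real.exp (q * ‖Pj A S (tw (1 / 2) f)‖) ^ 2) ≤
      16 * Real.exp (C * ∑ p ∈ S, (1 : ℝ) / p) := by
  obtain ⟨C, hC, h⟩ := ES_exp_norm (q := q) hq
  refine ⟨C, hC, fun A S hA hS => ?_⟩
  have hre : ((((1 / 2 : ℝ)) : ℂ)).re = 1 / 2 := ofReal_re _
  have e2 : ∀ p ∈ S, (yp ((((1 / 2 : ℝ)) : ℂ)).re (1 / 2) p) ^ 2 = 1 / (p : ℝ) := by
    intro p _
    rw [hre, yp, max_self, ← Real.rpow_natCast, ← Real.rpow_mul (by positivity)]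
    norm_num
    rw [Real.rpow_neg_one]
  have h1 := h A 0 S ((1 / 2 : ℝ) : ℂ) (1 / 2) hA (by norm_num) (by rw [hre]; norm_num) hS (by
    intro p hp
    rw [hre, yp, max_self]
    exact (prime_rpow_le (hS p hp) le_rfl).2)
  rw [Finset.sum_congr rfl e2] at h1
  refine le_trans (le_of_eq ?_) h1
  congr 1
  funext f
  rw [pow_zero, norm_one, one_pow, one_mul, half_cast]

lemma bs_exp (A : ℕ) (S : Finset ℕ) {q : ℝ} (hq : 0 ≤ q) :
    BS S (fun f => Real.exp (q * ‖Pj A S (tw (1 / 2) f)‖) ^ 2) := by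
  have h := (bs_Pj A S S (1 / 2)).exp_norm q hq
  refine ⟨h.1.pow 2, h.2.choose ^ 2, fun ω => ?_⟩
  rw [norm_pow]
  exact pow_le_pow_left₀ (norm_nonneg _) (h.2.choose_spec ω) 2

/-- One bottom block. -/
lemma bot_one : ∃ C : ℝ, 0 ≤ C ∧ ∀ (κ T : ℝ) (M j : ℕ), 1 ≤ M → 0 < κ → κ < 1 → 1 < T →
    j ∈ Finset.range (JJ T + 1) →
    ES (Sj T M (JJ T) j) (fun f =>
      ‖Fc T M (JJ T) (κ - 1) (Finset.range (JJ T + 1)) ∅ j (tw (1 / 2) f)‖ ^ 2) ≤
      16 * Real.exp (C * ∑ p ∈ Sj T M (JJ T) j, (1 : ℝ) / p) := by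
  obtain ⟨C, hC, h⟩ := exp_mom (q := 1) (by norm_num)
  refine ⟨C, hC, fun κ T M j hM hk hk1 hT hj => ?_⟩
  refine le_trans ?_ (h M _ hM fun p hp => prime_Sj hT hp)
  refine ES_mono (fun ω => by positivity) (bs_exp M _ (by norm_num)).integrable fun ω => ?_
  refine pow_le_pow_left₀ (norm_nonneg _) ?_ 2
  rw [Fc, if_pos hj, if_neg (Finset.notMem_empty _), mul_one, one_mul]
  refine norm_Ntr_le _ ?_ _
  rw [abs_le]
  constructor <;> linarith

lemma ev16 : ∀ᶠ T : ℝ in atTop, (16 : ℝ) ^ (JJ T + 1) ≤ Real.log T := by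
  have h1 : Tendsto (fun T : ℝ => Real.log (Real.log T)) atTop atTop :=
    Real.tendsto_log_atTop.comp Real.tendsto_log_atTop
  have h2 : ∀ᶠ b : ℝ in atTop, Real.exp 3 * b ^ 12 ≤ Real.exp b := by
    have := (Real.isLittleO_pow_exp_atTop (n := 12)).def (c := (Real.exp 3)⁻¹) (by positivity)
    filter_upwards [this, eventually_ge_atTop 0] with u hu hu0
    rw [Real.norm_eq_abs, Real.norm_eq_abs, abs_of_nonneg (by positivity),
      abs_of_pos (Real.exp_pos _)] at hu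
    have h3 := mul_le_mul_of_nonneg_left hu (Real.exp_pos 3).le
    rwa [← mul_assoc, mul_inv_cancel₀ (Real.exp_pos 3).ne', one_mul] at h3
  filter_upwards [h1.eventually h2, h1.eventually_ge_atTop 1,
    Real.tendsto_log_atTop.eventually_gt_atTop 0] with T hT hb hL
  set b := Real.log (Real.log T) with hbdef
  have hx0 : 0 ≤ Real.log b := Real.log_nonneg hb
  have hJ : (JJ T : ℝ) ≤ 4 * Real.log b := Nat.floor_le (by positivity)
  have h16 : (16 : ℝ) ≤ Real.exp 3 := by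
    have h4 : (2.7 : ℝ) ≤ Real.exp 1 := by linarith [Real.exp_one_gt_d9]
    calc (16 : ℝ) ≤ 2.7 ^ 3 := by norm_num
      _ ≤ Real.exp 1 ^ 3 := pow_le_pow_left₀ (by norm_num) h4 3
      _ = Real.exp 3 := by rw [← Real.exp_nat_mul]; norm_num
  calc (16 : ℝ) ^ (JJ T + 1) ≤ Real.exp 3 ^ (JJ T + 1) := pow_le_pow_left₀ (by norm_num) h16 _
    _ = Real.exp (((JJ T : ℝ) + 1) * 3) := by
        rw [← Real.exp_nat_mul]; push_cast; rfl
    _ ≤ Real.exp ((4 * Real.log b + 1) * 3) := by gcongr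
    _ = Real.exp 3 * b ^ 12 := by
        rw [show (4 * Real.log b + 1) * 3 = 3 + Real.log (b ^ 12) by
          rw [Real.log_pow]; push_cast; ring, Real.exp_add, Real.exp_log (by positivity)]
    _ ≤ Real.exp b := hT
    _ = Real.log T := Real.exp_log hL

/-- The product over the bottom blocks. -/
noncomputable def BotW (κ T : ℝ) (M : ℕ) : ℝ :=
  ∏ j ∈ Finset.range (JJ T + 1), ES (Sj T M (JJ T) j) (fun f =>
    ‖Fc T M (JJ T) (κ - 1) (Finset.range (JJ T + 1)) ∅ j (tw (1 / 2) f)‖ ^ 2)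

/-- The product over the top blocks. -/
noncomputable def TopW (κ T : ℝ) (M : ℕ) : ℝ :=
  ∏ i ∈ Finset.range (M - 6), ES (UQ T i) (fun f => pf κ i (Xq T i (tw (1 / 2) f) - Vv i))

lemma BotW_nonneg (κ T : ℝ) (M : ℕ) : 0 ≤ BotW κ T M :=
  Finset.prod_nonneg fun j _ => integral_nonneg fun ω => by positivity

lemma sum_bot {T : ℝ} (hT : 1 < T) (M : ℕ) :
    ∑ j ∈ Finset.range (JJ T + 1), ∑ p ∈ Sj T M (JJ T) j, (1 : ℝ) / p ≤
      ∑ p ∈ PS 0 T, (1 : ℝ) / p := by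
  rw [← Finset.sum_biUnion (fun i _ j _ hij => disj_Sj hT hij), RAx.biUnion_eq hT]
  refine Finset.sum_le_sum_of_subset_of_nonneg (fun p hp => ?_) fun p _ _ => by positivity
  rw [mem_PS le_rfl (Real.exp_pos _).le] at hp
  rw [mem_PS le_rfl (by linarith)]
  refine ⟨hp.1, hp.2.1, hp.2.2.trans ?_⟩
  calc Real.exp (Real.exp (-(M : ℝ)) * Real.log T) ≤ Real.exp (1 * Real.log T) := by
        apply Real.exp_le_exp.2
        apply mul_le_mul_of_nonneg_right _ (Real.log_pos hT).le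
        rw [Real.exp_le_one_iff, neg_nonpos]
        positivity
    _ = T := by rw [one_mul, Real.exp_log (by linarith)]

lemma bot_all : ∃ C T₀ : ℝ, 0 < C ∧ 3 ≤ T₀ ∧ ∀ T, T₀ ≤ T → ∀ (κ : ℝ) (M : ℕ), 1 ≤ M → 0 < κ →
    κ < 1 → BotW κ T M ≤ Real.log T ^ C := by
  obtain ⟨C₁, hC₁, h1⟩ := bot_one
  obtain ⟨C₂, hC₂, h2⟩ := sum_inv
  obtain ⟨T₁, hT₁⟩ := eventually_atTop.mp (ev16.and
    (Real.tendsto_log_atTop.eventually_ge_atTop (Real.exp 1)))
  refine ⟨1 + C₁ + C₁ * C₂, max 3 T₁, by positivity, le_max_left _ _,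
    fun T hT κ M hM hk hk1 => ?_⟩
  have hT3 : 3 ≤ T := (le_max_left _ _).trans hT
  obtain ⟨h3, h4⟩ := hT₁ T ((le_max_right _ _).trans hT)
  have hT1 : 1 < T := by linarith
  have hL : 0 < Real.log T := Real.log_pos hT1
  have hb1 : 1 ≤ Real.log (Real.log T) := by
    rw [← Real.log_exp 1]
    exact Real.log_le_log (Real.exp_pos _) h4
  have h5 := (abs_le.1 (h2 T (by linarith))).2
  calc BotW κ T M ≤ ∏ j ∈ Finset.range (JJ T + 1),
        (16 * Real.exp (C₁ * ∑ p ∈ Sj T M (JJ T) j, (1 : ℝ) / p)) :=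
        Finset.prod_le_prod (fun j _ => integral_nonneg fun ω => by positivity)
          fun j hj => h1 κ T M j hM hk hk1 hT1 hj
    _ = 16 ^ (JJ T + 1) * Real.exp (C₁ * ∑ j ∈ Finset.range (JJ T + 1),
          ∑ p ∈ Sj T M (JJ T) j, (1 : ℝ) / p) := by
        rw [Finset.prod_mul_distrib, Finset.prod_const, Finset.card_range, Finset.mul_sum,
          Real.exp_sum]
    _ ≤ Real.log T * Real.exp (C₁ * (Real.log (Real.log T) + C₂)) := by
        have := sum_bot hT1 M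
        gcongr
        linarith
    _ ≤ Real.log T * Real.exp (C₁ * (Real.log (Real.log T) + C₂ * Real.log (Real.log T))) := by
        gcongr
        nlinarith
    _ = Real.exp (Real.log (Real.log T)) * Real.exp (C₁ * (Real.log (Real.log T) +
          C₂ * Real.log (Real.log T))) := by rw [Real.exp_log hL]
    _ = Real.log T ^ (1 + C₁ + C₁ * C₂) := by
        rw [← Real.exp_add, Real.rpow_def_of_pos hL]
        congr 1
        ring

/-! ### top blocks -/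

lemma Pj_one (S : Finset ℕ) (f : ℕ → ℂ) : Pj 1 S f = ∑ p ∈ S, f p := by
  simp [Pj, QQ]

lemma Tp_abs (d : ℕ) (y : ℝ) : |Tp d y| ≤ Real.exp |y| := by
  unfold Tp
  calc |∑ j ∈ Finset.range (d + 1), y ^ j / j.factorial| ≤
      ∑ j ∈ Finset.range (d + 1), |y ^ j / j.factorial| := Finset.abs_sum_le_sum_abs _ _
    _ = ∑ j ∈ Finset.range (d + 1), |y| ^ j / j.factorial := by
        refine Finset.sum_congr rfl fun j _ => ?_
        rw [abs_div, abs_pow, abs_of_nonneg (by positivity : (0 : ℝ) ≤ (j.factorial : ℝ))]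
    _ ≤ Real.exp |y| := Real.sum_le_exp_of_nonneg (abs_nonneg y) _

lemma eta_nonneg (k : ℝ) (d : ℕ) : 0 ≤ eta k d := le_max_left _ _

lemma Vv_abs (i : ℕ) : 0 ≤ Vv i ∧ Vv i ≤ 1 := by
  unfold Vv
  split_ifs <;> norm_num

lemma pf_abs {κ : ℝ} (hk : 0 < κ) (hk1 : κ < 1) (i : ℕ) (X : ℝ) :
    |pf κ i (X - Vv i)| ≤
      (1 + eta (1 - κ) (dg i) * (dg i).factorial) * Real.exp 4 * Real.exp (2 * |X|) := by
  set z : ℝ := X - Vv i - (1 - κ) * Vv i with hz
  obtain ⟨hV0, hV1⟩ := Vv_abs i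
  have hz1 : |z| ≤ |X| + 2 := by
    have h1 : z = X - (2 - κ) * Vv i := by rw [hz]; ring
    have h2 : |(2 - κ) * Vv i| ≤ 2 := by
      rw [abs_of_nonneg (mul_nonneg (by linarith) hV0)]
      nlinarith
    rw [h1]
    exact (abs_sub _ _).trans (by linarith)
  have h1 : |Tp (dg i) (-(2 * (1 - κ) * z))| ≤ Real.exp (2 * |z|) := by
    refine (Tp_abs _ _).trans (Real.exp_le_exp.2 ?_)
    rw [abs_neg, abs_mul, abs_of_nonneg (by linarith : 0 ≤ 2 * (1 - κ))]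
    have := abs_nonneg z
    nlinarith
  have h2 : |(2 * z) ^ dg i| ≤ (dg i).factorial * Real.exp (2 * |z|) := by
    have h3 := Real.pow_div_factorial_le_exp (2 * |z|) (by positivity) (dg i)
    rw [div_le_iff₀ (by positivity)] at h3
    rw [abs_pow, abs_mul, abs_of_pos (by norm_num : (0 : ℝ) < 2)]
    linarith
  have h0 := eta_nonneg (1 - κ) (dg i)
  have h4 : |pf κ i (X - Vv i)| ≤
      (1 + eta (1 - κ) (dg i) * (dg i).factorial) * Real.exp (2 * |z|) := by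
    rw [pf]
    refine (abs_add_le _ _).trans ?_
    rw [abs_mul, abs_of_nonneg h0]
    calc _ ≤ Real.exp (2 * |z|) + eta (1 - κ) (dg i) * ((dg i).factorial * Real.exp (2 * |z|)) := by
          gcongr
      _ = _ := by ring
  refine h4.trans ?_
  rw [mul_assoc _ (Real.exp 4), ← Real.exp_add]
  gcongr
  linarith

lemma top_one {κ : ℝ} (hk : 0 < κ) (hk1 : κ < 1) (i : ℕ) : ∃ K T₀ : ℝ, 1 ≤ K ∧ 3 ≤ T₀ ∧
    ∀ T, T₀ ≤ T → |ES (UQ T i) (fun f => pf κ i (Xq T i (tw (1 / 2) f) - Vv i))| ≤ K := by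
  obtain ⟨C, hC, h⟩ := exp_mom (q := 1) (by norm_num)
  obtain ⟨C₂, hC₂, h2⟩ := sum_inv_range
  set A : ℝ := (1 + eta (1 - κ) (dg i) * (dg i).factorial) * Real.exp 4 with hA
  have hA1 : 1 ≤ A := by
    have h0 := eta_nonneg (1 - κ) (dg i)
    have h1 : 1 ≤ Real.exp 4 := Real.one_le_exp (by norm_num)
    have h3 : 1 ≤ 1 + eta (1 - κ) (dg i) * (dg i).factorial := by
      have : 0 ≤ eta (1 - κ) (dg i) * (dg i).factorial := by positivity
      linarith
    rw [hA]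
    nlinarith
  have ht := Blk7.tq_pos (i + 1)
  refine ⟨A * (16 * Real.exp (C * (1 + C₂))), max 3 (Real.exp (1 / tq (i + 1))), ?_,
    le_max_left _ _, fun T hT => ?_⟩
  · have : 1 ≤ Real.exp (C * (1 + C₂)) := Real.one_le_exp (by positivity)
    nlinarith
  have hT3 : 3 ≤ T := (le_max_left _ _).trans hT
  have hT1 : 1 < T := by linarith
  have hL : 1 / tq (i + 1) ≤ Real.log T := by
    rw [← Real.log_exp (1 / tq (i + 1))]
    exact Real.log_le_log (Real.exp_pos _) ((le_max_right _ _).trans hT)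
  have hL0 : 0 < Real.log T := Real.log_pos hT1
  have hL1 : 1 ≤ tq (i + 1) * Real.log T := by
    rw [div_le_iff₀ ht] at hL
    linarith
  have hP : ∀ p ∈ UQ T i, p.Prime := fun p hp => (Blk7.mem_UQ.mp hp).1
  have hsum : ∑ p ∈ UQ T i, (1 : ℝ) / p ≤ 1 + C₂ := by
    have e2 : (2 : ℝ) ≤ Real.exp (tq (i + 1) * Real.log T) := by
      have : (2.7 : ℝ) ≤ Real.exp 1 := by linarith [Real.exp_one_gt_d9]
      have h3 : Real.exp 1 ≤ Real.exp (tq (i + 1) * Real.log T) := Real.exp_le_exp.2 hL1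
      linarith
    have h3 := (abs_le.1 (h2 _ _ e2 (Blk7.bd_mono hT1 (Nat.le_succ i)))).2
    rw [Real.log_exp, Real.log_exp] at h3
    have h4 : tq i * Real.log T / (tq (i + 1) * Real.log T) = tq i / tq (i + 1) := by
      field_simp
    rw [h4, Blk7.log_tq] at h3
    have h5 : C₂ / (tq (i + 1) * Real.log T) ≤ C₂ := div_le_self hC₂.le hL1
    have h6 := (Vv_abs i).2
    have h7 : ∑ p ∈ UQ T i, (1 : ℝ) / p = ∑ p ∈ PS (Real.exp (tq (i + 1) * Real.log T))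
        (Real.exp (tq i * Real.log T)), (1 : ℝ) / p := rfl
    rw [h7]
    linarith
  have h3 : |ES (UQ T i) (fun f => pf κ i (Xq T i (tw (1 / 2) f) - Vv i))| ≤
      ES (UQ T i) (fun f => |pf κ i (Xq T i (tw (1 / 2) f) - Vv i)|) :=
    abs_integral_le_integral_abs
  refine h3.trans ?_
  have h4 : ES (UQ T i) (fun f => |pf κ i (Xq T i (tw (1 / 2) f) - Vv i)|) ≤
      ES (UQ T i) (fun f => A * Real.exp (1 * ‖Pj 1 (UQ T i) (tw (1 / 2) f)‖) ^ 2) := by
    refine ES_mono (fun ω => abs_nonneg _)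
      ((bs_const _ A).mul_real (bs_exp 1 _ (by norm_num))).integrable fun ω => ?_
    refine (pf_abs hk hk1 i _).trans ?_
    gcongr
    rw [← Real.exp_nat_mul]
    apply Real.exp_le_exp.2
    have h5 : |Xq T i (tw (1 / 2) (ext (UQ T i) ω))| ≤
        ‖Pj 1 (UQ T i) (tw (1 / 2) (ext (UQ T i) ω))‖ := by
      rw [Pj_one, Xq]
      exact abs_re_le_norm _
    push_cast
    linarith
  refine h4.trans ?_
  rw [ES_const_mul]
  have h5 := h 1 (UQ T i) le_rfl hP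
  gcongr
  refine h5.trans ?_
  gcongr

lemma top_all {κ : ℝ} (hk : 0 < κ) (hk1 : κ < 1) (M : ℕ) : ∃ K T₀ : ℝ, 1 ≤ K ∧ 3 ≤ T₀ ∧
    ∀ T, T₀ ≤ T → |TopW κ T M| ≤ K := by
  choose K T₀ hK hT₀ h using fun i => top_one hk hk1 i
  refine ⟨∏ i ∈ Finset.range (M - 6), K i, 3 + ∑ i ∈ Finset.range (M - 6), T₀ i, ?_, ?_,
    fun T hT => ?_⟩
  · calc (1 : ℝ) = ∏ i ∈ Finset.range (M - 6), 1 := by rw [Finset.prod_const_one]
      _ ≤ _ := Finset.prod_le_prod (fun i _ => zero_le_one) fun i _ => hK i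
  · have : 0 ≤ ∑ i ∈ Finset.range (M - 6), T₀ i := Finset.sum_nonneg fun i _ => by linarith [hT₀ i]
    linarith
  · rw [TopW, Finset.abs_prod]
    refine Finset.prod_le_prod (fun i _ => abs_nonneg _) fun i hi => h i T ?_
    have : T₀ i ≤ ∑ i ∈ Finset.range (M - 6), T₀ i :=
      Finset.single_le_sum (fun i _ => by linarith [hT₀ i]) hi
    linarith

/-- The Gaussian mean is the product, up to a negligible error. -/
lemma core (hq : StBQ7) (hm : StMeanG) {κ : ℝ} (hk : 0 < κ) (hk1 : κ < 1) :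
    ∃ M₀ : ℕ, ∀ M : ℕ, M₀ ≤ M → ∃ T₀ : ℝ, 3 ≤ T₀ ∧ ∀ T, T₀ ≤ T → ∀ T' : ℝ,
      T ^ (98 / 100 : ℝ) ≤ T' → ∀ τ : ℝ,
      EG T' τ (fun t => WF κ T M (Finset.range (JJ T + 1)) ∅ (fs (1 / 2 + t * I))) ≤
        BotW κ T M * TopW κ T M + 1 := by
  obtain ⟨M₀, hM₀, hq⟩ := hq κ hk hk1
  obtain ⟨T₁, hT₁, hm⟩ := hm
  refine ⟨M₀, fun M hM => ?_⟩
  obtain ⟨T₂, hT₂, hq⟩ := hq M hM
  have ev1 : ∀ᶠ T : ℝ in atTop, T₁ ≤ T ^ (98 / 100 : ℝ) :=
    (tendsto_rpow_atTop (by norm_num)).eventually_ge_atTop T₁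
  obtain ⟨T₃, hT₃⟩ := eventually_atTop.mp ev1
  refine ⟨max T₂ T₃, hT₂.trans (le_max_left _ _), fun T hT T' hT' τ => ?_⟩
  have h2 : T₂ ≤ T := (le_max_left _ _).trans hT
  have h3 : T₁ ≤ T ^ (98 / 100 : ℝ) := hT₃ T ((le_max_right _ _).trans hT)
  have hT3 : 3 ≤ T := hT₂.trans h2
  have hT1 : 1 < T := by linarith
  have hT0 : 0 < T := by linarith
  have hT'3 : 3 ≤ T' := by linarith
  have hT'1 : 1 ≤ T' := by linarith
  have hpow : ∀ x y : ℝ, 0 ≤ y → x ≤ 98 / 100 * y → T ^ x ≤ T' ^ y := by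
    intro x y hy hxy
    calc T ^ x ≤ T ^ (98 / 100 * y) := Real.rpow_le_rpow_of_exponent_le hT1.le hxy
      _ = (T ^ (98 / 100 : ℝ)) ^ y := Real.rpow_mul hT0.le _ _
      _ ≤ T' ^ y := Real.rpow_le_rpow (by positivity) hT' hy
  obtain ⟨c, hc1, hc2, hc3⟩ := (hq T h2 (Finset.range (JJ T + 1)) ∅).1
  set N := ⌊T ^ (1 / 60 : ℝ)⌋₊ with hN
  have hN1 : (N : ℝ) ≤ T ^ (1 / 60 : ℝ) := Nat.floor_le (by positivity)
  have hNT' : (N : ℝ) ≤ T' := by
    have := hpow (1 / 60) 1 (by norm_num) (by norm_num)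
    rw [Real.rpow_one] at this
    linarith
  have hNT : (N : ℝ) ≤ T := by
    refine hN1.trans ?_
    calc T ^ (1 / 60 : ℝ) ≤ T ^ (1 : ℝ) := Real.rpow_le_rpow_of_exponent_le hT1.le (by norm_num)
      _ = T := Real.rpow_one T
  have e1 := hm T' (by linarith) τ N c hNT'
    (fun m n => (hc1 m n).trans (hpow _ _ (by norm_num) (by norm_num)))
    (fun m n hmn => hc2 m n (lt_of_le_of_lt (hpow _ _ (by norm_num) (by norm_num)) hmn))
  have e3 : EG T' τ (fun t => GB N c (fs (1 / 2 + t * I))) =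
      ((EG T' τ (fun t => WF κ T M (Finset.range (JJ T + 1)) ∅ (fs (1 / 2 + t * I))) : ℝ) : ℂ) := by
    unfold EG
    refine Eq.trans (integral_congr_ae (Filter.Eventually.of_forall fun t => ?_)) integral_ofReal
    exact (hc3 _ (cmul_fs _)).symm
  have hM7 : 7 ≤ M := hM₀.trans hM
  have hmem : ∀ n ∈ Finset.Icc 1 N, n ∈ Nat.factoredNumbers (UU (SBq T M)) := by
    intro n hn
    rw [Finset.mem_Icc] at hn
    have : (n : ℝ) ≤ N := by exact_mod_cast hn.2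
    exact Blk7.mem_factored_SBq hT1 hM7 hn.1 (this.trans hNT)
  have e2 : ∑ m ∈ Finset.Icc 1 N, c m m * (m : ℂ)⁻¹ = ((BotW κ T M * TopW κ T M : ℝ) : ℂ) := by
    rw [← FactM.diag_eq hmem c]
    set A : ℕ → (ℕ → ℂ) → ℝ := fun j f =>
      ‖Fc T M (JJ T) (κ - 1) (Finset.range (JJ T + 1)) ∅ j (tw (1 / 2) f)‖ ^ 2 with hA
    set B : ℕ → (ℕ → ℂ) → ℝ := fun i f => pf κ i (Xq T i (tw (1 / 2) f) - Vv i) with hB
    have e1 : ER (SBq T M) (fun f => GB N c (tw (1 / 2) f)) =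
        ((ER (SBq T M) (fun f => (∏ j ∈ Finset.range (JJ T + 1), A j f) *
          (∏ i ∈ Finset.range (M - 6), B i f) * 1) : ℝ) : ℂ) := by
      simp only [ER_eq]
      rw [← integral_complex_ofReal]
      refine integral_congr_ae (Filter.Eventually.of_forall fun ω => ?_)
      simp only
      have h9 : ((WF κ T M (Finset.range (JJ T + 1)) ∅ (tw (1 / 2) (XX (SBq T M) ω)) : ℝ) : ℂ) =
          GB N c (tw (1 / 2) (XX (SBq T M) ω)) := hc3 _ (cmul_tw (cmul_XX _ ω) _)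
      rw [← h9, WF, FactM.norm_AA_sq, TFq, mul_one]
    rw [e1, Blk7.fact_gen hT1 hM7 A B (fun _ => (1 : ℝ)) (by
      intro j f g' hfg
      simp only [hA]
      rw [Fc_dep hfg]) (by
      intro i f g' hfg
      simp only [hB]
      rw [Blk7.Xq_dep hfg]) (fun _ _ _ => rfl), FactM.ES_one, mul_one]
    rfl
  rw [e2, e3, ← ofReal_sub, norm_real, Real.norm_eq_abs] at e1
  have e4 := (abs_le.1 e1).2
  have e5 : T' ^ (-10 : ℝ) ≤ 1 := Real.rpow_le_one_of_one_le_of_nonpos hT'1 (by norm_num)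
  linarith

lemma ev_qq : ∀ᶠ T : ℝ in atTop, Averages.qq T ≤ 1 / 2 := by
  filter_upwards [Sharp.tail_ev 32 9, eventually_ge_atTop 3] with T h hT
  change 32 * T ^ 9 * Averages.qq T ≤ 1 at h
  have hT9 : 1 ≤ T ^ 9 := one_le_pow₀ (by linarith)
  have := Averages.qq_nonneg T
  nlinarith

lemma ev_len : ∀ᶠ T : ℝ in atTop, 2 * T ^ (97 / 100 : ℝ) ≤ 1 / 2 * T := by
  have h1 : Tendsto (fun T : ℝ => T ^ (3 / 100 : ℝ)) atTop atTop :=
    tendsto_rpow_atTop (by norm_num)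
  filter_upwards [h1.eventually_ge_atTop 4, eventually_gt_atTop 0] with T hT hT0
  have h2 : T = T ^ (3 / 100 : ℝ) * T ^ (97 / 100 : ℝ) := by
    rw [← Real.rpow_add hT0]; norm_num
  have h3 : 0 < T ^ (97 / 100 : ℝ) := Real.rpow_pos_of_pos hT0 _
  have h4 : 4 * T ^ (97 / 100 : ℝ) ≤ T := by
    conv_rhs => rw [h2]
    gcongr
  linarith

end WMean

open WMean in
/-- (S9c) the mean of the weight, crudely -/
theorem stWMean (hq : StBQ7) (hB : StWB) (hm : StMeanG) : StWMean := by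
  intro κ hk hk1
  obtain ⟨C, Tb, hC, hTb, hbot⟩ := bot_all
  obtain ⟨M₁, hcore⟩ := core hq hm hk hk1
  obtain ⟨M₂, hM₂, hB⟩ := hB κ hk hk1
  refine ⟨C + 2, by positivity, max M₁ M₂, fun M hM => ?_⟩
  obtain ⟨T₁, hT₁, hcore⟩ := hcore M ((le_max_left _ _).trans hM)
  obtain ⟨T₂, hT₂, hB⟩ := hB M ((le_max_right _ _).trans hM)
  obtain ⟨K, T₃, hK, hT₃, htop⟩ := top_all hk hk1 M
  obtain ⟨T₄, hT₄⟩ := eventually_atTop.mp (ev_qq.and ev_len)
  have ev1 : ∀ᶠ T : ℝ in atTop, max T₄ 1 ≤ T ^ (98 / 100 : ℝ) :=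
    (tendsto_rpow_atTop (by norm_num)).eventually_ge_atTop _
  have ev2 : ∀ᶠ T : ℝ in atTop, 3 * (K + 1) ≤ Real.log T :=
    Real.tendsto_log_atTop.eventually_ge_atTop _
  obtain ⟨T₅, hT₅⟩ := eventually_atTop.mp (ev1.and ev2)
  refine ⟨max (max Tb T₁) (max (max T₂ T₃) T₅), hTb.trans ((le_max_left _ _).trans
    (le_max_left _ _)), fun T hT X hX1 hX2 => ?_⟩
  have k1 : Tb ≤ T := ((le_max_left _ _).trans (le_max_left _ _)).trans hT
  have k2 : T₁ ≤ T := ((le_max_right _ _).trans (le_max_left _ _)).trans hT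
  have k3 : T₂ ≤ T :=
    ((le_max_left _ _).trans ((le_max_left _ _).trans (le_max_right _ _))).trans hT
  have k4 : T₃ ≤ T :=
    ((le_max_right _ _).trans ((le_max_left _ _).trans (le_max_right _ _))).trans hT
  have k5 : T₅ ≤ T := ((le_max_right _ _).trans (le_max_right _ _)).trans hT
  obtain ⟨l1, l2⟩ := hT₅ T k5
  have hT3 : 3 ≤ T := hTb.trans k1
  have hX : 1 ≤ X := ((le_max_right _ _).trans l1).trans hX1
  have hX0 : 0 < X := by linarith
  obtain ⟨l3, l4⟩ := hT₄ (2 * X) (by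
    have := ((le_max_left T₄ 1).trans l1).trans hX1
    linarith)
  obtain ⟨b1, -, b2, -, b3, -⟩ := hB T k3 (Finset.range (JJ T + 1)) ∅
  set L : ℝ := Real.log T with hL
  have hL1 : 1 ≤ L := by linarith
  set B : ℝ := BotW κ T M * TopW κ T M + 1 with hBdef
  have hM1 : 1 ≤ M := by
    have := (le_max_right M₁ M₂).trans hM
    omega
  have hBle : B ≤ K * L ^ C + 1 := by
    have h1 := hbot T k1 κ M hM1 hk hk1
    have h2 := htop T k4
    have h3 := BotW_nonneg κ T M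
    calc B ≤ BotW κ T M * |TopW κ T M| + 1 := by
          rw [hBdef]
          gcongr
          exact le_abs_self _
      _ ≤ L ^ C * K + 1 := by gcongr
      _ = _ := by ring
  have hLC : 1 ≤ L ^ C := Real.one_le_rpow hL1 hC.le
  have main := Averages.interval_bound (T := 2 * X) l3 b2 (fun t => b1 _)
    (Cp := T ^ (1 / 100 : ℝ)) (fun t => by
      refine (b3 t).trans ?_
      have h1 : 1 ≤ (1 + |t|) ^ 4 := one_le_pow₀ (by linarith [abs_nonneg t])
      have h2 : 0 ≤ T ^ (1 / 100 : ℝ) := by positivity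
      nlinarith) (B := K * L ^ C + 1) (fun τ _ =>
      (hcore T k2 (2 * X) (by linarith) τ).trans hBle) (c := X) (d := 2 * X) (by linarith)
    (by linarith) (by linarith) (by linarith)
  refine main.trans ?_
  have h5 : 2 * (2 * X - X + 2 * (2 * X) ^ (97 / 100 : ℝ)) ≤ 4 * X := by linarith
  have h6 : K * L ^ C + 1 ≤ (K + 1) * L ^ C := by nlinarith
  calc 2 * (2 * X - X + 2 * (2 * X) ^ (97 / 100 : ℝ)) * (K * L ^ C + 1)
      ≤ 4 * X * ((K + 1) * L ^ C) := by gcongr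
    _ = X * (L ^ C * (4 * (K + 1))) := by ring
    _ ≤ X * (L ^ C * (L * L)) := by
        have h7 : 4 * (K + 1) ≤ L * L := by nlinarith
        exact mul_le_mul_of_nonneg_left (mul_le_mul_of_nonneg_left h7 (by linarith)) hX0.le
    _ = X * L ^ (C + 2) := by
        rw [Real.rpow_add (by linarith), Real.rpow_two, sq]

end K7
end Pool.Agent.Lib.MP_973905_nt
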