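import Pool.Agent.Lib.MP_973905_nt.K7.Stmts
import Pool.Agent.Lib.MP_973905_nt.K5.G

/-! (N1) The Barnes quotient `G(1+k)^2 / G(1+2k)` for `1 < k < 2`. -/

namespace Pool.Agent.Lib.MP_973905_nt
namespace K7

open CK K5 K5.GQ

namespace G7M

/-- one term of the difference with the linear interpolation between `k = 1` and `k = 2` -/
noncomputable def vv (s : ℝ) (n : ℕ) : ℝ := ww (1 + s) n - s * ww 2 n

lemma vv_zero (n : ℕ) : vv 0 n = 0 := by
  unfold vv ww
  norm_num

lemma vv_one (n : ℕ) : vv 1 n = 0 := by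
  unfold vv
  norm_num

/-- the constant in one term -/
noncomputable def cc (n : ℕ) : ℝ := Real.log (1 + 1 / (((n : ℝ) + 1) * (n + 3)))

/-- the term written with simple logarithms -/
noncomputable def vf (n : ℕ) (s : ℝ) : ℝ :=
  ((n : ℝ) + 1) * (2 * Real.log (n + 2 + s) - Real.log (n + 1) - Real.log (n + 3 + 2 * s)
    - (1 + s) ^ 2 * cc n) - s * ww 2 n

lemma vv_eq {s : ℝ} (hs : 0 ≤ s) (n : ℕ) : vv s n = vf n s := by
  have hn : (0 : ℝ) < n + 1 := by positivity
  have h2 : (0 : ℝ) < n + 2 + s := by positivity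
  have h3 : (0 : ℝ) < n + 3 + 2 * s := by positivity
  unfold vv vf cc
  rw [ww_eq (by linarith)]
  have e1 : 1 + (1 + s) ^ 2 / (((n : ℝ) + 1) * (n + 1 + 2 * (1 + s))) =
      (n + 2 + s) ^ 2 / ((n + 1) * (n + 3 + 2 * s)) := by
    have : (n : ℝ) + 1 + 2 * (1 + s) = n + 3 + 2 * s := by ring
    rw [this]
    field_simp
    ring
  have e2 : (n : ℝ) + 1 + 2 = n + 3 := by ring
  rw [e1, e2, Real.log_div (by positivity) (by positivity), Real.log_mul hn.ne' h3.ne', Real.log_pow]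
  push_cast
  ring

/-- minus the second derivative of the term -/
noncomputable def ph (s : ℝ) (n : ℕ) : ℝ :=
  ((n : ℝ) + 1) * (2 / (n + 2 + s) ^ 2 - 4 / (n + 3 + 2 * s) ^ 2 + 2 * cc n)

/-- the first derivative of the term -/
noncomputable def vd (n : ℕ) (s : ℝ) : ℝ :=
  ((n : ℝ) + 1) * (2 / (n + 2 + s) - 2 / (n + 3 + 2 * s) - 2 * (1 + s) * cc n) - ww 2 n

lemma hasDerivAt_vf (n : ℕ) {s : ℝ} (hs : 0 < s) : HasDerivAt (vf n) (vd n s) s := by
  have h2 : (0 : ℝ) < n + 2 + s := by positivity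
  have h3 : (0 : ℝ) < n + 3 + 2 * s := by positivity
  have l2 : HasDerivAt (fun s : ℝ => Real.log (n + 2 + s)) (1 / (n + 2 + s)) s :=
    ((hasDerivAt_id' s).const_add _).log h2.ne'
  have l3 : HasDerivAt (fun s : ℝ => Real.log (n + 3 + 2 * s)) (2 / (n + 3 + 2 * s)) s := by
    have := (((hasDerivAt_id' s).const_mul 2).const_add ((n : ℝ) + 3)).log h3.ne'
    simpa using this
  have l4 : HasDerivAt (fun s : ℝ => (1 + s) ^ 2 * cc n) (2 * (1 + s) * cc n) s := by
    have := (((hasDerivAt_id' s).const_add 1).fun_pow 2).mul_const (cc n)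
    simpa using this
  have l5 : HasDerivAt (fun s : ℝ => s * ww 2 n) (ww 2 n) s := by
    simpa using (hasDerivAt_id' s).mul_const (ww 2 n)
  have := (((((l2.const_mul 2).sub_const (Real.log (n + 1))).fun_sub l3).fun_sub l4).const_mul
    ((n : ℝ) + 1)).fun_sub l5
  refine this.congr_deriv ?_
  unfold vd
  ring

lemma hasDerivAt_vd (n : ℕ) {s : ℝ} (hs : 0 < s) : HasDerivAt (vd n) (-ph s n) s := by
  have h2 : (0 : ℝ) < n + 2 + s := by positivity
  have h3 : (0 : ℝ) < n + 3 + 2 * s := by positivity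
  have l2 : HasDerivAt (fun s : ℝ => 2 / (n + 2 + s)) (-2 / (n + 2 + s) ^ 2) s := by
    have := (hasDerivAt_const s (2 : ℝ)).fun_div ((hasDerivAt_id' s).const_add ((n : ℝ) + 2)) h2.ne'
    simpa using this
  have l3 : HasDerivAt (fun s : ℝ => 2 / (n + 3 + 2 * s)) (-4 / (n + 3 + 2 * s) ^ 2) s := by
    have := (hasDerivAt_const s (2 : ℝ)).fun_div
      (((hasDerivAt_id' s).const_mul 2).const_add ((n : ℝ) + 3)) h3.ne'
    refine this.congr_deriv ?_
    ring
  have l4 : HasDerivAt (fun s : ℝ => 2 * (1 + s) * cc n) (2 * cc n) s := by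
    have := (((hasDerivAt_id' s).const_add 1).const_mul 2).mul_const (cc n)
    simpa using this
  have := (((l2.fun_sub l3).fun_sub l4).const_mul ((n : ℝ) + 1)).sub_const (ww 2 n)
  refine this.congr_deriv ?_
  unfold ph
  ring

/-- the function with second derivative `- (p0 + p1 s - p2 s^2)` vanishing at `0` and `1` -/
noncomputable def qq (p0 p1 p2 s : ℝ) : ℝ :=
  s * (1 - s) * (p0 / 2 + p1 * (1 + s) / 6 - p2 * (1 + s + s ^ 2) / 12)

/-- comparison by concavity -/
lemma core (S : Finset ℕ) (p0 p1 p2 : ℝ)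
    (h : ∀ s : ℝ, 0 ≤ s → s ≤ 1 → p0 + p1 * s - p2 * s ^ 2 ≤ ∑ n ∈ S, ph s n) {κ : ℝ} (hk : 0 ≤ κ)
    (hk1 : κ ≤ 1) : qq p0 p1 p2 κ ≤ ∑ n ∈ S, vv κ n := by
  have hc : ConcaveOn ℝ (Set.Icc 0 1) (fun s => (∑ n ∈ S, vf n s) - qq p0 p1 p2 s) := by
    apply concaveOn_of_hasDerivWithinAt2_nonpos (convex_Icc 0 1)
      (f' := fun s => (∑ n ∈ S, vd n s) -
        (p0 * (1 - 2 * s) / 2 + p1 * (1 - 3 * s ^ 2) / 6 - p2 * (1 - 4 * s ^ 3) / 12))
      (f'' := fun s => (∑ n ∈ S, -ph s n) - (-p0 - p1 * s + p2 * s ^ 2))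
    · apply ContinuousOn.sub
      · apply continuousOn_finsetSum
        intro n _
        unfold vf
        have h2 : ∀ s ∈ Set.Icc (0 : ℝ) 1, (n : ℝ) + 2 + s ≠ 0 := by
          intro s hs
          have := hs.1
          positivity
        have h3 : ∀ s ∈ Set.Icc (0 : ℝ) 1, (n : ℝ) + 3 + 2 * s ≠ 0 := by
          intro s hs
          have := hs.1
          positivity
        fun_prop (disch := assumption)
      · unfold qq
        fun_prop
    · intro s hs
      rw [interior_Icc] at hs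
      apply HasDerivAt.hasDerivWithinAt
      apply HasDerivAt.fun_sub
      · exact HasDerivAt.fun_sum fun n _ => hasDerivAt_vf n hs.1
      · have e : qq p0 p1 p2 = fun s => p0 * (s - s ^ 2) / 2 + p1 * (s - s ^ 3) / 6 -
            p2 * (s - s ^ 4) / 12 := by
          funext s
          unfold qq
          ring
        rw [e]
        have := (((((hasDerivAt_id' s).fun_sub (hasDerivAt_pow 2 s)).const_mul p0).div_const 2).fun_add
          ((((hasDerivAt_id' s).fun_sub (hasDerivAt_pow 3 s)).const_mul p1).div_const 6)).fun_sub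
          ((((hasDerivAt_id' s).fun_sub (hasDerivAt_pow 4 s)).const_mul p2).div_const 12)
        refine this.congr_deriv ?_
        norm_num
    · intro s hs
      rw [interior_Icc] at hs
      apply HasDerivAt.hasDerivWithinAt
      apply HasDerivAt.fun_sub
      · exact HasDerivAt.fun_sum fun n _ => hasDerivAt_vd n hs.1
      · have := ((((((hasDerivAt_id' s).const_mul 2).const_sub 1).const_mul p0).div_const 2).fun_add
          (((((hasDerivAt_pow 2 s).const_mul 3).const_sub 1).const_mul p1).div_const 6)).fun_sub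
          (((((hasDerivAt_pow 3 s).const_mul 4).const_sub 1).const_mul p2).div_const 12)
        refine this.congr_deriv ?_
        norm_num
        ring
    · intro s hs
      rw [interior_Icc] at hs
      have := h s hs.1.le hs.2.le
      rw [Finset.sum_neg_distrib]
      linarith
  have h1 := hc.2 (Set.left_mem_Icc.2 zero_le_one) (Set.right_mem_Icc.2 zero_le_one)
    (by linarith : 0 ≤ 1 - κ) hk (by ring)
  have z0 : ∑ n ∈ S, vf n 0 = 0 := Finset.sum_eq_zero fun n _ => by rw [← vv_eq le_rfl, vv_zero]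
  have z1 : ∑ n ∈ S, vf n 1 = 0 := Finset.sum_eq_zero fun n _ => by rw [← vv_eq zero_le_one, vv_one]
  have q0 : qq p0 p1 p2 0 = 0 := by unfold qq; ring
  have q1 : qq p0 p1 p2 1 = 0 := by unfold qq; ring
  simp only [smul_eq_mul, mul_zero, mul_one, zero_add] at h1
  rw [z0, z1, q0, q1] at h1
  have e : ∑ n ∈ S, vv κ n = ∑ n ∈ S, vf n κ := Finset.sum_congr rfl fun n _ => vv_eq hk n
  rw [e]
  linarith

/-- chords -/
lemma chord (n : ℕ) {a b s : ℝ} (ha : 0 ≤ a) (has : a ≤ s) (hsb : s ≤ b) (hb : b ≤ 1) (hab : a < b) :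
    (b - s) * ph a n + (s - a) * ph b n ≤ (b - a) * ph s n := by
  have hc : ConcaveOn ℝ (Set.Icc 0 1) (fun s => ph s n) := by
    apply concaveOn_of_hasDerivWithinAt2_nonpos (convex_Icc 0 1)
      (f' := fun s => ((n : ℝ) + 1) * (-4 / (n + 2 + s) ^ 3 + 16 / (n + 3 + 2 * s) ^ 3))
      (f'' := fun s => ((n : ℝ) + 1) * (12 / (n + 2 + s) ^ 4 - 96 / (n + 3 + 2 * s) ^ 4))
    · unfold ph
      have h2 : ∀ s ∈ Set.Icc (0 : ℝ) 1, ((n : ℝ) + 2 + s) ^ 2 ≠ 0 := by
        intro s hs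
        have := hs.1
        positivity
      have h3 : ∀ s ∈ Set.Icc (0 : ℝ) 1, ((n : ℝ) + 3 + 2 * s) ^ 2 ≠ 0 := by
        intro s hs
        have := hs.1
        positivity
      fun_prop (disch := assumption)
    · intro s hs
      rw [interior_Icc] at hs
      have h0 := hs.1
      have h2 : (0 : ℝ) < n + 2 + s := by positivity
      have h3 : (0 : ℝ) < n + 3 + 2 * s := by positivity
      apply HasDerivAt.hasDerivWithinAt
      have l2 := (hasDerivAt_const s (2 : ℝ)).fun_div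
        (((hasDerivAt_id' s).const_add ((n : ℝ) + 2)).fun_pow 2) (pow_ne_zero 2 h2.ne')
      have l3 := (hasDerivAt_const s (4 : ℝ)).fun_div
        ((((hasDerivAt_id' s).const_mul 2).const_add ((n : ℝ) + 3)).fun_pow 2) (pow_ne_zero 2 h3.ne')
      have := ((l2.fun_sub l3).add_const (2 * cc n)).const_mul ((n : ℝ) + 1)
      refine this.congr_deriv ?_
      push_cast
      field_simp
      ring
    · intro s hs
      rw [interior_Icc] at hs
      have h0 := hs.1
      have h2 : (0 : ℝ) < n + 2 + s := by positivity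
      have h3 : (0 : ℝ) < n + 3 + 2 * s := by positivity
      apply HasDerivAt.hasDerivWithinAt
      have l2 := (hasDerivAt_const s (-4 : ℝ)).fun_div
        (((hasDerivAt_id' s).const_add ((n : ℝ) + 2)).fun_pow 3) (pow_ne_zero 3 h2.ne')
      have l3 := (hasDerivAt_const s (16 : ℝ)).fun_div
        ((((hasDerivAt_id' s).const_mul 2).const_add ((n : ℝ) + 3)).fun_pow 3) (pow_ne_zero 3 h3.ne')
      have := (l2.fun_add l3).const_mul ((n : ℝ) + 1)
      refine this.congr_deriv ?_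
      push_cast
      field_simp
      ring
    · intro s hs
      rw [interior_Icc] at hs
      have h0 := hs.1
      have hs1 := hs.2
      have hn : (0 : ℝ) ≤ n := by positivity
      have h2 : (0 : ℝ) < n + 2 + s := by positivity
      have h3 : (0 : ℝ) < n + 3 + 2 * s := by positivity
      apply mul_nonpos_of_nonneg_of_nonpos (by positivity)
      rw [sub_nonpos, div_le_div_iff₀ (by positivity) (by positivity)]
      have h4 : (n : ℝ) + 3 + 2 * s ≤ 5 / 3 * (n + 2 + s) := by linarith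
      have h5 : ((n : ℝ) + 3 + 2 * s) ^ 4 ≤ (5 / 3 * (n + 2 + s)) ^ 4 :=
        pow_le_pow_left₀ h3.le h4 4
      rw [mul_pow] at h5
      have h6 : (0 : ℝ) ≤ (n + 2 + s) ^ 4 := by positivity
      norm_num at h5
      linarith
  have hba : 0 < b - a := by linarith
  have h1 := hc.2 (⟨ha, by linarith⟩ : a ∈ Set.Icc (0 : ℝ) 1) (⟨by linarith, hb⟩ : b ∈ Set.Icc (0 : ℝ) 1)
    (div_nonneg (by linarith : 0 ≤ b - s) hba.le) (div_nonneg (by linarith : 0 ≤ s - a) hba.le)
    (by rw [← add_div]; rw [show b - s + (s - a) = b - a by ring]; exact div_self hba.ne')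
  simp only [smul_eq_mul] at h1
  have e1 : (b - s) / (b - a) * a + (s - a) / (b - a) * b = s := by
    field_simp
    ring
  rw [e1] at h1
  calc (b - s) * ph a n + (s - a) * ph b n =
      (b - a) * ((b - s) / (b - a) * ph a n + (s - a) / (b - a) * ph b n) := by
        field_simp
    _ ≤ _ := mul_le_mul_of_nonneg_left h1 hba.le

/-! ### the first terms -/

lemma cc_eq (n : ℕ) : cc n = 2 * Real.log (n + 2) - Real.log (n + 1) - Real.log (n + 3) := by
  unfold cc
  have hn : (0 : ℝ) < n + 1 := by positivity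
  have hn3 : (0 : ℝ) < n + 3 := by positivity
  have e1 : 1 + 1 / (((n : ℝ) + 1) * (n + 3)) = (n + 2) ^ 2 / ((n + 1) * (n + 3)) := by
    field_simp
    ring
  rw [e1, Real.log_div (by positivity) (by positivity), Real.log_mul hn.ne' hn3.ne', Real.log_pow]
  push_cast
  ring

lemma sum_cc (N : ℕ) : ∑ n ∈ Finset.range N, ((n : ℝ) + 1) * cc n =
    (N + 1) * Real.log (N + 1) - N * Real.log (N + 2) := by
  induction N with
  | zero => simp
  | succ N ih =>
    rw [Finset.sum_range_succ, ih, cc_eq]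
    push_cast
    have e1 : (N : ℝ) + 1 + 1 = N + 2 := by ring
    have e2 : (N : ℝ) + 1 + 2 = N + 3 := by ring
    rw [e1, e2]
    ring

lemma cc63 : (318211 / 100000 : ℝ) ≤ ∑ n ∈ Finset.range 63, ((n : ℝ) + 1) * cc n := by
  rw [sum_cc]
  have h64 : Real.log 64 = 6 * Real.log 2 := by
    rw [show (64 : ℝ) = 2 ^ 6 by norm_num, Real.log_pow]
    norm_num
  have h65 : Real.log 65 = Real.log 64 + Real.log (1 + 1 / 64) := by
    rw [← Real.log_mul (by norm_num) (by norm_num)]
    norm_num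
  have h1 := log_le (x := 1 / 64) (by norm_num)
  have h2 := Real.log_two_gt_d9
  push_cast
  norm_num only [h64, h65] at h1 ⊢
  linarith

/-- rational part -/
def rs (s : ℚ) : ℚ := ∑ n ∈ Finset.range 63, ((n : ℚ) + 1) * (2 / (n + 2 + s) ^ 2 - 4 / (n + 3 + 2 * s) ^ 2)

lemma sum_ph (s : ℚ) : ∑ n ∈ Finset.range 63, ph s n = (rs s : ℝ) +
    2 * ∑ n ∈ Finset.range 63, ((n : ℝ) + 1) * cc n := by
  unfold rs ph
  push_cast
  rw [Finset.mul_sum, ← Finset.sum_add_distrib]
  apply Finset.sum_congr rfl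
  intro n _
  ring

lemma node (s r : ℚ) (h : r ≤ rs s) : (r : ℝ) + 2 * (318211 / 100000) ≤ ∑ n ∈ Finset.range 63, ph s n := by
  rw [sum_ph]
  have h1 := cc63
  have h2 : (r : ℝ) ≤ rs s := by exact_mod_cast h
  linarith

lemma n0 : (25932 / 10000 : ℝ) ≤ ∑ n ∈ Finset.range 63, ph 0 n := by
  have := node 0 (-377100 / 100000) (by decide +kernel)
  push_cast at this
  refine le_trans ?_ this
  norm_num

lemma n1 : (30113 / 10000 : ℝ) ≤ ∑ n ∈ Finset.range 63, ph (1 / 4) n := by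
  have := node (1 / 4) (-335285 / 100000) (by decide +kernel)
  push_cast at this
  refine le_trans ?_ this
  norm_num

lemma n2 : (33426 / 10000 : ℝ) ≤ ∑ n ∈ Finset.range 63, ph (1 / 2) n := by
  have := node (1 / 2) (-302155 / 100000) (by decide +kernel)
  push_cast at this
  refine le_trans ?_ this
  norm_num

lemma n3 : (36147 / 10000 : ℝ) ≤ ∑ n ∈ Finset.range 63, ph (3 / 4) n := by
  have := node (3 / 4) (-274945 / 100000) (by decide +kernel)
  push_cast at this
  refine le_trans ?_ this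
  norm_num

lemma n4 : (38440 / 10000 : ℝ) ≤ ∑ n ∈ Finset.range 63, ph 1 n := by
  have := node 1 (-252020 / 100000) (by decide +kernel)
  push_cast at this
  refine le_trans ?_ this
  norm_num

lemma chord63 {a b s : ℝ} (ha : 0 ≤ a) (has : a ≤ s) (hsb : s ≤ b) (hb : b ≤ 1) (hab : a < b) :
    (b - s) * (∑ n ∈ Finset.range 63, ph a n) + (s - a) * (∑ n ∈ Finset.range 63, ph b n) ≤
      (b - a) * ∑ n ∈ Finset.range 63, ph s n := by
  rw [Finset.mul_sum, Finset.mul_sum, Finset.mul_sum, ← Finset.sum_add_distrib]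
  exact Finset.sum_le_sum fun n _ => chord n ha has hsb hb hab

lemma first {s : ℝ} (hs : 0 ≤ s) (hs1 : s ≤ 1) :
    25688 / 10000 + 17472 / 10000 * s - 1 / 2 * s ^ 2 ≤ ∑ n ∈ Finset.range 63, ph s n := by
  have h0 := n0
  have h1 := n1
  have h2 := n2
  have h3 := n3
  have h4 := n4
  rcases le_total s (1 / 4) with h | h
  · have := chord63 (a := 0) (b := 1 / 4) le_rfl hs h (by norm_num) (by norm_num)
    nlinarith
  rcases le_total s (1 / 2) with h' | h'
  · have := chord63 (a := 1 / 4) (b := 1 / 2) (by norm_num) h h' (by norm_num) (by norm_num)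
    nlinarith
  rcases le_total s (3 / 4) with h'' | h''
  · have := chord63 (a := 1 / 2) (b := 3 / 4) (by norm_num) h' h'' (by norm_num) (by norm_num)
    nlinarith
  · have := chord63 (a := 3 / 4) (b := 1) (by norm_num) h'' hs1 (by norm_num) (by norm_num)
    nlinarith

/-! ### the other terms -/

lemma cc_ge (n : ℕ) : 1 / (((n : ℝ) + 1) * (n + 3)) - (1 / (((n : ℝ) + 1) * (n + 3))) ^ 2 / 2 ≤ cc n :=
  log_ge (by positivity)

lemma tail0 {n : ℕ} (hn : 3 ≤ n) : 8 / (((n : ℝ) + 3) * (n + 4)) ≤ ph 0 n := by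
  have h := cc_ge n
  have hn3 : (3 : ℝ) ≤ n := by exact_mod_cast hn
  unfold ph
  refine le_trans ?_ (mul_le_mul_of_nonneg_left (add_le_add_right (mul_le_mul_of_nonneg_left h
    (by norm_num : (0 : ℝ) ≤ 2)) _) (by positivity))
  rw [← sub_nonneg]
  generalize (n : ℝ) = x at hn3 ⊢
  obtain ⟨m, rfl⟩ : ∃ m, x = m - 1 := ⟨x + 1, by ring⟩
  have hm : 4 ≤ m := by linarith
  have e : (m - 1 + 1) * (2 / (m - 1 + 2 + 0) ^ 2 - 4 / (m - 1 + 3 + 2 * 0) ^ 2 +
      2 * (1 / ((m - 1 + 1) * (m - 1 + 3)) - (1 / ((m - 1 + 1) * (m - 1 + 3))) ^ 2 / 2)) -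
      8 / ((m - 1 + 3) * (m - 1 + 4)) =
      (5 * m ^ 3 + m ^ 2 - 11 * m - 3) / (m * (m + 1) ^ 2 * (m + 2) ^ 2 * (m + 3)) := by
    rw [show m - 1 + 1 = m by ring, show m - 1 + 2 + 0 = m + 1 by ring,
      show m - 1 + 3 + 2 * 0 = m + 2 by ring, show m - 1 + 3 = m + 2 by ring,
      show m - 1 + 4 = m + 3 by ring]
    have h0 : m ≠ 0 := by linarith
    have h1 : m + 1 ≠ 0 := by linarith
    have h2 : m + 2 ≠ 0 := by linarith
    have h3 : m + 3 ≠ 0 := by linarith
    field_simp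
    ring
  rw [e]
  apply div_nonneg
  · nlinarith [mul_nonneg (by linarith : 0 ≤ m) (by linarith : 0 ≤ m - 4),
      mul_nonneg (mul_nonneg (by linarith : 0 ≤ m) (by linarith : 0 ≤ m)) (by linarith : 0 ≤ m - 4)]
  · positivity

lemma tail1 {n : ℕ} (hn : 3 ≤ n) : 20 / (((n : ℝ) + 5) * (n + 6)) ≤ ph 1 n := by
  have h := cc_ge n
  have hn3 : (3 : ℝ) ≤ n := by exact_mod_cast hn
  unfold ph
  refine le_trans ?_ (mul_le_mul_of_nonneg_left (add_le_add_right (mul_le_mul_of_nonneg_left h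
    (by norm_num : (0 : ℝ) ≤ 2)) _) (by positivity))
  rw [← sub_nonneg]
  generalize (n : ℝ) = x at hn3 ⊢
  obtain ⟨m, rfl⟩ : ∃ m, x = m - 1 := ⟨x + 1, by ring⟩
  have hm : 4 ≤ m := by linarith
  have e : (m - 1 + 1) * (2 / (m - 1 + 2 + 1) ^ 2 - 4 / (m - 1 + 3 + 2 * 1) ^ 2 +
      2 * (1 / ((m - 1 + 1) * (m - 1 + 3)) - (1 / ((m - 1 + 1) * (m - 1 + 3))) ^ 2 / 2)) -
      20 / ((m - 1 + 5) * (m - 1 + 6)) =
      (19 * m ^ 3 + 51 * m ^ 2 - 56 * m - 80) / (m * (m + 2) ^ 2 * (m + 4) ^ 2 * (m + 5)) := by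
    rw [show m - 1 + 1 = m by ring, show m - 1 + 2 + 1 = m + 2 by ring,
      show m - 1 + 3 + 2 * 1 = m + 4 by ring, show m - 1 + 3 = m + 2 by ring,
      show m - 1 + 5 = m + 4 by ring, show m - 1 + 6 = m + 5 by ring]
    have h0 : m ≠ 0 := by linarith
    have h2 : m + 2 ≠ 0 := by linarith
    have h4 : m + 4 ≠ 0 := by linarith
    have h5 : m + 5 ≠ 0 := by linarith
    field_simp
    ring
  rw [e]
  apply div_nonneg
  · nlinarith [mul_nonneg (by linarith : 0 ≤ m) (by linarith : 0 ≤ m - 4),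
      mul_nonneg (mul_nonneg (by linarith : 0 ≤ m) (by linarith : 0 ≤ m)) (by linarith : 0 ≤ m - 4)]
  · positivity

lemma term {κ : ℝ} (hk : 0 ≤ κ) (hk1 : κ ≤ 1) {n : ℕ} (hn : 3 ≤ n) :
    κ * (1 - κ) * ((2 - κ) / 6 * (8 / (((n : ℝ) + 3) * (n + 4))) +
      (1 + κ) / 6 * (20 / (((n : ℝ) + 5) * (n + 6)))) ≤ vv κ n := by
  have h := core {n} (8 / (((n : ℝ) + 3) * (n + 4)))
    (20 / (((n : ℝ) + 5) * (n + 6)) - 8 / (((n : ℝ) + 3) * (n + 4))) 0 (fun s hs hs1 => ?_) hk hk1
  · rw [Finset.sum_singleton] at h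
    refine le_trans (le_of_eq ?_) h
    unfold qq
    ring
  · rw [Finset.sum_singleton]
    have h1 := chord n (a := 0) (b := 1) le_rfl hs hs1 le_rfl zero_lt_one
    have h2 := mul_le_mul_of_nonneg_left (tail0 hn) (by linarith : 0 ≤ 1 - s)
    have h3 := mul_le_mul_of_nonneg_left (tail1 hn) hs
    linarith

lemma summable_vv {κ : ℝ} (hk : 0 ≤ κ) : Summable (vv κ) :=
  (summable_ww (by linarith)).sub ((summable_ww (by norm_num)).mul_left κ)

lemma sum_ge {κ : ℝ} (hk : 0 ≤ κ) (hk1 : κ ≤ 1) :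
    κ * (1 - κ) * (162 / 100 + 23 / 100 * κ) ≤ ∑' n, vv κ n := by
  have hp : 0 ≤ κ * (1 - κ) := mul_nonneg hk (by linarith)
  have h0 := (summable_vv hk).sum_le_tsum (Finset.range (63 + 1000000)) fun n hn => by
    have hn3 : 3 ≤ n := by
      rw [Finset.mem_range] at hn
      omega
    refine le_trans ?_ (term hk hk1 hn3)
    have : 0 ≤ 2 - κ := by linarith
    positivity
  refine le_trans ?_ h0
  rw [Finset.sum_range_add]
  have h1 := core (Finset.range 63) (25688 / 10000) (17472 / 10000) (1 / 2)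
    (fun s hs hs1 => first hs hs1) hk hk1
  have h2 : ∑ j ∈ Finset.range 1000000, κ * (1 - κ) * ((2 - κ) / 6 *
      (4 * (2 / (((j : ℝ) + 66) * (j + 66 + 1)))) + (1 + κ) / 6 *
      (10 * (2 / (((j : ℝ) + 68) * (j + 68 + 1))))) ≤
      ∑ j ∈ Finset.range 1000000, vv κ (63 + j) := by
    apply Finset.sum_le_sum
    intro j _
    refine le_trans (le_of_eq ?_) (term hk hk1 (n := 63 + j) (by omega))
    push_cast
    have e1 : (63 : ℝ) + j + 3 = j + 66 := by ring
    have e2 : (63 : ℝ) + j + 4 = j + 66 + 1 := by ring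
    have e3 : (63 : ℝ) + j + 5 = j + 68 := by ring
    have e4 : (63 : ℝ) + j + 6 = j + 68 + 1 := by ring
    rw [e1, e2, e3, e4]
    ring
  rw [← Finset.mul_sum, Finset.sum_add_distrib, ← Finset.mul_sum, ← Finset.mul_sum, ← Finset.mul_sum,
    ← Finset.mul_sum, tele 66 (by norm_num), tele 68 (by norm_num)] at h2
  refine le_trans ?_ (add_le_add h1 h2)
  unfold qq
  rw [mul_assoc κ (1 - κ) _, mul_assoc κ (1 - κ) _, mul_assoc κ (1 - κ) _]
  rw [← mul_add, ← mul_add]
  apply mul_le_mul_of_nonneg_left _ hk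
  apply mul_le_mul_of_nonneg_left _ (by linarith : 0 ≤ 1 - κ)
  norm_num
  nlinarith

lemma barnes5 : barnesG (2 * 2 + 1) = 12 := by
  have e5 : (2 * 2 + 1 : ℝ) = (2 + 1 + 1) + 1 := by norm_num
  have e3 : (2 + 1 : ℝ) = 2 * 1 + 1 := by norm_num
  have g3 : Real.Gamma (2 + 1) = 2 := by
    have := Real.Gamma_nat_eq_factorial 2
    norm_num at this ⊢
  have g4 : Real.Gamma (2 + 1 + 1) = 6 := by
    have := Real.Gamma_nat_eq_factorial 3
    norm_num [Nat.factorial] at this ⊢
  rw [e5, barnesG_add_one (by norm_num), barnesG_add_one (by norm_num), g3, g4, e3, barnes3]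
  norm_num

lemma sum_two : ∑' n, ww 2 n = -Real.log 12 := by
  have h := quot_ww (k := 2) (by norm_num)
  have e : (2 + 1 : ℝ) = 2 * 1 + 1 := by norm_num
  rw [barnes5, e, barnes3] at h
  have h1 : Real.log (1 ^ 2 / 12) = ∑' n, ww 2 n := by rw [h, Real.log_exp]
  rw [← h1]
  rw [one_pow, one_div, Real.log_inv]

end G7M

open G7M in
/-- (N1) -/
theorem stG7 : StG7 := by
  intro κ hk hk1
  have h := sum_ge hk.le hk1.le
  have e : ∑' n, G7M.vv κ n = ∑' n, ww (1 + κ) n + κ * Real.log 12 := by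
    unfold G7M.vv
    rw [Summable.tsum_sub (summable_ww (by linarith)) ((summable_ww (by norm_num)).mul_left κ),
      tsum_mul_left, sum_two]
    ring
  rw [quot_ww (by linarith)]
  apply Real.exp_le_exp.2
  linarith

end K7
end Pool.Agent.Lib.MP_973905_nt
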