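import Pool.Agent.Lib.MP_973905_nt.K7.Stmts
import Pool.Agent.Lib.MP_973905_nt.K1.LF
import Pool.Agent.Lib.MP_973905_nt.K3.LF4

/-! The local factor with negative exponent is Lipschitz in the shifts. -/

set_option autoImplicit false

namespace Pool.Agent.Lib.MP_973905_nt
namespace K7

open MeasureTheory ProbabilityTheory Complex Filter Topology K1 K4 K5

namespace LFnA

open K1.LFaux K3.LF4aux

/-- bounds for the weight, nonnegative exponent -/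
lemma rpow_near {x r s : ℝ} (hx0 : 0 ≤ x) (hx1 : x ≤ 3 / 4) (h1 : 1 - x ≤ r) (h2 : r ≤ 1 + x)
    (hs0 : 0 ≤ s) (hs1 : s ≤ 1) : |r ^ (2 * s) - 1| ≤ 3 * x ∧ (1 - x) ^ 2 ≤ r ^ (2 * s) := by
  have hr : 0 < r := by linarith
  have e : r ^ (2 : ℝ) = r ^ 2 := by
    rw [← Real.rpow_natCast]
    norm_num
  rcases le_total r 1 with h | h
  · have a1 : r ^ (2 * s) ≤ 1 := Real.rpow_le_one hr.le h (by linarith)
    have a2 : r ^ (2 : ℝ) ≤ r ^ (2 * s) := Real.rpow_le_rpow_of_exponent_ge hr h (by linarith)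
    rw [e] at a2
    have a3 : (1 - x) ^ 2 ≤ r ^ 2 := pow_le_pow_left₀ (by linarith) h1 2
    refine ⟨?_, a3.trans a2⟩
    rw [abs_le]
    constructor <;> nlinarith
  · have a1 : 1 ≤ r ^ (2 * s) := Real.one_le_rpow h (by linarith)
    have a2 : r ^ (2 * s) ≤ r ^ (2 : ℝ) := Real.rpow_le_rpow_of_exponent_le h (by linarith)
    rw [e] at a2
    have a3 : r ^ 2 ≤ (1 + x) ^ 2 := pow_le_pow_left₀ hr.le h2 2
    refine ⟨?_, ?_⟩
    · rw [abs_le]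
      constructor <;> nlinarith
    · nlinarith

lemma norm_one_sub {x : ℝ} (hx0 : 0 ≤ x) {z : ℂ} (hz : ‖z‖ = 1) :
    1 - x ≤ ‖1 - (x : ℂ) * z‖ ∧ ‖1 - (x : ℂ) * z‖ ≤ 1 + x := by
  have hn : ‖(x : ℂ) * z‖ = x := by
    rw [norm_mul, hz, mul_one, norm_real, Real.norm_eq_abs, abs_of_nonneg hx0]
  constructor
  · have := norm_sub_norm_le (1 : ℂ) ((x : ℂ) * z)
    rw [norm_one, hn] at this
    exact this
  · have := norm_sub_le (1 : ℂ) ((x : ℂ) * z)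
    rw [norm_one, hn] at this
    exact this

/-- the weight -/
noncomputable def w (u x : ℝ) (z : ℂ) : ℂ := ((‖1 - x * z‖ ^ (2 * u) : ℝ) : ℂ)

lemma w_sub_one {u x : ℝ} (hu0 : -1 ≤ u) (hu1 : u ≤ 1) (hx0 : 0 ≤ x) (hx1 : x ≤ 3 / 4) {z : ℂ}
    (hz : ‖z‖ = 1) : ‖w u x z - 1‖ ≤ 48 * x := by
  obtain ⟨h1, h2⟩ := norm_one_sub hx0 hz
  have e : w u x z - 1 = ((‖1 - (x : ℂ) * z‖ ^ (2 * u) - 1 : ℝ) : ℂ) := by
    unfold w
    push_cast
    ring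
  rw [e, norm_real, Real.norm_eq_abs]
  obtain ⟨r, hrdef⟩ : ∃ r, r = ‖1 - (x : ℂ) * z‖ := ⟨_, rfl⟩
  rw [← hrdef] at h1 h2 ⊢
  have hr : 0 < r := by linarith
  rcases le_total 0 u with h | h
  · have := (rpow_near hx0 hx1 h1 h2 h hu1).1
    linarith
  · obtain ⟨b1, b2⟩ := rpow_near (s := -u) hx0 hx1 h1 h2 (by linarith) (by linarith)
    have e2 : r ^ (2 * u) = (r ^ (2 * -u))⁻¹ := by
      rw [← Real.rpow_neg hr.le]
      congr 1
      ring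
    have b3 : (1 : ℝ) / 16 ≤ r ^ (2 * -u) := by nlinarith
    rw [e2]
    obtain ⟨v, hvdef⟩ : ∃ v, v = r ^ (2 * -u) := ⟨_, rfl⟩
    rw [← hvdef] at b1 b3 ⊢
    have hv : 0 < v := by linarith
    have e3 : v⁻¹ - 1 = (1 - v) * v⁻¹ := by
      field_simp
    rw [e3, abs_mul, abs_sub_comm, abs_of_pos (inv_pos.2 hv)]
    have b4 : v⁻¹ ≤ 16 := by
      rw [inv_le_comm₀ hv (by norm_num)]
      linarith
    calc |v - 1| * v⁻¹ ≤ (3 * x) * 16 := mul_le_mul b1 b4 (inv_nonneg.2 hv.le) (by linarith)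
      _ = 48 * x := by ring

lemma w_cont {u x : ℝ} (hx0 : 0 ≤ x) (hx1 : x ≤ 3 / 4) :
    ContinuousOn (w u x) (Metric.sphere 0 |(1 : ℝ)|) := by
  unfold w
  apply Complex.continuous_ofReal.comp_continuousOn
  apply ContinuousOn.rpow_const
  · fun_prop
  · intro z hz
    left
    have hz' : ‖z‖ = 1 := by simpa using hz
    have := (norm_one_sub hx0 hz').1
    intro h0
    rw [h0] at this
    linarith

lemma avg_sub_le {f g : ℂ → ℂ} (hf : ContinuousOn f (Metric.sphere 0 |(1 : ℝ)|))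
    (hg : ContinuousOn g (Metric.sphere 0 |(1 : ℝ)|)) {M : ℝ}
    (h : ∀ z, ‖z‖ = 1 → ‖f z - g z‖ ≤ M) :
    ‖Real.circleAverage f 0 1 - Real.circleAverage g 0 1‖ ≤ M := by
  rw [← Real.circleAverage_fun_sub hf.circleIntegrable' hg.circleIntegrable']
  exact norm_avg_le h

/-- splitting off the average of the kernel -/
lemma avg_split {K : ℂ → ℂ} {u x : ℝ} (hK : ContinuousOn K (Metric.sphere 0 |(1 : ℝ)|))
    (hx0 : 0 ≤ x) (hx1 : x ≤ 3 / 4) :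
    Real.circleAverage (fun z => K z * w u x z) 0 1 =
      Real.circleAverage K 0 1 + Real.circleAverage (fun z => K z * (w u x z - 1)) 0 1 := by
  have hw := w_cont (u := u) hx0 hx1
  have h1 : ContinuousOn (fun z => K z * (w u x z - 1)) (Metric.sphere 0 |(1 : ℝ)|) :=
    hK.mul (hw.sub continuousOn_const)
  have e : (fun z => K z * w u x z) = fun z => K z + K z * (w u x z - 1) := by
    funext z
    ring
  rw [e]
  exact Real.circleAverage_fun_add hK.circleIntegrable' h1.circleIntegrable'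

lemma mul_lip {p q p' q' : ℂ} {A B d e : ℝ} (h1 : ‖p - p'‖ ≤ d) (h2 : ‖q - q'‖ ≤ e)
    (hq : ‖q‖ ≤ B) (hp : ‖p'‖ ≤ A) : ‖p * q - p' * q'‖ ≤ d * B + A * e := by
  have hd : 0 ≤ d := (norm_nonneg _).trans h1
  have hA : 0 ≤ A := (norm_nonneg _).trans hp
  have e1 : p * q - p' * q' = (p - p') * q + p' * (q - q') := by ring
  rw [e1]
  refine (norm_add_le _ _).trans ?_
  rw [norm_mul, norm_mul]
  exact add_le_add (mul_le_mul h1 hq (norm_nonneg _) hd) (mul_le_mul hp h2 (norm_nonneg _) hA)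

lemma inv_lip {a b z : ℂ} (ha : ‖a‖ ≤ 3 / 4) (hb : ‖b‖ ≤ 3 / 4) (hz : ‖z‖ = 1) :
    ‖(1 - a * z)⁻¹ - (1 - b * z)⁻¹‖ ≤ 16 * ‖a - b‖ := by
  have na : 1 - a * z ≠ 0 := ne0 ha (by linarith)
  have nb : 1 - b * z ≠ 0 := ne0 hb (by linarith)
  have i1 := mul_inv_cancel₀ na
  have i2 := mul_inv_cancel₀ nb
  have e : (1 - a * z)⁻¹ - (1 - b * z)⁻¹ = (a - b) * z * ((1 - a * z)⁻¹ * (1 - b * z)⁻¹) := by
    linear_combination (-(1 - a * z)⁻¹) * i2 + (1 - b * z)⁻¹ * i1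
  rw [e, norm_mul, norm_mul, norm_mul, hz, mul_one]
  have h1 := inv_le_four (w := a * z) (by rw [norm_mul, hz, mul_one]; exact ha)
  have h2 := inv_le_four (w := b * z) (by rw [norm_mul, hz, mul_one]; exact hb)
  calc ‖a - b‖ * (‖(1 - a * z)⁻¹‖ * ‖(1 - b * z)⁻¹‖) ≤ ‖a - b‖ * (4 * 4) :=
        mul_le_mul_of_nonneg_left (mul_le_mul h1 h2 (norm_nonneg _) (by norm_num))
          (norm_nonneg _)
    _ = 16 * ‖a - b‖ := by ring

lemma norm_shift_le {x : ℝ} {y : ℂ} (hx0 : 0 ≤ x) (hx1 : x ≤ 7072 / 10000)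
    (hy : ‖y - x‖ ≤ x / 50) : ‖y‖ ≤ 3 / 4 := by
  have hxn : ‖(x : ℂ)‖ = x := by
    rw [norm_real, Real.norm_eq_abs, abs_of_nonneg hx0]
  have h := norm_add_le (y - x) (x : ℂ)
  rw [sub_add_cancel, hxn] at h
  linarith

lemma Kr_cont {x₁ x₂ : ℂ} (h₁ : ‖x₁‖ ≤ 3 / 4) (h₂ : ‖x₂‖ ≤ 3 / 4) :
    ContinuousOn (fun z => Kr x₁ x₂ z) (Metric.sphere 0 |(1 : ℝ)|) := by
  unfold Kr
  apply ContinuousOn.mul
  · apply ContinuousOn.inv₀
    · fun_prop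
    · intro z hz
      have hz' : ‖z‖ = 1 := by simpa using hz
      exact ne0 h₁ (by linarith)
  · apply ContinuousOn.inv₀
    · exact continuousOn_const.sub (continuousOn_const.mul Complex.continuous_conj.continuousOn)
    · intro z hz
      have hz' : ‖z‖ = 1 := by simpa using hz
      exact ne0 h₂ (by rw [RCLike.norm_conj]; linarith)

lemma Kr_lip {x₁ x₂ x z : ℂ} (h₁ : ‖x₁‖ ≤ 3 / 4) (h₂ : ‖x₂‖ ≤ 3 / 4) (hx : ‖x‖ ≤ 3 / 4)
    (hz : ‖z‖ = 1) : ‖Kr x₁ x₂ z - Kr x x z‖ ≤ 64 * (‖x₁ - x‖ + ‖x₂ - x‖) := by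
  have hz' : ‖(starRingEnd ℂ) z‖ = 1 := by rw [RCLike.norm_conj, hz]
  have h := mul_lip (inv_lip h₁ hx hz) (inv_lip h₂ hx hz')
    (inv_le_four (w := x₂ * (starRingEnd ℂ) z) (by rw [norm_mul, hz', mul_one]; exact h₂))
    (inv_le_four (w := x * z) (by rw [norm_mul, hz, mul_one]; exact hx))
  refine h.trans (le_of_eq ?_)
  ring

/-- the local factor, normalised -/
lemma LF_eq {u x : ℝ} {x₁ x₂ : ℂ} (hx0 : 0 ≤ x) (hx1 : x ≤ 3 / 4) (h₁ : ‖x₁‖ ≤ 3 / 4)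
    (h₂ : ‖x₂‖ ≤ 3 / 4) : (1 - x₁ * x₂) * LF u x x₁ x₂ =
      1 + (1 - x₁ * x₂) * Real.circleAverage (fun z => Kr x₁ x₂ z * (w u x z - 1)) 0 1 := by
  have h₁' : ‖x₁‖ < 1 := by linarith
  have h₂' : ‖x₂‖ < 1 := by linarith
  have hne : 1 - x₁ * x₂ ≠ 0 := one_sub_mul_ne h₁' h₂'.le
  have e1 : LF u x x₁ x₂ = Real.circleAverage (fun z => Kr x₁ x₂ z * w u x z) 0 1 := rfl
  have e2 : Real.circleAverage (fun z => Kr x₁ x₂ z) 0 1 = 1 / (1 - x₁ * x₂) := by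
    have h := avg_pow h₁' h₂' 0
    simpa using h
  rw [e1, avg_split (Kr_cont h₁ h₂) hx0 hx1, e2, mul_add, mul_one_div_cancel hne]

end LFnA

open LFnA K1.LFaux K3.LF4aux in
theorem stLFn : StLFn := by
  refine ⟨6912, by norm_num, ?_⟩
  intro u x x₁ x₂ hu0 hu1 hx0 hx1 h₁ h₂
  have hx34 : x ≤ 3 / 4 := by linarith
  have hxn : ‖(x : ℂ)‖ ≤ 3 / 4 := by
    rw [norm_real, Real.norm_eq_abs, abs_of_nonneg hx0]
    exact hx34
  have n1 := norm_shift_le hx0 hx1 h₁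
  have n2 := norm_shift_le hx0 hx1 h₂
  have hw := w_cont (u := u) hx0 hx34
  rw [LF_eq hx0 hx34 n1 n2, LF_eq hx0 hx34 hxn hxn]
  obtain ⟨R, hR⟩ : ∃ R, R = Real.circleAverage (fun z => Kr x₁ x₂ z * (w u x z - 1)) 0 1 :=
    ⟨_, rfl⟩
  obtain ⟨R0, hR0⟩ : ∃ R0, R0 = Real.circleAverage
    (fun z => Kr (x : ℂ) (x : ℂ) z * (w u x z - 1)) 0 1 := ⟨_, rfl⟩
  have hd0 : 0 ≤ ‖x₁ - x‖ + ‖x₂ - x‖ := by positivity
  have b1 : ‖R - R0‖ ≤ 64 * (‖x₁ - x‖ + ‖x₂ - x‖) * (48 * x) := by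
    rw [hR, hR0]
    apply avg_sub_le
    · exact (Kr_cont n1 n2).mul (hw.sub continuousOn_const)
    · exact (Kr_cont hxn hxn).mul (hw.sub continuousOn_const)
    · intro z hz
      rw [← sub_mul, norm_mul]
      exact mul_le_mul (Kr_lip n1 n2 hxn hz) (w_sub_one hu0 (by linarith) hx0 hx34 hz)
        (norm_nonneg _) (by positivity)
  have b2 : ‖R‖ ≤ 16 * (48 * x) := by
    rw [hR]
    apply norm_avg_le
    intro z hz
    rw [norm_mul]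
    exact mul_le_mul (norm_Kr_le n1 n2 hz) (w_sub_one hu0 (by linarith) hx0 hx34 hz)
      (norm_nonneg _) (by norm_num)
  have b3 : ‖(1 - x₁ * x₂) - (1 - (x : ℂ) * x)‖ ≤ ‖x₁ - x‖ + ‖x₂ - x‖ := by
    have h := mul_lip (p := x₁) (p' := (x : ℂ)) (q := x₂) (q' := (x : ℂ)) le_rfl le_rfl
      n2 hxn
    have e : (1 - x₁ * x₂) - (1 - (x : ℂ) * x) = -(x₁ * x₂ - x * x) := by ring
    rw [e, norm_neg]
    have := norm_nonneg (x₁ - (x : ℂ))
    have := norm_nonneg (x₂ - (x : ℂ))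
    linarith
  have b4 : ‖1 - (x : ℂ) * x‖ ≤ 2 := by
    refine (norm_sub_le _ _).trans ?_
    rw [norm_one, norm_mul]
    nlinarith [norm_nonneg (x : ℂ)]
  have e : 1 + (1 - x₁ * x₂) * R - (1 + (1 - (x : ℂ) * x) * R0) =
      (1 - x₁ * x₂) * R - (1 - (x : ℂ) * x) * R0 := by ring
  rw [← hR, ← hR0, e]
  refine (mul_lip b3 b1 b2 b4).trans (le_of_eq ?_)
  ring

end K7
end Pool.Agent.Lib.MP_973905_nt
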