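import Pool.Agent.Lib.MP_973905_nt.K7.Stmts
import Pool.Agent.Lib.MP_973905_nt.K5.AK
import Pool.Agent.Lib.MP_973905_nt.K2.Arith2

set_option autoImplicit false

/-! Module K7-S1: the arithmetic factor as a limit over finite products, `1 ≤ k ≤ 2`. -/

namespace Pool.Agent.Lib.MP_973905_nt
namespace K7

open MeasureTheory ProbabilityTheory Complex Filter Topology K1 K4 K5

namespace AK7aux

open CK K5.AKaux

lemma tendsto_lf2 {k : ℝ} (hk : 0 < k) (hk2 : k ≤ 2) :
    Tendsto (fun y : ℝ => ∏ p ∈ PS 0 y, lf k ((p : ℝ)⁻¹)) atTop (𝓝 (aK k)) := by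
  have h1 := (K2.Arith2.summable_log_lf2 hk hk2).hasSum.comp tendsto_PP
  have h2 := (Real.continuous_exp.tendsto _).comp h1
  rw [← K2.Arith2.aK_exp2 hk hk2] at h2
  refine h2.congr fun y => ?_
  simp only [Function.comp_apply]
  rw [sum_PP y (fun p => Real.log (lf k ((p : ℝ)⁻¹))), Real.exp_sum]
  refine Finset.prod_congr rfl fun p hp => ?_
  have hp2 := (K5.AKaux.mem_PS.mp hp).2
  have := prime_inv ⟨p, hp2⟩
  exact Real.exp_log (K2.Arith2.lf_pos2 hk hk2 this.1 this.2)

end AK7aux

open AK7aux CK K5.AKaux in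
theorem stAK7 (h : K5.StMertens) : StAK7 := by
  intro k hk1 hk2
  have hk : 0 < k := by linarith
  refine ⟨K2.Arith2.aK_pos2 hk hk2, ?_, ?_⟩
  · have h1 := (((tendsto_ratio h).rpow_const (p := k ^ 2) (Or.inl one_ne_zero))).mul
      (tendsto_lf2 hk hk2)
    rw [Real.one_rpow, one_mul] at h1
    refine h1.congr' ?_
    filter_upwards [eventually_gt_atTop 1] with y hy
    have hL : 0 < Real.exp Real.eulerMascheroniConstant * Real.log y :=
      mul_pos (Real.exp_pos _) (Real.log_pos hy)
    rw [prod_Dl hk, Real.div_rpow (MM_pos y).le hL.le]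
    ring
  · have h1 := (((tendsto_ratio h).rpow_const (p := k ^ 2 - 1) (Or.inl one_ne_zero))).mul
      (tendsto_lf2 hk hk2)
    rw [Real.one_rpow, one_mul] at h1
    refine h1.congr' ?_
    filter_upwards [eventually_gt_atTop 1] with y hy
    have hL : 0 < Real.exp Real.eulerMascheroniConstant * Real.log y :=
      mul_pos (Real.exp_pos _) (Real.log_pos hy)
    rw [Finset.prod_mul_distrib, prod_Dl hk, prod_one_sub,
      Real.div_rpow (MM_pos y).le hL.le, Real.rpow_sub (MM_pos y), Real.rpow_one]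
    ring

end K7
end Pool.Agent.Lib.MP_973905_nt
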