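import Pool.Agent.Lib.MP_973905_nt.K7.Stmts
import Pool.Agent.Lib.MP_973905_nt.K1.Averages

/-! Module (S12) of K7: from Gaussian means on the scales `T' ≤ T` to integrals. -/

namespace Pool.Agent.Lib.MP_973905_nt
namespace K7

open MeasureTheory ProbabilityTheory Complex Filter Topology K1 K4 K5
open scoped ENNReal

namespace AvDM

open K1.Averages

/-- One scale: the integral over `[a + Δ, T]`. -/
lemma one_scale {T : ℝ} (hT : 0 < T) {F : ℝ → ℝ} (hF : Continuous F) (hF0 : ∀ t, 0 ≤ F t)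
    {Cp : ℝ} (hFb : ∀ t, F t ≤ Cp * (1 + |t|) ^ 4) {D a : ℝ} (hD : 0 ≤ D)
    (ha : T ^ (97 / 100 : ℝ) ≤ a) (haT : 2 * a ≤ T)
    (hB : ∀ τ : ℝ, a ≤ |τ| → |τ| ≤ 3 / 2 * T → EG T τ F ≤ D) :
    (1 - qq T) * ∫ t in (2 * a)..T, F t ≤ T * D := by
  set Δ : ℝ := T ^ (97 / 100 : ℝ) with hΔ
  have hΔ0 : 0 ≤ Δ := Real.rpow_nonneg hT.le _
  have hFb' : ∀ t, |F t| ≤ Cp * (1 + |t|) ^ 4 := fun t => by
    rw [abs_of_nonneg (hF0 t)]; exact hFb t
  have hab : a ≤ T + Δ := by linarith
  obtain ⟨e1, i1, j1⟩ := Sharp.average T hF hFb' (a := a) (b := T + Δ) hab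
  have l1 : ∫ τ in a..(T + Δ), EG T τ F ≤ T * D := by
    have h3 : ∫ τ in a..(T + Δ), EG T τ F ≤ ∫ _ in a..(T + Δ), D := by
      refine intervalIntegral.integral_mono_on hab j1 (by simp) fun τ hτ => ?_
      have h0 : 0 ≤ τ := by linarith [hτ.1]
      apply hB τ
      · rw [abs_of_nonneg h0]; exact hτ.1
      · rw [abs_of_nonneg h0]; linarith [hτ.2]
    rw [intervalIntegral.integral_const, smul_eq_mul] at h3
    refine h3.trans ?_
    apply mul_le_mul_of_nonneg_right _ hD
    linarith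
  set A : ℝ := ∫ t in (2 * a)..T, F t with hA
  have hA0 : 0 ≤ A := intervalIntegral.integral_nonneg haT fun t _ => hF0 t
  have hFi : ∀ u v : ℝ, IntervalIntegrable F volume u v := fun u v => hF.intervalIntegrable u v
  have l2 : (1 - qq T) * A ≤ ∫ x, (∫ t in (x + a)..(x + (T + Δ)), F t)
      ∂(gaussianReal 0 (VV T)) := by
    have e2 : (1 - qq T) * A = ∫ x, (A - A * Set.indicator {x : ℝ | Δ < |x|}
        (fun x => (1 + |x|) ^ 4) x) ∂(gaussianReal 0 (VV T)) := by
      rw [integral_sub (integrable_const _) ((ind_int T).const_mul A), integral_const_mul]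
      simp only [integral_const, probReal_univ, one_smul]
      change (1 - qq T) * A = A - A * qq T
      ring
    rw [e2]
    refine integral_mono ((integrable_const _).sub ((ind_int T).const_mul A)) i1 fun x => ?_
    simp only
    have hI0 : 0 ≤ ∫ t in (x + a)..(x + (T + Δ)), F t :=
      intervalIntegral.integral_nonneg (by linarith) fun t _ => hF0 t
    by_cases hx : Δ < |x|
    · rw [Set.indicator_of_mem (show x ∈ {x : ℝ | Δ < |x|} from hx) _]
      have h9 : 1 ≤ (1 + |x|) ^ 4 := one_le_pow₀ (by linarith [abs_nonneg x])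
      nlinarith
    · rw [Set.indicator_of_notMem (show x ∉ {x : ℝ | Δ < |x|} from hx) _, mul_zero, sub_zero]
      push Not at hx
      have h9 := abs_le.mp hx
      apply intervalIntegral.integral_mono_interval (by linarith) haT (by linarith)
        (Filter.Eventually.of_forall fun t => hF0 t) (hFi _ _)
  rw [e1] at l1
  exact l2.trans l1

/-- The numbers for all scales. -/
lemma nums : ∃ T₀ : ℝ, 3 ≤ T₀ ∧ ∀ T, T₀ ≤ T → 8 ≤ Real.log T ∧ Real.log T ≤ T ^ (3 / 100 : ℝ) ∧
    32 * T ^ 9 * qq T ≤ 1 ∧ 3 ≤ T := by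
  have ev1 : ∀ᶠ T : ℝ in atTop, Real.log T ≤ T ^ (3 / 100 : ℝ) := by
    have h := (isLittleO_log_rpow_atTop (r := 3 / 100) (by norm_num)).def (c := 1) one_pos
    filter_upwards [h, eventually_ge_atTop 1] with T hT hT1
    rw [one_mul, Real.norm_eq_abs, Real.norm_eq_abs, abs_of_nonneg (Real.log_nonneg hT1),
      abs_of_nonneg (by positivity)] at hT
    exact hT
  have ev2 := Sharp.tail_ev 32 9
  have ev3 : ∀ᶠ T : ℝ in atTop, 8 ≤ Real.log T := Real.tendsto_log_atTop.eventually_ge_atTop 8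
  obtain ⟨T₀, hT₀⟩ := eventually_atTop.mp (ev1.and (ev2.and ev3))
  refine ⟨max 3 T₀, le_max_left _ _, fun T hT => ?_⟩
  have hT3 : 3 ≤ T := (le_max_left _ _).trans hT
  obtain ⟨h1, h2, h3⟩ := hT₀ T ((le_max_right _ _).trans hT)
  exact ⟨h3, h1, h2, hT3⟩

/-- One scale, with the numbers. -/
lemma one_scale' {T : ℝ} (hT3 : 3 ≤ T) (hL : 8 ≤ Real.log T) (hLT : Real.log T ≤ T ^ (3 / 100 : ℝ))
    (hq : 32 * T ^ 9 * qq T ≤ 1) {F : ℝ → ℝ} (hF : Continuous F) (hF0 : ∀ t, 0 ≤ F t)
    {Cp : ℝ} (hFb : ∀ t, F t ≤ Cp * (1 + |t|) ^ 4) {D : ℝ} (hD : 0 ≤ D)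
    (hB : ∀ τ : ℝ, T / Real.log T ≤ |τ| → |τ| ≤ 3 / 2 * T → EG T τ F ≤ D) :
    ∫ t in (2 * (T / Real.log T))..T, F t ≤ (1 + 1 / Real.log T) * (T * D) := by
  have hT0 : 0 < T := by linarith
  have hL0 : 0 < Real.log T := by linarith
  have ha : T ^ (97 / 100 : ℝ) ≤ T / Real.log T := by
    rw [le_div_iff₀ hL0]
    calc T ^ (97 / 100 : ℝ) * Real.log T ≤ T ^ (97 / 100 : ℝ) * T ^ (3 / 100 : ℝ) := by gcongr
      _ = T := by rw [← Real.rpow_add hT0]; norm_num
  have haT : 2 * (T / Real.log T) ≤ T := by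
    rw [mul_div_assoc', div_le_iff₀ hL0]
    nlinarith
  have h := one_scale hT0 hF hF0 hFb hD ha haT hB
  set A : ℝ := ∫ t in (2 * (T / Real.log T))..T, F t with hA
  have hA0 : 0 ≤ A := intervalIntegral.integral_nonneg haT fun t _ => hF0 t
  have hq0 := qq_nonneg T
  have hLT' : Real.log T ≤ T := (Real.log_le_sub_one_of_pos hT0).trans (by linarith)
  have hT9 : T ≤ T ^ 9 := le_self_pow₀ (by linarith) (by norm_num)
  -- `qq T ≤ 1 / (2 log T)`
  have hq1 : qq T * (2 * Real.log T) ≤ 1 := by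
    calc qq T * (2 * Real.log T) ≤ qq T * (32 * T ^ 9) :=
          mul_le_mul_of_nonneg_left (by linarith) hq0
      _ ≤ 1 := by linarith
  have hTD : 0 ≤ T * D := by positivity
  have hq2 : qq T ≤ 1 / (2 * Real.log T) := by
    rw [le_div_iff₀ (by positivity)]; exact hq1
  -- (1 + 1/L)(1 - q) ≥ 1
  have hl : 0 < 1 / Real.log T := by positivity
  have hl8 : 1 / Real.log T ≤ 1 / 8 := by
    apply one_div_le_one_div_of_le <;> linarith
  have hq3 : qq T ≤ 1 / 2 * (1 / Real.log T) := by
    calc qq T ≤ 1 / (2 * Real.log T) := hq2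
      _ = _ := by field_simp
  have h1 : 1 ≤ (1 + 1 / Real.log T) * (1 - qq T) := by nlinarith
  calc A = 1 * A := (one_mul _).symm
    _ ≤ (1 + 1 / Real.log T) * (1 - qq T) * A := by gcongr
    _ = (1 + 1 / Real.log T) * ((1 - qq T) * A) := by ring
    _ ≤ (1 + 1 / Real.log T) * (T * D) := by gcongr

end AvDM

open AvDM K1.Averages

/-- (S12) from Gaussian means to integrals -/
theorem stAvD : StAvD := by
  obtain ⟨T₁, hT₁3, hT₁⟩ := nums
  have ev : ∀ᶠ T : ℝ in atTop, T₁ ≤ T ^ (98 / 100 : ℝ) :=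
    (tendsto_rpow_atTop (by norm_num)).eventually_ge_atTop T₁
  obtain ⟨T₂, hT₂⟩ := eventually_atTop.mp ev
  refine ⟨8, max T₁ T₂, by norm_num, hT₁3.trans (le_max_left _ _), fun T hT F hF hF0 hFb D hD hE => ?_⟩
  obtain ⟨hL, -, -, hT3⟩ := hT₁ T ((le_max_left _ _).trans hT)
  have hT98 : T₁ ≤ T ^ (98 / 100 : ℝ) := hT₂ T ((le_max_right _ _).trans hT)
  have hT0 : 0 < T := by linarith
  set L : ℝ := Real.log T with hLdef
  have hL0 : 0 < L := by linarith
  set S : ℝ := T ^ (98 / 100 : ℝ) with hS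
  have hS0 : 0 < S := by positivity
  have hST : S ≤ T := by
    calc S ≤ T ^ (1 : ℝ) := Real.rpow_le_rpow_of_exponent_le (by linarith) (by norm_num)
      _ = T := Real.rpow_one T
  have hlogS : Real.log S = 98 / 100 * L := by rw [hS, Real.log_rpow hT0]
  have hFi : ∀ u v : ℝ, IntervalIntegrable F volume u v := fun u v => hF.intervalIntegrable u v
  have key : ∀ n : ℕ, ∀ T' : ℝ, S ≤ T' → T' ≤ T → T' ≤ 2 ^ n * S →
      ∫ t in S..T', F t ≤ (1 + 8 / L) * (T' * D) := by
    intro n
    induction n with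
    | zero =>
      intro T' h1 h2 h3
      have : T' = S := le_antisymm (by simpa using h3) h1
      rw [this, intervalIntegral.integral_same]
      positivity
    | succ n ih =>
      intro T' h1 h2 h3
      obtain ⟨g1, g2, g3, g4⟩ := hT₁ T' (hT98.trans h1)
      have hT'0 : 0 < T' := by linarith
      have hlog : 98 / 100 * L ≤ Real.log T' := by
        rw [← hlogS]; exact Real.log_le_log hS0 h1
      have hL'0 : 0 < Real.log T' := by linarith
      have o := one_scale' g4 g1 g2 g3 hF hF0 hFb hD (hE T' h1 h2)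
      have hTD : 0 ≤ T' * D := by positivity
      have hl' : 1 / Real.log T' ≤ 103 / 100 * (1 / L) := by
        rw [div_le_iff₀ hL'0]
        have : 103 / 100 * (1 / L) * (98 / 100 * L) ≤ 103 / 100 * (1 / L) * Real.log T' := by
          gcongr
        refine le_trans ?_ this
        have : 103 / 100 * (1 / L) * (98 / 100 * L) = 103 / 100 * (98 / 100) := by
          field_simp
        rw [this]; norm_num
      have hLi : 0 < 1 / L := by positivity
      have hLi8 : 1 / L ≤ 1 / 8 := by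
        apply one_div_le_one_div_of_le <;> linarith
      have hT''e : 2 * (T' / Real.log T') = T' * (2 * (1 / Real.log T')) := by ring
      rcases le_total (2 * (T' / Real.log T')) S with hc | hc
      · have h4 : ∫ t in S..T', F t ≤ ∫ t in (2 * (T' / Real.log T'))..T', F t :=
          intervalIntegral.integral_mono_interval hc h1 le_rfl
            (Filter.Eventually.of_forall fun t => hF0 t) (hFi _ _)
        refine (h4.trans o).trans ?_
        apply mul_le_mul_of_nonneg_right _ hTD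
        have : 8 / L = 8 * (1 / L) := by ring
        rw [this]
        linarith
      · have h5 : 2 * (T' / Real.log T') ≤ T' / 2 := by
          rw [hT''e]
          have : 2 * (1 / Real.log T') ≤ 1 / 2 := by linarith
          calc T' * (2 * (1 / Real.log T')) ≤ T' * (1 / 2) := by gcongr
            _ = T' / 2 := by ring
        have h6 := ih (2 * (T' / Real.log T')) hc (by linarith) (by
          rw [pow_succ] at h3; linarith)
        rw [← intervalIntegral.integral_add_adjacent_intervals (hFi S (2 * (T' / Real.log T')))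
          (hFi (2 * (T' / Real.log T')) T')]
        have h7 : 2 * (T' / Real.log T') * D ≤ 206 / 100 * (1 / L) * (T' * D) := by
          calc 2 * (T' / Real.log T') * D = 2 * (1 / Real.log T') * (T' * D) := by ring
            _ ≤ 2 * (103 / 100 * (1 / L)) * (T' * D) := by gcongr
            _ = _ := by ring
        have h8 : (8 : ℝ) / L = 8 * (1 / L) := by ring
        rw [h8] at h6 ⊢
        calc (∫ t in S..(2 * (T' / Real.log T')), F t) + ∫ t in (2 * (T' / Real.log T'))..T', F t
            ≤ (1 + 8 * (1 / L)) * (206 / 100 * (1 / L) * (T' * D)) +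
              (1 + 103 / 100 * (1 / L)) * (T' * D) := by
              refine add_le_add (h6.trans ?_) (o.trans ?_)
              · gcongr
              · gcongr
          _ = ((1 + 8 * (1 / L)) * (206 / 100 * (1 / L)) + (1 + 103 / 100 * (1 / L))) *
              (T' * D) := by ring
          _ ≤ (1 + 8 * (1 / L)) * (T' * D) := by
              apply mul_le_mul_of_nonneg_right _ hTD
              nlinarith
  obtain ⟨n, hn⟩ := pow_unbounded_of_one_lt (T / S) (one_lt_two : (1 : ℝ) < 2)
  refine key n T hST le_rfl ?_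
  rw [div_lt_iff₀ hS0] at hn
  exact hn.le

end K7
end Pool.Agent.Lib.MP_973905_nt
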