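import Pool.Agent.Lib.MP_973905_nt.K7.Base
import Pool.Agent.Lib.MP_973905_nt.K5.BQ

/-! Module (S9) of folder K7: our weights are polynomials of two variables of length
`T^{1/60}` with small coefficients. -/

namespace Pool.Agent.Lib.MP_973905_nt
namespace K7

open MeasureTheory ProbabilityTheory Complex Filter Topology K1 K4 K5

namespace BQ7M

open K5.BQx

lemma prod_icq (a : ℕ → ℕ → ℝ) (n : ℕ) : ∃ C : ℝ, 0 ≤ C ∧ ∀ T : ℝ, 1 ≤ T →
    IC (WA (∑ i ∈ Finset.range n, dg i)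
      (Real.exp ((∑ i ∈ Finset.range n, (dg i : ℝ) * tq i) * Real.log T))) C
      (fun f => ((∏ i ∈ Finset.range n, ∑ j ∈ Finset.range (dg i + 1),
        a i j * (∑ p ∈ UQ T i, f p).re ^ j : ℝ) : ℂ)) := by
  induction n with
  | zero =>
    refine ⟨1, zero_le_one, fun T _ => ?_⟩
    refine (IC.one ?_).congr fun f _ => by simp
    simp [WA]
  | succ n ih =>
    obtain ⟨C, hC, h⟩ := ih
    refine ⟨(∑ j ∈ Finset.range (dg n + 1), |a n j|) *
      (((∑ i ∈ Finset.range n, dg i : ℕ) + dg n + 1 : ℝ) ^ dg n * C), ?_, fun T hT => ?_⟩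
    · have : 0 ≤ ∑ j ∈ Finset.range (dg n + 1), |a n j| :=
        Finset.sum_nonneg fun j _ => abs_nonneg _
      positivity
    · have hL : 0 ≤ Real.log T := Real.log_nonneg hT
      have h1 := (h T hT).poly (d := dg n) (Real.exp_pos _).le
        (y := Real.exp (tq n * Real.log T))
        (Real.one_le_exp (mul_nonneg (Blk7.tq_pos n).le hL)) (UQ T n)
        (fun p hp => (Blk7.mem_UQ.mp hp).1) (fun p hp => (Blk7.mem_UQ.mp hp).2.2) (a n)
      refine (h1.mono (WA_mono ?_ ?_) le_rfl).congr fun f _ => ?_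
      · rw [Finset.sum_range_succ]
      · rw [Finset.sum_range_succ, ← Real.exp_nat_mul, ← Real.exp_add]
        apply le_of_eq
        congr 1
        ring
      · rw [Finset.prod_range_succ]
        push_cast
        ring

lemma sum_dgq (n : ℕ) : ∑ i ∈ Finset.range n, (dg i : ℝ) * tq i ≤ 163 / 10000 := by
  have e1 : ∑ i ∈ Finset.range n, (dg i : ℝ) * tq i =
      (∑ i ∈ Finset.range n, (dg i : ℝ) * tb i) * Real.exp (-4) := by
    rw [Finset.sum_mul]
    refine Finset.sum_congr rfl fun i _ => ?_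
    rw [tq]
    ring
  have h1 := sum_dg n
  have h2 : Real.exp (-4) ≤ 1832 / 100000 := by
    have e2 : Real.exp 4 = Real.exp 1 * Real.exp 1 * (Real.exp 1 * Real.exp 1) := by
      rw [← Real.exp_add, ← Real.exp_add]
      norm_num
    have e4 : 27182818 / 10000000 ≤ Real.exp 1 := by
      have := Real.exp_one_gt_d9
      norm_num at this ⊢
      linarith
    have e5 : 54597 / 1000 ≤ Real.exp 4 := by
      rw [e2]
      calc (54597 / 1000 : ℝ) ≤ 27182818 / 10000000 * (27182818 / 10000000) *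
            (27182818 / 10000000 * (27182818 / 10000000)) := by norm_num
        _ ≤ _ := by gcongr
    rw [Real.exp_neg]
    calc (Real.exp 4)⁻¹ ≤ (54597 / 1000)⁻¹ := by gcongr
      _ ≤ _ := by norm_num
  rw [e1]
  have h3 := Real.exp_pos (-4)
  calc (∑ i ∈ Finset.range n, (dg i : ℝ) * tb i) * Real.exp (-4)
      ≤ 888 / 1000 * Real.exp (-4) := mul_le_mul_of_nonneg_right h1 h3.le
    _ ≤ 888 / 1000 * (1832 / 100000) := by gcongr
    _ ≤ _ := by norm_num

/-- Assembly. -/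
lemma assemble {θ : ℝ} (hθ : θ = 1 / 10000) {T C : ℝ} (hT : 3 ≤ T)
    (hC : C ≤ T ^ (1 / 4000 : ℝ))
    {n A : ℕ} {G : (ℕ → ℂ) → ℂ} {F : (ℕ → ℂ) → ℝ} (hG : DP (T ^ θ) (T ^ θ) G)
    (hF : IC (WA A (Real.exp ((∑ i ∈ Finset.range n, (dg i : ℝ) * tq i) * Real.log T))) C
      (fun f => ((F f : ℝ) : ℂ))) :
    BQ (T ^ (1 / 60 : ℝ)) (T ^ (1 / 2000 : ℝ)) (fun f => ((‖G f‖ ^ 2 * F f : ℝ) : ℂ)) := by
  have hT0 : 0 < T := by linarith
  have hL : 0 ≤ Real.log T := Real.log_nonneg (by linarith)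
  have h1 : IC (K5.BQx.WB (T ^ (163 / 10000 : ℝ))) C (fun f => ((F f : ℝ) : ℂ)) := by
    refine hF.mono (fun x hx => ⟨hx.1, hx.2.1, hx.2.2.1.trans ?_⟩) le_rfl
    rw [Real.rpow_def_of_pos hT0]
    apply Real.exp_le_exp.mpr
    rw [mul_comm (Real.log T)]
    exact mul_le_mul_of_nonneg_right (sum_dgq n) hL
  have h2 := h1.dp hG
  apply IC.bq
  refine (h2.mono (fun x hx => ⟨hx.1, hx.2.1, hx.2.2.trans ?_⟩) ?_).congr fun f _ => ?_
  · calc T ^ θ * T ^ θ * C ≤ T ^ θ * T ^ θ * T ^ (1 / 4000 : ℝ) := by gcongr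
      _ = T ^ (θ + θ + 1 / 4000 : ℝ) := by
        rw [← Real.rpow_add hT0, ← Real.rpow_add hT0]
      _ ≤ T ^ (1 / 2000 : ℝ) := by
        apply Real.rpow_le_rpow_of_exponent_le (by linarith)
        rw [hθ]
        norm_num
  · rw [mul_conj, normSq_eq_norm_sq]
    push_cast
    ring
  · rw [← Real.rpow_add hT0, ← Real.rpow_add hT0]
    apply Real.rpow_le_rpow_of_exponent_le (by linarith)
    rw [hθ]
    norm_num

end BQ7M

open BQ7M K5.BQx in
/-- (S9) our weights belong to the class -/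
theorem stBQ7 (h : K1.StShort) : StBQ7 := by
  intro κ hk0 hk1
  obtain ⟨M₀, hM₀⟩ := h (1 / 10000) (by norm_num)
  refine ⟨max 7 M₀, le_max_left _ _, fun M hM => ?_⟩
  obtain ⟨T₁, hT₁3, hT₁⟩ := hM₀ M ((le_max_right _ _).trans hM)
  have hpf : ∀ i : ℕ, ∃ a : ℕ → ℝ, ∀ x : ℝ, pf κ i (x - Vv i) =
      ∑ j ∈ Finset.range (dg i + 1), a j * x ^ j := by
    intro i
    obtain ⟨a, ha⟩ := Tp_poly (dg i) (-(2 * (1 - κ))) (Vv i + (1 - κ) * Vv i) (eta (1 - κ) (dg i))
    refine ⟨a, fun x => ?_⟩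
    rw [← ha, pf, sub_sub]
    congr 2
    ring
  have hpg : ∀ i : ℕ, ∃ a : ℕ → ℝ, ∀ x : ℝ, pg κ i (x - Vv i) =
      ∑ j ∈ Finset.range (dg i + 1), a j * x ^ j := by
    intro i
    obtain ⟨a, ha⟩ := Tp_poly (dg i) (2 * κ) (Vv i + (1 - κ) * Vv i) (eta κ (dg i))
    exact ⟨a, fun x => by rw [← ha, pg, sub_sub]⟩
  choose a ha using hpf
  choose b hb using hpg
  obtain ⟨Ca, hCa0, hCa⟩ := prod_icq a (M - 6)
  obtain ⟨Cb, hCb0, hCb⟩ := prod_icq b (M - 6)
  have hev : ∀ᶠ T : ℝ in atTop, max Ca Cb ≤ T ^ (1 / 4000 : ℝ) :=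
    (tendsto_rpow_atTop (by norm_num)).eventually_ge_atTop _
  obtain ⟨T₂, hT₂⟩ := eventually_atTop.mp hev
  refine ⟨max T₁ T₂, hT₁3.trans (le_max_left _ _), fun T hT g h' => ?_⟩
  have hT1 : T₁ ≤ T := (le_max_left _ _).trans hT
  have hT2 := hT₂ T ((le_max_right _ _).trans hT)
  have hT3 : 3 ≤ T := hT₁3.trans hT1
  constructor
  · refine assemble rfl hT3 ((le_max_left _ _).trans hT2)
      (hT₁ T hT1 (κ - 1) (by rw [abs_le]; constructor <;> linarith) g h')
      ((hCa T (by linarith)).congr fun f _ => ?_)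
    rw [TFq]
    congr 1
    refine Finset.prod_congr rfl fun i _ => ?_
    rw [ha, Xq]
  · refine assemble rfl hT3 ((le_max_right _ _).trans hT2)
      (hT₁ T hT1 κ (by rw [abs_le]; constructor <;> linarith) g h')
      ((hCb T (by linarith)).congr fun f _ => ?_)
    rw [TGq]
    congr 1
    refine Finset.prod_congr rfl fun i _ => ?_
    rw [hb, Xq]

end K7
end Pool.Agent.Lib.MP_973905_nt
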