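import Pool.Agent.Lib.MP_973905_nt.K7.Stmts
import Pool.Agent.Lib.MP_973905_nt.K3.Block4

/-! Module (R5) of K7: one block with four shifts, orders between 1 and 2. -/

namespace Pool.Agent.Lib.MP_973905_nt
namespace K7

open MeasureTheory ProbabilityTheory Complex Filter Topology K1
open K3 (LF4 LP4)

namespace Blk4x

open BlkShift K1R.BlkShiftR
open K3.Blk4 (norm_le_of one_sub_mul_le LP4_eq bs_Wt' amgm4 ES_four)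

/-- the local factor with equal arguments -/
lemma LF4_diag {k x : ℝ} (hx0 : 0 ≤ x) (hx1 : x < 1) :
    LF4 (2 - k) x x x x x = ((Dl k x : ℝ) : ℂ) := by
  rw [LF4, Dl]
  have h1 : Real.circleAverage (fun z : ℂ => (1 - (x : ℂ) * z)⁻¹ * (1 - (x : ℂ) * z)⁻¹ *
      (1 - (x : ℂ) * (starRingEnd ℂ) z)⁻¹ * (1 - (x : ℂ) * (starRingEnd ℂ) z)⁻¹ *
      ((‖1 - x * z‖ ^ (2 * (2 - k)) : ℝ) : ℂ)) 0 1 =
      Real.circleAverage (fun z : ℂ => ((‖1 - x * z‖ ^ (-(2 * k)) : ℝ) : ℂ)) 0 1 := by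
    refine Real.circleAverage_congr_sphere ?_
    intro z hz
    have hz1 : ‖z‖ = 1 := by simpa using hz
    have hne : 1 - (x : ℂ) * z ≠ 0 :=
      one_sub_ne (by rw [norm_real, Real.norm_eq_abs, abs_of_nonneg hx0]; exact hx1) hz1
    have hn : 0 < ‖1 - (x : ℂ) * z‖ := norm_pos_iff.mpr hne
    have h4 : (1 - (x : ℂ) * z)⁻¹ * (1 - (x : ℂ) * (starRingEnd ℂ) z)⁻¹ =
        ((‖1 - (x : ℂ) * z‖ ^ (-2 : ℝ) : ℝ) : ℂ) := by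
      have h5 : (1 - (x : ℂ) * (starRingEnd ℂ) z) = (starRingEnd ℂ) (1 - (x : ℂ) * z) := by
        rw [map_sub, map_mul, map_one, conj_ofReal]
      rw [h5, ← mul_inv, mul_conj, normSq_eq_norm_sq, ← ofReal_inv]
      congr 1
      rw [Real.rpow_neg hn.le, Real.rpow_two]
    have h6 : (1 - (x : ℂ) * z)⁻¹ * (1 - (x : ℂ) * z)⁻¹ *
        (1 - (x : ℂ) * (starRingEnd ℂ) z)⁻¹ * (1 - (x : ℂ) * (starRingEnd ℂ) z)⁻¹ =
        ((‖1 - (x : ℂ) * z‖ ^ (-2 : ℝ) : ℝ) : ℂ) * ((‖1 - (x : ℂ) * z‖ ^ (-2 : ℝ) : ℝ) : ℂ) := by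
      rw [← h4]; ring
    simp only []
    rw [h6, ← ofReal_mul, ← ofReal_mul, ← Real.rpow_add hn, ← Real.rpow_add hn]
    congr 2
    ring
  rw [h1, Real.circleAverage, Real.circleAverage, intervalIntegral.integral_ofReal]
  simp

/-- the base value -/
lemma base_ge {k x : ℝ} (hk1 : 1 ≤ k) (hk2 : k ≤ 2) (hx0 : 0 ≤ x) (hx : x ≤ 7072 / 10000) :
    Real.exp (k ^ 2 * x ^ 2 - 4 * x ^ 2 - 60 * x ^ 4) ≤ (1 - x ^ 2) ^ 4 * Dl k x ∧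
      1 / 17 ≤ (1 - x ^ 2) ^ 4 * Dl k x := by
  have hxs : x ^ 2 ≤ 501 / 1000 := by nlinarith
  have hxs' : x ^ 2 ≤ 50015 / 100000 := by nlinarith
  have hD := Dl_ge (k := k) (by linarith) hx0 (show x < 1 by linarith)
  have hx2 := sq_nonneg x
  have e1 : Real.exp (-x ^ 2 - 3 * (-x ^ 2) ^ 2) ≤ 1 + -x ^ 2 := one_add_ge_exp (by linarith)
  have e2 : Real.exp (k ^ 2 * x ^ 2 - 3 * (k ^ 2 * x ^ 2) ^ 2) ≤ 1 + k ^ 2 * x ^ 2 :=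
    one_add_ge_exp (by nlinarith [mul_nonneg (sq_nonneg k) hx2])
  have e3 := pow_le_pow_left₀ (Real.exp_pos _).le e1 4
  rw [← Real.exp_nat_mul] at e3
  have hk4 : k ^ 4 ≤ 16 := by
    have : k ^ 2 ≤ 4 := by nlinarith
    nlinarith [sq_nonneg k]
  constructor
  · calc Real.exp (k ^ 2 * x ^ 2 - 4 * x ^ 2 - 60 * x ^ 4) ≤
        Real.exp (((4 : ℕ) : ℝ) * (-x ^ 2 - 3 * (-x ^ 2) ^ 2)) *
          Real.exp (k ^ 2 * x ^ 2 - 3 * (k ^ 2 * x ^ 2) ^ 2) := by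
          rw [← Real.exp_add]
          apply Real.exp_le_exp.mpr
          push_cast
          have : 0 ≤ (16 - k ^ 4) * x ^ 4 := mul_nonneg (by linarith) (by positivity)
          nlinarith
      _ ≤ (1 + -x ^ 2) ^ 4 * (1 + k ^ 2 * x ^ 2) :=
          mul_le_mul e3 e2 (Real.exp_pos _).le (by positivity)
      _ ≤ (1 - x ^ 2) ^ 4 * Dl k x := by
          rw [← sub_eq_add_neg]
          exact mul_le_mul_of_nonneg_left hD (by positivity)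
  · have h1 : (1 : ℝ) / 17 ≤ (1 - x ^ 2) ^ 4 := by
      have : (49985 / 100000 : ℝ) ^ 4 ≤ (1 - x ^ 2) ^ 4 :=
        pow_le_pow_left₀ (by norm_num) (by linarith) 4
      refine le_trans ?_ this
      norm_num
    have h2 : 1 ≤ Dl k x := by nlinarith [mul_nonneg (sq_nonneg k) hx2]
    calc (1 : ℝ) / 17 ≤ (1 - x ^ 2) ^ 4 * 1 := by linarith
      _ ≤ _ := mul_le_mul_of_nonneg_left h2 (by positivity)

lemma LF4_lower (h : StLF4L) : ∃ B c : ℝ, 0 < B ∧ 0 < c ∧ c ≤ 1 / 50 ∧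
    ∀ (k x : ℝ) (x₁ x₂ y₁ y₂ : ℂ), 1 ≤ k → k ≤ 2 →
    0 ≤ x → x ≤ 7072 / 10000 → ‖x₁ - x‖ ≤ c * x → ‖x₂ - x‖ ≤ c * x →
    ‖y₁ - x‖ ≤ c * x → ‖y₂ - x‖ ≤ c * x →
    Real.exp (k ^ 2 * x ^ 2 - B * (x * (‖x₁ - x‖ + ‖x₂ - x‖ + ‖y₁ - x‖ + ‖y₂ - x‖) + x ^ 4)) ≤
      ‖LF4 (2 - k) x x₁ x₂ y₁ y₂‖ := by
  obtain ⟨C, hC, h⟩ := h
  set c : ℝ := 1 / (50 + 70 * C) with hc
  have hc0 : 0 < c := by positivity
  have hc1 : c ≤ 1 / 50 := by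
    rw [hc]
    exact one_div_le_one_div_of_le (by norm_num) (by linarith)
  have hcC : 70 * C * c ≤ 1 := by
    rw [hc, mul_one_div, div_le_one (by positivity)]
    linarith
  refine ⟨34 * C + 70, c, by positivity, hc0, hc1,
    fun k x x₁ x₂ y₁ y₂ hk1 hk2 hx0 hx h1 h2 h3 h4 => ?_⟩
  obtain ⟨hb1, hb2⟩ := base_ge hk1 hk2 hx0 hx
  have hcx : c * x ≤ 1 / 50 * x := mul_le_mul_of_nonneg_right hc1 hx0
  have h1' : ‖x₁ - x‖ ≤ 21 / 1000 * x := by linarith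
  have h2' : ‖x₂ - x‖ ≤ 21 / 1000 * x := by linarith
  have h3' : ‖y₁ - x‖ ≤ 21 / 1000 * x := by linarith
  have h4' : ‖y₂ - x‖ ≤ 21 / 1000 * x := by linarith
  have hx1 := norm_le_of hx0 h1'
  have hx2 := norm_le_of hx0 h2'
  have hy1 := norm_le_of hx0 h3'
  have hy2 := norm_le_of hx0 h4'
  have hxs : x ^ 2 ≤ 501 / 1000 := by nlinarith
  have hx4 : x ^ 4 ≤ 251 / 1000 := by
    have : x ^ 4 = x ^ 2 * x ^ 2 := by ring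
    have h5 : x ^ 2 ≤ 50015 / 100000 := by nlinarith
    rw [this]
    nlinarith [sq_nonneg x]
  set s : ℝ := ‖x₁ - x‖ + ‖x₂ - x‖ + ‖y₁ - x‖ + ‖y₂ - x‖ with hs
  have hs0 : 0 ≤ s := by positivity
  have hxs0 : 0 ≤ x * s := by positivity
  have hxsc : C * (x * s) ≤ 29 / 1000 := by
    have h5 : s ≤ 4 * (c * x) := by rw [hs]; linarith
    have h6 : x * s ≤ x * (4 * (c * x)) := mul_le_mul_of_nonneg_left h5 hx0
    have h7 : C * (x * s) ≤ C * (x * (4 * (c * x))) := mul_le_mul_of_nonneg_left h6 hC.le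
    have h8 : C * (x * (4 * (c * x))) = (C * c) * (4 * x ^ 2) := by ring
    have h9 : (C * c) * (4 * x ^ 2) ≤ 1 / 70 * (4 * (501 / 1000)) := by
      apply mul_le_mul _ _ (by positivity) (by norm_num)
      · linarith
      · linarith
    linarith
  set w : ℂ := x₁ * x₂ * y₁ * y₂ with hw
  have hwn : ‖w‖ ≤ 11 / 10 * x ^ 4 := by
    have q1 : ‖w‖ ≤ (1021 / 1000 * x) * (1021 / 1000 * x) * (1021 / 1000 * x) *
        (1021 / 1000 * x) := by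
      rw [hw, norm_mul, norm_mul, norm_mul]
      gcongr
    have q2 : (1021 / 1000 * x) * (1021 / 1000 * x) * (1021 / 1000 * x) *
        (1021 / 1000 * x) = (1021 / 1000) ^ 4 * x ^ 4 := by ring
    rw [q2] at q1
    have q3 : (1021 / 1000 : ℝ) ^ 4 ≤ 11 / 10 := by norm_num
    exact q1.trans (mul_le_mul_of_nonneg_right q3 (by positivity))
  have hw1 : Real.exp (-(3 * x ^ 4)) ≤ ‖1 - w‖ := by
    have q1 := norm_sub_norm_le (1 : ℂ) w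
    rw [norm_one] at q1
    have q2 : Real.exp (-(2 * (11 / 10 * x ^ 4))) ≤ 1 - 11 / 10 * x ^ 4 :=
      one_sub_ge_exp (by positivity) (by linarith)
    have q3 : Real.exp (-(3 * x ^ 4)) ≤ Real.exp (-(2 * (11 / 10 * x ^ 4))) := by
      apply Real.exp_le_exp.mpr
      have : 0 ≤ x ^ 4 := by positivity
      linarith
    linarith
  have hw0 : 0 < ‖1 - w‖ := lt_of_lt_of_le (Real.exp_pos _) hw1
  -- the base value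
  set D : ℝ := (1 - x ^ 2) ^ 4 * Dl k x with hD
  have hbase : D ≤ ‖(1 - (x : ℂ) ^ 2) ^ 4 * LF4 (2 - k) x x x x x * (1 - (x : ℂ) ^ 4)⁻¹‖ := by
    rw [LF4_diag hx0 (by linarith)]
    have e1 : (1 - (x : ℂ) ^ 2) ^ 4 * ((Dl k x : ℝ) : ℂ) * (1 - (x : ℂ) ^ 4)⁻¹ =
        ((D * (1 - x ^ 4)⁻¹ : ℝ) : ℂ) := by
      rw [hD]; push_cast; ring
    rw [e1, norm_real, Real.norm_eq_abs]
    refine le_trans ?_ (le_abs_self _)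
    have h5 : 1 ≤ (1 - x ^ 4)⁻¹ := by
      rw [one_le_inv₀ (by linarith)]
      have : 0 ≤ x ^ 4 := by positivity
      linarith
    exact le_mul_of_one_le_right (by linarith) h5
  have h5 := h (2 - k) x x₁ x₂ y₁ y₂ (by linarith) (by linarith) hx0 hx (by linarith)
    (by linarith) (by linarith) (by linarith)
  have h6 := norm_sub_norm_le ((1 - (x : ℂ) ^ 2) ^ 4 * LF4 (2 - k) x x x x x *
    (1 - (x : ℂ) ^ 4)⁻¹) ((1 - x₁ * y₁) * (1 - x₁ * y₂) * (1 - x₂ * y₁) * (1 - x₂ * y₂) *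
      LF4 (2 - k) x x₁ x₂ y₁ y₂ * (1 - x₁ * x₂ * y₁ * y₂)⁻¹)
  rw [norm_sub_rev] at h6
  have h7 : D * (1 - 17 * (C * (x * s))) ≤ ‖(1 - x₁ * y₁) * (1 - x₁ * y₂) * (1 - x₂ * y₁) *
      (1 - x₂ * y₂) * LF4 (2 - k) x x₁ x₂ y₁ y₂ * (1 - w)⁻¹‖ := by
    have q1 : C * (x * s) ≤ D * (17 * (C * (x * s))) := by
      have : 1 ≤ D * 17 := by linarith
      calc C * (x * s) ≤ (D * 17) * (C * (x * s)) := le_mul_of_one_le_left (by positivity) this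
        _ = _ := by ring
    have q2 : C * x * s = C * (x * s) := by ring
    rw [q2] at h5
    rw [mul_sub, mul_one]
    linarith
  have h8 : Real.exp (-(34 * (C * (x * s)))) ≤ 1 - 17 * (C * (x * s)) := by
    have := one_sub_ge_exp (y := 17 * (C * (x * s))) (by positivity) (by linarith)
    refine le_trans (Real.exp_le_exp.mpr ?_) this
    linarith
  have h9 : ‖(1 - x₁ * y₁) * (1 - x₁ * y₂) * (1 - x₂ * y₁) * (1 - x₂ * y₂)‖ ≤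
      Real.exp (-(4 * x ^ 2) + 4 * (x * s)) := by
    rw [norm_mul, norm_mul, norm_mul]
    have p1 := (one_sub_mul_le (w := y₁) hx0 hx h1').1
    have p2 := (one_sub_mul_le (w := y₂) hx0 hx h1').1
    have p3 := (one_sub_mul_le (w := y₁) hx0 hx h2').1
    have p4 := (one_sub_mul_le (w := y₂) hx0 hx h2').1
    calc ‖1 - x₁ * y₁‖ * ‖1 - x₁ * y₂‖ * ‖1 - x₂ * y₁‖ * ‖1 - x₂ * y₂‖ ≤
        Real.exp (-x ^ 2 + 2 * (x * ‖x₁ - x‖ + x * ‖y₁ - x‖)) *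
        Real.exp (-x ^ 2 + 2 * (x * ‖x₁ - x‖ + x * ‖y₂ - x‖)) *
        Real.exp (-x ^ 2 + 2 * (x * ‖x₂ - x‖ + x * ‖y₁ - x‖)) *
        Real.exp (-x ^ 2 + 2 * (x * ‖x₂ - x‖ + x * ‖y₂ - x‖)) := by gcongr
      _ = _ := by
          rw [← Real.exp_add, ← Real.exp_add, ← Real.exp_add]
          congr 1
          rw [hs]; ring
  -- conclusion
  have h10 : Real.exp (k ^ 2 * x ^ 2 - 4 * x ^ 2 - 60 * x ^ 4) *
      Real.exp (-(34 * (C * (x * s)))) ≤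
      Real.exp (-(4 * x ^ 2) + 4 * (x * s)) * ‖LF4 (2 - k) x x₁ x₂ y₁ y₂‖ * ‖1 - w‖⁻¹ := by
    calc _ ≤ D * (1 - 17 * (C * (x * s))) :=
          mul_le_mul hb1 h8 (Real.exp_pos _).le (by linarith)
      _ ≤ _ := h7
      _ = ‖(1 - x₁ * y₁) * (1 - x₁ * y₂) * (1 - x₂ * y₁) * (1 - x₂ * y₂)‖ *
          ‖LF4 (2 - k) x x₁ x₂ y₁ y₂‖ * ‖1 - w‖⁻¹ := by
          rw [norm_mul, norm_mul, norm_inv]
      _ ≤ _ := by gcongr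
  have h11 : Real.exp (k ^ 2 * x ^ 2 - 4 * x ^ 2 - 60 * x ^ 4) *
      Real.exp (-(34 * (C * (x * s)))) * Real.exp (-(3 * x ^ 4)) ≤
      Real.exp (-(4 * x ^ 2) + 4 * (x * s)) * ‖LF4 (2 - k) x x₁ x₂ y₁ y₂‖ := by
    calc _ ≤ (Real.exp (-(4 * x ^ 2) + 4 * (x * s)) * ‖LF4 (2 - k) x x₁ x₂ y₁ y₂‖ *
          ‖1 - w‖⁻¹) * ‖1 - w‖ := mul_le_mul h10 hw1 (Real.exp_pos _).le (by positivity)
      _ = _ := by
          rw [mul_assoc, inv_mul_cancel₀ hw0.ne', mul_one]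
  have h12 : Real.exp (4 * x ^ 2 - 4 * (x * s)) *
      (Real.exp (-(4 * x ^ 2) + 4 * (x * s)) * ‖LF4 (2 - k) x x₁ x₂ y₁ y₂‖) =
        ‖LF4 (2 - k) x x₁ x₂ y₁ y₂‖ := by
    rw [← mul_assoc, ← Real.exp_add]; simp
  rw [← h12]
  refine le_trans ?_ (mul_le_mul_of_nonneg_left h11 (Real.exp_pos _).le)
  rw [← Real.exp_add, ← Real.exp_add, ← Real.exp_add]
  apply Real.exp_le_exp.mpr
  have g1 : 0 ≤ x ^ 4 := by positivity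
  have g2 : 0 ≤ C * x ^ 4 := by positivity
  have g3 : (34 * C + 70) * (x * s + x ^ 4) =
      34 * (C * (x * s)) + 70 * (x * s) + 34 * (C * x ^ 4) + 70 * x ^ 4 := by ring
  rw [g3]
  linarith

lemma fourth_moment : ∃ C : ℝ, 0 ≤ C ∧ ∀ (S : Finset ℕ) (k : ℝ) (a : ℂ), (∀ p ∈ S, p.Prime) →
    1 ≤ k → k ≤ 2 → (∀ p ∈ S, ‖a‖ * Real.log p ≤ 1 / 20) → ‖a‖ * ∑ p ∈ S, Real.log p / p ≤ 1 →
    ES S (fun f => ‖ZZ S (tw (1 / 2 + a) f) ^ 2‖ ^ 2 * Wt (2 - k) S f) ≤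
      Real.exp (C + k ^ 2 * ∑ p ∈ S, 1 / (p : ℝ)) := by
  obtain ⟨C, hC, h⟩ := ES_exp 1
  refine ⟨16 + 14 + 3 * C, by positivity, fun S k a hS hk₁ hk₂ ha hsum => ?_⟩
  have hk : |k - 2| ≤ 1 := by rw [abs_le]; constructor <;> linarith
  have hk0 : -1 ≤ k - 2 := by linarith
  have hk1 : k - 2 ≤ 1 / 10 := by linarith
  have hγ : ‖((k - 2 : ℝ) : ℂ)‖ ≤ 1 := by
    rw [norm_real, Real.norm_eq_abs]; linarith
  have h1 := h 3 2 S (1 / 2 + a) ((k - 2 : ℝ) : ℂ) (1 / 2) (by norm_num) (by norm_num) hγ hS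
    (fun p hp => (yp_bd (hS p hp) (ha p hp)).2)
  rcases S.eq_empty_or_nonempty with hSe | hne
  · subst hSe
    have e0 : ES ∅ (fun f => ‖ZZ ∅ (tw (1 / 2 + a) f) ^ 2‖ ^ 2 * Wt (2 - k) ∅ f) = 1 := by
      simp [ES, ZZ, Wt]
    rw [e0]
    apply Real.one_le_exp
    have : 0 ≤ k ^ 2 * ∑ p ∈ (∅ : Finset ℕ), 1 / (p : ℝ) := by simp
    linarith
  have hre : 0 < (1 / 2 + a : ℂ).re := re_pos_of hS ha hne
  have hBS : BS S (fun f => ‖(ZZ S (tw (1 / 2 + a) f)) ^ 2 *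
      cexp (((k - 2 : ℝ) : ℂ) * Pj 3 S (tw ((1 / 2 : ℝ) : ℂ) f))‖ ^ 2) :=
    (((bs_ZZ hS hre).pow 2).mul (((bs_const S _).mul (bs_Pj 3 S S _)).cexp)).norm_sq
  have step : ES S (fun f => ‖ZZ S (tw (1 / 2 + a) f) ^ 2‖ ^ 2 * Wt (2 - k) S f) ≤
      ES S (fun f => Real.exp 16 * ‖(ZZ S (tw (1 / 2 + a) f)) ^ 2 *
        cexp (((k - 2 : ℝ) : ℂ) * Pj 3 S (tw ((1 / 2 : ℝ) : ℂ) f))‖ ^ 2) := by
    apply ES_mono
    · intro ω; exact mul_nonneg (by positivity) (Wt_nonneg _ _ _)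
    · exact hBS.integrable.const_mul _
    · intro ω
      rw [norm_mul, mul_pow, mul_left_comm]
      refine mul_le_mul_of_nonneg_left ?_ (by positivity)
      rw [Wt_eq, norm_ZZ_rpow 3 hS le_rfl (norm_ext S ω), norm_exp, ← Real.exp_nat_mul,
        ← Real.exp_add]
      apply Real.exp_le_exp.mpr
      have h2 := (norm_Rm_le 3 hS le_rfl (norm_ext S ω)).trans (rho_three hS)
      have h3 := (abs_le.mp ((abs_re_le_norm _).trans h2)).1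
      have h4 := (abs_le.mp ((abs_re_le_norm _).trans h2)).2
      rw [re_ofReal_mul, Nat.cast_ofNat]
      set P := (Pj 3 S (tw ((1 / 2 : ℝ) : ℂ) (ext S ω))).re
      set R := (Rm 3 S (tw ((1 / 2 : ℝ) : ℂ) (ext S ω))).re
      have h5 : (k - 2) * R ≤ 8 := by
        have h6 : |(k - 2) * R| ≤ 1 * 8 := by
          rw [abs_mul]
          exact mul_le_mul (by linarith) (abs_le.mpr ⟨h3, h4⟩) (abs_nonneg _) zero_le_one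
        linarith [le_abs_self ((k - 2) * R)]
      nlinarith
  refine step.trans ?_
  rw [ES_const_mul]
  refine (mul_le_mul_of_nonneg_left h1 (Real.exp_pos _).le).trans ?_
  rw [← Real.exp_add]
  apply Real.exp_le_exp.mpr
  have hterm : ∀ p ∈ S, ‖((2 : ℕ) : ℂ) * (p : ℂ) ^ (-(1 / 2 + a)) + ((k - 2 : ℝ) : ℂ) *
      ((p : ℝ) ^ (-(1 / 2) : ℝ) : ℝ)‖ ^ 2 + C * (yp (1 / 2 + a).re (1 / 2) p) ^ 4 ≤
      k ^ 2 * (1 / (p : ℝ)) + 14 * (‖a‖ * (Real.log p / p)) + 3 / 2 * C * ((p : ℝ) ^ 2)⁻¹ := by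
    intro p hp
    obtain ⟨b1, b2, b3⟩ := shift_bd (hS p hp) (ha p hp)
    obtain ⟨b4, b5⟩ := yp_bd (hS p hp) (ha p hp)
    set x : ℝ := (p : ℝ) ^ (-(1 / 2) : ℝ) with hx
    have hx0 : 0 ≤ x := by positivity
    set d : ℝ := ‖(p : ℂ) ^ (-(1 / 2 + a)) - (x : ℂ)‖ with hd
    have hd0 : 0 ≤ d := norm_nonneg _
    have e1 : ‖((2 : ℕ) : ℂ) * (p : ℂ) ^ (-(1 / 2 + a)) + ((k - 2 : ℝ) : ℂ) * (x : ℂ)‖ ≤
        k * x + 2 * d := by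
      have : ((2 : ℕ) : ℂ) * (p : ℂ) ^ (-(1 / 2 + a)) + ((k - 2 : ℝ) : ℂ) * (x : ℂ) =
          ((k * x : ℝ) : ℂ) + 2 * ((p : ℂ) ^ (-(1 / 2 + a)) - (x : ℂ)) := by push_cast; ring
      rw [this]
      refine (norm_add_le _ _).trans ?_
      rw [norm_real, Real.norm_eq_abs, abs_of_nonneg (by nlinarith), norm_mul, Complex.norm_two]
    have e2 := pow_le_pow_left₀ (norm_nonneg _) e1 2
    have e3 : (k * x + 2 * d) ^ 2 ≤ k ^ 2 * x ^ 2 + 64 / 5 * (x * d) := by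
      have q1 : d ≤ x := by nlinarith
      have q2 : k * x * d ≤ 22 / 10 * (x * d) := by
        have : k * (x * d) ≤ 22 / 10 * (x * d) :=
          mul_le_mul_of_nonneg_right (by linarith) (by positivity)
        linarith
      have q3 : d * d ≤ x * d := mul_le_mul_of_nonneg_right q1 hd0
      nlinarith
    have e4 : 64 / 5 * (x * d) ≤ 14 * (‖a‖ * (Real.log p / p)) := by
      have q1 : x * d ≤ x * (105 / 100 * x * (‖a‖ * Real.log p)) := by gcongr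
      have q2 : x * (105 / 100 * x * (‖a‖ * Real.log p)) = 105 / 100 * (‖a‖ * (Real.log p / p)) := by
        have : x ^ 2 = 1 / (p : ℝ) := inv_form
        calc x * (105 / 100 * x * (‖a‖ * Real.log p)) = 105 / 100 * (‖a‖ * (Real.log p * x ^ 2)) := by ring
          _ = _ := by rw [this]; ring
      have q3 : 0 ≤ ‖a‖ * (Real.log p / p) := by
        have := Real.log_natCast_nonneg p
        positivity
      linarith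
    have e5 : C * (yp (1 / 2 + a).re (1 / 2) p) ^ 4 ≤ 3 / 2 * C * ((p : ℝ) ^ 2)⁻¹ := by
      have q1 := pow_le_pow_left₀ (yp_nonneg _ _ p) b4 4
      rw [mul_pow, hx, inv_form4] at q1
      have q2 : 0 ≤ ((p : ℝ) ^ 2)⁻¹ := by positivity
      have q3 : (10525 / 10000 : ℝ) ^ 4 ≤ 3 / 2 := by norm_num
      calc C * (yp (1 / 2 + a).re (1 / 2) p) ^ 4 ≤ C * ((10525 / 10000 : ℝ) ^ 4 * ((p : ℝ) ^ 2)⁻¹) := by
            gcongr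
        _ ≤ C * (3 / 2 * ((p : ℝ) ^ 2)⁻¹) := by gcongr
        _ = _ := by ring
    have e6 : x ^ 2 = 1 / (p : ℝ) := inv_form
    rw [← e6]
    linarith
  have hS2 := Finset.sum_le_sum hterm
  have hsplit : ∑ p ∈ S, (k ^ 2 * (1 / (p : ℝ)) + 14 * (‖a‖ * (Real.log p / p)) +
      3 / 2 * C * ((p : ℝ) ^ 2)⁻¹) = k ^ 2 * ∑ p ∈ S, 1 / (p : ℝ) +
        14 * (‖a‖ * ∑ p ∈ S, Real.log p / p) + 3 / 2 * C * ∑ p ∈ S, ((p : ℝ) ^ 2)⁻¹ := by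
    simp only [Finset.sum_add_distrib, Finset.mul_sum]
  rw [hsplit] at hS2
  have hS3 := XB.sum_inv_sq hS
  have hS4 : 3 / 2 * C * ∑ p ∈ S, ((p : ℝ) ^ 2)⁻¹ ≤ 3 * C := by nlinarith
  linarith

lemma shift_bd' {c : ℝ} (hc : c ≤ 1 / 50) {p : ℕ} (hp : p.Prime) {a : ℂ}
    (ha : ‖a‖ * Real.log p ≤ c / 2) :
    ‖(p : ℂ) ^ (-(1 / 2 + a)) - (((p : ℝ) ^ (-(1 / 2) : ℝ) : ℝ) : ℂ)‖ ≤
      105 / 100 * (p : ℝ) ^ (-(1 / 2) : ℝ) * (‖a‖ * Real.log p) ∧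
    ‖(p : ℂ) ^ (-(1 / 2 + a)) - (((p : ℝ) ^ (-(1 / 2) : ℝ) : ℝ) : ℂ)‖ ≤
      c * (p : ℝ) ^ (-(1 / 2) : ℝ) ∧ (p : ℝ) ^ (-(1 / 2) : ℝ) ≤ 7072 / 10000 := by
  obtain ⟨h1, h2, h3⟩ := shift_bd hp (ha.trans (by linarith))
  refine ⟨h1, h1.trans ?_, h3⟩
  have hx0 : 0 ≤ (p : ℝ) ^ (-(1 / 2) : ℝ) := by positivity
  have h4 : 0 ≤ ‖a‖ * Real.log p := mul_nonneg (norm_nonneg _) (Real.log_natCast_nonneg p)
  have h5 : 105 / 100 * (‖a‖ * Real.log p) ≤ c := by linarith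
  calc 105 / 100 * (p : ℝ) ^ (-(1 / 2) : ℝ) * (‖a‖ * Real.log p) =
      (105 / 100 * (‖a‖ * Real.log p)) * (p : ℝ) ^ (-(1 / 2) : ℝ) := by ring
    _ ≤ _ := mul_le_mul_of_nonneg_right h5 hx0

lemma LP4_lower (h : StLF4L) : ∃ C c₀ : ℝ, 0 ≤ C ∧ 0 < c₀ ∧ c₀ ≤ 1 / 50 ∧
    ∀ (S : Finset ℕ) (k : ℝ) (a₁ a₂ b₁ b₂ : ℂ),
    (∀ p ∈ S, p.Prime) → 1 ≤ k → k ≤ 2 →
    (∀ p ∈ S, ‖a₁‖ * Real.log p ≤ c₀ ∧ ‖a₂‖ * Real.log p ≤ c₀ ∧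
      ‖b₁‖ * Real.log p ≤ c₀ ∧ ‖b₂‖ * Real.log p ≤ c₀) →
    (‖a₁‖ + ‖a₂‖ + ‖b₁‖ + ‖b₂‖) * ∑ p ∈ S, Real.log p / p ≤ 1 →
    Real.exp (k ^ 2 * ∑ p ∈ S, 1 / (p : ℝ) - C) ≤ ‖LP4 (2 - k) a₁ a₂ b₁ b₂ S‖ := by
  obtain ⟨B, c, hB, hc0, hc1, h⟩ := LF4_lower h
  refine ⟨B * 4, c / 2, by positivity, by positivity, by linarith,
    fun S k a₁ a₂ b₁ b₂ hS hk1 hk2 ha hsum => ?_⟩
  have hterm : ∀ p ∈ S, Real.exp (k ^ 2 * (1 / (p : ℝ)) -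
      B * (2 * ((‖a₁‖ + ‖a₂‖ + ‖b₁‖ + ‖b₂‖) * (Real.log p / p)) + ((p : ℝ) ^ 2)⁻¹)) ≤
      ‖LF4 (2 - k) ((p : ℝ) ^ (-(1 / 2) : ℝ)) ((p : ℂ) ^ (-(1 / 2 + a₁)))
        ((p : ℂ) ^ (-(1 / 2 + a₂))) ((p : ℂ) ^ (-(1 / 2 + b₁))) ((p : ℂ) ^ (-(1 / 2 + b₂)))‖ := by
    intro p hp
    obtain ⟨w1, w2, w3⟩ := shift_bd' hc1 (hS p hp) (ha p hp).1
    obtain ⟨w4, w5, w6⟩ := shift_bd' hc1 (hS p hp) (ha p hp).2.1
    obtain ⟨w7, w8, w9⟩ := shift_bd' hc1 (hS p hp) (ha p hp).2.2.1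
    obtain ⟨v1, v2, v3⟩ := shift_bd' hc1 (hS p hp) (ha p hp).2.2.2
    have h1 := h k ((p : ℝ) ^ (-(1 / 2) : ℝ)) ((p : ℂ) ^ (-(1 / 2 + a₁)))
      ((p : ℂ) ^ (-(1 / 2 + a₂))) ((p : ℂ) ^ (-(1 / 2 + b₁))) ((p : ℂ) ^ (-(1 / 2 + b₂)))
      hk1 hk2 (by positivity) w3 w2 w5 w8 v2
    refine le_trans (Real.exp_le_exp.mpr ?_) h1
    rw [inv_form, inv_form4]
    have hlog : 0 ≤ Real.log p / p := div_nonneg (Real.log_natCast_nonneg p) (by positivity)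
    have key : ∀ (a : ℂ) (d : ℝ), d ≤ 105 / 100 * (p : ℝ) ^ (-(1 / 2) : ℝ) * (‖a‖ * Real.log p) →
        (p : ℝ) ^ (-(1 / 2) : ℝ) * d ≤ 2 * (‖a‖ * (Real.log p / p)) := by
      intro a d hd
      have q1 : (p : ℝ) ^ (-(1 / 2) : ℝ) * d ≤ (p : ℝ) ^ (-(1 / 2) : ℝ) *
          (105 / 100 * (p : ℝ) ^ (-(1 / 2) : ℝ) * (‖a‖ * Real.log p)) := by gcongr
      have q2 : (p : ℝ) ^ (-(1 / 2) : ℝ) *
          (105 / 100 * (p : ℝ) ^ (-(1 / 2) : ℝ) * (‖a‖ * Real.log p)) =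
          105 / 100 * (‖a‖ * (Real.log p / p)) := by
        calc (p : ℝ) ^ (-(1 / 2) : ℝ) * (105 / 100 * (p : ℝ) ^ (-(1 / 2) : ℝ) * (‖a‖ * Real.log p)) =
            105 / 100 * (‖a‖ * (Real.log p * ((p : ℝ) ^ (-(1 / 2) : ℝ)) ^ 2)) := by ring
          _ = _ := by rw [inv_form]; ring
      have q3 : 0 ≤ ‖a‖ * (Real.log p / p) := by positivity
      linarith
    have k1 := key a₁ _ w1
    have k2 := key a₂ _ w4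
    have k3 := key b₁ _ w7
    have k4 := key b₂ _ v1
    have k6 := mul_le_mul_of_nonneg_left (add_le_add (add_le_add (add_le_add k1 k2) k3) k4) hB.le
    nlinarith
  have hprod : ‖LP4 (2 - k) a₁ a₂ b₁ b₂ S‖ = ∏ p ∈ S, ‖LF4 (2 - k) ((p : ℝ) ^ (-(1 / 2) : ℝ))
      ((p : ℂ) ^ (-(1 / 2 + a₁))) ((p : ℂ) ^ (-(1 / 2 + a₂))) ((p : ℂ) ^ (-(1 / 2 + b₁)))
      ((p : ℂ) ^ (-(1 / 2 + b₂)))‖ := by
    rw [LP4, norm_prod]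
  rw [hprod]
  refine le_trans ?_ (Finset.prod_le_prod (fun p _ => (Real.exp_pos _).le) hterm)
  rw [← Real.exp_sum]
  apply Real.exp_le_exp.mpr
  have hsplit : ∑ p ∈ S, (k ^ 2 * (1 / (p : ℝ)) -
      B * (2 * ((‖a₁‖ + ‖a₂‖ + ‖b₁‖ + ‖b₂‖) * (Real.log p / p)) + ((p : ℝ) ^ 2)⁻¹)) =
      k ^ 2 * ∑ p ∈ S, 1 / (p : ℝ) -
        B * (2 * ((‖a₁‖ + ‖a₂‖ + ‖b₁‖ + ‖b₂‖) * ∑ p ∈ S, Real.log p / p) +
          ∑ p ∈ S, ((p : ℝ) ^ 2)⁻¹) := by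
    rw [Finset.sum_sub_distrib, ← Finset.mul_sum, ← Finset.mul_sum, Finset.sum_add_distrib,
      ← Finset.mul_sum, ← Finset.mul_sum]
  rw [hsplit]
  have h3 := XB.sum_inv_sq hS
  have h4 : B * (2 * ((‖a₁‖ + ‖a₂‖ + ‖b₁‖ + ‖b₂‖) * ∑ p ∈ S, Real.log p / p) +
      ∑ p ∈ S, ((p : ℝ) ^ 2)⁻¹) ≤ B * 4 := by
    gcongr; linarith
  linarith

/-- pointwise comparison of the truncated exponentials with the weight -/
lemma pointwise4 {A l : ℕ} {S : Finset ℕ} {k : ℝ} (hS : ∀ p ∈ S, p.Prime) (hk : |k - 2| ≤ 1)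
    {f : ℕ → ℂ} (hf : ∀ n, ‖f n‖ = 1) :
    ‖Ntr l (k - 2) (Pj A S (tw ((1 / 2 : ℝ) : ℂ) f)) *
      (starRingEnd ℂ) (Ntr l (k - 2) (Pj A S (tw ((1 / 2 : ℝ) : ℂ) f))) - ((Wt (2 - k) S f : ℝ) : ℂ)‖ ≤
      (Real.exp (2 * rho A S) - 1) * Wt (2 - k) S f +
        2 * Real.exp (-l) * Real.exp (2 * ‖Pj A S (tw ((1 / 2 : ℝ) : ℂ) f)‖) ^ 2 := by
  have ha : |k - 2| ≤ 1 := hk
  set P := Pj A S (tw ((1 / 2 : ℝ) : ℂ) f) with hP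
  set R := Rm A S (tw ((1 / 2 : ℝ) : ℂ) f) with hR
  have hR1 : ‖R‖ ≤ rho A S := norm_Rm_le A hS le_rfl hf
  have hR2 := (abs_le.mp ((abs_re_le_norm _).trans hR1))
  have hρ := rho_nonneg A S
  have hW : Wt (2 - k) S f = Real.exp (2 * (-(2 - k)) * P.re + 2 * (-(2 - k)) * R.re) := by
    rw [Wt_eq, norm_ZZ_rpow A hS le_rfl hf]
  set E : ℂ := cexp (((k - 2 : ℝ) : ℂ) * P) with hE
  have hEn : ‖E‖ ^ 2 = Real.exp (2 * (k - 2) * P.re) := by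
    rw [hE, norm_exp, ← Real.exp_nat_mul, re_ofReal_mul, Nat.cast_ofNat]
    congr 1; ring
  have h1 : |‖E‖ ^ 2 - Wt (2 - k) S f| ≤ (Real.exp (2 * rho A S) - 1) * Wt (2 - k) S f := by
    have e1 : ‖E‖ ^ 2 = Wt (2 - k) S f * Real.exp (2 * (2 - k) * R.re) := by
      rw [hEn, hW, ← Real.exp_add]; congr 1; ring
    rw [e1, ← mul_sub_one, abs_mul, abs_of_nonneg (Wt_nonneg _ _ _), mul_comm]
    refine mul_le_mul_of_nonneg_right ?_ (Wt_nonneg _ _ _)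
    have h3 : |2 * (2 - k) * R.re| ≤ 2 * rho A S := by
      rw [abs_mul, abs_mul, abs_two, abs_sub_comm]
      have := (abs_re_le_norm R).trans hR1
      have h0 := abs_nonneg R.re
      calc 2 * |k - 2| * |R.re| ≤ 2 * 1 * rho A S := by gcongr
        _ = _ := by ring
    have h4 : |Real.exp (2 * (2 - k) * R.re) - 1| ≤ Real.exp |2 * (2 - k) * R.re| - 1 := by
      have := norm_exp_sub_one_le' ((2 * (2 - k) * R.re : ℝ) : ℂ)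
      rw [← ofReal_exp, ← ofReal_one, ← ofReal_sub, norm_real, norm_real, Real.norm_eq_abs,
        Real.norm_eq_abs] at this
      exact this
    refine h4.trans ?_
    have := Real.exp_le_exp.mpr h3
    linarith
  have hN := norm_Ntr_le l ha P
  have hE1 : ‖E‖ ≤ Real.exp ‖P‖ := by
    rw [hE, norm_exp]
    apply Real.exp_le_exp.mpr
    rw [re_ofReal_mul]
    have h5 : |(k - 2) * P.re| ≤ ‖P‖ := by
      rw [abs_mul]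
      calc |k - 2| * |P.re| ≤ 1 * ‖P‖ := mul_le_mul ha (abs_re_le_norm P) (abs_nonneg _) zero_le_one
        _ = ‖P‖ := one_mul _
    exact (le_abs_self _).trans h5
  have hT := Ntr_tail l ha P
  have h2 : |‖Ntr l (k - 2) P‖ ^ 2 - ‖E‖ ^ 2| ≤ 2 * Real.exp (-l) * Real.exp (2 * ‖P‖) ^ 2 := by
    have e1 : ‖Ntr l (k - 2) P‖ ^ 2 - ‖E‖ ^ 2 = (‖Ntr l (k - 2) P‖ - ‖E‖) * (‖Ntr l (k - 2) P‖ + ‖E‖) := by
      ring
    rw [e1, abs_mul]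
    have h3 : |‖Ntr l (k - 2) P‖ - ‖E‖| ≤ Real.exp (-l) * Real.exp (3 * ‖P‖) := by
      refine (abs_norm_sub_norm_le _ _).trans ?_
      rw [norm_sub_rev, hE]
      exact hT
    have h4 : |‖Ntr l (k - 2) P‖ + ‖E‖| ≤ 2 * Real.exp ‖P‖ := by
      rw [abs_of_nonneg (by positivity)]; linarith
    calc |‖Ntr l (k - 2) P‖ - ‖E‖| * |‖Ntr l (k - 2) P‖ + ‖E‖| ≤
          (Real.exp (-l) * Real.exp (3 * ‖P‖)) * (2 * Real.exp ‖P‖) := by gcongr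
      _ = 2 * Real.exp (-l) * (Real.exp (3 * ‖P‖) * Real.exp ‖P‖) := by ring
      _ = _ := by
          rw [← Real.exp_add, ← Real.exp_nat_mul, Nat.cast_ofNat]
          congr 2; ring
  have e3 : Ntr l (k - 2) P * (starRingEnd ℂ) (Ntr l (k - 2) P) - ((Wt (2 - k) S f : ℝ) : ℂ) =
      ((‖Ntr l (k - 2) P‖ ^ 2 - Wt (2 - k) S f : ℝ) : ℂ) := by
    rw [mul_conj, normSq_eq_norm_sq]; push_cast; rfl
  rw [e3, norm_real, Real.norm_eq_abs]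
  calc |‖Ntr l (k - 2) P‖ ^ 2 - Wt (2 - k) S f| ≤ |‖E‖ ^ 2 - Wt (2 - k) S f| +
        |‖Ntr l (k - 2) P‖ ^ 2 - ‖E‖ ^ 2| := by
        have := abs_add_le (‖E‖ ^ 2 - Wt (2 - k) S f) (‖Ntr l (k - 2) P‖ ^ 2 - ‖E‖ ^ 2)
        rwa [show ‖E‖ ^ 2 - Wt (2 - k) S f + (‖Ntr l (k - 2) P‖ ^ 2 - ‖E‖ ^ 2) =
          ‖Ntr l (k - 2) P‖ ^ 2 - Wt (2 - k) S f by ring] at this
    _ ≤ _ := add_le_add h1 h2

end Blk4x

open BlkShift Blk4x in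
open K3.Blk4 (LP4_eq bs_Wt' amgm4 ES_four) in
theorem stBlk4 (hLF : StLF4L) : StBlk4 := by
  obtain ⟨C2, c₀, hC2, hc0, hc1, hlow⟩ := LP4_lower hLF
  obtain ⟨C3, hC3, hsq⟩ := fourth_moment
  obtain ⟨C4, hC4, hexp⟩ := ES_exp_norm (q := 2) (by norm_num)
  set C₁ : ℝ := Real.exp (C3 + C2) + 2 * Real.exp C2 + 2 * C4 + 1 with hC1
  refine ⟨C₁, c₀, by positivity, hc0, fun A l S k a₁ a₂ b₁ b₂ hA hS hk1 hk2 ha hsum hcond => ?_⟩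
  have hk : |k - 2| ≤ 1 := by rw [abs_le]; constructor <;> linarith
  have hlog : 0 ≤ ∑ p ∈ S, Real.log p / p :=
    Finset.sum_nonneg fun p _ => div_nonneg (Real.log_natCast_nonneg p) (by positivity)
  have hρ := rho_nonneg A S
  have hinv : 0 ≤ ∑ p ∈ S, 1 / (p : ℝ) := Finset.sum_nonneg fun p _ => by positivity
  have hLP := hlow S k a₁ a₂ b₁ b₂ hS hk1 hk2 ha hsum
  have hcast : ∀ f : ℕ → ℂ, Pj A S (tw (1 / 2) f) = Pj A S (tw ((1 / 2 : ℝ) : ℂ) f) := by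
    intro f; congr 2; push_cast; rfl
  rcases S.eq_empty_or_nonempty with hSe | hne
  · subst hSe
    have e0 : ES ∅ (fun f => ZZ ∅ (tw (1 / 2 + a₁) f) * ZZ ∅ (tw (1 / 2 + a₂) f) *
        (starRingEnd ℂ) (ZZ ∅ (tw (1 / 2 + (starRingEnd ℂ) b₁) f) *
          ZZ ∅ (tw (1 / 2 + (starRingEnd ℂ) b₂) f)) *
        (Ntr l (k - 2) (Pj A ∅ (tw (1 / 2) f)) *
          (starRingEnd ℂ) (Ntr l (k - 2) (Pj A ∅ (tw (1 / 2) f))))) = 1 := by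
      have : ∀ α : ℝ, Ntr l α 0 = 1 := by
        intro α
        rw [Ntr, Finset.sum_range_succ']
        simp
      simp [ES, ZZ, Pj, this]
    have e1 : LP4 (2 - k) a₁ a₂ b₁ b₂ ∅ = 1 := by simp [LP4]
    rw [e0, e1, sub_self, norm_zero]
    have h3 : 0 ≤ Real.exp (3 * rho A ∅) - 1 := by
      have := Real.one_le_exp (show 0 ≤ 3 * rho A ∅ by linarith); linarith
    positivity
  have n1 := norm_nonneg a₁
  have n2 := norm_nonneg a₂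
  have n3 := norm_nonneg b₁
  have n4 := norm_nonneg b₂
  have ha1 : ∀ p ∈ S, ‖a₁‖ * Real.log p ≤ 1 / 20 := fun p hp => (ha p hp).1.trans (by linarith)
  have ha2 : ∀ p ∈ S, ‖a₂‖ * Real.log p ≤ 1 / 20 := fun p hp => (ha p hp).2.1.trans (by linarith)
  have ha3 : ∀ p ∈ S, ‖(starRingEnd ℂ) b₁‖ * Real.log p ≤ 1 / 20 := fun p hp => by
    rw [RCLike.norm_conj]; exact (ha p hp).2.2.1.trans (by linarith)
  have ha4 : ∀ p ∈ S, ‖(starRingEnd ℂ) b₂‖ * Real.log p ≤ 1 / 20 := fun p hp => by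
    rw [RCLike.norm_conj]; exact (ha p hp).2.2.2.trans (by linarith)
  have hs : ∀ t : ℝ, t ≤ ‖a₁‖ + ‖a₂‖ + ‖b₁‖ + ‖b₂‖ → t * ∑ p ∈ S, Real.log p / p ≤ 1 :=
    fun t ht => le_trans (mul_le_mul_of_nonneg_right ht hlog) hsum
  have hr1 := re_pos_of hS ha1 hne
  have hr2 := re_pos_of hS ha2 hne
  have hr3 := re_pos_of hS ha3 hne
  have hr4 := re_pos_of hS ha4 hne
  have q1 := hsq S k a₁ hS hk1 hk2 ha1 (hs _ (by linarith))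
  have q2 := hsq S k a₂ hS hk1 hk2 ha2 (hs _ (by linarith))
  have q3 := hsq S k _ hS hk1 hk2 ha3 (hs _ (by rw [RCLike.norm_conj]; linarith))
  have q4 := hsq S k _ hS hk1 hk2 ha4 (hs _ (by rw [RCLike.norm_conj]; linarith))
  have hypsum : ∀ a : ℂ, (∀ p ∈ S, ‖a‖ * Real.log p ≤ 1 / 20) →
      ∑ p ∈ S, (yp (1 / 2 + a).re (1 / 2) p) ^ 2 ≤ 2 * ∑ p ∈ S, 1 / (p : ℝ) := by
    intro a ha
    rw [Finset.mul_sum]
    refine Finset.sum_le_sum fun p hp => ?_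
    have h1 := pow_le_pow_left₀ (yp_nonneg _ _ p) (yp_bd (hS p hp) (ha p hp)).1 2
    rw [mul_pow, inv_form] at h1
    have h2 : 0 ≤ 1 / (p : ℝ) := by positivity
    nlinarith
  have hE : ∀ a : ℂ, (∀ p ∈ S, ‖a‖ * Real.log p ≤ 1 / 20) → 0 < (1 / 2 + a : ℂ).re →
      ES S (fun f => ‖ZZ S (tw (1 / 2 + a) f) ^ 2‖ ^ 2 *
        Real.exp (2 * ‖Pj A S (tw ((1 / 2 : ℝ) : ℂ) f)‖) ^ 2) ≤ Real.exp (l / 2) := by
    intro a ha hr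
    have h1 := hexp A 2 S (1 / 2 + a) (1 / 2) hA (by norm_num) hr hS
      (fun p hp => (yp_bd (hS p hp) (ha p hp)).2)
    refine h1.trans (le_trans ?_ hcond)
    refine mul_le_mul_of_nonneg_left (Real.exp_le_exp.mpr ?_) (by norm_num)
    calc C4 * ∑ p ∈ S, (yp (1 / 2 + a).re (1 / 2) p) ^ 2 ≤ C4 * (2 * ∑ p ∈ S, 1 / (p : ℝ)) := by
          gcongr; exact hypsum a ha
      _ ≤ C₁ * ∑ p ∈ S, 1 / (p : ℝ) := by
          have : 2 * C4 ≤ C₁ := by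
            rw [hC1]; have := Real.exp_pos (C3 + C2); have := Real.exp_pos C2; linarith
          nlinarith
  have hE1 := hE a₁ ha1 hr1
  have hE2 := hE a₂ ha2 hr2
  have hE3 := hE _ ha3 hr3
  have hE4 := hE _ ha4 hr4
  -- the difference
  have bZ1 : BS S (fun f => ZZ S (tw (1 / 2 + a₁) f)) := bs_ZZ hS hr1
  have bZ2 : BS S (fun f => ZZ S (tw (1 / 2 + a₂) f)) := bs_ZZ hS hr2
  have bZ3 : BS S (fun f => ZZ S (tw (1 / 2 + (starRingEnd ℂ) b₁) f)) := bs_ZZ hS hr3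
  have bZ4 : BS S (fun f => ZZ S (tw (1 / 2 + (starRingEnd ℂ) b₂) f)) := bs_ZZ hS hr4
  have bP : BS S (fun f => Pj A S (tw ((1 / 2 : ℝ) : ℂ) f)) := bs_Pj A S S _
  have bN : BS S (fun f => Ntr l (k - 2) (Pj A S (tw ((1 / 2 : ℝ) : ℂ) f))) := bs_Ntr l _ bP
  have bW : BS S (Wt (2 - k) S) := bs_Wt' hS
  have bWc : BS S (fun f => ((Wt (2 - k) S f : ℝ) : ℂ)) := by
    obtain ⟨h1, C, h2⟩ := bW
    exact ⟨continuous_ofReal.comp h1, C, fun ω => by rw [norm_real]; exact h2 ω⟩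
  have bE : BS S (fun f => Real.exp (2 * ‖Pj A S (tw ((1 / 2 : ℝ) : ℂ) f)‖)) :=
    bP.exp_norm 2 (by norm_num)
  have bE2 : BS S (fun f => Real.exp (2 * ‖Pj A S (tw ((1 / 2 : ℝ) : ℂ) f)‖) ^ 2) := by
    simp only [sq]; exact bE.mul_real bE
  simp only [hcast]
  set Z₁ : (ℕ → ℂ) → ℂ := fun f => ZZ S (tw (1 / 2 + a₁) f) with hZ1
  set Z₂ : (ℕ → ℂ) → ℂ := fun f => ZZ S (tw (1 / 2 + a₂) f) with hZ2
  set Z₃ : (ℕ → ℂ) → ℂ := fun f => ZZ S (tw (1 / 2 + (starRingEnd ℂ) b₁) f) with hZ3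
  set Z₄ : (ℕ → ℂ) → ℂ := fun f => ZZ S (tw (1 / 2 + (starRingEnd ℂ) b₂) f) with hZ4
  set N : (ℕ → ℂ) → ℂ := fun f => Ntr l (k - 2) (Pj A S (tw ((1 / 2 : ℝ) : ℂ) f)) with hN
  set E2 : (ℕ → ℂ) → ℝ := fun f => Real.exp (2 * ‖Pj A S (tw ((1 / 2 : ℝ) : ℂ) f)‖) ^ 2 with hE2d
  have hF : ∀ f, ZZ S (tw (1 / 2 + a₁) f) * ZZ S (tw (1 / 2 + a₂) f) *
      (starRingEnd ℂ) (ZZ S (tw (1 / 2 + (starRingEnd ℂ) b₁) f) *
        ZZ S (tw (1 / 2 + (starRingEnd ℂ) b₂) f)) *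
      (Ntr l (k - 2) (Pj A S (tw ((1 / 2 : ℝ) : ℂ) f)) *
        (starRingEnd ℂ) (Ntr l (k - 2) (Pj A S (tw ((1 / 2 : ℝ) : ℂ) f)))) =
      Z₁ f * Z₂ f * (starRingEnd ℂ) (Z₃ f * Z₄ f) * (N f * (starRingEnd ℂ) (N f)) := fun f => rfl
  have hLPe : LP4 (2 - k) a₁ a₂ b₁ b₂ S = ES S (fun f => Z₁ f * Z₂ f *
      (starRingEnd ℂ) (Z₃ f * Z₄ f) * ((Wt (2 - k) S f : ℝ) : ℂ)) := (LP4_eq _ _ _ _ _ _).symm
  simp only [hF]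
  have bF : BS S (fun f => Z₁ f * Z₂ f * (starRingEnd ℂ) (Z₃ f * Z₄ f) *
      (N f * (starRingEnd ℂ) (N f))) :=
    ((bZ1.mul bZ2).mul (bZ3.mul bZ4).conj).mul (bN.mul bN.conj)
  have bG : BS S (fun f => Z₁ f * Z₂ f * (starRingEnd ℂ) (Z₃ f * Z₄ f) *
      ((Wt (2 - k) S f : ℝ) : ℂ)) :=
    ((bZ1.mul bZ2).mul (bZ3.mul bZ4).conj).mul bWc
  set r : ℝ := Real.exp (2 * rho A S) - 1 with hr
  have hr0 : 0 ≤ r := by
    have := Real.one_le_exp (show 0 ≤ 2 * rho A S by linarith); linarith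
  have v1 : BS S (fun f => ‖Z₁ f ^ 2‖ ^ 2 * Wt (2 - k) S f) := (bZ1.pow 2).norm_sq.mul_real bW
  have v2 : BS S (fun f => ‖Z₂ f ^ 2‖ ^ 2 * Wt (2 - k) S f) := (bZ2.pow 2).norm_sq.mul_real bW
  have v3 : BS S (fun f => ‖Z₃ f ^ 2‖ ^ 2 * Wt (2 - k) S f) := (bZ3.pow 2).norm_sq.mul_real bW
  have v4 : BS S (fun f => ‖Z₄ f ^ 2‖ ^ 2 * Wt (2 - k) S f) := (bZ4.pow 2).norm_sq.mul_real bW
  have w1 : BS S (fun f => ‖Z₁ f ^ 2‖ ^ 2 * E2 f) := (bZ1.pow 2).norm_sq.mul_real bE2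
  have w2 : BS S (fun f => ‖Z₂ f ^ 2‖ ^ 2 * E2 f) := (bZ2.pow 2).norm_sq.mul_real bE2
  have w3 : BS S (fun f => ‖Z₃ f ^ 2‖ ^ 2 * E2 f) := (bZ3.pow 2).norm_sq.mul_real bE2
  have w4 : BS S (fun f => ‖Z₄ f ^ 2‖ ^ 2 * E2 f) := (bZ4.pow 2).norm_sq.mul_real bE2
  obtain ⟨iv, ev⟩ := ES_four r v1 v2 v3 v4
  obtain ⟨iw, ew⟩ := ES_four (2 * Real.exp (-(l : ℝ))) w1 w2 w3 w4
  have hpt : ∀ ω, ‖(Z₁ (ext S ω) * Z₂ (ext S ω) * (starRingEnd ℂ) (Z₃ (ext S ω) * Z₄ (ext S ω)) *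
      (N (ext S ω) * (starRingEnd ℂ) (N (ext S ω)))) -
      Z₁ (ext S ω) * Z₂ (ext S ω) * (starRingEnd ℂ) (Z₃ (ext S ω) * Z₄ (ext S ω)) *
        ((Wt (2 - k) S (ext S ω) : ℝ) : ℂ)‖ ≤
      r * (1 / 4 * (‖Z₁ (ext S ω) ^ 2‖ ^ 2 * Wt (2 - k) S (ext S ω) +
        ‖Z₂ (ext S ω) ^ 2‖ ^ 2 * Wt (2 - k) S (ext S ω) +
        ‖Z₃ (ext S ω) ^ 2‖ ^ 2 * Wt (2 - k) S (ext S ω) +
        ‖Z₄ (ext S ω) ^ 2‖ ^ 2 * Wt (2 - k) S (ext S ω))) +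
      2 * Real.exp (-(l : ℝ)) * (1 / 4 * (‖Z₁ (ext S ω) ^ 2‖ ^ 2 * E2 (ext S ω) +
        ‖Z₂ (ext S ω) ^ 2‖ ^ 2 * E2 (ext S ω) + ‖Z₃ (ext S ω) ^ 2‖ ^ 2 * E2 (ext S ω) +
        ‖Z₄ (ext S ω) ^ 2‖ ^ 2 * E2 (ext S ω))) := by
    intro ω
    have h1 := pointwise4 (A := A) (l := l) hS hk (norm_ext S ω)
    rw [← mul_sub, norm_mul, norm_mul, norm_mul, RCLike.norm_conj, norm_mul]
    have h2 : ‖Z₁ (ext S ω)‖ * ‖Z₂ (ext S ω)‖ * (‖Z₃ (ext S ω)‖ * ‖Z₄ (ext S ω)‖) *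
        ‖N (ext S ω) * (starRingEnd ℂ) (N (ext S ω)) -
        ((Wt (2 - k) S (ext S ω) : ℝ) : ℂ)‖ ≤
        ‖Z₁ (ext S ω)‖ * ‖Z₂ (ext S ω)‖ * (‖Z₃ (ext S ω)‖ * ‖Z₄ (ext S ω)‖) *
          (r * Wt (2 - k) S (ext S ω) + 2 * Real.exp (-l) * E2 (ext S ω)) :=
      mul_le_mul_of_nonneg_left h1 (by positivity)
    refine h2.trans ?_
    have h3 := amgm4 ‖Z₁ (ext S ω)‖ ‖Z₂ (ext S ω)‖ ‖Z₃ (ext S ω)‖ ‖Z₄ (ext S ω)‖ _
      (Wt_nonneg (2 - k) S (ext S ω))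
    have h4 := amgm4 ‖Z₁ (ext S ω)‖ ‖Z₂ (ext S ω)‖ ‖Z₃ (ext S ω)‖ ‖Z₄ (ext S ω)‖
      (E2 (ext S ω)) (by positivity)
    have h5 := mul_le_mul_of_nonneg_left h3 hr0
    have h6 := mul_le_mul_of_nonneg_left h4 (show 0 ≤ 2 * Real.exp (-(l : ℝ)) by positivity)
    rw [norm_pow, norm_pow, norm_pow, norm_pow]
    calc ‖Z₁ (ext S ω)‖ * ‖Z₂ (ext S ω)‖ * (‖Z₃ (ext S ω)‖ * ‖Z₄ (ext S ω)‖) *
          (r * Wt (2 - k) S (ext S ω) + 2 * Real.exp (-l) * E2 (ext S ω)) =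
        r * (‖Z₁ (ext S ω)‖ * ‖Z₂ (ext S ω)‖ * (‖Z₃ (ext S ω)‖ * ‖Z₄ (ext S ω)‖) *
          Wt (2 - k) S (ext S ω)) +
          2 * Real.exp (-l) * (‖Z₁ (ext S ω)‖ * ‖Z₂ (ext S ω)‖ *
            (‖Z₃ (ext S ω)‖ * ‖Z₄ (ext S ω)‖) * E2 (ext S ω)) := by ring
      _ ≤ _ := add_le_add h5 h6
  have hdiff : ‖ES S (fun f => Z₁ f * Z₂ f * (starRingEnd ℂ) (Z₃ f * Z₄ f) *
      (N f * (starRingEnd ℂ) (N f))) - LP4 (2 - k) a₁ a₂ b₁ b₂ S‖ ≤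
      r * (1 / 4 * (ES S (fun f => ‖Z₁ f ^ 2‖ ^ 2 * Wt (2 - k) S f) +
        ES S (fun f => ‖Z₂ f ^ 2‖ ^ 2 * Wt (2 - k) S f) +
        ES S (fun f => ‖Z₃ f ^ 2‖ ^ 2 * Wt (2 - k) S f) +
        ES S (fun f => ‖Z₄ f ^ 2‖ ^ 2 * Wt (2 - k) S f))) +
      2 * Real.exp (-(l : ℝ)) * (1 / 4 * (ES S (fun f => ‖Z₁ f ^ 2‖ ^ 2 * E2 f) +
        ES S (fun f => ‖Z₂ f ^ 2‖ ^ 2 * E2 f) + ES S (fun f => ‖Z₃ f ^ 2‖ ^ 2 * E2 f) +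
        ES S (fun f => ‖Z₄ f ^ 2‖ ^ 2 * E2 f))) := by
    rw [hLPe, ← ev, ← ew, ← integral_add iv iw]
    nth_rewrite 1 [ES]
    nth_rewrite 1 [ES]
    rw [← integral_sub bF.integrable bG.integrable]
    refine (norm_integral_le_integral_norm _).trans ?_
    exact integral_mono (bF.integrable.sub bG.integrable).norm (iv.add iw) hpt
  refine hdiff.trans ?_
  set T₀ : ℝ := ∑ p ∈ S, 1 / (p : ℝ) with hT0
  have g1 : Real.exp (C3 + k ^ 2 * T₀) ≤ Real.exp (C3 + C2) * ‖LP4 (2 - k) a₁ a₂ b₁ b₂ S‖ := by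
    calc Real.exp (C3 + k ^ 2 * T₀) = Real.exp (C3 + C2) * Real.exp (k ^ 2 * T₀ - C2) := by
          rw [← Real.exp_add]; congr 1; ring
      _ ≤ _ := by gcongr
  have g2 : 1 ≤ Real.exp C2 * ‖LP4 (2 - k) a₁ a₂ b₁ b₂ S‖ := by
    calc (1 : ℝ) = Real.exp C2 * Real.exp (0 - C2) := by rw [← Real.exp_add]; simp
      _ ≤ Real.exp C2 * Real.exp (k ^ 2 * T₀ - C2) := by gcongr; positivity
      _ ≤ _ := by gcongr
  have g3 : r * (1 / 4 * (ES S (fun f => ‖Z₁ f ^ 2‖ ^ 2 * Wt (2 - k) S f) +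
        ES S (fun f => ‖Z₂ f ^ 2‖ ^ 2 * Wt (2 - k) S f) +
        ES S (fun f => ‖Z₃ f ^ 2‖ ^ 2 * Wt (2 - k) S f) +
        ES S (fun f => ‖Z₄ f ^ 2‖ ^ 2 * Wt (2 - k) S f))) ≤
      r * (Real.exp (C3 + C2) * ‖LP4 (2 - k) a₁ a₂ b₁ b₂ S‖) := by
    refine mul_le_mul_of_nonneg_left ?_ hr0
    have t1 := q1.trans g1
    have t2 := q2.trans g1
    have t3 := q3.trans g1
    have t4 := q4.trans g1
    linarith
  have g4 : 2 * Real.exp (-(l : ℝ)) * (1 / 4 * (ES S (fun f => ‖Z₁ f ^ 2‖ ^ 2 * E2 f) +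
        ES S (fun f => ‖Z₂ f ^ 2‖ ^ 2 * E2 f) + ES S (fun f => ‖Z₃ f ^ 2‖ ^ 2 * E2 f) +
        ES S (fun f => ‖Z₄ f ^ 2‖ ^ 2 * E2 f))) ≤
      2 * Real.exp (-(l / 2)) * (Real.exp C2 * ‖LP4 (2 - k) a₁ a₂ b₁ b₂ S‖) := by
    have e1 : 1 / 4 * (ES S (fun f => ‖Z₁ f ^ 2‖ ^ 2 * E2 f) +
        ES S (fun f => ‖Z₂ f ^ 2‖ ^ 2 * E2 f) + ES S (fun f => ‖Z₃ f ^ 2‖ ^ 2 * E2 f) +
        ES S (fun f => ‖Z₄ f ^ 2‖ ^ 2 * E2 f)) ≤ Real.exp (l / 2) := by linarith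
    calc _ ≤ 2 * Real.exp (-(l : ℝ)) * Real.exp (l / 2) := by gcongr
      _ = 2 * (Real.exp (-l) * Real.exp (l / 2)) := by ring
      _ = 2 * Real.exp (-(l / 2)) := by rw [← Real.exp_add]; congr 2; ring
      _ = 2 * Real.exp (-(l / 2)) * 1 := by ring
      _ ≤ _ := by gcongr
  refine (add_le_add g3 g4).trans ?_
  have hr3 : r ≤ Real.exp (3 * rho A S) - 1 := by
    have := Real.exp_le_exp.mpr (show 2 * rho A S ≤ 3 * rho A S by linarith)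
    linarith
  have hx : 0 ≤ ‖LP4 (2 - k) a₁ a₂ b₁ b₂ S‖ := norm_nonneg _
  have hp1 := Real.exp_pos (C3 + C2)
  have hp2 := Real.exp_pos C2
  have hp3 := Real.exp_pos (-((l : ℝ) / 2))
  have k1 : r * (Real.exp (C3 + C2) * ‖LP4 (2 - k) a₁ a₂ b₁ b₂ S‖) ≤
      C₁ * (Real.exp (3 * rho A S) - 1) * ‖LP4 (2 - k) a₁ a₂ b₁ b₂ S‖ := by
    calc r * (Real.exp (C3 + C2) * ‖LP4 (2 - k) a₁ a₂ b₁ b₂ S‖) ≤
          (Real.exp (3 * rho A S) - 1) * (C₁ * ‖LP4 (2 - k) a₁ a₂ b₁ b₂ S‖) := by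
          gcongr
          · linarith
          · rw [hC1]; linarith
      _ = _ := by ring
  have k2 : 2 * Real.exp (-(l / 2)) * (Real.exp C2 * ‖LP4 (2 - k) a₁ a₂ b₁ b₂ S‖) ≤
      C₁ * Real.exp (-(l / 2)) * ‖LP4 (2 - k) a₁ a₂ b₁ b₂ S‖ := by
    calc 2 * Real.exp (-(l / 2)) * (Real.exp C2 * ‖LP4 (2 - k) a₁ a₂ b₁ b₂ S‖) =
          (2 * Real.exp C2) * (Real.exp (-(l / 2)) * ‖LP4 (2 - k) a₁ a₂ b₁ b₂ S‖) := by ring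
      _ ≤ C₁ * (Real.exp (-(l / 2)) * ‖LP4 (2 - k) a₁ a₂ b₁ b₂ S‖) := by
          gcongr
          rw [hC1]; linarith
      _ = _ := by ring
  calc _ ≤ C₁ * (Real.exp (3 * rho A S) - 1) * ‖LP4 (2 - k) a₁ a₂ b₁ b₂ S‖ +
        C₁ * Real.exp (-(l / 2)) * ‖LP4 (2 - k) a₁ a₂ b₁ b₂ S‖ := add_le_add k1 k2
    _ = _ := by ring

end K7
end Pool.Agent.Lib.MP_973905_nt
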