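import Pool.Agent.Lib.MP_973905_nt.K7.Stmts
import Pool.Agent.Lib.MP_973905_nt.K1.RAapprox
import Pool.Agent.Lib.MP_973905_nt.K5.AK

/-! Module (R6): the bottom blocks with four shifts. -/

namespace Pool.Agent.Lib.MP_973905_nt
namespace K7

open MeasureTheory ProbabilityTheory Complex Filter Topology K1 K4 K5

namespace Bot4x

open K1.RAx hiding local_p prodB

lemma LF4_diag {κ x : ℝ} (hx0 : 0 ≤ x) (hx1 : x < 1) :
    K3.LF4 (1 - κ) x x x x x = ((Dl (1 + κ) x : ℝ) : ℂ) := by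
  rw [K3.LF4, Dl]
  have h1 : Real.circleAverage (fun z : ℂ => (1 - (x : ℂ) * z)⁻¹ * (1 - (x : ℂ) * z)⁻¹ *
      (1 - (x : ℂ) * (starRingEnd ℂ) z)⁻¹ * (1 - (x : ℂ) * (starRingEnd ℂ) z)⁻¹ *
      ((‖1 - x * z‖ ^ (2 * (1 - κ)) : ℝ) : ℂ)) 0 1 =
      Real.circleAverage (fun z : ℂ => ((‖1 - x * z‖ ^ (-(2 * (1 + κ))) : ℝ) : ℂ)) 0 1 := by
    refine Real.circleAverage_congr_sphere ?_
    intro z hz
    have hz1 : ‖z‖ = 1 := by simpa using hz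
    have hne : 1 - (x : ℂ) * z ≠ 0 := by
      intro h
      have h2 : (x : ℂ) * z = 1 := (sub_eq_zero.mp h).symm
      have h3 := congrArg norm h2
      rw [norm_mul, hz1, mul_one, norm_one, norm_real, Real.norm_eq_abs, abs_of_nonneg hx0] at h3
      linarith
    have hn : 0 < ‖1 - (x : ℂ) * z‖ := norm_pos_iff.mpr hne
    have h4 : (1 - (x : ℂ) * z)⁻¹ * (1 - (x : ℂ) * (starRingEnd ℂ) z)⁻¹ =
        ((‖1 - (x : ℂ) * z‖ ^ (-2 : ℝ) : ℝ) : ℂ) := by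
      have h5 : (1 - (x : ℂ) * (starRingEnd ℂ) z) = (starRingEnd ℂ) (1 - (x : ℂ) * z) := by
        rw [map_sub, map_mul, map_one, conj_ofReal]
      rw [h5, ← mul_inv, mul_conj, normSq_eq_norm_sq, ← ofReal_inv]
      congr 1
      rw [Real.rpow_neg hn.le, Real.rpow_two]
    have h6 : (1 - (x : ℂ) * z)⁻¹ * (1 - (x : ℂ) * z)⁻¹ *
        (1 - (x : ℂ) * (starRingEnd ℂ) z)⁻¹ * (1 - (x : ℂ) * (starRingEnd ℂ) z)⁻¹ =
        ((1 - (x : ℂ) * z)⁻¹ * (1 - (x : ℂ) * (starRingEnd ℂ) z)⁻¹) *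
          ((1 - (x : ℂ) * z)⁻¹ * (1 - (x : ℂ) * (starRingEnd ℂ) z)⁻¹) := by ring
    simp only []
    rw [h6, h4, ← ofReal_mul, ← ofReal_mul, ← Real.rpow_add hn, ← Real.rpow_add hn]
    congr 2
    ring
  rw [h1, Real.circleAverage, Real.circleAverage, intervalIntegral.integral_ofReal]
  simp

/-- the local factor of the normalising product -/
noncomputable def Nf (a₁ a₂ b₁ b₂ : ℂ) (p : ℕ) : ℂ :=
  (1 - (p : ℂ) ^ (-(1 + a₁ + b₁))) * (1 - (p : ℂ) ^ (-(1 + a₁ + b₂))) *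
    (1 - (p : ℂ) ^ (-(1 + a₂ + b₁))) * (1 - (p : ℂ) ^ (-(1 + a₂ + b₂))) *
    (1 - (p : ℂ) ^ (-(2 + a₁ + a₂ + b₁ + b₂)))⁻¹

/-- the local factor of the weighted model -/
noncomputable def L4 (u : ℝ) (a₁ a₂ b₁ b₂ : ℂ) (p : ℕ) : ℂ :=
  K3.LF4 u ((p : ℝ) ^ (-(1 / 2) : ℝ)) ((p : ℂ) ^ (-(1 / 2 + a₁))) ((p : ℂ) ^ (-(1 / 2 + a₂)))
    ((p : ℂ) ^ (-(1 / 2 + b₁))) ((p : ℂ) ^ (-(1 / 2 + b₂)))

/-- the value at zero shift -/
noncomputable def Ez (κ : ℝ) (p : ℕ) : ℝ :=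
  (1 - 1 / (p : ℝ)) ^ 4 * (1 - 1 / (p : ℝ) ^ 2)⁻¹ * Dl (1 + κ) ((p : ℝ) ^ (-(1 / 2) : ℝ))

lemma Nf_eq {p : ℕ} (hp : p ≠ 0) (a₁ a₂ b₁ b₂ : ℂ) : Nf a₁ a₂ b₁ b₂ p =
    (1 - (p : ℂ) ^ (-(1 / 2 + a₁)) * (p : ℂ) ^ (-(1 / 2 + b₁))) *
      (1 - (p : ℂ) ^ (-(1 / 2 + a₁)) * (p : ℂ) ^ (-(1 / 2 + b₂))) *
      (1 - (p : ℂ) ^ (-(1 / 2 + a₂)) * (p : ℂ) ^ (-(1 / 2 + b₁))) *
      (1 - (p : ℂ) ^ (-(1 / 2 + a₂)) * (p : ℂ) ^ (-(1 / 2 + b₂))) *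
      (1 - (p : ℂ) ^ (-(1 / 2 + a₁)) * (p : ℂ) ^ (-(1 / 2 + a₂)) * (p : ℂ) ^ (-(1 / 2 + b₁)) *
        (p : ℂ) ^ (-(1 / 2 + b₂)))⁻¹ := by
  have hp' : (p : ℂ) ≠ 0 := Nat.cast_ne_zero.mpr hp
  have h5 : (p : ℂ) ^ (-(1 / 2 + a₁)) * (p : ℂ) ^ (-(1 / 2 + a₂)) * (p : ℂ) ^ (-(1 / 2 + b₁)) *
        (p : ℂ) ^ (-(1 / 2 + b₂)) = (p : ℂ) ^ (-(2 + a₁ + a₂ + b₁ + b₂)) := by
    rw [← Complex.cpow_add _ _ hp', ← Complex.cpow_add _ _ hp', ← Complex.cpow_add _ _ hp']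
    congr 1
    ring
  rw [h5, cpow_mul_eq hp, cpow_mul_eq hp, cpow_mul_eq hp, cpow_mul_eq hp, Nf]

lemma Ez_ge {κ : ℝ} (hκ : 0 < κ) {p : ℕ} (hp : p.Prime) : 1 / 16 ≤ Ez κ p := by
  have hp2 : (2 : ℝ) ≤ p := by exact_mod_cast hp.two_le
  have h6 : 1 / (p : ℝ) ≤ 1 / 2 := one_div_le_one_div_of_le (by norm_num) hp2
  have h60 : 0 < 1 / (p : ℝ) := by positivity
  have hx1 := x_le hp
  have hx0 : 0 ≤ (p : ℝ) ^ (-(1 / 2) : ℝ) := by positivity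
  have h5 := Dl_ge (k := 1 + κ) (by linarith) hx0 (by linarith)
  have h7 : 0 ≤ (1 + κ) ^ 2 * ((p : ℝ) ^ (-(1 / 2) : ℝ)) ^ 2 := by positivity
  have h8 : (1 : ℝ) / 16 ≤ (1 - 1 / (p : ℝ)) ^ 4 := by
    calc (1 : ℝ) / 16 = (1 / 2) ^ 4 := by norm_num
      _ ≤ (1 - 1 / (p : ℝ)) ^ 4 := pow_le_pow_left₀ (by norm_num) (by linarith) 4
  have h9 : 1 ≤ (1 - 1 / (p : ℝ) ^ 2)⁻¹ := by
    have e1 : 1 / (p : ℝ) ^ 2 = (1 / (p : ℝ)) ^ 2 := by rw [one_div_pow]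
    have e2 : 0 < 1 - 1 / (p : ℝ) ^ 2 := by
      rw [e1]; nlinarith
    rw [one_le_inv₀ e2]
    have : 0 ≤ 1 / (p : ℝ) ^ 2 := by positivity
    linarith
  unfold Ez
  calc (1 : ℝ) / 16 = 1 / 16 * 1 * 1 := by norm_num
    _ ≤ (1 - 1 / (p : ℝ)) ^ 4 * (1 - 1 / (p : ℝ) ^ 2)⁻¹ *
      Dl (1 + κ) ((p : ℝ) ^ (-(1 / 2) : ℝ)) := by
        gcongr
        linarith

lemma local_shift4 {C : ℝ} (hC : 0 < C) (h : ∀ (u x : ℝ) (x₁ x₂ y₁ y₂ : ℂ), 0 ≤ u → u ≤ 1 → 0 ≤ x →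
    x ≤ 7072 / 10000 → ‖x₁ - x‖ ≤ x / 50 → ‖x₂ - x‖ ≤ x / 50 → ‖y₁ - x‖ ≤ x / 50 →
    ‖y₂ - x‖ ≤ x / 50 →
    ‖(1 - x₁ * y₁) * (1 - x₁ * y₂) * (1 - x₂ * y₁) * (1 - x₂ * y₂) * K3.LF4 u x x₁ x₂ y₁ y₂ *
        (1 - x₁ * x₂ * y₁ * y₂)⁻¹ -
      (1 - (x : ℂ) ^ 2) ^ 4 * K3.LF4 u x x x x x * (1 - (x : ℂ) ^ 4)⁻¹‖ ≤
      C * x * (‖x₁ - x‖ + ‖x₂ - x‖ + ‖y₁ - x‖ + ‖y₂ - x‖)) {p : ℕ} (hp : p.Prime) {κ : ℝ}
    (hκ0 : 0 < κ) (hκ1 : κ < 1) {a₁ a₂ b₁ b₂ : ℂ} (ha₁ : ‖a₁‖ * Real.log p ≤ 1 / 100)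
    (ha₂ : ‖a₂‖ * Real.log p ≤ 1 / 100) (hb₁ : ‖b₁‖ * Real.log p ≤ 1 / 100)
    (hb₂ : ‖b₂‖ * Real.log p ≤ 1 / 100) :
    ‖L4 (1 - κ) a₁ a₂ b₁ b₂ p * Nf a₁ a₂ b₁ b₂ p - ((Ez κ p : ℝ) : ℂ)‖ ≤
      (32 * C * (‖a₁‖ + ‖a₂‖ + ‖b₁‖ + ‖b₂‖) * (Real.log p / p)) * ‖((Ez κ p : ℝ) : ℂ)‖ := by
  have hp0 : (0 : ℝ) < p := by exact_mod_cast hp.pos
  have hp2 : (2 : ℝ) ≤ p := by exact_mod_cast hp.two_le
  have hl : 0 ≤ Real.log p := Real.log_nonneg (by linarith)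
  have hE := Ez_ge hκ0 hp
  have hEn : ‖((Ez κ p : ℝ) : ℂ)‖ = Ez κ p := by
    rw [norm_real, Real.norm_eq_abs, abs_of_nonneg (by linarith)]
  have hd : ((Ez κ p : ℝ) : ℂ) = (1 - (((p : ℝ) ^ (-(1 / 2) : ℝ) : ℝ) : ℂ) ^ 2) ^ 4 *
      K3.LF4 (1 - κ) ((p : ℝ) ^ (-(1 / 2) : ℝ)) (((p : ℝ) ^ (-(1 / 2) : ℝ) : ℝ) : ℂ)
        (((p : ℝ) ^ (-(1 / 2) : ℝ) : ℝ) : ℂ) (((p : ℝ) ^ (-(1 / 2) : ℝ) : ℝ) : ℂ)
        (((p : ℝ) ^ (-(1 / 2) : ℝ) : ℝ) : ℂ) *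
      (1 - (((p : ℝ) ^ (-(1 / 2) : ℝ) : ℝ) : ℂ) ^ 4)⁻¹ := by
    have hx3 := x_le hp
    rw [LF4_diag (by positivity) (by linarith), Ez]
    have e2 : ((p : ℝ) ^ (-(1 / 2) : ℝ)) ^ 2 = 1 / (p : ℝ) := by rw [x_sq, one_div]
    have e4 : ((p : ℝ) ^ (-(1 / 2) : ℝ)) ^ 4 = 1 / (p : ℝ) ^ 2 := by
      rw [show ((p : ℝ) ^ (-(1 / 2) : ℝ)) ^ 4 = (((p : ℝ) ^ (-(1 / 2) : ℝ)) ^ 2) ^ 2 by ring, e2,
        one_div_pow]
    rw [← e2, ← e4]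
    push_cast
    ring
  rw [hEn, hd]
  set x := (p : ℝ) ^ (-(1 / 2) : ℝ) with hx
  have hx0 : 0 ≤ x := by positivity
  have hx2 : x ^ 2 = (p : ℝ)⁻¹ := x_sq
  have hx3 : x ≤ 7072 / 10000 := by
    have h1 : x ^ 2 ≤ 1 / 2 := by
      rw [hx2, one_div]
      exact inv_anti₀ (by norm_num) hp2
    nlinarith
  have s : ∀ w : ℂ, ‖w‖ * Real.log p ≤ 1 / 100 →
      ‖(p : ℂ) ^ (-(1 / 2 + w)) - (x : ℂ)‖ ≤ x * (2 * (‖w‖ * Real.log p)) ∧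
      ‖(p : ℂ) ^ (-(1 / 2 + w)) - (x : ℂ)‖ ≤ x / 50 := by
    intro w hw
    have s1 := shift_le hp (a := w) (hw.trans (by norm_num))
    rw [← hx] at s1
    refine ⟨s1, s1.trans ?_⟩
    have : x * (2 * (‖w‖ * Real.log p)) ≤ x * (2 * (1 / 100)) := by gcongr
    linarith
  obtain ⟨s1, s1'⟩ := s a₁ ha₁
  obtain ⟨s2, s2'⟩ := s a₂ ha₂
  obtain ⟨s3, s3'⟩ := s b₁ hb₁
  obtain ⟨s4, s4'⟩ := s b₂ hb₂
  have h3 := h (1 - κ) x _ _ _ _ (by linarith) (by linarith) hx0 hx3 s1' s2' s3' s4'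
  have e0 : L4 (1 - κ) a₁ a₂ b₁ b₂ p * Nf a₁ a₂ b₁ b₂ p =
      (1 - (p : ℂ) ^ (-(1 / 2 + a₁)) * (p : ℂ) ^ (-(1 / 2 + b₁))) *
      (1 - (p : ℂ) ^ (-(1 / 2 + a₁)) * (p : ℂ) ^ (-(1 / 2 + b₂))) *
      (1 - (p : ℂ) ^ (-(1 / 2 + a₂)) * (p : ℂ) ^ (-(1 / 2 + b₁))) *
      (1 - (p : ℂ) ^ (-(1 / 2 + a₂)) * (p : ℂ) ^ (-(1 / 2 + b₂))) *
      K3.LF4 (1 - κ) x ((p : ℂ) ^ (-(1 / 2 + a₁))) ((p : ℂ) ^ (-(1 / 2 + a₂)))
        ((p : ℂ) ^ (-(1 / 2 + b₁))) ((p : ℂ) ^ (-(1 / 2 + b₂))) *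
      (1 - (p : ℂ) ^ (-(1 / 2 + a₁)) * (p : ℂ) ^ (-(1 / 2 + a₂)) * (p : ℂ) ^ (-(1 / 2 + b₁)) *
        (p : ℂ) ^ (-(1 / 2 + b₂)))⁻¹ := by
    rw [Nf_eq hp.ne_zero, L4]
    ring
  rw [e0]
  refine h3.trans ?_
  calc C * x * (‖(p : ℂ) ^ (-(1 / 2 + a₁)) - (x : ℂ)‖ + ‖(p : ℂ) ^ (-(1 / 2 + a₂)) - (x : ℂ)‖ +
        ‖(p : ℂ) ^ (-(1 / 2 + b₁)) - (x : ℂ)‖ + ‖(p : ℂ) ^ (-(1 / 2 + b₂)) - (x : ℂ)‖)
      ≤ C * x * (x * (2 * (‖a₁‖ * Real.log p)) + x * (2 * (‖a₂‖ * Real.log p)) +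
        x * (2 * (‖b₁‖ * Real.log p)) + x * (2 * (‖b₂‖ * Real.log p))) := by gcongr
    _ = (32 * C * (‖a₁‖ + ‖a₂‖ + ‖b₁‖ + ‖b₂‖) * (Real.log p / p)) * (1 / 16) := by
        rw [div_eq_mul_inv (Real.log p), ← hx2]; ring
    _ ≤ (32 * C * (‖a₁‖ + ‖a₂‖ + ‖b₁‖ + ‖b₂‖) * (Real.log p / p)) * Ez κ p := by gcongr

/-- the product over the primes of `(1 - 1 / p²)⁻¹` -/
lemma tendsto_zeta_two : Tendsto (fun y : ℝ => ∏ p ∈ PS 0 y, (1 - 1 / (p : ℝ) ^ 2)⁻¹) atTop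
    (𝓝 (Real.pi ^ 2 / 6)) := by
  have h1 := riemannZeta_eulerProduct_hasProd (s := 2) (by norm_num)
  rw [riemannZeta_two] at h1
  have h3 : Tendsto (fun y : ℝ => ∏ p ∈ AKaux.PP y, (1 - ((p : ℕ) : ℂ) ^ (-(2 : ℂ)))⁻¹)
      atTop (𝓝 ((Real.pi : ℂ) ^ 2 / 6)) := h1.comp AKaux.tendsto_PP
  have h4 := (Complex.continuous_re.tendsto _).comp h3
  have h5 : (((Real.pi : ℂ) ^ 2 / 6)).re = Real.pi ^ 2 / 6 := by
    have : ((Real.pi : ℂ) ^ 2 / 6) = ((Real.pi ^ 2 / 6 : ℝ) : ℂ) := by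
      push_cast
      rfl
    rw [this, Complex.ofReal_re]
  rw [h5] at h4
  refine h4.congr fun y => ?_
  simp only [Function.comp]
  have h6 : ∏ p ∈ AKaux.PP y, (1 - ((p : ℕ) : ℂ) ^ (-(2 : ℂ)))⁻¹ =
      ((∏ p ∈ AKaux.PP y, (1 - 1 / ((p : ℕ) : ℝ) ^ 2)⁻¹ : ℝ) : ℂ) := by
    rw [Complex.ofReal_prod]
    refine Finset.prod_congr rfl fun p _ => ?_
    push_cast
    congr 2
    rw [Complex.cpow_neg, one_div]
    congr 1
    norm_cast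
  rw [h6, Complex.ofReal_re]
  have h : ∏ p ∈ AKaux.PP y, (1 - 1 / ((p : ℕ) : ℝ) ^ 2)⁻¹ =
      ∏ p ∈ (PS 0 y).filter Nat.Prime, (1 - 1 / (p : ℝ) ^ 2)⁻¹ :=
    Finset.prod_subtype_eq_prod_filter (s := PS 0 y) (p := Nat.Prime)
      (fun p : ℕ => (1 - 1 / (p : ℝ) ^ 2)⁻¹)
  rw [h]
  congr 1
  exact Finset.filter_true_of_mem fun p hp => (AKaux.mem_PS.mp hp).2

lemma tendsto_Ez (hA : StAK7) (hM : K5.StMertens) {κ : ℝ} (hκ0 : 0 < κ) (hκ1 : κ < 1) :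
    Tendsto (fun y : ℝ => (∏ p ∈ PS 0 y, Ez κ p) /
      (Real.exp Real.eulerMascheroniConstant * Real.log y) ^ ((1 + κ) ^ 2 - 4)) atTop
      (𝓝 (aK (1 + κ) * (Real.pi ^ 2 / 6))) := by
  obtain ⟨-, -, h1⟩ := hA (1 + κ) (by linarith) (by linarith)
  have h2 := (AKaux.tendsto_ratio hM).inv₀ one_ne_zero
  have h3 := (h1.mul (h2.pow 3)).mul tendsto_zeta_two
  rw [inv_one, one_pow, mul_one] at h3
  refine h3.congr' ?_
  filter_upwards [eventually_gt_atTop 1] with y hy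
  have hL : 0 < Real.exp Real.eulerMascheroniConstant * Real.log y :=
    mul_pos (Real.exp_pos _) (Real.log_pos hy)
  have hMM := AKaux.MM_pos y
  have e1 : ∏ p ∈ PS 0 y, Ez κ p =
      (∏ p ∈ PS 0 y, (1 - 1 / (p : ℝ)) * Dl (1 + κ) ((p : ℝ) ^ (-(1 / 2) : ℝ))) *
        (∏ p ∈ PS 0 y, (1 - 1 / (p : ℝ))) ^ 3 * ∏ p ∈ PS 0 y, (1 - 1 / (p : ℝ) ^ 2)⁻¹ := by
    rw [← Finset.prod_pow, ← Finset.prod_mul_distrib, ← Finset.prod_mul_distrib]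
    refine Finset.prod_congr rfl fun p _ => ?_
    rw [Ez]
    ring
  rw [e1, AKaux.prod_one_sub]
  set Lg := Real.exp Real.eulerMascheroniConstant * Real.log y with hLg
  have e2 : Lg ^ ((1 + κ) ^ 2 - 1) = Lg ^ ((1 + κ) ^ 2 - 4) * Lg ^ 3 := by
    have e4 : Lg ^ 3 = Lg ^ (3 : ℝ) := by
      rw [show (3 : ℝ) = ((3 : ℕ) : ℝ) by norm_num, Real.rpow_natCast]
    rw [e4, ← Real.rpow_add hL]
    congr 1
    ring
  have e3 : 0 < Lg ^ ((1 + κ) ^ 2 - 4) := Real.rpow_pos_of_pos hL _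
  rw [e2]
  field_simp

lemma EB4_eq {κ T : ℝ} {M : ℕ} {a₁ a₂ b₁ b₂ : ℂ} {j : ℕ} (hj : j ∈ Finset.range (JJ T + 1)) :
    EB4 κ T M (Finset.range (JJ T + 1)) ∅ a₁ a₂ b₁ b₂ j =
      ES (Sj T M (JJ T) j) (fun f => ZZ (Sj T M (JJ T) j) (tw (1 / 2 + a₁) f) *
        ZZ (Sj T M (JJ T) j) (tw (1 / 2 + a₂) f) *
        (starRingEnd ℂ) (ZZ (Sj T M (JJ T) j) (tw (1 / 2 + (starRingEnd ℂ) b₁) f) *
          ZZ (Sj T M (JJ T) j) (tw (1 / 2 + (starRingEnd ℂ) b₂) f)) *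
        (Ntr (ll M (JJ T) j) (κ - 1) (Pj M (Sj T M (JJ T) j) (tw (1 / 2) f)) *
          (starRingEnd ℂ) (Ntr (ll M (JJ T) j) (κ - 1) (Pj M (Sj T M (JJ T) j) (tw (1 / 2) f))))) *
        ∏ p ∈ Sj T M (JJ T) j, Nf a₁ a₂ b₁ b₂ p := by
  rw [EB4, E4, NF]
  congr 2
  funext f
  rw [Fc, if_pos hj, if_neg (Finset.notMem_empty _), mul_one, mul_conj, normSq_eq_norm_sq]

end Bot4x

open Bot4x in
open K1.RAx hiding local_p prodB in
theorem stBot4 (h4 : StLF4L) (h5 : StBlk4) (hA : StAK7) (hMe : K5.StMertens) : StBot4 := by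
  obtain ⟨C₁, c₀, hC₁, hc₀, hB⟩ := h5
  obtain ⟨C, hC, hLip⟩ := h4
  obtain ⟨M₁, hM₁⟩ := block_cond C₁ hC₁
  obtain ⟨C₄, hC₄, hsl⟩ := sum_log_div_le
  intro κ hκ0 hκ1 η hη
  obtain ⟨hak, -, -⟩ := hA (1 + κ) (by linarith) (by linarith)
  have hlim := tendsto_Ez hA hMe hκ0 hκ1
  have hlam : 0 < Real.log (1 + η) / 3 := by
    have := Real.log_pos (show 1 < 1 + η by linarith)
    linarith
  set lam := Real.log (1 + η) / 3 with hlamdef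
  have t1 : Tendsto (fun M : ℕ => (2 : ℝ) ^ (-(((M : ℝ) - 3) / 2))) atTop (𝓝 0) := by
    have h1 : Tendsto (fun M : ℕ => (((M : ℝ) - 3) / 2)) atTop atTop :=
      (tendsto_atTop_add_const_right _ (-3) tendsto_natCast_atTop_atTop).atTop_div_const (by norm_num)
    have h2 : Tendsto (fun x : ℝ => (2 : ℝ) ^ (-x)) atTop (𝓝 0) := by
      have : (fun x : ℝ => (2 : ℝ) ^ (-x)) = fun x : ℝ => Real.exp (-(Real.log 2 * x)) := by
        ext x; rw [Real.rpow_def_of_pos (by norm_num)]; congr 1; ring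
      rw [this]
      exact Real.tendsto_exp_neg_atTop_nhds_zero.comp
        (tendsto_id.const_mul_atTop (Real.log_pos (by norm_num)))
    exact h2.comp h1
  have hsmall : ∀ᶠ M : ℕ in atTop, C₁ * (6 * (4 * (2 : ℝ) ^ (-(((M : ℝ) - 3) / 2))) +
      2 * Real.exp (-(5 * Real.exp (3 / 4 * (M : ℝ))))) ≤ lam := by
    have t3 : Tendsto (fun M : ℕ => Real.exp (-(5 * Real.exp (3 / 4 * (M : ℝ))))) atTop (𝓝 0) := by
      refine Real.tendsto_exp_neg_atTop_nhds_zero.comp ?_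
      refine Tendsto.const_mul_atTop (by norm_num) (Real.tendsto_exp_atTop.comp ?_)
      exact Tendsto.const_mul_atTop (by norm_num) tendsto_natCast_atTop_atTop
    have t4 := (((t1.const_mul 4).const_mul 6).add (t3.const_mul 2)).const_mul C₁
    simp only [mul_zero, add_zero] at t4
    exact t4.eventually (eventually_le_nhds hlam)
  have hsmall2 : ∀ᶠ M : ℕ in atTop, 3 * (4 * (2 : ℝ) ^ (-(((M : ℝ) - 3) / 2))) ≤ 1 := by
    have t4 := (t1.const_mul 4).const_mul 3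
    simp only [mul_zero] at t4
    exact t4.eventually (eventually_le_nhds zero_lt_one)
  have t5 : Tendsto (fun M : ℕ => Real.exp (-((M : ℝ) / 2))) atTop (𝓝 0) :=
    Real.tendsto_exp_neg_atTop_nhds_zero.comp
      (tendsto_natCast_atTop_atTop.atTop_div_const (by norm_num))
  have hsmall3 : ∀ᶠ M : ℕ in atTop, 128 * C * Real.exp (-((M : ℝ) / 2)) ≤ lam / 2 := by
    have t6 := t5.const_mul (128 * C)
    rw [mul_zero] at t6
    exact t6.eventually (eventually_le_nhds (by linarith))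
  have hsmall4 : ∀ᶠ M : ℕ in atTop, Real.exp (-((M : ℝ) / 2)) ≤ min (1 / 100) c₀ :=
    t5.eventually (eventually_le_nhds (lt_min (by norm_num) hc₀))
  obtain ⟨M₂, hM₂⟩ := eventually_atTop.mp (hsmall.and (hsmall2.and (hsmall3.and hsmall4)))
  refine ⟨max (max M₁ M₂) 6, fun M hM => ?_⟩
  have hMM₁ : M₁ ≤ M := (le_max_left _ _).trans ((le_max_left _ _).trans hM)
  have hMM₂ : M₂ ≤ M := (le_max_right _ _).trans ((le_max_left _ _).trans hM)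
  have hM6 : 6 ≤ M := (le_max_right _ _).trans hM
  have hM6' : (6 : ℝ) ≤ M := by exact_mod_cast hM6
  obtain ⟨hs1, hs2, hs3, hs4⟩ := hM₂ M hMM₂
  obtain ⟨T₁, hT₁3, hT₁⟩ := hM₁ M hMM₁
  have eM : 0 < Real.exp (-(M : ℝ)) := Real.exp_pos _
  have eM2 : 0 < Real.exp ((M : ℝ) / 2) := Real.exp_pos _
  have es1 : Real.exp (-((M : ℝ) / 2)) ≤ 1 / 100 := hs4.trans (min_le_left _ _)
  have es2 : Real.exp (-((M : ℝ) / 2)) ≤ c₀ := hs4.trans (min_le_right _ _)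
  have heprod : Real.exp ((M : ℝ) / 2) * Real.exp (-(M : ℝ)) = Real.exp (-((M : ℝ) / 2)) := by
    rw [← Real.exp_add]; congr 1; ring
  -- the limit of the product at zero shift
  set δ : ℝ := Real.exp lam - 1 with hδdef
  have hδ : 0 < δ := by
    have := Real.add_one_lt_exp hlam.ne'
    linarith
  have hak' : 0 < aK (1 + κ) * (Real.pi ^ 2 / 6) := by
    have := Real.pi_pos
    positivity
  have hev := (Metric.tendsto_nhds.mp hlim) (δ * (aK (1 + κ) * (Real.pi ^ 2 / 6))) (by positivity)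
  have hyt : Tendsto (fun T : ℝ => Real.exp (Real.exp (-(M : ℝ)) * Real.log T)) atTop atTop :=
    Real.tendsto_exp_atTop.comp (Real.tendsto_log_atTop.const_mul_atTop eM)
  obtain ⟨T₂, hT₂⟩ := eventually_atTop.mp (hyt.eventually hev)
  set L₀ : ℝ := Real.exp M + 256 * C * C₄ * Real.exp (M / 2) / lam +
    8 * C₄ * Real.exp (M / 2) with hL₀
  refine ⟨max (max T₁ T₂) (Real.exp L₀), hT₁3.trans ((le_max_left _ _).trans (le_max_left _ _)),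
    fun T hT a₁ a₂ b₁ b₂ ha₁ ha₂ hb₁ hb₂ => ?_⟩
  have hTT₁ : T₁ ≤ T := (le_max_left _ _).trans ((le_max_left _ _).trans hT)
  have hTT₂ : T₂ ≤ T := (le_max_right _ _).trans ((le_max_left _ _).trans hT)
  have hT3 : 3 ≤ T := hT₁3.trans hTT₁
  have hT1 : 1 < T := by linarith
  have hT0 : 0 < T := by linarith
  have hL : 0 < Real.log T := Real.log_pos hT1
  have hLL : L₀ ≤ Real.log T := by
    rw [Real.le_log_iff_exp_le hT0]; exact (le_max_right _ _).trans hT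
  have g1 : 0 ≤ 256 * C * C₄ * Real.exp (M / 2) / lam := by positivity
  have g2 : 0 ≤ 8 * C₄ * Real.exp ((M : ℝ) / 2) := by positivity
  have g3 : 0 < Real.exp (M : ℝ) := Real.exp_pos _
  have hLa : Real.exp M ≤ Real.log T := by linarith
  have hLb : 256 * C * C₄ * Real.exp (M / 2) / lam ≤ Real.log T := by linarith
  have hLc : 8 * C₄ * Real.exp (M / 2) ≤ Real.log T := by linarith
  set L := Real.log T with hLdef
  -- the shifts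
  have hshift : ∀ j, j ≤ JJ T → ∀ p ∈ Sj T M (JJ T) j, ∀ a : ℂ, ‖a‖ ≤ Real.exp (M / 2) / L →
      ‖a‖ * Real.log p ≤ Real.exp (-((M : ℝ) / 2)) := by
    intro j hj p hp a ha
    have h1 := log_le_of_mem hT1 hj hp
    rw [← hLdef] at h1
    have h2 : 0 ≤ Real.log p := Real.log_nonneg (by exact_mod_cast (prime_Sj hT1 hp).one_lt.le)
    calc ‖a‖ * Real.log p ≤ (Real.exp (M / 2) / L) * (Real.exp (-(M : ℝ)) * L) := by gcongr
      _ = Real.exp ((M : ℝ) / 2) * Real.exp (-(M : ℝ)) := by field_simp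
      _ = Real.exp (-((M : ℝ) / 2)) := heprod
  set y : ℝ := Real.exp (Real.exp (-(M : ℝ)) * L) with hy
  have hey : 1 ≤ Real.exp (-(M : ℝ)) * L := by
    rw [Real.exp_neg, inv_mul_eq_div, le_div_iff₀ (Real.exp_pos _), one_mul]; exact hLa
  have hy2 : 2 ≤ y := by
    have := Real.add_one_le_exp (Real.exp (-(M : ℝ)) * L)
    linarith
  have hUp : ∀ p ∈ PS 0 y, p.Prime := fun p hp => ((mem_PS le_rfl (by linarith)).mp hp).1
  have hUmem : ∀ p ∈ PS 0 y, ∃ j, j ≤ JJ T ∧ p ∈ Sj T M (JJ T) j := by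
    intro p hp
    rw [hy, hLdef, ← biUnion_eq hT1, Finset.mem_biUnion] at hp
    obtain ⟨j, hj, hp⟩ := hp
    exact ⟨j, by have := Finset.mem_range.mp hj; omega, hp⟩
  have hUsub : ∀ j, j ≤ JJ T → Sj T M (JJ T) j ⊆ PS 0 y := by
    intro j hj
    rw [hy, hLdef, ← biUnion_eq hT1]
    exact Finset.subset_biUnion_of_mem (fun j => Sj T M (JJ T) j) (Finset.mem_range.mpr (by omega))
  have hlogU : ∀ p ∈ PS 0 y, 0 ≤ Real.log p / (p : ℝ) := fun p hp =>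
    div_nonneg (Real.log_nonneg (by exact_mod_cast (hUp p hp).one_lt.le)) (by positivity)
  set sA : ℝ := ‖a₁‖ + ‖a₂‖ + ‖b₁‖ + ‖b₂‖ with hsA
  have hsA0 : 0 ≤ sA := by positivity
  have hsumL : sA * ∑ p ∈ PS 0 y, Real.log p / p ≤
      4 * Real.exp (-((M : ℝ) / 2)) + 4 * C₄ * Real.exp (M / 2) / L := by
    have h1 := hsl y (by linarith)
    have h2 : Real.log y = Real.exp (-(M : ℝ)) * L := by rw [hy, Real.log_exp]
    rw [h2] at h1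
    have h3 : 0 ≤ ∑ p ∈ PS 0 y, Real.log p / (p : ℝ) := Finset.sum_nonneg hlogU
    calc sA * ∑ p ∈ PS 0 y, Real.log p / p
        ≤ (Real.exp (M / 2) / L + Real.exp (M / 2) / L + Real.exp (M / 2) / L +
          Real.exp (M / 2) / L) * (Real.exp (-(M : ℝ)) * L + C₄) := by
          rw [hsA]
          gcongr
      _ = 4 * (Real.exp ((M : ℝ) / 2) * Real.exp (-(M : ℝ))) + 4 * C₄ * Real.exp (M / 2) / L := by
          field_simp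
          ring
      _ = _ := by rw [heprod]
  have hC4L : 4 * C₄ * Real.exp (M / 2) / L ≤ 1 / 2 := by
    rw [div_le_iff₀ hL]; linarith
  have hsumU : sA * ∑ p ∈ PS 0 y, Real.log p / p ≤ 1 := by
    linarith
  have hsumj : ∀ j, j ≤ JJ T → sA * ∑ p ∈ Sj T M (JJ T) j, Real.log p / p ≤ 1 := by
    intro j hj
    refine le_trans ?_ hsumU
    exact mul_le_mul_of_nonneg_left
      (Finset.sum_le_sum_of_subset_of_nonneg (hUsub j hj) fun p hp _ => hlogU p hp) (by positivity)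
  -- the blocks
  set ε : ℕ → ℝ := fun j => C₁ * (Real.exp (3 * rho M (Sj T M (JJ T) j)) - 1 +
    Real.exp (-((ll M (JJ T) j : ℝ) / 2))) with hε
  have hε0 : ∀ j, 0 ≤ ε j := fun j => by
    have h1 : 1 ≤ Real.exp (3 * rho M (Sj T M (JJ T) j)) :=
      Real.one_le_exp (by have := rho_nonneg M (Sj T M (JJ T) j); positivity)
    have h2 := Real.exp_pos (-((ll M (JJ T) j : ℝ) / 2))
    simp only [hε]
    apply mul_nonneg hC₁.le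
    linarith
  have hrho := sum_rho hT1 (M := M) (J := JJ T) (by omega)
  have hεsum : ∑ j ∈ Finset.range (JJ T + 1), ε j ≤ lam := by
    refine le_trans ?_ hs1
    simp only [hε]
    rw [← Finset.mul_sum, Finset.sum_add_distrib]
    have h2 : ∑ j ∈ Finset.range (JJ T + 1), Real.exp (-((ll M (JJ T) j : ℝ) / 2)) ≤
        2 * Real.exp (-(5 * Real.exp (3 / 4 * (M : ℝ)))) := by
      refine le_trans (Finset.sum_le_sum fun j _ => ?_) (sum_exp_KK (J := JJ T) ?_ (by norm_num))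
      · apply Real.exp_le_exp.mpr
        have : 10 * KK M (JJ T) j ≤ (ll M (JJ T) j : ℝ) := Nat.le_ceil _
        linarith
      · have := Real.one_le_exp (show 0 ≤ 3 / 4 * (M : ℝ) by positivity)
        linarith
    have h3 : ∑ j ∈ Finset.range (JJ T + 1), (Real.exp (3 * rho M (Sj T M (JJ T) j)) - 1) ≤
        6 * (4 * (2 : ℝ) ^ (-(((M : ℝ) - 3) / 2))) := by
      refine le_trans (Finset.sum_le_sum (g := fun j => 6 * rho M (Sj T M (JJ T) j)) fun j hj => ?_) ?_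
      · have h4 := rho_nonneg M (Sj T M (JJ T) j)
        have h5 : rho M (Sj T M (JJ T) j) ≤ 4 * (2 : ℝ) ^ (-(((M : ℝ) - 3) / 2)) :=
          (Finset.single_le_sum (f := fun j => rho M (Sj T M (JJ T) j))
            (fun i _ => rho_nonneg M _) hj).trans hrho
        have h6 : |3 * rho M (Sj T M (JJ T) j)| ≤ 1 := by
          rw [abs_of_nonneg (by positivity)]; linarith
        have h7 := Real.abs_exp_sub_one_le h6
        rw [abs_of_nonneg (by positivity : 0 ≤ 3 * rho M (Sj T M (JJ T) j))] at h7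
        have h8 := le_abs_self (Real.exp (3 * rho M (Sj T M (JJ T) j)) - 1)
        linarith
      · rw [← Finset.mul_sum]
        gcongr
    gcongr
  set z : ℕ → ℂ := fun j => EB4 κ T M (Finset.range (JJ T + 1)) ∅ a₁ a₂ b₁ b₂ j with hz
  set v : ℕ → ℂ := fun j => K3.LP4 (1 - κ) a₁ a₂ b₁ b₂ (Sj T M (JJ T) j) *
    ∏ p ∈ Sj T M (JJ T) j, Nf a₁ a₂ b₁ b₂ p with hv
  have hzv : ∀ j ∈ Finset.range (JJ T + 1), ‖z j - v j‖ ≤ ε j * ‖v j‖ := by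
    intro j hj
    have hj' : j ≤ JJ T := by have := Finset.mem_range.mp hj; omega
    have hcond := (hT₁ T hTT₁ j hj' (1 / 2) le_rfl).1
    have hcond' : 16 * Real.exp (C₁ * ∑ p ∈ Sj T M (JJ T) j, 1 / (p : ℝ)) ≤
        Real.exp ((ll M (JJ T) j : ℝ) / 2) := by
      refine le_trans (le_of_eq ?_) hcond
      congr 3
      refine Finset.sum_congr rfl fun p _ => ?_
      rw [one_div, ← Real.rpow_neg_one]
      norm_num
    have h1 := hB M (ll M (JJ T) j) (Sj T M (JJ T) j) (1 + κ) a₁ a₂ b₁ b₂ (by omega)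
      (fun p hp => prime_Sj hT1 hp) (by linarith) (by linarith)
      (fun p hp => ⟨(hshift j hj' p hp a₁ ha₁).trans es2, (hshift j hj' p hp a₂ ha₂).trans es2,
        (hshift j hj' p hp b₁ hb₁).trans es2, (hshift j hj' p hp b₂ hb₂).trans es2⟩)
      (hsumj j hj') hcond'
    rw [show (1 + κ - 2 : ℝ) = κ - 1 by ring, show (2 - (1 + κ) : ℝ) = 1 - κ by ring] at h1
    simp only [hz, hv]
    rw [EB4_eq hj, ← sub_mul, norm_mul, norm_mul, ← mul_assoc]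
    exact mul_le_mul_of_nonneg_right h1 (norm_nonneg _)
  have hQ := prod_sub_le' (Finset.range (JJ T + 1)) z v ε (fun j _ => hε0 j) hzv
  -- the product of the local factors
  have hQeq : ∏ j ∈ Finset.range (JJ T + 1), v j =
      ∏ p ∈ PS 0 y, (L4 (1 - κ) a₁ a₂ b₁ b₂ p * Nf a₁ a₂ b₁ b₂ p) := by
    rw [hy, hLdef, ← prod_biUnion_Sj hT1]
    refine Finset.prod_congr rfl fun j _ => ?_
    simp only [hv]
    rw [K3.LP4, ← Finset.prod_mul_distrib]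
    rfl
  set Q := ∏ j ∈ Finset.range (JJ T + 1), v j with hQdef
  set E : ℝ := ∏ p ∈ PS 0 y, Ez κ p with hEdef
  have hpB : ‖Q - (E : ℂ)‖ ≤ (Real.exp lam - 1) * ‖(E : ℂ)‖ := by
    rw [hQeq, hEdef, ofReal_prod]
    refine (prod_sub_le' (PS 0 y) _ _ (fun p => 32 * C * sA * (Real.log p / p))
      (fun p hp => ?_) (fun p hp => ?_)).trans ?_
    · have := hlogU p hp
      positivity
    · obtain ⟨j, hj, hpj⟩ := hUmem p hp
      exact local_shift4 hC hLip (hUp p hp) hκ0 hκ1 ((hshift j hj p hpj a₁ ha₁).trans es1)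
        ((hshift j hj p hpj a₂ ha₂).trans es1) ((hshift j hj p hpj b₁ hb₁).trans es1)
        ((hshift j hj p hpj b₂ hb₂).trans es1)
    · gcongr
      rw [← Finset.mul_sum]
      have e1 : 32 * C * sA * ∑ p ∈ PS 0 y, Real.log p / (p : ℝ) =
          32 * C * (sA * ∑ p ∈ PS 0 y, Real.log p / p) := by ring
      rw [e1]
      have e2 : 32 * C * (4 * C₄ * Real.exp (M / 2) / L) ≤ lam / 2 := by
        rw [mul_div_assoc', div_le_iff₀ hL]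
        have h5 : 256 * C * C₄ * Real.exp (M / 2) ≤ L * lam := by
          rwa [div_le_iff₀ hlam] at hLb
        linarith
      calc 32 * C * (sA * ∑ p ∈ PS 0 y, Real.log p / (p : ℝ))
          ≤ 32 * C * (4 * Real.exp (-((M : ℝ) / 2)) + 4 * C₄ * Real.exp (M / 2) / L) := by gcongr
        _ = 128 * C * Real.exp (-((M : ℝ) / 2)) + 32 * C * (4 * C₄ * Real.exp (M / 2) / L) := by
            ring
        _ ≤ lam := by linarith
  -- the value at `0`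
  have hlM : Real.exp Real.eulerMascheroniConstant * Real.log y = lM T M := by
    rw [hy, Real.log_exp, lM, hLdef, ← mul_assoc, ← Real.exp_add]
    congr 2
  have hlM0 : 0 < lM T M := by
    rw [lM]; positivity
  have hE3 : |E / lM T M ^ ((1 + κ) ^ 2 - 4) - aK (1 + κ) * (Real.pi ^ 2 / 6)| <
      δ * (aK (1 + κ) * (Real.pi ^ 2 / 6)) := by
    have h5 := hT₂ T hTT₂
    rw [Real.dist_eq] at h5
    simp only [← hLdef, ← hy] at h5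
    rwa [hlM, ← hEdef] at h5
  set R := lM T M ^ ((1 + κ) ^ 2 - 4) with hR
  have hR0 : 0 < R := Real.rpow_pos_of_pos hlM0 _
  set X := D4 κ T M with hX
  have hXR : X = aK (1 + κ) * (Real.pi ^ 2 / 6) * R := by rw [hX, D4]
  have hX0 : 0 < X := by rw [hXR]; positivity
  have hE2 : |E - X| ≤ δ * X := by
    have e1 : E - X = (E / R - aK (1 + κ) * (Real.pi ^ 2 / 6)) * R := by
      rw [hXR]; field_simp
    rw [e1, abs_mul, abs_of_pos hR0, hXR, ← mul_assoc]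
    exact mul_le_mul_of_nonneg_right hE3.le hR0.le
  have hE0 : 0 < E := by
    rw [hEdef]
    refine Finset.prod_pos fun p hp => ?_
    have := Ez_ge hκ0 (hUp p hp)
    linarith
  have hE1 : E ≤ Real.exp lam * X := by
    have := (abs_le.mp hE2).2
    rw [hδdef] at this
    linarith
  have hEn : ‖(E : ℂ)‖ = E := by rw [norm_real, Real.norm_eq_abs, abs_of_pos hE0]
  rw [hEn] at hpB
  set A := Real.exp (∑ j ∈ Finset.range (JJ T + 1), ε j) with hA'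
  have hA1 : 1 ≤ A := Real.one_le_exp (Finset.sum_nonneg fun j _ => hε0 j)
  have hA2 : A ≤ Real.exp lam := Real.exp_le_exp.mpr hεsum
  set B := Real.exp lam with hBB
  have hB1 : 1 ≤ B := Real.one_le_exp hlam.le
  have hQ1 : ‖Q‖ ≤ B * E := by
    have h1 : ‖Q‖ ≤ ‖Q - (E : ℂ)‖ + ‖(E : ℂ)‖ := by simpa using norm_add_le (Q - (E : ℂ)) (E : ℂ)
    rw [hEn] at h1
    linarith
  -- conclusion
  have h1 : ‖(∏ j ∈ Finset.range (JJ T + 1), z j) - (X : ℂ)‖ ≤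
      ‖(∏ j ∈ Finset.range (JJ T + 1), z j) - Q‖ + (‖Q - (E : ℂ)‖ + ‖(E : ℂ) - (X : ℂ)‖) := by
    refine (norm_sub_le_norm_sub_add_norm_sub _ Q _).trans ?_
    gcongr
    exact norm_sub_le_norm_sub_add_norm_sub _ _ _
  have h2 : ‖(E : ℂ) - (X : ℂ)‖ ≤ (B - 1) * X := by
    rw [← ofReal_sub, norm_real, Real.norm_eq_abs]; exact hE2
  refine h1.trans ?_
  have h3 : (A - 1) * ‖Q‖ ≤ (B - 1) * (B * (B * X)) := by
    have : ‖Q‖ ≤ B * (B * X) := hQ1.trans (by gcongr)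
    exact mul_le_mul (by linarith) this (norm_nonneg _) (by linarith)
  have h4 : (B - 1) * E ≤ (B - 1) * (B * X) := mul_le_mul_of_nonneg_left hE1 (by linarith)
  have h5 : B * B * B = 1 + η := by
    rw [hBB, ← Real.exp_add, ← Real.exp_add]
    have h6 : lam + lam + lam = Real.log (1 + η) := by rw [hlamdef]; ring
    rw [h6, Real.exp_log (by linarith)]
  calc ‖(∏ j ∈ Finset.range (JJ T + 1), z j) - Q‖ + (‖Q - (E : ℂ)‖ + ‖(E : ℂ) - (X : ℂ)‖)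
      ≤ (A - 1) * ‖Q‖ + ((B - 1) * E + (B - 1) * X) := by gcongr
    _ ≤ (B - 1) * (B * (B * X)) + ((B - 1) * (B * X) + (B - 1) * X) := by gcongr
    _ = (B * B * B - 1) * X := by ring
    _ = η * X := by rw [h5]; ring

end K7
end Pool.Agent.Lib.MP_973905_nt
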