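import Pool.Agent.Lib.MP_973905_nt.K7.Stmts
import Pool.Agent.Lib.MP_973905_nt.K4.BumpMom
import Pool.Agent.Lib.MP_973905_nt.K4.JG
import Pool.Agent.Lib.MP_973905_nt.K5.Rho
import Pool.Agent.Lib.MP_973905_nt.K2.Arith2

/-! (A5) the remainder in the approximate functional equation is small in the mean, with the
weight `WF`. -/

namespace Pool.Agent.Lib.MP_973905_nt
namespace K7

open MeasureTheory ProbabilityTheory Complex Filter Topology K1 K4 K5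

namespace BumpW

open F4.Cr4 (zcont w w_cont w_nonneg w_le int_exp int_exp_val int_inv int_inv_val w_one w_two
  wt_ge)

lemma Qp_le (φ : ℝ → ℝ) {T : ℝ} (hT : 1 < T) (ν t : ℝ) :
    ‖Qp φ T ν t‖ ≤ ∑ n ∈ Finset.Icc 1 ⌊T⌋₊, |φ (Real.log n / Real.log T)| :=
  K4.BumpX.Qp_le φ hT ν t

lemma Qp_cont (φ : ℝ → ℝ) {T : ℝ} : Continuous fun p : ℝ × ℝ => Qp φ T p.2 p.1 :=
  K4.BumpX.Qp_cont φ

/-- The Tonelli step. -/
theorem tonelli {φ : ℝ → ℝ} {T X L' : ℝ} (hT : 3 ≤ T) (hL' : 1 ≤ L') (hX : 1 ≤ X) {W : ℝ → ℝ}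
    (hW0 : ∀ t, 0 ≤ W t) (hWc : Continuous W) {m : ℕ} {D₁ D₂ : ℝ} (hD1 : 0 ≤ D₁) (hD2 : 0 ≤ D₂)
    (htw : ∀ ν : ℝ, IntegrableOn (fun t : ℝ => ‖riemannZeta (1 / 2 + t * I)‖ ^ 2 *
      ‖Qp φ T ν t‖ ^ 2 * W t * Wr X t) (Set.Ioi 0) ∧
    ∫ t in Set.Ioi (0 : ℝ), ‖riemannZeta (1 / 2 + t * I)‖ ^ 2 *
      ‖Qp φ T ν t‖ ^ 2 * W t * Wr X t ≤ D₁ * (1 + L' * |ν|) ^ m + D₂ * (1 + |ν|))
    {R : ℝ → ℝ} {Ca E : ℝ} (hCa : 0 ≤ Ca)
    (hR : ∀ t ∈ Set.Ioc X (2 * X), R t ≤ Ca * (∫ ν : ℝ, ‖Qp φ T ν t‖ ^ 2 *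
      (L' * ((1 + L' * |ν|) ^ (m + 2))⁻¹ * Real.exp (-ν ^ 2))) + E) (hR0 : ∀ t, 0 ≤ R t) :
    ∫ t in X..(2 * X), ‖riemannZeta (1 / 2 + t * I)‖ ^ 2 * R t * W t ≤
      X * (Ca * Real.exp 2 * (4 * D₁ + 2 * L' * D₂)) +
      E * ∫ t in X..(2 * X), ‖riemannZeta (1 / 2 + t * I)‖ ^ 2 * W t := by
  have hT1 : 1 < T := by linarith
  have hX0 : 0 < X := by linarith
  have hL0 : 0 < L' := by linarith
  set Z : ℝ → ℝ := fun t => ‖riemannZeta (1 / 2 + t * I)‖ with hZ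
  have hZc : Continuous Z := zcont.norm
  set G : ℝ → ℝ := fun t => Z t ^ 2 * W t with hG
  have hGc : Continuous G := (hZc.pow 2).mul hWc
  have hG0 : ∀ t, 0 ≤ G t := fun t => mul_nonneg (sq_nonneg _) (hW0 t)
  obtain ⟨D, hD⟩ := isCompact_Icc.exists_bound_of_continuousOn (s := Set.Icc X (2 * X)) (f := G)
    hGc.continuousOn
  set KQ : ℝ := ∑ n ∈ Finset.Icc 1 ⌊T⌋₊, |φ (Real.log n / Real.log T)| with hKQ
  have hQle : ∀ ν t, ‖Qp φ T ν t‖ ≤ KQ := Qp_le φ hT1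
  have hKQ0 : 0 ≤ KQ := Finset.sum_nonneg fun n _ => abs_nonneg _
  set F : ℝ × ℝ → ℝ := fun p => G p.1 * ‖Qp φ T p.2 p.1‖ ^ 2 * w L' (m + 2) p.2 with hF
  have hFc : Continuous F :=
    ((hGc.comp continuous_fst).mul ((Qp_cont φ).norm.pow 2)).mul
      ((w_cont hL0 _).comp continuous_snd)
  have hF0 : ∀ p, 0 ≤ F p := fun p => by
    have h1 := w_nonneg hL0 (m + 2) p.2
    have h2 := hG0 p.1
    simp only [hF]
    positivity
  have hFint : Integrable F ((volume.restrict (Set.Ioc X (2 * X))).prod volume) := by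
    have h1 : Integrable (fun p : ℝ × ℝ => (D * KQ ^ 2) * Real.exp (-p.2 ^ 2))
        ((volume.restrict (Set.Ioc X (2 * X))).prod volume) := by
      have := (integrable_const (μ := volume.restrict (Set.Ioc X (2 * X)))
        (D * KQ ^ 2)).mul_prod int_exp
      exact this
    refine h1.mono' hFc.aestronglyMeasurable ?_
    have h2 : ∀ᵐ p ∂((volume.restrict (Set.Ioc X (2 * X))).prod (volume : Measure ℝ)),
        p.1 ∈ Set.Ioc X (2 * X) := by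
      have h3 : ∀ᵐ t ∂(volume.restrict (Set.Ioc X (2 * X))), t ∈ Set.Ioc X (2 * X) :=
        ae_restrict_mem measurableSet_Ioc
      exact Measure.quasiMeasurePreserving_fst.ae h3
    filter_upwards [h2] with p hp
    rw [Real.norm_eq_abs, abs_of_nonneg (hF0 p)]
    simp only [hF]
    have h3 := hD p.1 (Set.Ioc_subset_Icc_self hp)
    rw [Real.norm_eq_abs, abs_of_nonneg (hG0 p.1)] at h3
    have h4 := hQle p.2 p.1
    have h6 := w_le hL0 (m + 2) p.2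
    have h7 := w_nonneg hL0 (m + 2) p.2
    have h8 := hG0 p.1
    have h9 : 0 ≤ D := h8.trans h3
    gcongr
  -- the pointwise bound
  have hpt : ∀ t ∈ Set.Ioc X (2 * X), Z t ^ 2 * R t * W t ≤
      Ca * L' * (∫ ν, F (t, ν)) + E * G t := by
    intro t ht
    have h1 := hR t ht
    have h2 : ∫ ν, F (t, ν) = G t * ∫ ν : ℝ, ‖Qp φ T ν t‖ ^ 2 * w L' (m + 2) ν := by
      rw [← integral_const_mul]
      congr 1
      funext ν
      simp only [hF]
      ring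
    have h3 : ∫ ν : ℝ, ‖Qp φ T ν t‖ ^ 2 * (L' * ((1 + L' * |ν|) ^ (m + 2))⁻¹ *
        Real.exp (-ν ^ 2)) = L' * ∫ ν : ℝ, ‖Qp φ T ν t‖ ^ 2 * w L' (m + 2) ν := by
      rw [← integral_const_mul]
      congr 1
      funext ν
      simp only [w]
      ring
    rw [h3] at h1
    rw [h2]
    calc Z t ^ 2 * R t * W t = G t * R t := by simp only [hG]; ring
      _ ≤ G t * (Ca * (L' * ∫ ν : ℝ, ‖Qp φ T ν t‖ ^ 2 * w L' (m + 2) ν) + E) :=
        mul_le_mul_of_nonneg_left h1 (hG0 t)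
      _ = _ := by ring
  -- integrate
  have hswap : ∫ t in Set.Ioc X (2 * X), ∫ ν, F (t, ν) =
      ∫ ν, ∫ t in Set.Ioc X (2 * X), F (t, ν) :=
    integral_integral_swap hFint
  have hinner : ∀ ν, ∫ t in Set.Ioc X (2 * X), F (t, ν) ≤ Real.exp 2 * X *
      (D₁ * (1 + (L' * ν) ^ 2)⁻¹ + D₂ * Real.exp (-ν ^ 2)) := by
    intro ν
    obtain ⟨hi, hle⟩ := htw ν
    have hw0 := w_nonneg hL0 (m + 2) ν
    have hQc : Continuous fun t : ℝ => Qp φ T ν t := by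
      have h0 : Continuous fun t : ℝ => ((t, ν) : ℝ × ℝ) := by fun_prop
      have h00 := (Qp_cont φ (T := T)).comp h0
      exact h00
    have h1 : ∫ t in Set.Ioc X (2 * X), F (t, ν) =
        w L' (m + 2) ν * ∫ t in Set.Ioc X (2 * X), Z t ^ 2 * ‖Qp φ T ν t‖ ^ 2 * W t := by
      rw [← integral_const_mul]
      congr 1
      funext t
      simp only [hF, hG]
      ring
    set g : ℝ → ℝ := fun t => ‖riemannZeta (1 / 2 + t * I)‖ ^ 2 *
      ‖Qp φ T ν t‖ ^ 2 * W t * Wr X t with hg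
    have hsub : Set.Ioc X (2 * X) ⊆ Set.Ioi (0 : ℝ) := fun t ht => hX0.trans ht.1
    have h2 : ∫ t in Set.Ioc X (2 * X), Z t ^ 2 * ‖Qp φ T ν t‖ ^ 2 * W t ≤
        ∫ t in Set.Ioc X (2 * X), Real.exp 2 * X * g t := by
      refine setIntegral_mono_on ?_ ((hi.mono_set hsub).const_mul _) measurableSet_Ioc
        fun t ht => ?_
      · exact ((((hZc.pow 2).mul (hQc.norm.pow 2)).mul hWc).continuousOn.integrableOn_Icc).mono_set
          Set.Ioc_subset_Icc_self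
      · have h3 := wt_ge hX0 ht.1.le ht.2
        simp only [hg, Wr]
        have h4 : 0 ≤ Z t ^ 2 * ‖Qp φ T ν t‖ ^ 2 * W t :=
          mul_nonneg (by positivity) (hW0 t)
        calc Z t ^ 2 * ‖Qp φ T ν t‖ ^ 2 * W t
            ≤ Z t ^ 2 * ‖Qp φ T ν t‖ ^ 2 * W t *
              (Real.exp 2 * X * (X⁻¹ * (t / X) ^ 11 * Real.exp (-(t / X)))) :=
              le_mul_of_one_le_right h4 h3
          _ = _ := by ring
    have h3 : ∫ t in Set.Ioc X (2 * X), Real.exp 2 * X * g t ≤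
        Real.exp 2 * X * ∫ t in Set.Ioi (0 : ℝ), g t := by
      rw [integral_const_mul]
      refine mul_le_mul_of_nonneg_left ?_ (by positivity)
      refine setIntegral_mono_set hi ?_ (LE.le.eventuallyLE hsub)
      rw [EventuallyLE, ae_restrict_iff' measurableSet_Ioi]
      refine Filter.Eventually.of_forall fun t ht => ?_
      have ht0 : (0 : ℝ) < t := ht
      have hWt := hW0 t
      simp only [hg, Wr, Pi.zero_apply]
      positivity
    have h4 : ∫ t in Set.Ioc X (2 * X), Z t ^ 2 * ‖Qp φ T ν t‖ ^ 2 * W t ≤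
        Real.exp 2 * X * (D₁ * (1 + L' * |ν|) ^ m + D₂ * (1 + |ν|)) := by
      refine (h2.trans h3).trans ?_
      gcongr
    rw [h1]
    have hw1 := w_one hL' m ν
    have hw2 := w_two hL' m ν
    calc w L' (m + 2) ν * ∫ t in Set.Ioc X (2 * X), Z t ^ 2 * ‖Qp φ T ν t‖ ^ 2 * W t
        ≤ w L' (m + 2) ν *
          (Real.exp 2 * X * (D₁ * (1 + L' * |ν|) ^ m + D₂ * (1 + |ν|))) := by gcongr
      _ = Real.exp 2 * X * (D₁ * ((1 + L' * |ν|) ^ m * w L' (m + 2) ν) +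
          D₂ * ((1 + |ν|) * w L' (m + 2) ν)) := by ring
      _ ≤ _ := by gcongr
  have hXX : X ≤ 2 * X := by linarith
  rw [intervalIntegral.integral_of_le hXX, intervalIntegral.integral_of_le hXX]
  have hI2 : IntegrableOn (fun t => ∫ ν, F (t, ν)) (Set.Ioc X (2 * X)) := hFint.integral_prod_left
  have hI3 : Integrable (fun ν => ∫ t in Set.Ioc X (2 * X), F (t, ν)) := hFint.integral_prod_right
  have hI1 : IntegrableOn G (Set.Ioc X (2 * X)) :=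
    (hGc.continuousOn.integrableOn_Icc).mono_set Set.Ioc_subset_Icc_self
  have s1 : ∫ t in Set.Ioc X (2 * X), Z t ^ 2 * R t * W t ≤
      Ca * L' * (∫ t in Set.Ioc X (2 * X), ∫ ν, F (t, ν)) +
        E * ∫ t in Set.Ioc X (2 * X), G t := by
    have h1 : ∫ t in Set.Ioc X (2 * X), Z t ^ 2 * R t * W t ≤
        ∫ t in Set.Ioc X (2 * X), (Ca * L' * (∫ ν, F (t, ν)) + E * G t) := by
      refine integral_mono_of_nonneg (Filter.Eventually.of_forall fun t => ?_)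
        ((hI2.const_mul _).add (hI1.const_mul _)) ?_
      · have := hR0 t
        have := hW0 t
        simp only [Pi.zero_apply]
        positivity
      · rw [EventuallyLE, ae_restrict_iff' measurableSet_Ioc]
        exact Filter.Eventually.of_forall hpt
    rw [integral_add (hI2.const_mul _) (hI1.const_mul _), integral_const_mul,
      integral_const_mul] at h1
    exact h1
  have hI4 : Integrable (fun ν : ℝ => Real.exp 2 * X *
      (D₁ * (1 + (L' * ν) ^ 2)⁻¹ + D₂ * Real.exp (-ν ^ 2))) :=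
    (((int_inv hL0).const_mul _).add (int_exp.const_mul _)).const_mul _
  have s2 : ∫ ν, ∫ t in Set.Ioc X (2 * X), F (t, ν) ≤ Real.exp 2 * X *
      (D₁ * (∫ ν : ℝ, (1 + (L' * ν) ^ 2)⁻¹) + D₂ * ∫ ν : ℝ, Real.exp (-ν ^ 2)) := by
    refine (integral_mono hI3 hI4 hinner).trans (le_of_eq ?_)
    rw [integral_const_mul, integral_add ((int_inv hL0).const_mul _) (int_exp.const_mul _),
      integral_const_mul, integral_const_mul]
  rw [hswap] at s1
  have v1 := int_inv_val hL0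
  have v2 := int_exp_val
  have s3 : Ca * L' * (∫ ν, ∫ t in Set.Ioc X (2 * X), F (t, ν)) ≤
      X * (Ca * Real.exp 2 * (4 * D₁ + 2 * L' * D₂)) := by
    calc Ca * L' * (∫ ν, ∫ t in Set.Ioc X (2 * X), F (t, ν))
        ≤ Ca * L' * (Real.exp 2 * X *
          (D₁ * (∫ ν : ℝ, (1 + (L' * ν) ^ 2)⁻¹) + D₂ * ∫ ν : ℝ, Real.exp (-ν ^ 2))) := by gcongr
      _ = Ca * Real.exp 2 * X * (D₁ * (L' * ∫ ν : ℝ, (1 + (L' * ν) ^ 2)⁻¹) +
            L' * D₂ * ∫ ν : ℝ, Real.exp (-ν ^ 2)) := by ring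
      _ ≤ Ca * Real.exp 2 * X * (D₁ * 4 + L' * D₂ * 2) := by gcongr
      _ = _ := by ring
  exact s1.trans (by gcongr)

/-- the main term on the small circle -/
lemma mw_bd : ∃ V T₁ : ℝ, 0 < V ∧ ∀ T, T₁ ≤ T → ∀ X : ℝ, T ^ (985 / 1000 : ℝ) ≤ X →
    X ≤ T ^ (1 + 1 / 10000 : ℝ) → ∀ (R : ℂ → ℂ) (B : ℝ), 0 ≤ B →
    (∀ a : ℂ, ‖a‖ = 1 / (2 * Real.log T) → ‖R a‖ ≤ B) →
    ‖Real.circleAverage (MW X 12 R) 0 (1 / (2 * Real.log T))‖ ≤ V * Real.log T * B := by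
  obtain ⟨Cz, L₀, hCz, hL₀, hz⟩ := F4.Twist.zeta_circle
  obtain ⟨G, hG, hG1⟩ := F4.Twist.Gamma_bdd (c := 12) (by norm_num)
  set E : ℝ := Real.exp 3 with hE
  have hE0 : 0 < E := Real.exp_pos _
  obtain ⟨T₁, hT₁⟩ := eventually_atTop.mp
    ((K1.ThreeLines.ev_log (2 * Real.pi) (e := 1 / 2) (by norm_num)).and
    (Real.tendsto_log_atTop.eventually_ge_atTop (max L₀ 34)))
  refine ⟨2 * (G * Cz + E * (G * Cz)), max T₁ 3, by positivity, fun T hT X hX1 hX2 R B hBnn hB => ?_⟩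
  have hTT1 : T₁ ≤ T := (le_max_left _ _).trans hT
  have hT3 : 3 ≤ T := (le_max_right _ _).trans hT
  obtain ⟨e3, e4⟩ := hT₁ T hTT1
  have hLL0 : L₀ ≤ Real.log T := (le_max_left _ _).trans e4
  have hL34 : 34 ≤ Real.log T := (le_max_right _ _).trans e4
  have hT0 : 0 < T := by linarith
  have hT1 : 1 ≤ T := by linarith
  have hL0 : 0 < Real.log T := by linarith
  have hpi := Real.pi_pos
  have hXone : 1 ≤ X := (Real.one_le_rpow hT1 (by norm_num)).trans hX1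
  have hX0 : 0 < X := by linarith
  refine K1.ThreeLines.norm_circleAverage_le (by positivity) fun a ha => ?_
  set Y : ℝ := X / (2 * Real.pi) with hY
  have hY1 : 1 ≤ Y := by
    rw [hY, le_div_iff₀ (by positivity), one_mul]
    refine le_trans ?_ hX1
    calc 2 * Real.pi ≤ 2 * Real.pi * Real.log T := by nlinarith
      _ ≤ T ^ (1 / 2 : ℝ) := e3
      _ ≤ _ := Real.rpow_le_rpow_of_exponent_le hT1 (by norm_num)
  have hYX : Y ≤ T ^ (1 + 1 / 10000 : ℝ) := by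
    refine le_trans ?_ hX2
    rw [hY]
    apply div_le_self hX0.le
    have := Real.pi_gt_three
    linarith
  have hY0 : 0 < Y := by linarith
  obtain ⟨z1, z2⟩ := hz (2 * Real.log T) (by linarith) a ha
  have hr : ‖a‖ ≤ 1 / 68 := by
    rw [ha]; exact one_div_le_one_div_of_le (by norm_num) (by linarith)
  have hre : |a.re| ≤ 1 / (2 * Real.log T) := ha ▸ Complex.abs_re_le_norm a
  have hre9 : |a.re| ≤ 9 / 16 := (Complex.abs_re_le_norm a).trans (by linarith)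
  have hb1 := hB a ha
  have hb2 := hB (-a) (by rw [norm_neg]; exact ha)
  have hYp : ‖(Y : ℂ) ^ (-(2 * a))‖ ≤ E := by
    rw [K1.ThreeLines.norm_X_cpow hY0]
    calc Y ^ (-(2 * a.re)) ≤ Y ^ (2 * (1 / (2 * Real.log T))) := by
          apply Real.rpow_le_rpow_of_exponent_le hY1
          have := (abs_le.mp hre).1
          linarith
      _ ≤ (T ^ (1 + 1 / 10000 : ℝ)) ^ (2 * (1 / (2 * Real.log T))) := by
          apply Real.rpow_le_rpow hY0.le hYX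
          positivity
      _ = Real.exp (1 + 1 / 10000) := by
          rw [← Real.rpow_mul hT0.le, Real.rpow_def_of_pos hT0]
          congr 1
          field_simp
      _ ≤ E := by
          rw [hE]
          apply Real.exp_le_exp.mpr
          norm_num
  have g1 : ‖Gamma 12‖ ≤ G := by simpa using hG1 0 (by norm_num)
  have g2 : ‖Gamma (12 - 2 * a)‖ ≤ G := hG1 a hre9
  rw [MW]
  calc _ ≤ G * (Cz * (2 * Real.log T) * B) + E * (G * (Cz * (2 * Real.log T) * B)) := by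
        refine (norm_add_le _ _).trans (add_le_add ?_ ?_)
        · rw [norm_mul, norm_mul]
          gcongr
        · rw [norm_mul, norm_mul, norm_mul]
          gcongr
    _ = _ := by ring

/-- lower bound for the arithmetic factor -/
lemma BF_low {κ : ℝ} (hκ0 : 0 < κ) (hκ1 : κ < 1) : ∃ n : ℕ, ∀ M : ℕ, 1 ≤ M → ∀ T : ℝ, 3 ≤ T →
    0 < BF κ T M ∧
    Real.log T ^ ((1 + κ) ^ 2 - 1) ≤ Real.exp (n * M) * (BF κ T M * Real.log T ^ 3) := by
  obtain ⟨-, -, -, C, hC1, hC, -⟩ := stRho κ hκ0 hκ1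
  have hak : 0 < aK (1 + κ) := K2.Arith2.aK_pos2 (by linarith) (by linarith)
  have hC0 : 0 < C := by linarith
  set y : ℝ := Real.log C + |Real.log (aK (1 + κ))| with hy
  refine ⟨⌈y⌉₊, fun M hM T hT => ?_⟩
  have hn : y ≤ ⌈y⌉₊ := Nat.le_ceil y
  have hL1 : 1 < Real.log T := by
    rw [Real.lt_log_iff_exp_lt (by linarith)]
    have := Real.exp_one_lt_d9
    linarith
  have hL0 : 0 < Real.log T := by linarith
  have hM1 : (1 : ℝ) ≤ M := by exact_mod_cast hM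
  set e : ℝ := (1 + κ) ^ 2 - 4 with he
  have he0 : e ≤ 0 := by rw [he]; nlinarith
  have hlM : Real.log T ^ e ≤ lM T M ^ e := by
    rw [lM, Real.mul_rpow (Real.exp_pos _).le hL0.le]
    refine le_mul_of_one_le_left (Real.rpow_pos_of_pos hL0 _).le ?_
    rw [← Real.exp_mul]
    apply Real.one_le_exp
    have hγ : Real.eulerMascheroniConstant < 2 / 3 := Real.eulerMascheroniConstant_lt_two_thirds
    apply mul_nonneg_of_nonpos_of_nonpos _ he0
    linarith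
  have hprod : (C ^ M)⁻¹ ≤ ∏ i ∈ Finset.range (M - 6), aF κ i := by
    have h1 : ∏ i ∈ Finset.range (M - 6), C⁻¹ ≤ ∏ i ∈ Finset.range (M - 6), aF κ i :=
      Finset.prod_le_prod (fun _ _ => by positivity) fun i _ => (hC i).1
    refine le_trans ?_ h1
    rw [Finset.prod_const, Finset.card_range, inv_pow]
    apply inv_anti₀ (by positivity)
    exact pow_le_pow_right₀ hC1 (Nat.sub_le _ _)
  have hpi : 1 ≤ Real.pi ^ 2 / 6 := by
    have := Real.pi_gt_three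
    nlinarith
  have hLe : 0 < Real.log T ^ e := Real.rpow_pos_of_pos hL0 _
  have hBF : aK (1 + κ) * Real.log T ^ e * (C ^ M)⁻¹ ≤ BF κ T M := by
    rw [BF, D4, ← he]
    have h2 : 0 ≤ ∏ i ∈ Finset.range (M - 6), aF κ i := le_trans (by positivity) hprod
    have h3 : 0 < lM T M ^ e := hLe.trans_le hlM
    have h4 : 0 ≤ aK (1 + κ) * (Real.pi ^ 2 / 6) * lM T M ^ e := by positivity
    calc aK (1 + κ) * Real.log T ^ e * (C ^ M)⁻¹
        = aK (1 + κ) * 1 * Real.log T ^ e * (C ^ M)⁻¹ := by ring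
      _ ≤ aK (1 + κ) * (Real.pi ^ 2 / 6) * lM T M ^ e *
          ∏ i ∈ Finset.range (M - 6), aF κ i := by gcongr
  have hpos : 0 < aK (1 + κ) * Real.log T ^ e * (C ^ M)⁻¹ := by positivity
  refine ⟨hpos.trans_le hBF, ?_⟩
  have hL3 : Real.log T ^ e * Real.log T ^ 3 = Real.log T ^ ((1 + κ) ^ 2 - 1) := by
    rw [← Real.rpow_natCast (Real.log T) 3, ← Real.rpow_add hL0]
    congr 1
    push_cast
    rw [he]
    ring
  have hexp : 1 ≤ Real.exp (⌈y⌉₊ * M) * (aK (1 + κ) * (C ^ M)⁻¹) := by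
    have h1 : C ^ M = Real.exp (Real.log C * M) := by
      rw [mul_comm, Real.exp_nat_mul, Real.exp_log hC0]
    have h2 : aK (1 + κ) = Real.exp (Real.log (aK (1 + κ))) := (Real.exp_log hak).symm
    rw [h1]
    nth_rewrite 1 [h2]
    rw [← Real.exp_neg, ← Real.exp_add, ← Real.exp_add]
    apply Real.one_le_exp
    have h3 : y * M ≤ ⌈y⌉₊ * M := by gcongr
    have h4 : |Real.log (aK (1 + κ))| ≤ |Real.log (aK (1 + κ))| * M :=
      le_mul_of_one_le_right (abs_nonneg _) hM1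
    have h5 := neg_abs_le (Real.log (aK (1 + κ)))
    have h6 : y * M = Real.log C * M + |Real.log (aK (1 + κ))| * M := by rw [hy]; ring
    linarith
  calc Real.log T ^ ((1 + κ) ^ 2 - 1) = 1 * (Real.log T ^ e * Real.log T ^ 3) := by
        rw [one_mul, hL3]
    _ ≤ Real.exp (⌈y⌉₊ * M) * (aK (1 + κ) * (C ^ M)⁻¹) * (Real.log T ^ e * Real.log T ^ 3) := by
        gcongr
    _ = Real.exp (⌈y⌉₊ * M) * (aK (1 + κ) * Real.log T ^ e * (C ^ M)⁻¹ * Real.log T ^ 3) := by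
        ring
    _ ≤ _ := by gcongr

lemma log_small' (y : ℝ) {s : ℝ} (hs : 0 < s) :
    Tendsto (fun T : ℝ => Real.log T ^ y * T ^ (-s)) atTop (𝓝 0) := by
  have h := (isLittleO_log_rpow_rpow_atTop y hs).tendsto_div_nhds_zero
  refine h.congr' ?_
  filter_upwards [eventually_gt_atTop 0] with T hT
  rw [Real.rpow_neg hT.le, div_eq_mul_inv]

/-- the lower order terms -/
lemma large {δ ε a c e κd y : ℝ} (hδ : 0 < δ) (hε : 0 < ε) (hκd : 0 < κd) :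
    ∀ᶠ T : ℝ in atTop, 1 ≤ δ * Real.log T ∧ 2 ≤ T ^ (δ / 4) ∧
      a * (Real.log T * T ^ (-(1 / 200) : ℝ)) +
        c * (T ^ (-(δ / 8)) * (e * Real.log T ^ 4 + Real.log T ^ y) + T ^ (-κd)) ≤ ε := by
  have h1 : Tendsto (fun T : ℝ => δ * Real.log T) atTop atTop :=
    Real.tendsto_log_atTop.const_mul_atTop hδ
  have h2 : Tendsto (fun T : ℝ => T ^ (δ / 4)) atTop atTop := tendsto_rpow_atTop (by positivity)
  have t1 : Tendsto (fun T : ℝ => Real.log T ^ 1 * T ^ (-(1 / 200) : ℝ)) atTop (𝓝 0) :=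
    K4.BumpX.log_small 1 (by norm_num)
  have t2 : Tendsto (fun T : ℝ => Real.log T ^ 4 * T ^ (-(δ / 8))) atTop (𝓝 0) :=
    K4.BumpX.log_small 4 (by positivity)
  have t3 : Tendsto (fun T : ℝ => Real.log T ^ y * T ^ (-(δ / 8))) atTop (𝓝 0) :=
    log_small' y (by positivity)
  have t4 : Tendsto (fun T : ℝ => T ^ (-κd)) atTop (𝓝 0) := tendsto_rpow_neg_atTop hκd
  have t5 := ((t1.const_mul a).add ((((t2.const_mul e).add t3).add t4).const_mul c))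
  simp only [mul_zero, add_zero] at t5
  filter_upwards [h1.eventually_ge_atTop 1, h2.eventually_ge_atTop 2,
    t5.eventually (gt_mem_nhds hε), eventually_gt_atTop 0] with T g1 g2 g3 g4
  refine ⟨g1, g2, le_trans (le_of_eq ?_) g3.le⟩
  ring

/-- the mean of the square of the zeta function, crudely -/
lemma second {X : ℝ} {W : ℝ → ℝ} (hX : 0 < X) (hW0 : ∀ t, 0 ≤ W t) (hWc : Continuous W) :
    ∫ t in X..(2 * X), ‖riemannZeta (1 / 2 + t * I)‖ ^ 2 * W t ≤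
      (∫ t in (0 : ℝ)..(2 * X), ‖riemannZeta (1 / 2 + t * I)‖ ^ 4 * W t) +
        ∫ t in X..(2 * X), W t := by
  have hZc : Continuous fun t : ℝ => ‖riemannZeta (1 / 2 + t * I)‖ := zcont.norm
  have i1 : Continuous fun t : ℝ => ‖riemannZeta (1 / 2 + t * I)‖ ^ 2 * W t :=
    (hZc.pow 2).mul hWc
  have i2 : Continuous fun t : ℝ => ‖riemannZeta (1 / 2 + t * I)‖ ^ 4 * W t :=
    (hZc.pow 4).mul hWc
  have h1 : ∫ t in X..(2 * X), ‖riemannZeta (1 / 2 + t * I)‖ ^ 2 * W t ≤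
      ∫ t in X..(2 * X), (‖riemannZeta (1 / 2 + t * I)‖ ^ 4 * W t + W t) := by
    refine intervalIntegral.integral_mono_on (by linarith) (i1.intervalIntegrable _ _)
      ((i2.add hWc).intervalIntegrable _ _) fun t _ => ?_
    have g3 : ‖riemannZeta (1 / 2 + t * I)‖ ^ 2 ≤ ‖riemannZeta (1 / 2 + t * I)‖ ^ 4 + 1 := by
      nlinarith [sq_nonneg (‖riemannZeta (1 / 2 + t * I)‖ ^ 2 - 1),
        sq_nonneg (‖riemannZeta (1 / 2 + t * I)‖ ^ 2)]
    have g4 := hW0 t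
    calc ‖riemannZeta (1 / 2 + t * I)‖ ^ 2 * W t
        ≤ (‖riemannZeta (1 / 2 + t * I)‖ ^ 4 + 1) * W t := by gcongr
      _ = _ := by ring
  refine h1.trans ?_
  rw [intervalIntegral.integral_add (i2.intervalIntegrable _ _) (hWc.intervalIntegrable _ _)]
  have h2 : ∫ t in X..(2 * X), ‖riemannZeta (1 / 2 + t * I)‖ ^ 4 * W t ≤
      ∫ t in (0 : ℝ)..(2 * X), ‖riemannZeta (1 / 2 + t * I)‖ ^ 4 * W t := by
    rw [← intervalIntegral.integral_add_adjacent_intervals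
      (i2.intervalIntegrable 0 X) (i2.intervalIntegrable X (2 * X))]
    have : 0 ≤ ∫ t in (0 : ℝ)..X, ‖riemannZeta (1 / 2 + t * I)‖ ^ 4 * W t :=
      intervalIntegral.integral_nonneg hX.le fun t _ => mul_nonneg (by positivity) (hW0 t)
    linarith
  gcongr

end BumpW

open BumpW in
theorem stBumpMW (hj : StJW) (hq : StBQ7) (hb : StBumpRW) (hm : StMainC7) (ha : K4.StAfeB)
    (hF : StF4W) (hW : StWMean) (hB : StWB) : StBumpMW := by
  intro κ hκ0 hκ1 ε hε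
  obtain ⟨V, T₁, hV, hcirc⟩ := mw_bd
  obtain ⟨Cm, hmain⟩ := hm κ hκ0 hκ1
  obtain ⟨n₁, hlow⟩ := BF_low hκ0 hκ1
  obtain ⟨Cr, hCr, hbump⟩ := hb κ hκ0 hκ1
  set Cn : ℕ := Cm + n₁ with hCn
  set m : ℕ := 4 * Cn + 3 with hmdef
  obtain ⟨Ca, hCa, hafe⟩ := ha (m + 2)
  obtain ⟨Cd, κd, hCd, hκd, Md, hF4⟩ := hF κ hκ0 hκ1
  obtain ⟨Cw, hCw, Mw, hWM⟩ := hW κ hκ0 hκ1
  obtain ⟨Mb, hMb, hWB⟩ := hB κ hκ0 hκ1
  obtain ⟨Mq, hMq, hBQ⟩ := hq κ hκ0 hκ1
  set K : ℝ := 4 * Ca * Real.exp 2 * V with hK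
  have hK0 : 0 < K := by positivity
  obtain ⟨δ, hδ0, hδ1, hδ2⟩ : ∃ δ : ℝ, 0 < δ ∧ δ ≤ 1 / 2000 ∧
      K * (Cr * δ ^ (1 / 2 : ℝ)) ≤ ε / 4 := by
    refine ⟨min (1 / 2000) ((ε / (4 * K * Cr)) ^ 2), lt_min (by norm_num) (by positivity),
      min_le_left _ _, ?_⟩
    have h2 : min (1 / 2000) ((ε / (4 * K * Cr)) ^ 2) ≤ (ε / (4 * K * Cr)) ^ 2 := min_le_right _ _
    have h0 : 0 ≤ min (1 / 2000) ((ε / (4 * K * Cr)) ^ 2) := by positivity
    have h3 : (min (1 / 2000) ((ε / (4 * K * Cr)) ^ 2)) ^ (1 / 2 : ℝ) ≤ ε / (4 * K * Cr) := by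
      calc (min (1 / 2000) ((ε / (4 * K * Cr)) ^ 2)) ^ (1 / 2 : ℝ)
          ≤ ((ε / (4 * K * Cr)) ^ 2) ^ (1 / 2 : ℝ) := Real.rpow_le_rpow h0 h2 (by norm_num)
        _ = ε / (4 * K * Cr) := by
            rw [← Real.sqrt_eq_rpow, Real.sqrt_sq (by positivity)]
    calc K * (Cr * (min (1 / 2000) ((ε / (4 * K * Cr)) ^ 2)) ^ (1 / 2 : ℝ))
        ≤ K * (Cr * (ε / (4 * K * Cr))) := by gcongr
      _ = ε / 4 := by field_simp
  have hφ : CutK (fB δ) := K4.BumpX.cutK_fB hδ0 hδ1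
  obtain ⟨Cj, hCj, T₂, hT₂, hjw⟩ := hj (fB δ) hφ
  obtain ⟨M₁, hmain⟩ := hmain (fB δ) hφ
  obtain ⟨M₂, hbump⟩ := hbump δ hδ0 hδ1
  obtain ⟨Ca', hCa', T₃, hT₃, hafe⟩ := hafe δ hδ0 hδ1
  set η : ℝ := ε / (4 * K) with hη
  have hη0 : 0 < η := by positivity
  have hKη : K * η = ε / 4 := by rw [hη]; field_simp
  obtain ⟨M₅, hM₅⟩ : ∃ M₅ : ℕ, ∀ M : ℕ, M₅ ≤ M → (δ ^ m)⁻¹ * Real.exp (-(M : ℝ)) ≤ η := by
    have h1 : Tendsto (fun M : ℕ => (δ ^ m)⁻¹ * Real.exp (-(M : ℝ))) atTop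
        (𝓝 ((δ ^ m)⁻¹ * 0)) :=
      (Real.tendsto_exp_neg_atTop_nhds_zero.comp tendsto_natCast_atTop_atTop).const_mul _
    rw [mul_zero] at h1
    obtain ⟨M₅, h2⟩ := eventually_atTop.1 (h1.eventually (gt_mem_nhds hη0))
    exact ⟨M₅, fun M hM => (h2 M hM).le⟩
  refine ⟨δ, hδ0, hδ1, max (max (max Md Mw) (max Mb Mq)) (max (max M₁ M₂) M₅), fun M hM => ?_⟩
  simp only [max_le_iff] at hM
  obtain ⟨⟨⟨hMd, hMw⟩, hMb', hMq'⟩, ⟨hM1, hM2⟩, hM5⟩ := hM
  obtain ⟨T₄, hT₄, hmain⟩ := hmain M hM1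
  obtain ⟨T₅, hT₅, hbump⟩ := hbump M hM2
  obtain ⟨T₆, hT₆, hF4⟩ := hF4 M hMd
  obtain ⟨T₇, hT₇, hWM⟩ := hWM M hMw
  obtain ⟨T₈, hT₈, hWB⟩ := hWB M hMb'
  obtain ⟨T₉, hT₉, hBQ⟩ := hBQ M hMq'
  have hM1' : 1 ≤ M := by omega
  have hθη := hM₅ M hM5
  set θ : ℝ := (δ ^ m)⁻¹ * Real.exp (-(M : ℝ)) with hθ
  have hθ0 : 0 < θ := by positivity
  obtain ⟨T₀, hT₀⟩ := eventually_atTop.1 (((((eventually_ge_atTop T₁).and
    (eventually_ge_atTop T₂)).and ((eventually_ge_atTop T₃).and (eventually_ge_atTop T₄))).and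
    (((eventually_ge_atTop T₅).and (eventually_ge_atTop T₆)).and
    ((eventually_ge_atTop T₇).and ((eventually_ge_atTop T₈).and
    (eventually_ge_atTop T₉))))).and (large (a := 2 * Ca * Real.exp 2 * δ * Cj) (c := Ca')
      (e := 2 * Real.exp (Cd * M)) (κd := κd) (y := Cw)
      (ε := ε / 2 * Real.exp (-(n₁ * M))) hδ0 (by positivity) hκd))
  refine ⟨max 3 T₀, le_max_left _ _, fun T hT X hX1 hX2 => ?_⟩
  have hT3 : 3 ≤ T := (le_max_left _ _).trans hT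
  obtain ⟨⟨⟨⟨g1, g2⟩, g3, g4⟩, ⟨g5, g6⟩, g7, g8, g9⟩, hl1, hl2, hl3⟩ :=
    hT₀ T ((le_max_right _ _).trans hT)
  have hT1 : 1 < T := by linarith
  have hT0 : 0 < T := by linarith
  have hL1 : 1 ≤ Real.log T := by
    rw [Real.le_log_iff_exp_le hT0]
    have := Real.exp_one_lt_d9
    linarith
  obtain ⟨hBF0, hlow⟩ := hlow M hM1' T hT3
  set L := Real.log T with hL
  have hL0 : 0 < L := by linarith
  have hX985 : T ^ (985 / 1000 : ℝ) ≤ X :=
    (Real.rpow_le_rpow_of_exponent_le hT1.le (by linarith)).trans hX1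
  have hX98 : T ^ (98 / 100 : ℝ) ≤ X :=
    (Real.rpow_le_rpow_of_exponent_le hT1.le (by linarith)).trans hX1
  have hXT : X ≤ T ^ (1 + 1 / 10000 : ℝ) := by
    refine hX2.trans ?_
    conv_lhs => rw [← Real.rpow_one T]
    exact Real.rpow_le_rpow_of_exponent_le hT1.le (by norm_num)
  have hX1' : 1 ≤ X := (Real.one_le_rpow hT1.le (by norm_num)).trans hX985
  have hX0 : 0 < X := by linarith
  -- the weight
  obtain ⟨⟨c, hcQ, hc0, hcG⟩, -⟩ := hBQ T g9 (Finset.range (JJ T + 1)) ∅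
  obtain ⟨hWF0, -, hWFc, -, -, -⟩ := hWB T g8 (Finset.range (JJ T + 1)) ∅
  set N : ℕ := ⌊T ^ (1 / 60 : ℝ)⌋₊ with hN
  have hNle : (N : ℝ) ≤ T ^ (1 / 60 : ℝ) := Nat.floor_le (by positivity)
  have hcQ' : ∀ i j, ‖c i j‖ ≤ T ^ (1 / 1000 : ℝ) := fun i j =>
    (hcQ i j).trans (Real.rpow_le_rpow_of_exponent_le hT1.le (by norm_num))
  set W : ℝ → ℝ := fun t => WF κ T M (Finset.range (JJ T + 1)) ∅ (fs (1 / 2 + t * I)) with hWdef
  have hW0 : ∀ t, 0 ≤ W t := fun t => hWF0 _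
  set Λ : ℝ := BF κ T M * L ^ 3 with hΛ
  have hΛ0 : 0 < Λ := by positivity
  have hLk4 : L ^ ((1 + κ) ^ 2) ≤ L ^ 4 := by
    rw [← Real.rpow_natCast L 4]
    refine Real.rpow_le_rpow_of_exponent_le hL1 ?_
    push_cast
    nlinarith
  have hLk1 : 1 ≤ L ^ ((1 + κ) ^ 2) := Real.one_le_rpow hL1 (sq_nonneg _)
  have hLΛ : L * Λ = BF κ T M * L ^ 4 := by rw [hΛ]; ring
  have hone : Real.exp (-(n₁ * M)) ≤ L * Λ := by
    have h1 : L ^ ((1 + κ) ^ 2) = L * L ^ ((1 + κ) ^ 2 - 1) := by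
      rw [Real.rpow_sub_one hL0.ne']
      field_simp
    have h2 : 1 ≤ L * (Real.exp (n₁ * M) * Λ) :=
      calc (1 : ℝ) ≤ L ^ ((1 + κ) ^ 2) := hLk1
        _ = L * L ^ ((1 + κ) ^ 2 - 1) := h1
        _ ≤ _ := by gcongr
    calc Real.exp (-(n₁ * M)) = Real.exp (-(n₁ * M)) * 1 := by ring
      _ ≤ Real.exp (-(n₁ * M)) * (L * (Real.exp (n₁ * M) * Λ)) := by gcongr
      _ = (Real.exp (-(n₁ * M)) * Real.exp (n₁ * M)) * (L * Λ) := by ring
      _ = L * Λ := by rw [← Real.exp_add]; simp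
  -- the arithmetic factor
  have hRW : ∀ (ν : ℝ) (a : ℂ), ‖a‖ = 1 / (2 * L) → ‖RW (fB δ) T ν N c a‖ ≤
      (Cr * δ ^ (1 / 2 : ℝ) + θ) * Λ * (1 + δ * L * |ν|) ^ m := by
    intro ν a hna
    have hν0 := abs_nonneg ν
    have hy1 : 1 ≤ 1 + δ * L * |ν| := by
      have : 0 ≤ δ * L * |ν| := by positivity
      linarith
    have hym : 1 ≤ (1 + δ * L * |ν|) ^ m := one_le_pow₀ hy1
    have hδh : 0 < δ ^ (1 / 2 : ℝ) := Real.rpow_pos_of_pos hδ0 _
    rcases le_or_gt |ν| (Real.exp (M / 3) / L) with hν | hν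
    · have h1 := hbump T g5 N c hNle hcG ν a hν hna
      calc ‖RW (fB δ) T ν N c a‖ ≤ Cr * δ ^ (1 / 2 : ℝ) * Λ := h1
        _ ≤ Cr * δ ^ (1 / 2 : ℝ) * Λ + θ * Λ := by
            have : 0 ≤ θ * Λ := by positivity
            linarith
        _ = (Cr * δ ^ (1 / 2 : ℝ) + θ) * Λ * 1 := by ring
        _ ≤ _ := by gcongr
    · have h1 := hmain T g4 (Finset.range (JJ T + 1)) ∅ (by simp) N c hNle hcG ν a hna
      rw [Finset.prod_empty, mul_one] at h1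
      refine h1.trans ?_
      set y : ℝ := 1 + δ * L * |ν| with hy
      have hy0 : 0 < y := by linarith
      have e5 : Real.exp (Cn * M) * (1 + L * |ν|) ^ Cn ≤ θ * y ^ m :=
        K4.BumpX.region hδ0 (by linarith) hL0 hν
      have e6 : 1 ≤ 1 + L * |ν| := by
        have : 0 ≤ L * |ν| := by positivity
        linarith
      calc Real.exp (Cm * M) * (1 + L * |ν|) ^ Cm * L ^ ((1 + κ) ^ 2 - 1)
          ≤ Real.exp (Cm * M) * (1 + L * |ν|) ^ Cn * (Real.exp (n₁ * M) * Λ) := by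
            have : (1 + L * |ν|) ^ Cm ≤ (1 + L * |ν|) ^ Cn := pow_le_pow_right₀ e6 (by omega)
            gcongr
        _ = (Real.exp (Cm * M) * Real.exp (n₁ * M)) * (1 + L * |ν|) ^ Cn * Λ := by ring
        _ = Real.exp (Cn * M) * (1 + L * |ν|) ^ Cn * Λ := by
            rw [← Real.exp_add]
            congr 3
            rw [hCn]
            push_cast
            ring
        _ ≤ θ * y ^ m * Λ := by gcongr
        _ ≤ (Cr * δ ^ (1 / 2 : ℝ) + θ) * y ^ m * Λ := by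
            have : θ ≤ Cr * δ ^ (1 / 2 : ℝ) + θ := by
              have : 0 ≤ Cr * δ ^ (1 / 2 : ℝ) := by positivity
              linarith
            gcongr
        _ = _ := by ring
  set ρ : ℝ := Cr * δ ^ (1 / 2 : ℝ) + θ with hρ
  have hρ0 : 0 < ρ := by
    have : 0 < δ ^ (1 / 2 : ℝ) := Real.rpow_pos_of_pos hδ0 _
    positivity
  have hTT : 0 < T ^ (-(1 / 200) : ℝ) := Real.rpow_pos_of_pos hT0 _
  -- the twisted second moment
  have htw : ∀ ν : ℝ, IntegrableOn (fun t : ℝ => ‖riemannZeta (1 / 2 + t * I)‖ ^ 2 *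
      ‖Qp (fB δ) T ν t‖ ^ 2 * W t * Wr X t) (Set.Ioi 0) ∧
    ∫ t in Set.Ioi (0 : ℝ), ‖riemannZeta (1 / 2 + t * I)‖ ^ 2 *
      ‖Qp (fB δ) T ν t‖ ^ 2 * W t * Wr X t ≤
      V * L * (ρ * Λ) * (1 + δ * L * |ν|) ^ m + Cj * T ^ (-(1 / 200) : ℝ) * (1 + |ν|) := by
    intro ν
    obtain ⟨q1, q2⟩ := hjw T g2 X hX985 hXT ν N c hNle hcQ' hc0
    have heq : (fun t : ℝ => ((‖riemannZeta (1 / 2 + t * I)‖ ^ 2 *
        ‖Qp (fB δ) T ν t‖ ^ 2 : ℝ) : ℂ) * GB N c (fs (1 / 2 + t * I)) * ((Wr X t : ℝ) : ℂ)) =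
        fun t : ℝ => ((‖riemannZeta (1 / 2 + t * I)‖ ^ 2 *
          ‖Qp (fB δ) T ν t‖ ^ 2 * W t * Wr X t : ℝ) : ℂ) := by
      funext t
      rw [← hcG _ (cmul_fs _)]
      simp only [hWdef]
      push_cast
      ring
    rw [heq] at q1 q2
    have q3 : IntegrableOn (fun t : ℝ => ‖riemannZeta (1 / 2 + t * I)‖ ^ 2 *
        ‖Qp (fB δ) T ν t‖ ^ 2 * W t * Wr X t) (Set.Ioi 0) := by
      refine q1.re.congr (Filter.Eventually.of_forall fun t => ?_)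
      exact Complex.ofReal_re _
    refine ⟨q3, ?_⟩
    have hBn : ∀ a : ℂ, ‖a‖ = 1 / (2 * Real.log T) → ‖RW (fB δ) T ν N c a‖ ≤
        ρ * Λ * (1 + δ * L * |ν|) ^ m := hRW ν
    have q4 := hcirc T g1 X hX985 hXT (RW (fB δ) T ν N c) (ρ * Λ * (1 + δ * L * |ν|) ^ m)
      (by
        have := abs_nonneg ν
        positivity) hBn
    rw [integral_complex_ofReal] at q2
    set P : ℝ := ∫ t in Set.Ioi (0 : ℝ), ‖riemannZeta (1 / 2 + t * I)‖ ^ 2 *
      ‖Qp (fB δ) T ν t‖ ^ 2 * W t * Wr X t with hP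
    have q5 : P ≤ ‖(P : ℂ)‖ := by
      rw [Complex.norm_real]
      exact le_abs_self P
    have q6 : ‖(P : ℂ)‖ ≤ ‖(P : ℂ) - Real.circleAverage (MW X 12 (RW (fB δ) T ν N c)) 0
        (1 / (2 * Real.log T))‖ + ‖Real.circleAverage (MW X 12 (RW (fB δ) T ν N c)) 0
        (1 / (2 * Real.log T))‖ := by
      have := norm_add_le ((P : ℂ) - Real.circleAverage (MW X 12 (RW (fB δ) T ν N c)) 0
        (1 / (2 * Real.log T))) (Real.circleAverage (MW X 12 (RW (fB δ) T ν N c)) 0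
        (1 / (2 * Real.log T)))
      rwa [sub_add_cancel] at this
    calc P ≤ ‖(P : ℂ)‖ := q5
      _ ≤ _ := q6
      _ ≤ Cj * (1 + |ν|) * T ^ (-(1 / 200) : ℝ) +
          V * Real.log T * (ρ * Λ * (1 + δ * L * |ν|) ^ m) := add_le_add q2 q4
      _ = _ := by ring
  have hmainT := tonelli (φ := fB δ) (T := T) (X := X) (L' := δ * L) (W := W) (m := m)
    (D₁ := V * L * (ρ * Λ)) (D₂ := Cj * T ^ (-(1 / 200) : ℝ))
    (R := fun t => ‖RR δ T t‖ ^ 2) (Ca := Ca) (E := Ca' * T ^ (-(δ / 8)))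
    hT3 hl1 hX1' hW0 hWFc (by positivity) (by positivity) htw hCa.le
    (by
      intro t ht
      have q1 : T ^ (1 - δ / 4) ≤ t := by
        refine le_trans ?_ (hX1.trans ht.1.le)
        exact Real.rpow_le_rpow_of_exponent_le hT1.le (by linarith)
      have q2 : t ≤ T ^ (1 + δ / 4) := by
        rw [Real.rpow_add hT0, Real.rpow_one]
        have := ht.2
        nlinarith
      exact hafe T g3 t q1 q2)
    (fun t => by positivity)
  -- the crude second moment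
  have hQ4 := hF4 T g6 (Finset.range (JJ T + 1)) ∅ (by simp) (2 * X) (by linarith) (by linarith)
  rw [Finset.prod_empty, mul_one] at hQ4
  have hQ2 := hWM T g7 X hX98 (by linarith)
  have hsec := second (X := X) (W := W) hX0 hW0 hWFc
  have hTκ : T ^ (-(δ / 8)) * T ^ (1 - κd) ≤ X * T ^ (-κd) := by
    calc T ^ (-(δ / 8)) * T ^ (1 - κd) = T ^ (1 - δ / 8) * T ^ (-κd) := by
          rw [← Real.rpow_add hT0, ← Real.rpow_add hT0]
          congr 1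
          ring
      _ ≤ _ := by gcongr
  have hTδ : 0 < T ^ (-(δ / 8)) := Real.rpow_pos_of_pos hT0 _
  have hI2 : T ^ (-(δ / 8)) * ∫ t in X..(2 * X), ‖riemannZeta (1 / 2 + t * I)‖ ^ 2 * W t ≤
      X * (T ^ (-(δ / 8)) * (2 * Real.exp (Cd * M) * L ^ 4 + L ^ Cw) + T ^ (-κd)) := by
    calc T ^ (-(δ / 8)) * ∫ t in X..(2 * X), ‖riemannZeta (1 / 2 + t * I)‖ ^ 2 * W t
        ≤ T ^ (-(δ / 8)) * ((2 * X * (Real.exp (Cd * M) * L ^ ((1 + κ) ^ 2)) + T ^ (1 - κd)) +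
          X * L ^ Cw) := by
          refine mul_le_mul_of_nonneg_left ?_ hTδ.le
          exact hsec.trans (add_le_add hQ4 hQ2)
      _ ≤ T ^ (-(δ / 8)) * (2 * X * (Real.exp (Cd * M) * L ^ 4) + X * L ^ Cw) +
          T ^ (-(δ / 8)) * T ^ (1 - κd) := by
          have : T ^ (-(δ / 8)) * (2 * X * (Real.exp (Cd * M) * L ^ ((1 + κ) ^ 2))) ≤
              T ^ (-(δ / 8)) * (2 * X * (Real.exp (Cd * M) * L ^ 4)) := by gcongr
          linarith
      _ ≤ T ^ (-(δ / 8)) * (2 * X * (Real.exp (Cd * M) * L ^ 4) + X * L ^ Cw) +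
          X * T ^ (-κd) := by gcongr
      _ = _ := by ring
  refine hmainT.trans ?_
  have hKρ : K * ρ ≤ 1 / 2 * ε := by
    have q1 : K * θ ≤ K * η := by gcongr
    rw [hρ]
    have : K * (Cr * δ ^ (1 / 2 : ℝ) + θ) = K * (Cr * δ ^ (1 / 2 : ℝ)) + K * θ := by ring
    rw [this]
    linarith
  calc X * (Ca * Real.exp 2 * (4 * (V * L * (ρ * Λ)) +
        2 * (δ * L) * (Cj * T ^ (-(1 / 200) : ℝ)))) +
        Ca' * T ^ (-(δ / 8)) * ∫ t in X..(2 * X), ‖riemannZeta (1 / 2 + t * I)‖ ^ 2 * W t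
      = X * (Ca * Real.exp 2 * (4 * (V * L * (ρ * Λ)) +
        2 * (δ * L) * (Cj * T ^ (-(1 / 200) : ℝ)))) +
        Ca' * (T ^ (-(δ / 8)) *
          ∫ t in X..(2 * X), ‖riemannZeta (1 / 2 + t * I)‖ ^ 2 * W t) := by ring
    _ ≤ X * (Ca * Real.exp 2 * (4 * (V * L * (ρ * Λ)) +
        2 * (δ * L) * (Cj * T ^ (-(1 / 200) : ℝ)))) +
        Ca' * (X * (T ^ (-(δ / 8)) * (2 * Real.exp (Cd * M) * L ^ 4 + L ^ Cw) +
          T ^ (-κd))) := by gcongr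
    _ = X * (K * ρ * (L * Λ) + (2 * Ca * Real.exp 2 * δ * Cj * (L * T ^ (-(1 / 200) : ℝ)) +
        Ca' * (T ^ (-(δ / 8)) * (2 * Real.exp (Cd * M) * L ^ 4 + L ^ Cw) + T ^ (-κd)))) := by
        rw [hK]; ring
    _ ≤ X * (1 / 2 * ε * (L * Λ) + ε / 2 * Real.exp (-(n₁ * M))) := by
        have : 0 < L * Λ := by positivity
        gcongr
    _ ≤ X * (1 / 2 * ε * (L * Λ) + ε / 2 * (L * Λ)) := by gcongr
    _ = ε * X * (BF κ T M * L ^ 4) := by rw [← hLΛ]; ring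

end K7
end Pool.Agent.Lib.MP_973905_nt
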