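import Pool.Agent.Lib.MP_973905_nt.K7.Base
import Pool.Agent.Lib.MP_973905_nt.K4.Red
import Pool.Agent.Lib.MP_973905_nt.K5.Point

/-! Module R20 of the folder K7: the arithmetic factor of the bump. -/

namespace Pool.Agent.Lib.MP_973905_nt
namespace K7

open MeasureTheory ProbabilityTheory Complex Filter Topology K1 K4 K5
open scoped ENNReal

namespace BumpRW

/-! ### the shifts -/

lemma un_re (x ξ : ℝ) : (un x ξ).re = 2 := Red.zn_re x ξ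

lemma two_le_un (x ξ : ℝ) : 2 ≤ ‖un x ξ‖ := by
  have h := abs_re_le_norm (un x ξ)
  rw [un_re, abs_of_pos (by norm_num)] at h
  exact h

lemma un_size_le {M x ξ : ℝ} (hx : |x| ≤ Real.exp (M / 3)) (hM : 0 ≤ M) :
    1 + ‖un x ξ‖ ≤ 14 * Real.exp (M / 3) * (1 + |ξ|) := Red.size_le hx hM

lemma un_size_small {M x ξ : ℝ} (hx : |x| ≤ Real.exp (M / 3)) (hM : 6 ≤ M)
    (hξ : 7 * (1 + |ξ|) ≤ Real.exp (M / 3)) : ‖un x ξ‖ ≤ Real.exp (M / 2) :=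
  Red.size_small hx hM hξ

lemma un_add_conj (x ξ₂ ξ : ℝ) : un x ξ₂ + (starRingEnd ℂ) (un x ξ) =
    4 + ((2 * Real.pi * (ξ - ξ₂) : ℝ) : ℂ) * I := by
  rw [un, un, map_add, map_mul, conj_I, conj_ofReal, map_ofNat]
  push_cast
  ring

lemma norm_add_lower {v u : ℂ} (hv : ‖v‖ = 1 / 2) (hu : 2 ≤ ‖u‖) : 3 / 4 * ‖u‖ ≤ ‖v + u‖ := by
  have h : ‖u‖ ≤ ‖v + u‖ + ‖v‖ := by
    calc ‖u‖ = ‖(v + u) - v‖ := by congr 1; ring
      _ ≤ _ := norm_sub_le _ _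
  rw [hv] at h
  linarith

/-! ### the weight -/

lemma wf_nonneg {κ : ℝ} (h0 : 0 < κ) (h1 : κ < 1) (T : ℝ) (M : ℕ) (g h : Finset ℕ) (f : ℕ → ℂ) :
    0 ≤ WF κ T M g h f := by
  rw [WF, TFq]
  exact mul_nonneg (sq_nonneg _) (Finset.prod_nonneg fun i _ => (stPoint κ i _ h0 h1).1.le)

lemma bc_W {T : ℝ} {M N : ℕ} {W : (ℕ → ℂ) → ℝ} {c : ℕ → ℕ → ℂ}
    (h : ∀ f, CMul f → ((W f : ℝ) : ℂ) = GB N c f) :
    BC (SBq T M) (fun f => ((W (tw (1 / 2) f) : ℝ) : ℂ)) := by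
  have h1 : BC (SBq T M) (fun f => ∑ m ∈ Finset.Icc 1 N, ∑ n ∈ Finset.Icc 1 N,
      (c m n * (m : ℂ) ^ (-(1 / 2 : ℂ)) * (n : ℂ) ^ (-(1 / 2 : ℂ))) *
        (f m * (starRingEnd ℂ) (f n))) :=
    bc_sum _ fun m _ => bc_sum _ fun n _ => ((bc_apply m).mul (bc_apply n).conj).const_mul _
  refine F4.Main4.bc_congr h1 fun ω => ?_
  rw [h _ (cmul_tw (cmul_XX _ ω) _), FactM.GB_tw]

lemma int_pow4W {m : ℕ} {Sb : Fin m → Finset ℕ} {F : (ℕ → ℂ) → ℂ} {V : (ℕ → ℂ) → ℝ}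
    (hF : BC Sb F) (hV : BC Sb (fun f => ((V f : ℝ) : ℂ))) (hV0 : ∀ f, 0 ≤ V f) :
    Integrable (fun ω => ‖F (XX Sb ω)‖ ^ 4 * V (XX Sb ω)) (PP0 Sb) := by
  have h := (((hF.mul hF).mul (hF.mul hF)).mul hV).integrable.norm
  refine h.congr (Filter.Eventually.of_forall fun ω => ?_)
  simp only [norm_mul, norm_real, Real.norm_eq_abs]
  rw [abs_of_nonneg (hV0 _)]
  ring

/-- Hoelder for the shifted fourth moment. -/
lemma rw4_le {T : ℝ} (M : ℕ) {W : (ℕ → ℂ) → ℝ} (hW : ∀ f, 0 ≤ W f)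
    (bW : BC (SBq T M) (fun f => ((W (tw (1 / 2) f) : ℝ) : ℂ))) {a₁ a₂ b₁ b₂ : ℂ}
    (h₁ : -(1 / 2) < a₁.re) (h₂ : -(1 / 2) < a₂.re) (h₃ : -(1 / 2) < b₁.re)
    (h₄ : -(1 / 2) < b₂.re) :
    ‖RW4 T M W a₁ a₂ b₁ b₂‖ ≤
      1 / 4 * (ER (SBq T M) (fun f => ‖ZZ (PS 0 T) (tw (1 / 2 + a₁) f)‖ ^ 4 *
          W (tw (1 / 2) f)) +
        ER (SBq T M) (fun f => ‖ZZ (PS 0 T) (tw (1 / 2 + a₂) f)‖ ^ 4 *
          W (tw (1 / 2) f)) +
        ER (SBq T M) (fun f => ‖ZZ (PS 0 T) (tw (1 / 2 + (starRingEnd ℂ) b₁) f)‖ ^ 4 *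
          W (tw (1 / 2) f)) +
        ER (SBq T M) (fun f => ‖ZZ (PS 0 T) (tw (1 / 2 + (starRingEnd ℂ) b₂) f)‖ ^ 4 *
          W (tw (1 / 2) f))) := by
  have hprime : ∀ p ∈ PS 0 T, p.Prime := fun p hp => XB.prime_PS hp
  have hb : ∀ w : ℂ, -(1 / 2) < w.re →
      BC (SBq T M) (fun f => ZZ (PS 0 T) (tw (1 / 2 + w) f)) := fun w hw =>
    bc_ZZ hprime (by rw [add_re]; norm_num; linarith)
  have hV0 : ∀ f : ℕ → ℂ, 0 ≤ W (tw (1 / 2) f) := fun f => hW _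
  have i1 := int_pow4W (V := fun f => W (tw (1 / 2) f)) (hb a₁ h₁) bW hV0
  have i2 := int_pow4W (V := fun f => W (tw (1 / 2) f)) (hb a₂ h₂) bW hV0
  have i3 := int_pow4W (V := fun f => W (tw (1 / 2) f))
    (hb ((starRingEnd ℂ) b₁) (by rwa [conj_re])) bW hV0
  have i4 := int_pow4W (V := fun f => W (tw (1 / 2) f))
    (hb ((starRingEnd ℂ) b₂) (by rwa [conj_re])) bW hV0
  rw [RW4]
  simp only [ER_eq]
  rw [(Red.int4 i1 i2 i3 i4).2]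
  refine (norm_integral_le_integral_norm _).trans ?_
  refine integral_mono_of_nonneg (Filter.Eventually.of_forall fun ω => norm_nonneg _)
    (Red.int4 i1 i2 i3 i4).1 (Filter.Eventually.of_forall fun ω => ?_)
  simp only [norm_mul, RCLike.norm_conj, norm_real, Real.norm_eq_abs]
  rw [abs_of_nonneg (hW _)]
  have h := Red.amgm4 ‖ZZ (PS 0 T) (tw (1 / 2 + a₁) (XX (SBq T M) ω))‖
    ‖ZZ (PS 0 T) (tw (1 / 2 + a₂) (XX (SBq T M) ω))‖
    ‖ZZ (PS 0 T) (tw (1 / 2 + (starRingEnd ℂ) b₁) (XX (SBq T M) ω))‖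
    ‖ZZ (PS 0 T) (tw (1 / 2 + (starRingEnd ℂ) b₂) (XX (SBq T M) ω))‖
  have h' := mul_le_mul_of_nonneg_right h (hW (tw (1 / 2) (XX (SBq T M) ω)))
  refine h'.trans (le_of_eq ?_)
  ring

/-- Crude bound for the shifted fourth moment. -/
lemma crude {T : ℝ} (hL : 2 < Real.log T) (M : ℕ) {W : (ℕ → ℂ) → ℝ} (hW : ∀ f, 0 ≤ W f)
    (bW : BC (SBq T M) (fun f => ((W (tw (1 / 2) f) : ℝ) : ℂ))) {C : ℕ} {K : ℝ} (hK : 0 ≤ K)
    (hR : ∀ z : ℂ, -1 ≤ z.re → ER (SBq T M) (fun f =>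
      ‖ZZ (PS 0 T) (tw ((1 / 2 : ℂ) + z / Real.log T) f)‖ ^ 4 * W (tw (1 / 2) f)) ≤
        (1 + ‖z‖) ^ C * K) {a : ℂ} (ha : ‖a‖ ≤ 1 / Real.log T) (x ξ₂ ξ : ℝ) :
    ‖R4W T M W a x ξ₂ ξ‖ ≤ K * ((1 + ‖un x ξ₂‖) * (1 + ‖un x ξ‖)) ^ C := by
  have hL0 : 0 < Real.log T := by linarith
  have hLC : (Real.log T : ℂ) ≠ 0 := by exact_mod_cast hL0.ne'
  have hare : |a.re| ≤ 1 / Real.log T := (abs_re_le_norm a).trans ha
  have h1L : 1 / Real.log T < 1 / 2 := one_div_lt_one_div_of_lt (by norm_num) hL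
  have hare1 := (abs_le.mp hare).1
  have hare' : -(1 / 2) < a.re := by linarith
  have hzr : ∀ η : ℝ, -(1 / 2) < (un x η / (Real.log T : ℂ)).re := by
    intro η
    rw [div_ofReal_re, un_re]
    have : 0 < 2 / Real.log T := by positivity
    linarith
  have hzr' : ∀ η : ℝ, -(1 / 2) < ((starRingEnd ℂ) (un x η) / (Real.log T : ℂ)).re := by
    intro η
    rw [div_ofReal_re, conj_re, un_re]
    have : 0 < 2 / Real.log T := by positivity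
    linarith
  have h := rw4_le M hW bW (a₁ := (starRingEnd ℂ) a) (a₂ := un x ξ₂ / Real.log T)
    (b₁ := (starRingEnd ℂ) a) (b₂ := (starRingEnd ℂ) (un x ξ) / Real.log T)
    (by rwa [conj_re]) (hzr ξ₂) (by rwa [conj_re]) (hzr' ξ)
  have hab : ∀ c : ℂ, ‖c‖ ≤ 1 / Real.log T → -(1 / Real.log T) ≤ c.re →
      ER (SBq T M) (fun f => ‖ZZ (PS 0 T) (tw (1 / 2 + c) f)‖ ^ 4 *
      W (tw (1 / 2) f)) ≤ 2 ^ C * K := by
    intro c hc hcr
    have := hR (c * Real.log T) (by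
      rw [re_mul_ofReal]
      have h' : -(1 / Real.log T) * Real.log T = -1 := by field_simp
      nlinarith)
    rw [mul_div_assoc, div_self hLC, mul_one, norm_mul, norm_real, Real.norm_eq_abs,
      abs_of_pos hL0] at this
    refine this.trans ?_
    have h5 : 1 + ‖c‖ * Real.log T ≤ 2 := by
      rw [le_div_iff₀ hL0] at hc
      linarith
    gcongr
  have h1 := hab ((starRingEnd ℂ) a) (by rwa [RCLike.norm_conj]) (by rw [conj_re]; linarith)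
  have h3 := hab ((starRingEnd ℂ) ((starRingEnd ℂ) a)) (by
    rwa [RCLike.norm_conj, RCLike.norm_conj]) (by rw [conj_re, conj_re]; linarith)
  have h2 := hR (un x ξ₂) (by rw [un_re]; norm_num)
  have h4 := hR (un x ξ) (by rw [un_re]; norm_num)
  have e4 : (starRingEnd ℂ) ((starRingEnd ℂ) (un x ξ) / (Real.log T : ℂ)) =
      un x ξ / Real.log T := by
    rw [map_div₀, conj_conj, conj_ofReal]
  rw [e4] at h
  have g2 : ∀ η : ℝ, 2 ≤ 1 + ‖un x η‖ := by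
    intro η
    have := two_le_un x η
    linarith
  have g3 : ∀ η : ℝ, (2 : ℝ) ^ C ≤ (1 + ‖un x η‖) ^ C := fun η =>
    pow_le_pow_left₀ (by norm_num) (g2 η) C
  have g4 : ∀ η : ℝ, (1 : ℝ) ≤ (1 + ‖un x η‖) ^ C := fun η =>
    one_le_pow₀ (by linarith [g2 η])
  set P₂ : ℝ := (1 + ‖un x ξ₂‖) ^ C with hP₂
  set P : ℝ := (1 + ‖un x ξ‖) ^ C with hP
  have k2 := g3 ξ₂
  have k4 := g4 ξ
  have k5 := g4 ξ₂
  rw [mul_pow, ← hP₂, ← hP]
  rw [← hP₂] at k2 k5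
  rw [← hP] at k4
  have m1 : (2 : ℝ) ^ C * K ≤ K * (P₂ * P) := by
    calc (2 : ℝ) ^ C * K ≤ P₂ * K := by gcongr
      _ = K * (P₂ * 1) := by ring
      _ ≤ K * (P₂ * P) := by gcongr
  have m2 : P₂ * K ≤ K * (P₂ * P) := by
    calc P₂ * K = K * (P₂ * 1) := by ring
      _ ≤ K * (P₂ * P) := by gcongr
  have m4 : P * K ≤ K * (P₂ * P) := by
    calc P * K = K * (1 * P) := by ring
      _ ≤ K * (P₂ * P) := by gcongr
  refine (show ‖R4W T M W a x ξ₂ ξ‖ ≤ _ from h).trans ?_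
  have n1 := h1.trans m1
  have n2 := h2.trans m2
  have n3 := h3.trans m1
  have n4 := h4.trans m4
  linarith

/-! ### the distances of the means -/

lemma om_nonneg (M : ℕ) (u : ℂ) : 0 ≤ om M u := Finset.sum_nonneg fun _ _ => norm_nonneg _

lemma tq0_pos : 0 < tq 0 := Blk7.tq_pos 0

lemma exp_om_un (h8 : StOm) (M : ℕ) {u : ℂ} (hu : 0 ≤ u.re) (hu1 : 1 ≤ ‖u‖) :
    Real.exp (om M u) ≤ 30 * ‖u‖ := by
  have ht := Blk7.tq_zero_le
  have ht0 := tq0_pos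
  by_cases h : 2 ≤ tq 0 * ‖u‖
  · refine (h8.2 M u hu h).trans ?_
    have : tq 0 * ‖u‖ ≤ 1 * ‖u‖ := by gcongr
    linarith
  · rw [not_le] at h
    have h1 := h8.1 M u (by linarith)
    have h2 : om M u ≤ 3 := by linarith
    have h3 : Real.exp (om M u) ≤ Real.exp 3 := Real.exp_le_exp.2 h2
    have h4 : Real.exp 3 = Real.exp 1 ^ 3 := by
      rw [← Real.exp_nat_mul]; norm_num
    have h5 : Real.exp 1 ^ 3 ≤ 3 ^ 3 := by
      have := Real.exp_one_lt_d9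
      have h6 := Real.exp_pos 1
      gcongr
      linarith
    rw [h4] at h3
    linarith

lemma om_half (h8 : StOm) (M : ℕ) {v : ℂ} (hv : ‖v‖ = 1 / 2) : om M v ≤ 1 := by
  have h1 := h8.1 M v (by
    have := neg_abs_le v.re
    have h2 := abs_re_le_norm v
    linarith)
  have ht := Blk7.tq_zero_le
  rw [hv] at h1
  linarith

/-! ### the factor `BF` -/

lemma BF_lower (hA : StAK7) (hr : K5.StRho) {κ : ℝ} (h0 : 0 < κ) (h1 : κ < 1) :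
    ∃ (b₀ : ℝ) (c : ℕ), 0 < b₀ ∧ ∀ (M : ℕ) (T : ℝ), 1 ≤ M → 1 < T →
      b₀ * Real.exp (-((c : ℝ) * M)) * Real.log T ^ ((1 + κ) ^ 2 - 4) ≤ BF κ T M := by
  obtain ⟨-, -, -, C, hC, haF, -, -⟩ := hr κ h0 h1
  have haK := (hA (1 + κ) (by linarith) (by linarith)).1
  obtain ⟨c, hc⟩ := exists_nat_ge (Real.log C)
  have hC0 : 0 < C := by linarith
  have hb : 0 < aK (1 + κ) * (Real.pi ^ 2 / 6) := by
    have := Real.pi_pos
    positivity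
  refine ⟨aK (1 + κ) * (Real.pi ^ 2 / 6), c, hb, fun M T hM hT => ?_⟩
  have hL : 0 < Real.log T := Real.log_pos hT
  have hM' : (1 : ℝ) ≤ M := by exact_mod_cast hM
  have hlM0 : 0 < lM T M := mul_pos (Real.exp_pos _) hL
  have hlM : lM T M ≤ Real.log T := by
    rw [lM]
    have hγ := Real.eulerMascheroniConstant_lt_two_thirds
    have h2 : Real.exp (Real.eulerMascheroniConstant - M) ≤ 1 :=
      Real.exp_le_one_iff.mpr (by linarith)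
    have h3 : Real.exp (Real.eulerMascheroniConstant - M) * Real.log T ≤ 1 * Real.log T := by
      gcongr
    linarith
  have hexp : (1 + κ) ^ 2 - 4 ≤ 0 := by nlinarith
  have h4 : Real.log T ^ ((1 + κ) ^ 2 - 4) ≤ lM T M ^ ((1 + κ) ^ 2 - 4) :=
    Real.rpow_le_rpow_of_nonpos hlM0 hlM hexp
  have h5 : Real.exp (-((c : ℝ) * M)) ≤ ∏ i ∈ Finset.range (M - 6), aF κ i := by
    calc Real.exp (-((c : ℝ) * M)) ≤ Real.exp (-((c : ℝ) * ((M - 6 : ℕ) : ℝ))) := by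
          apply Real.exp_le_exp.2
          have : ((M - 6 : ℕ) : ℝ) ≤ M := by exact_mod_cast Nat.sub_le _ _
          have hc0 : (0 : ℝ) ≤ c := by positivity
          nlinarith
      _ = Real.exp (-(c : ℝ)) ^ (M - 6) := by
          rw [← Real.exp_nat_mul]
          congr 1
          ring
      _ = ∏ i ∈ Finset.range (M - 6), Real.exp (-(c : ℝ)) := by
          rw [Finset.prod_const, Finset.card_range]
      _ ≤ ∏ i ∈ Finset.range (M - 6), aF κ i := by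
          refine Finset.prod_le_prod (fun i _ => (Real.exp_pos _).le) fun i _ => ?_
          refine le_trans ?_ (haF i).1
          rw [Real.exp_neg]
          have : C ≤ Real.exp c := by
            rw [← Real.exp_log hC0]
            exact Real.exp_le_exp.2 hc
          exact inv_anti₀ hC0 this
  have hLk : 0 < Real.log T ^ ((1 + κ) ^ 2 - 4) := Real.rpow_pos_of_pos hL _
  rw [BF, D4]
  calc aK (1 + κ) * (Real.pi ^ 2 / 6) * Real.exp (-((c : ℝ) * M)) *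
        Real.log T ^ ((1 + κ) ^ 2 - 4) = aK (1 + κ) * (Real.pi ^ 2 / 6) *
        Real.log T ^ ((1 + κ) ^ 2 - 4) * Real.exp (-((c : ℝ) * M)) := by ring
    _ ≤ aK (1 + κ) * (Real.pi ^ 2 / 6) * lM T M ^ ((1 + κ) ^ 2 - 4) *
        ∏ i ∈ Finset.range (M - 6), aF κ i := by gcongr

/-! ### shifts near the line -/

lemma near {κ : ℝ} (h0 : 0 < κ) (h1 : κ < 1) (h3 : StOne4) (h6 : StPB) (h8 : StOm)
    {T CZ : ℝ} {M : ℕ} (hT : 3 ≤ T) (hM : 7 ≤ M) (hL50 : 50 ≤ Real.log T) (hBF : 0 < BF κ T M)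
    (hcmp : ∀ u₁ u₂ u₃ u₄ : ℂ,
    ‖u₁‖ ≤ Real.exp (M / 2) → ‖u₂‖ ≤ Real.exp (M / 2) → ‖u₃‖ ≤ Real.exp (M / 2) →
    ‖u₄‖ ≤ Real.exp (M / 2) →
    ‖RW4 T M (WF κ T M (Finset.range (JJ T + 1)) ∅) (u₁ / Real.log T) (u₂ / Real.log T)
        (u₃ / Real.log T) (u₄ / Real.log T) -
      ((BF κ T M : ℝ) : ℂ) * RW4 T M (fun _ => 1) (u₁ / Real.log T) (u₂ / Real.log T)
        (u₃ / Real.log T) (u₄ / Real.log T)‖ ≤
      BF κ T M * ((1 - κ) * (Real.exp (om M u₁ + om M u₂ + om M u₃ + om M u₄) - 1) +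
        1 * Real.exp (om M u₁ + om M u₂ + om M u₃ + om M u₄)) *
      (‖K3.EP T ((u₁ + u₃) / Real.log T)‖ * ‖K3.EP T ((u₁ + u₄) / Real.log T)‖ *
        ‖K3.EP T ((u₂ + u₃) / Real.log T)‖ * ‖K3.EP T ((u₂ + u₄) / Real.log T)‖) *
      ‖ZT T ((u₁ + u₂ + u₃ + u₄) / Real.log T)‖)
    (hEP : ∀ c : ℂ, ‖c‖ ≤ 2 * Real.exp (M / 2) + 1 →
    (3 / 2 ≤ c.re → ‖K3.EP T (c / Real.log T)‖ ≤ 113 / 100 * (Real.log T / ‖c‖)) ∧
    (2 ≤ c.re → ‖K3.EP T (c / Real.log T)‖ ≤ 106 / 100 * (Real.log T / ‖c‖)) ∧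
    (4 ≤ c.re → ‖K3.EP T (c / Real.log T)‖ ≤ 101 / 100 * (Real.log T / ‖c‖)))
    (hZT : ∀ s : ℂ, -(1 / 2) ≤ s.re → ‖ZT T s‖ ≤ CZ)
    {a : ℂ} (ha : ‖a‖ = 1 / (2 * Real.log T)) {x ξ₂ ξ : ℝ}
    (n2 : ‖un x ξ₂‖ ≤ Real.exp (M / 2)) (n4 : ‖un x ξ‖ ≤ Real.exp (M / 2)) :
    ‖R4W T M (WF κ T M (Finset.range (JJ T + 1)) ∅) a x ξ₂ ξ‖ *
      ‖∏ p ∈ PS 0 T, (1 - (p : ℂ) ^ (-(1 + a + a)))‖ ≤
      BF κ T M * Real.log T ^ 3 *
        (129600 * CZ * ‖4 + ((2 * Real.pi * (ξ - ξ₂) : ℝ) : ℂ) * I‖⁻¹) := by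
  have hL0 : 0 < Real.log T := by linarith
  have hLC : (Real.log T : ℂ) ≠ 0 := by exact_mod_cast hL0.ne'
  set L := Real.log T with hL
  set v : ℂ := (starRingEnd ℂ) a * L with hv
  have hvn : ‖v‖ = 1 / 2 := by
    rw [hv, norm_mul, RCLike.norm_conj, ha, norm_real, Real.norm_eq_abs, abs_of_pos hL0]
    field_simp
  have hvL : v / L = (starRingEnd ℂ) a := by
    rw [hv, mul_div_assoc, div_self hLC, mul_one]
  have hvre := abs_re_le_norm v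
  rw [hvn] at hvre
  have hvre1 := (abs_le.mp hvre).1
  have hE1 : 1 ≤ Real.exp ((M : ℝ) / 2) := Real.one_le_exp (by positivity)
  set u₂ : ℂ := un x ξ₂ with hu₂
  set u₄ : ℂ := (starRingEnd ℂ) (un x ξ) with hu₄
  have hn4 : ‖u₄‖ = ‖un x ξ‖ := by rw [hu₄, RCLike.norm_conj]
  have hre2 : u₂.re = 2 := un_re _ _
  have hre4 : u₄.re = 2 := by rw [hu₄, conj_re, un_re]
  have h2n2 : 2 ≤ ‖u₂‖ := two_le_un _ _
  have h2n4 : 2 ≤ ‖u₄‖ := by rw [hn4]; exact two_le_un _ _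
  have hvE : ‖v‖ ≤ Real.exp (M / 2) := by rw [hvn]; linarith
  rw [← hn4] at n4
  have hc := hcmp v u₂ v u₄ hvE n2 hvE n4
  -- the untwisted model
  have hre_div : ∀ u : ℂ, -(1 / 2) ≤ u.re → -(1 / 100) ≤ (u / (L : ℂ)).re := by
    intro u hu
    rw [div_ofReal_re, le_div_iff₀ hL0]
    linarith
  have ho := h3 T M hT hM (v / L) (u₂ / L) (v / L) (u₄ / L) (hre_div _ (by linarith))
    (hre_div _ (by linarith)) (hre_div _ (by linarith)) (hre_div _ (by linarith))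
  rw [← add_div, ← add_div, ← add_div, ← add_div, ← add_div, ← add_div, ← add_div] at ho
  set S : ℝ := om M v + om M u₂ + om M v + om M u₄ with hS
  have hS0 : 0 ≤ S := by
    have := om_nonneg M v
    have := om_nonneg M u₂
    have := om_nonneg M u₄
    linarith
  have heS : 1 ≤ Real.exp S := Real.one_le_exp hS0
  set X1 := ‖K3.EP T ((v + v) / L)‖ with hX1
  set X2 := ‖K3.EP T ((v + u₄) / L)‖ with hX2
  set X3 := ‖K3.EP T ((u₂ + v) / L)‖ with hX3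
  set X4 := ‖K3.EP T ((u₂ + u₄) / L)‖ with hX4
  set Z := ‖ZT T ((v + u₂ + v + u₄) / L)‖ with hZ
  have hX10 : 0 ≤ X1 := norm_nonneg _
  have hX20 : 0 ≤ X2 := norm_nonneg _
  have hX30 : 0 ≤ X3 := norm_nonneg _
  have hX40 : 0 ≤ X4 := norm_nonneg _
  have hZ0 : 0 ≤ Z := norm_nonneg _
  have hone : ‖RW4 T M (fun _ => 1) (v / L) (u₂ / L) (v / L) (u₄ / L)‖ = X1 * X2 * X3 * X4 * Z := by
    rw [ho]
    simp only [norm_mul]
    rw [← hX1, ← hX2, ← hX3, ← hX4]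
  have hR : ‖RW4 T M (WF κ T M (Finset.range (JJ T + 1)) ∅) (v / L) (u₂ / L) (v / L) (u₄ / L)‖ ≤
      BF κ T M * (2 * Real.exp S) * (X1 * X2 * X3 * X4) * Z := by
    have t1 : ‖RW4 T M (WF κ T M (Finset.range (JJ T + 1)) ∅) (v / L) (u₂ / L) (v / L) (u₄ / L)‖ ≤
        ‖RW4 T M (WF κ T M (Finset.range (JJ T + 1)) ∅) (v / L) (u₂ / L) (v / L) (u₄ / L) -
        ((BF κ T M : ℝ) : ℂ) * RW4 T M (fun _ => 1) (v / L) (u₂ / L) (v / L) (u₄ / L)‖ +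
        ‖((BF κ T M : ℝ) : ℂ) * RW4 T M (fun _ => 1) (v / L) (u₂ / L) (v / L) (u₄ / L)‖ := by
      refine le_trans (le_of_eq ?_) (norm_add_le _ _)
      congr 1
      ring
    rw [norm_mul, hone, norm_real, Real.norm_eq_abs, abs_of_pos hBF] at t1
    have t2 : (1 - κ) * (Real.exp S - 1) + 1 * Real.exp S + 1 ≤ 2 * Real.exp S := by
      nlinarith
    calc _ ≤ _ := t1
      _ ≤ BF κ T M * ((1 - κ) * (Real.exp S - 1) + 1 * Real.exp S) * (X1 * X2 * X3 * X4) * Z +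
          BF κ T M * (X1 * X2 * X3 * X4 * Z) := by gcongr
      _ = BF κ T M * ((1 - κ) * (Real.exp S - 1) + 1 * Real.exp S + 1) *
          (X1 * X2 * X3 * X4) * Z := by ring
      _ ≤ _ := by gcongr
  -- the sizes
  have w2 : ‖v + u₄‖ ≤ 2 * Real.exp (M / 2) + 1 := (norm_add_le _ _).trans (by rw [hvn]; linarith)
  have w3 : ‖u₂ + v‖ ≤ 2 * Real.exp (M / 2) + 1 := (norm_add_le _ _).trans (by rw [hvn]; linarith)
  have w4 : ‖u₂ + u₄‖ ≤ 2 * Real.exp (M / 2) + 1 := (norm_add_le _ _).trans (by linarith)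
  have p2 := (hEP (v + u₄) w2).1 (by rw [add_re, hre4]; linarith)
  have p3 := (hEP (u₂ + v) w3).1 (by rw [add_re, hre2]; linarith)
  have p4 := (hEP (u₂ + u₄) w4).2.2 (by rw [add_re, hre2, hre4]; norm_num)
  rw [← hX2] at p2
  rw [← hX3] at p3
  rw [← hX4] at p4
  have l2 := norm_add_lower hvn h2n4
  have l3 := norm_add_lower hvn h2n2
  have q2 : X2 ≤ 2 * L / ‖u₄‖ := by
    refine p2.trans ?_
    have t : L / ‖v + u₄‖ ≤ L / (3 / 4 * ‖u₄‖) := by gcongr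
    calc 113 / 100 * (L / ‖v + u₄‖) ≤ 113 / 100 * (L / (3 / 4 * ‖u₄‖)) := by gcongr
      _ = (113 / 75) * (L / ‖u₄‖) := by
          field_simp
          norm_num
      _ ≤ 2 * (L / ‖u₄‖) := by
          have : 0 ≤ L / ‖u₄‖ := by positivity
          nlinarith
      _ = _ := by ring
  have q3 : X3 ≤ 2 * L / ‖u₂‖ := by
    refine p3.trans ?_
    rw [add_comm u₂ v]
    have t : L / ‖v + u₂‖ ≤ L / (3 / 4 * ‖u₂‖) := by gcongr
    calc 113 / 100 * (L / ‖v + u₂‖) ≤ 113 / 100 * (L / (3 / 4 * ‖u₂‖)) := by gcongr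
      _ = (113 / 75) * (L / ‖u₂‖) := by
          field_simp
          norm_num
      _ ≤ 2 * (L / ‖u₂‖) := by
          have : 0 ≤ L / ‖u₂‖ := by positivity
          nlinarith
      _ = _ := by ring
  have e4 : u₂ + u₄ = 4 + ((2 * Real.pi * (ξ - ξ₂) : ℝ) : ℂ) * I := un_add_conj _ _ _
  rw [e4] at p4
  set κ4 : ℝ := ‖4 + ((2 * Real.pi * (ξ - ξ₂) : ℝ) : ℂ) * I‖ with hκ4
  have hκ40 : 0 ≤ κ4 := norm_nonneg _
  have q4 : X4 ≤ 2 * L * κ4⁻¹ := by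
    refine p4.trans ?_
    have : 0 ≤ L * κ4⁻¹ := by positivity
    rw [div_eq_mul_inv L κ4]
    nlinarith
  have hZle : Z ≤ CZ := hZT _ (by
    rw [div_ofReal_re, add_re, add_re, add_re, hre2, hre4, le_div_iff₀ hL0]
    nlinarith)
  have hCZ0 : 0 ≤ CZ := hZ0.trans hZle
  -- the exponential
  have hexp : Real.exp S ≤ 9 * (30 * ‖u₂‖) * (30 * ‖u₄‖) := by
    have s1 := om_half h8 M hvn
    have s2 := exp_om_un h8 M (u := u₂) (by rw [hre2]; norm_num) (by linarith)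
    have s4 := exp_om_un h8 M (u := u₄) (by rw [hre4]; norm_num) (by linarith)
    have s9 : Real.exp (om M v + om M v) ≤ 9 := by
      have h2 : Real.exp (om M v + om M v) ≤ Real.exp 2 := Real.exp_le_exp.2 (by linarith)
      have h4 : Real.exp 2 = Real.exp 1 ^ 2 := by
        rw [← Real.exp_nat_mul]; norm_num
      have h5 : Real.exp 1 ^ 2 ≤ 3 ^ 2 := by
        have := Real.exp_one_lt_d9
        have h6 := Real.exp_pos 1
        gcongr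
        linarith
      rw [h4] at h2
      linarith
    have e : Real.exp S = Real.exp (om M v + om M v) * Real.exp (om M u₂) * Real.exp (om M u₄) := by
      rw [← Real.exp_add, ← Real.exp_add]
      congr 1
      rw [hS]; ring
    rw [e]
    gcongr
  -- the product
  have p0 := h6.2 T a
  rw [show (starRingEnd ℂ) a + (starRingEnd ℂ) a = (v + v) / L by rw [add_div, hvL], ← hX1] at p0
  set P : ℝ := ‖∏ p ∈ PS 0 T, (1 - (p : ℂ) ^ (-(1 + a + a)))‖ with hP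
  have hP0 : 0 ≤ P := norm_nonneg _
  have hR4 : R4W T M (WF κ T M (Finset.range (JJ T + 1)) ∅) a x ξ₂ ξ =
      RW4 T M (WF κ T M (Finset.range (JJ T + 1)) ∅) (v / L) (u₂ / L) (v / L) (u₄ / L) := by
    rw [R4W, hvL]
  rw [hR4]
  have hn20 : ‖u₂‖ ≠ 0 := by linarith
  have hn40 : ‖u₄‖ ≠ 0 := by linarith
  calc _ ≤ (BF κ T M * (2 * Real.exp S) * (X1 * X2 * X3 * X4) * Z) * P := by gcongr
    _ = BF κ T M * (2 * Real.exp S) * ((X1 * P) * (X2 * X3 * X4)) * Z := by ring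
    _ ≤ BF κ T M * (2 * (9 * (30 * ‖u₂‖) * (30 * ‖u₄‖))) *
        (1 * ((2 * L / ‖u₄‖) * (2 * L / ‖u₂‖) * (2 * L * κ4⁻¹))) * CZ := by gcongr
    _ = _ := by
        field_simp
        ring

/-! ### all shifts -/

lemma key (h2 : StCmp4) (h3 : StOne4) (h4 : StEP7) (h5 : StZT) (h6 : StPB) (h7 : StRandW)
    (h8 : StOm) (hA : StAK7) (hr : K5.StRho) {κ : ℝ} (h0 : 0 < κ) (h1 : κ < 1) :
    ∃ (C₁ : ℝ) (A : ℕ), 0 < C₁ ∧ ∀ η : ℝ, 0 < η → ∃ M₀ : ℕ, 7 ≤ M₀ ∧ ∀ M : ℕ, M₀ ≤ M →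
    ∃ T₀ : ℝ, 3 ≤ T₀ ∧ ∀ T, T₀ ≤ T → 0 < BF κ T M ∧ ∀ (N : ℕ) (c : ℕ → ℕ → ℂ),
    (∀ f, CMul f → ((WF κ T M (Finset.range (JJ T + 1)) ∅ f : ℝ) : ℂ) = GB N c f) →
    ∀ (ν : ℝ) (a : ℂ), |ν| ≤ Real.exp (M / 3) / Real.log T → ‖a‖ = 1 / (2 * Real.log T) →
    ∀ ξ₂ ξ : ℝ,
    ‖R4W T M (WF κ T M (Finset.range (JJ T + 1)) ∅) a (Real.log T * ν) ξ₂ ξ‖ *
      ‖∏ p ∈ PS 0 T, (1 - (p : ℂ) ^ (-(1 + a + a)))‖ ≤
      BF κ T M * Real.log T ^ 3 * (C₁ * ‖4 + ((2 * Real.pi * (ξ - ξ₂) : ℝ) : ℂ) * I‖⁻¹ +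
        η * ((1 + |ξ₂|) ^ A * (1 + |ξ|) ^ A)) := by
  obtain ⟨-, CZ, hCZ, hZT⟩ := h5
  obtain ⟨⟨Cp, Tp, hCp, hTp, hP⟩, h6'⟩ := id h6
  obtain ⟨C, Mc, hR⟩ := h7 κ h0 h1
  obtain ⟨b₀, cr, hb₀, hlow⟩ := BF_lower hA hr h0 h1
  obtain ⟨Mn, hMn, hcmp⟩ := h2 κ h0 h1 1 one_pos
  set C' : ℕ := C + cr with hC'
  refine ⟨129600 * CZ, 6 * C' + 3, by positivity, fun η hη => ?_⟩
  set D₀ : ℝ := Cp / b₀ * 14 ^ (2 * C) with hD₀
  have hD₀p : 0 < D₀ := by positivity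
  obtain ⟨Me, hMe⟩ := exists_nat_ge (Real.log (D₀ * 7 ^ (5 * C' + 3) / η))
  refine ⟨max (max Mc Mn) (max Me 7), by
    have := le_max_right Me 7
    have := le_max_right (max Mc Mn) (max Me 7)
    omega, fun M hM => ?_⟩
  have hM1 : Mc ≤ M := ((le_max_left _ _).trans (le_max_left _ _)).trans hM
  have hM2 : Mn ≤ M := ((le_max_right _ _).trans (le_max_left _ _)).trans hM
  have hM3 : Me ≤ M := ((le_max_left _ _).trans (le_max_right _ _)).trans hM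
  have hM4 : 7 ≤ M := ((le_max_right _ _).trans (le_max_right _ _)).trans hM
  obtain ⟨T₁, hT₁, hcmp⟩ := hcmp M hM2
  obtain ⟨T₂, hT₂, hR⟩ := hR M hM1
  obtain ⟨T₃, hT₃, hEP⟩ := h4 (2 * Real.exp (M / 2) + 1) (by positivity)
  refine ⟨max (max T₁ T₂) (max (max T₃ Tp) (Real.exp 50)), (hT₁.trans (le_max_left _ _)).trans
    (le_max_left _ _), fun T hT => ?_⟩
  have hTT₁ : T₁ ≤ T := ((le_max_left _ _).trans (le_max_left _ _)).trans hT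
  have hTT₂ : T₂ ≤ T := ((le_max_right _ _).trans (le_max_left _ _)).trans hT
  have hTT₃ : T₃ ≤ T :=
    (((le_max_left _ _).trans (le_max_left _ _)).trans (le_max_right _ _)).trans hT
  have hTTp : Tp ≤ T :=
    (((le_max_right _ _).trans (le_max_left _ _)).trans (le_max_right _ _)).trans hT
  have hTe : Real.exp 50 ≤ T := ((le_max_right _ _).trans (le_max_right _ _)).trans hT
  have hT3 : 3 ≤ T := hT₁.trans hTT₁
  have hT1 : 1 < T := by linarith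
  have hT0 : 0 < T := by linarith
  have hL50 : 50 ≤ Real.log T := by
    rw [Real.le_log_iff_exp_le hT0]; exact hTe
  have hL0 : 0 < Real.log T := by linarith
  have hlow := hlow M T (by omega) hT1
  have hLk : 0 < Real.log T ^ ((1 + κ) ^ 2 - 4) := Real.rpow_pos_of_pos hL0 _
  have hBF : 0 < BF κ T M := lt_of_lt_of_le (by positivity) hlow
  refine ⟨hBF, fun N c hW ν a hν ha ξ₂ ξ => ?_⟩
  have ha1 : ‖a‖ ≤ 1 / Real.log T := by
    rw [ha]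
    have : Real.log T ≤ 2 * Real.log T := by linarith
    gcongr
  have hM6 : (6 : ℝ) ≤ M := by
    have : (7 : ℝ) ≤ M := by exact_mod_cast hM4
    linarith
  have hx : |Real.log T * ν| ≤ Real.exp (M / 3) := by
    rw [abs_mul, abs_of_pos hL0]
    rw [le_div_iff₀ hL0] at hν
    linarith
  have hP := (hP T hTTp).2 a ha1
  set P : ℝ := ‖∏ p ∈ PS 0 T, (1 - (p : ℂ) ^ (-(1 + a + a)))‖ with hPdef
  have hP0 : 0 ≤ P := norm_nonneg _
  set Λ : ℝ := BF κ T M * Real.log T ^ 3 with hΛ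
  have hΛ0 : 0 < Λ := by positivity
  set E := Real.exp ((M : ℝ) / 3) with hE
  have hE1 : 1 ≤ E := Real.one_le_exp (by positivity)
  set Q := (1 + |ξ₂|) * (1 + |ξ|) with hQ
  have hu2 : 1 ≤ 1 + |ξ₂| := by linarith [abs_nonneg ξ₂]
  have hu : 1 ≤ 1 + |ξ| := by linarith [abs_nonneg ξ]
  have hQ1 : 1 ≤ Q := one_le_mul_of_one_le_of_one_le hu2 hu
  have hQA : (1 + |ξ₂|) ^ (6 * C' + 3) * (1 + |ξ|) ^ (6 * C' + 3) = Q ^ (6 * C' + 3) := by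
    rw [hQ, mul_pow]
  rw [hQA]
  set κ4 : ℝ := ‖4 + ((2 * Real.pi * (ξ - ξ₂) : ℝ) : ℂ) * I‖⁻¹ with hκ4
  have hκ40 : 0 ≤ κ4 := inv_nonneg.2 (norm_nonneg _)
  have hηQ : 0 ≤ η * Q ^ (6 * C' + 3) := by positivity
  by_cases hcase : 7 * (1 + |ξ₂|) ≤ E ∧ 7 * (1 + |ξ|) ≤ E
  · -- near case
    have n1 := un_size_small hx hM6 hcase.1
    have n2 := un_size_small hx hM6 hcase.2
    have hn := near h0 h1 h3 h6 h8 (CZ := CZ) hT3 hM4 hL50 hBF (hcmp T hTT₁) (hEP T hTT₃)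
      (hZT T hT3) ha n1 n2
    refine hn.trans ?_
    rw [← hΛ, ← hκ4]
    have : 129600 * CZ * κ4 ≤ 129600 * CZ * κ4 + η * Q ^ (6 * C' + 3) := by linarith
    exact mul_le_mul_of_nonneg_left this hΛ0.le
  · -- far case
    have hbig : E ≤ 7 * Q := by
      rw [not_and_or, not_le, not_le] at hcase
      rcases hcase with h | h
      · calc E ≤ 7 * ((1 + |ξ₂|) * 1) := by rw [mul_one]; exact h.le
          _ ≤ 7 * Q := by rw [hQ]; gcongr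
      · calc E ≤ 7 * (1 * (1 + |ξ|)) := by rw [one_mul]; exact h.le
          _ ≤ 7 * Q := by rw [hQ]; gcongr
    set EC := Real.exp ((C : ℝ) * M) with hEC
    have hEC0 : 0 < EC := Real.exp_pos _
    have hLk2 : 0 < Real.log T ^ ((1 + κ) ^ 2) := Real.rpow_pos_of_pos hL0 _
    have c1 := crude (by linarith) M (wf_nonneg h0 h1 T M (Finset.range (JJ T + 1)) ∅)
      (bc_W hW) (C := C) (K := EC * Real.log T ^ ((1 + κ) ^ 2)) (by positivity) (fun z hz => by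
        have := hR T hTT₂ (Finset.range (JJ T + 1)) ∅ (by simp) z hz
        rw [Finset.prod_empty, mul_one] at this
        refine this.trans (le_of_eq ?_)
        ring) ha1 (Real.log T * ν) ξ₂ ξ
    have s1 := un_size_le (ξ := ξ₂) hx (show (0 : ℝ) ≤ M by positivity)
    have s2 := un_size_le (ξ := ξ) hx (show (0 : ℝ) ≤ M by positivity)
    rw [← hE] at s1 s2
    set R := ((1 + ‖un (Real.log T * ν) ξ₂‖) * (1 + ‖un (Real.log T * ν) ξ‖)) ^ C with hRdef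
    have hRle : R ≤ 14 ^ (2 * C) * (E ^ (2 * C) * Q ^ C) := by
      calc R ≤ ((14 * E * (1 + |ξ₂|)) * (14 * E * (1 + |ξ|))) ^ C := by
            rw [hRdef]
            gcongr
        _ = 14 ^ (2 * C) * (E ^ (2 * C) * Q ^ C) := by
            rw [show (14 * E * (1 + |ξ₂|)) * (14 * E * (1 + |ξ|)) = (14 ^ 2 * E ^ 2) * Q by
              rw [hQ]; ring, mul_pow, mul_pow, ← pow_mul, ← pow_mul]
            ring
    have hR0 : 0 ≤ R := by positivity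
    -- the lower bound for the main factor
    have hLL : Real.log T ^ ((1 + κ) ^ 2 - 4) * Real.log T ^ 3 * Real.log T =
        Real.log T ^ ((1 + κ) ^ 2) := by
      rw [mul_assoc, ← pow_succ, ← Real.rpow_natCast (Real.log T) (3 + 1), ← Real.rpow_add hL0]
      congr 1
      push_cast
      ring
    have hΛlow : b₀ * Real.exp (-((cr : ℝ) * M)) * Real.log T ^ ((1 + κ) ^ 2) ≤
        Λ * Real.log T := by
      rw [← hLL, hΛ]
      calc b₀ * Real.exp (-((cr : ℝ) * M)) * (Real.log T ^ ((1 + κ) ^ 2 - 4) * Real.log T ^ 3 *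
            Real.log T) = (b₀ * Real.exp (-((cr : ℝ) * M)) * Real.log T ^ ((1 + κ) ^ 2 - 4)) *
            (Real.log T ^ 3 * Real.log T) := by ring
        _ ≤ BF κ T M * (Real.log T ^ 3 * Real.log T) := by gcongr
        _ = _ := by ring
    have hmain : EC * Real.log T ^ ((1 + κ) ^ 2) * (Cp / Real.log T) ≤
        Cp / b₀ * E ^ (3 * C') * Λ := by
      have hEC' : E ^ (3 * C') = EC * Real.exp ((cr : ℝ) * M) := by
        rw [hEC, hE, ← Real.exp_add, ← Real.exp_nat_mul]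
        congr 1
        rw [hC']
        push_cast
        ring
      have hee : Real.exp ((cr : ℝ) * M) * Real.exp (-((cr : ℝ) * M)) = 1 := by
        rw [← Real.exp_add, add_neg_cancel, Real.exp_zero]
      rw [hEC', mul_div_assoc', div_le_iff₀ hL0]
      calc EC * Real.log T ^ ((1 + κ) ^ 2) * Cp = Cp / b₀ * EC * (b₀ *
            (Real.exp ((cr : ℝ) * M) * Real.exp (-((cr : ℝ) * M))) *
              Real.log T ^ ((1 + κ) ^ 2)) := by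
            rw [hee]
            field_simp
        _ = Cp / b₀ * EC * Real.exp ((cr : ℝ) * M) * (b₀ * Real.exp (-((cr : ℝ) * M)) *
              Real.log T ^ ((1 + κ) ^ 2)) := by ring
        _ ≤ Cp / b₀ * EC * Real.exp ((cr : ℝ) * M) * (Λ * Real.log T) := by gcongr
        _ = _ := by ring
    have hηE : D₀ * 7 ^ (5 * C' + 3) ≤ η * E ^ 3 := by
      have h3 : Real.log (D₀ * 7 ^ (5 * C' + 3) / η) ≤ M := hMe.trans (by exact_mod_cast hM3)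
      have h4 : D₀ * 7 ^ (5 * C' + 3) / η ≤ Real.exp M := by
        rw [← Real.exp_log (show 0 < D₀ * 7 ^ (5 * C' + 3) / η by positivity)]
        exact Real.exp_le_exp.2 h3
      rw [div_le_iff₀ hη] at h4
      have h5 : E ^ 3 = Real.exp M := by
        rw [hE, ← Real.exp_nat_mul]
        congr 1
        push_cast
        ring
      rw [h5]
      linarith
    have hfar := Red.far_arith (C := C') hE1 hQ1 hD₀p.le hΛ0.le hbig hηE
      (X := ‖R4W T M (WF κ T M (Finset.range (JJ T + 1)) ∅) a (Real.log T * ν) ξ₂ ξ‖ * P) (by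
      calc ‖R4W T M (WF κ T M (Finset.range (JJ T + 1)) ∅) a (Real.log T * ν) ξ₂ ξ‖ * P ≤
            (EC * Real.log T ^ ((1 + κ) ^ 2) * R) * (Cp / Real.log T) := by gcongr
        _ = (EC * Real.log T ^ ((1 + κ) ^ 2) * (Cp / Real.log T)) * R := by ring
        _ ≤ (Cp / b₀ * E ^ (3 * C') * Λ) * (14 ^ (2 * C) * (E ^ (2 * C) * Q ^ C)) := by gcongr
        _ ≤ (Cp / b₀ * E ^ (3 * C') * Λ) * (14 ^ (2 * C) * (E ^ (2 * C') * Q ^ C')) := by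
            have hCC' : C ≤ C' := by omega
            have := pow_le_pow_right₀ hE1 (show 2 * C ≤ 2 * C' by omega)
            have := pow_le_pow_right₀ hQ1 hCC'
            gcongr
        _ = D₀ * (E ^ (5 * C') * Q ^ C') * Λ := by
            rw [hD₀, show 5 * C' = 3 * C' + 2 * C' by ring, pow_add E (3 * C')]
            ring)
    refine hfar.trans ?_
    have h9 : 0 ≤ 129600 * CZ * κ4 := by positivity
    calc η * Λ * Q ^ (6 * C' + 3) = Λ * (η * Q ^ (6 * C' + 3)) := by ring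
      _ ≤ Λ * (129600 * CZ * κ4 + η * Q ^ (6 * C' + 3)) := by
          apply mul_le_mul_of_nonneg_left _ hΛ0.le
          linarith

/-! ### the double integral -/

lemma int_bound {g : ℝ → ℂ} (hg : Continuous g) {A : ℕ}
    (hgi : Integrable fun ξ : ℝ => ‖g ξ‖ * (1 + |ξ|) ^ A) {R : ℝ → ℝ → ℂ} {P B C₁ η S : ℝ}
    (hP : 0 ≤ P) (hB : 0 ≤ B) (hC₁ : 0 ≤ C₁) (hη : 0 ≤ η) (hS : 0 ≤ S) {k : ℝ → ℝ}
    (hk0 : ∀ x, 0 ≤ k x)
    (hR : ∀ ξ₂ ξ, ‖R ξ₂ ξ‖ * P ≤ B * (C₁ * k (ξ - ξ₂) + η * ((1 + |ξ₂|) ^ A * (1 + |ξ|) ^ A)))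
    (hY : ∫⁻ ξ : ℝ, ∫⁻ ξ₂ : ℝ, ‖g ξ‖ₑ * ‖g ξ₂‖ₑ * ENNReal.ofReal (k (ξ - ξ₂)) ≤
      ENNReal.ofReal S) :
    ‖∫ ξ : ℝ, g ξ * (starRingEnd ℂ) (∫ ξ₂ : ℝ, g ξ₂ * R ξ₂ ξ)‖ * P ≤
      B * (C₁ * S + η * (∫ ξ : ℝ, ‖g ξ‖ * (1 + |ξ|) ^ A) ^ 2) := by
  set K : ℝ := ∫ ξ : ℝ, ‖g ξ‖ * (1 + |ξ|) ^ A with hK
  have hK0 : 0 ≤ K := integral_nonneg fun ξ => by positivity
  have hKe : ENNReal.ofReal K = ∫⁻ ξ : ℝ, ENNReal.ofReal (‖g ξ‖ * (1 + |ξ|) ^ A) :=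
    ofReal_integral_eq_lintegral_ofReal hgi (Filter.Eventually.of_forall fun ξ => by positivity)
  set w : ℝ → ℝ≥0∞ := fun ξ => ENNReal.ofReal (‖g ξ‖ * (1 + |ξ|) ^ A) with hw
  have hwm : Measurable w := by
    have : Continuous fun ξ : ℝ => ‖g ξ‖ * (1 + |ξ|) ^ A := by fun_prop
    exact this.measurable.ennreal_ofReal
  -- the pointwise bound
  have hpt : ∀ ξ ξ₂ : ℝ, ‖g ξ‖ₑ * (‖g ξ₂‖ₑ * ‖R ξ₂ ξ‖ₑ * ENNReal.ofReal P) ≤
      ENNReal.ofReal (B * C₁) * (‖g ξ‖ₑ * ‖g ξ₂‖ₑ * ENNReal.ofReal (k (ξ - ξ₂))) +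
      ENNReal.ofReal (B * η) * (w ξ * w ξ₂) := by
    intro ξ ξ₂
    have h := hR ξ₂ ξ
    have hk' := hk0 (ξ - ξ₂)
    simp only [hw]
    rw [← ofReal_norm, ← ofReal_norm, ← ofReal_norm, ← ENNReal.ofReal_mul (norm_nonneg _),
      ← ENNReal.ofReal_mul (by positivity), ← ENNReal.ofReal_mul (norm_nonneg _),
      ← ENNReal.ofReal_mul (norm_nonneg _), ← ENNReal.ofReal_mul (by positivity),
      ← ENNReal.ofReal_mul (by positivity), ← ENNReal.ofReal_mul (by positivity),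
      ← ENNReal.ofReal_mul (by positivity), ← ENNReal.ofReal_add (by positivity) (by positivity)]
    apply ENNReal.ofReal_le_ofReal
    calc ‖g ξ‖ * (‖g ξ₂‖ * ‖R ξ₂ ξ‖ * P) = ‖g ξ‖ * ‖g ξ₂‖ * (‖R ξ₂ ξ‖ * P) := by ring
      _ ≤ ‖g ξ‖ * ‖g ξ₂‖ * (B * (C₁ * k (ξ - ξ₂) + η * ((1 + |ξ₂|) ^ A * (1 + |ξ|) ^ A))) := by
          gcongr
      _ = _ := by ring
  have e1 : ‖∫ ξ : ℝ, g ξ * (starRingEnd ℂ) (∫ ξ₂ : ℝ, g ξ₂ * R ξ₂ ξ)‖ₑ ≤
      ∫⁻ ξ : ℝ, ‖g ξ‖ₑ * ∫⁻ ξ₂ : ℝ, ‖g ξ₂‖ₑ * ‖R ξ₂ ξ‖ₑ := by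
    refine (enorm_integral_le_lintegral_enorm _).trans (lintegral_mono fun ξ => ?_)
    have hc : ‖(starRingEnd ℂ) (∫ ξ₂ : ℝ, g ξ₂ * R ξ₂ ξ)‖ₑ = ‖∫ ξ₂ : ℝ, g ξ₂ * R ξ₂ ξ‖ₑ := by
      rw [← ofReal_norm, RCLike.norm_conj, ofReal_norm]
    rw [enorm_mul, hc]
    refine mul_le_mul_right ?_ _
    refine (enorm_integral_le_lintegral_enorm _).trans (le_of_eq ?_)
    congr 1
    funext ξ₂
    rw [enorm_mul]
  have e2 : ENNReal.ofReal (‖∫ ξ : ℝ, g ξ * (starRingEnd ℂ) (∫ ξ₂ : ℝ, g ξ₂ * R ξ₂ ξ)‖ * P) ≤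
      ENNReal.ofReal (B * (C₁ * S + η * K ^ 2)) := by
    rw [ENNReal.ofReal_mul (norm_nonneg _), ofReal_norm]
    calc _ ≤ (∫⁻ ξ : ℝ, ‖g ξ‖ₑ * ∫⁻ ξ₂ : ℝ, ‖g ξ₂‖ₑ * ‖R ξ₂ ξ‖ₑ) * ENNReal.ofReal P := by
          gcongr
      _ = ∫⁻ ξ : ℝ, ∫⁻ ξ₂ : ℝ, ‖g ξ‖ₑ * (‖g ξ₂‖ₑ * ‖R ξ₂ ξ‖ₑ * ENNReal.ofReal P) := by
          rw [← lintegral_mul_const' _ _ ENNReal.ofReal_ne_top]
          congr 1
          funext ξ
          rw [mul_assoc, ← lintegral_mul_const' _ _ ENNReal.ofReal_ne_top,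
            ← lintegral_const_mul' _ _ enorm_ne_top]
      _ ≤ ∫⁻ ξ : ℝ, ∫⁻ ξ₂ : ℝ, (ENNReal.ofReal (B * C₁) *
            (‖g ξ‖ₑ * ‖g ξ₂‖ₑ * ENNReal.ofReal (k (ξ - ξ₂))) +
          ENNReal.ofReal (B * η) * (w ξ * w ξ₂)) :=
          lintegral_mono fun ξ => lintegral_mono fun ξ₂ => hpt ξ ξ₂
      _ = ∫⁻ ξ : ℝ, (ENNReal.ofReal (B * C₁) *
            (∫⁻ ξ₂ : ℝ, ‖g ξ‖ₑ * ‖g ξ₂‖ₑ * ENNReal.ofReal (k (ξ - ξ₂))) +
          ENNReal.ofReal (B * η) * (w ξ * ENNReal.ofReal K)) := by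
          congr 1
          funext ξ
          rw [lintegral_add_right _ ((hwm.const_mul _).const_mul _),
            lintegral_const_mul' _ _ ENNReal.ofReal_ne_top,
            lintegral_const_mul' _ _ ENNReal.ofReal_ne_top,
            lintegral_const_mul' _ _ (by simp only [hw]; exact ENNReal.ofReal_ne_top), hKe]
      _ = ENNReal.ofReal (B * C₁) *
            (∫⁻ ξ : ℝ, ∫⁻ ξ₂ : ℝ, ‖g ξ‖ₑ * ‖g ξ₂‖ₑ * ENNReal.ofReal (k (ξ - ξ₂))) +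
          ENNReal.ofReal (B * η) * (ENNReal.ofReal K * ENNReal.ofReal K) := by
          rw [lintegral_add_right _ ((hwm.mul_const _).const_mul _),
            lintegral_const_mul' _ _ ENNReal.ofReal_ne_top,
            lintegral_const_mul' _ _ ENNReal.ofReal_ne_top,
            lintegral_mul_const' _ _ ENNReal.ofReal_ne_top, ← hKe]
      _ ≤ ENNReal.ofReal (B * C₁) * ENNReal.ofReal S +
          ENNReal.ofReal (B * η) * (ENNReal.ofReal K * ENNReal.ofReal K) := by gcongr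
      _ = ENNReal.ofReal (B * (C₁ * S + η * K ^ 2)) := by
          rw [← ENNReal.ofReal_mul (by positivity), ← ENNReal.ofReal_mul hK0,
            ← ENNReal.ofReal_mul (by positivity), ← ENNReal.ofReal_add (by positivity)
              (by positivity)]
          congr 1
          ring
  exact (ENNReal.ofReal_le_ofReal_iff (by positivity)).1 e2

lemma lint_lorentz {c δ : ℝ} (hc : 0 ≤ c) (hδ : 0 < δ) :
    ∫⁻ ξ : ℝ, ENNReal.ofReal (c * (1 + (δ * ξ) ^ 2)⁻¹) = ENNReal.ofReal (c * (Real.pi / δ)) := by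
  have hi : Integrable fun ξ : ℝ => c * (1 + (δ * ξ) ^ 2)⁻¹ :=
    (integrable_inv_one_add_sq.comp_mul_left' hδ.ne').const_mul c
  rw [← ofReal_integral_eq_lintegral_ofReal hi (Filter.Eventually.of_forall fun ξ => by positivity),
    integral_const_mul, Measure.integral_comp_mul_left (fun y : ℝ => (1 + y ^ 2)⁻¹) δ,
    integral_univ_inv_one_add_sq, abs_of_pos (by positivity), smul_eq_mul]
  congr 1
  ring

lemma young_bound (hY : StYoung) {g : ℝ → ℂ} (hg : Continuous g) {G δ : ℝ} (hG : 0 < G)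
    (hδ : 0 < δ) (hb : ∀ ξ, ‖g ξ‖ ≤ G * δ / (1 + δ * |ξ|) ^ 2) :
    ∫⁻ ξ : ℝ, ∫⁻ ξ₂ : ℝ, ‖g ξ‖ₑ * ‖g ξ₂‖ₑ *
      ENNReal.ofReal (‖4 + ((2 * Real.pi * (ξ - ξ₂) : ℝ) : ℂ) * I‖⁻¹) ≤
      ENNReal.ofReal (10 * G ^ 2 * δ ^ (1 / 2 : ℝ)) := by
  set k : ℝ → ℝ := fun y => ‖4 + ((2 * Real.pi * y : ℝ) : ℂ) * I‖⁻¹ with hk
  have hpi := Real.pi_pos
  have hkm : Measurable k := by
    have : Continuous fun y : ℝ => ‖4 + ((2 * Real.pi * y : ℝ) : ℂ) * I‖ := by fun_prop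
    exact this.measurable.inv
  have h := hY 2 (4 / 3) (4 / 3) (by norm_num) (by norm_num) (by norm_num) (by norm_num)
    (fun ξ => ‖g ξ‖ₑ) (fun ξ => ‖g ξ‖ₑ) (fun y => ENNReal.ofReal (k y)) hg.measurable.enorm
    hg.measurable.enorm hkm.ennreal_ofReal
  refine h.trans ?_
  set c₁ : ℝ := (G * δ) ^ (4 / 3 : ℝ) * (Real.pi / δ) with hc₁
  have hc₁0 : 0 < c₁ := by positivity
  have ha : ∫⁻ ξ : ℝ, ‖g ξ‖ₑ ^ (4 / 3 : ℝ) ≤ ENNReal.ofReal c₁ := by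
    rw [hc₁, ← lint_lorentz (by positivity) hδ]
    refine lintegral_mono fun ξ => ?_
    rw [← ofReal_norm, ENNReal.ofReal_rpow_of_nonneg (norm_nonneg _) (by norm_num)]
    apply ENNReal.ofReal_le_ofReal
    have hy : 0 ≤ δ * |ξ| := by positivity
    have hy2 : (δ * ξ) ^ 2 = (δ * |ξ|) ^ 2 := by rw [mul_pow, mul_pow, sq_abs]
    have h1 : 1 + (δ * ξ) ^ 2 ≤ ((1 + δ * |ξ|) ^ 2) ^ (4 / 3 : ℝ) := by
      have h2 : 1 ≤ (1 + δ * |ξ|) ^ 2 := by nlinarith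
      have h3 := Real.rpow_le_rpow_of_exponent_le h2 (show (1 : ℝ) ≤ 4 / 3 by norm_num)
      rw [Real.rpow_one] at h3
      rw [hy2]
      nlinarith
    calc ‖g ξ‖ ^ (4 / 3 : ℝ) ≤ (G * δ / (1 + δ * |ξ|) ^ 2) ^ (4 / 3 : ℝ) :=
          Real.rpow_le_rpow (norm_nonneg _) (hb ξ) (by norm_num)
      _ = (G * δ) ^ (4 / 3 : ℝ) * (((1 + δ * |ξ|) ^ 2) ^ (4 / 3 : ℝ))⁻¹ := by
          rw [Real.div_rpow (by positivity) (by positivity), div_eq_mul_inv]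
      _ ≤ (G * δ) ^ (4 / 3 : ℝ) * (1 + (δ * ξ) ^ 2)⁻¹ := by
          gcongr
  have hK : ∫⁻ y : ℝ, ENNReal.ofReal (k y) ^ (2 : ℝ) ≤ ENNReal.ofReal Real.pi := by
    have hl := lint_lorentz (c := 1) (δ := 1) zero_le_one one_pos
    simp only [one_mul, div_one] at hl
    rw [← hl]
    refine lintegral_mono fun y => ?_
    have hk0 : 0 ≤ k y := inv_nonneg.2 (norm_nonneg _)
    rw [ENNReal.ofReal_rpow_of_nonneg hk0 (by norm_num)]
    apply ENNReal.ofReal_le_ofReal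
    rw [Real.rpow_two, hk]
    simp only [inv_pow]
    have hn : ‖4 + ((2 * Real.pi * y : ℝ) : ℂ) * I‖ ^ 2 = 16 + (2 * Real.pi * y) ^ 2 := by
      rw [← Complex.normSq_eq_norm_sq, Complex.normSq_apply]
      simp
      ring
    rw [hn]
    have h3 : y ^ 2 ≤ (2 * Real.pi * y) ^ 2 := by
      rw [mul_pow]
      have h4 : 1 ≤ (2 * Real.pi) ^ 2 := by
        have := Real.pi_gt_three
        nlinarith
      nlinarith [sq_nonneg y]
    have h5 : 1 + y ^ 2 ≤ 16 + (2 * Real.pi * y) ^ 2 := by linarith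
    exact inv_anti₀ (by positivity) h5
  have f1 : (∫⁻ ξ : ℝ, ‖g ξ‖ₑ ^ (4 / 3 : ℝ)) ^ (1 / (4 / 3) : ℝ) ≤
      ENNReal.ofReal (c₁ ^ (1 / (4 / 3) : ℝ)) := by
    rw [← ENNReal.ofReal_rpow_of_nonneg hc₁0.le (by norm_num)]
    exact ENNReal.rpow_le_rpow ha (by norm_num)
  have f2 : (∫⁻ y : ℝ, ENNReal.ofReal (k y) ^ (2 : ℝ)) ^ (1 / 2 : ℝ) ≤
      ENNReal.ofReal (Real.pi ^ (1 / 2 : ℝ)) := by
    rw [← ENNReal.ofReal_rpow_of_nonneg hpi.le (by norm_num)]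
    exact ENNReal.rpow_le_rpow hK (by norm_num)
  calc _ ≤ ENNReal.ofReal (c₁ ^ (1 / (4 / 3) : ℝ)) * ENNReal.ofReal (c₁ ^ (1 / (4 / 3) : ℝ)) *
        ENNReal.ofReal (Real.pi ^ (1 / 2 : ℝ)) := mul_le_mul' (mul_le_mul' f1 f1) f2
    _ = ENNReal.ofReal (c₁ ^ (1 / (4 / 3) : ℝ) * c₁ ^ (1 / (4 / 3) : ℝ) *
        Real.pi ^ (1 / 2 : ℝ)) := by
        rw [← ENNReal.ofReal_mul (by positivity), ← ENNReal.ofReal_mul (by positivity)]
    _ ≤ _ := by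
        apply ENNReal.ofReal_le_ofReal
        have g1 : c₁ ^ (1 / (4 / 3) : ℝ) * c₁ ^ (1 / (4 / 3) : ℝ) =
            (G * δ) ^ 2 * (Real.pi ^ (3 / 2 : ℝ) / δ ^ (3 / 2 : ℝ)) := by
          rw [← Real.rpow_add hc₁0, hc₁, Real.mul_rpow (by positivity) (by positivity),
            ← Real.rpow_mul (by positivity), ← Real.div_rpow hpi.le hδ.le]
          norm_num
        have g2 : Real.pi ^ (3 / 2 : ℝ) * Real.pi ^ (1 / 2 : ℝ) = Real.pi ^ 2 := by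
          rw [← Real.rpow_add hpi, ← Real.rpow_natCast]
          norm_num
        have g3 : δ ^ 2 = δ ^ (1 / 2 : ℝ) * δ ^ (3 / 2 : ℝ) := by
          rw [← Real.rpow_add hδ, ← Real.rpow_natCast]
          norm_num
        have hδ3 : 0 < δ ^ (3 / 2 : ℝ) := Real.rpow_pos_of_pos hδ _
        have hδ1 : 0 < δ ^ (1 / 2 : ℝ) := Real.rpow_pos_of_pos hδ _
        have hp2 : Real.pi ^ 2 ≤ 10 := by
          have := Real.pi_lt_d2
          nlinarith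
        rw [g1]
        calc (G * δ) ^ 2 * (Real.pi ^ (3 / 2 : ℝ) / δ ^ (3 / 2 : ℝ)) * Real.pi ^ (1 / 2 : ℝ) =
              G ^ 2 * δ ^ 2 * (Real.pi ^ (3 / 2 : ℝ) * Real.pi ^ (1 / 2 : ℝ)) /
                δ ^ (3 / 2 : ℝ) := by ring
          _ = Real.pi ^ 2 * G ^ 2 * δ ^ (1 / 2 : ℝ) := by
              rw [g2, g3]
              field_simp
          _ ≤ _ := by gcongr

end BumpRW

open BumpRW in
/-- (R20) the arithmetic factor of the bump -/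
theorem stBumpRW (h1 : StRepW) (h2 : StCmp4) (h3 : StOne4) (h4 : StEP7) (h5 : StZT) (h6 : StPB)
    (h7 : StRandW) (h8 : StOm) (hg : StGhB) (hY : StYoung) (hA : StAK7) (hr : K5.StRho) :
    StBumpRW := by
  intro κ hκ0 hκ1
  obtain ⟨C₁, A, hC₁, key⟩ := key h2 h3 h4 h5 h6 h7 h8 hA hr hκ0 hκ1
  obtain ⟨G, hG, hgh⟩ := hg
  refine ⟨C₁ * (10 * G ^ 2) + 1, by positivity, fun δ hδ hδ' => ?_⟩
  obtain ⟨hφ, hbd⟩ := hgh δ hδ hδ'
  set K : ℝ := ∫ ξ : ℝ, ‖FourG.gh hφ.cut ξ‖ * (1 + |ξ|) ^ A with hK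
  have hK0 : 0 ≤ K := integral_nonneg fun ξ => by positivity
  have hδ1 : 0 < δ ^ (1 / 2 : ℝ) := Real.rpow_pos_of_pos hδ _
  obtain ⟨M₀, hM₀, key⟩ := key (δ ^ (1 / 2 : ℝ) / (K + 1) ^ 2) (by positivity)
  obtain ⟨T₂, hT₂, hrep⟩ := h1 (fB δ) hφ
  refine ⟨M₀, fun M hM => ?_⟩
  obtain ⟨T₁, hT₁, key⟩ := key M hM
  refine ⟨max T₁ T₂, hT₁.trans (le_max_left _ _), fun T hT N c hN hW ν a hν ha => ?_⟩
  have hTT₁ : T₁ ≤ T := (le_max_left _ _).trans hT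
  have hTT₂ : T₂ ≤ T := (le_max_right _ _).trans hT
  have hL0 : 0 < Real.log T := Real.log_pos (by linarith)
  have ha1 : ‖a‖ ≤ 1 / Real.log T := by
    rw [ha]
    have : Real.log T ≤ 2 * Real.log T := by linarith
    gcongr
  obtain ⟨hBF, key⟩ := key T hTT₁
  have hcont : Continuous fun ξ => FourG.gh hφ.cut ξ := (FourG.gh hφ.cut).continuous
  have hyb := young_bound hY hcont hG hδ (hbd hφ.cut)
  have hib := int_bound (g := fun ξ => FourG.gh hφ.cut ξ) hcont (A := A)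
    (FourG.gh_int hφ.cut A)
    (R := fun ξ₂ ξ => R4W T M (WF κ T M (Finset.range (JJ T + 1)) ∅) a (Real.log T * ν) ξ₂ ξ)
    (P := ‖∏ p ∈ PS 0 T, (1 - (p : ℂ) ^ (-(1 + a + a)))‖)
    (B := BF κ T M * Real.log T ^ 3) (C₁ := C₁) (η := δ ^ (1 / 2 : ℝ) / (K + 1) ^ 2)
    (S := 10 * G ^ 2 * δ ^ (1 / 2 : ℝ)) (norm_nonneg _) (by positivity) hC₁.le (by positivity)
    (by positivity) (k := fun y => ‖4 + ((2 * Real.pi * y : ℝ) : ℂ) * I‖⁻¹)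
    (fun _ => inv_nonneg.2 (norm_nonneg _)) (fun ξ₂ ξ => key N c hW ν a hν ha ξ₂ ξ) hyb
  rw [(hrep T hTT₂ M (hM₀.trans hM) _ N c hN hW ν a ha1).2.2, norm_mul]
  refine hib.trans ?_
  rw [← hK]
  have hKK : δ ^ (1 / 2 : ℝ) / (K + 1) ^ 2 * K ^ 2 ≤ δ ^ (1 / 2 : ℝ) := by
    rw [div_mul_eq_mul_div, div_le_iff₀ (by positivity)]
    have : K ^ 2 ≤ (K + 1) ^ 2 := by nlinarith
    gcongr
  calc BF κ T M * Real.log T ^ 3 * (C₁ * (10 * G ^ 2 * δ ^ (1 / 2 : ℝ)) +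
        δ ^ (1 / 2 : ℝ) / (K + 1) ^ 2 * K ^ 2) ≤
        BF κ T M * Real.log T ^ 3 * (C₁ * (10 * G ^ 2 * δ ^ (1 / 2 : ℝ)) + δ ^ (1 / 2 : ℝ)) := by
        gcongr
    _ = _ := by ring

end K7
end Pool.Agent.Lib.MP_973905_nt
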