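import Pool.Agent.Lib.MP_973905_nt.K7.Stmts
import Pool.Agent.Lib.MP_973905_nt.K4.Circ

/-! Module (A1) of K7: the untwisted main term. -/

namespace Pool.Agent.Lib.MP_973905_nt
namespace K7

open MeasureTheory ProbabilityTheory Complex Filter Topology K1 K4 K5

namespace CircG

open K4.Circ (EE Ut gcd_facts)

lemma qg_P (P : ℝ → ℝ) {T : ℝ} {n : ℕ} (hn : n ≠ 0) :
    qg (fun x => Real.exp x * P x) T 0 n = ((P (Real.log n / Real.log T) : ℝ) : ℂ) := by
  have hn0 : (0 : ℝ) < n := by positivity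
  rw [qg]
  have e : (n : ℂ) ^ (-(((1 / Real.log T : ℝ) : ℂ) + ((0 : ℝ) : ℂ) * I)) =
      ((Real.exp (-(Real.log n / Real.log T)) : ℝ) : ℂ) := by
    rw [ofReal_zero, zero_mul, add_zero, ← ofReal_neg]
    have : ((n : ℕ) : ℂ) = (((n : ℝ)) : ℂ) := by push_cast; rfl
    rw [this, ← ofReal_cpow hn0.le, Real.rpow_def_of_pos hn0]
    congr 2
    ring
  rw [e, ← ofReal_mul]
  congr 1
  rw [mul_right_comm, ← Real.exp_add]
  simp

/-- the weight of a pair -/
noncomputable def Wt (P : ℝ → ℝ) (T : ℝ) (m n : ℕ) : ℝ :=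
  P (Real.log m / Real.log T) * P (Real.log n / Real.log T) *
    ((1 : ℝ) / ((m.gcd n : ℕ) * ((m / m.gcd n : ℕ) * (n / m.gcd n : ℕ))))

/-- the term of `Rde` -/
lemma Rde_term (P : ℝ → ℝ) {T : ℝ} {m n : ℕ} (hm : 1 ≤ m) (hn : 1 ≤ n) (a : ℂ) :
    qg (fun x => Real.exp x * P x) T 0 m * (starRingEnd ℂ) (qg (fun x => Real.exp x * P x) T 0 n) *
      ((m * 1 : ℕ) : ℂ) ^ (-(1 / 2 : ℂ)) * ((n * 1 : ℕ) : ℂ) ^ (-(1 / 2 : ℂ)) *
      (((m * 1) / (m * 1).gcd (n * 1) * ((n * 1) / (m * 1).gcd (n * 1)) : ℕ) : ℂ) ^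
        (-(1 / 2 + a)) = (Wt P T m n : ℂ) * cexp (-(Ut m n * a)) := by
  obtain ⟨hg, hm', hn', em, en⟩ := gcd_facts hm hn
  rw [qg_P _ (by omega), qg_P _ (by omega), conj_ofReal]
  simp only [mul_one]
  unfold Wt Ut
  set g := m.gcd n with hgd
  set m' := m / g with hm'd
  set n' := n / g with hn'd
  have hG : (0 : ℝ) < g := by exact_mod_cast hg
  have hM : (0 : ℝ) < m' := by exact_mod_cast hm'
  have hN : (0 : ℝ) < n' := by exact_mod_cast hn'
  have hhalf : ∀ x : ℕ, (x : ℂ) ^ (-(1 / 2 : ℂ)) = (((x : ℝ) ^ (-(1 / 2) : ℝ) : ℝ) : ℂ) := by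
    intro x
    rw [ofReal_cpow (by positivity)]
    push_cast
    rfl
  have hsplit : ∀ x : ℕ, 1 ≤ x → (x : ℂ) ^ (-(1 / 2 + a)) =
      (((x : ℝ) ^ (-(1 / 2) : ℝ) : ℝ) : ℂ) * cexp (-(Real.log x * a)) := by
    intro x hx
    have hx0 : (x : ℂ) ≠ 0 := by
      have : x ≠ 0 := by omega
      exact_mod_cast this
    rw [show (-(1 / 2 + a) : ℂ) = -(1 / 2) + -a by ring, cpow_add _ _ hx0, hhalf,
      cpow_def_of_ne_zero hx0 (-a), natCast_log]
    congr 2
    ring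
  rw [Nat.cast_mul m' n', natCast_mul_natCast_cpow, hsplit n' hn', hsplit m' hm', hhalf, hhalf]
  have ρmul : ∀ x y : ℝ, 0 ≤ x → 0 ≤ y → (x * y) ^ (-(1 / 2) : ℝ) =
      x ^ (-(1 / 2) : ℝ) * y ^ (-(1 / 2) : ℝ) := fun x y hx hy => Real.mul_rpow hx hy
  have ρsq : ∀ x : ℝ, 0 < x → x ^ (-(1 / 2) : ℝ) * x ^ (-(1 / 2) : ℝ) = 1 / x := by
    intro x hx
    rw [← Real.rpow_add hx, show (-(1 / 2) + -(1 / 2) : ℝ) = -1 by norm_num, Real.rpow_neg_one,
      one_div]
  have em' : (m : ℝ) = g * m' := by exact_mod_cast em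
  have en' : (n : ℝ) = g * n' := by exact_mod_cast en
  have e1 : (m : ℝ) ^ (-(1 / 2) : ℝ) * (n : ℝ) ^ (-(1 / 2) : ℝ) *
      ((n' : ℝ) ^ (-(1 / 2) : ℝ) * (m' : ℝ) ^ (-(1 / 2) : ℝ)) = 1 / (g * (m' * n')) := by
    rw [em', en', ρmul _ _ hG.le hM.le, ρmul _ _ hG.le hN.le]
    calc _ = ((g : ℝ) ^ (-(1 / 2) : ℝ) * (g : ℝ) ^ (-(1 / 2) : ℝ)) *
          ((m' : ℝ) ^ (-(1 / 2) : ℝ) * (m' : ℝ) ^ (-(1 / 2) : ℝ)) *
          ((n' : ℝ) ^ (-(1 / 2) : ℝ) * (n' : ℝ) ^ (-(1 / 2) : ℝ)) := by ring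
      _ = _ := by
        rw [ρsq _ hG, ρsq _ hM, ρsq _ hN]
        field_simp
  have e2 : cexp (-(((Real.log m' + Real.log n' : ℝ) : ℂ) * a)) =
      cexp (-(Real.log m' * a)) * cexp (-(Real.log n' * a)) := by
    rw [← Complex.exp_add]
    congr 1
    push_cast
    ring
  rw [e2, ← e1]
  push_cast
  ring

lemma Rde_eq (P : ℝ → ℝ) (T : ℝ) (a : ℂ) : Rde (fun x => Real.exp x * P x) T 0 1 1 a =
    ∑ m ∈ Finset.Icc 1 ⌊T⌋₊, ∑ n ∈ Finset.Icc 1 ⌊T⌋₊,
      (Wt P T m n : ℂ) * cexp (-(Ut m n * a)) := by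
  unfold Rde
  refine Finset.sum_congr rfl fun m hm => Finset.sum_congr rfl fun n hn => ?_
  rw [Finset.mem_Icc] at hm hn
  exact Rde_term P hm.1 hn.1 a

lemma MW_eq (P : ℝ → ℝ) {T : ℝ} (hT : 0 < T) (a : ℂ) :
    MW T 12 (Rde (fun x => Real.exp x * P x) T 0 1 1) a =
    ∑ m ∈ Finset.Icc 1 ⌊T⌋₊, ∑ n ∈ Finset.Icc 1 ⌊T⌋₊,
      (Wt P T m n : ℂ) • EE (Ut m n) (2 * Real.log (T / (2 * Real.pi)) - Ut m n) a := by
  have hX : 0 < T / (2 * Real.pi) := by positivity
  have e : ((T / (2 * Real.pi) : ℝ) : ℂ) ^ (-(2 * a)) =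
      cexp (-((2 * Real.log (T / (2 * Real.pi)) : ℝ) * a)) := by
    rw [cpow_def_of_ne_zero (by exact_mod_cast hX.ne'), ← ofReal_log hX.le]
    congr 1
    push_cast
    ring
  rw [MW, Rde_eq, Rde_eq, e]
  simp only [Finset.mul_sum]
  rw [← Finset.sum_add_distrib]
  refine Finset.sum_congr rfl fun m _ => ?_
  rw [← Finset.sum_add_distrib]
  refine Finset.sum_congr rfl fun n _ => ?_
  have e2 : cexp (-(((2 * Real.log (T / (2 * Real.pi)) - Ut m n : ℝ) : ℂ) * a)) =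
      cexp (-((2 * Real.log (T / (2 * Real.pi)) : ℝ) * a)) * cexp (-(Ut m n * -a)) := by
    rw [← Complex.exp_add]
    congr 1
    push_cast
    ring
  rw [EE, e2, smul_eq_mul]
  ring

lemma S1g_eq (P : ℝ → ℝ) (T : ℝ) : S1g P T =
    ∑ m ∈ Finset.Icc 1 ⌊T⌋₊, ∑ n ∈ Finset.Icc 1 ⌊T⌋₊, Wt P T m n * (Real.log T - Ut m n) := by
  unfold S1g
  refine Finset.sum_congr rfl fun m hm => Finset.sum_congr rfl fun n hn => ?_
  rw [Finset.mem_Icc] at hm hn
  obtain ⟨hg, hm', hn', em, en⟩ := gcd_facts hm.1 hn.1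
  unfold Wt Ut
  set g := m.gcd n with hgd
  set m' := m / g with hm'd
  set n' := n / g with hn'd
  have em' : (m : ℝ) = g * m' := by exact_mod_cast em
  have en' : (n : ℝ) = g * n' := by exact_mod_cast en
  have hG : (0 : ℝ) < g := by exact_mod_cast hg
  have hM : (0 : ℝ) < m' := by exact_mod_cast hm'
  have hN : (0 : ℝ) < n' := by exact_mod_cast hn'
  have e1 : (g : ℝ) / (m * n) = 1 / (g * (m' * n')) := by
    rw [em', en']
    field_simp
  rw [e1]
  ring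

end CircG

open CircG in
open K4.Circ (EE Ut gcd_facts) in
/-- (A1) the untwisted main term -/
theorem stCircG : StCircG := by
  obtain ⟨C, r₀, hC, hr₀, hterm⟩ := K4.Circ.term
  intro P _ hP1
  set K : ℝ := C + ‖Gamma (12 : ℂ)‖ * Real.log (2 * Real.pi) with hK
  have hpi := Real.pi_gt_three
  have hlog2pi : 0 ≤ Real.log (2 * Real.pi) := Real.log_nonneg (by linarith)
  have hK0 : 0 < K := by positivity
  refine ⟨K * 8, by positivity, ?_⟩
  have ev1 : ∀ᶠ T : ℝ in atTop, max (1 / r₀) 1 ≤ Real.log T :=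
    Real.tendsto_log_atTop.eventually_ge_atTop _
  obtain ⟨T₀, hT₀⟩ := eventually_atTop.mp (ev1.and (eventually_ge_atTop (2 * Real.pi)))
  refine ⟨max 3 T₀, le_max_left _ _, fun T hT => ?_⟩
  obtain ⟨h1, h2⟩ := hT₀ T ((le_max_right _ _).trans hT)
  have hT3 : 3 ≤ T := (le_max_left _ _).trans hT
  have hT0 : 0 < T := by linarith
  have hL1 : 1 ≤ Real.log T := (le_max_right _ _).trans h1
  have hL : 0 < Real.log T := by linarith
  set r : ℝ := 1 / (2 * Real.log T) with hr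
  have hr0 : 0 < r := by positivity
  have hrr : r ≤ r₀ := by
    rw [hr, div_le_iff₀ (by positivity)]
    have := (le_max_left _ _).trans h1
    rw [div_le_iff₀ hr₀] at this
    nlinarith
  set N := ⌊T⌋₊ with hN
  have hNT : (N : ℝ) ≤ T := Nat.floor_le hT0.le
  set w : ℝ := 2 * Real.log (T / (2 * Real.pi)) with hw
  have hlogX : Real.log (T / (2 * Real.pi)) = Real.log T - Real.log (2 * Real.pi) :=
    Real.log_div hT0.ne' (by positivity)
  have hw0 : 0 ≤ w := by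
    rw [hw]
    apply mul_nonneg (by norm_num)
    apply Real.log_nonneg
    rw [le_div_iff₀ (by positivity)]
    linarith
  have hw1 : w ≤ 2 * Real.log T := by rw [hw, hlogX]; linarith
  have hU : ∀ m ∈ Finset.Icc 1 N, ∀ n ∈ Finset.Icc 1 N, 0 ≤ Ut m n ∧ Ut m n ≤ 2 * Real.log T := by
    intro m hm n hn
    rw [Finset.mem_Icc] at hm hn
    obtain ⟨hg, hm', hn', em, en⟩ := gcd_facts hm.1 hn.1
    unfold Ut
    have a1 : 0 ≤ Real.log (m / m.gcd n : ℕ) := Real.log_nonneg (by exact_mod_cast hm')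
    have a2 : 0 ≤ Real.log (n / m.gcd n : ℕ) := Real.log_nonneg (by exact_mod_cast hn')
    have b1 : ((m / m.gcd n : ℕ) : ℝ) ≤ T := by
      have : m / m.gcd n ≤ N := (Nat.div_le_self _ _).trans hm.2
      exact le_trans (by exact_mod_cast this) hNT
    have b2 : ((n / m.gcd n : ℕ) : ℝ) ≤ T := by
      have : n / m.gcd n ≤ N := (Nat.div_le_self _ _).trans hn.2
      exact le_trans (by exact_mod_cast this) hNT
    have c1 : Real.log (m / m.gcd n : ℕ) ≤ Real.log T :=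
      Real.log_le_log (by exact_mod_cast hm') b1
    have c2 : Real.log (n / m.gcd n : ℕ) ≤ Real.log T :=
      Real.log_le_log (by exact_mod_cast hn') b2
    constructor <;> linarith
  have hpair : ∀ m ∈ Finset.Icc 1 N, ∀ n ∈ Finset.Icc 1 N,
      CircleIntegrable (EE (Ut m n) (w - Ut m n)) 0 r ∧
      ‖Real.circleAverage (EE (Ut m n) (w - Ut m n)) 0 r -
        Gamma 12 * ((Real.log T - Ut m n : ℝ) : ℂ)‖ ≤ K := by
    intro m hm n hn
    obtain ⟨u0, u1⟩ := hU m hm n hn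
    obtain ⟨t1, t2⟩ := hterm r hr0 hrr (Ut m n) (w - Ut m n)
      (by
        rw [abs_of_nonneg u0, hr, mul_one_div, div_le_iff₀ (by positivity)]
        linarith)
      (by
        have : |w - Ut m n| ≤ 4 * Real.log T := by
          rw [abs_le]; constructor <;> linarith
        rw [hr, mul_one_div, div_le_iff₀ (by positivity)]
        linarith)
    refine ⟨t1, ?_⟩
    have e : Real.circleAverage (EE (Ut m n) (w - Ut m n)) 0 r -
        Gamma 12 * ((Real.log T - Ut m n : ℝ) : ℂ) =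
        (Real.circleAverage (EE (Ut m n) (w - Ut m n)) 0 r -
          Gamma 12 * ((((w - Ut m n : ℝ) : ℂ) - Ut m n) / 2)) -
        Gamma 12 * ((Real.log (2 * Real.pi) : ℝ) : ℂ) := by
      rw [hw, hlogX]
      push_cast
      ring
    rw [e]
    refine (norm_sub_le _ _).trans (add_le_add t2 ?_)
    rw [norm_mul, norm_real, Real.norm_eq_abs, abs_of_nonneg hlog2pi]
  have hG12 : Gamma (12 : ℂ) = (((Nat.factorial 11 : ℕ) : ℝ) : ℂ) := by
    have := Complex.Gamma_nat_eq_factorial 11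
    push_cast at this ⊢
    rw [← this]
    norm_num
  have e1 : Real.circleAverage (MW T 12 (Rde (fun x => Real.exp x * P x) T 0 1 1)) 0 r =
      ∑ m ∈ Finset.Icc 1 N, ∑ n ∈ Finset.Icc 1 N,
        (Wt P T m n : ℂ) * Real.circleAverage (EE (Ut m n) (w - Ut m n)) 0 r := by
    have : MW T 12 (Rde (fun x => Real.exp x * P x) T 0 1 1) =
        fun a => ∑ m ∈ Finset.Icc 1 N, ∑ n ∈ Finset.Icc 1 N,
      (Wt P T m n : ℂ) • EE (Ut m n) (w - Ut m n) a := by
      funext a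
      exact MW_eq P hT0 a
    rw [this, Real.circleAverage_fun_sum]
    · refine Finset.sum_congr rfl fun m hm => ?_
      rw [Real.circleAverage_fun_sum]
      · refine Finset.sum_congr rfl fun n hn => ?_
        rw [Real.circleAverage_fun_smul, smul_eq_mul]
      · intro n hn
        exact (hpair m hm n hn).1.const_fun_smul
    · intro m hm
      apply CircleIntegrable.fun_sum
      intro n hn
      exact (hpair m hm n hn).1.const_fun_smul
  rw [e1, S1g_eq]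
  have e2 : ∑ m ∈ Finset.Icc 1 N, ∑ n ∈ Finset.Icc 1 N,
        (Wt P T m n : ℂ) * Real.circleAverage (EE (Ut m n) (w - Ut m n)) 0 r -
      (((Nat.factorial 11 : ℕ) * ∑ m ∈ Finset.Icc 1 N, ∑ n ∈ Finset.Icc 1 N,
        Wt P T m n * (Real.log T - Ut m n) : ℝ) : ℂ) =
      ∑ m ∈ Finset.Icc 1 N, ∑ n ∈ Finset.Icc 1 N, (Wt P T m n : ℂ) *
        (Real.circleAverage (EE (Ut m n) (w - Ut m n)) 0 r -
        Gamma 12 * ((Real.log T - Ut m n : ℝ) : ℂ)) := by
    rw [hG12]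
    push_cast
    rw [Finset.mul_sum, ← Finset.sum_sub_distrib]
    refine Finset.sum_congr rfl fun m _ => ?_
    rw [Finset.mul_sum, ← Finset.sum_sub_distrib]
    refine Finset.sum_congr rfl fun n _ => ?_
    ring
  rw [e2]
  have hWt : ∀ m n : ℕ, ‖(Wt P T m n : ℂ)‖ ≤
      (1 : ℝ) / ((m.gcd n : ℕ) * ((m / m.gcd n : ℕ) * (n / m.gcd n : ℕ))) := by
    intro m n
    unfold Wt
    rw [norm_real, Real.norm_eq_abs, abs_mul, abs_mul]
    have q1 := hP1 (Real.log m / Real.log T)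
    have q2 := hP1 (Real.log n / Real.log T)
    rw [abs_of_nonneg (by positivity :
      (0 : ℝ) ≤ (1 : ℝ) / ((m.gcd n : ℕ) * ((m / m.gcd n : ℕ) * (n / m.gcd n : ℕ))))]
    exact mul_le_of_le_one_left (by positivity) (mul_le_one₀ q1 (abs_nonneg _) q2)
  calc ‖∑ m ∈ Finset.Icc 1 N, ∑ n ∈ Finset.Icc 1 N, (Wt P T m n : ℂ) *
        (Real.circleAverage (EE (Ut m n) (w - Ut m n)) 0 r -
        Gamma 12 * ((Real.log T - Ut m n : ℝ) : ℂ))‖
      ≤ ∑ m ∈ Finset.Icc 1 N, ∑ n ∈ Finset.Icc 1 N,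
        (1 : ℝ) / ((m.gcd n : ℕ) * ((m / m.gcd n : ℕ) * (n / m.gcd n : ℕ))) * K := by
        refine (norm_sum_le _ _).trans (Finset.sum_le_sum fun m hm => ?_)
        refine (norm_sum_le _ _).trans (Finset.sum_le_sum fun n hn => ?_)
        rw [norm_mul]
        exact mul_le_mul (hWt m n) (hpair m hm n hn).2 (norm_nonneg _) (by positivity)
    _ = K * ∑ m ∈ Finset.Icc 1 N, ∑ n ∈ Finset.Icc 1 N,
        (1 : ℝ) / ((m.gcd n : ℕ) * ((m / m.gcd n : ℕ) * (n / m.gcd n : ℕ))) := by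
        rw [Finset.mul_sum]
        refine Finset.sum_congr rfl fun m _ => ?_
        rw [Finset.mul_sum]
        refine Finset.sum_congr rfl fun n _ => ?_
        ring
    _ ≤ K * (1 + Real.log N) ^ 3 := by
        gcongr
        exact F4.Cr4.gcd_sum N
    _ ≤ K * (2 * Real.log T) ^ 3 := by
        have h3 : Real.log N ≤ Real.log T := by
          rcases Nat.eq_zero_or_pos N with h | h
          · rw [h]; simp; exact hL.le
          · exact Real.log_le_log (by exact_mod_cast h) hNT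
        have h4 : 0 ≤ 1 + Real.log N := by
          rcases Nat.eq_zero_or_pos N with h | h
          · rw [h]; simp
          · have : 0 ≤ Real.log N := Real.log_nonneg (by exact_mod_cast h)
            linarith
        gcongr
        linarith
    _ = K * 8 * Real.log T ^ 3 := by ring

end K7
end Pool.Agent.Lib.MP_973905_nt
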