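import Pool.Agent.Lib.MP_973905_nt.K7.Stmts

/-! Module (R11) of K7: comparison of the twisted and the untwisted model. -/

namespace Pool.Agent.Lib.MP_973905_nt
namespace K7

open MeasureTheory ProbabilityTheory Complex Filter Topology K1 K4 K5
open scoped ENNReal

namespace Cmp4M

lemma prod_exp_le {c : ℝ} (hc0 : 0 ≤ c) (hc1 : c ≤ 1) (y : ℕ → ℝ) (hy : ∀ i, 0 ≤ y i) (n : ℕ) :
    ∏ i ∈ Finset.range n, (1 + c * (Real.exp (y i) - 1)) ≤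
      1 + c * (Real.exp (∑ i ∈ Finset.range n, y i) - 1) := by
  induction n with
  | zero => simp
  | succ n ih =>
    rw [Finset.prod_range_succ, Finset.sum_range_succ, Real.exp_add]
    have h1 : 1 ≤ Real.exp (y n) := Real.one_le_exp (hy n)
    have h2 : 1 ≤ Real.exp (∑ i ∈ Finset.range n, y i) :=
      Real.one_le_exp (Finset.sum_nonneg fun i _ => hy i)
    set a : ℝ := Real.exp (y n) - 1 with ha
    set b : ℝ := Real.exp (∑ i ∈ Finset.range n, y i) - 1 with hb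
    have ha0 : 0 ≤ a := by linarith
    have hb0 : 0 ≤ b := by linarith
    have e1 : Real.exp (∑ i ∈ Finset.range n, y i) * Real.exp (y n) - 1 = a + b + a * b := by
      rw [ha, hb]; ring
    rw [e1]
    have h3 : 0 ≤ 1 + c * a := by positivity
    calc (∏ i ∈ Finset.range n, (1 + c * (Real.exp (y i) - 1))) * (1 + c * a)
        ≤ (1 + c * b) * (1 + c * a) := by gcongr
      _ = 1 + c * (a + b) + c * c * (a * b) := by ring
      _ ≤ 1 + c * (a + b) + c * 1 * (a * b) := by gcongr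
      _ = 1 + c * (a + b + a * b) := by ring

/-- A product close to `1`. -/
lemma norm_prod_sub_one_le (r : ℕ → ℂ) (n : ℕ) :
    ‖∏ i ∈ Finset.range n, r i - 1‖ ≤ ∏ i ∈ Finset.range n, (1 + ‖r i - 1‖) - 1 := by
  induction n with
  | zero => simp
  | succ n ih =>
    rw [Finset.prod_range_succ, Finset.prod_range_succ]
    have e1 : (∏ i ∈ Finset.range n, r i) * r n - 1 =
        (∏ i ∈ Finset.range n, r i - 1) * (r n - 1) + (∏ i ∈ Finset.range n, r i - 1) +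
          (r n - 1) := by ring
    rw [e1]
    refine (norm_add₃_le).trans ?_
    rw [norm_mul]
    have h1 := norm_nonneg (r n - 1)
    have h2 := norm_nonneg (∏ i ∈ Finset.range n, r i - 1)
    nlinarith

/-- The product over the top blocks. -/
lemma top_prod {c C ε : ℝ} (hc0 : 0 ≤ c) (hc1 : c ≤ 1) (hC : 1 ≤ C) (hε : 0 ≤ ε) (n : ℕ)
    (a : ℕ → ℝ) (b : ℕ → ℂ) (y : ℕ → ℝ) (hy : ∀ i, 0 ≤ y i) (ha : ∀ i, C⁻¹ ≤ a i)
    (hb : ∀ i ∈ Finset.range n, ‖b i - (a i : ℂ)‖ ≤ c * (Real.exp (y i) - 1) * a i + ε) :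
    ‖∏ i ∈ Finset.range n, b i - ((∏ i ∈ Finset.range n, a i : ℝ) : ℂ)‖ ≤
      (∏ i ∈ Finset.range n, a i) *
        ((1 + ε * C) ^ n * (1 + c * (Real.exp (∑ i ∈ Finset.range n, y i) - 1)) - 1) := by
  have hC0 : 0 < C := by linarith
  have ha0 : ∀ i, 0 < a i := fun i => lt_of_lt_of_le (by positivity) (ha i)
  have hA0 : 0 < ∏ i ∈ Finset.range n, a i := Finset.prod_pos fun i _ => ha0 i
  have hr : ∀ i ∈ Finset.range n, ‖b i / (a i : ℂ) - 1‖ ≤ c * (Real.exp (y i) - 1) + ε * C := by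
    intro i hi
    have hne : (a i : ℂ) ≠ 0 := by exact_mod_cast (ha0 i).ne'
    have e1 : b i / (a i : ℂ) - 1 = (b i - (a i : ℂ)) / (a i : ℂ) := by
      field_simp
    rw [e1, norm_div, norm_real, Real.norm_eq_abs, abs_of_pos (ha0 i), div_le_iff₀ (ha0 i)]
    refine (hb i hi).trans ?_
    have h1 : 1 ≤ C * a i := by
      have := mul_le_mul_of_nonneg_left (ha i) hC0.le
      rwa [mul_inv_cancel₀ hC0.ne'] at this
    nlinarith [mul_nonneg hε (by linarith : 0 ≤ C * a i - 1)]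
  have e2 : ∏ i ∈ Finset.range n, b i - ((∏ i ∈ Finset.range n, a i : ℝ) : ℂ) =
      ((∏ i ∈ Finset.range n, a i : ℝ) : ℂ) *
        (∏ i ∈ Finset.range n, (b i / (a i : ℂ)) - 1) := by
    have hne : ((∏ i ∈ Finset.range n, a i : ℝ) : ℂ) ≠ 0 := by exact_mod_cast hA0.ne'
    rw [Finset.prod_div_distrib]
    have : ∏ i ∈ Finset.range n, (a i : ℂ) = ((∏ i ∈ Finset.range n, a i : ℝ) : ℂ) := by
      push_cast; rfl
    rw [this]
    field_simp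
  rw [e2, norm_mul, norm_real, Real.norm_eq_abs, abs_of_pos hA0]
  apply mul_le_mul_of_nonneg_left _ hA0.le
  refine (norm_prod_sub_one_le _ n).trans ?_
  apply sub_le_sub_right
  calc ∏ i ∈ Finset.range n, (1 + ‖b i / (a i : ℂ) - 1‖)
      ≤ ∏ i ∈ Finset.range n, ((1 + ε * C) * (1 + c * (Real.exp (y i) - 1))) := by
        apply Finset.prod_le_prod
        · intro i _; positivity
        · intro i hi
          have h1 := hr i hi
          have h2 : 0 ≤ Real.exp (y i) - 1 := by linarith [Real.one_le_exp (hy i)]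
          have h3 : 0 ≤ ε * C * (c * (Real.exp (y i) - 1)) := by positivity
          nlinarith
    _ = (1 + ε * C) ^ n * ∏ i ∈ Finset.range n, (1 + c * (Real.exp (y i) - 1)) := by
        rw [Finset.prod_mul_distrib, Finset.prod_const, Finset.card_range]
    _ ≤ (1 + ε * C) ^ n * (1 + c * (Real.exp (∑ i ∈ Finset.range n, y i) - 1)) := by
        apply mul_le_mul_of_nonneg_left (prod_exp_le hc0 hc1 y hy n)
        positivity

/-- Choice of `ε`. -/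
lemma exists_eps (C : ℝ) (n : ℕ) (η : ℝ) (hη : 0 < η) :
    ∃ ε : ℝ, 0 < ε ∧ (1 + ε * C) ^ n ≤ 1 + η := by
  have h1 : Tendsto (fun ε : ℝ => (1 + ε * C) ^ n) (𝓝 0) (𝓝 ((1 + 0 * C) ^ n)) := by
    have : Continuous fun ε : ℝ => (1 + ε * C) ^ n := by fun_prop
    exact this.tendsto 0
  rw [zero_mul, add_zero, one_pow] at h1
  have h2 := h1.eventually (eventually_le_nhds (show (1 : ℝ) < 1 + η by linarith))
  have h3 : ∀ᶠ ε : ℝ in 𝓝[>] 0, (1 + ε * C) ^ n ≤ 1 + η := h2.filter_mono nhdsWithin_le_nhds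
  obtain ⟨ε, h4, h5⟩ := (h3.and self_mem_nhdsWithin).exists
  exact ⟨ε, h5, h4⟩

/-- The final arithmetic. -/
lemma final {P Q : ℂ} {D A c η η₁ η₂ s : ℝ} (hD : 0 ≤ D) (hA : 0 ≤ A) (hc1 : c ≤ 1)
    (hη1 : 0 ≤ η₁) (hη2 : 0 ≤ η₂) (hη21 : η₂ ≤ 1) (hη : 2 * η₁ + η₂ ≤ η) (hs : 1 ≤ s)
    (hP : ‖P - (D : ℂ)‖ ≤ η₁ * D)
    (hQ : ‖Q - (A : ℂ)‖ ≤ A * ((1 + η₂) * (1 + c * (s - 1)) - 1)) :
    ‖P * Q - ((D * A : ℝ) : ℂ)‖ ≤ D * A * (c * (s - 1) + η * s) := by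
  have h1 : (1 + η₂) * (1 + c * (s - 1)) - 1 ≤ c * (s - 1) + η₂ * s := by
    have : 1 + c * (s - 1) ≤ s := by nlinarith
    nlinarith
  have h2 : ‖Q‖ ≤ A * (2 * s) := by
    have e1 : Q = (Q - (A : ℂ)) + (A : ℂ) := by ring
    have h3 : ‖Q‖ ≤ ‖Q - (A : ℂ)‖ + A := by
      calc ‖Q‖ = ‖(Q - (A : ℂ)) + (A : ℂ)‖ := by rw [← e1]
        _ ≤ ‖Q - (A : ℂ)‖ + ‖(A : ℂ)‖ := norm_add_le _ _
        _ = _ := by rw [norm_real, Real.norm_eq_abs, abs_of_nonneg hA]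
    have h4 : (1 + η₂) * (1 + c * (s - 1)) ≤ 2 * s := by
      have h5 : 1 + c * (s - 1) ≤ s := by nlinarith
      calc (1 + η₂) * (1 + c * (s - 1)) ≤ (1 + η₂) * s := by gcongr
        _ ≤ 2 * s := by gcongr; linarith
    calc ‖Q‖ ≤ A * ((1 + η₂) * (1 + c * (s - 1)) - 1) + A := by linarith
      _ = A * ((1 + η₂) * (1 + c * (s - 1))) := by ring
      _ ≤ A * (2 * s) := by gcongr
  have e2 : P * Q - ((D * A : ℝ) : ℂ) = (P - (D : ℂ)) * Q + (D : ℂ) * (Q - (A : ℂ)) := by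
    push_cast; ring
  rw [e2]
  refine (norm_add_le _ _).trans ?_
  rw [norm_mul, norm_mul, norm_real, Real.norm_eq_abs, abs_of_nonneg hD]
  calc ‖P - (D : ℂ)‖ * ‖Q‖ + D * ‖Q - (A : ℂ)‖
      ≤ (η₁ * D) * (A * (2 * s)) + D * (A * (c * (s - 1) + η₂ * s)) := by
        apply add_le_add
        · exact mul_le_mul hP h2 (norm_nonneg _) (by positivity)
        · apply mul_le_mul_of_nonneg_left _ hD
          exact hQ.trans (mul_le_mul_of_nonneg_left h1 hA)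
    _ = D * A * (c * (s - 1) + (2 * η₁ + η₂) * s) := by ring
    _ ≤ D * A * (c * (s - 1) + η * s) := by gcongr

end Cmp4M

open Cmp4M

/-- (R11) comparison of the twisted and the untwisted model -/
theorem stCmp4 (h2 : StOne4) (h3 : StFact4) (h6 : StBot4) (h9 : StTop4) (hE : StPhiE)
    (hr : K5.StRho) : StCmp4 := by
  intro κ hκ0 hκ1 η hη
  obtain ⟨M₁, hM₁⟩ := h6 κ hκ0 hκ1 (η / 4) (by positivity)
  obtain ⟨-, -, -, C, hC1, hC, -, -⟩ := hr κ hκ0 hκ1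
  refine ⟨max 7 M₁, le_max_left _ _, fun M hM => ?_⟩
  have hM7 : 7 ≤ M := (le_max_left _ _).trans hM
  obtain ⟨T₁, hT₁3, hT₁⟩ := hM₁ M ((le_max_right _ _).trans hM)
  obtain ⟨T₂, hT₂3, hT₂⟩ := h3 κ M hM7
  obtain ⟨ε, hε0, hε⟩ := exists_eps C (M - 6) (min (η / 2) 1) (by positivity)
  have hU : (0 : ℝ) < Real.exp (M / 2) := Real.exp_pos _
  have ev1 : ∀ᶠ T : ℝ in atTop, ∀ i ∈ Finset.range (M - 6), ∀ u₁ u₂ u₃ u₄ : ℂ,
      ‖u₁‖ ≤ Real.exp (M / 2) → ‖u₂‖ ≤ Real.exp (M / 2) → ‖u₃‖ ≤ Real.exp (M / 2) →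
      ‖u₄‖ ≤ Real.exp (M / 2) →
      ‖ET4 κ T (u₁ / Real.log T) (u₂ / Real.log T) (u₃ / Real.log T) (u₄ / Real.log T) i -
      PhF κ i (1 / 2 * (vv (tq (i + 1)) (tq i) u₁ + vv (tq (i + 1)) (tq i) u₂ +
        vv (tq (i + 1)) (tq i) u₃ + vv (tq (i + 1)) (tq i) u₄) - ((Vv i : ℝ) : ℂ))‖ ≤ ε := by
    rw [Filter.eventually_all_finset]
    intro i _
    obtain ⟨T₀, -, hT₀⟩ := h9 κ hκ0 hκ1 i (Real.exp (M / 2)) ε hU hε0
    filter_upwards [eventually_ge_atTop T₀] with T hT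
    exact hT₀ T hT
  have ev2 : ∀ᶠ T : ℝ in atTop, 100 * Real.exp (M / 2) ≤ Real.log T :=
    Real.tendsto_log_atTop.eventually_ge_atTop _
  obtain ⟨T₃, hT₃⟩ := eventually_atTop.mp (ev1.and ev2)
  refine ⟨max T₁ (max T₂ T₃), hT₁3.trans (le_max_left _ _), fun T hT u₁ u₂ u₃ u₄ k1 k2 k3 k4 => ?_⟩
  have hTT1 : T₁ ≤ T := (le_max_left _ _).trans hT
  have hTT2 : T₂ ≤ T := ((le_max_left _ _).trans (le_max_right _ _)).trans hT
  have hTT3 : T₃ ≤ T := ((le_max_right _ _).trans (le_max_right _ _)).trans hT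
  have hT3 : 3 ≤ T := hT₁3.trans hTT1
  obtain ⟨q1, q2⟩ := hT₃ T hTT3
  have hL : 0 < Real.log T := by linarith
  -- the shifts are small
  have nrm : ∀ u : ℂ, ‖u / (Real.log T : ℂ)‖ = ‖u‖ / Real.log T := by
    intro u
    rw [norm_div, norm_real, Real.norm_eq_abs, abs_of_pos hL]
  have sh : ∀ u : ℂ, ‖u‖ ≤ Real.exp (M / 2) →
      ‖u / (Real.log T : ℂ)‖ ≤ Real.exp (M / 2) / Real.log T := by
    intro u hu
    rw [nrm]; gcongr
  have re : ∀ u : ℂ, ‖u‖ ≤ Real.exp (M / 2) → -(1 / 100) ≤ (u / (Real.log T : ℂ)).re := by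
    intro u hu
    have s1 := sh u hu
    have s2 : Real.exp (M / 2) / Real.log T ≤ 1 / 100 := by
      rw [div_le_iff₀ hL]; linarith
    have s3 := (abs_le.mp (Complex.abs_re_le_norm (u / (Real.log T : ℂ)))).1
    linarith
  have f1 := h2 T M hT3 hM7 _ _ _ _ (re u₁ k1) (re u₂ k2) (re u₃ k3) (re u₄ k4)
  have f2 := hT₂ T hTT2 (Finset.range (JJ T + 1)) ∅ _ _ _ _ (re u₁ k1) (re u₂ k2) (re u₃ k3)
    (re u₄ k4)
  have f3 := hT₁ T hTT1 _ _ _ _ (sh u₁ k1) (sh u₂ k2) (sh u₃ k3) (sh u₄ k4)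
  rw [f1, f2]
  set a₁ : ℂ := u₁ / (Real.log T : ℂ) with ha₁
  set a₂ : ℂ := u₂ / (Real.log T : ℂ) with ha₂
  set a₃ : ℂ := u₃ / (Real.log T : ℂ) with ha₃
  set a₄ : ℂ := u₄ / (Real.log T : ℂ) with ha₄
  have g1 : (u₁ + u₃) / (Real.log T : ℂ) = a₁ + a₃ := by rw [add_div]
  have g2 : (u₁ + u₄) / (Real.log T : ℂ) = a₁ + a₄ := by rw [add_div]
  have g3 : (u₂ + u₃) / (Real.log T : ℂ) = a₂ + a₃ := by rw [add_div]
  have g4 : (u₂ + u₄) / (Real.log T : ℂ) = a₂ + a₄ := by rw [add_div]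
  have g5 : (u₁ + u₂ + u₃ + u₄) / (Real.log T : ℂ) = a₁ + a₂ + a₃ + a₄ := by
    rw [add_div, add_div, add_div]
  rw [g1, g2, g3, g4, g5]
  -- the top blocks
  set y : ℕ → ℝ := fun i => ‖vv (tq (i + 1)) (tq i) u₁ - ((Vv i : ℝ) : ℂ)‖ +
    ‖vv (tq (i + 1)) (tq i) u₂ - ((Vv i : ℝ) : ℂ)‖ + ‖vv (tq (i + 1)) (tq i) u₃ - ((Vv i : ℝ) : ℂ)‖ +
    ‖vv (tq (i + 1)) (tq i) u₄ - ((Vv i : ℝ) : ℂ)‖ with hy
  have hy0 : ∀ i, 0 ≤ y i := fun i => by rw [hy]; positivity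
  have hsum : ∑ i ∈ Finset.range (M - 6), y i = om M u₁ + om M u₂ + om M u₃ + om M u₄ := by
    rw [hy]
    simp only [Finset.sum_add_distrib]
    rfl
  have hb : ∀ i ∈ Finset.range (M - 6), ‖ET4 κ T a₁ a₂ a₃ a₄ i - ((aF κ i : ℝ) : ℂ)‖ ≤
      (1 - κ) * (Real.exp (y i) - 1) * aF κ i + ε := by
    intro i hi
    have r1 := q1 i hi u₁ u₂ u₃ u₄ k1 k2 k3 k4
    set δ : ℂ := 1 / 2 * ((vv (tq (i + 1)) (tq i) u₁ - ((Vv i : ℝ) : ℂ)) +
      (vv (tq (i + 1)) (tq i) u₂ - ((Vv i : ℝ) : ℂ)) +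
      (vv (tq (i + 1)) (tq i) u₃ - ((Vv i : ℝ) : ℂ)) +
      (vv (tq (i + 1)) (tq i) u₄ - ((Vv i : ℝ) : ℂ))) with hδ
    have e1 : 1 / 2 * (vv (tq (i + 1)) (tq i) u₁ + vv (tq (i + 1)) (tq i) u₂ +
        vv (tq (i + 1)) (tq i) u₃ + vv (tq (i + 1)) (tq i) u₄) - ((Vv i : ℝ) : ℂ) =
        ((Vv i : ℝ) : ℂ) + δ := by rw [hδ]; ring
    rw [e1] at r1
    have r2 := hE κ hκ0 hκ1 i δ
    have hδn : 2 * ‖δ‖ ≤ y i := by
      rw [hδ, norm_mul]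
      have h12 : ‖(1 / 2 : ℂ)‖ = 1 / 2 := by norm_num
      rw [h12]
      have := norm_add_le (vv (tq (i + 1)) (tq i) u₁ - ((Vv i : ℝ) : ℂ) +
        (vv (tq (i + 1)) (tq i) u₂ - ((Vv i : ℝ) : ℂ)) +
        (vv (tq (i + 1)) (tq i) u₃ - ((Vv i : ℝ) : ℂ)))
        (vv (tq (i + 1)) (tq i) u₄ - ((Vv i : ℝ) : ℂ))
      have h3 := norm_add₃_le (a := vv (tq (i + 1)) (tq i) u₁ - ((Vv i : ℝ) : ℂ))
        (b := vv (tq (i + 1)) (tq i) u₂ - ((Vv i : ℝ) : ℂ))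
        (c := vv (tq (i + 1)) (tq i) u₃ - ((Vv i : ℝ) : ℂ))
      simp only [hy]
      linarith
    have ha0 : 0 < aF κ i := lt_of_lt_of_le (by positivity) (hC i).1
    have hexp : Real.exp (2 * ‖δ‖) ≤ Real.exp (y i) := Real.exp_le_exp.mpr hδn
    calc ‖ET4 κ T a₁ a₂ a₃ a₄ i - ((aF κ i : ℝ) : ℂ)‖
        = ‖(PhF κ i (((Vv i : ℝ) : ℂ) + δ) - ((aF κ i : ℝ) : ℂ)) +
            (ET4 κ T a₁ a₂ a₃ a₄ i - PhF κ i (((Vv i : ℝ) : ℂ) + δ))‖ := by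
          congr 1; ring
      _ ≤ (1 - κ) * (Real.exp (2 * ‖δ‖) - 1) * aF κ i + ε := (norm_add_le _ _).trans (add_le_add r2 r1)
      _ ≤ (1 - κ) * (Real.exp (y i) - 1) * aF κ i + ε := by
          have : 0 ≤ 1 - κ := by linarith
          gcongr
  have t1 := top_prod (c := 1 - κ) (C := C) (ε := ε) (by linarith) (by linarith) hC1 hε0.le (M - 6)
    (fun i => aF κ i) (fun i => ET4 κ T a₁ a₂ a₃ a₄ i) y hy0 (fun i => (hC i).1) hb
  rw [hsum] at t1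
  set s : ℝ := Real.exp (om M u₁ + om M u₂ + om M u₃ + om M u₄) with hs
  have hs1 : 1 ≤ s := by
    rw [hs, ← hsum]
    exact Real.one_le_exp (Finset.sum_nonneg fun i _ => hy0 i)
  have hA0 : 0 < ∏ i ∈ Finset.range (M - 6), aF κ i :=
    Finset.prod_pos fun i _ => lt_of_lt_of_le (by positivity) (hC i).1
  have hD0 : 0 ≤ D4 κ T M := by
    have := (norm_nonneg _).trans f3
    exact nonneg_of_mul_nonneg_right this (by positivity)
  have hm0 : 0 ≤ min (η / 2) 1 := by positivity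
  have t2 : ‖∏ i ∈ Finset.range (M - 6), ET4 κ T a₁ a₂ a₃ a₄ i -
      ((∏ i ∈ Finset.range (M - 6), aF κ i : ℝ) : ℂ)‖ ≤
      (∏ i ∈ Finset.range (M - 6), aF κ i) *
        ((1 + min (η / 2) 1) * (1 + (1 - κ) * (s - 1)) - 1) := by
    refine t1.trans ?_
    apply mul_le_mul_of_nonneg_left _ hA0.le
    apply sub_le_sub_right
    apply mul_le_mul_of_nonneg_right hε
    have : 0 ≤ (1 - κ) * (s - 1) := mul_nonneg (by linarith) (by linarith)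
    linarith
  have t3 := final hD0 hA0.le (by linarith : 1 - κ ≤ 1) (by positivity : 0 ≤ η / 4) hm0
    (min_le_right _ _) (show 2 * (η / 4) + min (η / 2) 1 ≤ η by
      have := min_le_left (η / 2) 1; linarith) hs1 f3 t2
  set Pr : ℂ := ∏ j ∈ Finset.range (JJ T + 1),
    EB4 κ T M (Finset.range (JJ T + 1)) ∅ a₁ a₂ a₃ a₄ j with hPr
  set Qr : ℂ := ∏ i ∈ Finset.range (M - 6), ET4 κ T a₁ a₂ a₃ a₄ i with hQr
  have hBF : BF κ T M = D4 κ T M * ∏ i ∈ Finset.range (M - 6), aF κ i := rfl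
  rw [hBF]
  have e5 : K3.EP T (a₁ + a₃) * K3.EP T (a₁ + a₄) * K3.EP T (a₂ + a₃) * K3.EP T (a₂ + a₄) *
      ZT T (a₁ + a₂ + a₃ + a₄) * (Pr * Qr) -
      ((D4 κ T M * ∏ i ∈ Finset.range (M - 6), aF κ i : ℝ) : ℂ) *
        (K3.EP T (a₁ + a₃) * K3.EP T (a₁ + a₄) * K3.EP T (a₂ + a₃) * K3.EP T (a₂ + a₄) *
          ZT T (a₁ + a₂ + a₃ + a₄)) =
      (Pr * Qr - ((D4 κ T M * ∏ i ∈ Finset.range (M - 6), aF κ i : ℝ) : ℂ)) *
      (K3.EP T (a₁ + a₃) * K3.EP T (a₁ + a₄) * K3.EP T (a₂ + a₃) * K3.EP T (a₂ + a₄) *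
          ZT T (a₁ + a₂ + a₃ + a₄)) := by ring
  rw [e5, norm_mul]
  have e6 : ‖K3.EP T (a₁ + a₃) * K3.EP T (a₁ + a₄) * K3.EP T (a₂ + a₃) * K3.EP T (a₂ + a₄) *
      ZT T (a₁ + a₂ + a₃ + a₄)‖ = (‖K3.EP T (a₁ + a₃)‖ * ‖K3.EP T (a₁ + a₄)‖ *
        ‖K3.EP T (a₂ + a₃)‖ * ‖K3.EP T (a₂ + a₄)‖) * ‖ZT T (a₁ + a₂ + a₃ + a₄)‖ := by
    simp only [norm_mul]
  rw [e6, ← mul_assoc]
  gcongr

end K7
end Pool.Agent.Lib.MP_973905_nt
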