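import Pool.Agent.Lib.MP_973905_nt.K7.Stmts
import Pool.Agent.Lib.MP_973905_nt.K4.CoG

/-! (G1) coefficients of the smooth polynomial times `d^{-s}`. -/

namespace Pool.Agent.Lib.MP_973905_nt
namespace K7

open MeasureTheory ProbabilityTheory Complex Filter Topology K1 K4 K5

namespace CoP

open K4.CoG (qc_norm qc_zero two_mul_rpow' bdd)

/-- Sum over the multiples of `d`. -/
theorem red {M : Type} [AddCommMonoid M] (N Y Z d : ℕ) (F : ℕ → M) (hd : 1 ≤ d) (hYZ : Y ≤ Z)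
    (hN : Y * d ≤ N) (hF : ∀ m, Y < m → F m = 0) :
    ∑ n ∈ Finset.Icc 1 N, (if d ∣ n then F (n / d) else 0) = ∑ m ∈ Finset.Icc 1 Z, F m := by
  have h1 : ∑ m ∈ Finset.Icc 1 Z, F m = ∑ m ∈ Finset.Icc 1 Y, F m := by
    symm
    refine Finset.sum_subset (Finset.Icc_subset_Icc_right hYZ) fun m hm hm2 => ?_
    rw [Finset.mem_Icc] at hm hm2
    exact hF m (by omega)
  rw [h1, ← Finset.sum_filter]
  symm
  refine Finset.sum_bij_ne_zero (fun m _ _ => m * d) ?_ ?_ ?_ ?_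
  · intro m hm _
    rw [Finset.mem_Icc] at hm
    rw [Finset.mem_filter, Finset.mem_Icc]
    refine ⟨⟨Nat.mul_pos (by omega) hd, le_trans (Nat.mul_le_mul_right d hm.2) hN⟩,
      dvd_mul_left d m⟩
  · intro m _ _ m' _ _ h
    exact Nat.eq_of_mul_eq_mul_right (by omega) h
  · intro n hn hn0
    rw [Finset.mem_filter, Finset.mem_Icc] at hn
    obtain ⟨⟨h2, h3⟩, m, rfl⟩ := hn
    rw [Nat.mul_div_cancel_left _ (by omega)] at hn0
    refine ⟨m, ?_, hn0, by rw [mul_comm]⟩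
    rw [Finset.mem_Icc]
    refine ⟨?_, ?_⟩
    · rcases Nat.eq_zero_or_pos m with h | h
      · rw [h, mul_zero] at h2; omega
      · exact h
    · by_contra hc
      exact hn0 (hF m (by omega))
  · intro m _ _
    rw [Nat.mul_div_cancel _ (by omega)]

variable {φ : ℝ → ℝ}

/-- Weighted sums of the coefficients. -/
theorem wsum (T ν : ℝ) (d Y : ℕ) (hd : 1 ≤ d) (hN : Y * d ≤ Np T)
    (h0 : ∀ m, Y < m → qg φ T ν m = 0) (r : ℕ) (hr : r ≠ 0) (α : ℝ) (hα : 0 ≤ α) {K : ℝ}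
    (hK : ∀ m, 1 ≤ m → ‖qg φ T ν m‖ ≤ K) :
    ∑ n ∈ Finset.Icc 1 (Np T), ‖sg φ T ν d n‖ ^ r * (n : ℝ) ^ (-α) ≤
      K ^ r * ∑ m ∈ Finset.Icc 1 Y, (m : ℝ) ^ (-α) := by
  have h1 := red (Np T) Y Y d (fun m => ‖qg φ T ν m‖ ^ r * ((m * d : ℕ) : ℝ) ^ (-α)) hd le_rfl hN
    (fun m hm => by rw [h0 m hm, norm_zero, zero_pow hr, zero_mul])
  have h2 : ∑ n ∈ Finset.Icc 1 (Np T), ‖sg φ T ν d n‖ ^ r * (n : ℝ) ^ (-α) =
      ∑ n ∈ Finset.Icc 1 (Np T), (if d ∣ n then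
        ‖qg φ T ν (n / d)‖ ^ r * ((n / d * d : ℕ) : ℝ) ^ (-α) else 0) := by
    refine Finset.sum_congr rfl fun n _ => ?_
    unfold sg
    by_cases h : d ∣ n
    · rw [if_pos h, if_pos h, Nat.div_mul_cancel h]
    · rw [if_neg h, if_neg h, norm_zero, zero_pow hr, zero_mul]
  rw [h2, h1, Finset.mul_sum]
  refine Finset.sum_le_sum fun m hm => ?_
  rw [Finset.mem_Icc] at hm
  have h3 : (0 : ℝ) < m := by exact_mod_cast hm.1
  have h4 : ((m * d : ℕ) : ℝ) ^ (-α) ≤ (m : ℝ) ^ (-α) := by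
    apply Real.rpow_le_rpow_of_nonpos h3
    · have : m * 1 ≤ m * d := Nat.mul_le_mul_left m hd
      rw [mul_one] at this
      exact_mod_cast this
    · linarith
  have h5 : ‖qg φ T ν m‖ ^ r ≤ K ^ r := pow_le_pow_left₀ (norm_nonneg _) (hK m hm.1) r
  exact mul_le_mul h5 h4 (by positivity) (le_trans (by positivity) h5)

end CoP

open CoP K4.CoG F4.Co in
theorem stCoP : StCoP := by
  intro φ hφ
  obtain ⟨K, hK1, hK⟩ := bdd hφ
  have hK2 : 1 ≤ K ^ 2 := one_le_pow₀ hK1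
  have hT3' : (3 : ℝ) ≤ (2001 * K ^ 2) ^ (2000 : ℕ) := by
    calc (3 : ℝ) ≤ 2001 ^ 1 := by norm_num
      _ ≤ 2001 ^ 2000 := pow_le_pow_right₀ (by norm_num) (by norm_num)
      _ ≤ (2001 * K ^ 2) ^ 2000 := pow_le_pow_left₀ (by norm_num) (by linarith) _
  refine ⟨(2001 * K ^ 2) ^ (2000 : ℕ), hT3', ?_⟩
  intro T hT ν d hd hdT
  have hT3 : 3 ≤ T := hT3'.trans hT
  have hT1 : 1 ≤ T := le_trans (by norm_num) hT3
  have hT0 : 0 < T := lt_of_lt_of_le one_pos hT1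
  have hTK : (2 * K) ^ (2000 : ℕ) ≤ T := by
    refine le_trans (pow_le_pow_left₀ (by positivity) ?_ _) hT
    nlinarith
  set Y := ⌊T ^ (501 / 1000 : ℝ)⌋₊ with hY
  have hYr : (Y : ℝ) ≤ T ^ (501 / 1000 : ℝ) := Nat.floor_le (by positivity)
  have hYT : Y ≤ ⌊T⌋₊ := by
    apply Nat.floor_le_floor
    calc T ^ (501 / 1000 : ℝ) ≤ T ^ (1 : ℝ) :=
          Real.rpow_le_rpow_of_exponent_le hT1 (by norm_num)
      _ = T := Real.rpow_one T
  have hprod : T ^ (501 / 1000 : ℝ) * T ^ (1 / 60 : ℝ) ≤ T ^ (518 / 1000 : ℝ) := by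
    rw [← Real.rpow_add hT0]
    exact Real.rpow_le_rpow_of_exponent_le hT1 (by norm_num)
  have hYd : (Y : ℝ) * d ≤ T ^ (518 / 1000 : ℝ) :=
    (mul_le_mul hYr hdT (by positivity) (by positivity)).trans hprod
  have hN : Y * d ≤ Np T := by
    apply Nat.le_floor
    push_cast
    exact hYd.trans (Real.rpow_le_rpow_of_exponent_le hT1 (by norm_num))
  have h0 : ∀ m, Y < m → qg φ T ν m = 0 := fun m hm => qc_zero hφ T ν hT3 m hm
  have hKq : ∀ m, 1 ≤ m → ‖qg φ T ν m‖ ≤ K := fun m hm => qc_norm hK1 hK T ν hT3 m hm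
  refine ⟨?_, ?_, ?_, ?_, ?_, ?_⟩
  · intro n hn
    unfold sg
    by_cases h : d ∣ n
    · rw [if_pos h]
      apply h0
      by_contra hc
      have h1 : (n : ℝ) ≤ Y * d := by
        have : n / d * d ≤ Y * d := Nat.mul_le_mul_right d (not_lt.1 hc)
        rw [Nat.div_mul_cancel h] at this
        exact_mod_cast this
      linarith
    · rw [if_neg h]
  · have h := wsum T ν d Y hd hN h0 1 one_ne_zero 0 le_rfl hKq
    simp only [neg_zero, Real.rpow_zero, mul_one, pow_one, Finset.sum_const, Nat.card_Icc,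
      Nat.add_sub_cancel, nsmul_eq_mul] at h
    refine le_trans h ?_
    calc K * (Y : ℝ) ≤ K * T ^ (501 / 1000 : ℝ) := by gcongr
      _ ≤ 2 * K * T ^ (501 / 1000 : ℝ) := by
          have : 0 ≤ K * T ^ (501 / 1000 : ℝ) := by positivity
          linarith
      _ ≤ T ^ (502 / 1000 : ℝ) := two_mul_rpow' K T _ _ hK1 hTK (by norm_num)
  · have h := wsum T ν d Y hd hN h0 1 one_ne_zero (1 / 2) (by norm_num) hKq
    simp only [pow_one] at h
    refine le_trans h ?_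
    have h2 := sum_pow (1 / 2) (by norm_num) le_rfl Y
    have h3 : (Y : ℝ) ^ (1 - 1 / 2 : ℝ) ≤ T ^ (501 / 2000 : ℝ) := by
      calc (Y : ℝ) ^ (1 - 1 / 2 : ℝ) ≤ (T ^ (501 / 1000 : ℝ)) ^ (1 - 1 / 2 : ℝ) :=
            Real.rpow_le_rpow (by positivity) hYr (by norm_num)
        _ = T ^ (501 / 2000 : ℝ) := by
            rw [← Real.rpow_mul hT0.le]
            norm_num
    calc K * ∑ n ∈ Finset.Icc 1 Y, (n : ℝ) ^ (-(1 / 2) : ℝ)
        ≤ K * (2 * T ^ (501 / 2000 : ℝ)) := by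
          apply mul_le_mul_of_nonneg_left _ (by linarith)
          linarith
      _ = 2 * K * T ^ (501 / 2000 : ℝ) := by ring
      _ ≤ T ^ (252 / 1000 : ℝ) := two_mul_rpow' K T _ _ hK1 hTK (by norm_num)
  · have h := wsum T ν d Y hd hN h0 1 one_ne_zero (7 / 16) (by norm_num) hKq
    simp only [pow_one] at h
    refine le_trans h ?_
    have h2 := sum_pow (7 / 16) (by norm_num) (by norm_num) Y
    have h3 : (Y : ℝ) ^ (1 - 7 / 16 : ℝ) ≤ T ^ (501 / 1000 * (9 / 16) : ℝ) := by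
      calc (Y : ℝ) ^ (1 - 7 / 16 : ℝ) ≤ (T ^ (501 / 1000 : ℝ)) ^ (1 - 7 / 16 : ℝ) :=
            Real.rpow_le_rpow (by positivity) hYr (by norm_num)
        _ = T ^ (501 / 1000 * (9 / 16) : ℝ) := by
            rw [← Real.rpow_mul hT0.le]
            norm_num
    calc K * ∑ n ∈ Finset.Icc 1 Y, (n : ℝ) ^ (-(7 / 16) : ℝ)
        ≤ K * (2 * T ^ (501 / 1000 * (9 / 16) : ℝ)) := by
          apply mul_le_mul_of_nonneg_left _ (by linarith)
          linarith
      _ = 2 * K * T ^ (501 / 1000 * (9 / 16) : ℝ) := by ring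
      _ ≤ T ^ (284 / 1000 : ℝ) := two_mul_rpow' K T _ _ hK1 hTK (by norm_num)
  · have h := wsum T ν d Y hd hN h0 2 two_ne_zero 1 (by norm_num) hKq
    simp only [Real.rpow_neg_one] at h
    refine le_trans h ?_
    have h2 : ∑ m ∈ Finset.Icc 1 Y, (m : ℝ)⁻¹ ≤ 1 + Real.log T := by
      have h3 := harmonic_le_one_add_log Y
      rw [harmonic_eq_sum_Icc] at h3
      push_cast at h3
      refine h3.trans ?_
      rcases Nat.eq_zero_or_pos Y with hY0 | hY0
      · rw [hY0, Nat.cast_zero, Real.log_zero]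
        have := Real.log_nonneg hT1
        linarith
      · have h4 : (Y : ℝ) ≤ T := hYr.trans (by
          calc T ^ (501 / 1000 : ℝ) ≤ T ^ (1 : ℝ) :=
                Real.rpow_le_rpow_of_exponent_le hT1 (by norm_num)
            _ = T := Real.rpow_one T)
        have := Real.log_le_log (by exact_mod_cast hY0) h4
        linarith
    have h5 : Real.log T ≤ 2000 * T ^ (1 / 2000 : ℝ) := by
      have := Real.log_le_rpow_div hT0.le (by norm_num : (0 : ℝ) < 1 / 2000)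
      refine this.trans (le_of_eq ?_)
      ring
    have h6 : 1 ≤ T ^ (1 / 2000 : ℝ) := Real.one_le_rpow hT1 (by norm_num)
    have h7 : 2001 * K ^ 2 ≤ T ^ (1 / 2000 : ℝ) := by
      have := Real.rpow_le_rpow (by positivity) hT (by norm_num : (0 : ℝ) ≤ 1 / 2000)
      refine le_trans (le_of_eq ?_) this
      have hR : (0 : ℝ) ≤ 2001 * K ^ 2 := by positivity
      generalize 2001 * K ^ 2 = R at hR
      rw [← Real.rpow_natCast, ← Real.rpow_mul hR]
      norm_num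
    calc K ^ 2 * ∑ m ∈ Finset.Icc 1 Y, (m : ℝ)⁻¹ ≤ K ^ 2 * (1 + Real.log T) := by gcongr
      _ ≤ K ^ 2 * (2001 * T ^ (1 / 2000 : ℝ)) := by
          apply mul_le_mul_of_nonneg_left _ (by positivity)
          linarith
      _ = (2001 * K ^ 2) * T ^ (1 / 2000 : ℝ) := by ring
      _ ≤ T ^ (1 / 2000 : ℝ) * T ^ (1 / 2000 : ℝ) := by gcongr
      _ = T ^ (1 / 1000 : ℝ) := by
          rw [← Real.rpow_add hT0]
          norm_num
  · intro Φ
    have h1 := red (Np T) Y ⌊T⌋₊ d (fun m => qg φ T ν m * Φ (m * d)) hd hYT hN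
      (fun m hm => by rw [h0 m hm, zero_mul])
    rw [← h1]
    refine Finset.sum_congr rfl fun n _ => ?_
    unfold sg
    by_cases h : d ∣ n
    · rw [if_pos h, if_pos h, Nat.div_mul_cancel h]
    · rw [if_neg h, if_neg h, zero_mul]

end K7
end Pool.Agent.Lib.MP_973905_nt
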