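import Pool.Agent.Lib.MP_973905_nt.K7.Stmts

/-! (R12a) the Euler product to the right of `1`. -/

namespace Pool.Agent.Lib.MP_973905_nt
namespace K7
namespace EPx

open MeasureTheory ProbabilityTheory Complex Filter Topology K1 K4 K5

/-! ### The product against zeta -/

theorem norm_term (p : ℕ) (hp : 0 < p) (a : ℂ) :
    ‖(p : ℂ) ^ (-(1 + a))‖ = (p : ℝ) ^ (-(1 + a.re)) := by
  rw [Complex.norm_natCast_cpow_of_pos hp]
  simp

theorem mem_PS {y x : ℝ} {p : ℕ} : p ∈ PS y x ↔ (⌊y⌋₊ < p ∧ p ≤ ⌊x⌋₊) ∧ p.Prime := by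
  unfold PS
  rw [Finset.mem_filter, Finset.mem_Ioc]

theorem one_sub_ne {p : ℕ} (hp : p.Prime) {a : ℂ} (ha : 0 < a.re) :
    (1 - (p : ℂ) ^ (-(1 + a))) ≠ 0 := by
  intro h
  have h1 : (p : ℂ) ^ (-(1 + a)) = 1 := by
    rw [sub_eq_zero] at h; exact h.symm
  have h2 := norm_term p hp.pos a
  rw [h1, norm_one] at h2
  have h3 : (p : ℝ) ^ (-(1 + a.re)) < 1 :=
    Real.rpow_lt_one_of_one_lt_of_neg (by exact_mod_cast hp.one_lt) (by linarith)
  linarith

theorem prod_tail_le (S : Finset ℕ) (hS : ∀ p ∈ S, 0 < p) (a : ℂ) :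
    ‖∏ p ∈ S, (1 - (p : ℂ) ^ (-(1 + a)))‖ ≤
      Real.exp (∑ p ∈ S, (p : ℝ) ^ (-(1 + a.re))) := by
  rw [norm_prod, Real.exp_sum]
  apply Finset.prod_le_prod
  · intro p _; exact norm_nonneg _
  · intro p hp
    calc ‖1 - (p : ℂ) ^ (-(1 + a))‖ ≤ ‖(1 : ℂ)‖ + ‖(p : ℂ) ^ (-(1 + a))‖ := norm_sub_le _ _
      _ = (p : ℝ) ^ (-(1 + a.re)) + 1 := by rw [norm_one, norm_term p (hS p hp)]; ring
      _ ≤ _ := Real.add_one_le_exp _

theorem EP_le (T : ℝ) (a : ℂ) (ha : 0 < a.re) (B : ℝ)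
    (hB : ∀ N : ℕ, ∑ p ∈ PS T N, (p : ℝ) ^ (-(1 + a.re)) ≤ B) :
    ‖K3.EP T a‖ ≤ ‖riemannZeta (1 + a)‖ * Real.exp B := by
  have h1 := riemannZeta_eulerProduct (s := 1 + a) (by simpa using ha)
  have h2 : Tendsto (fun n : ℕ => ‖∏ p ∈ Nat.primesBelow n, (1 - (p : ℂ) ^ (-(1 + a)))⁻¹‖ *
      Real.exp B) atTop (𝓝 (‖riemannZeta (1 + a)‖ * Real.exp B)) :=
    (h1.norm).mul_const _
  refine ge_of_tendsto h2 ?_
  filter_upwards [eventually_gt_atTop ⌊T⌋₊] with n hn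
  have e1 : Nat.primesBelow n = PS 0 T ∪ PS T ((n - 1 : ℕ) : ℝ) := by
    ext p
    rw [Nat.mem_primesBelow, Finset.mem_union, mem_PS, mem_PS, Nat.floor_zero, Nat.floor_natCast]
    constructor
    · rintro ⟨h3, h4⟩
      have := h4.pos
      by_cases h5 : p ≤ ⌊T⌋₊
      · exact Or.inl ⟨⟨by omega, h5⟩, h4⟩
      · exact Or.inr ⟨⟨by omega, by omega⟩, h4⟩
    · rintro (⟨⟨h3, h4⟩, h5⟩ | ⟨⟨h3, h4⟩, h5⟩)
      · exact ⟨by omega, h5⟩
      · exact ⟨by omega, h5⟩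
  have hd : Disjoint (PS 0 T) (PS T ((n - 1 : ℕ) : ℝ)) := by
    rw [Finset.disjoint_left]
    intro p h3 h4
    rw [mem_PS] at h3 h4
    omega
  rw [e1, Finset.prod_union hd]
  have e2 : K3.EP T a = (∏ p ∈ PS 0 T, (1 - (p : ℂ) ^ (-(1 + a)))⁻¹) := rfl
  rw [e2]
  set A := ∏ p ∈ PS 0 T, (1 - (p : ℂ) ^ (-(1 + a)))⁻¹ with hA
  set S := PS T ((n - 1 : ℕ) : ℝ) with hS
  have h5 : (∏ p ∈ S, (1 - (p : ℂ) ^ (-(1 + a)))⁻¹) * ∏ p ∈ S, (1 - (p : ℂ) ^ (-(1 + a))) = 1 := by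
    rw [← Finset.prod_mul_distrib]
    apply Finset.prod_eq_one
    intro p hp
    exact inv_mul_cancel₀ (one_sub_ne (mem_PS.1 hp).2 ha)
  have h6 := prod_tail_le S (fun p hp => (mem_PS.1 hp).2.pos) a
  have h7 : Real.exp (∑ p ∈ S, (p : ℝ) ^ (-(1 + a.re))) ≤ Real.exp B :=
    Real.exp_le_exp.2 (hB _)
  calc ‖A‖ = ‖A * (∏ p ∈ S, (1 - (p : ℂ) ^ (-(1 + a)))⁻¹)‖ *
        ‖∏ p ∈ S, (1 - (p : ℂ) ^ (-(1 + a)))‖ := by
        rw [← norm_mul, mul_assoc, h5, mul_one]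
    _ ≤ _ := mul_le_mul_of_nonneg_left (h6.trans h7) (norm_nonneg _)

/-! ### The prime sum -/

/-- the weighted sum over the primes in `(e^L, e^{yL}]` -/
noncomputable def P (σ L y : ℝ) : ℝ :=
  ∑ p ∈ PS (Real.exp L) (Real.exp (y * L)), (p : ℝ) ^ (-(1 + σ / L))

/-- the sum over the primes in `(e^L, e^{yL}]` -/
noncomputable def S (L y : ℝ) : ℝ :=
  ∑ p ∈ PS (Real.exp L) (Real.exp (y * L)), 1 / (p : ℝ)

theorem S_le (L y : ℝ) (hL : 1 ≤ L) (hy : 1 ≤ y) : S L y ≤ Real.log y + 10 / L := by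
  have h0 : (2 : ℝ) ≤ Real.exp L := by
    have := Real.add_one_le_exp L
    linarith
  have h := PrimeSum.range_bound (Real.exp L) (Real.exp (y * L)) h0
    (Real.exp_le_exp.2 (by nlinarith))
  rw [Real.log_exp, Real.log_exp, mul_div_assoc, div_self (by linarith), mul_one] at h
  have := (abs_le.1 h).2
  unfold S
  linarith

theorem PS_split (L y z : ℝ) (h1 : 1 ≤ y) (hL : 0 < L) (hyz : y ≤ z) :
    PS (Real.exp L) (Real.exp (z * L)) = PS (Real.exp L) (Real.exp (y * L)) ∪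
      PS (Real.exp (y * L)) (Real.exp (z * L)) ∧
    Disjoint (PS (Real.exp L) (Real.exp (y * L))) (PS (Real.exp (y * L)) (Real.exp (z * L))) := by
  have h2 : ⌊Real.exp L⌋₊ ≤ ⌊Real.exp (y * L)⌋₊ :=
    Nat.floor_le_floor (Real.exp_le_exp.2 (by nlinarith))
  have h3 : ⌊Real.exp (y * L)⌋₊ ≤ ⌊Real.exp (z * L)⌋₊ :=
    Nat.floor_le_floor (Real.exp_le_exp.2 (mul_le_mul_of_nonneg_right hyz hL.le))
  constructor
  · ext p
    rw [Finset.mem_union, mem_PS, mem_PS, mem_PS]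
    constructor
    · rintro ⟨⟨h4, h5⟩, h6⟩
      by_cases h7 : p ≤ ⌊Real.exp (y * L)⌋₊
      · exact Or.inl ⟨⟨h4, h7⟩, h6⟩
      · exact Or.inr ⟨⟨by omega, h5⟩, h6⟩
    · rintro (⟨⟨h4, h5⟩, h6⟩ | ⟨⟨h4, h5⟩, h6⟩)
      · exact ⟨⟨h4, by omega⟩, h6⟩
      · exact ⟨⟨by omega, h5⟩, h6⟩
  · rw [Finset.disjoint_left]
    intro p h4 h5
    rw [mem_PS] at h4 h5
    omega

theorem P_step (σ L y z : ℝ) (hσ : 0 ≤ σ) (h1 : 1 ≤ y) (hL : 0 < L) (hyz : y ≤ z) :
    P σ L z ≤ P σ L y + Real.exp (-(σ * y)) * (S L z - S L y) := by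
  obtain ⟨h2, h3⟩ := PS_split L y z h1 hL hyz
  unfold P S
  rw [h2, Finset.sum_union h3, Finset.sum_union h3, add_sub_cancel_left, Finset.mul_sum]
  refine add_le_add_right (Finset.sum_le_sum fun p hp => ?_) _
  have h4 := mem_PS.1 hp
  have hp0 : (0 : ℝ) < p := by exact_mod_cast h4.2.pos
  have h5 : Real.exp (y * L) < p := (Nat.floor_lt (Real.exp_pos _).le).1 h4.1.1
  have h6 : y * L < Real.log p := (Real.lt_log_iff_exp_lt hp0).2 h5
  rw [neg_add, Real.rpow_add hp0, Real.rpow_neg_one, mul_comm, one_div]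
  apply mul_le_mul_of_nonneg_right _ (by positivity)
  rw [Real.rpow_def_of_pos hp0]
  apply Real.exp_le_exp.2
  have h7 : σ / L * (y * L) ≤ σ / L * Real.log p :=
    mul_le_mul_of_nonneg_left h6.le (by positivity)
  have h8 : σ / L * (y * L) = σ * y := by field_simp
  rw [h8] at h7
  linarith

/-- the limit of the bound -/
noncomputable def G (σ L lam H : ℝ) : ℝ :=
  Real.exp (-σ) * (lam - 1 + 10 / L + Real.exp (-lam) * (1 + H))

theorem log_le (lam y : ℝ) (hy : 0 < y) : Real.log y ≤ lam - 1 + Real.exp (-lam) * y := by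
  have h := Real.log_le_sub_one_of_pos (mul_pos (Real.exp_pos (-lam)) hy)
  rw [Real.log_mul (Real.exp_pos _).ne' hy.ne', Real.log_exp] at h
  linarith

/-- `H = h / (1 - e^{-σ h})` -/
theorem P_ind (σ L lam h H : ℝ) (hσ : 0 ≤ σ) (hL : 1 ≤ L) (hh : 0 < h)
    (hH : H * (1 - Real.exp (-(σ * h))) = h) (J : ℕ) :
    P σ L (1 + J * h) - Real.exp (-(σ * (1 + J * h))) * S L (1 + J * h) ≤
      G σ L lam H - Real.exp (-(σ * (1 + J * h))) *
        (lam - 1 + 10 / L + Real.exp (-lam) * (1 + J * h + H)) := by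
  induction J with
  | zero =>
    have e : P σ L 1 = 0 := by
      unfold P PS
      rw [one_mul, Finset.Ioc_self, Finset.filter_empty, Finset.sum_empty]
    have e2 : S L 1 = 0 := by
      unfold S PS
      rw [one_mul, Finset.Ioc_self, Finset.filter_empty, Finset.sum_empty]
    unfold G
    simp only [Nat.cast_zero, zero_mul, add_zero, mul_one, e, e2, mul_zero, sub_zero]
    linarith
  | succ J ih =>
    set y : ℝ := 1 + J * h with hy
    have hz : 1 + ((J + 1 : ℕ) : ℝ) * h = y + h := by rw [hy]; push_cast; ring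
    rw [hz]
    have hJ : (0 : ℝ) ≤ J := Nat.cast_nonneg J
    have hy1 : 1 ≤ y := by rw [hy]; nlinarith
    have h1 := P_step σ L y (y + h) hσ hy1 (by linarith) (by linarith)
    have h2 := S_le L (y + h) hL (by linarith)
    have h3 := log_le lam (y + h) (by linarith)
    set q : ℝ := Real.exp (-(σ * h)) with hq
    set e : ℝ := Real.exp (-(σ * y)) with he
    have e1 : Real.exp (-(σ * (y + h))) = e * q := by
      rw [he, hq, ← Real.exp_add]
      congr 1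
      ring
    have hq1 : q ≤ 1 := by
      rw [hq]
      apply Real.exp_le_one_iff.2
      nlinarith
    have he0 : 0 < e := Real.exp_pos _
    rw [e1]
    have h4 : e * (1 - q) * S L (y + h) ≤
        e * (1 - q) * (lam - 1 + 10 / L + Real.exp (-lam) * (y + h)) := by
      apply mul_le_mul_of_nonneg_left (by linarith)
      exact mul_nonneg he0.le (by linarith)
    have h5 : G σ L lam H - e * q * (lam - 1 + 10 / L + Real.exp (-lam) * (y + h + H)) =
        (G σ L lam H - e * (lam - 1 + 10 / L + Real.exp (-lam) * (y + H))) +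
        e * (1 - q) * (lam - 1 + 10 / L + Real.exp (-lam) * (y + h)) := by
      have : e * Real.exp (-lam) * (H * (1 - q)) = e * Real.exp (-lam) * h := by rw [hH]
      linear_combination this
    rw [h5]
    have h6 : P σ L (y + h) - e * q * S L (y + h) ≤
        (P σ L y - e * S L y) + e * (1 - q) * S L (y + h) := by
      have : e * (1 - q) * S L (y + h) = e * S L (y + h) - e * q * S L (y + h) := by ring
      rw [this]
      have h7 : e * (S L (y + h) - S L y) = e * S L (y + h) - e * S L y := by ring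
      linarith
    linarith

theorem P_le (σ L lam h H : ℝ) (hσ : 0 ≤ σ) (hL : 1 ≤ L) (hh : 0 < h) (hH0 : 0 ≤ H)
    (hH : H * (1 - Real.exp (-(σ * h))) = h) (J : ℕ) :
    P σ L (1 + J * h) ≤ G σ L lam H := by
  have h1 := P_ind σ L lam h H hσ hL hh hH J
  have hJ : (0 : ℝ) ≤ J := Nat.cast_nonneg J
  have hy1 : 1 ≤ 1 + J * h := by nlinarith
  have h2 := S_le L (1 + J * h) hL hy1
  have h3 := log_le lam (1 + J * h) (by linarith)
  set e : ℝ := Real.exp (-(σ * (1 + J * h))) with he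
  have he0 : 0 < e := Real.exp_pos _
  have h4 : e * S L (1 + J * h) ≤ e * (lam - 1 + 10 / L + Real.exp (-lam) * (1 + J * h + H)) := by
    apply mul_le_mul_of_nonneg_left _ he0.le
    have : 0 ≤ Real.exp (-lam) * H := mul_nonneg (Real.exp_pos _).le hH0
    have e2 : Real.exp (-lam) * (1 + J * h + H) =
      Real.exp (-lam) * (1 + J * h) + Real.exp (-lam) * H := by ring
    rw [e2]
    linarith
  linarith

theorem sum_le (σ lam h H T τ : ℝ) (hσ : 0 ≤ σ) (hT : Real.exp 1 ≤ T) (hτ : σ ≤ τ) (hh : 0 < h)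
    (hH0 : 0 ≤ H) (hH : H * (1 - Real.exp (-(σ * h))) = h) (N : ℕ) :
    ∑ p ∈ PS T N, (p : ℝ) ^ (-(1 + τ / Real.log T)) ≤ G σ (Real.log T) lam H := by
  have hT0 : 0 < T := lt_of_lt_of_le (Real.exp_pos _) hT
  have hL : 1 ≤ Real.log T := (Real.le_log_iff_exp_le hT0).2 hT
  set L : ℝ := Real.log T with hLd
  have eT : T = Real.exp L := (Real.exp_log hT0).symm
  obtain ⟨J, hJ⟩ := exists_nat_gt ((N : ℝ) / (h * L))
  have hJ2 : (N : ℝ) ≤ Real.exp ((1 + J * h) * L) := by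
    have h1 : (N : ℝ) < J * (h * L) := (div_lt_iff₀ (by positivity)).1 hJ
    have h2 := Real.add_one_le_exp ((1 + J * h) * L)
    nlinarith
  refine le_trans ?_ (P_le σ L lam h H hσ hL hh hH0 hH J)
  unfold P
  rw [← eT]
  calc ∑ p ∈ PS T N, (p : ℝ) ^ (-(1 + τ / L))
      ≤ ∑ p ∈ PS T (Real.exp ((1 + J * h) * L)), (p : ℝ) ^ (-(1 + τ / L)) := by
        apply Finset.sum_le_sum_of_subset_of_nonneg
        · intro p hp
          rw [mem_PS] at hp ⊢
          refine ⟨⟨hp.1.1, hp.1.2.trans (Nat.floor_le_floor hJ2)⟩, hp.2⟩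
        · intro p _ _
          positivity
    _ ≤ _ := by
        apply Finset.sum_le_sum
        intro p hp
        have hp1 : (1 : ℝ) ≤ p := by exact_mod_cast (mem_PS.1 hp).2.one_lt.le
        apply Real.rpow_le_rpow_of_exponent_le hp1
        have : σ / L ≤ τ / L := div_le_div_of_nonneg_right hτ (by linarith)
        linarith

/-! ### Numbers -/

theorem exp_neg_le (x : ℝ) (hx : 0 ≤ x) : Real.exp (-x) ≤ 1 - x + x ^ 2 / 2 := by
  have h1 := Real.quadratic_le_exp_of_nonneg hx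
  have h2 : Real.exp (-x) * Real.exp x = 1 := by rw [← Real.exp_add]; simp
  have h3 : 0 < 1 - x + x ^ 2 / 2 := by nlinarith [sq_nonneg (x - 1)]
  have h4 := Real.exp_pos x
  have h5 : 1 ≤ (1 - x + x ^ 2 / 2) * Real.exp x := by
    calc (1 : ℝ) ≤ (1 - x + x ^ 2 / 2) * (1 + x + x ^ 2 / 2) := by nlinarith [sq_nonneg (x ^ 2)]
      _ ≤ _ := mul_le_mul_of_nonneg_left h1 h3.le
  exact le_of_mul_le_mul_right (h2.le.trans h5) h4

/-- the width of the cells -/
noncomputable def hw : ℝ := 1 / 64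

theorem H_le (σ : ℝ) (hσ : 0 < σ) (h1 : σ ≤ 4) :
    0 < 1 - Real.exp (-(σ * hw)) ∧
    hw / (1 - Real.exp (-(σ * hw))) ≤ 1 / (σ * (1 - σ / 128)) := by
  have hx0 : 0 < σ * hw := by unfold hw; positivity
  have h2 := exp_neg_le (σ * hw) hx0.le
  have e : σ * hw - (σ * hw) ^ 2 / 2 = hw * (σ * (1 - σ / 128)) := by unfold hw; ring
  have h4 : 0 < σ * (1 - σ / 128) := mul_pos hσ (by linarith)
  have hh : 0 < hw := by unfold hw; norm_num
  have h5 : 0 < hw * (σ * (1 - σ / 128)) := mul_pos hh h4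
  have h6 : 0 < 1 - Real.exp (-(σ * hw)) := by linarith
  refine ⟨h6, ?_⟩
  rw [div_le_div_iff₀ h6 h4]
  linarith

theorem B_le (σ lam E F b X T τ : ℝ) (hσ : 0 < σ) (hσ4 : σ ≤ 4) (hT : Real.exp 100000 ≤ T)
    (hτ : σ ≤ τ) (hE : Real.exp (-σ) ≤ E) (hF : Real.exp (-lam) ≤ F)
    (hX : 1 / (σ * (1 - σ / 128)) ≤ X)
    (hb : E * (lam - 1 + 1 / 10000 + F * (1 + X)) ≤ b) (hl : 0 ≤ lam - 1 + F * (1 + X)) (N : ℕ) :
    ∑ p ∈ PS T N, (p : ℝ) ^ (-(1 + τ / Real.log T)) ≤ b := by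
  have hT0 : 0 < T := lt_of_lt_of_le (Real.exp_pos _) hT
  have hL : 100000 ≤ Real.log T := (Real.le_log_iff_exp_le hT0).2 hT
  obtain ⟨h1, h2⟩ := H_le σ hσ hσ4
  have hh : 0 < hw := by unfold hw; norm_num
  have hT1 : Real.exp 1 ≤ T := (Real.exp_le_exp.2 (by norm_num)).trans hT
  have hH0 : 0 ≤ hw / (1 - Real.exp (-(σ * hw))) := by positivity
  have h3 := sum_le σ lam hw (hw / (1 - Real.exp (-(σ * hw)))) T τ hσ.le hT1 hτ hh hH0
    (div_mul_cancel₀ _ h1.ne') N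
  refine h3.trans (le_trans ?_ hb)
  unfold G
  set H := hw / (1 - Real.exp (-(σ * hw)))
  have h4 : 10 / Real.log T ≤ 1 / 10000 := by
    rw [div_le_div_iff₀ (by linarith) (by norm_num)]
    linarith
  have h5 : Real.exp (-lam) * (1 + H) ≤ F * (1 + X) := by
    apply mul_le_mul hF (by linarith) (by linarith)
    exact (Real.exp_pos _).le.trans hF
  have hE0 : 0 ≤ E := (Real.exp_pos _).le.trans hE
  calc Real.exp (-σ) * (lam - 1 + 10 / Real.log T + Real.exp (-lam) * (1 + H))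
      ≤ Real.exp (-σ) * (lam - 1 + 1 / 10000 + F * (1 + X)) :=
        mul_le_mul_of_nonneg_left (by linarith) (Real.exp_pos _).le
    _ ≤ E * (lam - 1 + 1 / 10000 + F * (1 + X)) :=
        mul_le_mul_of_nonneg_right hE (by linarith)

theorem exp_half : Real.exp (-(1 / 2)) ≤ 0.60654 := by
  have h := Real.exp_one_gt_d9
  have h1 : Real.exp (-(1 / 2)) * Real.exp (1 / 2) = 1 := by rw [← Real.exp_add]; norm_num
  have h2 : Real.exp (1 / 2) * Real.exp (1 / 2) = Real.exp 1 := by rw [← Real.exp_add]; norm_num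
  have h3 := Real.exp_pos (1 / 2)
  have h4 : 1.64872 ≤ Real.exp (1 / 2) := by nlinarith
  have h5 := Real.exp_pos (-(1 / 2))
  nlinarith

theorem exp_neg_one : Real.exp (-1) ≤ 0.3679 := by
  have h := Real.exp_one_gt_d9
  have h1 : Real.exp (-1) * Real.exp 1 = 1 := by rw [← Real.exp_add]; norm_num
  have h5 := Real.exp_pos (-1)
  nlinarith

theorem exp_three_half : Real.exp (-(3 / 2)) ≤ 0.22315 := by
  have e : Real.exp (-(3 / 2)) = Real.exp (-1) * Real.exp (-(1 / 2)) := by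
    rw [← Real.exp_add]; norm_num
  rw [e]
  have h1 := exp_half
  have h2 := exp_neg_one
  have h3 := Real.exp_pos (-1)
  have h4 := Real.exp_pos (-(1 / 2))
  calc _ ≤ (0.3679 : ℝ) * 0.60654 := mul_le_mul h2 h1 h4.le (by norm_num)
    _ ≤ _ := by norm_num

theorem exp_two : Real.exp (-2) ≤ 0.1354 := by
  have e : Real.exp (-2) = Real.exp (-1) * Real.exp (-1) := by
    rw [← Real.exp_add]; norm_num
  rw [e]
  have h2 := exp_neg_one
  have h3 := Real.exp_pos (-1)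
  calc _ ≤ (0.3679 : ℝ) * 0.3679 := mul_le_mul h2 h2 h3.le (by norm_num)
    _ ≤ _ := by norm_num

theorem exp_four : Real.exp (-4) ≤ 0.01834 := by
  have e : Real.exp (-4) = Real.exp (-2) * Real.exp (-2) := by
    rw [← Real.exp_add]; norm_num
  rw [e]
  have h2 := exp_two
  have h3 := Real.exp_pos (-2)
  calc _ ≤ (0.1354 : ℝ) * 0.1354 := mul_le_mul h2 h2 h3.le (by norm_num)
    _ ≤ _ := by norm_num

theorem exp_le_of (x : ℝ) (hx : 0 ≤ x) (h1 : x ≤ 1) :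
    Real.exp x ≤ 1 + x + x ^ 2 / 2 + x ^ 3 * 2 / 9 := by
  have h := Real.exp_bound' hx h1 (n := 3) (by norm_num)
  refine h.trans (le_of_eq ?_)
  simp only [Finset.sum_range_succ, Finset.sum_range_zero, Nat.factorial]
  push_cast
  ring

theorem bound1 (T τ : ℝ) (hT : Real.exp 100000 ≤ T) (hτ : 3 / 2 ≤ τ) (N : ℕ) :
    ∑ p ∈ PS T N, (p : ℝ) ^ (-(1 + τ / Real.log T)) ≤ 0.116 :=
  B_le (3 / 2) (1 / 2) 0.22315 0.60654 0.116 0.6746 T τ (by norm_num) (by norm_num) hT hτ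
    exp_three_half exp_half (by norm_num) (by norm_num) (by norm_num) N

theorem bound2 (T τ : ℝ) (hT : Real.exp 100000 ≤ T) (hτ : 2 ≤ τ) (N : ℕ) :
    ∑ p ∈ PS T N, (p : ℝ) ^ (-(1 + τ / Real.log T)) ≤ 0.0568 :=
  B_le 2 (1 / 2) 0.1354 0.60654 0.0568 0.508 T τ (by norm_num) (by norm_num) hT hτ
    exp_two exp_half (by norm_num) (by norm_num) (by norm_num) N

theorem bound3 (T τ : ℝ) (hT : Real.exp 100000 ≤ T) (hτ : 4 ≤ τ) (N : ℕ) :
    ∑ p ∈ PS T N, (p : ℝ) ^ (-(1 + τ / Real.log T)) ≤ 0.005 :=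
  B_le 4 0 0.01834 1 0.005 0.2581 T τ (by norm_num) (by norm_num) hT hτ
    exp_four (by simp) (by norm_num) (by norm_num) (by norm_num) N

theorem zeta_near : ∃ δ : ℝ, 0 < δ ∧ ∀ a : ℂ, a ≠ 0 → ‖a‖ < δ →
    ‖riemannZeta (1 + a)‖ ≤ 1.001 / ‖a‖ := by
  have h := riemannZeta_residue_one.norm
  rw [norm_one] at h
  have h1 : ∀ᶠ s in 𝓝[≠] (1 : ℂ), ‖(s - 1) * riemannZeta s‖ < 1.001 :=
    h.eventually_lt_const (by norm_num)
  rw [eventually_nhdsWithin_iff, Metric.eventually_nhds_iff] at h1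
  obtain ⟨δ, hδ, h2⟩ := h1
  refine ⟨δ, hδ, fun a ha0 ha => ?_⟩
  have h3 := h2 (y := 1 + a) (by rw [dist_eq_norm]; simpa using ha) (by simpa using ha0)
  rw [add_sub_cancel_left, norm_mul] at h3
  rw [le_div_iff₀ (norm_pos_iff.2 ha0)]
  linarith

end EPx

open EPx in
theorem stEP7 : StEP7 := by
  intro U hU
  obtain ⟨δ, hδ, hz⟩ := zeta_near
  refine ⟨max (Real.exp 100000) (Real.exp (U / δ + 1)), ?_, ?_⟩
  · have := Real.add_one_le_exp (100000 : ℝ)
    exact le_trans (by linarith) (le_max_left _ _)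
  intro T hT c hc
  have hT1 : Real.exp 100000 ≤ T := (le_max_left _ _).trans hT
  have hT2 : Real.exp (U / δ + 1) ≤ T := (le_max_right _ _).trans hT
  have hT0 : 0 < T := lt_of_lt_of_le (Real.exp_pos _) hT1
  have hL1 : 100000 ≤ Real.log T := (Real.le_log_iff_exp_le hT0).2 hT1
  have hL2 : U / δ + 1 ≤ Real.log T := (Real.le_log_iff_exp_le hT0).2 hT2
  have hL : 0 < Real.log T := by linarith
  have key : ∀ (σ B K : ℝ), 0 < σ → (∀ τ : ℝ, σ ≤ τ → ∀ N : ℕ,
      ∑ p ∈ PS T N, (p : ℝ) ^ (-(1 + τ / Real.log T)) ≤ B) → 1.001 * Real.exp B ≤ K →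
      σ ≤ c.re → ‖K3.EP T (c / Real.log T)‖ ≤ K * (Real.log T / ‖c‖) := by
    intro σ B K hσ hB hK hcσ
    have hre : (c / (Real.log T : ℂ)).re = c.re / Real.log T := by
      rw [Complex.div_ofReal_re]
    have hc0 : c ≠ 0 := by
      intro h; rw [h, Complex.zero_re] at hcσ; linarith
    have hn0 : 0 < ‖c‖ := norm_pos_iff.2 hc0
    have ha0 : c / (Real.log T : ℂ) ≠ 0 := div_ne_zero hc0 (by exact_mod_cast hL.ne')
    have hn : ‖c / (Real.log T : ℂ)‖ = ‖c‖ / Real.log T := by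
      rw [norm_div, Complex.norm_real, Real.norm_eq_abs, abs_of_pos hL]
    have h1 := EP_le T (c / Real.log T) (by rw [hre]; exact div_pos (by linarith) hL) B
      (fun N => by rw [hre]; exact hB _ hcσ N)
    have h2 := hz (c / Real.log T) ha0 (by
      rw [hn, div_lt_iff₀ hL]
      have : U / δ * δ = U := div_mul_cancel₀ _ hδ.ne'
      nlinarith)
    rw [hn] at h2
    calc _ ≤ _ := h1
      _ ≤ 1.001 / (‖c‖ / Real.log T) * Real.exp B :=
          mul_le_mul_of_nonneg_right h2 (Real.exp_pos _).le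
      _ = (1.001 * Real.exp B) * (Real.log T / ‖c‖) := by
          field_simp
      _ ≤ _ := mul_le_mul_of_nonneg_right hK (by positivity)
  refine ⟨fun h => key (3 / 2) 0.116 (113 / 100) (by norm_num)
      (fun τ hτ N => bound1 T τ hT1 hτ N) ?_ h,
    fun h => key 2 0.0568 (106 / 100) (by norm_num) (fun τ hτ N => bound2 T τ hT1 hτ N) ?_ h,
    fun h => key 4 0.005 (101 / 100) (by norm_num) (fun τ hτ N => bound3 T τ hT1 hτ N) ?_ h⟩
  · have := exp_le_of 0.116 (by norm_num) (by norm_num)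
    calc 1.001 * Real.exp 0.116 ≤ 1.001 * (1 + 0.116 + 0.116 ^ 2 / 2 + 0.116 ^ 3 * 2 / 9) :=
        mul_le_mul_of_nonneg_left this (by norm_num)
      _ ≤ _ := by norm_num
  · have := exp_le_of 0.0568 (by norm_num) (by norm_num)
    calc 1.001 * Real.exp 0.0568 ≤ 1.001 * (1 + 0.0568 + 0.0568 ^ 2 / 2 + 0.0568 ^ 3 * 2 / 9) :=
        mul_le_mul_of_nonneg_left this (by norm_num)
      _ ≤ _ := by norm_num
  · have := exp_le_of 0.005 (by norm_num) (by norm_num)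
    calc 1.001 * Real.exp 0.005 ≤ 1.001 * (1 + 0.005 + 0.005 ^ 2 / 2 + 0.005 ^ 3 * 2 / 9) :=
        mul_le_mul_of_nonneg_left this (by norm_num)
      _ ≤ _ := by norm_num

end K7
end Pool.Agent.Lib.MP_973905_nt
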