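import Pool.Agent.Lib.MP_973905_nt.K7.One4

/-! Module (R3): factorisation over the blocks, four shifts. -/

namespace Pool.Agent.Lib.MP_973905_nt
namespace K7

open MeasureTheory ProbabilityTheory Complex Filter Topology K1 K4 K5

/-- (R3) factorisation over the blocks -/
theorem stFact4 (_h : StOne4) : StFact4 := by
  intro κ M hM
  refine ⟨3, le_rfl, fun T hT g h a₁ a₂ b₁ b₂ h1 h2 h3 h4 => ?_⟩
  have hT1 : 1 < T := by linarith
  exact OneM.RW4_E4 hT1 hM (WF κ T M g h)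
    (fun j f => ‖Fc T M (JJ T) (κ - 1) g h j (tw (1 / 2) f)‖ ^ 2)
    (fun i f => pf κ i (Xq T i (tw (1 / 2) f) - Vv i))
    (fun j f g' hfg => by rw [Fc_dep hfg])
    (fun i f g' hfg => by rw [Blk7.Xq_dep hfg])
    (fun f => by rw [WF, FactM.norm_AA_sq, TFq]) h1 h2 h3 h4

end K7
end Pool.Agent.Lib.MP_973905_nt
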