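import Pool.Agent.Lib.MP_973905_nt.K7.Base

/-! Module (S8) of folder K7: the arithmetic factor on the side of the second moment is a product
over the blocks. -/

namespace Pool.Agent.Lib.MP_973905_nt
namespace K7

open MeasureTheory ProbabilityTheory Complex Filter Topology K1 K4 K5

/-- (S8) the arithmetic factor is a product over the blocks -/
theorem stFactA (h : StLF) : StFactA := by
  intro κ M hM
  refine ⟨max 3 (Real.exp (4 / tq 0)), le_max_left _ _, fun T hT g h' N c hN hG w hw => ?_⟩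
  have hT3 : 3 ≤ T := (le_max_left _ _).trans hT
  have hT1 : 1 < T := by linarith
  have hT0 : 0 < T := by linarith
  have hL : 0 < Real.log T := Real.log_pos hT1
  have htb := Blk7.tq_pos 0
  have hLL : 4 / tq 0 ≤ Real.log T := by
    rw [Real.le_log_iff_exp_le hT0]; exact (le_max_right _ _).trans hT
  have hL4 : 4 ≤ tq 0 * Real.log T := by
    rw [div_le_iff₀ htb] at hLL; linarith
  have hL4' : 4 ≤ Real.log T := by
    have := Blk7.tq_zero_le
    nlinarith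
  have hmem : ∀ n ∈ Finset.Icc 1 N, n ∈ Nat.factoredNumbers (UU (SBq T M)) := by
    intro n hn
    rw [Finset.mem_Icc] at hn
    refine Blk7.mem_factored_SBq hT1 hM hn.1 ?_
    have : (n : ℝ) ≤ N := by exact_mod_cast hn.2
    exact this.trans hN
  have hwn : ‖w‖ ≤ 1 / 4 := hw.trans (by
    rw [div_le_div_iff₀ hL (by norm_num)]; linarith)
  have hwre : -(1 / 2) < w.re := by
    have h1 := Complex.abs_re_le_norm w
    have h2 := neg_abs_le w.re
    linarith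
  rw [← FactM.RB_eq (Blk7.blk_SBq hT1 hM) hmem c hwre]
  have hκ : 1 + κ - 1 = κ := by ring
  set A : ℕ → (ℕ → ℂ) → ℂ := fun j f => ZZ (Sj T M (JJ T) j) (tw (1 / 2 + w) f) *
    (starRingEnd ℂ) (ZZ (Sj T M (JJ T) j) (tw (1 / 2 + (starRingEnd ℂ) w) f)) *
    ((‖Fc T M (JJ T) (1 + κ - 1) g h' j (tw (1 / 2) f)‖ ^ 2 : ℝ) : ℂ) with hA
  set B : ℕ → (ℕ → ℂ) → ℂ := fun i f => ZZ (UQ T i) (tw (1 / 2 + w) f) *
    (starRingEnd ℂ) (ZZ (UQ T i) (tw (1 / 2 + (starRingEnd ℂ) w) f)) *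
    ((pg κ i (Xq T i (tw (1 / 2) f) - Vv i) : ℝ) : ℂ) with hB
  set S := PS (Real.exp (tq 0 * Real.log T)) T with hS
  set C : (ℕ → ℂ) → ℂ := fun f => ZZ S (tw (1 / 2 + w) f) *
    (starRingEnd ℂ) (ZZ S (tw (1 / 2 + (starRingEnd ℂ) w) f)) with hC
  have e1 : ER (SBq T M) (fun f => ZZ (UU (SBq T M)) (tw (1 / 2 + w) f) *
    (starRingEnd ℂ) (ZZ (UU (SBq T M)) (tw (1 / 2 + (starRingEnd ℂ) w) f)) *
      GB N c (tw (1 / 2) f)) = ER (SBq T M) (fun f =>
      (∏ j ∈ Finset.range (JJ T + 1), A j f) * (∏ i ∈ Finset.range (M - 6), B i f) * C f) := by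
    refine FinM.ER_congr fun ω => ?_
    rw [← hG _ (cmul_tw (cmul_XX _ ω) _), WG, FactM.norm_AA_sq, TGq]
    unfold ZZ
    rw [Blk7.prod_UU_SBq hT1 hM, Blk7.prod_UU_SBq hT1 hM]
    simp only [hA, hB, hC, hκ, ZZ, Finset.prod_mul_distrib, map_mul, map_prod, ofReal_mul,
      ofReal_prod, ← hS]
    ring
  rw [e1, Blk7.fact_gen hT1 hM A B C (by
    intro j f g' hfg
    simp only [hA]
    rw [ZZ_dep (w := 1 / 2 + w) hfg, ZZ_dep (w := 1 / 2 + (starRingEnd ℂ) w) hfg,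
      Fc_dep hfg]) (by
    intro i f g' hfg
    simp only [hB]
    rw [ZZ_dep (w := 1 / 2 + w) hfg, ZZ_dep (w := 1 / 2 + (starRingEnd ℂ) w) hfg,
      Blk7.Xq_dep hfg]) (by
    intro f g' hfg
    simp only [hC]
    rw [ZZ_dep (w := 1 / 2 + w) hfg, ZZ_dep (w := 1 / 2 + (starRingEnd ℂ) w) hfg]),
    Blk7.prod_UU_SBq hT1 hM]
  have hbd : ∀ p ∈ S, ‖(p : ℂ) ^ (-(1 / 2 + w))‖ ≤ 3 / 4 := by
    intro p hp
    obtain ⟨hpp, h1, h2⟩ := (Blk7.mem_top hT1).mp hp
    have hp0 : (0 : ℝ) < p := by exact_mod_cast hpp.pos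
    have h3 : tq 0 * Real.log T ≤ Real.log p := by
      have := Real.log_le_log (Real.exp_pos _) h1.le
      rwa [Real.log_exp] at this
    have h4 : Real.log p ≤ Real.log T := Real.log_le_log hp0 h2
    refine (RAx.norm_x hpp w).trans ?_
    rw [Real.rpow_def_of_pos hp0, ← Real.exp_add]
    have h5 : ‖w‖ * Real.log p ≤ 1 := by
      calc ‖w‖ * Real.log p ≤ (1 / Real.log T) * Real.log T := by
            have : 0 ≤ Real.log p := by linarith
            gcongr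
        _ = 1 := by field_simp
    calc Real.exp (Real.log p * (-(1 / 2)) + ‖w‖ * Real.log p) ≤ Real.exp (-1) :=
          Real.exp_le_exp.mpr (by linarith)
      _ ≤ 3 / 4 := by
          rw [Real.exp_neg]
          have : (2 : ℝ) ≤ Real.exp 1 := by linarith [Real.exp_one_gt_d9]
          calc (Real.exp 1)⁻¹ ≤ (2 : ℝ)⁻¹ := by gcongr
            _ ≤ 3 / 4 := by norm_num
  have htop := RAx.top_eq h (fun p hp => ((Blk7.mem_top hT1).mp hp).1) hbd hbd
  have e2 : ∏ j ∈ Finset.range (JJ T + 1), EBo T M (1 + κ) g h' w j =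
      (∏ j ∈ Finset.range (JJ T + 1), ES (Sj T M (JJ T) j) (A j)) *
        ∏ j ∈ Finset.range (JJ T + 1), ∏ p ∈ Sj T M (JJ T) j, (1 - (p : ℂ) ^ (-(1 + w + w))) := by
    rw [← Finset.prod_mul_distrib]
    rfl
  have e3 : ∏ i ∈ Finset.range (M - 6), ETG κ T w i =
      (∏ i ∈ Finset.range (M - 6), ES (UQ T i) (B i)) *
        ∏ i ∈ Finset.range (M - 6), ∏ p ∈ UQ T i, (1 - (p : ℂ) ^ (-(1 + w + w))) := by
    rw [← Finset.prod_mul_distrib]
    rfl
  have e4 : ES S C * ∏ p ∈ S, (1 - (p : ℂ) ^ (-(1 + w + w))) = 1 := htop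
  rw [e2, e3]
  linear_combination (∏ j ∈ Finset.range (JJ T + 1), ES (Sj T M (JJ T) j) (A j)) *
        (∏ j ∈ Finset.range (JJ T + 1), ∏ p ∈ Sj T M (JJ T) j, (1 - (p : ℂ) ^ (-(1 + w + w)))) *
        (∏ i ∈ Finset.range (M - 6), ES (UQ T i) (B i)) *
        (∏ i ∈ Finset.range (M - 6), ∏ p ∈ UQ T i, (1 - (p : ℂ) ^ (-(1 + w + w)))) * e4

end K7
end Pool.Agent.Lib.MP_973905_nt
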