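import Pool.Agent.Lib.MP_973905_nt.K7.Stmts
import Pool.Agent.Lib.MP_973905_nt.K1.FinalK1

/-! Module (F) of folder K7: the upper bound for every fixed order between 1 and 2. -/

namespace Pool.Agent.Lib.MP_973905_nt
namespace K7

open MeasureTheory ProbabilityTheory Complex Filter Topology K1 K4 K5
open Pool.Agent.Lib.MP_973905_nt.CK

/-- (F) the upper bound for every fixed order between 1 and 2 -/
theorem stFinal7 (h : StHold7) (hn : StNum7) (hA : StAK7) : StFinal7 := by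
  intro κ hκ0 hκ1 ε hε
  have haK : 0 < aK (1 + κ) := (hA (1 + κ) (by linarith) (by linarith)).1
  have hG1 : 0 < barnesG (1 + κ + 1) := barnesG_pos (by linarith)
  have hG2 : 0 < barnesG (2 * (1 + κ) + 1) := barnesG_pos (by linarith)
  set G : ℝ := barnesG (1 + κ + 1) ^ 2 / barnesG (2 * (1 + κ) + 1) with hG
  have hG0 : 0 < G := by positivity
  have hcK : cK (1 + κ) = aK (1 + κ) * G := by rw [cK, hG, mul_div_assoc]
  have hc0 : 0 < cK (1 + κ) := by rw [hcK]; positivity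
  have hCC1 : CC7 κ ≤ 3 := min_le_left _ _
  obtain ⟨M₁, hM₁⟩ := h κ hκ0 hκ1 (ε / 4) (by positivity)
  obtain ⟨T₀, hT₀, hT⟩ := hM₁ (max M₁ 10) (le_max_left _ _)
  have hnum := hn κ hκ0 hκ1 (max M₁ 10) (le_max_right _ _)
  rw [← hG] at hnum
  refine ⟨T₀, hT₀, fun T hTT => ?_⟩
  have hT3 : 3 ≤ T := hT₀.trans hTT
  have hL0 : 0 < Real.log T := Real.log_pos (by linarith)
  set Λ : ℝ := (Real.log T) ^ ((1 + κ) ^ 2) with hΛ
  have hΛ0 : 0 < Λ := Real.rpow_pos_of_pos hL0 _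
  rw [div_le_iff₀ (mul_pos hc0 hΛ0)]
  refine (hT T hTT).trans ?_
  have h1 : 0 ≤ aK (1 + κ) * Λ := by positivity
  have h2 : 0 ≤ 1 + ε / 4 := by linarith
  refine (mul_le_mul_of_nonneg_left (mul_le_mul_of_nonneg_left hnum h1) h2).trans ?_
  rw [hcK]
  have h3 : (1 + ε / 4) * CC7 κ ≤ CC7 κ + ε := by nlinarith
  calc (1 + ε / 4) * (aK (1 + κ) * Λ * (CC7 κ * G)) =
      (1 + ε / 4) * CC7 κ * (aK (1 + κ) * G * Λ) := by ring
    _ ≤ (CC7 κ + ε) * (aK (1 + κ) * G * Λ) :=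
        mul_le_mul_of_nonneg_right h3 (by positivity)

end K7
end Pool.Agent.Lib.MP_973905_nt
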