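import Pool.Agent.Lib.MP_973905_nt.K7.Stmts
import Pool.Agent.Lib.MP_973905_nt.K5.GaussBlock

/-! Module R8 of project K7: the Gaussian limit of one top block with four shifts. -/

namespace Pool.Agent.Lib.MP_973905_nt
namespace K7

open MeasureTheory ProbabilityTheory Complex Filter Topology K1 K4 K5

namespace Gauss4M

open K5.GaussB (mom_rec Gs hasDerivAt_Gs cauchy_tower Es hasDerivAt_Es avg_poly int_mu0 prod_diff
  exp_diff Yt bs_Yt conj_cpow_nat mem_PS sqrt_mul vv_zero)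

/-! ### Expansions of second order -/

/-- `P = 1 + l + q + O(c r³)` with `l = O(c r)`, `q = O(c r²)`. -/
def Ex (r c : ℝ) (l q P : ℂ) : Prop :=
  ‖l‖ ≤ c * r ∧ ‖q‖ ≤ c * r ^ 2 ∧ ‖P - (1 + l + q)‖ ≤ c * r ^ 3

lemma Ex.mul {r c c' : ℝ} {l q P l' q' P' : ℂ} (hr0 : 0 ≤ r) (hr1 : r ≤ 1) (hc : 0 ≤ c)
    (hc' : 0 ≤ c') (h : Ex r c l q P) (h' : Ex r c' l' q' P') :
    Ex r (c + c' + 8 * c * c') (l + l') (q + q' + l * l') (P * P') := by
  obtain ⟨h1, h2, h3⟩ := h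
  obtain ⟨h1', h2', h3'⟩ := h'
  have hcc : 0 ≤ c * c' := mul_nonneg hc hc'
  refine ⟨?_, ?_, ?_⟩
  · calc ‖l + l'‖ ≤ ‖l‖ + ‖l'‖ := norm_add_le _ _
      _ ≤ c * r + c' * r := add_le_add h1 h1'
      _ ≤ _ := by nlinarith [mul_nonneg hcc hr0]
  · calc ‖q + q' + l * l'‖ ≤ ‖q‖ + ‖q'‖ + ‖l‖ * ‖l'‖ := by
          refine (norm_add_le _ _).trans ?_
          rw [norm_mul]
          gcongr
          exact norm_add_le _ _
      _ ≤ c * r ^ 2 + c' * r ^ 2 + (c * r) * (c' * r) := by gcongr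
      _ ≤ _ := by nlinarith [mul_nonneg hcc (sq_nonneg r)]
  · set e := P - (1 + l + q) with he
    set e' := P' - (1 + l' + q') with he'
    have hP : P * P' - (1 + (l + l') + (q + q' + l * l')) =
        l * q' + q * l' + q * q' + e * (1 + l' + q' + e') + (1 + l + q) * e' := by
      rw [he, he']
      ring
    have hr2 : r ^ 2 ≤ 1 := pow_le_one₀ hr0 hr1
    have hr3 : r ^ 3 ≤ 1 := pow_le_one₀ hr0 hr1
    have hr4 : r ^ 4 ≤ r ^ 3 := pow_le_pow_of_le_one hr0 hr1 (by norm_num)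
    have hr30 : 0 ≤ r ^ 3 := by positivity
    have n1 : ‖l * q'‖ ≤ c * c' * r ^ 3 := by
      rw [norm_mul]
      calc ‖l‖ * ‖q'‖ ≤ (c * r) * (c' * r ^ 2) := by gcongr
        _ = _ := by ring
    have n2 : ‖q * l'‖ ≤ c * c' * r ^ 3 := by
      rw [norm_mul]
      calc ‖q‖ * ‖l'‖ ≤ (c * r ^ 2) * (c' * r) := by gcongr
        _ = _ := by ring
    have n3 : ‖q * q'‖ ≤ c * c' * r ^ 3 := by
      rw [norm_mul]
      calc ‖q‖ * ‖q'‖ ≤ (c * r ^ 2) * (c' * r ^ 2) := by gcongr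
        _ = c * c' * r ^ 4 := by ring
        _ ≤ _ := by gcongr
    have n4 : ‖1 + l' + q' + e'‖ ≤ 1 + 3 * c' := by
      have a1 : ‖l'‖ ≤ c' := h1'.trans (by nlinarith)
      have a2 : ‖q'‖ ≤ c' := h2'.trans (by nlinarith)
      have a3 : ‖e'‖ ≤ c' := h3'.trans (by nlinarith)
      calc ‖1 + l' + q' + e'‖ ≤ ‖(1 : ℂ)‖ + ‖l'‖ + ‖q'‖ + ‖e'‖ := by
            refine (norm_add_le _ _).trans ?_
            gcongr
            refine (norm_add_le _ _).trans ?_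
            gcongr
            exact norm_add_le _ _
        _ ≤ 1 + 3 * c' := by rw [norm_one]; linarith
    have n5 : ‖1 + l + q‖ ≤ 1 + 2 * c := by
      have a1 : ‖l‖ ≤ c := h1.trans (by nlinarith)
      have a2 : ‖q‖ ≤ c := h2.trans (by nlinarith)
      calc ‖1 + l + q‖ ≤ ‖(1 : ℂ)‖ + ‖l‖ + ‖q‖ := by
            refine (norm_add_le _ _).trans ?_
            gcongr
            exact norm_add_le _ _
        _ ≤ 1 + 2 * c := by rw [norm_one]; linarith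
    have n6 : ‖e * (1 + l' + q' + e')‖ ≤ (c * r ^ 3) * (1 + 3 * c') := by
      rw [norm_mul]
      gcongr
    have n7 : ‖(1 + l + q) * e'‖ ≤ (1 + 2 * c) * (c' * r ^ 3) := by
      rw [norm_mul]
      gcongr
    rw [hP]
    calc _ ≤ ‖l * q'‖ + ‖q * l'‖ + ‖q * q'‖ + ‖e * (1 + l' + q' + e')‖ + ‖(1 + l + q) * e'‖ := by
          refine (norm_add_le _ _).trans ?_
          gcongr
          refine (norm_add_le _ _).trans ?_
          gcongr
          refine (norm_add_le _ _).trans ?_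
          gcongr
          exact norm_add_le _ _
      _ ≤ c * c' * r ^ 3 + c * c' * r ^ 3 + c * c' * r ^ 3 + (c * r ^ 3) * (1 + 3 * c') +
            (1 + 2 * c) * (c' * r ^ 3) := by gcongr
      _ = _ := by ring

lemma Ex.inv {r : ℝ} {a : ℂ} (hr0 : 0 ≤ r) (hr : r ≤ 1 / 2) (ha : ‖a‖ ≤ r) :
    Ex r 2 a (a ^ 2) (1 - a)⁻¹ := by
  have h1 := norm_sub_norm_le 1 a
  rw [norm_one] at h1
  have h2 : (1 / 2 : ℝ) ≤ ‖1 - a‖ := by linarith
  have ha1 : 1 - a ≠ 0 := by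
    intro h
    rw [h, norm_zero] at h2
    norm_num at h2
  have hi : ‖(1 - a)⁻¹‖ ≤ 2 := by
    rw [norm_inv]
    calc ‖1 - a‖⁻¹ ≤ (1 / 2 : ℝ)⁻¹ := inv_anti₀ (by norm_num) h2
      _ = 2 := by norm_num
  refine ⟨by linarith, ?_, ?_⟩
  · rw [norm_pow]
    have := pow_le_pow_left₀ (norm_nonneg _) ha 2
    nlinarith [sq_nonneg r]
  · have e : (1 - a)⁻¹ - (1 + a + a ^ 2) = a ^ 3 * (1 - a)⁻¹ := by
      field_simp
      ring
    rw [e, norm_mul, norm_pow]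
    have := pow_le_pow_left₀ (norm_nonneg _) ha 3
    calc ‖a‖ ^ 3 * ‖(1 - a)⁻¹‖ ≤ r ^ 3 * 2 := by gcongr
      _ = _ := by ring

lemma Ex.exp {r : ℝ} {y : ℂ} (hr0 : 0 ≤ r) (hr : r ≤ 1 / 2) (hy : ‖y‖ ≤ r) :
    Ex r 2 y (y ^ 2 / 2) (cexp y) := by
  refine ⟨by linarith, ?_, ?_⟩
  · rw [norm_div, norm_pow]
    simp only [Complex.norm_ofNat]
    have := pow_le_pow_left₀ (norm_nonneg _) hy 2
    nlinarith [sq_nonneg r]
  · have h1 := Complex.norm_exp_sub_sum_le_norm_mul_exp y 3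
    have h2 : cexp y - ∑ m ∈ Finset.range 3, y ^ m / m.factorial =
        cexp y - (1 + y + y ^ 2 / 2) := by
      simp [Finset.sum_range_succ, Nat.factorial]
    rw [h2] at h1
    have h3 : Real.exp ‖y‖ ≤ 2 := by
      calc Real.exp ‖y‖ ≤ Real.exp (1 / 2) := Real.exp_le_exp.mpr (hy.trans hr)
        _ ≤ 2 := by
          have h4 := Real.exp_one_lt_d9
          have h5 : Real.exp (1 / 2) ^ 2 = Real.exp 1 := by
            rw [← Real.exp_nat_mul]; norm_num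
          have h6 := Real.exp_pos (1 / 2)
          nlinarith
    calc _ ≤ ‖y‖ ^ 3 * Real.exp ‖y‖ := h1
      _ ≤ r ^ 3 * 2 := by gcongr
      _ = 2 * r ^ 3 := by ring

lemma Ex.one_sub {r : ℝ} {t : ℂ} (hr0 : 0 ≤ r) (ht : ‖t‖ ≤ r ^ 2) : Ex r 1 0 (-t) (1 - t) := by
  refine ⟨by simpa using hr0, by simpa using ht, ?_⟩
  have e : 1 - t - (1 + 0 + -t) = 0 := by ring
  rw [e, norm_zero]
  positivity

lemma Ex.inv4 {r : ℝ} {u : ℂ} (hr0 : 0 ≤ r) (hr : r ≤ 1 / 2) (hu : ‖u‖ ≤ r ^ 4) :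
    Ex r 1 0 0 (1 - u)⁻¹ := by
  have hr3 : 0 ≤ r ^ 3 := by positivity
  have hr4 : r ^ 4 ≤ 1 / 2 * r ^ 3 := by nlinarith
  have hr5 : r ^ 4 ≤ 1 / 2 := by
    calc r ^ 4 ≤ (1 / 2) ^ 4 := pow_le_pow_left₀ hr0 hr 4
      _ ≤ 1 / 2 := by norm_num
  have h1 := norm_sub_norm_le 1 u
  rw [norm_one] at h1
  have h2 : (1 / 2 : ℝ) ≤ ‖1 - u‖ := by linarith
  have hu1 : 1 - u ≠ 0 := by
    intro h
    rw [h, norm_zero] at h2
    norm_num at h2
  have hi : ‖(1 - u)⁻¹‖ ≤ 2 := by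
    rw [norm_inv]
    calc ‖1 - u‖⁻¹ ≤ (1 / 2 : ℝ)⁻¹ := inv_anti₀ (by norm_num) h2
      _ = 2 := by norm_num
  refine ⟨by simpa using hr0, by simp; positivity, ?_⟩
  have e : (1 - u)⁻¹ - (1 + 0 + 0) = u * (1 - u)⁻¹ := by
    field_simp
    ring
  rw [e, norm_mul]
  calc ‖u‖ * ‖(1 - u)⁻¹‖ ≤ r ^ 4 * 2 := by gcongr
    _ ≤ _ := by linarith

/-- The constant of the expansion. -/
def C0 : ℝ := 11000000000

/-- The normalising factor of a prime. -/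
noncomputable def nf (x₁ x₂ y₁ y₂ : ℂ) : ℂ :=
  ((1 - x₁ * y₁) * (1 - x₁ * y₂)) * ((1 - x₂ * y₁) * (1 - x₂ * y₂)) *
    (1 - x₁ * x₂ * y₁ * y₂)⁻¹

lemma pt4 {a₁ a₂ b₁ b₂ y : ℂ} {r : ℝ} (hr0 : 0 ≤ r) (hr : r ≤ 1 / 2) (ha₁ : ‖a₁‖ ≤ r)
    (ha₂ : ‖a₂‖ ≤ r) (hb₁ : ‖b₁‖ ≤ r) (hb₂ : ‖b₂‖ ≤ r) (hy : ‖y‖ ≤ r) :
    ‖((1 - a₁)⁻¹ * (1 - a₂)⁻¹) * ((1 - b₁)⁻¹ * (1 - b₂)⁻¹) * cexp y * nf a₁ a₂ b₁ b₂ -
      (1 + (a₁ + a₂ + b₁ + b₂ + y) + (a₁ ^ 2 + a₂ ^ 2 + a₁ * a₂ + b₁ ^ 2 + b₂ ^ 2 + b₁ * b₂ +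
        y ^ 2 / 2 + y * (a₁ + a₂ + b₁ + b₂)))‖ ≤ C0 * r ^ 3 := by
  have hr1 : r ≤ 1 := by linarith
  have hm : ∀ {a b : ℂ}, ‖a‖ ≤ r → ‖b‖ ≤ r → ‖a * b‖ ≤ r ^ 2 := by
    intro a b ha hb
    rw [norm_mul, sq]
    gcongr
  have h4 : ‖a₁ * a₂ * b₁ * b₂‖ ≤ r ^ 4 := by
    rw [norm_mul, norm_mul, norm_mul]
    calc ‖a₁‖ * ‖a₂‖ * ‖b₁‖ * ‖b₂‖ ≤ r * r * r * r := by gcongr
      _ = r ^ 4 := by ring
  have i1 := (Ex.inv hr0 hr ha₁).mul hr0 hr1 (by norm_num) (by norm_num) (Ex.inv hr0 hr ha₂)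
  have i2 := (Ex.inv hr0 hr hb₁).mul hr0 hr1 (by norm_num) (by norm_num) (Ex.inv hr0 hr hb₂)
  have i3 := i1.mul hr0 hr1 (by norm_num) (by norm_num) i2
  have i4 := i3.mul hr0 hr1 (by norm_num) (by norm_num) (Ex.exp hr0 hr hy)
  have s1 := (Ex.one_sub hr0 (hm ha₁ hb₁)).mul hr0 hr1 (by norm_num) (by norm_num)
    (Ex.one_sub hr0 (hm ha₁ hb₂))
  have s2 := (Ex.one_sub hr0 (hm ha₂ hb₁)).mul hr0 hr1 (by norm_num) (by norm_num)
    (Ex.one_sub hr0 (hm ha₂ hb₂))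
  have s3 := s1.mul hr0 hr1 (by norm_num) (by norm_num) s2
  have s4 := s3.mul hr0 hr1 (by norm_num) (by norm_num) (Ex.inv4 hr0 hr h4)
  have f := (i4.mul hr0 hr1 (by norm_num) (by norm_num) s4).2.2
  have hr3 : 0 ≤ r ^ 3 := by positivity
  refine le_trans (le_of_eq ?_) (f.trans ?_)
  · congr 1
    rw [nf]
    ring
  · rw [C0]
    gcongr
    norm_num

/-! ### The average of the local factor -/

/-- The weight of a prime. -/
noncomputable def wf (x₁ x₂ y₁ y₂ f : ℂ) : ℂ :=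
  ((1 - x₁ * f)⁻¹ * (1 - x₂ * f)⁻¹) * ((1 - y₁ * (starRingEnd ℂ) f)⁻¹ *
    (1 - y₂ * (starRingEnd ℂ) f)⁻¹) * nf x₁ x₂ y₁ y₂

/-- The average of the local factor. -/
noncomputable def A4 (x : ℝ) (x₁ x₂ y₁ y₂ z : ℂ) : ℂ :=
  Real.circleAverage (fun f : ℂ => wf x₁ x₂ y₁ y₂ f * cexp (z * ((x * f.re : ℝ) : ℂ))) 0 1

lemma A4_bound {x R : ℝ} {x₁ x₂ y₁ y₂ z : ℂ} (hx0 : 0 ≤ x) (hR : 1 ≤ R) (hx : R * x ≤ 1 / 2)
    (h1 : ‖x₁‖ ≤ R * x) (h2 : ‖x₂‖ ≤ R * x) (h3 : ‖y₁‖ ≤ R * x) (h4 : ‖y₂‖ ≤ R * x)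
    (hz : ‖z‖ ≤ 1) : ‖A4 x x₁ x₂ y₁ y₂ z -
      (1 + z * (x * ((x₁ + x₂ + y₁ + y₂) / 2)) + z ^ 2 * (x ^ 2 / 4))‖ ≤ C0 * (R * x) ^ 3 := by
  have hRx : 0 ≤ R * x := by positivity
  have e1 : (1 + z * (x * ((x₁ + x₂ + y₁ + y₂) / 2)) + z ^ 2 * ((x : ℂ) ^ 2 / 4)) =
      Real.circleAverage (fun f : ℂ => 1 + (x₁ + x₂ + z * x / 2) * f +
        (y₁ + y₂ + z * x / 2) * (starRingEnd ℂ) f +
        (x₁ ^ 2 + x₂ ^ 2 + x₁ * x₂ + z ^ 2 * x ^ 2 / 8 + z * x / 2 * (x₁ + x₂)) * f ^ 2 +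
        (y₁ ^ 2 + y₂ ^ 2 + y₁ * y₂ + z ^ 2 * x ^ 2 / 8 + z * x / 2 * (y₁ + y₂)) *
          (starRingEnd ℂ) f ^ 2 +
        (z * x / 2 * (x₁ + x₂ + y₁ + y₂) + z ^ 2 * x ^ 2 / 4) * (f * (starRingEnd ℂ) f)) 0 1 := by
    rw [avg_poly]
    ring
  rw [e1, A4, ← integral_mu0, ← integral_mu0, ← integral_sub]
  · have h := norm_integral_le_of_norm_le_const (μ := mu0) (C := C0 * (R * x) ^ 3)
      (f := fun θ : ℝ => wf x₁ x₂ y₁ y₂ (circleMap 0 1 θ) *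
          cexp (z * ((x * (circleMap 0 1 θ).re : ℝ) : ℂ)) - (1 + (x₁ + x₂ + z * x / 2) *
            circleMap 0 1 θ + (y₁ + y₂ + z * x / 2) * (starRingEnd ℂ) (circleMap 0 1 θ) +
        (x₁ ^ 2 + x₂ ^ 2 + x₁ * x₂ + z ^ 2 * x ^ 2 / 8 + z * x / 2 * (x₁ + x₂)) *
          circleMap 0 1 θ ^ 2 +
        (y₁ ^ 2 + y₂ ^ 2 + y₁ * y₂ + z ^ 2 * x ^ 2 / 8 + z * x / 2 * (y₁ + y₂)) *
          (starRingEnd ℂ) (circleMap 0 1 θ) ^ 2 +
        (z * x / 2 * (x₁ + x₂ + y₁ + y₂) + z ^ 2 * x ^ 2 / 4) *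
          (circleMap 0 1 θ * (starRingEnd ℂ) (circleMap 0 1 θ)))) ?_
    · refine h.trans (le_of_eq ?_)
      rw [probReal_univ, mul_one]
    · refine Filter.Eventually.of_forall fun θ => ?_
      set f := circleMap 0 1 θ with hf
      have hfn : ‖f‖ = 1 := by simp [hf]
      have hff : f * (starRingEnd ℂ) f = 1 := by
        rw [mul_conj, normSq_eq_norm_sq, hfn]; simp
      have hre : ((f.re : ℝ) : ℂ) = (f + (starRingEnd ℂ) f) / 2 := by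
        rw [Complex.re_eq_add_conj]
      have hfm : ∀ {c : ℂ}, ‖c‖ ≤ R * x → ‖c * f‖ ≤ R * x := by
        intro c hc
        rw [norm_mul, hfn, mul_one]; exact hc
      have hfm' : ∀ {c : ℂ}, ‖c‖ ≤ R * x → ‖c * (starRingEnd ℂ) f‖ ≤ R * x := by
        intro c hc
        rw [norm_mul, RCLike.norm_conj, hfn, mul_one]; exact hc
      have hy : ‖z * ((x * f.re : ℝ) : ℂ)‖ ≤ R * x := by
        rw [norm_mul, norm_real, norm_mul, Real.norm_of_nonneg hx0, Real.norm_eq_abs]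
        have h1 : |f.re| ≤ 1 := (abs_re_le_norm f).trans hfn.le
        calc ‖z‖ * (x * |f.re|) ≤ 1 * (x * 1) := by gcongr
          _ ≤ R * x := by nlinarith
      have hp := pt4 hRx hx (hfm h1) (hfm h2) (hfm' h3) (hfm' h4) hy
      have en : nf (x₁ * f) (x₂ * f) (y₁ * (starRingEnd ℂ) f) (y₂ * (starRingEnd ℂ) f) =
          nf x₁ x₂ y₁ y₂ := by
        have k : ∀ a b : ℂ, a * f * (b * (starRingEnd ℂ) f) = a * b := by
          intro a b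
          calc a * f * (b * (starRingEnd ℂ) f) = a * b * (f * (starRingEnd ℂ) f) := by ring
            _ = a * b := by rw [hff, mul_one]
        have k2 : x₁ * f * (x₂ * f) * (y₁ * (starRingEnd ℂ) f) * (y₂ * (starRingEnd ℂ) f) =
            x₁ * x₂ * y₁ * y₂ := by
          calc _ = x₁ * x₂ * y₁ * y₂ * (f * (starRingEnd ℂ) f) * (f * (starRingEnd ℂ) f) := by
                ring
            _ = _ := by rw [hff, mul_one, mul_one]
        rw [nf, nf, k, k, k, k, k2]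
      rw [en] at hp
      refine le_of_eq_of_le ?_ hp
      congr 1
      rw [wf]
      push_cast
      rw [hre]
      ring
  · apply int_mu0
    have hn : ∀ {w : ℂ}, ‖w‖ ≤ R * x → ∀ c : ℂ, ‖c‖ = 1 → 1 - w * c ≠ 0 := by
      intro w hw c hc h
      have h2 : w * c = 1 := (sub_eq_zero.mp h).symm
      have h3 : ‖w * c‖ = 1 := by rw [h2, norm_one]
      rw [norm_mul, hc, mul_one] at h3
      linarith
    have hm := continuous_circleMap (0 : ℂ) 1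
    have hc : Continuous fun θ : ℝ => (starRingEnd ℂ) (circleMap 0 1 θ) :=
      continuous_conj.comp hm
    have hr : Continuous fun θ : ℝ => (circleMap 0 1 θ).re :=
      continuous_re.comp hm
    have c1 : ∀ {w : ℂ}, ‖w‖ ≤ R * x → Continuous fun θ : ℝ => (1 - w * circleMap 0 1 θ)⁻¹ :=
      fun {w} hw => Continuous.inv₀ (continuous_const.sub (continuous_const.mul hm))
        fun θ => hn hw _ (by simp)
    have c2 : ∀ {w : ℂ}, ‖w‖ ≤ R * x →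
        Continuous fun θ : ℝ => (1 - w * (starRingEnd ℂ) (circleMap 0 1 θ))⁻¹ :=
      fun {w} hw => Continuous.inv₀ (continuous_const.sub (continuous_const.mul hc))
        fun θ => hn hw _ (by rw [RCLike.norm_conj]; simp)
    exact ((((c1 h1).mul (c1 h2)).mul ((c2 h3).mul (c2 h4))).mul continuous_const).mul
      (continuous_exp.comp (continuous_const.mul (continuous_ofReal.comp
        (continuous_const.mul hr))))
  · apply int_mu0
    have hm := continuous_circleMap (0 : ℂ) 1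
    have hc : Continuous fun θ : ℝ => (starRingEnd ℂ) (circleMap 0 1 θ) :=
      continuous_conj.comp hm
    exact ((((continuous_const.add (continuous_const.mul hm)).add (continuous_const.mul hc)).add
      (continuous_const.mul (hm.pow 2))).add (continuous_const.mul (hc.pow 2))).add
      (continuous_const.mul (hm.mul hc))

/-! ### Products -/

lemma block_gen {S : Finset ℕ} {x : ℕ → ℝ} {v B : ℕ → ℂ} {z : ℂ} {δ Q K : ℝ} (hK : 1 ≤ K)
    (hδ0 : 0 ≤ δ) (hδ : K * δ ≤ 1 / 2) (hx : ∀ p ∈ S, 0 ≤ x p ∧ x p ≤ δ)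
    (hv : ∀ p ∈ S, ‖v p‖ ≤ K * x p) (hz : ‖z‖ ≤ 1)
    (hB : ∀ p ∈ S, ‖B p - (1 + z * (x p * v p) + z ^ 2 * ((x p : ℂ) ^ 2 / 4))‖ ≤ K * x p ^ 3)
    (hQ : ∑ p ∈ S, x p ^ 2 ≤ Q) :
    ‖∏ p ∈ S, B p -
      cexp (z * (∑ p ∈ S, (x p : ℂ) * v p) + z ^ 2 * ((∑ p ∈ S, (x p : ℂ) ^ 2) / 4))‖ ≤
      (3 * K * δ * Q) * Real.exp (4 * K * Q) := by
  have e1 : cexp (z * (∑ p ∈ S, (x p : ℂ) * v p) + z ^ 2 * ((∑ p ∈ S, (x p : ℂ) ^ 2) / 4)) =
      ∏ p ∈ S, cexp (z * (x p * v p) + z ^ 2 * ((x p : ℂ) ^ 2 / 4)) := by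
    rw [← exp_sum, Finset.sum_add_distrib, ← Finset.mul_sum, ← Finset.mul_sum, ← Finset.sum_div]
  rw [e1]
  have hδ2 : δ ≤ 1 / 2 := by nlinarith
  have hW : ∀ p ∈ S, ‖z * (x p * v p) + z ^ 2 * ((x p : ℂ) ^ 2 / 4)‖ ≤ 2 * K * x p ^ 2 := by
    intro p hp
    obtain ⟨h0, h1⟩ := hx p hp
    have h2 := hv p hp
    have t1 : ‖z * (x p * v p)‖ ≤ 1 * (x p * (K * x p)) := by
      rw [norm_mul, norm_mul, norm_real, Real.norm_of_nonneg h0]
      gcongr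
    have t2 : ‖z ^ 2 * ((x p : ℂ) ^ 2 / 4)‖ ≤ 1 * (x p ^ 2 / 4) := by
      rw [norm_mul, norm_div, norm_pow, norm_pow, norm_real, Real.norm_of_nonneg h0]
      simp only [Complex.norm_ofNat]
      gcongr
      exact pow_le_one₀ (norm_nonneg _) hz
    refine (norm_add_le _ _).trans ?_
    nlinarith [sq_nonneg (x p)]
  have hD : ∀ p ∈ S, ‖B p - cexp (z * (x p * v p) + z ^ 2 * ((x p : ℂ) ^ 2 / 4))‖ ≤
      3 * K * x p ^ 3 := by
    intro p hp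
    obtain ⟨h0, h1⟩ := hx p hp
    have h2 := hB p hp
    have hB1 := hW p hp
    have hKx : K * x p ≤ 1 / 2 := le_trans (by gcongr) hδ
    have hx2 : 0 ≤ x p ^ 2 := by positivity
    have hx3 : 0 ≤ x p ^ 3 := by positivity
    have h3 : ‖z * (x p * v p) + z ^ 2 * ((x p : ℂ) ^ 2 / 4)‖ ≤ 1 := by
      refine hB1.trans ?_
      calc 2 * K * x p ^ 2 = 2 * (K * x p) * x p := by ring
        _ ≤ 2 * (1 / 2) * x p := by gcongr
        _ ≤ 1 := by linarith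
    have h4 := Complex.norm_exp_sub_one_sub_id_le h3
    have h5 : ‖z * (x p * v p) + z ^ 2 * ((x p : ℂ) ^ 2 / 4)‖ ^ 2 ≤ (2 * K * x p ^ 2) ^ 2 :=
      pow_le_pow_left₀ (norm_nonneg _) hB1 2
    have e : B p - cexp (z * (x p * v p) + z ^ 2 * ((x p : ℂ) ^ 2 / 4)) =
        (B p - (1 + z * (x p * v p) + z ^ 2 * ((x p : ℂ) ^ 2 / 4))) -
        (cexp (z * (x p * v p) + z ^ 2 * ((x p : ℂ) ^ 2 / 4)) - 1 -
          (z * (x p * v p) + z ^ 2 * ((x p : ℂ) ^ 2 / 4))) := by ring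
    rw [e]
    refine (norm_sub_le _ _).trans ?_
    have h6 : (2 * K * x p ^ 2) ^ 2 ≤ 2 * K * x p ^ 3 := by
      calc (2 * K * x p ^ 2) ^ 2 = 4 * K * (K * x p) * x p ^ 3 := by ring
        _ ≤ 4 * K * (1 / 2) * x p ^ 3 := by gcongr
        _ = 2 * K * x p ^ 3 := by ring
    linarith
  have hE : ∀ p ∈ S, ‖cexp (z * (x p * v p) + z ^ 2 * ((x p : ℂ) ^ 2 / 4))‖ ≤
      Real.exp (2 * K * x p ^ 2) := by
    intro p hp
    rw [norm_exp]
    exact Real.exp_le_exp.mpr ((re_le_norm _).trans (hW p hp))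
  have hM1 : ∀ p ∈ S, Real.exp (2 * K * x p ^ 2) + 3 * K * x p ^ 3 ≤
      Real.exp (4 * K * x p ^ 2) := by
    intro p hp
    obtain ⟨h0, h1⟩ := hx p hp
    have hKx : K * x p ≤ 1 / 2 := le_trans (by gcongr) hδ
    have hx2 : 0 ≤ x p ^ 2 := by positivity
    have h2 : 3 * K * x p ^ 3 ≤ 2 * K * x p ^ 2 := by
      calc 3 * K * x p ^ 3 = 3 * (K * x p) * x p ^ 2 := by ring
        _ ≤ 3 * (1 / 2) * x p ^ 2 := by gcongr
        _ ≤ 2 * K * x p ^ 2 := by nlinarith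
    have h3 : 1 ≤ Real.exp (2 * K * x p ^ 2) := Real.one_le_exp (by positivity)
    have h4 : 1 + 2 * K * x p ^ 2 ≤ Real.exp (2 * K * x p ^ 2) := by
      have := Real.add_one_le_exp (2 * K * x p ^ 2)
      linarith
    have h5 : 0 ≤ 2 * K * x p ^ 2 := by positivity
    calc Real.exp (2 * K * x p ^ 2) + 3 * K * x p ^ 3 ≤
        Real.exp (2 * K * x p ^ 2) * (1 + 2 * K * x p ^ 2) := by nlinarith
      _ ≤ Real.exp (2 * K * x p ^ 2) * Real.exp (2 * K * x p ^ 2) := by gcongr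
      _ = Real.exp (4 * K * x p ^ 2) := by rw [← Real.exp_add]; ring_nf
  have h := prod_diff S B
    (fun p => cexp (z * (x p * v p) + z ^ 2 * ((x p : ℂ) ^ 2 / 4)))
    (fun p => Real.exp (4 * K * x p ^ 2)) (fun p _ => Real.one_le_exp (by positivity))
    (fun p hp => by
      have h1 := hD p hp
      have h2 := hE p hp
      have h3 := hM1 p hp
      have h4 := norm_sub_norm_le (B p)
        (cexp (z * (x p * v p) + z ^ 2 * ((x p : ℂ) ^ 2 / 4)))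
      linarith)
    (fun p hp => by
      have h2 := hE p hp
      have h3 := hM1 p hp
      have h0 : 0 ≤ 3 * K * x p ^ 3 := by
        have := pow_nonneg (hx p hp).1 3
        positivity
      linarith)
  refine h.trans ?_
  have hQ0 : 0 ≤ ∑ p ∈ S, x p ^ 2 := Finset.sum_nonneg fun _ _ => by positivity
  have s1 : ∑ p ∈ S, ‖B p - cexp (z * (x p * v p) + z ^ 2 * ((x p : ℂ) ^ 2 / 4))‖ ≤
      3 * K * δ * Q := by
    calc _ ≤ ∑ p ∈ S, 3 * K * x p ^ 3 := Finset.sum_le_sum hD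
      _ ≤ ∑ p ∈ S, 3 * K * δ * x p ^ 2 := by
          refine Finset.sum_le_sum fun p hp => ?_
          obtain ⟨h0, h1⟩ := hx p hp
          have h2 : 0 ≤ x p ^ 2 := by positivity
          calc 3 * K * x p ^ 3 = 3 * K * x p * x p ^ 2 := by ring
            _ ≤ 3 * K * δ * x p ^ 2 := by gcongr
      _ = 3 * K * δ * ∑ p ∈ S, x p ^ 2 := by rw [Finset.mul_sum]
      _ ≤ 3 * K * δ * Q := by gcongr
  have s2 : ∏ p ∈ S, Real.exp (4 * K * x p ^ 2) ≤ Real.exp (4 * K * Q) := by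
    rw [← Real.exp_sum, ← Finset.mul_sum]
    apply Real.exp_le_exp.mpr
    gcongr
  have hQ1 : 0 ≤ Q := hQ0.trans hQ
  exact mul_le_mul s1 s2 (Finset.prod_nonneg fun _ _ => (Real.exp_pos _).le) (by positivity)

/-- The weight of a block. -/
noncomputable def W4 (S : Finset ℕ) (x₁ x₂ y₁ y₂ : ℕ → ℂ) (f : ℕ → ℂ) : ℂ :=
  ∏ p ∈ S, wf (x₁ p) (x₂ p) (y₁ p) (y₂ p) (f p)

lemma bs_W4 {S : Finset ℕ} {x₁ x₂ y₁ y₂ : ℕ → ℂ} (h1 : ∀ p ∈ S, ‖x₁ p‖ ≤ 1 / 2)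
    (h2 : ∀ p ∈ S, ‖x₂ p‖ ≤ 1 / 2) (h3 : ∀ p ∈ S, ‖y₁ p‖ ≤ 1 / 2)
    (h4 : ∀ p ∈ S, ‖y₂ p‖ ≤ 1 / 2) : BS S (W4 S x₁ x₂ y₁ y₂) := by
  have hne : ∀ {w : ℂ}, ‖w‖ ≤ 1 / 2 → ∀ c : ℂ, ‖c‖ = 1 → (1 / 2 : ℝ) ≤ ‖1 - w * c‖ := by
    intro w hw c hc
    have h1 := norm_sub_norm_le 1 (w * c)
    rw [norm_one, norm_mul, hc, mul_one] at h1
    linarith
  have hne0 : ∀ {w : ℂ}, ‖w‖ ≤ 1 / 2 → ∀ c : ℂ, ‖c‖ = 1 → 1 - w * c ≠ 0 := by
    intro w hw c hc h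
    have h1 := hne hw c hc
    rw [h, norm_zero] at h1
    norm_num at h1
  have hinv : ∀ {w : ℂ}, ‖w‖ ≤ 1 / 2 → ∀ c : ℂ, ‖c‖ = 1 → ‖(1 - w * c)⁻¹‖ ≤ 2 := by
    intro w hw c hc
    rw [norm_inv]
    calc ‖1 - w * c‖⁻¹ ≤ (1 / 2 : ℝ)⁻¹ := inv_anti₀ (by norm_num) (hne hw c hc)
      _ = 2 := by norm_num
  refine ⟨?_, ∏ p ∈ S, ((2 * 2) * (2 * 2) * ‖nf (x₁ p) (x₂ p) (y₁ p) (y₂ p)‖ : ℝ), fun ω => ?_⟩
  · refine continuous_finsetProd _ fun p hp => ?_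
    have k1 := continuous_ext S p
    have k2 : Continuous fun ω : S → ℝ => (starRingEnd ℂ) (ext S ω p) := continuous_conj.comp k1
    have c1 : ∀ {w : ℂ}, ‖w‖ ≤ 1 / 2 → Continuous fun ω : S → ℝ => (1 - w * ext S ω p)⁻¹ :=
      fun {w} hw => Continuous.inv₀ (continuous_const.sub (continuous_const.mul k1))
        fun ω => hne0 hw _ (norm_ext S ω p)
    have c2 : ∀ {w : ℂ}, ‖w‖ ≤ 1 / 2 →
        Continuous fun ω : S → ℝ => (1 - w * (starRingEnd ℂ) (ext S ω p))⁻¹ :=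
      fun {w} hw => Continuous.inv₀ (continuous_const.sub (continuous_const.mul k2))
        fun ω => hne0 hw _ (by rw [RCLike.norm_conj]; exact norm_ext S ω p)
    exact (((c1 (h1 p hp)).mul (c1 (h2 p hp))).mul ((c2 (h3 p hp)).mul (c2 (h4 p hp)))).mul
      continuous_const
  · rw [W4, norm_prod]
    refine Finset.prod_le_prod (fun p _ => norm_nonneg _) fun p hp => ?_
    rw [wf, norm_mul, norm_mul, norm_mul, norm_mul]
    have hc : ‖(starRingEnd ℂ) (ext S ω p)‖ = 1 := by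
      rw [RCLike.norm_conj]; exact norm_ext S ω p
    have g1 := hinv (h1 p hp) _ (norm_ext S ω p)
    have g2 := hinv (h2 p hp) _ (norm_ext S ω p)
    have g3 := hinv (h3 p hp) _ hc
    have g4 := hinv (h4 p hp) _ hc
    gcongr

lemma Es_zero4 (S : Finset ℕ) (x : ℕ → ℝ) (x₁ x₂ y₁ y₂ : ℕ → ℂ) (s : ℝ) (z : ℂ) :
    Es S (W4 S x₁ x₂ y₁ y₂) (Yt S x s) 0 z =
      cexp (-(z * s)) * ∏ p ∈ S, A4 (x p) (x₁ p) (x₂ p) (y₁ p) (y₂ p) z := by
  have e1 : ∀ f : ℕ → ℂ, W4 S x₁ x₂ y₁ y₂ f * (Yt S x s f ^ 0 * cexp (z * Yt S x s f)) =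
      cexp (-(z * s)) * ∏ p ∈ S, (wf (x₁ p) (x₂ p) (y₁ p) (y₂ p) (f p) *
        cexp (z * ((x p * (f p).re : ℝ) : ℂ))) := by
    intro f
    have h1 : cexp (z * Yt S x s f) =
        cexp (-(z * s)) * ∏ p ∈ S, cexp (z * ((x p * (f p).re : ℝ) : ℂ)) := by
      rw [← exp_sum, ← Complex.exp_add, Yt]
      congr 1
      push_cast
      rw [← Finset.mul_sum]
      ring
    rw [h1, Finset.prod_mul_distrib, W4]
    ring
  rw [Es]
  simp only [e1]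
  rw [ES, integral_const_mul]
  congr 1
  exact ES_prod S (fun p f => wf (x₁ p) (x₂ p) (y₁ p) (y₂ p) f *
    cexp (z * ((x p * f.re : ℝ) : ℂ)))

theorem core4 (V s K R : ℝ) (hV : 0 ≤ V) (hR : 1 ≤ R) (n : ℕ) {ε : ℝ} (hε : 0 < ε) :
    ∃ δ : ℝ, 0 < δ ∧
    ∀ (S : Finset ℕ) (x : ℕ → ℝ) (x₁ x₂ y₁ y₂ : ℕ → ℂ) (v : ℂ), (∀ p ∈ S, 0 ≤ x p ∧ x p ≤ δ) →
    (∀ p ∈ S, ‖x₁ p‖ ≤ R * x p) → (∀ p ∈ S, ‖x₂ p‖ ≤ R * x p) →
    (∀ p ∈ S, ‖y₁ p‖ ≤ R * x p) → (∀ p ∈ S, ‖y₂ p‖ ≤ R * x p) →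
    |∑ p ∈ S, x p ^ 2 - V| ≤ δ →
    ‖∑ p ∈ S, (x p : ℂ) * ((x₁ p + x₂ p + y₁ p + y₂ p) / 2) - v‖ ≤ δ → ‖v‖ ≤ K →
    ‖Es S (W4 S x₁ x₂ y₁ y₂) (Yt S x s) n 0 - mom n (v - s) ((V / 2 : ℝ) : ℂ)‖ ≤ ε := by
  set K₁ : ℝ := C0 * R ^ 3 + 2 * R with hK₁
  have hC0 : 0 ≤ C0 := by rw [C0]; norm_num
  have hK1 : 2 * R ≤ K₁ := by
    have : 0 ≤ C0 * R ^ 3 := by positivity
    linarith
  have hK11 : 1 ≤ K₁ := by linarith
  have hK10 : 0 < K₁ := by linarith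
  set A : ℝ := 3 * K₁ * (V + 1) * Real.exp (4 * K₁ * (V + 1)) + 4 * Real.exp (K + V) with hA
  have hA0 : 0 < A := by positivity
  set C : ℝ := n.factorial * (Real.exp |s| * A) with hC
  have hC0' : 0 < C := by positivity
  refine ⟨min (1 / (2 * K₁)) (ε / C), by positivity, ?_⟩
  set δ := min (1 / (2 * K₁)) (ε / C) with hδd
  have hδ0 : 0 < δ := by positivity
  have hδ6 : K₁ * δ ≤ 1 / 2 := by
    calc K₁ * δ ≤ K₁ * (1 / (2 * K₁)) := by gcongr; exact min_le_left _ _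
      _ = 1 / 2 := by field_simp
  have hδ4 : R * δ ≤ 1 / 4 := by nlinarith
  have hδ2 : 2 * δ ≤ 1 := by nlinarith
  have hδC : C * δ ≤ ε := by
    calc C * δ ≤ C * (ε / C) := by gcongr; exact min_le_right _ _
      _ = ε := by field_simp
  intro S x x₁ x₂ y₁ y₂ v hx g1 g2 g3 g4 hx2 hxv hv
  have hRx : ∀ p ∈ S, R * x p ≤ 1 / 2 := fun p hp => by
    have h2 := (hx p hp).2
    calc R * x p ≤ R * δ := by gcongr
      _ ≤ 1 / 2 := by linarith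
  have hW : BS S (W4 S x₁ x₂ y₁ y₂) := bs_W4 (fun p hp => (g1 p hp).trans (hRx p hp))
    (fun p hp => (g2 p hp).trans (hRx p hp)) (fun p hp => (g3 p hp).trans (hRx p hp))
    (fun p hp => (g4 p hp).trans (hRx p hp))
  have hY := bs_Yt S x s
  have hD : ∀ k z, HasDerivAt
      ((fun k z => Es S (W4 S x₁ x₂ y₁ y₂) (Yt S x s) k z - Gs (v - s) ((V / 2 : ℝ) : ℂ) k z) k)
      ((fun k z => Es S (W4 S x₁ x₂ y₁ y₂) (Yt S x s) k z -
        Gs (v - s) ((V / 2 : ℝ) : ℂ) k z) (k + 1) z) z :=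
    fun k z => (hasDerivAt_Es hW hY k z).sub (hasDerivAt_Gs _ _ k z)
  have hb : ∀ z : ℂ, ‖z‖ ≤ 1 →
      ‖(fun k z => Es S (W4 S x₁ x₂ y₁ y₂) (Yt S x s) k z -
        Gs (v - s) ((V / 2 : ℝ) : ℂ) k z) 0 z‖ ≤ Real.exp |s| * A * δ := by
    intro z hz
    simp only
    rw [Es_zero4]
    have hQ : ∑ p ∈ S, x p ^ 2 ≤ V + 1 := by
      have := (abs_le.mp hx2).2
      linarith
    have h1 := block_gen (S := S) (x := x) (v := fun p => (x₁ p + x₂ p + y₁ p + y₂ p) / 2)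
      (B := fun p => A4 (x p) (x₁ p) (x₂ p) (y₁ p) (y₂ p) z) hK11 hδ0.le hδ6 hx
      (fun p hp => by
        have a1 := g1 p hp
        have a2 := g2 p hp
        have a3 := g3 p hp
        have a4 := g4 p hp
        have h0 := (hx p hp).1
        rw [norm_div]
        simp only [Complex.norm_ofNat]
        have h5 : ‖x₁ p + x₂ p + y₁ p + y₂ p‖ ≤ ‖x₁ p‖ + ‖x₂ p‖ + ‖y₁ p‖ + ‖y₂ p‖ := by
          refine (norm_add_le _ _).trans ?_
          gcongr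
          refine (norm_add_le _ _).trans ?_
          gcongr
          exact norm_add_le _ _
        calc ‖x₁ p + x₂ p + y₁ p + y₂ p‖ / 2 ≤ 2 * R * x p := by linarith
          _ ≤ K₁ * x p := by gcongr) hz
      (fun p hp => by
        have h0 := (hx p hp).1
        have h5 := A4_bound h0 hR (hRx p hp) (g1 p hp) (g2 p hp) (g3 p hp) (g4 p hp) hz
        refine h5.trans ?_
        have h6 : 0 ≤ x p ^ 3 := by positivity
        calc C0 * (R * x p) ^ 3 = C0 * R ^ 3 * x p ^ 3 := by ring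
          _ ≤ K₁ * x p ^ 3 := by
            gcongr
            linarith) hQ
    set P := ∏ p ∈ S, A4 (x p) (x₁ p) (x₂ p) (y₁ p) (y₂ p) z with hP
    set a := z * (∑ p ∈ S, (x p : ℂ) * ((x₁ p + x₂ p + y₁ p + y₂ p) / 2)) +
      z ^ 2 * ((∑ p ∈ S, (x p : ℂ) ^ 2) / 4) with ha
    set b := z * v + z ^ 2 * ((V : ℂ) / 4) with hb
    have hab : ‖a - b‖ ≤ 2 * δ := by
      have e : a - b = z * (∑ p ∈ S, (x p : ℂ) * ((x₁ p + x₂ p + y₁ p + y₂ p) / 2) - v) +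
          z ^ 2 * ((((∑ p ∈ S, x p ^ 2 - V : ℝ)) : ℂ) / 4) := by
        rw [ha, hb]
        push_cast
        ring
      rw [e]
      refine (norm_add_le _ _).trans ?_
      rw [norm_mul, norm_mul, norm_pow, norm_div, norm_real, Real.norm_eq_abs]
      simp only [Complex.norm_ofNat]
      have hz2 : ‖z‖ ^ 2 ≤ 1 := pow_le_one₀ (norm_nonneg _) hz
      calc _ ≤ 1 * δ + 1 * (δ / 4) := by gcongr
        _ ≤ 2 * δ := by linarith
    have hbn : ‖b‖ ≤ K + V := by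
      refine (norm_add_le _ _).trans ?_
      rw [norm_mul, norm_mul, norm_pow, norm_div, norm_real, Real.norm_of_nonneg hV]
      simp only [Complex.norm_ofNat]
      have hz2 : ‖z‖ ^ 2 ≤ 1 := pow_le_one₀ (norm_nonneg _) hz
      calc _ ≤ 1 * K + 1 * (V / 4) := by gcongr
        _ ≤ K + V := by linarith
    have h2 := exp_diff (η := 2 * δ) hδ2 hab hbn
    have e2 : Gs (v - s) ((V / 2 : ℝ) : ℂ) 0 z = cexp (-(z * s)) * cexp b := by
      rw [Gs, ← Complex.exp_add, hb]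
      simp only [mom, one_mul]
      congr 1
      push_cast
      ring
    rw [e2, ← mul_sub, norm_mul]
    have h3 : ‖cexp (-(z * s))‖ ≤ Real.exp |s| := by
      rw [norm_exp]
      apply Real.exp_le_exp.mpr
      refine (re_le_norm _).trans ?_
      rw [norm_neg, norm_mul, norm_real, Real.norm_eq_abs]
      calc ‖z‖ * |s| ≤ 1 * |s| := by gcongr
        _ = |s| := one_mul _
    have h4 : ‖P - cexp b‖ ≤ A * δ := by
      have e3 : P - cexp b = (P - cexp a) + (cexp a - cexp b) := by ring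
      rw [e3]
      refine (norm_add_le _ _).trans ?_
      calc _ ≤ 3 * K₁ * δ * (V + 1) * Real.exp (4 * K₁ * (V + 1)) +
            2 * (2 * δ) * Real.exp (K + V) := add_le_add h1 h2
        _ = A * δ := by rw [hA]; ring
    calc _ ≤ Real.exp |s| * (A * δ) := by gcongr
      _ = _ := by ring
  have h := cauchy_tower _ hD hb n
  simp only [Gs, zero_mul, add_zero] at h
  simp only [ne_eq, OfNat.ofNat_ne_zero, not_false_eq_true, zero_pow, zero_mul, add_zero,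
    Complex.exp_zero, mul_one] at h
  refine h.trans ?_
  calc _ = C * δ := by rw [hC]; ring
    _ ≤ ε := hδC

lemma vv_boundU {lo hi U : ℝ} (h0 : 0 < lo) (h1 : lo < hi) (h2 : hi ≤ 1) (hU : 0 < U) {u : ℂ}
    (hu : ‖u‖ ≤ U) : ‖vv lo hi u‖ ≤ Real.exp U / lo * |hi - lo| := by
  apply intervalIntegral.norm_integral_le_of_norm_le_const
  intro x hx
  rw [Set.uIoc_of_le h1.le] at hx
  have hx0 : 0 < x := h0.trans hx.1
  rw [norm_div, norm_real, Real.norm_of_nonneg hx0.le, norm_exp]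
  have h3 : (-(u * x)).re ≤ U := by
    refine (re_le_norm _).trans ?_
    rw [norm_neg, norm_mul, norm_real, Real.norm_of_nonneg hx0.le]
    have : x ≤ 1 := hx.2.trans h2
    calc ‖u‖ * x ≤ U * 1 := by gcongr
      _ = U := mul_one _
  have h4 := hx.1.le
  gcongr

end Gauss4M

open Gauss4M in
/-- (R8) -/
theorem stGauss4 (h : StPrimeU) : StGauss4 := by
  intro lo hi s U hlo hlh hhi hU n ε hε
  set V := Real.log (hi / lo) with hV
  have hV0 : 0 ≤ V := Real.log_nonneg (by rw [one_le_div hlo]; exact hlh.le)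
  set R := Real.exp U with hR
  have hR1 : 1 ≤ R := Real.one_le_exp hU.le
  set K := 2 * (Real.exp U / lo * |hi - lo|) with hK
  obtain ⟨δ, hδ0, H₁⟩ := core4 V s K R hV0 hR1 n hε
  obtain ⟨T₁, hT₁, H⟩ := h lo hi U hlo hlh hhi hU (δ / 2) (by positivity)
  refine ⟨max T₁ (Real.exp (2 * |Real.log δ| / lo)), hT₁.trans (le_max_left _ _), ?_⟩
  intro T hT S hS u₁ u₂ u₃ u₄ hu₁ hu₂ hu₃ hu₄
  have hT1 : T₁ ≤ T := (le_max_left _ _).trans hT
  have hT3 : 3 ≤ T := hT₁.trans hT1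
  have hT0 : 0 < T := by linarith
  have hL : 0 < Real.log T := Real.log_pos (by linarith)
  have hL2 : 2 * |Real.log δ| / lo ≤ Real.log T := by
    rw [← Real.log_exp (2 * |Real.log δ| / lo)]
    exact Real.log_le_log (Real.exp_pos _) ((le_max_right _ _).trans hT)
  have hmem : ∀ p ∈ S, p.Prime ∧ Real.exp (lo * Real.log T) ≤ p ∧
      (p : ℝ) ≤ Real.exp (hi * Real.log T) := by
    intro p hp
    rw [hS] at hp
    exact K5.GaussB.mem_PS (Real.exp_pos _).le hp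
  -- the size of a prime
  have hx : ∀ p ∈ S, 0 ≤ (p : ℝ) ^ (-(1 / 2) : ℝ) ∧ (p : ℝ) ^ (-(1 / 2) : ℝ) ≤ δ := by
    intro p hp
    obtain ⟨h1, h2, h3⟩ := hmem p hp
    refine ⟨by positivity, ?_⟩
    have hp0 : (0 : ℝ) < p := by exact_mod_cast h1.pos
    have h4 : lo * Real.log T ≤ Real.log p := by
      rw [← Real.log_exp (lo * Real.log T)]
      exact Real.log_le_log (Real.exp_pos _) h2
    have h5 : 2 * |Real.log δ| ≤ lo * Real.log T := by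
      rw [div_le_iff₀ hlo] at hL2
      linarith
    rw [Real.rpow_def_of_pos hp0, ← Real.exp_log hδ0]
    apply Real.exp_le_exp.mpr
    have h6 := neg_abs_le (Real.log δ)
    nlinarith
  have hsq : ∀ p ∈ S, ((p : ℝ) ^ (-(1 / 2) : ℝ)) ^ 2 = (p : ℝ)⁻¹ := by
    intro p hp
    rw [← Real.rpow_natCast, ← Real.rpow_mul (by positivity), ← Real.rpow_neg_one]
    norm_num
  have hV1 : |∑ p ∈ S, ((p : ℝ) ^ (-(1 / 2) : ℝ)) ^ 2 - V| ≤ δ := by
    have h1 := H T hT1 0 (by simpa using hU.le)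
    rw [K5.GaussB.vv_zero hlo hlh, ← hS, ← hV] at h1
    have e : ∑ p ∈ S, (p : ℂ) ^ (-(1 + 0 / (Real.log T : ℂ))) =
        ((∑ p ∈ S, ((p : ℝ) ^ (-(1 / 2) : ℝ)) ^ 2 : ℝ) : ℂ) := by
      push_cast
      refine Finset.sum_congr rfl fun p hp => ?_
      rw [← ofReal_pow, hsq p hp]
      push_cast
      simp [cpow_neg_one]
    rw [e, ← ofReal_sub, norm_real, Real.norm_eq_abs] at h1
    linarith
  have hRe : ∀ f : ℕ → ℂ, ((((∑ p ∈ S, tw (1 / 2) f p).re - s : ℝ)) : ℂ) =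
      K5.GaussB.Yt S (fun p => (p : ℝ) ^ (-(1 / 2) : ℝ)) s f := by
    intro f
    rw [K5.GaussB.Yt, re_sum]
    congr 2
    refine Finset.sum_congr rfl fun p _ => ?_
    have h1 := tw_real (1 / 2) f p
    push_cast at h1
    rw [h1]
    simp
  -- one shift
  have hx1 : ∀ u : ℂ, ‖u‖ ≤ U → ∀ p ∈ S,
      ‖(p : ℂ) ^ (-(1 / 2 + u / Real.log T))‖ ≤ R * (p : ℝ) ^ (-(1 / 2) : ℝ) := by
    intro u hu p hp
    set w : ℂ := u / Real.log T with hw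
    have hwn : ‖w‖ ≤ U / Real.log T := by
      rw [hw, norm_div, norm_real, Real.norm_of_nonneg hL.le]
      gcongr
    obtain ⟨h1, h2, h3⟩ := hmem p hp
    have hp0 : (0 : ℝ) < p := by exact_mod_cast h1.pos
    have hp1 : 0 ≤ Real.log p := Real.log_nonneg (by exact_mod_cast h1.one_lt.le)
    have h4 : Real.log p ≤ Real.log T := by
      have h5 : Real.log p ≤ hi * Real.log T := by
        rw [← Real.log_exp (hi * Real.log T)]
        exact Real.log_le_log hp0 h3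
      nlinarith
    rw [norm_natCast_cpow_of_pos h1.pos]
    have e1 : (-(1 / 2 + w)).re = -(1 / 2) + -w.re := by
      simp
      ring
    rw [e1, Real.rpow_add hp0, mul_comm]
    have h6 : (p : ℝ) ^ (-w.re) ≤ R := by
      rw [Real.rpow_def_of_pos hp0]
      have h7 : Real.log p * -w.re ≤ U := by
        have h8 : -w.re ≤ U / Real.log T := by
          have := abs_re_le_norm w
          have := neg_abs_le w.re
          linarith
        calc Real.log p * -w.re ≤ Real.log p * (U / Real.log T) := by gcongr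
          _ ≤ Real.log T * (U / Real.log T) := by gcongr
          _ = U := by field_simp
      exact Real.exp_le_exp.mpr h7
    gcongr
  have hsum : ∀ u : ℂ, ‖u‖ ≤ U → ‖∑ p ∈ S, (((p : ℝ) ^ (-(1 / 2) : ℝ) : ℝ) : ℂ) *
      (p : ℂ) ^ (-(1 / 2 + u / Real.log T)) - vv lo hi u‖ ≤ δ / 2 := by
    intro u hu
    have h1 := H T hT1 u hu
    rw [← hS] at h1
    have e : ∑ p ∈ S, (((p : ℝ) ^ (-(1 / 2) : ℝ) : ℝ) : ℂ) *
        (p : ℂ) ^ (-(1 / 2 + u / Real.log T)) =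
        ∑ p ∈ S, (p : ℂ) ^ (-(1 + u / Real.log T)) :=
      Finset.sum_congr rfl fun p hp => K5.GaussB.sqrt_mul (hmem p hp).1.ne_zero _
    rw [e]
    exact h1
  have hmain := H₁ S (fun p => (p : ℝ) ^ (-(1 / 2) : ℝ))
    (fun p => (p : ℂ) ^ (-(1 / 2 + u₁ / Real.log T)))
    (fun p => (p : ℂ) ^ (-(1 / 2 + u₂ / Real.log T)))
    (fun p => (p : ℂ) ^ (-(1 / 2 + u₃ / Real.log T)))
    (fun p => (p : ℂ) ^ (-(1 / 2 + u₄ / Real.log T)))
    (1 / 2 * (vv lo hi u₁ + vv lo hi u₂ + vv lo hi u₃ + vv lo hi u₄)) hx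
    (hx1 u₁ hu₁) (hx1 u₂ hu₂) (hx1 u₃ hu₃) (hx1 u₄ hu₄) hV1
    (by
      have a1 := hsum u₁ hu₁
      have a2 := hsum u₂ hu₂
      have a3 := hsum u₃ hu₃
      have a4 := hsum u₄ hu₄
      have e : ∑ p ∈ S, (((p : ℝ) ^ (-(1 / 2) : ℝ) : ℝ) : ℂ) *
          (((p : ℂ) ^ (-(1 / 2 + u₁ / Real.log T)) + (p : ℂ) ^ (-(1 / 2 + u₂ / Real.log T)) +
            (p : ℂ) ^ (-(1 / 2 + u₃ / Real.log T)) +
            (p : ℂ) ^ (-(1 / 2 + u₄ / Real.log T))) / 2) -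
          1 / 2 * (vv lo hi u₁ + vv lo hi u₂ + vv lo hi u₃ + vv lo hi u₄) =
          1 / 2 * ((∑ p ∈ S, (((p : ℝ) ^ (-(1 / 2) : ℝ) : ℝ) : ℂ) *
            (p : ℂ) ^ (-(1 / 2 + u₁ / Real.log T)) - vv lo hi u₁) +
          (∑ p ∈ S, (((p : ℝ) ^ (-(1 / 2) : ℝ) : ℝ) : ℂ) *
            (p : ℂ) ^ (-(1 / 2 + u₂ / Real.log T)) - vv lo hi u₂) +
          (∑ p ∈ S, (((p : ℝ) ^ (-(1 / 2) : ℝ) : ℝ) : ℂ) *
            (p : ℂ) ^ (-(1 / 2 + u₃ / Real.log T)) - vv lo hi u₃) +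
          (∑ p ∈ S, (((p : ℝ) ^ (-(1 / 2) : ℝ) : ℝ) : ℂ) *
            (p : ℂ) ^ (-(1 / 2 + u₄ / Real.log T)) - vv lo hi u₄)) := by
        have e2 : ∑ p ∈ S, (((p : ℝ) ^ (-(1 / 2) : ℝ) : ℝ) : ℂ) *
            (((p : ℂ) ^ (-(1 / 2 + u₁ / Real.log T)) + (p : ℂ) ^ (-(1 / 2 + u₂ / Real.log T)) +
            (p : ℂ) ^ (-(1 / 2 + u₃ / Real.log T)) +
            (p : ℂ) ^ (-(1 / 2 + u₄ / Real.log T))) / 2) =
            1 / 2 * (∑ p ∈ S, (((p : ℝ) ^ (-(1 / 2) : ℝ) : ℝ) : ℂ) *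
              (p : ℂ) ^ (-(1 / 2 + u₁ / Real.log T)) +
            ∑ p ∈ S, (((p : ℝ) ^ (-(1 / 2) : ℝ) : ℝ) : ℂ) *
              (p : ℂ) ^ (-(1 / 2 + u₂ / Real.log T)) +
            ∑ p ∈ S, (((p : ℝ) ^ (-(1 / 2) : ℝ) : ℝ) : ℂ) *
              (p : ℂ) ^ (-(1 / 2 + u₃ / Real.log T)) +
            ∑ p ∈ S, (((p : ℝ) ^ (-(1 / 2) : ℝ) : ℝ) : ℂ) *
              (p : ℂ) ^ (-(1 / 2 + u₄ / Real.log T))) := by
          rw [← Finset.sum_add_distrib, ← Finset.sum_add_distrib, ← Finset.sum_add_distrib,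
            Finset.mul_sum]
          refine Finset.sum_congr rfl fun p _ => ?_
          ring
        rw [e2]
        ring
      rw [e, norm_mul]
      have h2 : ‖(1 / 2 : ℂ)‖ = 1 / 2 := by simp
      rw [h2]
      have h3 : ∀ a b c d : ℂ, ‖a‖ ≤ δ / 2 → ‖b‖ ≤ δ / 2 → ‖c‖ ≤ δ / 2 → ‖d‖ ≤ δ / 2 →
          ‖a + b + c + d‖ ≤ 2 * δ := by
        intro a b c d ha hb hc hd
        calc ‖a + b + c + d‖ ≤ ‖a‖ + ‖b‖ + ‖c‖ + ‖d‖ := by
              refine (norm_add_le _ _).trans ?_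
              gcongr
              refine (norm_add_le _ _).trans ?_
              gcongr
              exact norm_add_le _ _
          _ ≤ 2 * δ := by linarith
      have h4 := h3 _ _ _ _ a1 a2 a3 a4
      linarith)
    (by
      have a1 := vv_boundU hlo hlh hhi hU hu₁
      have a2 := vv_boundU hlo hlh hhi hU hu₂
      have a3 := vv_boundU hlo hlh hhi hU hu₃
      have a4 := vv_boundU hlo hlh hhi hU hu₄
      rw [norm_mul]
      have h2 : ‖(1 / 2 : ℂ)‖ = 1 / 2 := by simp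
      rw [h2]
      have h3 : ‖vv lo hi u₁ + vv lo hi u₂ + vv lo hi u₃ + vv lo hi u₄‖ ≤
          ‖vv lo hi u₁‖ + ‖vv lo hi u₂‖ + ‖vv lo hi u₃‖ + ‖vv lo hi u₄‖ := by
        refine (norm_add_le _ _).trans ?_
        gcongr
        refine (norm_add_le _ _).trans ?_
        gcongr
        exact norm_add_le _ _
      rw [hK]
      linarith)
  have e : E4 S (fun f => (((((∑ p ∈ S, tw (1 / 2) f p).re - s) ^ n : ℝ)) : ℂ))
      (u₁ / Real.log T) (u₂ / Real.log T) (u₃ / Real.log T) (u₄ / Real.log T) =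
      K5.GaussB.Es S (W4 S (fun p => (p : ℂ) ^ (-(1 / 2 + u₁ / Real.log T)))
        (fun p => (p : ℂ) ^ (-(1 / 2 + u₂ / Real.log T)))
        (fun p => (p : ℂ) ^ (-(1 / 2 + u₃ / Real.log T)))
        (fun p => (p : ℂ) ^ (-(1 / 2 + u₄ / Real.log T))))
        (K5.GaussB.Yt S (fun p => (p : ℝ) ^ (-(1 / 2) : ℝ)) s) n 0 := by
    rw [K5.GaussB.Es, E4, ES, ES, ← integral_mul_const]
    refine integral_congr_ae (Filter.Eventually.of_forall fun ω => ?_)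
    simp only
    set f := ext S ω with hf
    rw [zero_mul, Complex.exp_zero, mul_one, ofReal_pow, hRe f]
    have e1 : ZZ S (tw (1 / 2 + u₁ / Real.log T) f) * ZZ S (tw (1 / 2 + u₂ / Real.log T) f) *
        (starRingEnd ℂ) (ZZ S (tw (1 / 2 + (starRingEnd ℂ) (u₃ / Real.log T)) f) *
          ZZ S (tw (1 / 2 + (starRingEnd ℂ) (u₄ / Real.log T)) f)) *
        NF S (u₁ / Real.log T) (u₂ / Real.log T) (u₃ / Real.log T) (u₄ / Real.log T) =
        W4 S (fun p => (p : ℂ) ^ (-(1 / 2 + u₁ / Real.log T)))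
        (fun p => (p : ℂ) ^ (-(1 / 2 + u₂ / Real.log T)))
        (fun p => (p : ℂ) ^ (-(1 / 2 + u₃ / Real.log T)))
        (fun p => (p : ℂ) ^ (-(1 / 2 + u₄ / Real.log T))) f := by
      rw [map_mul, ZZ, ZZ, ZZ, ZZ, map_prod, map_prod, NF, W4, ← Finset.prod_mul_distrib,
        ← Finset.prod_mul_distrib, ← Finset.prod_mul_distrib, ← Finset.prod_mul_distrib]
      refine Finset.prod_congr rfl fun p hp => ?_
      have hp0 : p ≠ 0 := (hmem p hp).1.ne_zero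
      have hpc : (p : ℂ) ≠ 0 := by exact_mod_cast hp0
      have m2 : ∀ a b : ℂ, (p : ℂ) ^ (-(1 / 2 + a)) * (p : ℂ) ^ (-(1 / 2 + b)) =
          (p : ℂ) ^ (-(1 + a + b)) := by
        intro a b
        rw [← cpow_add _ _ hpc]
        congr 1
        ring
      have m4 : ∀ a b c d : ℂ, (p : ℂ) ^ (-(1 / 2 + a)) * (p : ℂ) ^ (-(1 / 2 + b)) *
          (p : ℂ) ^ (-(1 / 2 + c)) * (p : ℂ) ^ (-(1 / 2 + d)) =
          (p : ℂ) ^ (-(2 + a + b + c + d)) := by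
        intro a b c d
        rw [← cpow_add _ _ hpc, ← cpow_add _ _ hpc, ← cpow_add _ _ hpc]
        congr 1
        ring
      simp only [wf, nf]
      rw [map_inv₀, map_inv₀, map_sub, map_sub, map_one, tw, tw, tw, tw, map_mul, map_mul,
        K5.GaussB.conj_cpow_nat hp0, K5.GaussB.conj_cpow_nat hp0, m2, m2, m2, m2, m4]
      ring
    rw [← e1]
    ring
  rw [e]
  exact hmain

end K7
end Pool.Agent.Lib.MP_973905_nt
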