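import Pool.Agent.Lib.MP_973905_nt.K7.GhC
import Pool.Agent.Lib.MP_973905_nt.K4.BumpMom

/-! (R18b) the transform of the bump. -/

namespace Pool.Agent.Lib.MP_973905_nt
namespace K7

open MeasureTheory ProbabilityTheory Complex Filter Topology K1 K4 K5

namespace GhBX

open GhX GhCX

/-- The profile of the bump. -/
noncomputable def th (u : ℝ) : ℝ :=
  Real.exp u * (Real.smoothTransition (2 + u) - Real.smoothTransition (u - 1))

lemma th_smooth : ContDiff ℝ ((⊤ : ℕ∞) : WithTop ℕ∞) th := by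
  have h1 : ContDiff ℝ ((⊤ : ℕ∞) : WithTop ℕ∞) (fun x : ℝ => 2 + x) := by fun_prop
  have h2 : ContDiff ℝ ((⊤ : ℕ∞) : WithTop ℕ∞) (fun x : ℝ => x - 1) := by fun_prop
  exact Real.contDiff_exp.mul (((Real.smoothTransition.contDiff (n := ⊤)).comp h1).sub
    ((Real.smoothTransition.contDiff (n := ⊤)).comp h2))

lemma th_zero {u : ℝ} (h : 2 ≤ u) : th u = 0 := by
  unfold th
  rw [Real.smoothTransition.one_of_one_le (by linarith),
    Real.smoothTransition.one_of_one_le (by linarith), sub_self, mul_zero]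

lemma th_zero' {u : ℝ} (h : u ≤ -2) : th u = 0 := by
  unfold th
  rw [Real.smoothTransition.zero_of_nonpos (by linarith),
    Real.smoothTransition.zero_of_nonpos (by linarith), sub_self, mul_zero]

lemma th_supp : HasCompactSupport th := by
  refine HasCompactSupport.intro (K := Set.Icc (-2) 2) isCompact_Icc fun x hx => ?_
  rw [Set.mem_Icc, not_and_or, not_le, not_le] at hx
  rcases hx with hx | hx
  · exact th_zero' hx.le
  · exact th_zero hx.le

lemma dth_smooth : ContDiff ℝ ((⊤ : ℕ∞) : WithTop ℕ∞) (deriv th) :=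
  ((contDiff_infty_iff_deriv (𝕜 := ℝ)).1 th_smooth).2

lemma dth_zero {u : ℝ} (h : 2 < u ∨ u < -2) : deriv th u = 0 := by
  have h1 : th =ᶠ[𝓝 u] fun _ => 0 := by
    rcases h with h | h
    · filter_upwards [lt_mem_nhds h] with y hy
      exact th_zero hy.le
    · filter_upwards [gt_mem_nhds h] with y hy
      exact th_zero' hy.le
  rw [h1.deriv_eq, deriv_const]

/-- The bump in terms of its profile. -/
lemma fB_eq {δ : ℝ} (h0 : 0 < δ) (h1 : δ ≤ 1 / 2000) (x : ℝ) :
    fB δ x = Real.exp x * th (1 / 2 / δ - x / δ) := by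
  have e1 : (1 / 2 + 2 * δ - x) / δ = 2 + (1 / 2 / δ - x / δ) := by
    field_simp
    ring
  have e2 : (1 / 2 - δ - x) / δ = 1 / 2 / δ - x / δ - 1 := by
    field_simp
    ring
  have e3 : (1 / 2 - x) / δ = 1 / 2 / δ - x / δ := by ring
  have e4 : fB δ x = Real.exp x * th (1 / 2 / δ - x / δ) * Real.smoothTransition (x + 2) := by
    unfold fB Pc Pb th
    rw [e1, e2, e3, Real.exp_add]
    ring
  rw [e4]
  rcases le_or_gt (-1) x with hx | hx
  · rw [Real.smoothTransition.one_of_one_le (by linarith), mul_one]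
  · have e5 : th (1 / 2 / δ - x / δ) = 0 := by
      apply th_zero
      rw [← e3, le_div_iff₀ h0]
      linarith
    rw [e5]
    simp

/-- The integral of a rescaled function. -/
lemma scale {g : ℝ → ℝ} (hg : Continuous g) (hs : HasCompactSupport g) {δ : ℝ} (h0 : 0 < δ) :
    ∫ x in (-3 : ℝ)..1, Real.exp (2 * x) * |g (1 / 2 / δ - x / δ)| ≤
      Real.exp 2 * (δ * ∫ u : ℝ, |g u|) := by
  have hi : Integrable fun u : ℝ => |g u| := (hg.integrable_of_hasCompactSupport hs).abs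
  have hc : Continuous fun x : ℝ => |g (1 / 2 / δ - x / δ)| := (hg.comp (by fun_prop)).abs
  have i1 : IntervalIntegrable (fun x : ℝ => Real.exp (2 * x) * |g (1 / 2 / δ - x / δ)|)
      volume (-3) 1 := ((Real.continuous_exp.comp (by fun_prop)).mul hc).intervalIntegrable _ _
  have i2 : IntervalIntegrable (fun x : ℝ => Real.exp 2 * |g (1 / 2 / δ - x / δ)|)
      volume (-3) 1 := (continuous_const.mul hc).intervalIntegrable _ _
  have h1 : ∫ x in (-3 : ℝ)..1, Real.exp (2 * x) * |g (1 / 2 / δ - x / δ)| ≤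
      ∫ x in (-3 : ℝ)..1, Real.exp 2 * |g (1 / 2 / δ - x / δ)| := by
    refine intervalIntegral.integral_mono_on (by norm_num) i1 i2 fun x hx => ?_
    exact mul_le_mul_of_nonneg_right (Real.exp_le_exp.2 (by linarith [hx.2])) (abs_nonneg _)
  refine h1.trans ?_
  rw [intervalIntegral.integral_const_mul]
  refine mul_le_mul_of_nonneg_left ?_ (Real.exp_pos _).le
  have h2 : ∫ x in (-3 : ℝ)..1, |g (1 / 2 / δ - x / δ)| =
      δ • ∫ u in (1 / 2 / δ - 1 / δ)..(1 / 2 / δ - -3 / δ), |g u| :=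
    intervalIntegral.integral_comp_sub_div (fun u => |g u|) h0.ne' (1 / 2 / δ)
  rw [h2, smul_eq_mul]
  refine mul_le_mul_of_nonneg_left ?_ h0.le
  have h3 : (1 / 2 / δ - 1 / δ) ≤ (1 / 2 / δ - -3 / δ) := by
    have : 0 < δ⁻¹ := inv_pos.2 h0
    simp only [div_eq_mul_inv]
    nlinarith
  rw [intervalIntegral.integral_of_le h3]
  exact setIntegral_le_integral hi (Filter.Eventually.of_forall fun u => abs_nonneg _)

lemma un_sq (ξ : ℝ) : ξ ^ 2 ≤ ‖un 0 ξ‖ ^ 2 := by
  have h := Complex.abs_im_le_norm (un 0 ξ)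
  rw [un_im, abs_neg, abs_mul, abs_of_pos (by positivity : (0 : ℝ) < 2 * Real.pi)] at h
  have h1 : |ξ| ≤ 2 * Real.pi * |ξ| := by
    have := Real.pi_gt_three
    nlinarith [abs_nonneg ξ]
  rw [← sq_abs]
  exact pow_le_pow_left₀ (abs_nonneg _) (h1.trans h) 2

end GhBX

open GhX GhCX GhBX in
/-- (R18b) -/
theorem stGhB : StGhB := by
  set G0 : ℝ := ∫ u : ℝ, |th u| with hG0
  set G2 : ℝ := ∫ u : ℝ, |deriv (deriv th) u| with hG2
  have g0 : 0 ≤ G0 := integral_nonneg fun _ => abs_nonneg _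
  have g2 : 0 ≤ G2 := integral_nonneg fun _ => abs_nonneg _
  have hd1 : ∀ u, HasDerivAt th (deriv th u) u := fun u =>
    ((th_smooth.differentiable (by simp)) u).hasDerivAt
  have hd2 : ∀ u, HasDerivAt (deriv th) (deriv (deriv th) u) u := fun u =>
    ((dth_smooth.differentiable (by simp)) u).hasDerivAt
  have hc1 : Continuous (deriv th) := dth_smooth.continuous
  have hc2 : Continuous (deriv (deriv th)) := dth_smooth.continuous_deriv (by simp)
  refine ⟨4 * Real.exp 2 * (G0 + G2) + 1, by positivity, fun δ h0 h1 =>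
    ⟨BumpX.cutK_fB h0 h1, fun h ξ => ?_⟩⟩
  set c : ℝ := 1 / 2 / δ with hc
  have hδi : 0 < δ⁻¹ := inv_pos.2 h0
  have hδi2 : 2000 ≤ δ⁻¹ := by
    rw [le_inv_comm₀ (by norm_num) h0]
    linarith
  have hu3 : 2 < c - -3 / δ := by
    simp only [hc, div_eq_mul_inv]
    nlinarith
  have hu1 : c - 1 / δ < -2 := by
    simp only [hc, div_eq_mul_inv]
    nlinarith
  have hrep := rep h (P := fun x => th (c - x / δ)) (fun x => fB_eq h0 h1 x) ξ
  have hxi := abs_nonneg ξ
  have hden : 0 < 1 + δ * |ξ| := by positivity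
  -- the trivial bound
  have b1 : ‖FourG.gh h ξ‖ ≤ Real.exp 2 * (δ * G0) := by
    rw [hrep]
    refine (norm_le ξ).trans ?_
    simp only [norm_real, Real.norm_eq_abs]
    exact scale th_smooth.continuous th_supp h0
  -- two integrations by parts
  have b2 : ‖FourG.gh h ξ‖ ≤ Real.exp 2 * G2 / (δ * ‖un 0 ξ‖ ^ 2) := by
    have hun := un_norm_pos ξ
    have din : ∀ x : ℝ, HasDerivAt (fun x : ℝ => c - x / δ) (-δ⁻¹) x := by
      intro x
      have := ((hasDerivAt_id x).div_const δ).const_sub c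
      simpa [one_div] using this
    have e1 : ∀ x : ℝ, HasDerivAt (fun x : ℝ => th (c - x / δ))
        (deriv th (c - x / δ) * -δ⁻¹) x := fun x =>
      HasDerivAt.comp (h₂ := th) (h := fun x : ℝ => c - x / δ) x (hd1 (c - x / δ)) (din x)
    have e2 : ∀ x : ℝ, HasDerivAt (fun x : ℝ => deriv th (c - x / δ) * -δ⁻¹)
        (deriv (deriv th) (c - x / δ) * -δ⁻¹ * -δ⁻¹) x := fun x =>
      (HasDerivAt.comp (h₂ := deriv th) (h := fun x : ℝ => c - x / δ) x (hd2 (c - x / δ))
        (din x)).mul_const _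
    have c1 : Continuous fun x : ℝ => deriv th (c - x / δ) * -δ⁻¹ :=
      (hc1.comp (by fun_prop)).mul continuous_const
    have c2 : Continuous fun x : ℝ => deriv (deriv th) (c - x / δ) * -δ⁻¹ * -δ⁻¹ :=
      ((hc2.comp (by fun_prop)).mul continuous_const).mul continuous_const
    have p1 := parts (fun x => (e1 x).ofReal_comp) (Complex.continuous_ofReal.comp c1)
      (by rw [th_zero hu3.le]; simp) (by rw [th_zero' hu1.le]; simp) ξ
    have p2 := parts (fun x => (e2 x).ofReal_comp) (Complex.continuous_ofReal.comp c2)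
      (by rw [dth_zero (Or.inl hu3)]; simp) (by rw [dth_zero (Or.inr hu1)]; simp) ξ
    rw [hrep, p1, p2, norm_neg, norm_mul, norm_neg, norm_mul, norm_inv]
    have p3 : ‖∫ x in (-3 : ℝ)..1, cexp (un 0 ξ * x) *
        ((deriv (deriv th) (c - x / δ) * -δ⁻¹ * -δ⁻¹ : ℝ) : ℂ)‖ ≤
        δ⁻¹ ^ 2 * (Real.exp 2 * (δ * G2)) := by
      refine (norm_le ξ).trans ?_
      simp only [norm_real, Real.norm_eq_abs]
      have e3 : ∫ x in (-3 : ℝ)..1, Real.exp (2 * x) *
          |deriv (deriv th) (c - x / δ) * -δ⁻¹ * -δ⁻¹| =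
          δ⁻¹ ^ 2 * ∫ x in (-3 : ℝ)..1, Real.exp (2 * x) * |deriv (deriv th) (c - x / δ)| := by
        rw [← intervalIntegral.integral_const_mul]
        refine intervalIntegral.integral_congr fun x _ => ?_
        rw [abs_mul, abs_mul, abs_neg, abs_of_pos hδi]
        ring
      rw [e3]
      refine mul_le_mul_of_nonneg_left ?_ (by positivity)
      exact scale hc2 th_supp.deriv.deriv h0
    calc ‖un 0 ξ‖⁻¹ * (‖un 0 ξ‖⁻¹ * ‖∫ x in (-3 : ℝ)..1, cexp (un 0 ξ * x) *
          ((deriv (deriv th) (c - x / δ) * -δ⁻¹ * -δ⁻¹ : ℝ) : ℂ)‖)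
        ≤ ‖un 0 ξ‖⁻¹ * (‖un 0 ξ‖⁻¹ * (δ⁻¹ ^ 2 * (Real.exp 2 * (δ * G2)))) := by gcongr
      _ = _ := by field_simp
  rcases le_or_gt (δ * |ξ|) 1 with hd | hd
  · rw [le_div_iff₀ (by positivity)]
    have h4 : (1 + δ * |ξ|) ^ 2 ≤ 4 := by
      have : 0 ≤ δ * |ξ| := by positivity
      nlinarith
    calc ‖FourG.gh h ξ‖ * (1 + δ * |ξ|) ^ 2 ≤ Real.exp 2 * (δ * G0) * 4 := by gcongr
      _ = 4 * Real.exp 2 * G0 * δ := by ring
      _ ≤ (4 * Real.exp 2 * (G0 + G2) + 1) * δ := by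
        refine mul_le_mul_of_nonneg_right ?_ h0.le
        have : 0 ≤ 4 * Real.exp 2 * G2 := by positivity
        nlinarith
  · have hξ : 0 < |ξ| := by
      rcases hxi.lt_or_eq with h5 | h5
      · exact h5
      · rw [← h5, mul_zero] at hd
        linarith
    have h3 : ‖FourG.gh h ξ‖ ≤ Real.exp 2 * G2 / (δ * |ξ| ^ 2) := by
      refine b2.trans ?_
      have := un_sq ξ
      rw [sq_abs]
      have h6 : 0 < ξ ^ 2 := by rw [← sq_abs]; positivity
      gcongr
    refine h3.trans ?_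
    rw [div_le_div_iff₀ (by positivity) (by positivity)]
    have h4 : (1 + δ * |ξ|) ^ 2 ≤ 4 * (δ * |ξ|) ^ 2 := by nlinarith
    calc Real.exp 2 * G2 * (1 + δ * |ξ|) ^ 2 ≤ Real.exp 2 * G2 * (4 * (δ * |ξ|) ^ 2) := by gcongr
      _ = 4 * Real.exp 2 * G2 * δ * (δ * |ξ| ^ 2) := by ring
      _ ≤ (4 * Real.exp 2 * (G0 + G2) + 1) * δ * (δ * |ξ| ^ 2) := by
        refine mul_le_mul_of_nonneg_right (mul_le_mul_of_nonneg_right ?_ h0.le) (by positivity)
        have : 0 ≤ 4 * Real.exp 2 * G0 := by positivity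
        nlinarith

end K7
end Pool.Agent.Lib.MP_973905_nt
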