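import Pool.Agent.Lib.MP_973905_nt.K7.Stmts

/-! (R18a) our cutoffs and their transforms. -/

namespace Pool.Agent.Lib.MP_973905_nt
namespace K7

open MeasureTheory ProbabilityTheory Complex Filter Topology K1 K4 K5

namespace GhX

/-! ### The representation and the integration by parts -/

lemma un_re (ξ : ℝ) : (un 0 ξ).re = 2 := by
  simp [un]

lemma un_im (ξ : ℝ) : (un 0 ξ).im = -(2 * Real.pi * ξ) := by
  simp [un]

lemma un_norm_ge (ξ : ℝ) : 2 ≤ ‖un 0 ξ‖ := by
  have h := Complex.abs_re_le_norm (un 0 ξ)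
  rw [un_re] at h
  simpa using h

lemma un_norm_pos (ξ : ℝ) : 0 < ‖un 0 ξ‖ := by
  have := un_norm_ge ξ
  linarith

lemma un_ne (ξ : ℝ) : un 0 ξ ≠ 0 := norm_pos_iff.1 (un_norm_pos ξ)

lemma norm_exp_un (ξ x : ℝ) : ‖cexp (un 0 ξ * x)‖ = Real.exp (2 * x) := by
  rw [Complex.norm_exp]
  congr 1
  simp [un]

/-- The transform as an integral over a bounded interval. -/
lemma rep {φ P : ℝ → ℝ} (h : FourG.Cut φ) (hP : ∀ x, φ x = Real.exp x * P x) (ξ : ℝ) :
    FourG.gh h ξ = ∫ x in (-3 : ℝ)..1, cexp (un 0 ξ * x) * (P x : ℂ) := by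
  have h1 : FourG.gh h ξ = ∫ x : ℝ, cexp (un 0 ξ * x) * (P x : ℂ) := by
    have e1 : FourG.gh h ξ = FourierTransform.fourier
        (⇑((FourG.psi_supp h).toSchwartzMap (FourG.psi_smooth h))) ξ := by
      rw [FourG.gh, SchwartzMap.fourier_coe]
    rw [e1, Real.fourier_real_eq_integral_exp_smul]
    refine integral_congr_ae (Filter.Eventually.of_forall fun x => ?_)
    have e2 : ((FourG.psi_supp h).toSchwartzMap (FourG.psi_smooth h)) x = FourG.psi φ x := rfl
    simp only [smul_eq_mul]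
    rw [e2, FourG.psi, hP x]
    have e3 : ((Real.exp x * (Real.exp x * P x) : ℝ) : ℂ) =
        cexp ((2 * x : ℝ) : ℂ) * (P x : ℂ) := by
      rw [← mul_assoc, ← Real.exp_add]
      push_cast
      congr 2
      ring
    rw [e3, ← mul_assoc, ← Complex.exp_add]
    congr 2
    simp only [un]
    push_cast
    ring
  rw [h1, intervalIntegral.integral_eq_integral_of_support_subset]
  intro x hx
  rw [Function.mem_support] at hx
  have hPx : P x ≠ 0 := by
    intro h0
    apply hx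
    rw [h0]
    simp
  have hφ : φ x ≠ 0 := by
    rw [hP x]
    exact mul_ne_zero (Real.exp_pos x).ne' hPx
  constructor
  · by_contra hc
    push Not at hc
    exact hφ (h.zero' x (by linarith))
  · by_contra hc
    push Not at hc
    exact hφ (h.zero x hc.le)

/-- The trivial bound. -/
lemma norm_le {g : ℝ → ℂ} (ξ : ℝ) :
    ‖∫ x in (-3 : ℝ)..1, cexp (un 0 ξ * x) * g x‖ ≤
      ∫ x in (-3 : ℝ)..1, Real.exp (2 * x) * ‖g x‖ := by
  refine (intervalIntegral.norm_integral_le_integral_norm (by norm_num)).trans_eq ?_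
  refine intervalIntegral.integral_congr fun x _ => ?_
  rw [norm_mul, norm_exp_un]

/-- Integration by parts. -/
lemma parts {g g' : ℝ → ℂ} (hg : ∀ x, HasDerivAt g (g' x) x) (hc : Continuous g')
    (h3 : g (-3) = 0) (h1 : g 1 = 0) (ξ : ℝ) :
    ∫ x in (-3 : ℝ)..1, cexp (un 0 ξ * x) * g x =
      -((un 0 ξ)⁻¹ * ∫ x in (-3 : ℝ)..1, cexp (un 0 ξ * x) * g' x) := by
  have hu := un_ne ξ
  have hv : ∀ x : ℝ, HasDerivAt (fun x : ℝ => (un 0 ξ)⁻¹ * cexp (un 0 ξ * x))
      (cexp (un 0 ξ * x)) x := by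
    intro x
    have e1 : HasDerivAt (fun x : ℝ => un 0 ξ * (x : ℂ)) (un 0 ξ) x := by
      have := (Complex.ofRealCLM.hasDerivAt (x := x)).const_mul (un 0 ξ)
      simpa using this
    have e2 := (e1.cexp).const_mul (un 0 ξ)⁻¹
    refine e2.congr_deriv ?_
    field_simp
  have hE : Continuous fun x : ℝ => cexp (un 0 ξ * x) := by fun_prop
  have h := intervalIntegral.integral_mul_deriv_eq_deriv_mul (a := (-3 : ℝ)) (b := 1)
    (u := g) (u' := g') (v := fun x : ℝ => (un 0 ξ)⁻¹ * cexp (un 0 ξ * x))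
    (v' := fun x : ℝ => cexp (un 0 ξ * x)) (fun x _ => hg x) (fun x _ => hv x)
    (hc.intervalIntegrable _ _) (hE.intervalIntegrable _ _)
  rw [h3, h1, zero_mul, zero_mul, sub_zero, zero_sub] at h
  calc ∫ x in (-3 : ℝ)..1, cexp (un 0 ξ * x) * g x
      = ∫ x in (-3 : ℝ)..1, g x * cexp (un 0 ξ * x) := by
        refine intervalIntegral.integral_congr fun x _ => ?_
        ring
    _ = -∫ x in (-3 : ℝ)..1, g' x * ((un 0 ξ)⁻¹ * cexp (un 0 ξ * x)) := h
    _ = _ := by
        rw [← intervalIntegral.integral_const_mul]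
        congr 1
        refine intervalIntegral.integral_congr fun x _ => ?_
        ring

end GhX

namespace GhCX

open GhX

/-! ### The main cutoff -/

lemma PA_smooth {δ θ : ℝ} : ContDiff ℝ ((⊤ : ℕ∞) : WithTop ℕ∞) (PA δ θ) := by
  have h1 : ContDiff ℝ ((⊤ : ℕ∞) : WithTop ℕ∞) (fun x : ℝ => (1 / 2 - δ - θ - x) / δ) := by
    fun_prop
  have h2 : ContDiff ℝ ((⊤ : ℕ∞) : WithTop ℕ∞) (fun x : ℝ => 20 * (x + 2)) := by fun_prop
  exact ((Real.smoothTransition.contDiff (n := ⊤)).comp h1).mul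
    ((Real.smoothTransition.contDiff (n := ⊤)).comp h2)

lemma PA_zero {δ θ x : ℝ} (h0 : 0 < δ) (hx : 1 / 2 - δ - θ ≤ x) : PA δ θ x = 0 := by
  unfold PA
  rw [Real.smoothTransition.zero_of_nonpos, zero_mul]
  apply div_nonpos_of_nonpos_of_nonneg _ h0.le
  linarith

lemma PA_zero' {δ θ x : ℝ} (hx : x ≤ -2) : PA δ θ x = 0 := by
  unfold PA
  rw [Real.smoothTransition.zero_of_nonpos (x := 20 * (x + 2)) (by linarith), mul_zero]

lemma cutK_of {P : ℝ → ℝ} (hs : ContDiff ℝ ((⊤ : ℕ∞) : WithTop ℕ∞) P)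
    (h1 : ∀ x, 1 / 2 ≤ x → P x = 0) (h2 : ∀ x, x ≤ -2 → P x = 0) :
    CutK (fun x => Real.exp x * P x) := by
  refine ⟨⟨Real.contDiff_exp.mul hs, fun x hx => ?_, fun x hx => ?_⟩, fun x hx => ?_⟩
  · rw [h1 x (by linarith), mul_zero]
  · rw [h2 x hx, mul_zero]
  · rw [h1 x (by linarith), mul_zero]

lemma PA_half {δ θ : ℝ} (h0 : 0 < δ) (hθ : 0 ≤ θ) : ∀ x, 1 / 2 ≤ x → PA δ θ x = 0 :=
  fun _ hx => PA_zero h0 (by linarith)

lemma cutK_fC {δ θ : ℝ} (h0 : 0 < δ) (hθ : 0 ≤ θ) : CutK (fC δ θ) :=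
  cutK_of PA_smooth (PA_half h0 hθ) fun _ hx => PA_zero' hx

lemma cutK_fW {δ : ℝ} (h0 : 0 < δ) : CutK (fW δ) := by
  refine cutK_of (P := Pw δ) (PA_smooth.sub PA_smooth) (fun x hx => ?_) fun x hx => ?_
  · rw [Pw, PA_half h0 le_rfl x hx, PA_half h0 (by norm_num) x hx, sub_zero]
  · rw [Pw, PA_zero' hx, PA_zero' hx, sub_zero]

/-- The total variation of the cutoff with the weight `e^{2x}`. -/
lemma var_le {δ θ : ℝ} (h0 : 0 < δ) (h1 : δ ≤ 1 / 2000) (hθ : 0 ≤ θ) (hθ1 : θ ≤ 1 / 60) :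
    ∃ P' : ℝ → ℝ, Continuous P' ∧ (∀ x, HasDerivAt (PA δ θ) (P' x) x) ∧
      ∫ x in (-3 : ℝ)..1, Real.exp (2 * x) * |P' x| ≤ 11 / 4 := by
  set S := Real.smoothTransition with hS
  have hSd : ContDiff ℝ ((⊤ : ℕ∞) : WithTop ℕ∞) S := Real.smoothTransition.contDiff (n := ⊤)
  have hSd1 : ∀ x, HasDerivAt S (deriv S x) x := fun x =>
    ((hSd.differentiable (by simp)) x).hasDerivAt
  have hSc : Continuous (deriv S) := hSd.continuous_deriv (by simp)
  have hS0 : ∀ x, 0 ≤ deriv S x := fun x => Real.smoothTransition.monotone.deriv_nonneg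
  have hSz : ∀ x, x < 0 → deriv S x = 0 := by
    intro x hx
    have : S =ᶠ[𝓝 x] fun _ => 0 := by
      filter_upwards [gt_mem_nhds hx] with y hy
      exact Real.smoothTransition.zero_of_nonpos hy.le
    rw [this.deriv_eq, deriv_const]
  have hSo : ∀ x, 1 < x → deriv S x = 0 := by
    intro x hx
    have : S =ᶠ[𝓝 x] fun _ => 1 := by
      filter_upwards [lt_mem_nhds hx] with y hy
      exact Real.smoothTransition.one_of_one_le hy.le
    rw [this.deriv_eq, deriv_const]
  set a : ℝ → ℝ := fun x => S ((1 / 2 - δ - θ - x) / δ) with ha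
  set b : ℝ → ℝ := fun x => S (20 * (x + 2)) with hb
  set a' : ℝ → ℝ := fun x => deriv S ((1 / 2 - δ - θ - x) / δ) * δ⁻¹ with ha'
  set b' : ℝ → ℝ := fun x => deriv S (20 * (x + 2)) * 20 with hb'
  have hda : ∀ x, HasDerivAt a (-(a' x)) x := by
    intro x
    have e1 : HasDerivAt (fun x : ℝ => (1 / 2 - δ - θ - x) / δ) (-1 / δ) x :=
      ((hasDerivAt_id x).const_sub (1 / 2 - δ - θ)).div_const δ
    have e2 := (hSd1 ((1 / 2 - δ - θ - x) / δ)).comp x e1
    refine e2.congr_deriv ?_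
    simp only [ha']
    rw [neg_div, one_div]
    ring
  have hdb : ∀ x, HasDerivAt b (b' x) x := by
    intro x
    have e1 : HasDerivAt (fun x : ℝ => 20 * (x + 2)) 20 x := by
      simpa using ((hasDerivAt_id x).add_const 2).const_mul 20
    exact (hSd1 (20 * (x + 2))).comp x e1
  have hca : Continuous a' := (hSc.comp (by fun_prop)).mul continuous_const
  have hcb : Continuous b' := (hSc.comp (by fun_prop)).mul continuous_const
  have hca1 : Continuous a := continuous_iff_continuousAt.2 fun x => (hda x).continuousAt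
  have hcb1 : Continuous b := continuous_iff_continuousAt.2 fun x => (hdb x).continuousAt
  have ha0 : ∀ x, 0 ≤ a' x := fun x => mul_nonneg (hS0 _) (inv_nonneg.2 h0.le)
  have hb0 : ∀ x, 0 ≤ b' x := fun x => mul_nonneg (hS0 _) (by norm_num)
  refine ⟨fun x => -(a' x) * b x + a x * b' x, ?_, fun x => (hda x).mul (hdb x), ?_⟩
  · exact (hca.neg.mul hcb1).add (hca1.mul hcb)
  have key : ∀ x, Real.exp (2 * x) * |-(a' x) * b x + a x * b' x| ≤
      Real.exp 1 * a' x + Real.exp (-(39 / 10)) * b' x := by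
    intro x
    have e1 : |-(a' x) * b x + a x * b' x| ≤ a' x + b' x := by
      refine (abs_add_le _ _).trans ?_
      rw [abs_mul, abs_mul, abs_neg, abs_of_nonneg (ha0 x), abs_of_nonneg (hb0 x),
        abs_of_nonneg (Real.smoothTransition.nonneg _ : 0 ≤ b x),
        abs_of_nonneg (Real.smoothTransition.nonneg _ : 0 ≤ a x)]
      have g1 : a' x * b x ≤ a' x :=
        mul_le_of_le_one_right (ha0 x) (Real.smoothTransition.le_one _)
      have g2 : a x * b' x ≤ b' x :=
        mul_le_of_le_one_left (hb0 x) (Real.smoothTransition.le_one _)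
      linarith
    have e2 : Real.exp (2 * x) * a' x ≤ Real.exp 1 * a' x := by
      rcases le_or_gt x (1 / 2) with hx | hx
      · refine mul_le_mul_of_nonneg_right (Real.exp_le_exp.2 (by linarith)) (ha0 x)
      · have : a' x = 0 := by
          simp only [ha']
          rw [hSz, zero_mul]
          apply div_neg_of_neg_of_pos _ h0
          linarith
        rw [this, mul_zero, mul_zero]
    have e3 : Real.exp (2 * x) * b' x ≤ Real.exp (-(39 / 10)) * b' x := by
      rcases le_or_gt x (-(39 / 20)) with hx | hx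
      · refine mul_le_mul_of_nonneg_right (Real.exp_le_exp.2 (by linarith)) (hb0 x)
      · have : b' x = 0 := by
          simp only [hb']
          rw [hSo, zero_mul]
          linarith
        rw [this, mul_zero, mul_zero]
    calc Real.exp (2 * x) * |-(a' x) * b x + a x * b' x|
        ≤ Real.exp (2 * x) * (a' x + b' x) := mul_le_mul_of_nonneg_left e1 (Real.exp_pos _).le
      _ = Real.exp (2 * x) * a' x + Real.exp (2 * x) * b' x := by ring
      _ ≤ _ := add_le_add e2 e3
  have hInt : ∫ x in (-3 : ℝ)..1, Real.exp (2 * x) * |-(a' x) * b x + a x * b' x| ≤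
      ∫ x in (-3 : ℝ)..1, (Real.exp 1 * a' x + Real.exp (-(39 / 10)) * b' x) := by
    refine intervalIntegral.integral_mono_on (by norm_num) ?_ ?_ fun x _ => key x
    · exact ((Real.continuous_exp.comp (by fun_prop)).mul
        ((hca.neg.mul hcb1).add (hca1.mul hcb)).abs).intervalIntegrable _ _
    · exact ((continuous_const.mul hca).add (continuous_const.mul hcb)).intervalIntegrable _ _
  have hIa : ∫ x in (-3 : ℝ)..1, a' x = 1 := by
    have e1 := intervalIntegral.integral_eq_sub_of_hasDerivAt (a := (-3 : ℝ)) (b := 1)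
      (f := fun x => -(a x)) (f' := a') (fun x _ => by
        have h := (hda x).neg
        rw [neg_neg] at h
        exact h)
      (hca.intervalIntegrable _ _)
    rw [e1]
    have e2 : a 1 = 0 := by
      simp only [ha]
      apply Real.smoothTransition.zero_of_nonpos
      apply div_nonpos_of_nonpos_of_nonneg _ h0.le
      linarith
    have e3 : a (-3) = 1 := by
      simp only [ha]
      apply Real.smoothTransition.one_of_one_le
      rw [le_div_iff₀ h0]
      linarith
    rw [e2, e3]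
    norm_num
  have hIb : ∫ x in (-3 : ℝ)..1, b' x = 1 := by
    have e1 := intervalIntegral.integral_eq_sub_of_hasDerivAt (a := (-3 : ℝ)) (b := 1)
      (f := b) (f' := b') (fun x _ => hdb x) (hcb.intervalIntegrable _ _)
    rw [e1]
    have e2 : b 1 = 1 := Real.smoothTransition.one_of_one_le (by norm_num)
    have e3 : b (-3) = 0 := Real.smoothTransition.zero_of_nonpos (by norm_num)
    rw [e2, e3, sub_zero]
  refine hInt.trans ?_
  have ia : IntervalIntegrable (fun x : ℝ => Real.exp 1 * a' x) volume (-3) 1 :=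
    (continuous_const.mul hca).intervalIntegrable _ _
  have ib : IntervalIntegrable (fun x : ℝ => Real.exp (-(39 / 10)) * b' x) volume (-3) 1 :=
    (continuous_const.mul hcb).intervalIntegrable _ _
  rw [intervalIntegral.integral_add ia ib, intervalIntegral.integral_const_mul,
    intervalIntegral.integral_const_mul, hIa, hIb, mul_one, mul_one]
  have h5 := Real.exp_one_lt_d9
  have h6 : Real.exp (-(39 / 10)) ≤ 1 / 40 := by
    rw [Real.exp_neg, inv_le_comm₀ (Real.exp_pos _) (by norm_num)]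
    have h7 : (2.7 : ℝ) ≤ Real.exp 1 := by
      have := Real.exp_one_gt_d9
      linarith
    have h8 : Real.exp (39 / 10) = Real.exp 1 ^ 4 * Real.exp (-(1 / 10)) := by
      rw [← Real.exp_nat_mul, ← Real.exp_add]
      congr 1
      norm_num
    have h9 : (9 / 10 : ℝ) ≤ Real.exp (-(1 / 10)) := by
      have := Real.add_one_le_exp (-(1 / 10) : ℝ)
      linarith
    rw [h8]
    calc ((1 / 40 : ℝ))⁻¹ ≤ (2.7 : ℝ) ^ 4 * (9 / 10) := by norm_num
      _ ≤ Real.exp 1 ^ 4 * Real.exp (-(1 / 10)) := by gcongr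
  linarith

lemma gh_fC {δ θ : ℝ} (h0 : 0 < δ) (h1 : δ ≤ 1 / 2000) (hθ : 0 ≤ θ) (hθ1 : θ ≤ 1 / 60)
    (h : FourG.Cut (fC δ θ)) (ξ : ℝ) : ‖FourG.gh h ξ‖ ≤ 11 / 4 / ‖un 0 ξ‖ := by
  obtain ⟨P', hc, hd, hv⟩ := var_le h0 h1 hθ hθ1
  rw [rep h (P := PA δ θ) (fun x => rfl) ξ]
  have hd' : ∀ x : ℝ, HasDerivAt (fun x : ℝ => ((PA δ θ x : ℝ) : ℂ)) ((P' x : ℝ) : ℂ) x :=
    fun x => (hd x).ofReal_comp
  have hc' : Continuous fun x : ℝ => ((P' x : ℝ) : ℂ) := Complex.continuous_ofReal.comp hc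
  rw [parts hd' hc' (by rw [PA_zero' (by norm_num)]; simp)
    (by rw [PA_half h0 hθ 1 (by norm_num)]; simp) ξ, norm_neg, norm_mul, norm_inv, mul_comm,
    ← div_eq_mul_inv]
  refine div_le_div_of_nonneg_right ?_ (norm_nonneg _)
  refine (norm_le ξ).trans ?_
  simp only [norm_real, Real.norm_eq_abs]
  exact hv

/-! ### The window -/

lemma Pw_le {δ : ℝ} (h0 : 0 < δ) (x : ℝ) :
    |Pw δ x| ≤ (Set.Icc (1 / 2 - 1 / 60 - 2 * δ) (1 / 2 - δ)).indicator (fun _ => (1 : ℝ)) x := by
  set S := Real.smoothTransition with hS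
  have e : Pw δ x = (S ((1 / 2 - δ - 0 - x) / δ) - S ((1 / 2 - δ - 1 / 60 - x) / δ)) *
      S (20 * (x + 2)) := by
    unfold Pw PA
    ring
  by_cases hx : x ∈ Set.Icc (1 / 2 - 1 / 60 - 2 * δ) (1 / 2 - δ)
  · rw [Set.indicator_of_mem hx, e, abs_mul]
    have g1 : |S ((1 / 2 - δ - 0 - x) / δ) - S ((1 / 2 - δ - 1 / 60 - x) / δ)| ≤ 1 := by
      rw [abs_le]
      have a1 := Real.smoothTransition.nonneg ((1 / 2 - δ - 0 - x) / δ)
      have a2 := Real.smoothTransition.le_one ((1 / 2 - δ - 0 - x) / δ)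
      have a3 := Real.smoothTransition.nonneg ((1 / 2 - δ - 1 / 60 - x) / δ)
      have a4 := Real.smoothTransition.le_one ((1 / 2 - δ - 1 / 60 - x) / δ)
      simp only [hS]
      constructor <;> linarith
    have g2 : |S (20 * (x + 2))| ≤ 1 := by
      rw [abs_of_nonneg (Real.smoothTransition.nonneg _)]
      exact Real.smoothTransition.le_one _
    calc _ ≤ 1 * 1 := mul_le_mul g1 g2 (abs_nonneg _) zero_le_one
      _ = 1 := one_mul 1
  · rw [Set.indicator_of_notMem hx, e]
    rw [Set.mem_Icc, not_and_or, not_le, not_le] at hx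
    rcases hx with hx | hx
    · have a1 : S ((1 / 2 - δ - 0 - x) / δ) = 1 := by
        apply Real.smoothTransition.one_of_one_le
        rw [le_div_iff₀ h0]
        linarith
      have a2 : S ((1 / 2 - δ - 1 / 60 - x) / δ) = 1 := by
        apply Real.smoothTransition.one_of_one_le
        rw [le_div_iff₀ h0]
        linarith
      rw [a1, a2]
      simp
    · have a1 : S ((1 / 2 - δ - 0 - x) / δ) = 0 := by
        apply Real.smoothTransition.zero_of_nonpos
        apply div_nonpos_of_nonpos_of_nonneg _ h0.le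
        linarith
      have a2 : S ((1 / 2 - δ - 1 / 60 - x) / δ) = 0 := by
        apply Real.smoothTransition.zero_of_nonpos
        apply div_nonpos_of_nonpos_of_nonneg _ h0.le
        linarith
      rw [a1, a2]
      simp

lemma gh_fW_one {δ : ℝ} (h0 : 0 < δ) (h1 : δ ≤ 1 / 2000) (h : FourG.Cut (fW δ)) (ξ : ℝ) :
    ‖FourG.gh h ξ‖ ≤ 1 / 20 := by
  rw [rep h (P := Pw δ) (fun x => rfl) ξ]
  refine (norm_le ξ).trans ?_
  simp only [norm_real, Real.norm_eq_abs]
  set K : Set ℝ := Set.Icc (1 / 2 - 1 / 60 - 2 * δ) (1 / 2 - δ) with hK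
  have hPc : Continuous (Pw δ) := (PA_smooth.sub PA_smooth).continuous
  have i1 : IntervalIntegrable (fun x : ℝ => Real.exp (2 * x) * |Pw δ x|) volume (-3) 1 :=
    ((Real.continuous_exp.comp (by fun_prop)).mul hPc.abs).intervalIntegrable _ _
  have i2 : Integrable (K.indicator fun _ : ℝ => Real.exp 1) := by
    rw [integrable_indicator_iff measurableSet_Icc]
    exact integrableOn_const (by simp) (by simp)
  have key : ∀ x : ℝ, Real.exp (2 * x) * |Pw δ x| ≤ K.indicator (fun _ : ℝ => Real.exp 1) x := by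
    intro x
    have e1 := Pw_le h0 x
    by_cases hx : x ∈ K
    · rw [Set.indicator_of_mem hx] at e1 ⊢
      have hx2 : x ≤ 1 / 2 := by
        have := hx.2
        linarith
      calc Real.exp (2 * x) * |Pw δ x| ≤ Real.exp 1 * 1 := by
            refine mul_le_mul (Real.exp_le_exp.2 (by linarith)) e1 (abs_nonneg _)
              (Real.exp_pos _).le
        _ = Real.exp 1 := mul_one _
    · rw [Set.indicator_of_notMem hx] at e1 ⊢
      have e2 : |Pw δ x| = 0 := le_antisymm e1 (abs_nonneg _)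
      rw [e2, mul_zero]
  have e3 : ∫ x in (-3 : ℝ)..1, Real.exp (2 * x) * |Pw δ x| ≤
      ∫ x in (-3 : ℝ)..1, K.indicator (fun _ : ℝ => Real.exp 1) x :=
    intervalIntegral.integral_mono_on (by norm_num) i1 i2.intervalIntegrable fun x _ => key x
  have e4 : ∫ x in (-3 : ℝ)..1, K.indicator (fun _ : ℝ => Real.exp 1) x ≤
      ∫ x : ℝ, K.indicator (fun _ : ℝ => Real.exp 1) x := by
    rw [intervalIntegral.integral_of_le (by norm_num)]
    refine setIntegral_le_integral i2 (Filter.Eventually.of_forall fun x => ?_)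
    exact Set.indicator_nonneg (fun _ _ => (Real.exp_pos _).le) x
  have e5 : ∫ x : ℝ, K.indicator (fun _ : ℝ => Real.exp 1) x = (1 / 60 + δ) * Real.exp 1 := by
    rw [integral_indicator measurableSet_Icc, setIntegral_const, smul_eq_mul,
      Real.volume_real_Icc_of_le (by linarith)]
    congr 1
    ring
  refine (e3.trans e4).trans ?_
  rw [e5]
  have h5 := Real.exp_one_lt_d9
  have h6 := Real.exp_pos 1
  nlinarith

lemma gh_fW_two {δ : ℝ} (h0 : 0 < δ) (h1 : δ ≤ 1 / 2000) (h : FourG.Cut (fW δ)) (ξ : ℝ) :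
    ‖FourG.gh h ξ‖ ≤ 11 / 2 / ‖un 0 ξ‖ := by
  have k0 := (cutK_fC h0 (le_refl (0 : ℝ))).cut
  have k1 := (cutK_fC h0 (show (0 : ℝ) ≤ 1 / 60 by norm_num)).cut
  have e0 := gh_fC h0 h1 le_rfl (by norm_num) k0 ξ
  have e1 := gh_fC h0 h1 (by norm_num) le_rfl k1 ξ
  have e2 : FourG.gh h ξ = FourG.gh k0 ξ - FourG.gh k1 ξ := by
    rw [rep h (P := Pw δ) (fun x => rfl) ξ, rep k0 (P := PA δ 0) (fun x => rfl) ξ,
      rep k1 (P := PA δ (1 / 60)) (fun x => rfl) ξ]
    have hE : Continuous fun x : ℝ => cexp (un 0 ξ * x) := by fun_prop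
    have hp : ∀ θ : ℝ, Continuous fun x : ℝ => ((PA δ θ x : ℝ) : ℂ) := fun θ =>
      Complex.continuous_ofReal.comp PA_smooth.continuous
    have i0 : IntervalIntegrable (fun x : ℝ => cexp (un 0 ξ * x) * ((PA δ 0 x : ℝ) : ℂ))
        volume (-3) 1 := (hE.mul (hp 0)).intervalIntegrable _ _
    have i1 : IntervalIntegrable (fun x : ℝ => cexp (un 0 ξ * x) * ((PA δ (1 / 60) x : ℝ) : ℂ))
        volume (-3) 1 := (hE.mul (hp (1 / 60))).intervalIntegrable _ _
    rw [← intervalIntegral.integral_sub i0 i1]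
    refine intervalIntegral.integral_congr fun x _ => ?_
    simp only [Pw]
    push_cast
    ring
  rw [e2]
  refine (norm_sub_le _ _).trans ((add_le_add e0 e1).trans_eq ?_)
  ring

end GhCX

open GhX GhCX in
/-- (R18a) -/
theorem stGhC : StGhC := by
  intro δ h0 h1
  refine ⟨cutK_fC h0 le_rfl, cutK_fC h0 (by norm_num), cutK_fW h0, ?_, ?_⟩
  · intro θ hθ h ξ
    rcases hθ with rfl | rfl
    · exact gh_fC h0 h1 le_rfl (by norm_num) h ξ
    · exact gh_fC h0 h1 (by norm_num) le_rfl h ξ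
  · intro h ξ
    exact le_min (gh_fW_one h0 h1 h ξ) (gh_fW_two h0 h1 h ξ)

end K7
end Pool.Agent.Lib.MP_973905_nt
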