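import Pool.Agent.Lib.MP_973905_nt.K7.Stmts
import Pool.Agent.Lib.MP_973905_nt.K1.UpperHolder
import Pool.Agent.Lib.MP_973905_nt.K1.Lower

set_option autoImplicit false

/-! Module (A9) of folder K7: Hoelder's inequality between the second and the fourth moment. -/

namespace Pool.Agent.Lib.MP_973905_nt
namespace K7

open MeasureTheory ProbabilityTheory Complex Filter Topology K1 K4 K5

namespace Hold7

open Asm K1.Lower

lemma top_point (h1 : K5.StPoint) {κ : ℝ} (hκ0 : 0 < κ) (hκ1 : κ < 1) (T : ℝ) (M : ℕ)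
    (f : ℕ → ℂ) :
    0 < TFq κ T M f ∧ 0 < TGq κ T M f ∧ 1 ≤ TFq κ T M f ^ κ * TGq κ T M f ^ (1 - κ) := by
  have hf : ∀ i ∈ Finset.range (M - 6), 0 < pf κ i (Xq T i f - Vv i) := fun i _ =>
    (h1 κ i _ hκ0 hκ1).1
  have hg : ∀ i ∈ Finset.range (M - 6), 0 < pg κ i (Xq T i f - Vv i) := fun i _ =>
    (h1 κ i _ hκ0 hκ1).2.1
  refine ⟨Finset.prod_pos hf, Finset.prod_pos hg, ?_⟩
  unfold TFq TGq
  rw [← Real.finsetProd_rpow _ _ (fun j hj => (hf j hj).le),
    ← Real.finsetProd_rpow _ _ (fun j hj => (hg j hj).le), ← Finset.prod_mul_distrib]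
  exact Finset.one_le_prod fun i _ => (h1 κ i _ hκ0 hκ1).2.2

lemma hold_core (hP : K5.StPoint) {C c δ B₁ B₂ : ℝ} {M : ℕ} {T κ D : ℝ} (hδ0 : 0 < δ)
    (hδ : δ ≤ 1 / 16) (hM : 4 ≤ M) (hκ0 : 0 < κ) (hκ1 : κ < 1) (hT : 3 ≤ T) (hB₁ : 0 < B₁)
    (hB₂ : 0 < B₂) (hD : 0 < D)
    (hw : 8 * Real.exp (-Real.exp (3 / 4 * M)) ≤ δ)
    (hw1 : Real.exp (C * M) * D * (4 * Real.exp (-(1 / 2 * Real.exp (3 / 4 * M)))) +
      2 ^ (JJ T + 1) * T ^ (-c) ≤ δ * B₁)
    (hw2 : Real.exp (C * M) * D * (4 * Real.exp (-(1 / 2 * Real.exp (3 / 4 * M)))) +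
      2 ^ (JJ T + 1) * T ^ (-c) ≤ δ * B₂)
    (hcF : ∀ g h : Finset ℕ, Continuous fun t : ℝ => WF κ T M g h (fs (1 / 2 + t * I)))
    (hcG : ∀ g h : Finset ℕ, Continuous fun t : ℝ => WG κ T M g h (fs (1 / 2 + t * I)))
    (I1 : T⁻¹ * ∫ t in (0 : ℝ)..T, ‖riemannZeta (1 / 2 + t * I)‖ ^ 4 *
      WF κ T M (Finset.range (JJ T + 1)) ∅ (fs (1 / 2 + t * I)) ≤ B₁)
    (I2 : T⁻¹ * ∫ t in (0 : ℝ)..T, ‖riemannZeta (1 / 2 + t * I)‖ ^ 2 *
      WG κ T M (Finset.range (JJ T + 1)) ∅ (fs (1 / 2 + t * I)) ≤ B₂)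
    (I3 : ∀ g h : Finset ℕ, g ∪ h = Finset.range (JJ T + 1) →
      T⁻¹ * ∫ t in (0 : ℝ)..T, ‖riemannZeta (1 / 2 + t * I)‖ ^ 4 *
        WF κ T M g h (fs (1 / 2 + t * I)) ≤
        Real.exp (C * M) * D * ∏ j ∈ h, ss M (JJ T) j + T ^ (-c))
    (I4 : ∀ g h : Finset ℕ, g ∪ h = Finset.range (JJ T + 1) →
      T⁻¹ * ∫ t in (0 : ℝ)..T, ‖riemannZeta (1 / 2 + t * I)‖ ^ 2 *
        WG κ T M g h (fs (1 / 2 + t * I)) ≤
        Real.exp (C * M) * D * ∏ j ∈ h, ss M (JJ T) j + T ^ (-c)) :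
    (1 - δ) * (T⁻¹ * ∫ t in (0 : ℝ)..T, ‖riemannZeta (1 / 2 + t * I)‖ ^ (2 * (1 + κ))) ≤
      ((1 + δ) * B₁) ^ κ * ((1 + δ) * B₂) ^ (1 - κ) := by
  have hT1 : 1 < T := by linarith
  have hT0 : 0 < T := by linarith
  have hM4 : (4 : ℝ) ≤ M := by exact_mod_cast hM
  set J := JJ T with hJ
  set R := Finset.range (J + 1) with hR
  have hcardR : R.card = J + 1 := Finset.card_range _
  -- sums over the blocks
  set E := Real.exp (3 / 4 * (M : ℝ)) with hEd
  have hE4 : 4 ≤ E := by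
    have := Real.add_one_le_exp (3 / 4 * (M : ℝ))
    linarith
  set w := Real.exp (-E) with hwd
  have hw0 : 0 < w := Real.exp_pos _
  have hss0 : ∀ j, 0 ≤ ss M J j := fun j => (Real.exp_pos _).le
  have s1 : ∑ j ∈ R, Real.exp (-KK M J j) ≤ 2 * w := by
    have h1 := sum_exp_KK (M := M) (J := J) (a := 1) (by rw [one_mul]; linarith) one_pos
    simp only [one_mul] at h1
    exact h1
  have s2 : ∑ j ∈ R, ss M J j ≤ 2 * Real.exp (-(1 / 2 * E)) := by
    have h1 := sum_exp_KK (M := M) (J := J) (a := 1 / 2) (by linarith) (by norm_num)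
    refine le_trans (le_of_eq ?_) h1
    refine Finset.sum_congr rfl fun j _ => ?_
    rw [ss]; congr 1; ring
  have w4 : Real.exp (-(1 / 2 * E)) ≤ 1 / 4 := by
    have h1 : Real.exp (-(1 / 2 * E)) ≤ Real.exp (-2) := Real.exp_le_exp.2 (by linarith)
    have h2 : Real.exp (-2) ≤ 1 / 4 := by
      rw [Real.exp_neg, ← one_div]
      apply one_div_le_one_div_of_le (by norm_num)
      have h3 : Real.exp 2 = Real.exp 1 * Real.exp 1 := by rw [← Real.exp_add]; norm_num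
      have h4 := Real.exp_one_gt_d9
      rw [h3]
      nlinarith
    exact h1.trans h2
  have hprodss : ∏ j ∈ R, (1 + ss M J j) - 1 ≤ 4 * Real.exp (-(1 / 2 * E)) := by
    have h1 := prod_one_add_le (R := R) hss0 (by linarith)
    linarith
  -- powers of T
  have hTk0 : 0 < T ^ (-c) := Real.rpow_pos_of_pos hT0 _
  -- zeta on the line
  set Z : ℝ → ℝ := fun t => ‖riemannZeta (1 / 2 + t * I)‖ with hZ
  have hZ0 : ∀ t, 0 ≤ Z t := fun t => norm_nonneg _
  have hZc : Continuous Z := continuous_zeta_half.norm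
  have hTF0 : ∀ f, 0 < TFq κ T M f := fun f => (top_point hP hκ0 hκ1 T M f).1
  have hTG0 : ∀ f, 0 < TGq κ T M f := fun f => (top_point hP hκ0 hκ1 T M f).2.1
  have hWF0 : ∀ g h f, 0 ≤ WF κ T M g h f := fun g h f => by
    have := (hTF0 f).le
    unfold WF
    positivity
  have hWG0 : ∀ g h f, 0 ≤ WG κ T M g h f := fun g h f => by
    have := (hTG0 f).le
    unfold WG
    positivity
  set F1 : ℝ → ℝ := fun t => ∑ g ∈ R.powerset,
    Z t ^ 4 * WF κ T M g (R \ g) (fs (1 / 2 + t * I)) with hF1d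
  set F2 : ℝ → ℝ := fun t => ∑ g ∈ R.powerset,
    Z t ^ 2 * WG κ T M g (R \ g) (fs (1 / 2 + t * I)) with hF2d
  have c1 : ∀ g : Finset ℕ, Continuous
      (fun t => Z t ^ 4 * WF κ T M g (R \ g) (fs (1 / 2 + t * I))) := fun g =>
    (hZc.pow 4).mul (hcF g (R \ g))
  have c2 : ∀ g : Finset ℕ, Continuous
      (fun t => Z t ^ 2 * WG κ T M g (R \ g) (fs (1 / 2 + t * I))) := fun g =>
    (hZc.pow 2).mul (hcG g (R \ g))
  have hF1c : Continuous F1 := continuous_finsetSum _ fun g _ => c1 g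
  have hF2c : Continuous F2 := continuous_finsetSum _ fun g _ => c2 g
  have hF10 : ∀ t, 0 ≤ F1 t := fun t => Finset.sum_nonneg fun g _ => by
    have := hWF0 g (R \ g) (fs (1 / 2 + t * I))
    positivity
  have hF20 : ∀ t, 0 ≤ F2 t := fun t => Finset.sum_nonneg fun g _ => by
    have := hWG0 g (R \ g) (fs (1 / 2 + t * I))
    positivity
  have hF1i : Integrable F1 (Lower.AV T) := integrable_AV hT0 hF1c
  have hF2i : Integrable F2 (Lower.AV T) := integrable_AV hT0 hF2c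
  have hss4 : Real.exp (C * M) * D * (∏ j ∈ R, (1 + ss M J j) - 1) ≤
      Real.exp (C * M) * D * (4 * Real.exp (-(1 / 2 * E))) := by gcongr
  have hF1 : ∫ t, F1 t ∂(Lower.AV T) ≤ (1 + δ) * B₁ := by
    rw [hF1d, integral_finsetSum _ fun g _ => integrable_AV hT0 (c1 g)]
    have h1 := sum_bound (R := R) (u := fun g => ∫ t, (fun t =>
      Z t ^ 4 * WF κ T M g (R \ g) (fs (1 / 2 + t * I))) t ∂(Lower.AV T)) (s := ss M J)
      (A := Real.exp (C * M) * D) (B := B₁) (e := T ^ (-c)) hTk0.le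
      (by
        simp only [Finset.sdiff_self]
        rw [integral_AV hT0, smul_eq_mul]
        exact I1)
      (fun g hg => by
        have h3 := I3 g (R \ g) (Finset.union_sdiff_of_subset (Finset.mem_powerset.1 hg))
        rw [integral_AV hT0, smul_eq_mul]
        exact h3)
    refine h1.trans ?_
    rw [hcardR]
    linarith
  have hF2 : ∫ t, F2 t ∂(Lower.AV T) ≤ (1 + δ) * B₂ := by
    rw [hF2d, integral_finsetSum _ fun g _ => integrable_AV hT0 (c2 g)]
    have h1 := sum_bound (R := R) (u := fun g => ∫ t, (fun t =>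
      Z t ^ 2 * WG κ T M g (R \ g) (fs (1 / 2 + t * I))) t ∂(Lower.AV T)) (s := ss M J)
      (A := Real.exp (C * M) * D) (B := B₂) (e := T ^ (-c)) hTk0.le
      (by
        simp only [Finset.sdiff_self]
        rw [integral_AV hT0, smul_eq_mul]
        exact I2)
      (fun g hg => by
        have h3 := I4 g (R \ g) (Finset.union_sdiff_of_subset (Finset.mem_powerset.1 hg))
        rw [integral_AV hT0, smul_eq_mul]
        exact h3)
    refine h1.trans ?_
    rw [hcardR]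
    linarith
  have hpt : ∀ t, (1 - δ) * Z t ^ (2 * (1 + κ)) ≤ F1 t ^ κ * F2 t ^ (1 - κ) := by
    intro t
    set f := fs (1 / 2 + t * I) with hf
    set x : ℕ → ℝ := fun j => ‖Ntr (ll M J j) (κ - 1) (Pj M (Sj T M J j) f)‖ ^ 2 +
      ‖(Pj M (Sj T M J j) f / (KK M J j : ℂ)) ^ (rr M J j)‖ ^ 2 with hx
    set y : ℕ → ℝ := fun j => ‖Ntr (ll M J j) κ (Pj M (Sj T M J j) f)‖ ^ 2 +
      ‖(Pj M (Sj T M J j) f / (KK M J j : ℂ)) ^ (rr M J j)‖ ^ 2 with hy
    have hx0 : ∀ j, 0 ≤ x j := fun j => by simp only [hx]; positivity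
    have hy0 : ∀ j, 0 ≤ y j := fun j => by simp only [hy]; positivity
    obtain ⟨hU0, hV0, hUV⟩ := top_point hP hκ0 hκ1 T M f
    set U := TFq κ T M f with hU
    set V := TGq κ T M f with hV
    have e1 : F1 t = Z t ^ 4 * ((∏ j ∈ R, x j) * U) := by
      simp only [hF1d, WF]
      rw [← Finset.mul_sum, ← Finset.sum_mul, expand]
    have e2 : F2 t = Z t ^ 2 * ((∏ j ∈ R, y j) * V) := by
      simp only [hF2d, WG]
      rw [← Finset.mul_sum, ← Finset.sum_mul, expand]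
    have hPx : 0 ≤ ∏ j ∈ R, x j := Finset.prod_nonneg fun j _ => hx0 j
    have hPy : 0 ≤ ∏ j ∈ R, y j := Finset.prod_nonneg fun j _ => hy0 j
    have e5 : Z t ^ (4 * κ) * Z t ^ (2 * (1 - κ)) = Z t ^ (2 * (1 + κ)) := by
      rw [← Real.rpow_add_of_nonneg (hZ0 t) (by linarith) (by linarith)]
      congr 1
      ring
    have e3 : F1 t ^ κ * F2 t ^ (1 - κ) = Z t ^ (2 * (1 + κ)) *
        ((∏ j ∈ R, (x j ^ κ * y j ^ (1 - κ))) * (U ^ κ * V ^ (1 - κ))) := by
      have q1 : F1 t ^ κ = (Z t ^ 4) ^ κ * ((∏ j ∈ R, x j) ^ κ * U ^ κ) := by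
        rw [e1, Real.mul_rpow (by positivity) (by positivity), Real.mul_rpow hPx hU0.le]
      have q2 : F2 t ^ (1 - κ) = (Z t ^ 2) ^ (1 - κ) *
          ((∏ j ∈ R, y j) ^ (1 - κ) * V ^ (1 - κ)) := by
        rw [e2, Real.mul_rpow (by positivity) (by positivity), Real.mul_rpow hPy hV0.le]
      rw [q1, q2, Finset.prod_mul_distrib,
        Real.finsetProd_rpow _ _ (fun j _ => hx0 j), Real.finsetProd_rpow _ _ (fun j _ => hy0 j),
        ← Real.rpow_natCast (Z t) 4, ← Real.rpow_natCast (Z t) 2, ← Real.rpow_mul (hZ0 t),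
        ← Real.rpow_mul (hZ0 t), ← e5]
      push_cast
      ring
    rw [e3, mul_comm]
    apply mul_le_mul_of_nonneg_left _ (Real.rpow_nonneg (hZ0 t) _)
    have h1 : ∏ j ∈ R, (1 - Real.exp (-KK M J j)) ^ 2 ≤ ∏ j ∈ R, (x j ^ κ * y j ^ (1 - κ)) := by
      refine Finset.prod_le_prod (fun j _ => by positivity) fun j hj => ?_
      have hjJ : j ≤ J := by
        have := Finset.mem_range.1 hj
        omega
      exact always_ratio (ll M J j) (rr M J j) hκ0.le hκ1.le (Len.KK_ge_one hjJ) (Nat.le_ceil _) _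
    have h2 : 1 - ∑ j ∈ R, Real.exp (-KK M J j) ≤ ∏ j ∈ R, (1 - Real.exp (-KK M J j)) := by
      apply one_sub_sum_le (fun j => (Real.exp_pos _).le)
      intro j
      rw [Real.exp_le_one_iff]
      have : 0 < KK M J j := Real.exp_pos _
      linarith
    rw [Finset.prod_pow] at h1
    have h3 : 1 - 2 * w ≤ ∏ j ∈ R, (1 - Real.exp (-KK M J j)) := by linarith
    have h4 : (1 - 2 * w) ^ 2 ≤ (∏ j ∈ R, (1 - Real.exp (-KK M J j))) ^ 2 :=
      pow_le_pow_left₀ (by linarith) h3 2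
    have h5 : (1 - 2 * w) ^ 2 = 1 - 4 * w + 4 * w ^ 2 := by ring
    have h6 : 0 ≤ w ^ 2 := sq_nonneg w
    have h7 : 1 - δ ≤ ∏ j ∈ R, (x j ^ κ * y j ^ (1 - κ)) := by linarith
    calc 1 - δ ≤ (∏ j ∈ R, (x j ^ κ * y j ^ (1 - κ))) * 1 := by linarith
      _ ≤ _ := mul_le_mul_of_nonneg_left hUV (by linarith)
  have hB : 0 < (1 + δ) * B₁ := by positivity
  have hB2 : 0 < (1 + δ) * B₂ := by positivity
  have h1 := holder2 hF1i hF2i hF10 hF20 hκ0.le hκ1.le hB hB2 hF1 hF2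
  refine le_trans ?_ h1
  have hXc : Continuous (fun t => Z t ^ (2 * (1 + κ))) :=
    hZc.rpow_const fun _ => Or.inr (by linarith)
  have e6 : T⁻¹ * ∫ t in (0 : ℝ)..T, ‖riemannZeta (1 / 2 + t * I)‖ ^ (2 * (1 + κ)) =
      ∫ t, Z t ^ (2 * (1 + κ)) ∂(Lower.AV T) := by
    rw [integral_AV hT0, smul_eq_mul]
  rw [e6, ← integral_const_mul]
  exact integral_mono ((integrable_AV hT0 hXc).const_mul _)
    (holder2_integrable hF1i hF2i hF10 hF20 hκ0.le hκ1.le) hpt

lemma calc_id (a l p q g M κ : ℝ) :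
    (Real.exp a * (Real.exp (g - M) * Real.exp l) ^ ((1 + κ) ^ 2 - 4) * Real.exp l ^ (4 : ℝ) *
        Real.exp p) ^ κ *
      (Real.exp a * (Real.exp (g - M) * Real.exp l) ^ ((1 + κ) ^ 2 - 1) * Real.exp l *
        Real.exp q) ^ (1 - κ) =
    Real.exp a * Real.exp l ^ ((1 + κ) ^ 2) *
      (Real.exp ((M - g) * (κ * (1 - κ))) * Real.exp p ^ κ * Real.exp q ^ (1 - κ)) := by
  simp only [← Real.exp_add, ← Real.exp_mul]
  congr 1
  ring

lemma calc_main {a L P Q κ : ℝ} {T : ℝ} {M : ℕ} (ha : 0 < a) (hL : 0 < L) (hP : 0 < P)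
    (hQ : 0 < Q) (hLT : Real.log T = L) :
    (a * lM T M ^ ((1 + κ) ^ 2 - 4) * L ^ 4 * P) ^ κ *
      (a * lM T M ^ ((1 + κ) ^ 2 - 1) * L * Q) ^ (1 - κ) =
      a * L ^ ((1 + κ) ^ 2) * (Real.exp ((M - Real.eulerMascheroniConstant) * (κ * (1 - κ))) *
        P ^ κ * Q ^ (1 - κ)) := by
  have h := calc_id (Real.log a) (Real.log L) (Real.log P) (Real.log Q)
    Real.eulerMascheroniConstant M κ
  rw [Real.exp_log ha, Real.exp_log hL, Real.exp_log hP, Real.exp_log hQ] at h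
  rw [lM, hLT, ← Real.rpow_natCast L 4]
  push_cast
  exact h

lemma lM_pow {T : ℝ} {M : ℕ} {L x : ℝ} (hL : 0 < L) (hLT : Real.log T = L) :
    lM T M ^ x = Real.exp ((Real.eulerMascheroniConstant - M) * x) * L ^ x := by
  rw [lM, hLT, Real.mul_rpow (Real.exp_pos _).le hL.le, ← Real.exp_mul]

lemma prod_low {C : ℝ} (hC : 1 ≤ C) (a : ℕ → ℝ) (h : ∀ i, C⁻¹ ≤ a i) (M : ℕ) :
    Real.exp (-(Real.log C * M)) ≤ ∏ i ∈ Finset.range (M - 6), a i := by
  have hC0 : 0 < C := by linarith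
  have h1 : (C⁻¹) ^ (M - 6) ≤ ∏ i ∈ Finset.range (M - 6), a i := by
    calc (C⁻¹) ^ (M - 6) = ∏ i ∈ Finset.range (M - 6), C⁻¹ := by simp
      _ ≤ _ := Finset.prod_le_prod (fun i _ => by positivity) fun i _ => h i
  refine le_trans ?_ h1
  have h2 : (C⁻¹) ^ (M - 6) = Real.exp (-(Real.log C * ((M - 6 : ℕ) : ℝ))) := by
    rw [Real.exp_neg, Real.exp_mul, Real.exp_log hC0, Real.rpow_natCast, inv_pow]
  rw [h2]
  apply Real.exp_le_exp.2
  have h3 : ((M - 6 : ℕ) : ℝ) ≤ M := by exact_mod_cast Nat.sub_le M 6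
  have h4 : 0 ≤ Real.log C := Real.log_nonneg hC
  have h5 := mul_le_mul_of_nonneg_left h3 h4
  linarith

end Hold7

open Asm Hold7 in
/-- (A9) Hoelder's inequality between the second and the fourth moment -/
theorem stHold7 (hp : K5.StPoint) (hs : StSharp4W) (hF : StF4W) (hG : StSideA) (hB : StWB)
    (hA : StAK7) (hr : K5.StRho) : StHold7 := by
  intro κ hκ0 hκ1 ε hε
  have h2m := hs κ hκ0 hκ1
  obtain ⟨C₂, κ₂, hC₂, hκ₂, M₂, h2c⟩ := hF κ hκ0 hκ1
  obtain ⟨h3m, C₃, κ₃, hC₃, hκ₃, M₃, h3c⟩ := hG κ hκ0 hκ1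
  obtain ⟨M₇, hM₇7, h7c⟩ := hB κ hκ0 hκ1
  obtain ⟨-, -, -, Cr, hCr, hab, -, -⟩ := hr κ hκ0 hκ1
  have hak : 0 < aK (1 + κ) := (hA (1 + κ) (by linarith) (by linarith)).1
  obtain ⟨a, ha⟩ : ∃ a, a = aK (1 + κ) := ⟨_, rfl⟩
  obtain ⟨k, hk⟩ : ∃ k, k = (1 + κ) ^ 2 := ⟨_, rfl⟩
  have hk1 : 1 < k := by rw [hk]; nlinarith
  have hk4 : k < 4 := by rw [hk]; nlinarith
  rw [← ha] at hak
  simp only [← ha, ← hk] at h3m
  simp only [← hk] at h2c h3c
  set δ := min ε 1 / 16 with hδd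
  have hδ0 : 0 < δ := by positivity
  have hδ1 : δ ≤ 1 / 16 := by
    have := min_le_right ε 1
    rw [hδd]; linarith
  have hδε : 16 * δ ≤ ε := by
    have := min_le_left ε 1
    rw [hδd]; linarith
  obtain ⟨M₄, h4⟩ := h2m δ hδ0
  obtain ⟨M₅, h5⟩ := h3m δ hδ0
  set C := max C₂ C₃ with hCd
  set c := min κ₂ κ₃ with hcd
  have hC : 0 < C := lt_max_of_lt_left hC₂
  have hc : 0 < c := lt_min hκ₂ hκ₃
  set C' := Real.log Cr + 3 with hC'd
  have hC' : 0 < C' := by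
    have := Real.log_nonneg hCr
    linarith
  obtain ⟨M₆, hM₆4, hM₆⟩ := UpH.exists_M (C + C') (δ * (min a 1 / 12)) (by positivity)
    (by positivity)
  refine ⟨max (max (max M₂ M₃) M₇) (max (max M₄ M₅) M₆), fun M hM => ?_⟩
  have hMM₂ : M₂ ≤ M := by omega
  have hMM₃ : M₃ ≤ M := by omega
  have hMM₄ : M₄ ≤ M := by omega
  have hMM₅ : M₅ ≤ M := by omega
  have hMM₆ : M₆ ≤ M := by omega
  have hMM₇ : M₇ ≤ M := by omega
  have hM4 : 4 ≤ M := hM₆4.trans hMM₆
  have hM4' : (4 : ℝ) ≤ M := by exact_mod_cast hM4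
  have hw := hM₆ M hMM₆
  obtain ⟨T₂, hT₂3, hT₂⟩ := h2c M hMM₂
  obtain ⟨T₃, hT₃3, hT₃⟩ := h3c M hMM₃
  obtain ⟨T₄, hT₄3, hT₄⟩ := h4 M hMM₄
  obtain ⟨T₅, hT₅3, hT₅⟩ := h5 M hMM₅
  obtain ⟨T₇, hT₇3, hT₇⟩ := h7c M hMM₇
  set W := Real.exp (-(C' * M)) with hWd
  have hW0 : 0 < W := Real.exp_pos _
  obtain ⟨T₆, hT₆⟩ := eventually_atTop.1 (eventually_pow c (2 * δ * (a / 12 * W)) hc
    (by positivity))
  refine ⟨max (max (max T₂ T₃) T₇) (max (max T₄ T₅) T₆), hT₂3.trans (((le_max_left _ _).trans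
    (le_max_left _ _)).trans (le_max_left _ _)), fun T hT => ?_⟩
  have hTT₂ : T₂ ≤ T := (((le_max_left _ _).trans (le_max_left _ _)).trans (le_max_left _ _)).trans hT
  have hTT₃ : T₃ ≤ T := (((le_max_right _ _).trans (le_max_left _ _)).trans (le_max_left _ _)).trans hT
  have hTT₇ : T₇ ≤ T := ((le_max_right _ _).trans (le_max_left _ _)).trans hT
  have hTT₄ : T₄ ≤ T :=
    (((le_max_left _ _).trans (le_max_left _ _)).trans (le_max_right _ _)).trans hT
  have hTT₅ : T₅ ≤ T :=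
    (((le_max_right _ _).trans (le_max_left _ _)).trans (le_max_right _ _)).trans hT
  have hTT₆ : T₆ ≤ T := ((le_max_right _ _).trans (le_max_right _ _)).trans hT
  have hT3 : 3 ≤ T := hT₂3.trans hTT₂
  have hT0 : 0 < T := by linarith
  have hT1 : 1 < T := by linarith
  have hL1 : 1 ≤ Real.log T := by
    rw [Real.le_log_iff_exp_le hT0]
    linarith [Real.exp_one_lt_d9]
  have b4 := hT₄ T hTT₄
  have b5 := hT₅ T hTT₅
  have b2 := hT₂ T hTT₂
  have b3 := hT₃ T hTT₃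
  have b7 := hT₇ T hTT₇
  rw [← ha, ← hk]
  unfold BF D4 at b4
  rw [← ha, ← hk] at b4
  obtain ⟨L, hL⟩ : ∃ L, Real.log T = L := ⟨_, rfl⟩
  rw [hL] at hL1 b4 b5 ⊢
  simp only [hL] at b2 b3
  have hL0 : 0 < L := by linarith
  set D := L ^ k with hD
  have hD1 : 1 ≤ D := Real.one_le_rpow hL1 (by positivity)
  have hD0 : 0 < D := by linarith
  set PF := ∏ i ∈ Finset.range (M - 6), aF κ i with hPF
  set PG := ∏ i ∈ Finset.range (M - 6), aG κ i with hPG
  set Q := 1 + 2 * κ * tq 0 with hQd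
  have htq : 0 < tq 0 := by unfold tq tb; positivity
  have h1k : 0 < 1 - κ := by linarith
  have hQ1 : 1 ≤ Q := by
    have : 0 < 2 * κ * tq 0 := by positivity
    linarith
  obtain ⟨e, he⟩ : ∃ e, e = eB κ := ⟨_, rfl⟩
  rw [← he] at b4 ⊢
  have he0 : 0 ≤ e := by
    rw [he, eB]
    positivity
  have hPFl : Real.exp (-(Real.log Cr * M)) ≤ PF := prod_low hCr _ (fun i => (hab i).1) M
  have hPGl : Real.exp (-(Real.log Cr * M)) ≤ PG := prod_low hCr _ (fun i => (hab i).2.2.1) M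
  have hPF0 : 0 < PF := lt_of_lt_of_le (Real.exp_pos _) hPFl
  have hPG0 : 0 < PG := lt_of_lt_of_le (Real.exp_pos _) hPGl
  have hg0 : 0 < Real.eulerMascheroniConstant := by
    linarith [Real.one_half_lt_eulerMascheroniConstant]
  have hg1 : Real.eulerMascheroniConstant < 1 := by
    linarith [Real.eulerMascheroniConstant_lt_two_thirds]
  have hLD4 : L ^ (k - 4) * L ^ 4 = D := by
    rw [hD, ← Real.rpow_natCast L 4, ← Real.rpow_add hL0]
    congr 1
    push_cast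
    ring
  have hLD1 : L ^ (k - 1) * L = D := by
    rw [hD, ← Real.rpow_add_one hL0.ne']
    congr 1
    ring
  have hlM : 0 < lM T M := by
    unfold lM
    have := Real.exp_pos (Real.eulerMascheroniConstant - M)
    rw [hL]
    positivity
  have hl4 := Real.rpow_pos_of_pos hlM (k - 4)
  have hl1 := Real.rpow_pos_of_pos hlM (k - 1)
  -- the main terms
  set A1 := a * lM T M ^ (k - 4) * L ^ 4 * (PF * ((1 + e) / 12)) with hA1
  set A2 := a * lM T M ^ (k - 1) * L * (PG * Q) with hA2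
  set B1 := a * lM T M ^ (k - 4) * L ^ 4 * (PF * ((1 + e + δ) / 12)) with hB1
  set B2 := a * lM T M ^ (k - 1) * L * (PG * (Q + δ)) with hB2
  have hA1p : 0 < A1 := by positivity
  have hA2p : 0 < A2 := by positivity
  have hBA1 : B1 ≤ (1 + δ) * A1 := by
    have h6 : (1 + e + δ) / 12 ≤ (1 + δ) * ((1 + e) / 12) := by
      have : 0 ≤ δ * e := by positivity
      linarith
    calc B1 ≤ a * lM T M ^ (k - 4) * L ^ 4 * (PF * ((1 + δ) * ((1 + e) / 12))) := by
          rw [hB1]; gcongr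
      _ = _ := by rw [hA1]; ring
  have hBA2 : B2 ≤ (1 + δ) * A2 := by
    have h6 : Q + δ ≤ (1 + δ) * Q := by
      have : δ * 1 ≤ δ * Q := mul_le_mul_of_nonneg_left hQ1 hδ0.le
      linarith
    calc B2 ≤ a * lM T M ^ (k - 1) * L * (PG * ((1 + δ) * Q)) := by
          rw [hB2]; gcongr
      _ = _ := by rw [hA2]; ring
  have hlow1 : a / 12 * W * D ≤ B1 := by
    have h6 : W ≤ Real.exp ((Real.eulerMascheroniConstant - M) * (k - 4)) * PF := by
      have h7 : 1 ≤ Real.exp ((Real.eulerMascheroniConstant - M) * (k - 4)) := by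
        apply Real.one_le_exp
        apply mul_nonneg_of_nonpos_of_nonpos
        · linarith
        · linarith
      have h8 : W ≤ Real.exp (-(Real.log Cr * M)) := by
        rw [hWd]
        apply Real.exp_le_exp.2
        rw [hC'd]
        linarith
      calc W ≤ 1 * PF := by rw [one_mul]; exact h8.trans hPFl
        _ ≤ _ := mul_le_mul_of_nonneg_right h7 hPF0.le
    have h9 : 1 / 12 ≤ (1 + e + δ) / 12 := by linarith
    have h10 := Real.rpow_pos_of_pos hL0 (k - 4)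
    calc a / 12 * W * D ≤ a / 12 *
          (Real.exp ((Real.eulerMascheroniConstant - M) * (k - 4)) * PF) * D := by gcongr
      _ = a * (Real.exp ((Real.eulerMascheroniConstant - M) * (k - 4)) * L ^ (k - 4)) *
          L ^ 4 * (PF * (1 / 12)) := by rw [← hLD4]; ring
      _ ≤ a * (Real.exp ((Real.eulerMascheroniConstant - M) * (k - 4)) * L ^ (k - 4)) *
          L ^ 4 * (PF * ((1 + e + δ) / 12)) := by gcongr
      _ = B1 := by rw [hB1, lM_pow hL0 hL]
  have hlow2 : a / 12 * W * D ≤ B2 := by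
    have h6 : W ≤ Real.exp ((Real.eulerMascheroniConstant - M) * (k - 1)) * PG := by
      have h7 : Real.exp (-(3 * (M : ℝ))) ≤
          Real.exp ((Real.eulerMascheroniConstant - M) * (k - 1)) := by
        apply Real.exp_le_exp.2
        have h10 : (M : ℝ) * (k - 1) ≤ M * 3 := mul_le_mul_of_nonneg_left (by linarith)
          (by linarith)
        have h11 : 0 ≤ Real.eulerMascheroniConstant * (k - 1) :=
          mul_nonneg hg0.le (by linarith)
        linarith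
      calc W = Real.exp (-(3 * (M : ℝ))) * Real.exp (-(Real.log Cr * M)) := by
            rw [hWd, hC'd, ← Real.exp_add]
            congr 1
            ring
        _ ≤ _ := mul_le_mul h7 hPGl (Real.exp_pos _).le (Real.exp_pos _).le
    have h10 := Real.rpow_pos_of_pos hL0 (k - 1)
    calc a / 12 * W * D ≤ a * W * D := by
          gcongr
          linarith
      _ ≤ a * (Real.exp ((Real.eulerMascheroniConstant - M) * (k - 1)) * PG) * D := by gcongr
      _ = a * (Real.exp ((Real.eulerMascheroniConstant - M) * (k - 1)) * L ^ (k - 1)) * L *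
          (PG * 1) := by rw [← hLD1]; ring
      _ ≤ a * (Real.exp ((Real.eulerMascheroniConstant - M) * (k - 1)) * L ^ (k - 1)) * L *
          (PG * (Q + δ)) := by
          gcongr
          linarith
      _ = B2 := by rw [hB2, lM_pow hL0 hL]
  have hB10 : 0 < B1 := lt_of_lt_of_le (by positivity) hlow1
  have hB20 : 0 < B2 := lt_of_lt_of_le (by positivity) hlow2
  -- smallness
  set E := Real.exp (3 / 4 * (M : ℝ)) with hEd
  have hE0 : 0 < E := Real.exp_pos _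
  have hsm : Real.exp (C * M) * D * (4 * Real.exp (-(1 / 2 * E))) +
      2 ^ (JJ T + 1) * T ^ (-c) ≤ δ * (a / 12 * W * D) := by
    have h6 : Real.exp (C * M) * Real.exp (-(1 / 2 * E)) ≤
        Real.exp ((C + C') * M - 1 / 4 * E) * W := by
      rw [hWd, ← Real.exp_add, ← Real.exp_add]
      apply Real.exp_le_exp.2
      linarith
    have h7 : 8 * Real.exp ((C + C') * M - 1 / 4 * E) ≤ δ * (a / 12) := by
      refine hw.trans ?_
      gcongr
      exact min_le_left _ _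
    have h8 : Real.exp (C * M) * D * (4 * Real.exp (-(1 / 2 * E))) ≤
        δ / 2 * (a / 12 * W * D) := by
      calc Real.exp (C * M) * D * (4 * Real.exp (-(1 / 2 * E)))
          = 4 * (Real.exp (C * M) * Real.exp (-(1 / 2 * E))) * D := by ring
        _ ≤ 4 * (Real.exp ((C + C') * M - 1 / 4 * E) * W) * D := by gcongr
        _ = (8 * Real.exp ((C + C') * M - 1 / 4 * E)) / 2 * (W * D) := by ring
        _ ≤ (δ * (a / 12)) / 2 * (W * D) := by gcongr
        _ = _ := by ring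
    have h9 : 2 ^ (JJ T + 1) * T ^ (-c) ≤ δ / 2 * (a / 12 * W * D) := by
      have h10 : T ^ (-c) ≤ T ^ (-(c / 2)) :=
        Real.rpow_le_rpow_of_exponent_le hT1.le (by linarith)
      calc 2 ^ (JJ T + 1) * T ^ (-c) ≤ 2 ^ (JJ T + 1) * T ^ (-(c / 2)) := by gcongr
        _ ≤ 2 * δ * (a / 12 * W) / 4 := hT₆ T hTT₆
        _ = δ / 2 * (a / 12 * W * 1) := by ring
        _ ≤ _ := by gcongr
    linarith
  have hδw : 8 * Real.exp (-E) ≤ δ := by
    have h6 : Real.exp (-E) ≤ Real.exp ((C + C') * M - 1 / 4 * E) := by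
      apply Real.exp_le_exp.2
      have : 0 < (C + C') * M := by positivity
      linarith
    have h7 : δ * (min a 1 / 12) ≤ δ * 1 := by
      gcongr
      have := min_le_right a 1
      linarith
    linarith
  have hTκ : ∀ x : ℝ, c ≤ x → T ^ (-x) ≤ T ^ (-c) := fun x hx =>
    Real.rpow_le_rpow_of_exponent_le hT1.le (by linarith)
  have hCM : ∀ x : ℝ, x ≤ C → Real.exp (x * M) ≤ Real.exp (C * M) := fun x hx =>
    Real.exp_le_exp.2 (mul_le_mul_of_nonneg_right hx (by positivity))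
  have hss0 : ∀ h : Finset ℕ, 0 ≤ ∏ j ∈ h, ss M (JJ T) j := fun h =>
    Finset.prod_nonneg fun j _ => (Real.exp_pos _).le
  have key := hold_core hp (D := D) (C := C) (c := c) (B₁ := B1) (B₂ := B2) hδ0 hδ1 hM4
    hκ0 hκ1 hT3 hB10 hB20 hD0 hδw
    (hsm.trans (mul_le_mul_of_nonneg_left hlow1 hδ0.le))
    (hsm.trans (mul_le_mul_of_nonneg_left hlow2 hδ0.le))
    (fun g h => (b7 g h).2.2.1) (fun g h => (b7 g h).2.2.2.1)
    (by
      refine b4.trans (le_of_eq ?_)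
      rw [hB1]
      have hpi : Real.pi ≠ 0 := Real.pi_ne_zero
      field_simp
      ring)
    (by
      refine b5.trans (le_of_eq ?_)
      rw [hB2]
      ring)
    (fun g h hgh => by
      have h1 := b2 g h hgh T hT0 (by linarith)
      have h6 := hCM C₂ (le_max_left _ _)
      have h7 := hTκ κ₂ (min_le_left _ _)
      have h8 := hss0 h
      calc T⁻¹ * ∫ t in (0 : ℝ)..T, ‖riemannZeta (1 / 2 + t * I)‖ ^ 4 *
            WF κ T M g h (fs (1 / 2 + t * I))
          ≤ T⁻¹ * (T * (Real.exp (C₂ * M) * L ^ k * ∏ j ∈ h, ss M (JJ T) j) +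
            T ^ (1 - κ₂)) := by gcongr
        _ = Real.exp (C₂ * M) * L ^ k * ∏ j ∈ h, ss M (JJ T) j + T ^ (-κ₂) := by
            have : T ^ (1 - κ₂) = T * T ^ (-κ₂) := by
              rw [sub_eq_add_neg, Real.rpow_add hT0, Real.rpow_one]
            rw [this]
            field_simp
        _ ≤ _ := by gcongr)
    (fun g h hgh => by
      refine (b3 g h hgh).trans ?_
      have h6 := hCM C₃ (le_max_right _ _)
      have h7 := hTκ κ₃ (min_le_right _ _)
      have h8 := hss0 h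
      gcongr)
  set X := T⁻¹ * ∫ t in (0 : ℝ)..T, ‖riemannZeta (1 / 2 + t * I)‖ ^ (2 * (1 + κ)) with hX
  set N := a * D * (Real.exp ((M - Real.eulerMascheroniConstant) * (κ * (1 - κ))) *
    (PF * ((1 + e) / 12)) ^ κ * (PG * Q) ^ (1 - κ)) with hN
  have hid : A1 ^ κ * A2 ^ (1 - κ) = N := by
    have := calc_main (a := a) (L := L) (P := PF * ((1 + e) / 12)) (Q := PG * Q) (κ := κ)
      (T := T) (M := M) hak hL0 (by positivity) (by positivity) hL
    rw [← hk] at this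
    exact this
  have hN0 : 0 < N := by
    rw [← hid]
    have := Real.rpow_pos_of_pos hA1p κ
    have := Real.rpow_pos_of_pos hA2p (1 - κ)
    positivity
  have h6 : ((1 + δ) * B1) ^ κ * ((1 + δ) * B2) ^ (1 - κ) ≤ (1 + δ) ^ 2 * N := by
    have h7 : ((1 + δ) * B1) ^ κ ≤ ((1 + δ) ^ 2 * A1) ^ κ := by
      apply Real.rpow_le_rpow (by positivity) _ hκ0.le
      calc (1 + δ) * B1 ≤ (1 + δ) * ((1 + δ) * A1) := by gcongr
        _ = _ := by ring
    have h8 : ((1 + δ) * B2) ^ (1 - κ) ≤ ((1 + δ) ^ 2 * A2) ^ (1 - κ) := by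
      apply Real.rpow_le_rpow (by positivity) _ h1k.le
      calc (1 + δ) * B2 ≤ (1 + δ) * ((1 + δ) * A2) := by gcongr
        _ = _ := by ring
    calc ((1 + δ) * B1) ^ κ * ((1 + δ) * B2) ^ (1 - κ) ≤
        ((1 + δ) ^ 2 * A1) ^ κ * ((1 + δ) ^ 2 * A2) ^ (1 - κ) := by gcongr
      _ = (((1 + δ) ^ 2) ^ κ * ((1 + δ) ^ 2) ^ (1 - κ)) * (A1 ^ κ * A2 ^ (1 - κ)) := by
          rw [Real.mul_rpow (by positivity) hA1p.le, Real.mul_rpow (by positivity) hA2p.le]
          ring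
      _ = (1 + δ) ^ 2 * N := by
          rw [hid, ← Real.rpow_add (by positivity), show κ + (1 - κ) = 1 by ring, Real.rpow_one]
  have h9 : (1 + δ) ^ 2 ≤ (1 - δ) * (1 + 16 * δ) := by
    have : δ * δ ≤ δ * (1 / 16) := mul_le_mul_of_nonneg_left hδ1 hδ0.le
    have e1 : (1 + δ) ^ 2 = 1 + 2 * δ + δ * δ := by ring
    have e2 : (1 - δ) * (1 + 16 * δ) = 1 + 15 * δ - 16 * (δ * δ) := by ring
    rw [e1, e2]
    linarith
  have h10 : (1 - δ) * X ≤ (1 - δ) * ((1 + 16 * δ) * N) := by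
    calc (1 - δ) * X ≤ (1 + δ) ^ 2 * N := key.trans h6
      _ ≤ ((1 - δ) * (1 + 16 * δ)) * N := mul_le_mul_of_nonneg_right h9 hN0.le
      _ = _ := by ring
  have h11 : X ≤ (1 + 16 * δ) * N := le_of_mul_le_mul_left h10 (by linarith)
  refine h11.trans ?_
  gcongr

end K7
end Pool.Agent.Lib.MP_973905_nt
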