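import Pool.Agent.Lib.MP_973905_nt.K7.Stmts

/-! The numeric double integral for the main cutoff (module R17a of folder K7). -/

namespace Pool.Agent.Lib.MP_973905_nt
namespace K7

open MeasureTheory ProbabilityTheory Complex Filter Topology K1 K4 K5
open scoped ENNReal

namespace J1M

/-! ### the size of the first boundary -/

lemma tq0_eq : tq 0 = Real.exp (-(153 / 25)) := by
  unfold tq tb
  rw [if_pos rfl, ← Real.exp_add]
  congr 1
  norm_num

lemma tq0_pos : 0 < tq 0 := by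
  rw [tq0_eq]
  exact Real.exp_pos _

lemma tq0_le : tq 0 ≤ 22 / 10000 := by
  rw [tq0_eq, Real.exp_neg]
  have h1 : Real.exp (153 / 25) = Real.exp 1 ^ 6 * Real.exp (3 / 25) := by
    rw [← Real.exp_nat_mul, ← Real.exp_add]
    congr 1
    norm_num
  have h2 : (2.7182818283 : ℝ) ≤ Real.exp 1 := Real.exp_one_gt_d9.le
  have h3 : (1.1274 : ℝ) ≤ Real.exp (3 / 25) := by
    have := Real.sum_le_exp_of_nonneg (show (0 : ℝ) ≤ 3 / 25 by norm_num) 4
    refine le_trans ?_ this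
    norm_num [Finset.sum_range_succ, Nat.factorial]
  have h4 : (2.7182818283 : ℝ) ^ 6 * 1.1274 ≤ Real.exp (153 / 25) := by
    rw [h1]
    gcongr
  have h5 : (454.6 : ℝ) ≤ Real.exp (153 / 25) := le_trans (by norm_num) h4
  rw [inv_le_comm₀ (Real.exp_pos _) (by norm_num)]
  refine le_trans ?_ h5
  norm_num

lemma E_le : Real.exp (501 / 500 * tq 0) ≤ 100221 / 100000 := by
  have h1 : 501 / 500 * tq 0 ≤ 22044 / 10000000 := by
    have := tq0_le
    linarith
  have h2 : Real.exp (22044 / 10000000) ≤ 100221 / 100000 := by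
    have h := Real.exp_bound' (x := 22044 / 10000000) (by norm_num) (by norm_num) (n := 2) (by norm_num)
    refine le_trans h ?_
    norm_num [Finset.sum_range_succ, Nat.factorial]
  exact le_trans (Real.exp_le_exp.mpr h1) h2

lemma one_le_E : 1 ≤ Real.exp (501 / 500 * tq 0) := by
  apply Real.one_le_exp
  have := tq0_pos
  positivity

/-! ### the function `qb` -/

lemma one_le_qb {y : ℝ} (hy : 0 ≤ y) : 1 ≤ qb y := by
  unfold qb
  split_ifs with h
  · exact Real.one_le_exp (by positivity)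
  · push Not at h
    linarith

lemma measurable_qb : Measurable qb := by
  unfold qb
  refine Measurable.ite (measurableSet_le measurable_id measurable_const) ?_ ?_
  · exact Real.measurable_exp.comp (measurable_const.mul measurable_id)
  · exact measurable_const.mul measurable_id

/-- slopes -/
noncomputable def Hs (y : ℝ) : ℝ := if y ≤ 1 / 8 then 267 / 250 else
  if y ≤ 1 / 2 then 1301 / 1000 else if y ≤ 2 then 321 / 100 else 19

lemma measurable_Hs : Measurable Hs := by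
  unfold Hs
  refine Measurable.ite (measurableSet_le measurable_id measurable_const) measurable_const ?_
  refine Measurable.ite (measurableSet_le measurable_id measurable_const) measurable_const ?_
  exact Measurable.ite (measurableSet_le measurable_id measurable_const) measurable_const
    measurable_const

lemma Hs_pos (y : ℝ) : 0 < Hs y := by
  unfold Hs
  split_ifs <;> norm_num

lemma chord {y y₀ c : ℝ} (hy : 0 ≤ y) (h0 : 0 < y₀) (hyy : y ≤ y₀)
    (hc : Real.exp (501 / 500 * y₀) ≤ 1 + c * y₀) : Real.exp (501 / 500 * y) - 1 ≤ c * y := by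
  have ht : 0 ≤ y / y₀ := by positivity
  have ht1 : y / y₀ ≤ 1 := (div_le_one h0).mpr hyy
  have h := convexOn_exp.2 (Set.mem_univ 0) (Set.mem_univ (501 / 500 * y₀))
    (show 0 ≤ 1 - y / y₀ by linarith) ht (by ring)
  simp only [smul_eq_mul, mul_zero, zero_add, Real.exp_zero, mul_one] at h
  have h2 : y / y₀ * (501 / 500 * y₀) = 501 / 500 * y := by
    field_simp
  rw [h2] at h
  have h3 : y / y₀ * Real.exp (501 / 500 * y₀) ≤ y / y₀ * (1 + c * y₀) :=
    mul_le_mul_of_nonneg_left hc ht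
  have h4 : y / y₀ * (1 + c * y₀) = y / y₀ + c * y := by
    field_simp
  linarith

lemma psi_le {y : ℝ} (hy : 0 ≤ y) : qb y - 1 ≤ Hs y * y := by
  unfold Hs qb
  by_cases h1 : y ≤ 1 / 8
  · rw [if_pos h1, if_pos (by linarith)]
    refine chord hy (y₀ := 1 / 8) (by norm_num) h1 ?_
    have h := Real.exp_bound' (x := 501 / 500 * (1 / 8)) (by norm_num) (by norm_num) (n := 4)
      (by norm_num)
    refine le_trans h ?_
    norm_num [Finset.sum_range_succ, Nat.factorial]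
  · rw [if_neg h1]
    by_cases h2 : y ≤ 1 / 2
    · rw [if_pos h2, if_pos (by linarith)]
      refine chord hy (y₀ := 1 / 2) (by norm_num) h2 ?_
      have h := Real.exp_bound' (x := 501 / 500 * (1 / 2)) (by norm_num) (by norm_num) (n := 6)
        (by norm_num)
      refine le_trans h ?_
      norm_num [Finset.sum_range_succ, Nat.factorial]
    · rw [if_neg h2]
      by_cases h3 : y ≤ 2
      · rw [if_pos h3, if_pos h3]
        refine chord hy (y₀ := 2) (by norm_num) h3 ?_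
        have h4 : Real.exp (501 / 500 * 2) = Real.exp 1 ^ 2 * Real.exp (1 / 250) := by
          rw [← Real.exp_nat_mul, ← Real.exp_add]
          congr 1
          norm_num
        have h5 : Real.exp (1 / 250) ≤ 1.00401 := by
          have h := Real.exp_bound' (x := 1 / 250) (by norm_num) (by norm_num) (n := 3)
            (by norm_num)
          refine le_trans h ?_
          norm_num [Finset.sum_range_succ, Nat.factorial]
        have h6 : Real.exp 1 ≤ 2.7182818286 := Real.exp_one_lt_d9.le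
        rw [h4]
        calc Real.exp 1 ^ 2 * Real.exp (1 / 250) ≤ 2.7182818286 ^ 2 * 1.00401 := by gcongr
          _ ≤ _ := by norm_num
      · rw [if_neg h3, if_neg h3]
        linarith

/-! ### the norms -/

/-- the norm of the shift -/
noncomputable def U (ξ : ℝ) : ℝ := Real.sqrt (4 + (2 * Real.pi * ξ) ^ 2)

lemma norm_un (ξ : ℝ) : ‖un 0 ξ‖ = U ξ := by
  unfold un U
  rw [Complex.norm_def]
  congr 1
  simp [Complex.normSq_apply]
  ring

/-- the norm of the sum -/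
noncomputable def D (t : ℝ) : ℝ := Real.sqrt (16 + (2 * Real.pi * t) ^ 2)

lemma norm_sum (ξ η : ℝ) : ‖un 0 ξ + (starRingEnd ℂ) (un 0 η)‖ = D (ξ - η) := by
  unfold un D
  rw [Complex.norm_def]
  congr 1
  simp [Complex.normSq_apply]
  ring

lemma U_pos (ξ : ℝ) : 0 < U ξ := Real.sqrt_pos.mpr (by positivity)

lemma D_pos (ξ : ℝ) : 0 < D ξ := Real.sqrt_pos.mpr (by positivity)

lemma U_sq (ξ : ℝ) : U ξ ^ 2 = 4 + (2 * Real.pi * ξ) ^ 2 := Real.sq_sqrt (by positivity)

lemma D_sq (ξ : ℝ) : D ξ ^ 2 = 16 + (2 * Real.pi * ξ) ^ 2 := Real.sq_sqrt (by positivity)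

lemma two_le_U (ξ : ℝ) : 2 ≤ U ξ := by
  unfold U
  apply Real.le_sqrt_of_sq_le
  nlinarith [sq_nonneg (2 * Real.pi * ξ)]

lemma four_le_D (ξ : ℝ) : 4 ≤ D ξ := by
  unfold D
  apply Real.le_sqrt_of_sq_le
  nlinarith [sq_nonneg (2 * Real.pi * ξ)]

lemma abs_le_U (ξ : ℝ) : |2 * Real.pi * ξ| ≤ U ξ := by
  unfold U
  apply Real.le_sqrt_of_sq_le
  rw [sq_abs]
  linarith

lemma U_le (ξ : ℝ) : U ξ ≤ |2 * Real.pi * ξ| + 2 := by
  unfold U
  apply Real.sqrt_le_iff.mpr
  refine ⟨by positivity, ?_⟩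
  have h : |2 * Real.pi * ξ| ^ 2 = (2 * Real.pi * ξ) ^ 2 := sq_abs _
  nlinarith [abs_nonneg (2 * Real.pi * ξ)]

lemma measurable_U : Measurable U := by
  unfold U
  fun_prop

lemma measurable_D : Measurable D := by
  unfold D
  fun_prop

/-! ### tail integrals -/

lemma tail_half (r c : ℝ) (hr : 1 < r) (hc : 0 < c) :
    ∫⁻ ξ, Set.indicator (Set.Ioi (c / (2 * Real.pi)))
      (fun ξ => ENNReal.ofReal ((2 * Real.pi * ξ) ^ (-r))) ξ =
      ENNReal.ofReal (1 / (2 * Real.pi) * (c ^ (1 - r) / (r - 1))) := by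
  have hpi : 0 < 2 * Real.pi := by positivity
  have hc' : 0 < c / (2 * Real.pi) := by positivity
  rw [lintegral_indicator measurableSet_Ioi]
  have h1 : ∀ ξ ∈ Set.Ioi (c / (2 * Real.pi)), ENNReal.ofReal ((2 * Real.pi * ξ) ^ (-r)) =
      ENNReal.ofReal ((2 * Real.pi) ^ (-r) * ξ ^ (-r)) := by
    intro ξ hξ
    rw [Real.mul_rpow hpi.le (hc'.trans hξ).le]
  rw [setLIntegral_congr_fun measurableSet_Ioi h1, ← ofReal_integral_eq_lintegral_ofReal]
  · rw [integral_const_mul, integral_Ioi_rpow_of_lt (by linarith) hc']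
    congr 1
    have h2 : (c / (2 * Real.pi)) ^ (-r + 1) = c ^ (1 - r) * (2 * Real.pi) ^ (r - 1) := by
      rw [show -r + 1 = 1 - r by ring, Real.div_rpow hc.le hpi.le, div_eq_mul_inv,
        ← Real.rpow_neg hpi.le]
      congr 2
      ring
    rw [h2]
    have h3 : (2 * Real.pi) ^ (-r) * (2 * Real.pi) ^ (r - 1) = 1 / (2 * Real.pi) := by
      rw [← Real.rpow_add hpi, show -r + (r - 1) = -1 by ring, Real.rpow_neg_one, one_div]
    have h4 : -r + 1 = -(r - 1) := by ring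
    rw [h4, ← h3]
    have h5 : r - 1 ≠ 0 := by linarith
    field_simp
  · exact (integrableOn_Ioi_rpow_of_lt (by linarith) hc').const_mul _
  · refine (ae_restrict_iff' measurableSet_Ioi).mpr (Eventually.of_forall fun ξ hξ => ?_)
    have : 0 < ξ := hc'.trans hξ
    positivity

lemma tail (r c : ℝ) (hr : 1 < r) (hc : 0 < c) (S : Set ℝ) (hS : ∀ ξ ∈ S, c < |2 * Real.pi * ξ|) :
    ∫⁻ ξ, Set.indicator S (fun ξ => ENNReal.ofReal (U ξ ^ (-r))) ξ ≤
      ENNReal.ofReal (1 / Real.pi * (c ^ (1 - r) / (r - 1))) := by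
  have hpi : 0 < 2 * Real.pi := by positivity
  set h : ℝ → ℝ≥0∞ := Set.indicator (Set.Ioi (c / (2 * Real.pi)))
      (fun ξ => ENNReal.ofReal ((2 * Real.pi * ξ) ^ (-r))) with hh
  have hm : Measurable h := by
    rw [hh]
    refine Measurable.indicator ?_ measurableSet_Ioi
    fun_prop
  have h1 : ∀ ξ, Set.indicator S (fun ξ => ENNReal.ofReal (U ξ ^ (-r))) ξ ≤ h ξ + h (-ξ) := by
    intro ξ
    by_cases hξ : ξ ∈ S
    · rw [Set.indicator_of_mem hξ]
      have h2 := hS ξ hξ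
      have h3 : ENNReal.ofReal (U ξ ^ (-r)) ≤ ENNReal.ofReal (|2 * Real.pi * ξ| ^ (-r)) := by
        apply ENNReal.ofReal_le_ofReal
        exact Real.rpow_le_rpow_of_nonpos (hc.trans h2) (abs_le_U ξ) (by linarith)
      refine h3.trans ?_
      rcases le_total 0 ξ with h0 | h0
      · rw [abs_of_nonneg (by positivity)] at h2 ⊢
        have h4 : ξ ∈ Set.Ioi (c / (2 * Real.pi)) := by
          rw [Set.mem_Ioi, div_lt_iff₀ hpi]
          linarith
        refine le_trans ?_ (self_le_add_right _ _)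
        rw [hh, Set.indicator_of_mem h4]
      · have h5 : |2 * Real.pi * ξ| = 2 * Real.pi * (-ξ) := by
          rw [abs_of_nonpos (mul_nonpos_of_nonneg_of_nonpos hpi.le h0)]
          ring
        rw [h5] at h2 ⊢
        have h4 : -ξ ∈ Set.Ioi (c / (2 * Real.pi)) := by
          rw [Set.mem_Ioi, div_lt_iff₀ hpi]
          linarith
        refine le_trans ?_ (self_le_add_left _ _)
        rw [hh, Set.indicator_of_mem h4]
    · rw [Set.indicator_of_notMem hξ]
      exact bot_le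
  calc ∫⁻ ξ, Set.indicator S (fun ξ => ENNReal.ofReal (U ξ ^ (-r))) ξ
      ≤ ∫⁻ ξ, (h ξ + h (-ξ)) := lintegral_mono h1
    _ = (∫⁻ ξ, h ξ) + ∫⁻ ξ, h (-ξ) := lintegral_add_left hm _
    _ = (∫⁻ ξ, h ξ) + ∫⁻ ξ, h ξ := by rw [lintegral_neg_eq_self]
    _ = ENNReal.ofReal (1 / Real.pi * (c ^ (1 - r) / (r - 1))) := by
      rw [hh, tail_half r c hr hc, ← ENNReal.ofReal_add]
      · congr 1
        field_simp
        ring
      · have : 0 < r - 1 := by linarith
        positivity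
      · have : 0 < r - 1 := by linarith
        positivity

/-! ### the integrals of `U⁻²`, `D⁻²`, `U^{-4/3}` -/

lemma lint_scale (c : ℝ) (hc : 0 < c) :
    ∫⁻ ξ, ENNReal.ofReal ((1 + (c * ξ) ^ 2)⁻¹) = ENNReal.ofReal (Real.pi / c) := by
  have hint : Integrable (fun ξ : ℝ => (1 + (c * ξ) ^ 2)⁻¹) :=
    integrable_inv_one_add_sq.comp_mul_left' hc.ne'
  rw [← ofReal_integral_eq_lintegral_ofReal hint (Eventually.of_forall fun ξ => by positivity)]
  congr 1
  rw [Measure.integral_comp_mul_left (fun x => (1 + x ^ 2)⁻¹) c, integral_univ_inv_one_add_sq,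
    abs_of_pos (by positivity), smul_eq_mul]
  field_simp

lemma int_U : ∫⁻ ξ, ENNReal.ofReal (1 / U ξ ^ 2) = ENNReal.ofReal (1 / 4) := by
  have h1 : ∀ ξ, ENNReal.ofReal (1 / U ξ ^ 2) =
      ENNReal.ofReal (1 / 4) * ENNReal.ofReal ((1 + (Real.pi * ξ) ^ 2)⁻¹) := by
    intro ξ
    rw [← ENNReal.ofReal_mul (by norm_num), U_sq]
    congr 1
    have : 0 < 1 + (Real.pi * ξ) ^ 2 := by positivity
    field_simp
    ring
  simp_rw [h1]
  rw [lintegral_const_mul _ (by fun_prop), lint_scale _ Real.pi_pos, div_self Real.pi_pos.ne',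
    ENNReal.ofReal_one, mul_one]

lemma int_D : ∫⁻ ξ, ENNReal.ofReal (1 / D ξ ^ 2) = ENNReal.ofReal (1 / 8) := by
  have h1 : ∀ ξ, ENNReal.ofReal (1 / D ξ ^ 2) =
      ENNReal.ofReal (1 / 16) * ENNReal.ofReal ((1 + (Real.pi / 2 * ξ) ^ 2)⁻¹) := by
    intro ξ
    rw [← ENNReal.ofReal_mul (by norm_num), D_sq]
    congr 1
    have : 0 < 1 + (Real.pi * ξ) ^ 2 := by positivity
    field_simp
    ring
  simp_rw [h1]
  rw [lintegral_const_mul _ (by fun_prop), lint_scale _ (by positivity),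
    ← ENNReal.ofReal_mul (by norm_num)]
  congr 1
  field_simp
  norm_num

lemma int_Ur (r : ℝ) (hr : 1 < r) : ∫⁻ ξ, ENNReal.ofReal (U ξ ^ (-r)) ≤
    ENNReal.ofReal (1 / Real.pi * (2 ^ (1 - r) * (r / (r - 1)))) := by
  have hpi : 0 < Real.pi := Real.pi_pos
  have hr1 : 0 < r - 1 := by linarith
  set c₀ : ℝ≥0∞ := ENNReal.ofReal (2 ^ (-r)) with hc0
  set S : Set ℝ := {ξ | 2 < |2 * Real.pi * ξ|} with hS
  have hSm : MeasurableSet S := measurableSet_lt measurable_const (by fun_prop)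
  have h1 : ∀ ξ, ENNReal.ofReal (U ξ ^ (-r)) ≤
      Set.indicator (Set.Icc (-(1 / Real.pi)) (1 / Real.pi)) (fun _ => c₀) ξ +
      Set.indicator S (fun ξ => ENNReal.ofReal (U ξ ^ (-r))) ξ := by
    intro ξ
    by_cases hξ : ξ ∈ S
    · rw [Set.indicator_of_mem hξ]
      exact self_le_add_left _ _
    · have h2 : ξ ∈ Set.Icc (-(1 / Real.pi)) (1 / Real.pi) := by
        have hξ := not_lt.mp (show ¬ (2 < |2 * Real.pi * ξ|) from hξ)
        rw [abs_le] at hξ
        constructor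
        · rw [neg_le, ← neg_le_neg_iff, neg_neg, ← neg_div, div_le_iff₀ hpi]
          linarith [hξ.1]
        · rw [le_div_iff₀ hpi]
          linarith [hξ.2]
      rw [Set.indicator_of_mem h2]
      refine le_trans ?_ (self_le_add_right _ _)
      rw [hc0]
      apply ENNReal.ofReal_le_ofReal
      exact Real.rpow_le_rpow_of_nonpos (by norm_num) (two_le_U ξ) (by linarith)
  have hA : ∫⁻ ξ, Set.indicator (Set.Icc (-(1 / Real.pi)) (1 / Real.pi)) (fun _ => c₀) ξ =
      ENNReal.ofReal (2 ^ (-r) * (2 / Real.pi)) := by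
    rw [lintegral_indicator measurableSet_Icc, setLIntegral_const, Real.volume_Icc, hc0,
      ← ENNReal.ofReal_mul (by positivity)]
    congr 2
    ring
  calc ∫⁻ ξ, ENNReal.ofReal (U ξ ^ (-r)) ≤ ∫⁻ ξ,
        (Set.indicator (Set.Icc (-(1 / Real.pi)) (1 / Real.pi)) (fun _ => c₀) ξ +
        Set.indicator S (fun ξ => ENNReal.ofReal (U ξ ^ (-r))) ξ) := lintegral_mono h1
    _ = (∫⁻ ξ, Set.indicator (Set.Icc (-(1 / Real.pi)) (1 / Real.pi)) (fun _ => c₀) ξ) +
        ∫⁻ ξ, Set.indicator S (fun ξ => ENNReal.ofReal (U ξ ^ (-r))) ξ :=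
        lintegral_add_left (measurable_const.indicator measurableSet_Icc) _
    _ ≤ ENNReal.ofReal (2 ^ (-r) * (2 / Real.pi)) +
        ENNReal.ofReal (1 / Real.pi * (2 ^ (1 - r) / (r - 1))) := by
      rw [hA]
      gcongr
      exact tail r 2 hr (by norm_num) S (fun ξ h => h)
    _ = ENNReal.ofReal (1 / Real.pi * (2 ^ (1 - r) * (r / (r - 1)))) := by
      rw [← ENNReal.ofReal_add (by positivity) (by positivity)]
      congr 1
      rw [sub_eq_add_neg, Real.rpow_add (by norm_num), Real.rpow_one]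
      field_simp
      ring

/-! ### the integral of the majorant -/

lemma steps (r : ℝ) (hr : 1 < r) (w0 w1 w2 w3 I₀ : ℝ) (h0 : (267 / 250 : ℝ) ^ r ≤ w0)
    (h1 : (1301 / 1000 : ℝ) ^ r ≤ w0 + w1) (h2 : (321 / 100 : ℝ) ^ r ≤ w0 + w1 + w2)
    (h3 : (19 : ℝ) ^ r ≤ w0 + w1 + w2 + w3) (hw1 : 0 ≤ w1) (hw2 : 0 ≤ w2) (hw3 : 0 ≤ w3)
    (hI0 : 0 ≤ I₀) (hI : ∫⁻ ξ, ENNReal.ofReal (U ξ ^ (-r)) ≤ ENNReal.ofReal I₀) :
    ∫⁻ ξ, ENNReal.ofReal (tq 0 * Hs (tq 0 * U ξ) / U ξ) ^ r ≤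
      ENNReal.ofReal ((22 / 10000) ^ r * (w0 * I₀ + 1 / Real.pi / (r - 1) *
        (w1 * (548 / 10) ^ (1 - r) + w2 * 225 ^ (1 - r) + w3 * 907 ^ (1 - r)))) := by
  have hA := tq0_pos
  have hA' := tq0_le
  have hpi : 0 < Real.pi := Real.pi_pos
  have hr1 : 0 < r - 1 := by linarith
  have hw0 : 0 ≤ w0 := le_trans (by positivity) h0
  set A := tq 0 with hAdef
  set g : ℝ → ℝ≥0∞ := fun ξ => ENNReal.ofReal (U ξ ^ (-r)) with hg
  have hgm : Measurable g := by
    rw [hg]
    exact ENNReal.measurable_ofReal.comp (measurable_U.pow_const _)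
  set S : ℝ → Set ℝ := fun y => {ξ | y < A * U ξ} with hS
  have hSm : ∀ y, MeasurableSet (S y) := fun y =>
    measurableSet_lt measurable_const (measurable_const.mul measurable_U)
  have hSc : ∀ y c : ℝ, 0 < y → (c + 2) * (22 / 10000) ≤ y → ∀ ξ ∈ S y, c < |2 * Real.pi * ξ| := by
    intro y c hy hc ξ hξ
    have h4 : y < A * U ξ := hξ
    have h5 : U ξ ≤ |2 * Real.pi * ξ| + 2 := U_le ξ
    have h6 : A * U ξ ≤ 22 / 10000 * U ξ := mul_le_mul_of_nonneg_right hA' (U_pos ξ).le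
    nlinarith
  have htail : ∀ y c : ℝ, 0 < y → 0 < c → (c + 2) * (22 / 10000) ≤ y →
      ∫⁻ ξ, Set.indicator (S y) g ξ ≤ ENNReal.ofReal (1 / Real.pi / (r - 1) * c ^ (1 - r)) := by
    intro y c hy hc0 hc
    refine (tail r c hr hc0 (S y) (hSc y c hy hc)).trans (le_of_eq ?_)
    congr 1
    field_simp
  have hpt : ∀ ξ, ENNReal.ofReal (A * Hs (A * U ξ) / U ξ) ^ r ≤
      ENNReal.ofReal (A ^ r) * (ENNReal.ofReal w0 * g ξ + (ENNReal.ofReal w1 *
        Set.indicator (S (1 / 8)) g ξ + (ENNReal.ofReal w2 * Set.indicator (S (1 / 2)) g ξ +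
        ENNReal.ofReal w3 * Set.indicator (S 2) g ξ))) := by
    intro ξ
    have hU := U_pos ξ
    have hHp := Hs_pos (A * U ξ)
    have e1 : ENNReal.ofReal (A * Hs (A * U ξ) / U ξ) ^ r =
        ENNReal.ofReal (A ^ r) * (ENNReal.ofReal (Hs (A * U ξ) ^ r) * g ξ) := by
      rw [ENNReal.ofReal_rpow_of_nonneg (by positivity) (by linarith), hg,
        ← ENNReal.ofReal_mul (by positivity), ← ENNReal.ofReal_mul (by positivity)]
      congr 1
      rw [Real.div_rpow (by positivity) hU.le, Real.mul_rpow hA.le hHp.le, Real.rpow_neg hU.le,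
        div_eq_mul_inv, mul_assoc]
    rw [e1]
    gcongr ENNReal.ofReal (A ^ r) * ?_
    have key : ∀ w, 0 ≤ w → Hs (A * U ξ) ^ r ≤ w →
        ENNReal.ofReal (Hs (A * U ξ) ^ r) * g ξ ≤ ENNReal.ofReal w * g ξ := by
      intro w _ hw
      gcongr
    have hmem : ∀ y, ξ ∈ S y ↔ y < A * U ξ := fun y => Iff.rfl
    by_cases c1 : A * U ξ ≤ 1 / 8
    · have e2 : Hs (A * U ξ) = 267 / 250 := by unfold Hs; rw [if_pos c1]
      refine (key w0 hw0 (by rw [e2]; exact h0)).trans (self_le_add_right _ _)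
    · have m1 : ξ ∈ S (1 / 8) := (hmem _).mpr (not_le.mp c1)
      by_cases c2 : A * U ξ ≤ 1 / 2
      · have e2 : Hs (A * U ξ) = 1301 / 1000 := by unfold Hs; rw [if_neg c1, if_pos c2]
        refine (key (w0 + w1) (by positivity) (by rw [e2]; exact h1)).trans ?_
        rw [ENNReal.ofReal_add hw0 hw1, add_mul, Set.indicator_of_mem m1]
        gcongr
        exact self_le_add_right _ _
      · have m2 : ξ ∈ S (1 / 2) := (hmem _).mpr (not_le.mp c2)
        by_cases c3 : A * U ξ ≤ 2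
        · have e2 : Hs (A * U ξ) = 321 / 100 := by unfold Hs; rw [if_neg c1, if_neg c2, if_pos c3]
          refine (key (w0 + w1 + w2) (by positivity) (by rw [e2]; exact h2)).trans ?_
          rw [ENNReal.ofReal_add (by positivity) hw2, ENNReal.ofReal_add hw0 hw1, add_mul, add_mul,
            Set.indicator_of_mem m1, Set.indicator_of_mem m2, add_assoc]
          gcongr
          exact self_le_add_right _ _
        · have m3 : ξ ∈ S 2 := (hmem _).mpr (not_le.mp c3)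
          have e2 : Hs (A * U ξ) = 19 := by unfold Hs; rw [if_neg c1, if_neg c2, if_neg c3]
          refine (key (w0 + w1 + w2 + w3) (by positivity) (by rw [e2]; exact h3)).trans ?_
          rw [ENNReal.ofReal_add (by positivity) hw3, ENNReal.ofReal_add (by positivity) hw2,
            ENNReal.ofReal_add hw0 hw1, add_mul, add_mul, add_mul,
            Set.indicator_of_mem m1, Set.indicator_of_mem m2, Set.indicator_of_mem m3, add_assoc,
            add_assoc]
  have hmi : ∀ y, Measurable (Set.indicator (S y) g) := fun y => hgm.indicator (hSm y)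
  calc ∫⁻ ξ, ENNReal.ofReal (A * Hs (A * U ξ) / U ξ) ^ r ≤ ∫⁻ ξ,
        ENNReal.ofReal (A ^ r) * (ENNReal.ofReal w0 * g ξ + (ENNReal.ofReal w1 *
        Set.indicator (S (1 / 8)) g ξ + (ENNReal.ofReal w2 * Set.indicator (S (1 / 2)) g ξ +
        ENNReal.ofReal w3 * Set.indicator (S 2) g ξ))) := lintegral_mono hpt
    _ = ENNReal.ofReal (A ^ r) * (ENNReal.ofReal w0 * (∫⁻ ξ, g ξ) + (ENNReal.ofReal w1 *
        (∫⁻ ξ, Set.indicator (S (1 / 8)) g ξ) + (ENNReal.ofReal w2 *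
        (∫⁻ ξ, Set.indicator (S (1 / 2)) g ξ) +
        ENNReal.ofReal w3 * (∫⁻ ξ, Set.indicator (S 2) g ξ)))) := by
      rw [lintegral_const_mul' _ _ ENNReal.ofReal_ne_top,
        lintegral_add_left (hgm.const_mul _),
        lintegral_add_left ((hmi _).const_mul _), lintegral_add_left ((hmi _).const_mul _),
        lintegral_const_mul' _ _ ENNReal.ofReal_ne_top,
        lintegral_const_mul' _ _ ENNReal.ofReal_ne_top,
        lintegral_const_mul' _ _ ENNReal.ofReal_ne_top,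
        lintegral_const_mul' _ _ ENNReal.ofReal_ne_top]
    _ ≤ ENNReal.ofReal ((22 / 10000) ^ r) * (ENNReal.ofReal w0 * ENNReal.ofReal I₀ +
        (ENNReal.ofReal w1 * ENNReal.ofReal (1 / Real.pi / (r - 1) * (548 / 10) ^ (1 - r)) +
        (ENNReal.ofReal w2 * ENNReal.ofReal (1 / Real.pi / (r - 1) * 225 ^ (1 - r)) +
        ENNReal.ofReal w3 * ENNReal.ofReal (1 / Real.pi / (r - 1) * 907 ^ (1 - r))))) := by
      gcongr
      · exact htail (1 / 8) (548 / 10) (by norm_num) (by norm_num) (by norm_num)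
      · exact htail (1 / 2) 225 (by norm_num) (by norm_num) (by norm_num)
      · exact htail 2 907 (by norm_num) (by norm_num) (by norm_num)
    _ = _ := by
      rw [← ENNReal.ofReal_mul hw0, ← ENNReal.ofReal_mul hw1, ← ENNReal.ofReal_mul hw2,
        ← ENNReal.ofReal_mul hw3, ← ENNReal.ofReal_add (by positivity) (by positivity),
        ← ENNReal.ofReal_add (by positivity) (by positivity),
        ← ENNReal.ofReal_add (by positivity) (by positivity),
        ← ENNReal.ofReal_mul (by positivity)]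
      congr 1
      ring

/-! ### numbers -/

lemma rpow_neg_third_le {x q : ℝ} (hx : 0 < x) (hq : 0 < q) (h : 1 ≤ q ^ 3 * x) :
    x ^ (1 - 4 / 3 : ℝ) ≤ q := by
  have h1 : x ^ (1 - 4 / 3 : ℝ) = (x⁻¹) ^ (1 / 3 : ℝ) := by
    rw [Real.inv_rpow hx.le, ← Real.rpow_neg hx.le]
    norm_num
  rw [h1]
  have h2 : x⁻¹ ≤ q ^ 3 := by
    rw [inv_le_iff_one_le_mul₀ hx]
    linarith
  calc (x⁻¹) ^ (1 / 3 : ℝ) ≤ (q ^ 3) ^ (1 / 3 : ℝ) :=
        Real.rpow_le_rpow (by positivity) h2 (by norm_num)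
    _ = q := by
      rw [← Real.rpow_natCast, ← Real.rpow_mul hq.le]
      norm_num

lemma rpow_four_third_le {x w : ℝ} (hx : 0 ≤ x) (hw : 0 ≤ w) (h : x ^ 4 ≤ w ^ 3) :
    x ^ (4 / 3 : ℝ) ≤ w := by
  have h1 : x ^ (4 / 3 : ℝ) = (x ^ 4) ^ (1 / 3 : ℝ) := by
    rw [← Real.rpow_natCast x 4, ← Real.rpow_mul hx]
    norm_num
  rw [h1]
  calc (x ^ 4) ^ (1 / 3 : ℝ) ≤ (w ^ 3) ^ (1 / 3 : ℝ) :=
        Real.rpow_le_rpow (by positivity) h (by norm_num)
    _ = w := by
      rw [← Real.rpow_natCast, ← Real.rpow_mul hw]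
      norm_num

lemma inv_pi_le : 1 / Real.pi ≤ 31832 / 100000 := by
  rw [div_le_div_iff₀ Real.pi_pos (by norm_num)]
  have := Real.pi_gt_d4
  linarith

/-! ### the three norms -/

/-- the majorant of the first factor -/
noncomputable def fa (ξ : ℝ) : ℝ≥0∞ := ENNReal.ofReal (tq 0 * Hs (tq 0 * U ξ) / U ξ)

/-- the factor without loss -/
noncomputable def fb (ξ : ℝ) : ℝ≥0∞ := ENNReal.ofReal (1 / U ξ ^ 2)

/-- the kernel -/
noncomputable def fK (t : ℝ) : ℝ≥0∞ := ENNReal.ofReal (1 / D t)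

lemma measurable_fa : Measurable fa := by
  unfold fa
  exact ENNReal.measurable_ofReal.comp ((measurable_const.mul
    (measurable_Hs.comp (measurable_const.mul measurable_U))).div measurable_U)

lemma measurable_fb : Measurable fb := by
  unfold fb
  exact ENNReal.measurable_ofReal.comp (measurable_const.div (measurable_U.pow_const _))

lemma measurable_fK : Measurable fK := by
  unfold fK
  exact ENNReal.measurable_ofReal.comp (measurable_const.div measurable_D)

lemma norm_K : (∫⁻ t, fK t ^ (2 : ℝ)) ^ (1 / (2 : ℝ)) ≤ ENNReal.ofReal (35356 / 100000) := by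
  have h1 : ∀ t, fK t ^ (2 : ℝ) = ENNReal.ofReal (1 / D t ^ 2) := by
    intro t
    unfold fK
    have := D_pos t
    rw [ENNReal.ofReal_rpow_of_nonneg (by positivity) (by norm_num)]
    congr 1
    rw [Real.rpow_two]
    ring
  simp_rw [h1]
  rw [int_D, ENNReal.ofReal_rpow_of_nonneg (by norm_num) (by norm_num)]
  apply ENNReal.ofReal_le_ofReal
  rw [← Real.sqrt_eq_rpow]
  apply Real.sqrt_le_iff.mpr
  norm_num

lemma norm_b : (∫⁻ ξ, fb ξ ^ (1 : ℝ)) ^ (1 / (1 : ℝ)) ≤ ENNReal.ofReal (1 / 4) := by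
  simp_rw [ENNReal.rpow_one]
  rw [show (1 / (1 : ℝ)) = 1 by norm_num, ENNReal.rpow_one]
  unfold fb
  rw [int_U]

lemma norm_a2 : (∫⁻ ξ, fa ξ ^ (2 : ℝ)) ^ (1 / (2 : ℝ)) ≤ ENNReal.ofReal (1433 / 1000000) := by
  have hI : ∫⁻ ξ, ENNReal.ofReal (U ξ ^ (-(2 : ℝ))) ≤ ENNReal.ofReal (1 / 4) := by
    rw [← int_U]
    apply le_of_eq
    apply lintegral_congr
    intro ξ
    congr 1
    rw [Real.rpow_neg (U_pos ξ).le, Real.rpow_two, one_div]
  have h := steps 2 (by norm_num) (1140624 / 1000000) (552 / 1000) (86115 / 10000)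
    (3506959 / 10000) (1 / 4) (by rw [Real.rpow_two]; norm_num) (by rw [Real.rpow_two]; norm_num)
    (by rw [Real.rpow_two]; norm_num) (by rw [Real.rpow_two]; norm_num) (by norm_num)
    (by norm_num) (by norm_num) (by norm_num) hI
  unfold fa
  calc (∫⁻ ξ, ENNReal.ofReal (tq 0 * Hs (tq 0 * U ξ) / U ξ) ^ (2 : ℝ)) ^ (1 / (2 : ℝ))
      ≤ (ENNReal.ofReal ((1433 / 1000000) ^ 2)) ^ (1 / (2 : ℝ)) := by
        apply ENNReal.rpow_le_rpow _ (by norm_num)
        refine h.trans (ENNReal.ofReal_le_ofReal ?_)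
        rw [Real.rpow_two, show (1 - 2 : ℝ) = -1 by norm_num, Real.rpow_neg_one, Real.rpow_neg_one,
          Real.rpow_neg_one]
        have h5 := inv_pi_le
        have h6 : (22 / 10000 : ℝ) ^ 2 * (1140624 / 1000000 * (1 / 4) + 1 / Real.pi / (2 - 1) *
            (552 / 1000 * (548 / 10)⁻¹ + 86115 / 10000 * 225⁻¹ + 3506959 / 10000 * 907⁻¹)) =
            (22 / 10000) ^ 2 * (1140624 / 1000000 * (1 / 4)) + (22 / 10000) ^ 2 *
            (552 / 1000 * (548 / 10)⁻¹ + 86115 / 10000 * 225⁻¹ + 3506959 / 10000 * 907⁻¹) *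
            (1 / Real.pi) := by ring
        rw [h6]
        calc _ ≤ (22 / 10000 : ℝ) ^ 2 * (1140624 / 1000000 * (1 / 4)) + (22 / 10000) ^ 2 *
            (552 / 1000 * (548 / 10)⁻¹ + 86115 / 10000 * 225⁻¹ + 3506959 / 10000 * 907⁻¹) *
            (31832 / 100000) := by gcongr
          _ ≤ _ := by norm_num
    _ = ENNReal.ofReal (1433 / 1000000) := by
      rw [ENNReal.ofReal_rpow_of_nonneg (by norm_num) (by norm_num), ← Real.sqrt_eq_rpow,
        Real.sqrt_sq (by norm_num)]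

lemma norm_a43 : (∫⁻ ξ, fa ξ ^ (4 / 3 : ℝ)) ^ (1 / (4 / 3 : ℝ)) ≤
    ENNReal.ofReal (22 / 10000 * (3953 / 1000)) := by
  have hpi := Real.pi_pos
  have hI := int_Ur (4 / 3) (by norm_num)
  have h := steps (4 / 3) (by norm_num) (10917 / 10000) (3286 / 10000) (33150 / 10000)
    (45965 / 1000) _ (rpow_four_third_le (by norm_num) (by norm_num) (by norm_num))
    (rpow_four_third_le (by norm_num) (by norm_num) (by norm_num))
    (rpow_four_third_le (by norm_num) (by norm_num) (by norm_num))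
    (rpow_four_third_le (by norm_num) (by norm_num) (by norm_num)) (by norm_num)
    (by norm_num) (by norm_num) (by positivity) hI
  unfold fa
  have h2 : (2 : ℝ) ^ (1 - 4 / 3 : ℝ) ≤ 7938 / 10000 :=
    rpow_neg_third_le (by norm_num) (by norm_num) (by norm_num)
  have h3 : (548 / 10 : ℝ) ^ (1 - 4 / 3 : ℝ) ≤ 2634 / 10000 :=
    rpow_neg_third_le (by norm_num) (by norm_num) (by norm_num)
  have h4 : (225 : ℝ) ^ (1 - 4 / 3 : ℝ) ≤ 16442 / 100000 :=
    rpow_neg_third_le (by norm_num) (by norm_num) (by norm_num)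
  have h5 : (907 : ℝ) ^ (1 - 4 / 3 : ℝ) ≤ 10332 / 100000 :=
    rpow_neg_third_le (by norm_num) (by norm_num) (by norm_num)
  have h6 := inv_pi_le
  calc (∫⁻ ξ, ENNReal.ofReal (tq 0 * Hs (tq 0 * U ξ) / U ξ) ^ (4 / 3 : ℝ)) ^ (1 / (4 / 3 : ℝ))
      ≤ (ENNReal.ofReal ((22 / 10000) ^ (4 / 3 : ℝ) * (625 / 100))) ^ (1 / (4 / 3 : ℝ)) := by
        apply ENNReal.rpow_le_rpow _ (by norm_num)
        refine h.trans (ENNReal.ofReal_le_ofReal ?_)
        gcongr (22 / 10000) ^ (4 / 3 : ℝ) * ?_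
        calc (10917 / 10000 : ℝ) * (1 / Real.pi * (2 ^ (1 - 4 / 3 : ℝ) * (4 / 3 / (4 / 3 - 1)))) +
            1 / Real.pi / (4 / 3 - 1) * (3286 / 10000 * (548 / 10) ^ (1 - 4 / 3 : ℝ) +
            33150 / 10000 * 225 ^ (1 - 4 / 3 : ℝ) + 45965 / 1000 * 907 ^ (1 - 4 / 3 : ℝ))
            ≤ (10917 / 10000 : ℝ) * (31832 / 100000 * (7938 / 10000 * (4 / 3 / (4 / 3 - 1)))) +
            31832 / 100000 / (4 / 3 - 1) * (3286 / 10000 * (2634 / 10000) +
            33150 / 10000 * (16442 / 100000) + 45965 / 1000 * (10332 / 100000)) := by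
              gcongr
          _ ≤ 625 / 100 := by norm_num
    _ = ENNReal.ofReal (((22 / 10000) ^ (4 / 3 : ℝ) * (625 / 100)) ^ (1 / (4 / 3 : ℝ))) := by
      rw [ENNReal.ofReal_rpow_of_nonneg (by positivity) (by norm_num)]
    _ ≤ ENNReal.ofReal (22 / 10000 * (3953 / 1000)) := by
      apply ENNReal.ofReal_le_ofReal
      rw [Real.mul_rpow (by positivity) (by norm_num), ← Real.rpow_mul (by norm_num),
        show (4 / 3 : ℝ) * (1 / (4 / 3)) = 1 by norm_num, Real.rpow_one]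
      gcongr
      have h7 : (625 / 100 : ℝ) ^ (1 / (4 / 3) : ℝ) = ((625 / 100) ^ 3) ^ (1 / 4 : ℝ) := by
        rw [← Real.rpow_natCast, ← Real.rpow_mul (by norm_num)]
        norm_num
      rw [h7]
      calc ((625 / 100 : ℝ) ^ 3) ^ (1 / 4 : ℝ) ≤ ((3953 / 1000) ^ 4) ^ (1 / 4 : ℝ) :=
            Real.rpow_le_rpow (by norm_num) (by norm_num) (by norm_num)
        _ = 3953 / 1000 := by
          rw [← Real.rpow_natCast, ← Real.rpow_mul (by norm_num)]
          norm_num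

/-! ### the double integral -/

lemma dadd {f g : ℝ × ℝ → ℝ≥0∞} (hf : Measurable f) : ∫⁻ ξ, ∫⁻ η, (f (ξ, η) + g (ξ, η)) =
    (∫⁻ ξ, ∫⁻ η, f (ξ, η)) + ∫⁻ ξ, ∫⁻ η, g (ξ, η) := by
  rw [← lintegral_add_left hf.lintegral_prod_right']
  apply lintegral_congr
  intro ξ
  have hm : Measurable fun η => f (ξ, η) := hf.comp measurable_prodMk_left
  rw [lintegral_add_left hm]

lemma dconst {c : ℝ≥0∞} (hc : c ≠ ⊤) (f : ℝ × ℝ → ℝ≥0∞) : ∫⁻ ξ, ∫⁻ η, c * f (ξ, η) =
    c * ∫⁻ ξ, ∫⁻ η, f (ξ, η) := by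
  rw [← lintegral_const_mul' _ _ hc]
  apply lintegral_congr
  intro ξ
  rw [lintegral_const_mul' _ _ hc]

lemma bb : ∫⁻ ξ, ∫⁻ η, fb ξ * fb η = ENNReal.ofReal (1 / 16) := by
  have h1 : ∀ ξ, ∫⁻ η, fb ξ * fb η = fb ξ * ENNReal.ofReal (1 / 4) := by
    intro ξ
    have hne : fb ξ ≠ ⊤ := ENNReal.ofReal_ne_top
    rw [lintegral_const_mul' _ _ hne]
    congr 1
    exact int_U
  simp_rw [h1]
  rw [lintegral_mul_const' _ _ ENNReal.ofReal_ne_top]
  have h2 : ∫⁻ ξ, fb ξ = ENNReal.ofReal (1 / 4) := int_U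
  rw [h2, ← ENNReal.ofReal_mul (by norm_num)]
  norm_num

/-- the integrand -/
lemma integrand_le {C : ℝ} (hC : 0 ≤ C) (ξ η : ℝ) : ENNReal.ofReal (C *
      ((Real.exp (501 / 500 * tq 0) * qb (tq 0 * ‖un 0 ξ‖) * qb (tq 0 * ‖un 0 η‖) - 1) /
        (‖un 0 ξ‖ ^ 2 * ‖un 0 η‖ ^ 2 * ‖un 0 ξ + (starRingEnd ℂ) (un 0 η)‖))) ≤
    ENNReal.ofReal (C * (221 / 100000 / 4)) * (fb ξ * fb η) +
    ENNReal.ofReal (C * (100221 / 100000)) * (fa ξ * fb η * fK (ξ - η) +
      (fb ξ * fa η * fK (ξ - η) + fa ξ * fa η * fK (ξ - η))) := by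
  rw [norm_sum, norm_un, norm_un]
  have hA := tq0_pos
  have hE := E_le
  have hE1 := one_le_E
  have hU := U_pos ξ
  have hV := U_pos η
  have hD := D_pos (ξ - η)
  have hD4 := four_le_D (ξ - η)
  have hp := psi_le (y := tq 0 * U ξ) (by positivity)
  have hq := psi_le (y := tq 0 * U η) (by positivity)
  have hp1 := one_le_qb (y := tq 0 * U ξ) (by positivity)
  have hq1 := one_le_qb (y := tq 0 * U η) (by positivity)
  have hHp := Hs_pos (tq 0 * U ξ)
  have hHq := Hs_pos (tq 0 * U η)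
  unfold fa fb fK
  rw [← ENNReal.ofReal_mul (by positivity), ← ENNReal.ofReal_mul (by positivity),
    ← ENNReal.ofReal_mul (by positivity), ← ENNReal.ofReal_mul (by positivity),
    ← ENNReal.ofReal_mul (by positivity), ← ENNReal.ofReal_mul (by positivity),
    ← ENNReal.ofReal_mul (by positivity), ← ENNReal.ofReal_mul (by positivity),
    ← ENNReal.ofReal_add (by positivity) (by positivity),
    ← ENNReal.ofReal_add (by positivity) (by positivity),
    ← ENNReal.ofReal_mul (by positivity),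
    ← ENNReal.ofReal_add (by positivity) (by positivity)]
  apply ENNReal.ofReal_le_ofReal
  set E := Real.exp (501 / 500 * tq 0) with hEd
  set q := qb (tq 0 * U ξ) with hqd
  set q' := qb (tq 0 * U η) with hqd'
  set α := tq 0 * Hs (tq 0 * U ξ) / U ξ with hα
  set β := tq 0 * Hs (tq 0 * U η) / U η with hβ
  have hα0 : 0 ≤ α := by positivity
  have hβ0 : 0 ≤ β := by positivity
  have i1 : q - 1 ≤ α * U ξ ^ 2 := by
    refine hp.trans (le_of_eq ?_)
    rw [hα]
    field_simp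
  have i2 : q' - 1 ≤ β * U η ^ 2 := by
    refine hq.trans (le_of_eq ?_)
    rw [hβ]
    field_simp
  have i3 : E * q * q' - 1 ≤ 221 / 100000 + 100221 / 100000 * (α * U ξ ^ 2 + β * U η ^ 2 +
      α * U ξ ^ 2 * (β * U η ^ 2)) := by
    have j1 : E * q * q' = E * (q * q') := by ring
    have j2 : q * q' ≤ (1 + α * U ξ ^ 2) * (1 + β * U η ^ 2) := by
      apply mul_le_mul <;> linarith
    have j3 : E * (q * q') ≤ 100221 / 100000 * ((1 + α * U ξ ^ 2) * (1 + β * U η ^ 2)) := by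
      apply mul_le_mul hE j2 _ (by norm_num)
      positivity
    rw [j1]
    refine (sub_le_sub_right j3 1).trans (le_of_eq ?_)
    ring
  have i4 : (E * q * q' - 1) / (U ξ ^ 2 * U η ^ 2 * D (ξ - η)) ≤
      (221 / 100000 + 100221 / 100000 * (α * U ξ ^ 2 + β * U η ^ 2 +
      α * U ξ ^ 2 * (β * U η ^ 2))) / (U ξ ^ 2 * U η ^ 2 * D (ξ - η)) := by
    gcongr
  have i5 : (221 / 100000 + 100221 / 100000 * (α * U ξ ^ 2 + β * U η ^ 2 +
      α * U ξ ^ 2 * (β * U η ^ 2))) / (U ξ ^ 2 * U η ^ 2 * D (ξ - η)) =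
      221 / 100000 * (1 / U ξ ^ 2 * (1 / U η ^ 2)) * (1 / D (ξ - η)) + 100221 / 100000 *
      (α * (1 / U η ^ 2) * (1 / D (ξ - η)) + (1 / U ξ ^ 2 * β * (1 / D (ξ - η)) +
      α * β * (1 / D (ξ - η)))) := by
    field_simp
    ring
  have i6 : 221 / 100000 * (1 / U ξ ^ 2 * (1 / U η ^ 2)) * (1 / D (ξ - η)) ≤
      221 / 100000 * (1 / U ξ ^ 2 * (1 / U η ^ 2)) * (1 / 4) := by
    gcongr
  calc C * ((E * q * q' - 1) / (U ξ ^ 2 * U η ^ 2 * D (ξ - η)))
      ≤ C * (221 / 100000 * (1 / U ξ ^ 2 * (1 / U η ^ 2)) * (1 / 4) + 100221 / 100000 *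
      (α * (1 / U η ^ 2) * (1 / D (ξ - η)) + (1 / U ξ ^ 2 * β * (1 / D (ξ - η)) +
      α * β * (1 / D (ξ - η))))) := by
        gcongr
        linarith
    _ = _ := by ring

end J1M

/-- (R17a) -/
theorem stJ1 (h : StYoung) : StJ1 := by
  unfold StJ1
  have mK := J1M.measurable_fK
  have ma := J1M.measurable_fa
  have mb := J1M.measurable_fb
  set C : ℝ := (113 / 100) ^ 2 * (101 / 100) * (11 / 4) ^ 2 * (16 / 9) with hC
  have hC0 : 0 ≤ C := by norm_num [hC]
  clear_value C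
  have mK' : Measurable fun p : ℝ × ℝ => J1M.fK (p.1 - p.2) :=
    mK.comp (measurable_fst.sub measurable_snd)
  have m1 : Measurable fun p : ℝ × ℝ => J1M.fa p.1 * J1M.fb p.2 * J1M.fK (p.1 - p.2) :=
    ((ma.comp measurable_fst).mul (mb.comp measurable_snd)).mul mK'
  have m2 : Measurable fun p : ℝ × ℝ => J1M.fb p.1 * J1M.fa p.2 * J1M.fK (p.1 - p.2) :=
    ((mb.comp measurable_fst).mul (ma.comp measurable_snd)).mul mK'
  have m3 : Measurable fun p : ℝ × ℝ => J1M.fb p.1 * J1M.fb p.2 :=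
    (mb.comp measurable_fst).mul (mb.comp measurable_snd)
  have y1 : ∫⁻ ξ, ∫⁻ η, J1M.fa ξ * J1M.fb η * J1M.fK (ξ - η) ≤ ENNReal.ofReal (1433 / 1000000) *
      ENNReal.ofReal (1 / 4) * ENNReal.ofReal (35356 / 100000) := by
    refine (h 2 2 1 (by norm_num) (by norm_num) le_rfl (by norm_num) _ _ _ ma mb mK).trans ?_
    gcongr
    · exact J1M.norm_a2
    · exact J1M.norm_b
    · exact J1M.norm_K
  have y2 : ∫⁻ ξ, ∫⁻ η, J1M.fb ξ * J1M.fa η * J1M.fK (ξ - η) ≤ ENNReal.ofReal (1 / 4) *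
      ENNReal.ofReal (1433 / 1000000) * ENNReal.ofReal (35356 / 100000) := by
    refine (h 2 1 2 (by norm_num) le_rfl (by norm_num) (by norm_num) _ _ _ mb ma mK).trans ?_
    gcongr
    · exact J1M.norm_b
    · exact J1M.norm_a2
    · exact J1M.norm_K
  have y3 : ∫⁻ ξ, ∫⁻ η, J1M.fa ξ * J1M.fa η * J1M.fK (ξ - η) ≤
      ENNReal.ofReal (22 / 10000 * (3953 / 1000)) * ENNReal.ofReal (22 / 10000 * (3953 / 1000)) *
      ENNReal.ofReal (35356 / 100000) := by
    refine (h 2 (4 / 3) (4 / 3) (by norm_num) (by norm_num) (by norm_num) (by norm_num) _ _ _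
      ma ma mK).trans ?_
    gcongr
    · exact J1M.norm_a43
    · exact J1M.norm_a43
    · exact J1M.norm_K
  refine (lintegral_mono fun ξ => lintegral_mono fun η => J1M.integrand_le hC0 ξ η).trans ?_
  have e1 := J1M.dadd (f := fun p => ENNReal.ofReal (C * (221 / 100000 / 4)) *
    (J1M.fb p.1 * J1M.fb p.2)) (g := fun p => ENNReal.ofReal (C * (100221 / 100000)) *
    (J1M.fa p.1 * J1M.fb p.2 * J1M.fK (p.1 - p.2) + (J1M.fb p.1 * J1M.fa p.2 * J1M.fK (p.1 - p.2) +
      J1M.fa p.1 * J1M.fa p.2 * J1M.fK (p.1 - p.2)))) (m3.const_mul _)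
  have e2 := J1M.dconst (c := ENNReal.ofReal (C * (221 / 100000 / 4))) ENNReal.ofReal_ne_top
    (fun p => J1M.fb p.1 * J1M.fb p.2)
  have e3 := J1M.dconst (c := ENNReal.ofReal (C * (100221 / 100000))) ENNReal.ofReal_ne_top
    (fun p => J1M.fa p.1 * J1M.fb p.2 * J1M.fK (p.1 - p.2) +
      (J1M.fb p.1 * J1M.fa p.2 * J1M.fK (p.1 - p.2) +
      J1M.fa p.1 * J1M.fa p.2 * J1M.fK (p.1 - p.2)))
  have e4 := J1M.dadd (f := fun p => J1M.fa p.1 * J1M.fb p.2 * J1M.fK (p.1 - p.2))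
    (g := fun p => J1M.fb p.1 * J1M.fa p.2 * J1M.fK (p.1 - p.2) +
      J1M.fa p.1 * J1M.fa p.2 * J1M.fK (p.1 - p.2)) m1
  have e5 := J1M.dadd (f := fun p => J1M.fb p.1 * J1M.fa p.2 * J1M.fK (p.1 - p.2))
    (g := fun p => J1M.fa p.1 * J1M.fa p.2 * J1M.fK (p.1 - p.2)) m2
  dsimp only at e1 e2 e3 e4 e5
  rw [e1, e2, e3, e4, e5, J1M.bb]
  calc _ ≤ ENNReal.ofReal (C * (221 / 100000 / 4)) * ENNReal.ofReal (1 / 16) +
      ENNReal.ofReal (C * (100221 / 100000)) * (ENNReal.ofReal (1433 / 1000000) *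
      ENNReal.ofReal (1 / 4) * ENNReal.ofReal (35356 / 100000) + (ENNReal.ofReal (1 / 4) *
      ENNReal.ofReal (1433 / 1000000) * ENNReal.ofReal (35356 / 100000) +
      ENNReal.ofReal (22 / 10000 * (3953 / 1000)) * ENNReal.ofReal (22 / 10000 * (3953 / 1000)) *
      ENNReal.ofReal (35356 / 100000))) := by gcongr
    _ = ENNReal.ofReal (C * (221 / 100000 / 4) * (1 / 16) + C * (100221 / 100000) *
      (1433 / 1000000 * (1 / 4) * (35356 / 100000) + (1 / 4 * (1433 / 1000000) * (35356 / 100000) +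
      22 / 10000 * (3953 / 1000) * (22 / 10000 * (3953 / 1000)) * (35356 / 100000)))) := by
      rw [← ENNReal.ofReal_mul (by positivity), ← ENNReal.ofReal_mul (by positivity),
        ← ENNReal.ofReal_mul (by positivity), ← ENNReal.ofReal_mul (by positivity),
        ← ENNReal.ofReal_mul (by positivity), ← ENNReal.ofReal_mul (by positivity),
        ← ENNReal.ofReal_mul (by positivity), ← ENNReal.ofReal_add (by positivity) (by positivity),
        ← ENNReal.ofReal_add (by positivity) (by positivity),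
        ← ENNReal.ofReal_mul (by positivity),
        ← ENNReal.ofReal_add (by positivity) (by positivity)]
    _ ≤ ENNReal.ofReal cA := by
      apply ENNReal.ofReal_le_ofReal
      unfold cA
      rw [hC]
      norm_num

end K7
end Pool.Agent.Lib.MP_973905_nt
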