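import Pool.Agent.Lib.MP_973905_nt.K7.J3

/-! (R17b) The numeric double integral of the window, by Young's inequality with the exponents
`5/4, 5, 1` and `5/4, 5/3, 5/3`. -/

namespace Pool.Agent.Lib.MP_973905_nt
namespace K7
namespace J2Aux

open MeasureTheory ProbabilityTheory Complex Filter Topology K1 K4 K5 JT J3Aux
open scoped ENNReal

/-- the majorant of the transform of the window as a function of `w = 2 π |ξ|` -/
noncomputable def mv (w : ℝ) : ℝ := min (1 / 20) (11 / 2 / vn w)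

theorem mw_eq (ξ : ℝ) : mw ξ = mv |2 * Real.pi * ξ| := by
  rw [mw, mv, norm_un]

theorem mv_nonneg (w : ℝ) : 0 ≤ mv w := by
  have := vn_pos w
  unfold mv
  positivity

theorem measurable_mv : Measurable mv := by
  have := continuous_vn.measurable
  unfold mv
  fun_prop

/-- the factor of a variable -/
noncomputable def bb (w : ℝ) : ℝ := mv w / vn w

/-- the factor of a variable with the loss -/
noncomputable def aa (w : ℝ) : ℝ := ps w * bb w

theorem bb_nonneg (w : ℝ) : 0 ≤ bb w := div_nonneg (mv_nonneg w) (vn_pos w).le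

theorem aa_nonneg (w : ℝ) : 0 ≤ aa w := mul_nonneg (ps_nonneg w) (bb_nonneg w)

theorem measurable_bb : Measurable bb := measurable_mv.div continuous_vn.measurable

theorem measurable_aa : Measurable aa := measurable_ps.mul measurable_bb

theorem ps_one {w : ℝ} (h0 : 0 ≤ w) (h : w ≤ 450) : ps w ≤ 173 / 100 * (11 / 5000 * vn w) := by
  have h1 : vn w ≤ 45001 / 100 := vn_le h0 h (by norm_num) (by norm_num)
  have h2 := tq_le
  have h3 := tq_pos
  have h4 := vn_pos w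
  have h5 : tq 0 * vn w ≤ 11 / 5000 * vn w := by gcongr
  have h6 := qb_le_one (y := tq 0 * vn w) (by positivity) (by linarith)
  unfold ps
  linarith

theorem aa_le_of {w c : ℝ} (h : ps w ≤ c * (11 / 5000 * vn w)) : aa w ≤ c * (11 / 5000) * mv w := by
  have hv := vn_pos w
  calc aa w = ps w * (mv w / vn w) := rfl
    _ ≤ c * (11 / 5000 * vn w) * (mv w / vn w) := by
      gcongr
      exact bb_nonneg w
    _ = c * (11 / 5000) * mv w := by field_simp

theorem mv_le_tail {w : ℝ} (hw : 0 < w) : mv w ≤ 11 / 2 * w⁻¹ := by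
  refine (min_le_right _ _).trans ?_
  rw [div_eq_mul_inv]
  gcongr
  exact le_vn w

theorem aa_zero {w : ℝ} (h0 : 0 ≤ w) (h : w ≤ 110) : aa w ≤ 1903 / 10000000 := by
  have h1 := aa_le_of (ps_one h0 (by linarith))
  have h2 : mv w ≤ 1 / 20 := min_le_left _ _
  linarith

theorem aa_tail {w c : ℝ} (hw : 0 < w) (hc : 0 ≤ c) (h : ps w ≤ c * (11 / 5000 * vn w)) :
    aa w ≤ c * (121 / 10000) * w⁻¹ := by
  refine (aa_le_of h).trans ?_
  have := mv_le_tail hw
  calc c * (11 / 5000) * mv w ≤ c * (11 / 5000) * (11 / 2 * w⁻¹) := by gcongr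
    _ = c * (121 / 10000) * w⁻¹ := by ring

theorem bb_zero (w : ℝ) : bb w ≤ 1 / 40 := by
  have hv := vn_pos w
  have h2 := two_le_vn w
  have h1 : mv w ≤ 1 / 20 := min_le_left _ _
  rw [bb, div_le_iff₀ hv]
  linarith

theorem bb_mid {w : ℝ} (hw : 0 < w) : bb w ≤ 1 / 20 * w⁻¹ := by
  have hv := vn_pos w
  have h1 : mv w ≤ 1 / 20 := min_le_left _ _
  rw [bb, div_eq_mul_inv]
  have h3 : (vn w)⁻¹ ≤ w⁻¹ := inv_anti₀ hw (le_vn w)
  have := mv_nonneg w
  gcongr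

theorem bb_tail {w : ℝ} (hw : 0 < w) : bb w ≤ 11 / 2 * w ^ (-2 : ℝ) := by
  have hr : w ^ (-2 : ℝ) = w⁻¹ * w⁻¹ := by
    rw [Real.rpow_neg hw.le]
    norm_num
    ring
  have hv := vn_pos w
  rw [bb, div_eq_mul_inv, hr, ← mul_assoc]
  have h3 : (vn w)⁻¹ ≤ w⁻¹ := inv_anti₀ hw (le_vn w)
  have := mv_le_tail hw
  gcongr

theorem indn (s : Set ℝ) (f : ℝ → ℝ) (w : ℝ) (h : 0 ≤ f w) : 0 ≤ s.indicator f w := by
  by_cases hw : w ∈ s
  · rw [Set.indicator_of_mem hw]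
    exact h
  · rw [Set.indicator_of_notMem hw]

theorem ofReal_ind (s : Set ℝ) (f : ℝ → ℝ) (w : ℝ) :
    ENNReal.ofReal (s.indicator f w) = s.indicator (fun w => ENNReal.ofReal (f w)) w := by
  by_cases h : w ∈ s
  · rw [Set.indicator_of_mem h, Set.indicator_of_mem h]
  · rw [Set.indicator_of_notMem h, Set.indicator_of_notMem h, ENNReal.ofReal_zero]

theorem tailr (X c r : ℝ) (hX : 0 < X) (hc : 0 ≤ c) (hr : 1 < r) :
    ∫⁻ w in Set.Ioi (0 : ℝ), ENNReal.ofReal ((Set.Ioi X).indicator (fun w => c * w ^ (-r)) w) =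
      ENNReal.ofReal (c * (X ^ (1 - r) / (r - 1))) := by
  simp_rw [ofReal_ind]
  rw [lintegral_indicator measurableSet_Ioi, Measure.restrict_restrict measurableSet_Ioi,
    Set.inter_eq_left.2 (Set.Ioi_subset_Ioi hX.le)]
  simp_rw [ENNReal.ofReal_mul hc]
  rw [lintegral_const_mul' _ _ ENNReal.ofReal_ne_top, lint_rpow hX hr]

theorem head (X c : ℝ) (_hX : 0 ≤ X) (hc : 0 ≤ c) :
    ∫⁻ w in Set.Ioi (0 : ℝ), ENNReal.ofReal ((Set.Ioc 0 X).indicator (fun _ => c) w) =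
      ENNReal.ofReal (c * X) := by
  simp_rw [ofReal_ind]
  rw [lintegral_indicator measurableSet_Ioc, Measure.restrict_restrict measurableSet_Ioc,
    Set.inter_eq_left.2 Set.Ioc_subset_Ioi_self, lint_const hc]

theorem mid (X Y c : ℝ) (hX : 0 < X) (hXY : X ≤ Y) (hc : 0 ≤ c) :
    ∫⁻ w in Set.Ioi (0 : ℝ), ENNReal.ofReal ((Set.Ioc X Y).indicator (fun w => c * w⁻¹) w) =
      ENNReal.ofReal (c * Real.log (Y / X)) := by
  simp_rw [ofReal_ind]
  have hsub : Set.Ioc X Y ⊆ Set.Ioi (0 : ℝ) := fun w hw => hX.trans hw.1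
  rw [lintegral_indicator measurableSet_Ioc, Measure.restrict_restrict measurableSet_Ioc,
    Set.inter_eq_left.2 hsub]
  simp_rw [ENNReal.ofReal_mul hc]
  rw [lintegral_const_mul' _ _ ENNReal.ofReal_ne_top]
  congr 1
  have h0 : (0 : ℝ) ∉ Set.uIcc X Y := by
    rw [Set.uIcc_of_le hXY]
    exact fun h => absurd h.1 (not_le.2 hX)
  have h1 := integral_inv h0
  have h2 : IntervalIntegrable (fun w : ℝ => w⁻¹) volume X Y :=
    intervalIntegral.intervalIntegrable_inv (fun w hw h => h0 (h ▸ hw)) continuousOn_id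
  rw [intervalIntegral.integral_of_le hXY] at h1
  rw [← ofReal_integral_eq_lintegral_ofReal ((intervalIntegrable_iff_integrableOn_Ioc_of_le hXY).1 h2),
    h1]
  exact (ae_restrict_iff' measurableSet_Ioc).2 (Eventually.of_forall fun w hw =>
    inv_nonneg.2 (hX.trans hw.1).le)

theorem ind_nonneg (X r c w : ℝ) (hw : 0 < w) (hc : 0 ≤ c) :
    0 ≤ (Set.Ioi X).indicator (fun w => c * w ^ (-r)) w :=
  indn _ _ _ (by positivity)

theorem pta {r w : ℝ} (hr : 0 ≤ r) (hw : 0 < w) : aa w ^ r ≤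
    (Set.Ioc (0 : ℝ) 110).indicator (fun _ => (1903 / 10000000 : ℝ) ^ r) w +
      ((Set.Ioi (110 : ℝ)).indicator (fun w => (20933 / 1000000 : ℝ) ^ r * w ^ (-r)) w +
      ((Set.Ioi (450 : ℝ)).indicator (fun w => (38841 / 1000000 : ℝ) ^ r * w ^ (-r)) w +
      (Set.Ioi (908 : ℝ)).indicator (fun w => (2299 / 10000 : ℝ) ^ r * w ^ (-r)) w)) := by
  have ha := aa_nonneg w
  have hkey : ∀ c : ℝ, 0 ≤ c → aa w ≤ c * w⁻¹ → aa w ^ r ≤ c ^ r * w ^ (-r) := by
    intro c hc h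
    calc aa w ^ r ≤ (c * w⁻¹) ^ r := Real.rpow_le_rpow ha h hr
      _ = c ^ r * w ^ (-r) := by
        rw [Real.mul_rpow hc (by positivity), Real.inv_rpow hw.le, Real.rpow_neg hw.le]
  have i1 := ind_nonneg 110 r ((20933 / 1000000 : ℝ) ^ r) w hw (by positivity)
  have i2 := ind_nonneg 450 r ((38841 / 1000000 : ℝ) ^ r) w hw (by positivity)
  have i3 := ind_nonneg 908 r ((2299 / 10000 : ℝ) ^ r) w hw (by positivity)
  have i0 : 0 ≤ (Set.Ioc (0 : ℝ) 110).indicator (fun _ => (1903 / 10000000 : ℝ) ^ r) w :=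
    indn _ _ _ (by positivity)
  by_cases h1 : w ≤ 110
  · have h2 := Real.rpow_le_rpow ha (aa_zero hw.le h1) hr
    have e1 : w ∈ Set.Ioc (0 : ℝ) 110 := ⟨hw, h1⟩
    rw [Set.indicator_of_mem e1]
    linarith
  rw [not_le] at h1
  by_cases h2 : w ≤ 450
  · have h3 := aa_tail hw (by norm_num) (ps_one hw.le h2)
    have h4 := hkey (20933 / 1000000) (by norm_num) (by linarith)
    have e1 : w ∈ Set.Ioi (110 : ℝ) := h1
    rw [Set.indicator_of_mem e1]
    linarith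
  rw [not_le] at h2
  by_cases h3 : w ≤ 908
  · have h3 := aa_tail hw (by norm_num) (ps_mid hw.le h3)
    have h4 := hkey (38841 / 1000000) (by norm_num) (by linarith)
    have e1 : w ∈ Set.Ioi (450 : ℝ) := h2
    rw [Set.indicator_of_mem e1]
    linarith
  rw [not_le] at h3
  have h5 := aa_tail hw (by norm_num) (ps_large w)
  have h4 := hkey (2299 / 10000) (by norm_num) (by linarith)
  have e1 : w ∈ Set.Ioi (908 : ℝ) := h3
  rw [Set.indicator_of_mem e1]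
  linarith

theorem hmi (X c r : ℝ) : Measurable fun w : ℝ =>
    ENNReal.ofReal ((Set.Ioi X).indicator (fun w => c * w ^ (-r)) w) :=
  (((measurable_id.pow_const _).const_mul c).indicator measurableSet_Ioi).ennreal_ofReal

theorem A_le {r : ℝ} (hr : 1 < r) : ∫⁻ ξ : ℝ, (ENNReal.ofReal (aa |2 * Real.pi * ξ|)) ^ r ≤
    ENNReal.ofReal (1 / Real.pi * ((1903 / 10000000 : ℝ) ^ r * 110 +
      ((20933 / 1000000 : ℝ) ^ r * ((110 : ℝ) ^ (1 - r) / (r - 1)) +
      ((38841 / 1000000 : ℝ) ^ r * ((450 : ℝ) ^ (1 - r) / (r - 1)) +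
      (2299 / 10000 : ℝ) ^ r * ((908 : ℝ) ^ (1 - r) / (r - 1)))))) := by
  have hpi := Real.pi_pos
  have hr0 : 0 ≤ r := by linarith
  have hr1 : 0 < r - 1 := by linarith
  have hm : Measurable fun w : ℝ => (ENNReal.ofReal (aa w)) ^ r :=
    measurable_aa.ennreal_ofReal.pow_const _
  rw [lint (fun w => (ENNReal.ofReal (aa w)) ^ r) hm, ENNReal.ofReal_mul (by positivity)]
  gcongr
  have h1 : ∫⁻ w in Set.Ioi (0 : ℝ), (ENNReal.ofReal (aa w)) ^ r ≤
      ∫⁻ w in Set.Ioi (0 : ℝ), (ENNReal.ofReal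
      ((Set.Ioc (0 : ℝ) 110).indicator (fun _ => (1903 / 10000000 : ℝ) ^ r) w) +
      (ENNReal.ofReal
      ((Set.Ioi (110 : ℝ)).indicator (fun w => (20933 / 1000000 : ℝ) ^ r * w ^ (-r)) w) +
      (ENNReal.ofReal
      ((Set.Ioi (450 : ℝ)).indicator (fun w => (38841 / 1000000 : ℝ) ^ r * w ^ (-r)) w) +
      ENNReal.ofReal
      ((Set.Ioi (908 : ℝ)).indicator (fun w => (2299 / 10000 : ℝ) ^ r * w ^ (-r)) w)))) := by
    refine setLIntegral_mono' measurableSet_Ioi fun w hw => ?_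
    rw [ENNReal.ofReal_rpow_of_nonneg (aa_nonneg w) hr0]
    refine (ENNReal.ofReal_le_ofReal (pta hr0 (Set.mem_Ioi.1 hw))).trans ?_
    exact ENNReal.ofReal_add_le.trans (add_le_add le_rfl
      (ENNReal.ofReal_add_le.trans (add_le_add le_rfl ENNReal.ofReal_add_le)))
  have hm3 : Measurable fun w : ℝ => (ENNReal.ofReal
      ((Set.Ioi (450 : ℝ)).indicator (fun w => (38841 / 1000000 : ℝ) ^ r * w ^ (-r)) w) +
      ENNReal.ofReal
      ((Set.Ioi (908 : ℝ)).indicator (fun w => (2299 / 10000 : ℝ) ^ r * w ^ (-r)) w)) :=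
    (hmi _ _ _).add (hmi _ _ _)
  have hm2 : Measurable fun w : ℝ => (ENNReal.ofReal
      ((Set.Ioi (110 : ℝ)).indicator (fun w => (20933 / 1000000 : ℝ) ^ r * w ^ (-r)) w) +
      (ENNReal.ofReal
      ((Set.Ioi (450 : ℝ)).indicator (fun w => (38841 / 1000000 : ℝ) ^ r * w ^ (-r)) w) +
      ENNReal.ofReal
      ((Set.Ioi (908 : ℝ)).indicator (fun w => (2299 / 10000 : ℝ) ^ r * w ^ (-r)) w))) :=
    (hmi _ _ _).add hm3
  rw [lintegral_add_right _ hm2, lintegral_add_right _ hm3, lintegral_add_right _ (hmi _ _ _),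
    head _ _ (by norm_num) (by positivity), tailr _ _ _ (by norm_num) (by positivity) hr,
    tailr _ _ _ (by norm_num) (by positivity) hr, tailr _ _ _ (by norm_num) (by positivity) hr,
    ← ENNReal.ofReal_add (by positivity) (by positivity),
    ← ENNReal.ofReal_add (by positivity) (by positivity),
    ← ENNReal.ofReal_add (by positivity) (by positivity)] at h1
  exact h1

theorem A5_le : (∫⁻ ξ : ℝ, (ENNReal.ofReal (aa |2 * Real.pi * ξ|)) ^ (5 : ℝ)) ^ (1 / 5 : ℝ) ≤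
    ENNReal.ofReal (6127 / 10000000) := by
  have hpi := Real.pi_pos
  have hpi2 := Real.pi_gt_d6
  refine (ENNReal.rpow_le_rpow (A_le (r := 5) (by norm_num)) (by norm_num)).trans ?_
  rw [ENNReal.ofReal_rpow_of_nonneg (by positivity) (by norm_num)]
  refine ENNReal.ofReal_le_ofReal ?_
  have e : ∀ X : ℝ, 0 < X → X ^ (1 - 5 : ℝ) / (5 - 1) = (X ^ 4)⁻¹ / 4 := by
    intro X hX
    rw [show (1 - 5 : ℝ) = -4 by norm_num, Real.rpow_neg hX.le]
    norm_num
  rw [e _ (by norm_num), e _ (by norm_num), e _ (by norm_num)]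
  have h1 : 1 / Real.pi * ((1903 / 10000000 : ℝ) ^ (5 : ℝ) * 110 +
      ((20933 / 1000000 : ℝ) ^ (5 : ℝ) * (((110 : ℝ) ^ 4)⁻¹ / 4) +
      ((38841 / 1000000 : ℝ) ^ (5 : ℝ) * (((450 : ℝ) ^ 4)⁻¹ / 4) +
      (2299 / 10000 : ℝ) ^ (5 : ℝ) * (((908 : ℝ) ^ 4)⁻¹ / 4)))) ≤ (6127 / 10000000) ^ 5 := by
    have e5 : ∀ x : ℝ, x ^ (5 : ℝ) = x ^ 5 := fun x => by
      rw [← Real.rpow_natCast]
      norm_num
    rw [e5, e5, e5, e5, one_div, inv_mul_le_iff₀ hpi]
    calc _ ≤ (3.141592 : ℝ) * (6127 / 10000000) ^ 5 := by norm_num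
      _ ≤ Real.pi * (6127 / 10000000) ^ 5 := by gcongr
  calc _ ≤ ((6127 / 10000000 : ℝ) ^ 5) ^ (1 / 5 : ℝ) :=
        Real.rpow_le_rpow (by positivity) h1 (by norm_num)
    _ = 6127 / 10000000 := by
      rw [← Real.rpow_natCast, ← Real.rpow_mul (by norm_num)]
      norm_num

theorem pow53 {c q : ℝ} (hc : 0 ≤ c) (hq : 0 ≤ q) (h : c ^ 5 ≤ q ^ 3) : c ^ (5 / 3 : ℝ) ≤ q := by
  have h1 : c ^ (5 / 3 : ℝ) = (c ^ 5) ^ (1 / 3 : ℝ) := by
    rw [← Real.rpow_natCast, ← Real.rpow_mul hc]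
    norm_num
  have h2 : q = (q ^ 3) ^ (1 / 3 : ℝ) := by
    rw [← Real.rpow_natCast, ← Real.rpow_mul hq]
    norm_num
  rw [h1, h2]
  exact Real.rpow_le_rpow (by positivity) h (by norm_num)

theorem pow23 {c X q : ℝ} (hc : 0 ≤ c) (hX : 0 < X) (hq : 0 ≤ q) (h : c ^ 5 ≤ q ^ 3 * X ^ 2) :
    c ^ (5 / 3 : ℝ) * (X ^ (1 - 5 / 3 : ℝ) / (5 / 3 - 1)) ≤ 3 / 2 * q := by
  have h1 : c ^ (5 / 3 : ℝ) * X ^ (1 - 5 / 3 : ℝ) ≤ q := by
    have h2 : c ^ (5 / 3 : ℝ) = (c ^ 5) ^ (1 / 3 : ℝ) := by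
      rw [← Real.rpow_natCast, ← Real.rpow_mul hc]
      norm_num
    have h3 : X ^ (1 - 5 / 3 : ℝ) = ((X ^ 2)⁻¹) ^ (1 / 3 : ℝ) := by
      rw [Real.inv_rpow (by positivity), ← Real.rpow_natCast, ← Real.rpow_mul hX.le,
        ← Real.rpow_neg hX.le]
      norm_num
    have h4 : q = (q ^ 3) ^ (1 / 3 : ℝ) := by
      rw [← Real.rpow_natCast, ← Real.rpow_mul hq]
      norm_num
    rw [h2, h3, ← Real.mul_rpow (by positivity) (by positivity), h4]
    refine Real.rpow_le_rpow (by positivity) ?_ (by norm_num)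
    rw [← div_eq_mul_inv, div_le_iff₀ (by positivity)]
    exact h
  calc c ^ (5 / 3 : ℝ) * (X ^ (1 - 5 / 3 : ℝ) / (5 / 3 - 1)) =
        3 / 2 * (c ^ (5 / 3 : ℝ) * X ^ (1 - 5 / 3 : ℝ)) := by ring
    _ ≤ 3 / 2 * q := by gcongr

theorem A53_le : (∫⁻ ξ : ℝ, (ENNReal.ofReal (aa |2 * Real.pi * ξ|)) ^ (5 / 3 : ℝ)) ^
    (1 / (5 / 3) : ℝ) ≤ ENNReal.ofReal (10840 / 1000000) := by
  have hpi := Real.pi_pos
  have hpi2 := Real.pi_gt_d6
  refine (ENNReal.rpow_le_rpow (A_le (r := 5 / 3) (by norm_num)) (by norm_num)).trans ?_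
  rw [ENNReal.ofReal_rpow_of_nonneg (by positivity) (by norm_num)]
  refine ENNReal.ofReal_le_ofReal ?_
  have b0 : (1903 / 10000000 : ℝ) ^ (5 / 3 : ℝ) ≤ 6297 / 10000000000 :=
    pow53 (by norm_num) (by norm_num) (by norm_num)
  have b1 := pow23 (c := 20933 / 1000000) (X := 110) (q := 6926 / 100000000)
    (by norm_num) (by norm_num) (by norm_num) (by norm_num)
  have b2 := pow23 (c := 38841 / 1000000) (X := 450) (q := 7587 / 100000000)
    (by norm_num) (by norm_num) (by norm_num) (by norm_num)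
  have b3 := pow23 (c := 2299 / 10000) (X := 908) (q := 92013 / 100000000)
    (by norm_num) (by norm_num) (by norm_num) (by norm_num)
  have h1 : 1 / Real.pi * ((1903 / 10000000 : ℝ) ^ (5 / 3 : ℝ) * 110 +
      ((20933 / 1000000 : ℝ) ^ (5 / 3 : ℝ) * ((110 : ℝ) ^ (1 - 5 / 3 : ℝ) / (5 / 3 - 1)) +
      ((38841 / 1000000 : ℝ) ^ (5 / 3 : ℝ) * ((450 : ℝ) ^ (1 - 5 / 3 : ℝ) / (5 / 3 - 1)) +
      (2299 / 10000 : ℝ) ^ (5 / 3 : ℝ) * ((908 : ℝ) ^ (1 - 5 / 3 : ℝ) / (5 / 3 - 1))))) ≤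
      53070 / 100000000 := by
    rw [one_div, inv_mul_le_iff₀ hpi]
    linarith
  calc _ ≤ (53070 / 100000000 : ℝ) ^ (1 / (5 / 3) : ℝ) :=
        Real.rpow_le_rpow (by positivity) h1 (by norm_num)
    _ = ((53070 / 100000000 : ℝ) ^ 3) ^ (1 / 5 : ℝ) := by
      rw [← Real.rpow_natCast, ← Real.rpow_mul (by norm_num)]
      norm_num
    _ ≤ ((10840 / 1000000 : ℝ) ^ 5) ^ (1 / 5 : ℝ) :=
        Real.rpow_le_rpow (by positivity) (by norm_num) (by norm_num)
    _ = 10840 / 1000000 := by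
      rw [← Real.rpow_natCast, ← Real.rpow_mul (by norm_num)]
      norm_num

theorem log55 : Real.log (110 / 2) ≤ 4008 / 1000 := by
  rw [show (110 / 2 : ℝ) = 55 by norm_num, Real.log_le_iff_le_exp (by norm_num)]
  have h1 : Real.exp (4008 / 1000) = Real.exp 1 ^ 4 * Real.exp (1 / 125) := by
    rw [← Real.exp_nat_mul, ← Real.exp_add]
    norm_num
  have h2 : (2.7182818283 : ℝ) < Real.exp 1 := Real.exp_one_gt_d9
  have h3 : (1 + 1 / 125 : ℝ) ≤ Real.exp (1 / 125) := by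
    have := Real.add_one_le_exp (1 / 125)
    linarith
  rw [h1]
  calc (55 : ℝ) ≤ 2.7182818283 ^ 4 * (1 + 1 / 125) := by norm_num
    _ ≤ _ := by gcongr

theorem ptb {w : ℝ} (hw : 0 < w) : bb w ≤
    (Set.Ioc (0 : ℝ) 2).indicator (fun _ => (1 / 40 : ℝ)) w +
      ((Set.Ioi (110 : ℝ)).indicator (fun w => 11 / 2 * w ^ (-2 : ℝ)) w +
      (Set.Ioc (2 : ℝ) 110).indicator (fun w => 1 / 20 * w⁻¹) w) := by
  have i1 := ind_nonneg 110 2 (11 / 2) w hw (by positivity)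
  have i0 : 0 ≤ (Set.Ioc (0 : ℝ) 2).indicator (fun _ => (1 / 40 : ℝ)) w :=
    indn _ _ _ (by positivity)
  have i2 : 0 ≤ (Set.Ioc (2 : ℝ) 110).indicator (fun w => 1 / 20 * w⁻¹) w :=
    indn _ _ _ (by positivity)
  by_cases h1 : w ≤ 2
  · have e1 : w ∈ Set.Ioc (0 : ℝ) 2 := ⟨hw, h1⟩
    rw [Set.indicator_of_mem e1]
    linarith [bb_zero w]
  rw [not_le] at h1
  by_cases h2 : w ≤ 110
  · have e1 : w ∈ Set.Ioc (2 : ℝ) 110 := ⟨h1, h2⟩
    rw [Set.indicator_of_mem e1]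
    linarith [bb_mid hw]
  · have e1 : w ∈ Set.Ioi (110 : ℝ) := not_le.1 h2
    rw [Set.indicator_of_mem e1]
    linarith [bb_tail hw]

theorem B_le : ∫⁻ ξ : ℝ, ENNReal.ofReal (bb |2 * Real.pi * ξ|) ≤ ENNReal.ofReal (957 / 10000) := by
  have hpi := Real.pi_pos
  have hpi2 := Real.pi_gt_d6
  rw [lint (fun w => ENNReal.ofReal (bb w)) measurable_bb.ennreal_ofReal]
  have h1 : ∫⁻ w in Set.Ioi (0 : ℝ), ENNReal.ofReal (bb w) ≤
      ∫⁻ w in Set.Ioi (0 : ℝ), (ENNReal.ofReal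
      ((Set.Ioc (0 : ℝ) 2).indicator (fun _ => (1 / 40 : ℝ)) w) +
      (ENNReal.ofReal ((Set.Ioi (110 : ℝ)).indicator (fun w => 11 / 2 * w ^ (-2 : ℝ)) w) +
      ENNReal.ofReal ((Set.Ioc (2 : ℝ) 110).indicator (fun w => 1 / 20 * w⁻¹) w))) := by
    refine setLIntegral_mono' measurableSet_Ioi fun w hw => ?_
    refine (ENNReal.ofReal_le_ofReal (ptb (Set.mem_Ioi.1 hw))).trans ?_
    exact ENNReal.ofReal_add_le.trans (add_le_add le_rfl ENNReal.ofReal_add_le)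
  have hm4 : Measurable fun w : ℝ =>
      ENNReal.ofReal ((Set.Ioc (2 : ℝ) 110).indicator (fun w => 1 / 20 * w⁻¹) w) :=
    ((measurable_id.inv.const_mul _).indicator measurableSet_Ioc).ennreal_ofReal
  have hm3 : Measurable fun w : ℝ =>
      (ENNReal.ofReal ((Set.Ioi (110 : ℝ)).indicator (fun w => 11 / 2 * w ^ (-2 : ℝ)) w) +
      ENNReal.ofReal ((Set.Ioc (2 : ℝ) 110).indicator (fun w => 1 / 20 * w⁻¹) w)) :=
    (hmi _ _ _).add hm4
  have hl0 : 0 ≤ Real.log (110 / 2) := Real.log_nonneg (by norm_num)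
  rw [lintegral_add_right _ hm3, lintegral_add_right _ hm4,
    head _ _ (by norm_num) (by positivity), tailr _ _ _ (by norm_num) (by positivity) (by norm_num),
    mid _ _ _ (by norm_num) (by norm_num) (by norm_num),
    ← ENNReal.ofReal_add (by positivity) (by positivity),
    ← ENNReal.ofReal_add (by positivity) (by positivity)] at h1
  refine (mul_le_mul_right h1 _).trans ?_
  rw [← ENNReal.ofReal_mul (by positivity)]
  refine ENNReal.ofReal_le_ofReal ?_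
  have h2 := log55
  rw [one_div, inv_mul_le_iff₀ hpi, show (1 - 2 : ℝ) = -1 by norm_num, Real.rpow_neg_one]
  norm_num at h2 ⊢
  linarith

/-! ### The kernel -/

/-- the kernel -/
noncomputable def kk (w : ℝ) : ℝ := (√(16 + w ^ 2))⁻¹

theorem sqrt_pos' (w : ℝ) : 0 < √(16 + w ^ 2) := Real.sqrt_pos.2 (by positivity)

theorem kk_nonneg (w : ℝ) : 0 ≤ kk w := (inv_pos.2 (sqrt_pos' w)).le

theorem kk_le (w : ℝ) : kk w ≤ 1 / 4 := by
  rw [kk, one_div]
  exact inv_anti₀ (by norm_num) (Real.le_sqrt_of_sq_le (by nlinarith [sq_nonneg w]))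

theorem kk_tail {w : ℝ} (hw : 0 < w) : kk w ≤ w⁻¹ :=
  inv_anti₀ hw (Real.le_sqrt_of_sq_le (by nlinarith))

theorem measurable_kk : Measurable kk := by
  unfold kk
  fun_prop

theorem ptk {w : ℝ} (hw : 0 < w) : kk w ^ (5 / 4 : ℝ) ≤
    (Set.Ioc (0 : ℝ) 4).indicator (fun _ => (1 / 4 : ℝ) ^ (5 / 4 : ℝ)) w +
      (Set.Ioi (4 : ℝ)).indicator (fun w => 1 * w ^ (-(5 / 4) : ℝ)) w := by
  have hk := kk_nonneg w
  by_cases h1 : w ≤ 4
  · have e1 : w ∈ Set.Ioc (0 : ℝ) 4 := ⟨hw, h1⟩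
    have e2 : w ∉ Set.Ioi (4 : ℝ) := by simpa using h1
    rw [Set.indicator_of_mem e1, Set.indicator_of_notMem e2, add_zero]
    exact Real.rpow_le_rpow hk (kk_le w) (by norm_num)
  · have e1 : w ∉ Set.Ioc (0 : ℝ) 4 := fun h => h1 h.2
    have e2 : w ∈ Set.Ioi (4 : ℝ) := not_le.1 h1
    rw [Set.indicator_of_notMem e1, Set.indicator_of_mem e2, zero_add, one_mul,
      Real.rpow_neg hw.le, ← Real.inv_rpow hw.le]
    exact Real.rpow_le_rpow hk (kk_tail hw) (by norm_num)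

theorem K_le : (∫⁻ ξ : ℝ, (ENNReal.ofReal (kk (2 * Real.pi * ξ))) ^ (5 / 4 : ℝ)) ^
    (1 / (5 / 4) : ℝ) ≤ ENNReal.ofReal (10992 / 10000) := by
  have hpi := Real.pi_pos
  have hpi2 := Real.pi_gt_d6
  have hab : ∀ ξ : ℝ, kk (2 * Real.pi * ξ) = kk |2 * Real.pi * ξ| := fun ξ => by
    rw [kk, kk, sq_abs]
  simp_rw [hab]
  have hm : Measurable fun w : ℝ => (ENNReal.ofReal (kk w)) ^ (5 / 4 : ℝ) :=
    measurable_kk.ennreal_ofReal.pow_const _
  rw [lint (fun w => (ENNReal.ofReal (kk w)) ^ (5 / 4 : ℝ)) hm]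
  have h1 : ∫⁻ w in Set.Ioi (0 : ℝ), (ENNReal.ofReal (kk w)) ^ (5 / 4 : ℝ) ≤
      ∫⁻ w in Set.Ioi (0 : ℝ), (ENNReal.ofReal
      ((Set.Ioc (0 : ℝ) 4).indicator (fun _ => (1 / 4 : ℝ) ^ (5 / 4 : ℝ)) w) +
      ENNReal.ofReal ((Set.Ioi (4 : ℝ)).indicator (fun w => 1 * w ^ (-(5 / 4) : ℝ)) w)) := by
    refine setLIntegral_mono' measurableSet_Ioi fun w hw => ?_
    rw [ENNReal.ofReal_rpow_of_nonneg (kk_nonneg w) (by norm_num)]
    exact (ENNReal.ofReal_le_ofReal (ptk (Set.mem_Ioi.1 hw))).trans ENNReal.ofReal_add_le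
  rw [lintegral_add_right _ (hmi _ _ _),
    head _ _ (by norm_num) (by positivity), tailr _ _ _ (by norm_num) (by positivity) (by norm_num),
    ← ENNReal.ofReal_add (by positivity) (by norm_num; positivity)] at h1
  have e1 : (1 / 4 : ℝ) ^ (5 / 4 : ℝ) * 4 = (1 / 4 : ℝ) ^ (1 / 4 : ℝ) := by
    rw [show (5 / 4 : ℝ) = 1 / 4 + 1 by norm_num, Real.rpow_add (by norm_num), Real.rpow_one]
    ring
  have e2 : (4 : ℝ) ^ (1 - 5 / 4 : ℝ) = (1 / 4 : ℝ) ^ (1 / 4 : ℝ) := by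
    rw [show (1 - 5 / 4 : ℝ) = -(1 / 4) by norm_num, Real.rpow_neg (by norm_num),
      ← Real.inv_rpow (by norm_num)]
    norm_num
  have e3 : (1 / 4 : ℝ) ^ (1 / 4 : ℝ) ≤ 70711 / 100000 := by
    calc (1 / 4 : ℝ) ^ (1 / 4 : ℝ) ≤ ((70711 / 100000 : ℝ) ^ 4) ^ (1 / 4 : ℝ) :=
          Real.rpow_le_rpow (by norm_num) (by norm_num) (by norm_num)
      _ = 70711 / 100000 := by
        rw [← Real.rpow_natCast, ← Real.rpow_mul (by norm_num)]
        norm_num
  have h2 : ENNReal.ofReal (1 / Real.pi) *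
      ∫⁻ w in Set.Ioi (0 : ℝ), (ENNReal.ofReal (kk w)) ^ (5 / 4 : ℝ) ≤
      ENNReal.ofReal (112541 / 100000) := by
    refine (mul_le_mul_right h1 _).trans ?_
    rw [← ENNReal.ofReal_mul (by positivity)]
    refine ENNReal.ofReal_le_ofReal ?_
    rw [e1, e2, one_div, inv_mul_le_iff₀ hpi, show (5 / 4 - 1 : ℝ) = 1 / 4 by norm_num]
    linarith
  refine (ENNReal.rpow_le_rpow h2 (by norm_num)).trans ?_
  rw [ENNReal.ofReal_rpow_of_nonneg (by positivity) (by norm_num)]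
  refine ENNReal.ofReal_le_ofReal ?_
  calc (112541 / 100000 : ℝ) ^ (1 / (5 / 4) : ℝ) = ((112541 / 100000 : ℝ) ^ 4) ^ (1 / 5 : ℝ) := by
        rw [← Real.rpow_natCast, ← Real.rpow_mul (by norm_num)]
        norm_num
    _ ≤ ((10992 / 10000 : ℝ) ^ 5) ^ (1 / 5 : ℝ) :=
        Real.rpow_le_rpow (by positivity) (by norm_num) (by norm_num)
    _ = 10992 / 10000 := by
      rw [← Real.rpow_natCast, ← Real.rpow_mul (by norm_num)]
      norm_num

end J2Aux

open MeasureTheory JT J3Aux J2Aux in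
theorem stJ2 (h : StYoung) : StJ2 := by
  unfold StJ2
  set A : ℝ → ENNReal := fun ξ => ENNReal.ofReal (aa |2 * Real.pi * ξ|) with hA
  set B : ℝ → ENNReal := fun ξ => ENNReal.ofReal (bb |2 * Real.pi * ξ|) with hB
  set K : ℝ → ENNReal := fun ξ => ENNReal.ofReal (kk (2 * Real.pi * ξ)) with hK
  have hma : Measurable fun ξ : ℝ => |2 * Real.pi * ξ| := by fun_prop
  have hmA : Measurable A := (measurable_aa.comp hma).ennreal_ofReal
  have hmB : Measurable B := (measurable_bb.comp hma).ennreal_ofReal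
  have hmK : Measurable K := (measurable_kk.comp (by fun_prop)).ennreal_ofReal
  set E : ℝ := Real.exp (501 / 500 * tq 0) with hE
  have hE0 : 1 ≤ E := Real.one_le_exp (mul_nonneg (by norm_num) tq_pos.le)
  have hE1 : E ≤ 10023 / 10000 := by
    have h1 : E ≤ Real.exp (501 / 500 * (11 / 5000)) := by
      rw [hE]
      have := tq_le
      gcongr
    have h2 := Real.exp_bound_div_one_sub_of_interval (x := 501 / 500 * (11 / 5000))
      (by norm_num) (by norm_num)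
    refine (h1.trans h2).trans ?_
    norm_num
  have hpt : ∀ ξ η : ℝ, ENNReal.ofReal
      ((113 / 100) ^ 2 * (101 / 100) * (16 / 9) * (mw ξ * mw η) *
      ((E * qb (tq 0 * ‖un 0 ξ‖) * qb (tq 0 * ‖un 0 η‖) - 1) /
        (‖un 0 ξ‖ * ‖un 0 η‖ * ‖un 0 ξ + (starRingEnd ℂ) (un 0 η)‖))) =
      ENNReal.ofReal ((113 / 100) ^ 2 * (101 / 100) * (16 / 9)) *
        (ENNReal.ofReal (E - 1) * (B ξ * B η * K (ξ - η)) +
          ENNReal.ofReal E * (A ξ * B η * K (ξ - η) + (B ξ * A η * K (ξ - η) +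
            A ξ * A η * K (ξ - η)))) := by
    intro ξ η
    simp only [norm_un, norm_un_add, mw_eq, hA, hB, hK]
    set v := |2 * Real.pi * ξ|
    set w := |2 * Real.pi * η|
    have hv := vn_pos v
    have hw := vn_pos w
    have h1 := ps_nonneg v
    have h2 := ps_nonneg w
    have h3 := bb_nonneg v
    have h4 := bb_nonneg w
    have h5 := aa_nonneg v
    have h6 := aa_nonneg w
    have h7 := kk_nonneg (2 * Real.pi * (ξ - η))
    have h8 : 0 ≤ E - 1 := by linarith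
    have h9 : 0 ≤ E := by linarith
    have hs := sqrt_pos' (2 * Real.pi * (ξ - η))
    have m1 : 0 ≤ bb v * bb w := by positivity
    have m2 : 0 ≤ aa v * bb w := by positivity
    have m3 : 0 ≤ bb v * aa w := by positivity
    have m4 : 0 ≤ aa v * aa w := by positivity
    have n1 := mul_nonneg m1 h7
    have n2 := mul_nonneg m2 h7
    have n3 := mul_nonneg m3 h7
    have n4 := mul_nonneg m4 h7
    rw [← ENNReal.ofReal_mul h3, ← ENNReal.ofReal_mul h5, ← ENNReal.ofReal_mul h3,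
      ← ENNReal.ofReal_mul h5, ← ENNReal.ofReal_mul m1, ← ENNReal.ofReal_mul m2,
      ← ENNReal.ofReal_mul m3, ← ENNReal.ofReal_mul m4, ← ENNReal.ofReal_mul h8,
      ← ENNReal.ofReal_add n3 n4, ← ENNReal.ofReal_add n2 (add_nonneg n3 n4),
      ← ENNReal.ofReal_mul h9,
      ← ENNReal.ofReal_add (mul_nonneg h8 n1) (mul_nonneg h9 (add_nonneg n2 (add_nonneg n3 n4))),
      ← ENNReal.ofReal_mul (by norm_num)]
    congr 1
    have e1 : qb (tq 0 * vn v) = ps v + 1 := by unfold ps; ring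
    have e2 : qb (tq 0 * vn w) = ps w + 1 := by unfold ps; ring
    rw [e1, e2, aa, aa, bb, bb, kk]
    field_simp
    ring
  simp_rw [hpt]
  have hmK2 : ∀ ξ : ℝ, Measurable fun η => K (ξ - η) := fun ξ => hmK.comp (by fun_prop)
  have hmm : ∀ f g : ℝ → ENNReal, Measurable f → Measurable g →
      Measurable (Function.uncurry fun ξ η => f ξ * g η * K (ξ - η)) := fun f g hf hg =>
    ((hf.comp measurable_fst).mul (hg.comp measurable_snd)).mul
      (hmK.comp (measurable_fst.sub measurable_snd))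
  have hm1 : ∀ f g : ℝ → ENNReal, Measurable f → Measurable g → ∀ ξ,
      Measurable fun η => f ξ * g η * K (ξ - η) := fun f g hf hg ξ =>
    (hmm f g hf hg).comp (measurable_const.prodMk measurable_id)
  have hm2 : ∀ f g : ℝ → ENNReal, Measurable f → Measurable g →
      Measurable fun ξ => ∫⁻ η, f ξ * g η * K (ξ - η) := fun f g hf hg =>
    (hmm f g hf hg).lintegral_prod_right'
  have hin : ∀ ξ, ∫⁻ η, ENNReal.ofReal ((113 / 100) ^ 2 * (101 / 100) * (16 / 9)) *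
        (ENNReal.ofReal (E - 1) * (B ξ * B η * K (ξ - η)) +
          ENNReal.ofReal E * (A ξ * B η * K (ξ - η) + (B ξ * A η * K (ξ - η) +
            A ξ * A η * K (ξ - η)))) =
      ENNReal.ofReal ((113 / 100) ^ 2 * (101 / 100) * (16 / 9)) *
        (ENNReal.ofReal (E - 1) * (∫⁻ η, B ξ * B η * K (ξ - η)) +
          ENNReal.ofReal E * ((∫⁻ η, A ξ * B η * K (ξ - η)) + ((∫⁻ η, B ξ * A η * K (ξ - η)) +
            ∫⁻ η, A ξ * A η * K (ξ - η)))) := by
    intro ξ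
    have k1 := hm1 _ _ hmB hmB ξ
    have k2 := hm1 _ _ hmA hmB ξ
    have k3 := hm1 _ _ hmB hmA ξ
    have k4 := hm1 _ _ hmA hmA ξ
    have k5 : Measurable fun η => B ξ * A η * K (ξ - η) + A ξ * A η * K (ξ - η) := k3.add k4
    have k6 : Measurable fun η => A ξ * B η * K (ξ - η) + (B ξ * A η * K (ξ - η) +
      A ξ * A η * K (ξ - η)) := k2.add k5
    have k7 : Measurable fun η => ENNReal.ofReal (E - 1) * (B ξ * B η * K (ξ - η)) +
          ENNReal.ofReal E * (A ξ * B η * K (ξ - η) + (B ξ * A η * K (ξ - η) +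
            A ξ * A η * K (ξ - η))) := (k1.const_mul _).add (k6.const_mul _)
    rw [lintegral_const_mul _ k7, lintegral_add_right _ (k6.const_mul _),
      lintegral_const_mul _ k1, lintegral_const_mul _ k6, lintegral_add_right _ k5,
      lintegral_add_right _ k4]
  simp_rw [hin]
  have k1 := hm2 _ _ hmB hmB
  have k2 := hm2 _ _ hmA hmB
  have k3 := hm2 _ _ hmB hmA
  have k4 := hm2 _ _ hmA hmA
  have k5 : Measurable fun ξ => (∫⁻ η, B ξ * A η * K (ξ - η)) + ∫⁻ η, A ξ * A η * K (ξ - η) :=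
    k3.add k4
  have k6 : Measurable fun ξ => (∫⁻ η, A ξ * B η * K (ξ - η)) + ((∫⁻ η, B ξ * A η * K (ξ - η)) +
      ∫⁻ η, A ξ * A η * K (ξ - η)) := k2.add k5
  have k7 : Measurable fun ξ => ENNReal.ofReal (E - 1) * (∫⁻ η, B ξ * B η * K (ξ - η)) +
          ENNReal.ofReal E * ((∫⁻ η, A ξ * B η * K (ξ - η)) + ((∫⁻ η, B ξ * A η * K (ξ - η)) +
            ∫⁻ η, A ξ * A η * K (ξ - η))) := (k1.const_mul _).add (k6.const_mul _)
  rw [lintegral_const_mul _ k7, lintegral_add_right _ (k6.const_mul _),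
      lintegral_const_mul _ k1, lintegral_const_mul _ k6, lintegral_add_right _ k5,
      lintegral_add_right _ k4]
  have hIB : ∫⁻ ξ, B ξ ≤ ENNReal.ofReal (957 / 10000) := B_le
  have hIA5 : (∫⁻ ξ, A ξ ^ (5 : ℝ)) ^ (1 / 5 : ℝ) ≤ ENNReal.ofReal (6127 / 10000000) := A5_le
  have hIA53 : (∫⁻ ξ, A ξ ^ (5 / 3 : ℝ)) ^ (1 / (5 / 3) : ℝ) ≤
      ENNReal.ofReal (10840 / 1000000) := A53_le
  have hIK : (∫⁻ ξ, K ξ ^ (5 / 4 : ℝ)) ^ (1 / (5 / 4) : ℝ) ≤ ENNReal.ofReal (10992 / 10000) := K_le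
  have hIB1 : (∫⁻ ξ, B ξ ^ (1 : ℝ)) ^ (1 / 1 : ℝ) ≤ ENNReal.ofReal (957 / 10000) := by
    simpa using hIB
  have s1 : ∫⁻ ξ, ∫⁻ η, B ξ * B η * K (ξ - η) ≤ ENNReal.ofReal (957 / 10000 * (957 / 10000) / 4) := by
    calc ∫⁻ ξ, ∫⁻ η, B ξ * B η * K (ξ - η) ≤ ∫⁻ ξ, ∫⁻ η, B ξ * (B η * ENNReal.ofReal (1 / 4)) := by
          refine lintegral_mono fun ξ => lintegral_mono fun η => ?_
          rw [← mul_assoc]
          have : K (ξ - η) ≤ ENNReal.ofReal (1 / 4) := ENNReal.ofReal_le_ofReal (kk_le _)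
          gcongr
      _ = (∫⁻ ξ, B ξ) * ((∫⁻ η, B η) * ENNReal.ofReal (1 / 4)) := by
          simp_rw [lintegral_const_mul _ (hmB.mul_const _)]
          rw [lintegral_mul_const _ hmB, lintegral_mul_const _ hmB]
      _ ≤ ENNReal.ofReal (957 / 10000) * (ENNReal.ofReal (957 / 10000) *
          ENNReal.ofReal (1 / 4)) := by gcongr
      _ = _ := by
          rw [← ENNReal.ofReal_mul (by norm_num), ← ENNReal.ofReal_mul (by norm_num)]
          congr 1
          norm_num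
  have s2 : ∫⁻ ξ, ∫⁻ η, A ξ * B η * K (ξ - η) ≤
      ENNReal.ofReal (6127 / 10000000 * (957 / 10000) * (10992 / 10000)) := by
    refine (h (5 / 4) 5 1 (by norm_num) (by norm_num) (by norm_num) (by norm_num)
      A B K hmA hmB hmK).trans ?_
    rw [ENNReal.ofReal_mul (by norm_num), ENNReal.ofReal_mul (by norm_num)]
    gcongr
  have s3 : ∫⁻ ξ, ∫⁻ η, B ξ * A η * K (ξ - η) ≤
      ENNReal.ofReal (957 / 10000 * (6127 / 10000000) * (10992 / 10000)) := by
    refine (h (5 / 4) 1 5 (by norm_num) (by norm_num) (by norm_num) (by norm_num)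
      B A K hmB hmA hmK).trans ?_
    rw [ENNReal.ofReal_mul (by norm_num), ENNReal.ofReal_mul (by norm_num)]
    gcongr
  have s4 : ∫⁻ ξ, ∫⁻ η, A ξ * A η * K (ξ - η) ≤
      ENNReal.ofReal (10840 / 1000000 * (10840 / 1000000) * (10992 / 10000)) := by
    refine (h (5 / 4) (5 / 3) (5 / 3) (by norm_num) (by norm_num) (by norm_num) (by norm_num)
      A A K hmA hmA hmK).trans ?_
    rw [ENNReal.ofReal_mul (by norm_num), ENNReal.ofReal_mul (by norm_num)]
    gcongr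
  have hEa : ENNReal.ofReal (E - 1) ≤ ENNReal.ofReal (23 / 10000) :=
    ENNReal.ofReal_le_ofReal (by linarith)
  have hEb : ENNReal.ofReal E ≤ ENNReal.ofReal (10023 / 10000) := ENNReal.ofReal_le_ofReal hE1
  refine (mul_le_mul_right (add_le_add (mul_le_mul' hEa s1)
    (mul_le_mul' hEb (add_le_add s2 (add_le_add s3 s4)))) _).trans ?_
  rw [← ENNReal.ofReal_add (by norm_num) (by norm_num),
    ← ENNReal.ofReal_add (by norm_num) (by norm_num), ← ENNReal.ofReal_mul (by norm_num),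
    ← ENNReal.ofReal_mul (by norm_num), ← ENNReal.ofReal_add (by norm_num) (by norm_num),
    ← ENNReal.ofReal_mul (by norm_num)]
  refine ENNReal.ofReal_le_ofReal ?_
  unfold cW
  norm_num

end K7
end Pool.Agent.Lib.MP_973905_nt
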