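import Pool.Agent.Lib.MP_973905_nt.K7.JTool

/-! (R17c) The numeric double integral of the pairing. -/

namespace Pool.Agent.Lib.MP_973905_nt
namespace K7
namespace J3Aux

open MeasureTheory ProbabilityTheory Complex Filter Topology K1 K4 K5 JT
open scoped ENNReal

/-- the majorant of `exp om - 1` as a function of `w = 2 π |ξ|` -/
noncomputable def ps (w : ℝ) : ℝ := qb (tq 0 * vn w) - 1

theorem ps_nonneg (w : ℝ) : 0 ≤ ps w := by
  have := one_le_qb (mul_nonneg tq_pos.le (vn_pos w).le)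
  unfold ps
  linarith

theorem measurable_ps : Measurable ps :=
  (measurable_qb.comp (continuous_vn.measurable.const_mul _)).sub_const 1

theorem ps_small {w : ℝ} (h0 : 0 ≤ w) (h : w ≤ 60) : ps w ≤ 108 / 100 * (11 / 5000 * vn w) := by
  have h1 : vn w ≤ 601 / 10 := vn_le h0 h (by norm_num) (by norm_num)
  have h2 := tq_le
  have h3 := tq_pos
  have h4 := vn_pos w
  have h5 : tq 0 * vn w ≤ 11 / 5000 * vn w := by gcongr
  have h6 := qb_le_small (y := tq 0 * vn w) (by positivity) (by linarith)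
  unfold ps
  linarith

theorem ps_mid {w : ℝ} (h0 : 0 ≤ w) (h : w ≤ 908) : ps w ≤ 321 / 100 * (11 / 5000 * vn w) := by
  have h1 : vn w ≤ 90801 / 100 := vn_le h0 h (by norm_num) (by norm_num)
  have h2 := tq_le
  have h3 := tq_pos
  have h4 := vn_pos w
  have h5 : tq 0 * vn w ≤ 11 / 5000 * vn w := by gcongr
  have h6 := qb_le_two (y := tq 0 * vn w) (by positivity) (by linarith)
  unfold ps
  linarith

theorem ps_large (w : ℝ) : ps w ≤ 19 * (11 / 5000 * vn w) := by
  have h2 := tq_le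
  have h3 := tq_pos
  have h4 := vn_pos w
  have h5 : tq 0 * vn w ≤ 11 / 5000 * vn w := by gcongr
  have h6 := qb_le (y := tq 0 * vn w) (by positivity)
  unfold ps
  linarith

theorem pt {w : ℝ} (hw : 0 < w) : ps w * (vn w ^ 3)⁻¹ ≤
    108 / 100 * (11 / 5000) * (4 + w ^ 2)⁻¹ +
      ((Set.Ioi (60 : ℝ)).indicator (fun w => 213 / 100 * (11 / 5000) * w ^ (-2 : ℝ)) w +
      (Set.Ioi (908 : ℝ)).indicator (fun w => 1579 / 100 * (11 / 5000) * w ^ (-2 : ℝ)) w) := by
  have h4 := vn_pos w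
  have hr : w ^ (-2 : ℝ) = (w ^ 2)⁻¹ := by
    rw [Real.rpow_neg hw.le]
    norm_num
  have hle : (4 + w ^ 2)⁻¹ ≤ (w ^ 2)⁻¹ := inv_anti₀ (by positivity) (by linarith)
  have hkey : ∀ c : ℝ, ps w ≤ c * (11 / 5000 * vn w) →
      ps w * (vn w ^ 3)⁻¹ ≤ c * (11 / 5000) * (4 + w ^ 2)⁻¹ := by
    intro c hc
    calc ps w * (vn w ^ 3)⁻¹ ≤ c * (11 / 5000 * vn w) * (vn w ^ 3)⁻¹ := by gcongr
      _ = c * (11 / 5000) * (vn w ^ 2)⁻¹ := by field_simp
      _ = c * (11 / 5000) * (4 + w ^ 2)⁻¹ := by rw [vn_sq]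
  have hp : 0 ≤ (w ^ 2)⁻¹ := by positivity
  by_cases h1 : w ≤ 60
  · have := hkey _ (ps_small hw.le h1)
    have e1 : w ∉ Set.Ioi (60 : ℝ) := by simpa using h1
    have e2 : w ∉ Set.Ioi (908 : ℝ) := by simp; linarith
    rw [Set.indicator_of_notMem e1, Set.indicator_of_notMem e2]
    linarith
  · rw [not_le] at h1
    have e1 : w ∈ Set.Ioi (60 : ℝ) := h1
    rw [Set.indicator_of_mem e1, hr]
    by_cases h2 : w ≤ 908
    · have := hkey _ (ps_mid hw.le h2)
      have e2 : w ∉ Set.Ioi (908 : ℝ) := by simpa using h2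
      rw [Set.indicator_of_notMem e2]
      linarith
    · have := hkey _ (ps_large w)
      have e2 : w ∈ Set.Ioi (908 : ℝ) := not_le.1 h2
      rw [Set.indicator_of_mem e2, hr]
      linarith

theorem tail (X c : ℝ) (hX : 0 < X) (hc : 0 ≤ c) :
    ∫⁻ w in Set.Ioi (0 : ℝ), ENNReal.ofReal ((Set.Ioi X).indicator (fun w => c * w ^ (-2 : ℝ)) w) =
      ENNReal.ofReal (c / X) := by
  have h1 : ∀ w : ℝ, ENNReal.ofReal ((Set.Ioi X).indicator (fun w => c * w ^ (-2 : ℝ)) w) =
      (Set.Ioi X).indicator (fun w => ENNReal.ofReal (c * w ^ (-2 : ℝ))) w := by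
    intro w
    by_cases h : w ∈ Set.Ioi X
    · rw [Set.indicator_of_mem h, Set.indicator_of_mem h]
    · rw [Set.indicator_of_notMem h, Set.indicator_of_notMem h, ENNReal.ofReal_zero]
  simp_rw [h1]
  rw [lintegral_indicator measurableSet_Ioi, Measure.restrict_restrict measurableSet_Ioi,
    Set.inter_eq_left.2 (Set.Ioi_subset_Ioi hX.le)]
  simp_rw [ENNReal.ofReal_mul hc]
  rw [lintegral_const_mul' _ _ ENNReal.ofReal_ne_top, lint_rpow hX (by norm_num),
    ← ENNReal.ofReal_mul hc]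
  congr 1
  rw [show (1 : ℝ) - 2 = -1 by norm_num, Real.rpow_neg_one]
  norm_num
  rfl

theorem P_le : ∫⁻ ξ : ℝ, ENNReal.ofReal (ps |2 * Real.pi * ξ| * (vn |2 * Real.pi * ξ| ^ 3)⁻¹) ≤
    ENNReal.ofReal (631049 / 1000000000) := by
  have hpi := Real.pi_pos
  have hpi2 := Real.pi_gt_d6
  have hm : Measurable fun w : ℝ => ENNReal.ofReal (ps w * (vn w ^ 3)⁻¹) :=
    (measurable_ps.mul (continuous_vn.measurable.pow_const 3).inv).ennreal_ofReal
  rw [lint (fun w => ENNReal.ofReal (ps w * (vn w ^ 3)⁻¹)) hm]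
  have h1 : ∫⁻ w in Set.Ioi (0 : ℝ), ENNReal.ofReal (ps w * (vn w ^ 3)⁻¹) ≤
      ∫⁻ w in Set.Ioi (0 : ℝ), (ENNReal.ofReal (108 / 100 * (11 / 5000)) *
        ENNReal.ofReal ((4 + w ^ 2)⁻¹) + (ENNReal.ofReal
      ((Set.Ioi (60 : ℝ)).indicator (fun w => 213 / 100 * (11 / 5000) * w ^ (-2 : ℝ)) w) +
      ENNReal.ofReal
      ((Set.Ioi (908 : ℝ)).indicator (fun w => 1579 / 100 * (11 / 5000) * w ^ (-2 : ℝ)) w))) := by
    refine setLIntegral_mono' measurableSet_Ioi fun w hw => ?_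
    rw [← ENNReal.ofReal_mul (by norm_num)]
    refine (ENNReal.ofReal_le_ofReal (pt (Set.mem_Ioi.1 hw))).trans ?_
    exact ENNReal.ofReal_add_le.trans (add_le_add le_rfl ENNReal.ofReal_add_le)
  have hmi : ∀ X c : ℝ, Measurable fun w : ℝ =>
      ENNReal.ofReal ((Set.Ioi X).indicator (fun w => c * w ^ (-2 : ℝ)) w) := fun X c =>
    (((measurable_id.pow_const _).const_mul c).indicator measurableSet_Ioi).ennreal_ofReal
  have hm3 : Measurable fun w : ℝ =>
      (ENNReal.ofReal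
      ((Set.Ioi (60 : ℝ)).indicator (fun w => 213 / 100 * (11 / 5000) * w ^ (-2 : ℝ)) w) +
      ENNReal.ofReal
      ((Set.Ioi (908 : ℝ)).indicator (fun w => 1579 / 100 * (11 / 5000) * w ^ (-2 : ℝ)) w)) :=
    (hmi _ _).add (hmi _ _)
  rw [lintegral_add_right _ hm3, lintegral_add_right _ (hmi _ _),
    lintegral_const_mul' _ _ ENNReal.ofReal_ne_top, lint_vn_sq,
    tail _ _ (by norm_num) (by norm_num), tail _ _ (by norm_num) (by norm_num),
    ← ENNReal.ofReal_mul (by norm_num), ← ENNReal.ofReal_add (by norm_num) (by norm_num),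
    ← ENNReal.ofReal_add (by positivity) (by norm_num)] at h1
  refine (mul_le_mul_right h1 _).trans ?_
  rw [← ENNReal.ofReal_mul (by positivity)]
  refine ENNReal.ofReal_le_ofReal ?_
  rw [one_div, inv_mul_le_iff₀ hpi]
  linarith

theorem G_eq : ∫⁻ ξ : ℝ, ENNReal.ofReal ((vn |2 * Real.pi * ξ| ^ 3)⁻¹) ≤
    ENNReal.ofReal (79578 / 1000000) := by
  have hpi := Real.pi_pos
  have hpi2 := Real.pi_gt_d6
  rw [lint (fun w => ENNReal.ofReal ((vn w ^ 3)⁻¹))
    (continuous_vn.measurable.pow_const 3).inv.ennreal_ofReal, lint_vn_cube,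
    ← ENNReal.ofReal_mul (by positivity)]
  refine ENNReal.ofReal_le_ofReal ?_
  rw [one_div, inv_mul_le_iff₀ hpi]
  linarith

end J3Aux

open MeasureTheory JT J3Aux in
theorem stJ3 : StJ3 := by
  unfold StJ3
  set g : ℝ → ENNReal := fun ξ => ENNReal.ofReal ((vn |2 * Real.pi * ξ| ^ 3)⁻¹) with hg
  set p : ℝ → ENNReal := fun ξ =>
    ENNReal.ofReal (ps |2 * Real.pi * ξ| * (vn |2 * Real.pi * ξ| ^ 3)⁻¹) with hp
  have hma : Measurable fun ξ : ℝ => |2 * Real.pi * ξ| := by fun_prop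
  have hmg : Measurable g :=
    ((continuous_vn.measurable.comp hma).pow_const 3).inv.ennreal_ofReal
  have hmp : Measurable p :=
    ((measurable_ps.comp hma).mul
      ((continuous_vn.measurable.comp hma).pow_const 3).inv).ennreal_ofReal
  set C : ENNReal := ENNReal.ofReal ((106 / 100) ^ 4 * (11 / 4) ^ 2) with hC
  have hpt : ∀ ξ η : ℝ, ENNReal.ofReal
      ((106 / 100) ^ 4 * (11 / 4) ^ 2 * ((qb (tq 0 * ‖un 0 ξ‖) * qb (tq 0 * ‖un 0 η‖) - 1) /
        (‖un 0 ξ‖ ^ 3 * ‖un 0 η‖ ^ 3))) = C * (p ξ * g η + g ξ * p η + p ξ * p η) := by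
    intro ξ η
    simp only [norm_un, hg, hp, hC]
    set v := |2 * Real.pi * ξ|
    set w := |2 * Real.pi * η|
    have hv := vn_pos v
    have hw := vn_pos w
    have h1 := ps_nonneg v
    have h2 := ps_nonneg w
    rw [← ENNReal.ofReal_mul (by positivity), ← ENNReal.ofReal_mul (by positivity),
      ← ENNReal.ofReal_mul (by positivity), ← ENNReal.ofReal_add (by positivity) (by positivity),
      ← ENNReal.ofReal_add (by positivity) (by positivity), ← ENNReal.ofReal_mul (by positivity)]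
    congr 1
    have e1 : qb (tq 0 * vn v) = ps v + 1 := by unfold ps; ring
    have e2 : qb (tq 0 * vn w) = ps w + 1 := by unfold ps; ring
    rw [e1, e2]
    field_simp
    ring
  simp_rw [hpt]
  have hin : ∀ ξ, ∫⁻ η, C * (p ξ * g η + g ξ * p η + p ξ * p η) =
      C * (p ξ * (∫⁻ η, g η) + g ξ * (∫⁻ η, p η) + p ξ * ∫⁻ η, p η) := by
    intro ξ
    have hm1 : Measurable fun η => p ξ * g η + g ξ * p η + p ξ * p η :=
      ((hmg.const_mul _).add (hmp.const_mul _)).add (hmp.const_mul _)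
    rw [lintegral_const_mul _ hm1,
      lintegral_add_right _ (hmp.const_mul _), lintegral_add_right _ (hmp.const_mul _),
      lintegral_const_mul _ hmg, lintegral_const_mul _ hmp, lintegral_const_mul _ hmp]
  simp_rw [hin]
  set G := ∫⁻ η, g η with hG
  set P := ∫⁻ η, p η with hP
  have hm1 : Measurable fun ξ => p ξ * G + g ξ * P + p ξ * P :=
    ((hmp.mul_const _).add (hmg.mul_const _)).add (hmp.mul_const _)
  rw [lintegral_const_mul _ hm1,
    lintegral_add_right _ (hmp.mul_const _), lintegral_add_right _ (hmg.mul_const _),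
    lintegral_mul_const _ hmp, lintegral_mul_const _ hmg, lintegral_mul_const _ hmp, ← hG, ← hP]
  have h1 : G ≤ ENNReal.ofReal (79578 / 1000000) := G_eq
  have h2 : P ≤ ENNReal.ofReal (631049 / 1000000000) := P_le
  calc C * (P * G + G * P + P * P) ≤ C * (ENNReal.ofReal (631049 / 1000000000) *
        ENNReal.ofReal (79578 / 1000000) + ENNReal.ofReal (79578 / 1000000) *
        ENNReal.ofReal (631049 / 1000000000) + ENNReal.ofReal (631049 / 1000000000) *
        ENNReal.ofReal (631049 / 1000000000)) := by gcongr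
    _ ≤ ENNReal.ofReal c2 := by
      rw [hC, ← ENNReal.ofReal_mul (by positivity), ← ENNReal.ofReal_mul (by positivity),
        ← ENNReal.ofReal_mul (by positivity), ← ENNReal.ofReal_add (by positivity) (by positivity),
        ← ENNReal.ofReal_add (by positivity) (by positivity),
        ← ENNReal.ofReal_mul (by positivity)]
      refine ENNReal.ofReal_le_ofReal ?_
      unfold c2
      norm_num

end K7
end Pool.Agent.Lib.MP_973905_nt
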