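import Pool.Agent.Lib.MP_973905_nt.K7.JPB

/-! (G8): asymptotic formula for the second moment with the twist `GB N c`. -/

namespace Pool.Agent.Lib.MP_973905_nt
namespace K7

open MeasureTheory ProbabilityTheory Complex Filter Topology K1 K4 K5

namespace JW

open F4 F4.Three F4.Twist ThreeLines JPB

lemma qg_zero {φ : ℝ → ℝ} (hφ : CutK φ) {T : ℝ} (hT : 1 < T) (ν : ℝ) {m : ℕ}
    (h : T ^ (501 / 1000 : ℝ) ≤ m) : qg φ T ν m = 0 := by
  have hL : 0 < Real.log T := Real.log_pos hT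
  have h1 : 501 / 1000 ≤ Real.log m / Real.log T := by
    rw [le_div_iff₀ hL, ← Real.log_rpow (by linarith)]
    exact Real.log_le_log (Real.rpow_pos_of_pos (by linarith) _) h
  rw [qg, hφ.zeroK _ h1]
  simp

lemma sum_sg {φ : ℝ → ℝ} (hφ : CutK φ) {T : ℝ} (hT : 1 < T) (ν : ℝ) {d : ℕ} (hd : 1 ≤ d)
    (hdT : (d : ℝ) ≤ T ^ (1 / 60 : ℝ)) (Φ : ℕ → ℂ) :
    ∑ n ∈ Finset.Icc 1 (Np T), sg φ T ν d n * Φ n =
      ∑ m ∈ Finset.Icc 1 ⌊T⌋₊, qg φ T ν m * Φ (m * d) := by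
  have hT0 : 0 < T := by linarith
  have hNT : Np T ≤ ⌊T⌋₊ := by
    rw [Np]
    apply Nat.floor_le_floor
    calc T ^ (52 / 100 : ℝ) ≤ T ^ (1 : ℝ) :=
          Real.rpow_le_rpow_of_exponent_le hT.le (by norm_num)
      _ = T := Real.rpow_one T
  have e1 : ∑ n ∈ Finset.Icc 1 (Np T), sg φ T ν d n * Φ n =
      ∑ n ∈ (Finset.Icc 1 (Np T)).filter (fun n => d ∣ n), qg φ T ν (n / d) * Φ n := by
    rw [Finset.sum_filter]
    refine Finset.sum_congr rfl fun n hn => ?_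
    unfold sg
    split_ifs <;> simp
  have e2 : ∑ m ∈ Finset.Icc 1 ⌊T⌋₊, qg φ T ν m * Φ (m * d) =
      ∑ m ∈ (Finset.Icc 1 ⌊T⌋₊).filter (fun m => m * d ≤ Np T), qg φ T ν m * Φ (m * d) := by
    symm
    apply Finset.sum_subset (Finset.filter_subset _ _)
    intro m hm hm'
    rw [Finset.mem_filter, not_and, not_le] at hm'
    have h1 := hm' hm
    have h2 : T ^ (52 / 100 : ℝ) < ((m * d : ℕ) : ℝ) := Nat.lt_of_floor_lt h1
    push_cast at h2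
    have h3 : T ^ (501 / 1000 : ℝ) ≤ m := by
      by_contra h
      rw [not_le] at h
      have h4 : (m : ℝ) * d ≤ T ^ (501 / 1000 : ℝ) * T ^ (1 / 60 : ℝ) := by gcongr
      rw [← Real.rpow_add hT0] at h4
      have h5 : T ^ (501 / 1000 + 1 / 60 : ℝ) ≤ T ^ (52 / 100 : ℝ) :=
        Real.rpow_le_rpow_of_exponent_le hT.le (by norm_num)
      linarith
    rw [qg_zero hφ hT ν h3, zero_mul]
  rw [e1, e2]
  refine Finset.sum_nbij' (fun n => n / d) (fun m => m * d) ?_ ?_ ?_ ?_ ?_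
  · intro n hn
    rw [Finset.mem_filter, Finset.mem_Icc] at hn
    obtain ⟨⟨h1, h2⟩, h3⟩ := hn
    rw [Finset.mem_filter, Finset.mem_Icc]
    refine ⟨⟨Nat.div_pos (Nat.le_of_dvd (by omega) h3) (by omega),
      (Nat.div_le_self n d).trans (h2.trans hNT)⟩, ?_⟩
    rw [Nat.div_mul_cancel h3]
    exact h2
  · intro m hm
    rw [Finset.mem_filter, Finset.mem_Icc] at hm
    rw [Finset.mem_filter, Finset.mem_Icc]
    exact ⟨⟨Nat.mul_pos (by omega) (by omega), hm.2⟩, dvd_mul_left d m⟩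
  · intro n hn
    rw [Finset.mem_filter] at hn
    exact Nat.div_mul_cancel hn.2
  · intro m hm
    exact Nat.mul_div_cancel m (by omega)
  · intro n hn
    rw [Finset.mem_filter] at hn
    rw [Nat.div_mul_cancel hn.2]

lemma sum_inv_le (N : ℕ) {L : ℝ} (hL : Real.log N ≤ L) :
    ∑ d ∈ Finset.Icc 1 N, (d : ℝ)⁻¹ ≤ 1 + L := by
  have h := harmonic_le_one_add_log N
  rw [harmonic_eq_sum_Icc] at h
  push_cast at h
  linarith

lemma GB_eq (N : ℕ) (c : ℕ → ℕ → ℂ) (f : ℕ → ℂ) : GB N c f =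
    ∑ p ∈ Finset.Icc 1 N ×ˢ Finset.Icc 1 N, c p.1 p.2 * (f p.1 * (starRingEnd ℂ) (f p.2)) := by
  rw [GB, Finset.sum_product]

lemma RW_eq (φ : ℝ → ℝ) (T ν : ℝ) (N : ℕ) (c : ℕ → ℕ → ℂ) (a : ℂ) : RW φ T ν N c a =
    ∑ p ∈ Finset.Icc 1 N ×ˢ Finset.Icc 1 N, c p.1 p.2 * Rde φ T ν p.1 p.2 a := by
  rw [RW, Finset.sum_product]

lemma MW_RW (X : ℝ) (s : ℂ) (φ : ℝ → ℝ) (T ν : ℝ) (N : ℕ) (c : ℕ → ℕ → ℂ) (a : ℂ) :
    MW X s (RW φ T ν N c) a =
    ∑ p ∈ Finset.Icc 1 N ×ˢ Finset.Icc 1 N, c p.1 p.2 • MW X s (Rde φ T ν p.1 p.2) a := by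
  simp only [MW, RW_eq, Finset.mul_sum, ← Finset.sum_add_distrib, smul_eq_mul]
  refine Finset.sum_congr rfl fun p hp => ?_
  ring

end JW

open F4 F4.Three F4.Twist ThreeLines JPB JW in
theorem stJW (h : StJP) : StJW := by
  intro φ hφ
  obtain ⟨C, hC, T₁, hT₁, hJ⟩ := h φ hφ
  obtain ⟨T₂, hT₂⟩ := eventually_atTop.mp
    ((ev_log 2 (e := 3 / 1000) (by norm_num)).and
      (Real.tendsto_log_atTop.eventually_ge_atTop 1))
  refine ⟨C, hC, max (max T₁ T₂) 3, le_max_right _ _,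
    fun T hT X hX1 hX2 ν N c hN hc1 hc2 => ?_⟩
  have hTT1 : T₁ ≤ T := (le_max_left _ _).trans ((le_max_left _ _).trans hT)
  have hTT2 : T₂ ≤ T := (le_max_right _ _).trans ((le_max_left _ _).trans hT)
  have hT3 : 3 ≤ T := (le_max_right _ _).trans hT
  obtain ⟨f1, f2⟩ := hT₂ T hTT2
  have hT1 : 1 ≤ T := by linarith
  have hT0 : 0 < T := by linarith
  have hXone : 1 ≤ X := (Real.one_le_rpow hT1 (by norm_num)).trans hX1
  have hX0 : 0 < X := by linarith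
  have hν : 0 ≤ |ν| := abs_nonneg _
  set S : Finset (ℕ × ℕ) := Finset.Icc 1 N ×ˢ Finset.Icc 1 N with hS
  have hSm : ∀ p ∈ S, 1 ≤ p.1 ∧ p.1 ≤ N ∧ 1 ≤ p.2 ∧ p.2 ≤ N := by
    intro p hp
    rw [hS, Finset.mem_product, Finset.mem_Icc, Finset.mem_Icc] at hp
    exact ⟨hp.1.1, hp.1.2, hp.2.1, hp.2.2⟩
  have hle : ∀ n : ℕ, n ≤ N → (n : ℝ) ≤ T ^ (1 / 60 : ℝ) := fun n hn =>
    le_trans (by exact_mod_cast hn) hN
  -- the integrand
  have hG : (fun t : ℝ => ((‖riemannZeta (1 / 2 + t * I)‖ ^ 2 * ‖Qp φ T ν t‖ ^ 2 : ℝ) : ℂ) *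
      GB N c (fs (1 / 2 + t * I)) * ((Wr X t : ℝ) : ℂ)) =
      fun t => ∑ p ∈ S, c p.1 p.2 * Fm X 11 φ T ν p.1 p.2 t := by
    funext t
    rw [GB_eq, Finset.mul_sum, Finset.sum_mul]
    refine Finset.sum_congr rfl fun p hp => ?_
    obtain ⟨p1, p2, p3, p4⟩ := hSm p hp
    unfold Fm Wr
    rw [HP_sg p1 (sum_sg hφ (by linarith) ν p1 (hle _ p2)) t,
      HP_sg p3 (sum_sg hφ (by linarith) ν p3 (hle _ p4)) t, map_mul]
    have e1 : ((‖riemannZeta (1 / 2 + t * I)‖ ^ 2 * ‖Qp φ T ν t‖ ^ 2 : ℝ) : ℂ) =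
        ((‖riemannZeta (1 / 2 + t * I)‖ ^ 2 : ℝ) : ℂ) *
          (Qp φ T ν t * (starRingEnd ℂ) (Qp φ T ν t)) := by
      rw [mul_conj, Complex.normSq_eq_norm_sq]
      push_cast
      ring
    rw [e1]
    ring
  have hint : ∀ p ∈ S, IntegrableOn (fun t => c p.1 p.2 * Fm X 11 φ T ν p.1 p.2 t) (Set.Ioi 0) :=
    fun p _ => (Fm_int hXone 11 φ T ν p.1 p.2).const_mul _
  rw [hG]
  refine ⟨integrable_finsetSum _ hint, ?_⟩
  rw [integral_finsetSum _ hint]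
  have hr0 : 0 < 1 / (2 * Real.log T) := by positivity
  have hr1 : 1 / (2 * Real.log T) ≤ 1 / 2 := one_div_le_one_div_of_le (by norm_num) (by linarith)
  have hci : ∀ p ∈ S, CircleIntegrable (fun a => c p.1 p.2 • MW X 12 (Rde φ T ν p.1 p.2) a) 0
      (1 / (2 * Real.log T)) := by
    intro p hp
    obtain ⟨p1, p2, p3, p4⟩ := hSm p hp
    apply ContinuousOn.circleIntegrable'
    have h1 := mw_cont hX0 (c := 12) (by norm_num) (Rde_diff φ T ν p1 p3) hr0 hr1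
    exact h1.const_smul (c p.1 p.2)
  have havg : Real.circleAverage (MW X 12 (RW φ T ν N c)) 0 (1 / (2 * Real.log T)) =
      ∑ p ∈ S, c p.1 p.2 * Real.circleAverage (MW X 12 (Rde φ T ν p.1 p.2)) 0
        (1 / (2 * Real.log T)) := by
    have e1 : MW X 12 (RW φ T ν N c) =
        fun a => ∑ p ∈ S, c p.1 p.2 • MW X 12 (Rde φ T ν p.1 p.2) a := by
      funext a
      exact MW_RW X 12 φ T ν N c a
    rw [e1, Real.circleAverage_fun_sum hci]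
    refine Finset.sum_congr rfl fun p hp => ?_
    rw [Real.circleAverage_fun_smul, smul_eq_mul]
  rw [havg, ← Finset.sum_sub_distrib]
  set D : ℝ := T ^ (1 / 60 : ℝ) with hD
  have hD0 : 0 < D := by positivity
  set E : ℝ := T ^ (1 / 1000 : ℝ) * (C * (1 + |ν|) * T ^ (-(29 / 1000) : ℝ)) with hE
  have hE0 : 0 ≤ E := by positivity
  have hterm : ∀ p ∈ S, ‖(∫ t in Set.Ioi (0 : ℝ), c p.1 p.2 * Fm X 11 φ T ν p.1 p.2 t) -
      c p.1 p.2 * Real.circleAverage (MW X 12 (Rde φ T ν p.1 p.2)) 0 (1 / (2 * Real.log T))‖ ≤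
      E * D * ((p.1 : ℝ)⁻¹ * (p.2 : ℝ)⁻¹) := by
    intro p hp
    obtain ⟨p1, p2, p3, p4⟩ := hSm p hp
    have q1 : (0 : ℝ) < p.1 := by exact_mod_cast p1
    have q2 : (0 : ℝ) < p.2 := by exact_mod_cast p3
    by_cases hpD : D < (p.1 : ℝ) * p.2
    · rw [hc2 _ _ hpD]
      simp only [zero_mul, integral_zero, sub_zero, norm_zero]
      positivity
    · rw [not_lt] at hpD
      have h1 := (hJ T hTT1 X hX1 hX2 ν p.1 p.2 p1 p3 hpD).2
      rw [integral_const_mul, ← mul_sub, norm_mul]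
      have h2 : 1 ≤ D * ((p.1 : ℝ)⁻¹ * (p.2 : ℝ)⁻¹) := by
        rw [← mul_inv, ← div_eq_mul_inv, le_div_iff₀ (by positivity), one_mul]
        exact hpD
      calc _ ≤ T ^ (1 / 1000 : ℝ) * (C * (1 + |ν|) * T ^ (-(29 / 1000) : ℝ)) := by
            gcongr
            · exact hc1 _ _
            · exact h1
        _ = E * 1 := by rw [hE, mul_one]
        _ ≤ E * (D * ((p.1 : ℝ)⁻¹ * (p.2 : ℝ)⁻¹)) := by gcongr
        _ = _ := by ring
  refine (norm_sum_le _ _).trans ((Finset.sum_le_sum hterm).trans ?_)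
  rw [← Finset.mul_sum, hS, Finset.sum_product]
  simp only []
  rw [← Finset.sum_mul_sum]
  have hlog : Real.log N ≤ Real.log T := by
    rcases Nat.eq_zero_or_pos N with h0 | h0
    · rw [h0]
      simp
      linarith
    · apply Real.log_le_log (by exact_mod_cast h0)
      refine hN.trans ?_
      calc T ^ (1 / 60 : ℝ) ≤ T ^ (1 : ℝ) :=
            Real.rpow_le_rpow_of_exponent_le hT1 (by norm_num)
        _ = T := Real.rpow_one T
  have hH := sum_inv_le N hlog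
  have hH0 : 0 ≤ ∑ d ∈ Finset.Icc 1 N, (d : ℝ)⁻¹ := Finset.sum_nonneg fun _ _ => by positivity
  have hH2 : ∑ d ∈ Finset.Icc 1 N, (d : ℝ)⁻¹ ≤ T ^ (3 / 1000 : ℝ) := by linarith
  calc E * D * ((∑ d ∈ Finset.Icc 1 N, (d : ℝ)⁻¹) * ∑ d ∈ Finset.Icc 1 N, (d : ℝ)⁻¹)
      ≤ E * D * (T ^ (3 / 1000 : ℝ) * T ^ (3 / 1000 : ℝ)) := by gcongr
    _ = C * (1 + |ν|) * (T ^ (1 / 1000 : ℝ) * T ^ (-(29 / 1000) : ℝ) * T ^ (1 / 60 : ℝ) *
        (T ^ (3 / 1000 : ℝ) * T ^ (3 / 1000 : ℝ))) := by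
        rw [hE, hD]; ring
    _ = C * (1 + |ν|) * T ^ (1 / 1000 + -(29 / 1000) + 1 / 60 + (3 / 1000 + 3 / 1000) : ℝ) := by
        rw [← Real.rpow_add hT0, ← Real.rpow_add hT0, ← Real.rpow_add hT0, ← Real.rpow_add hT0]
    _ ≤ C * (1 + |ν|) * T ^ (-(1 / 200) : ℝ) := by
        refine mul_le_mul_of_nonneg_left ?_ (by positivity)
        exact Real.rpow_le_rpow_of_exponent_le hT1 (by norm_num)

end K7
end Pool.Agent.Lib.MP_973905_nt
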