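import Pool.Agent.Lib.MP_973905_nt.K7.Stmts

/-! Module A2 of folder K7: the mean of the kernel on the circle. -/

namespace Pool.Agent.Lib.MP_973905_nt
namespace K7

open MeasureTheory ProbabilityTheory Complex Filter Topology

namespace KerM

lemma exp_le (y : ℝ) (h : |y| ≤ 1) :
    Real.exp y ≤ 1 + y + (53 / 96) * y ^ 2 + y ^ 3 / 6 := by
  have h1 := Real.exp_bound h (n := 4) (by norm_num)
  have h2 := (abs_le.mp h1).2
  simp only [Finset.sum_range_succ, Finset.sum_range_zero, Nat.factorial] at h2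
  norm_num at h2
  have h3 : y ^ 4 ≤ y ^ 2 := by
    have : y ^ 2 ≤ 1 := by rw [← sq_abs]; nlinarith [abs_nonneg y]
    nlinarith [sq_nonneg y]
  have h4 : |y| ^ 4 = y ^ 4 := Even.pow_abs ⟨2, rfl⟩ y
  rw [h4] at h2
  linarith

lemma zeta_near : ∃ C : ℝ, 0 < C ∧ ∃ δ : ℝ, 0 < δ ∧ ∀ w : ℂ, w ≠ 0 → ‖w‖ < δ →
    ‖riemannZeta (1 + w)‖ ≤ 1 / ‖w‖ + C := by
  have h := tendsto_riemannZeta_sub_one_div
  have h1 : ∀ᶠ s in 𝓝[≠] (1 : ℂ), ‖riemannZeta s - 1 / (s - 1)‖ < ‖(Real.eulerMascheroniConstant : ℂ)‖ + 1 :=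
    h.norm.eventually_lt_const (by linarith)
  rw [eventually_nhdsWithin_iff, Metric.eventually_nhds_iff] at h1
  obtain ⟨δ, hδ, h2⟩ := h1
  refine ⟨‖(Real.eulerMascheroniConstant : ℂ)‖ + 1, by positivity, δ, hδ, fun w hw hwδ => ?_⟩
  have h3 := h2 (y := 1 + w) (by simpa [dist_eq_norm] using hwδ) (by simpa using hw)
  have e : (1 + w : ℂ) - 1 = w := by ring
  rw [e] at h3
  have h4 : ‖riemannZeta (1 + w)‖ ≤ ‖riemannZeta (1 + w) - 1 / w‖ + ‖1 / w‖ := by
    have := norm_add_le (riemannZeta (1 + w) - 1 / w) (1 / w)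
    simpa using this
  have h5 : ‖(1 : ℂ) / w‖ = 1 / ‖w‖ := by simp
  linarith

lemma gamma12 : ‖Gamma 12‖ = (Nat.factorial 11 : ℕ) := by
  have h := Complex.Gamma_nat_eq_factorial 11
  have e : ((11 : ℕ) : ℂ) + 1 = 12 := by norm_num
  rw [e] at h
  rw [h]
  simp

lemma gamma_cont (w : ℂ) (hw : ‖w‖ < 1) : DifferentiableAt ℂ Gamma (12 - w) := by
  apply Complex.differentiableAt_Gamma
  intro m hm
  have h1 : (12 - w).re = -(m : ℝ) := by rw [hm]; simp
  have h2 : w.re ≤ ‖w‖ := Complex.re_le_norm w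
  have h3 : (12 - w).re = 12 - w.re := by simp
  have h4 : (0 : ℝ) ≤ m := Nat.cast_nonneg m
  linarith

lemma gamma_near : ∃ δ : ℝ, 0 < δ ∧ ∀ w : ℂ, ‖w‖ < δ →
    ‖Gamma (12 - w)‖ ≤ (Nat.factorial 11 : ℕ) * (1 + 1 / 4000) := by
  have hc : ContinuousAt (fun w : ℂ => ‖Gamma (12 - w)‖) 0 := by
    have h1 : ContinuousAt Gamma (12 - 0 : ℂ) := (gamma_cont 0 (by simp)).continuousAt
    have h2 : ContinuousAt (fun w : ℂ => 12 - w) 0 := by fun_prop
    exact (ContinuousAt.comp (f := fun w : ℂ => 12 - w) h1 h2).norm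
  have h3 : ∀ᶠ w in 𝓝 (0 : ℂ), ‖Gamma (12 - w)‖ < (Nat.factorial 11 : ℕ) * (1 + 1 / 4000) := by
    apply hc.eventually_lt_const
    simp only [sub_zero]
    rw [gamma12]
    have : (0 : ℝ) < (Nat.factorial 11 : ℕ) := by positivity
    nlinarith
  rw [Metric.eventually_nhds_iff] at h3
  obtain ⟨δ, hδ, h4⟩ := h3
  exact ⟨δ, hδ, fun w hw => (h4 (by simpa [dist_eq_norm] using hw)).le⟩

/-- the kernel -/
noncomputable def kerT (T : ℝ) (a : ℂ) : ℝ := ‖Gamma 12‖ * ‖riemannZeta (1 + 2 * a)‖ +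
      ‖((T / (2 * Real.pi) : ℝ) : ℂ) ^ (-(2 * a))‖ * (‖Gamma (12 - 2 * a)‖ *
        ‖riemannZeta (1 - 2 * a)‖)

lemma int_G (K c : ℝ) : ∫ θ in (0 : ℝ)..2 * Real.pi,
    K * (1 + (1 + (-(c * Real.cos θ)) + (53 / 96) * (-(c * Real.cos θ)) ^ 2 +
      (-(c * Real.cos θ)) ^ 3 / 6)) = K * (4 * Real.pi + 53 / 96 * c ^ 2 * Real.pi) := by
  have e : (fun θ : ℝ => K * (1 + (1 + (-(c * Real.cos θ)) + (53 / 96) * (-(c * Real.cos θ)) ^ 2 +
      (-(c * Real.cos θ)) ^ 3 / 6))) = fun θ => K * 2 + ((-(K * c)) * Real.cos θ +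
      ((K * (53 / 96) * c ^ 2) * Real.cos θ ^ 2 + (-(K * c ^ 3 / 6)) * Real.cos θ ^ 3)) := by
    funext θ; ring
  rw [e]
  rw [intervalIntegral.integral_add (by simp) (by apply Continuous.intervalIntegrable; fun_prop),
    intervalIntegral.integral_add (by apply Continuous.intervalIntegrable; fun_prop)
      (by apply Continuous.intervalIntegrable; fun_prop),
    intervalIntegral.integral_add (by apply Continuous.intervalIntegrable; fun_prop)
      (by apply Continuous.intervalIntegrable; fun_prop)]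
  simp only [intervalIntegral.integral_const, intervalIntegral.integral_const_mul, integral_cos,
    integral_cos_sq, integral_cos_pow_three]
  simp
  ring

end KerM

open KerM in
theorem stKer : StKer := by
  obtain ⟨C, hC, δ₁, hδ₁, hz⟩ := zeta_near
  obtain ⟨δ₂, hδ₂, hg⟩ := gamma_near
  set Λ : ℝ := max (max (2 / δ₁) (2 / δ₂)) (max (4000 * C) 3) with hΛ
  refine ⟨Real.exp Λ, ?_, ?_⟩
  · have h1 : (3 : ℝ) ≤ Λ := le_trans (le_max_right _ _) (le_max_right _ _)
    have h2 : Λ + 1 ≤ Real.exp Λ := Real.add_one_le_exp Λ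
    linarith
  intro T hT
  have hT0 : 0 < T := lt_of_lt_of_le (Real.exp_pos _) hT
  have hL : Λ ≤ Real.log T := by
    rw [← Real.log_exp Λ]
    exact Real.log_le_log (Real.exp_pos _) hT
  set L : ℝ := Real.log T with hLdef
  have hL1 : 2 / δ₁ ≤ L := le_trans (le_trans (le_max_left _ _) (le_max_left _ _)) hL
  have hL2 : 2 / δ₂ ≤ L := le_trans (le_trans (le_max_right _ _) (le_max_left _ _)) hL
  have hL3 : 4000 * C ≤ L := le_trans (le_trans (le_max_left _ _) (le_max_right _ _)) hL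
  have hL4 : 3 ≤ L := le_trans (le_trans (le_max_right _ _) (le_max_right _ _)) hL
  have hLp : 0 < L := by linarith
  set R : ℝ := 1 / (2 * L) with hR
  have hRp : 0 < R := by positivity
  have h2R : 2 * R = 1 / L := by rw [hR]; field_simp
  have hlt1 : 1 / L < δ₁ := by
    rw [div_lt_iff₀ hLp]
    rw [div_le_iff₀ hδ₁] at hL1
    linarith
  have hlt2 : 1 / L < δ₂ := by
    rw [div_lt_iff₀ hLp]
    rw [div_le_iff₀ hδ₂] at hL2
    linarith
  have hlt3 : 1 / L < 1 := by
    rw [div_lt_one hLp]; linarith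
  -- the constant c
  set c : ℝ := Real.log (T / (2 * Real.pi)) / L with hc
  have hpi := Real.pi_pos
  have hpi3 := Real.pi_gt_three
  have hT2 : 2 * Real.pi ≤ T := by
    have h1 : Real.exp 3 ≤ T := le_trans (Real.exp_le_exp.mpr (le_trans (le_trans (le_max_right _ _) (le_max_right _ _)) (le_of_eq hΛ.symm))) hT
    have h2 : (7 : ℝ) ≤ Real.exp 3 := by
      have := Real.quadratic_le_exp_of_nonneg (show (0 : ℝ) ≤ 3 by norm_num)
      norm_num at this
      linarith
    have h3 := Real.pi_lt_d2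
    linarith
  have hbase : 1 ≤ T / (2 * Real.pi) := by
    rw [le_div_iff₀ (by positivity)]; linarith
  have hc0 : 0 ≤ c := div_nonneg (Real.log_nonneg hbase) hLp.le
  have hc1 : c ≤ 1 := by
    rw [hc, div_le_one hLp]
    apply Real.log_le_log (by positivity)
    rw [div_le_iff₀ (by positivity)]
    nlinarith
  have hcL : Real.log (T / (2 * Real.pi)) = c * L := by rw [hc]; field_simp
  have hfac : (0 : ℝ) < (Nat.factorial 11 : ℕ) := by positivity
  set Fa : ℝ := ((Nat.factorial 11 : ℕ) : ℝ) with hFa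
  -- norms on the circle
  have hnorm : ∀ a : ℂ, ‖a‖ = R → ‖2 * a‖ = 1 / L := by
    intro a ha
    rw [norm_mul, ha, ← h2R]; simp
  have hne : ∀ a : ℂ, ‖a‖ = R → 2 * a ≠ 0 := by
    intro a ha h
    have := hnorm a ha
    rw [h, norm_zero] at this
    have : 0 < 1 / L := by positivity
    linarith
  -- continuity
  have hcont : ContinuousOn (kerT T) (Metric.sphere 0 |R|) := by
    intro a ha
    rw [mem_sphere_zero_iff_norm, abs_of_pos hRp] at ha
    have hn := hnorm a ha
    have h0 := hne a ha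
    have z1 : ContinuousAt riemannZeta (1 + 2 * a) :=
      (differentiableAt_riemannZeta (by simpa using h0)).continuousAt
    have z2 : ContinuousAt riemannZeta (1 - 2 * a) :=
      (differentiableAt_riemannZeta (by simpa using h0)).continuousAt
    have g1 : ContinuousAt Gamma (12 - 2 * a) :=
      (gamma_cont (2 * a) (by rw [hn]; exact hlt3)).continuousAt
    have z1' : ContinuousAt (fun a : ℂ => riemannZeta (1 + 2 * a)) a :=
      ContinuousAt.comp (f := fun a : ℂ => 1 + 2 * a) z1 (by fun_prop)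
    have z2' : ContinuousAt (fun a : ℂ => riemannZeta (1 - 2 * a)) a :=
      ContinuousAt.comp (f := fun a : ℂ => 1 - 2 * a) z2 (by fun_prop)
    have g1' : ContinuousAt (fun a : ℂ => Gamma (12 - 2 * a)) a :=
      ContinuousAt.comp (f := fun a : ℂ => 12 - 2 * a) g1 (by fun_prop)
    have hb : ((T / (2 * Real.pi) : ℝ) : ℂ) ≠ 0 := by
      rw [Complex.ofReal_ne_zero]; positivity
    have p1 : ContinuousAt (fun a : ℂ => ((T / (2 * Real.pi) : ℝ) : ℂ) ^ (-(2 * a))) a := by
      apply ContinuousAt.const_cpow (by fun_prop)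
      left; exact hb
    apply ContinuousAt.continuousWithinAt
    exact (continuousAt_const.mul z1'.norm).add (p1.norm.mul (g1'.norm.mul z2'.norm))
  have hCI : CircleIntegrable (kerT T) 0 R := hcont.circleIntegrable'
  refine ⟨hCI, ?_⟩
  -- pointwise bound
  set K : ℝ := Fa * (1001 / 1000 * L) with hK
  have hKp : 0 < K := by positivity
  have hpt : ∀ θ : ℝ, kerT T (circleMap 0 R θ) ≤
      K * (1 + (1 + (-(c * Real.cos θ)) + (53 / 96) * (-(c * Real.cos θ)) ^ 2 +
      (-(c * Real.cos θ)) ^ 3 / 6)) := by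
    intro θ
    set a : ℂ := circleMap 0 R θ with ha
    have han : ‖a‖ = R := by rw [ha]; simp [abs_of_pos hRp]
    have hn := hnorm a han
    have h0 := hne a han
    have hZ1 : ‖riemannZeta (1 + 2 * a)‖ ≤ L + C := by
      have := hz (2 * a) h0 (by rw [hn]; exact hlt1)
      rw [hn] at this
      simpa using this
    have hZ2 : ‖riemannZeta (1 - 2 * a)‖ ≤ L + C := by
      have := hz (-(2 * a)) (neg_ne_zero.mpr h0) (by rw [norm_neg, hn]; exact hlt1)
      rw [norm_neg, hn] at this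
      rw [sub_eq_add_neg]
      simpa using this
    have hG := hg (2 * a) (by rw [hn]; exact hlt2)
    have hre : (-(2 * a)).re = -(Real.cos θ / L) := by
      have : a.re = R * Real.cos θ := by
        rw [ha, circleMap]
        simp [Complex.exp_ofReal_mul_I_re]
      simp only [Complex.neg_re, Complex.mul_re, Complex.re_ofNat, Complex.im_ofNat, zero_mul,
        sub_zero, this]
      rw [hR]; field_simp
    have hP : ‖((T / (2 * Real.pi) : ℝ) : ℂ) ^ (-(2 * a))‖ = Real.exp (-(c * Real.cos θ)) := by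
      rw [Complex.norm_cpow_eq_rpow_re_of_pos (by positivity), hre,
        Real.rpow_def_of_pos (by positivity), hcL]
      congr 1
      field_simp
    have hE := exp_le (-(c * Real.cos θ)) (by
      rw [abs_neg, abs_mul, abs_of_nonneg hc0]
      have := Real.abs_cos_le_one θ
      nlinarith [abs_nonneg (Real.cos θ)])
    have hLC : (1 + 1 / 4000) * (L + C) ≤ 1001 / 1000 * L := by nlinarith
    have hLC' : L + C ≤ 1001 / 1000 * L := by nlinarith
    unfold kerT
    rw [hP, gamma12]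
    have t1 : Fa * ‖riemannZeta (1 + 2 * a)‖ ≤ K := by
      rw [hK]
      exact mul_le_mul_of_nonneg_left (hZ1.trans hLC') hfac.le
    have t2 : ‖Gamma (12 - 2 * a)‖ * ‖riemannZeta (1 - 2 * a)‖ ≤ K := by
      calc ‖Gamma (12 - 2 * a)‖ * ‖riemannZeta (1 - 2 * a)‖
          ≤ (Fa * (1 + 1 / 4000)) * (L + C) :=
            mul_le_mul hG hZ2 (norm_nonneg _) (by positivity)
        _ = Fa * ((1 + 1 / 4000) * (L + C)) := by ring
        _ ≤ K := mul_le_mul_of_nonneg_left hLC hfac.le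
    have t3 : Real.exp (-(c * Real.cos θ)) * (‖Gamma (12 - 2 * a)‖ * ‖riemannZeta (1 - 2 * a)‖) ≤
        (1 + (-(c * Real.cos θ)) + (53 / 96) * (-(c * Real.cos θ)) ^ 2 +
      (-(c * Real.cos θ)) ^ 3 / 6) * K :=
      mul_le_mul hE t2 (by positivity) (le_trans (Real.exp_pos _).le hE)
    calc _ ≤ K + (1 + (-(c * Real.cos θ)) + (53 / 96) * (-(c * Real.cos θ)) ^ 2 +
      (-(c * Real.cos θ)) ^ 3 / 6) * K := add_le_add t1 t3
      _ = _ := by ring
  rw [Real.circleAverage_def, smul_eq_mul]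
  have hint : ∫ θ in (0 : ℝ)..2 * Real.pi, kerT T (circleMap 0 R θ) ≤
      K * (4 * Real.pi + 53 / 96 * c ^ 2 * Real.pi) := by
    rw [← int_G K c]
    apply intervalIntegral.integral_mono_on (by positivity) hCI
    · apply Continuous.intervalIntegrable; fun_prop
    · intro θ _; exact hpt θ
  have hc2 : c ^ 2 ≤ 1 := by nlinarith
  calc (2 * Real.pi)⁻¹ * ∫ θ in (0 : ℝ)..2 * Real.pi, kerT T (circleMap 0 R θ)
      ≤ (2 * Real.pi)⁻¹ * (K * (4 * Real.pi + 53 / 96 * c ^ 2 * Real.pi)) :=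
        mul_le_mul_of_nonneg_left hint (by positivity)
    _ = K * (2 + 53 / 192 * c ^ 2) := by field_simp; ring
    _ ≤ K * (2 + 53 / 192) := by
        apply mul_le_mul_of_nonneg_left _ hKp.le
        linarith
    _ ≤ Fa * (57 / 25 * L) := by
        rw [hK, mul_assoc]
        apply mul_le_mul_of_nonneg_left _ hfac.le
        nlinarith

end K7
end Pool.Agent.Lib.MP_973905_nt
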