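import Pool.Agent.Lib.MP_973905_nt.K7.LFn

/-! The local factor with four shifts is Lipschitz in the shifts. -/

set_option autoImplicit false

namespace Pool.Agent.Lib.MP_973905_nt
namespace K7

open MeasureTheory ProbabilityTheory Complex Filter Topology K1 K4 K5

namespace LF4LA

open K1.LFaux K3.LF4aux LFnA

/-- the kernel with four shifts -/
noncomputable def K4r (x₁ x₂ y₁ y₂ z : ℂ) : ℂ := A x₁ x₂ z * A y₁ y₂ ((starRingEnd ℂ) z)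

lemma A_lip {a b x z : ℂ} (ha : ‖a‖ ≤ 3 / 4) (hb : ‖b‖ ≤ 3 / 4) (hx : ‖x‖ ≤ 3 / 4)
    (hz : ‖z‖ = 1) : ‖A a b z - A x x z‖ ≤ 64 * (‖a - x‖ + ‖b - x‖) := by
  have h := mul_lip (inv_lip ha hx hz) (inv_lip hb hx hz)
    (inv_le_four (w := b * z) (by rw [norm_mul, hz, mul_one]; exact hb))
    (inv_le_four (w := x * z) (by rw [norm_mul, hz, mul_one]; exact hx))
  refine h.trans (le_of_eq ?_)
  ring

section
variable {x₁ x₂ y₁ y₂ x : ℂ} (h₁ : ‖x₁‖ ≤ 3 / 4) (h₂ : ‖x₂‖ ≤ 3 / 4) (h₃ : ‖y₁‖ ≤ 3 / 4)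
  (h₄ : ‖y₂‖ ≤ 3 / 4) (hx : ‖x‖ ≤ 3 / 4)
include h₁ h₂ h₃ h₄

lemma K4r_cont : ContinuousOn (fun z => K4r x₁ x₂ y₁ y₂ z) (Metric.sphere 0 |(1 : ℝ)|) :=
  (anA h₁ h₂).cont.mul (anA h₃ h₄).contc

lemma norm_K4r_le {z : ℂ} (hz : ‖z‖ = 1) : ‖K4r x₁ x₂ y₁ y₂ z‖ ≤ 256 := by
  unfold K4r
  rw [norm_mul]
  calc ‖A x₁ x₂ z‖ * ‖A y₁ y₂ ((starRingEnd ℂ) z)‖ ≤ 16 * 16 :=
        mul_le_mul (norm_A_le h₁ h₂ hz) (norm_A_le h₃ h₄ (by rw [RCLike.norm_conj, hz]))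
          (norm_nonneg _) (by norm_num)
    _ = 256 := by norm_num

include hx in
lemma K4r_lip {z : ℂ} (hz : ‖z‖ = 1) : ‖K4r x₁ x₂ y₁ y₂ z - K4r x x x x z‖ ≤
    1024 * (‖x₁ - x‖ + ‖x₂ - x‖ + ‖y₁ - x‖ + ‖y₂ - x‖) := by
  have hz' : ‖(starRingEnd ℂ) z‖ = 1 := by rw [RCLike.norm_conj, hz]
  have h := mul_lip (A_lip h₁ h₂ hx hz) (A_lip h₃ h₄ hx hz') (norm_A_le h₃ h₄ hz')
    (norm_A_le hx hx hz)
  refine h.trans (le_of_eq ?_)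
  ring

include hx in
lemma P_lip : ‖P x₁ x₂ y₁ y₂ - P x x x x‖ ≤
    32 * (‖x₁ - x‖ + ‖x₂ - x‖ + ‖y₁ - x‖ + ‖y₂ - x‖) := by
  obtain ⟨D, hD⟩ : ∃ D, D = ‖x₁ - x‖ + ‖x₂ - x‖ + ‖y₁ - x‖ + ‖y₂ - x‖ := ⟨_, rfl⟩
  have p1 := norm_nonneg (x₁ - x)
  have p2 := norm_nonneg (x₂ - x)
  have p3 := norm_nonneg (y₁ - x)
  have p4 := norm_nonneg (y₂ - x)
  have key : ∀ a b : ℂ, ‖a‖ ≤ 3 / 4 → ‖b‖ ≤ 3 / 4 → ‖a - x‖ + ‖b - x‖ ≤ D →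
      ‖(1 - a * b) - (1 - x * x)‖ ≤ D := by
    intro a b ha hb hab
    have h := mul_lip (p := a) (p' := x) (q := b) (q' := x) le_rfl le_rfl hb hx
    have e : (1 - a * b) - (1 - x * x) = -(a * b - x * x) := by ring
    rw [e, norm_neg]
    have := norm_nonneg (a - x)
    have := norm_nonneg (b - x)
    linarith
  have bd : ∀ a b : ℂ, ‖a‖ ≤ 3 / 4 → ‖b‖ ≤ 3 / 4 → ‖1 - a * b‖ ≤ 2 := by
    intro a b ha hb
    refine (norm_sub_le _ _).trans ?_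
    rw [norm_one, norm_mul]
    have : ‖a‖ * ‖b‖ ≤ 3 / 4 * (3 / 4) := mul_le_mul ha hb (norm_nonneg _) (by norm_num)
    linarith
  have k1 := key x₁ y₁ h₁ h₃ (by linarith)
  have k2 := key x₁ y₂ h₁ h₄ (by linarith)
  have k3 := key x₂ y₁ h₂ h₃ (by linarith)
  have k4 := key x₂ y₂ h₂ h₄ (by linarith)
  have c0 := bd x x hx hx
  have c1 : ‖(1 - x * x) * (1 - x * x)‖ ≤ 4 := by
    rw [norm_mul]
    nlinarith [norm_nonneg (1 - x * x)]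
  have c2 : ‖(1 - x * x) * (1 - x * x) * (1 - x * x)‖ ≤ 8 := by
    rw [norm_mul]
    nlinarith [norm_nonneg (1 - x * x), norm_nonneg ((1 - x * x) * (1 - x * x))]
  have m1 := mul_lip k1 k2 (bd x₁ y₂ h₁ h₄) c0
  have m2 := mul_lip m1 k3 (bd x₂ y₁ h₂ h₃) c1
  have m3 := mul_lip m2 k4 (bd x₂ y₂ h₂ h₄) c2
  rw [← hD]
  unfold P
  refine m3.trans (le_of_eq ?_)
  ring

omit h₁ h₃ in
lemma norm_prod_le (h₁ : ‖x₁‖ ≤ 3 / 4) (h₃ : ‖y₁‖ ≤ 3 / 4) : ‖x₁ * x₂ * y₁ * y₂‖ ≤ 3 / 4 := by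
  rw [norm_mul, norm_mul, norm_mul]
  have a1 : ‖x₁‖ * ‖x₂‖ ≤ 3 / 4 * 1 := mul_le_mul h₁ (by linarith) (norm_nonneg _) (by norm_num)
  have a2 : ‖x₁‖ * ‖x₂‖ * ‖y₁‖ ≤ 3 / 4 * 1 * 1 :=
    mul_le_mul a1 (by linarith) (norm_nonneg _) (by norm_num)
  have a3 : ‖x₁‖ * ‖x₂‖ * ‖y₁‖ * ‖y₂‖ ≤ 3 / 4 * 1 * 1 * 1 :=
    mul_le_mul a2 (by linarith) (norm_nonneg _) (by norm_num)
  linarith

omit h₁ in
include hx in
lemma prod_lip : ‖x₁ * x₂ * y₁ * y₂ - x * x * x * x‖ ≤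
    ‖x₁ - x‖ + ‖x₂ - x‖ + ‖y₁ - x‖ + ‖y₂ - x‖ := by
  have hx1 : ‖x‖ ≤ 1 := by linarith
  have c1 : ‖x * x‖ ≤ 1 := by
    rw [norm_mul]
    nlinarith [norm_nonneg x]
  have c2 : ‖x * x * x‖ ≤ 1 := by
    rw [norm_mul]
    nlinarith [norm_nonneg x, norm_nonneg (x * x)]
  have m1 := mul_lip (p := x₁) (p' := x) (q := x₂) (q' := x) (B := 1) (A := 1) le_rfl le_rfl
    (by linarith) hx1
  have m2 := mul_lip (q := y₁) (q' := x) (B := 1) m1 le_rfl (by linarith) c1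
  have m3 := mul_lip (q := y₂) (q' := x) (B := 1) m2 le_rfl (by linarith) c2
  refine m3.trans (le_of_eq ?_)
  ring

/-- the local factor, normalised -/
lemma LF4_eq' {u t : ℝ} (ht0 : 0 ≤ t) (ht1 : t ≤ 3 / 4) :
    P x₁ x₂ y₁ y₂ * K3.LF4 u t x₁ x₂ y₁ y₂ * (1 - x₁ * x₂ * y₁ * y₂)⁻¹ =
      1 + P x₁ x₂ y₁ y₂ * (1 - x₁ * x₂ * y₁ * y₂)⁻¹ *
        Real.circleAverage (fun z => K4r x₁ x₂ y₁ y₂ z * (w u t z - 1)) 0 1 := by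
  have hne : 1 - x₁ * x₂ * y₁ * y₂ ≠ 0 := by
    apply one_sub_ne
    have := norm_prod_le h₂ h₄ h₁ h₃
    linarith
  have e1 : K3.LF4 u t x₁ x₂ y₁ y₂ =
      Real.circleAverage (fun z => K4r x₁ x₂ y₁ y₂ z * w u t z) 0 1 := by
    unfold K3.LF4
    congr 1
    funext z
    unfold K4r A w
    ring
  have e2 := M0 h₁ h₂ h₃ h₄
  rw [e1, avg_split (K4r_cont h₁ h₂ h₃ h₄) ht0 ht1]
  have e3 : Real.circleAverage (fun z => K4r x₁ x₂ y₁ y₂ z) 0 1 =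
      Real.circleAverage (fun z => A x₁ x₂ z * A y₁ y₂ ((starRingEnd ℂ) z)) 0 1 := rfl
  rw [e3, mul_add, e2, add_mul, mul_inv_cancel₀ hne]
  ring
end

end LF4LA

open LF4LA LFnA K1.LFaux K3.LF4aux in
theorem stLF4L : StLF4L := by
  refine ⟨7864320, by norm_num, ?_⟩
  intro u x x₁ x₂ y₁ y₂ hu0 hu1 hx0 hx1 h₁ h₂ h₃ h₄
  have hx34 : x ≤ 3 / 4 := by linarith
  have hxn : ‖(x : ℂ)‖ ≤ 3 / 4 := by
    rw [norm_real, Real.norm_eq_abs, abs_of_nonneg hx0]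
    exact hx34
  have n1 := norm_shift_le hx0 hx1 h₁
  have n2 := norm_shift_le hx0 hx1 h₂
  have n3 := norm_shift_le hx0 hx1 h₃
  have n4 := norm_shift_le hx0 hx1 h₄
  have hw := w_cont (u := u) hx0 hx34
  have e0 : (1 - (x : ℂ) ^ 2) ^ 4 * K3.LF4 u x x x x x * (1 - (x : ℂ) ^ 4)⁻¹ =
      P (x : ℂ) x x x * K3.LF4 u x x x x x * (1 - (x : ℂ) * x * x * x)⁻¹ := by
    have a1 : (1 - (x : ℂ) ^ 2) ^ 4 = P (x : ℂ) x x x := by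
      unfold P
      ring
    have a2 : (x : ℂ) ^ 4 = (x : ℂ) * x * x * x := by ring
    rw [a1, a2]
  have e1 : (1 - x₁ * y₁) * (1 - x₁ * y₂) * (1 - x₂ * y₁) * (1 - x₂ * y₂) =
    P x₁ x₂ y₁ y₂ := rfl
  rw [e0, e1, LF4_eq' n1 n2 n3 n4 hx0 hx34, LF4_eq' hxn hxn hxn hxn hx0 hx34]
  obtain ⟨D, hD⟩ : ∃ D, D = ‖x₁ - x‖ + ‖x₂ - x‖ + ‖y₁ - x‖ + ‖y₂ - x‖ := ⟨_, rfl⟩
  have hD0 : 0 ≤ D := by
    rw [hD]
    positivity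
  obtain ⟨R, hR⟩ : ∃ R, R = Real.circleAverage
    (fun z => K4r x₁ x₂ y₁ y₂ z * (w u x z - 1)) 0 1 := ⟨_, rfl⟩
  obtain ⟨R0, hR0⟩ : ∃ R0, R0 = Real.circleAverage
    (fun z => K4r (x : ℂ) (x : ℂ) (x : ℂ) (x : ℂ) z * (w u x z - 1)) 0 1 := ⟨_, rfl⟩
  have b1 : ‖R - R0‖ ≤ 1024 * D * (48 * x) := by
    rw [hR, hR0]
    apply avg_sub_le
    · exact (K4r_cont n1 n2 n3 n4).mul (hw.sub continuousOn_const)
    · exact (K4r_cont hxn hxn hxn hxn).mul (hw.sub continuousOn_const)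
    · intro z hz
      rw [← sub_mul, norm_mul, hD]
      exact mul_le_mul (K4r_lip n1 n2 n3 n4 hxn hz) (w_sub_one (by linarith) hu1 hx0 hx34 hz)
        (norm_nonneg _) (by positivity)
  have b2 : ‖R‖ ≤ 256 * (48 * x) := by
    rw [hR]
    apply norm_avg_le
    intro z hz
    rw [norm_mul]
    exact mul_le_mul (norm_K4r_le n1 n2 n3 n4 hz) (w_sub_one (by linarith) hu1 hx0 hx34 hz)
      (norm_nonneg _) (by norm_num)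
  have q1 := norm_prod_le n2 n4 n1 n3
  have q2 := norm_prod_le hxn hxn hxn hxn
  have i1 : ‖(1 - x₁ * x₂ * y₁ * y₂)⁻¹ - (1 - (x : ℂ) * x * x * x)⁻¹‖ ≤ 16 * D := by
    have h := inv_lip q1 q2 (z := 1) norm_one
    rw [mul_one, mul_one] at h
    refine h.trans ?_
    rw [hD]
    exact mul_le_mul_of_nonneg_left (prod_lip n2 n3 n4 hxn) (by norm_num)
  have i2 := inv_le_four q1
  have p1 : ‖P x₁ x₂ y₁ y₂ - P (x : ℂ) x x x‖ ≤ 32 * D := by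
    rw [hD]
    exact P_lip n1 n2 n3 n4 hxn
  have p2 : ‖P (x : ℂ) x x x‖ ≤ 16 := (norm_P_le hxn hxn hxn hxn).trans (by norm_num)
  have s1 := mul_lip p1 i1 i2 p2
  have s2 : ‖P (x : ℂ) x x x * (1 - (x : ℂ) * x * x * x)⁻¹‖ ≤ 64 := by
    rw [norm_mul]
    calc ‖P (x : ℂ) x x x‖ * ‖(1 - (x : ℂ) * x * x * x)⁻¹‖ ≤ 16 * 4 :=
          mul_le_mul p2 (inv_le_four q2) (norm_nonneg _) (by norm_num)
      _ = 64 := by norm_num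
  have s3 := mul_lip s1 b1 b2 s2
  rw [← hR, ← hR0, ← hD]
  have e : 1 + P x₁ x₂ y₁ y₂ * (1 - x₁ * x₂ * y₁ * y₂)⁻¹ * R -
      (1 + P (x : ℂ) x x x * (1 - (x : ℂ) * x * x * x)⁻¹ * R0) =
      P x₁ x₂ y₁ y₂ * (1 - x₁ * x₂ * y₁ * y₂)⁻¹ * R -
        P (x : ℂ) x x x * (1 - (x : ℂ) * x * x * x)⁻¹ * R0 := by ring
  rw [e]
  refine s3.trans (le_of_eq ?_)
  ring

end K7
end Pool.Agent.Lib.MP_973905_nt
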