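import Pool.Agent.Lib.MP_973905_nt.K7.Stmts
import Pool.Agent.Lib.MP_973905_nt.F4.Left4

/-! (G4) the left edge for a pair. -/

namespace Pool.Agent.Lib.MP_973905_nt
namespace K7
namespace LeftP

open MeasureTheory Complex Filter Topology K1 F4.Left4

/-- Powers of `t` in the weight. -/
lemma wt_pow {X : ℝ} (hX : 0 < X) (c : ℂ) {m t : ℝ} (ht : 0 < t) :
    t ^ m * ‖F4.Wt X c t‖ =
      X ^ m * (X⁻¹ * (t / X) ^ (c.re + m - 1) * Real.exp (-(t / X))) := by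
  have h1 : 0 < t / X := div_pos ht hX
  have h2 : X ^ m ≠ 0 := (Real.rpow_pos_of_pos hX m).ne'
  have h3 : X ^ m * (t / X) ^ m = t ^ m := by
    rw [Real.div_rpow ht.le hX.le m]
    field_simp
  rw [wt_norm hX c ht, show c.re + m - 1 = m + (c.re - 1) by ring, Real.rpow_add h1, ← h3]
  ring

/-- The mean square with a power of `t`. -/
lemma ms {X : ℝ} (hX : 0 < X) {c : ℂ} {m R : ℝ} {h : ℝ → ℝ}
    (H : IntegrableOn (fun t : ℝ => h t * (X⁻¹ * (t / X) ^ (c.re + m - 1) *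
      Real.exp (-(t / X)))) (Set.Ioi 0) ∧
    ∫ t in Set.Ioi (0 : ℝ), h t * (X⁻¹ * (t / X) ^ (c.re + m - 1) * Real.exp (-(t / X))) ≤ R) :
    IntegrableOn (fun t : ℝ => h t * (t ^ m * ‖F4.Wt X c t‖)) (Set.Ioi 0) ∧
    ∫ t in Set.Ioi (0 : ℝ), h t * (t ^ m * ‖F4.Wt X c t‖) ≤ X ^ m * R := by
  have e : ∀ t ∈ Set.Ioi (0 : ℝ), X ^ m * (h t * (X⁻¹ * (t / X) ^ (c.re + m - 1) *
      Real.exp (-(t / X)))) = h t * (t ^ m * ‖F4.Wt X c t‖) := by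
    intro t ht
    rw [wt_pow hX c ht]
    ring
  constructor
  · refine (H.1.const_mul (X ^ m)).congr ?_
    rw [EventuallyEq, ae_restrict_iff' measurableSet_Ioi]
    exact Filter.Eventually.of_forall e
  · rw [← setIntegral_congr_fun measurableSet_Ioi e, integral_const_mul]
    exact mul_le_mul_of_nonneg_left H.2 (Real.rpow_pos_of_pos hX m).le

/-- The size of the mean square of our polynomials. -/
lemma size {T X C S₁ S₂ : ℝ} {N : ℕ} (hT : 3 ≤ T) (hX : T ^ (985 / 1000 : ℝ) ≤ X) (hC : 0 < C)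
    (hN : (N : ℝ) ≤ T ^ (52 / 100 : ℝ)) (h1 : S₁ ≤ T ^ (1 / 1000 : ℝ)) (h20 : 0 ≤ S₂)
    (h2 : S₂ ≤ T ^ (252 / 1000 : ℝ)) :
    C * (S₁ + (N / X) ^ 8 * S₂ ^ 2) ≤ 2 * C * T ^ (1 / 1000 : ℝ) := by
  have hT0 : 0 < T := by linarith
  have hT1 : 1 ≤ T := by linarith
  have hp : 0 < T ^ (985 / 1000 : ℝ) := Real.rpow_pos_of_pos hT0 _
  have hX0 : 0 < X := hp.trans_le hX
  have hq : (N : ℝ) / X ≤ T ^ (-(465 / 1000) : ℝ) := by
    calc (N : ℝ) / X ≤ T ^ (52 / 100 : ℝ) / T ^ (985 / 1000 : ℝ) := by gcongr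
      _ = T ^ (-(465 / 1000) : ℝ) := by
          rw [← Real.rpow_sub hT0]
          norm_num
  have h3 : ((N : ℝ) / X) ^ 8 * S₂ ^ 2 ≤ T ^ (1 / 1000 : ℝ) := by
    calc ((N : ℝ) / X) ^ 8 * S₂ ^ 2 ≤ (T ^ (-(465 / 1000) : ℝ)) ^ 8 * (T ^ (252 / 1000 : ℝ)) ^ 2 := by
          gcongr
      _ = T ^ (-(3216 / 1000) : ℝ) := by
          rw [← Real.rpow_natCast, ← Real.rpow_natCast, ← Real.rpow_mul hT0.le,
            ← Real.rpow_mul hT0.le, ← Real.rpow_add hT0]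
          norm_num
      _ ≤ T ^ (1 / 1000 : ℝ) := Real.rpow_le_rpow_of_exponent_le hT1 (by norm_num)
  nlinarith

end LeftP

open MeasureTheory ProbabilityTheory Complex Filter Topology K1 F4.Left4 LeftP in
/-- The left edge for a pair. -/
theorem stLeftP (hm : StMSP) (hc : StCoP) : StLeftP := by
  intro φ hφ
  obtain ⟨Cm, hCm, HM⟩ := hm
  obtain ⟨T₀, hT₀, HC⟩ := hc φ hφ
  obtain ⟨Z, hZ, hzeta⟩ := zeta_bd
  obtain ⟨D, hD, hpair⟩ := pair_bd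
  have hK : 0 < 4 * D * Z ^ 2 * Cm := by positivity
  refine ⟨4 + |Real.log (4 * D * Z ^ 2 * Cm)|, by positivity, T₀, hT₀,
    fun T hT X hX1 hX2 a c ha hc1 hc2 ν d e hd he hde => ?_⟩
  have hT3 : 3 ≤ T := hT₀.trans hT
  have hT0 : 0 < T := by linarith
  have hT1 : 1 ≤ T := by linarith
  have hXT : (1 : ℝ) ≤ T ^ (985 / 1000 : ℝ) := Real.one_le_rpow hT1 (by norm_num)
  have hX : 1 ≤ X := hXT.trans hX1
  have hX0 : 0 < X := by linarith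
  have hd1 : (1 : ℝ) ≤ d := by exact_mod_cast hd
  have he1 : (1 : ℝ) ≤ e := by exact_mod_cast he
  have hdT : (d : ℝ) ≤ T ^ (1 / 60 : ℝ) := by nlinarith
  have heT : (e : ℝ) ≤ T ^ (1 / 60 : ℝ) := by nlinarith
  have hna := norm_nonneg a
  have hNp : ((Np T : ℕ) : ℝ) ≤ T ^ (52 / 100 : ℝ) := Nat.floor_le (by positivity)
  -- the mean squares
  have MS : ∀ n : ℕ, 1 ≤ n → (n : ℝ) ≤ T ^ (1 / 60 : ℝ) → ∀ m : ℝ, 0 ≤ m → m ≤ 3 →
      IntegrableOn (fun t : ℝ => ‖F4.HP (Np T) (sg φ T ν n) t‖ ^ 2 * (t ^ m * ‖F4.Wt X c t‖))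
        (Set.Ioi 0) ∧
      ∫ t in Set.Ioi (0 : ℝ), ‖F4.HP (Np T) (sg φ T ν n) t‖ ^ 2 * (t ^ m * ‖F4.Wt X c t‖) ≤
        X ^ m * (2 * Cm * T ^ (1 / 1000 : ℝ)) := by
    intro n hn1 hn2 m hm0 hm3
    obtain ⟨_, _, q2, _, q4, _⟩ := HC T hT ν n hn1 hn2
    have H := HM X hX (c.re + m) (by linarith) (by linarith) (Np T) (sg φ T ν n)
    have hs := size hT3 hX1 hCm hNp q4 (Finset.sum_nonneg fun i _ => by positivity) q2
    exact ms hX0 ⟨H.1, H.2.trans hs⟩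
  set P : ℝ → ℂ := F4.HP (Np T) (sg φ T ν d) with hP
  set Q : ℝ → ℂ := F4.HP (Np T) (sg φ T ν e) with hQ
  have hPc : Continuous P := hp_cont _ _
  have hQc : Continuous Q := hp_cont _ _
  set Φ : ℝ → ℂ := fun t => riemannZeta (1 / 2 + a + t * I) * riemannZeta (1 / 2 + a - t * I) *
    (P t * (starRingEnd ℂ) (Q t)) with hΦ
  have hΦn : ∀ t, ‖Φ t‖ ≤ Z ^ 2 / 2 * (‖P t‖ ^ 2 + ‖Q t‖ ^ 2) := by
    intro t
    have h1 := hzeta (1 / 2 + a + t * I) (by simp [ha]; norm_num)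
    have h2 := hzeta (1 / 2 + a - t * I) (by simp [ha]; norm_num)
    simp only [hΦ, norm_mul, norm_conj]
    calc _ ≤ Z * Z * (‖P t‖ * ‖Q t‖) := by gcongr
      _ ≤ Z * Z * ((‖P t‖ ^ 2 + ‖Q t‖ ^ 2) / 2) := by
          gcongr
          nlinarith [sq_nonneg (‖P t‖ - ‖Q t‖)]
      _ = _ := by ring
  have hsub : ∀ s : ℂ, ∀ t : ℝ, s - t * I = s + ((-t : ℝ) : ℂ) * I := by
    intro s t; push_cast; ring
  have hneg : ∀ s : ℂ, s.re ≠ 1 → Continuous fun t : ℝ => riemannZeta (s - t * I) := by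
    intro s hs
    have h1 := (zeta_cont hs).comp (continuous_neg (G := ℝ))
    refine h1.congr fun t => ?_
    simp only [Function.comp_apply]
    rw [hsub]
  have hre1 : (1 / 2 + a : ℂ).re ≠ 1 := by simp [ha]; norm_num
  have hre2 : (1 / 2 + -a : ℂ).re ≠ 1 := by simp [ha]; norm_num
  have hHc : Continuous fun t => P t * (starRingEnd ℂ) (Q t) :=
    hPc.mul (continuous_conj.comp hQc)
  have hΦc : Continuous Φ := ((zeta_cont hre1).mul (hneg _ hre1)).mul hHc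
  -- the two integrands
  set f₁ : ℝ → ℂ := fun t => riemannZeta (1 / 2 + -a + t * I) * riemannZeta (1 / 2 + -a - t * I) *
    (P t * (starRingEnd ℂ) (Q t)) * F4.Wt X c t with hf1
  set f₂ : ℝ → ℂ := fun t => ((t / (2 * Real.pi) : ℝ) : ℂ) ^ (2 * a) * Φ t * F4.Wt X c t with hf2
  have e1 : ∀ t ∈ Set.Ioi (0 : ℝ), f₁ t - f₂ t = (FF (1 / 2 + a + t * I) * FF (1 / 2 + a - t * I) -
      ((t / (2 * Real.pi) : ℝ) : ℂ) ^ (2 * a)) * (Φ t * F4.Wt X c t) := by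
    intro t ht
    have n1 : (1 / 2 + a + t * I : ℂ) ≠ 1 := by
      intro h
      have := congrArg re h
      simp [ha] at this
      norm_num at this
    have n2 : (1 / 2 + a - t * I : ℂ) ≠ 1 := by
      intro h
      have := congrArg re h
      simp [ha] at this
      norm_num at this
    have h1 := fe (s := 1 / 2 + a + t * I) (by simp [ha]; norm_num) n1
    have h2 := fe (s := 1 / 2 + a - t * I) (by simp [ha]; norm_num) n2
    have e3 : (1 / 2 + -a + t * I : ℂ) = 1 - (1 / 2 + a - t * I) := by ring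
    have e4 : (1 / 2 + -a - t * I : ℂ) = 1 - (1 / 2 + a + t * I) := by ring
    simp only [hf1, hf2, hΦ]
    rw [e3, e4, h1, h2]
    ring
  obtain ⟨ip0, vp0⟩ := MS d hd hdT 0 le_rfl (by norm_num)
  obtain ⟨ip1, vp1⟩ := MS d hd hdT (1 / 8) (by norm_num) (by norm_num)
  obtain ⟨ip2, -⟩ := MS d hd hdT (9 / 8) (by norm_num) (by norm_num)
  obtain ⟨iq0, vq0⟩ := MS e he heT 0 le_rfl (by norm_num)
  obtain ⟨iq1, vq1⟩ := MS e he heT (1 / 8) (by norm_num) (by norm_num)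
  obtain ⟨iq2, -⟩ := MS e he heT (9 / 8) (by norm_num) (by norm_num)
  rw [← hP] at ip0 vp0 ip1 vp1 ip2
  rw [← hQ] at iq0 vq0 iq1 vq1 iq2
  set A : ℝ := D * (1 + ‖a‖) ^ 4 * (Z ^ 2 / 2) with hA
  have hA0 : 0 ≤ A := by positivity
  set W : ℝ → ℝ := fun t => A *
      ((‖P t‖ ^ 2 * (t ^ (0 : ℝ) * ‖F4.Wt X c t‖) + ‖P t‖ ^ 2 * (t ^ (1 / 8 : ℝ) * ‖F4.Wt X c t‖)) +
       (‖Q t‖ ^ 2 * (t ^ (0 : ℝ) * ‖F4.Wt X c t‖) + ‖Q t‖ ^ 2 * (t ^ (1 / 8 : ℝ) * ‖F4.Wt X c t‖)))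
    with hW
  have iW : IntegrableOn W (Set.Ioi 0) := ((ip0.add ip1).add (iq0.add iq1)).const_mul A
  have bd : ∀ t ∈ Set.Ioi (0 : ℝ), ‖f₁ t - f₂ t‖ ≤ W t := by
    intro t ht
    rw [e1 t ht, norm_mul, norm_mul]
    have ht0 : (0 : ℝ) < t := ht
    have h1 := hpair a ha t ht
    have h2 := hΦn t
    have h3 : 0 ≤ D * (1 + ‖a‖) ^ 4 * (1 + t ^ (1 / 8 : ℝ)) := by positivity
    calc _ ≤ (D * (1 + ‖a‖) ^ 4 * (1 + t ^ (1 / 8 : ℝ))) *
          ((Z ^ 2 / 2 * (‖P t‖ ^ 2 + ‖Q t‖ ^ 2)) * ‖F4.Wt X c t‖) :=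
          mul_le_mul h1 (mul_le_mul_of_nonneg_right h2 (norm_nonneg _)) (by positivity) h3
      _ = W t := by simp only [hW, hA]; rw [Real.rpow_zero]; ring
  have m1 : AEStronglyMeasurable f₁ (volume.restrict (Set.Ioi 0)) := by
    refine ContinuousOn.aestronglyMeasurable ?_ measurableSet_Ioi
    exact (((zeta_cont hre2).mul (hneg _ hre2)).mul hHc).continuousOn.mul (wt_contOn X hX0 c)
  have m2 : AEStronglyMeasurable f₂ (volume.restrict (Set.Ioi 0)) := by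
    refine ContinuousOn.aestronglyMeasurable ?_ measurableSet_Ioi
    refine (ContinuousOn.mul ?_ hΦc.continuousOn).mul (wt_contOn X hX0 c)
    intro t ht
    have ht0 : (0 : ℝ) < t := ht
    refine ContinuousAt.continuousWithinAt (ContinuousAt.cpow (by fun_prop) continuousAt_const ?_)
    exact ofReal_mem_slitPlane.2 (by positivity)
  have j2 : IntegrableOn f₂ (Set.Ioi 0) := by
    refine Integrable.mono' ((ip2.add iq2).const_mul (Z ^ 2 / 2)) m2 ?_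
    rw [ae_restrict_iff' measurableSet_Ioi]
    refine Filter.Eventually.of_forall fun t ht => ?_
    have ht0 : (0 : ℝ) < t := ht
    have h1 : ‖((t / (2 * Real.pi) : ℝ) : ℂ) ^ (2 * a)‖ ≤ t ^ (9 / 8 : ℝ) := by
      rw [norm_cpow_eq_rpow_re_of_pos (by positivity)]
      have : (2 * a).re = 9 / 8 := by simp; linarith
      rw [this]
      apply Real.rpow_le_rpow (by positivity) _ (by norm_num)
      rw [div_le_iff₀ (by positivity)]
      have := Real.pi_gt_three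
      nlinarith
    simp only [hf2, norm_mul]
    have h2 := hΦn t
    calc _ ≤ t ^ (9 / 8 : ℝ) * (Z ^ 2 / 2 * (‖P t‖ ^ 2 + ‖Q t‖ ^ 2)) * ‖F4.Wt X c t‖ := by
          gcongr
      _ = _ := by
          simp only [Pi.add_apply]
          ring
  have jd : IntegrableOn (fun t => f₁ t - f₂ t) (Set.Ioi 0) := by
    refine Integrable.mono' iW (m1.sub m2) ?_
    rw [ae_restrict_iff' measurableSet_Ioi]
    exact Filter.Eventually.of_forall bd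
  have j1 : IntegrableOn f₁ (Set.Ioi 0) := by
    have := jd.add j2
    refine this.congr (Filter.Eventually.of_forall fun t => ?_)
    simp
  have hJ1 : Jd X c φ T ν d e (-a) = ∫ t in Set.Ioi (0 : ℝ), f₁ t := rfl
  have hJ2 : ((X / (2 * Real.pi) : ℝ) : ℂ) ^ (2 * a) * Jd X (c + 2 * a) φ T ν d e a =
      ∫ t in Set.Ioi (0 : ℝ), f₂ t := by
    rw [Jd, ← integral_const_mul]
    refine setIntegral_congr_fun measurableSet_Ioi fun t ht => ?_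
    have := wt_shift hX0 a c ht
    simp only [hf2, hΦ, hP, hQ]
    calc _ = (riemannZeta (1 / 2 + a + t * I) * riemannZeta (1 / 2 + a - t * I) *
          (F4.HP (Np T) (sg φ T ν d) t * (starRingEnd ℂ) (F4.HP (Np T) (sg φ T ν e) t))) *
          (((X / (2 * Real.pi) : ℝ) : ℂ) ^ (2 * a) * F4.Wt X (c + 2 * a) t) := by ring
      _ = _ := by rw [this]; ring
  rw [hJ1, hJ2, ← integral_sub j1 j2]
  refine (norm_integral_le_integral_norm _).trans ?_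
  have h3 : ∫ t in Set.Ioi (0 : ℝ), ‖f₁ t - f₂ t‖ ≤ ∫ t in Set.Ioi (0 : ℝ), W t :=
    setIntegral_mono_on jd.norm iW measurableSet_Ioi bd
  refine h3.trans ?_
  have hint : ∫ t in Set.Ioi (0 : ℝ), W t ≤ A * (((X ^ (0 : ℝ) * (2 * Cm * T ^ (1 / 1000 : ℝ))) +
      (X ^ (1 / 8 : ℝ) * (2 * Cm * T ^ (1 / 1000 : ℝ)))) +
      ((X ^ (0 : ℝ) * (2 * Cm * T ^ (1 / 1000 : ℝ))) +
      (X ^ (1 / 8 : ℝ) * (2 * Cm * T ^ (1 / 1000 : ℝ))))) := by
    have e2 : ∫ t in Set.Ioi (0 : ℝ), W t = A *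
      (((∫ t in Set.Ioi (0 : ℝ), ‖P t‖ ^ 2 * (t ^ (0 : ℝ) * ‖F4.Wt X c t‖)) +
        (∫ t in Set.Ioi (0 : ℝ), ‖P t‖ ^ 2 * (t ^ (1 / 8 : ℝ) * ‖F4.Wt X c t‖))) +
       ((∫ t in Set.Ioi (0 : ℝ), ‖Q t‖ ^ 2 * (t ^ (0 : ℝ) * ‖F4.Wt X c t‖)) +
        (∫ t in Set.Ioi (0 : ℝ), ‖Q t‖ ^ 2 * (t ^ (1 / 8 : ℝ) * ‖F4.Wt X c t‖)))) := by
      have s1 := integral_add ip0 ip1
      have s2 := integral_add iq0 iq1
      have s3 := integral_add (ip0.add ip1) (iq0.add iq1)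
      simp only [Pi.add_apply] at s3
      simp only [hW]
      rw [integral_const_mul, s3, s1, s2]
    rw [e2]
    exact mul_le_mul_of_nonneg_left (by linarith) hA0
  refine hint.trans ?_
  have hX8 : 1 ≤ X ^ (1 / 8 : ℝ) := Real.one_le_rpow hX (by norm_num)
  have hX8' : X ^ (1 / 8 : ℝ) ≤ T ^ (129 / 1000 : ℝ) := by
    calc X ^ (1 / 8 : ℝ) ≤ (T ^ (1 + 1 / 10000 : ℝ)) ^ (1 / 8 : ℝ) :=
          Real.rpow_le_rpow hX0.le hX2 (by norm_num)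
      _ = T ^ ((1 + 1 / 10000) * (1 / 8) : ℝ) := by rw [← Real.rpow_mul hT0.le]
      _ ≤ T ^ (129 / 1000 : ℝ) := Real.rpow_le_rpow_of_exponent_le hT1 (by norm_num)
  have hTT : T ^ (129 / 1000 : ℝ) * T ^ (1 / 1000 : ℝ) = T ^ (13 / 100 : ℝ) := by
    rw [← Real.rpow_add hT0]
    norm_num
  have hexp : (1 + ‖a‖) ^ 4 ≤ Real.exp (4 * ‖a‖) := by
    have h1 := Real.add_one_le_exp ‖a‖
    calc (1 + ‖a‖) ^ 4 ≤ Real.exp ‖a‖ ^ 4 := pow_le_pow_left₀ (by positivity) (by linarith) 4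
      _ = _ := by rw [← Real.exp_nat_mul]; norm_num
  have hc8 : 1 ≤ ‖c‖ := by
    have := hc1.trans ((le_abs_self _).trans (abs_re_le_norm c))
    linarith
  have hT1000 : 0 < T ^ (1 / 1000 : ℝ) := Real.rpow_pos_of_pos hT0 _
  have step : A * (((X ^ (0 : ℝ) * (2 * Cm * T ^ (1 / 1000 : ℝ))) +
      (X ^ (1 / 8 : ℝ) * (2 * Cm * T ^ (1 / 1000 : ℝ)))) +
      ((X ^ (0 : ℝ) * (2 * Cm * T ^ (1 / 1000 : ℝ))) +
      (X ^ (1 / 8 : ℝ) * (2 * Cm * T ^ (1 / 1000 : ℝ))))) ≤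
      (1 + ‖a‖) ^ 4 * (4 * D * Z ^ 2 * Cm) * T ^ (13 / 100 : ℝ) := by
    rw [Real.rpow_zero, one_mul, ← hTT]
    have h4 : 0 ≤ A * (4 * Cm * T ^ (1 / 1000 : ℝ)) := by positivity
    calc _ = A * (4 * Cm * T ^ (1 / 1000 : ℝ)) * (1 + X ^ (1 / 8 : ℝ)) := by ring
      _ ≤ A * (4 * Cm * T ^ (1 / 1000 : ℝ)) * (2 * T ^ (129 / 1000 : ℝ)) := by
          apply mul_le_mul_of_nonneg_left _ h4
          linarith
      _ = _ := by rw [hA]; ring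
  refine step.trans ?_
  have hlog : 4 * ‖a‖ + Real.log (4 * D * Z ^ 2 * Cm) ≤
      (4 + |Real.log (4 * D * Z ^ 2 * Cm)|) * (‖a‖ + ‖c‖) := by
    have h1 := le_abs_self (Real.log (4 * D * Z ^ 2 * Cm))
    have h2 := abs_nonneg (Real.log (4 * D * Z ^ 2 * Cm))
    nlinarith
  calc (1 + ‖a‖) ^ 4 * (4 * D * Z ^ 2 * Cm) * T ^ (13 / 100 : ℝ)
      ≤ Real.exp (4 * ‖a‖) * (4 * D * Z ^ 2 * Cm) * T ^ (13 / 100 : ℝ) := by gcongr
    _ = Real.exp (4 * ‖a‖ + Real.log (4 * D * Z ^ 2 * Cm)) * T ^ (13 / 100 : ℝ) := by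
        rw [Real.exp_add, Real.exp_log hK]
    _ ≤ _ := by gcongr

end K7
end Pool.Agent.Lib.MP_973905_nt
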