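import Pool.Agent.Lib.MP_973905_nt.K7.Stmts
import Pool.Agent.Lib.MP_973905_nt.F4.Expand
import Pool.Agent.Lib.MP_973905_nt.F4.KXb

/-! (G3) mean square of a Dirichlet polynomial with the weight `Wt`, real exponent. -/

namespace Pool.Agent.Lib.MP_973905_nt
namespace K7

open MeasureTheory ProbabilityTheory Complex Filter Topology K1 K4 K5

namespace MSP

/-- the weight is real -/
lemma Wt_real {X : ℝ} (hX : 0 < X) (c' : ℝ) {t : ℝ} (ht : 0 < t) :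
    F4.Wt X c' t = ((X⁻¹ * (t / X) ^ (c' - 1) * Real.exp (-(t / X)) : ℝ) : ℂ) := by
  unfold F4.Wt
  have h1 : (((t / X : ℝ) : ℂ)) ^ ((c' : ℂ) - 1) = (((t / X) ^ (c' - 1) : ℝ) : ℂ) := by
    rw [ofReal_cpow (div_nonneg ht.le hX.le)]
    push_cast
    rfl
  rw [h1]
  push_cast
  rfl

lemma norm_KX {c' : ℝ} (X u : ℝ) :
    ‖F4.KX X c' u‖ = |Real.Gamma c'| * ‖1 + ((X * u : ℝ) : ℂ) * I‖ ^ (-c') := by
  have h3 := F4.KXb.one_le_norm (X * u)
  have h4 : (1 + ((X * u : ℝ) : ℂ) * I) ≠ 0 := by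
    intro h
    rw [h, norm_zero] at h3
    linarith
  rw [F4.KX, norm_mul, Gamma_ofReal, norm_real, Real.norm_eq_abs]
  congr 1
  rw [norm_cpow_of_ne_zero h4]
  simp

lemma Gam {c' : ℝ} (h1 : 8 ≤ c') (h2 : c' ≤ 17) : |Real.Gamma c'| ≤ Real.Gamma 17 := by
  rw [abs_of_pos (Real.Gamma_pos_of_pos (by linarith))]
  exact Real.Gamma_strictMonoOn_Ici.monotoneOn (by simp; linarith) (by simp; norm_num) h2

lemma diag {c' : ℝ} (h1 : 8 ≤ c') (h2 : c' ≤ 17) (X u : ℝ) :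
    ‖F4.KX X c' u‖ ≤ Real.Gamma 17 := by
  rw [norm_KX]
  have h3 := F4.KXb.one_le_norm (X * u)
  have h4 : ‖1 + ((X * u : ℝ) : ℂ) * I‖ ^ (-c') ≤ 1 :=
    Real.rpow_le_one_of_one_le_of_nonpos h3 (by linarith)
  calc _ ≤ Real.Gamma 17 * 1 := mul_le_mul (Gam h1 h2) h4 (by positivity)
        (Real.Gamma_pos_of_pos (by norm_num)).le
    _ = _ := mul_one _

lemma far {c' : ℝ} (h1 : 8 ≤ c') (h2 : c' ≤ 17) {X u : ℝ} {N : ℕ} (hX : 0 < X) (hN : 0 < N)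
    (hu : 1 / (N : ℝ) ≤ |u|) : ‖F4.KX X c' u‖ ≤ Real.Gamma 17 * (N / X) ^ 8 := by
  rw [norm_KX]
  have hN' : (0 : ℝ) < N := by exact_mod_cast hN
  have h3 := F4.KXb.one_le_norm (X * u)
  have h4 : ‖1 + ((X * u : ℝ) : ℂ) * I‖ ^ (-c') ≤ ‖1 + ((X * u : ℝ) : ℂ) * I‖ ^ (-(8 : ℝ)) :=
    Real.rpow_le_rpow_of_exponent_le h3 (by linarith)
  have h5 : X / N ≤ ‖1 + ((X * u : ℝ) : ℂ) * I‖ := by
    refine le_trans ?_ (F4.KXb.abs_le_norm (X * u))
    rw [abs_mul, abs_of_pos hX, div_eq_mul_one_div]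
    exact mul_le_mul_of_nonneg_left hu hX.le
  have h6 : ‖1 + ((X * u : ℝ) : ℂ) * I‖ ^ (-(8 : ℝ)) ≤ (X / N) ^ (-(8 : ℝ)) :=
    Real.rpow_le_rpow_of_nonpos (by positivity) h5 (by norm_num)
  have h7 : (X / N) ^ (-(8 : ℝ)) = (N / X : ℝ) ^ 8 := by
    rw [Real.rpow_neg (by positivity)]
    have : (X / N) ^ (8 : ℝ) = (X / N) ^ (8 : ℕ) := by
      rw [← Real.rpow_natCast]
      norm_num
    rw [this, ← inv_pow, inv_div]
  refine mul_le_mul (Gam h1 h2) ?_ (by positivity) (Real.Gamma_pos_of_pos (by norm_num)).le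
  rw [← h7]
  exact h4.trans h6

lemma log_far {m n N : ℕ} (hm : 1 ≤ m) (hn : 1 ≤ n) (hmN : m ≤ N) (hnN : n ≤ N) (hne : m ≠ n) :
    1 / (N : ℝ) ≤ |Real.log ((m : ℝ) / n)| := by
  have key : ∀ a b : ℕ, 1 ≤ a → a ≤ N → b < a → 1 ≤ b → 1 / (N : ℝ) ≤ Real.log ((a : ℝ) / b) := by
    intro a b ha haN hba hb
    have ha' : (0 : ℝ) < a := by exact_mod_cast ha
    have hb' : (0 : ℝ) < b := by exact_mod_cast hb
    have hN' : (0 : ℝ) < N := by exact_mod_cast (lt_of_lt_of_le ha haN)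
    have h1 := Real.one_sub_inv_le_log_of_pos (div_pos ha' hb')
    rw [inv_div] at h1
    refine le_trans ?_ h1
    have h2 : (b : ℝ) + 1 ≤ a := by exact_mod_cast hba
    have h3 : (a : ℝ) ≤ N := by exact_mod_cast haN
    have h4 : 1 / (N : ℝ) ≤ 1 / a := one_div_le_one_div_of_le ha' h3
    have h5 : 1 / (a : ℝ) ≤ 1 - b / a := by
      rw [le_sub_iff_add_le, ← add_div, div_le_one ha']
      linarith
    linarith
  rcases lt_or_gt_of_ne hne with h | h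
  · have h1 := key n m hn hnN h hm
    have h2 : Real.log ((m : ℝ) / n) = -Real.log ((n : ℝ) / m) := by
      rw [← Real.log_inv, inv_div]
    rw [h2, abs_neg]
    exact h1.trans (le_abs_self _)
  · exact (key m n hm hmN h hn).trans (le_abs_self _)

/-- the phase of a pair -/
lemma pair {m n : ℕ} (hm : m ≠ 0) (hn : n ≠ 0) (t : ℝ) :
    fs (1 / 2 + t * I) m * (starRingEnd ℂ) (fs (1 / 2 + t * I) n) =
      (((m : ℝ) ^ (-(1 / 2) : ℝ) * (n : ℝ) ^ (-(1 / 2) : ℝ) : ℝ) : ℂ) *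
        cexp (-((Real.log ((m : ℝ) / n) * t : ℝ) : ℂ) * I) := by
  have hm' : (0 : ℝ) < m := by exact_mod_cast Nat.pos_of_ne_zero hm
  have hn' : (0 : ℝ) < n := by exact_mod_cast Nat.pos_of_ne_zero hn
  rw [F4.Expand.conj_fs hn]
  simp only [fs]
  rw [F4.Expand.npow hm, F4.Expand.npow hn, Real.rpow_def_of_pos hm', Real.rpow_def_of_pos hn',
    Real.log_div hm'.ne' hn'.ne', ← Real.exp_add, ofReal_exp, ← Complex.exp_add,
    ← Complex.exp_add]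
  congr 1
  push_cast
  ring

/-- one term -/
noncomputable def Ft (X c' : ℝ) (b : ℕ → ℂ) (m n : ℕ) (t : ℝ) : ℂ :=
  (b m * (starRingEnd ℂ) (b n) *
    (((m : ℝ) ^ (-(1 / 2) : ℝ) * (n : ℝ) ^ (-(1 / 2) : ℝ) : ℝ) : ℂ)) *
    (cexp (-((Real.log ((m : ℝ) / n) * t : ℝ) : ℂ) * I) * F4.Wt X c' t)

lemma sum_eq {X : ℝ} (hX : 0 < X) (c' : ℝ) (N : ℕ) (b : ℕ → ℂ) {t : ℝ} (ht : 0 < t) :
    ((‖F4.HP N b t‖ ^ 2 * (X⁻¹ * (t / X) ^ (c' - 1) * Real.exp (-(t / X))) : ℝ) : ℂ) =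
      ∑ m ∈ Finset.Icc 1 N, ∑ n ∈ Finset.Icc 1 N, Ft X c' b m n t := by
  rw [ofReal_mul, ← Wt_real hX c' ht, ofReal_pow, ← Complex.mul_conj', F4.HP, map_sum,
    Finset.sum_mul_sum, Finset.sum_mul]
  refine Finset.sum_congr rfl fun m hm => ?_
  rw [Finset.sum_mul]
  refine Finset.sum_congr rfl fun n hn => ?_
  rw [Finset.mem_Icc] at hm hn
  rw [map_mul]
  have h1 := pair (m := m) (n := n) (by omega) (by omega) t
  unfold Ft
  calc b m * fs (1 / 2 + t * I) m * ((starRingEnd ℂ) (b n) *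
        (starRingEnd ℂ) (fs (1 / 2 + t * I) n)) * F4.Wt X c' t =
      b m * (starRingEnd ℂ) (b n) * (fs (1 / 2 + t * I) m *
        (starRingEnd ℂ) (fs (1 / 2 + t * I) n)) * F4.Wt X c' t := by ring
    _ = _ := by rw [h1]; ring

lemma Ft_int {X : ℝ} (hX : 0 < X) {c' : ℝ} (hc : 0 < c') (b : ℕ → ℂ) (m n : ℕ) :
    IntegrableOn (Ft X c' b m n) (Set.Ioi 0) := by
  have h1 := F4.Expand.Wt_int hX (c := (c' : ℂ)) (by simpa using hc)
  refine Integrable.const_mul ?_ _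
  refine Integrable.mono' h1.norm ?_ ?_
  · apply Measurable.aestronglyMeasurable
    have := F4.Expand.measurable_Wt X c'
    fun_prop
  · refine Eventually.of_forall fun t => ?_
    rw [norm_mul, ← ofReal_neg, norm_exp_ofReal_mul_I, one_mul]

lemma Ft_integral {X : ℝ} (hX : 0 < X) {c' : ℝ} (hc : 0 < c') (b : ℕ → ℂ) (m n : ℕ) :
    ∫ t in Set.Ioi (0 : ℝ), Ft X c' b m n t = (b m * (starRingEnd ℂ) (b n) *
      (((m : ℝ) ^ (-(1 / 2) : ℝ) * (n : ℝ) ^ (-(1 / 2) : ℝ) : ℝ) : ℂ)) *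
        F4.KX X c' (Real.log ((m : ℝ) / n)) := by
  unfold Ft
  rw [integral_const_mul, F4.Expand.Wt_fourier hX (by simpa using hc)]

end MSP

open MSP in
theorem stMSP : StMSP := by
  have hG : 0 < Real.Gamma 17 := Real.Gamma_pos_of_pos (by norm_num)
  refine ⟨Real.Gamma 17, hG, ?_⟩
  intro X hX1 c' h1 h2 N b
  have hX : 0 < X := by linarith
  have hc : 0 < c' := by linarith
  set f : ℝ → ℝ := fun t => ‖F4.HP N b t‖ ^ 2 *
    (X⁻¹ * (t / X) ^ (c' - 1) * Real.exp (-(t / X))) with hf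
  set F : ℝ → ℂ := fun t => ∑ m ∈ Finset.Icc 1 N, ∑ n ∈ Finset.Icc 1 N, Ft X c' b m n t with hF
  have hFi : IntegrableOn F (Set.Ioi 0) :=
    integrable_finsetSum _ fun m _ => integrable_finsetSum _ fun n _ => Ft_int hX hc b m n
  have hfF : ∀ t ∈ Set.Ioi (0 : ℝ), F t = ((f t : ℝ) : ℂ) := fun t ht => (sum_eq hX c' N b ht).symm
  have hfi : IntegrableOn f (Set.Ioi 0) := by
    have h3 : IntegrableOn (fun t => (F t).re) (Set.Ioi 0) := hFi.re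
    refine h3.congr_fun (fun t ht => ?_) measurableSet_Ioi
    beta_reduce
    rw [hfF t ht, ofReal_re]
  refine ⟨hfi, ?_⟩
  have h3 : ((∫ t in Set.Ioi (0 : ℝ), f t : ℝ) : ℂ) = ∫ t in Set.Ioi (0 : ℝ), F t := by
    rw [← integral_complex_ofReal]
    exact setIntegral_congr_fun measurableSet_Ioi fun t ht => (hfF t ht).symm
  have h4 : ∫ t in Set.Ioi (0 : ℝ), F t = ∑ m ∈ Finset.Icc 1 N, ∑ n ∈ Finset.Icc 1 N,
      (b m * (starRingEnd ℂ) (b n) *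
      (((m : ℝ) ^ (-(1 / 2) : ℝ) * (n : ℝ) ^ (-(1 / 2) : ℝ) : ℝ) : ℂ)) *
        F4.KX X c' (Real.log ((m : ℝ) / n)) := by
    rw [hF, integral_finsetSum _ fun m _ => integrable_finsetSum _ fun n _ => Ft_int hX hc b m n]
    refine Finset.sum_congr rfl fun m _ => ?_
    rw [integral_finsetSum _ fun n _ => Ft_int hX hc b m n]
    exact Finset.sum_congr rfl fun n _ => Ft_integral hX hc b m n
  have h5 : ∫ t in Set.Ioi (0 : ℝ), f t ≤ ‖∫ t in Set.Ioi (0 : ℝ), F t‖ := by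
    rw [← h3, norm_real]
    exact le_abs_self _
  refine h5.trans ?_
  rw [h4]
  refine (norm_sum_le _ _).trans ?_
  set w : ℕ → ℝ := fun n => ‖b n‖ * (n : ℝ) ^ (-(1 / 2) : ℝ) with hw
  have hw0 : ∀ n, 0 ≤ w n := fun n => by rw [hw]; positivity
  have h6 : ∀ m ∈ Finset.Icc 1 N, ‖∑ n ∈ Finset.Icc 1 N, (b m * (starRingEnd ℂ) (b n) *
      (((m : ℝ) ^ (-(1 / 2) : ℝ) * (n : ℝ) ^ (-(1 / 2) : ℝ) : ℝ) : ℂ)) *
        F4.KX X c' (Real.log ((m : ℝ) / n))‖ ≤ Real.Gamma 17 * (‖b m‖ ^ 2 * (m : ℝ)⁻¹) +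
        Real.Gamma 17 * (N / X) ^ 8 * (w m * ∑ n ∈ Finset.Icc 1 N, w n) := by
    intro m hm
    refine (norm_sum_le _ _).trans ?_
    rw [← Finset.add_sum_erase _ _ hm]
    rw [Finset.mem_Icc] at hm
    have hm0 : (0 : ℝ) < m := by exact_mod_cast hm.1
    have e0 : ∀ n : ℕ, ‖(b m * (starRingEnd ℂ) (b n) *
      (((m : ℝ) ^ (-(1 / 2) : ℝ) * (n : ℝ) ^ (-(1 / 2) : ℝ) : ℝ) : ℂ)) *
        F4.KX X c' (Real.log ((m : ℝ) / n))‖ = (w m * w n) *
        ‖F4.KX X c' (Real.log ((m : ℝ) / n))‖ := by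
      intro n
      rw [norm_mul, norm_mul, norm_mul, RCLike.norm_conj, norm_real, Real.norm_eq_abs,
        abs_of_nonneg (by positivity)]
      rw [hw]
      ring
    refine add_le_add ?_ ?_
    · rw [e0]
      have e1 : w m * w m = ‖b m‖ ^ 2 * (m : ℝ)⁻¹ := by
        rw [hw]
        simp only
        have : (m : ℝ) ^ (-(1 / 2) : ℝ) * (m : ℝ) ^ (-(1 / 2) : ℝ) = (m : ℝ)⁻¹ := by
          rw [← Real.rpow_add hm0, ← Real.rpow_neg_one]
          norm_num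
        rw [← this]
        ring
      rw [e1, mul_comm]
      exact mul_le_mul_of_nonneg_right (diag h1 h2 X _) (by positivity)
    · have h7 : ∀ n ∈ (Finset.Icc 1 N).erase m, ‖(b m * (starRingEnd ℂ) (b n) *
          (((m : ℝ) ^ (-(1 / 2) : ℝ) * (n : ℝ) ^ (-(1 / 2) : ℝ) : ℝ) : ℂ)) *
          F4.KX X c' (Real.log ((m : ℝ) / n))‖ ≤ Real.Gamma 17 * (N / X) ^ 8 * (w m * w n) := by
        intro n hn
        rw [Finset.mem_erase, Finset.mem_Icc] at hn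
        rw [e0, mul_comm]
        refine mul_le_mul_of_nonneg_right ?_ (mul_nonneg (hw0 _) (hw0 _))
        exact far h1 h2 hX (by omega) (log_far hm.1 hn.2.1 hm.2 hn.2.2 (Ne.symm hn.1))
      refine (Finset.sum_le_sum h7).trans ?_
      rw [← Finset.mul_sum, ← Finset.mul_sum]
      refine mul_le_mul_of_nonneg_left ?_ (by positivity)
      refine mul_le_mul_of_nonneg_left ?_ (hw0 _)
      exact Finset.sum_le_sum_of_subset_of_nonneg (Finset.erase_subset _ _) fun n _ _ => hw0 n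
  refine (Finset.sum_le_sum h6).trans (le_of_eq ?_)
  rw [Finset.sum_add_distrib, ← Finset.mul_sum, ← Finset.mul_sum, ← Finset.sum_mul]
  ring

end K7
end Pool.Agent.Lib.MP_973905_nt
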