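import Pool.Agent.Lib.MP_973905_nt.K7.Stmts
import Pool.Agent.Lib.MP_973905_nt.K4.Red

/-! Module R19 of the folder K7, second part: the arithmetic factor of our two cutoffs. -/

namespace Pool.Agent.Lib.MP_973905_nt
namespace K7

open MeasureTheory ProbabilityTheory Complex Filter Topology K1 K4 K5
open scoped ENNReal

namespace MainAW

lemma measurable_norm_un : Measurable fun ξ : ℝ => ‖un 0 ξ‖ := by
  have h : Continuous fun ξ : ℝ => ‖un 0 ξ‖ := by
    unfold un
    fun_prop
  exact h.measurable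

end MainAW

open MainAW in
/-- (R19a) the arithmetic factor, main cutoff -/
theorem stMainA (h : StMainG) (hg : StGhC) (hJ : StJ1) : StMainA := by
  intro κ δ hκ hκ1 hδ hδ1
  obtain ⟨c0, -, -, hb, -⟩ := hg δ hδ hδ1
  refine h κ hκ hκ1 (fC δ 0) c0 (fun ξ => 11 / 4 / ‖un 0 ξ‖) cA ?_
    (fun ξ => hb 0 (Or.inl rfl) c0.cut ξ) (by norm_num [cA]) ?_
  · exact measurable_norm_un.const_div _
  · refine le_trans (le_of_eq ?_) hJ
    refine lintegral_congr fun ξ => lintegral_congr fun η => ?_
    congr 1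
    ring

open MainAW in
/-- (R19b) the arithmetic factor, window -/
theorem stMainW (h : StMainG) (hg : StGhC) (hJ : StJ2) : StMainW := by
  intro κ δ hκ hκ1 hδ hδ1
  obtain ⟨-, -, cw, -, hb⟩ := hg δ hδ hδ1
  refine h κ hκ hκ1 (fW δ) cw mw cW ?_ (fun ξ => hb cw.cut ξ) (by norm_num [cW]) hJ
  exact measurable_const.min (measurable_norm_un.const_div _)

end K7
end Pool.Agent.Lib.MP_973905_nt
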