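import Pool.Agent.Lib.MP_973905_nt.K7.BumpRW

/-! Module R14 of the folder K7: crude bound for the arithmetic factor. -/

namespace Pool.Agent.Lib.MP_973905_nt
namespace K7

open MeasureTheory ProbabilityTheory Complex Filter Topology K1 K4 K5
open scoped ENNReal

namespace MainC7

lemma un_le (x ξ : ℝ) : 1 + ‖un x ξ‖ ≤ 7 * (1 + |x|) * (1 + |ξ|) := by
  have h : ‖un x ξ‖ ≤ 2 + |x| + 7 * |ξ| := Red.norm_zn_le x ξ
  have h1 := abs_nonneg x
  have h2 := abs_nonneg ξ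
  nlinarith [mul_nonneg h1 h2]

end MainC7

open BumpRW MainC7 in
/-- (R14) crude bound for the arithmetic factor -/
theorem stMainC7 (h1 : StRepW) (h2 : StRandW) (h3 : StPB) : StMainC7 := by
  intro κ hκ0 hκ1
  obtain ⟨C, M₁, hR⟩ := h2 κ hκ0 hκ1
  obtain ⟨⟨Cp, Tp, hCp, hTp, hP⟩, -⟩ := h3
  refine ⟨2 * C + 1, fun φ hφ => ?_⟩
  set Kφ : ℝ := ∫ ξ : ℝ, ‖FourG.gh hφ.cut ξ‖ * (1 + |ξ|) ^ C with hKφ
  have hKφ0 : 0 ≤ Kφ := integral_nonneg fun ξ => by positivity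
  set D : ℝ := 49 ^ C * Cp * (Kφ + 1) ^ 2 with hD
  have hD0 : 0 < D := by positivity
  obtain ⟨Me, hMe⟩ := exists_nat_ge (Real.log D)
  obtain ⟨T₂, hT₂, hrep⟩ := h1 φ hφ
  refine ⟨max (max M₁ Me) 7, fun M hM => ?_⟩
  have hM1 : M₁ ≤ M := ((le_max_left _ _).trans (le_max_left _ _)).trans hM
  have hM2 : Me ≤ M := ((le_max_right _ _).trans (le_max_left _ _)).trans hM
  have hM7 : 7 ≤ M := (le_max_right _ _).trans hM
  obtain ⟨T₁, hT₁, hR⟩ := hR M hM1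
  refine ⟨max (max T₁ T₂) (max Tp (Real.exp 3)), (hT₁.trans (le_max_left _ _)).trans
    (le_max_left _ _), fun T hT g h hgh N c hN hW ν a ha => ?_⟩
  have hTT₁ : T₁ ≤ T := ((le_max_left _ _).trans (le_max_left _ _)).trans hT
  have hTT₂ : T₂ ≤ T := ((le_max_right _ _).trans (le_max_left _ _)).trans hT
  have hTTp : Tp ≤ T := ((le_max_left _ _).trans (le_max_right _ _)).trans hT
  have hTe : Real.exp 3 ≤ T := ((le_max_right _ _).trans (le_max_right _ _)).trans hT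
  have hT0 : 0 < T := by linarith
  have hL3 : 3 ≤ Real.log T := by
    rw [Real.le_log_iff_exp_le hT0]; exact hTe
  have hL0 : 0 < Real.log T := by linarith
  have ha1 : ‖a‖ ≤ 1 / Real.log T := by
    rw [ha]
    have : Real.log T ≤ 2 * Real.log T := by linarith
    gcongr
  have hP := (hP T hTTp).2 a ha1
  have hLk : 0 < Real.log T ^ ((1 + κ) ^ 2) := Real.rpow_pos_of_pos hL0 _
  have hss : 0 ≤ ∏ j ∈ h, ss M (JJ T) j := Finset.prod_nonneg fun j _ => (Real.exp_pos _).le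
  set K : ℝ := Real.exp (C * M) * Real.log T ^ ((1 + κ) ^ 2) * ∏ j ∈ h, ss M (JJ T) j with hK
  have hK0 : 0 ≤ K := by positivity
  set P : ℝ := ‖∏ p ∈ PS 0 T, (1 - (p : ℂ) ^ (-(1 + a + a)))‖ with hPdef
  have hP0 : 0 ≤ P := norm_nonneg _
  set y : ℝ := 1 + Real.log T * |ν| with hy
  have hy1 : 1 ≤ y := by
    have : 0 ≤ Real.log T * |ν| := by positivity
    linarith
  have hx : 1 + |Real.log T * ν| = y := by rw [abs_mul, abs_of_pos hL0]
  set B : ℝ := K * (49 ^ C * y ^ (2 * C)) * (Cp / Real.log T) with hB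
  have hB0 : 0 ≤ B := by positivity
  have hpt : ∀ ξ₂ ξ : ℝ, ‖R4W T M (WF κ T M g h) a (Real.log T * ν) ξ₂ ξ‖ * P ≤
      B * (0 * (fun _ : ℝ => (0 : ℝ)) (ξ - ξ₂) + 1 * ((1 + |ξ₂|) ^ C * (1 + |ξ|) ^ C)) := by
    intro ξ₂ ξ
    have c1 := crude (by linarith) M (wf_nonneg hκ0 hκ1 T M g h) (bc_W hW) (C := C) (K := K) hK0
      (fun z hz => by
        refine (hR T hTT₁ g h hgh z hz).trans (le_of_eq ?_)
        rw [hK]
        ring) ha1 (Real.log T * ν) ξ₂ ξ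
    have s1 := un_le (Real.log T * ν) ξ₂
    have s2 := un_le (Real.log T * ν) ξ
    rw [hx] at s1 s2
    calc ‖R4W T M (WF κ T M g h) a (Real.log T * ν) ξ₂ ξ‖ * P ≤
          (K * ((1 + ‖un (Real.log T * ν) ξ₂‖) * (1 + ‖un (Real.log T * ν) ξ‖)) ^ C) *
            (Cp / Real.log T) := by gcongr
      _ ≤ (K * ((7 * y * (1 + |ξ₂|)) * (7 * y * (1 + |ξ|))) ^ C) * (Cp / Real.log T) := by
          gcongr
      _ = B * (0 * (fun _ : ℝ => (0 : ℝ)) (ξ - ξ₂) + 1 * ((1 + |ξ₂|) ^ C * (1 + |ξ|) ^ C)) := by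
          rw [hB, show (7 * y * (1 + |ξ₂|)) * (7 * y * (1 + |ξ|)) =
            49 * (y ^ 2) * ((1 + |ξ₂|) * (1 + |ξ|)) by ring, mul_pow, mul_pow, ← pow_mul,
            mul_pow]
          ring
  have hib := int_bound (g := fun ξ => FourG.gh hφ.cut ξ) (FourG.gh hφ.cut).continuous (A := C)
    (FourG.gh_int hφ.cut C)
    (R := fun ξ₂ ξ => R4W T M (WF κ T M g h) a (Real.log T * ν) ξ₂ ξ) (P := P) (B := B)
    (C₁ := 0) (η := 1) (S := 0) hP0 hB0 le_rfl zero_le_one le_rfl (k := fun _ => 0)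
    (fun _ => le_rfl) hpt (by simp)
  rw [(hrep T hTT₂ M hM7 _ N c hN hW ν a ha1).2.2, norm_mul]
  refine hib.trans ?_
  rw [← hKφ, zero_mul, zero_add, one_mul]
  -- the numbers
  have hDM : D ≤ Real.exp M := by
    rw [← Real.exp_log hD0]
    exact Real.exp_le_exp.2 (hMe.trans (by exact_mod_cast hM2))
  have hLL : Real.log T ^ ((1 + κ) ^ 2) / Real.log T = Real.log T ^ ((1 + κ) ^ 2 - 1) := by
    rw [Real.rpow_sub hL0, Real.rpow_one]
  have hLk1 : 0 < Real.log T ^ ((1 + κ) ^ 2 - 1) := Real.rpow_pos_of_pos hL0 _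
  calc B * Kφ ^ 2 = (49 ^ C * Cp * Kφ ^ 2) * (Real.exp (C * M) * y ^ (2 * C) *
        (Real.log T ^ ((1 + κ) ^ 2) / Real.log T) * ∏ j ∈ h, ss M (JJ T) j) := by
        rw [hB, hK]
        ring
    _ ≤ D * (Real.exp (C * M) * y ^ (2 * C) *
        (Real.log T ^ ((1 + κ) ^ 2) / Real.log T) * ∏ j ∈ h, ss M (JJ T) j) := by
        have : Kφ ^ 2 ≤ (Kφ + 1) ^ 2 := by nlinarith
        rw [hD]
        gcongr
    _ ≤ Real.exp M * (Real.exp (C * M) * y ^ (2 * C + 1) *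
        Real.log T ^ ((1 + κ) ^ 2 - 1) * ∏ j ∈ h, ss M (JJ T) j) := by
        rw [hLL]
        have := pow_le_pow_right₀ hy1 (show 2 * C ≤ 2 * C + 1 by omega)
        gcongr
    _ = (Real.exp M * Real.exp (C * M)) * y ^ (2 * C + 1) *
        Real.log T ^ ((1 + κ) ^ 2 - 1) * ∏ j ∈ h, ss M (JJ T) j := by ring
    _ ≤ Real.exp (((2 * C + 1 : ℕ) : ℝ) * M) * y ^ (2 * C + 1) *
        Real.log T ^ ((1 + κ) ^ 2 - 1) * ∏ j ∈ h, ss M (JJ T) j := by
        have : Real.exp M * Real.exp (C * M) ≤ Real.exp (((2 * C + 1 : ℕ) : ℝ) * M) := by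
          rw [← Real.exp_add]
          apply Real.exp_le_exp.2
          push_cast
          have h5 : (0 : ℝ) ≤ (C : ℝ) * M := by positivity
          linarith
        gcongr

end K7
end Pool.Agent.Lib.MP_973905_nt
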