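import Pool.Agent.Lib.MP_973905_nt.K7.Base
import Pool.Agent.Lib.MP_973905_nt.K4.Red
import Pool.Agent.Lib.MP_973905_nt.K5.Point

/-! Module R19 of the folder K7: the arithmetic factor, general cutoff. -/

namespace Pool.Agent.Lib.MP_973905_nt
namespace K7

open MeasureTheory ProbabilityTheory Complex Filter Topology K1 K4 K5
open scoped ENNReal

namespace MG

/-! ### the shifts -/

lemma un_re (x ξ : ℝ) : (un x ξ).re = 2 := Red.zn_re x ξ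

lemma two_le_un (x ξ : ℝ) : 2 ≤ ‖un x ξ‖ := by
  have h := abs_re_le_norm (un x ξ)
  rw [un_re, abs_of_pos (by norm_num)] at h
  exact h

lemma one_add_un_le (ξ : ℝ) : 1 + ‖un 0 ξ‖ ≤ 7 * (1 + |ξ|) := by
  have h : ‖un 0 ξ‖ ≤ 2 + |(0 : ℝ)| + 7 * |ξ| := Red.norm_zn_le 0 ξ
  rw [abs_zero] at h
  linarith

lemma four_le_add (ξ η : ℝ) : 4 ≤ ‖un 0 ξ + (starRingEnd ℂ) (un 0 η)‖ := by
  have h := abs_re_le_norm (un 0 ξ + (starRingEnd ℂ) (un 0 η))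
  rw [add_re, conj_re, un_re, un_re, abs_of_pos (by norm_num)] at h
  linarith

/-! ### the majorant `qb` -/

lemma exp_501 : Real.exp (501 / 500 * 2) ≤ 19 := by
  have h := Real.exp_one_lt_d9
  have h2 : Real.exp (501 / 500 * 2) ≤ Real.exp (1 * (3 : ℕ)) := by
    apply Real.exp_le_exp.mpr
    norm_num
  have h3 : Real.exp (1 * ((3 : ℕ) : ℝ)) = Real.exp 1 ^ 3 := by
    rw [mul_comm, Real.exp_nat_mul]
  rw [h3] at h2
  have h4 : Real.exp 1 ^ 3 ≤ 2.7182818286 ^ 3 := by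
    gcongr
  norm_num at h4 ⊢
  have h5 : Real.exp (501 / 500 * 2) ≤ Real.exp (2 + 1 / 250) := by
    apply Real.exp_le_exp.mpr; norm_num
  have h6 : Real.exp (1 / 250) ≤ 2 := by
    have := Real.exp_bound_div_one_sub_of_interval (x := 1 / 250) (by norm_num) (by norm_num)
    linarith
  have h7 : Real.exp 2 = Real.exp 1 ^ 2 := by
    rw [← Real.exp_nat_mul]; norm_num
  rw [Real.exp_add, h7] at h5
  have h8 : Real.exp 1 ^ 2 ≤ 2.7182818286 ^ 2 := by gcongr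
  have h9 : Real.exp 1 ^ 2 * Real.exp (1 / 250) ≤ 2.7182818286 ^ 2 * 2 := by gcongr
  norm_num at h9 h5
  linarith

lemma qb_le {y : ℝ} (hy : 0 ≤ y) : qb y ≤ 19 * (1 + y) := by
  unfold qb
  split_ifs with h
  · have h1 : Real.exp (501 / 500 * y) ≤ Real.exp (501 / 500 * 2) := by
      apply Real.exp_le_exp.mpr
      linarith
    have := exp_501
    linarith
  · linarith

lemma om_nonneg (M : ℕ) (u : ℂ) : 0 ≤ om M u := Finset.sum_nonneg fun _ _ => norm_nonneg _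

/-- `exp (om u) ≤ qb` to the right of the line. -/
lemma exp_om_le (h : StOm) (M : ℕ) {u : ℂ} (hu : 0 ≤ u.re) :
    Real.exp (om M u) ≤ qb (tq 0 * ‖u‖) := by
  unfold qb
  split_ifs with h1
  · exact Real.exp_le_exp.mpr (h.1 M u (by linarith))
  · exact h.2 M u hu (not_le.mp h1).le

/-- The majorant of the losses. -/
noncomputable def Qk (ξ η : ℝ) : ℝ :=
  Real.exp (501 / 500 * tq 0) * qb (tq 0 * ‖un 0 ξ‖) * qb (tq 0 * ‖un 0 η‖)

/-- The kernel of the double integral. -/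
noncomputable def Gk (ξ η : ℝ) : ℝ :=
  (113 / 100) ^ 2 * (101 / 100) * (16 / 9) *
    ((Qk ξ η - 1) / (‖un 0 ξ‖ * ‖un 0 η‖ * ‖un 0 ξ + (starRingEnd ℂ) (un 0 η)‖))

lemma exp_sum_le (h : StOm) (M : ℕ) {α : ℂ} (hα : ‖α‖ = 1 / 2) (ξ₂ ξ : ℝ) :
    Real.exp (om M α + om M (un 0 ξ₂) + om M α + om M ((starRingEnd ℂ) (un 0 ξ))) ≤ Qk ξ ξ₂ := by
  have h1 : om M α ≤ 501 / 500 * (tq 0 * (1 / 2)) := by
    rw [← hα]
    refine h.1 M α ?_
    have := (abs_le.mp (abs_re_le_norm α)).1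
    rw [hα] at this
    linarith
  have h2 := exp_om_le h M (u := un 0 ξ₂) (by rw [un_re]; norm_num)
  have h3 := exp_om_le h M (u := (starRingEnd ℂ) (un 0 ξ)) (by rw [conj_re, un_re]; norm_num)
  rw [RCLike.norm_conj] at h3
  have h4 : Real.exp (om M α + om M α) ≤ Real.exp (501 / 500 * tq 0) := by
    apply Real.exp_le_exp.mpr
    linarith
  have e : om M α + om M (un 0 ξ₂) + om M α + om M ((starRingEnd ℂ) (un 0 ξ)) =
      (om M α + om M α) + om M ((starRingEnd ℂ) (un 0 ξ)) + om M (un 0 ξ₂) := by ring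
  rw [e, Real.exp_add, Real.exp_add, Qk]
  have h5 := Real.exp_pos (om M (un 0 ξ₂))
  have h6 := Real.exp_pos (om M ((starRingEnd ℂ) (un 0 ξ)))
  have h7 := Real.exp_pos (om M α + om M α)
  have h8 : 0 ≤ qb (tq 0 * ‖un 0 ξ‖) := h6.le.trans h3
  gcongr

lemma one_le_Qk (h : StOm) (ξ η : ℝ) : 1 ≤ Qk ξ η := by
  have h1 := exp_sum_le h 0 (α := 1 / 2) (by norm_num) η ξ
  refine le_trans (Real.one_le_exp ?_) h1
  have := om_nonneg 0 (1 / 2)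
  have := om_nonneg 0 (un 0 η)
  have := om_nonneg 0 ((starRingEnd ℂ) (un 0 ξ))
  linarith

lemma Qk_le (ξ η : ℝ) : Qk ξ η ≤ 3 * (133 * (1 + |ξ|)) * (133 * (1 + |η|)) := by
  have hq : ∀ ξ : ℝ, qb (tq 0 * ‖un 0 ξ‖) ≤ 133 * (1 + |ξ|) := by
    intro ξ
    have h0 := (Blk7.tq_pos 0).le
    refine (qb_le (by positivity)).trans ?_
    have h1 : tq 0 * ‖un 0 ξ‖ ≤ 1 * ‖un 0 ξ‖ :=
      mul_le_mul_of_nonneg_right Blk7.tq_zero_le (norm_nonneg _)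
    have h2 := one_add_un_le ξ
    linarith
  have hq0 : ∀ ξ : ℝ, 0 ≤ qb (tq 0 * ‖un 0 ξ‖) := by
    intro ξ
    unfold qb
    have := (Blk7.tq_pos 0).le
    split_ifs <;> positivity
  have h3 : Real.exp (501 / 500 * tq 0) ≤ 3 := by
    have h1 : Real.exp (501 / 500 * tq 0) ≤ Real.exp (1 + 1 / 500) := by
      apply Real.exp_le_exp.mpr
      have := Blk7.tq_zero_le
      linarith
    have h6 : Real.exp (1 / 500) ≤ 500 / 499 := by
      have := Real.exp_bound_div_one_sub_of_interval (x := 1 / 500) (by norm_num) (by norm_num)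
      norm_num at this ⊢
      linarith
    rw [Real.exp_add] at h1
    have h8 := Real.exp_one_lt_d9
    have h9 : Real.exp 1 * Real.exp (1 / 500) ≤ 2.7182818286 * (500 / 499) := by
      gcongr
    norm_num at h9 h1 ⊢
    linarith
  unfold Qk
  have := hq0 ξ
  have := hq0 η
  have := hq ξ
  have := hq η
  have : 0 ≤ 133 * (1 + |ξ|) := by positivity
  gcongr

lemma Gk_nonneg (h : StOm) (ξ η : ℝ) : 0 ≤ Gk ξ η := by
  have := one_le_Qk h ξ η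
  have : 0 ≤ Qk ξ η - 1 := by linarith
  unfold Gk
  positivity

/-! ### the crude bounds -/

lemma int_ZW {T : ℝ} {M : ℕ} {W : (ℕ → ℂ) → ℝ} (hW : ∀ f, 0 ≤ W f)
    (bW : BC (SBq T M) (fun f => ((W (tw (1 / 2) f) : ℝ) : ℂ))) {w : ℂ} (hw : -(1 / 2) < w.re) :
    Integrable (fun ω => ‖ZZ (PS 0 T) (tw (1 / 2 + w) (XX (SBq T M) ω))‖ ^ 4 *
      W (tw (1 / 2) (XX (SBq T M) ω))) (PP0 (SBq T M)) := by
  have hb : BC (SBq T M) (fun f => ZZ (PS 0 T) (tw (1 / 2 + w) f)) :=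
    bc_ZZ (fun p hp => XB.prime_PS hp) (by rw [add_re]; norm_num; linarith)
  have h := (((hb.mul hb).mul (hb.mul hb)).mul bW).integrable.norm
  refine h.congr (Filter.Eventually.of_forall fun ω => ?_)
  simp only [norm_mul, norm_real, Real.norm_eq_abs, abs_of_nonneg (hW _)]
  ring

/-- Hoelder for the shifted fourth moment. -/
lemma rw4_le {T : ℝ} {M : ℕ} {W : (ℕ → ℂ) → ℝ} (hW : ∀ f, 0 ≤ W f)
    (bW : BC (SBq T M) (fun f => ((W (tw (1 / 2) f) : ℝ) : ℂ))) {a₁ a₂ b₁ b₂ : ℂ}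
    (h₁ : -(1 / 2) < a₁.re) (h₂ : -(1 / 2) < a₂.re) (h₃ : -(1 / 2) < b₁.re)
    (h₄ : -(1 / 2) < b₂.re) :
    ‖RW4 T M W a₁ a₂ b₁ b₂‖ ≤
      1 / 4 * (ER (SBq T M) (fun f => ‖ZZ (PS 0 T) (tw (1 / 2 + a₁) f)‖ ^ 4 * W (tw (1 / 2) f)) +
        ER (SBq T M) (fun f => ‖ZZ (PS 0 T) (tw (1 / 2 + a₂) f)‖ ^ 4 * W (tw (1 / 2) f)) +
        ER (SBq T M) (fun f => ‖ZZ (PS 0 T) (tw (1 / 2 + (starRingEnd ℂ) b₁) f)‖ ^ 4 *
          W (tw (1 / 2) f)) +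
        ER (SBq T M) (fun f => ‖ZZ (PS 0 T) (tw (1 / 2 + (starRingEnd ℂ) b₂) f)‖ ^ 4 *
          W (tw (1 / 2) f))) := by
  have i1 := int_ZW hW bW h₁
  have i2 := int_ZW hW bW h₂
  have i3 := int_ZW hW bW (w := (starRingEnd ℂ) b₁) (by rwa [conj_re])
  have i4 := int_ZW hW bW (w := (starRingEnd ℂ) b₂) (by rwa [conj_re])
  rw [RW4]
  simp only [ER_eq]
  rw [(Red.int4 i1 i2 i3 i4).2]
  refine (norm_integral_le_integral_norm _).trans ?_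
  refine integral_mono_of_nonneg (Filter.Eventually.of_forall fun ω => norm_nonneg _)
    (Red.int4 i1 i2 i3 i4).1 (Filter.Eventually.of_forall fun ω => ?_)
  simp only [norm_mul, RCLike.norm_conj, norm_real, Real.norm_eq_abs, abs_of_nonneg (hW _)]
  have h := Red.amgm4 ‖ZZ (PS 0 T) (tw (1 / 2 + a₁) (XX (SBq T M) ω))‖
    ‖ZZ (PS 0 T) (tw (1 / 2 + a₂) (XX (SBq T M) ω))‖
    ‖ZZ (PS 0 T) (tw (1 / 2 + (starRingEnd ℂ) b₁) (XX (SBq T M) ω))‖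
    ‖ZZ (PS 0 T) (tw (1 / 2 + (starRingEnd ℂ) b₂) (XX (SBq T M) ω))‖
  have h' := mul_le_mul_of_nonneg_right h (hW (tw (1 / 2) (XX (SBq T M) ω)))
  refine le_trans (le_of_eq ?_) (h'.trans (le_of_eq ?_))
  · ring
  · ring

/-- Crude bound for the shifted fourth moment. -/
lemma crudeW {T : ℝ} (hL : 2 < Real.log T) {M : ℕ} {W : (ℕ → ℂ) → ℝ} (hW : ∀ f, 0 ≤ W f)
    (bW : BC (SBq T M) (fun f => ((W (tw (1 / 2) f) : ℝ) : ℂ))) {C : ℕ} {K : ℝ} (hK : 0 ≤ K)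
    (hR : ∀ z : ℂ, -1 ≤ z.re → ER (SBq T M) (fun f =>
      ‖ZZ (PS 0 T) (tw ((1 / 2 : ℂ) + z / Real.log T) f)‖ ^ 4 * W (tw (1 / 2) f)) ≤
        (1 + ‖z‖) ^ C * K) {a : ℂ} (ha : ‖a‖ ≤ 1 / Real.log T) (x ξ₂ ξ : ℝ) :
    ‖R4W T M W a x ξ₂ ξ‖ ≤ K * ((1 + ‖un x ξ₂‖) * (1 + ‖un x ξ‖)) ^ C := by
  have hL0 : 0 < Real.log T := by linarith
  have hLC : (Real.log T : ℂ) ≠ 0 := by exact_mod_cast hL0.ne'
  have hare : |a.re| ≤ 1 / Real.log T := (abs_re_le_norm a).trans ha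
  have h1L : 1 / Real.log T < 1 / 2 := one_div_lt_one_div_of_lt (by norm_num) hL
  have hare1 := (abs_le.mp hare).1
  have hare' : -(1 / 2) < a.re := by linarith
  have hzr : ∀ η : ℝ, -(1 / 2) < (un x η / (Real.log T : ℂ)).re := by
    intro η
    rw [div_ofReal_re, un_re]
    have : 0 < 2 / Real.log T := by positivity
    linarith
  have hzr' : ∀ η : ℝ, -(1 / 2) < ((starRingEnd ℂ) (un x η) / (Real.log T : ℂ)).re := by
    intro η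
    rw [div_ofReal_re, conj_re, un_re]
    have : 0 < 2 / Real.log T := by positivity
    linarith
  have h := rw4_le hW bW (a₁ := (starRingEnd ℂ) a) (a₂ := un x ξ₂ / Real.log T)
    (b₁ := (starRingEnd ℂ) a) (b₂ := (starRingEnd ℂ) (un x ξ) / Real.log T)
    (by rwa [conj_re]) (hzr ξ₂) (by rwa [conj_re]) (hzr' ξ)
  have hab : ∀ c : ℂ, ‖c‖ ≤ 1 / Real.log T → -(1 / Real.log T) ≤ c.re →
      ER (SBq T M) (fun f => ‖ZZ (PS 0 T) (tw (1 / 2 + c) f)‖ ^ 4 * W (tw (1 / 2) f)) ≤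
        2 ^ C * K := by
    intro c hc hcr
    have := hR (c * Real.log T) (by
      rw [re_mul_ofReal]
      have h' : -(1 / Real.log T) * Real.log T = -1 := by field_simp
      nlinarith)
    rw [mul_div_assoc, div_self hLC, mul_one, norm_mul, norm_real, Real.norm_eq_abs,
      abs_of_pos hL0] at this
    refine this.trans ?_
    have h2 : ‖c‖ * Real.log T ≤ 1 := by
      rw [le_div_iff₀ hL0] at hc
      exact hc
    have h3 : 1 + ‖c‖ * Real.log T ≤ 2 := by linarith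
    gcongr
  have h1 := hab ((starRingEnd ℂ) a) (by rw [RCLike.norm_conj]; exact ha)
    (by rw [conj_re]; linarith)
  have h3 := hab ((starRingEnd ℂ) ((starRingEnd ℂ) a)) (by
    rw [RCLike.norm_conj, RCLike.norm_conj]; exact ha) (by rw [conj_re, conj_re]; linarith)
  have h2 := hR (un x ξ₂) (by rw [un_re]; norm_num)
  have h4 := hR (un x ξ) (by rw [un_re]; norm_num)
  have e4 : (starRingEnd ℂ) ((starRingEnd ℂ) (un x ξ) / (Real.log T : ℂ)) =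
      un x ξ / Real.log T := by
    rw [map_div₀, conj_conj, conj_ofReal]
  rw [e4] at h
  have g2 : ∀ η : ℝ, 2 ≤ 1 + ‖un x η‖ := by
    intro η
    have := two_le_un x η
    linarith
  have g3 : ∀ η : ℝ, (2 : ℝ) ^ C ≤ (1 + ‖un x η‖) ^ C := fun η =>
    pow_le_pow_left₀ (by norm_num) (g2 η) C
  have g4 : ∀ η : ℝ, (1 : ℝ) ≤ (1 + ‖un x η‖) ^ C := fun η =>
    one_le_pow₀ (by linarith [g2 η])
  set P₂ : ℝ := (1 + ‖un x ξ₂‖) ^ C with hP₂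
  set P : ℝ := (1 + ‖un x ξ‖) ^ C with hP
  have k2 := g3 ξ₂
  have k4 := g4 ξ
  have k5 := g4 ξ₂
  rw [mul_pow, ← hP₂, ← hP]
  rw [← hP₂] at k2 k5
  rw [← hP] at k4
  have m1 : (2 : ℝ) ^ C * K ≤ K * (P₂ * P) := by
    calc (2 : ℝ) ^ C * K ≤ P₂ * K := by gcongr
      _ = K * (P₂ * 1) := by ring
      _ ≤ K * (P₂ * P) := by gcongr
  have m2 : P₂ * K ≤ K * (P₂ * P) := by
    calc P₂ * K = K * (P₂ * 1) := by ring
      _ ≤ K * (P₂ * P) := by gcongr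
  have m4 : P * K ≤ K * (P₂ * P) := by
    calc P * K = K * (1 * P) := by ring
      _ ≤ K * (P₂ * P) := by gcongr
  refine h.trans ?_
  have n1 := h1.trans m1
  have n2 := h2.trans m2
  have n3 := h3.trans m1
  have n4 := h4.trans m4
  linarith

/-- The untwisted model, crude bound. -/
lemma oneW (h3 : StOne4) (h5 : StZT) (h6 : StPB) : ∃ C T₀ : ℝ, 0 < C ∧ 3 ≤ T₀ ∧ ∀ T, T₀ ≤ T →
    ∀ M : ℕ, 7 ≤ M → ∀ a : ℂ, ‖a‖ ≤ 1 / Real.log T → ∀ ξ₂ ξ : ℝ,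
    ‖R4W T M (fun _ => 1) a 0 ξ₂ ξ‖ * ‖∏ p ∈ PS 0 T, (1 - (p : ℂ) ^ (-(1 + a + a)))‖ ≤
      C * Real.log T ^ 3 := by
  obtain ⟨⟨C₀, T₁, hC₀, hT₁, hEP⟩, hcan⟩ := h6
  obtain ⟨-, C₁, hC₁, hZT⟩ := h5
  refine ⟨C₀ ^ 3 * C₁, max T₁ (Real.exp 100), by positivity, hT₁.trans (le_max_left _ _),
    fun T hT M hM a ha ξ₂ ξ => ?_⟩
  have hTT₁ : T₁ ≤ T := (le_max_left _ _).trans hT
  have hT3 : 3 ≤ T := hT₁.trans hTT₁
  have hT0 : 0 < T := by linarith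
  have hL : 100 ≤ Real.log T := by
    rw [Real.le_log_iff_exp_le hT0]
    exact (le_max_right _ _).trans hT
  have hL0 : 0 < Real.log T := by linarith
  have h1L : 1 / Real.log T ≤ 1 / 100 := one_div_le_one_div_of_le (by norm_num) hL
  have h1L0 : 0 < 1 / Real.log T := by positivity
  have hare : |a.re| ≤ 1 / Real.log T := (abs_re_le_norm a).trans ha
  have hare1 := (abs_le.mp hare).1
  have e2L : (2 : ℝ) / Real.log T = 1 / Real.log T + 1 / Real.log T := by ring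
  have hu : ∀ η : ℝ, (un 0 η / (Real.log T : ℂ)).re = 2 / Real.log T := by
    intro η
    rw [div_ofReal_re, un_re]
  have hu' : ∀ η : ℝ, ((starRingEnd ℂ) (un 0 η) / (Real.log T : ℂ)).re = 2 / Real.log T := by
    intro η
    rw [div_ofReal_re, conj_re, un_re]
  rw [R4W, h3 T M hT3 hM _ _ _ _ (by rw [conj_re]; linarith) (by rw [hu]; linarith)
    (by rw [conj_re]; linarith) (by rw [hu']; linarith)]
  have hEP := (hEP T hTT₁).1
  have p1 := hcan T a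
  have p2 := hEP ((starRingEnd ℂ) a + (starRingEnd ℂ) (un 0 ξ) / Real.log T) (by
    rw [add_re, conj_re, hu']; linarith)
  have p3 := hEP (un 0 ξ₂ / Real.log T + (starRingEnd ℂ) a) (by
    rw [add_re, conj_re, hu]; linarith)
  have p4 := hEP (un 0 ξ₂ / Real.log T + (starRingEnd ℂ) (un 0 ξ) / Real.log T) (by
    rw [add_re, hu, hu']; linarith)
  have p5 := hZT T hT3 ((starRingEnd ℂ) a + un 0 ξ₂ / Real.log T + (starRingEnd ℂ) a +
    (starRingEnd ℂ) (un 0 ξ) / Real.log T) (by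
      simp only [add_re, conj_re, hu, hu']; linarith)
  rw [norm_mul, norm_mul, norm_mul, norm_mul]
  set X1 := ‖K3.EP T ((starRingEnd ℂ) a + (starRingEnd ℂ) a)‖ with hX1
  set X2 := ‖K3.EP T ((starRingEnd ℂ) a + (starRingEnd ℂ) (un 0 ξ) / Real.log T)‖ with hX2
  set X3 := ‖K3.EP T (un 0 ξ₂ / Real.log T + (starRingEnd ℂ) a)‖ with hX3
  set X4 := ‖K3.EP T (un 0 ξ₂ / Real.log T + (starRingEnd ℂ) (un 0 ξ) / Real.log T)‖ with hX4
  set X5 := ‖ZT T ((starRingEnd ℂ) a + un 0 ξ₂ / Real.log T + (starRingEnd ℂ) a +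
    (starRingEnd ℂ) (un 0 ξ) / Real.log T)‖ with hX5
  set P := ‖∏ p ∈ PS 0 T, (1 - (p : ℂ) ^ (-(1 + a + a)))‖ with hP
  have hX10 : 0 ≤ X1 := norm_nonneg _
  have hX20 : 0 ≤ X2 := norm_nonneg _
  have hX30 : 0 ≤ X3 := norm_nonneg _
  have hX40 : 0 ≤ X4 := norm_nonneg _
  have hX50 : 0 ≤ X5 := norm_nonneg _
  have hP0 : 0 ≤ P := norm_nonneg _
  calc X1 * X2 * X3 * X4 * X5 * P = (X1 * P) * (X2 * X3 * X4 * X5) := by ring
    _ ≤ 1 * ((C₀ * Real.log T) * (C₀ * Real.log T) * (C₀ * Real.log T) * C₁) := by gcongr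
    _ = _ := by ring

/-! ### the main factor from below -/

lemma e_lt {κ : ℝ} (hκ : 0 < κ) (hκ1 : κ < 1) : -3 < (1 + κ) ^ 2 - 4 ∧ (1 + κ) ^ 2 - 4 < 0 := by
  constructor <;> nlinarith

lemma BF_ge (hA : StAK7) (hr : K5.StRho) {κ : ℝ} (hκ : 0 < κ) (hκ1 : κ < 1) : ∃ C : ℕ,
    ∀ M : ℕ, 1 ≤ M → ∀ T : ℝ, 1 < T → 0 < BF κ T M ∧
      Real.log T ^ ((1 + κ) ^ 2 - 4) ≤ Real.exp (C * M) * BF κ T M := by
  obtain ⟨-, -, -, C, hC1, hCa, -⟩ := hr κ hκ hκ1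
  obtain ⟨ha, -⟩ := hA (1 + κ) (by linarith) (by linarith)
  have hC0 : 0 < C := by linarith
  obtain ⟨e1, e2⟩ := e_lt hκ hκ1
  set e : ℝ := (1 + κ) ^ 2 - 4 with he
  set D : ℝ := (aK (1 + κ) * (Real.pi ^ 2 / 6))⁻¹ * Real.exp 3 with hD
  have hD0 : 0 < D := by positivity
  obtain ⟨n, hn⟩ := exists_nat_ge (|Real.log D| + Real.log C)
  refine ⟨n, fun M hM T hT => ?_⟩
  have hL : 0 < Real.log T := Real.log_pos hT
  have hMr : (1 : ℝ) ≤ M := by exact_mod_cast hM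
  have hprod : C⁻¹ ^ M ≤ ∏ i ∈ Finset.range (M - 6), aF κ i := by
    calc C⁻¹ ^ M ≤ C⁻¹ ^ (M - 6) :=
          pow_le_pow_of_le_one (by positivity) (inv_le_one_of_one_le₀ hC1) (by omega)
      _ = ∏ _i ∈ Finset.range (M - 6), C⁻¹ := by rw [Finset.prod_const, Finset.card_range]
      _ ≤ _ := Finset.prod_le_prod (fun _ _ => by positivity) fun i _ => (hCa i).1
  have hCM : 0 < C⁻¹ ^ M := by positivity
  have hlM : 0 < lM T M := by unfold lM; positivity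
  have hD4 : Real.exp (-3) * (aK (1 + κ) * (Real.pi ^ 2 / 6)) * Real.log T ^ e ≤ D4 κ T M := by
    unfold D4
    rw [← he]
    have h1 : lM T M ^ e = Real.exp ((Real.eulerMascheroniConstant - M) * e) *
        Real.log T ^ e := by
      unfold lM
      rw [Real.mul_rpow (Real.exp_pos _).le hL.le, ← Real.exp_mul]
    have h2 : Real.exp (-3) ≤ Real.exp ((Real.eulerMascheroniConstant - M) * e) := by
      apply Real.exp_le_exp.mpr
      have h3 := Real.one_half_lt_eulerMascheroniConstant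
      have h4 := Real.eulerMascheroniConstant_lt_two_thirds
      nlinarith
    rw [h1]
    have h5 : 0 ≤ Real.log T ^ e := (Real.rpow_pos_of_pos hL _).le
    calc Real.exp (-3) * (aK (1 + κ) * (Real.pi ^ 2 / 6)) * Real.log T ^ e =
        aK (1 + κ) * (Real.pi ^ 2 / 6) * (Real.exp (-3) * Real.log T ^ e) := by ring
      _ ≤ _ := by gcongr
  have hD4p : 0 < D4 κ T M := by
    refine lt_of_lt_of_le ?_ hD4
    have := Real.rpow_pos_of_pos hL e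
    positivity
  have hBF : 0 < BF κ T M := mul_pos hD4p (lt_of_lt_of_le hCM hprod)
  refine ⟨hBF, ?_⟩
  have h6 : Real.exp (-3) * (aK (1 + κ) * (Real.pi ^ 2 / 6)) * Real.log T ^ e * C⁻¹ ^ M ≤
      BF κ T M := by
    unfold BF
    gcongr
  have h7 : D * C ^ M ≤ Real.exp (n * M) := by
    have h8 : D ≤ Real.exp (|Real.log D| * M) := by
      calc D = Real.exp (Real.log D) := (Real.exp_log hD0).symm
        _ ≤ Real.exp (|Real.log D| * M) := by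
          apply Real.exp_le_exp.mpr
          have := le_abs_self (Real.log D)
          have := abs_nonneg (Real.log D)
          nlinarith
    have h9 : C ^ M = Real.exp (Real.log C * M) := by
      rw [mul_comm, Real.exp_nat_mul, Real.exp_log hC0]
    calc D * C ^ M ≤ Real.exp (|Real.log D| * M) * Real.exp (Real.log C * M) := by
          rw [h9]; gcongr
      _ = Real.exp ((|Real.log D| + Real.log C) * M) := by rw [← Real.exp_add]; congr 1; ring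
      _ ≤ Real.exp (n * M) := by
          apply Real.exp_le_exp.mpr
          gcongr
  have h10 : Real.log T ^ e = D * C ^ M *
      (Real.exp (-3) * (aK (1 + κ) * (Real.pi ^ 2 / 6)) * Real.log T ^ e * C⁻¹ ^ M) := by
    rw [hD, Real.exp_neg]
    have h11 := Real.exp_pos 3
    have h12 : C ^ M * C⁻¹ ^ M = 1 := by
      rw [← mul_pow, mul_inv_cancel₀ hC0.ne', one_pow]
    have h13 : 0 < aK (1 + κ) * (Real.pi ^ 2 / 6) := by positivity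
    calc Real.log T ^ e = 1 * 1 * 1 * Real.log T ^ e := by ring
      _ = ((aK (1 + κ) * (Real.pi ^ 2 / 6))⁻¹ * (aK (1 + κ) * (Real.pi ^ 2 / 6))) *
          (Real.exp 3 * (Real.exp 3)⁻¹) * (C ^ M * C⁻¹ ^ M) * Real.log T ^ e := by
          rw [inv_mul_cancel₀ h13.ne', mul_inv_cancel₀ h11.ne', h12]
      _ = _ := by ring
  rw [h10]
  gcongr

/-! ### the pointwise comparison -/

lemma near_arith {B κ η₁ ε L P S Q X1 X2 X3 X4 Z n1 n2 n3 pz D : ℝ} (hB : 0 ≤ B) (hκ : κ ≤ 1)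
    (hη : 0 ≤ η₁) (hL : 0 ≤ L) (hP : 0 ≤ P) (hS : 1 ≤ S) (hSQ : S ≤ Q) (hn1 : 0 ≤ n1)
    (hn2 : 0 ≤ n2) (hn3 : 0 ≤ n3) (hX1 : 0 ≤ X1) (hX2 : 0 ≤ X2) (hX3 : 0 ≤ X3) (hX4 : 0 ≤ X4) (hZ : 0 ≤ Z) (h1 : X1 * P ≤ 1)
    (h2 : X2 ≤ 113 / 100 * (4 / 3 * (L / n1))) (h3 : X3 ≤ 113 / 100 * (4 / 3 * (L / n2)))
    (h4 : X4 ≤ 101 / 100 * (L / n3)) (h5 : Z ≤ (1 + ε) * pz)
    (hD : D ≤ B * ((1 - κ) * (S - 1) + η₁ * S) * (X1 * X2 * X3 * X4) * Z) :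
    D * P ≤ B * L ^ 3 * pz * ((1 + ε) * (1 - κ) * ((113 / 100) ^ 2 * (101 / 100) * (16 / 9) *
      ((Q - 1) / (n1 * n2 * n3))) + (1 + ε) * η₁ * ((113 / 100) ^ 2 * (101 / 100) * (16 / 9) *
      (Q / (n1 * n2 * n3)))) := by
  have hκ' : 0 ≤ 1 - κ := by linarith
  have hS' : 0 ≤ S - 1 := by linarith
  have hQ' : 0 ≤ Q - 1 := by linarith
  have hQ : 0 ≤ Q := by linarith
  have hXP : 0 ≤ X1 * P := mul_nonneg hX1 hP
  have hq1 : 0 ≤ 113 / 100 * (4 / 3 * (L / n1)) := hX2.trans h2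
  have hq2 : 0 ≤ 113 / 100 * (4 / 3 * (L / n2)) := hX3.trans h3
  have hq3 : 0 ≤ 101 / 100 * (L / n3) := hX4.trans h4
  have hq4 : 0 ≤ B * ((1 - κ) * (Q - 1) + η₁ * Q) := by positivity
  have hq5 : 0 ≤ X2 * X3 := mul_nonneg hX2 hX3
  have hq6 : 0 ≤ B * ((1 - κ) * (Q - 1) + η₁ * Q) * 1 *
      (113 / 100 * (4 / 3 * (L / n1)) * (113 / 100 * (4 / 3 * (L / n2))) * (101 / 100 * (L / n3))) :=
    by positivity
  calc D * P ≤ (B * ((1 - κ) * (S - 1) + η₁ * S) * (X1 * X2 * X3 * X4) * Z) * P := by gcongr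
    _ = B * ((1 - κ) * (S - 1) + η₁ * S) * (X1 * P) * (X2 * X3 * X4) * Z := by ring
    _ ≤ B * ((1 - κ) * (Q - 1) + η₁ * Q) * 1 * ((113 / 100 * (4 / 3 * (L / n1))) *
          (113 / 100 * (4 / 3 * (L / n2))) * (101 / 100 * (L / n3))) * ((1 + ε) * pz) := by
        gcongr
    _ = _ := by
        simp only [div_eq_mul_inv, mul_inv]
        ring

lemma far_arith {A C C' : ℕ} (hA : A = C + 2 * (C + C' + 1)) {B L Lk Lk4 P X Y R z EM EC EC' Cp C₁ ε pz : ℝ} (hB : 0 < B)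
    (hL : 0 < L) (hP0 : 0 ≤ P) (hR : 1 ≤ R) (hEM : 0 < EM) (hEC : 0 ≤ EC)
    (hLk : 0 ≤ Lk) (hCp : 0 < Cp) (hC₁ : 0 < C₁) (hε : 0 < ε) (hz : 0 ≤ z)
    (h1 : X ≤ EC * Lk * R ^ C) (hP : P ≤ Cp / L) (hLL : Lk * (1 / L) = Lk4 * L ^ 3)
    (hB' : Lk4 ≤ EC' * B) (h2 : Y * P ≤ C₁ * L ^ 3)
    (hexp : EC * EC' * EM ≤ R ^ (2 * (C + C' + 1))) (hfar : EM ≤ R ^ 2) (hRz : R ≤ 49 * z)
    (h14 : (Cp + C₁) * 49 ^ A ≤ 1 / 2 * ε * EM) (hpz : 1 / 2 ≤ pz) :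
    (X + B * Y) * P ≤ B * L ^ 3 * pz * (ε * z ^ A) := by
  have hR0 : 0 ≤ R := by linarith
  have f1 : X * P * EM ≤ Cp * R ^ A * (B * L ^ 3) := by
    calc X * P * EM ≤ (EC * Lk * R ^ C) * P * EM := by gcongr
      _ ≤ (EC * Lk * R ^ C) * (Cp / L) * EM := by gcongr
      _ = Cp * R ^ C * EC * EM * (Lk * (1 / L)) := by ring
      _ = Cp * R ^ C * EC * EM * (Lk4 * L ^ 3) := by rw [hLL]
      _ ≤ Cp * R ^ C * EC * EM * ((EC' * B) * L ^ 3) := by gcongr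
      _ = Cp * R ^ C * (EC * EC' * EM) * (B * L ^ 3) := by ring
      _ ≤ Cp * R ^ C * R ^ (2 * (C + C' + 1)) * (B * L ^ 3) := by gcongr
      _ = _ := by rw [hA, pow_add R C]; ring
  have f2 : (B * Y) * P * EM ≤ C₁ * R ^ A * (B * L ^ 3) := by
    have h13 : EM ≤ R ^ A := hfar.trans (pow_le_pow_right₀ hR (by omega))
    calc (B * Y) * P * EM = B * (Y * P) * EM := by ring
      _ ≤ B * (C₁ * L ^ 3) * R ^ A := by gcongr
      _ = _ := by ring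
  have f5 : (Cp + C₁) * R ^ A * (B * L ^ 3) ≤ B * L ^ 3 * pz * (ε * z ^ A) * EM := by
    calc (Cp + C₁) * R ^ A * (B * L ^ 3) ≤ (Cp + C₁) * (49 * z) ^ A * (B * L ^ 3) := by gcongr
      _ = ((Cp + C₁) * 49 ^ A) * z ^ A * (B * L ^ 3) := by rw [mul_pow]; ring
      _ ≤ (1 / 2 * ε * EM) * z ^ A * (B * L ^ 3) := by gcongr
      _ = B * L ^ 3 * (1 / 2) * (ε * z ^ A) * EM := by ring
      _ ≤ _ := by gcongr
  refine le_of_mul_le_mul_right ?_ hEM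
  calc (X + B * Y) * P * EM = X * P * EM + (B * Y) * P * EM := by ring
    _ ≤ Cp * R ^ A * (B * L ^ 3) + C₁ * R ^ A * (B * L ^ 3) := add_le_add f1 f2
    _ = (Cp + C₁) * R ^ A * (B * L ^ 3) := by ring
    _ ≤ _ := f5

lemma pi_sq_bd : (1 : ℝ) / 2 ≤ 6 / Real.pi ^ 2 := by
  rw [div_le_div_iff₀ (by norm_num) (by positivity)]
  have h1 := Real.pi_lt_d2
  have h2 := Real.pi_pos
  nlinarith

lemma exp_pow_bd {C C' M : ℕ} {R : ℝ} (h : Real.exp M ≤ R ^ 2) :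
    Real.exp (C * M) * Real.exp (C' * M) * Real.exp M ≤ R ^ (2 * (C + C' + 1)) := by
  calc Real.exp (C * M) * (Real.exp (C' * M)) * Real.exp M = Real.exp M ^ (C + C' + 1) := by
        rw [← Real.exp_add, ← Real.exp_add, ← Real.exp_nat_mul]
        congr 1
        push_cast
        ring
    _ ≤ (R ^ 2) ^ (C + C' + 1) := pow_le_pow_left₀ (Real.exp_pos _).le h _
    _ = _ := by rw [← pow_mul]

lemma log_pow {κ L : ℝ} (hL0 : 0 < L) :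
    L ^ ((1 + κ) ^ 2) * (1 / L) = L ^ ((1 + κ) ^ 2 - 4) * L ^ 3 := by
  have e1 : L ^ ((1 + κ) ^ 2) = L ^ ((1 + κ) ^ 2 - 4) * L ^ 4 := by
    rw [← Real.rpow_natCast L 4, ← Real.rpow_add hL0]
    congr 1
    push_cast
    ring
  rw [e1]
  field_simp

lemma far_size {M : ℕ} {x y : ℝ} (hx : 0 ≤ x) (hy : 0 ≤ y)
    (h : ¬ (x ≤ Real.exp ((M : ℝ) / 2) ∧ y ≤ Real.exp ((M : ℝ) / 2))) :
    Real.exp M ≤ ((1 + x) * (1 + y)) ^ 2 := by
  have h11 : Real.exp M = Real.exp ((M : ℝ) / 2) ^ 2 := by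
    rw [← Real.exp_nat_mul]
    congr 1
    push_cast
    ring
  rw [h11]
  have h12 : Real.exp ((M : ℝ) / 2) ≤ (1 + x) * (1 + y) := by
    rw [not_and_or, not_le, not_le] at h
    have := mul_nonneg hx hy
    rcases h with h | h <;> linarith
  exact pow_le_pow_left₀ (Real.exp_pos _).le h12 2

lemma R_bd (ξ₂ ξ : ℝ) : 1 ≤ (1 + ‖un 0 ξ₂‖) * (1 + ‖un 0 ξ‖) ∧
    (1 + ‖un 0 ξ₂‖) * (1 + ‖un 0 ξ‖) ≤ 49 * ((1 + |ξ₂|) * (1 + |ξ|)) := by
  have g1 := norm_nonneg (un 0 ξ)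
  have g2 := norm_nonneg (un 0 ξ₂)
  constructor
  · exact one_le_mul_of_one_le_of_one_le (by linarith) (by linarith)
  · calc (1 + ‖un 0 ξ₂‖) * (1 + ‖un 0 ξ‖) ≤ (7 * (1 + |ξ₂|)) * (7 * (1 + |ξ|)) := by
          have g2 := one_add_un_le ξ₂
          have g1 := one_add_un_le ξ
          gcongr
      _ = _ := by ring

lemma WF_nonneg {κ : ℝ} (hκ : 0 < κ) (hκ1 : κ < 1) (T : ℝ) (M : ℕ) (g h : Finset ℕ)
    (f : ℕ → ℂ) : 0 ≤ WF κ T M g h f :=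
  mul_nonneg (sq_nonneg _) (Finset.prod_nonneg fun i _ => (K5.stPoint κ i _ hκ hκ1).1.le)

lemma bc_WF {T : ℝ} {M N : ℕ} {c : ℕ → ℕ → ℂ} {W : (ℕ → ℂ) → ℝ}
    (hW : ∀ f, CMul f → ((W f : ℝ) : ℂ) = GB N c f) :
    BC (SBq T M) (fun f => ((W (tw (1 / 2) f) : ℝ) : ℂ)) := by
  have b1 : BC (SBq T M) (fun f => GB N c (tw (1 / 2) f)) := by
    unfold GB
    refine bc_sum _ fun m _ => bc_sum _ fun n _ => BC.const_mul ?_ _
    exact ((bc_apply m).const_mul _).mul ((bc_apply n).const_mul _).conj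
  exact F4.Main4.bc_congr b1 fun ω => (hW _ (cmul_tw (cmul_XX _ ω) _)).symm

/-- The far case. -/
lemma far {κ T : ℝ} (hκ : 0 < κ) (hκ1 : κ < 1) {M : ℕ} {A C C' : ℕ}
    (hA : A = C + 2 * (C + C' + 1)) {Cp C₁ ε : ℝ} (hCp : 0 < Cp) (hC₁ : 0 < C₁) (hε : 0 < ε)
    (hL : 100 ≤ Real.log T) (hBFp : 0 < BF κ T M)
    (hBFge : Real.log T ^ ((1 + κ) ^ 2 - 4) ≤ Real.exp (C' * M) * BF κ T M)
    (hR : ∀ z : ℂ, -1 ≤ z.re →
      ER (SBq T M) (fun f => ‖ZZ (PS 0 T) (tw ((1 / 2 : ℂ) + z / Real.log T) f)‖ ^ 4 *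
        WF κ T M (Finset.range (JJ T + 1)) ∅ (tw (1 / 2) f)) ≤
      Real.exp (C * M) * (1 + ‖z‖) ^ C * Real.log T ^ ((1 + κ) ^ 2) *
        ∏ j ∈ (∅ : Finset ℕ), ss M (JJ T) j) {N : ℕ} {c : ℕ → ℕ → ℂ}
    (hW : ∀ f, CMul f → ((WF κ T M (Finset.range (JJ T + 1)) ∅ f : ℝ) : ℂ) = GB N c f) {a : ℂ}
    (haL : ‖a‖ ≤ 1 / Real.log T) {P : ℝ} (hP0 : 0 ≤ P) (hP : P ≤ Cp / Real.log T) {ξ₂ ξ : ℝ}
    (hone : ‖R4W T M (fun _ => 1) a 0 ξ₂ ξ‖ * P ≤ C₁ * Real.log T ^ 3)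
    (h14 : (Cp + C₁) * 49 ^ A ≤ 1 / 2 * ε * Real.exp M)
    (hcase : ¬ (‖un 0 ξ₂‖ ≤ Real.exp ((M : ℝ) / 2) ∧ ‖un 0 ξ‖ ≤ Real.exp ((M : ℝ) / 2))) :
    ‖R4W T M (WF κ T M (Finset.range (JJ T + 1)) ∅) a 0 ξ₂ ξ -
      ((BF κ T M : ℝ) : ℂ) * R4W T M (fun _ => 1) a 0 ξ₂ ξ‖ * P ≤
    BF κ T M * Real.log T ^ 3 * (6 / Real.pi ^ 2) *
      (ε * ((1 + |ξ₂|) ^ A * (1 + |ξ|) ^ A)) := by
  have hL0 : 0 < Real.log T := by linarith
  have hfar := far_size (norm_nonneg _) (norm_nonneg _) hcase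
  obtain ⟨hR1, hRle⟩ := R_bd ξ₂ ξ
  have hLk : 0 < Real.log T ^ ((1 + κ) ^ 2) := Real.rpow_pos_of_pos hL0 _
  have hcr := crudeW (C := C) (K := Real.exp (C * M) * Real.log T ^ ((1 + κ) ^ 2))
    (by linarith) (WF_nonneg hκ hκ1 T M _ _) (bc_WF hW)
    (mul_nonneg (Real.exp_pos _).le hLk.le) (fun z hz => by
      have := hR z hz
      rw [Finset.prod_empty, mul_one] at this
      refine this.trans (le_of_eq ?_)
      ring) haL 0 ξ₂ ξ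
  have f3 : ‖R4W T M (WF κ T M (Finset.range (JJ T + 1)) ∅) a 0 ξ₂ ξ -
      ((BF κ T M : ℝ) : ℂ) * R4W T M (fun _ => 1) a 0 ξ₂ ξ‖ ≤
      ‖R4W T M (WF κ T M (Finset.range (JJ T + 1)) ∅) a 0 ξ₂ ξ‖ +
        BF κ T M * ‖R4W T M (fun _ => 1) a 0 ξ₂ ξ‖ := by
    refine (norm_sub_le _ _).trans ?_
    rw [norm_mul, norm_real, Real.norm_eq_abs, abs_of_pos hBFp]
  have hfin := far_arith hA (P := P) (z := (1 + |ξ₂|) * (1 + |ξ|)) (EC := Real.exp (C * M))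
    (EC' := Real.exp (C' * M)) hBFp hL0 hP0 hR1 (Real.exp_pos _)
    (Real.exp_pos _).le hLk.le hCp hC₁ hε (by positivity) hcr hP (log_pow hL0) hBFge hone
    (exp_pow_bd hfar) hfar hRle h14 pi_sq_bd
  refine (mul_le_mul_of_nonneg_right f3 hP0).trans (hfin.trans (le_of_eq ?_))
  rw [mul_pow]

lemma key (h2 : StCmp4) (h3 : StOne4) (h4 : StEP7) (h5 : StZT) (h6 : StPB) (h7 : StRandW)
    (h8 : StOm) (hA : StAK7) (hr : K5.StRho) {κ : ℝ} (hκ : 0 < κ) (hκ1 : κ < 1) : ∃ A : ℕ,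
    ∀ ε : ℝ, 0 < ε → ∃ M₀ : ℕ, 7 ≤ M₀ ∧ ∀ M : ℕ, M₀ ≤ M → ∃ T₀ : ℝ, 3 ≤ T₀ ∧ ∀ T, T₀ ≤ T →
    0 < BF κ T M ∧ ∀ (N : ℕ) (c : ℕ → ℕ → ℂ),
    (∀ f, CMul f → ((WF κ T M (Finset.range (JJ T + 1)) ∅ f : ℝ) : ℂ) = GB N c f) →
    ∀ a : ℂ, ‖a‖ = 1 / (2 * Real.log T) → ∀ ξ₂ ξ : ℝ,
    ‖R4W T M (WF κ T M (Finset.range (JJ T + 1)) ∅) a 0 ξ₂ ξ -
      ((BF κ T M : ℝ) : ℂ) * R4W T M (fun _ => 1) a 0 ξ₂ ξ‖ *
      ‖∏ p ∈ PS 0 T, (1 - (p : ℂ) ^ (-(1 + a + a)))‖ ≤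
    BF κ T M * Real.log T ^ 3 * (6 / Real.pi ^ 2) * ((1 + ε) * (1 - κ) * Gk ξ ξ₂ +
      ε * ((1 + |ξ₂|) ^ A * (1 + |ξ|) ^ A)) := by
  obtain ⟨C, Mc, hR⟩ := h7 κ hκ hκ1
  obtain ⟨C₁, T₁, hC₁, hT₁, hone⟩ := oneW h3 h5 h6
  obtain ⟨C', hBF⟩ := BF_ge hA hr hκ hκ1
  obtain ⟨⟨Cp, T₂, hCp, hT₂, hPB⟩, hcan⟩ := h6
  obtain ⟨A, hAdef⟩ : ∃ A : ℕ, A = C + 2 * (C + C' + 1) := ⟨_, rfl⟩
  refine ⟨A, fun ε hε => ?_⟩
  obtain ⟨η₁, hη₁⟩ : ∃ η₁ : ℝ, η₁ = ε / ((1 + ε) * 10000) := ⟨_, rfl⟩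
  have hη₁p : 0 < η₁ := by rw [hη₁]; positivity
  obtain ⟨Mr, hMr, hcmp⟩ := h2 κ hκ hκ1 η₁ hη₁p
  obtain ⟨D₀, hD₀⟩ : ∃ D₀ : ℝ, D₀ = 2 * ((Cp + C₁) * 49 ^ A) / ε := ⟨_, rfl⟩
  have hD₀p : 0 < D₀ := by rw [hD₀]; positivity
  obtain ⟨Me, hMe⟩ := exists_nat_ge (Real.log D₀)
  refine ⟨max (max Mc Mr) (max Me 7), by
    have := le_max_right Me 7
    have := le_max_right (max Mc Mr) (max Me 7)
    omega, fun M hM => ?_⟩
  have hM1 : Mc ≤ M := ((le_max_left _ _).trans (le_max_left _ _)).trans hM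
  have hM2 : Mr ≤ M := ((le_max_right _ _).trans (le_max_left _ _)).trans hM
  have hM3 : Me ≤ M := ((le_max_left _ _).trans (le_max_right _ _)).trans hM
  have hM4 : 7 ≤ M := ((le_max_right _ _).trans (le_max_right _ _)).trans hM
  obtain ⟨T₃, hT₃, hR⟩ := hR M hM1
  obtain ⟨T₄, hT₄, hcmp⟩ := hcmp M hM2
  obtain ⟨E, hE⟩ : ∃ E : ℝ, E = Real.exp ((M : ℝ) / 2) := ⟨_, rfl⟩
  rw [← hE] at hcmp
  have hE1 : 1 ≤ E := by rw [hE]; exact Real.one_le_exp (by positivity)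
  obtain ⟨T₅, hT₅, hEP⟩ := h4 (2 * E + 1) (by positivity)
  obtain ⟨T₆, hT₆, hZT⟩ := h5.1 (2 * E + 1) ε (by positivity) hε
  refine ⟨max (max (max T₁ T₂) (max T₃ T₄)) (max (max T₅ T₆) (Real.exp 100)),
    hT₁.trans (((le_max_left _ _).trans (le_max_left _ _)).trans (le_max_left _ _)),
    fun T hT => ?_⟩
  have t1 : T₁ ≤ T := (((le_max_left _ _).trans (le_max_left _ _)).trans (le_max_left _ _)).trans hT
  have t2 : T₂ ≤ T := (((le_max_right _ _).trans (le_max_left _ _)).trans (le_max_left _ _)).trans hT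
  have t3 : T₃ ≤ T := (((le_max_left _ _).trans (le_max_right _ _)).trans (le_max_left _ _)).trans hT
  have t4 : T₄ ≤ T := (((le_max_right _ _).trans (le_max_right _ _)).trans (le_max_left _ _)).trans hT
  have t5 : T₅ ≤ T := (((le_max_left _ _).trans (le_max_left _ _)).trans (le_max_right _ _)).trans hT
  have t6 : T₆ ≤ T := (((le_max_right _ _).trans (le_max_left _ _)).trans (le_max_right _ _)).trans hT
  have t7 : Real.exp 100 ≤ T := ((le_max_right _ _).trans (le_max_right _ _)).trans hT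
  have hT3 : 3 ≤ T := hT₁.trans t1
  have hT0 : 0 < T := by linarith
  have hT1 : 1 < T := by linarith
  have hL : 100 ≤ Real.log T := by
    rw [Real.le_log_iff_exp_le hT0]
    exact t7
  have hL0 : 0 < Real.log T := by linarith
  obtain ⟨hBFp, hBFge⟩ := hBF M (by omega) T hT1
  refine ⟨hBFp, fun N c hW a ha ξ₂ ξ => ?_⟩
  have hLC : (Real.log T : ℂ) ≠ 0 := by exact_mod_cast hL0.ne'
  have haL : ‖a‖ ≤ 1 / Real.log T := by
    rw [ha]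
    apply one_div_le_one_div_of_le hL0
    linarith
  have hcan := hcan T a
  have hP := (hPB T t2).2 a haL
  have hone := hone T t1 M hM4 a haL ξ₂ ξ
  set P : ℝ := ‖∏ p ∈ PS 0 T, (1 - (p : ℂ) ^ (-(1 + a + a)))‖ with hPdef
  have hP0 : 0 ≤ P := norm_nonneg _
  have hz1 : (1 : ℝ) ≤ 1 + |ξ| := by linarith [abs_nonneg ξ]
  have hz2 : (1 : ℝ) ≤ 1 + |ξ₂| := by linarith [abs_nonneg ξ₂]
  have hpi := pi_sq_bd
  have hGk := Gk_nonneg h8 ξ ξ₂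
  have hκ' : 0 < 1 - κ := by linarith
  by_cases hcase : ‖un 0 ξ₂‖ ≤ Real.exp ((M : ℝ) / 2) ∧ ‖un 0 ξ‖ ≤ Real.exp ((M : ℝ) / 2)
  · -- near case
    rw [← hE] at hcase
    obtain ⟨n1, n2⟩ := hcase
    set α : ℂ := (starRingEnd ℂ) a * Real.log T with hα
    have hαn : ‖α‖ = 1 / 2 := by
      rw [hα, norm_mul, RCLike.norm_conj, ha, norm_real, Real.norm_eq_abs, abs_of_pos hL0]
      field_simp
    have hαL : α / (Real.log T : ℂ) = (starRingEnd ℂ) a := by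
      rw [hα, mul_div_assoc, div_self hLC, mul_one]
    have hαr : -(1 / 2) ≤ α.re := by
      have := (abs_le.mp (abs_re_le_norm α)).1
      rw [hαn] at this
      linarith
    have h := hcmp T t4 α (un 0 ξ₂) α ((starRingEnd ℂ) (un 0 ξ)) (by rw [hαn]; linarith) n1
      (by rw [hαn]; linarith) (by rw [RCLike.norm_conj]; exact n2)
    have e1 : (α + α) / (Real.log T : ℂ) = (starRingEnd ℂ) a + (starRingEnd ℂ) a := by
      rw [add_div, hαL]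
    rw [e1, hαL] at h
    have hsum := exp_sum_le h8 M hαn ξ₂ ξ
    have g1 := two_le_un 0 ξ
    have g2 := two_le_un 0 ξ₂
    have g3 := four_le_add ξ ξ₂
    have g4 : ‖un 0 ξ₂ + (starRingEnd ℂ) (un 0 ξ)‖ = ‖un 0 ξ + (starRingEnd ℂ) (un 0 ξ₂)‖ := by
      rw [← RCLike.norm_conj, map_add, conj_conj, add_comm]
    have p2 : ‖K3.EP T ((α + (starRingEnd ℂ) (un 0 ξ)) / Real.log T)‖ ≤
        113 / 100 * (4 / 3 * (Real.log T / ‖un 0 ξ‖)) := by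
      refine ((hEP T t5 (α + (starRingEnd ℂ) (un 0 ξ)) ?_).1 ?_).trans ?_
      · refine (norm_add_le _ _).trans ?_
        rw [RCLike.norm_conj, hαn]
        linarith
      · rw [add_re, conj_re, un_re]; linarith
      · have h9 : 3 / 4 * ‖un 0 ξ‖ ≤ ‖α + (starRingEnd ℂ) (un 0 ξ)‖ := by
          have h10 := norm_sub_norm_le ((starRingEnd ℂ) (un 0 ξ)) (-α)
          rw [norm_neg, sub_neg_eq_add, RCLike.norm_conj, hαn, add_comm _ α] at h10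
          linarith
        have h11 : Real.log T / ‖α + (starRingEnd ℂ) (un 0 ξ)‖ ≤
            4 / 3 * (Real.log T / ‖un 0 ξ‖) := by
          calc Real.log T / ‖α + (starRingEnd ℂ) (un 0 ξ)‖ ≤ Real.log T / (3 / 4 * ‖un 0 ξ‖) := by
                gcongr
            _ = _ := by field_simp
        gcongr
    have p3 : ‖K3.EP T ((un 0 ξ₂ + α) / Real.log T)‖ ≤
        113 / 100 * (4 / 3 * (Real.log T / ‖un 0 ξ₂‖)) := by
      refine ((hEP T t5 (un 0 ξ₂ + α) ?_).1 ?_).trans ?_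
      · refine (norm_add_le _ _).trans ?_
        rw [hαn]
        linarith
      · rw [add_re, un_re]; linarith
      · have h9 : 3 / 4 * ‖un 0 ξ₂‖ ≤ ‖un 0 ξ₂ + α‖ := by
          have h10 := norm_sub_norm_le (un 0 ξ₂) (-α)
          rw [norm_neg, sub_neg_eq_add, hαn] at h10
          linarith
        have h11 : Real.log T / ‖un 0 ξ₂ + α‖ ≤ 4 / 3 * (Real.log T / ‖un 0 ξ₂‖) := by
          calc Real.log T / ‖un 0 ξ₂ + α‖ ≤ Real.log T / (3 / 4 * ‖un 0 ξ₂‖) := by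
                gcongr
            _ = _ := by field_simp
        gcongr
    have p4 : ‖K3.EP T ((un 0 ξ₂ + (starRingEnd ℂ) (un 0 ξ)) / Real.log T)‖ ≤
        101 / 100 * (Real.log T / ‖un 0 ξ + (starRingEnd ℂ) (un 0 ξ₂)‖) := by
      rw [← g4]
      refine (hEP T t5 (un 0 ξ₂ + (starRingEnd ℂ) (un 0 ξ)) ?_).2.2 ?_
      · refine (norm_add_le _ _).trans ?_
        rw [RCLike.norm_conj]
        linarith
      · rw [add_re, conj_re, un_re, un_re]; norm_num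
    have p5 : ‖ZT T ((α + un 0 ξ₂ + α + (starRingEnd ℂ) (un 0 ξ)) / Real.log T)‖ ≤
        (1 + ε) * (6 / Real.pi ^ 2) := by
      refine hZT T t6 _ ?_
      have q1 := norm_add_le (α + un 0 ξ₂ + α) ((starRingEnd ℂ) (un 0 ξ))
      have q2 := norm_add_le (α + un 0 ξ₂) α
      have q3 := norm_add_le α (un 0 ξ₂)
      rw [RCLike.norm_conj] at q1
      rw [hαn] at q2 q3
      linarith
    have hS1 : 1 ≤ Real.exp (om M α + om M (un 0 ξ₂) + om M α +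
        om M ((starRingEnd ℂ) (un 0 ξ))) := by
      apply Real.one_le_exp
      have := om_nonneg M α
      have := om_nonneg M (un 0 ξ₂)
      have := om_nonneg M ((starRingEnd ℂ) (un 0 ξ))
      linarith
    have hR4 : ∀ W : (ℕ → ℂ) → ℝ, R4W T M W a 0 ξ₂ ξ = RW4 T M W ((starRingEnd ℂ) a)
      (un 0 ξ₂ / Real.log T) ((starRingEnd ℂ) a) ((starRingEnd ℂ) (un 0 ξ) / Real.log T) :=
      fun W => rfl
    rw [hR4, hR4]
    have hfin := near_arith (B := BF κ T M) (κ := κ) (η₁ := η₁) (ε := ε) (L := Real.log T)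
      (P := P) (n1 := ‖un 0 ξ‖) (n2 := ‖un 0 ξ₂‖)
      (n3 := ‖un 0 ξ + (starRingEnd ℂ) (un 0 ξ₂)‖) (pz := 6 / Real.pi ^ 2) hBFp.le hκ1.le
      hη₁p.le hL0.le hP0 hS1 hsum (norm_nonneg _) (norm_nonneg _) (norm_nonneg _)
      (norm_nonneg _) (norm_nonneg _) (norm_nonneg _) (norm_nonneg _) (norm_nonneg _)
      hcan p2 p3 p4 p5 h
    refine hfin.trans ?_
    have hBL : 0 ≤ BF κ T M * Real.log T ^ 3 * (6 / Real.pi ^ 2) := by positivity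
    refine mul_le_mul_of_nonneg_left ?_ hBL
    have hG : (113 / 100) ^ 2 * (101 / 100) * (16 / 9) *
      ((Qk ξ ξ₂ - 1) / (‖un 0 ξ‖ * ‖un 0 ξ₂‖ * ‖un 0 ξ + (starRingEnd ℂ) (un 0 ξ₂)‖)) =
        Gk ξ ξ₂ := rfl
    rw [hG]
    have hQ : Qk ξ ξ₂ / (‖un 0 ξ‖ * ‖un 0 ξ₂‖ * ‖un 0 ξ + (starRingEnd ℂ) (un 0 ξ₂)‖) ≤
        3 * (133 * (1 + |ξ|)) * (133 * (1 + |ξ₂|)) / 16 := by
      have h16 : 16 ≤ ‖un 0 ξ‖ * ‖un 0 ξ₂‖ * ‖un 0 ξ + (starRingEnd ℂ) (un 0 ξ₂)‖ := by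
        calc (16 : ℝ) = 2 * 2 * 4 := by norm_num
          _ ≤ _ := by gcongr
      have hQk := Qk_le ξ ξ₂
      have hQ0 : 0 ≤ Qk ξ ξ₂ := by linarith [one_le_Qk h8 ξ ξ₂]
      gcongr
    have hA1 : A ≠ 0 := by omega
    have hzA : (1 + |ξ₂|) * (1 + |ξ|) ≤ (1 + |ξ₂|) ^ A * (1 + |ξ|) ^ A := by
      gcongr
      · exact le_self_pow₀ hz2 hA1
      · exact le_self_pow₀ hz1 hA1
    have hlast : (1 + ε) * η₁ * ((113 / 100) ^ 2 * (101 / 100) * (16 / 9) *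
        (Qk ξ ξ₂ / (‖un 0 ξ‖ * ‖un 0 ξ₂‖ * ‖un 0 ξ + (starRingEnd ℂ) (un 0 ξ₂)‖))) ≤
        ε * ((1 + |ξ₂|) ^ A * (1 + |ξ|) ^ A) := by
      calc (1 + ε) * η₁ * ((113 / 100) ^ 2 * (101 / 100) * (16 / 9) *
        (Qk ξ ξ₂ / (‖un 0 ξ‖ * ‖un 0 ξ₂‖ * ‖un 0 ξ + (starRingEnd ℂ) (un 0 ξ₂)‖))) ≤
          (1 + ε) * η₁ * ((113 / 100) ^ 2 * (101 / 100) * (16 / 9) *
          (3 * (133 * (1 + |ξ|)) * (133 * (1 + |ξ₂|)) / 16)) := by gcongr
        _ = (ε * ((1 + |ξ₂|) * (1 + |ξ|))) *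
            ((113 / 100) ^ 2 * (101 / 100) * (16 / 9) * (3 * 133 * 133 / 16) / 10000) := by
            rw [hη₁]
            field_simp
        _ ≤ (ε * ((1 + |ξ₂|) * (1 + |ξ|))) * 1 := by
            gcongr
            norm_num
        _ ≤ _ := by
            rw [mul_one]
            gcongr
    linarith
  · -- far case
    have hexpM : D₀ ≤ Real.exp M := by
      rw [← Real.exp_log hD₀p]
      apply Real.exp_le_exp.mpr
      exact hMe.trans (by exact_mod_cast hM3)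
    have h14 : (Cp + C₁) * 49 ^ A ≤ 1 / 2 * ε * Real.exp M := by
      rw [hD₀, div_le_iff₀ hε] at hexpM
      clear * - hexpM
      linarith
    refine (far hκ hκ1 hAdef hCp hC₁ hε hL hBFp hBFge
      (hR T t3 (Finset.range (JJ T + 1)) ∅ (by simp)) hW haL hP0 hP hone h14 hcase).trans ?_
    have hBL : 0 ≤ BF κ T M * Real.log T ^ 3 * (6 / Real.pi ^ 2) := by positivity
    refine mul_le_mul_of_nonneg_left ?_ hBL
    exact le_add_of_nonneg_left (mul_nonneg (mul_nonneg (by positivity) hκ'.le) hGk)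

/-- The double integral. -/
lemma dbl_le {g : ℝ → ℂ} {X : ℝ → ℝ → ℂ} {P : ℂ} {F : ℝ → ℝ → ℝ} {h : ℝ → ℝ} {Λ c₁ ε cc I : ℝ}
    (hΛ : 0 ≤ Λ) (hc₁ : 0 ≤ c₁) (hε : 0 ≤ ε) (hcc : 0 ≤ cc) (hF : ∀ ξ η, 0 ≤ F ξ η)
    (hh : Integrable h) (hhm : Measurable h) (hh0 : ∀ ξ, 0 ≤ h ξ) (hI : I = ∫ ξ, h ξ)
    (hFi : ∫⁻ ξ : ℝ, ∫⁻ η : ℝ, ENNReal.ofReal (F ξ η) ≤ ENNReal.ofReal cc)
    (hk : ∀ ξ₂ ξ : ℝ, ‖g ξ‖ * (‖g ξ₂‖ * (‖X ξ₂ ξ‖ * ‖P‖)) ≤
      Λ * (c₁ * F ξ ξ₂ + ε * (h ξ * h ξ₂))) :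
    ‖∫ ξ : ℝ, g ξ * (starRingEnd ℂ) (∫ ξ₂ : ℝ, g ξ₂ * (X ξ₂ ξ * (starRingEnd ℂ) P))‖ ≤
      Λ * (c₁ * cc + ε * (I * I)) := by
  have hI0 : 0 ≤ I := by rw [hI]; exact integral_nonneg hh0
  have hIe : ∫⁻ ξ : ℝ, ENNReal.ofReal (h ξ) = ENNReal.ofReal I := by
    rw [hI, ofReal_integral_eq_lintegral_ofReal hh (Filter.Eventually.of_forall hh0)]
  have hGm : Measurable fun ξ : ℝ => ENNReal.ofReal (h ξ) := hhm.ennreal_ofReal
  have step : ‖∫ ξ : ℝ, g ξ * (starRingEnd ℂ) (∫ ξ₂ : ℝ, g ξ₂ *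
      (X ξ₂ ξ * (starRingEnd ℂ) P))‖ₑ ≤ ENNReal.ofReal (Λ * (c₁ * cc + ε * (I * I))) := by
    calc ‖∫ ξ : ℝ, g ξ * (starRingEnd ℂ) (∫ ξ₂ : ℝ, g ξ₂ * (X ξ₂ ξ * (starRingEnd ℂ) P))‖ₑ ≤
        ∫⁻ ξ : ℝ, ‖g ξ * (starRingEnd ℂ) (∫ ξ₂ : ℝ, g ξ₂ * (X ξ₂ ξ * (starRingEnd ℂ) P))‖ₑ :=
          enorm_integral_le_lintegral_enorm _
      _ ≤ ∫⁻ ξ : ℝ, ∫⁻ ξ₂ : ℝ, ENNReal.ofReal (Λ * (c₁ * F ξ ξ₂ + ε * (h ξ * h ξ₂))) := by
          refine lintegral_mono fun ξ => ?_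
          have e1 : ‖g ξ * (starRingEnd ℂ) (∫ ξ₂ : ℝ, g ξ₂ *
              (X ξ₂ ξ * (starRingEnd ℂ) P))‖ₑ =
              ‖g ξ‖ₑ * ‖∫ ξ₂ : ℝ, g ξ₂ * (X ξ₂ ξ * (starRingEnd ℂ) P)‖ₑ := by
            rw [enorm_mul]
            congr 1
            rw [← ofReal_norm, ← ofReal_norm, RCLike.norm_conj]
          rw [e1]
          calc ‖g ξ‖ₑ * ‖∫ ξ₂ : ℝ, g ξ₂ * (X ξ₂ ξ * (starRingEnd ℂ) P)‖ₑ ≤
              ‖g ξ‖ₑ * ∫⁻ ξ₂ : ℝ, ‖g ξ₂ * (X ξ₂ ξ * (starRingEnd ℂ) P)‖ₑ := by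
                gcongr
                exact enorm_integral_le_lintegral_enorm _
            _ = ∫⁻ ξ₂ : ℝ, ‖g ξ‖ₑ * ‖g ξ₂ * (X ξ₂ ξ * (starRingEnd ℂ) P)‖ₑ := by
                rw [lintegral_const_mul' _ _ enorm_ne_top]
            _ ≤ _ := by
                refine lintegral_mono fun ξ₂ => ?_
                rw [← enorm_mul, ← ofReal_norm]
                refine ENNReal.ofReal_le_ofReal ?_
                refine le_trans (le_of_eq ?_) (hk ξ₂ ξ)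
                simp only [norm_mul, RCLike.norm_conj]
      _ = ENNReal.ofReal Λ * (ENNReal.ofReal c₁ *
            (∫⁻ ξ : ℝ, ∫⁻ η : ℝ, ENNReal.ofReal (F ξ η)) +
            ENNReal.ofReal ε * (ENNReal.ofReal I * ENNReal.ofReal I)) := by
          have e2 : ∀ ξ ξ₂ : ℝ, ENNReal.ofReal (Λ * (c₁ * F ξ ξ₂ + ε * (h ξ * h ξ₂))) =
              ENNReal.ofReal Λ * (ENNReal.ofReal c₁ * ENNReal.ofReal (F ξ ξ₂) +
                ENNReal.ofReal ε * (ENNReal.ofReal (h ξ) * ENNReal.ofReal (h ξ₂))) := by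
            intro ξ ξ₂
            have := hF ξ ξ₂
            have := hh0 ξ
            have := hh0 ξ₂
            rw [ENNReal.ofReal_mul hΛ, ENNReal.ofReal_add (by positivity) (by positivity),
              ENNReal.ofReal_mul hc₁, ENNReal.ofReal_mul hε, ENNReal.ofReal_mul (hh0 ξ)]
          simp only [e2]
          have e3 : ∀ ξ : ℝ, ∫⁻ ξ₂ : ℝ, ENNReal.ofReal Λ * (ENNReal.ofReal c₁ *
              ENNReal.ofReal (F ξ ξ₂) + ENNReal.ofReal ε *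
                (ENNReal.ofReal (h ξ) * ENNReal.ofReal (h ξ₂))) =
              ENNReal.ofReal Λ * (ENNReal.ofReal c₁ * (∫⁻ η : ℝ, ENNReal.ofReal (F ξ η)) +
                ENNReal.ofReal ε * (ENNReal.ofReal (h ξ) * ENNReal.ofReal I)) := by
            intro ξ
            rw [lintegral_const_mul' _ _ ENNReal.ofReal_ne_top,
              lintegral_add_right _ ((hGm.const_mul _).const_mul _),
              lintegral_const_mul' _ _ ENNReal.ofReal_ne_top,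
              lintegral_const_mul' _ _ ENNReal.ofReal_ne_top,
              lintegral_const_mul' _ _ ENNReal.ofReal_ne_top, hIe]
          simp only [e3]
          rw [lintegral_const_mul' _ _ ENNReal.ofReal_ne_top,
              lintegral_add_right _ ((hGm.mul_const _).const_mul _),
              lintegral_const_mul' _ _ ENNReal.ofReal_ne_top,
              lintegral_const_mul' _ _ ENNReal.ofReal_ne_top,
              lintegral_mul_const' _ _ ENNReal.ofReal_ne_top, hIe]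
      _ ≤ ENNReal.ofReal Λ * (ENNReal.ofReal c₁ * ENNReal.ofReal cc +
            ENNReal.ofReal ε * (ENNReal.ofReal I * ENNReal.ofReal I)) := by gcongr
      _ = _ := by
          rw [ENNReal.ofReal_mul hΛ, ENNReal.ofReal_add (by positivity) (by positivity),
              ENNReal.ofReal_mul hc₁, ENNReal.ofReal_mul hε, ENNReal.ofReal_mul hI0]
  rw [← ofReal_norm] at step
  exact (ENNReal.ofReal_le_ofReal_iff (by positivity)).mp step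

lemma pt_arith {X P Λ c₁ ε G u v mx my g₁ g₂ : ℝ} (hΛ : 0 ≤ Λ) (hc₁ : 0 ≤ c₁) (hg₁ : 0 ≤ g₁)
    (hg₂ : 0 ≤ g₂) (h₁ : g₁ ≤ mx) (h₂ : g₂ ≤ my) (hG : 0 ≤ G)
    (h : X * P ≤ Λ * (c₁ * G + ε * (v * u))) :
    g₁ * (g₂ * (X * P)) ≤ Λ * (c₁ * (mx * my * G) + ε * ((g₁ * u) * (g₂ * v))) := by
  have e : g₁ * g₂ ≤ mx * my := mul_le_mul h₁ h₂ hg₂ (hg₁.trans h₁)
  calc g₁ * (g₂ * (X * P)) ≤ g₁ * (g₂ * (Λ * (c₁ * G + ε * (v * u)))) := by gcongr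
    _ = Λ * (c₁ * ((g₁ * g₂) * G) + ε * ((g₁ * u) * (g₂ * v))) := by ring
    _ ≤ _ := by gcongr

lemma GB_one (f : ℕ → ℂ) (hf : CMul f) : ((1 : ℝ) : ℂ) = GB 1 (fun _ _ => 1) f := by
  simp [GB, hf.1]

lemma RW_one (φ : ℝ → ℝ) (T : ℝ) (a : ℂ) :
    RW φ T 0 1 (fun _ _ => 1) a = Rde φ T 0 1 1 a := by
  simp [RW]

end MG

open MG in
/-- (R19) the arithmetic factor, general cutoff -/
theorem stMainG (h1 : StRepW) (h2 : StCmp4) (h3 : StOne4) (h4 : StEP7) (h5 : StZT) (h6 : StPB)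
    (h7 : StRandW) (h8 : StOm) (hA : StAK7) (hr : K5.StRho) : StMainG := by
  intro κ hκ hκ1 φ hφ m cc _hm hgm hcc hint η hη
  obtain ⟨A, key⟩ := key h2 h3 h4 h5 h6 h7 h8 hA hr hκ hκ1
  have h := hφ.cut
  set I : ℝ := ∫ ξ : ℝ, ‖FourG.gh h ξ‖ * (1 + |ξ|) ^ A with hI
  have hI0 : 0 ≤ I := integral_nonneg fun ξ => by positivity
  set ε : ℝ := η / (cc + I * I + 1) with hε
  have hεp : 0 < ε := by positivity
  obtain ⟨M₀, hM₀, key⟩ := key ε hεp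
  obtain ⟨T₁, hT₁, hrep⟩ := h1 φ hφ
  refine ⟨M₀, fun M hM => ?_⟩
  obtain ⟨T₂, hT₂, key⟩ := key M hM
  refine ⟨max T₁ T₂, hT₁.trans (le_max_left _ _), fun T hT N c hN hW a ha => ?_⟩
  have t1 : T₁ ≤ T := (le_max_left _ _).trans hT
  have t2 : T₂ ≤ T := (le_max_right _ _).trans hT
  have hT3 : 3 ≤ T := hT₁.trans t1
  have hT1 : 1 < T := by linarith
  have hL0 : 0 < Real.log T := Real.log_pos hT1
  have hM7 : 7 ≤ M := hM₀.trans hM
  have haL : ‖a‖ ≤ 1 / Real.log T := by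
    rw [ha]
    apply one_div_le_one_div_of_le hL0
    linarith
  obtain ⟨hBF, key⟩ := key T t2
  have key := key N c hW a ha
  obtain ⟨i1, i1', d1⟩ := hrep T t1 M hM7 (WF κ T M (Finset.range (JJ T + 1)) ∅) N c hN hW 0 a haL
  obtain ⟨i2, i2', d2⟩ := hrep T t1 M hM7 (fun _ => 1) 1 (fun _ _ => 1) (by
    rw [Nat.cast_one]
    exact Real.one_le_rpow hT1.le (by norm_num)) (fun f hf => GB_one f hf) 0 a haL
  rw [RW_one] at d2
  rw [mul_zero] at d1 d2 i1' i2'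
  simp only [mul_zero] at i1 i2
  rw [d1, d2]
  set B : ℝ := BF κ T M with hB
  set P : ℂ := ∏ p ∈ PS 0 T, (1 - (p : ℂ) ^ (-(1 + a + a))) with hP
  set W := WF κ T M (Finset.range (JJ T + 1)) ∅ with hWdef
  have hd : (∫ ξ : ℝ, FourG.gh h ξ * (starRingEnd ℂ) (∫ ξ₂ : ℝ, FourG.gh h ξ₂ *
        R4W T M W a 0 ξ₂ ξ)) * P - (B : ℂ) *
      ((∫ ξ : ℝ, FourG.gh h ξ * (starRingEnd ℂ) (∫ ξ₂ : ℝ, FourG.gh h ξ₂ *
        R4W T M (fun _ => 1) a 0 ξ₂ ξ)) * P) =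
      ∫ ξ : ℝ, FourG.gh h ξ * (starRingEnd ℂ) (∫ ξ₂ : ℝ, FourG.gh h ξ₂ *
        ((R4W T M W a 0 ξ₂ ξ - (B : ℂ) * R4W T M (fun _ => 1) a 0 ξ₂ ξ) *
          (starRingEnd ℂ) P)) := by
    rw [mul_comm _ P, mul_comm _ P, ← mul_assoc, ← integral_const_mul, ← integral_const_mul,
      ← integral_sub (i1'.const_mul _) (i2'.const_mul _)]
    congr 1
    funext ξ
    have h1 : ∫ ξ₂ : ℝ, FourG.gh h ξ₂ *
        ((R4W T M W a 0 ξ₂ ξ - (B : ℂ) * R4W T M (fun _ => 1) a 0 ξ₂ ξ) *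
          (starRingEnd ℂ) P) =
        (starRingEnd ℂ) P * (∫ ξ₂ : ℝ, FourG.gh h ξ₂ * R4W T M W a 0 ξ₂ ξ) -
        ((starRingEnd ℂ) P * (B : ℂ)) *
          ∫ ξ₂ : ℝ, FourG.gh h ξ₂ * R4W T M (fun _ => 1) a 0 ξ₂ ξ := by
      rw [← integral_const_mul, ← integral_const_mul,
        ← integral_sub ((i1 ξ).const_mul _) ((i2 ξ).const_mul _)]
      congr 1
      funext ξ₂
      ring
    rw [h1]
    simp only [map_sub, map_mul, conj_ofReal, conj_conj]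
    ring
  rw [hd]
  have hκ' : 0 < 1 - κ := by linarith
  have hint' : ∫⁻ ξ : ℝ, ∫⁻ η : ℝ, ENNReal.ofReal (m ξ * m η * Gk ξ η) ≤ ENNReal.ofReal cc := by
    refine le_trans (le_of_eq ?_) hint
    refine lintegral_congr fun ξ => lintegral_congr fun η => ?_
    congr 1
    unfold Gk Qk
    ring
  have hm0 : ∀ ξ, 0 ≤ m ξ := fun ξ => (norm_nonneg _).trans (hgm ξ)
  have hcont : Continuous fun ξ : ℝ => ‖FourG.gh h ξ‖ * (1 + |ξ|) ^ A :=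
    (FourG.gh h).continuous.norm.mul ((continuous_const.add continuous_abs).pow A)
  have hΛ : 0 ≤ B * Real.log T ^ 3 * (6 / Real.pi ^ 2) := by positivity
  have hc₁ : 0 ≤ (1 + ε) * (1 - κ) := by positivity
  have hfin := dbl_le (g := fun ξ => FourG.gh h ξ)
    (X := fun ξ₂ ξ => R4W T M W a 0 ξ₂ ξ - (B : ℂ) * R4W T M (fun _ => 1) a 0 ξ₂ ξ) (P := P)
    (F := fun ξ η => m ξ * m η * Gk ξ η)
    (h := fun ξ => ‖FourG.gh h ξ‖ * (1 + |ξ|) ^ A)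
    (Λ := B * Real.log T ^ 3 * (6 / Real.pi ^ 2)) (c₁ := (1 + ε) * (1 - κ)) (ε := ε) (cc := cc)
    (I := I) hΛ hc₁ hεp.le hcc
    (fun ξ η => mul_nonneg (mul_nonneg (hm0 ξ) (hm0 η)) (Gk_nonneg h8 ξ η)) (FourG.gh_int h A)
    hcont.measurable (fun ξ => by positivity) hI hint' (fun ξ₂ ξ =>
      pt_arith hΛ hc₁ (norm_nonneg _) (norm_nonneg _) (hgm ξ) (hgm ξ₂) (Gk_nonneg h8 ξ ξ₂)
        (key ξ₂ ξ))
  refine hfin.trans ?_
  have hsum : (1 + ε) * (1 - κ) * cc + ε * (I * I) ≤ (1 - κ) * cc + η := by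
    have h15 : ε * (cc + I * I + 1) = η := by
      rw [hε]; field_simp
    have h16 : ε * (1 - κ) * cc ≤ ε * 1 * cc := by
      gcongr
      linarith
    nlinarith
  calc B * Real.log T ^ 3 * (6 / Real.pi ^ 2) * ((1 + ε) * (1 - κ) * cc + ε * (I * I)) ≤
      B * Real.log T ^ 3 * (6 / Real.pi ^ 2) * ((1 - κ) * cc + η) := by gcongr
    _ = _ := by ring

end K7
end Pool.Agent.Lib.MP_973905_nt
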