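import Pool.Agent.Lib.MP_973905_nt.K7.Stmts
import Pool.Agent.Lib.MP_973905_nt.K5.Num

/-! All the numbers together (K7, module N2). -/

namespace Pool.Agent.Lib.MP_973905_nt
namespace K7

open MeasureTheory ProbabilityTheory Complex Filter Topology K1 K4 K5

namespace Num7

lemma gamma_ge : (573 / 1000 : ℝ) ≤ Real.eulerMascheroniConstant := by
  have h1 := Real.eulerMascheroniSeq_lt_eulerMascheroniConstant 127
  unfold Real.eulerMascheroniSeq at h1
  have h2 : Real.log ((127 : ℕ) + 1) = 7 * Real.log 2 := by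
    rw [show (((127 : ℕ) : ℝ) + 1) = 2 ^ 7 by norm_num, Real.log_pow]
    norm_num
  rw [h2] at h1
  have h3 : ((54253 / 10000 : ℚ) : ℝ) ≤ ((harmonic 127 : ℚ) : ℝ) := by
    exact_mod_cast K5.NumA.harm
  have h4 := Real.log_two_lt_d9
  push_cast at h3
  linarith

lemma tq0_nonneg : 0 ≤ tq 0 := mul_nonneg K5.NumA.tb0_nonneg (Real.exp_pos _).le

lemma tq0_le : tq 0 ≤ 23 / 10000 := by
  unfold tq
  have h1 : Real.exp (-4) ≤ 185 / 10000 := by
    rw [Real.exp_neg, inv_le_comm₀ (Real.exp_pos _) (by norm_num)]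
    have h2 : Real.exp 4 = Real.exp 1 ^ 4 := by
      rw [← Real.exp_nat_mul]
      congr 1
      norm_num
    have h3 : (2.718 : ℝ) ≤ Real.exp 1 := by
      have := Real.exp_one_gt_d9
      norm_num at this ⊢
      linarith
    have h4 : (2.718 : ℝ) ^ 4 ≤ Real.exp 1 ^ 4 := pow_le_pow_left₀ (by norm_num) h3 4
    rw [h2]
    refine le_trans ?_ h4
    norm_num
  calc tb 0 * Real.exp (-4) ≤ 1201 / 10000 * (185 / 10000) :=
        mul_le_mul K5.NumA.tb0_le h1 (Real.exp_pos _).le (by norm_num)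
    _ ≤ 23 / 10000 := by norm_num

/-- tangent of the logarithm at `6/5` -/
lemma log_tan {y : ℝ} (hy : 0 < 1 + y) : Real.log (1 + y) ≤ 1824 / 10000 + (y - 2 / 10) / (12 / 10) := by
  have h1 : Real.log (12 / 10) ≤ 1824 / 10000 := by
    rw [Real.log_le_iff_le_exp (by norm_num)]
    have := Real.sum_le_exp_of_nonneg (x := 1824 / 10000) (by norm_num) 4
    norm_num [Finset.sum_range_succ, Nat.factorial] at this ⊢
    linarith
  have h2 : Real.log (1 + y) = Real.log (12 / 10) + Real.log ((1 + y) / (12 / 10)) := by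
    rw [← Real.log_mul (by norm_num) (by positivity)]
    congr 1
    field_simp
  have h3 := Real.log_le_sub_one_of_pos (x := (1 + y) / (12 / 10)) (by positivity)
  have h4 : (1 + y) / (12 / 10) - 1 = (y - 2 / 10) / (12 / 10) := by ring
  linarith

/-- the polynomial inequality -/
lemma poly (k : ℝ) (hk : 0 < k) (hk1 : k < 1) :
    k * (1 - k) * (44516 / 10000 - 74 / 100 * min k (1 - k) - 23 / 100 * k) +
      k * (1824 / 10000 + (eB k - 2 / 10) / (12 / 10)) ≤ 10986 / 10000 := by
  unfold eB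
  rcases le_total k (1 / 2) with h | h
  · rw [min_eq_left (by linarith)]
    nlinarith [mul_nonneg (sq_nonneg (k - 4744 / 10000)) (by linarith : 0 ≤ 5 - k), hk, hk1, h]
  · rw [min_eq_right (by linarith)]
    nlinarith [mul_nonneg (sub_nonneg.2 h) (sub_nonneg.2 hk1.le), mul_nonneg hk.le (sub_nonneg.2 hk1.le),
        mul_nonneg (mul_nonneg hk.le (sub_nonneg.2 hk1.le)) (sub_nonneg.2 h), sq_nonneg (k - 1 / 2)]

end Num7

/-- (N2) -/
theorem stNum7 (hG : StG7) (h0 : K5.StLam0) (h1 : K5.StLam1) (h2 : K5.StLam2) (h3 : K5.StLam3)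
    (hs : K5.StSym) (hr : K5.StRho) : StNum7 := by
  intro k hk hk1 M hM
  obtain ⟨n, rfl⟩ : ∃ n, M = n + 9 := ⟨M - 9, by omega⟩
  have hM2 : n + 9 - 6 = n + 3 := by omega
  rw [hM2]
  obtain ⟨-, -, -, C, hC, hab, -⟩ := hr k hk hk1
  have hCi : 0 < C⁻¹ := inv_pos.2 (by linarith)
  have haF : ∀ i, 0 < aF k i := fun i => lt_of_lt_of_le hCi (hab i).1
  have haG : ∀ i, 0 < aG k i := fun i => lt_of_lt_of_le hCi (hab i).2.2.1
  set PF := ∏ i ∈ Finset.range (n + 3), aF k i with hPF
  set PG := ∏ i ∈ Finset.range (n + 3), aG k i with hPG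
  have hPF0 : 0 < PF := Finset.prod_pos fun i _ => haF i
  have hPG0 : 0 < PG := Finset.prod_pos fun i _ => haG i
  have ht0 := Num7.tq0_nonneg
  have ht1 := Num7.tq0_le
  have hk1' : 0 < 1 - k := by linarith
  have hkk : 0 < k * (1 - k) := mul_pos hk hk1'
  have hq : 0 < 1 + 2 * k * tq 0 := by
    have := mul_nonneg (by linarith : 0 ≤ 2 * k) ht0
    linarith
  have heB0 : 0 < eB k := by unfold eB; positivity
  have he : 0 < 1 + eB k := by linarith
  have he12 : 0 < (1 + eB k) / 12 := by positivity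
  -- the logarithm of the left side
  have hlogF : Real.log PF = ∑ i ∈ Finset.range (n + 3), Real.log (aF k i) :=
    Real.log_prod fun i _ => (haF i).ne'
  have hlogG : Real.log PG = ∑ i ∈ Finset.range (n + 3), Real.log (aG k i) :=
    Real.log_prod fun i _ => (haG i).ne'
  have hlam : k * Real.log PF + (1 - k) * Real.log PG + k * (1 - k) * (22 / 25 + (n + 2)) =
      ∑ i ∈ Finset.range (n + 3), lam k i := by
    have hV := K5.NumA.sum_Vv (n + 2)
    unfold lam
    rw [Finset.sum_add_distrib, Finset.sum_add_distrib, ← Finset.mul_sum, ← Finset.mul_sum,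
      ← Finset.mul_sum, ← hlogF, ← hlogG, hV]
    push_cast
    ring
  set g := barnesG (1 + k + 1) ^ 2 / barnesG (2 * (1 + k) + 1) with hg
  have hg1 := hG k hk hk1
  rw [← hg] at hg1
  have hgpos : 0 < g := (Real.exp_pos _).trans_le hg1
  have hlogg : -(k * Real.log 12) + k * (1 - k) * (162 / 100 + 23 / 100 * k) ≤ Real.log g :=
    (Real.le_log_iff_exp_le hgpos).2 hg1
  set E := (((n + 9 : ℕ) : ℝ) - Real.eulerMascheroniConstant) * (k * (1 - k)) +
    Real.log (PF * ((1 + eB k) / 12)) * k + Real.log (PG * (1 + 2 * k * tq 0)) * (1 - k) with hE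
  have hL : Real.exp ((((n + 9 : ℕ) : ℝ) - Real.eulerMascheroniConstant) * (k * (1 - k))) *
      (PF * ((1 + eB k) / 12)) ^ k * (PG * (1 + 2 * k * tq 0)) ^ (1 - k) = Real.exp E := by
    rw [Real.rpow_def_of_pos (mul_pos hPF0 he12), Real.rpow_def_of_pos (mul_pos hPG0 hq),
      ← Real.exp_add, ← Real.exp_add]
  rw [hL]
  have hlq : Real.log (1 + 2 * k * tq 0) ≤ 2 * k * tq 0 := by
    have := Real.log_le_sub_one_of_pos hq
    linarith
  have hEle : E ≤ k * (1 - k) * (60716 / 10000 - 74 / 100 * min k (1 - k)) +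
      k * Real.log (1 + eB k) - k * Real.log 12 := by
    have hsl := K5.NumA.sum_lam' h0 h1 h2 h3 hs k hk hk1 n
    have hγ := Num7.gamma_ge
    rw [hE, Real.log_mul hPF0.ne' he12.ne', Real.log_mul hPG0.ne' hq.ne',
      Real.log_div he.ne' (by norm_num)]
    push_cast
    have e1 : ((n : ℝ) + 9 - Real.eulerMascheroniConstant) * (k * (1 - k)) +
        (Real.log PF + (Real.log (1 + eB k) - Real.log 12)) * k +
        (Real.log PG + Real.log (1 + 2 * k * tq 0)) * (1 - k) =
        (k * Real.log PF + (1 - k) * Real.log PG + k * (1 - k) * (22 / 25 + (n + 2))) +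
        (612 / 100 - Real.eulerMascheroniConstant) * (k * (1 - k)) +
          k * Real.log (1 + eB k) - k * Real.log 12 +
          (1 - k) * Real.log (1 + 2 * k * tq 0) := by ring
    rw [e1, hlam]
    have e2 : (1 - k) * Real.log (1 + 2 * k * tq 0) ≤ (1 - k) * (2 * k * tq 0) :=
      mul_le_mul_of_nonneg_left hlq hk1'.le
    have e3 : (1 - k) * (2 * k * tq 0) ≤ k * (1 - k) * (46 / 10000) := by
      have := mul_le_mul_of_nonneg_left ht1 (by positivity : 0 ≤ 2 * (k * (1 - k)))
      linarith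
    have e4 : (612 / 100 - Real.eulerMascheroniConstant) * (k * (1 - k)) ≤
        (5547 / 1000) * (k * (1 - k)) :=
      mul_le_mul_of_nonneg_right (by linarith) hkk.le
    have e5 : k * (1 - k) * (60716 / 10000 - 74 / 100 * min k (1 - k)) =
      k * (1 - k) * (52 / 100 - 74 / 100 * min k (1 - k)) + (5547 / 1000) * (k * (1 - k)) +
        k * (1 - k) * (46 / 10000) := by ring
    rw [e5]
    linarith
  have hgexp : Real.exp (Real.log g) = g := Real.exp_log hgpos
  -- difference with `log g`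
  have hD : E - Real.log g ≤
      k * (1 - k) * (44516 / 10000 - 74 / 100 * min k (1 - k) - 23 / 100 * k) +
        k * Real.log (1 + eB k) := by
    have e6 : k * (1 - k) * (44516 / 10000 - 74 / 100 * min k (1 - k) - 23 / 100 * k) =
      k * (1 - k) * (60716 / 10000 - 74 / 100 * min k (1 - k)) -
        k * (1 - k) * (162 / 100 + 23 / 100 * k) := by ring
    rw [e6]
    linarith
  unfold CC7
  rw [min_mul_of_nonneg _ _ hgpos.le]
  refine le_min ?_ ?_
  · have hp := Num7.poly k hk hk1
    have hl := Real.log_three_gt_d9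
    have ht := mul_le_mul_of_nonneg_left (Num7.log_tan he) hk.le
    have : E ≤ Real.log 3 + Real.log g := by
      have : (1.0986122885 : ℝ) = 10986122885 / 10000000000 := by norm_num
      linarith
    calc Real.exp E ≤ Real.exp (Real.log 3 + Real.log g) := Real.exp_le_exp.2 this
      _ = 3 * g := by rw [Real.exp_add, Real.exp_log (by norm_num), hgexp]
  · have hm : 0 ≤ k * (1 - k) * min k (1 - k) := mul_nonneg hkk.le (le_min hk.le hk1'.le)
    have hlog : Real.log (1 + eB k) ≤ eB k := by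
      have := Real.log_le_sub_one_of_pos he
      linarith
    have h5 := mul_le_mul_of_nonneg_left hlog hk.le
    have h6 : k * eB k = k * (1 - k) * (43 / 100) + k * (4 / 1000) := by unfold eB; ring
    have h7 : 0 ≤ k * (1 - k) * k := mul_nonneg hkk.le hk.le
    have : E ≤ 5 * (k * (1 - k)) + k / 100 + Real.log g := by nlinarith
    calc Real.exp E ≤ Real.exp (5 * (k * (1 - k)) + k / 100 + Real.log g) := Real.exp_le_exp.2 this
      _ = Real.exp (5 * (k * (1 - k)) + k / 100) * g := by rw [Real.exp_add, hgexp]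

end K7
end Pool.Agent.Lib.MP_973905_nt
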