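import Pool.Agent.Lib.MP_973905_nt.K7.Base
import Pool.Agent.Lib.MP_973905_nt.K3.RA4
import Pool.Agent.Lib.MP_973905_nt.K3.LF4

/-! Module (R2): the untwisted model with four shifts. -/

namespace Pool.Agent.Lib.MP_973905_nt
namespace K7

open MeasureTheory ProbabilityTheory Complex Filter Topology K1 K4 K5

namespace OneM

open K3.RA4 (Z4 W4 V4 L4 Z4_dep ES_Z4 exact0 EP_W4)

lemma two_rpow_le : (2 : ℝ) ^ (-(5 / 12) : ℝ) ≤ 3 / 4 := by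
  have h0 : (0 : ℝ) ≤ (2 : ℝ) ^ (-(5 / 12) : ℝ) := by positivity
  have h1 : ((2 : ℝ) ^ (-(5 / 12) : ℝ)) ^ 12 ≤ (3 / 4) ^ 12 := by
    rw [← Real.rpow_natCast, ← Real.rpow_mul (by norm_num)]
    have h2 : (-(5 / 12) : ℝ) * ((12 : ℕ) : ℝ) = -((5 : ℕ) : ℝ) := by push_cast; norm_num
    rw [h2, Real.rpow_neg (by norm_num), Real.rpow_natCast]
    norm_num
  exact le_of_pow_le_pow_left₀ (by norm_num) (by norm_num) h1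

lemma nrm {p : ℕ} (hp : p.Prime) {a : ℂ} (ha : -(1 / 100) ≤ a.re) :
    ‖(p : ℂ) ^ (-(1 / 2 + a))‖ ≤ 3 / 4 := by
  have hp2 : (2 : ℝ) ≤ p := by exact_mod_cast hp.two_le
  rw [Complex.norm_natCast_cpow_of_pos hp.pos]
  have h1 : (-(1 / 2 + a)).re ≤ -(5 / 12) := by
    rw [neg_re, add_re]
    norm_num
    linarith
  calc (p : ℝ) ^ (-(1 / 2 + a)).re ≤ (p : ℝ) ^ (-(5 / 12) : ℝ) :=
        Real.rpow_le_rpow_of_exponent_le (by linarith) h1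
    _ ≤ (2 : ℝ) ^ (-(5 / 12) : ℝ) := Real.rpow_le_rpow_of_nonpos (by norm_num) hp2 (by norm_num)
    _ ≤ 3 / 4 := two_rpow_le

variable {T : ℝ} {M : ℕ}

lemma UU_SBq (hT : 1 < T) (hM : 7 ≤ M) : UU (SBq T M) = PS 0 T := by
  ext p
  rw [mem_UU, mem_PS le_rfl (by linarith)]
  constructor
  · rintro ⟨j, hj⟩
    change p ∈ BBq T M j at hj
    have hpp := Blk7.BBq_prime hT hj
    refine ⟨hpp, by exact_mod_cast hpp.pos, ?_⟩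
    by_cases h1 : (j : ℕ) ≤ JJ T
    · rw [Blk7.BBq_bot h1] at hj
      have h2 := (Blk7.mem_bot hT h1 hj).2
      rw [← Blk7.tq_last hM] at h2
      exact h2.trans ((Blk7.bd_mono hT (Nat.zero_le _)).trans (Blk7.bd_le hT))
    · by_cases h2 : (j : ℕ) ≤ JJ T + (M - 6)
      · rw [Blk7.BBq_mid h1 h2] at hj
        exact (Blk7.mem_UQ.mp hj).2.2.trans
          ((Blk7.bd_mono hT (Nat.zero_le _)).trans (Blk7.bd_le hT))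
      · rw [Blk7.BBq_top h1 h2] at hj
        exact ((Blk7.mem_top hT).mp hj).2.2
  · rintro ⟨hp, _, hpT⟩
    obtain ⟨j, hj, hpj⟩ := Blk7.exists_BBq hT hM hp hpT
    exact ⟨⟨j, hj⟩, hpj⟩

/-- products over all primes up to `T` -/
lemma prod_PS {β : Type*} [CommMonoid β] (hT : 1 < T) (hM : 7 ≤ M) (u : ℕ → β) :
    ∏ p ∈ PS 0 T, u p = (∏ j ∈ Finset.range (JJ T + 1), ∏ p ∈ Sj T M (JJ T) j, u p) *
      (∏ i ∈ Finset.range (M - 6), ∏ p ∈ UQ T i, u p) *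
        ∏ p ∈ PS (Real.exp (tq 0 * Real.log T)) T, u p := by
  rw [← UU_SBq hT hM, Blk7.prod_UU_SBq hT hM]

lemma Z4_split (hT : 1 < T) (hM : 7 ≤ M) (a₁ a₂ b₁ b₂ : ℂ) (f : ℕ → ℂ) :
    Z4 a₁ a₂ b₁ b₂ (PS 0 T) f = (∏ j ∈ Finset.range (JJ T + 1), Z4 a₁ a₂ b₁ b₂ (Sj T M (JJ T) j) f) *
      (∏ i ∈ Finset.range (M - 6), Z4 a₁ a₂ b₁ b₂ (UQ T i) f) *
        Z4 a₁ a₂ b₁ b₂ (PS (Real.exp (tq 0 * Real.log T)) T) f := by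
  unfold Z4 ZZ
  rw [prod_PS hT hM, prod_PS hT hM, prod_PS hT hM, prod_PS hT hM]
  simp only [Finset.prod_mul_distrib, map_mul, map_prod]
  ring

/-- factorisation of the model with a weight which is a product over the blocks -/
lemma RW4_gen (hT : 1 < T) (hM : 7 ≤ M) (W : (ℕ → ℂ) → ℝ) (α β : ℕ → (ℕ → ℂ) → ℝ)
    (hα : ∀ j f g, (∀ p ∈ Sj T M (JJ T) j, f p = g p) → α j f = α j g)
    (hβ : ∀ i f g, (∀ p ∈ UQ T i, f p = g p) → β i f = β i g)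
    (hW : ∀ f, W (tw (1 / 2) f) = (∏ j ∈ Finset.range (JJ T + 1), α j f) *
      ∏ i ∈ Finset.range (M - 6), β i f) (a₁ a₂ b₁ b₂ : ℂ) :
    RW4 T M W a₁ a₂ b₁ b₂ =
      (∏ j ∈ Finset.range (JJ T + 1), ES (Sj T M (JJ T) j)
        (fun f => Z4 a₁ a₂ b₁ b₂ (Sj T M (JJ T) j) f * ((α j f : ℝ) : ℂ))) *
      (∏ i ∈ Finset.range (M - 6), ES (UQ T i)
        (fun f => Z4 a₁ a₂ b₁ b₂ (UQ T i) f * ((β i f : ℝ) : ℂ))) *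
      ES (PS (Real.exp (tq 0 * Real.log T)) T)
        (Z4 a₁ a₂ b₁ b₂ (PS (Real.exp (tq 0 * Real.log T)) T)) := by
  have h := Blk7.fact_gen (𝕜 := ℂ) hT hM
    (fun j f => Z4 a₁ a₂ b₁ b₂ (Sj T M (JJ T) j) f * ((α j f : ℝ) : ℂ))
    (fun i f => Z4 a₁ a₂ b₁ b₂ (UQ T i) f * ((β i f : ℝ) : ℂ))
    (Z4 a₁ a₂ b₁ b₂ (PS (Real.exp (tq 0 * Real.log T)) T))
    (fun j f g hfg => by rw [Z4_dep hfg, hα j f g hfg])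
    (fun i f g hfg => by rw [Z4_dep hfg, hβ i f g hfg])
    (fun f g hfg => Z4_dep hfg)
  rw [← h]
  unfold RW4
  refine FinM.ER_congr fun ω => ?_
  have e0 : ∀ f : ℕ → ℂ, ZZ (PS 0 T) (tw (1 / 2 + a₁) f) * ZZ (PS 0 T) (tw (1 / 2 + a₂) f) *
      (starRingEnd ℂ) (ZZ (PS 0 T) (tw (1 / 2 + (starRingEnd ℂ) b₁) f) *
        ZZ (PS 0 T) (tw (1 / 2 + (starRingEnd ℂ) b₂) f)) = Z4 a₁ a₂ b₁ b₂ (PS 0 T) f :=
    fun f => rfl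
  simp only [e0, hW, Z4_split hT hM, Finset.prod_mul_distrib, ofReal_mul, ofReal_prod]
  ring

/-- the product at `2 + s` -/
lemma V4_eq {p : ℕ} (hp : p ≠ 0) (a₁ a₂ b₁ b₂ : ℂ) :
    V4 a₁ a₂ b₁ b₂ p = 1 - (p : ℂ) ^ (-(2 + a₁ + a₂ + b₁ + b₂)) := by
  have hp' : (p : ℂ) ≠ 0 := by exact_mod_cast hp
  unfold V4
  rw [← cpow_add _ _ hp', ← cpow_add _ _ hp', ← cpow_add _ _ hp']
  congr 2
  ring

lemma V4_ne {p : ℕ} (hp : p.Prime) {a₁ a₂ b₁ b₂ : ℂ} (h1 : -(1 / 100) ≤ a₁.re)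
    (h2 : -(1 / 100) ≤ a₂.re) (h3 : -(1 / 100) ≤ b₁.re) (h4 : -(1 / 100) ≤ b₂.re) :
    V4 a₁ a₂ b₁ b₂ p ≠ 0 := by
  have h := (K3.RA4.norm_V4 (by norm_num : (0 : ℝ) ≤ 3 / 4) (nrm hp h1) (nrm hp h2) (nrm hp h3)
    (nrm hp h4)).2
  intro h0
  rw [h0, norm_zero] at h
  norm_num at h

/-- the normalising product of a block -/
lemma NF_eq {S : Finset ℕ} (hS : ∀ p ∈ S, p.Prime) (a₁ a₂ b₁ b₂ : ℂ) :
    NF S a₁ a₂ b₁ b₂ = ∏ p ∈ S, (W4 a₁ a₂ b₁ b₂ p * (V4 a₁ a₂ b₁ b₂ p)⁻¹) := by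
  unfold NF
  refine Finset.prod_congr rfl fun p hp => ?_
  rw [V4_eq (hS p hp).ne_zero, W4]
  simp only [add_assoc]

lemma exactV {p : ℕ} (hp : p.Prime) {a₁ a₂ b₁ b₂ : ℂ} (h1 : -(1 / 100) ≤ a₁.re)
    (h2 : -(1 / 100) ≤ a₂.re) (h3 : -(1 / 100) ≤ b₁.re) (h4 : -(1 / 100) ≤ b₂.re) :
    W4 a₁ a₂ b₁ b₂ p * L4 0 a₁ a₂ b₁ b₂ p = V4 a₁ a₂ b₁ b₂ p := by
  obtain ⟨C, hC, hLF⟩ := K3.stLF4
  exact exact0 (C := C) hLF hp.ne_zero (nrm hp h1) (nrm hp h2) (nrm hp h3) (nrm hp h4)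

/-- the factor of a block without weight -/
lemma ES_NF {S : Finset ℕ} (hS : ∀ p ∈ S, p.Prime) {a₁ a₂ b₁ b₂ : ℂ} (h1 : -(1 / 100) ≤ a₁.re)
    (h2 : -(1 / 100) ≤ a₂.re) (h3 : -(1 / 100) ≤ b₁.re) (h4 : -(1 / 100) ≤ b₂.re) :
    ES S (Z4 a₁ a₂ b₁ b₂ S) * NF S a₁ a₂ b₁ b₂ = 1 := by
  rw [ES_Z4, NF_eq hS, ← Finset.prod_mul_distrib]
  refine Finset.prod_eq_one fun p hp => ?_
  have e := exactV (hS p hp) h1 h2 h3 h4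
  have hV := V4_ne (hS p hp) h1 h2 h3 h4
  calc L4 0 a₁ a₂ b₁ b₂ p * (W4 a₁ a₂ b₁ b₂ p * (V4 a₁ a₂ b₁ b₂ p)⁻¹) =
      (W4 a₁ a₂ b₁ b₂ p * L4 0 a₁ a₂ b₁ b₂ p) * (V4 a₁ a₂ b₁ b₂ p)⁻¹ := by ring
    _ = 1 := by rw [e, mul_inv_cancel₀ hV]

/-- the product of the four Euler products and `ZT` -/
noncomputable def PP (T : ℝ) (a₁ a₂ b₁ b₂ : ℂ) : ℂ :=
  K3.EP T (a₁ + b₁) * K3.EP T (a₁ + b₂) * K3.EP T (a₂ + b₁) * K3.EP T (a₂ + b₂) *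
    ZT T (a₁ + a₂ + b₁ + b₂)

lemma PP_NF (hT : 1 < T) {a₁ a₂ b₁ b₂ : ℂ} (h1 : -(1 / 100) ≤ a₁.re)
    (h2 : -(1 / 100) ≤ a₂.re) (h3 : -(1 / 100) ≤ b₁.re) (h4 : -(1 / 100) ≤ b₂.re) :
    PP T a₁ a₂ b₁ b₂ * NF (PS 0 T) a₁ a₂ b₁ b₂ = 1 := by
  have hpr : ∀ p ∈ PS 0 T, p.Prime := fun p hp => ((mem_PS le_rfl (by linarith)).mp hp).1
  have e1 := EP_W4 (T := T) (a₁ := a₁) (a₂ := a₂) (b₁ := b₁) (b₂ := b₂) fun p hp =>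
    ⟨hpr p hp, nrm (hpr p hp) h1, nrm (hpr p hp) h2, nrm (hpr p hp) h3, nrm (hpr p hp) h4⟩
  have e2 : ZT T (a₁ + a₂ + b₁ + b₂) = ∏ p ∈ PS 0 T, V4 a₁ a₂ b₁ b₂ p := by
    unfold ZT
    refine Finset.prod_congr rfl fun p hp => ?_
    rw [V4_eq (hpr p hp).ne_zero]
    simp only [add_assoc]
  have e3 : (∏ p ∈ PS 0 T, V4 a₁ a₂ b₁ b₂ p) * ∏ p ∈ PS 0 T, (V4 a₁ a₂ b₁ b₂ p)⁻¹ = 1 := by
    rw [← Finset.prod_mul_distrib]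
    exact Finset.prod_eq_one fun p hp => mul_inv_cancel₀ (V4_ne (hpr p hp) h1 h2 h3 h4)
  rw [PP, e2, NF_eq hpr, Finset.prod_mul_distrib]
  calc _ = (K3.EP T (a₁ + b₁) * K3.EP T (a₁ + b₂) * K3.EP T (a₂ + b₁) * K3.EP T (a₂ + b₂) *
      ∏ p ∈ PS 0 T, W4 a₁ a₂ b₁ b₂ p) *
      ((∏ p ∈ PS 0 T, V4 a₁ a₂ b₁ b₂ p) * ∏ p ∈ PS 0 T, (V4 a₁ a₂ b₁ b₂ p)⁻¹) := by ring
    _ = 1 := by rw [e1, e3, one_mul]

lemma NF_split (hT : 1 < T) (hM : 7 ≤ M) (a₁ a₂ b₁ b₂ : ℂ) :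
    NF (PS 0 T) a₁ a₂ b₁ b₂ = (∏ j ∈ Finset.range (JJ T + 1), NF (Sj T M (JJ T) j) a₁ a₂ b₁ b₂) *
      (∏ i ∈ Finset.range (M - 6), NF (UQ T i) a₁ a₂ b₁ b₂) *
        NF (PS (Real.exp (tq 0 * Real.log T)) T) a₁ a₂ b₁ b₂ :=
  prod_PS hT hM _

lemma prime_top (hT : 1 < T) : ∀ p ∈ PS (Real.exp (tq 0 * Real.log T)) T, p.Prime :=
  fun _ hp => ((Blk7.mem_top hT).mp hp).1

/-- the general form: the model with weight is the normalised product over the blocks -/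
lemma RW4_E4 (hT : 1 < T) (hM : 7 ≤ M) (W : (ℕ → ℂ) → ℝ) (α β : ℕ → (ℕ → ℂ) → ℝ)
    (hα : ∀ j f g, (∀ p ∈ Sj T M (JJ T) j, f p = g p) → α j f = α j g)
    (hβ : ∀ i f g, (∀ p ∈ UQ T i, f p = g p) → β i f = β i g)
    (hW : ∀ f, W (tw (1 / 2) f) = (∏ j ∈ Finset.range (JJ T + 1), α j f) *
      ∏ i ∈ Finset.range (M - 6), β i f) {a₁ a₂ b₁ b₂ : ℂ} (h1 : -(1 / 100) ≤ a₁.re)
    (h2 : -(1 / 100) ≤ a₂.re) (h3 : -(1 / 100) ≤ b₁.re) (h4 : -(1 / 100) ≤ b₂.re) :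
    RW4 T M W a₁ a₂ b₁ b₂ = PP T a₁ a₂ b₁ b₂ *
      ((∏ j ∈ Finset.range (JJ T + 1), E4 (Sj T M (JJ T) j) (fun f => ((α j f : ℝ) : ℂ))
        a₁ a₂ b₁ b₂) *
      ∏ i ∈ Finset.range (M - 6), E4 (UQ T i) (fun f => ((β i f : ℝ) : ℂ)) a₁ a₂ b₁ b₂) := by
  rw [RW4_gen hT hM W α β hα hβ hW]
  have e0 : ∀ (S : Finset ℕ) (w : (ℕ → ℂ) → ℂ), E4 S w a₁ a₂ b₁ b₂ =
      ES S (fun f => Z4 a₁ a₂ b₁ b₂ S f * w f) * NF S a₁ a₂ b₁ b₂ := fun S w => rfl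
  simp only [e0, Finset.prod_mul_distrib]
  have e1 := PP_NF hT h1 h2 h3 h4
  rw [NF_split hT hM] at e1
  have e2 := ES_NF (prime_top hT) h1 h2 h3 h4
  generalize (∏ j ∈ Finset.range (JJ T + 1), ES (Sj T M (JJ T) j)
    (fun f => Z4 a₁ a₂ b₁ b₂ (Sj T M (JJ T) j) f * ((α j f : ℝ) : ℂ))) = A at *
  generalize (∏ i ∈ Finset.range (M - 6), ES (UQ T i)
        (fun f => Z4 a₁ a₂ b₁ b₂ (UQ T i) f * ((β i f : ℝ) : ℂ))) = B at *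
  generalize ES (PS (Real.exp (tq 0 * Real.log T)) T)
        (Z4 a₁ a₂ b₁ b₂ (PS (Real.exp (tq 0 * Real.log T)) T)) = C at *
  generalize (∏ j ∈ Finset.range (JJ T + 1), NF (Sj T M (JJ T) j) a₁ a₂ b₁ b₂) = Nb at *
  generalize (∏ i ∈ Finset.range (M - 6), NF (UQ T i) a₁ a₂ b₁ b₂) = Nm at *
  generalize NF (PS (Real.exp (tq 0 * Real.log T)) T) a₁ a₂ b₁ b₂ = Nt at *
  generalize PP T a₁ a₂ b₁ b₂ = P at *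
  linear_combination (-(A * B * C)) * e1 + (A * B * P * Nb * Nm) * e2

lemma E4_one {S : Finset ℕ} (hS : ∀ p ∈ S, p.Prime) {a₁ a₂ b₁ b₂ : ℂ} (h1 : -(1 / 100) ≤ a₁.re)
    (h2 : -(1 / 100) ≤ a₂.re) (h3 : -(1 / 100) ≤ b₁.re) (h4 : -(1 / 100) ≤ b₂.re) :
    E4 S (fun _ => (((1 : ℝ) : ℝ) : ℂ)) a₁ a₂ b₁ b₂ = 1 := by
  have e0 : E4 S (fun _ => (((1 : ℝ) : ℝ) : ℂ)) a₁ a₂ b₁ b₂ =
      ES S (fun f => Z4 a₁ a₂ b₁ b₂ S f * (((1 : ℝ) : ℝ) : ℂ)) * NF S a₁ a₂ b₁ b₂ := rfl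
  rw [e0]
  simp only [ofReal_one, mul_one]
  exact ES_NF hS h1 h2 h3 h4

end OneM

open OneM

/-- (R2) the untwisted model -/
theorem stOne4 : StOne4 := by
  intro T M hT hM a₁ a₂ b₁ b₂ h1 h2 h3 h4
  have hT1 : 1 < T := by linarith
  have h := RW4_E4 hT1 hM (fun _ => 1) (fun _ _ => 1) (fun _ _ => 1) (fun _ _ _ _ => rfl)
    (fun _ _ _ _ => rfl) (fun f => by simp) h1 h2 h3 h4
  rw [h, Finset.prod_eq_one fun j hj => E4_one (fun p hp => (Blk7.mem_bot hT1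
    (by have := Finset.mem_range.mp hj; omega) hp).1) h1 h2 h3 h4,
    Finset.prod_eq_one fun i _ => E4_one (fun p hp => (Blk7.mem_UQ.mp hp).1) h1 h2 h3 h4,
    mul_one, mul_one]
  rfl

end K7
end Pool.Agent.Lib.MP_973905_nt
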