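import Pool.Agent.Lib.MP_973905_nt.K7.Stmts
import Pool.Agent.Lib.MP_973905_nt.XBound

/-! Module R12b (second part): crude bounds for the Euler product. -/

namespace Pool.Agent.Lib.MP_973905_nt
namespace K7

open MeasureTheory ProbabilityTheory Complex Filter Topology K1 K4 K5

namespace PBM

lemma exp_sub_one_le {y : ℝ} : Real.exp y - 1 ≤ y * Real.exp y := by
  have h5 := Real.add_one_le_exp (-y)
  have h6 : Real.exp (-y) * Real.exp y = 1 := by rw [← Real.exp_add]; simp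
  have h7 : 0 < Real.exp y := Real.exp_pos y
  nlinarith

lemma factor_le {L : ℝ} (hL : 1 ≤ L) {p : ℕ} (hp : p.Prime) (hpL : Real.log p ≤ L) {a : ℂ}
    (ha : ‖a‖ ≤ 1 / L) : ‖1 - (p : ℂ) ^ (-(1 + a + a))‖ ≤
      Real.exp (-(1 / (p : ℝ)) + 2 * Real.exp 2 / L * (Real.log p / p)) := by
  have hL0 : 0 < L := by linarith
  have hp0 : (0 : ℝ) < p := by exact_mod_cast hp.pos
  have hp1 : (1 : ℝ) < p := by exact_mod_cast hp.one_lt
  have hl0 : 0 ≤ Real.log p := Real.log_nonneg hp1.le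
  have hpC : (p : ℂ) ≠ 0 := by exact_mod_cast hp.ne_zero
  have e1 : (p : ℂ) ^ (-(1 + a + a)) = (p : ℂ)⁻¹ * cexp (-(2 * a * Real.log p)) := by
    rw [show -(1 + a + a) = -1 + -(2 * a) by ring, cpow_add _ _ hpC, cpow_neg_one,
      cpow_def_of_ne_zero hpC, ← natCast_log]
    congr 2
    ring
  have hn : ‖-(2 * a * (Real.log p : ℂ))‖ ≤ 2 * Real.log p / L := by
    rw [norm_neg, norm_mul, norm_mul, norm_real, Real.norm_eq_abs, abs_of_nonneg hl0]
    have : ‖(2 : ℂ)‖ = 2 := by simp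
    rw [this]
    calc 2 * ‖a‖ * Real.log p ≤ 2 * (1 / L) * Real.log p := by gcongr
      _ = 2 * Real.log p / L := by ring
  have h2 : 2 * Real.log p / L ≤ 2 := by
    rw [div_le_iff₀ hL0]; linarith
  have h3 : ‖cexp (-(2 * a * Real.log p)) - 1‖ ≤ 2 * Real.log p / L * Real.exp 2 := by
    refine (norm_exp_sub_one_le' _).trans ?_
    refine exp_sub_one_le.trans ?_
    have h4 := hn.trans h2
    gcongr
  have h8 : ‖1 - (p : ℂ) ^ (-(1 + a + a))‖ ≤
      (1 - 1 / (p : ℝ)) + 2 * Real.exp 2 / L * (Real.log p / p) := by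
    have e2 : 1 - (p : ℂ) ^ (-(1 + a + a)) = (1 - (p : ℂ)⁻¹) -
        (p : ℂ)⁻¹ * (cexp (-(2 * a * Real.log p)) - 1) := by
      rw [e1]; ring
    rw [e2]
    refine (norm_sub_le _ _).trans ?_
    have h9 : ‖(1 : ℂ) - (p : ℂ)⁻¹‖ = 1 - 1 / (p : ℝ) := by
      have : (1 : ℂ) - (p : ℂ)⁻¹ = ((1 - 1 / (p : ℝ) : ℝ) : ℂ) := by
        push_cast; ring
      rw [this, norm_real, Real.norm_eq_abs, abs_of_nonneg]
      rw [sub_nonneg, div_le_one hp0]
      exact hp1.le
    rw [h9]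
    have h10 : ‖(p : ℂ)⁻¹ * (cexp (-(2 * a * Real.log p)) - 1)‖ ≤
        2 * Real.exp 2 / L * (Real.log p / p) := by
      rw [norm_mul, norm_inv, norm_natCast]
      calc (p : ℝ)⁻¹ * ‖cexp (-(2 * a * Real.log p)) - 1‖ ≤
          (p : ℝ)⁻¹ * (2 * Real.log p / L * Real.exp 2) := by gcongr
        _ = _ := by ring
    linarith
  refine h8.trans ?_
  have h11 := Real.add_one_le_exp (-(1 / (p : ℝ)) + 2 * Real.exp 2 / L * (Real.log p / p))
  linarith

lemma one_sub_inv_le {x : ℝ} (h1 : x ≤ 3 / 4) :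
    (1 - x)⁻¹ ≤ Real.exp (x + 4 * x ^ 2) := by
  have h2 : 0 < 1 - x := by linarith
  rw [inv_le_iff_one_le_mul₀ h2]
  have h3 := Real.add_one_le_exp (x + 4 * x ^ 2)
  calc (1 : ℝ) ≤ (x + 4 * x ^ 2 + 1) * (1 - x) := by
        have : (x + 4 * x ^ 2 + 1) * (1 - x) = 1 + x ^ 2 * (3 - 4 * x) := by ring
        rw [this]
        have : 0 ≤ x ^ 2 * (3 - 4 * x) := mul_nonneg (sq_nonneg _) (by linarith)
        linarith
    _ ≤ _ := by gcongr

/-- bound for one factor of the Euler product -/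
lemma inv_factor_le {L : ℝ} (hL : 4 ≤ L) {p : ℕ} (hp : p.Prime) (hpL : Real.log p ≤ L) {a : ℂ}
    (ha : -(2 / L) ≤ a.re) : ‖(1 - (p : ℂ) ^ (-(1 + a)))⁻¹‖ ≤
      Real.exp (1 / (p : ℝ) + 2 * Real.exp 2 / L * (Real.log p / p) +
        4 * Real.exp 2 ^ 2 * ((p : ℝ) ^ 2)⁻¹) := by
  have hL0 : 0 < L := by linarith
  have hp0 : (0 : ℝ) < p := by exact_mod_cast hp.pos
  have hp2 : (2 : ℝ) ≤ p := by exact_mod_cast hp.two_le
  have hp1 : (1 : ℝ) < p := by linarith
  have hl0 : 0 ≤ Real.log p := Real.log_nonneg hp1.le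
  set x : ℝ := (p : ℝ) ^ (-(1 + a.re)) with hx
  have hn : ‖(p : ℂ) ^ (-(1 + a))‖ = x := by
    rw [norm_natCast_cpow_of_pos hp.pos, hx]
    simp
  have hx0 : 0 ≤ x := by positivity
  have h1 : x ≤ 3 / 4 := by
    have e1 : x ≤ (p : ℝ) ^ (-(1 / 2) : ℝ) := by
      rw [hx]
      apply Real.rpow_le_rpow_of_exponent_le hp1.le
      have : 2 / L ≤ 1 / 2 := by rw [div_le_iff₀ hL0]; linarith
      linarith
    have e2 : (p : ℝ) ^ (-(1 / 2) : ℝ) ≤ (2 : ℝ) ^ (-(1 / 2) : ℝ) :=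
      Real.rpow_le_rpow_of_nonpos (by norm_num) hp2 (by norm_num)
    have e3 : (2 : ℝ) ^ (-(1 / 2) : ℝ) ≤ 3 / 4 := by
      rw [Real.rpow_neg (by norm_num), ← Real.sqrt_eq_rpow]
      rw [inv_le_comm₀ (by positivity) (by norm_num)]
      rw [show ((3 : ℝ) / 4)⁻¹ = 4 / 3 by norm_num]
      apply Real.le_sqrt_of_sq_le
      norm_num
    linarith
  have h2 : x ≤ 1 / (p : ℝ) + 2 * Real.exp 2 / L * (Real.log p / p) ∧ x ≤ Real.exp 2 / p := by
    have e1 : x ≤ (p : ℝ)⁻¹ * Real.exp (2 * Real.log p / L) := by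
      rw [hx]
      have : (p : ℝ) ^ (-(1 + a.re)) = (p : ℝ)⁻¹ * Real.exp (-a.re * Real.log p) := by
        rw [show -(1 + a.re) = -1 + -a.re by ring, Real.rpow_add hp0, Real.rpow_neg_one,
          Real.rpow_def_of_pos hp0]
        congr 2
        ring
      rw [this]
      have e2 : -a.re * Real.log p ≤ 2 * Real.log p / L := by
        calc -a.re * Real.log p ≤ 2 / L * Real.log p := by gcongr; linarith
          _ = _ := by ring
      gcongr
    have h2 : 2 * Real.log p / L ≤ 2 := by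
      rw [div_le_iff₀ hL0]; linarith
    have hy0 : 0 ≤ 2 * Real.log p / L := by positivity
    constructor
    · have e3 : Real.exp (2 * Real.log p / L) ≤ 1 + 2 * Real.log p / L * Real.exp 2 := by
        have := exp_sub_one_le (y := 2 * Real.log p / L)
        have e4 : 2 * Real.log p / L * Real.exp (2 * Real.log p / L) ≤
          2 * Real.log p / L * Real.exp 2 := by gcongr
        linarith
      calc x ≤ (p : ℝ)⁻¹ * Real.exp (2 * Real.log p / L) := e1
        _ ≤ (p : ℝ)⁻¹ * (1 + 2 * Real.log p / L * Real.exp 2) := by gcongr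
        _ = _ := by ring
    · calc x ≤ (p : ℝ)⁻¹ * Real.exp (2 * Real.log p / L) := e1
        _ ≤ (p : ℝ)⁻¹ * Real.exp 2 := by gcongr
        _ = _ := by ring
  have h3 : ‖(1 - (p : ℂ) ^ (-(1 + a)))⁻¹‖ ≤ (1 - x)⁻¹ := by
    rw [norm_inv]
    apply inv_anti₀ (by linarith)
    have := norm_sub_norm_le 1 ((p : ℂ) ^ (-(1 + a)))
    rw [norm_one, hn] at this
    linarith
  refine h3.trans ((one_sub_inv_le h1).trans ?_)
  apply Real.exp_le_exp.2
  have h4 : x ^ 2 ≤ (Real.exp 2 / p) ^ 2 := by gcongr; exact h2.2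
  have h5 : 4 * (Real.exp 2 / p) ^ 2 = 4 * Real.exp 2 ^ 2 * ((p : ℝ) ^ 2)⁻¹ := by
    field_simp
  linarith [h2.1]

end PBM

open PBM in
/-- (R12b) crude bounds for the Euler product -/
theorem stPB : StPB := by
  refine ⟨?_, ?_⟩
  · obtain ⟨C1, hC1, h1⟩ := sum_log_div_le
    obtain ⟨C2, hC2, h2⟩ := sum_inv
    refine ⟨Real.exp (C2 + 2 * Real.exp 2 * (1 + C1) + 8 * Real.exp 2 ^ 2), Real.exp 4,
      Real.exp_pos _, by have := Real.add_one_le_exp (4 : ℝ); linarith, fun T hT => ?_⟩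
    have h50 : (5 : ℝ) ≤ T := by
      have := Real.add_one_le_exp (4 : ℝ)
      linarith
    have hL : 4 ≤ Real.log T := by
      rw [Real.le_log_iff_exp_le (by linarith)]
      exact hT
    have hL0 : 0 < Real.log T := by linarith
    have h3 := h1 T (by linarith)
    have h4 := abs_le.mp (h2 T (by linarith))
    have h5 : 2 * Real.exp 2 / Real.log T * ∑ p ∈ PS 0 T, (Real.log p / p) ≤
        2 * Real.exp 2 * (1 + C1) := by
      have h6 : 2 * Real.exp 2 / Real.log T * ∑ p ∈ PS 0 T, (Real.log p / p) ≤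
        2 * Real.exp 2 / Real.log T * (Real.log T + C1) := by
        gcongr
      refine h6.trans ?_
      rw [div_mul_eq_mul_div, div_le_iff₀ hL0]
      have h7 : Real.log T + C1 ≤ (1 + C1) * Real.log T := by nlinarith
      calc 2 * Real.exp 2 * (Real.log T + C1) ≤ 2 * Real.exp 2 * ((1 + C1) * Real.log T) := by
            gcongr
        _ = _ := by ring
    have hS : ∀ p ∈ PS 0 T, p.Prime := fun p hp => XB.prime_PS hp
    have h8 := XB.sum_inv_sq hS
    have hlog : ∀ p ∈ PS 0 T, Real.log p ≤ Real.log T := fun p hp => by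
      rw [mem_PS le_rfl (by linarith)] at hp
      exact Real.log_le_log hp.2.1 hp.2.2
    constructor
    · intro a ha
      calc ‖K3.EP T a‖ = ∏ p ∈ PS 0 T, ‖(1 - (p : ℂ) ^ (-(1 + a)))⁻¹‖ := by
            rw [K3.EP, norm_prod]
        _ ≤ ∏ p ∈ PS 0 T, Real.exp (1 / (p : ℝ) + 2 * Real.exp 2 / Real.log T * (Real.log p / p) +
              4 * Real.exp 2 ^ 2 * ((p : ℝ) ^ 2)⁻¹) :=
            Finset.prod_le_prod (fun _ _ => norm_nonneg _) fun p hp =>
              inv_factor_le hL (hS p hp) (hlog p hp) ha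
        _ = Real.exp (∑ p ∈ PS 0 T, 1 / (p : ℝ) +
              2 * Real.exp 2 / Real.log T * ∑ p ∈ PS 0 T, (Real.log p / p) +
              4 * Real.exp 2 ^ 2 * ∑ p ∈ PS 0 T, ((p : ℝ) ^ 2)⁻¹) := by
            rw [← Real.exp_sum, Finset.sum_add_distrib, Finset.sum_add_distrib, ← Finset.mul_sum,
              ← Finset.mul_sum]
        _ ≤ Real.exp ((C2 + 2 * Real.exp 2 * (1 + C1) + 8 * Real.exp 2 ^ 2) +
              Real.log (Real.log T)) := by
            apply Real.exp_le_exp.mpr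
            have h9 : 4 * Real.exp 2 ^ 2 * ∑ p ∈ PS 0 T, ((p : ℝ) ^ 2)⁻¹ ≤
                4 * Real.exp 2 ^ 2 * 2 := by gcongr
            linarith [h4.2]
        _ = _ := by rw [Real.exp_add, Real.exp_log hL0]
    · intro a ha
      calc ‖∏ p ∈ PS 0 T, (1 - (p : ℂ) ^ (-(1 + a + a)))‖
          = ∏ p ∈ PS 0 T, ‖1 - (p : ℂ) ^ (-(1 + a + a))‖ := norm_prod _ _
        _ ≤ ∏ p ∈ PS 0 T, Real.exp (-(1 / (p : ℝ)) +
              2 * Real.exp 2 / Real.log T * (Real.log p / p)) :=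
            Finset.prod_le_prod (fun _ _ => norm_nonneg _) fun p hp =>
              factor_le (by linarith) (hS p hp) (hlog p hp) ha
        _ = Real.exp (-(∑ p ∈ PS 0 T, (1 : ℝ) / p) + 2 * Real.exp 2 / Real.log T *
              ∑ p ∈ PS 0 T, (Real.log p / p)) := by
            rw [← Real.exp_sum, Finset.sum_add_distrib, ← Finset.mul_sum, Finset.sum_neg_distrib]
        _ ≤ Real.exp ((C2 + 2 * Real.exp 2 * (1 + C1) + 8 * Real.exp 2 ^ 2) -
              Real.log (Real.log T)) := by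
            apply Real.exp_le_exp.mpr
            have h9 : 0 ≤ 8 * Real.exp 2 ^ 2 := by positivity
            linarith [h4.1]
        _ = _ := by rw [Real.exp_sub, Real.exp_log hL0]
  · intro T a
    rw [K3.EP, norm_prod, norm_prod, ← Finset.prod_mul_distrib]
    refine Finset.prod_le_one (fun p _ => by positivity) fun p hp => ?_
    have h : (p : ℂ).arg ≠ Real.pi := by
      rw [natCast_arg]
      exact Real.pi_pos.ne
    have h2 := cpow_conj (p : ℂ) (-(1 + a + a)) h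
    rw [map_natCast] at h2
    have h3 : ‖1 - (p : ℂ) ^ (-(1 + ((starRingEnd ℂ) a + (starRingEnd ℂ) a)))‖ =
        ‖1 - (p : ℂ) ^ (-(1 + a + a))‖ := by
      rw [show -(1 + ((starRingEnd ℂ) a + (starRingEnd ℂ) a)) = (starRingEnd ℂ) (-(1 + a + a)) by
        simp only [map_neg, map_add, map_one]; ring]
      rw [h2, ← RCLike.norm_conj (1 - (p : ℂ) ^ (-(1 + a + a))), map_sub, map_one]
    rw [norm_inv, h3]
    exact inv_mul_le_one

end K7
end Pool.Agent.Lib.MP_973905_nt
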