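import Pool.Agent.Lib.MP_973905_nt.K7.Base
import Pool.Agent.Lib.MP_973905_nt.K3.TransferZ2
import Pool.Agent.Lib.MP_973905_nt.K1.Fin
import Pool.Agent.Lib.MP_973905_nt.K1R.CKR
import Pool.Agent.Lib.MP_973905_nt.K5.Rho

/-! Module (A4) of K7: the pairing on Gaussian means, with the weight `WF`. -/

namespace Pool.Agent.Lib.MP_973905_nt
namespace K7

open MeasureTheory ProbabilityTheory Complex Filter Topology K1 K4 K5

namespace PTW

/-! ### the random model -/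

lemma UU_SBq {T : ℝ} {M : ℕ} (hT : 1 < T) (hM : 7 ≤ M) : UU (SBq T M) = PS 0 T := by
  ext p
  rw [mem_UU, mem_PS le_rfl (by linarith)]
  constructor
  · rintro ⟨j, hj⟩
    change p ∈ BBq T M j at hj
    have hp := Blk7.BBq_prime hT hj
    refine ⟨hp, by exact_mod_cast hp.pos, ?_⟩
    by_cases h1 : (j : ℕ) ≤ JJ T
    · rw [Blk7.BBq_bot h1] at hj
      have h2 := (Blk7.mem_bot hT h1 hj).2
      have h3 := Blk7.bd_mono hT (Nat.zero_le (M - 6))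
      rw [Blk7.tq_last hM] at h3
      linarith [Blk7.bd_le hT]
    · by_cases h2 : (j : ℕ) ≤ JJ T + (M - 6)
      · rw [Blk7.BBq_mid h1 h2] at hj
        have h3 := (Blk7.mem_UQ.mp hj).2.2
        have h4 := Blk7.bd_mono hT (Nat.zero_le ((j : ℕ) - (JJ T + 1)))
        linarith [Blk7.bd_le hT]
      · rw [Blk7.BBq_top h1 h2] at hj
        exact ((Blk7.mem_top hT).mp hj).2.2
  · rintro ⟨h1, _, h3⟩
    obtain ⟨j, hj, hpj⟩ := Blk7.exists_BBq hT hM h1 h3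
    exact ⟨⟨j, hj⟩, hpj⟩

lemma factored_of_dvd {s : Finset ℕ} {d v : ℕ} (h : d ∣ v) (hv : v ∈ Nat.factoredNumbers s) :
    d ∈ Nat.factoredNumbers s := by
  rw [Nat.mem_factoredNumbers_iff_primeFactors_subset] at hv ⊢
  have hd0 : d ≠ 0 := fun h0 => hv.1 (by rw [h0] at h; exact Nat.eq_zero_of_zero_dvd h)
  exact ⟨hd0, (Nat.primeFactors_mono h hv.1).trans hv.2⟩

/-- Pairing of the square of the Euler product with one frequency in the random model. -/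
lemma er_pair2 {m : ℕ} {Sb : Fin m → Finset ℕ} (hB : Blk Sb) {u v : ℕ}
    (hu : u ∈ Nat.factoredNumbers (UU Sb)) (hv : v ∈ Nat.factoredNumbers (UU Sb)) :
    ER Sb (fun f => ZZ (UU Sb) (tw (1 / 2) f) ^ 2 * (f u * (starRingEnd ℂ) (f v))) =
      if u ∣ v then (K3.dv (v / u) : ℂ) * ((v / u : ℕ) : ℂ) ^ (-(1 / 2 : ℂ)) else 0 := by
  classical
  have hu1 : u ≠ 0 := Nat.ne_zero_of_mem_factoredNumbers hu
  have hv1 : v ≠ 0 := Nat.ne_zero_of_mem_factoredNumbers hv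
  have hZ : BC Sb (fun f => ZZ (UU Sb) (tw (1 / 2) f)) :=
    bc_ZZ (fun p hp => prime_of_mem_UU hB hp) (by norm_num)
  have hBC : BC Sb (fun f : ℕ → ℂ => ZZ (UU Sb) (tw (1 / 2) f) *
      (f u * (starRingEnd ℂ) (f v))) := hZ.mul ((bc_apply u).mul (bc_apply v).conj)
  have e0 : ER Sb (fun f => ZZ (UU Sb) (tw (1 / 2) f) ^ 2 *
      (f u * (starRingEnd ℂ) (f v))) =
      ER Sb (fun f => ZZ (UU Sb) (tw (1 / 2) f) *
        (ZZ (UU Sb) (tw (1 / 2) f) * (f u * (starRingEnd ℂ) (f v)))) := by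
    congr 1
    funext f
    ring
  rw [e0, ER_ZZ hB (w := 1 / 2) (by norm_num) hBC]
  have h1 : ∀ n : Nat.factoredNumbers (UU Sb),
      ER Sb (fun f => f n * (ZZ (UU Sb) (tw (1 / 2) f) *
        (f u * (starRingEnd ℂ) (f v)))) =
        if (n : ℕ) * u ∣ v then ((v / (n * u) : ℕ) : ℂ) ^ (-(1 / 2 : ℂ)) else 0 := by
    intro n
    have hn0 : (n : ℕ) ≠ 0 := Nat.ne_zero_of_mem_factoredNumbers n.2
    rw [← FinM.ER_ZZ_pair hB (w := 1 / 2) (by norm_num) (Nat.mul_mem_factoredNumbers n.2 hu) hv]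
    refine FinM.ER_congr fun ω => ?_
    rw [(cmul_XX Sb ω).2 _ _ hn0 hu1]
    ring
  simp only [h1]
  have hu0 : 0 < u := Nat.pos_of_ne_zero hu1
  by_cases huv : u ∣ v
  · rw [if_pos huv]
    obtain ⟨w, hw⟩ := huv
    have hw0 : 1 ≤ w := by
      rcases Nat.eq_zero_or_pos w with h | h
      · rw [h, mul_zero] at hw; omega
      · exact h
    have hvu : v / u = w := by rw [hw]; exact Nat.mul_div_cancel_left w hu0
    have hwm : w ∈ Nat.factoredNumbers (UU Sb) := factored_of_dvd (Dvd.intro_left u hw.symm) hv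
    rw [hvu]
    have e2 := tsum_subtype (Nat.factoredNumbers (UU Sb))
      (fun n : ℕ => (n : ℂ) ^ (-(1 / 2 : ℂ)) *
        (if n * u ∣ v then ((v / (n * u) : ℕ) : ℂ) ^ (-(1 / 2 : ℂ)) else 0))
    rw [e2, tsum_eq_sum (s := w.divisors)]
    · have e3 : ∀ n ∈ w.divisors, Set.indicator (Nat.factoredNumbers (UU Sb))
          (fun n : ℕ => (n : ℂ) ^ (-(1 / 2 : ℂ)) *
            (if n * u ∣ v then ((v / (n * u) : ℕ) : ℂ) ^ (-(1 / 2 : ℂ)) else 0)) n =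
          (w : ℂ) ^ (-(1 / 2 : ℂ)) := by
        intro n hn
        obtain ⟨m, hm⟩ := (Nat.mem_divisors.1 hn).1
        have hn0 : 1 ≤ n := Nat.pos_of_mem_divisors hn
        rw [Set.indicator_of_mem (factored_of_dvd (Nat.mem_divisors.1 hn).1 hwm)]
        have h2 : n * u ∣ v := ⟨m, by rw [hw, hm]; ring⟩
        have h3 : v / (n * u) = m := by
          rw [hw, hm, show u * (n * m) = n * u * m by ring]
          exact Nat.mul_div_cancel_left m (Nat.mul_pos hn0 hu0)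
        rw [if_pos h2, h3, hm]
        push_cast
        rw [natCast_mul_natCast_cpow]
      rw [Finset.sum_congr rfl e3, Finset.sum_const, nsmul_eq_mul]
      unfold K3.dv
      push_cast
      rfl
    · intro n hn
      by_cases h2 : n ∈ Nat.factoredNumbers (UU Sb)
      · rw [Set.indicator_of_mem h2, if_neg, mul_zero]
        intro h3
        apply hn
        rw [Nat.mem_divisors]
        refine ⟨?_, by omega⟩
        rw [hw, mul_comm n u] at h3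
        exact Nat.dvd_of_mul_dvd_mul_left hu0 h3
      · rw [Set.indicator_of_notMem h2]
  · rw [if_neg huv]
    have : ∀ n : Nat.factoredNumbers (UU Sb),
        ((n : ℕ) : ℂ) ^ (-(1 / 2 : ℂ)) *
          (if (n : ℕ) * u ∣ v then ((v / (n * u) : ℕ) : ℂ) ^ (-(1 / 2 : ℂ)) else 0) = 0 := by
      intro n
      rw [if_neg, mul_zero]
      intro h
      exact huv ((Dvd.intro_left _ rfl).trans h)
    simp only [this, tsum_zero]

/-! ### transfer -/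

/-- Transfer for finite sums of pairs of frequencies. -/
lemma transferW {δ T τ : ℝ} {M : ℕ} (hT : 1 < T) (hM : 7 ≤ M) (hδ : 0 < δ)
    (h3 : ∀ u v : ℕ, 1 ≤ u → 1 ≤ v → (u : ℝ) ≤ T ^ (1 - 3 * δ / 8 : ℝ) →
      (v : ℝ) ≤ T ^ (1 - 3 * δ / 8 : ℝ) →
      ‖EG (K3.Td δ T) τ (fun t => riemannZeta (1 / 2 + t * I) ^ 2 *
        (fs (t * I) u * (starRingEnd ℂ) (fs (t * I) v))) -
      (if u ∣ v then (K3.dv (v / u) : ℂ) * ((v / u : ℕ) : ℂ) ^ (-(1 / 2 : ℂ)) else 0)‖ ≤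
        T ^ (-20 : ℝ))
    {ι : Type*} (s : Finset ι) (c : ι → ℂ) (u v : ι → ℕ)
    (hs : ∀ i ∈ s, (1 ≤ u i ∧ (u i : ℝ) ≤ T ^ (1 - 3 * δ / 8 : ℝ)) ∧
      1 ≤ v i ∧ (v i : ℝ) ≤ T ^ (1 - 3 * δ / 8 : ℝ))
    (G : (ℕ → ℂ) → ℂ)
    (hG : ∀ f, CMul f → G f = ∑ i ∈ s, c i * (f (u i) * (starRingEnd ℂ) (f (v i)))) :
    ‖EG (K3.Td δ T) τ (fun t => riemannZeta (1 / 2 + t * I) ^ 2 * G (fs (t * I))) -
      ER (SBq T M) (fun f => ZZ (PS 0 T) (tw (1 / 2) f) ^ 2 * G f)‖ ≤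
      (∑ i ∈ s, ‖c i‖) * T ^ (-20 : ℝ) := by
  have hT0 : 0 < T := by linarith
  have hpow : T ^ (1 - 3 * δ / 8 : ℝ) ≤ T := by
    calc T ^ (1 - 3 * δ / 8 : ℝ) ≤ T ^ (1 : ℝ) :=
          Real.rpow_le_rpow_of_exponent_le hT.le (by linarith)
      _ = T := Real.rpow_one T
  have hB := Blk7.blk_SBq hT hM
  have hZU : PS 0 T = UU (SBq T M) := (UU_SBq hT hM).symm
  have eR : ER (SBq T M) (fun f => ZZ (PS 0 T) (tw (1 / 2) f) ^ 2 * G f) =
      ∑ i ∈ s, c i * (if u i ∣ v i then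
        (K3.dv (v i / u i) : ℂ) * ((v i / u i : ℕ) : ℂ) ^ (-(1 / 2 : ℂ)) else 0) := by
    rw [hZU]
    have hZ : BC (SBq T M) (fun f => ZZ (UU (SBq T M)) (tw (1 / 2) f)) :=
      bc_ZZ (fun p hp => prime_of_mem_UU hB hp) (by norm_num)
    have hZ2 : BC (SBq T M) (fun f => ZZ (UU (SBq T M)) (tw (1 / 2) f) ^ 2) := by
      have h := hZ.mul hZ
      simpa only [sq] using h
    have hbc : ∀ i, BC (SBq T M) (fun f => c i *
        (ZZ (UU (SBq T M)) (tw (1 / 2) f) ^ 2 * (f (u i) * (starRingEnd ℂ) (f (v i))))) :=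
      fun i => BC.const_mul (hZ2.mul ((bc_apply _).mul (bc_apply _).conj)) _
    have e2 : ER (SBq T M) (fun f => ZZ (UU (SBq T M)) (tw (1 / 2) f) ^ 2 * G f) =
        ER (SBq T M) (fun f => ∑ i ∈ s, c i *
          (ZZ (UU (SBq T M)) (tw (1 / 2) f) ^ 2 * (f (u i) * (starRingEnd ℂ) (f (v i))))) := by
      refine FinM.ER_congr fun ω => ?_
      rw [hG _ (cmul_XX _ ω), Finset.mul_sum]
      refine Finset.sum_congr rfl fun i _ => ?_
      ring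
    rw [e2, ER_sum _ fun i _ => hbc i]
    refine Finset.sum_congr rfl fun i hi => ?_
    have h := hs i hi
    rw [ER_const_mul, er_pair2 hB (Blk7.mem_factored_SBq hT hM h.1.1 (h.1.2.trans hpow))
      (Blk7.mem_factored_SBq hT hM h.2.1 (h.2.2.trans hpow))]
  have eG : EG (K3.Td δ T) τ (fun t => riemannZeta (1 / 2 + t * I) ^ 2 * G (fs (t * I))) =
      ∑ i ∈ s, c i * EG (K3.Td δ T) τ (fun t => riemannZeta (1 / 2 + t * I) ^ 2 *
        (fs (t * I) (u i) * (starRingEnd ℂ) (fs (t * I) (v i)))) := by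
    have hint : ∀ i ∈ s, Integrable (fun t : ℝ => c i * (riemannZeta (1 / 2 + t * I) ^ 2 *
        (fs (t * I) (u i) * (starRingEnd ℂ) (fs (t * I) (v i)))))
          (gaussianReal τ (VV (K3.Td δ T))) := fun i hi =>
      (K3.TransferZ2.integrable_pair (K3.Td δ T) τ (Nat.one_le_iff_ne_zero.mp (hs i hi).1.1)
        (Nat.one_le_iff_ne_zero.mp (hs i hi).2.1)).const_mul _
    simp only [EG]
    have e3 : ∀ t : ℝ, riemannZeta (1 / 2 + t * I) ^ 2 * G (fs (t * I)) =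
        ∑ i ∈ s, c i * (riemannZeta (1 / 2 + t * I) ^ 2 *
          (fs (t * I) (u i) * (starRingEnd ℂ) (fs (t * I) (v i)))) := by
      intro t
      rw [hG _ (cmul_fs _), Finset.mul_sum]
      refine Finset.sum_congr rfl fun i _ => ?_
      ring
    simp only [e3]
    rw [integral_finsetSum _ hint]
    refine Finset.sum_congr rfl fun i _ => ?_
    exact integral_const_mul _ _
  rw [eR, eG, ← Finset.sum_sub_distrib, Finset.sum_mul]
  refine (norm_sum_le _ _).trans (Finset.sum_le_sum fun i hi => ?_)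
  have h := hs i hi
  rw [← mul_sub, norm_mul]
  exact mul_le_mul_of_nonneg_left (h3 _ _ h.1.1 h.2.1 h.1.2 h.2.2) (norm_nonneg _)

/-! ### the functions -/

lemma fs_half (t : ℝ) : fs (1 / 2 + t * I) = tw (1 / 2) (fs (t * I)) := by
  funext n
  rcases Nat.eq_zero_or_pos n with h | h
  · subst h
    have h1 : (-(1 / 2 + (t : ℂ) * I)) ≠ 0 := by
      intro h0
      have := congrArg Complex.re h0
      simp at this
    have h2 : (-(1 / 2 : ℂ)) ≠ 0 := by norm_num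
    simp only [fs, tw, Nat.cast_zero]
    rw [Complex.zero_cpow h1, Complex.zero_cpow h2, zero_mul]
  · have hn : (n : ℂ) ≠ 0 := by exact_mod_cast h.ne'
    simp only [fs, tw]
    rw [← Complex.cpow_add _ _ hn]
    congr 1
    ring

lemma PA_abs_le (δ θ x : ℝ) : |PA δ θ x| ≤ 1 := by
  unfold PA
  rw [abs_of_nonneg (mul_nonneg (Real.smoothTransition.nonneg _) (Real.smoothTransition.nonneg _))]
  exact mul_le_one₀ (Real.smoothTransition.le_one _) (Real.smoothTransition.nonneg _)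
    (Real.smoothTransition.le_one _)

lemma PA_ne {δ θ x : ℝ} (hδ : 0 < δ) (h : PA δ θ x ≠ 0) : x ≤ 1 / 2 - θ - δ := by
  by_contra h1
  apply h
  unfold PA
  rw [Real.smoothTransition.zero_of_nonpos, zero_mul]
  apply div_nonpos_of_nonpos_of_nonneg _ hδ.le
  linarith

lemma size_of_PA {δ θ T : ℝ} (hδ : 0 < δ) (hT : 1 < T) {n : ℕ} (hn : 1 ≤ n)
    (h : PA δ θ (Real.log n / Real.log T) ≠ 0) : (n : ℝ) ≤ T ^ (1 / 2 - θ - δ) := by
  have h1 := PA_ne hδ h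
  have hL : 0 < Real.log T := Real.log_pos hT
  have hn0 : (0 : ℝ) < n := by exact_mod_cast hn
  rw [div_le_iff₀ hL] at h1
  rw [Real.rpow_def_of_pos (by linarith), ← Real.log_le_iff_le_exp hn0]
  linarith

lemma norm_half_le {n : ℕ} (hn : 1 ≤ n) : ‖(n : ℂ) ^ (-(1 / 2 : ℂ))‖ ≤ 1 := by
  rw [Complex.norm_natCast_cpow_of_pos hn]
  have : (-(1 / 2 : ℂ)).re = -(1 / 2) := by simp
  rw [this]
  exact Real.rpow_le_one_of_one_le_of_nonpos (by exact_mod_cast hn) (by norm_num)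

/-- Lower bound for the size of the main term. -/
lemma BF_lower {κ : ℝ} (h0 : 0 < κ) (h1 : κ < 1) (M : ℕ) : ∃ c : ℝ, 0 < c ∧ ∀ T : ℝ, 1 ≤ Real.log T →
    c ≤ BF κ T M * Real.log T ^ 4 := by
  obtain ⟨-, -, -, C, hC, hab, -⟩ := K5.stRho κ h0 h1
  have hCi : 0 < C⁻¹ := inv_pos.2 (by linarith)
  have haF : ∀ i, 0 < aF κ i := fun i => lt_of_lt_of_le hCi (hab i).1
  have hP : 0 < ∏ i ∈ Finset.range (M - 6), aF κ i := Finset.prod_pos fun i _ => haF i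
  have hK : 0 < aK (1 + κ) := K1R.CKR.aK_pos2 (by linarith) (by linarith)
  set E : ℝ := Real.exp (Real.eulerMascheroniConstant - M) with hE
  have hE0 : 0 < E := Real.exp_pos _
  refine ⟨aK (1 + κ) * (Real.pi ^ 2 / 6) * E ^ ((1 + κ) ^ 2 - 4) *
    ∏ i ∈ Finset.range (M - 6), aF κ i, by positivity, fun T hL => ?_⟩
  have hL0 : 0 < Real.log T := by linarith
  have e1 : BF κ T M * Real.log T ^ 4 = (aK (1 + κ) * (Real.pi ^ 2 / 6) * E ^ ((1 + κ) ^ 2 - 4) *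
      ∏ i ∈ Finset.range (M - 6), aF κ i) * Real.log T ^ (((1 + κ) ^ 2 - 4) + 4) := by
    unfold BF D4 lM
    rw [← hE, Real.mul_rpow hE0.le hL0.le, Real.rpow_add hL0]
    have : Real.log T ^ (4 : ℝ) = Real.log T ^ 4 := by
      rw [← Real.rpow_natCast]; norm_num
    rw [this]
    ring
  rw [e1]
  have h2 : 1 ≤ Real.log T ^ (((1 + κ) ^ 2 - 4) + 4) := by
    apply Real.one_le_rpow hL
    nlinarith [sq_nonneg (1 + κ)]
  have h3 : 0 ≤ aK (1 + κ) * (Real.pi ^ 2 / 6) * E ^ ((1 + κ) ^ 2 - 4) *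
      ∏ i ∈ Finset.range (M - 6), aF κ i := by positivity
  nlinarith

end PTW

open PTW in
/-- (A4) the pairing on Gaussian means -/
theorem stPairTW (hr : StPairW) (hq : StBQ7) (h2 : K3.StZ2Pair) : StPairTW := by
  classical
  intro κ δ η hκ hκ1 hδ hδ1 hη
  obtain ⟨Ma, hMa⟩ := hr κ δ (η / 2) hκ hκ1 hδ hδ1 (by positivity)
  obtain ⟨Mb, hMb7, hMb⟩ := hq κ hκ hκ1
  obtain ⟨T₂, hT₂, hZ⟩ := h2 δ hδ (by linarith)
  refine ⟨max Ma Mb, fun M hM => ?_⟩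
  obtain ⟨T₁, hT₁, hR⟩ := hMa M ((le_max_left _ _).trans hM)
  obtain ⟨T₃, hT₃, hS⟩ := hMb M ((le_max_right _ _).trans hM)
  obtain ⟨cb, hcb, hlow⟩ := BF_lower hκ hκ1 M
  have hM7 : 7 ≤ M := hMb7.trans ((le_max_right _ _).trans hM)
  refine ⟨max T₁ (max T₂ (max T₃ (2 / (η * cb)))), hT₁.trans (le_max_left _ _),
    fun T hT τ hτ1 hτ2 θ hθ => ?_⟩
  simp only [max_le_iff] at hT
  obtain ⟨hTa, hTb, hTc, hTd⟩ := hT
  have hT3 : 3 ≤ T := hT₁.trans hTa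
  have hT1 : 1 < T := by linarith
  have hT0 : 0 < T := by linarith
  have hL1 : 1 ≤ Real.log T := by
    rw [Real.le_log_iff_exp_le hT0]
    linarith [Real.exp_one_lt_d9]
  have hθ0 : 0 ≤ θ := by rcases hθ with h | h <;> rw [h] <;> norm_num
  obtain ⟨c, hc1, hc2, hc3⟩ := (hS T hTc (Finset.range (JJ T + 1)) ∅).1
  set N : ℕ := ⌊T ^ (1 / 60 : ℝ)⌋₊ with hN
  have hNle : (N : ℝ) ≤ T ^ (1 / 60 : ℝ) := Nat.floor_le (by positivity)
  have hFle : ((⌊T⌋₊ : ℕ) : ℝ) ≤ T := Nat.floor_le hT0.le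
  -- the coefficients
  set φ₁ : ℕ → ℝ := fun a => PA δ (1 / 60) (Real.log a / Real.log T) with hφ₁
  set φ₂ : ℕ → ℝ := fun a => PA δ θ (Real.log a / Real.log T) with hφ₂
  set hh : ℕ → ℂ := fun n => (n : ℂ) ^ (-(1 / 2 : ℂ)) with hhh
  set co : ℕ × ℕ × ℕ × ℕ → ℂ := fun i =>
    ((φ₁ i.1 : ℂ) * (starRingEnd ℂ) (hh i.1)) * ((φ₂ i.2.1 : ℂ) * (starRingEnd ℂ) (hh i.2.1)) *
      (c i.2.2.1 i.2.2.2 * (hh i.2.2.1 * (starRingEnd ℂ) (hh i.2.2.2))) with hco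
  set S : Finset (ℕ × ℕ × ℕ × ℕ) := Finset.Icc 1 ⌊T⌋₊ ×ˢ Finset.Icc 1 ⌊T⌋₊ ×ˢ
    Finset.Icc 1 N ×ˢ Finset.Icc 1 N with hSdef
  set s : Finset (ℕ × ℕ × ℕ × ℕ) := S.filter (fun i => co i ≠ 0) with hs
  set G : (ℕ → ℂ) → ℂ := fun f =>
    (starRingEnd ℂ) (FourG.SG (PA δ (1 / 60)) T (tw (1 / 2) f) *
      FourG.SG (PA δ θ) T (tw (1 / 2) f)) *
    ((WF κ T M (Finset.range (JJ T + 1)) ∅ (tw (1 / 2) f) : ℝ) : ℂ) with hGdef
  have hmemS : ∀ i ∈ S, (1 ≤ i.1 ∧ i.1 ≤ ⌊T⌋₊) ∧ (1 ≤ i.2.1 ∧ i.2.1 ≤ ⌊T⌋₊) ∧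
      (1 ≤ i.2.2.1 ∧ i.2.2.1 ≤ N) ∧ (1 ≤ i.2.2.2 ∧ i.2.2.2 ≤ N) := by
    intro i hi
    simp only [hSdef, Finset.mem_product, Finset.mem_Icc] at hi
    exact hi
  have hG : ∀ f, CMul f → G f = ∑ i ∈ s, co i * (f i.2.2.1 *
      (starRingEnd ℂ) (f (i.2.2.2 * (i.1 * i.2.1)))) := by
    intro f hf
    have hfil : ∑ i ∈ s, co i * (f i.2.2.1 * (starRingEnd ℂ) (f (i.2.2.2 * (i.1 * i.2.1)))) =
        ∑ i ∈ S, co i * (f i.2.2.1 * (starRingEnd ℂ) (f (i.2.2.2 * (i.1 * i.2.1)))) := by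
      rw [hs]
      refine Finset.sum_filter_of_ne fun i _ h => ?_
      exact left_ne_zero_of_mul h
    rw [hfil]
    rw [hSdef, Finset.sum_product]
    simp only [Finset.sum_product, hGdef]
    have hW : ((WF κ T M (Finset.range (JJ T + 1)) ∅ (tw (1 / 2) f) : ℝ) : ℂ) =
        GB N c (tw (1 / 2) f) := hc3 _ (cmul_tw hf (1 / 2))
    rw [hW]
    unfold FourG.SG GB
    rw [map_mul, map_sum, map_sum, Finset.sum_mul_sum, Finset.sum_mul]
    refine Finset.sum_congr rfl fun a ha => ?_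
    rw [Finset.sum_mul]
    refine Finset.sum_congr rfl fun b hb => ?_
    rw [Finset.mul_sum]
    refine Finset.sum_congr rfl fun m hm => ?_
    rw [Finset.mul_sum]
    refine Finset.sum_congr rfl fun n hn => ?_
    have ha0 : a ≠ 0 := by have := (Finset.mem_Icc.mp ha).1; omega
    have hb0 : b ≠ 0 := by have := (Finset.mem_Icc.mp hb).1; omega
    have hn0 : n ≠ 0 := by have := (Finset.mem_Icc.mp hn).1; omega
    rw [hf.2 n (a * b) hn0 (mul_ne_zero ha0 hb0), hf.2 a b ha0 hb0]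
    simp only [hco, hφ₁, hφ₂, hhh, tw, map_mul, Complex.conj_ofReal]
    ring
  have hspec : ∀ i ∈ s, (1 ≤ i.2.2.1 ∧ ((i.2.2.1 : ℕ) : ℝ) ≤ T ^ (1 - 3 * δ / 8 : ℝ)) ∧
      1 ≤ i.2.2.2 * (i.1 * i.2.1) ∧
        ((i.2.2.2 * (i.1 * i.2.1) : ℕ) : ℝ) ≤ T ^ (1 - 3 * δ / 8 : ℝ) := by
    intro i hi
    rw [hs, Finset.mem_filter] at hi
    obtain ⟨⟨ha, ha'⟩, ⟨hb, hb'⟩, ⟨hm, hm'⟩, ⟨hn, hn'⟩⟩ := hmemS i hi.1
    have hne := hi.2
    have h1 : PA δ (1 / 60) (Real.log i.1 / Real.log T) ≠ 0 := by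
      intro h0
      apply hne
      simp only [hco, hφ₁]
      rw [h0]; simp
    have h2 : PA δ θ (Real.log i.2.1 / Real.log T) ≠ 0 := by
      intro h0
      apply hne
      simp only [hco, hφ₂]
      rw [h0]; simp
    have h3 := size_of_PA hδ hT1 ha h1
    have h4 := size_of_PA hδ hT1 hb h2
    have hmN : ((i.2.2.1 : ℕ) : ℝ) ≤ N := by exact_mod_cast hm'
    have hnN : ((i.2.2.2 : ℕ) : ℝ) ≤ N := by exact_mod_cast hn'
    refine ⟨⟨hm, ?_⟩, ?_, ?_⟩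
    · exact (hmN.trans hNle).trans (Real.rpow_le_rpow_of_exponent_le hT1.le (by linarith))
    · exact Nat.mul_pos hn (Nat.mul_pos ha hb)
    · push_cast
      calc ((i.2.2.2 : ℕ) : ℝ) * (((i.1 : ℕ) : ℝ) * ((i.2.1 : ℕ) : ℝ))
          ≤ T ^ (1 / 60 : ℝ) * (T ^ (1 / 2 - 1 / 60 - δ) * T ^ (1 / 2 - θ - δ)) := by
            gcongr
            exact hnN.trans hNle
        _ = T ^ (1 / 60 + ((1 / 2 - 1 / 60 - δ) + (1 / 2 - θ - δ))) := by
            rw [Real.rpow_add hT0, Real.rpow_add hT0]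
        _ ≤ T ^ (1 - 3 * δ / 8 : ℝ) :=
            Real.rpow_le_rpow_of_exponent_le hT1.le (by linarith)
  have hsum : ∑ i ∈ s, ‖co i‖ ≤ T ^ (3 : ℝ) := by
    have h1 : ∀ i ∈ S, ‖co i‖ ≤ T ^ (1 / 2000 : ℝ) := by
      intro i hi
      obtain ⟨⟨ha, -⟩, ⟨hb, -⟩, ⟨hm, -⟩, ⟨hn, -⟩⟩ := hmemS i hi
      have n1 : ‖hh i.1‖ ≤ 1 := norm_half_le ha
      have n2 : ‖hh i.2.1‖ ≤ 1 := norm_half_le hb
      have n3 : ‖hh i.2.2.1‖ ≤ 1 := norm_half_le hm
      have n4 : ‖hh i.2.2.2‖ ≤ 1 := norm_half_le hn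
      have p1 : |φ₁ i.1| ≤ 1 := PA_abs_le _ _ _
      have p2 : |φ₂ i.2.1| ≤ 1 := PA_abs_le _ _ _
      simp only [hco]
      rw [norm_mul, norm_mul, norm_mul, norm_mul, norm_mul, norm_mul, RCLike.norm_conj,
        RCLike.norm_conj, RCLike.norm_conj, Complex.norm_real, Complex.norm_real,
        Real.norm_eq_abs, Real.norm_eq_abs]
      have q1 : |φ₁ i.1| * ‖hh i.1‖ ≤ 1 := mul_le_one₀ p1 (norm_nonneg _) n1
      have q2 : |φ₂ i.2.1| * ‖hh i.2.1‖ ≤ 1 := mul_le_one₀ p2 (norm_nonneg _) n2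
      have q3 : ‖hh i.2.2.1‖ * ‖hh i.2.2.2‖ ≤ 1 := mul_le_one₀ n3 (norm_nonneg _) n4
      have q4 : ‖c i.2.2.1 i.2.2.2‖ * (‖hh i.2.2.1‖ * ‖hh i.2.2.2‖) ≤ T ^ (1 / 2000 : ℝ) * 1 :=
        mul_le_mul (hc1 _ _) q3 (by positivity) (by positivity)
      have q5 : |φ₁ i.1| * ‖hh i.1‖ * (|φ₂ i.2.1| * ‖hh i.2.1‖) ≤ 1 :=
        mul_le_one₀ q1 (by positivity) q2
      calc _ ≤ 1 * (T ^ (1 / 2000 : ℝ) * 1) := mul_le_mul q5 q4 (by positivity) zero_le_one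
        _ = _ := by ring
    calc ∑ i ∈ s, ‖co i‖ ≤ ∑ i ∈ S, ‖co i‖ :=
          Finset.sum_le_sum_of_subset_of_nonneg (Finset.filter_subset _ _)
            fun i _ _ => norm_nonneg _
      _ ≤ ∑ _i ∈ S, T ^ (1 / 2000 : ℝ) := Finset.sum_le_sum h1
      _ = (S.card : ℝ) * T ^ (1 / 2000 : ℝ) := by rw [Finset.sum_const, nsmul_eq_mul]
      _ ≤ (T * (T * (T ^ (1 / 60 : ℝ) * T ^ (1 / 60 : ℝ)))) * T ^ (1 / 2000 : ℝ) := by
          have hcard : (S.card : ℝ) = (⌊T⌋₊ : ℝ) * ((⌊T⌋₊ : ℝ) * ((N : ℝ) * N)) := by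
            rw [hSdef]
            simp only [Finset.card_product, Nat.card_Icc, Nat.add_sub_cancel]
            push_cast
            ring
          rw [hcard]
          gcongr
      _ = T ^ (1 + (1 + (1 / 60 + 1 / 60)) + 1 / 2000 : ℝ) := by
          rw [Real.rpow_add hT0, Real.rpow_add hT0, Real.rpow_add hT0, Real.rpow_add hT0,
            Real.rpow_one]
      _ ≤ T ^ (3 : ℝ) := Real.rpow_le_rpow_of_exponent_le hT1.le (by norm_num)
  have h3 := transferW (M := M) hT1 hM7 hδ (fun u v hu hv hu' hv' =>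
    hZ T hTb τ hτ1 hτ2 u v hu hv hu' hv') s co (fun i => i.2.2.1)
    (fun i => i.2.2.2 * (i.1 * i.2.1)) hspec G hG
  have h4 := hR T hTa θ hθ
  have e1 : ∀ t : ℝ, riemannZeta (1 / 2 + t * I) ^ 2 *
        (starRingEnd ℂ) (FourG.SG (PA δ (1 / 60)) T (fs (1 / 2 + t * I)) *
          FourG.SG (PA δ θ) T (fs (1 / 2 + t * I))) *
        ((WF κ T M (Finset.range (JJ T + 1)) ∅ (fs (1 / 2 + t * I)) : ℝ) : ℂ) =
      riemannZeta (1 / 2 + t * I) ^ 2 * G (fs (t * I)) := by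
    intro t
    simp only [hGdef]
    rw [fs_half t]
    ring
  have e2 : (fun f => ZZ (PS 0 T) (tw (1 / 2) f) ^ 2 *
        (starRingEnd ℂ) (FourG.SG (PA δ (1 / 60)) T (tw (1 / 2) f) *
          FourG.SG (PA δ θ) T (tw (1 / 2) f)) *
        ((WF κ T M (Finset.range (JJ T + 1)) ∅ (tw (1 / 2) f) : ℝ) : ℂ)) =
      fun f => ZZ (PS 0 T) (tw (1 / 2) f) ^ 2 * G f := by
    funext f
    simp only [hGdef]
    ring
  rw [e2] at h4
  simp only [e1]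
  have h5 : (∑ i ∈ s, ‖co i‖) * T ^ (-20 : ℝ) ≤ η / 2 * (BF κ T M * Real.log T ^ 4) := by
    have hl := hlow T hL1
    have h7 : T ^ (3 : ℝ) * T ^ (-20 : ℝ) ≤ T⁻¹ := by
      rw [← Real.rpow_neg_one, ← Real.rpow_add hT0]
      exact Real.rpow_le_rpow_of_exponent_le hT1.le (by norm_num)
    have h8 : T⁻¹ ≤ η / 2 * cb := by
      rw [inv_le_comm₀ hT0 (by positivity)]
      refine le_trans (le_of_eq ?_) hTd
      field_simp
    calc (∑ i ∈ s, ‖co i‖) * T ^ (-20 : ℝ) ≤ T ^ (3 : ℝ) * T ^ (-20 : ℝ) := by gcongr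
      _ ≤ η / 2 * cb := h7.trans h8
      _ ≤ _ := by gcongr
  refine (norm_sub_le_norm_sub_add_norm_sub _ _ _).trans ((add_le_add (h3.trans h5) h4).trans ?_)
  apply le_of_eq
  ring

end K7
end Pool.Agent.Lib.MP_973905_nt
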