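import Pool.Agent.Lib.MP_973905_nt.K7.Base
import Pool.Agent.Lib.MP_973905_nt.K5.Point
import Pool.Agent.Lib.MP_973905_nt.K4.Red
import Pool.Agent.Lib.MP_973905_nt.K3.SDBad
import Pool.Agent.Lib.MP_973905_nt.K3.TransferZ2

/-! (R21) the pairing of `ζ²` with `conj (A₁ A)` in the random model, with the weight `WF`. -/

namespace Pool.Agent.Lib.MP_973905_nt
namespace K7

open MeasureTheory ProbabilityTheory Complex Filter Topology K1 K4 K5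
open scoped ENNReal

namespace PW

open FourG (Cut gh gh_int SG)
open K3.SDB

/-! ### blocks -/

lemma UU_SBq {T : ℝ} {M : ℕ} (hT : 1 < T) (hM : 7 ≤ M) : UU (SBq T M) = PS 0 T := by
  ext p
  rw [mem_UU, mem_PS le_rfl (by linarith)]
  constructor
  · rintro ⟨j, hj⟩
    change p ∈ BBq T M j at hj
    have hp := Blk7.BBq_prime hT hj
    refine ⟨hp, by exact_mod_cast hp.pos, ?_⟩
    by_cases h1 : (j : ℕ) ≤ JJ T
    · rw [Blk7.BBq_bot h1] at hj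
      have h2 := (Blk7.mem_bot hT h1 hj).2
      have h3 := Blk7.bd_mono hT (show 0 ≤ M - 6 by omega)
      rw [Blk7.tq_last hM] at h3
      exact h2.trans (h3.trans (Blk7.bd_le hT))
    · by_cases h2 : (j : ℕ) ≤ JJ T + (M - 6)
      · rw [Blk7.BBq_mid h1 h2] at hj
        have h3 := (Blk7.mem_UQ.mp hj).2.2
        exact h3.trans ((Blk7.bd_mono hT (Nat.zero_le _)).trans (Blk7.bd_le hT))
      · rw [Blk7.BBq_top h1 h2] at hj
        exact ((Blk7.mem_top hT).mp hj).2.2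
  · rintro ⟨h1, _, h3⟩
    obtain ⟨j, hj, hpj⟩ := Blk7.exists_BBq hT hM h1 h3
    exact ⟨⟨j, hj⟩, hpj⟩

/-- Pairing of the Euler product with one frequency in the random model. -/
lemma er_pair {T : ℝ} (hT : 1 < T) {M : ℕ} (hM : 7 ≤ M) {u v : ℕ}
    (hmu : u ∈ Nat.factoredNumbers (UU (SBq T M)))
    (hv1 : 1 ≤ v) (hvT : (v : ℝ) ≤ T) :
    ER (SBq T M) (fun f => ZZ (PS 0 T) (tw (1 / 2) f) * (f u * (starRingEnd ℂ) (f v))) =
      if u ∣ v then ((v / u : ℕ) : ℂ) ^ (-(1 / 2 : ℂ)) else 0 := by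
  have hB := Blk7.blk_SBq hT hM
  have hu1 : u ≠ 0 := Nat.ne_zero_of_mem_factoredNumbers hmu
  have hmv := Blk7.mem_factored_SBq hT hM hv1 hvT
  have hBC : BC (SBq T M) (fun f : ℕ → ℂ => f u * (starRingEnd ℂ) (f v)) :=
    (bc_apply u).mul (bc_apply v).conj
  rw [← UU_SBq hT hM, ER_ZZ hB (w := 1 / 2) (by norm_num) hBC]
  have h1 : ∀ n : Nat.factoredNumbers (UU (SBq T M)),
      ER (SBq T M) (fun f => f n * (f u * (starRingEnd ℂ) (f v))) =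
        if (n : ℕ) * u = v then 1 else 0 := by
    intro n
    have hn0 : (n : ℕ) ≠ 0 := Nat.ne_zero_of_mem_factoredNumbers n.2
    rw [← ER_pair (Nat.mul_mem_factoredNumbers n.2 hmu) hmv]
    simp only [ER_eq]
    refine integral_congr_ae (Filter.Eventually.of_forall fun ω => ?_)
    simp only
    rw [(cmul_XX (SBq T M) ω).2 _ _ hn0 (by omega), mul_assoc]
  simp only [h1]
  by_cases huv : u ∣ v
  · rw [if_pos huv]
    obtain ⟨w, hw⟩ := huv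
    have hu0 : 0 < u := Nat.pos_of_ne_zero hu1
    have hw0 : 1 ≤ w := by
      rcases Nat.eq_zero_or_pos w with h | h
      · rw [h, mul_zero] at hw; omega
      · exact h
    have hvu : v / u = w := by rw [hw]; exact Nat.mul_div_cancel_left w hu0
    have hwT : (w : ℝ) ≤ T := by
      have : w ≤ v := by rw [hw]; exact Nat.le_mul_of_pos_left w hu0
      have : (w : ℝ) ≤ v := by exact_mod_cast this
      linarith
    have hmw := Blk7.mem_factored_SBq hT hM hw0 hwT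
    rw [tsum_eq_single (⟨w, hmw⟩ : Nat.factoredNumbers (UU (SBq T M)))]
    · rw [hvu]
      simp only
      rw [if_pos (by rw [hw, mul_comm]), mul_one]
    · intro n hn
      rw [if_neg, mul_zero]
      intro h
      apply hn
      apply Subtype.ext
      simp only
      rw [hw, mul_comm] at h
      exact Nat.eq_of_mul_eq_mul_left hu0 h
  · rw [if_neg huv]
    have : ∀ n : Nat.factoredNumbers (UU (SBq T M)),
        ((n : ℕ) : ℂ) ^ (-(1 / 2 : ℂ)) * (if (n : ℕ) * u = v then (1 : ℂ) else 0) = 0 := by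
      intro n
      rw [if_neg, mul_zero]
      intro h
      exact huv ⟨n, by rw [← h, mul_comm]⟩
    simp only [this, tsum_zero]

/-- Pairing of the square of the Euler product with one frequency in the random model. -/
lemma er_pair2 {T : ℝ} (hT : 1 < T) {M : ℕ} (hM : 7 ≤ M) {u v : ℕ} (hu1 : 1 ≤ u) (huT : (u : ℝ) ≤ T)
    (hv1 : 1 ≤ v) (hvT : (v : ℝ) ≤ T) :
    ER (SBq T M) (fun f => ZZ (PS 0 T) (tw (1 / 2) f) ^ 2 * (f u * (starRingEnd ℂ) (f v))) =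
      if u ∣ v then (K3.dv (v / u) : ℂ) * ((v / u : ℕ) : ℂ) ^ (-(1 / 2 : ℂ)) else 0 := by
  classical
  have hB := Blk7.blk_SBq hT hM
  have hmu := Blk7.mem_factored_SBq hT hM hu1 huT
  have hZ : BC (SBq T M) (fun f => ZZ (PS 0 T) (tw (1 / 2) f)) :=
    bc_ZZ (fun p hp => by
      rw [← UU_SBq hT hM] at hp
      exact prime_of_mem_UU (Blk7.blk_SBq hT hM) hp) (by norm_num)
  have hBC : BC (SBq T M) (fun f : ℕ → ℂ => ZZ (PS 0 T) (tw (1 / 2) f) *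
      (f u * (starRingEnd ℂ) (f v))) := hZ.mul ((bc_apply u).mul (bc_apply v).conj)
  have e0 : ER (SBq T M) (fun f => ZZ (PS 0 T) (tw (1 / 2) f) ^ 2 *
      (f u * (starRingEnd ℂ) (f v))) =
      ER (SBq T M) (fun f => ZZ (UU (SBq T M)) (tw (1 / 2) f) *
        (ZZ (PS 0 T) (tw (1 / 2) f) * (f u * (starRingEnd ℂ) (f v)))) := by
    rw [UU_SBq hT hM]
    congr 1
    funext f
    ring
  rw [e0, ER_ZZ hB (w := 1 / 2) (by norm_num) hBC]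
  have h1 : ∀ n : Nat.factoredNumbers (UU (SBq T M)),
      ER (SBq T M) (fun f => f n * (ZZ (PS 0 T) (tw (1 / 2) f) *
        (f u * (starRingEnd ℂ) (f v)))) =
        if (n : ℕ) * u ∣ v then ((v / (n * u) : ℕ) : ℂ) ^ (-(1 / 2 : ℂ)) else 0 := by
    intro n
    have hn0 : (n : ℕ) ≠ 0 := Nat.ne_zero_of_mem_factoredNumbers n.2
    rw [← er_pair hT hM (Nat.mul_mem_factoredNumbers n.2 hmu) hv1 hvT]
    simp only [ER_eq]
    refine integral_congr_ae (Filter.Eventually.of_forall fun ω => ?_)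
    simp only
    rw [(cmul_XX (SBq T M) ω).2 _ _ hn0 (by omega)]
    ring
  simp only [h1]
  have hu0 : 0 < u := hu1
  by_cases huv : u ∣ v
  · rw [if_pos huv]
    obtain ⟨w, hw⟩ := huv
    have hw0 : 1 ≤ w := by
      rcases Nat.eq_zero_or_pos w with h | h
      · rw [h, mul_zero] at hw; omega
      · exact h
    have hvu : v / u = w := by rw [hw]; exact Nat.mul_div_cancel_left w hu0
    have hwT : (w : ℝ) ≤ T := by
      have : w ≤ v := by rw [hw]; exact Nat.le_mul_of_pos_left w hu0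
      have : (w : ℝ) ≤ v := by exact_mod_cast this
      linarith
    rw [hvu]
    have e2 := tsum_subtype (Nat.factoredNumbers (UU (SBq T M)))
      (fun n : ℕ => (n : ℂ) ^ (-(1 / 2 : ℂ)) *
        (if n * u ∣ v then ((v / (n * u) : ℕ) : ℂ) ^ (-(1 / 2 : ℂ)) else 0))
    rw [e2, tsum_eq_sum (s := w.divisors)]
    · have e3 : ∀ n ∈ w.divisors, Set.indicator (Nat.factoredNumbers (UU (SBq T M)))
          (fun n : ℕ => (n : ℂ) ^ (-(1 / 2 : ℂ)) *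
            (if n * u ∣ v then ((v / (n * u) : ℕ) : ℂ) ^ (-(1 / 2 : ℂ)) else 0)) n =
          (w : ℂ) ^ (-(1 / 2 : ℂ)) := by
        intro n hn
        obtain ⟨m, hm⟩ := (Nat.mem_divisors.1 hn).1
        have hn0 : 1 ≤ n := Nat.pos_of_mem_divisors hn
        have hnw : n ≤ w := Nat.divisor_le hn
        have hnT : (n : ℝ) ≤ T := by
          have : (n : ℝ) ≤ w := by exact_mod_cast hnw
          linarith
        rw [Set.indicator_of_mem (Blk7.mem_factored_SBq hT hM hn0 hnT)]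
        have h2 : n * u ∣ v := ⟨m, by rw [hw, hm]; ring⟩
        have h3 : v / (n * u) = m := by
          rw [hw, hm, show u * (n * m) = n * u * m by ring]
          exact Nat.mul_div_cancel_left m (Nat.mul_pos hn0 hu0)
        rw [if_pos h2, h3, hm]
        push_cast
        rw [natCast_mul_natCast_cpow]
      rw [Finset.sum_congr rfl e3, Finset.sum_const, nsmul_eq_mul]
      unfold K3.dv
      push_cast
      rfl
    · intro n hn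
      by_cases h2 : n ∈ Nat.factoredNumbers (UU (SBq T M))
      · rw [Set.indicator_of_mem h2, if_neg, mul_zero]
        intro h3
        apply hn
        rw [Nat.mem_divisors]
        refine ⟨?_, by omega⟩
        rw [hw, mul_comm n u] at h3
        exact Nat.dvd_of_mul_dvd_mul_left hu0 h3
      · rw [Set.indicator_of_notMem h2]
  · rw [if_neg huv]
    have : ∀ n : Nat.factoredNumbers (UU (SBq T M)),
        ((n : ℕ) : ℂ) ^ (-(1 / 2 : ℂ)) *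
          (if (n : ℕ) * u ∣ v then ((v / (n * u) : ℕ) : ℂ) ^ (-(1 / 2 : ℂ)) else 0) = 0 := by
      intro n
      rw [if_neg, mul_zero]
      intro h
      exact huv ((Dvd.intro_left _ rfl).trans h)
    simp only [this, tsum_zero]


/-! ### bounded functionals -/

section bc

variable {m : ℕ} {Sb : Fin m → Finset ℕ}

lemma bc_comp {F : ℝ → ℝ} (hF : Continuous F) {X : (ℕ → ℂ) → ℝ} (hX : BC Sb X) :
    BC Sb (fun f => F (X f)) := by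
  obtain ⟨h1, C, h2⟩ := hX
  refine ⟨hF.comp h1, ?_⟩
  obtain ⟨C', hC'⟩ := (isCompact_Icc (a := -C) (b := C)).exists_bound_of_continuousOn hF.continuousOn
  refine ⟨C', fun ω => hC' _ ?_⟩
  have h := h2 ω
  rw [Real.norm_eq_abs, abs_le] at h
  exact h

lemma bc_re {F : (ℕ → ℂ) → ℂ} (hF : BC Sb F) : BC Sb (fun f => (F f).re) := by
  obtain ⟨h1, C, h2⟩ := hF
  refine ⟨continuous_re.comp h1, C, fun ω => ?_⟩
  rw [Real.norm_eq_abs]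
  exact (abs_re_le_norm _).trans (h2 ω)

lemma bc_ofReal {F : (ℕ → ℂ) → ℝ} (hF : BC Sb F) : BC Sb (fun f => ((F f : ℝ) : ℂ)) := by
  obtain ⟨h1, C, h2⟩ := hF
  refine ⟨continuous_ofReal.comp h1, C, fun ω => ?_⟩
  rw [norm_real]
  exact h2 ω

lemma bc_AA (T : ℝ) (M J : ℕ) (α : ℝ) (g h : Finset ℕ) (w : ℂ) :
    BC Sb (fun f => AA T M J α g h (tw w f)) := by
  unfold AA
  refine bc_prod _ fun j _ => ?_
  unfold Fc
  refine BC.mul ?_ ?_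
  · split_ifs
    · exact bc_Ntr (bc_Pj _ _ _) _ _
    · exact bc_const _
  · split_ifs
    · exact bc_pow (bc_div_const (bc_Pj _ _ _) _) _
    · exact bc_const _

lemma continuous_pf (κ : ℝ) (i : ℕ) : Continuous (pf κ i) := by
  unfold pf Tp
  fun_prop

lemma bc_Xq (T : ℝ) (i : ℕ) (w : ℂ) : BC Sb (fun f => Xq T i (tw w f)) := by
  unfold Xq
  exact bc_re (bc_sum _ fun p _ => bc_tw w p)

lemma bc_WF (κ T : ℝ) (M : ℕ) (g h : Finset ℕ) (w : ℂ) :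
    BC Sb (fun f => ((WF κ T M g h (tw w f) : ℝ) : ℂ)) := by
  have h1 : BC Sb (fun f => (((‖AA T M (JJ T) (κ - 1) g h (tw w f)‖ ^ 2 : ℝ)) : ℂ)) :=
    bc_ofReal (bc_AA _ _ _ _ _ _ _).norm_sq
  have h2 : BC Sb (fun f => ∏ i ∈ Finset.range (M - 6),
      ((pf κ i (Xq T i (tw w f) - Vv i) : ℝ) : ℂ)) :=
    bc_prod _ fun i _ => bc_ofReal (bc_comp (F := fun x => pf κ i (x - Vv i))
      ((continuous_pf κ i).comp (by fun_prop)) (bc_Xq T i w))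
  have h3 := h1.mul h2
  refine F4.Main4.bc_congr h3 fun ω => ?_
  unfold WF TFq
  push_cast
  rfl

end bc

lemma WF_nonneg {κ : ℝ} (hκ : 0 < κ) (hκ1 : κ < 1) (T : ℝ) (M : ℕ) (g h : Finset ℕ) (f : ℕ → ℂ) :
    0 ≤ WF κ T M g h f := by
  unfold WF TFq
  refine mul_nonneg (by positivity) (Finset.prod_nonneg fun i _ => ?_)
  exact (K5.stPoint κ i _ hκ hκ1).1.le


/-! ### the cutoffs -/

lemma qg_fC {δ θ T : ℝ} {n : ℕ} (hn : n ≠ 0) :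
    qg (fC δ θ) T 0 n = ((PA δ θ (Real.log n / Real.log T) : ℝ) : ℂ) := by
  have hn0 : (0 : ℝ) < n := by positivity
  rw [qg, fC]
  have e : (n : ℂ) ^ (-(((1 / Real.log T : ℝ) : ℂ) + ((0 : ℝ) : ℂ) * I)) =
      ((Real.exp (-(Real.log n / Real.log T)) : ℝ) : ℂ) := by
    rw [ofReal_zero, zero_mul, add_zero, ← ofReal_neg]
    have : ((n : ℕ) : ℂ) = (((n : ℝ)) : ℂ) := by push_cast; rfl
    rw [this, ← ofReal_cpow hn0.le, Real.rpow_def_of_pos hn0]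
    congr 2
    ring
  rw [e, ← ofReal_mul]
  congr 1
  rw [mul_right_comm, ← Real.exp_add]
  simp

/-- The point at which the smoothed sums are taken. -/
noncomputable def wL (T : ℝ) : ℂ := 1 / 2 + ((1 / Real.log T : ℝ) : ℂ) + ((0 : ℝ) : ℂ) * I

lemma SG_PA (δ θ T : ℝ) (f : ℕ → ℂ) :
    SG (PA δ θ) T (tw (1 / 2) f) = SG (fC δ θ) T (tw (wL T) f) := by
  rw [wL, ← K4.Red.qg_sum, SG]
  refine Finset.sum_congr rfl fun n hn => ?_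
  rw [Finset.mem_Icc] at hn
  rw [qg_fC (by omega)]

lemma un_re (x ξ : ℝ) : (un x ξ).re = 2 := K4.Red.zn_re x ξ

lemma wx_eq {T : ℝ} (hL : 0 < Real.log T) (ξ : ℝ) :
    F4.FB4.wx T (wL T) ξ = 1 / 2 + un 0 ξ / Real.log T := by
  have h := K4.Red.wx_eq hL 0 ξ
  rw [mul_zero] at h
  exact h

/-- The pairing as a double average of shifted fourth moments. -/
lemma rep {φ₁ φ₂ : ℝ → ℝ} (h₁ : Cut φ₁) (h₂ : Cut φ₂) {T : ℝ} (hT : 1 < T) {M : ℕ} (hM : 7 ≤ M)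
    (W : (ℕ → ℂ) → ℝ) (bW : BC (SBq T M) (fun f => ((W (tw (1 / 2) f) : ℝ) : ℂ))) :
    (∀ ξ : ℝ, Integrable (fun ξ₂ : ℝ => gh h₂ ξ₂ *
      RW4 T M W (un 0 ξ₂ / Real.log T) (un 0 ξ / Real.log T) 0 0)) ∧
    Integrable (fun ξ : ℝ => gh h₁ ξ * ∫ ξ₂ : ℝ, gh h₂ ξ₂ *
      RW4 T M W (un 0 ξ₂ / Real.log T) (un 0 ξ / Real.log T) 0 0) ∧
    (starRingEnd ℂ) (ER (SBq T M) (fun f => ZZ (PS 0 T) (tw (1 / 2) f) ^ 2 *
        (starRingEnd ℂ) (SG φ₁ T (tw (wL T) f) * SG φ₂ T (tw (wL T) f)) *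
        ((W (tw (1 / 2) f) : ℝ) : ℂ))) =
      ∫ ξ : ℝ, gh h₁ ξ * ∫ ξ₂ : ℝ, gh h₂ ξ₂ *
        RW4 T M W (un 0 ξ₂ / Real.log T) (un 0 ξ / Real.log T) 0 0 := by
  have hL : 0 < Real.log T := Real.log_pos hT
  have hwre : 0 < (wL T).re := by
    have : (wL T).re = 1 / 2 + 1 / Real.log T := by rw [wL]; simp
    rw [this]; positivity
  have hprime : ∀ p ∈ PS 0 T, p.Prime := fun p hp => XB.prime_PS hp
  set N : (ℕ → ℂ) → ℂ := fun f => ((W (tw (1 / 2) f) : ℝ) : ℂ) with hN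
  set Z : (ℕ → ℂ) → ℂ := fun f => ZZ (PS 0 T) (tw (1 / 2) f) with hZ
  have bZ : BC (SBq T M) Z := bc_ZZ hprime (by norm_num)
  set S : (ℕ → ℂ) → ℂ := fun f => SG φ₂ T (tw (wL T) f) with hS
  have bS : BC (SBq T M) S := F4.Main4.bc_lin _ _ _
  set B : (ℕ → ℂ) → ℂ := fun f => S f * ((starRingEnd ℂ) (Z f * Z f) * N f) with hB
  have bB : BC (SBq T M) B := bS.mul ((bZ.mul bZ).conj.mul bW)
  obtain ⟨i1, r1⟩ := K4.Red.ER_SG h₁ (Blk7.blk_SBq hT hM) hT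
    (fun n h1 h2 => Blk7.mem_factored_SBq hT hM h1 h2) hwre bB
  simp only [wx_eq hL, UU_SBq hT hM] at i1 r1
  have inner : ∀ ξ : ℝ, Integrable (fun ξ₂ : ℝ => gh h₂ ξ₂ *
        RW4 T M W (un 0 ξ₂ / Real.log T) (un 0 ξ / Real.log T) 0 0) ∧
      ER (SBq T M) (fun f => ZZ (PS 0 T) (tw (1 / 2 + un 0 ξ / Real.log T) f) * B f) =
        ∫ ξ₂ : ℝ, gh h₂ ξ₂ *
        RW4 T M W (un 0 ξ₂ / Real.log T) (un 0 ξ / Real.log T) 0 0 := by
    intro ξ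
    set B' : (ℕ → ℂ) → ℂ := fun f => ZZ (PS 0 T) (tw (1 / 2 + un 0 ξ / Real.log T) f) *
      ((starRingEnd ℂ) (Z f * Z f) * N f) with hB'
    have bZ' : BC (SBq T M) (fun f => ZZ (PS 0 T) (tw (1 / 2 + un 0 ξ / Real.log T) f)) :=
      bc_ZZ hprime (by
        rw [add_re, div_ofReal_re, un_re]
        have h2 : ((1 / 2 : ℂ)).re = 1 / 2 := by norm_num
        rw [h2]
        positivity)
    obtain ⟨i3, r3⟩ := K4.Red.ER_SG h₂ (Blk7.blk_SBq hT hM) hT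
      (fun n h1 h2 => Blk7.mem_factored_SBq hT hM h1 h2) hwre
      (B := B') (bZ'.mul ((bZ.mul bZ).conj.mul bW))
    simp only [wx_eq hL, UU_SBq hT hM] at i3 r3
    have e3 : ∀ ξ₂ : ℝ, ER (SBq T M) (fun f => ZZ (PS 0 T)
        (tw (1 / 2 + un 0 ξ₂ / Real.log T) f) * B' f) =
        RW4 T M W (un 0 ξ₂ / Real.log T) (un 0 ξ / Real.log T) 0 0 := by
      intro ξ₂
      rw [RW4]
      congr 1
      funext f
      simp only [hB', hN, hZ, map_zero, add_zero]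
      ring
    simp only [e3] at i3 r3
    refine ⟨i3, ?_⟩
    rw [← r3]
    congr 1
    funext f
    simp only [hB, hB', hS]
    ring
  have e1 := fun ξ => (inner ξ).2
  simp only [e1] at i1 r1
  refine ⟨fun ξ => (inner ξ).1, i1, ?_⟩
  rw [← r1, ← SHF.ER_conj]
  congr 1
  funext f
  simp only [hB, hS, hZ, hN, map_mul, map_pow, conj_conj, conj_ofReal]
  ring

lemma PA_zero {δ θ x : ℝ} (hδ : 0 < δ) (hx : 1 / 2 - δ - θ ≤ x) : PA δ θ x = 0 := by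
  rw [PA, Real.smoothTransition.zero_of_nonpos, zero_mul]
  exact div_nonpos_of_nonpos_of_nonneg (by linarith) hδ.le

/-- The exact value without weight. -/
lemma exact {δ θ₁ θ₂ : ℝ} (hδ : 0 < δ) (ht₁ : 0 ≤ θ₁) (ht₂ : 0 ≤ θ₂) {T : ℝ} (hT : 1 < T) {M : ℕ}
    (hM : 7 ≤ M) :
    ER (SBq T M) (fun f => ZZ (PS 0 T) (tw (1 / 2) f) ^ 2 *
        (starRingEnd ℂ) (SG (PA δ θ₁) T (tw (1 / 2) f) * SG (PA δ θ₂) T (tw (1 / 2) f)) *
        ((1 : ℝ) : ℂ)) = ((S2g (PA δ θ₁) (PA δ θ₂) T : ℝ) : ℂ) := by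
  have hT0 : 0 < T := by linarith
  have hL : 0 < Real.log T := Real.log_pos hT
  have bZ : BC (SBq T M) (fun f => ZZ (PS 0 T) (tw (1 / 2) f)) :=
    bc_ZZ (fun p hp => XB.prime_PS hp) (by norm_num)
  have bZ2 : BC (SBq T M) (fun f => ZZ (PS 0 T) (tw (1 / 2) f) ^ 2) := by
    have h := bZ.mul bZ
    simpa only [sq] using h
  set c : ℕ → ℕ → ℂ := fun m n => (PA δ θ₁ (Real.log m / Real.log T) : ℂ) *
    (PA δ θ₂ (Real.log n / Real.log T) : ℂ) * ((m * n : ℕ) : ℂ) ^ (-(1 / 2 : ℂ)) with hc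
  have hreal : ∀ n : ℕ, (starRingEnd ℂ) ((n : ℂ) ^ (-(1 / 2 : ℂ))) = (n : ℂ) ^ (-(1 / 2 : ℂ)) := by
    intro n
    have h1 : (n : ℂ) ^ (-(1 / 2 : ℂ)) = (((n : ℝ) ^ (-(1 / 2) : ℝ) : ℝ) : ℂ) := by
      rw [ofReal_cpow (Nat.cast_nonneg n)]
      push_cast
      rfl
    rw [h1, conj_ofReal]
  have e1 : ∀ ω, ZZ (PS 0 T) (tw (1 / 2) (XX (SBq T M) ω)) ^ 2 *
        (starRingEnd ℂ) (SG (PA δ θ₁) T (tw (1 / 2) (XX (SBq T M) ω)) *
          SG (PA δ θ₂) T (tw (1 / 2) (XX (SBq T M) ω))) * ((1 : ℝ) : ℂ) =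
      ∑ m ∈ Finset.Icc 1 ⌊T⌋₊, ∑ n ∈ Finset.Icc 1 ⌊T⌋₊, c m n *
        (ZZ (PS 0 T) (tw (1 / 2) (XX (SBq T M) ω)) ^ 2 *
          ((XX (SBq T M) ω) 1 * (starRingEnd ℂ) ((XX (SBq T M) ω) (m * n)))) := by
    intro ω
    have hf := cmul_XX (SBq T M) ω
    set f := XX (SBq T M) ω with hfd
    rw [ofReal_one, mul_one, SG, SG, Finset.sum_mul_sum, map_sum, Finset.mul_sum]
    refine Finset.sum_congr rfl fun m hm => ?_
    rw [map_sum, Finset.mul_sum]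
    refine Finset.sum_congr rfl fun n hn => ?_
    have hm0 : m ≠ 0 := by rw [Finset.mem_Icc] at hm; omega
    have hn0 : n ≠ 0 := by rw [Finset.mem_Icc] at hn; omega
    rw [hf.2 m n hm0 hn0, hf.1]
    simp only [hc, tw, map_mul, conj_ofReal, hreal]
    push_cast
    rw [natCast_mul_natCast_cpow]
    ring
  have e2 : ER (SBq T M) (fun f => ZZ (PS 0 T) (tw (1 / 2) f) ^ 2 *
        (starRingEnd ℂ) (SG (PA δ θ₁) T (tw (1 / 2) f) * SG (PA δ θ₂) T (tw (1 / 2) f)) *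
        ((1 : ℝ) : ℂ)) =
      ER (SBq T M) (fun f => ∑ m ∈ Finset.Icc 1 ⌊T⌋₊, ∑ n ∈ Finset.Icc 1 ⌊T⌋₊, c m n *
        (ZZ (PS 0 T) (tw (1 / 2) f) ^ 2 * (f 1 * (starRingEnd ℂ) (f (m * n))))) := by
    simp only [ER_eq]
    exact integral_congr_ae (Filter.Eventually.of_forall e1)
  have hbc : ∀ m n : ℕ, BC (SBq T M) (fun f => c m n *
      (ZZ (PS 0 T) (tw (1 / 2) f) ^ 2 * (f 1 * (starRingEnd ℂ) (f (m * n))))) := fun m n =>
    BC.const_mul (bZ2.mul ((bc_apply _).mul (bc_apply _).conj)) _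
  rw [e2, ER_sum _ fun m _ => bc_sum _ fun n _ => hbc m n, S2g]
  push_cast
  refine Finset.sum_congr rfl fun m hm => ?_
  rw [ER_sum _ fun n _ => hbc m n]
  refine Finset.sum_congr rfl fun n hn => ?_
  rw [ER_const_mul]
  have hm1 : 1 ≤ m := (Finset.mem_Icc.1 hm).1
  have hn1 : 1 ≤ n := (Finset.mem_Icc.1 hn).1
  have hm0 : (0 : ℝ) < m := by exact_mod_cast hm1
  have hn0 : (0 : ℝ) < n := by exact_mod_cast hn1
  by_cases hmn : ((m * n : ℕ) : ℝ) ≤ T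
  · rw [er_pair2 hT hM le_rfl (by push_cast; linarith)
      (Nat.mul_pos hm1 hn1) hmn, if_pos (one_dvd _), Nat.div_one]
    have h0 : ((m * n : ℕ) : ℂ) ≠ 0 := by
      have := Nat.mul_pos hm1 hn1
      exact_mod_cast this.ne'
    have h1 : ((m * n : ℕ) : ℂ) ^ (-(1 / 2 : ℂ)) * ((m * n : ℕ) : ℂ) ^ (-(1 / 2 : ℂ)) =
        ((m * n : ℕ) : ℂ)⁻¹ := by
      rw [← cpow_add _ _ h0, ← cpow_neg_one]
      congr 1
      ring
    calc c m n * ((K3.dv (m * n) : ℂ) * ((m * n : ℕ) : ℂ) ^ (-(1 / 2 : ℂ)))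
        = (PA δ θ₁ (Real.log m / Real.log T) : ℂ) * (PA δ θ₂ (Real.log n / Real.log T) : ℂ) *
          (K3.dv (m * n) : ℂ) * (((m * n : ℕ) : ℂ) ^ (-(1 / 2 : ℂ)) *
            ((m * n : ℕ) : ℂ) ^ (-(1 / 2 : ℂ))) := by simp only [hc]; ring
      _ = _ := by
          rw [h1]
          push_cast
          exact (div_eq_mul_inv _ _).symm
  · push Not at hmn
    have h1 : PA δ θ₁ (Real.log m / Real.log T) * PA δ θ₂ (Real.log n / Real.log T) = 0 := by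
      by_contra h
      rw [mul_eq_zero, not_or] at h
      have h2 : Real.log m / Real.log T < 1 / 2 - δ - θ₁ := by
        by_contra h3
        exact h.1 (PA_zero hδ (not_lt.1 h3))
      have h3 : Real.log n / Real.log T < 1 / 2 - δ - θ₂ := by
        by_contra h3
        exact h.2 (PA_zero hδ (not_lt.1 h3))
      rw [div_lt_iff₀ hL] at h2 h3
      have h4 := Real.log_lt_log hT0 hmn
      push_cast at h4
      rw [Real.log_mul hm0.ne' hn0.ne'] at h4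
      nlinarith [mul_nonneg ht₁ hL.le, mul_nonneg ht₂ hL.le]
    have h2 : (PA δ θ₁ (Real.log m / Real.log T) : ℂ) *
        (PA δ θ₂ (Real.log n / Real.log T) : ℂ) = 0 := by
      rw [← ofReal_mul, h1, ofReal_zero]
    simp only [hc]
    rw [h2]
    ring

/-! ### crude bounds -/

lemma amgm {x y z w : ℝ} (hw : 0 ≤ w) :
    x * y * (z * z) * w ≤ x ^ 4 * w + y ^ 4 * w + z ^ 4 * w := by
  have h2 : x * y * (z * z) ≤ x ^ 4 + y ^ 4 + z ^ 4 := by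
    nlinarith [sq_nonneg (x * y - z * z), sq_nonneg (x * x - y * y), sq_nonneg (x * x),
      sq_nonneg (y * y), sq_nonneg (z * z)]
  calc x * y * (z * z) * w ≤ (x ^ 4 + y ^ 4 + z ^ 4) * w := by gcongr
    _ = x ^ 4 * w + y ^ 4 * w + z ^ 4 * w := by ring

/-- Crude bound for the shifted fourth moment. -/
lemma crude (h7 : StRandW) {κ : ℝ} (hκ : 0 < κ) (hκ1 : κ < 1) : ∃ C : ℕ, ∃ M₀ : ℕ, ∀ M : ℕ, M₀ ≤ M →
    ∃ T₀ : ℝ, 3 ≤ T₀ ∧ ∀ T, T₀ ≤ T → ∀ z₁ z₂ : ℂ, 0 ≤ z₁.re → 0 ≤ z₂.re →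
    ‖RW4 T M (WF κ T M (Finset.range (JJ T + 1)) ∅) (z₁ / Real.log T) (z₂ / Real.log T) 0 0‖ ≤
      Real.exp (C * M) * (3 * ((1 + ‖z₁‖) * (1 + ‖z₂‖)) ^ C) * (Real.log T) ^ ((1 + κ) ^ 2) := by
  obtain ⟨C, M₀, cr⟩ := h7 κ hκ hκ1
  refine ⟨C, M₀, fun M hM => ?_⟩
  obtain ⟨T₀, hT₀, cr⟩ := cr M hM
  refine ⟨T₀, hT₀, fun T hT z₁ z₂ hz₁ hz₂ => ?_⟩
  have hT3 : 3 ≤ T := hT₀.trans hT
  have hT1 : 1 < T := by linarith
  have hL : 0 < Real.log T := Real.log_pos hT1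
  have cr := cr T hT (Finset.range (JJ T + 1)) ∅ (by simp)
  simp only [Finset.prod_empty, mul_one] at cr
  have c0 := cr 0 (by simp)
  have c1 := cr z₁ (by linarith)
  have c2 := cr z₂ (by linarith)
  simp only [zero_div, add_zero, norm_zero, one_pow, mul_one] at c0
  set L := Real.log T with hLd
  set Sb := SBq T M with hSb
  set W : (ℕ → ℂ) → ℝ := fun f => WF κ T M (Finset.range (JJ T + 1)) ∅ (tw (1 / 2) f) with hW
  set Z₁ : (ℕ → ℂ) → ℂ := fun f => ZZ (PS 0 T) (tw ((1 / 2 : ℂ) + z₁ / L) f) with hZ₁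
  set Z₂ : (ℕ → ℂ) → ℂ := fun f => ZZ (PS 0 T) (tw ((1 / 2 : ℂ) + z₂ / L) f) with hZ₂
  set Z₀ : (ℕ → ℂ) → ℂ := fun f => ZZ (PS 0 T) (tw (1 / 2 : ℂ) f) with hZ₀
  have hW0 : ∀ f, 0 ≤ W f := fun f => WF_nonneg hκ hκ1 _ _ _ _ _
  have bW : BC Sb (fun f => ((W f : ℝ) : ℂ)) := bc_WF _ _ _ _ _ _
  have b1 : BC Sb Z₁ := bc_ZZ (fun p hp => XB.prime_PS hp) (by
    rw [add_re, div_ofReal_re]
    have : 0 ≤ z₁.re / L := by positivity
    norm_num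
    linarith)
  have b2 : BC Sb Z₂ := bc_ZZ (fun p hp => XB.prime_PS hp) (by
    rw [add_re, div_ofReal_re]
    have : 0 ≤ z₂.re / L := by positivity
    norm_num
    linarith)
  have b0 : BC Sb Z₀ := bc_ZZ (fun p hp => XB.prime_PS hp) (by norm_num)
  have e1 : RW4 T M (WF κ T M (Finset.range (JJ T + 1)) ∅) (z₁ / L) (z₂ / L) 0 0 =
      ER Sb (fun f => Z₁ f * Z₂ f * (starRingEnd ℂ) (Z₀ f * Z₀ f) * ((W f : ℝ) : ℂ)) := by
    rw [RW4]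
    simp only [map_zero, add_zero, hZ₁, hZ₂, hZ₀, hW, hSb]
  have iZ : ∀ Z : (ℕ → ℂ) → ℂ, BC Sb Z →
      Integrable (fun ω => ‖Z (XX Sb ω)‖ ^ 4 * W (XX Sb ω)) (PP0 Sb) := by
    intro Z bZ
    have h := (bc_re ((bc_ofReal (bZ.mul bZ).norm_sq).mul bW)).integrable
    refine h.congr (Filter.Eventually.of_forall fun ω => ?_)
    simp only
    rw [← ofReal_mul, ofReal_re, norm_mul]
    ring
  have i1 := iZ Z₁ b1
  have i2 := iZ Z₂ b2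
  have i0 := iZ Z₀ b0
  have h1 : ‖RW4 T M (WF κ T M (Finset.range (JJ T + 1)) ∅) (z₁ / L) (z₂ / L) 0 0‖ ≤
      ER Sb (fun f => ‖Z₁ f‖ ^ 4 * W f) + ER Sb (fun f => ‖Z₂ f‖ ^ 4 * W f) +
        ER Sb (fun f => ‖Z₀ f‖ ^ 4 * W f) := by
    have e2 : ER Sb (fun f => ‖Z₁ f‖ ^ 4 * W f) + ER Sb (fun f => ‖Z₂ f‖ ^ 4 * W f) +
        ER Sb (fun f => ‖Z₀ f‖ ^ 4 * W f) =
        ∫ ω, (‖Z₁ (XX Sb ω)‖ ^ 4 * W (XX Sb ω) + ‖Z₂ (XX Sb ω)‖ ^ 4 * W (XX Sb ω) +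
          ‖Z₀ (XX Sb ω)‖ ^ 4 * W (XX Sb ω)) ∂(PP0 Sb) := by
      rw [ER_eq, ER_eq, ER_eq, ← integral_add i1 i2]
      exact (integral_add (i1.add i2) i0).symm
    rw [e1, e2, ER_eq]
    refine (norm_integral_le_integral_norm _).trans ?_
    refine integral_mono_of_nonneg (Filter.Eventually.of_forall fun ω => norm_nonneg _)
      ((i1.add i2).add i0) (Filter.Eventually.of_forall fun ω => ?_)
    show ‖Z₁ (XX Sb ω) * Z₂ (XX Sb ω) * (starRingEnd ℂ) (Z₀ (XX Sb ω) * Z₀ (XX Sb ω)) *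
        ((W (XX Sb ω) : ℝ) : ℂ)‖ ≤ _
    rw [norm_mul, norm_mul, norm_mul, RCLike.norm_conj, norm_mul, norm_real, Real.norm_eq_abs,
      abs_of_nonneg (hW0 _)]
    exact amgm (hW0 _)
  refine h1.trans ((add_le_add (add_le_add c1 c2) c0).trans ?_)
  have hu1 : 1 ≤ 1 + ‖z₁‖ := by linarith [norm_nonneg z₁]
  have hu2 : 1 ≤ 1 + ‖z₂‖ := by linarith [norm_nonneg z₂]
  have hp1 : (1 + ‖z₁‖) ^ C ≤ ((1 + ‖z₁‖) * (1 + ‖z₂‖)) ^ C :=
    pow_le_pow_left₀ (by positivity) (le_mul_of_one_le_right (by positivity) hu2) _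
  have hp2 : (1 + ‖z₂‖) ^ C ≤ ((1 + ‖z₁‖) * (1 + ‖z₂‖)) ^ C :=
    pow_le_pow_left₀ (by positivity) (le_mul_of_one_le_left (by positivity) hu1) _
  have hp0 : 1 ≤ ((1 + ‖z₁‖) * (1 + ‖z₂‖)) ^ C :=
    one_le_pow₀ (one_le_mul_of_one_le_of_one_le hu1 hu2)
  have hE : 0 ≤ Real.exp (C * M) * L ^ ((1 + κ) ^ 2) := by positivity
  calc Real.exp (C * M) * (1 + ‖z₁‖) ^ C * L ^ ((1 + κ) ^ 2) +
        Real.exp (C * M) * (1 + ‖z₂‖) ^ C * L ^ ((1 + κ) ^ 2) +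
          Real.exp (C * M) * L ^ ((1 + κ) ^ 2)
      = (Real.exp (C * M) * L ^ ((1 + κ) ^ 2)) * ((1 + ‖z₁‖) ^ C + (1 + ‖z₂‖) ^ C + 1) := by ring
    _ ≤ (Real.exp (C * M) * L ^ ((1 + κ) ^ 2)) * (3 * ((1 + ‖z₁‖) * (1 + ‖z₂‖)) ^ C) :=
        mul_le_mul_of_nonneg_left (by linarith) hE
    _ = _ := by ring

/-- Lower bound for the main factor. -/
lemma BF_low (hA : StAK7) (hr : K5.StRho) {κ : ℝ} (hκ : 0 < κ) (hκ1 : κ < 1) :
    ∃ C₂ C₃ : ℝ, 0 < C₂ ∧ 1 ≤ C₃ ∧ ∀ (M : ℕ) (T : ℝ), 1 ≤ M → 3 ≤ T → 0 < BF κ T M ∧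
      Real.log T ^ ((1 + κ) ^ 2) ≤ BF κ T M * Real.log T ^ 4 * (C₂ * C₃ ^ M) := by
  have ha : 0 < aK (1 + κ) := (hA (1 + κ) (by linarith) (by linarith)).1
  obtain ⟨_, _, _, C, hC, hb, _, _⟩ := hr κ hκ hκ1
  have hC0 : 0 < C := by linarith
  refine ⟨(aK (1 + κ))⁻¹, C, by positivity, hC, fun M T hM hT => ?_⟩
  have hL : 0 < Real.log T := Real.log_pos (by linarith)
  have hprod : (C⁻¹) ^ M ≤ ∏ i ∈ Finset.range (M - 6), aF κ i := by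
    calc (C⁻¹) ^ M ≤ (C⁻¹) ^ (M - 6) :=
          pow_le_pow_of_le_one (by positivity) (inv_le_one_of_one_le₀ hC) (Nat.sub_le _ _)
      _ = ∏ i ∈ Finset.range (M - 6), C⁻¹ := by simp
      _ ≤ _ := Finset.prod_le_prod (fun i _ => by positivity) fun i _ => (hb i).1
  have he : (1 + κ) ^ 2 - 4 ≤ 0 := by nlinarith
  have hlM0 : 0 < lM T M := by unfold lM; positivity
  have hlM : lM T M ≤ Real.log T := by
    unfold lM
    have h1 : Real.exp (Real.eulerMascheroniConstant - M) ≤ 1 := by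
      apply Real.exp_le_one_iff.mpr
      have h2 := Real.eulerMascheroniConstant_lt_two_thirds
      have h3 : (1 : ℝ) ≤ M := by exact_mod_cast hM
      linarith
    calc Real.exp (Real.eulerMascheroniConstant - M) * Real.log T ≤ 1 * Real.log T := by gcongr
      _ = _ := one_mul _
  have h4 : Real.log T ^ ((1 + κ) ^ 2 - 4) ≤ lM T M ^ ((1 + κ) ^ 2 - 4) :=
    Real.rpow_le_rpow_of_nonpos hlM0 hlM he
  have h5 : 1 ≤ Real.pi ^ 2 / 6 := by nlinarith [Real.pi_gt_three]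
  have h6 : 0 < Real.log T ^ ((1 + κ) ^ 2 - 4) := Real.rpow_pos_of_pos hL _
  have h7 : aK (1 + κ) * Real.log T ^ ((1 + κ) ^ 2 - 4) * (C⁻¹) ^ M ≤ BF κ T M := by
    unfold BF D4
    calc aK (1 + κ) * Real.log T ^ ((1 + κ) ^ 2 - 4) * (C⁻¹) ^ M
        = aK (1 + κ) * 1 * Real.log T ^ ((1 + κ) ^ 2 - 4) * (C⁻¹) ^ M := by ring
      _ ≤ aK (1 + κ) * (Real.pi ^ 2 / 6) * lM T M ^ ((1 + κ) ^ 2 - 4) *
          ∏ i ∈ Finset.range (M - 6), aF κ i := by gcongr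
  have h8 : 0 < BF κ T M := lt_of_lt_of_le (by positivity) h7
  refine ⟨h8, ?_⟩
  have h9 : Real.log T ^ ((1 + κ) ^ 2) = Real.log T ^ ((1 + κ) ^ 2 - 4) * Real.log T ^ 4 := by
    rw [← Real.rpow_natCast (Real.log T) 4, ← Real.rpow_add hL]
    congr 1; push_cast; ring
  rw [h9]
  have h10 : Real.log T ^ ((1 + κ) ^ 2 - 4) =
      (aK (1 + κ) * Real.log T ^ ((1 + κ) ^ 2 - 4) * (C⁻¹) ^ M) * ((aK (1 + κ))⁻¹ * C ^ M) := by
    rw [inv_pow]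
    field_simp
  calc Real.log T ^ ((1 + κ) ^ 2 - 4) * Real.log T ^ 4
      = (aK (1 + κ) * Real.log T ^ ((1 + κ) ^ 2 - 4) * (C⁻¹) ^ M) * ((aK (1 + κ))⁻¹ * C ^ M) *
          Real.log T ^ 4 := by rw [← h10]
    _ ≤ BF κ T M * ((aK (1 + κ))⁻¹ * C ^ M) * Real.log T ^ 4 := by gcongr
    _ = _ := by ring

lemma one_le_qb {y : ℝ} (hy : 0 ≤ y) : 1 ≤ qb y := by
  unfold qb
  split_ifs with h
  · exact Real.one_le_exp (by positivity)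
  · push Not at h
    linarith

lemma exp_om_le (h8 : StOm) (M : ℕ) {u : ℂ} (hu : 0 ≤ u.re) :
    Real.exp (om M u) ≤ qb (tq 0 * ‖u‖) := by
  unfold qb
  split_ifs with h
  · exact Real.exp_le_exp.mpr (h8.1 M u (by linarith))
  · push Not at h
    exact h8.2 M u hu h.le

lemma om_zero (h8 : StOm) (M : ℕ) : om M 0 = 0 := by
  have h := h8.1 M 0 (by norm_num)
  rw [norm_zero, mul_zero, mul_zero] at h
  exact le_antisymm h (Finset.sum_nonneg fun _ _ => norm_nonneg _)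

lemma two_le_un (ξ : ℝ) : 2 ≤ ‖un 0 ξ‖ := by
  have h := abs_re_le_norm (un 0 ξ)
  rw [un_re] at h
  simpa using h

/-- Pointwise comparison of the shifted fourth moment with the untwisted one. -/
lemma key (h2 : StCmp4) (h3 : StOne4) (h4 : StEP7) (h5 : StZT) (h6 : StPB) (h7 : StRandW)
    (h8 : StOm) (hA : StAK7) (hr : K5.StRho) {κ : ℝ} (hκ : 0 < κ) (hκ1 : κ < 1) :
    ∃ A : ℕ, ∀ e : ℝ, 0 < e → ∃ M₀ : ℕ, 7 ≤ M₀ ∧ ∀ M : ℕ, M₀ ≤ M → ∃ T₀ : ℝ, 3 ≤ T₀ ∧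
    ∀ T, T₀ ≤ T → 0 < BF κ T M ∧ ∀ ξ ξ₂ : ℝ,
    ‖RW4 T M (WF κ T M (Finset.range (JJ T + 1)) ∅) (un 0 ξ₂ / Real.log T)
        (un 0 ξ / Real.log T) 0 0 - ((BF κ T M : ℝ) : ℂ) *
        RW4 T M (fun _ => 1) (un 0 ξ₂ / Real.log T) (un 0 ξ / Real.log T) 0 0‖ ≤
      BF κ T M * Real.log T ^ 4 * (6 / Real.pi ^ 2 * (1 + e) * (106 / 100) ^ 4 *
        ((((1 - κ) + e) * (qb (tq 0 * ‖un 0 ξ‖) * qb (tq 0 * ‖un 0 ξ₂‖) - 1) + e) /
          (‖un 0 ξ‖ ^ 2 * ‖un 0 ξ₂‖ ^ 2)) +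
        e * ((1 + ‖un 0 ξ‖) ^ A * (1 + ‖un 0 ξ₂‖) ^ A)) := by
  obtain ⟨C, Mc, cr⟩ := crude h7 hκ hκ1
  obtain ⟨C₂, C₃, hC₂, hC₃, bf⟩ := BF_low hA hr hκ hκ1
  obtain ⟨⟨Ce, Te, hCe, hTe, pe⟩, _⟩ := h6
  obtain ⟨hz1, Cz, hCz, hz2⟩ := h5
  have hC₃0 : 0 < C₃ := by linarith
  set q := ⌈(C : ℝ) + Real.log C₃⌉₊ with hq
  have hqC : (C : ℝ) + Real.log C₃ ≤ q := Nat.le_ceil _
  refine ⟨C + (2 * q + 2), fun e he => ?_⟩
  obtain ⟨Mr, hMr7, ra⟩ := h2 κ hκ hκ1 e he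
  set K₁ : ℝ := 3 * C₂ + Ce ^ 4 * Cz with hK₁
  have hK₁0 : 0 < K₁ := by positivity
  obtain ⟨Me, hMe⟩ := exists_nat_ge (Real.log (K₁ / e))
  refine ⟨max Mc (max Mr Me), hMr7.trans ((le_max_left _ _).trans (le_max_right _ _)), fun M hM => ?_⟩
  have hM1 : Mc ≤ M := (le_max_left _ _).trans hM
  have hM2 : Mr ≤ M := ((le_max_left _ _).trans (le_max_right _ _)).trans hM
  have hM3 : Me ≤ M := ((le_max_right _ _).trans (le_max_right _ _)).trans hM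
  have hM7 : 7 ≤ M := hMr7.trans hM2
  obtain ⟨Tr, hTr, ra⟩ := ra M hM2
  obtain ⟨Tc, hTc, cr⟩ := cr M hM1
  obtain ⟨Tp, hTp, ep⟩ := h4 (Real.exp (M / 2)) (Real.exp_pos _)
  obtain ⟨Tz, hTz, zt⟩ := hz1 (2 * Real.exp (M / 2)) e (by positivity) he
  refine ⟨max (max Tr Tc) (max Te (max Tp Tz)),
    hTr.trans ((le_max_left _ _).trans (le_max_left _ _)), fun T hT => ?_⟩
  have hTTr : Tr ≤ T := ((le_max_left _ _).trans (le_max_left _ _)).trans hT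
  have hTTc : Tc ≤ T := ((le_max_right _ _).trans (le_max_left _ _)).trans hT
  have hTTe : Te ≤ T := ((le_max_left _ _).trans (le_max_right _ _)).trans hT
  have hTTp : Tp ≤ T :=
    ((le_max_left _ _).trans ((le_max_right _ _).trans (le_max_right _ _))).trans hT
  have hTTz : Tz ≤ T :=
    ((le_max_right _ _).trans ((le_max_right _ _).trans (le_max_right _ _))).trans hT
  have hT3 : 3 ≤ T := hTr.trans hTTr
  have hL : 0 < Real.log T := Real.log_pos (by linarith)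
  obtain ⟨hBF, hbf⟩ := bf M T (by omega) hT3
  refine ⟨hBF, fun ξ ξ₂ => ?_⟩
  have ru₁ : (un 0 ξ₂).re = 2 := un_re _ _
  have ru₂ : (un 0 ξ).re = 2 := un_re _ _
  have n₁2 : 2 ≤ ‖un 0 ξ₂‖ := two_le_un ξ₂
  have n₂2 : 2 ≤ ‖un 0 ξ‖ := two_le_un ξ
  set u₁ := un 0 ξ₂ with hu₁
  set u₂ := un 0 ξ with hu₂
  set n₁ := ‖u₁‖ with hn₁
  set n₂ := ‖u₂‖ with hn₂
  set L := Real.log T with hLd
  have hn₁0 : 0 < n₁ := by linarith
  have hn₂0 : 0 < n₂ := by linarith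
  have tq0 : 0 < tq 0 := Blk7.tq_pos 0
  set Q := qb (tq 0 * n₂) * qb (tq 0 * n₁) with hQ
  have hq1 : 1 ≤ qb (tq 0 * n₁) := one_le_qb (by positivity)
  have hq2 : 1 ≤ qb (tq 0 * n₂) := one_le_qb (by positivity)
  have hQ1 : 1 ≤ Q := one_le_mul_of_one_le_of_one_le hq2 hq1
  have hY0 : 0 ≤ ((1 - κ) + e) * (Q - 1) + e := by
    have : 0 ≤ ((1 - κ) + e) * (Q - 1) := mul_nonneg (by linarith) (by linarith)
    linarith
  set A := C + (2 * q + 2) with hAd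
  set P := (1 + n₂) * (1 + n₁) with hP
  have hP1 : 1 ≤ P := one_le_mul_of_one_le_of_one_le (by linarith) (by linarith)
  have hPA : (1 + n₂) ^ A * (1 + n₁) ^ A = P ^ A := by rw [hP, mul_pow]
  rw [hPA]
  have hX0 : 0 ≤ 6 / Real.pi ^ 2 * (1 + e) * (106 / 100) ^ 4 *
      ((((1 - κ) + e) * (Q - 1) + e) / (n₂ ^ 2 * n₁ ^ 2)) := by positivity
  by_cases hcase : n₁ ≤ Real.exp (M / 2) ∧ n₂ ≤ Real.exp (M / 2)
  · have ra := ra T hTTr u₁ u₂ 0 0 hcase.1 hcase.2 (by rw [norm_zero]; positivity)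
      (by rw [norm_zero]; positivity)
    rw [om_zero h8] at ra
    simp only [zero_div, add_zero] at ra
    have hOm : Real.exp (om M u₁ + om M u₂) ≤ Q := by
      rw [Real.exp_add, mul_comm]
      exact mul_le_mul (exp_om_le h8 M (by linarith)) (exp_om_le h8 M (by linarith))
        (Real.exp_pos _).le (by linarith)
    have hE1 : ‖K3.EP T (u₁ / L)‖ ≤ 106 / 100 * (L / n₁) :=
      (ep T hTTp u₁ hcase.1).2.1 (by linarith)
    have hE2 : ‖K3.EP T (u₂ / L)‖ ≤ 106 / 100 * (L / n₂) :=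
      (ep T hTTp u₂ hcase.2).2.1 (by linarith)
    have hZ : ‖ZT T ((u₁ + u₂) / L)‖ ≤ (1 + e) * (6 / Real.pi ^ 2) := by
      apply zt T hTTz
      refine (norm_add_le _ _).trans ?_
      linarith [hcase.1, hcase.2]
    have hY : (1 - κ) * (Real.exp (om M u₁ + om M u₂) - 1) +
        e * Real.exp (om M u₁ + om M u₂) ≤ ((1 - κ) + e) * (Q - 1) + e := by
      have h1 : (1 - κ) * (Real.exp (om M u₁ + om M u₂) - 1) ≤ (1 - κ) * (Q - 1) :=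
        mul_le_mul_of_nonneg_left (by linarith) (by linarith)
      have h2 : e * Real.exp (om M u₁ + om M u₂) ≤ e * Q :=
        mul_le_mul_of_nonneg_left hOm he.le
      linarith
    refine ra.trans ?_
    calc BF κ T M * ((1 - κ) * (Real.exp (om M u₁ + om M u₂) - 1) +
          e * Real.exp (om M u₁ + om M u₂)) *
          (‖K3.EP T (u₁ / L)‖ * ‖K3.EP T (u₁ / L)‖ * ‖K3.EP T (u₂ / L)‖ * ‖K3.EP T (u₂ / L)‖) *
          ‖ZT T ((u₁ + u₂) / L)‖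
        ≤ BF κ T M * (((1 - κ) + e) * (Q - 1) + e) *
          ((106 / 100 * (L / n₁)) * (106 / 100 * (L / n₁)) * (106 / 100 * (L / n₂)) *
            (106 / 100 * (L / n₂))) * ((1 + e) * (6 / Real.pi ^ 2)) := by
          gcongr
      _ = BF κ T M * L ^ 4 * (6 / Real.pi ^ 2 * (1 + e) * (106 / 100) ^ 4 *
          ((((1 - κ) + e) * (Q - 1) + e) / (n₂ ^ 2 * n₁ ^ 2))) := by
          field_simp
      _ ≤ _ := by
          have : 0 ≤ e * P ^ A := by positivity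
          gcongr
          linarith
  · have hbig : Real.exp (M / 2) ≤ P := by
      rw [not_and_or, not_le, not_le] at hcase
      rcases hcase with h | h
      · calc Real.exp (M / 2) ≤ n₁ := h.le
          _ ≤ 1 * (1 + n₁) := by linarith
          _ ≤ P := by rw [hP]; gcongr; linarith
      · calc Real.exp (M / 2) ≤ n₂ := h.le
          _ ≤ (1 + n₂) * 1 := by linarith
          _ ≤ P := by rw [hP]; gcongr; linarith
    have c1 := cr T hTTc u₁ u₂ (by linarith) (by linarith)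
    have hone : RW4 T M (fun _ => 1) (u₁ / L) (u₂ / L) 0 0 = K3.EP T (u₁ / L) * K3.EP T (u₁ / L) *
        K3.EP T (u₂ / L) * K3.EP T (u₂ / L) * ZT T (u₁ / L + u₂ / L) := by
      have r1 : 0 ≤ (u₁ / (L : ℂ)).re := by rw [div_ofReal_re]; positivity
      have r2 : 0 ≤ (u₂ / (L : ℂ)).re := by rw [div_ofReal_re]; positivity
      have h := h3 T M hT3 hM7 (u₁ / L) (u₂ / L) 0 0 (by linarith) (by linarith)
        (by norm_num) (by norm_num)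
      simpa only [add_zero] using h
    have hE1 : ‖K3.EP T (u₁ / L)‖ ≤ Ce * L := (pe T hTTe).1 _ (by
      have r1 : 0 ≤ (u₁ / (L : ℂ)).re := by rw [div_ofReal_re]; positivity
      have : 0 < 2 / L := by positivity
      linarith)
    have hE2 : ‖K3.EP T (u₂ / L)‖ ≤ Ce * L := (pe T hTTe).1 _ (by
      have r1 : 0 ≤ (u₂ / (L : ℂ)).re := by rw [div_ofReal_re]; positivity
      have : 0 < 2 / L := by positivity
      linarith)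
    have hZ : ‖ZT T (u₁ / L + u₂ / L)‖ ≤ Cz := hz2 T hT3 _ (by
      have r1 : 0 ≤ (u₁ / (L : ℂ)).re := by rw [div_ofReal_re]; positivity
      have r2 : 0 ≤ (u₂ / (L : ℂ)).re := by rw [div_ofReal_re]; positivity
      rw [add_re]
      linarith)
    have c2' : ‖((BF κ T M : ℝ) : ℂ) * RW4 T M (fun _ => 1) (u₁ / L) (u₂ / L) 0 0‖ ≤
        BF κ T M * L ^ 4 * (Ce ^ 4 * Cz) := by
      rw [norm_mul, norm_real, Real.norm_eq_abs, abs_of_pos hBF, hone]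
      simp only [norm_mul]
      calc BF κ T M * (‖K3.EP T (u₁ / L)‖ * ‖K3.EP T (u₁ / L)‖ * ‖K3.EP T (u₂ / L)‖ *
            ‖K3.EP T (u₂ / L)‖ * ‖ZT T (u₁ / L + u₂ / L)‖)
          ≤ BF κ T M * ((Ce * L) * (Ce * L) * (Ce * L) * (Ce * L) * Cz) := by gcongr
        _ = _ := by ring
    have hexp : Real.exp (C * M) * C₃ ^ M ≤ Real.exp (q * M) := by
      have h1 : C₃ ^ M = Real.exp (Real.log C₃ * M) := by
        rw [mul_comm, Real.exp_nat_mul, Real.exp_log hC₃0]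
      rw [h1, ← Real.exp_add]
      apply Real.exp_le_exp.mpr
      rw [← add_mul]
      gcongr
    have c1' : ‖RW4 T M (WF κ T M (Finset.range (JJ T + 1)) ∅) (u₁ / L) (u₂ / L) 0 0‖ ≤
        BF κ T M * L ^ 4 * (3 * C₂ * Real.exp (q * M) * P ^ C) := by
      refine c1.trans ?_
      rw [mul_comm (1 + ‖u₁‖) (1 + ‖u₂‖)]
      calc Real.exp (C * M) * (3 * P ^ C) * L ^ ((1 + κ) ^ 2)
          ≤ Real.exp (C * M) * (3 * P ^ C) * (BF κ T M * L ^ 4 * (C₂ * C₃ ^ M)) := by gcongr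
        _ = BF κ T M * L ^ 4 * (3 * C₂ * (Real.exp (C * M) * C₃ ^ M) * P ^ C) := by ring
        _ ≤ _ := by gcongr
    have hK : K₁ ≤ e * Real.exp M := by
      have h3 : Real.log (K₁ / e) ≤ M := hMe.trans (by exact_mod_cast hM3)
      have h4 : K₁ / e ≤ Real.exp M := by
        rw [← Real.exp_log (show 0 < K₁ / e by positivity)]
        exact Real.exp_le_exp.2 h3
      rw [div_le_iff₀ he] at h4
      linarith
    have hpow : Real.exp M * Real.exp (q * M) ≤ P ^ (2 * q + 2) := by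
      calc Real.exp M * Real.exp (q * M) = Real.exp (((2 * q + 2 : ℕ) : ℝ) * (M / 2)) := by
            rw [← Real.exp_add]; congr 1; push_cast; ring
        _ = Real.exp (M / 2) ^ (2 * q + 2) := by rw [Real.exp_nat_mul]
        _ ≤ _ := pow_le_pow_left₀ (Real.exp_pos _).le hbig _
    have hqM : 1 ≤ Real.exp (q * M) := Real.one_le_exp (by positivity)
    have hPC : 1 ≤ P ^ C := one_le_pow₀ hP1
    refine (norm_sub_le _ _).trans ((add_le_add c1' c2').trans ?_)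
    calc BF κ T M * L ^ 4 * (3 * C₂ * Real.exp (q * M) * P ^ C) +
          BF κ T M * L ^ 4 * (Ce ^ 4 * Cz)
        = BF κ T M * L ^ 4 * (3 * C₂ * (Real.exp (q * M) * P ^ C) + Ce ^ 4 * Cz * 1) := by ring
      _ ≤ BF κ T M * L ^ 4 * (3 * C₂ * (Real.exp (q * M) * P ^ C) +
          Ce ^ 4 * Cz * (Real.exp (q * M) * P ^ C)) := by
          gcongr
          exact one_le_mul_of_one_le_of_one_le hqM hPC
      _ = BF κ T M * L ^ 4 * (K₁ * (Real.exp (q * M) * P ^ C)) := by rw [hK₁]; ring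
      _ ≤ BF κ T M * L ^ 4 * (e * Real.exp M * (Real.exp (q * M) * P ^ C)) := by gcongr
      _ = BF κ T M * L ^ 4 * (e * (P ^ C * (Real.exp M * Real.exp (q * M)))) := by ring
      _ ≤ BF κ T M * L ^ 4 * (e * (P ^ C * P ^ (2 * q + 2))) := by gcongr
      _ = BF κ T M * L ^ 4 * (e * P ^ A) := by rw [hAd, pow_add P C]
      _ ≤ _ := by
          gcongr
          linarith

/-! ### integration -/

lemma norm_un_sq (ξ : ℝ) : ‖un 0 ξ‖ ^ 2 = 4 + (2 * Real.pi * ξ) ^ 2 := by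
  rw [← normSq_eq_norm_sq, un]
  have h : (2 : ℂ) + ((0 - 2 * Real.pi * ξ : ℝ) : ℂ) * I =
      ((2 : ℝ) : ℂ) + ((0 - 2 * Real.pi * ξ : ℝ) : ℂ) * I := by norm_num
  rw [h, normSq_add_mul_I]
  ring

lemma continuous_un : Continuous fun ξ : ℝ => un 0 ξ := by
  unfold un
  fun_prop

lemma continuous_r : Continuous fun ξ : ℝ => (‖un 0 ξ‖ ^ 3)⁻¹ := by
  refine (continuous_un.norm.pow 3).inv₀ fun ξ => ?_
  have h : 0 < ‖un 0 ξ‖ := by linarith [two_le_un ξ]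
  exact (pow_pos h 3).ne'

lemma int_r : Integrable fun ξ : ℝ => (‖un 0 ξ‖ ^ 3)⁻¹ := by
  refine integrable_inv_one_add_sq.mono' ?_ (Filter.Eventually.of_forall fun ξ => ?_)
  · refine Continuous.aestronglyMeasurable ?_
    exact continuous_r
  · have h2 := two_le_un ξ
    have hs := norm_un_sq ξ
    rw [Real.norm_eq_abs, abs_of_nonneg (by positivity)]
    have hp : 1 ≤ Real.pi ^ 2 := by nlinarith [Real.pi_gt_three]
    have h3 : 1 + ξ ^ 2 ≤ ‖un 0 ξ‖ ^ 3 := by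
      calc 1 + ξ ^ 2 ≤ 4 + (2 * Real.pi * ξ) ^ 2 := by nlinarith [sq_nonneg ξ]
        _ = ‖un 0 ξ‖ ^ 2 * 1 := by rw [hs, mul_one]
        _ ≤ ‖un 0 ξ‖ ^ 2 * ‖un 0 ξ‖ := by gcongr; linarith
        _ = _ := by ring
    exact inv_anti₀ (by positivity) h3

lemma continuous_k {φ : ℝ → ℝ} (h : Cut φ) (A : ℕ) :
    Continuous fun ξ : ℝ => ‖gh h ξ‖ * (1 + ‖un 0 ξ‖) ^ A :=
  (gh h).continuous.norm.mul ((continuous_const.add continuous_un.norm).pow A)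

lemma int_k {φ : ℝ → ℝ} (h : Cut φ) (A : ℕ) :
    Integrable fun ξ : ℝ => ‖gh h ξ‖ * (1 + ‖un 0 ξ‖) ^ A := by
  refine ((gh_int h A).const_mul (7 ^ A)).mono' ?_ (Filter.Eventually.of_forall fun ξ => ?_)
  · exact (continuous_k h A).aestronglyMeasurable
  · have h1 : 1 + ‖un 0 ξ‖ ≤ 7 * (1 + |ξ|) := by
      have h2 : ‖un 0 ξ‖ ≤ 2 + |(0 : ℝ)| + 7 * |ξ| := K4.Red.norm_zn_le 0 ξ
      rw [abs_zero] at h2
      linarith
    rw [Real.norm_eq_abs, abs_of_nonneg (by positivity)]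
    calc ‖gh h ξ‖ * (1 + ‖un 0 ξ‖) ^ A ≤ ‖gh h ξ‖ * (7 * (1 + |ξ|)) ^ A := by gcongr
      _ = _ := by rw [mul_pow]; ring

lemma lint {f : ℝ → ℝ} (hf : Integrable f) (h0 : ∀ x, 0 ≤ f x) {c : ℝ} (hc : 0 ≤ c) :
    ∫⁻ x, ENNReal.ofReal (c * f x) = ENNReal.ofReal (c * ∫ x, f x) := by
  rw [← integral_const_mul, ofReal_integral_eq_lintegral_ofReal (hf.const_mul c)
    (Filter.Eventually.of_forall fun x => mul_nonneg hc (h0 x))]

/-- Bound for a double integral. -/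
lemma dbl {G₁ G₂ : ℝ → ℂ} {F : ℝ → ℝ → ℂ} {J : ℝ → ℝ → ℝ} {r k₁ k₂ : ℝ → ℝ} {a b c cJ : ℝ}
    (ha : 0 ≤ a) (hb : 0 ≤ b) (hc : 0 ≤ c) (hcJ : 0 ≤ cJ) (hJ0 : ∀ ξ ξ₂, 0 ≤ J ξ ξ₂)
    (hr0 : ∀ ξ, 0 ≤ r ξ) (hk₁0 : ∀ ξ, 0 ≤ k₁ ξ) (hk₂0 : ∀ ξ, 0 ≤ k₂ ξ) (ir : Integrable r)
    (i1 : Integrable k₁) (i2 : Integrable k₂) (cr : Continuous r) (ck1 : Continuous k₁)
    (ck2 : Continuous k₂)
    (hpt : ∀ ξ ξ₂, ‖G₁ ξ‖ * (‖G₂ ξ₂‖ * ‖F ξ ξ₂‖) ≤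
      a * J ξ ξ₂ + (b * r ξ * r ξ₂ + c * k₁ ξ * k₂ ξ₂))
    (hJ : ∫⁻ ξ, ∫⁻ ξ₂, ENNReal.ofReal (J ξ ξ₂) ≤ ENNReal.ofReal cJ) :
    ‖∫ ξ : ℝ, G₁ ξ * ∫ ξ₂ : ℝ, G₂ ξ₂ * F ξ ξ₂‖ ≤
      a * cJ + (b * (∫ ξ, r ξ) * (∫ ξ, r ξ) + c * (∫ ξ, k₁ ξ) * (∫ ξ, k₂ ξ)) := by
  obtain ⟨R, hR⟩ : ∃ R, R = ∫ ξ, r ξ := ⟨_, rfl⟩
  obtain ⟨K₁, hK₁⟩ : ∃ K₁, K₁ = ∫ ξ, k₁ ξ := ⟨_, rfl⟩
  obtain ⟨K₂, hK₂⟩ : ∃ K₂, K₂ = ∫ ξ, k₂ ξ := ⟨_, rfl⟩
  have hR0 : 0 ≤ R := hR ▸ integral_nonneg hr0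
  have hK₁0 : 0 ≤ K₁ := hK₁ ▸ integral_nonneg hk₁0
  have hK₂0 : 0 ≤ K₂ := hK₂ ▸ integral_nonneg hk₂0
  rw [← hR, ← hK₁, ← hK₂]
  have hpt' : ∀ ξ ξ₂, ‖G₁ ξ‖ₑ * ‖G₂ ξ₂ * F ξ ξ₂‖ₑ ≤
      ENNReal.ofReal a * ENNReal.ofReal (J ξ ξ₂) +
        (ENNReal.ofReal (b * r ξ * r ξ₂) + ENNReal.ofReal (c * k₁ ξ * k₂ ξ₂)) := by
    intro ξ ξ₂
    have p1 := hJ0 ξ ξ₂
    have p2 := hr0 ξ
    have p3 := hr0 ξ₂
    have p4 := hk₁0 ξ
    have p5 := hk₂0 ξ₂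
    rw [← enorm_mul, ← ofReal_norm, norm_mul, norm_mul,
      ← ENNReal.ofReal_mul ha, ← ENNReal.ofReal_add (by positivity) (by positivity),
      ← ENNReal.ofReal_add (by positivity) (by positivity)]
    exact ENNReal.ofReal_le_ofReal (hpt ξ ξ₂)
  have hin : ∀ ξ, ‖G₁ ξ * ∫ ξ₂ : ℝ, G₂ ξ₂ * F ξ ξ₂‖ₑ ≤
      ENNReal.ofReal a * (∫⁻ ξ₂, ENNReal.ofReal (J ξ ξ₂)) +
        (ENNReal.ofReal (b * R * r ξ) + ENNReal.ofReal (c * K₂ * k₁ ξ)) := by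
    intro ξ
    have p2 := hr0 ξ
    have p4 := hk₁0 ξ
    have f1 : ∫⁻ ξ₂, ENNReal.ofReal (b * r ξ * r ξ₂) = ENNReal.ofReal (b * R * r ξ) := by
      rw [lint ir hr0 (by positivity), ← hR]
      congr 1
      ring
    have f2 : ∫⁻ ξ₂, ENNReal.ofReal (c * k₁ ξ * k₂ ξ₂) = ENNReal.ofReal (c * K₂ * k₁ ξ) := by
      rw [lint i2 hk₂0 (by positivity), ← hK₂]
      congr 1
      ring
    have m1 : Measurable fun ξ₂ => ENNReal.ofReal (b * r ξ * r ξ₂) :=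
      (continuous_const.mul cr).measurable.ennreal_ofReal
    have m2 : Measurable fun ξ₂ => ENNReal.ofReal (c * k₁ ξ * k₂ ξ₂) :=
      (continuous_const.mul ck2).measurable.ennreal_ofReal
    have m3 : Measurable fun ξ₂ => ENNReal.ofReal (b * r ξ * r ξ₂) +
      ENNReal.ofReal (c * k₁ ξ * k₂ ξ₂) := m1.add m2
    calc ‖G₁ ξ * ∫ ξ₂ : ℝ, G₂ ξ₂ * F ξ ξ₂‖ₑ
        = ‖G₁ ξ‖ₑ * ‖∫ ξ₂ : ℝ, G₂ ξ₂ * F ξ ξ₂‖ₑ := enorm_mul _ _
      _ ≤ ‖G₁ ξ‖ₑ * ∫⁻ ξ₂, ‖G₂ ξ₂ * F ξ ξ₂‖ₑ := by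
          gcongr
          exact enorm_integral_le_lintegral_enorm _
      _ = ∫⁻ ξ₂, ‖G₁ ξ‖ₑ * ‖G₂ ξ₂ * F ξ ξ₂‖ₑ := (lintegral_const_mul' _ _ enorm_ne_top).symm
      _ ≤ ∫⁻ ξ₂, (ENNReal.ofReal a * ENNReal.ofReal (J ξ ξ₂) +
          (ENNReal.ofReal (b * r ξ * r ξ₂) + ENNReal.ofReal (c * k₁ ξ * k₂ ξ₂))) :=
          lintegral_mono (hpt' ξ)
      _ = _ := by
          rw [lintegral_add_right _ m3, lintegral_add_left m1, f1, f2,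
            lintegral_const_mul' _ _ ENNReal.ofReal_ne_top]
  have f1 : ∫⁻ ξ, ENNReal.ofReal (b * R * r ξ) = ENNReal.ofReal (b * R * R) := by
    rw [lint ir hr0 (by positivity), ← hR]
  have f2 : ∫⁻ ξ, ENNReal.ofReal (c * K₂ * k₁ ξ) = ENNReal.ofReal (c * K₁ * K₂) := by
    rw [lint i1 hk₁0 (by positivity), ← hK₁]
    congr 1
    ring
  have m1 : Measurable fun ξ => ENNReal.ofReal (b * R * r ξ) :=
    (continuous_const.mul cr).measurable.ennreal_ofReal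
  have m2 : Measurable fun ξ => ENNReal.ofReal (c * K₂ * k₁ ξ) :=
    (continuous_const.mul ck1).measurable.ennreal_ofReal
  have m3 : Measurable fun ξ => ENNReal.ofReal (b * R * r ξ) + ENNReal.ofReal (c * K₂ * k₁ ξ) :=
    m1.add m2
  have htot : ‖∫ ξ : ℝ, G₁ ξ * ∫ ξ₂ : ℝ, G₂ ξ₂ * F ξ ξ₂‖ₑ ≤
      ENNReal.ofReal (a * cJ + (b * R * R + c * K₁ * K₂)) := by
    calc ‖∫ ξ : ℝ, G₁ ξ * ∫ ξ₂ : ℝ, G₂ ξ₂ * F ξ ξ₂‖ₑ
        ≤ ∫⁻ ξ, ‖G₁ ξ * ∫ ξ₂ : ℝ, G₂ ξ₂ * F ξ ξ₂‖ₑ := enorm_integral_le_lintegral_enorm _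
      _ ≤ ∫⁻ ξ, (ENNReal.ofReal a * (∫⁻ ξ₂, ENNReal.ofReal (J ξ ξ₂)) +
        (ENNReal.ofReal (b * R * r ξ) + ENNReal.ofReal (c * K₂ * k₁ ξ))) :=
          lintegral_mono hin
      _ = ENNReal.ofReal a * (∫⁻ ξ, ∫⁻ ξ₂, ENNReal.ofReal (J ξ ξ₂)) +
          (ENNReal.ofReal (b * R * R) + ENNReal.ofReal (c * K₁ * K₂)) := by
          rw [lintegral_add_right _ m3, lintegral_add_left m1, f1, f2,
            lintegral_const_mul' _ _ ENNReal.ofReal_ne_top]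
      _ ≤ ENNReal.ofReal a * ENNReal.ofReal cJ +
          (ENNReal.ofReal (b * R * R) + ENNReal.ofReal (c * K₁ * K₂)) := by
          gcongr
      _ = _ := by
          rw [← ENNReal.ofReal_mul ha, ← ENNReal.ofReal_add (by positivity)
            (by positivity), ← ENNReal.ofReal_add (by positivity) (by positivity)]
  rw [← ofReal_norm] at htot
  exact (ENNReal.ofReal_le_ofReal_iff (by positivity)).1 htot

lemma integ (hJ : StJ3) {φ₁ φ₂ : ℝ → ℝ} (h₁ : Cut φ₁) (h₂ : Cut φ₂)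
    (b₁ : ∀ ξ, ‖gh h₁ ξ‖ ≤ 11 / 4 / ‖un 0 ξ‖) (b₂ : ∀ ξ, ‖gh h₂ ξ‖ ≤ 11 / 4 / ‖un 0 ξ‖) (A : ℕ) :
    ∃ K : ℝ, 0 ≤ K ∧ ∀ (F : ℝ → ℝ → ℂ) (D e κ : ℝ), 0 ≤ D → 0 < e → e ≤ 1 → 0 < κ → κ < 1 →
    (∀ ξ ξ₂ : ℝ, ‖F ξ ξ₂‖ ≤ D * (6 / Real.pi ^ 2 * (1 + e) * (106 / 100) ^ 4 *
        ((((1 - κ) + e) * (qb (tq 0 * ‖un 0 ξ‖) * qb (tq 0 * ‖un 0 ξ₂‖) - 1) + e) /
          (‖un 0 ξ‖ ^ 2 * ‖un 0 ξ₂‖ ^ 2)) +
        e * ((1 + ‖un 0 ξ‖) ^ A * (1 + ‖un 0 ξ₂‖) ^ A))) →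
    ‖∫ ξ : ℝ, gh h₁ ξ * ∫ ξ₂ : ℝ, gh h₂ ξ₂ * F ξ ξ₂‖ ≤
      D * ((1 - κ) * c2 * (6 / Real.pi ^ 2) + K * e) := by
  obtain ⟨R, hR⟩ : ∃ R, R = ∫ ξ : ℝ, (‖un 0 ξ‖ ^ 3)⁻¹ := ⟨_, rfl⟩
  obtain ⟨K₁, hK₁⟩ : ∃ K₁, K₁ = ∫ ξ : ℝ, ‖gh h₁ ξ‖ * (1 + ‖un 0 ξ‖) ^ A := ⟨_, rfl⟩
  obtain ⟨K₂, hK₂⟩ : ∃ K₂, K₂ = ∫ ξ : ℝ, ‖gh h₂ ξ‖ * (1 + ‖un 0 ξ‖) ^ A := ⟨_, rfl⟩
  have hR0 : 0 ≤ R := hR ▸ integral_nonneg fun ξ => by positivity
  have hK₁0 : 0 ≤ K₁ := hK₁ ▸ integral_nonneg fun ξ => by positivity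
  have hK₂0 : 0 ≤ K₂ := hK₂ ▸ integral_nonneg fun ξ => by positivity
  have hc2 : 0 ≤ c2 := by unfold c2; norm_num
  refine ⟨3 * c2 + 2 * ((106 / 100) ^ 4 * (11 / 4) ^ 2) * R ^ 2 + K₁ * K₂, by positivity,
    fun F D e κ hD he he1 hκ hκ1 hF => ?_⟩
  have tq0 : 0 < tq 0 := Blk7.tq_pos 0
  obtain ⟨g, hg⟩ : ∃ g, g = 6 / Real.pi ^ 2 := ⟨_, rfl⟩
  rw [← hg] at hF ⊢
  have hpi : g ≤ 1 := by
    rw [hg, div_le_one (by positivity)]
    nlinarith [Real.pi_gt_three]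
  have hpi0 : 0 < g := by rw [hg]; positivity
  obtain ⟨α, hα⟩ : ∃ α, α = g * (1 + e) * ((1 - κ) + e) := ⟨_, rfl⟩
  obtain ⟨β, hβ⟩ : ∃ β, β = g * (1 + e) * e * ((106 / 100) ^ 4 * (11 / 4) ^ 2) := ⟨_, rfl⟩
  have hα0 : 0 ≤ α := hα ▸ mul_nonneg (by positivity) (by linarith)
  have hβ0 : 0 ≤ β := by rw [hβ]; positivity
  have hQ : ∀ ξ ξ₂ : ℝ, 1 ≤ qb (tq 0 * ‖un 0 ξ‖) * qb (tq 0 * ‖un 0 ξ₂‖) := fun ξ ξ₂ =>
    one_le_mul_of_one_le_of_one_le (one_le_qb (by positivity)) (one_le_qb (by positivity))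
  have hJ0 : ∀ ξ ξ₂ : ℝ, 0 ≤ (106 / 100) ^ 4 * (11 / 4) ^ 2 *
      ((qb (tq 0 * ‖un 0 ξ‖) * qb (tq 0 * ‖un 0 ξ₂‖) - 1) / (‖un 0 ξ‖ ^ 3 * ‖un 0 ξ₂‖ ^ 3)) :=
    fun ξ ξ₂ => mul_nonneg (by positivity) (div_nonneg (by linarith [hQ ξ ξ₂]) (by positivity))
  have hreal : ∀ ξ ξ₂ : ℝ, ‖gh h₁ ξ‖ * (‖gh h₂ ξ₂‖ * ‖F ξ ξ₂‖) ≤
      D * α * ((106 / 100) ^ 4 * (11 / 4) ^ 2 *
      ((qb (tq 0 * ‖un 0 ξ‖) * qb (tq 0 * ‖un 0 ξ₂‖) - 1) / (‖un 0 ξ‖ ^ 3 * ‖un 0 ξ₂‖ ^ 3))) +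
      (D * β * (‖un 0 ξ‖ ^ 3)⁻¹ * (‖un 0 ξ₂‖ ^ 3)⁻¹ +
        D * e * (‖gh h₁ ξ‖ * (1 + ‖un 0 ξ‖) ^ A) * (‖gh h₂ ξ₂‖ * (1 + ‖un 0 ξ₂‖) ^ A)) := by
    intro ξ ξ₂
    have h1 := hQ ξ ξ₂
    have b1 := b₁ ξ
    have b2 := b₂ ξ₂
    have f1 := hF ξ ξ₂
    have n1 := two_le_un ξ
    have n2 := two_le_un ξ₂
    generalize ‖F ξ ξ₂‖ = f at f1 ⊢
    generalize hq1 : qb (tq 0 * ‖un 0 ξ‖) = q1 at h1 f1 ⊢
    generalize hq2 : qb (tq 0 * ‖un 0 ξ₂‖) = q2 at h1 f1 ⊢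
    have g1 : 0 ≤ ‖gh h₁ ξ‖ := norm_nonneg _
    have g2 : 0 ≤ ‖gh h₂ ξ₂‖ := norm_nonneg _
    generalize ‖gh h₁ ξ‖ = G1 at g1 b1 ⊢
    generalize ‖gh h₂ ξ₂‖ = G2 at g2 b2 ⊢
    generalize ‖un 0 ξ‖ = N1 at *
    generalize ‖un 0 ξ₂‖ = N2 at *
    have hn1 : 0 < N1 := by linarith
    have hn2 : 0 < N2 := by linarith
    have hY : 0 ≤ ((1 - κ) + e) * (q1 * q2 - 1) + e := by
      have : 0 ≤ ((1 - κ) + e) * (q1 * q2 - 1) := mul_nonneg (by linarith) (by linarith)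
      linarith
    have hX : 0 ≤ D * (g * (1 + e) * (106 / 100) ^ 4 *
        ((((1 - κ) + e) * (q1 * q2 - 1) + e) / (N1 ^ 2 * N2 ^ 2))) :=
      mul_nonneg hD (mul_nonneg (by positivity) (div_nonneg hY (by positivity)))
    calc G1 * (G2 * f)
        ≤ G1 * (G2 * (D * (g * (1 + e) * (106 / 100) ^ 4 *
        ((((1 - κ) + e) * (q1 * q2 - 1) + e) / (N1 ^ 2 * N2 ^ 2)) +
        e * ((1 + N1) ^ A * (1 + N2) ^ A)))) := by gcongr
      _ = (G1 * G2) * (D * (g * (1 + e) * (106 / 100) ^ 4 *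
        ((((1 - κ) + e) * (q1 * q2 - 1) + e) / (N1 ^ 2 * N2 ^ 2)))) +
          D * e * (G1 * (1 + N1) ^ A) * (G2 * (1 + N2) ^ A) := by ring
      _ ≤ ((11 / 4 / N1) * (11 / 4 / N2)) * (D * (g * (1 + e) * (106 / 100) ^ 4 *
        ((((1 - κ) + e) * (q1 * q2 - 1) + e) / (N1 ^ 2 * N2 ^ 2)))) +
          D * e * (G1 * (1 + N1) ^ A) * (G2 * (1 + N2) ^ A) := by gcongr
      _ = _ := by
          rw [hα, hβ, ← add_assoc]
          congr 1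
          field_simp
  have h := dbl (G₁ := fun ξ => gh h₁ ξ) (G₂ := fun ξ => gh h₂ ξ) (F := F)
    (r := fun ξ : ℝ => (‖un 0 ξ‖ ^ 3)⁻¹) (k₁ := fun ξ : ℝ => ‖gh h₁ ξ‖ * (1 + ‖un 0 ξ‖) ^ A)
    (k₂ := fun ξ : ℝ => ‖gh h₂ ξ‖ * (1 + ‖un 0 ξ‖) ^ A) (a := D * α) (b := D * β) (c := D * e)
    (cJ := c2) (by positivity) (by positivity) (by positivity) hc2 hJ0 (fun ξ => by positivity)
    (fun ξ => by positivity) (fun ξ => by positivity) int_r (int_k h₁ A) (int_k h₂ A)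
    continuous_r (continuous_k h₁ A) (continuous_k h₂ A) hreal hJ
  rw [← hR, ← hK₁, ← hK₂] at h
  refine h.trans ?_
  have a1 : α ≤ (1 - κ) * g + 3 * e := by
    have h1 : α = g * (1 - κ) + g * (e * (1 - κ) + e + e ^ 2) := by rw [hα]; ring
    have h2 : g * (e * (1 - κ) + e + e ^ 2) ≤ 1 * (e * 1 + e + e * 1) := by
      have h3 : 0 ≤ e * (1 - κ) + e + e ^ 2 := by
        have : 0 ≤ e * (1 - κ) := mul_nonneg he.le (by linarith)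
        positivity
      have h4 : e * (1 - κ) + e + e ^ 2 ≤ e * 1 + e + e * 1 := by nlinarith
      calc g * (e * (1 - κ) + e + e ^ 2) ≤ 1 * (e * (1 - κ) + e + e ^ 2) := by gcongr
        _ ≤ _ := by gcongr
    linarith
  have a2 : β ≤ 2 * ((106 / 100) ^ 4 * (11 / 4) ^ 2) * e := by
    rw [hβ]
    have h1 : g * (1 + e) ≤ 1 * 2 := by gcongr; linarith
    calc g * (1 + e) * e * ((106 / 100) ^ 4 * (11 / 4) ^ 2) ≤
        (1 * 2) * e * ((106 / 100) ^ 4 * (11 / 4) ^ 2) := by gcongr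
      _ = _ := by ring
  calc D * α * c2 + (D * β * R * R + D * e * K₁ * K₂)
      ≤ D * ((1 - κ) * g + 3 * e) * c2 +
        (D * (2 * ((106 / 100) ^ 4 * (11 / 4) ^ 2) * e) * R * R + D * e * K₁ * K₂) := by gcongr
    _ = _ := by ring

/-- From the double integral to the pairing. -/
lemma fin {κ δ θ : ℝ} (hδ : 0 < δ) (hθ : 0 ≤ θ) (c₁ : Cut (fC δ (1 / 60))) (c₂ : Cut (fC δ θ))
    {T : ℝ} (hT : 1 < T) {M : ℕ} (hM : 7 ≤ M) {B : ℝ}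
    (hI : ‖∫ ξ : ℝ, gh c₁ ξ * ∫ ξ₂ : ℝ, gh c₂ ξ₂ *
      (RW4 T M (WF κ T M (Finset.range (JJ T + 1)) ∅) (un 0 ξ₂ / Real.log T)
        (un 0 ξ / Real.log T) 0 0 - ((BF κ T M : ℝ) : ℂ) *
        RW4 T M (fun _ => 1) (un 0 ξ₂ / Real.log T) (un 0 ξ / Real.log T) 0 0)‖ ≤ B) :
    ‖ER (SBq T M) (fun f => ZZ (PS 0 T) (tw (1 / 2) f) ^ 2 *
        (starRingEnd ℂ) (SG (PA δ (1 / 60)) T (tw (1 / 2) f) *
          SG (PA δ θ) T (tw (1 / 2) f)) *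
        ((WF κ T M (Finset.range (JJ T + 1)) ∅ (tw (1 / 2) f) : ℝ) : ℂ)) -
      ((BF κ T M * S2g (PA δ (1 / 60)) (PA δ θ) T : ℝ) : ℂ)‖ ≤ B := by
  obtain ⟨j1, i1, r1⟩ := rep c₁ c₂ hT hM (WF κ T M (Finset.range (JJ T + 1)) ∅)
    (bc_WF _ _ _ _ _ _)
  obtain ⟨j2, i2, r2⟩ := rep c₁ c₂ hT hM (fun _ => 1) (bc_const _)
  have hex := exact hδ (show (0 : ℝ) ≤ 1 / 60 by norm_num) hθ hT hM
  simp only [SG_PA] at hex ⊢
  rw [hex, conj_ofReal] at r2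
  rw [← RCLike.norm_conj (_ - _), map_sub, conj_ofReal, ofReal_mul, r1, r2, ← integral_const_mul,
    ← integral_sub i1 (i2.const_mul _)]
  refine le_trans (le_of_eq ?_) hI
  congr 1
  refine integral_congr_ae (Filter.Eventually.of_forall fun ξ => ?_)
  simp only
  have h1 : ∫ ξ₂ : ℝ, gh c₂ ξ₂ *
      (RW4 T M (WF κ T M (Finset.range (JJ T + 1)) ∅) (un 0 ξ₂ / Real.log T)
        (un 0 ξ / Real.log T) 0 0 - ((BF κ T M : ℝ) : ℂ) *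
        RW4 T M (fun _ => 1) (un 0 ξ₂ / Real.log T) (un 0 ξ / Real.log T) 0 0) =
      (∫ ξ₂ : ℝ, gh c₂ ξ₂ * RW4 T M (WF κ T M (Finset.range (JJ T + 1)) ∅)
        (un 0 ξ₂ / Real.log T) (un 0 ξ / Real.log T) 0 0) - ((BF κ T M : ℝ) : ℂ) *
      ∫ ξ₂ : ℝ, gh c₂ ξ₂ * RW4 T M (fun _ => 1) (un 0 ξ₂ / Real.log T)
        (un 0 ξ / Real.log T) 0 0 := by
    rw [← integral_const_mul, ← integral_sub (j1 ξ) ((j2 ξ).const_mul _)]
    congr 1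
    funext ξ₂
    ring
  rw [h1]
  ring

end PW

open PW in
theorem stPairW (h2 : StCmp4) (h3 : StOne4) (h4 : StEP7) (h5 : StZT) (h6 : StPB) (h7 : StRandW)
    (h8 : StOm) (hg : StGhC) (hJ : StJ3) (hA : StAK7) (hr : K5.StRho) : StPairW := by
  intro κ δ η hκ hκ1 hδ hδ' hη
  obtain ⟨c0, c1, _, hgh, _⟩ := hg δ hδ hδ'
  obtain ⟨A, key⟩ := PW.key h2 h3 h4 h5 h6 h7 h8 hA hr hκ hκ1
  have b0 := hgh 0 (Or.inl rfl) c0.cut
  have b1 := hgh (1 / 60) (Or.inr rfl) c1.cut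
  obtain ⟨Ka, hKa, ia⟩ := PW.integ hJ c1.cut c0.cut b1 b0 A
  obtain ⟨Kb, hKb, ib⟩ := PW.integ hJ c1.cut c1.cut b1 b1 A
  set e := min 1 (η / (Ka + Kb + 1)) with he
  have he0 : 0 < e := lt_min one_pos (by positivity)
  have he1 : e ≤ 1 := min_le_left _ _
  have heη : (Ka + Kb + 1) * e ≤ η := by
    calc (Ka + Kb + 1) * e ≤ (Ka + Kb + 1) * (η / (Ka + Kb + 1)) := by
          gcongr
          exact min_le_right _ _
      _ = η := by field_simp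
  have hae : Ka * e ≤ η := le_trans (by nlinarith) heη
  have hbe : Kb * e ≤ η := le_trans (by nlinarith) heη
  obtain ⟨M₀, hM7, key⟩ := key e he0
  refine ⟨M₀, fun M hM => ?_⟩
  obtain ⟨T₀, hT₀, key⟩ := key M hM
  refine ⟨T₀, hT₀, fun T hT θ hθ => ?_⟩
  obtain ⟨hBF, key⟩ := key T hT
  have hT3 : 3 ≤ T := hT₀.trans hT
  have hT1 : 1 < T := by linarith
  have hL : 0 < Real.log T := Real.log_pos hT1
  have hD : 0 ≤ BF κ T M * Real.log T ^ 4 := by positivity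
  rcases hθ with rfl | rfl
  · refine (PW.fin hδ le_rfl c1.cut c0.cut hT1 (hM7.trans hM)
      (ia _ _ e κ hD he0 he1 hκ hκ1 key)).trans ?_
    rw [mul_comm]
    gcongr
  · refine (PW.fin hδ (by norm_num) c1.cut c1.cut hT1 (hM7.trans hM)
      (ib _ _ e κ hD he0 he1 hκ hκ1 key)).trans ?_
    rw [mul_comm]
    gcongr

end K7
end Pool.Agent.Lib.MP_973905_nt
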