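import Pool.Agent.Lib.MP_973905_nt.K7.Stmts

/-! Module K7-R10a: derivatives of the limit, block 0. Everything is a polynomial in `k`; the
differences of the two sides are polynomials with nonnegative coefficients in `k` and `1 - 2 k`
(for `k ≤ 1/2`), respectively in `2 k - 1` and `1 - k` (for `k ≥ 1/2`). -/

set_option autoImplicit false

namespace Pool.Agent.Lib.MP_973905_nt
namespace K7

open MeasureTheory ProbabilityTheory Complex Filter Topology K1 K4 K5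

namespace PD0

/-- the correction vanishes for `k ≤ 1/2` -/
theorem eta_low {k : ℝ} (h0 : 0 < k) (h : k ≤ 1 / 2) (d : ℕ) : eta (1 - k) d = 0 := by
  unfold K5.eta
  apply max_eq_left
  have h1 : k ^ d ≤ (1 - k) ^ d := pow_le_pow_left₀ h0.le (by linarith) d
  have h2 : (1 - (1 - k)) ^ d - (1 - k) ^ d ≤ 0 := by
    rw [sub_sub_cancel]
    linarith
  have h3 : 0 ≤ 3 / 8 * ((1 - k) / ((1 - (1 - k)) * (d * d.factorial))) := by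
    rw [sub_sub_cancel]
    have : 0 ≤ 1 - k := by linarith
    positivity
  exact mul_nonpos_of_nonneg_of_nonpos h3 h2

/-- the correction for `k ≥ 1/2` -/
theorem eta_high {k : ℝ} (h : 1 / 2 ≤ k) (h1 : k ≤ 1) (d : ℕ) :
    k * eta (1 - k) d = 3 / 8 * ((1 - k) / (d * d.factorial)) * (k ^ d - (1 - k) ^ d) := by
  unfold K5.eta
  have hk : (0 : ℝ) < k := by linarith
  rw [sub_sub_cancel, max_eq_right]
  · rw [← div_div]
    field_simp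
  · have h2 : (1 - k) ^ d ≤ k ^ d := pow_le_pow_left₀ (by linarith) (by linarith) d
    have h3 : 0 ≤ k ^ d - (1 - k) ^ d := by linarith
    have : 0 ≤ 1 - k := by linarith
    positivity

/-- the moments -/
noncomputable def mm (n : ℕ) (k : ℝ) : ℝ := mom n (k * (22 / 25)) (22 / 25 / 2)

/-- the sum of the main terms -/
noncomputable def sm (n : ℕ) (k : ℝ) : ℝ :=
  ∑ j ∈ Finset.range (n + 1), (-(2 * (1 - k))) ^ j / j.factorial * mm j k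

theorem mm0 (k : ℝ) : mm 0 k = 1 := by
  unfold mm
  simp only [mom]

theorem mm1 (k : ℝ) : mm 1 k = (22 / 25) * k := by
  unfold mm
  simp only [mom]
  ring

theorem mm2 (k : ℝ) : mm 2 k = (11 / 25) + (484 / 625) * k ^ 2 := by
  unfold mm
  simp only [mom]
  push_cast
  ring

theorem mm3 (k : ℝ) : mm 3 k = (726 / 625) * k + (10648 / 15625) * k ^ 3 := by
  unfold mm
  simp only [mom]
  push_cast
  ring

theorem mm4 (k : ℝ) : mm 4 k = (363 / 625) + (31944 / 15625) * k ^ 2 + (234256 / 390625) * k ^ 4 := by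
  unfold mm
  simp only [mom]
  push_cast
  ring

theorem sm0 (k : ℝ) : sm 0 k =
    (-(2 * (1 - k))) ^ 0 / 1 * (1) := by
  unfold sm
  simp only [Finset.sum_range_succ, Finset.sum_range_zero, mm0,
    Nat.factorial]
  push_cast
  ring

theorem sm1 (k : ℝ) : sm 1 k =
    (-(2 * (1 - k))) ^ 0 / 1 * (1) +
      (-(2 * (1 - k))) ^ 1 / 1 * ((22 / 25) * k) := by
  unfold sm
  simp only [Finset.sum_range_succ, Finset.sum_range_zero, mm0, mm1,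
    Nat.factorial]
  push_cast
  ring

theorem sm2 (k : ℝ) : sm 2 k =
    (-(2 * (1 - k))) ^ 0 / 1 * (1) +
      (-(2 * (1 - k))) ^ 1 / 1 * ((22 / 25) * k) +
      (-(2 * (1 - k))) ^ 2 / 2 * ((11 / 25) + (484 / 625) * k ^ 2) := by
  unfold sm
  simp only [Finset.sum_range_succ, Finset.sum_range_zero, mm0, mm1, mm2,
    Nat.factorial]
  push_cast
  ring

theorem sm3 (k : ℝ) : sm 3 k =
    (-(2 * (1 - k))) ^ 0 / 1 * (1) +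
      (-(2 * (1 - k))) ^ 1 / 1 * ((22 / 25) * k) +
      (-(2 * (1 - k))) ^ 2 / 2 * ((11 / 25) + (484 / 625) * k ^ 2) +
      (-(2 * (1 - k))) ^ 3 / 6 * ((726 / 625) * k + (10648 / 15625) * k ^ 3) := by
  unfold sm
  simp only [Finset.sum_range_succ, Finset.sum_range_zero, mm0, mm1, mm2, mm3,
    Nat.factorial]
  push_cast
  ring

theorem sm4 (k : ℝ) : sm 4 k =
    (-(2 * (1 - k))) ^ 0 / 1 * (1) +
      (-(2 * (1 - k))) ^ 1 / 1 * ((22 / 25) * k) +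
      (-(2 * (1 - k))) ^ 2 / 2 * ((11 / 25) + (484 / 625) * k ^ 2) +
      (-(2 * (1 - k))) ^ 3 / 6 * ((726 / 625) * k + (10648 / 15625) * k ^ 3) +
      (-(2 * (1 - k))) ^ 4 / 24 * ((363 / 625) + (31944 / 15625) * k ^ 2 + (234256 / 390625) * k ^ 4) := by
  unfold sm
  simp only [Finset.sum_range_succ, Finset.sum_range_zero, mm0, mm1, mm2, mm3, mm4,
    Nat.factorial]
  push_cast
  ring

theorem aF_eq {k : ℝ} : aF k 0 = sm 4 k + eta (1 - k) 4 * (2 ^ 4 * mm 4 k) := by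
  have hv : Vv 0 = 22 / 25 := by simp [Vv]
  have hd : dg 0 = 4 := rfl
  unfold aF sm mm
  rw [hv, hd]
  ring

theorem dP_eq {k : ℝ} {m : ℕ} (hm : m ≤ 4) :
    dP k 0 m = (-(2 * (1 - k))) ^ m * sm (4 - m) k +
      eta (1 - k) 4 * (2 ^ 4 * ((4 : ℕ).descFactorial m : ℝ) * mm (4 - m) k) := by
  have hv : Vv 0 = 22 / 25 := by simp [Vv]
  have hd : dg 0 = 4 := rfl
  unfold dP sm mm
  rw [hv, hd, Finset.mul_sum, show 4 + 1 - m = 4 - m + 1 by omega]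
  congr 1
  · refine Finset.sum_congr rfl fun j _ => ?_
    rw [pow_add]
    ring
  · ring

theorem lo1p {k : ℝ} (h0 : 0 < k) (h : k ≤ 1 / 2) :
    0 ≤ (1 - k) * 2 ^ 1 * sm 4 k - (-(2 * (1 - k))) ^ 1 * sm 3 k := by
  obtain ⟨y, hy⟩ : ∃ y : ℝ, y = 1 - 2 * k := ⟨_, rfl⟩
  have hy0 : 0 ≤ y := by linarith
  have hp : 0 ≤ 1 - k := by linarith
  have h1 : (1 - k) * 2 ^ 1 * sm 4 k - (-(2 * (1 - k))) ^ 1 * sm 3 k =
      (1 - k) * 2 ^ 1 * ((2592 / 625) * y ^ 8 + (34168 / 625) * k * y ^ 7 + (5034896 / 15625) * k ^ 2 * y ^ 6 +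
      (10389944 / 9375) * k ^ 3 * y ^ 5 + (949850754 / 390625) * k ^ 4 * y ^ 4 +
      (1361172816 / 390625) * k ^ 5 * y ^ 3 + (3732266272 / 1171875) * k ^ 6 * y ^ 2 +
      (663074816 / 390625) * k ^ 7 * y + (157866304 / 390625) * k ^ 8) := by
    rw [sm4, sm3, hy]
    ring
  rw [h1]
  positivity

theorem hi1p {k e : ℝ} (h0 : 1 / 2 ≤ k) (h : k ≤ 1)
    (he : k * e = 3 / 768 * (1 - k) * (k ^ 4 - (1 - k) ^ 4)) :
    0 ≤ k * ((1 - k) * 2 ^ 1 * (sm 4 k + e * (2 ^ 4 * mm 4 k)) -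
      ((-(2 * (1 - k))) ^ 1 * sm 3 k + e * (2 ^ 4 * 4 * mm 3 k))) := by
  obtain ⟨x, hx⟩ : ∃ x : ℝ, x = 2 * k - 1 := ⟨_, rfl⟩
  obtain ⟨p, hp⟩ : ∃ p : ℝ, p = 1 - k := ⟨_, rfl⟩
  have hx0 : 0 ≤ x := by linarith
  have hp0 : 0 ≤ p := by linarith
  have h1 : k * ((1 - k) * 2 ^ 1 * (sm 4 k + e * (2 ^ 4 * mm 4 k)) -
      ((-(2 * (1 - k))) ^ 1 * sm 3 k + e * (2 ^ 4 * 4 * mm 3 k))) =
      p * 2 ^ 1 * ((157866304 / 390625) * p ^ 9 + (755324184 / 390625) * x * p ^ 8 +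
      (4831518076 / 1171875) * x ^ 2 * p ^ 7 + (6045417616 / 1171875) * x ^ 3 * p ^ 6 +
      (1632978774 / 390625) * x ^ 4 * p ^ 5 + (426907057 / 187500) * x ^ 5 * p ^ 4 +
      (7818494327 / 9375000) * x ^ 6 * p ^ 3 + (309892587 / 1562500) * x ^ 7 * p ^ 2 +
      (174105831 / 6250000) * x ^ 8 * p + (110601 / 62500) * x ^ 9) := by
    rw [sm4, sm3, mm4, mm3, hx, hp]
    linear_combination ((1 - k) * 2 ^ 1 * (2 ^ 4 * ((363 / 625) + (31944 / 15625) * k ^ 2 + (234256 / 390625) * k ^ 4)) - 2 ^ 4 * 4 * ((726 / 625) * k + (10648 / 15625) * k ^ 3)) * he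
  rw [h1]
  positivity

theorem lo1n {k : ℝ} (h0 : 0 < k) (h : k ≤ 1 / 2) :
    0 ≤ (1 - k) * 2 ^ 1 * sm 4 k + (-(2 * (1 - k))) ^ 1 * sm 3 k := by
  obtain ⟨y, hy⟩ : ∃ y : ℝ, y = 1 - 2 * k := ⟨_, rfl⟩
  have hy0 : 0 ≤ y := by linarith
  have hp : 0 ≤ 1 - k := by linarith
  have h1 : (1 - k) * 2 ^ 1 * sm 4 k + (-(2 * (1 - k))) ^ 1 * sm 3 k =
      (1 - k) * 2 ^ 1 * ((242 / 625) * y ^ 8 + (2904 / 625) * k * y ^ 7 + (396396 / 15625) * k ^ 2 * y ^ 6 +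
      (1259368 / 15625) * k ^ 3 * y ^ 5 + (187649462 / 1171875) * k ^ 4 * y ^ 4 +
      (235500848 / 1171875) * k ^ 5 * y ^ 3 + (60275424 / 390625) * k ^ 6 * y ^ 2 +
      (77378048 / 1171875) * k ^ 7 * y + (14117312 / 1171875) * k ^ 8) := by
    rw [sm4, sm3, hy]
    ring
  rw [h1]
  positivity

theorem hi1n {k e : ℝ} (h0 : 1 / 2 ≤ k) (h : k ≤ 1)
    (he : k * e = 3 / 768 * (1 - k) * (k ^ 4 - (1 - k) ^ 4)) :
    0 ≤ k * ((1 - k) * 2 ^ 1 * (sm 4 k + e * (2 ^ 4 * mm 4 k)) +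
      ((-(2 * (1 - k))) ^ 1 * sm 3 k + e * (2 ^ 4 * 4 * mm 3 k))) := by
  obtain ⟨x, hx⟩ : ∃ x : ℝ, x = 2 * k - 1 := ⟨_, rfl⟩
  obtain ⟨p, hp⟩ : ∃ p : ℝ, p = 1 - k := ⟨_, rfl⟩
  have hx0 : 0 ≤ x := by linarith
  have hp0 : 0 ≤ p := by linarith
  have h1 : k * ((1 - k) * 2 ^ 1 * (sm 4 k + e * (2 ^ 4 * mm 4 k)) +
      ((-(2 * (1 - k))) ^ 1 * sm 3 k + e * (2 ^ 4 * 4 * mm 3 k))) =
      p * 2 ^ 1 * ((14117312 / 1171875) * p ^ 9 + (67458952 / 1171875) * x * p ^ 8 +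
      (149090876 / 1171875) * x ^ 2 * p ^ 7 + (206945816 / 1171875) * x ^ 3 * p ^ 6 +
      (201003022 / 1171875) * x ^ 4 * p ^ 5 + (22246697 / 187500) * x ^ 5 * p ^ 4 +
      (176421509 / 3125000) * x ^ 6 * p ^ 3 + (26988687 / 1562500) * x ^ 7 * p ^ 2 +
      (18913631 / 6250000) * x ^ 8 * p + (14399 / 62500) * x ^ 9) := by
    rw [sm4, sm3, mm4, mm3, hx, hp]
    linear_combination ((1 - k) * 2 ^ 1 * (2 ^ 4 * ((363 / 625) + (31944 / 15625) * k ^ 2 + (234256 / 390625) * k ^ 4)) + 2 ^ 4 * 4 * ((726 / 625) * k + (10648 / 15625) * k ^ 3)) * he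
  rw [h1]
  positivity

theorem lo2p {k : ℝ} (h0 : 0 < k) (h : k ≤ 1 / 2) :
    0 ≤ (1 - k) * 2 ^ 2 * sm 4 k - (-(2 * (1 - k))) ^ 2 * sm 2 k := by
  obtain ⟨y, hy⟩ : ∃ y : ℝ, y = 1 - 2 * k := ⟨_, rfl⟩
  have hy0 : 0 ≤ y := by linarith
  have hp : 0 ≤ 1 - k := by linarith
  have h1 : (1 - k) * 2 ^ 2 * sm 4 k - (-(2 * (1 - k))) ^ 2 * sm 2 k =
      (1 - k) * 2 ^ 2 * ((242 / 625) * y ^ 8 + (3111 / 625) * k * y ^ 7 + (486446 / 15625) * k ^ 2 * y ^ 6 +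
      (5651762 / 46875) * k ^ 3 * y ^ 5 + (360893362 / 1171875) * k ^ 4 * y ^ 4 +
      (609664648 / 1171875) * k ^ 5 * y ^ 3 + (656256272 / 1171875) * k ^ 6 * y ^ 2 +
      (408461248 / 1171875) * k ^ 7 * y + (112338112 / 1171875) * k ^ 8) := by
    rw [sm4, sm2, hy]
    ring
  rw [h1]
  positivity

theorem hi2p {k e : ℝ} (h0 : 1 / 2 ≤ k) (h : k ≤ 1)
    (he : k * e = 3 / 768 * (1 - k) * (k ^ 4 - (1 - k) ^ 4)) :
    0 ≤ k * ((1 - k) * 2 ^ 2 * (sm 4 k + e * (2 ^ 4 * mm 4 k)) -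
      ((-(2 * (1 - k))) ^ 2 * sm 2 k + e * (2 ^ 4 * 12 * mm 2 k))) := by
  obtain ⟨x, hx⟩ : ∃ x : ℝ, x = 2 * k - 1 := ⟨_, rfl⟩
  obtain ⟨p, hp⟩ : ∃ p : ℝ, p = 1 - k := ⟨_, rfl⟩
  have hx0 : 0 ≤ x := by linarith
  have hp0 : 0 ≤ p := by linarith
  have h1 : k * ((1 - k) * 2 ^ 2 * (sm 4 k + e * (2 ^ 4 * mm 4 k)) -
      ((-(2 * (1 - k))) ^ 2 * sm 2 k + e * (2 ^ 4 * 12 * mm 2 k))) =
      p * 2 ^ 2 * ((112338112 / 1171875) * p ^ 9 + (590055752 / 1171875) * x * p ^ 8 +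
      (459096492 / 390625) * x ^ 2 * p ^ 7 + (624074322 / 390625) * x ^ 3 * p ^ 6 +
      (1632625922 / 1171875) * x ^ 4 * p ^ 5 + (50551359 / 62500) * x ^ 5 * p ^ 4 +
      (2936596927 / 9375000) * x ^ 6 * p ^ 3 + (244748149 / 3125000) * x ^ 7 * p ^ 2 +
      (72150981 / 6250000) * x ^ 8 * p + (7723 / 10000) * x ^ 9) := by
    rw [sm4, sm2, mm4, mm2, hx, hp]
    linear_combination ((1 - k) * 2 ^ 2 * (2 ^ 4 * ((363 / 625) + (31944 / 15625) * k ^ 2 + (234256 / 390625) * k ^ 4)) - 2 ^ 4 * 12 * ((11 / 25) + (484 / 625) * k ^ 2)) * he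
  rw [h1]
  positivity

theorem lo2n {k : ℝ} (h0 : 0 < k) (h : k ≤ 1 / 2) :
    0 ≤ (1 - k) * 2 ^ 2 * sm 4 k + (-(2 * (1 - k))) ^ 2 * sm 2 k := by
  obtain ⟨y, hy⟩ : ∃ y : ℝ, y = 1 - 2 * k := ⟨_, rfl⟩
  have hy0 : 0 ≤ y := by linarith
  have hp : 0 ≤ 1 - k := by linarith
  have h1 : (1 - k) * 2 ^ 2 * sm 4 k + (-(2 * (1 - k))) ^ 2 * sm 2 k =
      (1 - k) * 2 ^ 2 * ((2592 / 625) * y ^ 8 + (33961 / 625) * k * y ^ 7 + (4944846 / 15625) * k ^ 2 * y ^ 6 +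
      (50076062 / 46875) * k ^ 3 * y ^ 5 + (2676308362 / 1171875) * k ^ 4 * y ^ 4 +
      (3709354648 / 1171875) * k ^ 5 * y ^ 3 + (3256836272 / 1171875) * k ^ 6 * y ^ 2 +
      (1658141248 / 1171875) * k ^ 7 * y + (375378112 / 1171875) * k ^ 8) := by
    rw [sm4, sm2, hy]
    ring
  rw [h1]
  positivity

theorem hi2n {k e : ℝ} (h0 : 1 / 2 ≤ k) (h : k ≤ 1)
    (he : k * e = 3 / 768 * (1 - k) * (k ^ 4 - (1 - k) ^ 4)) :
    0 ≤ k * ((1 - k) * 2 ^ 2 * (sm 4 k + e * (2 ^ 4 * mm 4 k)) +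
      ((-(2 * (1 - k))) ^ 2 * sm 2 k + e * (2 ^ 4 * 12 * mm 2 k))) := by
  obtain ⟨x, hx⟩ : ∃ x : ℝ, x = 2 * k - 1 := ⟨_, rfl⟩
  obtain ⟨p, hp⟩ : ∃ p : ℝ, p = 1 - k := ⟨_, rfl⟩
  have hx0 : 0 ≤ x := by linarith
  have hp0 : 0 ≤ p := by linarith
  have h1 : k * ((1 - k) * 2 ^ 2 * (sm 4 k + e * (2 ^ 4 * mm 4 k)) +
      ((-(2 * (1 - k))) ^ 2 * sm 2 k + e * (2 ^ 4 * 12 * mm 2 k))) =
      p * 2 ^ 2 * ((375378112 / 1171875) * p ^ 9 + (1743375752 / 1171875) * x * p ^ 8 +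
      (1201106492 / 390625) * x ^ 2 * p ^ 7 + (1460046822 / 390625) * x ^ 3 * p ^ 6 +
      (3467313422 / 1171875) * x ^ 4 * p ^ 5 + (99166559 / 62500) * x ^ 5 * p ^ 4 +
      (5411161927 / 9375000) * x ^ 6 * p ^ 3 + (429014399 / 3125000) * x ^ 7 * p ^ 2 +
      (120868481 / 6250000) * x ^ 8 * p + (12277 / 10000) * x ^ 9) := by
    rw [sm4, sm2, mm4, mm2, hx, hp]
    linear_combination ((1 - k) * 2 ^ 2 * (2 ^ 4 * ((363 / 625) + (31944 / 15625) * k ^ 2 + (234256 / 390625) * k ^ 4)) + 2 ^ 4 * 12 * ((11 / 25) + (484 / 625) * k ^ 2)) * he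
  rw [h1]
  positivity

theorem lo3p {k : ℝ} (h0 : 0 < k) (h : k ≤ 1 / 2) :
    0 ≤ (1 - k) * 2 ^ 3 * sm 4 k - (-(2 * (1 - k))) ^ 3 * sm 1 k := by
  obtain ⟨y, hy⟩ : ∃ y : ℝ, y = 1 - 2 * k := ⟨_, rfl⟩
  have hy0 : 0 ≤ y := by linarith
  have hp : 0 ≤ 1 - k := by linarith
  have h1 : (1 - k) * 2 ^ 3 * sm 4 k - (-(2 * (1 - k))) ^ 3 * sm 1 k =
      (1 - k) * 2 ^ 3 * ((2042 / 625) * y ^ 8 + (26186 / 625) * k * y ^ 7 + (3741271 / 15625) * k ^ 2 * y ^ 6 +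
      (37343912 / 46875) * k ^ 3 * y ^ 5 + (1979100862 / 1171875) * k ^ 4 * y ^ 4 +
      (2738509648 / 1171875) * k ^ 5 * y ^ 3 + (2416296272 / 1171875) * k ^ 6 * y ^ 2 +
      (1243301248 / 1171875) * k ^ 7 * y + (285858112 / 1171875) * k ^ 8) := by
    rw [sm4, sm1, hy]
    ring
  rw [h1]
  positivity

theorem hi3p {k e : ℝ} (h0 : 1 / 2 ≤ k) (h : k ≤ 1)
    (he : k * e = 3 / 768 * (1 - k) * (k ^ 4 - (1 - k) ^ 4)) :
    0 ≤ k * ((1 - k) * 2 ^ 3 * (sm 4 k + e * (2 ^ 4 * mm 4 k)) -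
      ((-(2 * (1 - k))) ^ 3 * sm 1 k + e * (2 ^ 4 * 24 * mm 1 k))) := by
  obtain ⟨x, hx⟩ : ∃ x : ℝ, x = 2 * k - 1 := ⟨_, rfl⟩
  obtain ⟨p, hp⟩ : ∃ p : ℝ, p = 1 - k := ⟨_, rfl⟩
  have hx0 : 0 ≤ x := by linarith
  have hp0 : 0 ≤ p := by linarith
  have h1 : k * ((1 - k) * 2 ^ 3 * (sm 4 k + e * (2 ^ 4 * mm 4 k)) -
      ((-(2 * (1 - k))) ^ 3 * sm 1 k + e * (2 ^ 4 * 24 * mm 1 k))) =
      p * 2 ^ 3 * ((285858112 / 1171875) * p ^ 9 + (1322340752 / 1171875) * x * p ^ 8 +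
      (908788992 / 390625) * x ^ 2 * p ^ 7 + (1100685572 / 390625) * x ^ 3 * p ^ 6 +
      (2593282172 / 1171875) * x ^ 4 * p ^ 5 + (73102709 / 62500) * x ^ 5 * p ^ 4 +
      (3904910677 / 9375000) * x ^ 6 * p ^ 3 + (37731253 / 390625) * x ^ 7 * p ^ 2 +
      (83103481 / 6250000) * x ^ 8 * p + (167 / 200) * x ^ 9) := by
    rw [sm4, sm1, mm4, mm1, hx, hp]
    linear_combination ((1 - k) * 2 ^ 3 * (2 ^ 4 * ((363 / 625) + (31944 / 15625) * k ^ 2 + (234256 / 390625) * k ^ 4)) - 2 ^ 4 * 24 * ((22 / 25) * k)) * he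
  rw [h1]
  positivity

theorem lo3n {k : ℝ} (h0 : 0 < k) (h : k ≤ 1 / 2) :
    0 ≤ (1 - k) * 2 ^ 3 * sm 4 k + (-(2 * (1 - k))) ^ 3 * sm 1 k := by
  obtain ⟨y, hy⟩ : ∃ y : ℝ, y = 1 - 2 * k := ⟨_, rfl⟩
  have hy0 : 0 ≤ y := by linarith
  have hp : 0 ≤ 1 - k := by linarith
  have h1 : (1 - k) * 2 ^ 3 * sm 4 k + (-(2 * (1 - k))) ^ 3 * sm 1 k =
      (1 - k) * 2 ^ 3 * ((792 / 625) * y ^ 8 + (10886 / 625) * k * y ^ 7 + (1690021 / 15625) * k ^ 2 * y ^ 6 +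
      (18383912 / 46875) * k ^ 3 * y ^ 5 + (1058100862 / 1171875) * k ^ 4 * y ^ 4 +
      (1580509648 / 1171875) * k ^ 5 * y ^ 3 + (1496796272 / 1171875) * k ^ 6 * y ^ 2 +
      (823301248 / 1171875) * k ^ 7 * y + (201858112 / 1171875) * k ^ 8) := by
    rw [sm4, sm1, hy]
    ring
  rw [h1]
  positivity

theorem hi3n {k e : ℝ} (h0 : 1 / 2 ≤ k) (h : k ≤ 1)
    (he : k * e = 3 / 768 * (1 - k) * (k ^ 4 - (1 - k) ^ 4)) :
    0 ≤ k * ((1 - k) * 2 ^ 3 * (sm 4 k + e * (2 ^ 4 * mm 4 k)) +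
      ((-(2 * (1 - k))) ^ 3 * sm 1 k + e * (2 ^ 4 * 24 * mm 1 k))) := by
  obtain ⟨x, hx⟩ : ∃ x : ℝ, x = 2 * k - 1 := ⟨_, rfl⟩
  obtain ⟨p, hp⟩ : ∃ p : ℝ, p = 1 - k := ⟨_, rfl⟩
  have hx0 : 0 ≤ x := by linarith
  have hp0 : 0 ≤ p := by linarith
  have h1 : k * ((1 - k) * 2 ^ 3 * (sm 4 k + e * (2 ^ 4 * mm 4 k)) +
      ((-(2 * (1 - k))) ^ 3 * sm 1 k + e * (2 ^ 4 * 24 * mm 1 k))) =
      p * 2 ^ 3 * ((201858112 / 1171875) * p ^ 9 + (1011090752 / 1171875) * x * p ^ 8 +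
      (751413992 / 390625) * x ^ 2 * p ^ 7 + (983435572 / 390625) * x ^ 3 * p ^ 6 +
      (2506657172 / 1171875) * x ^ 4 * p ^ 5 + (76615209 / 62500) * x ^ 5 * p ^ 4 +
      (4442848177 / 9375000) * x ^ 6 * p ^ 3 + (92978131 / 781250) * x ^ 7 * p ^ 2 +
      (109915981 / 6250000) * x ^ 8 * p + (233 / 200) * x ^ 9) := by
    rw [sm4, sm1, mm4, mm1, hx, hp]
    linear_combination ((1 - k) * 2 ^ 3 * (2 ^ 4 * ((363 / 625) + (31944 / 15625) * k ^ 2 + (234256 / 390625) * k ^ 4)) + 2 ^ 4 * 24 * ((22 / 25) * k)) * he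
  rw [h1]
  positivity

theorem lo4p {k : ℝ} (h0 : 0 < k) (h : k ≤ 1 / 2) :
    0 ≤ (1 - k) * 2 ^ 4 * sm 4 k - (-(2 * (1 - k))) ^ 4 * sm 0 k := by
  obtain ⟨y, hy⟩ : ∃ y : ℝ, y = 1 - 2 * k := ⟨_, rfl⟩
  have hy0 : 0 ≤ y := by linarith
  have hp : 0 ≤ 1 - k := by linarith
  have h1 : (1 - k) * 2 ^ 4 * sm 4 k - (-(2 * (1 - k))) ^ 4 * sm 0 k =
      (1 - k) * 2 ^ 4 * ((792 / 625) * y ^ 8 + (10411 / 625) * k * y ^ 7 + (1575021 / 15625) * k ^ 2 * y ^ 6 +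
      (17035787 / 46875) * k ^ 3 * y ^ 5 + (991257112 / 1171875) * k ^ 4 * y ^ 4 +
      (1512634648 / 1171875) * k ^ 5 * y ^ 3 + (1469046272 / 1171875) * k ^ 6 * y ^ 2 +
      (827051248 / 1171875) * k ^ 7 * y + (206358112 / 1171875) * k ^ 8) := by
    rw [sm4, sm0, hy]
    ring
  rw [h1]
  positivity

theorem hi4p {k e : ℝ} (h0 : 1 / 2 ≤ k) (h : k ≤ 1)
    (he : k * e = 3 / 768 * (1 - k) * (k ^ 4 - (1 - k) ^ 4)) :
    0 ≤ k * ((1 - k) * 2 ^ 4 * (sm 4 k + e * (2 ^ 4 * mm 4 k)) -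
      ((-(2 * (1 - k))) ^ 4 * sm 0 k + e * (2 ^ 4 * 24 * mm 0 k))) := by
  obtain ⟨x, hx⟩ : ∃ x : ℝ, x = 2 * k - 1 := ⟨_, rfl⟩
  obtain ⟨p, hp⟩ : ∃ p : ℝ, p = 1 - k := ⟨_, rfl⟩
  have hx0 : 0 ≤ x := by linarith
  have hp0 : 0 ≤ p := by linarith
  have h1 : k * ((1 - k) * 2 ^ 4 * (sm 4 k + e * (2 ^ 4 * mm 4 k)) -
      ((-(2 * (1 - k))) ^ 4 * sm 0 k + e * (2 ^ 4 * 24 * mm 0 k))) =
      p * 2 ^ 4 * ((206358112 / 1171875) * p ^ 9 + (1021403252 / 1171875) * x * p ^ 8 +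
      (748851492 / 390625) * x ^ 2 * p ^ 7 + (961201197 / 390625) * x ^ 3 * p ^ 6 +
      (2382391547 / 1171875) * x ^ 4 * p ^ 5 + (17546771 / 15625) * x ^ 5 * p ^ 4 +
      (3897316927 / 9375000) * x ^ 6 * p ^ 3 + (623371923 / 6250000) * x ^ 7 * p ^ 2 +
      (44153303 / 3125000) * x ^ 8 * p + (29 / 32) * x ^ 9) := by
    rw [sm4, sm0, mm4, mm0, hx, hp]
    linear_combination ((1 - k) * 2 ^ 4 * (2 ^ 4 * ((363 / 625) + (31944 / 15625) * k ^ 2 + (234256 / 390625) * k ^ 4)) - 2 ^ 4 * 24 * (1)) * he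
  rw [h1]
  positivity

theorem lo4n {k : ℝ} (h0 : 0 < k) (h : k ≤ 1 / 2) :
    0 ≤ (1 - k) * 2 ^ 4 * sm 4 k + (-(2 * (1 - k))) ^ 4 * sm 0 k := by
  obtain ⟨y, hy⟩ : ∃ y : ℝ, y = 1 - 2 * k := ⟨_, rfl⟩
  have hy0 : 0 ≤ y := by linarith
  have hp : 0 ≤ 1 - k := by linarith
  have h1 : (1 - k) * 2 ^ 4 * sm 4 k + (-(2 * (1 - k))) ^ 4 * sm 0 k =
      (1 - k) * 2 ^ 4 * ((2042 / 625) * y ^ 8 + (26661 / 625) * k * y ^ 7 + (3856271 / 15625) * k ^ 2 * y ^ 6 +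
      (38692037 / 46875) * k ^ 3 * y ^ 5 + (2045944612 / 1171875) * k ^ 4 * y ^ 4 +
      (2806384648 / 1171875) * k ^ 5 * y ^ 3 + (2444046272 / 1171875) * k ^ 6 * y ^ 2 +
      (1239551248 / 1171875) * k ^ 7 * y + (281358112 / 1171875) * k ^ 8) := by
    rw [sm4, sm0, hy]
    ring
  rw [h1]
  positivity

theorem hi4n {k e : ℝ} (h0 : 1 / 2 ≤ k) (h : k ≤ 1)
    (he : k * e = 3 / 768 * (1 - k) * (k ^ 4 - (1 - k) ^ 4)) :
    0 ≤ k * ((1 - k) * 2 ^ 4 * (sm 4 k + e * (2 ^ 4 * mm 4 k)) +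
      ((-(2 * (1 - k))) ^ 4 * sm 0 k + e * (2 ^ 4 * 24 * mm 0 k))) := by
  obtain ⟨x, hx⟩ : ∃ x : ℝ, x = 2 * k - 1 := ⟨_, rfl⟩
  obtain ⟨p, hp⟩ : ∃ p : ℝ, p = 1 - k := ⟨_, rfl⟩
  have hx0 : 0 ≤ x := by linarith
  have hp0 : 0 ≤ p := by linarith
  have h1 : k * ((1 - k) * 2 ^ 4 * (sm 4 k + e * (2 ^ 4 * mm 4 k)) +
      ((-(2 * (1 - k))) ^ 4 * sm 0 k + e * (2 ^ 4 * 24 * mm 0 k))) =
      p * 2 ^ 4 * ((281358112 / 1171875) * p ^ 9 + (1312028252 / 1171875) * x * p ^ 8 +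
      (911351492 / 390625) * x ^ 2 * p ^ 7 + (1122919947 / 390625) * x ^ 3 * p ^ 6 +
      (2717547797 / 1171875) * x ^ 4 * p ^ 5 + (39765417 / 31250) * x ^ 5 * p ^ 4 +
      (4450441927 / 9375000) * x ^ 6 * p ^ 3 + (724153173 / 6250000) * x ^ 7 * p ^ 2 +
      (13089107 / 781250) * x ^ 8 * p + (35 / 32) * x ^ 9) := by
    rw [sm4, sm0, mm4, mm0, hx, hp]
    linear_combination ((1 - k) * 2 ^ 4 * (2 ^ 4 * ((363 / 625) + (31944 / 15625) * k ^ 2 + (234256 / 390625) * k ^ 4)) + 2 ^ 4 * 24 * (1)) * he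
  rw [h1]
  positivity

/-- from the two signs to the absolute value -/
theorem fin {k : ℝ} (h0 : 0 < k) (h1 : k < 1) {m : ℕ} (hm : m ≤ 4)
    {D : ℝ} (hD : (((4 : ℕ).descFactorial m : ℕ) : ℝ) = D)
    (hlo1 : k ≤ 1 / 2 → 0 ≤ (1 - k) * 2 ^ m * sm 4 k - (-(2 * (1 - k))) ^ m * sm (4 - m) k)
    (hlo2 : k ≤ 1 / 2 → 0 ≤ (1 - k) * 2 ^ m * sm 4 k + (-(2 * (1 - k))) ^ m * sm (4 - m) k)
    (hhi1 : ∀ e : ℝ, 1 / 2 ≤ k → k * e = 3 / 768 * (1 - k) * (k ^ 4 - (1 - k) ^ 4) →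
      0 ≤ k * ((1 - k) * 2 ^ m * (sm 4 k + e * (2 ^ 4 * mm 4 k)) -
        ((-(2 * (1 - k))) ^ m * sm (4 - m) k + e * (2 ^ 4 * D * mm (4 - m) k))))
    (hhi2 : ∀ e : ℝ, 1 / 2 ≤ k → k * e = 3 / 768 * (1 - k) * (k ^ 4 - (1 - k) ^ 4) →
      0 ≤ k * ((1 - k) * 2 ^ m * (sm 4 k + e * (2 ^ 4 * mm 4 k)) +
        ((-(2 * (1 - k))) ^ m * sm (4 - m) k + e * (2 ^ 4 * D * mm (4 - m) k)))) :
    |dP k 0 m| ≤ (1 - k) * 2 ^ m * aF k 0 := by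
  rw [aF_eq, dP_eq hm, hD]
  rcases le_total k (1 / 2) with h | h
  · rw [eta_low h0 h]
    have := hlo1 h
    have := hlo2 h
    rw [abs_le]
    constructor <;> linarith
  · have he := eta_high h h1.le 4
    have he' : k * eta (1 - k) 4 = 3 / 768 * (1 - k) * (k ^ 4 - (1 - k) ^ 4) := by
      have hq : ((4 : ℕ) : ℝ) * (Nat.factorial 4 : ℕ) = 96 := by norm_num [Nat.factorial]
      rw [he, hq]
      ring
    have g1 := nonneg_of_mul_nonneg_right (hhi1 _ h he') h0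
    have g2 := nonneg_of_mul_nonneg_right (hhi2 _ h he') h0
    rw [abs_le]
    constructor <;> linarith

end PD0

open PD0 in
/-- (R10a) -/
theorem stPhiD0 : StPhiD0 := by
  intro k h0 h1 m hm1 hm2
  interval_cases m
  · exact fin h0 h1 (by norm_num) (by norm_num [Nat.descFactorial] :
      ((Nat.descFactorial 4 1 : ℕ) : ℝ) = 4) (fun h => lo1p h0 h) (fun h => lo1n h0 h)
      (fun e h he => hi1p h h1.le he) (fun e h he => hi1n h h1.le he)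
  · exact fin h0 h1 (by norm_num) (by norm_num [Nat.descFactorial] :
      ((Nat.descFactorial 4 2 : ℕ) : ℝ) = 12) (fun h => lo2p h0 h) (fun h => lo2n h0 h)
      (fun e h he => hi2p h h1.le he) (fun e h he => hi2n h h1.le he)
  · exact fin h0 h1 (by norm_num) (by norm_num [Nat.descFactorial] :
      ((Nat.descFactorial 4 3 : ℕ) : ℝ) = 24) (fun h => lo3p h0 h) (fun h => lo3n h0 h)
      (fun e h he => hi3p h h1.le he) (fun e h he => hi3n h h1.le he)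
  · exact fin h0 h1 (by norm_num) (by norm_num [Nat.descFactorial] :
      ((Nat.descFactorial 4 4 : ℕ) : ℝ) = 24) (fun h => lo4p h0 h) (fun h => lo4n h0 h)
      (fun e h he => hi4p h h1.le he) (fun e h he => hi4n h h1.le he)

end K7
end Pool.Agent.Lib.MP_973905_nt
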