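import Pool.Agent.Lib.MP_973905_nt.K7.Stmts

/-! Module K7-R10b: derivatives of the limit, blocks 1 and 2. Everything is a polynomial in `k`; the
differences of the two sides are polynomials with nonnegative coefficients in `k` and `1 - 2 k`
(for `k ≤ 1/2`), respectively in `2 k - 1` and `1 - k` (for `k ≥ 1/2`). -/

set_option autoImplicit false

namespace Pool.Agent.Lib.MP_973905_nt
namespace K7

open MeasureTheory ProbabilityTheory Complex Filter Topology K1 K4 K5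

namespace PD1

/-- the correction vanishes for `k ≤ 1/2` -/
theorem eta_low {k : ℝ} (h0 : 0 < k) (h : k ≤ 1 / 2) (d : ℕ) : eta (1 - k) d = 0 := by
  unfold K5.eta
  apply max_eq_left
  have h1 : k ^ d ≤ (1 - k) ^ d := pow_le_pow_left₀ h0.le (by linarith) d
  have h2 : (1 - (1 - k)) ^ d - (1 - k) ^ d ≤ 0 := by
    rw [sub_sub_cancel]
    linarith
  have h3 : 0 ≤ 3 / 8 * ((1 - k) / ((1 - (1 - k)) * (d * d.factorial))) := by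
    rw [sub_sub_cancel]
    have : 0 ≤ 1 - k := by linarith
    positivity
  exact mul_nonpos_of_nonneg_of_nonpos h3 h2

/-- the correction for `k ≥ 1/2` -/
theorem eta_high {k : ℝ} (h : 1 / 2 ≤ k) (h1 : k ≤ 1) (d : ℕ) :
    k * eta (1 - k) d = 3 / 8 * ((1 - k) / (d * d.factorial)) * (k ^ d - (1 - k) ^ d) := by
  unfold K5.eta
  have hk : (0 : ℝ) < k := by linarith
  rw [sub_sub_cancel, max_eq_right]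
  · rw [← div_div]
    field_simp
  · have h2 : (1 - k) ^ d ≤ k ^ d := pow_le_pow_left₀ (by linarith) (by linarith) d
    have h3 : 0 ≤ k ^ d - (1 - k) ^ d := by linarith
    have : 0 ≤ 1 - k := by linarith
    positivity

/-- the sum of the main terms -/
noncomputable def sm (n : ℕ) (k : ℝ) : ℝ :=
  ∑ j ∈ Finset.range (n + 1), (-(2 * (1 - k))) ^ j / j.factorial * mom j k (1 / 2)

theorem mom0 (k : ℝ) : mom 0 k (1 / 2) = 1 := rfl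

theorem mom1 (k : ℝ) : mom 1 k (1 / 2) = k := rfl

theorem mom2 (k : ℝ) : mom 2 k (1 / 2) = (1 / 2) + k ^ 2 := by
  simp only [mom]
  push_cast
  ring

theorem mom3 (k : ℝ) : mom 3 k (1 / 2) = (3 / 2) * k + k ^ 3 := by
  simp only [mom]
  push_cast
  ring

theorem mom4 (k : ℝ) : mom 4 k (1 / 2) = (3 / 4) + 3 * k ^ 2 + k ^ 4 := by
  simp only [mom]
  push_cast
  ring

theorem mom5 (k : ℝ) : mom 5 k (1 / 2) = (15 / 4) * k + 5 * k ^ 3 + k ^ 5 := by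
  simp only [mom]
  push_cast
  ring

theorem mom6 (k : ℝ) : mom 6 k (1 / 2) = (15 / 8) + (45 / 4) * k ^ 2 + (15 / 2) * k ^ 4 + k ^ 6 := by
  simp only [mom]
  push_cast
  ring

theorem sm0 (k : ℝ) : sm 0 k =
    (-(2 * (1 - k))) ^ 0 / 1 * (1) := by
  unfold sm
  simp only [Finset.sum_range_succ, Finset.sum_range_zero, mom0,
    Nat.factorial]
  push_cast
  ring

theorem sm1 (k : ℝ) : sm 1 k =
    (-(2 * (1 - k))) ^ 0 / 1 * (1) +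
      (-(2 * (1 - k))) ^ 1 / 1 * (k) := by
  unfold sm
  simp only [Finset.sum_range_succ, Finset.sum_range_zero, mom0, mom1,
    Nat.factorial]
  push_cast
  ring

theorem sm2 (k : ℝ) : sm 2 k =
    (-(2 * (1 - k))) ^ 0 / 1 * (1) +
      (-(2 * (1 - k))) ^ 1 / 1 * (k) +
      (-(2 * (1 - k))) ^ 2 / 2 * ((1 / 2) + k ^ 2) := by
  unfold sm
  simp only [Finset.sum_range_succ, Finset.sum_range_zero, mom0, mom1, mom2,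
    Nat.factorial]
  push_cast
  ring

theorem sm3 (k : ℝ) : sm 3 k =
    (-(2 * (1 - k))) ^ 0 / 1 * (1) +
      (-(2 * (1 - k))) ^ 1 / 1 * (k) +
      (-(2 * (1 - k))) ^ 2 / 2 * ((1 / 2) + k ^ 2) +
      (-(2 * (1 - k))) ^ 3 / 6 * ((3 / 2) * k + k ^ 3) := by
  unfold sm
  simp only [Finset.sum_range_succ, Finset.sum_range_zero, mom0, mom1, mom2, mom3,
    Nat.factorial]
  push_cast
  ring

theorem sm4 (k : ℝ) : sm 4 k =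
    (-(2 * (1 - k))) ^ 0 / 1 * (1) +
      (-(2 * (1 - k))) ^ 1 / 1 * (k) +
      (-(2 * (1 - k))) ^ 2 / 2 * ((1 / 2) + k ^ 2) +
      (-(2 * (1 - k))) ^ 3 / 6 * ((3 / 2) * k + k ^ 3) +
      (-(2 * (1 - k))) ^ 4 / 24 * ((3 / 4) + 3 * k ^ 2 + k ^ 4) := by
  unfold sm
  simp only [Finset.sum_range_succ, Finset.sum_range_zero, mom0, mom1, mom2, mom3, mom4,
    Nat.factorial]
  push_cast
  ring

theorem sm5 (k : ℝ) : sm 5 k =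
    (-(2 * (1 - k))) ^ 0 / 1 * (1) +
      (-(2 * (1 - k))) ^ 1 / 1 * (k) +
      (-(2 * (1 - k))) ^ 2 / 2 * ((1 / 2) + k ^ 2) +
      (-(2 * (1 - k))) ^ 3 / 6 * ((3 / 2) * k + k ^ 3) +
      (-(2 * (1 - k))) ^ 4 / 24 * ((3 / 4) + 3 * k ^ 2 + k ^ 4) +
      (-(2 * (1 - k))) ^ 5 / 120 * ((15 / 4) * k + 5 * k ^ 3 + k ^ 5) := by
  unfold sm
  simp only [Finset.sum_range_succ, Finset.sum_range_zero, mom0, mom1, mom2, mom3, mom4, mom5,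
    Nat.factorial]
  push_cast
  ring

theorem sm6 (k : ℝ) : sm 6 k =
    (-(2 * (1 - k))) ^ 0 / 1 * (1) +
      (-(2 * (1 - k))) ^ 1 / 1 * (k) +
      (-(2 * (1 - k))) ^ 2 / 2 * ((1 / 2) + k ^ 2) +
      (-(2 * (1 - k))) ^ 3 / 6 * ((3 / 2) * k + k ^ 3) +
      (-(2 * (1 - k))) ^ 4 / 24 * ((3 / 4) + 3 * k ^ 2 + k ^ 4) +
      (-(2 * (1 - k))) ^ 5 / 120 * ((15 / 4) * k + 5 * k ^ 3 + k ^ 5) +
      (-(2 * (1 - k))) ^ 6 / 720 * ((15 / 8) + (45 / 4) * k ^ 2 + (15 / 2) * k ^ 4 + k ^ 6) := by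
  unfold sm
  simp only [Finset.sum_range_succ, Finset.sum_range_zero, mom0, mom1, mom2, mom3, mom4, mom5, mom6,
    Nat.factorial]
  push_cast
  ring

theorem aF_eq {k : ℝ} {i : ℕ} (hv : Vv i = 1) :
    aF k i = sm (dg i) k + eta (1 - k) (dg i) * (2 ^ dg i * mom (dg i) k (1 / 2)) := by
  unfold aF sm
  rw [hv, mul_one]
  ring

theorem dP_eq {k : ℝ} {i : ℕ} (hv : Vv i = 1) {m : ℕ} (hm : m ≤ dg i) :
    dP k i m = (-(2 * (1 - k))) ^ m * sm (dg i - m) k +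
      eta (1 - k) (dg i) * (2 ^ dg i * ((dg i).descFactorial m : ℝ) * mom (dg i - m) k (1 / 2)) := by
  unfold dP sm
  rw [hv, mul_one, Finset.mul_sum, show dg i + 1 - m = dg i - m + 1 by omega]
  congr 1
  · refine Finset.sum_congr rfl fun j _ => ?_
    rw [pow_add]
    ring
  · ring

theorem lo4_1p {k : ℝ} (h0 : 0 < k) (h : k ≤ 1 / 2) :
    0 ≤ (1 - k) * 2 ^ 1 * sm 4 k - (-(2 * (1 - k))) ^ 1 * sm 3 k := by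
  obtain ⟨y, hy⟩ : ∃ y : ℝ, y = 1 - 2 * k := ⟨_, rfl⟩
  have hy0 : 0 ≤ y := by linarith
  have hB : 0 ≤ (9 / 2) * y ^ 8 + 58 * k * y ^ 7 + 335 * k ^ 2 * y ^ 6 +
      (3394 / 3) * k ^ 3 * y ^ 5 + (4885 / 2) * k ^ 4 * y ^ 4 + 3452 * k ^ 5 * y ^ 3 +
      (9358 / 3) * k ^ 6 * y ^ 2 + 1648 * k ^ 7 * y + 390 * k ^ 8 := by
    positivity
  have hp : 0 ≤ 1 - k := by linarith
  have h1 : (1 - k) * 2 ^ 1 * sm 4 k - (-(2 * (1 - k))) ^ 1 * sm 3 k =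
      (1 - k) * 2 ^ 1 * ((9 / 2) * y ^ 8 + 58 * k * y ^ 7 + 335 * k ^ 2 * y ^ 6 +
      (3394 / 3) * k ^ 3 * y ^ 5 + (4885 / 2) * k ^ 4 * y ^ 4 + 3452 * k ^ 5 * y ^ 3 +
      (9358 / 3) * k ^ 6 * y ^ 2 + 1648 * k ^ 7 * y + 390 * k ^ 8) := by
    rw [sm4, sm3, hy]
    ring
  rw [h1]
  positivity

theorem hi4_1p {k e : ℝ} (h0 : 1 / 2 ≤ k) (h : k ≤ 1)
    (he : k * e = 3 / 768 * (1 - k) * (k ^ 4 - (1 - k) ^ 4)) :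
    0 ≤ k * ((1 - k) * 2 ^ 1 * (sm 4 k + e * (2 ^ 4 * mom 4 k (1 / 2))) -
      ((-(2 * (1 - k))) ^ 1 * sm 3 k + e * (2 ^ 4 * 4 * mom 3 k (1 / 2)))) := by
  obtain ⟨x, hx⟩ : ∃ x : ℝ, x = 2 * k - 1 := ⟨_, rfl⟩
  obtain ⟨p, hp⟩ : ∃ p : ℝ, p = 1 - k := ⟨_, rfl⟩
  have hx0 : 0 ≤ x := by linarith
  have hp0 : 0 ≤ p := by linarith
  have hB : 0 ≤ p * 2 ^ 1 * (390 * p ^ 9 + (7417 / 4) * x * p ^ 8 + (94457 / 24) * x ^ 2 * p ^ 7 +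
      (29465 / 6) * x ^ 3 * p ^ 6 + (63583 / 16) * x ^ 4 * p ^ 5 +
      (103837 / 48) * x ^ 5 * p ^ 4 + (76061 / 96) * x ^ 6 * p ^ 3 +
      (3015 / 16) * x ^ 7 * p ^ 2 + (1695 / 64) * x ^ 8 * p + (27 / 16) * x ^ 9) := by
    positivity
  have h1 : k * ((1 - k) * 2 ^ 1 * (sm 4 k + e * (2 ^ 4 * mom 4 k (1 / 2))) -
      ((-(2 * (1 - k))) ^ 1 * sm 3 k + e * (2 ^ 4 * 4 * mom 3 k (1 / 2)))) =
      p * 2 ^ 1 * (390 * p ^ 9 + (7417 / 4) * x * p ^ 8 + (94457 / 24) * x ^ 2 * p ^ 7 +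
      (29465 / 6) * x ^ 3 * p ^ 6 + (63583 / 16) * x ^ 4 * p ^ 5 +
      (103837 / 48) * x ^ 5 * p ^ 4 + (76061 / 96) * x ^ 6 * p ^ 3 +
      (3015 / 16) * x ^ 7 * p ^ 2 + (1695 / 64) * x ^ 8 * p + (27 / 16) * x ^ 9) := by
    rw [sm4, sm3, mom4, mom3, hx, hp]
    linear_combination ((1 - k) * 2 ^ 1 * (2 ^ 4 * ((3 / 4) + 3 * k ^ 2 + k ^ 4)) - 2 ^ 4 * 4 * ((3 / 2) * k + k ^ 3)) * he
  rw [h1]
  exact hB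

theorem lo4_1n {k : ℝ} (h0 : 0 < k) (h : k ≤ 1 / 2) :
    0 ≤ (1 - k) * 2 ^ 1 * sm 4 k + (-(2 * (1 - k))) ^ 1 * sm 3 k := by
  obtain ⟨y, hy⟩ : ∃ y : ℝ, y = 1 - 2 * k := ⟨_, rfl⟩
  have hy0 : 0 ≤ y := by linarith
  have hB : 0 ≤ (1 / 2) * y ^ 8 + 6 * k * y ^ 7 + 33 * k ^ 2 * y ^ 6 + 106 * k ^ 3 * y ^ 5 +
      (1279 / 6) * k ^ 4 * y ^ 4 + (812 / 3) * k ^ 5 * y ^ 3 + 210 * k ^ 6 * y ^ 2 +
      (272 / 3) * k ^ 7 * y + (50 / 3) * k ^ 8 := by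
    positivity
  have hp : 0 ≤ 1 - k := by linarith
  have h1 : (1 - k) * 2 ^ 1 * sm 4 k + (-(2 * (1 - k))) ^ 1 * sm 3 k =
      (1 - k) * 2 ^ 1 * ((1 / 2) * y ^ 8 + 6 * k * y ^ 7 + 33 * k ^ 2 * y ^ 6 + 106 * k ^ 3 * y ^ 5 +
      (1279 / 6) * k ^ 4 * y ^ 4 + (812 / 3) * k ^ 5 * y ^ 3 + 210 * k ^ 6 * y ^ 2 +
      (272 / 3) * k ^ 7 * y + (50 / 3) * k ^ 8) := by
    rw [sm4, sm3, hy]
    ring
  rw [h1]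
  positivity

theorem hi4_1n {k e : ℝ} (h0 : 1 / 2 ≤ k) (h : k ≤ 1)
    (he : k * e = 3 / 768 * (1 - k) * (k ^ 4 - (1 - k) ^ 4)) :
    0 ≤ k * ((1 - k) * 2 ^ 1 * (sm 4 k + e * (2 ^ 4 * mom 4 k (1 / 2))) +
      ((-(2 * (1 - k))) ^ 1 * sm 3 k + e * (2 ^ 4 * 4 * mom 3 k (1 / 2)))) := by
  obtain ⟨x, hx⟩ : ∃ x : ℝ, x = 2 * k - 1 := ⟨_, rfl⟩
  obtain ⟨p, hp⟩ : ∃ p : ℝ, p = 1 - k := ⟨_, rfl⟩
  have hx0 : 0 ≤ x := by linarith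
  have hp0 : 0 ≤ p := by linarith
  have hB : 0 ≤ p * 2 ^ 1 * ((50 / 3) * p ^ 9 + (955 / 12) * x * p ^ 8 + (4201 / 24) * x ^ 2 * p ^ 7 +
      (1447 / 6) * x ^ 3 * p ^ 6 + (11173 / 48) * x ^ 4 * p ^ 5 +
      (7709 / 48) * x ^ 5 * p ^ 4 + (2447 / 32) * x ^ 6 * p ^ 3 +
      (375 / 16) * x ^ 7 * p ^ 2 + (263 / 64) * x ^ 8 * p + (5 / 16) * x ^ 9) := by
    positivity
  have h1 : k * ((1 - k) * 2 ^ 1 * (sm 4 k + e * (2 ^ 4 * mom 4 k (1 / 2))) +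
      ((-(2 * (1 - k))) ^ 1 * sm 3 k + e * (2 ^ 4 * 4 * mom 3 k (1 / 2)))) =
      p * 2 ^ 1 * ((50 / 3) * p ^ 9 + (955 / 12) * x * p ^ 8 + (4201 / 24) * x ^ 2 * p ^ 7 +
      (1447 / 6) * x ^ 3 * p ^ 6 + (11173 / 48) * x ^ 4 * p ^ 5 +
      (7709 / 48) * x ^ 5 * p ^ 4 + (2447 / 32) * x ^ 6 * p ^ 3 +
      (375 / 16) * x ^ 7 * p ^ 2 + (263 / 64) * x ^ 8 * p + (5 / 16) * x ^ 9) := by
    rw [sm4, sm3, mom4, mom3, hx, hp]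
    linear_combination ((1 - k) * 2 ^ 1 * (2 ^ 4 * ((3 / 4) + 3 * k ^ 2 + k ^ 4)) + 2 ^ 4 * 4 * ((3 / 2) * k + k ^ 3)) * he
  rw [h1]
  exact hB

theorem lo4_2p {k : ℝ} (h0 : 0 < k) (h : k ≤ 1 / 2) :
    0 ≤ (1 - k) * 2 ^ 2 * sm 4 k - (-(2 * (1 - k))) ^ 2 * sm 2 k := by
  obtain ⟨y, hy⟩ : ∃ y : ℝ, y = 1 - 2 * k := ⟨_, rfl⟩
  have hy0 : 0 ≤ y := by linarith
  have hB : 0 ≤ (1 / 2) * y ^ 8 + 6 * k * y ^ 7 + 35 * k ^ 2 * y ^ 6 + (383 / 3) * k ^ 3 * y ^ 5 +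
      (1871 / 6) * k ^ 4 * y ^ 4 + (1534 / 3) * k ^ 5 * y ^ 3 +
      (1622 / 3) * k ^ 6 * y ^ 2 + (1000 / 3) * k ^ 7 * y + (274 / 3) * k ^ 8 := by
    positivity
  have hp : 0 ≤ 1 - k := by linarith
  have h1 : (1 - k) * 2 ^ 2 * sm 4 k - (-(2 * (1 - k))) ^ 2 * sm 2 k =
      (1 - k) * 2 ^ 2 * ((1 / 2) * y ^ 8 + 6 * k * y ^ 7 + 35 * k ^ 2 * y ^ 6 + (383 / 3) * k ^ 3 * y ^ 5 +
      (1871 / 6) * k ^ 4 * y ^ 4 + (1534 / 3) * k ^ 5 * y ^ 3 +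
      (1622 / 3) * k ^ 6 * y ^ 2 + (1000 / 3) * k ^ 7 * y + (274 / 3) * k ^ 8) := by
    rw [sm4, sm2, hy]
    ring
  rw [h1]
  positivity

theorem hi4_2p {k e : ℝ} (h0 : 1 / 2 ≤ k) (h : k ≤ 1)
    (he : k * e = 3 / 768 * (1 - k) * (k ^ 4 - (1 - k) ^ 4)) :
    0 ≤ k * ((1 - k) * 2 ^ 2 * (sm 4 k + e * (2 ^ 4 * mom 4 k (1 / 2))) -
      ((-(2 * (1 - k))) ^ 2 * sm 2 k + e * (2 ^ 4 * 12 * mom 2 k (1 / 2)))) := by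
  obtain ⟨x, hx⟩ : ∃ x : ℝ, x = 2 * k - 1 := ⟨_, rfl⟩
  obtain ⟨p, hp⟩ : ∃ p : ℝ, p = 1 - k := ⟨_, rfl⟩
  have hx0 : 0 ≤ x := by linarith
  have hp0 : 0 ≤ p := by linarith
  have hB : 0 ≤ p * 2 ^ 2 * ((274 / 3) * p ^ 9 + (5723 / 12) * x * p ^ 8 + (8875 / 8) * x ^ 2 * p ^ 7 +
      1505 * x ^ 3 * p ^ 6 + (62897 / 48) * x ^ 4 * p ^ 5 +
      (12149 / 16) * x ^ 5 * p ^ 4 + (28153 / 96) * x ^ 6 * p ^ 3 +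
      (1169 / 16) * x ^ 7 * p ^ 2 + (687 / 64) * x ^ 8 * p + (23 / 32) * x ^ 9) := by
    positivity
  have h1 : k * ((1 - k) * 2 ^ 2 * (sm 4 k + e * (2 ^ 4 * mom 4 k (1 / 2))) -
      ((-(2 * (1 - k))) ^ 2 * sm 2 k + e * (2 ^ 4 * 12 * mom 2 k (1 / 2)))) =
      p * 2 ^ 2 * ((274 / 3) * p ^ 9 + (5723 / 12) * x * p ^ 8 + (8875 / 8) * x ^ 2 * p ^ 7 +
      1505 * x ^ 3 * p ^ 6 + (62897 / 48) * x ^ 4 * p ^ 5 +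
      (12149 / 16) * x ^ 5 * p ^ 4 + (28153 / 96) * x ^ 6 * p ^ 3 +
      (1169 / 16) * x ^ 7 * p ^ 2 + (687 / 64) * x ^ 8 * p + (23 / 32) * x ^ 9) := by
    rw [sm4, sm2, mom4, mom2, hx, hp]
    linear_combination ((1 - k) * 2 ^ 2 * (2 ^ 4 * ((3 / 4) + 3 * k ^ 2 + k ^ 4)) - 2 ^ 4 * 12 * ((1 / 2) + k ^ 2)) * he
  rw [h1]
  exact hB

theorem lo4_2n {k : ℝ} (h0 : 0 < k) (h : k ≤ 1 / 2) :
    0 ≤ (1 - k) * 2 ^ 2 * sm 4 k + (-(2 * (1 - k))) ^ 2 * sm 2 k := by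
  obtain ⟨y, hy⟩ : ∃ y : ℝ, y = 1 - 2 * k := ⟨_, rfl⟩
  have hy0 : 0 ≤ y := by linarith
  have hB : 0 ≤ (9 / 2) * y ^ 8 + 58 * k * y ^ 7 + 333 * k ^ 2 * y ^ 6 +
      (3329 / 3) * k ^ 3 * y ^ 5 + (14063 / 6) * k ^ 4 * y ^ 4 +
      (9634 / 3) * k ^ 5 * y ^ 3 + (8366 / 3) * k ^ 6 * y ^ 2 + (4216 / 3) * k ^ 7 * y +
      (946 / 3) * k ^ 8 := by
    positivity
  have hp : 0 ≤ 1 - k := by linarith
  have h1 : (1 - k) * 2 ^ 2 * sm 4 k + (-(2 * (1 - k))) ^ 2 * sm 2 k =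
      (1 - k) * 2 ^ 2 * ((9 / 2) * y ^ 8 + 58 * k * y ^ 7 + 333 * k ^ 2 * y ^ 6 +
      (3329 / 3) * k ^ 3 * y ^ 5 + (14063 / 6) * k ^ 4 * y ^ 4 +
      (9634 / 3) * k ^ 5 * y ^ 3 + (8366 / 3) * k ^ 6 * y ^ 2 + (4216 / 3) * k ^ 7 * y +
      (946 / 3) * k ^ 8) := by
    rw [sm4, sm2, hy]
    ring
  rw [h1]
  positivity

theorem hi4_2n {k e : ℝ} (h0 : 1 / 2 ≤ k) (h : k ≤ 1)
    (he : k * e = 3 / 768 * (1 - k) * (k ^ 4 - (1 - k) ^ 4)) :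
    0 ≤ k * ((1 - k) * 2 ^ 2 * (sm 4 k + e * (2 ^ 4 * mom 4 k (1 / 2))) +
      ((-(2 * (1 - k))) ^ 2 * sm 2 k + e * (2 ^ 4 * 12 * mom 2 k (1 / 2)))) := by
  obtain ⟨x, hx⟩ : ∃ x : ℝ, x = 2 * k - 1 := ⟨_, rfl⟩
  obtain ⟨p, hp⟩ : ∃ p : ℝ, p = 1 - k := ⟨_, rfl⟩
  have hx0 : 0 ≤ x := by linarith
  have hp0 : 0 ≤ p := by linarith
  have hB : 0 ≤ p * 2 ^ 2 * ((946 / 3) * p ^ 9 + (17483 / 12) * x * p ^ 8 + (24011 / 8) * x ^ 2 * p ^ 7 +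
      3647 * x ^ 3 * p ^ 6 + (139025 / 48) * x ^ 4 * p ^ 5 +
      (25033 / 16) * x ^ 5 * p ^ 4 + (55249 / 96) * x ^ 6 * p ^ 3 +
      (2221 / 16) * x ^ 7 * p ^ 2 + (1271 / 64) * x ^ 8 * p + (41 / 32) * x ^ 9) := by
    positivity
  have h1 : k * ((1 - k) * 2 ^ 2 * (sm 4 k + e * (2 ^ 4 * mom 4 k (1 / 2))) +
      ((-(2 * (1 - k))) ^ 2 * sm 2 k + e * (2 ^ 4 * 12 * mom 2 k (1 / 2)))) =
      p * 2 ^ 2 * ((946 / 3) * p ^ 9 + (17483 / 12) * x * p ^ 8 + (24011 / 8) * x ^ 2 * p ^ 7 +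
      3647 * x ^ 3 * p ^ 6 + (139025 / 48) * x ^ 4 * p ^ 5 +
      (25033 / 16) * x ^ 5 * p ^ 4 + (55249 / 96) * x ^ 6 * p ^ 3 +
      (2221 / 16) * x ^ 7 * p ^ 2 + (1271 / 64) * x ^ 8 * p + (41 / 32) * x ^ 9) := by
    rw [sm4, sm2, mom4, mom2, hx, hp]
    linear_combination ((1 - k) * 2 ^ 2 * (2 ^ 4 * ((3 / 4) + 3 * k ^ 2 + k ^ 4)) + 2 ^ 4 * 12 * ((1 / 2) + k ^ 2)) * he
  rw [h1]
  exact hB

theorem lo4_3p {k : ℝ} (h0 : 0 < k) (h : k ≤ 1 / 2) :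
    0 ≤ (1 - k) * 2 ^ 3 * sm 4 k - (-(2 * (1 - k))) ^ 3 * sm 1 k := by
  obtain ⟨y, hy⟩ : ∃ y : ℝ, y = 1 - 2 * k := ⟨_, rfl⟩
  have hy0 : 0 ≤ y := by linarith
  have hB : 0 ≤ (7 / 2) * y ^ 8 + 44 * k * y ^ 7 + 247 * k ^ 2 * y ^ 6 +
      (2426 / 3) * k ^ 3 * y ^ 5 + (10139 / 6) * k ^ 4 * y ^ 4 +
      (6928 / 3) * k ^ 5 * y ^ 3 + (6050 / 3) * k ^ 6 * y ^ 2 + (3088 / 3) * k ^ 7 * y +
      (706 / 3) * k ^ 8 := by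
    positivity
  have hp : 0 ≤ 1 - k := by linarith
  have h1 : (1 - k) * 2 ^ 3 * sm 4 k - (-(2 * (1 - k))) ^ 3 * sm 1 k =
      (1 - k) * 2 ^ 3 * ((7 / 2) * y ^ 8 + 44 * k * y ^ 7 + 247 * k ^ 2 * y ^ 6 +
      (2426 / 3) * k ^ 3 * y ^ 5 + (10139 / 6) * k ^ 4 * y ^ 4 +
      (6928 / 3) * k ^ 5 * y ^ 3 + (6050 / 3) * k ^ 6 * y ^ 2 + (3088 / 3) * k ^ 7 * y +
      (706 / 3) * k ^ 8) := by
    rw [sm4, sm1, hy]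
    ring
  rw [h1]
  positivity

theorem hi4_3p {k e : ℝ} (h0 : 1 / 2 ≤ k) (h : k ≤ 1)
    (he : k * e = 3 / 768 * (1 - k) * (k ^ 4 - (1 - k) ^ 4)) :
    0 ≤ k * ((1 - k) * 2 ^ 3 * (sm 4 k + e * (2 ^ 4 * mom 4 k (1 / 2))) -
      ((-(2 * (1 - k))) ^ 3 * sm 1 k + e * (2 ^ 4 * 24 * mom 1 k (1 / 2)))) := by
  obtain ⟨x, hx⟩ : ∃ x : ℝ, x = 2 * k - 1 := ⟨_, rfl⟩
  obtain ⟨p, hp⟩ : ∃ p : ℝ, p = 1 - k := ⟨_, rfl⟩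
  have hx0 : 0 ≤ x := by linarith
  have hp0 : 0 ≤ p := by linarith
  have hB : 0 ≤ p * 2 ^ 3 * ((706 / 3) * p ^ 9 + (12995 / 12) * x * p ^ 8 + (17803 / 8) * x ^ 2 * p ^ 7 +
      2692 * x ^ 3 * p ^ 6 + (101537 / 48) * x ^ 4 * p ^ 5 +
      (17923 / 16) * x ^ 5 * p ^ 4 + (38401 / 96) * x ^ 6 * p ^ 3 +
      (1489 / 16) * x ^ 7 * p ^ 2 + (823 / 64) * x ^ 8 * p + (13 / 16) * x ^ 9) := by
    positivity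
  have h1 : k * ((1 - k) * 2 ^ 3 * (sm 4 k + e * (2 ^ 4 * mom 4 k (1 / 2))) -
      ((-(2 * (1 - k))) ^ 3 * sm 1 k + e * (2 ^ 4 * 24 * mom 1 k (1 / 2)))) =
      p * 2 ^ 3 * ((706 / 3) * p ^ 9 + (12995 / 12) * x * p ^ 8 + (17803 / 8) * x ^ 2 * p ^ 7 +
      2692 * x ^ 3 * p ^ 6 + (101537 / 48) * x ^ 4 * p ^ 5 +
      (17923 / 16) * x ^ 5 * p ^ 4 + (38401 / 96) * x ^ 6 * p ^ 3 +
      (1489 / 16) * x ^ 7 * p ^ 2 + (823 / 64) * x ^ 8 * p + (13 / 16) * x ^ 9) := by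
    rw [sm4, sm1, mom4, mom1, hx, hp]
    linear_combination ((1 - k) * 2 ^ 3 * (2 ^ 4 * ((3 / 4) + 3 * k ^ 2 + k ^ 4)) - 2 ^ 4 * 24 * (k)) * he
  rw [h1]
  exact hB

theorem lo4_3n {k : ℝ} (h0 : 0 < k) (h : k ≤ 1 / 2) :
    0 ≤ (1 - k) * 2 ^ 3 * sm 4 k + (-(2 * (1 - k))) ^ 3 * sm 1 k := by
  obtain ⟨y, hy⟩ : ∃ y : ℝ, y = 1 - 2 * k := ⟨_, rfl⟩
  have hy0 : 0 ≤ y := by linarith
  have hB : 0 ≤ (3 / 2) * y ^ 8 + 20 * k * y ^ 7 + 121 * k ^ 2 * y ^ 6 +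
      (1286 / 3) * k ^ 3 * y ^ 5 + (5795 / 6) * k ^ 4 * y ^ 4 +
      (4240 / 3) * k ^ 5 * y ^ 3 + (3938 / 3) * k ^ 6 * y ^ 2 + (2128 / 3) * k ^ 7 * y +
      (514 / 3) * k ^ 8 := by
    positivity
  have hp : 0 ≤ 1 - k := by linarith
  have h1 : (1 - k) * 2 ^ 3 * sm 4 k + (-(2 * (1 - k))) ^ 3 * sm 1 k =
      (1 - k) * 2 ^ 3 * ((3 / 2) * y ^ 8 + 20 * k * y ^ 7 + 121 * k ^ 2 * y ^ 6 +
      (1286 / 3) * k ^ 3 * y ^ 5 + (5795 / 6) * k ^ 4 * y ^ 4 +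
      (4240 / 3) * k ^ 5 * y ^ 3 + (3938 / 3) * k ^ 6 * y ^ 2 + (2128 / 3) * k ^ 7 * y +
      (514 / 3) * k ^ 8) := by
    rw [sm4, sm1, hy]
    ring
  rw [h1]
  positivity

theorem hi4_3n {k e : ℝ} (h0 : 1 / 2 ≤ k) (h : k ≤ 1)
    (he : k * e = 3 / 768 * (1 - k) * (k ^ 4 - (1 - k) ^ 4)) :
    0 ≤ k * ((1 - k) * 2 ^ 3 * (sm 4 k + e * (2 ^ 4 * mom 4 k (1 / 2))) +
      ((-(2 * (1 - k))) ^ 3 * sm 1 k + e * (2 ^ 4 * 24 * mom 1 k (1 / 2)))) := by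
  obtain ⟨x, hx⟩ : ∃ x : ℝ, x = 2 * k - 1 := ⟨_, rfl⟩
  obtain ⟨p, hp⟩ : ∃ p : ℝ, p = 1 - k := ⟨_, rfl⟩
  have hx0 : 0 ≤ x := by linarith
  have hp0 : 0 ≤ p := by linarith
  have hB : 0 ≤ p * 2 ^ 3 * ((514 / 3) * p ^ 9 + (10211 / 12) * x * p ^ 8 + (15083 / 8) * x ^ 2 * p ^ 7 +
      2460 * x ^ 3 * p ^ 6 + (100385 / 48) * x ^ 4 * p ^ 5 +
      (19259 / 16) * x ^ 5 * p ^ 4 + (45001 / 96) * x ^ 6 * p ^ 3 +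
      (1901 / 16) * x ^ 7 * p ^ 2 + (1135 / 64) * x ^ 8 * p + (19 / 16) * x ^ 9) := by
    positivity
  have h1 : k * ((1 - k) * 2 ^ 3 * (sm 4 k + e * (2 ^ 4 * mom 4 k (1 / 2))) +
      ((-(2 * (1 - k))) ^ 3 * sm 1 k + e * (2 ^ 4 * 24 * mom 1 k (1 / 2)))) =
      p * 2 ^ 3 * ((514 / 3) * p ^ 9 + (10211 / 12) * x * p ^ 8 + (15083 / 8) * x ^ 2 * p ^ 7 +
      2460 * x ^ 3 * p ^ 6 + (100385 / 48) * x ^ 4 * p ^ 5 +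
      (19259 / 16) * x ^ 5 * p ^ 4 + (45001 / 96) * x ^ 6 * p ^ 3 +
      (1901 / 16) * x ^ 7 * p ^ 2 + (1135 / 64) * x ^ 8 * p + (19 / 16) * x ^ 9) := by
    rw [sm4, sm1, mom4, mom1, hx, hp]
    linear_combination ((1 - k) * 2 ^ 3 * (2 ^ 4 * ((3 / 4) + 3 * k ^ 2 + k ^ 4)) + 2 ^ 4 * 24 * (k)) * he
  rw [h1]
  exact hB

theorem lo4_4p {k : ℝ} (h0 : 0 < k) (h : k ≤ 1 / 2) :
    0 ≤ (1 - k) * 2 ^ 4 * sm 4 k - (-(2 * (1 - k))) ^ 4 * sm 0 k := by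
  obtain ⟨y, hy⟩ : ∃ y : ℝ, y = 1 - 2 * k := ⟨_, rfl⟩
  have hy0 : 0 ≤ y := by linarith
  have hB : 0 ≤ (3 / 2) * y ^ 8 + 19 * k * y ^ 7 + 111 * k ^ 2 * y ^ 6 +
      (1163 / 3) * k ^ 3 * y ^ 5 + (5267 / 6) * k ^ 4 * y ^ 4 +
      (3928 / 3) * k ^ 5 * y ^ 3 + (3746 / 3) * k ^ 6 * y ^ 2 + (2080 / 3) * k ^ 7 * y +
      (514 / 3) * k ^ 8 := by
    positivity
  have hp : 0 ≤ 1 - k := by linarith
  have h1 : (1 - k) * 2 ^ 4 * sm 4 k - (-(2 * (1 - k))) ^ 4 * sm 0 k =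
      (1 - k) * 2 ^ 4 * ((3 / 2) * y ^ 8 + 19 * k * y ^ 7 + 111 * k ^ 2 * y ^ 6 +
      (1163 / 3) * k ^ 3 * y ^ 5 + (5267 / 6) * k ^ 4 * y ^ 4 +
      (3928 / 3) * k ^ 5 * y ^ 3 + (3746 / 3) * k ^ 6 * y ^ 2 + (2080 / 3) * k ^ 7 * y +
      (514 / 3) * k ^ 8) := by
    rw [sm4, sm0, hy]
    ring
  rw [h1]
  positivity

theorem hi4_4p {k e : ℝ} (h0 : 1 / 2 ≤ k) (h : k ≤ 1)
    (he : k * e = 3 / 768 * (1 - k) * (k ^ 4 - (1 - k) ^ 4)) :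
    0 ≤ k * ((1 - k) * 2 ^ 4 * (sm 4 k + e * (2 ^ 4 * mom 4 k (1 / 2))) -
      ((-(2 * (1 - k))) ^ 4 * sm 0 k + e * (2 ^ 4 * 24 * mom 0 k (1 / 2)))) := by
  obtain ⟨x, hx⟩ : ∃ x : ℝ, x = 2 * k - 1 := ⟨_, rfl⟩
  obtain ⟨p, hp⟩ : ∃ p : ℝ, p = 1 - k := ⟨_, rfl⟩
  have hx0 : 0 ≤ x := by linarith
  have hp0 : 0 ≤ p := by linarith
  have hB : 0 ≤ p * 2 ^ 4 * ((514 / 3) * p ^ 9 + (10115 / 12) * x * p ^ 8 + (14779 / 8) * x ^ 2 * p ^ 7 +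
      2369 * x ^ 3 * p ^ 6 + (94097 / 48) * x ^ 4 * p ^ 5 +
      (17395 / 16) * x ^ 5 * p ^ 4 + (38869 / 96) * x ^ 6 * p ^ 3 +
      (783 / 8) * x ^ 7 * p ^ 2 + (895 / 64) * x ^ 8 * p + (29 / 32) * x ^ 9) := by
    positivity
  have h1 : k * ((1 - k) * 2 ^ 4 * (sm 4 k + e * (2 ^ 4 * mom 4 k (1 / 2))) -
      ((-(2 * (1 - k))) ^ 4 * sm 0 k + e * (2 ^ 4 * 24 * mom 0 k (1 / 2)))) =
      p * 2 ^ 4 * ((514 / 3) * p ^ 9 + (10115 / 12) * x * p ^ 8 + (14779 / 8) * x ^ 2 * p ^ 7 +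
      2369 * x ^ 3 * p ^ 6 + (94097 / 48) * x ^ 4 * p ^ 5 +
      (17395 / 16) * x ^ 5 * p ^ 4 + (38869 / 96) * x ^ 6 * p ^ 3 +
      (783 / 8) * x ^ 7 * p ^ 2 + (895 / 64) * x ^ 8 * p + (29 / 32) * x ^ 9) := by
    rw [sm4, sm0, mom4, mom0, hx, hp]
    linear_combination ((1 - k) * 2 ^ 4 * (2 ^ 4 * ((3 / 4) + 3 * k ^ 2 + k ^ 4)) - 2 ^ 4 * 24 * (1)) * he
  rw [h1]
  exact hB

theorem lo4_4n {k : ℝ} (h0 : 0 < k) (h : k ≤ 1 / 2) :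
    0 ≤ (1 - k) * 2 ^ 4 * sm 4 k + (-(2 * (1 - k))) ^ 4 * sm 0 k := by
  obtain ⟨y, hy⟩ : ∃ y : ℝ, y = 1 - 2 * k := ⟨_, rfl⟩
  have hy0 : 0 ≤ y := by linarith
  have hB : 0 ≤ (7 / 2) * y ^ 8 + 45 * k * y ^ 7 + 257 * k ^ 2 * y ^ 6 +
      (2549 / 3) * k ^ 3 * y ^ 5 + (10667 / 6) * k ^ 4 * y ^ 4 +
      (7240 / 3) * k ^ 5 * y ^ 3 + (6242 / 3) * k ^ 6 * y ^ 2 + (3136 / 3) * k ^ 7 * y +
      (706 / 3) * k ^ 8 := by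
    positivity
  have hp : 0 ≤ 1 - k := by linarith
  have h1 : (1 - k) * 2 ^ 4 * sm 4 k + (-(2 * (1 - k))) ^ 4 * sm 0 k =
      (1 - k) * 2 ^ 4 * ((7 / 2) * y ^ 8 + 45 * k * y ^ 7 + 257 * k ^ 2 * y ^ 6 +
      (2549 / 3) * k ^ 3 * y ^ 5 + (10667 / 6) * k ^ 4 * y ^ 4 +
      (7240 / 3) * k ^ 5 * y ^ 3 + (6242 / 3) * k ^ 6 * y ^ 2 + (3136 / 3) * k ^ 7 * y +
      (706 / 3) * k ^ 8) := by
    rw [sm4, sm0, hy]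
    ring
  rw [h1]
  positivity

theorem hi4_4n {k e : ℝ} (h0 : 1 / 2 ≤ k) (h : k ≤ 1)
    (he : k * e = 3 / 768 * (1 - k) * (k ^ 4 - (1 - k) ^ 4)) :
    0 ≤ k * ((1 - k) * 2 ^ 4 * (sm 4 k + e * (2 ^ 4 * mom 4 k (1 / 2))) +
      ((-(2 * (1 - k))) ^ 4 * sm 0 k + e * (2 ^ 4 * 24 * mom 0 k (1 / 2)))) := by
  obtain ⟨x, hx⟩ : ∃ x : ℝ, x = 2 * k - 1 := ⟨_, rfl⟩
  obtain ⟨p, hp⟩ : ∃ p : ℝ, p = 1 - k := ⟨_, rfl⟩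
  have hx0 : 0 ≤ x := by linarith
  have hp0 : 0 ≤ p := by linarith
  have hB : 0 ≤ p * 2 ^ 4 * ((706 / 3) * p ^ 9 + (13091 / 12) * x * p ^ 8 + (18107 / 8) * x ^ 2 * p ^ 7 +
      2783 * x ^ 3 * p ^ 6 + (107825 / 48) * x ^ 4 * p ^ 5 +
      (19787 / 16) * x ^ 5 * p ^ 4 + (44533 / 96) * x ^ 6 * p ^ 3 +
      114 * x ^ 7 * p ^ 2 + (1063 / 64) * x ^ 8 * p + (35 / 32) * x ^ 9) := by
    positivity
  have h1 : k * ((1 - k) * 2 ^ 4 * (sm 4 k + e * (2 ^ 4 * mom 4 k (1 / 2))) +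
      ((-(2 * (1 - k))) ^ 4 * sm 0 k + e * (2 ^ 4 * 24 * mom 0 k (1 / 2)))) =
      p * 2 ^ 4 * ((706 / 3) * p ^ 9 + (13091 / 12) * x * p ^ 8 + (18107 / 8) * x ^ 2 * p ^ 7 +
      2783 * x ^ 3 * p ^ 6 + (107825 / 48) * x ^ 4 * p ^ 5 +
      (19787 / 16) * x ^ 5 * p ^ 4 + (44533 / 96) * x ^ 6 * p ^ 3 +
      114 * x ^ 7 * p ^ 2 + (1063 / 64) * x ^ 8 * p + (35 / 32) * x ^ 9) := by
    rw [sm4, sm0, mom4, mom0, hx, hp]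
    linear_combination ((1 - k) * 2 ^ 4 * (2 ^ 4 * ((3 / 4) + 3 * k ^ 2 + k ^ 4)) + 2 ^ 4 * 24 * (1)) * he
  rw [h1]
  exact hB

theorem lo6_1p {k : ℝ} (h0 : 0 < k) (h : k ≤ 1 / 2) :
    0 ≤ (1 - k) * 2 ^ 1 * sm 6 k - (-(2 * (1 - k))) ^ 1 * sm 5 k := by
  obtain ⟨y, hy⟩ : ∃ y : ℝ, y = 1 - 2 * k := ⟨_, rfl⟩
  have hy0 : 0 ≤ y := by linarith
  have hB : 0 ≤ (31 / 6) * y ^ 12 + 105 * k * y ^ 11 + (1983 / 2) * k ^ 2 * y ^ 10 +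
      (17246 / 3) * k ^ 3 * y ^ 9 + (136679 / 6) * k ^ 4 * y ^ 8 +
      (324809 / 5) * k ^ 5 * y ^ 7 + (12297881 / 90) * k ^ 6 * y ^ 6 +
      (3202916 / 15) * k ^ 7 * y ^ 5 + (737839 / 3) * k ^ 8 * y ^ 4 +
      (1832284 / 9) * k ^ 9 * y ^ 3 + (574714 / 5) * k ^ 10 * y ^ 2 +
      (596096 / 15) * k ^ 11 * y + (286348 / 45) * k ^ 12 := by
    positivity
  have hp : 0 ≤ 1 - k := by linarith
  have h1 : (1 - k) * 2 ^ 1 * sm 6 k - (-(2 * (1 - k))) ^ 1 * sm 5 k =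
      (1 - k) * 2 ^ 1 * ((31 / 6) * y ^ 12 + 105 * k * y ^ 11 + (1983 / 2) * k ^ 2 * y ^ 10 +
      (17246 / 3) * k ^ 3 * y ^ 9 + (136679 / 6) * k ^ 4 * y ^ 8 +
      (324809 / 5) * k ^ 5 * y ^ 7 + (12297881 / 90) * k ^ 6 * y ^ 6 +
      (3202916 / 15) * k ^ 7 * y ^ 5 + (737839 / 3) * k ^ 8 * y ^ 4 +
      (1832284 / 9) * k ^ 9 * y ^ 3 + (574714 / 5) * k ^ 10 * y ^ 2 +
      (596096 / 15) * k ^ 11 * y + (286348 / 45) * k ^ 12) := by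
    rw [sm6, sm5, hy]
    ring
  rw [h1]
  positivity

theorem hi6_1p {k e : ℝ} (h0 : 1 / 2 ≤ k) (h : k ≤ 1)
    (he : k * e = 3 / 34560 * (1 - k) * (k ^ 6 - (1 - k) ^ 6)) :
    0 ≤ k * ((1 - k) * 2 ^ 1 * (sm 6 k + e * (2 ^ 6 * mom 6 k (1 / 2))) -
      ((-(2 * (1 - k))) ^ 1 * sm 5 k + e * (2 ^ 6 * 6 * mom 5 k (1 / 2)))) := by
  obtain ⟨x, hx⟩ : ∃ x : ℝ, x = 2 * k - 1 := ⟨_, rfl⟩
  obtain ⟨p, hp⟩ : ∃ p : ℝ, p = 1 - k := ⟨_, rfl⟩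
  have hx0 : 0 ≤ x := by linarith
  have hp0 : 0 ≤ p := by linarith
  have hB : 0 ≤ p * 2 ^ 1 * ((286348 / 45) * p ^ 13 + (3866549 / 90) * x * p ^ 12 +
      (1611023 / 12) * x ^ 2 * p ^ 11 + (46324861 / 180) * x ^ 3 * p ^ 10 +
      (24328355 / 72) * x ^ 4 * p ^ 9 + (38519969 / 120) * x ^ 5 * p ^ 8 +
      (54501773 / 240) * x ^ 6 * p ^ 7 + (87237349 / 720) * x ^ 7 * p ^ 6 +
      (23406253 / 480) * x ^ 8 * p ^ 5 + (2105549 / 144) * x ^ 9 * p ^ 4 +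
      (1524089 / 480) * x ^ 10 * p ^ 3 + (56737 / 120) * x ^ 11 * p ^ 2 +
      (62303 / 1440) * x ^ 12 * p + (147 / 80) * x ^ 13) := by
    positivity
  have h1 : k * ((1 - k) * 2 ^ 1 * (sm 6 k + e * (2 ^ 6 * mom 6 k (1 / 2))) -
      ((-(2 * (1 - k))) ^ 1 * sm 5 k + e * (2 ^ 6 * 6 * mom 5 k (1 / 2)))) =
      p * 2 ^ 1 * ((286348 / 45) * p ^ 13 + (3866549 / 90) * x * p ^ 12 +
      (1611023 / 12) * x ^ 2 * p ^ 11 + (46324861 / 180) * x ^ 3 * p ^ 10 +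
      (24328355 / 72) * x ^ 4 * p ^ 9 + (38519969 / 120) * x ^ 5 * p ^ 8 +
      (54501773 / 240) * x ^ 6 * p ^ 7 + (87237349 / 720) * x ^ 7 * p ^ 6 +
      (23406253 / 480) * x ^ 8 * p ^ 5 + (2105549 / 144) * x ^ 9 * p ^ 4 +
      (1524089 / 480) * x ^ 10 * p ^ 3 + (56737 / 120) * x ^ 11 * p ^ 2 +
      (62303 / 1440) * x ^ 12 * p + (147 / 80) * x ^ 13) := by
    rw [sm6, sm5, mom6, mom5, hx, hp]
    linear_combination ((1 - k) * 2 ^ 1 * (2 ^ 6 * ((15 / 8) + (45 / 4) * k ^ 2 + (15 / 2) * k ^ 4 + k ^ 6)) - 2 ^ 6 * 6 * ((15 / 4) * k + 5 * k ^ 3 + k ^ 5)) * he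
  rw [h1]
  exact hB

theorem lo6_1n {k : ℝ} (h0 : 0 < k) (h : k ≤ 1 / 2) :
    0 ≤ (1 - k) * 2 ^ 1 * sm 6 k + (-(2 * (1 - k))) ^ 1 * sm 5 k := by
  obtain ⟨y, hy⟩ : ∃ y : ℝ, y = 1 - 2 * k := ⟨_, rfl⟩
  have hy0 : 0 ≤ y := by linarith
  have hB : 0 ≤ (1 / 6) * y ^ 12 + 3 * k * y ^ 11 + (51 / 2) * k ^ 2 * y ^ 10 +
      134 * k ^ 3 * y ^ 9 + (2881 / 6) * k ^ 4 * y ^ 8 + (3677 / 3) * k ^ 5 * y ^ 7 +
      (204293 / 90) * k ^ 6 * y ^ 6 + (45868 / 15) * k ^ 7 * y ^ 5 +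
      (8891 / 3) * k ^ 8 * y ^ 4 + (18100 / 9) * k ^ 9 * y ^ 3 + 906 * k ^ 10 * y ^ 2 +
      (1216 / 5) * k ^ 11 * y + (1324 / 45) * k ^ 12 := by
    positivity
  have hp : 0 ≤ 1 - k := by linarith
  have h1 : (1 - k) * 2 ^ 1 * sm 6 k + (-(2 * (1 - k))) ^ 1 * sm 5 k =
      (1 - k) * 2 ^ 1 * ((1 / 6) * y ^ 12 + 3 * k * y ^ 11 + (51 / 2) * k ^ 2 * y ^ 10 +
      134 * k ^ 3 * y ^ 9 + (2881 / 6) * k ^ 4 * y ^ 8 + (3677 / 3) * k ^ 5 * y ^ 7 +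
      (204293 / 90) * k ^ 6 * y ^ 6 + (45868 / 15) * k ^ 7 * y ^ 5 +
      (8891 / 3) * k ^ 8 * y ^ 4 + (18100 / 9) * k ^ 9 * y ^ 3 + 906 * k ^ 10 * y ^ 2 +
      (1216 / 5) * k ^ 11 * y + (1324 / 45) * k ^ 12) := by
    rw [sm6, sm5, hy]
    ring
  rw [h1]
  positivity

theorem hi6_1n {k e : ℝ} (h0 : 1 / 2 ≤ k) (h : k ≤ 1)
    (he : k * e = 3 / 34560 * (1 - k) * (k ^ 6 - (1 - k) ^ 6)) :
    0 ≤ k * ((1 - k) * 2 ^ 1 * (sm 6 k + e * (2 ^ 6 * mom 6 k (1 / 2))) +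
      ((-(2 * (1 - k))) ^ 1 * sm 5 k + e * (2 ^ 6 * 6 * mom 5 k (1 / 2)))) := by
  obtain ⟨x, hx⟩ : ∃ x : ℝ, x = 2 * k - 1 := ⟨_, rfl⟩
  obtain ⟨p, hp⟩ : ∃ p : ℝ, p = 1 - k := ⟨_, rfl⟩
  have hx0 : 0 ≤ x := by linarith
  have hp0 : 0 ≤ p := by linarith
  have hB : 0 ≤ p * 2 ^ 1 * ((1324 / 45) * p ^ 13 + (3289 / 18) * x * p ^ 12 + (34243 / 60) * x ^ 2 * p ^ 11 +
      (221233 / 180) * x ^ 3 * p ^ 10 + (145727 / 72) * x ^ 4 * p ^ 9 +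
      (103567 / 40) * x ^ 5 * p ^ 8 + (610133 / 240) * x ^ 6 * p ^ 7 +
      (272237 / 144) * x ^ 7 * p ^ 6 + (168307 / 160) * x ^ 8 * p ^ 5 +
      (62003 / 144) * x ^ 9 * p ^ 4 + (60413 / 480) * x ^ 10 * p ^ 3 +
      (373 / 15) * x ^ 11 * p ^ 2 + (4283 / 1440) * x ^ 12 * p + (13 / 80) * x ^ 13) := by
    positivity
  have h1 : k * ((1 - k) * 2 ^ 1 * (sm 6 k + e * (2 ^ 6 * mom 6 k (1 / 2))) +
      ((-(2 * (1 - k))) ^ 1 * sm 5 k + e * (2 ^ 6 * 6 * mom 5 k (1 / 2)))) =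
      p * 2 ^ 1 * ((1324 / 45) * p ^ 13 + (3289 / 18) * x * p ^ 12 + (34243 / 60) * x ^ 2 * p ^ 11 +
      (221233 / 180) * x ^ 3 * p ^ 10 + (145727 / 72) * x ^ 4 * p ^ 9 +
      (103567 / 40) * x ^ 5 * p ^ 8 + (610133 / 240) * x ^ 6 * p ^ 7 +
      (272237 / 144) * x ^ 7 * p ^ 6 + (168307 / 160) * x ^ 8 * p ^ 5 +
      (62003 / 144) * x ^ 9 * p ^ 4 + (60413 / 480) * x ^ 10 * p ^ 3 +
      (373 / 15) * x ^ 11 * p ^ 2 + (4283 / 1440) * x ^ 12 * p + (13 / 80) * x ^ 13) := by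
    rw [sm6, sm5, mom6, mom5, hx, hp]
    linear_combination ((1 - k) * 2 ^ 1 * (2 ^ 6 * ((15 / 8) + (45 / 4) * k ^ 2 + (15 / 2) * k ^ 4 + k ^ 6)) + 2 ^ 6 * 6 * ((15 / 4) * k + 5 * k ^ 3 + k ^ 5)) * he
  rw [h1]
  exact hB

theorem lo6_2p {k : ℝ} (h0 : 0 < k) (h : k ≤ 1 / 2) :
    0 ≤ (1 - k) * 2 ^ 2 * sm 6 k - (-(2 * (1 - k))) ^ 2 * sm 4 k := by
  obtain ⟨y, hy⟩ : ∃ y : ℝ, y = 1 - 2 * k := ⟨_, rfl⟩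
  have hy0 : 0 ≤ y := by linarith
  have hB : 0 ≤ (1 / 6) * y ^ 12 + (9 / 2) * k * y ^ 11 + (111 / 2) * k ^ 2 * y ^ 10 +
      (1226 / 3) * k ^ 3 * y ^ 9 + (3999 / 2) * k ^ 4 * y ^ 8 +
      (205967 / 30) * k ^ 5 * y ^ 7 + (1531457 / 90) * k ^ 6 * y ^ 6 +
      (153804 / 5) * k ^ 7 * y ^ 5 + 40353 * k ^ 8 * y ^ 4 +
      (337894 / 9) * k ^ 9 * y ^ 3 + (117802 / 5) * k ^ 10 * y ^ 2 +
      (134552 / 15) * k ^ 11 * y + (70636 / 45) * k ^ 12 := by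
    positivity
  have hp : 0 ≤ 1 - k := by linarith
  have h1 : (1 - k) * 2 ^ 2 * sm 6 k - (-(2 * (1 - k))) ^ 2 * sm 4 k =
      (1 - k) * 2 ^ 2 * ((1 / 6) * y ^ 12 + (9 / 2) * k * y ^ 11 + (111 / 2) * k ^ 2 * y ^ 10 +
      (1226 / 3) * k ^ 3 * y ^ 9 + (3999 / 2) * k ^ 4 * y ^ 8 +
      (205967 / 30) * k ^ 5 * y ^ 7 + (1531457 / 90) * k ^ 6 * y ^ 6 +
      (153804 / 5) * k ^ 7 * y ^ 5 + 40353 * k ^ 8 * y ^ 4 +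
      (337894 / 9) * k ^ 9 * y ^ 3 + (117802 / 5) * k ^ 10 * y ^ 2 +
      (134552 / 15) * k ^ 11 * y + (70636 / 45) * k ^ 12) := by
    rw [sm6, sm4, hy]
    ring
  rw [h1]
  positivity

theorem hi6_2p {k e : ℝ} (h0 : 1 / 2 ≤ k) (h : k ≤ 1)
    (he : k * e = 3 / 34560 * (1 - k) * (k ^ 6 - (1 - k) ^ 6)) :
    0 ≤ k * ((1 - k) * 2 ^ 2 * (sm 6 k + e * (2 ^ 6 * mom 6 k (1 / 2))) -
      ((-(2 * (1 - k))) ^ 2 * sm 4 k + e * (2 ^ 6 * 30 * mom 4 k (1 / 2)))) := by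
  obtain ⟨x, hx⟩ : ∃ x : ℝ, x = 2 * k - 1 := ⟨_, rfl⟩
  obtain ⟨p, hp⟩ : ∃ p : ℝ, p = 1 - k := ⟨_, rfl⟩
  have hx0 : 0 ≤ x := by linarith
  have hp0 : 0 ≤ p := by linarith
  have hB : 0 ≤ p * 2 ^ 2 * ((70636 / 45) * p ^ 13 + (1025717 / 90) * x * p ^ 12 +
      (2285719 / 60) * x ^ 2 * p ^ 11 + (13985587 / 180) * x ^ 3 * p ^ 10 +
      (7774505 / 72) * x ^ 4 * p ^ 9 + (648383 / 6) * x ^ 5 * p ^ 8 +
      (19242373 / 240) * x ^ 6 * p ^ 7 + (32164567 / 720) * x ^ 7 * p ^ 6 +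
      (8975027 / 480) * x ^ 8 * p ^ 5 + (1672309 / 288) * x ^ 9 * p ^ 4 +
      (624121 / 480) * x ^ 10 * p ^ 3 + (31799 / 160) * x ^ 11 * p ^ 2 +
      (26753 / 1440) * x ^ 12 * p + (77 / 96) * x ^ 13) := by
    positivity
  have h1 : k * ((1 - k) * 2 ^ 2 * (sm 6 k + e * (2 ^ 6 * mom 6 k (1 / 2))) -
      ((-(2 * (1 - k))) ^ 2 * sm 4 k + e * (2 ^ 6 * 30 * mom 4 k (1 / 2)))) =
      p * 2 ^ 2 * ((70636 / 45) * p ^ 13 + (1025717 / 90) * x * p ^ 12 +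
      (2285719 / 60) * x ^ 2 * p ^ 11 + (13985587 / 180) * x ^ 3 * p ^ 10 +
      (7774505 / 72) * x ^ 4 * p ^ 9 + (648383 / 6) * x ^ 5 * p ^ 8 +
      (19242373 / 240) * x ^ 6 * p ^ 7 + (32164567 / 720) * x ^ 7 * p ^ 6 +
      (8975027 / 480) * x ^ 8 * p ^ 5 + (1672309 / 288) * x ^ 9 * p ^ 4 +
      (624121 / 480) * x ^ 10 * p ^ 3 + (31799 / 160) * x ^ 11 * p ^ 2 +
      (26753 / 1440) * x ^ 12 * p + (77 / 96) * x ^ 13) := by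
    rw [sm6, sm4, mom6, mom4, hx, hp]
    linear_combination ((1 - k) * 2 ^ 2 * (2 ^ 6 * ((15 / 8) + (45 / 4) * k ^ 2 + (15 / 2) * k ^ 4 + k ^ 6)) - 2 ^ 6 * 30 * ((3 / 4) + 3 * k ^ 2 + k ^ 4)) * he
  rw [h1]
  exact hB

theorem lo6_2n {k : ℝ} (h0 : 0 < k) (h : k ≤ 1 / 2) :
    0 ≤ (1 - k) * 2 ^ 2 * sm 6 k + (-(2 * (1 - k))) ^ 2 * sm 4 k := by
  obtain ⟨y, hy⟩ : ∃ y : ℝ, y = 1 - 2 * k := ⟨_, rfl⟩
  have hy0 : 0 ≤ y := by linarith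
  have hB : 0 ≤ (31 / 6) * y ^ 12 + (207 / 2) * k * y ^ 11 + (1923 / 2) * k ^ 2 * y ^ 10 +
      5474 * k ^ 3 * y ^ 9 + (42521 / 2) * k ^ 4 * y ^ 8 +
      (593219 / 10) * k ^ 5 * y ^ 7 + (10970717 / 90) * k ^ 6 * y ^ 6 +
      (929124 / 5) * k ^ 7 * y ^ 5 + 208557 * k ^ 8 * y ^ 4 +
      (1512490 / 9) * k ^ 9 * y ^ 3 + (461442 / 5) * k ^ 10 * y ^ 2 +
      (155064 / 5) * k ^ 11 * y + (217036 / 45) * k ^ 12 := by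
    positivity
  have hp : 0 ≤ 1 - k := by linarith
  have h1 : (1 - k) * 2 ^ 2 * sm 6 k + (-(2 * (1 - k))) ^ 2 * sm 4 k =
      (1 - k) * 2 ^ 2 * ((31 / 6) * y ^ 12 + (207 / 2) * k * y ^ 11 + (1923 / 2) * k ^ 2 * y ^ 10 +
      5474 * k ^ 3 * y ^ 9 + (42521 / 2) * k ^ 4 * y ^ 8 +
      (593219 / 10) * k ^ 5 * y ^ 7 + (10970717 / 90) * k ^ 6 * y ^ 6 +
      (929124 / 5) * k ^ 7 * y ^ 5 + 208557 * k ^ 8 * y ^ 4 +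
      (1512490 / 9) * k ^ 9 * y ^ 3 + (461442 / 5) * k ^ 10 * y ^ 2 +
      (155064 / 5) * k ^ 11 * y + (217036 / 45) * k ^ 12) := by
    rw [sm6, sm4, hy]
    ring
  rw [h1]
  positivity

theorem hi6_2n {k e : ℝ} (h0 : 1 / 2 ≤ k) (h : k ≤ 1)
    (he : k * e = 3 / 34560 * (1 - k) * (k ^ 6 - (1 - k) ^ 6)) :
    0 ≤ k * ((1 - k) * 2 ^ 2 * (sm 6 k + e * (2 ^ 6 * mom 6 k (1 / 2))) +
      ((-(2 * (1 - k))) ^ 2 * sm 4 k + e * (2 ^ 6 * 30 * mom 4 k (1 / 2)))) := by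
  obtain ⟨x, hx⟩ : ∃ x : ℝ, x = 2 * k - 1 := ⟨_, rfl⟩
  obtain ⟨p, hp⟩ : ∃ p : ℝ, p = 1 - k := ⟨_, rfl⟩
  have hx0 : 0 ≤ x := by linarith
  have hp0 : 0 ≤ p := by linarith
  have hB : 0 ≤ p * 2 ^ 2 * ((217036 / 45) * p ^ 13 + (2857277 / 90) * x * p ^ 12 +
      (5803639 / 60) * x ^ 2 * p ^ 11 + (32560507 / 180) * x ^ 3 * p ^ 10 +
      (16699577 / 72) * x ^ 4 * p ^ 9 + (2586301 / 12) * x ^ 5 * p ^ 8 +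
      (11956511 / 80) * x ^ 6 * p ^ 7 + (56433967 / 720) * x ^ 7 * p ^ 6 +
      (14936147 / 480) * x ^ 8 * p ^ 5 + (2662795 / 288) * x ^ 9 * p ^ 4 +
      (320127 / 160) * x ^ 10 * p ^ 3 + (47829 / 160) * x ^ 11 * p ^ 2 +
      (39833 / 1440) * x ^ 12 * p + (115 / 96) * x ^ 13) := by
    positivity
  have h1 : k * ((1 - k) * 2 ^ 2 * (sm 6 k + e * (2 ^ 6 * mom 6 k (1 / 2))) +
      ((-(2 * (1 - k))) ^ 2 * sm 4 k + e * (2 ^ 6 * 30 * mom 4 k (1 / 2)))) =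
      p * 2 ^ 2 * ((217036 / 45) * p ^ 13 + (2857277 / 90) * x * p ^ 12 +
      (5803639 / 60) * x ^ 2 * p ^ 11 + (32560507 / 180) * x ^ 3 * p ^ 10 +
      (16699577 / 72) * x ^ 4 * p ^ 9 + (2586301 / 12) * x ^ 5 * p ^ 8 +
      (11956511 / 80) * x ^ 6 * p ^ 7 + (56433967 / 720) * x ^ 7 * p ^ 6 +
      (14936147 / 480) * x ^ 8 * p ^ 5 + (2662795 / 288) * x ^ 9 * p ^ 4 +
      (320127 / 160) * x ^ 10 * p ^ 3 + (47829 / 160) * x ^ 11 * p ^ 2 +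
      (39833 / 1440) * x ^ 12 * p + (115 / 96) * x ^ 13) := by
    rw [sm6, sm4, mom6, mom4, hx, hp]
    linear_combination ((1 - k) * 2 ^ 2 * (2 ^ 6 * ((15 / 8) + (45 / 4) * k ^ 2 + (15 / 2) * k ^ 4 + k ^ 6)) + 2 ^ 6 * 30 * ((3 / 4) + 3 * k ^ 2 + k ^ 4)) * he
  rw [h1]
  exact hB

theorem lo6_3p {k : ℝ} (h0 : 0 < k) (h : k ≤ 1 / 2) :
    0 ≤ (1 - k) * 2 ^ 3 * sm 6 k - (-(2 * (1 - k))) ^ 3 * sm 3 k := by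
  obtain ⟨y, hy⟩ : ∃ y : ℝ, y = 1 - 2 * k := ⟨_, rfl⟩
  have hy0 : 0 ≤ y := by linarith
  have hB : 0 ≤ (14 / 3) * y ^ 12 + 92 * k * y ^ 11 + (1683 / 2) * k ^ 2 * y ^ 10 +
      4722 * k ^ 3 * y ^ 9 + (54311 / 3) * k ^ 4 * y ^ 8 +
      (749296 / 15) * k ^ 5 * y ^ 7 + (9153167 / 90) * k ^ 6 * y ^ 6 +
      (769524 / 5) * k ^ 7 * y ^ 5 + 171771 * k ^ 8 * y ^ 4 +
      (1240744 / 9) * k ^ 9 * y ^ 3 + (1132706 / 15) * k ^ 10 * y ^ 2 +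
      (380192 / 15) * k ^ 11 * y + (177436 / 45) * k ^ 12 := by
    positivity
  have hp : 0 ≤ 1 - k := by linarith
  have h1 : (1 - k) * 2 ^ 3 * sm 6 k - (-(2 * (1 - k))) ^ 3 * sm 3 k =
      (1 - k) * 2 ^ 3 * ((14 / 3) * y ^ 12 + 92 * k * y ^ 11 + (1683 / 2) * k ^ 2 * y ^ 10 +
      4722 * k ^ 3 * y ^ 9 + (54311 / 3) * k ^ 4 * y ^ 8 +
      (749296 / 15) * k ^ 5 * y ^ 7 + (9153167 / 90) * k ^ 6 * y ^ 6 +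
      (769524 / 5) * k ^ 7 * y ^ 5 + 171771 * k ^ 8 * y ^ 4 +
      (1240744 / 9) * k ^ 9 * y ^ 3 + (1132706 / 15) * k ^ 10 * y ^ 2 +
      (380192 / 15) * k ^ 11 * y + (177436 / 45) * k ^ 12) := by
    rw [sm6, sm3, hy]
    ring
  rw [h1]
  positivity

theorem hi6_3p {k e : ℝ} (h0 : 1 / 2 ≤ k) (h : k ≤ 1)
    (he : k * e = 3 / 34560 * (1 - k) * (k ^ 6 - (1 - k) ^ 6)) :
    0 ≤ k * ((1 - k) * 2 ^ 3 * (sm 6 k + e * (2 ^ 6 * mom 6 k (1 / 2))) -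
      ((-(2 * (1 - k))) ^ 3 * sm 3 k + e * (2 ^ 6 * 120 * mom 3 k (1 / 2)))) := by
  obtain ⟨x, hx⟩ : ∃ x : ℝ, x = 2 * k - 1 := ⟨_, rfl⟩
  obtain ⟨p, hp⟩ : ∃ p : ℝ, p = 1 - k := ⟨_, rfl⟩
  have hx0 : 0 ≤ x := by linarith
  have hp0 : 0 ≤ p := by linarith
  have hB : 0 ≤ p * 2 ^ 3 * ((177436 / 45) * p ^ 13 + (2328137 / 90) * x * p ^ 12 +
      (1572253 / 20) * x ^ 2 * p ^ 11 + (26402407 / 180) * x ^ 3 * p ^ 10 +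
      (13506161 / 72) * x ^ 4 * p ^ 9 + (4168583 / 24) * x ^ 5 * p ^ 8 +
      (28754693 / 240) * x ^ 6 * p ^ 7 + (44882707 / 720) * x ^ 7 * p ^ 6 +
      (11740327 / 480) * x ^ 8 * p ^ 5 + (514441 / 72) * x ^ 9 * p ^ 4 +
      (241517 / 160) * x ^ 10 * p ^ 3 + (17457 / 80) * x ^ 11 * p ^ 2 +
      (27833 / 1440) * x ^ 12 * p + (19 / 24) * x ^ 13) := by
    positivity
  have h1 : k * ((1 - k) * 2 ^ 3 * (sm 6 k + e * (2 ^ 6 * mom 6 k (1 / 2))) -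
      ((-(2 * (1 - k))) ^ 3 * sm 3 k + e * (2 ^ 6 * 120 * mom 3 k (1 / 2)))) =
      p * 2 ^ 3 * ((177436 / 45) * p ^ 13 + (2328137 / 90) * x * p ^ 12 +
      (1572253 / 20) * x ^ 2 * p ^ 11 + (26402407 / 180) * x ^ 3 * p ^ 10 +
      (13506161 / 72) * x ^ 4 * p ^ 9 + (4168583 / 24) * x ^ 5 * p ^ 8 +
      (28754693 / 240) * x ^ 6 * p ^ 7 + (44882707 / 720) * x ^ 7 * p ^ 6 +
      (11740327 / 480) * x ^ 8 * p ^ 5 + (514441 / 72) * x ^ 9 * p ^ 4 +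
      (241517 / 160) * x ^ 10 * p ^ 3 + (17457 / 80) * x ^ 11 * p ^ 2 +
      (27833 / 1440) * x ^ 12 * p + (19 / 24) * x ^ 13) := by
    rw [sm6, sm3, mom6, mom3, hx, hp]
    linear_combination ((1 - k) * 2 ^ 3 * (2 ^ 6 * ((15 / 8) + (45 / 4) * k ^ 2 + (15 / 2) * k ^ 4 + k ^ 6)) - 2 ^ 6 * 120 * ((3 / 2) * k + k ^ 3)) * he
  rw [h1]
  exact hB

theorem lo6_3n {k : ℝ} (h0 : 0 < k) (h : k ≤ 1 / 2) :
    0 ≤ (1 - k) * 2 ^ 3 * sm 6 k + (-(2 * (1 - k))) ^ 3 * sm 3 k := by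
  obtain ⟨y, hy⟩ : ∃ y : ℝ, y = 1 - 2 * k := ⟨_, rfl⟩
  have hy0 : 0 ≤ y := by linarith
  have hB : 0 ≤ (2 / 3) * y ^ 12 + 16 * k * y ^ 11 + (351 / 2) * k ^ 2 * y ^ 10 +
      (3482 / 3) * k ^ 3 * y ^ 9 + (15469 / 3) * k ^ 4 * y ^ 8 +
      (81172 / 5) * k ^ 5 * y ^ 7 + (3349007 / 90) * k ^ 6 * y ^ 6 +
      (313404 / 5) * k ^ 7 * y ^ 5 + 77139 * k ^ 8 * y ^ 4 +
      (609640 / 9) * k ^ 9 * y ^ 3 + (605026 / 15) * k ^ 10 * y ^ 2 +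
      (73184 / 5) * k ^ 11 * y + (110236 / 45) * k ^ 12 := by
    positivity
  have hp : 0 ≤ 1 - k := by linarith
  have h1 : (1 - k) * 2 ^ 3 * sm 6 k + (-(2 * (1 - k))) ^ 3 * sm 3 k =
      (1 - k) * 2 ^ 3 * ((2 / 3) * y ^ 12 + 16 * k * y ^ 11 + (351 / 2) * k ^ 2 * y ^ 10 +
      (3482 / 3) * k ^ 3 * y ^ 9 + (15469 / 3) * k ^ 4 * y ^ 8 +
      (81172 / 5) * k ^ 5 * y ^ 7 + (3349007 / 90) * k ^ 6 * y ^ 6 +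
      (313404 / 5) * k ^ 7 * y ^ 5 + 77139 * k ^ 8 * y ^ 4 +
      (609640 / 9) * k ^ 9 * y ^ 3 + (605026 / 15) * k ^ 10 * y ^ 2 +
      (73184 / 5) * k ^ 11 * y + (110236 / 45) * k ^ 12) := by
    rw [sm6, sm3, hy]
    ring
  rw [h1]
  positivity

theorem hi6_3n {k e : ℝ} (h0 : 1 / 2 ≤ k) (h : k ≤ 1)
    (he : k * e = 3 / 34560 * (1 - k) * (k ^ 6 - (1 - k) ^ 6)) :
    0 ≤ k * ((1 - k) * 2 ^ 3 * (sm 6 k + e * (2 ^ 6 * mom 6 k (1 / 2))) +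
      ((-(2 * (1 - k))) ^ 3 * sm 3 k + e * (2 ^ 6 * 120 * mom 3 k (1 / 2)))) := by
  obtain ⟨x, hx⟩ : ∃ x : ℝ, x = 2 * k - 1 := ⟨_, rfl⟩
  obtain ⟨p, hp⟩ : ∃ p : ℝ, p = 1 - k := ⟨_, rfl⟩
  have hx0 : 0 ≤ x := by linarith
  have hp0 : 0 ≤ p := by linarith
  have hB : 0 ≤ p * 2 ^ 3 * ((110236 / 45) * p ^ 13 + (1554857 / 90) * x * p ^ 12 +
      (3372599 / 60) * x ^ 2 * p ^ 11 + (20143687 / 180) * x ^ 3 * p ^ 10 +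
      (10967921 / 72) * x ^ 4 * p ^ 9 + (3597551 / 24) * x ^ 5 * p ^ 8 +
      (26357213 / 240) * x ^ 6 * p ^ 7 + (43715827 / 720) * x ^ 7 * p ^ 6 +
      (4056949 / 160) * x ^ 8 * p ^ 5 + (569335 / 72) * x ^ 9 * p ^ 4 +
      (859951 / 480) * x ^ 10 * p ^ 3 + (22357 / 80) * x ^ 11 * p ^ 2 +
      (38753 / 1440) * x ^ 12 * p + (29 / 24) * x ^ 13) := by
    positivity
  have h1 : k * ((1 - k) * 2 ^ 3 * (sm 6 k + e * (2 ^ 6 * mom 6 k (1 / 2))) +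
      ((-(2 * (1 - k))) ^ 3 * sm 3 k + e * (2 ^ 6 * 120 * mom 3 k (1 / 2)))) =
      p * 2 ^ 3 * ((110236 / 45) * p ^ 13 + (1554857 / 90) * x * p ^ 12 +
      (3372599 / 60) * x ^ 2 * p ^ 11 + (20143687 / 180) * x ^ 3 * p ^ 10 +
      (10967921 / 72) * x ^ 4 * p ^ 9 + (3597551 / 24) * x ^ 5 * p ^ 8 +
      (26357213 / 240) * x ^ 6 * p ^ 7 + (43715827 / 720) * x ^ 7 * p ^ 6 +
      (4056949 / 160) * x ^ 8 * p ^ 5 + (569335 / 72) * x ^ 9 * p ^ 4 +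
      (859951 / 480) * x ^ 10 * p ^ 3 + (22357 / 80) * x ^ 11 * p ^ 2 +
      (38753 / 1440) * x ^ 12 * p + (29 / 24) * x ^ 13) := by
    rw [sm6, sm3, mom6, mom3, hx, hp]
    linear_combination ((1 - k) * 2 ^ 3 * (2 ^ 6 * ((15 / 8) + (45 / 4) * k ^ 2 + (15 / 2) * k ^ 4 + k ^ 6)) + 2 ^ 6 * 120 * ((3 / 2) * k + k ^ 3)) * he
  rw [h1]
  exact hB

theorem lo6_4p {k : ℝ} (h0 : 0 < k) (h : k ≤ 1 / 2) :
    0 ≤ (1 - k) * 2 ^ 4 * sm 6 k - (-(2 * (1 - k))) ^ 4 * sm 2 k := by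
  obtain ⟨y, hy⟩ : ∃ y : ℝ, y = 1 - 2 * k := ⟨_, rfl⟩
  have hy0 : 0 ≤ y := by linarith
  have hB : 0 ≤ (2 / 3) * y ^ 12 + 16 * k * y ^ 11 + (355 / 2) * k ^ 2 * y ^ 10 +
      (3583 / 3) * k ^ 3 * y ^ 9 + 5411 * k ^ 4 * y ^ 8 +
      (260591 / 15) * k ^ 5 * y ^ 7 + (3648287 / 90) * k ^ 6 * y ^ 6 +
      (346534 / 5) * k ^ 7 * y ^ 5 + 86251 * k ^ 8 * y ^ 4 +
      (686440 / 9) * k ^ 9 * y ^ 3 + (227702 / 5) * k ^ 10 * y ^ 2 +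
      (247552 / 15) * k ^ 11 * y + (123676 / 45) * k ^ 12 := by
    positivity
  have hp : 0 ≤ 1 - k := by linarith
  have h1 : (1 - k) * 2 ^ 4 * sm 6 k - (-(2 * (1 - k))) ^ 4 * sm 2 k =
      (1 - k) * 2 ^ 4 * ((2 / 3) * y ^ 12 + 16 * k * y ^ 11 + (355 / 2) * k ^ 2 * y ^ 10 +
      (3583 / 3) * k ^ 3 * y ^ 9 + 5411 * k ^ 4 * y ^ 8 +
      (260591 / 15) * k ^ 5 * y ^ 7 + (3648287 / 90) * k ^ 6 * y ^ 6 +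
      (346534 / 5) * k ^ 7 * y ^ 5 + 86251 * k ^ 8 * y ^ 4 +
      (686440 / 9) * k ^ 9 * y ^ 3 + (227702 / 5) * k ^ 10 * y ^ 2 +
      (247552 / 15) * k ^ 11 * y + (123676 / 45) * k ^ 12) := by
    rw [sm6, sm2, hy]
    ring
  rw [h1]
  positivity

theorem hi6_4p {k e : ℝ} (h0 : 1 / 2 ≤ k) (h : k ≤ 1)
    (he : k * e = 3 / 34560 * (1 - k) * (k ^ 6 - (1 - k) ^ 6)) :
    0 ≤ k * ((1 - k) * 2 ^ 4 * (sm 6 k + e * (2 ^ 6 * mom 6 k (1 / 2))) -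
      ((-(2 * (1 - k))) ^ 4 * sm 2 k + e * (2 ^ 6 * 360 * mom 2 k (1 / 2)))) := by
  obtain ⟨x, hx⟩ : ∃ x : ℝ, x = 2 * k - 1 := ⟨_, rfl⟩
  obtain ⟨p, hp⟩ : ∃ p : ℝ, p = 1 - k := ⟨_, rfl⟩
  have hx0 : 0 ≤ x := by linarith
  have hp0 : 0 ≤ p := by linarith
  have hB : 0 ≤ p * 2 ^ 4 * ((123676 / 45) * p ^ 13 + (1724777 / 90) * x * p ^ 12 +
      (3688999 / 60) * x ^ 2 * p ^ 11 + (21652687 / 180) * x ^ 3 * p ^ 10 +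
      (11541233 / 72) * x ^ 4 * p ^ 9 + (3690335 / 24) * x ^ 5 * p ^ 8 +
      (26237273 / 240) * x ^ 6 * p ^ 7 + (42020197 / 720) * x ^ 7 * p ^ 6 +
      (11233427 / 480) * x ^ 8 * p ^ 5 + (1002713 / 144) * x ^ 9 * p ^ 4 +
      (717191 / 480) * x ^ 10 * p ^ 3 + (2189 / 10) * x ^ 11 * p ^ 2 +
      (28253 / 1440) * x ^ 12 * p + (13 / 16) * x ^ 13) := by
    positivity
  have h1 : k * ((1 - k) * 2 ^ 4 * (sm 6 k + e * (2 ^ 6 * mom 6 k (1 / 2))) -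
      ((-(2 * (1 - k))) ^ 4 * sm 2 k + e * (2 ^ 6 * 360 * mom 2 k (1 / 2)))) =
      p * 2 ^ 4 * ((123676 / 45) * p ^ 13 + (1724777 / 90) * x * p ^ 12 +
      (3688999 / 60) * x ^ 2 * p ^ 11 + (21652687 / 180) * x ^ 3 * p ^ 10 +
      (11541233 / 72) * x ^ 4 * p ^ 9 + (3690335 / 24) * x ^ 5 * p ^ 8 +
      (26237273 / 240) * x ^ 6 * p ^ 7 + (42020197 / 720) * x ^ 7 * p ^ 6 +
      (11233427 / 480) * x ^ 8 * p ^ 5 + (1002713 / 144) * x ^ 9 * p ^ 4 +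
      (717191 / 480) * x ^ 10 * p ^ 3 + (2189 / 10) * x ^ 11 * p ^ 2 +
      (28253 / 1440) * x ^ 12 * p + (13 / 16) * x ^ 13) := by
    rw [sm6, sm2, mom6, mom2, hx, hp]
    linear_combination ((1 - k) * 2 ^ 4 * (2 ^ 6 * ((15 / 8) + (45 / 4) * k ^ 2 + (15 / 2) * k ^ 4 + k ^ 6)) - 2 ^ 6 * 360 * ((1 / 2) + k ^ 2)) * he
  rw [h1]
  exact hB

theorem lo6_4n {k : ℝ} (h0 : 0 < k) (h : k ≤ 1 / 2) :
    0 ≤ (1 - k) * 2 ^ 4 * sm 6 k + (-(2 * (1 - k))) ^ 4 * sm 2 k := by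
  obtain ⟨y, hy⟩ : ∃ y : ℝ, y = 1 - 2 * k := ⟨_, rfl⟩
  have hy0 : 0 ≤ y := by linarith
  have hB : 0 ≤ (14 / 3) * y ^ 12 + 92 * k * y ^ 11 + (1679 / 2) * k ^ 2 * y ^ 10 +
      (14065 / 3) * k ^ 3 * y ^ 9 + 17849 * k ^ 4 * y ^ 8 +
      (732221 / 15) * k ^ 5 * y ^ 7 + (8853887 / 90) * k ^ 6 * y ^ 6 +
      (736394 / 5) * k ^ 7 * y ^ 5 + 162659 * k ^ 8 * y ^ 4 +
      (1163944 / 9) * k ^ 9 * y ^ 3 + (351542 / 5) * k ^ 10 * y ^ 2 +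
      (352192 / 15) * k ^ 11 * y + (163996 / 45) * k ^ 12 := by
    positivity
  have hp : 0 ≤ 1 - k := by linarith
  have h1 : (1 - k) * 2 ^ 4 * sm 6 k + (-(2 * (1 - k))) ^ 4 * sm 2 k =
      (1 - k) * 2 ^ 4 * ((14 / 3) * y ^ 12 + 92 * k * y ^ 11 + (1679 / 2) * k ^ 2 * y ^ 10 +
      (14065 / 3) * k ^ 3 * y ^ 9 + 17849 * k ^ 4 * y ^ 8 +
      (732221 / 15) * k ^ 5 * y ^ 7 + (8853887 / 90) * k ^ 6 * y ^ 6 +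
      (736394 / 5) * k ^ 7 * y ^ 5 + 162659 * k ^ 8 * y ^ 4 +
      (1163944 / 9) * k ^ 9 * y ^ 3 + (351542 / 5) * k ^ 10 * y ^ 2 +
      (352192 / 15) * k ^ 11 * y + (163996 / 45) * k ^ 12) := by
    rw [sm6, sm2, hy]
    ring
  rw [h1]
  positivity

theorem hi6_4n {k e : ℝ} (h0 : 1 / 2 ≤ k) (h : k ≤ 1)
    (he : k * e = 3 / 34560 * (1 - k) * (k ^ 6 - (1 - k) ^ 6)) :
    0 ≤ k * ((1 - k) * 2 ^ 4 * (sm 6 k + e * (2 ^ 6 * mom 6 k (1 / 2))) +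
      ((-(2 * (1 - k))) ^ 4 * sm 2 k + e * (2 ^ 6 * 360 * mom 2 k (1 / 2)))) := by
  obtain ⟨x, hx⟩ : ∃ x : ℝ, x = 2 * k - 1 := ⟨_, rfl⟩
  obtain ⟨p, hp⟩ : ∃ p : ℝ, p = 1 - k := ⟨_, rfl⟩
  have hx0 : 0 ≤ x := by linarith
  have hp0 : 0 ≤ p := by linarith
  have hB : 0 ≤ p * 2 ^ 4 * ((163996 / 45) * p ^ 13 + (2158217 / 90) * x * p ^ 12 +
      (4400359 / 60) * x ^ 2 * p ^ 11 + (24893407 / 180) * x ^ 3 * p ^ 10 +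
      (12932849 / 72) * x ^ 4 * p ^ 9 + (4075799 / 24) * x ^ 5 * p ^ 8 +
      (28874633 / 240) * x ^ 6 * p ^ 7 + (46578337 / 720) * x ^ 7 * p ^ 6 +
      (12677747 / 480) * x ^ 8 * p ^ 5 + (1164839 / 144) * x ^ 9 * p ^ 4 +
      (867311 / 480) * x ^ 10 * p ^ 3 + (11151 / 40) * x ^ 11 * p ^ 2 +
      (38333 / 1440) * x ^ 12 * p + (19 / 16) * x ^ 13) := by
    positivity
  have h1 : k * ((1 - k) * 2 ^ 4 * (sm 6 k + e * (2 ^ 6 * mom 6 k (1 / 2))) +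
      ((-(2 * (1 - k))) ^ 4 * sm 2 k + e * (2 ^ 6 * 360 * mom 2 k (1 / 2)))) =
      p * 2 ^ 4 * ((163996 / 45) * p ^ 13 + (2158217 / 90) * x * p ^ 12 +
      (4400359 / 60) * x ^ 2 * p ^ 11 + (24893407 / 180) * x ^ 3 * p ^ 10 +
      (12932849 / 72) * x ^ 4 * p ^ 9 + (4075799 / 24) * x ^ 5 * p ^ 8 +
      (28874633 / 240) * x ^ 6 * p ^ 7 + (46578337 / 720) * x ^ 7 * p ^ 6 +
      (12677747 / 480) * x ^ 8 * p ^ 5 + (1164839 / 144) * x ^ 9 * p ^ 4 +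
      (867311 / 480) * x ^ 10 * p ^ 3 + (11151 / 40) * x ^ 11 * p ^ 2 +
      (38333 / 1440) * x ^ 12 * p + (19 / 16) * x ^ 13) := by
    rw [sm6, sm2, mom6, mom2, hx, hp]
    linear_combination ((1 - k) * 2 ^ 4 * (2 ^ 6 * ((15 / 8) + (45 / 4) * k ^ 2 + (15 / 2) * k ^ 4 + k ^ 6)) + 2 ^ 6 * 360 * ((1 / 2) + k ^ 2)) * he
  rw [h1]
  exact hB

theorem lo6_5p {k : ℝ} (h0 : 0 < k) (h : k ≤ 1 / 2) :
    0 ≤ (1 - k) * 2 ^ 5 * sm 6 k - (-(2 * (1 - k))) ^ 5 * sm 1 k := by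
  obtain ⟨y, hy⟩ : ∃ y : ℝ, y = 1 - 2 * k := ⟨_, rfl⟩
  have hy0 : 0 ≤ y := by linarith
  have hB : 0 ≤ (11 / 3) * y ^ 12 + 72 * k * y ^ 11 + (1313 / 2) * k ^ 2 * y ^ 10 +
      (11032 / 3) * k ^ 3 * y ^ 9 + 14099 * k ^ 4 * y ^ 8 +
      (584816 / 15) * k ^ 5 * y ^ 7 + (7176107 / 90) * k ^ 6 * y ^ 6 +
      (607464 / 5) * k ^ 7 * y ^ 5 + 136847 * k ^ 8 * y ^ 4 +
      (999784 / 9) * k ^ 9 * y ^ 3 + (308342 / 5) * k ^ 10 * y ^ 2 +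
      (315232 / 15) * k ^ 11 * y + (149596 / 45) * k ^ 12 := by
    positivity
  have hp : 0 ≤ 1 - k := by linarith
  have h1 : (1 - k) * 2 ^ 5 * sm 6 k - (-(2 * (1 - k))) ^ 5 * sm 1 k =
      (1 - k) * 2 ^ 5 * ((11 / 3) * y ^ 12 + 72 * k * y ^ 11 + (1313 / 2) * k ^ 2 * y ^ 10 +
      (11032 / 3) * k ^ 3 * y ^ 9 + 14099 * k ^ 4 * y ^ 8 +
      (584816 / 15) * k ^ 5 * y ^ 7 + (7176107 / 90) * k ^ 6 * y ^ 6 +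
      (607464 / 5) * k ^ 7 * y ^ 5 + 136847 * k ^ 8 * y ^ 4 +
      (999784 / 9) * k ^ 9 * y ^ 3 + (308342 / 5) * k ^ 10 * y ^ 2 +
      (315232 / 15) * k ^ 11 * y + (149596 / 45) * k ^ 12) := by
    rw [sm6, sm1, hy]
    ring
  rw [h1]
  positivity

theorem hi6_5p {k e : ℝ} (h0 : 1 / 2 ≤ k) (h : k ≤ 1)
    (he : k * e = 3 / 34560 * (1 - k) * (k ^ 6 - (1 - k) ^ 6)) :
    0 ≤ k * ((1 - k) * 2 ^ 5 * (sm 6 k + e * (2 ^ 6 * mom 6 k (1 / 2))) -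
      ((-(2 * (1 - k))) ^ 5 * sm 1 k + e * (2 ^ 6 * 720 * mom 1 k (1 / 2)))) := by
  obtain ⟨x, hx⟩ : ∃ x : ℝ, x = 2 * k - 1 := ⟨_, rfl⟩
  obtain ⟨p, hp⟩ : ∃ p : ℝ, p = 1 - k := ⟨_, rfl⟩
  have hx0 : 0 ≤ x := by linarith
  have hp0 : 0 ≤ p := by linarith
  have hB : 0 ≤ p * 2 ^ 5 * ((149596 / 45) * p ^ 13 + (1994777 / 90) * x * p ^ 12 +
      (4112359 / 60) * x ^ 2 * p ^ 11 + (23445127 / 180) * x ^ 3 * p ^ 10 +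
      (12222785 / 72) * x ^ 4 * p ^ 9 + (3846131 / 24) * x ^ 5 * p ^ 8 +
      (27055193 / 240) * x ^ 6 * p ^ 7 + (43074727 / 720) * x ^ 7 * p ^ 6 +
      (11496407 / 480) * x ^ 8 * p ^ 5 + (514285 / 72) * x ^ 9 * p ^ 4 +
      (740231 / 480) * x ^ 10 * p ^ 3 + (18257 / 80) * x ^ 11 * p ^ 2 +
      (29873 / 1440) * x ^ 12 * p + (7 / 8) * x ^ 13) := by
    positivity
  have h1 : k * ((1 - k) * 2 ^ 5 * (sm 6 k + e * (2 ^ 6 * mom 6 k (1 / 2))) -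
      ((-(2 * (1 - k))) ^ 5 * sm 1 k + e * (2 ^ 6 * 720 * mom 1 k (1 / 2)))) =
      p * 2 ^ 5 * ((149596 / 45) * p ^ 13 + (1994777 / 90) * x * p ^ 12 +
      (4112359 / 60) * x ^ 2 * p ^ 11 + (23445127 / 180) * x ^ 3 * p ^ 10 +
      (12222785 / 72) * x ^ 4 * p ^ 9 + (3846131 / 24) * x ^ 5 * p ^ 8 +
      (27055193 / 240) * x ^ 6 * p ^ 7 + (43074727 / 720) * x ^ 7 * p ^ 6 +
      (11496407 / 480) * x ^ 8 * p ^ 5 + (514285 / 72) * x ^ 9 * p ^ 4 +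
      (740231 / 480) * x ^ 10 * p ^ 3 + (18257 / 80) * x ^ 11 * p ^ 2 +
      (29873 / 1440) * x ^ 12 * p + (7 / 8) * x ^ 13) := by
    rw [sm6, sm1, mom6, mom1, hx, hp]
    linear_combination ((1 - k) * 2 ^ 5 * (2 ^ 6 * ((15 / 8) + (45 / 4) * k ^ 2 + (15 / 2) * k ^ 4 + k ^ 6)) - 2 ^ 6 * 720 * (k)) * he
  rw [h1]
  exact hB

theorem lo6_5n {k : ℝ} (h0 : 0 < k) (h : k ≤ 1 / 2) :
    0 ≤ (1 - k) * 2 ^ 5 * sm 6 k + (-(2 * (1 - k))) ^ 5 * sm 1 k := by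
  obtain ⟨y, hy⟩ : ∃ y : ℝ, y = 1 - 2 * k := ⟨_, rfl⟩
  have hy0 : 0 ≤ y := by linarith
  have hB : 0 ≤ (5 / 3) * y ^ 12 + 36 * k * y ^ 11 + (721 / 2) * k ^ 2 * y ^ 10 +
      (6616 / 3) * k ^ 3 * y ^ 9 + 9161 * k ^ 4 * y ^ 8 +
      (407996 / 15) * k ^ 5 * y ^ 7 + (5326067 / 90) * k ^ 6 * y ^ 6 +
      (475464 / 5) * k ^ 7 * y ^ 5 + 112063 * k ^ 8 * y ^ 4 +
      (850600 / 9) * k ^ 9 * y ^ 3 + (270902 / 5) * k ^ 10 * y ^ 2 +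
      (284512 / 15) * k ^ 11 * y + (138076 / 45) * k ^ 12 := by
    positivity
  have hp : 0 ≤ 1 - k := by linarith
  have h1 : (1 - k) * 2 ^ 5 * sm 6 k + (-(2 * (1 - k))) ^ 5 * sm 1 k =
      (1 - k) * 2 ^ 5 * ((5 / 3) * y ^ 12 + 36 * k * y ^ 11 + (721 / 2) * k ^ 2 * y ^ 10 +
      (6616 / 3) * k ^ 3 * y ^ 9 + 9161 * k ^ 4 * y ^ 8 +
      (407996 / 15) * k ^ 5 * y ^ 7 + (5326067 / 90) * k ^ 6 * y ^ 6 +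
      (475464 / 5) * k ^ 7 * y ^ 5 + 112063 * k ^ 8 * y ^ 4 +
      (850600 / 9) * k ^ 9 * y ^ 3 + (270902 / 5) * k ^ 10 * y ^ 2 +
      (284512 / 15) * k ^ 11 * y + (138076 / 45) * k ^ 12) := by
    rw [sm6, sm1, hy]
    ring
  rw [h1]
  positivity

theorem hi6_5n {k e : ℝ} (h0 : 1 / 2 ≤ k) (h : k ≤ 1)
    (he : k * e = 3 / 34560 * (1 - k) * (k ^ 6 - (1 - k) ^ 6)) :
    0 ≤ k * ((1 - k) * 2 ^ 5 * (sm 6 k + e * (2 ^ 6 * mom 6 k (1 / 2))) +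
      ((-(2 * (1 - k))) ^ 5 * sm 1 k + e * (2 ^ 6 * 720 * mom 1 k (1 / 2)))) := by
  obtain ⟨x, hx⟩ : ∃ x : ℝ, x = 2 * k - 1 := ⟨_, rfl⟩
  obtain ⟨p, hp⟩ : ∃ p : ℝ, p = 1 - k := ⟨_, rfl⟩
  have hx0 : 0 ≤ x := by linarith
  have hp0 : 0 ≤ p := by linarith
  have hB : 0 ≤ p * 2 ^ 5 * ((138076 / 45) * p ^ 13 + (1888217 / 90) * x * p ^ 12 +
      (3976999 / 60) * x ^ 2 * p ^ 11 + (23100967 / 180) * x ^ 3 * p ^ 10 +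
      (12251297 / 72) * x ^ 4 * p ^ 9 + (3920003 / 24) * x ^ 5 * p ^ 8 +
      (28056713 / 240) * x ^ 6 * p ^ 7 + (45523807 / 720) * x ^ 7 * p ^ 6 +
      (12414767 / 480) * x ^ 8 * p ^ 5 + (569491 / 72) * x ^ 9 * p ^ 4 +
      (844271 / 480) * x ^ 10 * p ^ 3 + (21557 / 80) * x ^ 11 * p ^ 2 +
      (36713 / 1440) * x ^ 12 * p + (9 / 8) * x ^ 13) := by
    positivity
  have h1 : k * ((1 - k) * 2 ^ 5 * (sm 6 k + e * (2 ^ 6 * mom 6 k (1 / 2))) +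
      ((-(2 * (1 - k))) ^ 5 * sm 1 k + e * (2 ^ 6 * 720 * mom 1 k (1 / 2)))) =
      p * 2 ^ 5 * ((138076 / 45) * p ^ 13 + (1888217 / 90) * x * p ^ 12 +
      (3976999 / 60) * x ^ 2 * p ^ 11 + (23100967 / 180) * x ^ 3 * p ^ 10 +
      (12251297 / 72) * x ^ 4 * p ^ 9 + (3920003 / 24) * x ^ 5 * p ^ 8 +
      (28056713 / 240) * x ^ 6 * p ^ 7 + (45523807 / 720) * x ^ 7 * p ^ 6 +
      (12414767 / 480) * x ^ 8 * p ^ 5 + (569491 / 72) * x ^ 9 * p ^ 4 +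
      (844271 / 480) * x ^ 10 * p ^ 3 + (21557 / 80) * x ^ 11 * p ^ 2 +
      (36713 / 1440) * x ^ 12 * p + (9 / 8) * x ^ 13) := by
    rw [sm6, sm1, mom6, mom1, hx, hp]
    linear_combination ((1 - k) * 2 ^ 5 * (2 ^ 6 * ((15 / 8) + (45 / 4) * k ^ 2 + (15 / 2) * k ^ 4 + k ^ 6)) + 2 ^ 6 * 720 * (k)) * he
  rw [h1]
  exact hB

theorem lo6_6p {k : ℝ} (h0 : 0 < k) (h : k ≤ 1 / 2) :
    0 ≤ (1 - k) * 2 ^ 6 * sm 6 k - (-(2 * (1 - k))) ^ 6 * sm 0 k := by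
  obtain ⟨y, hy⟩ : ∃ y : ℝ, y = 1 - 2 * k := ⟨_, rfl⟩
  have hy0 : 0 ≤ y := by linarith
  have hB : 0 ≤ (5 / 3) * y ^ 12 + 35 * k * y ^ 11 + (689 / 2) * k ^ 2 * y ^ 10 +
      (6274 / 3) * k ^ 3 * y ^ 9 + 8685 * k ^ 4 * y ^ 8 +
      (388661 / 15) * k ^ 5 * y ^ 7 + (5113307 / 90) * k ^ 6 * y ^ 6 +
      (460604 / 5) * k ^ 7 * y ^ 5 + 109535 * k ^ 8 * y ^ 4 +
      (838072 / 9) * k ^ 9 * y ^ 3 + (268662 / 5) * k ^ 10 * y ^ 2 +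
      (283552 / 15) * k ^ 11 * y + (138076 / 45) * k ^ 12 := by
    positivity
  have hp : 0 ≤ 1 - k := by linarith
  have h1 : (1 - k) * 2 ^ 6 * sm 6 k - (-(2 * (1 - k))) ^ 6 * sm 0 k =
      (1 - k) * 2 ^ 6 * ((5 / 3) * y ^ 12 + 35 * k * y ^ 11 + (689 / 2) * k ^ 2 * y ^ 10 +
      (6274 / 3) * k ^ 3 * y ^ 9 + 8685 * k ^ 4 * y ^ 8 +
      (388661 / 15) * k ^ 5 * y ^ 7 + (5113307 / 90) * k ^ 6 * y ^ 6 +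
      (460604 / 5) * k ^ 7 * y ^ 5 + 109535 * k ^ 8 * y ^ 4 +
      (838072 / 9) * k ^ 9 * y ^ 3 + (268662 / 5) * k ^ 10 * y ^ 2 +
      (283552 / 15) * k ^ 11 * y + (138076 / 45) * k ^ 12) := by
    rw [sm6, sm0, hy]
    ring
  rw [h1]
  positivity

theorem hi6_6p {k e : ℝ} (h0 : 1 / 2 ≤ k) (h : k ≤ 1)
    (he : k * e = 3 / 34560 * (1 - k) * (k ^ 6 - (1 - k) ^ 6)) :
    0 ≤ k * ((1 - k) * 2 ^ 6 * (sm 6 k + e * (2 ^ 6 * mom 6 k (1 / 2))) -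
      ((-(2 * (1 - k))) ^ 6 * sm 0 k + e * (2 ^ 6 * 720 * mom 0 k (1 / 2)))) := by
  obtain ⟨x, hx⟩ : ∃ x : ℝ, x = 2 * k - 1 := ⟨_, rfl⟩
  obtain ⟨p, hp⟩ : ∃ p : ℝ, p = 1 - k := ⟨_, rfl⟩
  have hx0 : 0 ≤ x := by linarith
  have hp0 : 0 ≤ p := by linarith
  have hB : 0 ≤ p * 2 ^ 6 * ((138076 / 45) * p ^ 13 + (1885337 / 90) * x * p ^ 12 +
      (3960199 / 60) * x ^ 2 * p ^ 11 + (22901527 / 180) * x ^ 3 * p ^ 10 +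
      (12067121 / 72) * x ^ 4 * p ^ 9 + (3827819 / 24) * x ^ 5 * p ^ 8 +
      (27100433 / 240) * x ^ 6 * p ^ 7 + (43396387 / 720) * x ^ 7 * p ^ 6 +
      (11651267 / 480) * x ^ 8 * p ^ 5 + (1049621 / 144) * x ^ 9 * p ^ 4 +
      (761831 / 480) * x ^ 10 * p ^ 3 + (1187 / 5) * x ^ 11 * p ^ 2 +
      (31493 / 1440) * x ^ 12 * p + (15 / 16) * x ^ 13) := by
    positivity
  have h1 : k * ((1 - k) * 2 ^ 6 * (sm 6 k + e * (2 ^ 6 * mom 6 k (1 / 2))) -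
      ((-(2 * (1 - k))) ^ 6 * sm 0 k + e * (2 ^ 6 * 720 * mom 0 k (1 / 2)))) =
      p * 2 ^ 6 * ((138076 / 45) * p ^ 13 + (1885337 / 90) * x * p ^ 12 +
      (3960199 / 60) * x ^ 2 * p ^ 11 + (22901527 / 180) * x ^ 3 * p ^ 10 +
      (12067121 / 72) * x ^ 4 * p ^ 9 + (3827819 / 24) * x ^ 5 * p ^ 8 +
      (27100433 / 240) * x ^ 6 * p ^ 7 + (43396387 / 720) * x ^ 7 * p ^ 6 +
      (11651267 / 480) * x ^ 8 * p ^ 5 + (1049621 / 144) * x ^ 9 * p ^ 4 +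
      (761831 / 480) * x ^ 10 * p ^ 3 + (1187 / 5) * x ^ 11 * p ^ 2 +
      (31493 / 1440) * x ^ 12 * p + (15 / 16) * x ^ 13) := by
    rw [sm6, sm0, mom6, mom0, hx, hp]
    linear_combination ((1 - k) * 2 ^ 6 * (2 ^ 6 * ((15 / 8) + (45 / 4) * k ^ 2 + (15 / 2) * k ^ 4 + k ^ 6)) - 2 ^ 6 * 720 * (1)) * he
  rw [h1]
  exact hB

theorem lo6_6n {k : ℝ} (h0 : 0 < k) (h : k ≤ 1 / 2) :
    0 ≤ (1 - k) * 2 ^ 6 * sm 6 k + (-(2 * (1 - k))) ^ 6 * sm 0 k := by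
  obtain ⟨y, hy⟩ : ∃ y : ℝ, y = 1 - 2 * k := ⟨_, rfl⟩
  have hy0 : 0 ≤ y := by linarith
  have hB : 0 ≤ (11 / 3) * y ^ 12 + 73 * k * y ^ 11 + (1345 / 2) * k ^ 2 * y ^ 10 +
      (11374 / 3) * k ^ 3 * y ^ 9 + 14575 * k ^ 4 * y ^ 8 +
      (604151 / 15) * k ^ 5 * y ^ 7 + (7388867 / 90) * k ^ 6 * y ^ 6 +
      (622324 / 5) * k ^ 7 * y ^ 5 + 139375 * k ^ 8 * y ^ 4 +
      (1012312 / 9) * k ^ 9 * y ^ 3 + (310582 / 5) * k ^ 10 * y ^ 2 +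
      (316192 / 15) * k ^ 11 * y + (149596 / 45) * k ^ 12 := by
    positivity
  have hp : 0 ≤ 1 - k := by linarith
  have h1 : (1 - k) * 2 ^ 6 * sm 6 k + (-(2 * (1 - k))) ^ 6 * sm 0 k =
      (1 - k) * 2 ^ 6 * ((11 / 3) * y ^ 12 + 73 * k * y ^ 11 + (1345 / 2) * k ^ 2 * y ^ 10 +
      (11374 / 3) * k ^ 3 * y ^ 9 + 14575 * k ^ 4 * y ^ 8 +
      (604151 / 15) * k ^ 5 * y ^ 7 + (7388867 / 90) * k ^ 6 * y ^ 6 +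
      (622324 / 5) * k ^ 7 * y ^ 5 + 139375 * k ^ 8 * y ^ 4 +
      (1012312 / 9) * k ^ 9 * y ^ 3 + (310582 / 5) * k ^ 10 * y ^ 2 +
      (316192 / 15) * k ^ 11 * y + (149596 / 45) * k ^ 12) := by
    rw [sm6, sm0, hy]
    ring
  rw [h1]
  positivity

theorem hi6_6n {k e : ℝ} (h0 : 1 / 2 ≤ k) (h : k ≤ 1)
    (he : k * e = 3 / 34560 * (1 - k) * (k ^ 6 - (1 - k) ^ 6)) :
    0 ≤ k * ((1 - k) * 2 ^ 6 * (sm 6 k + e * (2 ^ 6 * mom 6 k (1 / 2))) +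
      ((-(2 * (1 - k))) ^ 6 * sm 0 k + e * (2 ^ 6 * 720 * mom 0 k (1 / 2)))) := by
  obtain ⟨x, hx⟩ : ∃ x : ℝ, x = 2 * k - 1 := ⟨_, rfl⟩
  obtain ⟨p, hp⟩ : ∃ p : ℝ, p = 1 - k := ⟨_, rfl⟩
  have hx0 : 0 ≤ x := by linarith
  have hp0 : 0 ≤ p := by linarith
  have hB : 0 ≤ p * 2 ^ 6 * ((149596 / 45) * p ^ 13 + (1997657 / 90) * x * p ^ 12 +
      (4129159 / 60) * x ^ 2 * p ^ 11 + (23644567 / 180) * x ^ 3 * p ^ 10 +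
      (12406961 / 72) * x ^ 4 * p ^ 9 + (3938315 / 24) * x ^ 5 * p ^ 8 +
      (28011473 / 240) * x ^ 6 * p ^ 7 + (45202147 / 720) * x ^ 7 * p ^ 6 +
      (12259907 / 480) * x ^ 8 * p ^ 5 + (1117931 / 144) * x ^ 9 * p ^ 4 +
      (822671 / 480) * x ^ 10 * p ^ 3 + (10411 / 40) * x ^ 11 * p ^ 2 +
      (35093 / 1440) * x ^ 12 * p + (17 / 16) * x ^ 13) := by
    positivity
  have h1 : k * ((1 - k) * 2 ^ 6 * (sm 6 k + e * (2 ^ 6 * mom 6 k (1 / 2))) +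
      ((-(2 * (1 - k))) ^ 6 * sm 0 k + e * (2 ^ 6 * 720 * mom 0 k (1 / 2)))) =
      p * 2 ^ 6 * ((149596 / 45) * p ^ 13 + (1997657 / 90) * x * p ^ 12 +
      (4129159 / 60) * x ^ 2 * p ^ 11 + (23644567 / 180) * x ^ 3 * p ^ 10 +
      (12406961 / 72) * x ^ 4 * p ^ 9 + (3938315 / 24) * x ^ 5 * p ^ 8 +
      (28011473 / 240) * x ^ 6 * p ^ 7 + (45202147 / 720) * x ^ 7 * p ^ 6 +
      (12259907 / 480) * x ^ 8 * p ^ 5 + (1117931 / 144) * x ^ 9 * p ^ 4 +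
      (822671 / 480) * x ^ 10 * p ^ 3 + (10411 / 40) * x ^ 11 * p ^ 2 +
      (35093 / 1440) * x ^ 12 * p + (17 / 16) * x ^ 13) := by
    rw [sm6, sm0, mom6, mom0, hx, hp]
    linear_combination ((1 - k) * 2 ^ 6 * (2 ^ 6 * ((15 / 8) + (45 / 4) * k ^ 2 + (15 / 2) * k ^ 4 + k ^ 6)) + 2 ^ 6 * 720 * (1)) * he
  rw [h1]
  exact hB

/-- from the two signs to the absolute value -/
theorem fin {k : ℝ} (h0 : 0 < k) (h1 : k < 1) {i d m : ℕ} (hv : Vv i = 1) (hd : dg i = d) (hm : m ≤ d)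
    {D q : ℝ} (hD : ((d.descFactorial m : ℕ) : ℝ) = D) (hq : 8 * ((d : ℝ) * d.factorial) = q)
    (hlo1 : k ≤ 1 / 2 → 0 ≤ (1 - k) * 2 ^ m * sm d k - (-(2 * (1 - k))) ^ m * sm (d - m) k)
    (hlo2 : k ≤ 1 / 2 → 0 ≤ (1 - k) * 2 ^ m * sm d k + (-(2 * (1 - k))) ^ m * sm (d - m) k)
    (hhi1 : ∀ e : ℝ, 1 / 2 ≤ k → k * e = 3 / q * (1 - k) * (k ^ d - (1 - k) ^ d) →
      0 ≤ k * ((1 - k) * 2 ^ m * (sm d k + e * (2 ^ d * mom d k (1 / 2))) -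
        ((-(2 * (1 - k))) ^ m * sm (d - m) k + e * (2 ^ d * D * mom (d - m) k (1 / 2)))))
    (hhi2 : ∀ e : ℝ, 1 / 2 ≤ k → k * e = 3 / q * (1 - k) * (k ^ d - (1 - k) ^ d) →
      0 ≤ k * ((1 - k) * 2 ^ m * (sm d k + e * (2 ^ d * mom d k (1 / 2))) +
        ((-(2 * (1 - k))) ^ m * sm (d - m) k + e * (2 ^ d * D * mom (d - m) k (1 / 2))))) :
    |dP k i m| ≤ (1 - k) * 2 ^ m * aF k i := by
  rw [aF_eq hv, dP_eq hv (by rw [hd]; exact hm), hd, hD]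
  rcases le_total k (1 / 2) with h | h
  · rw [eta_low h0 h]
    have := hlo1 h
    have := hlo2 h
    rw [abs_le]
    constructor <;> linarith
  · have he := eta_high h h1.le d
    have he' : k * eta (1 - k) d = 3 / q * (1 - k) * (k ^ d - (1 - k) ^ d) := by
      rw [he, ← hq]
      ring
    have g1 := nonneg_of_mul_nonneg_right (hhi1 _ h he') h0
    have g2 := nonneg_of_mul_nonneg_right (hhi2 _ h he') h0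
    rw [abs_le]
    constructor <;> linarith

end PD1

open PD1 in
/-- (R10b) -/
theorem stPhiD1 : StPhiD1 := by
  intro k h0 h1 i hi m hm1 hm2
  rcases hi with rfl | rfl
  · have hv : Vv 1 = 1 := by simp [Vv]
    have hd : dg 1 = 4 := rfl
    rw [hd] at hm2
    have hq : 8 * (((4 : ℕ) : ℝ) * Nat.factorial 4) = 768 := by norm_num [Nat.factorial]
    interval_cases m
    · exact fin h0 h1 hv hd (by norm_num) (by norm_num [Nat.descFactorial] :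
        ((Nat.descFactorial 4 1 : ℕ) : ℝ) = 4) hq (fun h => lo4_1p h0 h) (fun h => lo4_1n h0 h)
        (fun e h he => hi4_1p h h1.le he) (fun e h he => hi4_1n h h1.le he)
    · exact fin h0 h1 hv hd (by norm_num) (by norm_num [Nat.descFactorial] :
        ((Nat.descFactorial 4 2 : ℕ) : ℝ) = 12) hq (fun h => lo4_2p h0 h) (fun h => lo4_2n h0 h)
        (fun e h he => hi4_2p h h1.le he) (fun e h he => hi4_2n h h1.le he)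
    · exact fin h0 h1 hv hd (by norm_num) (by norm_num [Nat.descFactorial] :
        ((Nat.descFactorial 4 3 : ℕ) : ℝ) = 24) hq (fun h => lo4_3p h0 h) (fun h => lo4_3n h0 h)
        (fun e h he => hi4_3p h h1.le he) (fun e h he => hi4_3n h h1.le he)
    · exact fin h0 h1 hv hd (by norm_num) (by norm_num [Nat.descFactorial] :
        ((Nat.descFactorial 4 4 : ℕ) : ℝ) = 24) hq (fun h => lo4_4p h0 h) (fun h => lo4_4n h0 h)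
        (fun e h he => hi4_4p h h1.le he) (fun e h he => hi4_4n h h1.le he)
  · have hv : Vv 2 = 1 := by simp [Vv]
    have hd : dg 2 = 6 := rfl
    rw [hd] at hm2
    have hq : 8 * (((6 : ℕ) : ℝ) * Nat.factorial 6) = 34560 := by norm_num [Nat.factorial]
    interval_cases m
    · exact fin h0 h1 hv hd (by norm_num) (by norm_num [Nat.descFactorial] :
        ((Nat.descFactorial 6 1 : ℕ) : ℝ) = 6) hq (fun h => lo6_1p h0 h) (fun h => lo6_1n h0 h)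
        (fun e h he => hi6_1p h h1.le he) (fun e h he => hi6_1n h h1.le he)
    · exact fin h0 h1 hv hd (by norm_num) (by norm_num [Nat.descFactorial] :
        ((Nat.descFactorial 6 2 : ℕ) : ℝ) = 30) hq (fun h => lo6_2p h0 h) (fun h => lo6_2n h0 h)
        (fun e h he => hi6_2p h h1.le he) (fun e h he => hi6_2n h h1.le he)
    · exact fin h0 h1 hv hd (by norm_num) (by norm_num [Nat.descFactorial] :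
        ((Nat.descFactorial 6 3 : ℕ) : ℝ) = 120) hq (fun h => lo6_3p h0 h) (fun h => lo6_3n h0 h)
        (fun e h he => hi6_3p h h1.le he) (fun e h he => hi6_3n h h1.le he)
    · exact fin h0 h1 hv hd (by norm_num) (by norm_num [Nat.descFactorial] :
        ((Nat.descFactorial 6 4 : ℕ) : ℝ) = 360) hq (fun h => lo6_4p h0 h) (fun h => lo6_4n h0 h)
        (fun e h he => hi6_4p h h1.le he) (fun e h he => hi6_4n h h1.le he)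
    · exact fin h0 h1 hv hd (by norm_num) (by norm_num [Nat.descFactorial] :
        ((Nat.descFactorial 6 5 : ℕ) : ℝ) = 720) hq (fun h => lo6_5p h0 h) (fun h => lo6_5n h0 h)
        (fun e h he => hi6_5p h h1.le he) (fun e h he => hi6_5n h h1.le he)
    · exact fin h0 h1 hv hd (by norm_num) (by norm_num [Nat.descFactorial] :
        ((Nat.descFactorial 6 6 : ℕ) : ℝ) = 720) hq (fun h => lo6_6p h0 h) (fun h => lo6_6n h0 h)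
        (fun e h he => hi6_6p h h1.le he) (fun e h he => hi6_6n h h1.le he)

end K7
end Pool.Agent.Lib.MP_973905_nt
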