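import Pool.Agent.Lib.MP_973905_nt.K7.Stmts
import Pool.Agent.Lib.MP_973905_nt.K5.Lam3

/-! (R10c) derivatives of the limit, the blocks `i ≥ 3`: `stPhiD3`. -/

namespace Pool.Agent.Lib.MP_973905_nt
namespace K7

open MeasureTheory ProbabilityTheory Complex Filter Topology K1 K4 K5

namespace PhD3

open K5.L3

/-- comparison of Taylor polynomials of the exponential function -/
theorem Tp_le_Tp {n d : ℕ} (hn : Odd n) (hd : Even d) (h : n ≤ d) (y : ℝ) : Tp n y ≤ Tp d y := by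
  rcases le_total y 0 with hy | hy
  · exact ((L3.Tp_neg n y hy).2 hn).trans ((L3.Tp_neg d y hy).1 hd)
  · unfold Tp
    apply Finset.sum_le_sum_of_subset_of_nonneg
    · exact Finset.range_mono (by omega)
    · intro j _ _
      positivity

theorem tg_le_tg {n d : ℕ} (hn : Odd n) (hd : Even d) (h : n ≤ d) (a m : ℝ) :
    tg n a m ≤ tg d a m := by
  rw [tg_int, tg_int]
  exact integral_mono (Tp_integrable _ _ _) (Tp_integrable _ _ _) fun x => Tp_le_Tp hn hd h _

theorem tg_succ (n : ℕ) (a m : ℝ) : tg (n + 1) a m =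
    tg n a m + a ^ (n + 1) / (n + 1).factorial * mom (n + 1) m (1 / 2) := by
  unfold tg
  rw [Finset.sum_range_succ _ (n + 1)]

theorem tg_one (p k : ℝ) : tg 1 (-(2 * p)) k = 1 - 2 * p * k := by
  unfold tg
  simp [Finset.sum_range_succ, mom]
  ring

/-- the terms -/
theorem term_eq (p k : ℝ) (n : ℕ) : (-(2 * p)) ^ n / n.factorial * mom n k (1 / 2) =
    (-1) ^ n * (p ^ n * cq k n) := by
  unfold cq
  rw [neg_pow, mul_pow]
  ring

/-- odd terms -/
theorem tg_odd (p k : ℝ) {n : ℕ} (hn : Even n) :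
    tg (n + 1) (-(2 * p)) k = tg n (-(2 * p)) k - p ^ (n + 1) * cq k (n + 1) := by
  rw [tg_succ, term_eq, hn.add_one.neg_one_pow]
  ring

/-! ### sizes of the moments -/

theorem cq_one_small : cq 1 0 = 1 ∧ cq 1 1 = 2 ∧ cq 1 2 = 3 ∧ cq 1 3 = 10 / 3 := by
  have c0 : cq 1 0 = 1 := by simp [cq, mom]
  have c1 : cq 1 1 = 2 := by simp [cq, mom]
  have c2 := cq_rec 1 0
  have c3 := cq_rec 1 1
  simp only [Nat.reduceAdd] at *
  rw [c0, c1] at c2
  norm_num at c2
  rw [c1, c2] at c3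
  norm_num at c3
  exact ⟨c0, c1, c2, c3⟩

theorem cq_one_le (n : ℕ) : cq 1 n ≤ 10 / 3 := by
  obtain ⟨c0, c1, c2, c3⟩ := cq_one_small
  induction n using Nat.strong_induction_on with
  | _ n ih =>
    match n with
    | 0 => rw [c0]; norm_num
    | 1 => rw [c1]; norm_num
    | 2 => rw [c2]; norm_num
    | 3 => rw [c3]
    | n + 4 =>
      have h1 := ih (n + 2) (by omega)
      have h2 := ih (n + 3) (by omega)
      rw [show n + 4 = (n + 2) + 2 by ring, cq_rec]
      have h3 : (0 : ℝ) < ((n + 2 : ℕ) : ℝ) + 2 := by positivity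
      rw [div_mul_eq_mul_div, div_le_iff₀ h3, show n + 2 + 1 = n + 3 by ring]
      have h4 : (4 : ℝ) ≤ ((n + 2 : ℕ) : ℝ) + 2 := by
        push_cast
        have : (0 : ℝ) ≤ n := Nat.cast_nonneg n
        linarith
      nlinarith

theorem cq_half_vals' : cq (1 / 2) 1 = 1 ∧ cq (1 / 2) 3 = 7 / 6 ∧ cq (1 / 2) 5 = 27 / 40 ∧
    cq (1 / 2) 7 ≤ 13 / 50 ∧ cq (1 / 2) 8 ≤ 13 / 50 := by
  have c0 : cq (1 / 2) 0 = 1 := by simp [cq, mom]
  have c1 : cq (1 / 2) 1 = 1 := by simp [cq, mom]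
  have c2 := cq_rec (1 / 2) 0
  have c3 := cq_rec (1 / 2) 1
  have c4 := cq_rec (1 / 2) 2
  have c5 := cq_rec (1 / 2) 3
  have c6 := cq_rec (1 / 2) 4
  have c7 := cq_rec (1 / 2) 5
  have c8 := cq_rec (1 / 2) 6
  simp only [Nat.reduceAdd] at *
  rw [c0, c1] at c2
  norm_num at c2
  rw [c1, c2] at c3
  norm_num at c3
  rw [c2, c3] at c4
  norm_num at c4
  rw [c3, c4] at c5
  norm_num at c5
  rw [c4, c5] at c6
  norm_num at c6
  rw [c5, c6] at c7
  norm_num at c7
  rw [c6, c7] at c8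
  norm_num at c8
  refine ⟨c1, c3, c5, ?_, ?_⟩
  · rw [c7]; norm_num
  · rw [c8]; norm_num

theorem cq_half_big (n : ℕ) : cq (1 / 2) (n + 7) ≤ 13 / 50 := by
  induction n using Nat.strong_induction_on with
  | _ n ih =>
    match n with
    | 0 => exact cq_half_vals'.2.2.2.1
    | 1 => exact cq_half_vals'.2.2.2.2
    | n + 2 =>
      have h1 := ih n (by omega)
      have h2 := ih (n + 1) (by omega)
      rw [show n + 2 + 7 = (n + 7) + 2 by ring, cq_rec]
      have h3 : (0 : ℝ) < ((n + 7 : ℕ) : ℝ) + 2 := by positivity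
      rw [div_mul_eq_mul_div, div_le_iff₀ h3, show n + 7 + 1 = n + 1 + 7 by ring]
      have h4 : (9 : ℝ) ≤ ((n + 7 : ℕ) : ℝ) + 2 := by
        push_cast
        have : (0 : ℝ) ≤ n := Nat.cast_nonneg n
        linarith
      nlinarith

theorem cq_half_odd {n : ℕ} (hn : Odd n) : cq (1 / 2) n ≤ 7 / 6 := by
  obtain ⟨h1, h3, h5, -, -⟩ := cq_half_vals'
  rcases lt_or_ge n 7 with h | h
  · interval_cases n
    · exact absurd hn (by decide)
    · rw [h1]; norm_num
    · exact absurd hn (by decide)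
    · rw [h3]
    · exact absurd hn (by decide)
    · rw [h5]; norm_num
    · exact absurd hn (by decide)
  · obtain ⟨m, rfl⟩ := Nat.exists_eq_add_of_le h
    rw [add_comm]
    exact (cq_half_big m).trans (by norm_num)

/-- the odd moments are small when the mean is small -/
theorem cq_scale_odd {n : ℕ} (hn : Odd n) {t m : ℝ} (ht : 0 ≤ t) (ht1 : t ≤ 1) (hm : 0 ≤ m) :
    cq (t * m) n ≤ t * cq m n := by
  obtain ⟨j, rfl⟩ := hn
  unfold cq
  have h := (mom_scale j t m ht ht1 hm).2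
  have hf : (0 : ℝ) < (2 * j + 1).factorial := by positivity
  rw [← mul_div_assoc]
  apply div_le_div_of_nonneg_right _ hf.le
  calc (2 : ℝ) ^ (2 * j + 1) * mom (2 * j + 1) (t * m) (1 / 2) ≤
      2 ^ (2 * j + 1) * (t * mom (2 * j + 1) m (1 / 2)) := by gcongr
    _ = _ := by ring

theorem cq_scale {t m : ℝ} (n : ℕ) (ht : 0 ≤ t) (ht1 : t ≤ 1) (hm : 0 ≤ m) :
    cq (t * m) n ≤ cq m n := by
  rcases Nat.even_or_odd n with hn | hn
  · obtain ⟨j, rfl⟩ := hn.two_dvd
    unfold cq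
    have h := (mom_scale j t m ht ht1 hm).1
    gcongr
  · refine (cq_scale_odd hn ht ht1 hm).trans ?_
    have := cq_nonneg m hm n
    nlinarith

theorem cq_le {k : ℝ} (hk : 0 < k) (hk1 : k < 1) (n : ℕ) : cq k n ≤ 10 / 3 := by
  have h := cq_scale (t := k) (m := 1) n hk.le hk1.le zero_le_one
  rw [mul_one] at h
  exact h.trans (cq_one_le n)

theorem cq_odd_le {k : ℝ} (hk : 0 < k) (hk1 : k ≤ 1 / 2) {n : ℕ} (hn : Odd n) :
    cq k n ≤ 7 / 3 * k := by
  have h := cq_scale_odd (t := 2 * k) (m := 1 / 2) hn (by linarith) (by linarith) (by norm_num)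
  rw [show 2 * k * (1 / 2) = k by ring] at h
  have h2 := cq_half_odd hn
  nlinarith

theorem cq_odd_big {k : ℝ} (hk : 0 < k) (hk1 : k ≤ 1 / 2) {n : ℕ} (hn : Odd n) (h7 : 7 ≤ n) :
    cq k n ≤ 13 / 25 * k := by
  have h := cq_scale_odd (t := 2 * k) (m := 1 / 2) hn (by linarith) (by linarith) (by norm_num)
  rw [show 2 * k * (1 / 2) = k by ring] at h
  obtain ⟨m, rfl⟩ := Nat.exists_eq_add_of_le h7
  have h2 := cq_half_big m
  rw [add_comm m 7] at h2
  nlinarith

/-! ### the partial sums -/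

/-- lower bound of the full sum -/
theorem S_low {k : ℝ} (p : ℝ) {d : ℕ} (hd : Even d) (hd8 : 8 ≤ d) :
    1 - 2 * p * k ≤ tg d (-(2 * p)) k := by
  rw [← tg_one]
  exact tg_le_tg odd_one hd (by omega) _ _

/-- lower bound of the partial sums with an odd number of terms -/
theorem S_odd_low {k p : ℝ} {n : ℕ} (hn : Odd n) :
    -(p ^ n * cq k n) ≤ tg n (-(2 * p)) k := by
  obtain ⟨j, rfl⟩ := hn
  rw [tg_odd p k (even_two_mul j)]
  have := tg_pos (2 * j) (even_two_mul j) (-(2 * p)) k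
  linarith

theorem num1 {p k : ℝ} (hk : k = 1 - p) : p ^ 2 * (13 / 25) ≤ 1 - 2 * p * k := by
  rw [hk]
  nlinarith [sq_nonneg (p - 2 / 3), sq_nonneg (p - 1 / 2)]

theorem num2 {p k : ℝ} (hp : 0 < p) (hp1 : p < 1) (hk : k = 1 - p) :
    p ^ 4 * (7 / 3) ≤ (1 + p + p ^ 2) * (1 - 2 * p * k) := by
  have hp2 : p ^ 4 ≤ p ^ 2 := pow_le_pow_of_le_one hp.le hp1.le (by norm_num)
  have e : (1 + p + p ^ 2) * (1 - 2 * p * k) = 1 - p + p ^ 2 + 2 * p ^ 4 := by
    rw [hk]; ring
  rw [e]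
  nlinarith [sq_nonneg (p - 3 / 4)]

theorem num3 {p k : ℝ} (hp : 0 < p) (hk : k = 1 - p) : p ^ 2 * (7 / 3 * k) ≤ 1 / 2 := by
  rw [hk]
  have h := mul_nonneg hp.le (sq_nonneg (p - 2 / 3))
  have e : p * (p - 2 / 3) ^ 2 = p ^ 3 - 4 / 3 * p ^ 2 + 4 / 9 * p := by ring
  have e2 : p ^ 2 * (7 / 3 * (1 - p)) = 7 / 3 * p ^ 2 - 7 / 3 * p ^ 3 := by ring
  rw [e] at h
  rw [e2]
  nlinarith [sq_nonneg (p - 2 / 3)]

/-- `k ≤ 1/2` -/
theorem low {k p : ℝ} (hk : 0 < k) (hp : 0 < p) (hkp : k = 1 - p) (hk2 : k ≤ 1 / 2) {n m : ℕ}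
    (hd : Even (n + m)) (hd8 : 8 ≤ n + m) (hm : 1 ≤ m) :
    p ^ (m - 1) * |tg n (-(2 * p)) k| ≤ tg (n + m) (-(2 * p)) k := by
  have hp1 : p < 1 := by linarith
  have hk1 : k < 1 := by linarith
  have hlow : 1 - 2 * p * k ≤ tg (n + m) (-(2 * p)) k := S_low p hd hd8
  have hpk : p * k ≤ 1 / 4 := by
    rw [hkp]; nlinarith [sq_nonneg (p - 1 / 2)]
  have hhalf : 1 / 2 ≤ tg (n + m) (-(2 * p)) k := by linarith
  have hcn := cq_nonneg k hk.le n
  have hcn1 := cq_nonneg k hk.le (n + 1)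
  have hpm : p ^ (m - 1) ≤ 1 := pow_le_one₀ hp.le hp1.le
  have hpm0 : 0 < p ^ (m - 1) := by positivity
  rcases Nat.even_or_odd n with hn | hn
  · have hpos : 0 < tg n (-(2 * p)) k := tg_pos n hn _ _
    rw [abs_of_pos hpos]
    -- `m` is even
    have hme : Even m := by
      rcases Nat.even_or_odd m with h | h
      · exact h
      · exact absurd (hn.add_odd h) (by simpa using hd)
    have hm2 : 2 ≤ m := by
      obtain ⟨j, rfl⟩ := hme
      omega
    have h1 := tg_odd p k hn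
    have h2 : tg (n + 1) (-(2 * p)) k ≤ tg (n + m) (-(2 * p)) k :=
      tg_le_tg hn.add_one hd (by omega) _ _
    set A := tg n (-(2 * p)) k
    set B := tg (n + 1) (-(2 * p)) k
    set S := tg (n + m) (-(2 * p)) k
    have h3 : p ^ (m - 1) * (p ^ (n + 1) * cq k (n + 1)) = p ^ (n + m) * cq k (n + 1) := by
      rw [← mul_assoc, ← pow_add]
      congr 2
      omega
    have h8 : p ^ (n + m) ≤ p ^ 8 := pow_le_pow_of_le_one hp.le hp1.le hd8
    have hp8 : p ^ 8 ≤ p ^ 4 := pow_le_pow_of_le_one hp.le hp1.le (by norm_num)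
    have hp2 : p ^ 4 ≤ p ^ 2 := pow_le_pow_of_le_one hp.le hp1.le (by norm_num)
    -- the room
    suffices h : p ^ (n + m) * cq k (n + 1) ≤ (1 - p ^ (m - 1)) * S by
      calc p ^ (m - 1) * A = p ^ (m - 1) * B +
          p ^ (m - 1) * (p ^ (n + 1) * cq k (n + 1)) := by rw [h1]; ring
        _ ≤ p ^ (m - 1) * S + p ^ (n + m) * cq k (n + 1) := by
          rw [h3]
          have := mul_le_mul_of_nonneg_left h2 hpm0.le
          linarith
        _ ≤ S := by linarith
    rcases eq_or_lt_of_le hm2 with h | h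
    · -- `m = 2`
      have hc := cq_odd_big hk hk2 (hn.add_one) (by omega : 7 ≤ n + 1)
      have e1 : 1 - p ^ (m - 1) = k := by rw [← h, hkp]; norm_num
      rw [e1]
      have h5 : p ^ (n + m) * cq k (n + 1) ≤ p ^ 2 * (13 / 25 * k) := by
        apply mul_le_mul (h8.trans (hp8.trans hp2)) hc hcn1 (by positivity)
      have h6 : p ^ 2 * (13 / 25) ≤ S := (num1 hkp).trans hlow
      calc p ^ (n + m) * cq k (n + 1) ≤ p ^ 2 * (13 / 25 * k) := h5
        _ = k * (p ^ 2 * (13 / 25)) := by ring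
        _ ≤ k * S := mul_le_mul_of_nonneg_left h6 hk.le
    · have hm4 : 4 ≤ m := by
        obtain ⟨j, rfl⟩ := hme
        omega
      have hc := cq_odd_le hk hk2 (hn.add_one)
      have e1 : k * (1 + p + p ^ 2) ≤ 1 - p ^ (m - 1) := by
        have h0 : p ^ (m - 1) ≤ p ^ 3 := pow_le_pow_of_le_one hp.le hp1.le (by omega)
        have e : k * (1 + p + p ^ 2) = 1 - p ^ 3 := by rw [hkp]; ring
        rw [e]
        linarith
      have h5 : p ^ (n + m) * cq k (n + 1) ≤ p ^ 4 * (7 / 3 * k) := by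
        apply mul_le_mul (h8.trans hp8) hc hcn1 (by positivity)
      have h6 := num2 hp hp1 hkp
      have h8 : (1 + p + p ^ 2) * (1 - 2 * p * k) ≤ (1 + p + p ^ 2) * S :=
        mul_le_mul_of_nonneg_left hlow (by positivity)
      have h9 : (k * (1 + p + p ^ 2)) * S ≤ (1 - p ^ (m - 1)) * S :=
        mul_le_mul_of_nonneg_right e1 (by linarith)
      calc p ^ (n + m) * cq k (n + 1) ≤ p ^ 4 * (7 / 3 * k) := h5
        _ = k * (p ^ 4 * (7 / 3)) := by ring
        _ ≤ k * ((1 + p + p ^ 2) * S) := mul_le_mul_of_nonneg_left (h6.trans h8) hk.le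
        _ = (k * (1 + p + p ^ 2)) * S := by ring
        _ ≤ _ := h9
  · -- `n` odd
    have h2 : tg n (-(2 * p)) k ≤ tg (n + m) (-(2 * p)) k := tg_le_tg hn hd (by omega) _ _
    have h3 : -(p ^ n * cq k n) ≤ tg n (-(2 * p)) k := S_odd_low hn
    have hc := cq_odd_le hk hk2 hn
    set A := tg n (-(2 * p)) k
    set S := tg (n + m) (-(2 * p)) k
    have h4 : p ^ (m - 1) * (p ^ n * cq k n) ≤ 1 / 2 := by
      have e : p ^ (m - 1) * (p ^ n * cq k n) = p ^ (n + m - 1) * cq k n := by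
        rw [← mul_assoc, ← pow_add]
        congr 2
        omega
      rw [e]
      have h8 : p ^ (n + m - 1) ≤ p ^ 2 := pow_le_pow_of_le_one hp.le hp1.le (by omega)
      have h5 : p ^ (n + m - 1) * cq k n ≤ p ^ 2 * (7 / 3 * k) :=
        mul_le_mul h8 hc hcn (by positivity)
      exact h5.trans (num3 hp hkp)
    rcases abs_cases A with ⟨h, h'⟩ | ⟨h, h'⟩
    · rw [h]
      calc p ^ (m - 1) * A ≤ 1 * A := mul_le_mul_of_nonneg_right hpm h'
        _ = A := one_mul _
        _ ≤ S := h2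
    · rw [h]
      have : p ^ (m - 1) * (-A) ≤ p ^ (m - 1) * (p ^ n * cq k n) :=
        mul_le_mul_of_nonneg_left (by linarith) hpm0.le
      linarith

/-- `k > 1/2`, `m ≥ 2` -/
theorem high {k p : ℝ} (hk : 0 < k) (hp : 0 < p) (hkp : k = 1 - p) (hk2 : 1 / 2 < k) {n m : ℕ}
    (hd : Even (n + m)) (hd8 : 8 ≤ n + m) (hm : 2 ≤ m) :
    p ^ (m - 1) * |tg n (-(2 * p)) k| + 5 / 32 ≤ tg (n + m) (-(2 * p)) k := by
  have hp1 : p < 1 := by linarith
  have hk1 : k < 1 := by linarith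
  have hp2 : p < 1 / 2 := by linarith
  have hlow : 1 - 2 * p * k ≤ tg (n + m) (-(2 * p)) k := S_low p hd hd8
  have hpk : p * k ≤ 1 / 4 := by
    rw [hkp]; nlinarith [sq_nonneg (p - 1 / 2)]
  have hhalf : 1 / 2 ≤ tg (n + m) (-(2 * p)) k := by linarith
  have hcn := cq_nonneg k hk.le n
  have hcn1 := cq_nonneg k hk.le (n + 1)
  have hcn' := cq_le hk hk1 n
  have hcn1' := cq_le hk hk1 (n + 1)
  have h7 : p ^ 7 ≤ 1 / 128 := by
    have := pow_le_pow_left₀ hp.le hp2.le 7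
    norm_num at this ⊢
    linarith
  have hpm0 : 0 < p ^ (m - 1) := by positivity
  have hpm : p ^ (m - 1) ≤ 1 / 2 := by
    have : p ^ (m - 1) ≤ p ^ 1 := pow_le_pow_of_le_one hp.le hp1.le (by omega)
    rw [pow_one] at this
    linarith
  rcases Nat.even_or_odd n with hn | hn
  · have hpos : 0 < tg n (-(2 * p)) k := tg_pos n hn _ _
    rw [abs_of_pos hpos]
    have h1 := tg_odd p k hn
    have h2 : tg (n + 1) (-(2 * p)) k ≤ tg (n + m) (-(2 * p)) k :=
      tg_le_tg hn.add_one hd (by omega) _ _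
    set A := tg n (-(2 * p)) k
    set B := tg (n + 1) (-(2 * p)) k
    set S := tg (n + m) (-(2 * p)) k
    have h3 : p ^ (m - 1) * (p ^ (n + 1) * cq k (n + 1)) = p ^ (n + m) * cq k (n + 1) := by
      rw [← mul_assoc, ← pow_add]
      congr 2
      omega
    have h8 : p ^ (n + m) ≤ p ^ 7 := pow_le_pow_of_le_one hp.le hp1.le (by omega)
    have h9 : p ^ (n + m) * cq k (n + 1) ≤ 1 / 128 * (10 / 3) :=
      mul_le_mul (h8.trans h7) hcn1' hcn1 (by norm_num)
    have h10 : p ^ (m - 1) * A ≤ 1 / 2 * S + 1 / 128 * (10 / 3) := by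
      calc p ^ (m - 1) * A = p ^ (m - 1) * B +
          p ^ (m - 1) * (p ^ (n + 1) * cq k (n + 1)) := by rw [h1]; ring
        _ ≤ p ^ (m - 1) * S + 1 / 128 * (10 / 3) := by
          rw [h3]
          have := mul_le_mul_of_nonneg_left h2 hpm0.le
          linarith
        _ ≤ 1 / 2 * S + 1 / 128 * (10 / 3) := by
          have : p ^ (m - 1) * S ≤ 1 / 2 * S := mul_le_mul_of_nonneg_right hpm (by linarith)
          linarith
    linarith
  · have h2 : tg n (-(2 * p)) k ≤ tg (n + m) (-(2 * p)) k := tg_le_tg hn hd (by omega) _ _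
    have h3 : -(p ^ n * cq k n) ≤ tg n (-(2 * p)) k := S_odd_low hn
    set A := tg n (-(2 * p)) k
    set S := tg (n + m) (-(2 * p)) k
    have h4 : p ^ (m - 1) * (p ^ n * cq k n) ≤ 1 / 128 * (10 / 3) := by
      have e : p ^ (m - 1) * (p ^ n * cq k n) = p ^ (n + m - 1) * cq k n := by
        rw [← mul_assoc, ← pow_add]
        congr 2
        omega
      rw [e]
      have h8 : p ^ (n + m - 1) ≤ p ^ 7 := pow_le_pow_of_le_one hp.le hp1.le (by omega)
      exact mul_le_mul (h8.trans h7) hcn' hcn (by norm_num)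
    rcases abs_cases A with ⟨h, h'⟩ | ⟨h, h'⟩
    · rw [h]
      have : p ^ (m - 1) * A ≤ 1 / 2 * S := mul_le_mul hpm h2 h' (by norm_num)
      linarith
    · rw [h]
      have : p ^ (m - 1) * (-A) ≤ p ^ (m - 1) * (p ^ n * cq k n) :=
        mul_le_mul_of_nonneg_left (by linarith) hpm0.le
      linarith

/-- `k > 1/2`, `m = 1` -/
theorem high1 {k p e : ℝ} (hk : 0 < k) (hp : 0 < p) (hkp : k = 1 - p) (hk2 : 1 / 2 < k)
    (he0 : 0 ≤ e) (he2 : e ≤ 3 / 64 * p) {n : ℕ}
    (hd : Even (n + 1)) (hd8 : 8 ≤ n + 1) :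
    |-(p * tg n (-(2 * p)) k) + e * cq k n| ≤ p * tg (n + 1) (-(2 * p)) k := by
  have hp1 : p < 1 := by linarith
  have hk1 : k < 1 := by linarith
  have hp2 : p < 1 / 2 := by linarith
  have hlow : 1 - 2 * p * k ≤ tg (n + 1) (-(2 * p)) k := S_low p hd hd8
  have hpk : p * k ≤ 1 / 4 := by
    rw [hkp]; nlinarith [sq_nonneg (p - 1 / 2)]
  have hhalf : 1 / 2 ≤ tg (n + 1) (-(2 * p)) k := by linarith
  have hcn := cq_nonneg k hk.le n
  have hcn' := cq_le hk hk1 n
  have h7 : p ^ 7 ≤ 1 / 128 := by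
    have := pow_le_pow_left₀ hp.le hp2.le 7
    norm_num at this ⊢
    linarith
  have hn : Odd n := by
    rcases Nat.even_or_odd n with h | h
    · exact absurd (h.add_one) (by simpa using hd)
    · exact h
  have h2 : tg n (-(2 * p)) k ≤ tg (n + 1) (-(2 * p)) k := tg_le_tg hn hd (by omega) _ _
  have h3 : -(p ^ n * cq k n) ≤ tg n (-(2 * p)) k := S_odd_low hn
  set A := tg n (-(2 * p)) k
  set S := tg (n + 1) (-(2 * p)) k
  have h8 : p ^ n ≤ p ^ 7 := pow_le_pow_of_le_one hp.le hp1.le (by omega)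
  have h9 : p ^ n * cq k n ≤ 1 / 128 * (10 / 3) :=
    mul_le_mul (h8.trans h7) hcn' hcn (by norm_num)
  have h10 : 0 ≤ e * cq k n := mul_nonneg he0 hcn
  have h11 : e * cq k n ≤ p * (5 / 32) := by
    calc e * cq k n ≤ (3 / 64 * p) * (10 / 3) := mul_le_mul he2 hcn' hcn (by positivity)
      _ = _ := by ring
  have h12 : p * A ≤ p * S := mul_le_mul_of_nonneg_left h2 hp.le
  have h13 : p * (-(1 / 128 * (10 / 3))) ≤ p * A := mul_le_mul_of_nonneg_left (by linarith) hp.le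
  have h14 : p * (1 / 2) ≤ p * S := mul_le_mul_of_nonneg_left hhalf hp.le
  rw [abs_le]
  constructor
  · linarith
  · linarith

/-- The heart of the matter. `e = 0` for `k ≤ 1/2`, small for `k > 1/2`. -/
theorem key {k p e : ℝ} (hk : 0 < k) (hp : 0 < p) (hkp : k = 1 - p) {d : ℕ} (hd : Even d)
    (hd8 : 8 ≤ d) (he0 : 0 ≤ e) (he1 : k ≤ 1 / 2 → e = 0) (he2 : e ≤ 3 / 64 * p) {m : ℕ}
    (hm : 1 ≤ m) (hmd : m ≤ d) :
    |(-p) ^ m * tg (d - m) (-(2 * p)) k + e * cq k (d - m)| ≤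
      p * (tg d (-(2 * p)) k + e * cq k d) := by
  have hk1 : k < 1 := by linarith
  have hcd : 0 ≤ p * (e * cq k d) := mul_nonneg hp.le (mul_nonneg he0 (cq_nonneg k hk.le d))
  obtain ⟨n, rfl⟩ : ∃ n, d = n + m := ⟨d - m, by omega⟩
  rw [Nat.add_sub_cancel]
  have hcn := cq_nonneg k hk.le n
  have hcn' := cq_le hk hk1 n
  rw [mul_add]
  have h1 : |(-p) ^ m * tg n (-(2 * p)) k| = p * (p ^ (m - 1) * |tg n (-(2 * p)) k|) := by
    rw [abs_mul, abs_pow, abs_neg, abs_of_pos hp]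
    obtain ⟨j, rfl⟩ : ∃ j, m = j + 1 := ⟨m - 1, by omega⟩
    rw [Nat.add_sub_cancel, pow_succ]
    ring
  rcases le_or_gt k (1 / 2) with hk2 | hk2
  · have h := low hk hp hkp hk2 hd hd8 hm
    rw [he1 hk2, zero_mul, add_zero, h1]
    have := mul_le_mul_of_nonneg_left h hp.le
    simpa using this
  · rcases eq_or_lt_of_le hm with h | h
    · subst h
      have h2 := high1 hk hp hkp hk2 he0 he2 hd hd8
      have h5 : (-p) ^ 1 * tg n (-(2 * p)) k + e * cq k n =
        -(p * tg n (-(2 * p)) k) + e * cq k n := by ring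
      rw [h5]
      linarith
    · have h2 := high hk hp hkp hk2 hd hd8 h
      have h3 := abs_add_le ((-p) ^ m * tg n (-(2 * p)) k) (e * cq k n)
      have h4 : |e * cq k n| = e * cq k n := abs_of_nonneg (mul_nonneg he0 hcn)
      rw [h1, h4] at h3
      have h5 : e * cq k n ≤ p * (5 / 32) := by
        calc e * cq k n ≤ (3 / 64 * p) * (10 / 3) := mul_le_mul he2 hcn' hcn (by positivity)
          _ = _ := by ring
      have h6 := mul_le_mul_of_nonneg_left h2 hp.le
      rw [mul_add] at h6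
      linarith

/-! ### the correction -/

/-- the correction without the powers of `2` and the factorial -/
theorem eta_bound {k : ℝ} (hk : 0 < k) (hk1 : k < 1) {d : ℕ} (hd8 : 8 ≤ d) :
    0 ≤ K5.eta (1 - k) d ∧ K5.eta (1 - k) d * d.factorial ≤ 3 / 64 * (1 - k) := by
  refine ⟨le_max_left _ _, ?_⟩
  have hp : 0 < 1 - k := by linarith
  have hf : (0 : ℝ) < d.factorial := by positivity
  have hdr : (8 : ℝ) ≤ d := by exact_mod_cast hd8
  rw [← le_div_iff₀ hf]
  unfold K5.eta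
  apply max_le
  · positivity
  · have e1 : 1 - (1 - k) = k := by ring
    rw [e1]
    have h1 : k ^ d - (1 - k) ^ d ≤ k := by
      have h2 : k ^ d ≤ k ^ 1 := pow_le_pow_of_le_one hk.le hk1.le (by omega)
      have h3 : 0 ≤ (1 - k) ^ d := by positivity
      rw [pow_one] at h2
      linarith
    have h4 : 0 ≤ 3 / 8 * ((1 - k) / (k * (d * d.factorial))) := by positivity
    refine (mul_le_mul_of_nonneg_left h1 h4).trans ?_
    have e2 : 3 / 8 * ((1 - k) / (k * (d * d.factorial))) * k = 3 / 8 * (1 - k) / d / d.factorial := by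
      field_simp
    rw [e2]
    apply div_le_div_of_nonneg_right _ hf.le
    rw [div_le_iff₀ (by linarith)]
    nlinarith

end PhD3

open PhD3 K5.L3 in
theorem stPhiD3 : StPhiD3 := by
  intro k hk hk1 i hi m hm hmd
  have hdg : dg i = 2 * i + 2 := by
    unfold dg
    rw [if_neg (by omega)]
  have hV : Vv i = 1 := by
    unfold Vv
    rw [if_neg (by omega)]
  rw [hdg] at hmd
  set d : ℕ := 2 * i + 2 with hd
  have hde : Even d := ⟨i + 1, by omega⟩
  have hd8 : 8 ≤ d := by omega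
  set p : ℝ := 1 - k with hp
  have hp0 : 0 < p := by rw [hp]; linarith
  obtain ⟨hη0, hη⟩ := eta_bound hk hk1 hd8
  set e : ℝ := K5.eta p d * d.factorial with he
  have haF : aF k i = tg d (-(2 * p)) k + e * cq k d := by
    unfold aF tg cq
    rw [hdg, hV, mul_one, ← hp, he]
    have hf : (d.factorial : ℝ) ≠ 0 := by positivity
    congr 1
    field_simp
  have hdP : dP k i m = 2 ^ m * ((-p) ^ m * tg (d - m) (-(2 * p)) k + e * cq k (d - m)) := by
    unfold dP tg cq
    rw [hdg, hV, mul_one, ← hp, he, mul_add]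
    congr 1
    · rw [← mul_assoc, ← mul_pow, Finset.mul_sum, show d + 1 - m = d - m + 1 by omega]
      refine Finset.sum_congr rfl fun j _ => ?_
      rw [pow_add, show 2 * -p = -(2 * p) by ring]
      ring
    · have hf : ((d - m).factorial : ℝ) ≠ 0 := by positivity
      have h1 : ((d - m).factorial : ℝ) * (d.descFactorial m : ℝ) = d.factorial := by
        exact_mod_cast Nat.factorial_mul_descFactorial hmd
      have h2 : (2 : ℝ) ^ d = 2 ^ m * 2 ^ (d - m) := by
        rw [← pow_add]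
        congr 1
        omega
      rw [← h1, h2]
      field_simp
  have h := key (k := k) (p := p) (e := e) hk hp0 (by rw [hp]; ring) hde hd8 (by positivity)
    (fun h => by rw [he, hp, LamT.eta_zero k hk h, zero_mul]) hη hm hmd
  rw [hdP, haF, abs_mul, abs_of_pos (by positivity : (0 : ℝ) < 2 ^ m)]
  calc 2 ^ m * |(-p) ^ m * tg (d - m) (-(2 * p)) k + e * cq k (d - m)| ≤
      2 ^ m * (p * (tg d (-(2 * p)) k + e * cq k d)) := mul_le_mul_of_nonneg_left h (by positivity)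
    _ = p * 2 ^ m * (tg d (-(2 * p)) k + e * cq k d) := by ring

end K7
end Pool.Agent.Lib.MP_973905_nt
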