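import Pool.Agent.Lib.MP_973905_nt.K7.Base
import Pool.Agent.Lib.MP_973905_nt.K5.Rho
import Pool.Agent.Lib.MP_973905_nt.K5.Sym

/-! (S7, R10) Variation of the limit of a top block: Taylor expansion of `PhF` at `Vv i`. -/

namespace Pool.Agent.Lib.MP_973905_nt
namespace K7

open MeasureTheory ProbabilityTheory Complex Filter Topology K1 K4 K5

namespace PhiT

/-- binomial expansion of the moments in the mean -/
theorem mom_add (n : ℕ) (μ s : ℂ) : ∀ δ : ℂ, mom n (μ + δ) s =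
    ∑ m ∈ Finset.range (n + 1), (n.choose m : ℂ) * δ ^ m * mom (n - m) μ s := by
  induction n with
  | zero => intro δ; simp [mom]
  | succ n ih =>
    have hd : ∀ δ : ℂ, HasDerivAt (fun δ : ℂ => mom (n + 1) (μ + δ) s -
        ∑ m ∈ Finset.range (n + 1 + 1), ((n + 1).choose m : ℂ) * δ ^ m * mom (n + 1 - m) μ s) 0 δ := by
      intro δ
      have h1 : HasDerivAt (fun δ : ℂ => mom (n + 1) (μ + δ) s)
          (((n + 1 : ℕ) : ℂ) * mom n (μ + δ) s) δ := by
        have h := RhoA.mom_hasDeriv (n + 1) s (μ + δ)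
        have h2 : HasDerivAt (fun δ : ℂ => μ + δ) 1 δ := (hasDerivAt_id' δ).const_add μ
        have h3 := HasDerivAt.comp δ h h2
        rw [mul_one] at h3
        exact h3
      have h2 : HasDerivAt (fun δ : ℂ => ∑ m ∈ Finset.range (n + 1 + 1),
          ((n + 1).choose m : ℂ) * δ ^ m * mom (n + 1 - m) μ s)
          (∑ m ∈ Finset.range (n + 1 + 1),
          ((n + 1).choose m : ℂ) * ((m : ℂ) * δ ^ (m - 1)) * mom (n + 1 - m) μ s) δ := by
        refine HasDerivAt.fun_sum fun m _ => ?_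
        exact ((hasDerivAt_pow m δ).const_mul _).mul_const _
      refine (h1.sub h2).congr_deriv ?_
      rw [Finset.sum_range_succ', ih δ, Finset.mul_sum]
      simp only [Nat.cast_zero, zero_mul, mul_zero, add_zero, Nat.add_sub_cancel,
        Nat.add_sub_add_right]
      rw [← Finset.sum_sub_distrib]
      refine Finset.sum_eq_zero fun m _ => ?_
      have h4 : ((n + 1 : ℕ) : ℂ) * (n.choose m : ℂ) =
          ((n + 1).choose (m + 1) : ℂ) * ((m + 1 : ℕ) : ℂ) := by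
        exact_mod_cast Nat.add_one_mul_choose_eq n m
      linear_combination (δ ^ m * mom (n - m) μ s) * h4
    intro δ
    have h5 := is_const_of_deriv_eq_zero (fun δ => (hd δ).differentiableAt)
      (fun δ => (hd δ).deriv) δ 0
    have h6 : mom (n + 1) (μ + 0) s - ∑ m ∈ Finset.range (n + 1 + 1),
        ((n + 1).choose m : ℂ) * (0 : ℂ) ^ m * mom (n + 1 - m) μ s = 0 := by
      rw [Finset.sum_range_succ']
      simp
    rw [h6] at h5
    exact sub_eq_zero.1 h5

/-- Taylor expansion of the sum -/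
theorem sum_taylor (c μ s δ : ℂ) (d : ℕ) :
    ∑ j ∈ Finset.range (d + 1), c ^ j / (j.factorial : ℂ) * mom j (μ + δ) s =
    ∑ m ∈ Finset.range (d + 1), δ ^ m / (m.factorial : ℂ) *
      ∑ j ∈ Finset.range (d + 1 - m), c ^ (j + m) / (j.factorial : ℂ) * mom j μ s := by
  simp only [Finset.mul_sum]
  rw [← Finset.sum_range_diag_flip (d + 1) fun m j =>
    δ ^ m / (m.factorial : ℂ) * (c ^ (j + m) / (j.factorial : ℂ) * mom j μ s)]
  refine Finset.sum_congr rfl fun n _ => ?_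
  rw [mom_add, Finset.mul_sum]
  refine Finset.sum_congr rfl fun m hm => ?_
  have hm' : m ≤ n := by
    rw [Finset.mem_range] at hm
    omega
  have h1 : (n.choose m : ℂ) * (m.factorial : ℂ) * ((n - m).factorial : ℂ) = (n.factorial : ℂ) := by
    exact_mod_cast Nat.choose_mul_factorial_mul_factorial hm'
  have h2 : (m.factorial : ℂ) ≠ 0 := by exact_mod_cast Nat.factorial_ne_zero m
  have h3 : ((n - m).factorial : ℂ) ≠ 0 := by exact_mod_cast Nat.factorial_ne_zero (n - m)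
  have h4 : (n.factorial : ℂ) ≠ 0 := by exact_mod_cast Nat.factorial_ne_zero n
  rw [Nat.sub_add_cancel hm', ← h1]
  have h5 : (n.choose m : ℂ) ≠ 0 := by exact_mod_cast (Nat.choose_pos hm').ne'
  field_simp

/-- Taylor expansion of `PhF` -/
theorem PhF_taylor (k : ℝ) (i : ℕ) (δ : ℂ) : PhF k i (((Vv i : ℝ) : ℂ) + δ) =
    ∑ m ∈ Finset.range (dg i + 1), δ ^ m / (m.factorial : ℂ) * ((dP k i m : ℝ) : ℂ) := by
  have hμ : ((Vv i : ℝ) : ℂ) + δ - (((1 - k) * Vv i : ℝ) : ℂ) = ((k * Vv i : ℝ) : ℂ) + δ := by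
    push_cast
    ring
  rw [RhoA.PhF_eq, hμ]
  unfold RhoA.momP
  rw [sum_taylor, mom_add (dg i), Finset.mul_sum, ← Finset.sum_add_distrib]
  refine Finset.sum_congr rfl fun m hm => ?_
  have h1 : ((dP k i m : ℝ) : ℂ) = ∑ j ∈ Finset.range (dg i + 1 - m),
      (((-(2 * (1 - k)) : ℝ)) : ℂ) ^ (j + m) / (j.factorial : ℂ) *
        mom j ((k * Vv i : ℝ) : ℂ) ((Vv i / 2 : ℝ) : ℂ) +
      ((eta (1 - k) (dg i) * 2 ^ dg i : ℝ) : ℂ) * ((dg i).descFactorial m : ℂ) *
        mom (dg i - m) ((k * Vv i : ℝ) : ℂ) ((Vv i / 2 : ℝ) : ℂ) := by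
    unfold dP
    simp only [← RhoA.mom_cast]
    push_cast
    rfl
  rw [h1, Nat.descFactorial_eq_factorial_mul_choose]
  push_cast
  have h2 : (m.factorial : ℂ) ≠ 0 := by exact_mod_cast Nat.factorial_ne_zero m
  rw [mul_add]
  congr 1
  field_simp

theorem dP_zero (k : ℝ) (i : ℕ) : dP k i 0 = aF k i := by
  unfold dP aF
  simp

theorem aF_nonneg (k : ℝ) (i : ℕ) : 0 ≤ aF k i := by
  obtain ⟨L, hL, h⟩ := RhoA.aF_lower k
  exact hL.le.trans (h i)

/-- all derivatives -/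
theorem dP_le (h0 : StPhiD0) (h1 : StPhiD1) (h3 : StPhiD3) {k : ℝ} (hk0 : 0 < k) (hk1 : k < 1)
    (i m : ℕ) (hm1 : 1 ≤ m) (hm2 : m ≤ dg i) : |dP k i m| ≤ (1 - k) * 2 ^ m * aF k i := by
  rcases Nat.lt_or_ge i 3 with hi | hi
  · rcases (by omega : i = 0 ∨ i = 1 ∨ i = 2) with rfl | rfl | rfl
    · exact h0 k hk0 hk1 m hm1 (by simpa [dg] using hm2)
    · exact h1 k hk0 hk1 1 (Or.inl rfl) m hm1 hm2
    · exact h1 k hk0 hk1 2 (Or.inr rfl) m hm1 hm2
  · exact h3 k hk0 hk1 i hi m hm1 hm2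

end PhiT

open PhiT in
/-- (R10) -/
theorem stPhiE (h0 : StPhiD0) (h1 : StPhiD1) (h3 : StPhiD3) : StPhiE := by
  intro k hk0 hk1 i δ
  have hD := dP_le h0 h1 h3 hk0 hk1 i
  have hF := aF_nonneg k i
  have hk : 0 ≤ (1 - k) * aF k i := mul_nonneg (by linarith) hF
  rw [PhF_taylor, Finset.sum_range_succ', dP_zero]
  simp only [pow_zero, Nat.factorial_zero, Nat.cast_one, div_one, one_mul, add_sub_cancel_right]
  refine (norm_sum_le _ _).trans ?_
  have h4 : ∀ m ∈ Finset.range (dg i),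
      ‖δ ^ (m + 1) / ((m + 1).factorial : ℂ) * ((dP k i (m + 1) : ℝ) : ℂ)‖ ≤
        (1 - k) * aF k i * ((2 * ‖δ‖) ^ (m + 1) / ((m + 1).factorial : ℝ)) := by
    intro m hm
    rw [Finset.mem_range] at hm
    rw [norm_mul, norm_div, norm_pow, Complex.norm_natCast, Complex.norm_real, Real.norm_eq_abs]
    have h5 := hD (m + 1) (by omega) (by omega)
    calc ‖δ‖ ^ (m + 1) / ((m + 1).factorial : ℝ) * |dP k i (m + 1)|
        ≤ ‖δ‖ ^ (m + 1) / ((m + 1).factorial : ℝ) * ((1 - k) * 2 ^ (m + 1) * aF k i) :=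
          mul_le_mul_of_nonneg_left h5 (by positivity)
      _ = _ := by
          rw [mul_pow]
          ring
  refine (Finset.sum_le_sum h4).trans ?_
  rw [← Finset.mul_sum]
  have h6 := Real.sum_le_exp_of_nonneg (x := 2 * ‖δ‖) (by positivity) (dg i + 1)
  rw [Finset.sum_range_succ'] at h6
  simp only [pow_zero, Nat.factorial_zero, Nat.cast_one, div_one] at h6
  calc (1 - k) * aF k i * ∑ m ∈ Finset.range (dg i), (2 * ‖δ‖) ^ (m + 1) / ((m + 1).factorial : ℝ)
      ≤ (1 - k) * aF k i * (Real.exp (2 * ‖δ‖) - 1) :=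
        mul_le_mul_of_nonneg_left (by linarith) hk
    _ = _ := by ring

end K7
end Pool.Agent.Lib.MP_973905_nt
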