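import Pool.Agent.Lib.MP_973905_nt.K7.Stmts
import Pool.Agent.Lib.MP_973905_nt.K5.PrimeInt

/-! Shifted prime sums over long blocks, shifts of any size (as `K5.stPrimeInt`). -/

set_option autoImplicit false

namespace Pool.Agent.Lib.MP_973905_nt
namespace K7

open MeasureTheory ProbabilityTheory Complex Filter Topology K1 K4 K5

namespace PrimeUA

open K5.PrimeIntAux

/-- the constant for shifts of size `U` -/
noncomputable def Kc (U : ℝ) : ℝ := (U + 1) * Real.exp (2 * U)

theorem Kc_pos {U : ℝ} (hU : 0 < U) : 0 < Kc U := by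
  unfold Kc
  positivity

theorem gU_norm {U : ℝ} (hU : 0 < U) (u : ℂ) (hu : ‖u‖ ≤ U) (x : ℝ) (h0 : 0 ≤ x) (h1 : x ≤ 1) :
    ‖g u x‖ ≤ Real.exp U := by
  unfold g
  rw [Complex.norm_exp]
  apply Real.exp_le_exp.2
  calc (-(u * x)).re ≤ ‖-(u * x)‖ := Complex.re_le_norm _
    _ = ‖u‖ * |x| := by rw [norm_neg, norm_mul, Complex.norm_real, Real.norm_eq_abs]
    _ ≤ U * 1 := by
        apply mul_le_mul hu _ (abs_nonneg x) hU.le
        rw [abs_of_nonneg h0]
        exact h1
    _ = U := mul_one U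

theorem exp_le_Kc {U : ℝ} (hU : 0 < U) : Real.exp U ≤ Kc U := by
  unfold Kc
  have h1 : Real.exp U ≤ Real.exp (2 * U) := Real.exp_le_exp.2 (by linarith)
  have h2 : 0 < Real.exp (2 * U) := Real.exp_pos _
  nlinarith

theorem norm_exp_sub_one (w : ℂ) : ‖cexp w - 1‖ ≤ ‖w‖ * Real.exp ‖w‖ := by
  have h := Complex.norm_exp_sub_sum_le_norm_mul_exp w 1
  simpa using h

theorem gU_lip {U : ℝ} (hU : 0 < U) (u : ℂ) (hu : ‖u‖ ≤ U) (x y : ℝ) (hx : 0 ≤ x) (hx1 : x ≤ 1)
    (hy : 0 ≤ y) (hy1 : y ≤ 1) : ‖g u x - g u y‖ ≤ Kc U * |x - y| := by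
  have e : g u x - g u y = g u y * (cexp (-(u * ((x - y : ℝ) : ℂ))) - 1) := by
    unfold g
    rw [mul_sub, ← Complex.exp_add, mul_one]
    congr 2
    push_cast
    ring
  rw [e, norm_mul]
  have h1 := gU_norm hU u hu y hy hy1
  have habs : |x - y| ≤ 1 := by rw [abs_le]; constructor <;> linarith
  have h3 : ‖-(u * ((x - y : ℝ) : ℂ))‖ ≤ U * |x - y| := by
    rw [norm_neg, norm_mul, Complex.norm_real, Real.norm_eq_abs]
    exact mul_le_mul_of_nonneg_right hu (abs_nonneg _)
  have h4 : ‖-(u * ((x - y : ℝ) : ℂ))‖ ≤ U := h3.trans (by nlinarith [abs_nonneg (x - y)])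
  have h2 := norm_exp_sub_one (-(u * ((x - y : ℝ) : ℂ)))
  have h5 : ‖cexp (-(u * ((x - y : ℝ) : ℂ))) - 1‖ ≤ U * |x - y| * Real.exp U :=
    h2.trans (mul_le_mul h3 (Real.exp_le_exp.2 h4) (Real.exp_pos _).le (by positivity))
  calc ‖g u y‖ * ‖cexp (-(u * ((x - y : ℝ) : ℂ))) - 1‖
      ≤ Real.exp U * (U * |x - y| * Real.exp U) :=
        mul_le_mul h1 h5 (norm_nonneg _) (Real.exp_pos _).le
    _ = U * Real.exp (2 * U) * |x - y| := by
        rw [two_mul, Real.exp_add]
        ring
    _ ≤ Kc U * |x - y| := by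
        apply mul_le_mul_of_nonneg_right _ (abs_nonneg _)
        unfold Kc
        apply mul_le_mul_of_nonneg_right _ (Real.exp_pos _).le
        linarith

section
variable {U : ℝ} (hU : 0 < U)
include hU

theorem SU_block (L : ℝ) (hL : 0 < L) (u : ℂ) (hu : ‖u‖ ≤ U) (a b : ℝ) (ha : 0 < a) (hab : a ≤ b)
    (hb : b ≤ 1) :
    ‖S L u a b - ((∑ p ∈ PS (Real.exp (a * L)) (Real.exp (b * L)), 1 / (p : ℝ) : ℝ) : ℂ) * g u a‖ ≤
      Kc U * (b - a) * ∑ p ∈ PS (Real.exp (a * L)) (Real.exp (b * L)), 1 / (p : ℝ) := by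
  unfold S
  rw [Complex.ofReal_sum, Finset.sum_mul, ← Finset.sum_sub_distrib, Finset.mul_sum]
  refine (norm_sum_le _ _).trans (Finset.sum_le_sum fun p hp => ?_)
  obtain ⟨hp0, h1, h2⟩ := mem_block L a b hL p hp
  rw [term L hL u p hp0, ← mul_sub, norm_mul, Complex.norm_real, Real.norm_eq_abs,
    abs_of_nonneg (by positivity)]
  have h3 := gU_lip hU u hu (Real.log p / L) a (by linarith) (by linarith) ha.le (by linarith)
  have h4 : |Real.log p / L - a| ≤ b - a := by
    rw [abs_of_nonneg (by linarith)]; linarith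
  have h5 : (0 : ℝ) ≤ 1 / (p : ℝ) := by positivity
  calc 1 / (p : ℝ) * ‖g u (Real.log p / L) - g u a‖ ≤ 1 / (p : ℝ) * (Kc U * (b - a)) := by
        apply mul_le_mul_of_nonneg_left _ h5
        exact h3.trans (mul_le_mul_of_nonneg_left h4 (Kc_pos hU).le)
    _ = Kc U * (b - a) * (1 / (p : ℝ)) := by ring

theorem IU_block (u : ℂ) (hu : ‖u‖ ≤ U) (a b : ℝ) (ha : 0 < a) (hab : a ≤ b) (hb : b ≤ 1) :
    ‖vv a b u - ((Real.log (b / a) : ℝ) : ℂ) * g u a‖ ≤ Kc U * (b - a) * Real.log (b / a) := by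
  have hb0 : 0 < b := by linarith
  have hpos : ∀ x ∈ Set.uIcc a b, 0 < x := fun x hx => by
    rcases Set.mem_uIcc.1 hx with h | h <;> linarith [h.1]
  have e1 : ((Real.log (b / a) : ℝ) : ℂ) * g u a = ∫ x in a..b, (g u a) / (x : ℂ) := by
    have h1 := integral_one_div_of_pos ha hb0
    rw [← h1, ← intervalIntegral.integral_ofReal, ← intervalIntegral.integral_mul_const]
    apply intervalIntegral.integral_congr
    intro x hx
    simp only
    push_cast
    ring
  have i2 : IntervalIntegrable (fun x : ℝ => (g u a) / (x : ℂ)) volume a b := by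
    apply ContinuousOn.intervalIntegrable
    apply ContinuousOn.div continuousOn_const Complex.continuous_ofReal.continuousOn
    intro x hx
    exact_mod_cast (hpos x hx).ne'
  have e2 : vv a b u - ((Real.log (b / a) : ℝ) : ℂ) * g u a =
      ∫ x in a..b, (g u x - g u a) / (x : ℂ) := by
    rw [e1]
    unfold vv
    rw [← intervalIntegral.integral_sub (vv_int u a b ha hb0) i2]
    apply intervalIntegral.integral_congr
    intro x hx
    simp only [g]
    ring
  rw [e2]
  have h3 : Kc U * (b - a) * Real.log (b / a) = ∫ x in a..b, Kc U * (b - a) * (1 / x) := by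
    rw [intervalIntegral.integral_const_mul, integral_one_div_of_pos ha hb0]
  rw [h3]
  apply intervalIntegral.norm_integral_le_of_norm_le hab
  · apply Filter.Eventually.of_forall
    intro x hx
    have hx0 : 0 < x := by linarith [hx.1]
    rw [norm_div, Complex.norm_real, Real.norm_eq_abs, abs_of_pos hx0, div_eq_mul_one_div]
    apply mul_le_mul_of_nonneg_right _ (by positivity)
    have h4 := gU_lip hU u hu x a hx0.le (by linarith [hx.2]) ha.le (by linarith)
    have h5 : |x - a| ≤ b - a := by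
      rw [abs_of_nonneg (by linarith [hx.1])]; linarith [hx.2]
    exact h4.trans (mul_le_mul_of_nonneg_left h5 (Kc_pos hU).le)
  · apply ContinuousOn.intervalIntegrable
    apply ContinuousOn.mul continuousOn_const
    apply ContinuousOn.div continuousOn_const continuousOn_id
    intro x hx
    exact (hpos x hx).ne'

theorem blockU (L : ℝ) (hL : 0 < L) (u : ℂ) (hu : ‖u‖ ≤ U) (a b : ℝ) (ha : 0 < a) (hab : a ≤ b)
    (hb : b ≤ 1) (h2 : 1 ≤ a * L) :
    ‖S L u a b - vv a b u‖ ≤ 2 * Kc U * (b - a) * Real.log (b / a) + 20 * Kc U / (a * L) := by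
  have h0 : (2 : ℝ) ≤ Real.exp (a * L) := by
    have := Real.add_one_le_exp (a * L)
    linarith
  have h1 := SU_block hU L hL u hu a b ha hab hb
  have h3 := IU_block hU u hu a b ha hab hb
  have h4 := PrimeSum.range_bound (Real.exp (a * L)) (Real.exp (b * L)) h0
    (Real.exp_le_exp.2 (mul_le_mul_of_nonneg_right hab hL.le))
  rw [Real.log_exp, Real.log_exp, mul_div_mul_right _ _ hL.ne'] at h4
  set P : ℝ := ∑ p ∈ PS (Real.exp (a * L)) (Real.exp (b * L)), 1 / (p : ℝ) with hP
  set l : ℝ := Real.log (b / a) with hl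
  have hg := (gU_norm hU u hu a ha.le (by linarith)).trans (exp_le_Kc hU)
  have h5 : ‖((P : ℝ) : ℂ) * g u a - ((l : ℝ) : ℂ) * g u a‖ ≤ Kc U * (10 / (a * L)) := by
    rw [← sub_mul, norm_mul, ← Complex.ofReal_sub, Complex.norm_real, Real.norm_eq_abs, mul_comm]
    exact mul_le_mul hg h4 (abs_nonneg _) (Kc_pos hU).le
  have h6 : ‖S L u a b - vv a b u‖ ≤ ‖S L u a b - ((P : ℝ) : ℂ) * g u a‖ +
      ‖((P : ℝ) : ℂ) * g u a - ((l : ℝ) : ℂ) * g u a‖ + ‖vv a b u - ((l : ℝ) : ℂ) * g u a‖ := by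
    have e : S L u a b - vv a b u = (S L u a b - ((P : ℝ) : ℂ) * g u a) +
      (((P : ℝ) : ℂ) * g u a - ((l : ℝ) : ℂ) * g u a) - (vv a b u - ((l : ℝ) : ℂ) * g u a) := by
      ring
    calc ‖S L u a b - vv a b u‖ = _ := congrArg _ e
      _ ≤ ‖(S L u a b - ((P : ℝ) : ℂ) * g u a) +
          (((P : ℝ) : ℂ) * g u a - ((l : ℝ) : ℂ) * g u a)‖ +
          ‖vv a b u - ((l : ℝ) : ℂ) * g u a‖ := norm_sub_le _ _
      _ ≤ _ := by
        gcongr
        exact norm_add_le _ _
  have h7 : P ≤ l + 10 / (a * L) := by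
    have := (abs_le.1 h4).2
    linarith
  have h8 : 0 ≤ 10 / (a * L) := by positivity
  have h9 : Kc U * (b - a) * P ≤ Kc U * (b - a) * l + Kc U * (10 / (a * L)) := by
    have : Kc U * (b - a) * P ≤ Kc U * (b - a) * (l + 10 / (a * L)) :=
      mul_le_mul_of_nonneg_left h7 (mul_nonneg (Kc_pos hU).le (by linarith))
    have h10 : Kc U * (b - a) * (10 / (a * L)) ≤ Kc U * (10 / (a * L)) :=
      mul_le_mul_of_nonneg_right (mul_le_of_le_one_right (Kc_pos hU).le (by linarith)) h8
    linarith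
  have e9 : 20 * Kc U / (a * L) = 2 * (Kc U * (10 / (a * L))) := by ring
  rw [e9]
  linarith

theorem stepsU (L : ℝ) (hL : 0 < L) (u : ℂ) (hu : ‖u‖ ≤ U) (lo h : ℝ) (hlo : 0 < lo) (hh : 0 < h)
    (h2 : 1 ≤ lo * L) (n : ℕ) (hn : lo + n * h ≤ 1) :
    ‖S L u lo (lo + n * h) - vv lo (lo + n * h) u‖ ≤
      2 * Kc U * h * Real.log ((lo + n * h) / lo) + n * (20 * Kc U / (lo * L)) := by
  induction n with
  | zero =>
    have e : S L u lo (lo + (0 : ℕ) * h) = 0 := by
      unfold S PS
      simp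
    have e2 : vv lo (lo + (0 : ℕ) * h) u = 0 := by
      unfold vv
      simp
    rw [e, e2]
    simp
  | succ n ih =>
    have hnh : 0 ≤ (n : ℝ) * h := by positivity
    have ecast : ((n + 1 : ℕ) : ℝ) = (n : ℝ) + 1 := by push_cast; ring
    rw [ecast] at hn ⊢
    have hstep : (lo + ((n : ℝ) + 1) * h) = (lo + n * h) + h := by ring
    rw [hstep] at hn ⊢
    have ih' := ih (by linarith)
    have ha : 0 < lo + n * h := by linarith
    have h3 : 1 ≤ (lo + n * h) * L := by nlinarith [mul_nonneg hnh hL.le]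
    have hb := blockU hU L hL u hu (lo + n * h) (lo + n * h + h) ha (by linarith) hn h3
    rw [S_add L hL u lo (lo + n * h) (lo + n * h + h) (by linarith) (by linarith),
      vv_add u lo (lo + n * h) (lo + n * h + h) hlo ha (by linarith)]
    have e3 : S L u lo (lo + n * h) + S L u (lo + n * h) (lo + n * h + h) -
        (vv lo (lo + n * h) u + vv (lo + n * h) (lo + n * h + h) u) =
        (S L u lo (lo + n * h) - vv lo (lo + n * h) u) +
        (S L u (lo + n * h) (lo + n * h + h) - vv (lo + n * h) (lo + n * h + h) u) := by ring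
    rw [e3]
    have h4 : 20 * Kc U / ((lo + n * h) * L) ≤ 20 * Kc U / (lo * L) := by
      apply div_le_div_of_nonneg_left (mul_nonneg (by norm_num) (Kc_pos hU).le) (by positivity)
      exact mul_le_mul_of_nonneg_right (by linarith) hL.le
    have h5 : Real.log ((lo + n * h + h) / lo) = Real.log ((lo + n * h) / lo) +
        Real.log ((lo + n * h + h) / (lo + n * h)) := by
      rw [← Real.log_mul (by positivity) (by positivity)]
      congr 1
      field_simp
    have h6 : lo + n * h + h - (lo + n * h) = h := by ring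
    rw [h6] at hb
    rw [h5]
    calc _ ≤ ‖S L u lo (lo + n * h) - vv lo (lo + n * h) u‖ +
        ‖S L u (lo + n * h) (lo + n * h + h) - vv (lo + n * h) (lo + n * h + h) u‖ :=
          norm_add_le _ _
      _ ≤ (2 * Kc U * h * Real.log ((lo + n * h) / lo) + n * (20 * Kc U / (lo * L))) +
          (2 * Kc U * h * Real.log ((lo + n * h + h) / (lo + n * h)) + 20 * Kc U / (lo * L)) := by
          gcongr
          linarith
      _ = _ := by ring

end

end PrimeUA

open K5.PrimeIntAux PrimeUA in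
theorem stPrimeU : StPrimeU := by
  intro lo hi U hlo hlohi hhi hU ε hε
  have hK := Kc_pos hU
  obtain ⟨K, hKdef⟩ : ∃ K, K = Kc U := ⟨_, rfl⟩
  rw [← hKdef] at hK
  have hl : 0 ≤ Real.log (hi / lo) := Real.log_nonneg (by rw [le_div_iff₀ hlo]; linarith)
  obtain ⟨n, hn⟩ := exists_nat_gt (4 * K * (hi - lo) * Real.log (hi / lo) / ε)
  have hn0 : (0 : ℝ) < n := lt_of_le_of_lt (by
    have : 0 ≤ hi - lo := by linarith
    positivity) hn
  refine ⟨max 3 (Real.exp (1 / lo + 40 * K * n / (lo * ε))), le_max_left _ _, fun T hT u hu => ?_⟩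
  have hT3 : 3 ≤ T := (le_max_left _ _).trans hT
  have hT2 : Real.exp (1 / lo + 40 * K * n / (lo * ε)) ≤ T := (le_max_right _ _).trans hT
  have hL2 : 1 / lo + 40 * K * n / (lo * ε) ≤ Real.log T :=
    (Real.le_log_iff_exp_le (by linarith)).2 hT2
  have hp1 : 0 < 1 / lo := by positivity
  have hp2 : 0 < 40 * K * n / (lo * ε) := by positivity
  have hL : 0 < Real.log T := by linarith
  set L := Real.log T with hLdef
  have h1 : 1 ≤ lo * L := by
    have : 1 / lo ≤ L := by linarith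
    rw [div_le_iff₀ hlo] at this
    linarith
  have hh : 0 < (hi - lo) / n := div_pos (by linarith) hn0
  have e : lo + n * ((hi - lo) / n) = hi := by field_simp; ring
  have h2 := stepsU hU L hL u hu lo ((hi - lo) / n) hlo hh h1 n (by rw [e]; exact hhi)
  rw [e, ← hKdef] at h2
  refine h2.trans ?_
  have h3 : 2 * K * ((hi - lo) / n) * Real.log (hi / lo) ≤ ε / 2 := by
    rw [div_lt_iff₀ hε] at hn
    have : 2 * K * ((hi - lo) / n) * Real.log (hi / lo) =
      (2 * K * (hi - lo) * Real.log (hi / lo)) / n := by ring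
    rw [this, div_le_iff₀ hn0]
    linarith
  have h4 : (n : ℝ) * (20 * K / (lo * L)) ≤ ε / 2 := by
    have h5 : 40 * K * n / (lo * ε) ≤ L := by linarith
    rw [div_le_iff₀ (by positivity)] at h5
    have : (n : ℝ) * (20 * K / (lo * L)) = (20 * K * n) / (lo * L) := by ring
    rw [this, div_le_iff₀ (by positivity)]
    linarith
  linarith

end K7
end Pool.Agent.Lib.MP_973905_nt
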