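import Pool.Agent.Lib.MP_973905_nt.K7.Base
import Pool.Agent.Lib.MP_973905_nt.Core3

/-! Module (R13): fourth power of the Euler product against our weights. -/

namespace Pool.Agent.Lib.MP_973905_nt
namespace K7

open MeasureTheory ProbabilityTheory Complex Filter Topology K1 K4 K5

namespace RandWm

/-! ### the polynomials of the top blocks -/

lemma abs_Tp_le (d : ℕ) (y : ℝ) : |Tp d y| ≤ Real.exp |y| := by
  unfold Tp
  refine (Finset.abs_sum_le_sum_abs _ _).trans ?_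
  refine le_trans (Finset.sum_le_sum fun j _ => ?_)
    (Real.sum_le_exp_of_nonneg (abs_nonneg y) (d + 1))
  rw [abs_div, abs_pow, Nat.abs_cast]

lemma eta_mul_le {κ : ℝ} (h0 : 0 < κ) (h1 : κ < 1) {d : ℕ} (hd : 1 ≤ d) :
    K5.eta (1 - κ) d * d.factorial ≤ 1 / κ := by
  have hd' : (1 : ℝ) ≤ d := by exact_mod_cast hd
  have hf : (0 : ℝ) < d.factorial := by exact_mod_cast Nat.factorial_pos d
  unfold K5.eta
  rw [show (1 : ℝ) - (1 - κ) = κ by ring]
  rw [max_mul_of_nonneg _ _ hf.le, zero_mul]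
  refine max_le (by positivity) ?_
  have e1 : κ ^ d - (1 - κ) ^ d ≤ 1 := by
    have a1 : κ ^ d ≤ 1 := pow_le_one₀ h0.le h1.le
    have a2 : 0 ≤ (1 - κ) ^ d := pow_nonneg (by linarith) _
    linarith
  have e2 : 0 ≤ 3 / 8 * ((1 - κ) / (κ * (d * d.factorial))) := by
    have : 0 ≤ 1 - κ := by linarith
    positivity
  calc 3 / 8 * ((1 - κ) / (κ * (d * d.factorial))) * (κ ^ d - (1 - κ) ^ d) * d.factorial
      ≤ 3 / 8 * ((1 - κ) / (κ * (d * d.factorial))) * 1 * d.factorial := by gcongr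
    _ = 3 / 8 * (1 - κ) / d * (1 / κ) := by field_simp
    _ ≤ 1 * (1 / κ) := by
        apply mul_le_mul_of_nonneg_right _ (by positivity)
        rw [div_le_one (by linarith)]
        linarith
    _ = 1 / κ := one_mul _

lemma dg_pos (i : ℕ) : 1 ≤ dg i := by
  unfold dg; split_ifs <;> omega

lemma Vv_mem (i : ℕ) : 0 ≤ Vv i ∧ Vv i ≤ 1 := by
  unfold Vv; split_ifs <;> norm_num

lemma pf_le {κ : ℝ} (h0 : 0 < κ) (h1 : κ < 1) (i : ℕ) (x : ℝ) :
    |pf κ i (x - Vv i)| ≤ (1 + 1 / κ) * Real.exp 4 * Real.exp (2 * |x|) := by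
  obtain ⟨v0, v1⟩ := Vv_mem i
  set y := x - Vv i - (1 - κ) * Vv i with hy
  have hy1 : |y| ≤ |x| + 2 := by
    have a1 : |y| ≤ |x| + |Vv i + (1 - κ) * Vv i| := by
      have : y = x - (Vv i + (1 - κ) * Vv i) := by rw [hy]; ring
      rw [this]
      exact abs_sub _ _
    have a2 : |Vv i + (1 - κ) * Vv i| ≤ 2 := by
      rw [abs_of_nonneg (by nlinarith)]
      nlinarith
    linarith
  have t1 : |Tp (dg i) (-(2 * (1 - κ) * y))| ≤ Real.exp (2 * |y|) := by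
    refine (abs_Tp_le _ _).trans (Real.exp_le_exp.mpr ?_)
    rw [abs_neg, abs_mul, abs_of_nonneg (by linarith : 0 ≤ 2 * (1 - κ))]
    have := abs_nonneg y
    nlinarith
  have t2 : |K5.eta (1 - κ) (dg i) * (2 * y) ^ dg i| ≤ 1 / κ * Real.exp (2 * |y|) := by
    have hf : (0 : ℝ) < (dg i).factorial := by exact_mod_cast Nat.factorial_pos _
    have he : 0 ≤ K5.eta (1 - κ) (dg i) := le_max_left _ _
    rw [abs_mul, abs_of_nonneg he, abs_pow, abs_mul, abs_of_nonneg (by norm_num : (0 : ℝ) ≤ 2)]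
    have a1 : (2 * |y|) ^ dg i / (dg i).factorial ≤ Real.exp (2 * |y|) :=
      Real.pow_div_factorial_le_exp _ (by positivity) _
    calc K5.eta (1 - κ) (dg i) * (2 * |y|) ^ dg i
        = (K5.eta (1 - κ) (dg i) * (dg i).factorial) * ((2 * |y|) ^ dg i / (dg i).factorial) := by
          field_simp
      _ ≤ 1 / κ * Real.exp (2 * |y|) := by
          apply mul_le_mul (eta_mul_le h0 h1 (dg_pos i)) a1 (by positivity) (by positivity)
  have t3 : |pf κ i (x - Vv i)| ≤ (1 + 1 / κ) * Real.exp (2 * |y|) := by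
    unfold pf
    refine (abs_add_le _ _).trans ?_
    rw [add_mul, one_mul]
    exact add_le_add t1 t2
  refine t3.trans ?_
  rw [mul_assoc, ← Real.exp_add]
  apply mul_le_mul_of_nonneg_left _ (by positivity)
  apply Real.exp_le_exp.mpr
  linarith

lemma Pj_one (S : Finset ℕ) (f : ℕ → ℂ) : Pj 1 S f = ∑ p ∈ S, f p := by
  unfold Pj QQ
  refine Finset.sum_congr rfl fun p _ => ?_
  simp

/-! ### one block -/

lemma re_w (T : ℝ) (z : ℂ) : (1 / 2 + z / Real.log T : ℂ).re = 1 / 2 + z.re / Real.log T := by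
  rw [add_re, div_ofReal_re]
  norm_num

lemma yp_le {T : ℝ} (hT : 1 < T) {z : ℂ} (hz : -1 ≤ z.re) {p : ℕ} (hp : p.Prime)
    (hpT : (p : ℝ) ≤ T) : yp (1 / 2 + z / Real.log T : ℂ).re (1 / 2) p ≤
      Real.exp 1 * (p : ℝ) ^ (-(1 / 2) : ℝ) := by
  have hL : 0 < Real.log T := Real.log_pos hT
  have hp0 : (0 : ℝ) < p := by exact_mod_cast hp.pos
  have hp1 : (1 : ℝ) ≤ p := by exact_mod_cast hp.one_lt.le
  have hlp : Real.log p ≤ Real.log T := Real.log_le_log hp0 hpT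
  have hlp0 : 0 ≤ Real.log p := Real.log_nonneg hp1
  have hx : 0 < (p : ℝ) ^ (-(1 / 2) : ℝ) := Real.rpow_pos_of_pos hp0 _
  unfold yp
  refine max_le ?_ ?_
  · rw [re_w, neg_add, Real.rpow_add hp0, mul_comm]
    apply mul_le_mul_of_nonneg_right _ hx.le
    rw [Real.rpow_def_of_pos hp0]
    apply Real.exp_le_exp.mpr
    have a1 : -(z.re / Real.log T) ≤ 1 / Real.log T := by
      rw [← neg_div]
      exact div_le_div_of_nonneg_right (by linarith) hL.le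
    calc Real.log p * -(z.re / Real.log T) ≤ Real.log p * (1 / Real.log T) :=
          mul_le_mul_of_nonneg_left a1 hlp0
      _ ≤ 1 := by rw [mul_one_div, div_le_one hL]; exact hlp
  · have : (1 : ℝ) ≤ Real.exp 1 := Real.one_le_exp (by norm_num)
    nlinarith

lemma half_le {p : ℕ} (hp16 : (16 : ℝ) ≤ p) : (p : ℝ) ^ (-(1 / 2) : ℝ) ≤ 1 / 4 := by
  have hp0 : (0 : ℝ) < p := by linarith
  rw [Real.rpow_neg hp0.le, ← Real.sqrt_eq_rpow, one_div]
  apply inv_anti₀ (by norm_num)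
  rw [Real.le_sqrt (by norm_num) hp0.le]
  linarith

lemma exp_one_le : Real.exp 1 ≤ 3 := by
  have := Real.exp_one_lt_d9
  linarith

lemma yp_le' {T : ℝ} (hT : 1 < T) {z : ℂ} (hz : -1 ≤ z.re) {p : ℕ} (hp : p.Prime)
    (hpT : (p : ℝ) ≤ T) (hp16 : (16 : ℝ) ≤ p) :
    yp (1 / 2 + z / Real.log T : ℂ).re (1 / 2) p ≤ 3 / 4 := by
  refine (yp_le hT hz hp hpT).trans ?_
  have h1 := half_le hp16
  have h2 := exp_one_le
  have h3 : 0 ≤ (p : ℝ) ^ (-(1 / 2) : ℝ) := by positivity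
  have h4 := Real.exp_pos 1
  nlinarith

lemma yp_sq_le {T : ℝ} (hT : 1 < T) {z : ℂ} (hz : -1 ≤ z.re) {p : ℕ} (hp : p.Prime)
    (hpT : (p : ℝ) ≤ T) :
    yp (1 / 2 + z / Real.log T : ℂ).re (1 / 2) p ^ 2 ≤ 9 * (1 / (p : ℝ)) := by
  have hp0 : (0 : ℝ) < p := by exact_mod_cast hp.pos
  have h1 := yp_le hT hz hp hpT
  have h2 : ((p : ℝ) ^ (-(1 / 2) : ℝ)) ^ 2 = 1 / p := by
    rw [← Real.rpow_natCast, ← Real.rpow_mul hp0.le]
    norm_num
    rw [Real.rpow_neg_one]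
  have h3 := exp_one_le
  have h4 := Real.exp_pos 1
  calc yp (1 / 2 + z / Real.log T : ℂ).re (1 / 2) p ^ 2
      ≤ (Real.exp 1 * (p : ℝ) ^ (-(1 / 2) : ℝ)) ^ 2 :=
        pow_le_pow_left₀ (yp_nonneg _ _ _) h1 2
    _ = Real.exp 1 ^ 2 * (1 / p) := by rw [mul_pow, h2]
    _ ≤ 9 * (1 / (p : ℝ)) := by
        apply mul_le_mul_of_nonneg_right _ (by positivity)
        nlinarith

/-- A block of large primes: the fourth power of the Euler product against the exponential of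
the prime sum. -/
lemma block : ∃ C : ℝ, 0 ≤ C ∧ ∀ (T : ℝ) (S : Finset ℕ) (z : ℂ) (B : ℝ), 8 ≤ Real.log T →
    1 < T → -1 ≤ z.re → (∀ p ∈ S, p.Prime ∧ (16 : ℝ) ≤ p ∧ (p : ℝ) ≤ T) →
    ∑ p ∈ S, 1 / (p : ℝ) ≤ B →
    Integrable (fun ω : S → ℝ => ‖ZZ S (tw (1 / 2 + z / Real.log T) (ext S ω))‖ ^ 4 *
      Real.exp (2 * |(∑ p ∈ S, tw (1 / 2) (ext S ω) p).re|)) (Measure.pi fun _ => mu0) ∧
    ES S (fun f => ‖ZZ S (tw (1 / 2 + z / Real.log T) f)‖ ^ 4 *
      Real.exp (2 * |(∑ p ∈ S, tw (1 / 2) f p).re|)) ≤ 16 * Real.exp (C * B) := by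
  obtain ⟨C, hC, h⟩ := ES_exp_norm (q := 1) zero_le_one
  refine ⟨9 * C, by positivity, fun T S z B hL8 hT hz hS hB => ?_⟩
  have hL : 0 < Real.log T := by linarith
  have hre : 0 < (1 / 2 + z / Real.log T : ℂ).re := by
    rw [re_w]
    have : -(1 / 8) ≤ z.re / Real.log T := by
      rw [le_div_iff₀ hL]; nlinarith
    linarith
  have hprime : ∀ p ∈ S, p.Prime := fun p hp => (hS p hp).1
  have h1 := h 1 2 S (1 / 2 + z / Real.log T) (1 / 2) le_rfl le_rfl hre hprime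
    (fun p hp => yp_le' hT hz (hS p hp).1 (hS p hp).2.2 (hS p hp).2.1)
  have hhalf : (((1 / 2 : ℝ) : ℝ) : ℂ) = 1 / 2 := by push_cast; ring
  simp only [hhalf, Pj_one, one_mul] at h1
  have hsum : ∑ p ∈ S, yp (1 / 2 + z / Real.log T : ℂ).re (1 / 2) p ^ 2 ≤ 9 * B := by
    calc ∑ p ∈ S, yp (1 / 2 + z / Real.log T : ℂ).re (1 / 2) p ^ 2
        ≤ ∑ p ∈ S, 9 * (1 / (p : ℝ)) :=
          Finset.sum_le_sum fun p hp => yp_sq_le hT hz (hS p hp).1 (hS p hp).2.2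
      _ = 9 * ∑ p ∈ S, 1 / (p : ℝ) := by rw [Finset.mul_sum]
      _ ≤ 9 * B := by linarith
  have hbsum : BS S (fun f => ∑ p ∈ S, tw (1 / 2) f p) := bs_sum _ fun p _ => bs_tw S _ p
  have i1 : Integrable (fun ω : S → ℝ => ‖ZZ S (tw (1 / 2 + z / Real.log T) (ext S ω)) ^ 2‖ ^ 2 *
      Real.exp ‖∑ p ∈ S, tw (1 / 2) (ext S ω) p‖ ^ 2) (Measure.pi fun _ => mu0) := by
    have b1 := ((bs_ZZ (S := S) hprime hre).pow 2).norm_sq
    have b2 := hbsum.exp_norm 2 (by norm_num)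
    refine (b1.mul_real b2).integrable.congr (Filter.Eventually.of_forall fun ω => ?_)
    simp only
    rw [two_mul, Real.exp_add, ← pow_two]
  have hpt : ∀ ω : S → ℝ, ‖ZZ S (tw (1 / 2 + z / Real.log T) (ext S ω))‖ ^ 4 *
      Real.exp (2 * |(∑ p ∈ S, tw (1 / 2) (ext S ω) p).re|) ≤
      ‖ZZ S (tw (1 / 2 + z / Real.log T) (ext S ω)) ^ 2‖ ^ 2 *
      Real.exp ‖∑ p ∈ S, tw (1 / 2) (ext S ω) p‖ ^ 2 := by
    intro ω
    rw [norm_pow, ← pow_mul, ← Real.exp_nat_mul]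
    apply mul_le_mul_of_nonneg_left _ (by positivity)
    apply Real.exp_le_exp.mpr
    push_cast
    have := Complex.abs_re_le_norm (∑ p ∈ S, tw (1 / 2) (ext S ω) p)
    linarith
  constructor
  · refine i1.mono' ?_ (Filter.Eventually.of_forall fun ω => ?_)
    · have c1 : Continuous fun ω : S → ℝ => ‖ZZ S (tw (1 / 2 + z / Real.log T) (ext S ω))‖ ^ 4 :=
        ((bs_ZZ (S := S) hprime hre).1.norm.pow 4)
      have c2 : Continuous fun ω : S → ℝ =>
          Real.exp (2 * |(∑ p ∈ S, tw (1 / 2) (ext S ω) p).re|) :=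
        Real.continuous_exp.comp (continuous_const.mul
          (continuous_abs.comp (Complex.continuous_re.comp hbsum.1)))
      exact (c1.mul c2).aestronglyMeasurable
    · rw [Real.norm_eq_abs, abs_of_nonneg (by positivity)]
      exact hpt ω
  · refine (ES_mono (fun ω => by positivity) i1 hpt).trans (h1.trans ?_)
    apply mul_le_mul_of_nonneg_left _ (by norm_num)
    apply Real.exp_le_exp.mpr
    calc C * ∑ p ∈ S, yp (1 / 2 + z / Real.log T : ℂ).re (1 / 2) p ^ 2 ≤ C * (9 * B) :=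
          mul_le_mul_of_nonneg_left hsum hC
      _ = 9 * C * B := by ring

/-! ### the fourth moment of a block is at least one -/

lemma ES_ZZ_sq {S : Finset ℕ} {w : ℂ} (hS : ∀ p ∈ S, p.Prime)
    (hw : ∀ p ∈ S, (p : ℝ) ^ (-w.re) ≤ 3 / 4) :
    ES S (fun f => ZZ S (tw w f) ^ 2) = 1 := by
  have e : ∀ f : ℕ → ℂ, ZZ S (tw w f) ^ 2 = ∏ p ∈ S, ((1 - (p : ℂ) ^ (-w) * f p) ^ 2)⁻¹ := by
    intro f
    rw [ZZ, ← Finset.prod_pow]
    refine Finset.prod_congr rfl fun p _ => ?_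
    simp only [tw, inv_pow]
  simp only [e]
  rw [ES_prod S (fun p z => ((1 - (p : ℂ) ^ (-w) * z) ^ 2)⁻¹)]
  apply Finset.prod_eq_one
  intro p hp
  have h1 : ‖(p : ℂ) ^ (-w)‖ ≤ 3 / 4 := by
    rw [norm_natCast_cpow_of_pos (hS p hp).pos]
    simpa using hw p hp
  set x : ℂ := (p : ℂ) ^ (-w)
  have h3 : DifferentiableOn ℂ (fun z : ℂ => ((1 - x * z) ^ 2)⁻¹) (Metric.ball 0 (5 / 4)) := by
    intro z hz
    have hz' : ‖z‖ < 5 / 4 := by simpa using hz
    have hne : (1 - x * z) ^ 2 ≠ 0 := by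
      apply pow_ne_zero
      intro h
      have h4 : ‖x * z‖ = 1 := by rw [← sub_eq_zero.mp h]; simp
      rw [norm_mul] at h4
      nlinarith [norm_nonneg z, norm_nonneg x]
    have h6 : DifferentiableAt ℂ (fun z : ℂ => (1 - x * z) ^ 2) z := by fun_prop
    exact (h6.fun_inv hne).differentiableWithinAt
  have h5 : DiffContOnCl ℂ (fun z : ℂ => ((1 - x * z) ^ 2)⁻¹) (Metric.ball 0 |(1 : ℝ)|) := by
    rw [abs_one]
    apply DifferentiableOn.diffContOnCl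
    apply h3.mono
    rw [closure_ball _ one_ne_zero]
    intro z hz
    simp only [Metric.mem_closedBall, dist_zero_right, Metric.mem_ball] at hz ⊢
    linarith
  rw [h5.circleAverage]
  simp

lemma one_le_ES {S : Finset ℕ} {w : ℂ} (hS : ∀ p ∈ S, p.Prime) (hw0 : 0 < w.re)
    (hw : ∀ p ∈ S, (p : ℝ) ^ (-w.re) ≤ 3 / 4) :
    1 ≤ ES S (fun f => ‖ZZ S (tw w f)‖ ^ 4) := by
  have b := (bs_ZZ (S := S) hS hw0).pow 2
  have i1 := b.integrable
  have i2 := b.norm_sq.integrable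
  have e1 : ES S (fun f => ‖ZZ S (tw w f)‖ ^ 4) = ES S (fun f => ‖ZZ S (tw w f) ^ 2‖ ^ 2) := by
    congr 1
    funext f
    rw [norm_pow, ← pow_mul]
  have e2 : ES S (fun f => 2 * (ZZ S (tw w f) ^ 2).re - 1) = 1 := by
    have i3 : Integrable (fun ω : S → ℝ => (ZZ S (tw w (ext S ω)) ^ 2).re)
        (Measure.pi fun _ => mu0) := i1.re
    unfold ES
    rw [integral_sub (i3.const_mul 2) (integrable_const _), integral_const_mul]
    have h1 := ES_ZZ_sq hS hw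
    unfold ES at h1
    have h2 := integral_re i1
    have h3 : ∫ ω : S → ℝ, (ZZ S (tw w (ext S ω)) ^ 2).re ∂(Measure.pi fun _ => mu0) = 1 := by
      have h4 : ∫ ω : S → ℝ, (ZZ S (tw w (ext S ω)) ^ 2).re ∂(Measure.pi fun _ => mu0) =
          (∫ ω : S → ℝ, (ZZ S (tw w (ext S ω)) ^ 2) ∂(Measure.pi fun _ => mu0)).re := h2
      rw [h4, h1, one_re]
    rw [h3]
    simp
    norm_num
  rw [e1, ← e2]
  unfold ES
  apply integral_mono _ i2
  · intro ω
    simp only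
    have h1 : (ZZ S (tw w (ext S ω)) ^ 2).re ≤ ‖ZZ S (tw w (ext S ω)) ^ 2‖ := re_le_norm _
    nlinarith [sq_nonneg (‖ZZ S (tw w (ext S ω)) ^ 2‖ - 1)]
  · exact ((i1.re).const_mul 2).sub (integrable_const _)

/-! ### sums over the top blocks -/

lemma sum_UQ {C₂ : ℝ} (h2 : ∀ y x : ℝ, 2 ≤ y → y ≤ x →
    |∑ p ∈ PS y x, (1 : ℝ) / p - Real.log (Real.log x / Real.log y)| ≤ C₂ / Real.log y)
    {T : ℝ} {M i : ℕ} (hM : 7 ≤ M) (hT : 1 < T) (hi : i < M - 6)
    (hL : max C₂ 4 ≤ Real.exp (-(M : ℝ)) * Real.log T) :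
    ∑ p ∈ UQ T i, 1 / (p : ℝ) ≤ 2 ∧ Real.exp 4 ≤ Real.exp (tq (i + 1) * Real.log T) := by
  have hL0 : 0 < Real.log T := Real.log_pos hT
  have h3 : Real.exp (-(M : ℝ)) ≤ tq (i + 1) := by
    rw [← Blk7.tq_last hM]
    exact Blk7.tq_anti (by omega)
  have h4 : max C₂ 4 ≤ tq (i + 1) * Real.log T :=
    hL.trans (mul_le_mul_of_nonneg_right h3 hL0.le)
  have h5 : 4 ≤ tq (i + 1) * Real.log T := (le_max_right _ _).trans h4
  have h6 : C₂ ≤ tq (i + 1) * Real.log T := (le_max_left _ _).trans h4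
  have h7 : Real.exp 4 ≤ Real.exp (tq (i + 1) * Real.log T) := Real.exp_le_exp.mpr h5
  have h8 : (2 : ℝ) ≤ Real.exp 4 := by
    have := Real.add_one_le_exp (4 : ℝ)
    linarith
  refine ⟨?_, h7⟩
  have h9 := h2 _ _ (h8.trans h7) (Blk7.bd_mono hT (Nat.le_succ i))
  rw [Real.log_exp, Real.log_exp, mul_div_mul_right _ _ hL0.ne', Blk7.log_tq] at h9
  have h10 : C₂ / (tq (i + 1) * Real.log T) ≤ 1 := by
    rw [div_le_one (by linarith)]; exact h6
  have h11 := (abs_le.mp h9).2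
  have h12 := (Vv_mem i).2
  unfold UQ
  linarith

lemma sum_last {C₂ : ℝ} (h2 : ∀ y x : ℝ, 2 ≤ y → y ≤ x →
    |∑ p ∈ PS y x, (1 : ℝ) / p - Real.log (Real.log x / Real.log y)| ≤ C₂ / Real.log y)
    {T : ℝ} {M : ℕ} (hM : 7 ≤ M) (hT : 1 < T)
    (hL : max C₂ 4 ≤ Real.exp (-(M : ℝ)) * Real.log T) :
    ∑ p ∈ PS (Real.exp (tq 0 * Real.log T)) T, 1 / (p : ℝ) ≤ 8 ∧
      Real.exp 4 ≤ Real.exp (tq 0 * Real.log T) := by
  have hL0 : 0 < Real.log T := Real.log_pos hT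
  have h3 : Real.exp (-(M : ℝ)) ≤ tq 0 := by
    rw [← Blk7.tq_last hM]
    exact Blk7.tq_anti (by omega)
  have h4 : max C₂ 4 ≤ tq 0 * Real.log T :=
    hL.trans (mul_le_mul_of_nonneg_right h3 hL0.le)
  have h5 : 4 ≤ tq 0 * Real.log T := (le_max_right _ _).trans h4
  have h6 : C₂ ≤ tq 0 * Real.log T := (le_max_left _ _).trans h4
  have h7 : Real.exp 4 ≤ Real.exp (tq 0 * Real.log T) := Real.exp_le_exp.mpr h5
  have h8 : (2 : ℝ) ≤ Real.exp 4 := by
    have := Real.add_one_le_exp (4 : ℝ)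
    linarith
  refine ⟨?_, h7⟩
  have h9 := h2 _ _ (h8.trans h7) (Blk7.bd_le hT)
  have e1 : Real.log T / (tq 0 * Real.log T) = (tq 0)⁻¹ := by
    have := (Blk7.tq_pos 0).ne'
    field_simp
  have e2 : Real.log (tq 0)⁻¹ ≤ 7 := by
    rw [Real.log_inv]
    unfold tq tb
    rw [if_pos rfl, ← Real.exp_add, Real.log_exp]
    norm_num
  rw [Real.log_exp, e1] at h9
  have h10 : C₂ / (tq 0 * Real.log T) ≤ 1 := by
    rw [div_le_one (by linarith)]; exact h6
  have h11 := (abs_le.mp h9).2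
  linarith

/-! ### the bottom blocks -/

lemma bottom {T : ℝ} {M : ℕ} (hT : 1 < T) (k : ℝ) (g h : Finset ℕ) {w : ℂ} (hw0 : 0 < w.re)
    (hw : ∀ p ∈ Sj T M (JJ T) (JJ T + 1), (p : ℝ) ^ (-w.re) ≤ 3 / 4) :
    ∏ j ∈ Finset.range (JJ T + 1), ES (Sj T M (JJ T) j) (fun f =>
        ‖ZZ (Sj T M (JJ T) j) (tw w f)‖ ^ 4 * ‖Fc T M (JJ T) k g h j (tw (1 / 2) f)‖ ^ 2) ≤
      ER (SB T M (JJ T)) (fun f => ‖ZZ (UU (SB T M (JJ T))) (tw w f)‖ ^ 4 *
        ‖AA T M (JJ T) k g h (tw (1 / 2) f)‖ ^ 2) := by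
  set J := JJ T with hJ
  set Φ : ℕ → (ℕ → ℂ) → ℝ := fun j f => ‖ZZ (Sj T M J j) (tw w f)‖ ^ 4 *
    (if j < J + 1 then ‖Fc T M J k g h j (tw (1 / 2) f)‖ ^ 2 else 1) with hΦ
  have e1 : ∀ f : ℕ → ℂ, ‖ZZ (UU (SB T M J)) (tw w f)‖ ^ 4 *
      ‖AA T M J k g h (tw (1 / 2) f)‖ ^ 2 = ∏ j ∈ Finset.range (J + 2), Φ j f := by
    intro f
    simp only [hΦ]
    rw [ZZ_UU hT, AA, Finset.prod_mul_distrib, norm_prod, norm_prod, Finset.prod_pow]
    congr 1
    rw [Finset.prod_range_succ _ (J + 1), if_neg (lt_irrefl _), mul_one, ← Finset.prod_pow]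
    refine Finset.prod_congr rfl fun j hj => ?_
    rw [if_pos (Finset.mem_range.mp hj)]
  simp only [e1]
  rw [ER_prod' hT M J Φ (by
    intro j f f' hf
    simp only [hΦ]
    rw [ZZ_dep (w := w) hf, Fc_dep (w := 1 / 2) hf])]
  have hA0 : 0 ≤ ∏ j ∈ Finset.range (J + 1), ES (Sj T M J j) (Φ j) :=
    Finset.prod_nonneg fun j _ => ES_nonneg fun ω => by
      simp only [hΦ]
      split_ifs <;> positivity
  have e2 : ∏ j ∈ Finset.range (J + 1), ES (Sj T M J j) (fun f =>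
        ‖ZZ (Sj T M J j) (tw w f)‖ ^ 4 * ‖Fc T M J k g h j (tw (1 / 2) f)‖ ^ 2) =
      ∏ j ∈ Finset.range (J + 1), ES (Sj T M J j) (Φ j) := by
    refine Finset.prod_congr rfl fun j hj => ?_
    congr 1
    funext f
    simp only [hΦ]
    rw [if_pos (Finset.mem_range.mp hj)]
  have e3 : ES (Sj T M J (J + 1)) (Φ (J + 1)) =
      ES (Sj T M J (J + 1)) (fun f => ‖ZZ (Sj T M J (J + 1)) (tw w f)‖ ^ 4) := by
    congr 1
    funext f
    simp only [hΦ]
    rw [if_neg (lt_irrefl _), mul_one]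
  rw [e2, Finset.prod_range_succ _ (J + 1), e3]
  have h1 := one_le_ES (S := Sj T M J (J + 1)) (w := w) (fun p hp => prime_Sj hT hp) hw0 hw
  exact le_mul_of_one_le_right hA0 h1

end RandWm

open RandWm

/-- (R13) fourth power of the Euler product against our weights -/
theorem stRandW (h : F4.StRand4) : StRandW := by
  obtain ⟨C₁, M₁, h⟩ := h
  obtain ⟨C₃, hC₃, hblk⟩ := block
  obtain ⟨C₂, hC₂, hpr⟩ := sum_inv_range
  intro κ hκ0 hκ1
  -- the constant of a top block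
  set D : ℝ := (1 + 1 / κ) * Real.exp 4 * (16 * Real.exp (C₃ * 2)) with hD
  set E : ℝ := 16 * Real.exp (C₃ * 8) with hE
  have hD1 : 1 ≤ D := by
    have a1 : 1 ≤ 1 + 1 / κ := by
      have : 0 ≤ 1 / κ := by positivity
      linarith
    have a2 : 1 ≤ Real.exp 4 := Real.one_le_exp (by norm_num)
    have a3 : 1 ≤ Real.exp (C₃ * 2) := Real.one_le_exp (by positivity)
    have a4 : 1 ≤ 16 * Real.exp (C₃ * 2) := by linarith
    have a5 : 1 ≤ (1 + 1 / κ) * Real.exp 4 := one_le_mul_of_one_le_of_one_le a1 a2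
    exact one_le_mul_of_one_le_of_one_le a5 a4
  have hE1 : 1 ≤ E := by
    have a3 : 1 ≤ Real.exp (C₃ * 8) := Real.one_le_exp (by positivity)
    rw [hE]; linarith
  set C : ℕ := C₁ + ⌈Real.log D⌉₊ + ⌈Real.log E⌉₊ with hCdef
  refine ⟨C, max M₁ 7, fun M hM => ?_⟩
  have hM1 : M₁ ≤ M := (le_max_left _ _).trans hM
  have hM7 : 7 ≤ M := (le_max_right _ _).trans hM
  have hM7' : (7 : ℝ) ≤ M := by exact_mod_cast hM7
  obtain ⟨T₁, hT₁3, h⟩ := h M hM1
  refine ⟨max T₁ (Real.exp (Real.exp (M : ℝ) * max C₂ 8)), hT₁3.trans (le_max_left _ _),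
    fun T hT g h' hgh z hz => ?_⟩
  have hTT : T₁ ≤ T := (le_max_left _ _).trans hT
  have hT3 : 3 ≤ T := hT₁3.trans hTT
  have hT1 : 1 < T := by linarith
  have hT0 : 0 < T := by linarith
  have hL0 : 0 < Real.log T := Real.log_pos hT1
  have hLbig : Real.exp (M : ℝ) * max C₂ 8 ≤ Real.log T := by
    rw [Real.le_log_iff_exp_le hT0]; exact (le_max_right _ _).trans hT
  have hLM : max C₂ 8 ≤ Real.exp (-(M : ℝ)) * Real.log T := by
    have a1 := mul_le_mul_of_nonneg_left hLbig (Real.exp_pos (-(M : ℝ))).le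
    rwa [← mul_assoc, ← Real.exp_add, neg_add_cancel, Real.exp_zero, one_mul] at a1
  have hLM4 : max C₂ 4 ≤ Real.exp (-(M : ℝ)) * Real.log T :=
    (max_le_max le_rfl (by norm_num)).trans hLM
  have hL8 : 8 ≤ Real.log T := by
    have a1 : (8 : ℝ) ≤ Real.exp (-(M : ℝ)) * Real.log T := (le_max_right _ _).trans hLM
    have a2 : Real.exp (-(M : ℝ)) ≤ 1 := Real.exp_le_one_iff.mpr (by linarith)
    nlinarith
  have he16 : (16 : ℝ) ≤ Real.exp 4 := by
    have a1 : Real.exp 4 = Real.exp 1 ^ 4 := by rw [← Real.exp_nat_mul]; norm_num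
    have a2 : (2 : ℝ) ≤ Real.exp 1 := by linarith [Real.exp_one_gt_d9]
    rw [a1]
    calc (16 : ℝ) = 2 ^ 4 := by norm_num
      _ ≤ Real.exp 1 ^ 4 := pow_le_pow_left₀ (by norm_num) a2 4
  set w : ℂ := 1 / 2 + z / Real.log T with hw
  have hwre : 0 < w.re := by
    rw [hw, re_w]
    have : -(1 / 8) ≤ z.re / Real.log T := by
      rw [le_div_iff₀ hL0]; nlinarith
    linarith
  set S₀ := PS (Real.exp (tq 0 * Real.log T)) T with hS₀
  -- factorisation
  set A : ℕ → (ℕ → ℂ) → ℝ := fun j f => ‖ZZ (Sj T M (JJ T) j) (tw w f)‖ ^ 4 *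
    ‖Fc T M (JJ T) (κ - 1) g h' j (tw (1 / 2) f)‖ ^ 2 with hA
  set B : ℕ → (ℕ → ℂ) → ℝ := fun i f => ‖ZZ (UQ T i) (tw w f)‖ ^ 4 *
    pf κ i (Xq T i (tw (1 / 2) f) - Vv i) with hB
  set F : (ℕ → ℂ) → ℝ := fun f => ‖ZZ S₀ (tw w f)‖ ^ 4 with hF
  have e1 : ER (SBq T M) (fun f => ‖ZZ (PS 0 T) (tw w f)‖ ^ 4 * WF κ T M g h' (tw (1 / 2) f)) =
      ER (SBq T M) (fun f => (∏ j ∈ Finset.range (JJ T + 1), A j f) *
        (∏ i ∈ Finset.range (M - 6), B i f) * F f) := by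
    congr 1
    funext f
    have hU : PS 0 T = UU (SBq T M) := by
      ext p
      rw [mem_PS le_rfl hT0.le, mem_UU]
      constructor
      · rintro ⟨a1, _, a3⟩
        obtain ⟨j, hj, hpj⟩ := Blk7.exists_BBq (M := M) hT1 hM7 a1 a3
        exact ⟨⟨j, hj⟩, hpj⟩
      · rintro ⟨j, hj⟩
        change p ∈ BBq T M j at hj
        have a1 := Blk7.BBq_prime hT1 hj
        refine ⟨a1, by exact_mod_cast a1.pos, ?_⟩
        by_cases b1 : (j : ℕ) ≤ JJ T
        · rw [Blk7.BBq_bot b1] at hj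
          have c1 := (Blk7.mem_bot hT1 b1 hj).2
          have c2 : Real.exp (Real.exp (-(M : ℝ)) * Real.log T) ≤ T := by
            rw [← Blk7.tq_last hM7]
            exact (Blk7.bd_mono hT1 (Nat.zero_le _)).trans (Blk7.bd_le hT1)
          exact c1.trans c2
        · by_cases b2 : (j : ℕ) ≤ JJ T + (M - 6)
          · rw [Blk7.BBq_mid b1 b2] at hj
            have c1 := (Blk7.mem_UQ.mp hj).2.2
            exact c1.trans ((Blk7.bd_mono hT1 (Nat.zero_le _)).trans (Blk7.bd_le hT1))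
          · rw [Blk7.BBq_top b1 b2] at hj
            exact ((Blk7.mem_top hT1).mp hj).2.2
    rw [WF, FactM.norm_AA_sq, TFq, hU]
    unfold ZZ
    rw [Blk7.prod_UU_SBq hT1 hM7]
    simp only [hA, hB, hF, ZZ, Finset.prod_mul_distrib, norm_mul, norm_prod, Finset.prod_pow,
      mul_pow, ← hS₀]
    ring
  rw [e1, Blk7.fact_gen hT1 hM7 A B F (by
      intro j f f' hf
      simp only [hA]
      rw [ZZ_dep (w := w) hf, Fc_dep (w := 1 / 2) hf]) (by
      intro i f f' hf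
      simp only [hB]
      rw [ZZ_dep (w := w) hf, Blk7.Xq_dep hf]) (by
      intro f f' hf
      simp only [hF]
      rw [ZZ_dep (w := w) hf])]
  -- the bottom blocks
  have hbot : ∏ j ∈ Finset.range (JJ T + 1), ES (Sj T M (JJ T) j) (A j) ≤
      Real.exp (C₁ * M) * (1 + ‖z‖) ^ C₁ * Real.log T ^ ((1 + κ) ^ 2) *
        ∏ j ∈ h', ss M (JJ T) j := by
    have a1 := h T hTT (1 + κ) (by linarith) (by linarith) g h' hgh z hz
    rw [show 1 + κ - 2 = κ - 1 by ring] at a1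
    refine le_trans ?_ a1
    refine bottom hT1 (κ - 1) g h' hwre fun p hp => ?_
    have a2 := (mem_Sj hT1).mp hp
    have a3 : yy T M (JJ T) (JJ T + 1) = Real.exp (Real.exp (-(M : ℝ)) * Real.log T) := by
      rw [yy, if_neg (by omega), if_pos le_rfl, show JJ T + 1 - 1 = JJ T by omega, bet]
      congr 3
      ring
    have a4 : (p : ℝ) ≤ T := by
      have := a2.2.2
      rwa [show JJ T + 1 + 1 = JJ T + 2 by ring, yy_last] at this
    have a5 : (16 : ℝ) ≤ p := by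
      have b1 := a2.2.1
      rw [a3] at b1
      have b2 : Real.exp 4 ≤ Real.exp (Real.exp (-(M : ℝ)) * Real.log T) :=
        Real.exp_le_exp.mpr ((le_max_right _ _).trans hLM4)
      linarith
    exact (le_max_left _ _).trans (yp_le' hT1 hz a2.1 a4 a5)
  have hbot0 : 0 ≤ ∏ j ∈ Finset.range (JJ T + 1), ES (Sj T M (JJ T) j) (A j) :=
    Finset.prod_nonneg fun j _ => ES_nonneg fun ω => by
      simp only [hA]; positivity
  -- the top blocks
  have htop : |∏ i ∈ Finset.range (M - 6), ES (UQ T i) (B i)| ≤ D ^ M := by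
    rw [Finset.abs_prod]
    have a1 : ∏ i ∈ Finset.range (M - 6), |ES (UQ T i) (B i)| ≤
        ∏ _i ∈ Finset.range (M - 6), D := by
      refine Finset.prod_le_prod (fun i _ => abs_nonneg _) fun i hi => ?_
      have hi' := Finset.mem_range.mp hi
      obtain ⟨b1, b2⟩ := sum_UQ hpr hM7 hT1 hi' hLM4
      obtain ⟨c1, c2⟩ := hblk T (UQ T i) z 2 hL8 hT1 hz (by
        intro p hp
        have d1 := Blk7.mem_UQ.mp hp
        refine ⟨d1.1, by linarith [d1.2.1], ?_⟩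
        exact d1.2.2.trans ((Blk7.bd_mono hT1 (Nat.zero_le _)).trans (Blk7.bd_le hT1))) b1
      have d2 : |ES (UQ T i) (B i)| ≤ ∫ ω : UQ T i → ℝ, ((1 + 1 / κ) * Real.exp 4) *
          (‖ZZ (UQ T i) (tw w (ext (UQ T i) ω))‖ ^ 4 *
          Real.exp (2 * |(∑ p ∈ UQ T i, tw (1 / 2) (ext (UQ T i) ω) p).re|))
          ∂(Measure.pi fun _ => mu0) := by
        rw [← Real.norm_eq_abs]
        unfold ES
        refine norm_integral_le_of_norm_le (c1.const_mul _) (Filter.Eventually.of_forall fun ω => ?_)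
        simp only [hB]
        rw [norm_mul, Real.norm_eq_abs, Real.norm_eq_abs, abs_of_nonneg (by positivity)]
        have e2 := pf_le hκ0 hκ1 i (Xq T i (tw (1 / 2) (ext (UQ T i) ω)))
        have e3 : Xq T i (tw (1 / 2) (ext (UQ T i) ω)) =
          (∑ p ∈ UQ T i, tw (1 / 2) (ext (UQ T i) ω) p).re := rfl
        rw [e3] at e2 ⊢
        calc ‖ZZ (UQ T i) (tw w (ext (UQ T i) ω))‖ ^ 4 *
              |pf κ i ((∑ p ∈ UQ T i, tw (1 / 2) (ext (UQ T i) ω) p).re - Vv i)|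
            ≤ ‖ZZ (UQ T i) (tw w (ext (UQ T i) ω))‖ ^ 4 * ((1 + 1 / κ) * Real.exp 4 *
              Real.exp (2 * |(∑ p ∈ UQ T i, tw (1 / 2) (ext (UQ T i) ω) p).re|)) :=
              mul_le_mul_of_nonneg_left e2 (by positivity)
          _ = _ := by ring
      refine d2.trans ?_
      rw [integral_const_mul, hD]
      apply mul_le_mul_of_nonneg_left _ (by positivity)
      exact c2
    refine a1.trans ?_
    rw [Finset.prod_const, Finset.card_range]
    exact pow_le_pow_right₀ hD1 (by omega)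
  -- the last block
  obtain ⟨s1, s2⟩ := sum_last hpr hM7 hT1 hLM4
  have hS₀m : ∀ p ∈ S₀, p.Prime ∧ (16 : ℝ) ≤ p ∧ (p : ℝ) ≤ T := by
    intro p hp
    have d1 := (Blk7.mem_top hT1).mp hp
    exact ⟨d1.1, by linarith [d1.2.1], d1.2.2⟩
  have hlast : ES S₀ F ≤ E := by
    obtain ⟨c1, c2⟩ := hblk T S₀ z 8 hL8 hT1 hz hS₀m s1
    refine le_trans (ES_mono (fun ω => by simp only [hF]; positivity) c1 fun ω => ?_) c2
    simp only [hF]
    exact le_mul_of_one_le_right (by positivity) (Real.one_le_exp (by positivity))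
  have hlast0 : 0 ≤ ES S₀ F := ES_nonneg fun ω => by simp only [hF]; positivity
  -- conclusion
  have hss : 0 ≤ ∏ j ∈ h', ss M (JJ T) j := Finset.prod_nonneg fun j _ => (Real.exp_pos _).le
  have hLk : 0 ≤ Real.log T ^ ((1 + κ) ^ 2) := Real.rpow_nonneg hL0.le _
  have hz1 : 1 ≤ 1 + ‖z‖ := by linarith [norm_nonneg z]
  have hDM : D ^ M ≤ Real.exp ((⌈Real.log D⌉₊ : ℝ) * M) := by
    have a1 : D = Real.exp (Real.log D) := (Real.exp_log (by linarith)).symm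
    calc D ^ M = Real.exp (Real.log D) ^ M := by rw [← a1]
      _ = Real.exp (M * Real.log D) := by rw [← Real.exp_nat_mul]
      _ ≤ Real.exp ((⌈Real.log D⌉₊ : ℝ) * M) := by
          apply Real.exp_le_exp.mpr
          rw [mul_comm]
          exact mul_le_mul_of_nonneg_right (Nat.le_ceil _) (by positivity)
  have hEM : E ≤ Real.exp ((⌈Real.log E⌉₊ : ℝ) * M) := by
    have a1 : E = Real.exp (Real.log E) := (Real.exp_log (by linarith)).symm
    rw [a1, Real.log_exp]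
    apply Real.exp_le_exp.mpr
    have a2 := Nat.le_ceil (Real.log E)
    have a3 : (0 : ℝ) ≤ (⌈Real.log E⌉₊ : ℝ) := Nat.cast_nonneg _
    nlinarith
  have hfin : (∏ j ∈ Finset.range (JJ T + 1), ES (Sj T M (JJ T) j) (A j)) *
      (∏ i ∈ Finset.range (M - 6), ES (UQ T i) (B i)) * ES S₀ F ≤
      (Real.exp (C₁ * M) * (1 + ‖z‖) ^ C₁ * Real.log T ^ ((1 + κ) ^ 2) *
        ∏ j ∈ h', ss M (JJ T) j) * Real.exp ((⌈Real.log D⌉₊ : ℝ) * M) *
        Real.exp ((⌈Real.log E⌉₊ : ℝ) * M) := by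
    have b1 : (∏ j ∈ Finset.range (JJ T + 1), ES (Sj T M (JJ T) j) (A j)) *
        (∏ i ∈ Finset.range (M - 6), ES (UQ T i) (B i)) ≤
        (Real.exp (C₁ * M) * (1 + ‖z‖) ^ C₁ * Real.log T ^ ((1 + κ) ^ 2) *
        ∏ j ∈ h', ss M (JJ T) j) * Real.exp ((⌈Real.log D⌉₊ : ℝ) * M) := by
      calc (∏ j ∈ Finset.range (JJ T + 1), ES (Sj T M (JJ T) j) (A j)) *
          (∏ i ∈ Finset.range (M - 6), ES (UQ T i) (B i))
          ≤ (∏ j ∈ Finset.range (JJ T + 1), ES (Sj T M (JJ T) j) (A j)) *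
            |∏ i ∈ Finset.range (M - 6), ES (UQ T i) (B i)| :=
            mul_le_mul_of_nonneg_left (le_abs_self _) hbot0
        _ ≤ _ := mul_le_mul hbot (htop.trans hDM) (abs_nonneg _) (by positivity)
    calc _ ≤ ((Real.exp (C₁ * M) * (1 + ‖z‖) ^ C₁ * Real.log T ^ ((1 + κ) ^ 2) *
        ∏ j ∈ h', ss M (JJ T) j) * Real.exp ((⌈Real.log D⌉₊ : ℝ) * M)) * ES S₀ F :=
          mul_le_mul_of_nonneg_right b1 hlast0
      _ ≤ _ := mul_le_mul_of_nonneg_left (hlast.trans hEM) (by positivity)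
  refine hfin.trans ?_
  have e5 : (Real.exp (C₁ * M) * (1 + ‖z‖) ^ C₁ * Real.log T ^ ((1 + κ) ^ 2) *
        ∏ j ∈ h', ss M (JJ T) j) * Real.exp ((⌈Real.log D⌉₊ : ℝ) * M) *
        Real.exp ((⌈Real.log E⌉₊ : ℝ) * M) =
      Real.exp (C * M) * (1 + ‖z‖) ^ C₁ * Real.log T ^ ((1 + κ) ^ 2) *
        ∏ j ∈ h', ss M (JJ T) j := by
    have : Real.exp ((C : ℝ) * M) = Real.exp (C₁ * M) * Real.exp ((⌈Real.log D⌉₊ : ℝ) * M) *
        Real.exp ((⌈Real.log E⌉₊ : ℝ) * M) := by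
      rw [← Real.exp_add, ← Real.exp_add]
      congr 1
      rw [hCdef]
      push_cast
      ring
    rw [this]
    ring
  rw [e5]
  have hpow : (1 + ‖z‖) ^ C₁ ≤ (1 + ‖z‖) ^ C := pow_le_pow_right₀ hz1 (by omega)
  gcongr

end K7
end Pool.Agent.Lib.MP_973905_nt
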