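import Pool.Agent.Lib.MP_973905_nt.K7.Base
import Pool.Agent.Lib.MP_973905_nt.K4.Red

/-! Module (R1) of folder K7: the arithmetic factor as a double integral. -/

namespace Pool.Agent.Lib.MP_973905_nt
namespace K7

open MeasureTheory ProbabilityTheory Complex Filter Topology K1 K4 K5

namespace RepWM

open FourG (Cut gh gh_int SG)
open K4.Red (ER_SG qg_sum wx_eq zn_re)

variable {φ : ℝ → ℝ} {T : ℝ} {M : ℕ}

lemma un_eq (x ξ : ℝ) : un x ξ = K4.Red.zn x ξ := rfl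

lemma UU_SBq (hT : 1 < T) (hM : 7 ≤ M) : UU (SBq T M) = PS 0 T := by
  ext p
  rw [mem_UU, mem_PS le_rfl (by linarith)]
  constructor
  · rintro ⟨j, hj⟩
    change p ∈ BBq T M j at hj
    have hp := Blk7.BBq_prime hT hj
    refine ⟨hp, by exact_mod_cast hp.pos, ?_⟩
    by_cases h1 : (j : ℕ) ≤ JJ T
    · rw [Blk7.BBq_bot h1] at hj
      have h2 := (Blk7.mem_bot hT h1 hj).2
      have h3 := Blk7.bd_mono hT (Nat.zero_le (M - 6))
      rw [Blk7.tq_last hM] at h3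
      exact (h2.trans h3).trans (Blk7.bd_le hT)
    · by_cases h2 : (j : ℕ) ≤ JJ T + (M - 6)
      · rw [Blk7.BBq_mid h1 h2] at hj
        exact ((Blk7.mem_UQ.mp hj).2.2.trans (Blk7.bd_mono hT (Nat.zero_le _))).trans
          (Blk7.bd_le hT)
      · rw [Blk7.BBq_top h1 h2] at hj
        exact ((Blk7.mem_top hT).mp hj).2.2
  · rintro ⟨hp, _, hpT⟩
    obtain ⟨j, hj, hpj⟩ := Blk7.exists_BBq hT hM hp hpT
    exact ⟨⟨j, hj⟩, hpj⟩

/-- The product of the polynomial, its conjugate and the twist. -/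
lemma expand (ν : ℝ) (N : ℕ) (c : ℕ → ℕ → ℂ) {f : ℕ → ℂ} (hf : CMul f) :
    (∑ n ∈ Finset.Icc 1 ⌊T⌋₊, qg φ T ν n * tw (1 / 2) f n) *
      (starRingEnd ℂ) (∑ n ∈ Finset.Icc 1 ⌊T⌋₊, qg φ T ν n * tw (1 / 2) f n) *
      GB N c (tw (1 / 2) f) =
    ∑ d ∈ Finset.Icc 1 N, ∑ e ∈ Finset.Icc 1 N, ∑ m ∈ Finset.Icc 1 ⌊T⌋₊,
      ∑ n ∈ Finset.Icc 1 ⌊T⌋₊, (c d e * (qg φ T ν m * (starRingEnd ℂ) (qg φ T ν n) *
        ((m * d : ℕ) : ℂ) ^ (-(1 / 2 : ℂ)) * ((n * e : ℕ) : ℂ) ^ (-(1 / 2 : ℂ)))) *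
        (f (m * d) * (starRingEnd ℂ) (f (n * e))) := by
  rw [FactM.GB_tw, map_sum, Finset.sum_mul_sum, Finset.mul_sum]
  refine Finset.sum_congr rfl fun d hd => ?_
  rw [Finset.mul_sum]
  refine Finset.sum_congr rfl fun e he => ?_
  rw [Finset.sum_mul]
  refine Finset.sum_congr rfl fun m hm => ?_
  rw [Finset.sum_mul]
  refine Finset.sum_congr rfl fun n hn => ?_
  rw [Finset.mem_Icc] at hd he hm hn
  rw [hf.2 m d (by omega) (by omega), hf.2 n e (by omega) (by omega), Nat.cast_mul, Nat.cast_mul,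
    natCast_mul_natCast_cpow, natCast_mul_natCast_cpow]
  simp only [tw, map_mul, FactM.conj_half]
  ring

lemma bc_GB {r : ℕ} {Sb : Fin r → Finset ℕ} (N : ℕ) (c : ℕ → ℕ → ℂ) :
    BC Sb (fun f => GB N c (tw (1 / 2) f)) := by
  have hbc : BC Sb (fun f => ∑ m ∈ Finset.Icc 1 N, ∑ n ∈ Finset.Icc 1 N,
      (c m n * (m : ℂ) ^ (-(1 / 2 : ℂ)) * (n : ℂ) ^ (-(1 / 2 : ℂ))) *
        (f m * (starRingEnd ℂ) (f n))) :=
    bc_sum _ fun m _ => bc_sum _ fun n _ => ((bc_apply m).mul (bc_apply n).conj).const_mul _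
  exact F4.Main4.bc_congr hbc fun ω => (FactM.GB_tw N c _).symm

/-- The finite formula for the arithmetic factor. -/
lemma RW_eq (hT : 1 < T) (hM : 7 ≤ M) (ν : ℝ) {N : ℕ} (hN : (N : ℝ) ≤ T) (c : ℕ → ℕ → ℂ) {a : ℂ}
    (ha : -(1 / 2) < a.re) :
    ER (SBq T M) (fun f => ZZ (UU (SBq T M)) (tw (1 / 2 + a) f) *
      (starRingEnd ℂ) (ZZ (UU (SBq T M)) (tw (1 / 2 + (starRingEnd ℂ) a) f)) *
      ((∑ n ∈ Finset.Icc 1 ⌊T⌋₊, qg φ T ν n * tw (1 / 2) f n) *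
      (starRingEnd ℂ) (∑ n ∈ Finset.Icc 1 ⌊T⌋₊, qg φ T ν n * tw (1 / 2) f n) *
      GB N c (tw (1 / 2) f))) * ∏ p ∈ UU (SBq T M), (1 - (p : ℂ) ^ (-(1 + a + a))) =
      RW φ T ν N c a := by
  have hT0 : 0 < T := by linarith
  have hB := Blk7.blk_SBq hT hM
  have hw₁ : 0 < (1 / 2 + a : ℂ).re := by rw [add_re]; norm_num; linarith
  have hw₂ : 0 < ((starRingEnd ℂ) (1 / 2 + a : ℂ)).re := by rw [conj_re]; exact hw₁
  have e1 : 1 / 2 + (starRingEnd ℂ) a = (starRingEnd ℂ) (1 / 2 + a) := by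
    rw [map_add, map_div₀, map_one, map_ofNat]
  have hprime : ∀ p ∈ UU (SBq T M), p.Prime := fun p hp => prime_of_mem_UU hB hp
  have hmT : ∀ n ∈ Finset.Icc 1 ⌊T⌋₊, n ∈ Nat.factoredNumbers (UU (SBq T M)) := by
    intro n hn
    rw [Finset.mem_Icc] at hn
    exact Blk7.mem_factored_SBq hT hM hn.1 ((Nat.le_floor_iff hT0.le).mp hn.2)
  have hmN : ∀ n ∈ Finset.Icc 1 N, n ∈ Nat.factoredNumbers (UU (SBq T M)) := by
    intro n hn
    rw [Finset.mem_Icc] at hn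
    refine Blk7.mem_factored_SBq hT hM hn.1 ?_
    have : (n : ℝ) ≤ N := by exact_mod_cast hn.2
    exact this.trans hN
  rw [e1]
  set U := UU (SBq T M) with hU
  have hbc : ∀ m n : ℕ, BC (SBq T M) (fun f => ZZ U (tw (1 / 2 + a) f) *
      (starRingEnd ℂ) (ZZ U (tw ((starRingEnd ℂ) (1 / 2 + a)) f)) *
        (f m * (starRingEnd ℂ) (f n))) := fun m n =>
    ((bc_ZZ hprime hw₁).mul (bc_ZZ hprime hw₂).conj).mul ((bc_apply m).mul (bc_apply n).conj)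
  have e2 : ER (SBq T M) (fun f => ZZ U (tw (1 / 2 + a) f) *
      (starRingEnd ℂ) (ZZ U (tw ((starRingEnd ℂ) (1 / 2 + a)) f)) *
      ((∑ n ∈ Finset.Icc 1 ⌊T⌋₊, qg φ T ν n * tw (1 / 2) f n) *
      (starRingEnd ℂ) (∑ n ∈ Finset.Icc 1 ⌊T⌋₊, qg φ T ν n * tw (1 / 2) f n) *
      GB N c (tw (1 / 2) f))) =
      ER (SBq T M) (fun f => ∑ d ∈ Finset.Icc 1 N, ∑ e ∈ Finset.Icc 1 N,
        ∑ m ∈ Finset.Icc 1 ⌊T⌋₊, ∑ n ∈ Finset.Icc 1 ⌊T⌋₊,
        (c d e * (qg φ T ν m * (starRingEnd ℂ) (qg φ T ν n) *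
        ((m * d : ℕ) : ℂ) ^ (-(1 / 2 : ℂ)) * ((n * e : ℕ) : ℂ) ^ (-(1 / 2 : ℂ)))) *
        (ZZ U (tw (1 / 2 + a) f) *
      (starRingEnd ℂ) (ZZ U (tw ((starRingEnd ℂ) (1 / 2 + a)) f)) *
        (f (m * d) * (starRingEnd ℂ) (f (n * e))))) := by
    refine FinM.ER_congr fun ω => ?_
    rw [expand ν N c (cmul_XX _ ω), Finset.mul_sum]
    refine Finset.sum_congr rfl fun d _ => ?_
    rw [Finset.mul_sum]
    refine Finset.sum_congr rfl fun e _ => ?_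
    rw [Finset.mul_sum]
    refine Finset.sum_congr rfl fun m _ => ?_
    rw [Finset.mul_sum]
    refine Finset.sum_congr rfl fun n _ => ?_
    ring
  rw [e2, ER_sum _ fun d _ => bc_sum _ fun e _ => bc_sum _ fun m _ => bc_sum _ fun n _ =>
    (hbc (m * d) (n * e)).const_mul _, Finset.sum_mul, RW]
  refine Finset.sum_congr rfl fun d hd => ?_
  rw [ER_sum _ fun e _ => bc_sum _ fun m _ => bc_sum _ fun n _ =>
    (hbc (m * d) (n * e)).const_mul _, Finset.sum_mul]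
  refine Finset.sum_congr rfl fun e he => ?_
  rw [ER_sum _ fun m _ => bc_sum _ fun n _ => (hbc (m * d) (n * e)).const_mul _,
    Finset.sum_mul, Rde, Finset.mul_sum]
  refine Finset.sum_congr rfl fun m hm => ?_
  rw [ER_sum _ fun n _ => (hbc (m * d) (n * e)).const_mul _, Finset.sum_mul, Finset.mul_sum]
  refine Finset.sum_congr rfl fun n hn => ?_
  have e3 : (1 + a + a : ℂ) = (1 / 2 + a) + (1 / 2 + a) := by ring
  rw [ER_const_mul, mul_assoc, e3, FinM.ER_ZZ_ZZ hB hw₁ hw₁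
    (Nat.mul_mem_factoredNumbers (hmT m hm) (hmN d hd))
    (Nat.mul_mem_factoredNumbers (hmT n hn) (hmN e he))]
  rw [Nat.cast_mul ((m * d) / (m * d).gcd (n * e)), natCast_mul_natCast_cpow]
  ring

/-- The double integral. -/
lemma dblW (h : Cut φ) (hT : 1 < T) (hM : 7 ≤ M) (ν : ℝ) {a : ℂ} (ha : -(1 / 2) < a.re)
    (W : (ℕ → ℂ) → ℝ) (bW : BC (SBq T M) (fun f => ((W (tw (1 / 2) f) : ℝ) : ℂ))) :
    (∀ ξ : ℝ, Integrable (fun ξ₂ : ℝ => gh h ξ₂ * R4W T M W a (Real.log T * ν) ξ₂ ξ)) ∧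
    Integrable (fun ξ : ℝ => gh h ξ * (starRingEnd ℂ) (∫ ξ₂ : ℝ, gh h ξ₂ *
      R4W T M W a (Real.log T * ν) ξ₂ ξ)) ∧
    ER (SBq T M) (fun f => ZZ (PS 0 T) (tw (1 / 2 + a) f) *
      (starRingEnd ℂ) (ZZ (PS 0 T) (tw (1 / 2 + (starRingEnd ℂ) a) f)) *
      ((∑ n ∈ Finset.Icc 1 ⌊T⌋₊, qg φ T ν n * tw (1 / 2) f n) *
      (starRingEnd ℂ) (∑ n ∈ Finset.Icc 1 ⌊T⌋₊, qg φ T ν n * tw (1 / 2) f n) *
      ((W (tw (1 / 2) f) : ℝ) : ℂ))) =
      ∫ ξ : ℝ, gh h ξ * (starRingEnd ℂ) (∫ ξ₂ : ℝ, gh h ξ₂ *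
        R4W T M W a (Real.log T * ν) ξ₂ ξ) := by
  have hL : 0 < Real.log T := Real.log_pos hT
  set w : ℂ := 1 / 2 + ((1 / Real.log T : ℝ) : ℂ) + ν * I with hw
  have hwre : 0 < w.re := by
    have : w.re = 1 / 2 + 1 / Real.log T := by
      rw [hw]; simp
    rw [this]; positivity
  have hwx : ∀ ξ, F4.FB4.wx T w ξ = 1 / 2 + un (Real.log T * ν) ξ / Real.log T := fun ξ =>
    wx_eq hL ν ξ
  have hprime : ∀ p ∈ PS 0 T, p.Prime := fun p hp => XB.prime_PS hp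
  have hwa : 0 < (1 / 2 + a : ℂ).re := by rw [add_re]; norm_num; linarith
  have hwb : 0 < (1 / 2 + (starRingEnd ℂ) a : ℂ).re := by rw [add_re, conj_re]; norm_num; linarith
  set S : (ℕ → ℂ) → ℂ := fun f => SG φ T (tw w f) with hS
  have bS : BC (SBq T M) S := F4.Main4.bc_lin _ _ _
  set W' : (ℕ → ℂ) → ℂ := fun f => ((W (tw (1 / 2) f) : ℝ) : ℂ) with hW'
  set Z : (ℕ → ℂ) → ℂ := fun f => ZZ (PS 0 T) (tw (1 / 2 + a) f) with hZ
  set Z' : (ℕ → ℂ) → ℂ := fun f => ZZ (PS 0 T) (tw (1 / 2 + (starRingEnd ℂ) a) f) with hZ'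
  have bZ : BC (SBq T M) Z := bc_ZZ hprime hwa
  have bZ' : BC (SBq T M) Z' := bc_ZZ hprime hwb
  set B : (ℕ → ℂ) → ℂ := fun f => (starRingEnd ℂ) (S f) * ((Z f * (starRingEnd ℂ) (Z' f)) *
    W' f) with hBdef
  have bB : BC (SBq T M) B := bS.conj.mul ((bZ.mul bZ'.conj).mul bW)
  obtain ⟨i1, r1⟩ := ER_SG h (Blk7.blk_SBq hT hM) hT
    (fun n h1 h2 => Blk7.mem_factored_SBq hT hM h1 h2) hwre bB
  have inner : ∀ ξ : ℝ, Integrable (fun ξ₂ : ℝ => gh h ξ₂ * R4W T M W a (Real.log T * ν) ξ₂ ξ) ∧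
      ER (SBq T M) (fun f => ZZ (UU (SBq T M)) (tw (F4.FB4.wx T w ξ) f) * B f) =
        (starRingEnd ℂ) (∫ ξ₂ : ℝ, gh h ξ₂ * R4W T M W a (Real.log T * ν) ξ₂ ξ) := by
    intro ξ
    set Y : (ℕ → ℂ) → ℂ := fun f => ZZ (PS 0 T) (tw (1 / 2 + un (Real.log T * ν) ξ / Real.log T) f)
      with hY
    have bY : BC (SBq T M) Y := bc_ZZ hprime (by
      rw [add_re, div_ofReal_re, un_eq, zn_re]
      have : 0 < 2 / Real.log T := by positivity
      norm_num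
      linarith)
    set B' : (ℕ → ℂ) → ℂ := fun f => (starRingEnd ℂ) (Y f) * (((starRingEnd ℂ) (Z f) * Z' f) *
      W' f) with hB'
    have bB' : BC (SBq T M) B' := bY.conj.mul ((bZ.conj.mul bZ').mul bW)
    obtain ⟨i3, r3⟩ := ER_SG h (Blk7.blk_SBq hT hM) hT
      (fun n h1 h2 => Blk7.mem_factored_SBq hT hM h1 h2) hwre bB'
    have e3 : ∀ ξ₂ : ℝ, ER (SBq T M) (fun f => ZZ (UU (SBq T M))
        (tw (F4.FB4.wx T w ξ₂) f) * B' f) = R4W T M W a (Real.log T * ν) ξ₂ ξ := by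
      intro ξ₂
      rw [R4W, RW4, UU_SBq hT hM, hwx]
      congr 1
      funext f
      simp only [hB', hY, hZ, hZ', hW', map_div₀, map_mul, conj_conj, conj_ofReal]
      ring
    simp only [e3] at i3 r3
    refine ⟨i3, ?_⟩
    rw [← r3, ← SHF.ER_conj, UU_SBq hT hM, hwx]
    congr 1
    funext f
    simp only [hBdef, hB', hS, hW', map_mul, conj_conj, conj_ofReal, hY]
    ring
  have e1 := fun ξ => (inner ξ).2
  simp only [e1] at i1 r1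
  refine ⟨fun ξ => (inner ξ).1, i1, ?_⟩
  rw [← r1]
  congr 1
  funext f
  simp only [qg_sum, hBdef, hS, hZ, hZ', hW']
  ring

end RepWM

open RepWM in
/-- (R1) the arithmetic factor as a double integral -/
theorem stRepW : StRepW := by
  intro φ hφ
  refine ⟨10, by norm_num, fun T hT M hM W N c hN hW ν a ha => ?_⟩
  have hT1 : 1 < T := by linarith
  have hT0 : 0 < T := by linarith
  have hL2 : 2 < Real.log T := by
    rw [Real.lt_log_iff_exp_lt hT0]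
    have h := Real.exp_one_lt_d9
    have : Real.exp 2 = Real.exp 1 * Real.exp 1 := by rw [← Real.exp_add]; norm_num
    rw [this]
    have h' := Real.exp_pos 1
    nlinarith
  have hare : |a.re| ≤ 1 / Real.log T := (abs_re_le_norm a).trans ha
  have h1L : 1 / Real.log T < 1 / 2 := one_div_lt_one_div_of_lt (by norm_num) hL2
  have hare' : -(1 / 2) < a.re := by
    have := (abs_le.mp hare).1
    linarith
  have hNT : (N : ℝ) ≤ T := by
    refine hN.trans ?_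
    calc T ^ (1 / 60 : ℝ) ≤ T ^ (1 : ℝ) :=
          Real.rpow_le_rpow_of_exponent_le hT1.le (by norm_num)
      _ = T := Real.rpow_one T
  have hWX : ∀ ω, GB N c (tw (1 / 2) (XX (SBq T M) ω)) =
      ((W (tw (1 / 2) (XX (SBq T M) ω)) : ℝ) : ℂ) := fun ω =>
    (hW _ (cmul_tw (cmul_XX _ ω) _)).symm
  have bW : BC (SBq T M) (fun f => ((W (tw (1 / 2) f) : ℝ) : ℂ)) :=
    F4.Main4.bc_congr (bc_GB N c) hWX
  obtain ⟨i1, i2, d⟩ := dblW hφ.cut hT1 hM ν hare' W bW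
  refine ⟨i1, i2, ?_⟩
  rw [← d, ← RW_eq hT1 hM ν hNT c hare', UU_SBq hT1 hM]
  congr 1
  refine FinM.ER_congr fun ω => ?_
  rw [hWX ω]

end K7
end Pool.Agent.Lib.MP_973905_nt
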