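import Pool.Agent.Lib.MP_973905_nt.K7.Base
import Pool.Agent.Lib.MP_973905_nt.K5.Rho
import Pool.Agent.Lib.MP_973905_nt.K5.Sym

/-! (S7) Facts on the limits, side of the second moment (compare `K5.stRho`). -/

namespace Pool.Agent.Lib.MP_973905_nt
namespace K7

open MeasureTheory ProbabilityTheory Complex Filter Topology K1 K4 K5

namespace RhoAM

theorem vv_tq_zero (i : ℕ) : vv (tq (i + 1)) (tq i) 0 = ((Vv i : ℝ) : ℂ) := by
  rw [RhoA.vv_zero (Blk7.tq_pos (i + 1)) (Blk7.tq_succ_le i), Blk7.log_tq]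

theorem tq_le_one (i : ℕ) : tq i ≤ 1 := (Blk7.tq_anti (Nat.zero_le i)).trans Blk7.tq_zero_le

theorem vv_sub_le (i : ℕ) {u : ℂ} (hu : ‖u‖ ≤ 1) :
    ‖vv (tq (i + 1)) (tq i) u - ((Vv i : ℝ) : ℂ)‖ ≤ 2 * (tq i - tq (i + 1)) := by
  have := RhoA.vv_sub_le (Blk7.tq_pos (i + 1)) (Blk7.tq_succ_le i) (tq_le_one i) hu
  rwa [Blk7.log_tq] at this

/-- the derivative in the mean at `Vv i` -/
theorem momD_eq (k : ℝ) (i : ℕ) :
    RhoA.momD (-(2 * (1 - k))) (eta (1 - k) (dg i) * 2 ^ dg i) (dg i) (k * Vv i) (Vv i / 2) =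
      dP k i 1 := by
  unfold RhoA.momD dP
  rw [RhoA.shift_sum (-(2 * (1 - k))) (fun j => mom j (k * Vv i) (Vv i / 2)) (dg i),
    Nat.add_sub_cancel, Nat.descFactorial_one, Finset.mul_sum]
  congr 1
  · refine Finset.sum_congr rfl fun j _ => ?_
    rw [pow_succ]
    ring
  · ring

theorem rho_hasDeriv (κ : ℝ) (M : ℕ) (u : ℂ) : HasDerivAt (rhoA κ M)
    (∑ i ∈ Finset.range (M - 6), (∏ j ∈ (Finset.range (M - 6)).erase i,
      PhF (1 - κ) j (((2 * Vv j : ℝ) : ℂ) - vv (tq (j + 1)) (tq j) u)) •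
      (RhoA.momD (((-(2 * (1 - (1 - κ))) : ℝ)) : ℂ)
        ((eta (1 - (1 - κ)) (dg i) * 2 ^ dg i : ℝ) : ℂ) (dg i)
        ((((2 * Vv i : ℝ) : ℂ) - vv (tq (i + 1)) (tq i) u) - (((1 - (1 - κ)) * Vv i : ℝ) : ℂ))
        ((Vv i / 2 : ℝ) : ℂ) *
        (∫ x in (tq (i + 1))..(tq i), cexp (-(u * x))))) u := by
  unfold rhoA
  apply HasDerivAt.fun_finsetProd
  intro i _
  have h1 := (RhoA.vv_hasDeriv (Blk7.tq_pos (i + 1)) (Blk7.tq_succ_le i) u).const_sub
    ((2 * Vv i : ℝ) : ℂ)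
  rw [neg_neg] at h1
  exact (RhoA.PhF_hasDeriv (1 - κ) i _).comp u h1

end RhoAM

open RhoAM in
/-- (S7) -/
theorem stRhoA (hE : StPhiE) (h0 : StPhiD0) (h1 : StPhiD1) (h3 : StPhiD3) (hr : K5.StRho) :
    StRhoA := by
  intro κ hκ0 hκ1
  obtain ⟨-, -, -, C₀, hC₀, hC, -, -⟩ := hr κ hκ0 hκ1
  have hC₀' : 0 < C₀⁻¹ := by positivity
  have hpos : ∀ i, 0 < aG κ i := fun i => hC₀'.trans_le (hC i).2.2.1
  have hFG : ∀ i, aF (1 - κ) i = aG κ i := SymA.aF_symm κ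
  have hV : ∀ i, PhF (1 - κ) i (((2 * Vv i : ℝ) : ℂ) - vv (tq (i + 1)) (tq i) 0) =
      ((aG κ i : ℝ) : ℂ) := by
    intro i
    rw [vv_tq_zero, ← hFG i, ← RhoA.PhF_V]
    congr 1
    push_cast
    ring
  have hd : ∀ i, |dP (1 - κ) i 1| ≤ 2 * κ * aG κ i := by
    intro i
    have h4 : |dP (1 - κ) i 1| ≤ (1 - (1 - κ)) * 2 ^ 1 * aF (1 - κ) i := by
      have hk0 : 0 < 1 - κ := by linarith
      have hk1 : 1 - κ < 1 := by linarith
      rcases Nat.lt_or_ge i 3 with hi | hi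
      · rcases (by omega : i = 0 ∨ i = 1 ∨ i = 2) with rfl | rfl | rfl
        · exact h0 _ hk0 hk1 1 le_rfl (by norm_num)
        · exact h1 _ hk0 hk1 1 (Or.inl rfl) 1 le_rfl (by simp [dg])
        · exact h1 _ hk0 hk1 2 (Or.inr rfl) 1 le_rfl (by simp [dg])
      · exact h3 _ hk0 hk1 i hi 1 le_rfl (RhoA.dg_pos i)
    rw [hFG] at h4
    calc |dP (1 - κ) i 1| ≤ (1 - (1 - κ)) * 2 ^ 1 * aG κ i := h4
      _ = _ := by ring
  -- the size of a factor
  have hsz : ∀ i, ∀ u : ℂ, ‖u‖ ≤ 1 →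
      ‖PhF (1 - κ) i (((2 * Vv i : ℝ) : ℂ) - vv (tq (i + 1)) (tq i) u)‖ ≤
        aG κ i * Real.exp (4 * (tq i - tq (i + 1))) := by
    intro i u hu
    have h4 := hE (1 - κ) (by linarith) (by linarith) i
      (((Vv i : ℝ) : ℂ) - vv (tq (i + 1)) (tq i) u)
    rw [hFG] at h4
    have h5 : ((Vv i : ℝ) : ℂ) + (((Vv i : ℝ) : ℂ) - vv (tq (i + 1)) (tq i) u) =
        ((2 * Vv i : ℝ) : ℂ) - vv (tq (i + 1)) (tq i) u := by
      push_cast
      ring
    rw [h5] at h4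
    have h6 : ‖((Vv i : ℝ) : ℂ) - vv (tq (i + 1)) (tq i) u‖ ≤ 2 * (tq i - tq (i + 1)) := by
      rw [norm_sub_rev]
      exact vv_sub_le i hu
    have h7 : Real.exp (2 * ‖((Vv i : ℝ) : ℂ) - vv (tq (i + 1)) (tq i) u‖) ≤
        Real.exp (4 * (tq i - tq (i + 1))) := Real.exp_le_exp.2 (by linarith)
    have h8 : 1 ≤ Real.exp (4 * (tq i - tq (i + 1))) :=
      Real.one_le_exp (by linarith [Blk7.tq_succ_le i])
    have h9 := norm_le_norm_add_norm_sub'
      (PhF (1 - κ) i (((2 * Vv i : ℝ) : ℂ) - vv (tq (i + 1)) (tq i) u)) ((aG κ i : ℝ) : ℂ)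
    rw [Complex.norm_real, Real.norm_of_nonneg (hpos i).le] at h9
    have h10 : (1 - (1 - κ)) *
        (Real.exp (2 * ‖((Vv i : ℝ) : ℂ) - vv (tq (i + 1)) (tq i) u‖) - 1) * aG κ i ≤
        (Real.exp (4 * (tq i - tq (i + 1))) - 1) * aG κ i := by
      refine mul_le_mul_of_nonneg_right ?_ (hpos i).le
      nlinarith
    linarith
  refine ⟨fun M u => (rho_hasDeriv κ M u).differentiableAt, fun M => ?_, fun M => ?_, ?_⟩
  · unfold rhoA
    push_cast
    refine Finset.prod_congr rfl fun i _ => ?_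
    have := hV i
    push_cast at this
    exact this
  · rw [(rho_hasDeriv κ M 0).deriv]
    have h4 : (∑ i ∈ Finset.range (M - 6), (∏ j ∈ (Finset.range (M - 6)).erase i,
        PhF (1 - κ) j (((2 * Vv j : ℝ) : ℂ) - vv (tq (j + 1)) (tq j) 0)) •
        (RhoA.momD (((-(2 * (1 - (1 - κ))) : ℝ)) : ℂ)
          ((eta (1 - (1 - κ)) (dg i) * 2 ^ dg i : ℝ) : ℂ) (dg i)
          ((((2 * Vv i : ℝ) : ℂ) - vv (tq (i + 1)) (tq i) 0) - (((1 - (1 - κ)) * Vv i : ℝ) : ℂ))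
          ((Vv i / 2 : ℝ) : ℂ) *
          (∫ x in (tq (i + 1))..(tq i), cexp (-((0 : ℂ) * x))))) =
        ((∑ i ∈ Finset.range (M - 6), (∏ j ∈ (Finset.range (M - 6)).erase i, aG κ j) *
          (dP (1 - κ) i 1 * (tq i - tq (i + 1))) : ℝ) : ℂ) := by
      rw [Complex.ofReal_sum]
      refine Finset.sum_congr rfl fun i _ => ?_
      rw [smul_eq_mul, Complex.ofReal_mul (∏ j ∈ (Finset.range (M - 6)).erase i, aG κ j),
        Complex.ofReal_prod]
      congr 1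
      · exact Finset.prod_congr rfl fun j _ => hV j
      · have h2 : (((2 * Vv i : ℝ) : ℂ) - ((Vv i : ℝ) : ℂ)) - (((1 - (1 - κ)) * Vv i : ℝ) : ℂ) =
            (((1 - κ) * Vv i : ℝ) : ℂ) := by
          push_cast
          ring
        rw [vv_tq_zero, h2, ← RhoA.momD_cast, momD_eq, Complex.ofReal_mul]
        congr 1
        simp
    rw [h4, Complex.ofReal_re]
    have h5 : ∀ i ∈ Finset.range (M - 6), (∏ j ∈ (Finset.range (M - 6)).erase i, aG κ j) *
        (dP (1 - κ) i 1 * (tq i - tq (i + 1))) ≤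
        2 * κ * (∏ j ∈ Finset.range (M - 6), aG κ j) * (tq i - tq (i + 1)) := by
      intro i hi
      rw [← Finset.mul_prod_erase _ _ hi]
      have h6 := (le_abs_self _).trans (hd i)
      have h7 : 0 ≤ tq i - tq (i + 1) := by linarith [Blk7.tq_succ_le i]
      have h8 : 0 < ∏ j ∈ (Finset.range (M - 6)).erase i, aG κ j :=
        Finset.prod_pos fun j _ => hpos j
      calc (∏ j ∈ (Finset.range (M - 6)).erase i, aG κ j) *
          (dP (1 - κ) i 1 * (tq i - tq (i + 1)))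
          ≤ (∏ j ∈ (Finset.range (M - 6)).erase i, aG κ j) *
            ((2 * κ * aG κ i) * (tq i - tq (i + 1))) :=
            mul_le_mul_of_nonneg_left (mul_le_mul_of_nonneg_right h6 h7) h8.le
        _ = _ := by ring
    refine (Finset.sum_le_sum h5).trans ?_
    rw [← Finset.mul_sum, Finset.sum_range_sub']
    have h6 : 0 < ∏ j ∈ Finset.range (M - 6), aG κ j := Finset.prod_pos fun j _ => hpos j
    have h7 := Blk7.tq_pos (M - 6)
    have h8 : 0 < 2 * κ := by linarith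
    nlinarith [mul_pos (mul_pos h8 h6) h7]
  · have hE4 : 1 ≤ Real.exp 4 := Real.one_le_exp (by norm_num)
    refine ⟨C₀ * Real.exp 4, by nlinarith, fun i u hu => ?_, fun M u hu => ?_⟩
    · refine (hsz i u hu).trans ?_
      have h4 : Real.exp (4 * (tq i - tq (i + 1))) ≤ Real.exp 4 :=
        Real.exp_le_exp.2 (by linarith [tq_le_one i, Blk7.tq_pos (i + 1)])
      exact mul_le_mul (hC i).2.2.2 h4 (Real.exp_pos _).le (by linarith)
    · unfold rhoA
      rw [norm_prod]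
      refine (Finset.prod_le_prod (fun i _ => norm_nonneg _) fun i _ => hsz i u hu).trans ?_
      rw [Finset.prod_mul_distrib, mul_comm]
      have h6 : 0 < ∏ j ∈ Finset.range (M - 6), aG κ j := Finset.prod_pos fun j _ => hpos j
      refine mul_le_mul_of_nonneg_right ?_ h6.le
      rw [← Real.exp_sum, ← Finset.mul_sum, Finset.sum_range_sub']
      have h7 : Real.exp (4 * (tq 0 - tq (M - 6))) ≤ Real.exp 4 :=
        Real.exp_le_exp.2 (by linarith [tq_le_one 0, Blk7.tq_pos (M - 6)])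
      nlinarith [Real.exp_pos (4 : ℝ)]

end K7
end Pool.Agent.Lib.MP_973905_nt
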