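import Pool.Agent.Lib.MP_973905_nt.K7.Stmts
import Pool.Agent.Lib.MP_973905_nt.F4.Right4
import Pool.Agent.Lib.MP_973905_nt.F4.Expand

/-! (G4) the right edge of the twisted second moment for a pair `(d, e)`. -/

namespace Pool.Agent.Lib.MP_973905_nt
namespace K7

open MeasureTheory ProbabilityTheory Complex Filter Topology K1 K4 K5

namespace RightPA

/-- the coefficient of a pair -/
noncomputable def cp (b b' : ℕ → ℂ) (h k : ℕ) : ℂ :=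
  b h * (starRingEnd ℂ) (b' k) * ((h * k : ℕ) : ℂ) ^ (-(1 / 2 : ℂ))

/-- the integrand of the moment twisted by two polynomials -/
lemma pointwise {X : ℝ} {a c : ℂ} (ha : a.re = 9 / 16) (N : ℕ) (b b' : ℕ → ℂ) (t : ℝ) :
    riemannZeta (1 / 2 + a + t * I) * riemannZeta (1 / 2 + a - t * I) *
      (F4.HP N b t * (starRingEnd ℂ) (F4.HP N b' t)) * F4.Wt X c t =
    ∑ h ∈ Finset.Icc 1 N, ∑ k ∈ Finset.Icc 1 N,
      cp b b' h k * ∑' p : ℕ × ℕ, F4.Expand.Fs X a c h k p t := by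
  have h1 : F4.HP N b t * (starRingEnd ℂ) (F4.HP N b' t) =
      ∑ h ∈ Finset.Icc 1 N, ∑ k ∈ Finset.Icc 1 N, (b h * (starRingEnd ℂ) (b' k)) *
        ((h : ℂ) ^ (-(1 / 2 + t * I)) * (k : ℂ) ^ (-(1 / 2 - t * I))) := by
    rw [F4.HP, F4.HP, map_sum, Finset.sum_mul_sum]
    refine Finset.sum_congr rfl fun h _ => Finset.sum_congr rfl fun k hk => ?_
    rw [Finset.mem_Icc] at hk
    rw [map_mul, F4.Expand.conj_fs (by omega)]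
    simp only [fs]
    ring
  rw [h1, F4.Expand.zeta_pair ha, Finset.mul_sum, Finset.sum_mul]
  refine Finset.sum_congr rfl fun h hh => ?_
  rw [Finset.mul_sum, Finset.sum_mul]
  refine Finset.sum_congr rfl fun k hk => ?_
  rw [Finset.mem_Icc] at hh hk
  have h2 : ∀ p : ℕ × ℕ, ((p.1 : ℂ) ^ (-(1 / 2 + a + t * I)) *
      (p.2 : ℂ) ^ (-(1 / 2 + a - t * I))) *
        ((h : ℂ) ^ (-(1 / 2 + t * I)) * (k : ℂ) ^ (-(1 / 2 - t * I))) * F4.Wt X c t =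
      ((h * k : ℕ) : ℂ) ^ (-(1 / 2 : ℂ)) * F4.Expand.Fs X a c h k p t := by
    intro p
    rw [F4.Expand.phase ha (by omega) (by omega), F4.Expand.Fs]
    ring
  have h3 : (∑' p : ℕ × ℕ, (p.1 : ℂ) ^ (-(1 / 2 + a + t * I)) *
      (p.2 : ℂ) ^ (-(1 / 2 + a - t * I))) *
        ((h : ℂ) ^ (-(1 / 2 + t * I)) * (k : ℂ) ^ (-(1 / 2 - t * I))) * F4.Wt X c t =
      ((h * k : ℕ) : ℂ) ^ (-(1 / 2 : ℂ)) * ∑' p : ℕ × ℕ, F4.Expand.Fs X a c h k p t := by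
    rw [← tsum_mul_right, ← tsum_mul_right, ← tsum_mul_left]
    exact tsum_congr h2
  rw [cp, mul_assoc (b h * (starRingEnd ℂ) (b' k)) _ (∑' p : ℕ × ℕ, F4.Expand.Fs X a c h k p t),
    ← h3]
  ring

/-- expansion of `Jd` into double series -/
lemma expand {X : ℝ} {a c : ℂ} (hX : 1 ≤ X) (ha : a.re = 9 / 16) (hc : 8 ≤ c.re) (φ : ℝ → ℝ)
    (T ν : ℝ) (d e : ℕ) : Jd X c φ T ν d e a =
    ∑ h ∈ Finset.Icc 1 (Np T), ∑ k ∈ Finset.Icc 1 (Np T),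
      cp (sg φ T ν d) (sg φ T ν e) h k * F4.Fp X a c h k := by
  have hX0 : 0 < X := by linarith
  have hc0 : 0 < c.re := by linarith
  rw [Jd]
  rw [integral_congr_ae (Eventually.of_forall fun t =>
    pointwise (X := X) (c := c) ha (Np T) (sg φ T ν d) (sg φ T ν e) t)]
  rw [integral_finsetSum _ fun h _ => ?_]
  · refine Finset.sum_congr rfl fun h _ => ?_
    rw [integral_finsetSum _ fun k _ => ?_]
    · refine Finset.sum_congr rfl fun k _ => ?_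
      rw [integral_const_mul, F4.Expand.Fs_hasSum hX0 ha hc0]
    · exact (F4.Expand.tsum_int hX0 ha hc0 h k).const_mul _
  · exact integrable_finsetSum _ fun k _ => (F4.Expand.tsum_int hX0 ha hc0 h k).const_mul _

/-- the substitution `h = m d`, `k = n e` -/
lemma subst {N K : ℕ} {b b' q : ℕ → ℂ} {d e : ℕ}
    (hb : ∀ Φ : ℕ → ℂ, ∑ n ∈ Finset.Icc 1 N, b n * Φ n = ∑ m ∈ Finset.Icc 1 K, q m * Φ (m * d))
    (hb' : ∀ Φ : ℕ → ℂ, ∑ n ∈ Finset.Icc 1 N, b' n * Φ n = ∑ m ∈ Finset.Icc 1 K, q m * Φ (m * e))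
    (Ψ : ℕ → ℕ → ℂ) :
    ∑ h ∈ Finset.Icc 1 N, ∑ k ∈ Finset.Icc 1 N, b h * (starRingEnd ℂ) (b' k) * Ψ h k =
    ∑ m ∈ Finset.Icc 1 K, ∑ n ∈ Finset.Icc 1 K, q m * (starRingEnd ℂ) (q n) *
      Ψ (m * d) (n * e) := by
  have h1 : ∀ Φ : ℕ → ℂ, ∑ n ∈ Finset.Icc 1 N, (starRingEnd ℂ) (b' n) * Φ n =
      ∑ m ∈ Finset.Icc 1 K, (starRingEnd ℂ) (q m) * Φ (m * e) := by
    intro Φ
    have := congrArg (starRingEnd ℂ) (hb' (fun n => (starRingEnd ℂ) (Φ n)))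
    simpa only [map_sum, map_mul, conj_conj] using this
  calc _ = ∑ h ∈ Finset.Icc 1 N, b h * ∑ k ∈ Finset.Icc 1 N, (starRingEnd ℂ) (b' k) * Ψ h k := by
        refine Finset.sum_congr rfl fun h _ => ?_
        rw [Finset.mul_sum]
        exact Finset.sum_congr rfl fun k _ => by ring
    _ = ∑ h ∈ Finset.Icc 1 N, b h *
          ∑ m ∈ Finset.Icc 1 K, (starRingEnd ℂ) (q m) * Ψ h (m * e) := by
        refine Finset.sum_congr rfl fun h _ => ?_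
        rw [h1]
    _ = ∑ m ∈ Finset.Icc 1 K, q m *
          ∑ n ∈ Finset.Icc 1 K, (starRingEnd ℂ) (q n) * Ψ (m * d) (n * e) :=
        hb (fun h => ∑ m ∈ Finset.Icc 1 K, (starRingEnd ℂ) (q m) * Ψ h (m * e))
    _ = _ := by
        refine Finset.sum_congr rfl fun m _ => ?_
        rw [Finset.mul_sum]
        exact Finset.sum_congr rfl fun k _ => by ring

/-- the arithmetic factor -/
lemma Rde_eq {φ : ℝ → ℝ} {T ν : ℝ} {d e : ℕ}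
    (hb : ∀ Φ : ℕ → ℂ, ∑ n ∈ Finset.Icc 1 (Np T), sg φ T ν d n * Φ n =
      ∑ m ∈ Finset.Icc 1 ⌊T⌋₊, qg φ T ν m * Φ (m * d))
    (hb' : ∀ Φ : ℕ → ℂ, ∑ n ∈ Finset.Icc 1 (Np T), sg φ T ν e n * Φ n =
      ∑ m ∈ Finset.Icc 1 ⌊T⌋₊, qg φ T ν m * Φ (m * e)) (a : ℂ) :
    Rde φ T ν d e a = ∑ h ∈ Finset.Icc 1 (Np T), ∑ k ∈ Finset.Icc 1 (Np T),
      cp (sg φ T ν d) (sg φ T ν e) h k *
        ((h / h.gcd k * (k / h.gcd k) : ℕ) : ℂ) ^ (-(1 / 2 + a)) := by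
  have h := subst hb hb' (fun h k => ((h * k : ℕ) : ℂ) ^ (-(1 / 2 : ℂ)) *
    ((h / h.gcd k * (k / h.gcd k) : ℕ) : ℂ) ^ (-(1 / 2 + a)))
  have h2 : (∑ h ∈ Finset.Icc 1 (Np T), ∑ k ∈ Finset.Icc 1 (Np T),
      cp (sg φ T ν d) (sg φ T ν e) h k *
        ((h / h.gcd k * (k / h.gcd k) : ℕ) : ℂ) ^ (-(1 / 2 + a))) =
      ∑ h ∈ Finset.Icc 1 (Np T), ∑ k ∈ Finset.Icc 1 (Np T), sg φ T ν d h *
        (starRingEnd ℂ) (sg φ T ν e k) * (((h * k : ℕ) : ℂ) ^ (-(1 / 2 : ℂ)) *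
          ((h / h.gcd k * (k / h.gcd k) : ℕ) : ℂ) ^ (-(1 / 2 + a))) := by
    refine Finset.sum_congr rfl fun h _ => Finset.sum_congr rfl fun k _ => ?_
    unfold cp
    ring
  rw [h2, h]
  unfold Rde
  refine Finset.sum_congr rfl fun m _ => Finset.sum_congr rfl fun n _ => ?_
  rw [Nat.cast_mul (m * d) (n * e), natCast_mul_natCast_cpow]
  ring

lemma MW_eq {φ : ℝ → ℝ} {T ν : ℝ} {d e : ℕ}
    (hb : ∀ Φ : ℕ → ℂ, ∑ n ∈ Finset.Icc 1 (Np T), sg φ T ν d n * Φ n =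
      ∑ m ∈ Finset.Icc 1 ⌊T⌋₊, qg φ T ν m * Φ (m * d))
    (hb' : ∀ Φ : ℕ → ℂ, ∑ n ∈ Finset.Icc 1 (Np T), sg φ T ν e n * Φ n =
      ∑ m ∈ Finset.Icc 1 ⌊T⌋₊, qg φ T ν m * Φ (m * e)) (X : ℝ) (a c : ℂ) :
    MW X c (Rde φ T ν d e) a = ∑ h ∈ Finset.Icc 1 (Np T), ∑ k ∈ Finset.Icc 1 (Np T),
      cp (sg φ T ν d) (sg φ T ν e) h k * F4.Right4.mt X a c h k := by
  unfold MW
  rw [Rde_eq hb hb', Rde_eq hb hb']
  simp only [Finset.mul_sum, ← Finset.sum_add_distrib]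
  refine Finset.sum_congr rfl fun h _ => Finset.sum_congr rfl fun k _ => ?_
  unfold F4.Right4.mt
  rw [show -(1 / 2 + -a) = -(1 / 2 - a) by ring]
  ring

lemma decomp {φ : ℝ → ℝ} {T ν : ℝ} {d e : ℕ}
    (hb : ∀ Φ : ℕ → ℂ, ∑ n ∈ Finset.Icc 1 (Np T), sg φ T ν d n * Φ n =
      ∑ m ∈ Finset.Icc 1 ⌊T⌋₊, qg φ T ν m * Φ (m * d))
    (hb' : ∀ Φ : ℕ → ℂ, ∑ n ∈ Finset.Icc 1 (Np T), sg φ T ν e n * Φ n =
      ∑ m ∈ Finset.Icc 1 ⌊T⌋₊, qg φ T ν m * Φ (m * e)) {X : ℝ} {a c : ℂ} (hX : 1 ≤ X)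
    (ha : a.re = 9 / 16) (hc : 8 ≤ c.re) :
    Jd X c φ T ν d e a - MW X c (Rde φ T ν d e) a =
    (∑ h ∈ Finset.Icc 1 (Np T), ∑ k ∈ Finset.Icc 1 (Np T), cp (sg φ T ν d) (sg φ T ν e) h k *
      (F4.Fp X a c h k - F4.Right4.mt X a c h k -
        ((h * k : ℕ) : ℂ) ^ (-(1 / 2 - a)) * F4.Rm X a c h k)) +
    ∑ m ∈ Finset.Icc 1 ⌊T⌋₊, ∑ n ∈ Finset.Icc 1 ⌊T⌋₊, qg φ T ν m * (starRingEnd ℂ) (qg φ T ν n) *
      ((m * d * (n * e) : ℕ) : ℂ) ^ (a - 1) * F4.Rm X a c (m * d) (n * e) := by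
  have h := subst hb hb' (fun h k => ((h * k : ℕ) : ℂ) ^ (a - 1) * F4.Rm X a c h k)
  have h2 : (∑ m ∈ Finset.Icc 1 ⌊T⌋₊, ∑ n ∈ Finset.Icc 1 ⌊T⌋₊,
      qg φ T ν m * (starRingEnd ℂ) (qg φ T ν n) *
      ((m * d * (n * e) : ℕ) : ℂ) ^ (a - 1) * F4.Rm X a c (m * d) (n * e)) =
      ∑ m ∈ Finset.Icc 1 ⌊T⌋₊, ∑ n ∈ Finset.Icc 1 ⌊T⌋₊,
      qg φ T ν m * (starRingEnd ℂ) (qg φ T ν n) *
      (((m * d * (n * e) : ℕ) : ℂ) ^ (a - 1) * F4.Rm X a c (m * d) (n * e)) := by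
    refine Finset.sum_congr rfl fun m _ => Finset.sum_congr rfl fun n _ => ?_
    ring
  rw [h2, ← h, expand hX ha hc, MW_eq hb hb']
  simp only [← Finset.sum_sub_distrib, ← Finset.sum_add_distrib]
  refine Finset.sum_congr rfl fun h hh => Finset.sum_congr rfl fun k hk => ?_
  rw [Finset.mem_Icc] at hh hk
  have hne : ((h * k : ℕ) : ℂ) ≠ 0 := by
    have : h * k ≠ 0 := Nat.mul_ne_zero (by omega) (by omega)
    exact_mod_cast this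
  have e1 : ((h * k : ℕ) : ℂ) ^ (a - 1) =
      ((h * k : ℕ) : ℂ) ^ (-(1 / 2 : ℂ)) * ((h * k : ℕ) : ℂ) ^ (-(1 / 2 - a)) := by
    rw [← cpow_add _ _ hne]; congr 1; ring
  rw [e1]
  unfold cp
  ring

lemma norm_cp (b b' : ℕ → ℂ) {h k : ℕ} (hh : 1 ≤ h) (hk : 1 ≤ k) : ‖cp b b' h k‖ =
    (‖b h‖ * (h : ℝ) ^ (-(1 / 2) : ℝ)) * (‖b' k‖ * (k : ℝ) ^ (-(1 / 2) : ℝ)) := by
  unfold cp
  rw [norm_mul, norm_mul, norm_conj, norm_natCast_cpow_of_pos (Nat.mul_pos hh hk)]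
  simp only [neg_re, one_div, inv_re, re_ofNat, normSq_ofNat]
  rw [Nat.cast_mul, Real.mul_rpow (by positivity) (by positivity)]
  norm_num
  ring

/-- the bound for the terms of the first sum -/
lemma term {C X : ℝ} (hX : 1 ≤ X) (a c : ℂ) (b b' : ℕ → ℂ) (h k : ℕ) (hh : 1 ≤ h)
    (hk : 1 ≤ k)
    (H : ‖F4.Fp X a c h k - F4.Right4.mt X a c h k -
        ((h * k : ℕ) : ℂ) ^ (-(1 / 2 - a)) * F4.Rm X a c h k‖ ≤
      Real.exp (C * (‖a‖ + ‖c‖)) * (X ^ (-8 : ℝ) +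
        ((h / h.gcd k * (k / h.gcd k) : ℕ) : ℝ) ^ (1 / 16 : ℝ) * X ^ (-(17 / 8) : ℝ))) :
    ‖cp b b' h k * (F4.Fp X a c h k - F4.Right4.mt X a c h k -
      ((h * k : ℕ) : ℂ) ^ (-(1 / 2 - a)) * F4.Rm X a c h k)‖ ≤
    Real.exp (C * (‖a‖ + ‖c‖)) *
      (X ^ (-8 : ℝ) * ((‖b h‖ * (h : ℝ) ^ (-(1 / 2) : ℝ)) * (‖b' k‖ * (k : ℝ) ^ (-(1 / 2) : ℝ))) +
      X ^ (-(17 / 8) : ℝ) *
        ((‖b h‖ * (h : ℝ) ^ (-(7 / 16) : ℝ)) * (‖b' k‖ * (k : ℝ) ^ (-(7 / 16) : ℝ)))) := by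
  rw [norm_mul, norm_cp b b' hh hk]
  have hh0 : (0 : ℝ) < h := by exact_mod_cast hh
  have hk0 : (0 : ℝ) < k := by exact_mod_cast hk
  have h1 : ((h / h.gcd k * (k / h.gcd k) : ℕ) : ℝ) ^ (1 / 16 : ℝ) ≤
      (h : ℝ) ^ (1 / 16 : ℝ) * (k : ℝ) ^ (1 / 16 : ℝ) := by
    rw [← Real.mul_rpow hh0.le hk0.le]
    apply Real.rpow_le_rpow (by positivity) _ (by norm_num)
    have : h / h.gcd k * (k / h.gcd k) ≤ h * k :=
      Nat.mul_le_mul (Nat.div_le_self _ _) (Nat.div_le_self _ _)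
    exact_mod_cast this
  have e1 : (h : ℝ) ^ (-(7 / 16) : ℝ) = (h : ℝ) ^ (-(1 / 2) : ℝ) * (h : ℝ) ^ (1 / 16 : ℝ) := by
    rw [← Real.rpow_add hh0]; norm_num
  have e2 : (k : ℝ) ^ (-(7 / 16) : ℝ) = (k : ℝ) ^ (-(1 / 2) : ℝ) * (k : ℝ) ^ (1 / 16 : ℝ) := by
    rw [← Real.rpow_add hk0]; norm_num
  have hX0 : (0 : ℝ) < X := by linarith
  have p1 : 0 ≤ (‖b h‖ * (h : ℝ) ^ (-(1 / 2) : ℝ)) * (‖b' k‖ * (k : ℝ) ^ (-(1 / 2) : ℝ)) := by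
    positivity
  have p2 : 0 ≤ X ^ (-(17 / 8) : ℝ) := Real.rpow_nonneg hX0.le _
  calc _ ≤ (‖b h‖ * (h : ℝ) ^ (-(1 / 2) : ℝ)) * (‖b' k‖ * (k : ℝ) ^ (-(1 / 2) : ℝ)) *
        (Real.exp (C * (‖a‖ + ‖c‖)) * (X ^ (-8 : ℝ) +
        ((h / h.gcd k * (k / h.gcd k) : ℕ) : ℝ) ^ (1 / 16 : ℝ) * X ^ (-(17 / 8) : ℝ))) := by
        gcongr
    _ ≤ (‖b h‖ * (h : ℝ) ^ (-(1 / 2) : ℝ)) * (‖b' k‖ * (k : ℝ) ^ (-(1 / 2) : ℝ)) *
        (Real.exp (C * (‖a‖ + ‖c‖)) * (X ^ (-8 : ℝ) +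
        ((h : ℝ) ^ (1 / 16 : ℝ) * (k : ℝ) ^ (1 / 16 : ℝ)) * X ^ (-(17 / 8) : ℝ))) := by
        gcongr
    _ = _ := by rw [e1, e2]; ring

/-- the first sum -/
lemma first {C X : ℝ} (hX : 1 ≤ X) (a c : ℂ) (b b' : ℕ → ℂ) (N : ℕ)
    (H : ∀ h k : ℕ, 1 ≤ h → 1 ≤ k →
      ‖F4.Fp X a c h k - F4.Right4.mt X a c h k -
        ((h * k : ℕ) : ℂ) ^ (-(1 / 2 - a)) * F4.Rm X a c h k‖ ≤
      Real.exp (C * (‖a‖ + ‖c‖)) * (X ^ (-8 : ℝ) +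
        ((h / h.gcd k * (k / h.gcd k) : ℕ) : ℝ) ^ (1 / 16 : ℝ) * X ^ (-(17 / 8) : ℝ))) :
    ‖∑ h ∈ Finset.Icc 1 N, ∑ k ∈ Finset.Icc 1 N, cp b b' h k *
      (F4.Fp X a c h k - F4.Right4.mt X a c h k -
        ((h * k : ℕ) : ℂ) ^ (-(1 / 2 - a)) * F4.Rm X a c h k)‖ ≤
    Real.exp (C * (‖a‖ + ‖c‖)) *
      (X ^ (-8 : ℝ) * ((∑ n ∈ Finset.Icc 1 N, ‖b n‖ * (n : ℝ) ^ (-(1 / 2) : ℝ)) *
        ∑ n ∈ Finset.Icc 1 N, ‖b' n‖ * (n : ℝ) ^ (-(1 / 2) : ℝ)) +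
      X ^ (-(17 / 8) : ℝ) * ((∑ n ∈ Finset.Icc 1 N, ‖b n‖ * (n : ℝ) ^ (-(7 / 16) : ℝ)) *
        ∑ n ∈ Finset.Icc 1 N, ‖b' n‖ * (n : ℝ) ^ (-(7 / 16) : ℝ))) := by
  have h1 : ‖∑ h ∈ Finset.Icc 1 N, ∑ k ∈ Finset.Icc 1 N, cp b b' h k *
      (F4.Fp X a c h k - F4.Right4.mt X a c h k -
        ((h * k : ℕ) : ℂ) ^ (-(1 / 2 - a)) * F4.Rm X a c h k)‖ ≤
      ∑ h ∈ Finset.Icc 1 N, ∑ k ∈ Finset.Icc 1 N, Real.exp (C * (‖a‖ + ‖c‖)) *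
      (X ^ (-8 : ℝ) * ((‖b h‖ * (h : ℝ) ^ (-(1 / 2) : ℝ)) * (‖b' k‖ * (k : ℝ) ^ (-(1 / 2) : ℝ))) +
      X ^ (-(17 / 8) : ℝ) *
        ((‖b h‖ * (h : ℝ) ^ (-(7 / 16) : ℝ)) * (‖b' k‖ * (k : ℝ) ^ (-(7 / 16) : ℝ)))) := by
    refine (norm_sum_le _ _).trans (Finset.sum_le_sum fun h hh => ?_)
    refine (norm_sum_le _ _).trans (Finset.sum_le_sum fun k hk => ?_)
    rw [Finset.mem_Icc] at hh hk
    exact term hX a c b b' h k hh.1 hk.1 (H h k hh.1 hk.1)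
  refine h1.trans (le_of_eq ?_)
  rw [Finset.sum_mul_sum, Finset.sum_mul_sum]
  simp only [Finset.mul_sum, ← Finset.sum_add_distrib]

end RightPA

open RightPA in
theorem stRightP (h9 : F4.StPair) (h11 : StRemP) (hE : F4.StExpand) (hc : StCoP) : StRightP := by
  have _ := hE
  intro φ hφ
  obtain ⟨C₁, hC₁, H9⟩ := h9
  obtain ⟨C₂, hC₂, T₂, hT₂, H11⟩ := h11 φ hφ
  obtain ⟨T₃, hT₃, H2⟩ := hc φ hφ
  refine ⟨max C₁ C₂ + 1, by positivity, max T₂ T₃, hT₂.trans (le_max_left _ _), ?_⟩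
  intro T hT X hXl hXu a c ha hc8 hc16 ν d e hd he hde
  have hT2 : T₂ ≤ T := (le_max_left _ _).trans hT
  have hT3 : T₃ ≤ T := (le_max_right _ _).trans hT
  have hT1 : (3 : ℝ) ≤ T := hT₂.trans hT2
  have hT0 : (0 : ℝ) < T := by linarith
  have hX1 : 1 ≤ X := by
    refine le_trans ?_ hXl
    exact Real.one_le_rpow (by linarith) (by norm_num)
  have hX0 : (0 : ℝ) < X := by linarith
  have hd1 : (1 : ℝ) ≤ d := by exact_mod_cast hd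
  have he1 : (1 : ℝ) ≤ e := by exact_mod_cast he
  have hdT : (d : ℝ) ≤ T ^ (1 / 60 : ℝ) := by nlinarith
  have heT : (e : ℝ) ≤ T ^ (1 / 60 : ℝ) := by nlinarith
  obtain ⟨-, -, s1, s2, -, sb⟩ := H2 T hT3 ν d hd hdT
  obtain ⟨-, -, s1', s2', -, sb'⟩ := H2 T hT3 ν e he heT
  have A := first (C := C₁) hX1 a c (sg φ T ν d) (sg φ T ν e) (Np T) (fun h k hh hk => by
    have := H9 X hX1 a c ha hc8 hc16 h k hh hk
    unfold F4.Right4.mt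
    rwa [show F4.Fp X a c h k - (Gamma c * (riemannZeta (1 + 2 * a) *
        ((h / h.gcd k * (k / h.gcd k) : ℕ) : ℂ) ^ (-(1 / 2 + a))) +
      ((X / (2 * Real.pi) : ℝ) : ℂ) ^ (-(2 * a)) * (Gamma (c - 2 * a) * (riemannZeta (1 - 2 * a) *
        ((h / h.gcd k * (k / h.gcd k) : ℕ) : ℂ) ^ (-(1 / 2 - a))))) =
      F4.Fp X a c h k - Gamma c * (riemannZeta (1 + 2 * a) *
        ((h / h.gcd k * (k / h.gcd k) : ℕ) : ℂ) ^ (-(1 / 2 + a))) -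
      ((X / (2 * Real.pi) : ℝ) : ℂ) ^ (-(2 * a)) * (Gamma (c - 2 * a) * (riemannZeta (1 - 2 * a) *
        ((h / h.gcd k * (k / h.gcd k) : ℕ) : ℂ) ^ (-(1 / 2 - a)))) by ring])
  have B := H11 T hT2 X hXl hXu a c ha hc8 hc16 ν d e hd he hde
  rw [decomp sb sb' hX1 ha hc8]
  refine (norm_add_le _ _).trans ((add_le_add A B).trans ?_)
  set S1 := ∑ n ∈ Finset.Icc 1 (Np T), ‖sg φ T ν d n‖ * (n : ℝ) ^ (-(1 / 2) : ℝ) with hS1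
  set S1' := ∑ n ∈ Finset.Icc 1 (Np T), ‖sg φ T ν e n‖ * (n : ℝ) ^ (-(1 / 2) : ℝ) with hS1'
  set S2 := ∑ n ∈ Finset.Icc 1 (Np T), ‖sg φ T ν d n‖ * (n : ℝ) ^ (-(7 / 16) : ℝ) with hS2
  set S2' := ∑ n ∈ Finset.Icc 1 (Np T), ‖sg φ T ν e n‖ * (n : ℝ) ^ (-(7 / 16) : ℝ) with hS2'
  have nS1' : 0 ≤ S1' := Finset.sum_nonneg fun n _ => by positivity
  have nS2' : 0 ≤ S2' := Finset.sum_nonneg fun n _ => by positivity
  set t := X ^ (-(25 / 8) : ℝ) * T ^ (249 / 100 : ℝ) with ht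
  have ht0 : 0 < t := by positivity
  have hXn : 0 ≤ X ^ (-(25 / 8) : ℝ) := Real.rpow_nonneg hX0.le _
  have hp : ∀ u v : ℝ, u ≤ v → T ^ u ≤ T ^ v := fun u v huv =>
    Real.rpow_le_rpow_of_exponent_le (by linarith) huv
  have hs1 : S1 * S1' ≤ T ^ (504 / 1000 : ℝ) := by
    calc _ ≤ T ^ (252 / 1000 : ℝ) * T ^ (252 / 1000 : ℝ) := by gcongr
      _ = T ^ (504 / 1000 : ℝ) := by
          rw [← Real.rpow_add hT0]; norm_num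
  have hs2 : S2 * S2' ≤ T ^ (568 / 1000 : ℝ) := by
    calc _ ≤ T ^ (284 / 1000 : ℝ) * T ^ (284 / 1000 : ℝ) := by gcongr
      _ = T ^ (568 / 1000 : ℝ) := by
          rw [← Real.rpow_add hT0]; norm_num
  have b1 : X ^ (-8 : ℝ) * (S1 * S1') ≤ t := by
    calc _ ≤ X ^ (-(25 / 8) : ℝ) * T ^ (504 / 1000 : ℝ) := by
          have e1 : X ^ (-8 : ℝ) ≤ X ^ (-(25 / 8) : ℝ) :=
            Real.rpow_le_rpow_of_exponent_le hX1 (by norm_num)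
          gcongr
      _ ≤ t := by
          rw [ht]
          exact mul_le_mul_of_nonneg_left (hp _ _ (by norm_num)) hXn
  have b2 : X ^ (-(17 / 8) : ℝ) * (S2 * S2') ≤ t := by
    calc _ ≤ (X ^ (-(25 / 8) : ℝ) * X) * T ^ (568 / 1000 : ℝ) := by
          have e1 : X ^ (-(17 / 8) : ℝ) = X ^ (-(25 / 8) : ℝ) * X := by
            have e2 := Real.rpow_add hX0 (-(25 / 8) : ℝ) 1
            rw [Real.rpow_one] at e2
            rw [← e2]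
            norm_num
          rw [e1]
          gcongr
      _ ≤ (X ^ (-(25 / 8) : ℝ) * T ^ (1 + 1 / 10000 : ℝ)) * T ^ (568 / 1000 : ℝ) := by
          gcongr
      _ = X ^ (-(25 / 8) : ℝ) * T ^ (1 + 1 / 10000 + 568 / 1000 : ℝ) := by
          rw [mul_assoc, ← Real.rpow_add hT0]
      _ ≤ t := by
          rw [ht]
          exact mul_le_mul_of_nonneg_left (hp _ _ (by norm_num)) hXn
  have b3 : X ^ (-(25 / 8) : ℝ) * T ^ (2489 / 1000 : ℝ) ≤ t := by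
    rw [ht]
    exact mul_le_mul_of_nonneg_left (hp _ _ (by norm_num)) hXn
  set D := Real.exp (max C₁ C₂ * (‖a‖ + ‖c‖)) with hD
  have hD0 : 0 < D := Real.exp_pos _
  have hac : 0 ≤ ‖a‖ + ‖c‖ := by positivity
  have d1 : Real.exp (C₁ * (‖a‖ + ‖c‖)) ≤ D := by
    apply Real.exp_le_exp.2
    gcongr
    exact le_max_left _ _
  have d2 : Real.exp (C₂ * (‖a‖ + ‖c‖)) ≤ D := by
    apply Real.exp_le_exp.2
    gcongr
    exact le_max_right _ _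
  have hν : 1 ≤ 1 + |ν| := by
    have := abs_nonneg ν
    linarith
  have hcn : 8 ≤ ‖c‖ := hc8.trans (re_le_norm c)
  have d3 : 3 * D ≤ Real.exp ((max C₁ C₂ + 1) * (‖a‖ + ‖c‖)) := by
    rw [add_mul, Real.exp_add, one_mul, ← hD, mul_comm]
    gcongr
    have h3 := Real.add_one_le_exp (‖a‖ + ‖c‖)
    have := norm_nonneg a
    linarith
  calc Real.exp (C₁ * (‖a‖ + ‖c‖)) *
      (X ^ (-8 : ℝ) * (S1 * S1') + X ^ (-(17 / 8) : ℝ) * (S2 * S2')) +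
      Real.exp (C₂ * (‖a‖ + ‖c‖)) * (1 + |ν|) * (X ^ (-(25 / 8) : ℝ) * T ^ (2489 / 1000 : ℝ))
      ≤ D * (t + t) + D * (1 + |ν|) * t := by
        gcongr
    _ ≤ 3 * D * (1 + |ν|) * t := by
        nlinarith [mul_pos hD0 ht0]
    _ ≤ _ := by gcongr

end K7
end Pool.Agent.Lib.MP_973905_nt
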