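import Pool.Agent.Lib.MP_973905_nt.K7.Stmts
import Pool.Agent.Lib.MP_973905_nt.K4.GcdSum

/-! Module (A2) of K7: the main term of the window. -/

namespace Pool.Agent.Lib.MP_973905_nt
namespace K7

open MeasureTheory ProbabilityTheory Filter Topology K1 K4 K5

namespace S1w

open K4.GS (dvi sum_dvi Hs H1 Hs_bd H1_bd Hs_nonneg)

lemma sT_one {x : ℝ} (h : 1 ≤ x) : Real.smoothTransition x = 1 :=
  Real.smoothTransition.one_of_one_le h

lemma sT_zero {x : ℝ} (h : x ≤ 0) : Real.smoothTransition x = 0 :=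
  Real.smoothTransition.zero_of_nonpos h

/-- the window on the positive axis -/
lemma Pw_eq {δ x : ℝ} (hx : 0 ≤ x) : Pw δ x =
    Real.smoothTransition ((1 / 2 - δ - x) / δ) -
      Real.smoothTransition ((1 / 2 - δ - 1 / 60 - x) / δ) := by
  unfold Pw PA
  rw [sT_one (by linarith : 1 ≤ 20 * (x + 2))]
  simp

lemma Pw_nonneg {δ x : ℝ} (hδ : 0 < δ) (hx : 0 ≤ x) : 0 ≤ Pw δ x := by
  rw [Pw_eq hx, sub_nonneg]
  apply Real.smoothTransition.monotone
  apply div_le_div_of_nonneg_right _ hδ.le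
  linarith

lemma Pw_le_one {δ x : ℝ} (hx : 0 ≤ x) : Pw δ x ≤ 1 := by
  rw [Pw_eq hx]
  have h1 := Real.smoothTransition.le_one ((1 / 2 - δ - x) / δ)
  have h2 := Real.smoothTransition.nonneg ((1 / 2 - δ - 1 / 60 - x) / δ)
  linarith

lemma Pw_zero_right {δ x : ℝ} (hδ : 0 < δ) (hx : 0 ≤ x) (h : 1 / 2 - δ ≤ x) : Pw δ x = 0 := by
  rw [Pw_eq hx, sT_zero, sT_zero, sub_zero]
  · apply div_nonpos_of_nonpos_of_nonneg _ hδ.le
    linarith
  · apply div_nonpos_of_nonpos_of_nonneg _ hδ.le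
    linarith

lemma Pw_zero_left {δ x : ℝ} (hδ : 0 < δ) (hx : 0 ≤ x) (h : x ≤ 1 / 2 - 2 * δ - 1 / 60) :
    Pw δ x = 0 := by
  rw [Pw_eq hx, sT_one, sT_one, sub_self]
  · rw [le_div_iff₀ hδ]
    linarith
  · rw [le_div_iff₀ hδ]
    linarith

/-- indicator of the window -/
noncomputable def ind (a b : ℝ) (m : ℕ) : ℝ := if a < Real.log m ∧ Real.log m < b then 1 else 0

lemma ind_nonneg (a b : ℝ) (m : ℕ) : 0 ≤ ind a b m := by
  unfold ind
  split_ifs <;> norm_num

lemma Pw_le_ind {δ L : ℝ} (hδ : 0 < δ) (hL : 0 < L) {m : ℕ} (hm : 1 ≤ m) :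
    Pw δ (Real.log m / L) ≤ ind ((1 / 2 - 2 * δ - 1 / 60) * L) ((1 / 2 - δ) * L) m := by
  have hlm : 0 ≤ Real.log m := Real.log_nonneg (by exact_mod_cast hm)
  have hx : 0 ≤ Real.log m / L := by positivity
  unfold ind
  split_ifs with h
  · exact Pw_le_one hx
  · by_cases h1 : (1 / 2 - 2 * δ - 1 / 60) * L < Real.log m
    · have h2 : (1 / 2 - δ) * L ≤ Real.log m := by
        by_contra hc
        exact h ⟨h1, not_le.1 hc⟩
      rw [Pw_zero_right hδ hx]
      rw [le_div_iff₀ hL]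
      exact h2
    · rw [Pw_zero_left hδ hx]
      rw [div_le_iff₀ hL]
      exact not_lt.1 h1

/-- sums over the multiples of `d` in the window -/
lemma inner {a b : ℝ} (hab : a ≤ b) {d : ℕ} (hd : 1 ≤ d) (K : ℕ) :
    ∑ m ∈ Finset.Ioc 0 K, ind a b (d * m) * (m : ℝ)⁻¹ ≤ b - a + 2 := by
  have hd0 : (0 : ℝ) < d := by exact_mod_cast hd
  set A : ℝ := Real.exp a / d with hA
  set B : ℝ := Real.exp b / d with hB
  have hA0 : 0 < A := by positivity
  have hB0 : 0 < B := by positivity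
  have hABle : A ≤ B := by
    rw [hA, hB]
    gcongr
  have hlA : Real.log A = a - Real.log d := by
    rw [hA, Real.log_div (Real.exp_pos _).ne' hd0.ne', Real.log_exp]
  have hlB : Real.log B = b - Real.log d := by
    rw [hB, Real.log_div (Real.exp_pos _).ne' hd0.ne', Real.log_exp]
  have h1 : ∑ m ∈ Finset.Ioc 0 K, ind a b (d * m) * (m : ℝ)⁻¹ ≤
      ∑ m ∈ Finset.Ioc ⌊A⌋₊ ⌊B⌋₊, (m : ℝ)⁻¹ := by
    have e1 : ∑ m ∈ Finset.Ioc 0 K, ind a b (d * m) * (m : ℝ)⁻¹ =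
        ∑ m ∈ (Finset.Ioc 0 K).filter
          (fun m => a < Real.log ((d * m : ℕ) : ℝ) ∧ Real.log ((d * m : ℕ) : ℝ) < b),
          (m : ℝ)⁻¹ := by
      rw [Finset.sum_filter]
      refine Finset.sum_congr rfl fun m _ => ?_
      unfold ind
      split_ifs <;> simp
    rw [e1]
    apply Finset.sum_le_sum_of_subset_of_nonneg
    · intro m hm
      rw [Finset.mem_filter, Finset.mem_Ioc] at hm
      obtain ⟨⟨hm0, _⟩, h2, h3⟩ := hm
      have hm0' : (0 : ℝ) < m := by exact_mod_cast hm0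
      have hdm : (0 : ℝ) < ((d * m : ℕ) : ℝ) := by push_cast; positivity
      rw [Real.lt_log_iff_exp_lt hdm] at h2
      rw [Real.log_lt_iff_lt_exp hdm] at h3
      push_cast at h2 h3
      rw [Finset.mem_Ioc]
      constructor
      · rw [Nat.floor_lt hA0.le, hA, div_lt_iff₀ hd0]
        linarith
      · apply Nat.le_floor
        rw [hB, le_div_iff₀ hd0]
        linarith
    · intro m _ _
      positivity
  have h2 : ∑ m ∈ Finset.Ioc ⌊A⌋₊ ⌊B⌋₊, (m : ℝ)⁻¹ = Hs B - Hs A := by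
    unfold Hs
    have hfl : ⌊A⌋₊ ≤ ⌊B⌋₊ := Nat.floor_mono hABle
    rw [← Finset.sum_sdiff (Finset.Ioc_subset_Ioc_right hfl : Finset.Ioc 0 ⌊A⌋₊ ⊆ Finset.Ioc 0 ⌊B⌋₊),
      add_sub_cancel_right]
    refine Finset.sum_congr ?_ fun _ _ => rfl
    ext m
    simp only [Finset.mem_sdiff, Finset.mem_Ioc]
    omega
  refine h1.trans ?_
  rw [h2]
  by_cases hA1 : 1 ≤ A
  · have hB1 : 1 ≤ B := hA1.trans hABle
    have p1 := Hs_bd hA1
    have p2 := Hs_bd hB1
    rw [abs_le] at p1 p2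
    rw [hlA] at p1
    rw [hlB] at p2
    linarith [p1.1, p2.2]
  · have hA1' : A < 1 := not_le.1 hA1
    have hla : Real.log A ≤ 0 := Real.log_nonpos hA0.le hA1'.le
    have hHA := Hs_nonneg A
    by_cases hB1 : 1 ≤ B
    · have p2 := Hs_bd hB1
      rw [abs_le] at p2
      rw [hlB] at p2
      rw [hlA] at hla
      linarith [p2.2]
    · have : Hs B = 0 := by
        unfold Hs
        rw [Nat.floor_eq_zero.2 (not_le.1 hB1)]
        simp
      rw [this]
      linarith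

/-- multiples beyond the window -/
lemma ind_zero {a b : ℝ} {d m : ℕ} (hd : 1 ≤ d) (hm : 1 ≤ m) (h : b ≤ Real.log d) :
    ind a b (d * m) = 0 := by
  unfold ind
  rw [if_neg]
  rintro ⟨_, h2⟩
  have h3 : Real.log d ≤ Real.log ((d * m : ℕ) : ℝ) := by
    apply Real.log_le_log (by exact_mod_cast hd)
    exact_mod_cast Nat.le_mul_of_pos_right d hm
  linarith

/-- the sum over all pairs -/
lemma pairs {a b κ : ℝ} (hab : a ≤ b) (hb : 0 ≤ b) (hκ : 0 ≤ κ) (N : ℕ) :
    ∑ m ∈ Finset.Ioc 0 N, ∑ n ∈ Finset.Ioc 0 N, ind a b m * ind a b n *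
      (((m.gcd n : ℕ) : ℝ) / (m * n)) * (κ + 2 * Real.log (m.gcd n : ℕ)) ≤
    (b - a + 2) ^ 2 * (κ * (1 + b) + (b ^ 2 + 4 * b)) := by
  have step1 : ∀ m ∈ Finset.Ioc 0 N, ∀ n ∈ Finset.Ioc 0 N, ind a b m * ind a b n *
      (((m.gcd n : ℕ) : ℝ) / (m * n)) * (κ + 2 * Real.log (m.gcd n : ℕ)) ≤
      ∑ d ∈ Finset.Ioc 0 N, (dvi d m * (ind a b m * (m : ℝ)⁻¹)) *
        (dvi d n * (ind a b n * (n : ℝ)⁻¹)) * (d * (κ + 2 * Real.log d)) := by
    intro m hm n hn
    rw [Finset.mem_Ioc] at hm hn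
    have hg : 0 < m.gcd n := Nat.gcd_pos_of_pos_left n hm.1
    have hgN : m.gcd n ∈ Finset.Ioc 0 N :=
      Finset.mem_Ioc.2 ⟨hg, (Nat.le_of_dvd hm.1 (Nat.gcd_dvd_left m n)).trans hm.2⟩
    have hd1 : dvi (m.gcd n) m = 1 := by
      unfold K4.GS.dvi
      rw [if_pos (Nat.gcd_dvd_left m n)]
    have hd2 : dvi (m.gcd n) n = 1 := by
      unfold K4.GS.dvi
      rw [if_pos (Nat.gcd_dvd_right m n)]
    refine le_trans (le_of_eq ?_) (Finset.single_le_sum (f := fun d : ℕ =>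
      (dvi d m * (ind a b m * (m : ℝ)⁻¹)) *
        (dvi d n * (ind a b n * (n : ℝ)⁻¹)) * (d * (κ + 2 * Real.log d))) ?_ hgN)
    · simp only [hd1, hd2, one_mul]
      rw [div_eq_mul_inv, mul_inv]
      ring
    · intro d hd
      rw [Finset.mem_Ioc] at hd
      have hld : 0 ≤ Real.log d := Real.log_nonneg (by exact_mod_cast hd.1)
      have q1 : 0 ≤ dvi d m := by unfold K4.GS.dvi; split_ifs <;> norm_num
      have q2 : 0 ≤ dvi d n := by unfold K4.GS.dvi; split_ifs <;> norm_num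
      have q3 := ind_nonneg a b m
      have q4 := ind_nonneg a b n
      positivity
  have step2 : ∑ m ∈ Finset.Ioc 0 N, ∑ n ∈ Finset.Ioc 0 N, ∑ d ∈ Finset.Ioc 0 N,
      (dvi d m * (ind a b m * (m : ℝ)⁻¹)) *
        (dvi d n * (ind a b n * (n : ℝ)⁻¹)) * (d * (κ + 2 * Real.log d)) =
      ∑ d ∈ Finset.Ioc 0 N, (∑ m ∈ Finset.Ioc 0 N, dvi d m * (ind a b m * (m : ℝ)⁻¹)) ^ 2 *
        (d * (κ + 2 * Real.log d)) := by
    calc _ = ∑ m ∈ Finset.Ioc 0 N, ∑ d ∈ Finset.Ioc 0 N, ∑ n ∈ Finset.Ioc 0 N,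
          (dvi d m * (ind a b m * (m : ℝ)⁻¹)) *
          (dvi d n * (ind a b n * (n : ℝ)⁻¹)) * (d * (κ + 2 * Real.log d)) :=
          Finset.sum_congr rfl fun m _ => Finset.sum_comm
      _ = ∑ d ∈ Finset.Ioc 0 N, ∑ m ∈ Finset.Ioc 0 N, ∑ n ∈ Finset.Ioc 0 N,
          (dvi d m * (ind a b m * (m : ℝ)⁻¹)) *
          (dvi d n * (ind a b n * (n : ℝ)⁻¹)) * (d * (κ + 2 * Real.log d)) := Finset.sum_comm
      _ = _ := by
          refine Finset.sum_congr rfl fun d _ => ?_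
          rw [sq, Finset.sum_mul_sum, Finset.sum_mul]
          refine Finset.sum_congr rfl fun m _ => ?_
          rw [Finset.sum_mul]
  have step3 : ∀ d ∈ Finset.Ioc 0 N,
      (∑ m ∈ Finset.Ioc 0 N, dvi d m * (ind a b m * (m : ℝ)⁻¹)) ^ 2 *
        (d * (κ + 2 * Real.log d)) ≤
      if d ∈ Finset.Ioc 0 ⌊Real.exp b⌋₊ then
        (b - a + 2) ^ 2 * (κ * (d : ℝ)⁻¹ + 2 * (Real.log d * (d : ℝ)⁻¹)) else 0 := by
    intro d hd
    rw [Finset.mem_Ioc] at hd
    have hd1 : 1 ≤ d := hd.1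
    have hd0 : (0 : ℝ) < d := by exact_mod_cast hd1
    have hld : 0 ≤ Real.log d := Real.log_nonneg (by exact_mod_cast hd1)
    rw [sum_dvi N hd.1 fun m => ind a b m * (m : ℝ)⁻¹]
    have e : ∑ m ∈ Finset.Ioc 0 (N / d), ind a b (d * m) * ((d * m : ℕ) : ℝ)⁻¹ =
        (d : ℝ)⁻¹ * ∑ m ∈ Finset.Ioc 0 (N / d), ind a b (d * m) * (m : ℝ)⁻¹ := by
      rw [Finset.mul_sum]
      refine Finset.sum_congr rfl fun m _ => ?_
      push_cast
      rw [mul_inv]
      ring
    rw [e]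
    set s := ∑ m ∈ Finset.Ioc 0 (N / d), ind a b (d * m) * (m : ℝ)⁻¹ with hs
    have hs0 : 0 ≤ s := Finset.sum_nonneg fun m _ => mul_nonneg (ind_nonneg _ _ _) (by positivity)
    split_ifs with hmem
    · have hsle : s ≤ b - a + 2 := inner hab hd1 (N / d)
      have e2 : ((d : ℝ)⁻¹ * s) ^ 2 * (d * (κ + 2 * Real.log d)) =
          s ^ 2 * (κ * (d : ℝ)⁻¹ + 2 * (Real.log d * (d : ℝ)⁻¹)) := by
        field_simp
      rw [e2]
      gcongr
    · have hlt : b ≤ Real.log d := by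
        rw [Real.le_log_iff_exp_le hd0]
        by_contra hc
        exact hmem (Finset.mem_Ioc.2 ⟨hd.1, Nat.le_floor (not_le.1 hc).le⟩)
      have : s = 0 := by
        rw [hs]
        refine Finset.sum_eq_zero fun m hm => ?_
        rw [Finset.mem_Ioc] at hm
        rw [ind_zero hd1 hm.1 hlt, zero_mul]
      rw [this]
      simp
  have hE1 : 1 ≤ Real.exp b := Real.one_le_exp hb
  calc _ ≤ ∑ m ∈ Finset.Ioc 0 N, ∑ n ∈ Finset.Ioc 0 N, ∑ d ∈ Finset.Ioc 0 N,
      (dvi d m * (ind a b m * (m : ℝ)⁻¹)) *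
        (dvi d n * (ind a b n * (n : ℝ)⁻¹)) * (d * (κ + 2 * Real.log d)) :=
        Finset.sum_le_sum fun m hm => Finset.sum_le_sum fun n hn => step1 m hm n hn
    _ = _ := step2
    _ ≤ ∑ d ∈ Finset.Ioc 0 N, if d ∈ Finset.Ioc 0 ⌊Real.exp b⌋₊ then
        (b - a + 2) ^ 2 * (κ * (d : ℝ)⁻¹ + 2 * (Real.log d * (d : ℝ)⁻¹)) else 0 :=
        Finset.sum_le_sum step3
    _ ≤ ∑ d ∈ Finset.Ioc 0 ⌊Real.exp b⌋₊,
        (b - a + 2) ^ 2 * (κ * (d : ℝ)⁻¹ + 2 * (Real.log d * (d : ℝ)⁻¹)) := by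
        rw [← Finset.sum_filter]
        apply Finset.sum_le_sum_of_subset_of_nonneg
        · intro d hd
          exact (Finset.mem_filter.1 hd).2
        · intro d hd _
          rw [Finset.mem_Ioc] at hd
          have hld : 0 ≤ Real.log d := Real.log_nonneg (by exact_mod_cast hd.1)
          positivity
    _ = (b - a + 2) ^ 2 * (κ * Hs (Real.exp b) + 2 * H1 (Real.exp b)) := by
        unfold Hs H1
        rw [← Finset.mul_sum, Finset.sum_add_distrib, ← Finset.mul_sum, ← Finset.mul_sum]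
    _ ≤ (b - a + 2) ^ 2 * (κ * (1 + b) + (b ^ 2 + 4 * b)) := by
        have p1 := Hs_bd hE1
        have p2 := H1_bd hE1
        rw [Real.log_exp, abs_le] at p1 p2
        have p3 : Hs (Real.exp b) ≤ 1 + b := by linarith [p1.2]
        have p4 : 2 * H1 (Real.exp b) ≤ b ^ 2 + 4 * b := by linarith [p2.2]
        gcongr

end S1w

open S1w in
/-- (A2) the main term of the window -/
theorem stS1w : StS1w := by
  intro δ η hδ hδ2 hη
  have ev1 : ∀ᶠ T : ℝ in atTop, max (100 / η) 1 ≤ Real.log T :=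
    Real.tendsto_log_atTop.eventually_ge_atTop _
  obtain ⟨T₀, hT₀⟩ := eventually_atTop.mp ev1
  refine ⟨max 3 T₀, le_max_left _ _, fun T hT => ?_⟩
  have h1 := hT₀ T ((le_max_right _ _).trans hT)
  have hT3 : 3 ≤ T := (le_max_left _ _).trans hT
  have hT0 : 0 < T := by linarith
  have hL1 : 1 ≤ Real.log T := (le_max_right _ _).trans h1
  have hLη : 100 / η ≤ Real.log T := (le_max_left _ _).trans h1
  set L := Real.log T with hL
  have hL0 : 0 < L := by linarith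
  set a : ℝ := (1 / 2 - 2 * δ - 1 / 60) * L with ha
  set b : ℝ := (1 / 2 - δ) * L with hb
  set N := ⌊T⌋₊ with hN
  have hIcc : Finset.Icc 1 N = Finset.Ioc 0 N := by
    ext m
    simp only [Finset.mem_Icc, Finset.mem_Ioc]
    omega
  -- a single term
  have hterm : ∀ m ∈ Finset.Icc 1 N, ∀ n ∈ Finset.Icc 1 N,
      0 ≤ Pw δ (Real.log m / L) * Pw δ (Real.log n / L) * ((m.gcd n : ℝ) / (m * n)) *
        (L - Real.log (m / m.gcd n : ℕ) - Real.log (n / m.gcd n : ℕ)) ∧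
      Pw δ (Real.log m / L) * Pw δ (Real.log n / L) * ((m.gcd n : ℝ) / (m * n)) *
        (L - Real.log (m / m.gcd n : ℕ) - Real.log (n / m.gcd n : ℕ)) ≤
      ind a b m * ind a b n * (((m.gcd n : ℕ) : ℝ) / (m * n)) *
        ((1 / 30 + 4 * δ) * L + 2 * Real.log (m.gcd n : ℕ)) := by
    intro m hm n hn
    rw [Finset.mem_Icc] at hm hn
    have hlm : 0 ≤ Real.log m := Real.log_nonneg (by exact_mod_cast hm.1)
    have hln : 0 ≤ Real.log n := Real.log_nonneg (by exact_mod_cast hn.1)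
    have hxm : 0 ≤ Real.log m / L := by positivity
    have hxn : 0 ≤ Real.log n / L := by positivity
    have p1 := Pw_nonneg hδ hxm
    have p2 := Pw_nonneg hδ hxn
    have q1 := Pw_le_ind (L := L) hδ hL0 hm.1
    have q2 := Pw_le_ind (L := L) hδ hL0 hn.1
    rw [← ha, ← hb] at q1 q2
    have hg : 0 < m.gcd n := Nat.gcd_pos_of_pos_left n hm.1
    have hgR : ((m.gcd n : ℕ) : ℝ) ≠ 0 := by exact_mod_cast hg.ne'
    have hm0 : (m : ℝ) ≠ 0 := by
      have : m ≠ 0 := by omega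
      exact_mod_cast this
    have hn0 : (n : ℝ) ≠ 0 := by
      have : n ≠ 0 := by omega
      exact_mod_cast this
    have e1 : Real.log (m / m.gcd n : ℕ) = Real.log m - Real.log (m.gcd n : ℕ) := by
      rw [Nat.cast_div (Nat.gcd_dvd_left m n) hgR, Real.log_div hm0 hgR]
    have e2 : Real.log (n / m.gcd n : ℕ) = Real.log n - Real.log (m.gcd n : ℕ) := by
      rw [Nat.cast_div (Nat.gcd_dvd_right m n) hgR, Real.log_div hn0 hgR]
    have hlg : 0 ≤ Real.log (m.gcd n : ℕ) := Real.log_nonneg (by exact_mod_cast hg)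
    by_cases c1 : a < Real.log m ∧ Real.log m < b
    · by_cases c2 : a < Real.log n ∧ Real.log n < b
      · have w0 : 0 ≤ L - Real.log (m / m.gcd n : ℕ) - Real.log (n / m.gcd n : ℕ) := by
          rw [e1, e2]
          have := c1.2
          have := c2.2
          have : 2 * b ≤ L := by
            rw [hb]
            nlinarith
          linarith
        have w1 : L - Real.log (m / m.gcd n : ℕ) - Real.log (n / m.gcd n : ℕ) ≤
            (1 / 30 + 4 * δ) * L + 2 * Real.log (m.gcd n : ℕ) := by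
          rw [e1, e2]
          have := c1.1
          have := c2.1
          have : L - 2 * a = (1 / 30 + 4 * δ) * L := by
            rw [ha]
            ring
          linarith
        have i1 : ind a b m = 1 := by unfold S1w.ind; rw [if_pos c1]
        have i2 : ind a b n = 1 := by unfold S1w.ind; rw [if_pos c2]
        rw [i1] at q1 ⊢
        rw [i2] at q2 ⊢
        constructor
        · positivity
        · have hPP : Pw δ (Real.log m / L) * Pw δ (Real.log n / L) ≤ 1 * 1 :=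
            mul_le_mul q1 q2 p2 (by norm_num)
          have hgn : (0 : ℝ) ≤ ((m.gcd n : ℕ) : ℝ) / (m * n) := by positivity
          exact mul_le_mul (mul_le_mul_of_nonneg_right hPP hgn) w1 w0 (by positivity)
      · have i2 : ind a b n = 0 := by unfold S1w.ind; rw [if_neg c2]
        rw [i2] at q2 ⊢
        have : Pw δ (Real.log n / L) = 0 := le_antisymm q2 p2
        rw [this]
        simp
    · have i1 : ind a b m = 0 := by unfold S1w.ind; rw [if_neg c1]
      rw [i1] at q1 ⊢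
      have : Pw δ (Real.log m / L) = 0 := le_antisymm q1 p1
      rw [this]
      simp
  refine ⟨?_, ?_⟩
  · unfold S1g
    exact Finset.sum_nonneg fun m hm => Finset.sum_nonneg fun n hn => (hterm m hm n hn).1
  · have hab : a ≤ b := by
      rw [ha, hb]
      gcongr ?_ * _
      linarith
    have hb0 : 0 ≤ b := by
      rw [hb]
      apply mul_nonneg _ hL0.le
      linarith
    have h2 : S1g (Pw δ) T ≤
        (b - a + 2) ^ 2 * ((1 / 30 + 4 * δ) * L * (1 + b) + (b ^ 2 + 4 * b)) := by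
      refine le_trans ?_ (pairs hab hb0 (by positivity) N)
      unfold S1g
      rw [← hIcc]
      exact Finset.sum_le_sum fun m hm => Finset.sum_le_sum fun n hn => (hterm m hm n hn).2
    refine h2.trans ?_
    have hba : b - a = (1 / 60 + δ) * L := by
      rw [ha, hb]
      ring
    have hpi : 27 / 100 ≤ 6 / Real.pi ^ 2 / 2 := by
      rw [div_div, le_div_iff₀ (by positivity)]
      have := Real.pi_lt_d2
      have := Real.pi_pos
      nlinarith
    have k1 : (b - a + 2) ^ 2 ≤ (1 / 60 + δ) ^ 2 * L ^ 2 + 8 * L := by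
      rw [hba]
      have hs1 : 4 * (1 / 60 + δ) * L ≤ 1 * L := by
        gcongr
        linarith
      have e : ((1 / 60 + δ) * L + 2) ^ 2 =
          (1 / 60 + δ) ^ 2 * L ^ 2 + (4 * (1 / 60 + δ) * L + 4) := by ring
      rw [e]
      linarith
    have k2 : (1 / 30 + 4 * δ) * L * (1 + b) + (b ^ 2 + 4 * b) ≤ 27 / 100 * L ^ 2 + 3 * L := by
      rw [hb]
      have hs : (1 / 2 - δ) * (8 / 15 + 3 * δ) ≤ 27 / 100 := by
        have e : (1 / 2 - δ) * (8 / 15 + 3 * δ) = 4 / 15 + 29 / 30 * δ - 3 * δ ^ 2 := by ring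
        rw [e]
        have := sq_nonneg δ
        linarith
      have hs2 : (1 / 30 + 4 * δ) + 4 * (1 / 2 - δ) ≤ 3 := by linarith
      have e : (1 / 30 + 4 * δ) * L * (1 + (1 / 2 - δ) * L) +
          (((1 / 2 - δ) * L) ^ 2 + 4 * ((1 / 2 - δ) * L)) =
          ((1 / 2 - δ) * (8 / 15 + 3 * δ)) * L ^ 2 +
            ((1 / 30 + 4 * δ) + 4 * (1 / 2 - δ)) * L := by ring
      rw [e]
      gcongr
    have k3 : (0 : ℝ) ≤ (1 / 30 + 4 * δ) * L * (1 + b) + (b ^ 2 + 4 * b) := by positivity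
    have k4 : (1 / 60 + δ) ^ 2 ≤ (1 / 60 + 2 * δ) ^ 2 := by
      gcongr
      linarith
    have k5 : (1 / 60 + δ) ^ 2 ≤ 1 := pow_le_one₀ (by positivity) (by linarith)
    have k6 : 100 ≤ η * L := by
      rw [div_le_iff₀ hη] at hLη
      linarith
    calc (b - a + 2) ^ 2 * ((1 / 30 + 4 * δ) * L * (1 + b) + (b ^ 2 + 4 * b))
        ≤ ((1 / 60 + δ) ^ 2 * L ^ 2 + 8 * L) * (27 / 100 * L ^ 2 + 3 * L) :=
          mul_le_mul k1 k2 k3 (by positivity)
      _ = 27 / 100 * (1 / 60 + δ) ^ 2 * L ^ 4 + (3 * (1 / 60 + δ) ^ 2 + 216 / 100) * L ^ 3 +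
            24 * L ^ 2 := by ring
      _ ≤ 27 / 100 * (1 / 60 + 2 * δ) ^ 2 * L ^ 4 + 30 * L ^ 3 := by
          have l2 : L ^ 2 ≤ L ^ 3 := pow_le_pow_right₀ hL1 (by norm_num)
          have l4 : 0 ≤ L ^ 4 := by positivity
          have l3 : 0 ≤ L ^ 3 := by positivity
          have t1 : 27 / 100 * (1 / 60 + δ) ^ 2 * L ^ 4 ≤
              27 / 100 * (1 / 60 + 2 * δ) ^ 2 * L ^ 4 := by gcongr
          have t2 : (3 * (1 / 60 + δ) ^ 2 + 216 / 100) * L ^ 3 ≤ 6 * L ^ 3 := by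
            gcongr
            linarith
          linarith
      _ ≤ 6 / Real.pi ^ 2 / 2 * (1 / 60 + 2 * δ) ^ 2 * L ^ 4 + η * L ^ 4 := by
          have t1 : 27 / 100 * (1 / 60 + 2 * δ) ^ 2 * L ^ 4 ≤
              6 / Real.pi ^ 2 / 2 * (1 / 60 + 2 * δ) ^ 2 * L ^ 4 := by gcongr
          have t2 : 30 * L ^ 3 ≤ η * L ^ 4 := by
            have : η * L ^ 4 = (η * L) * L ^ 3 := by ring
            rw [this]
            gcongr
            linarith
          linarith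
      _ = (6 / Real.pi ^ 2 * ((1 / 60 + 2 * δ) ^ 2 / 2) + η) * L ^ 4 := by ring

end K7
end Pool.Agent.Lib.MP_973905_nt
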