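import Pool.Agent.Lib.MP_973905_nt.K7.Stmts
import Pool.Agent.Lib.MP_973905_nt.K5.SecF
import Pool.Agent.Lib.MP_973905_nt.K5.Rho
import Pool.Agent.Lib.MP_973905_nt.K2.Arith2

/-! (S11) Gaussian means on scales `T' ≤ T`, side of the second moment: `stSecA`. -/

namespace Pool.Agent.Lib.MP_973905_nt
namespace K7

open MeasureTheory ProbabilityTheory Complex Filter Topology K1 K4 K5

namespace SecAAux

/-- the exact evaluation with an entire function -/
lemma long_apply (hL : K5.StLong) (hq : StBQ7) (hf : StFactA) {κ : ℝ} (hk0 : 0 < κ)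
    (hk1 : κ < 1) :
    ∃ M₀ : ℕ, ∀ M : ℕ, M₀ ≤ M → ∃ T₀ : ℝ, 3 ≤ T₀ ∧ ∀ T, T₀ ≤ T → ∀ g h : Finset ℕ,
      ∃ R : ℂ → ℂ, Differentiable ℂ R ∧
      (∀ w : ℂ, ‖w‖ ≤ 1 / Real.log T → R w =
        (∏ j ∈ Finset.range (JJ T + 1), EBo T M (1 + κ) g h w j) *
          ∏ i ∈ Finset.range (M - 6), ETG κ T w i) ∧
      ∀ T' : ℝ, T ^ (98 / 100 : ℝ) ≤ T' → T' ≤ T → ∀ τ : ℝ, T' / Real.log T' ≤ |τ| →
        |τ| ≤ 3 / 2 * T' →
        EG T' τ (fun t => ‖riemannZeta (1 / 2 + t * I)‖ ^ 2 *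
          WG κ T M g h (fs (1 / 2 + t * I))) ≤
        (R 0 * ((Real.log (|τ| / (2 * Real.pi)) + 2 * Real.eulerMascheroniConstant : ℝ) : ℂ) +
          deriv R 0).re + T ^ (-(49 / 10000) : ℝ) := by
  obtain ⟨M₁, hM₁, h1⟩ := hq κ hk0 hk1
  obtain ⟨T₂, hT₂, h2⟩ := hL
  refine ⟨max M₁ 7, fun M hM => ?_⟩
  obtain ⟨T₁, hT₁, h1⟩ := h1 M ((le_max_left _ _).trans hM)
  obtain ⟨T₃, hT₃, h3⟩ := hf κ M ((le_max_right _ _).trans hM)
  obtain ⟨T₄, hT₄⟩ := ((tendsto_rpow_atTop (show (0 : ℝ) < 98 / 100 by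
    norm_num)).eventually_ge_atTop T₂).exists_forall_of_atTop
  refine ⟨max T₁ (max T₃ T₄), hT₁.trans (le_max_left _ _), fun T hT g h => ?_⟩
  have hTT₁ : T₁ ≤ T := (le_max_left _ _).trans hT
  have hTT₃ : T₃ ≤ T := (le_max_left _ _).trans ((le_max_right _ _).trans hT)
  have hTT₄ : T₄ ≤ T := (le_max_right _ _).trans ((le_max_right _ _).trans hT)
  have hT3 : 3 ≤ T := hT₁.trans hTT₁
  have hT0 : 0 < T := by linarith
  have hT1 : 1 ≤ T := by linarith
  obtain ⟨c, hc1, hc2, hc3⟩ := (h1 T hTT₁ g h).2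
  set N := ⌊T ^ (1 / 60 : ℝ)⌋₊ with hN
  have hN0 : (N : ℝ) ≤ T ^ (1 / 60 : ℝ) := Nat.floor_le (Real.rpow_nonneg hT0.le _)
  have hN1 : (N : ℝ) ≤ T ^ (98 / 100 : ℝ) := hN0.trans
    (Real.rpow_le_rpow_of_exponent_le hT1 (by norm_num))
  have hNT : (N : ℝ) ≤ T := by
    refine hN1.trans ?_
    calc T ^ (98 / 100 : ℝ) ≤ T ^ (1 : ℝ) :=
          Real.rpow_le_rpow_of_exponent_le hT1 (by norm_num)
      _ = T := Real.rpow_one T
  refine ⟨RB N c, K5.SecFAux.RB_diff N c, fun w hw => ?_, fun T' hT'1 hT'2 τ hτ1 hτ2 => ?_⟩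
  · exact h3 T hTT₃ g h N c hNT (fun f hf' => hc3 f hf') w hw
  · have hp0 : 0 < T ^ (98 / 100 : ℝ) := Real.rpow_pos_of_pos hT0 _
    have hT'0 : 0 < T' := lt_of_lt_of_le hp0 hT'1
    have hTT₂ : T₂ ≤ T' := (hT₄ T hTT₄).trans hT'1
    have hc1' : ∀ m n, ‖c m n‖ ≤ T' ^ (1 / 1000 : ℝ) := by
      intro m n
      refine (hc1 m n).trans ?_
      calc T ^ (1 / 2000 : ℝ) ≤ T ^ (98 / 100 * (1 / 1000) : ℝ) :=
            Real.rpow_le_rpow_of_exponent_le hT1 (by norm_num)
        _ = (T ^ (98 / 100 : ℝ)) ^ (1 / 1000 : ℝ) := Real.rpow_mul hT0.le _ _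
        _ ≤ T' ^ (1 / 1000 : ℝ) := Real.rpow_le_rpow hp0.le hT'1 (by norm_num)
    have hc2' : ∀ m n : ℕ, T' ^ (89 / 100 : ℝ) < (m : ℝ) * n → c m n = 0 := by
      intro m n hmn
      refine hc2 m n (lt_of_le_of_lt ?_ hmn)
      calc T ^ (1 / 60 : ℝ) ≤ T ^ (98 / 100 * (89 / 100) : ℝ) :=
            Real.rpow_le_rpow_of_exponent_le hT1 (by norm_num)
        _ = (T ^ (98 / 100 : ℝ)) ^ (89 / 100 : ℝ) := Real.rpow_mul hT0.le _ _
        _ ≤ T' ^ (89 / 100 : ℝ) := Real.rpow_le_rpow hp0.le hT'1 (by norm_num)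
    have h4 := h2 T' hTT₂ τ hτ1 hτ2 N c (hN1.trans hT'1) hc1' hc2'
    have h5 : EG T' τ (fun t => ((‖riemannZeta (1 / 2 + t * I)‖ ^ 2 : ℝ) : ℂ) *
        GB N c (fs (1 / 2 + t * I))) =
        ((EG T' τ (fun t => ‖riemannZeta (1 / 2 + t * I)‖ ^ 2 *
          WG κ T M g h (fs (1 / 2 + t * I))) : ℝ) : ℂ) := by
      unfold EG
      refine Eq.trans (integral_congr_ae (Filter.Eventually.of_forall fun t => ?_))
        integral_complex_ofReal
      show _ * _ = _
      rw [← hc3 _ (cmul_fs _), ← Complex.ofReal_mul]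
    rw [h5] at h4
    have h6 := (Complex.abs_re_le_norm _).trans h4
    rw [Complex.sub_re, Complex.ofReal_re] at h6
    have h7 := (abs_le.1 h6).2
    have h8 : T' ^ (-(5 / 1000) : ℝ) ≤ T ^ (-(49 / 10000) : ℝ) := by
      calc T' ^ (-(5 / 1000) : ℝ) ≤ (T ^ (98 / 100 : ℝ)) ^ (-(5 / 1000) : ℝ) :=
            Real.rpow_le_rpow_of_nonpos hp0 hT'1 (by norm_num)
        _ = T ^ (98 / 100 * -(5 / 1000) : ℝ) := (Real.rpow_mul hT0.le _ _).symm
        _ = T ^ (-(49 / 10000) : ℝ) := by norm_num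
    linarith

/-- the logarithm of the conductor, on smaller scales -/
lemma log_bounds' {T T' τ : ℝ} (hT' : 3 ≤ T') (hTT : T' ≤ T)
    (hT2 : 2 * Real.pi * Real.log T' ≤ T')
    (h1 : T' / Real.log T' ≤ |τ|) (h2 : |τ| ≤ 3 / 2 * T') :
    0 ≤ Real.log (|τ| / (2 * Real.pi)) + 2 * Real.eulerMascheroniConstant ∧
      Real.log (|τ| / (2 * Real.pi)) + 2 * Real.eulerMascheroniConstant ≤ Real.log T + 2 := by
  obtain ⟨ha, hb⟩ := K5.SecFAux.log_bounds hT' hT2 h1 h2
  refine ⟨ha, hb.trans ?_⟩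
  have := Real.log_le_log (by linarith) hTT
  linarith

end SecAAux

open K5.SecFAux SecAAux in
theorem stSecA (hL : K5.StLong) (hq : StBQ7) (hf : StFactA) (hm : StBotA) (hc : StBotAC)
    (ht : StTopA) (hr : StRhoA) : StSecA := by
  intro κ hk0 hk1
  obtain ⟨hρd, hρ0, hρ', C, hC1, hCP, hCρ⟩ := hr κ hk0 hk1
  obtain ⟨-, -, -, Ca, hCa1, hCa, -, -⟩ := K5.stRho κ hk0 hk1
  have hC0 : 0 < C := by linarith
  obtain ⟨Ml, hl⟩ := SecAAux.long_apply hL hq hf hk0 hk1
  have hev20 : ∀ᶠ T : ℝ in atTop, 2 * Real.pi * Real.log T ≤ T := by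
    have := (Real.isLittleO_log_id_atTop.def (c := (2 * Real.pi)⁻¹) (by positivity))
    filter_upwards [this, eventually_ge_atTop (1 : ℝ)] with T h1 h2
    rw [Real.norm_of_nonneg (Real.log_nonneg h2), id, Real.norm_of_nonneg (by linarith)] at h1
    have hpi := Real.pi_pos
    calc 2 * Real.pi * Real.log T ≤ 2 * Real.pi * ((2 * Real.pi)⁻¹ * T) :=
          mul_le_mul_of_nonneg_left h1 (by positivity)
      _ = T := by field_simp
  have hev2 : ∀ᶠ T : ℝ in atTop, ∀ T' : ℝ, T ^ (98 / 100 : ℝ) ≤ T' →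
      3 ≤ T' ∧ 2 * Real.pi * Real.log T' ≤ T' := by
    obtain ⟨S, hS⟩ := hev20.exists_forall_of_atTop
    filter_upwards [(tendsto_rpow_atTop (show (0 : ℝ) < 98 / 100 by
      norm_num)).eventually_ge_atTop (max S 3)] with T hT T' hT'
    exact ⟨(le_max_right _ _).trans (hT.trans hT'), hS T' ((le_max_left _ _).trans (hT.trans hT'))⟩
  constructor
  · -- the main part
    intro η hη
    set η3 : ℝ := min η 1 / 8 with hη3
    have hmin : 0 < min η 1 := lt_min hη one_pos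
    have hη30 : 0 < η3 := by positivity
    have hη3a : 8 * η3 ≤ η := by
      have := min_le_left η 1
      rw [hη3]
      linarith
    have hη3b : η3 ≤ 1 / 8 := by
      have := min_le_right η 1
      rw [hη3]
      linarith
    set η1 : ℝ := η3 / (2 * (C + 1)) with hη1
    set η2 : ℝ := η3 / 2 with hη2
    have hη10 : 0 < η1 := by positivity
    have hη20 : 0 < η2 := by positivity
    obtain ⟨Mm, hm⟩ := hm κ hk0 hk1 η1 hη10
    refine ⟨max (max Ml Mm) 7, fun M hM => ?_⟩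
    have hM3 : 7 ≤ M := (le_max_right _ _).trans hM
    obtain ⟨T₁, hT₁, h1⟩ := hl M ((le_max_left _ _).trans ((le_max_left _ _).trans hM))
    obtain ⟨T₂, hT₂, h2⟩ := hm M ((le_max_right _ _).trans ((le_max_left _ _).trans hM))
    set n := M - 6 with hn
    set PA : ℝ := ∏ i ∈ Finset.range n, aG κ i with hPA
    have haF0 : ∀ i, 0 < aG κ i := fun i => lt_of_lt_of_le (by positivity) (hCa i).2.2.1
    have hPA0 : 0 < PA := Finset.prod_pos fun i _ => haF0 i
    -- the precision for the top blocks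
    set ε : ℝ := min 1 (η2 * PA / ((n + 1) * (C + 1) ^ n)) with hε
    have hε0 : 0 < ε := lt_min one_pos (by positivity)
    have hε1 : ε ≤ 1 := min_le_left _ _
    have hεn : n * (C + 1) ^ n * ε ≤ η2 * PA := by
      have e1 : ε ≤ η2 * PA / ((n + 1) * (C + 1) ^ n) := min_le_right _ _
      rw [le_div_iff₀ (by positivity)] at e1
      have e2 : 0 ≤ (C + 1) ^ n * ε := by positivity
      nlinarith
    obtain ⟨T₃, hT₃, h3⟩ := unif (fun i => ht κ hk0 hk1 i ε hε0) n
    have haK : 0 < aK (1 + κ) := K2.Arith2.aK_pos2 (by linarith) (by linarith)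
    -- the size of `T`
    have hev : ∀ᶠ T : ℝ in atTop, (∀ T' : ℝ, T ^ (98 / 100 : ℝ) ≤ T' →
        3 ≤ T' ∧ 2 * Real.pi * Real.log T' ≤ T') ∧ 2 / η3 ≤ Real.log T ∧
        Real.exp M ≤ Real.log T ∧ T ^ (-(49 / 10000) : ℝ) ≤ η3 * (aK (1 + κ) * PA) := by
      have e1 := Real.tendsto_log_atTop.eventually_ge_atTop (2 / η3)
      have e2 := Real.tendsto_log_atTop.eventually_ge_atTop (Real.exp M)
      have e3 : ∀ᶠ T : ℝ in atTop, T ^ (-(49 / 10000) : ℝ) < η3 * (aK (1 + κ) * PA) :=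
        (tendsto_rpow_neg_atTop (show (0 : ℝ) < 49 / 10000 by norm_num)).eventually_lt_const
          (by positivity)
      filter_upwards [hev2, e1, e2, e3] with T a b c d
      exact ⟨a, b, c, d.le⟩
    obtain ⟨T₄, h4⟩ := hev.exists_forall_of_atTop
    refine ⟨max (max T₁ T₂) (max T₃ T₄), (hT₁.trans (le_max_left _ _)).trans (le_max_left _ _),
      fun T hT T' hT'1 hT'2 τ hτ1 hτ2 => ?_⟩
    have hTT₁ : T₁ ≤ T := ((le_max_left _ _).trans (le_max_left _ _)).trans hT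
    have hTT₂ : T₂ ≤ T := ((le_max_right _ _).trans (le_max_left _ _)).trans hT
    have hTT₃ : T₃ ≤ T := ((le_max_left _ _).trans (le_max_right _ _)).trans hT
    have hTT₄ : T₄ ≤ T := ((le_max_right _ _).trans (le_max_right _ _)).trans hT
    have hT3 : 3 ≤ T := hT₁.trans hTT₁
    obtain ⟨hTa, hTb, hTc, hTd⟩ := h4 T hTT₄
    set L := Real.log T with hLdef
    have hL1 : 1 ≤ L := (Real.one_le_exp (Nat.cast_nonneg M)).trans hTc
    have hL0 : 0 < L := by linarith
    obtain ⟨R, hR, hRe, hRE⟩ := h1 T hTT₁ (Finset.range (JJ T + 1)) ∅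
    have hEG := hRE T' hT'1 hT'2 τ hτ1 hτ2
    obtain ⟨hΛ0, hΛ1⟩ := SecAAux.log_bounds' (hTa T' hT'1).1 hT'2 (hTa T' hT'1).2 hτ1 hτ2
    set Λ := Real.log (|τ| / (2 * Real.pi)) + 2 * Real.eulerMascheroniConstant with hΛ
    set D0 : ℝ := aK (1 + κ) * lM T M ^ ((1 + κ) ^ 2 - 1) with hD0
    have hlM : 0 < lM T M := by
      unfold lM
      positivity
    have hD00 : 0 < D0 := mul_pos haK (Real.rpow_pos_of_pos hlM _)
    have hclose : ∀ u : ℂ, ‖u‖ ≤ 1 → ‖R (u / L) - (D0 : ℂ) * rhoA κ M u‖ ≤ D0 * PA * η3 := by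
      intro u hu
      have hw : ‖u / (L : ℂ)‖ ≤ 1 / L := by
        rw [norm_div, Complex.norm_real, Real.norm_of_nonneg hL0.le]
        exact div_le_div_of_nonneg_right hu hL0.le
      have hE := h2 T hTT₂ (u / L) hw
      have hB := prod_close (a := fun i => ETG κ T (u / L) i)
        (b := fun i => PhF (1 - κ) i (((2 * Vv i : ℝ) : ℂ) - vv (tq (i + 1)) (tq i) u)) hC0.le hε0.le hε1 n
        (fun i _ => hCP i u hu) (fun i hi => h3 T hTT₃ i hi u hu)
      obtain ⟨-, -, hB3⟩ := hB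
      have hrho : rhoA κ M u = ∏ i ∈ Finset.range n, PhF (1 - κ) i (((2 * Vv i : ℝ) : ℂ) - vv (tq (i + 1)) (tq i) u) := rfl
      rw [← hrho] at hB3
      have hB4 := hB3.trans hεn
      set E := ∏ j ∈ Finset.range (JJ T + 1), EBo T M (1 + κ) (Finset.range (JJ T + 1)) ∅ (u / L) j
        with hEdef
      set B := ∏ i ∈ Finset.range n, ETG κ T (u / L) i with hBdef
      rw [hRe (u / L) hw]
      have hBn : ‖B‖ ≤ (C + 1) * PA := by
        have e1 : B = (B - rhoA κ M u) + rhoA κ M u := by ring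
        rw [e1]
        refine (norm_add_le _ _).trans ?_
        have e2 := hCρ M u hu
        have e3 : η2 * PA ≤ 1 * PA := by
          apply mul_le_mul_of_nonneg_right _ hPA0.le
          rw [hη2]
          linarith
        calc ‖B - rhoA κ M u‖ + ‖rhoA κ M u‖ ≤ η2 * PA + C * PA := add_le_add hB4 e2
          _ ≤ 1 * PA + C * PA := by linarith
          _ = _ := by ring
      have e1 : E * B - (D0 : ℂ) * rhoA κ M u = (E - (D0 : ℂ)) * B +
          (D0 : ℂ) * (B - rhoA κ M u) := by ring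
      rw [e1]
      refine (norm_add_le _ _).trans ?_
      rw [norm_mul, norm_mul, Complex.norm_real, Real.norm_of_nonneg hD00.le]
      have e2 : ‖E - (D0 : ℂ)‖ * ‖B‖ ≤ (η1 * D0) * ((C + 1) * PA) :=
        mul_le_mul hE hBn (norm_nonneg _) (by positivity)
      have e3 : D0 * ‖B - rhoA κ M u‖ ≤ D0 * (η2 * PA) := mul_le_mul_of_nonneg_left hB4 hD00.le
      have e4 : (η1 * D0) * ((C + 1) * PA) + D0 * (η2 * PA) = D0 * PA * η3 := by
        rw [hη1, hη2]
        field_simp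
        ring
      linarith
    have hR0 : (R 0).re ≤ D0 * PA * (1 + η3) := by
      have e1 := hclose 0 (by simp)
      rw [zero_div, hρ0 M] at e1
      have e2 := (Complex.abs_re_le_norm _).trans e1
      rw [Complex.sub_re, ← Complex.ofReal_mul, Complex.ofReal_re] at e2
      have e3 := (abs_le.1 e2).2
      have e4 : D0 * PA * (1 + η3) = D0 * PA + D0 * PA * η3 := by ring
      rw [e4]
      linarith
    have hR1 : (deriv R 0).re ≤ L * (D0 * (2 * κ * tq 0 * PA)) + L * (D0 * PA * η3) := by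
      have e1 := cauchy hR (hρd M) hL0 hclose
      have e2 := (Complex.abs_re_le_norm _).trans e1
      rw [Complex.sub_re] at e2
      have e3 : ((L : ℂ) * ((D0 : ℂ) * deriv (rhoA κ M) 0)).re =
          L * (D0 * (deriv (rhoA κ M) 0).re) := by
        rw [Complex.re_ofReal_mul, Complex.re_ofReal_mul]
      rw [e3] at e2
      have e4 := (abs_le.1 e2).2
      have e5 : L * (D0 * (deriv (rhoA κ M) 0).re) ≤ L * (D0 * (2 * κ * tq 0 * PA)) :=
        mul_le_mul_of_nonneg_left (mul_le_mul_of_nonneg_left (hρ' M) hD00.le) hL0.le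
      linarith
    have hDL : aK (1 + κ) ≤ D0 * L := by
      have e1 : 1 ≤ lM T M ^ ((1 + κ) ^ 2 - 1) * L := by
        have hk2 : 0 ≤ (1 + κ) ^ 2 - 1 := by nlinarith
        have hg := Real.one_half_lt_eulerMascheroniConstant
        have e2 : 1 ≤ lM T M := by
          rw [lM]
          calc (1 : ℝ) = Real.exp (-M) * Real.exp M := by
                rw [← Real.exp_add, neg_add_cancel, Real.exp_zero]
            _ ≤ Real.exp (Real.eulerMascheroniConstant - M) * L := by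
                apply mul_le_mul _ hTc (Real.exp_nonneg _) (Real.exp_nonneg _)
                exact Real.exp_le_exp.2 (by linarith)
        calc (1 : ℝ) = 1 * 1 := by ring
          _ ≤ _ := mul_le_mul (Real.one_le_rpow e2 hk2) hL1 zero_le_one
            (Real.rpow_nonneg hlM.le _)
      calc aK (1 + κ) = aK (1 + κ) * 1 := by ring
        _ ≤ aK (1 + κ) * (lM T M ^ ((1 + κ) ^ 2 - 1) * L) := mul_le_mul_of_nonneg_left e1 haK.le
        _ = D0 * L := by rw [hD0]; ring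
    have hsmall : T ^ (-(49 / 10000) : ℝ) ≤ η3 * (D0 * L * PA) := by
      refine hTd.trans (mul_le_mul_of_nonneg_left ?_ hη30.le)
      exact mul_le_mul_of_nonneg_right hDL hPA0.le
    have hre : (R 0 * ((Λ : ℝ) : ℂ) + deriv R 0).re = (R 0).re * Λ + (deriv R 0).re := by
      rw [Complex.add_re, mul_comm (R 0), Complex.re_ofReal_mul, mul_comm Λ]
    rw [hre] at hEG
    have h5 : (R 0).re * Λ ≤ D0 * PA * (1 + η3) * (L + 2) :=
      (mul_le_mul_of_nonneg_right hR0 hΛ0).trans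
        (mul_le_mul_of_nonneg_left hΛ1 (by positivity))
    have h6 : L + 2 ≤ L * (1 + η3) := by
      rw [div_le_iff₀ hη30] at hTb
      linarith
    have h7 : D0 * PA * (1 + η3) * (L + 2) ≤ D0 * PA * (1 + η3) * (L * (1 + η3)) :=
      mul_le_mul_of_nonneg_left h6 (by positivity)
    refine hEG.trans ?_
    have hX : 0 < D0 * L * PA := by positivity
    have h8 : D0 * PA * (1 + η3) * (L * (1 + η3)) + (L * (D0 * (2 * κ * tq 0 * PA)) +
        L * (D0 * PA * η3)) + η3 * (D0 * L * PA) =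
        D0 * L * PA * ((1 + η3) ^ 2 + 2 * κ * tq 0 + 2 * η3) := by ring
    have h9 : (1 + η3) ^ 2 + 2 * κ * tq 0 + 2 * η3 ≤ 1 + 2 * κ * tq 0 + η := by
      nlinarith
    have h10 := mul_le_mul_of_nonneg_left h9 hX.le
    calc (R 0).re * Λ + (deriv R 0).re + T ^ (-(49 / 10000) : ℝ) ≤
        D0 * L * PA * ((1 + η3) ^ 2 + 2 * κ * tq 0 + 2 * η3) := by
          rw [← h8]
          linarith
      _ ≤ D0 * L * PA * (1 + 2 * κ * tq 0 + η) := h10
  · -- the crude part
    obtain ⟨Cb, hCb, Mc, hc⟩ := hc κ hk0 hk1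
    refine ⟨Cb + C + 2, 49 / 10000, by positivity, by norm_num, max (max Ml Mc) 7, fun M hM => ?_⟩
    have hM3 : 7 ≤ M := (le_max_right _ _).trans hM
    have hM3' : (7 : ℝ) ≤ M := by exact_mod_cast hM3
    obtain ⟨T₁, hT₁, h1⟩ := hl M ((le_max_left _ _).trans ((le_max_left _ _).trans hM))
    obtain ⟨T₂, hT₂, h2⟩ := hc M ((le_max_right _ _).trans ((le_max_left _ _).trans hM))
    set n := M - 6 with hn
    obtain ⟨T₃, hT₃, h3⟩ := unif (fun i => ht κ hk0 hk1 i 1 one_pos) n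
    have hev : ∀ᶠ T : ℝ in atTop, (∀ T' : ℝ, T ^ (98 / 100 : ℝ) ≤ T' →
        3 ≤ T' ∧ 2 * Real.pi * Real.log T' ≤ T') ∧ 1 ≤ Real.log T := by
      have e2 := Real.tendsto_log_atTop.eventually_ge_atTop 1
      filter_upwards [hev2, e2] with T a b
      exact ⟨a, b⟩
    obtain ⟨T₄, h4⟩ := hev.exists_forall_of_atTop
    refine ⟨max (max T₁ T₂) (max T₃ T₄), (hT₁.trans (le_max_left _ _)).trans (le_max_left _ _),
      fun T hT T' hT'1 hT'2 τ hτ1 hτ2 g h hgh => ?_⟩
    have hTT₁ : T₁ ≤ T := ((le_max_left _ _).trans (le_max_left _ _)).trans hT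
    have hTT₂ : T₂ ≤ T := ((le_max_right _ _).trans (le_max_left _ _)).trans hT
    have hTT₃ : T₃ ≤ T := ((le_max_left _ _).trans (le_max_right _ _)).trans hT
    have hTT₄ : T₄ ≤ T := ((le_max_right _ _).trans (le_max_right _ _)).trans hT
    have hT3 : 3 ≤ T := hT₁.trans hTT₁
    obtain ⟨hTa, hTc⟩ := h4 T hTT₄
    set L := Real.log T with hLdef
    have hL0 : 0 < L := by linarith
    obtain ⟨R, hR, hRe, hRE⟩ := h1 T hTT₁ g h
    have hEG := hRE T' hT'1 hT'2 τ hτ1 hτ2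
    obtain ⟨hΛ0, hΛ1⟩ := SecAAux.log_bounds' (hTa T' hT'1).1 hT'2 (hTa T' hT'1).2 hτ1 hτ2
    set Λ := Real.log (|τ| / (2 * Real.pi)) + 2 * Real.eulerMascheroniConstant with hΛ
    have hss : 0 ≤ ∏ j ∈ h, ss M (JJ T) j := Finset.prod_nonneg fun j _ => (Real.exp_pos _).le
    set Sp := ∏ j ∈ h, ss M (JJ T) j with hSp
    set Bd : ℝ := Real.exp (Cb * M) * L ^ ((1 + κ) ^ 2 - 1) * Sp * Real.exp (C * M) with hBd
    have hLk : 0 < L ^ ((1 + κ) ^ 2 - 1) := Real.rpow_pos_of_pos hL0 _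
    have hBd0 : 0 ≤ Bd := by positivity
    have hclose : ∀ u : ℂ, ‖u‖ ≤ 1 → ‖R (u / L) - (0 : ℂ) * (fun _ : ℂ => (0 : ℂ)) u‖ ≤ Bd := by
      intro u hu
      have hw : ‖u / (L : ℂ)‖ ≤ 1 / L := by
        rw [norm_div, Complex.norm_real, Real.norm_of_nonneg hL0.le]
        exact div_le_div_of_nonneg_right hu hL0.le
      have hE := h2 T hTT₂ g h hgh (u / L) hw
      have hB := (prod_close (a := fun i => ETG κ T (u / L) i)
        (b := fun i => PhF (1 - κ) i (((2 * Vv i : ℝ) : ℂ) - vv (tq (i + 1)) (tq i) u)) hC0.le zero_le_one le_rfl n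
        (fun i _ => hCP i u hu) (fun i hi => h3 T hTT₃ i hi u hu)).1
      have hB' : ‖∏ i ∈ Finset.range n, ETG κ T (u / L) i‖ ≤ Real.exp (C * M) := by
        refine hB.trans ?_
        have e1 : (C + 1) ^ n ≤ Real.exp C ^ n :=
          pow_le_pow_left₀ (by positivity) (Real.add_one_le_exp C) n
        refine e1.trans ?_
        rw [← Real.exp_nat_mul]
        apply Real.exp_le_exp.2
        rw [mul_comm]
        apply mul_le_mul_of_nonneg_left _ hC0.le
        have : n ≤ M := Nat.sub_le M 6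
        exact_mod_cast this
      rw [zero_mul, sub_zero, hRe (u / L) hw, norm_mul]
      exact mul_le_mul hE hB' (norm_nonneg _) (by positivity)
    have hR0 : (R 0).re ≤ Bd := by
      have e1 := hclose 0 (by simp)
      rw [zero_div, zero_mul, sub_zero] at e1
      exact (Complex.re_le_norm _).trans e1
    have hR1 : (deriv R 0).re ≤ L * Bd := by
      have e1 := cauchy hR (differentiable_const (0 : ℂ)) hL0 hclose
      rw [zero_mul, mul_zero, sub_zero] at e1
      exact (Complex.re_le_norm _).trans e1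
    have hre : (R 0 * ((Λ : ℝ) : ℂ) + deriv R 0).re = (R 0).re * Λ + (deriv R 0).re := by
      rw [Complex.add_re, mul_comm (R 0), Complex.re_ofReal_mul, mul_comm Λ]
    rw [hre] at hEG
    have h5 : (R 0).re * Λ ≤ Bd * (L + 2) :=
      (mul_le_mul_of_nonneg_right hR0 hΛ0).trans (mul_le_mul_of_nonneg_left hΛ1 hBd0)
    have h6 : Bd * (L + 2) + L * Bd ≤ Real.exp ((Cb + C + 2) * M) * L ^ ((1 + κ) ^ 2) * Sp := by
      have e1 : L ^ ((1 + κ) ^ 2 - 1) * L = L ^ ((1 + κ) ^ 2) := by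
        rw [← Real.rpow_add_one hL0.ne']
        congr 1
        ring
      have e2 : (4 : ℝ) ≤ Real.exp (2 * M) := by
        have := Real.add_one_le_exp (2 * (M : ℝ))
        linarith
      have e3 : Real.exp ((Cb + C + 2) * M) =
          Real.exp (Cb * M) * Real.exp (C * M) * Real.exp (2 * M) := by
        rw [← Real.exp_add, ← Real.exp_add]
        congr 1
        ring
      calc Bd * (L + 2) + L * Bd ≤ Bd * (4 * L) := by nlinarith
        _ = (Real.exp (Cb * M) * Real.exp (C * M) * (L ^ ((1 + κ) ^ 2 - 1) * L) * Sp) * 4 := by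
            rw [hBd]
            ring
        _ ≤ (Real.exp (Cb * M) * Real.exp (C * M) * (L ^ ((1 + κ) ^ 2 - 1) * L) * Sp) *
              Real.exp (2 * M) := mul_le_mul_of_nonneg_left e2 (by positivity)
        _ = _ := by
            rw [e1, e3]
            ring
    calc _ ≤ (R 0).re * Λ + (deriv R 0).re + T ^ (-(49 / 10000) : ℝ) := hEG
      _ ≤ _ := by linarith

end K7
end Pool.Agent.Lib.MP_973905_nt
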