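import Pool.Agent.Lib.MP_973905_nt.K7.Stmts
import Pool.Agent.Lib.MP_973905_nt.K4.Sharp4

/-! (A7) sharp upper bound for the fourth moment with the weights `WF`. -/

namespace Pool.Agent.Lib.MP_973905_nt
namespace K7

open MeasureTheory ProbabilityTheory Complex Filter Topology K1 K4 K5

namespace Sh4W

/-! ### the cutoffs -/

lemma PA_nonneg (δ θ x : ℝ) : 0 ≤ PA δ θ x :=
  mul_nonneg (Real.smoothTransition.nonneg _) (Real.smoothTransition.nonneg _)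

lemma PA_le_one (δ θ x : ℝ) : PA δ θ x ≤ 1 :=
  mul_le_one₀ (Real.smoothTransition.le_one _) (Real.smoothTransition.nonneg _)
    (Real.smoothTransition.le_one _)

lemma PA_mono {δ : ℝ} (hδ : 0 < δ) (x : ℝ) : PA δ (1 / 60) x ≤ PA δ 0 x := by
  unfold PA
  refine mul_le_mul_of_nonneg_right (Real.smoothTransition.monotone ?_)
    (Real.smoothTransition.nonneg _)
  exact div_le_div_of_nonneg_right (by linarith) hδ.le

lemma Pw_nonneg {δ : ℝ} (hδ : 0 < δ) (x : ℝ) : 0 ≤ Pw δ x := sub_nonneg.mpr (PA_mono hδ x)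

lemma Pw_le_one (δ x : ℝ) : Pw δ x ≤ 1 := by
  have h1 := PA_nonneg δ (1 / 60) x
  have h2 := PA_le_one δ 0 x
  unfold Pw
  linarith

lemma PA_eq_Pb {δ x : ℝ} (hx : 0 ≤ x) : PA δ 0 x = Pb δ x := by
  unfold PA Pb
  rw [Real.smoothTransition.one_of_one_le (x := 20 * (x + 2)) (by linarith),
    Real.smoothTransition.one_of_one_le (x := x + 2) (by linarith), sub_zero]

lemma log_quot_nonneg {T : ℝ} (hT : 1 < T) {n : ℕ} (hn : 1 ≤ n) :
    0 ≤ Real.log n / Real.log T :=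
  div_nonneg (Real.log_nonneg (by exact_mod_cast hn)) (Real.log_pos hT).le

lemma SG_PA {δ T : ℝ} (hT : 1 < T) (f : ℕ → ℂ) : FourG.SG (PA δ 0) T f = SH δ T f := by
  unfold FourG.SG SH
  refine Finset.sum_congr rfl fun n hn => ?_
  rw [PA_eq_Pb (log_quot_nonneg hT (Finset.mem_Icc.mp hn).1)]

lemma S1g_PA {δ T : ℝ} (hT : 1 < T) : S1g (PA δ 0) T = K4.S1 δ T := by
  unfold S1g K4.S1
  refine Finset.sum_congr rfl fun m hm => Finset.sum_congr rfl fun n hn => ?_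
  rw [PA_eq_Pb (log_quot_nonneg hT (Finset.mem_Icc.mp hm).1),
    PA_eq_Pb (log_quot_nonneg hT (Finset.mem_Icc.mp hn).1)]

lemma S2g_PA {δ T : ℝ} (hT : 1 < T) : S2g (PA δ 0) (PA δ 0) T = K4.S2 δ T := by
  unfold S2g K4.S2
  refine Finset.sum_congr rfl fun m hm => Finset.sum_congr rfl fun n hn => ?_
  rw [PA_eq_Pb (log_quot_nonneg hT (Finset.mem_Icc.mp hm).1),
    PA_eq_Pb (log_quot_nonneg hT (Finset.mem_Icc.mp hn).1)]

lemma SG_sub (P Q : ℝ → ℝ) (T : ℝ) (f : ℕ → ℂ) :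
    FourG.SG (fun x => P x - Q x) T f = FourG.SG P T f - FourG.SG Q T f := by
  unfold FourG.SG
  rw [← Finset.sum_sub_distrib]
  refine Finset.sum_congr rfl fun n _ => ?_
  push_cast
  ring

lemma SG_Pw (δ T : ℝ) (f : ℕ → ℂ) :
    FourG.SG (Pw δ) T f = FourG.SG (PA δ 0) T f - FourG.SG (PA δ (1 / 60)) T f :=
  SG_sub (PA δ 0) (PA δ (1 / 60)) T f

lemma S2g_comm (P Q : ℝ → ℝ) (T : ℝ) : S2g P Q T = S2g Q P T := by
  unfold S2g
  rw [Finset.sum_comm]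
  refine Finset.sum_congr rfl fun m _ => Finset.sum_congr rfl fun n _ => ?_
  rw [mul_comm n m, mul_comm (n : ℝ) m]
  ring

/-- the quadratic form is nonnegative on the window -/
lemma S2g_window {δ : ℝ} (hδ : 0 < δ) (T : ℝ) :
    2 * S2g (PA δ (1 / 60)) (PA δ 0) T - S2g (PA δ (1 / 60)) (PA δ (1 / 60)) T ≤
      S2g (PA δ 0) (PA δ 0) T := by
  have h1 : S2g (PA δ 0) (PA δ 0) T - S2g (PA δ (1 / 60)) (PA δ 0) T -
      S2g (PA δ 0) (PA δ (1 / 60)) T + S2g (PA δ (1 / 60)) (PA δ (1 / 60)) T =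
      S2g (Pw δ) (Pw δ) T := by
    unfold S2g
    rw [← Finset.sum_sub_distrib, ← Finset.sum_sub_distrib, ← Finset.sum_add_distrib]
    refine Finset.sum_congr rfl fun m _ => ?_
    rw [← Finset.sum_sub_distrib, ← Finset.sum_sub_distrib, ← Finset.sum_add_distrib]
    refine Finset.sum_congr rfl fun n _ => ?_
    unfold Pw
    ring
  have h2 : 0 ≤ S2g (Pw δ) (Pw δ) T := by
    unfold S2g
    refine Finset.sum_nonneg fun m _ => Finset.sum_nonneg fun n _ => ?_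
    have h3 := Pw_nonneg hδ (Real.log m / Real.log T)
    have h4 := Pw_nonneg hδ (Real.log n / Real.log T)
    have h5 : 0 ≤ K3.dv (m * n) := Nat.cast_nonneg _
    positivity
  rw [S2g_comm (PA δ 0) (PA δ (1 / 60))] at h1
  linarith

/-! ### continuity and size of the polynomials -/

lemma SG_cont (P : ℝ → ℝ) (T : ℝ) : Continuous fun t : ℝ => FourG.SG P T (fs (1 / 2 + t * I)) := by
  unfold FourG.SG fs
  refine continuous_finsetSum _ fun n hn => continuous_const.mul ?_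
  have hn0 : (n : ℂ) ≠ 0 := by
    have := (Finset.mem_Icc.mp hn).1
    exact_mod_cast (by omega : n ≠ 0)
  refine Continuous.const_cpow ?_ (Or.inl hn0)
  fun_prop

lemma SG_le {P : ℝ → ℝ} (h0 : ∀ x, 0 ≤ P x) (h1 : ∀ x, P x ≤ 1) {T : ℝ} (hT : 0 ≤ T) (t : ℝ) :
    ‖FourG.SG P T (fs (1 / 2 + t * I))‖ ≤ T := by
  unfold FourG.SG
  refine (norm_sum_le _ _).trans ?_
  have h2 : ∀ n ∈ Finset.Icc 1 ⌊T⌋₊, ‖(P (Real.log n / Real.log T) : ℂ) *
      fs (1 / 2 + t * I) n‖ ≤ 1 := by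
    intro n hn
    have hn1 := (Finset.mem_Icc.mp hn).1
    rw [norm_mul, norm_real, Real.norm_eq_abs, abs_of_nonneg (h0 _),
      norm_fs _ (by omega : n ≠ 0)]
    refine mul_le_one₀ (h1 _) (by positivity) ?_
    apply Real.rpow_le_one_of_one_le_of_nonpos (by exact_mod_cast hn1)
    simp
  refine (Finset.sum_le_sum h2).trans ?_
  rw [Finset.sum_const, Nat.card_Icc, nsmul_eq_mul, mul_one, Nat.add_sub_cancel]
  exact Nat.floor_le hT

/-! ### pointwise identities -/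

/-- `K4.Sh4.ptid` with a nonnegative weight -/
lemma ptid (δ T t : ℝ) {w : ℝ} (hw : 0 ≤ w) :
    ‖riemannZeta (1 / 2 + t * I)‖ ^ 2 * ‖DA δ T t‖ ^ 2 * w =
      2 * (‖riemannZeta (1 / 2 + t * I)‖ ^ 2 * ‖SH δ T (fs (1 / 2 + t * I))‖ ^ 2 * w) +
      2 * (riemannZeta (1 / 2 + t * I) ^ 2 * (starRingEnd ℂ) (SH δ T (fs (1 / 2 + t * I)) ^ 2) *
        ((w : ℝ) : ℂ)).re := by
  have h := K4.Sh4.ptid δ T t ((Real.sqrt w : ℝ) : ℂ)
  rw [norm_real, Real.norm_eq_abs, abs_of_nonneg (Real.sqrt_nonneg _), Real.sq_sqrt hw] at h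
  exact h

lemma split {e : ℝ} (he : 0 < e) (δ T t : ℝ) {w : ℝ} (hw : 0 ≤ w) :
    ‖riemannZeta (1 / 2 + t * I)‖ ^ 4 * w ≤
      (1 + e) * (‖riemannZeta (1 / 2 + t * I)‖ ^ 2 * ‖DA δ T t‖ ^ 2 * w) +
      (1 + 1 / e) * (‖riemannZeta (1 / 2 + t * I)‖ ^ 2 * ‖RR δ T t‖ ^ 2 * w) := by
  have h := K4.Sh4.split he δ T t ((Real.sqrt w : ℝ) : ℂ)
  rw [norm_real, Real.norm_eq_abs, abs_of_nonneg (Real.sqrt_nonneg _), Real.sq_sqrt hw] at h
  exact h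

/-- splitting the square of the polynomial -/
lemma re_split (z A A1 : ℂ) {w : ℝ} (hw : 0 ≤ w) :
    (z ^ 2 * (starRingEnd ℂ) (A ^ 2) * ((w : ℝ) : ℂ)).re ≤
      2 * (z ^ 2 * (starRingEnd ℂ) (A1 * A) * ((w : ℝ) : ℂ)).re -
      (z ^ 2 * (starRingEnd ℂ) (A1 * A1) * ((w : ℝ) : ℂ)).re +
      ‖z‖ ^ 2 * ‖A - A1‖ ^ 2 * w := by
  have h1 : z ^ 2 * (starRingEnd ℂ) (A ^ 2) * ((w : ℝ) : ℂ) =
      2 * (z ^ 2 * (starRingEnd ℂ) (A1 * A) * ((w : ℝ) : ℂ)) -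
      z ^ 2 * (starRingEnd ℂ) (A1 * A1) * ((w : ℝ) : ℂ) +
      z ^ 2 * (starRingEnd ℂ) ((A - A1) ^ 2) * ((w : ℝ) : ℂ) := by
    simp only [map_pow, map_mul, map_sub]
    ring
  have h2 : (z ^ 2 * (starRingEnd ℂ) ((A - A1) ^ 2) * ((w : ℝ) : ℂ)).re ≤
      ‖z‖ ^ 2 * ‖A - A1‖ ^ 2 * w := by
    refine (re_le_norm _).trans_eq ?_
    rw [norm_mul, norm_mul, norm_pow, norm_conj, norm_pow, norm_real, Real.norm_eq_abs,
      abs_of_nonneg hw]
  rw [h1, add_re, sub_re]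
  have h3 : (2 * (z ^ 2 * (starRingEnd ℂ) (A1 * A) * ((w : ℝ) : ℂ))).re =
      2 * (z ^ 2 * (starRingEnd ℂ) (A1 * A) * ((w : ℝ) : ℂ)).re := by
    rw [mul_re]; simp
  rw [h3]
  linarith

/-- a linear combination of integrals -/
lemma int_combo {γ : Measure ℝ} {G fa fw p q : ℝ → ℝ} (i0 : Integrable G γ)
    (i1 : Integrable fa γ) (i2 : Integrable fw γ) (i3 : Integrable p γ) (i4 : Integrable q γ)
    (h : ∀ t, G t ≤ 2 * fa t + (4 * p t - 2 * q t) + 2 * fw t) :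
    ∫ t, G t ∂γ ≤ 2 * (∫ t, fa t ∂γ) + (4 * (∫ t, p t ∂γ) - 2 * ∫ t, q t ∂γ) +
      2 * ∫ t, fw t ∂γ := by
  have j1 : Integrable (fun t => 4 * p t - 2 * q t) γ := (i3.const_mul 4).sub (i4.const_mul 2)
  have j2 : Integrable (fun t => 2 * fa t + (4 * p t - 2 * q t)) γ := (i1.const_mul 2).add j1
  have j3 : Integrable (fun t => 2 * fw t) γ := i2.const_mul 2
  have j4 : Integrable (fun t => 2 * fa t + (4 * p t - 2 * q t) + 2 * fw t) γ := j2.add j3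
  refine (integral_mono i0 j4 h).trans_eq ?_
  rw [integral_add j2 j3, integral_add (i1.const_mul 2) j1,
    integral_sub (i3.const_mul 4) (i4.const_mul 2), integral_const_mul, integral_const_mul,
    integral_const_mul, integral_const_mul]

/-! ### arithmetic -/

lemma arith1 {e g c K : ℝ} (he0 : 0 < e) (he1 : e ≤ 1 / 1000) (hc0 : 0 < c) (hc1 : c ≤ 1 / 10)
    (hg0 : 0 ≤ g) (hK : 1 ≤ K) (hg1 : (1 - e) * g ≤ (c + 21 * e) * K) :
    (1 + e) * g ≤ (c + 22 * e) * K := by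
  have h5 : g ≤ (1 + 2 * e) * ((1 - e) * g) := by
    have h1 : 0 ≤ g * (e * (1 - 2 * e)) :=
      mul_nonneg hg0 (mul_nonneg he0.le (by linarith))
    nlinarith
  have h6 : (1 + e) * g ≤ (1 + e) * ((1 + 2 * e) * ((c + 21 * e) * K)) := by
    gcongr
    exact h5.trans (by gcongr)
  refine h6.trans ?_
  have h7 : (1 + e) * ((1 + 2 * e) * (c + 21 * e)) ≤ c + 22 * e := by
    have h8 : (1 + e) * (1 + 2 * e) ≤ 1 + 4 * e := by nlinarith
    have h9 : e * c ≤ e * (1 / 10) := by gcongr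
    have h10 : e * e ≤ e * (1 / 1000) := by gcongr
    calc (1 + e) * ((1 + 2 * e) * (c + 21 * e)) = ((1 + e) * (1 + 2 * e)) * (c + 21 * e) := by ring
      _ ≤ (1 + 4 * e) * (c + 21 * e) := by gcongr
      _ = c + 21 * e + 4 * (e * c) + 84 * (e * e) := by ring
      _ ≤ c + 22 * e := by linarith
  calc (1 + e) * ((1 + 2 * e) * ((c + 21 * e) * K)) =
        ((1 + e) * ((1 + 2 * e) * (c + 21 * e))) * K := by ring
    _ ≤ _ := by gcongr

lemma arith2 {x J J0 JG JR e K c : ℝ} (hx : 0 ≤ x)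
    (hs : J ≤ J0 + ((1 + e) * JG + (1 + 1 / e) * JR)) (p1 : x * J0 ≤ 2 * e * K)
    (p2 : (1 + e) * (x * JG) ≤ (c + 22 * e) * K) (p3 : (1 + 1 / e) * (x * JR) ≤ e * K) :
    x * J ≤ (c + 25 * e) * K := by
  calc x * J ≤ x * (J0 + ((1 + e) * JG + (1 + 1 / e) * JR)) := by gcongr
    _ = x * J0 + (1 + e) * (x * JG) + (1 + 1 / e) * (x * JR) := by ring
    _ ≤ 2 * e * K + (c + 22 * e) * K + e * K := by gcongr
    _ = _ := by ring

/-- the constants -/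
lemma consts {κ δ : ℝ} (hκ1 : κ < 1) (hδ0 : 0 < δ) (hδ1 : δ ≤ 1 / 2000) :
    2 * (6 / Real.pi ^ 2 * (5 / 192) + (1 - κ) * (57 / 25 * cA) * (6 / Real.pi ^ 2)) +
      2 * (6 / Real.pi ^ 2 * (1 / 64) + 3 * ((1 - κ) * c2 * (6 / Real.pi ^ 2))) +
      2 * (6 / Real.pi ^ 2 * ((1 / 60 + 2 * δ) ^ 2 / 2) +
        (1 - κ) * (57 / 25 * cW) * (6 / Real.pi ^ 2)) ≤
      1 / (2 * Real.pi ^ 2) * (1 + eB κ) := by
  have hpi : 0 < Real.pi := Real.pi_pos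
  have h1 : 2 * (6 / Real.pi ^ 2 * (5 / 192) + (1 - κ) * (57 / 25 * cA) * (6 / Real.pi ^ 2)) +
      2 * (6 / Real.pi ^ 2 * (1 / 64) + 3 * ((1 - κ) * c2 * (6 / Real.pi ^ 2))) +
      2 * (6 / Real.pi ^ 2 * ((1 / 60 + 2 * δ) ^ 2 / 2) +
        (1 - κ) * (57 / 25 * cW) * (6 / Real.pi ^ 2)) =
      1 / (2 * Real.pi ^ 2) * (1 + ((1 - κ) * (24 * (57 / 25 * (cA + cW)) + 72 * c2) +
        12 * (1 / 60 + 2 * δ) ^ 2)) := by
    field_simp
    ring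
  rw [h1]
  refine mul_le_mul_of_nonneg_left ?_ (by positivity)
  have h2 : (1 / 60 + 2 * δ) ^ 2 ≤ (1 / 60 + 1 / 1000) ^ 2 := by gcongr; linarith
  have h3 : (1 - κ) * (24 * (57 / 25 * (cA + cW)) + 72 * c2) ≤ (1 - κ) * (43 / 100) := by
    refine mul_le_mul_of_nonneg_left ?_ (by linarith)
    unfold cA cW c2
    norm_num
  unfold eB
  norm_num at h2
  linarith

/-! ### the main factor -/

/-- The constant with `BF L⁴ = cM L^{(1+κ)²}`. -/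
noncomputable def cM (κ : ℝ) (M : ℕ) : ℝ :=
  aK (1 + κ) * (Real.pi ^ 2 / 6) *
    Real.exp (Real.eulerMascheroniConstant - M) ^ ((1 + κ) ^ 2 - 4) *
    ∏ i ∈ Finset.range (M - 6), aF κ i

lemma cM_pos (hK : StAK7) (hr : K5.StRho) {κ : ℝ} (h0 : 0 < κ) (h1 : κ < 1) (M : ℕ) :
    0 < cM κ M := by
  have e1 := (hK (1 + κ) (by linarith) (by linarith)).1
  obtain ⟨-, -, -, C, hC, hC1, -, -⟩ := hr κ h0 h1
  have e2 : 0 < ∏ i ∈ Finset.range (M - 6), aF κ i :=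
    Finset.prod_pos fun i _ => lt_of_lt_of_le (inv_pos.mpr (by linarith)) (hC1 i).1
  have e3 : 0 < Real.exp (Real.eulerMascheroniConstant - M) ^ ((1 + κ) ^ 2 - 4) :=
    Real.rpow_pos_of_pos (Real.exp_pos _) _
  have e4 := Real.pi_pos
  unfold cM
  positivity

lemma BF_eq {κ T : ℝ} {M : ℕ} (hL : 0 < Real.log T) :
    BF κ T M * Real.log T ^ 4 = cM κ M * Real.log T ^ ((1 + κ) ^ 2) := by
  unfold BF D4 lM cM
  rw [Real.mul_rpow (Real.exp_pos _).le hL.le]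
  have h : Real.log T ^ ((1 + κ) ^ 2) = Real.log T ^ ((1 + κ) ^ 2 - 4) * Real.log T ^ 4 := by
    rw [← Real.rpow_natCast (Real.log T) 4, ← Real.rpow_add hL]
    congr 1; push_cast; ring
  rw [h]; ring

lemma SS_bound {κ δ e B L s1 s2 sw : ℝ} (hκ1 : κ < 1) (hδ0 : 0 < δ) (hδ1 : δ ≤ 1 / 2000)
    (hB0 : 0 < B) (hK0 : 0 < B * L ^ 4) (h1 : s1 ≤ (6 / Real.pi ^ 2 * (5 / 192) + e) * L ^ 4)
    (h2 : s2 ≤ (6 / Real.pi ^ 2 * (1 / 64) + e) * L ^ 4)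
    (h3 : sw ≤ (6 / Real.pi ^ 2 * ((1 / 60 + 2 * δ) ^ 2 / 2) + e) * L ^ 4) :
    2 * (B * (s1 + (1 - κ) * (57 / 25 * cA) * (6 / Real.pi ^ 2) * L ^ 4 + e * L ^ 4)) +
      2 * (B * s2 + 3 * (((1 - κ) * c2 * (6 / Real.pi ^ 2) + e) * (B * L ^ 4))) +
      2 * (B * (sw + (1 - κ) * (57 / 25 * cW) * (6 / Real.pi ^ 2) * L ^ 4 + e * L ^ 4)) ≤
      (1 / (2 * Real.pi ^ 2) * (1 + eB κ) + 16 * e) * (B * L ^ 4) := by
  have h5 := mul_le_mul_of_nonneg_left h1 hB0.le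
  have h6 := mul_le_mul_of_nonneg_left h2 hB0.le
  have h7 := mul_le_mul_of_nonneg_left h3 hB0.le
  have h8 := mul_le_mul_of_nonneg_right (consts (κ := κ) (δ := δ) hκ1 hδ0 hδ1) hK0.le
  generalize 6 / Real.pi ^ 2 = p6 at h5 h6 h7 h8 ⊢
  generalize 1 / (2 * Real.pi ^ 2) * (1 + eB κ) = c' at h8 ⊢
  generalize (1 / 60 + 2 * δ) ^ 2 / 2 = d at h7 h8 ⊢
  generalize cA = x at h8 ⊢
  generalize cW = y at h8 ⊢
  generalize c2 = z at h8 ⊢
  linarith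

/-- the mean of `G`, from the averages of the Gaussian means -/
lemma meanT {δ T ρ : ℝ} {G fa fw : ℝ → ℝ} {P0 P1 : ℝ → ℂ} (hT3 : 3 ≤ T) (hρ0 : 0 < ρ)
    (hρ1 : ρ ≤ 1 / 4) (e1 : 1 / Real.log T ≤ ρ / 2)
    (e5 : ∀ F : ℝ → ℝ, Continuous F → (∀ t, 0 ≤ F t) → (∀ t, F t ≤ T ^ 6 * (1 + |t|) ^ 6) →
      ∀ a b : ℝ, 0 ≤ a → a ≤ b → b ≤ 2 * T →
      IntervalIntegrable (fun τ => EG (K3.Td δ T) τ F) volume a b ∧
      ∫ τ in a..b, EG (K3.Td δ T) τ F ≤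
        (∫ t in (a - T / Real.log T)..(b + T / Real.log T), F t) + 1 ∧
      (a + T / Real.log T ≤ b - T / Real.log T →
        (1 - 1 / T) * ∫ t in (a + T / Real.log T)..(b - T / Real.log T), F t ≤
          ∫ τ in a..b, EG (K3.Td δ T) τ F))
    (cG : Continuous G) (cfa : Continuous fa) (cfw : Continuous fw) (cP0 : Continuous P0)
    (cP1 : Continuous P1) (hG0 : ∀ t, 0 ≤ G t) (hfa0 : ∀ t, 0 ≤ fa t) (hfw0 : ∀ t, 0 ≤ fw t)
    (hGb : ∀ t, G t ≤ T ^ 6 * (1 + |t|) ^ 6) (hfab : ∀ t, fa t ≤ T ^ 6 * (1 + |t|) ^ 6)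
    (hfwb : ∀ t, fw t ≤ T ^ 6 * (1 + |t|) ^ 6) (hP0b : ∀ t, ‖P0 t‖ ≤ T ^ 6 * (1 + |t|) ^ 6)
    (hP1b : ∀ t, ‖P1 t‖ ≤ T ^ 6 * (1 + |t|) ^ 6)
    (hGP : ∀ t, G t ≤ 2 * fa t + (4 * (P0 t).re - 2 * (P1 t).re) + 2 * fw t)
    {Da Dw Dp : ℝ} (hDp0 : 0 ≤ Dp) (hA : ∫ t in (ρ * T)..((1 + ρ) * T), fa t ≤ T * Da)
    (hW : ∫ t in (ρ * T)..((1 + ρ) * T), fw t ≤ T * Dw)
    (hP : ∀ τ : ℝ, T / Real.log T ≤ |τ| → |τ| ≤ 3 / 2 * T →
      4 * (EG (K3.Td δ T) τ P0).re - 2 * (EG (K3.Td δ T) τ P1).re ≤ 2 * Dp) :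
    (1 - 1 / T) * ∫ t in (2 * ρ * T)..T, G t ≤
      2 * (T * Da + 1) + 2 * (T * Dw + 1) + 2 * T * Dp := by
  have hT0 : 0 < T := by linarith
  have hL0 : 0 < Real.log T := Real.log_pos (by linarith)
  -- Gaussian means
  have hEG : ∀ τ : ℝ, EG (K3.Td δ T) τ G ≤
      2 * EG (K3.Td δ T) τ fa + (4 * (EG (K3.Td δ T) τ P0).re - 2 * (EG (K3.Td δ T) τ P1).re) +
        2 * EG (K3.Td δ T) τ fw := by
    intro τ
    have i0 : Integrable G (gaussianReal τ (VV (K3.Td δ T))) :=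
      integrable_of_poly τ _ cG.aestronglyMeasurable (C := T ^ 6) (m := 6) fun t => by
        rw [Real.norm_eq_abs, abs_of_nonneg (hG0 t)]; exact hGb t
    have i1 : Integrable fa (gaussianReal τ (VV (K3.Td δ T))) :=
      integrable_of_poly τ _ cfa.aestronglyMeasurable (C := T ^ 6) (m := 6) fun t => by
        rw [Real.norm_eq_abs, abs_of_nonneg (hfa0 t)]; exact hfab t
    have i4 : Integrable fw (gaussianReal τ (VV (K3.Td δ T))) :=
      integrable_of_poly τ _ cfw.aestronglyMeasurable (C := T ^ 6) (m := 6) fun t => by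
        rw [Real.norm_eq_abs, abs_of_nonneg (hfw0 t)]; exact hfwb t
    have i2 : Integrable P0 (gaussianReal τ (VV (K3.Td δ T))) :=
      integrable_of_poly τ _ cP0.aestronglyMeasurable (C := T ^ 6) (m := 6) hP0b
    have i3 : Integrable P1 (gaussianReal τ (VV (K3.Td δ T))) :=
      integrable_of_poly τ _ cP1.aestronglyMeasurable (C := T ^ 6) (m := 6) hP1b
    have e8 : ∫ t, (P0 t).re ∂(gaussianReal τ (VV (K3.Td δ T))) =
        (∫ t, P0 t ∂(gaussianReal τ (VV (K3.Td δ T)))).re := reCLM.integral_comp_comm i2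
    have e9 : ∫ t, (P1 t).re ∂(gaussianReal τ (VV (K3.Td δ T))) =
        (∫ t, P1 t ∂(gaussianReal τ (VV (K3.Td δ T)))).re := reCLM.integral_comp_comm i3
    have h3 := int_combo i0 i1 i4 i2.re i3.re hGP
    have h4 : 2 * (∫ t, fa t ∂(gaussianReal τ (VV (K3.Td δ T)))) +
        (4 * (∫ t, (P0 t).re ∂(gaussianReal τ (VV (K3.Td δ T)))) -
        2 * ∫ t, (P1 t).re ∂(gaussianReal τ (VV (K3.Td δ T)))) +
        2 * (∫ t, fw t ∂(gaussianReal τ (VV (K3.Td δ T)))) =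
        2 * EG (K3.Td δ T) τ fa +
          (4 * (EG (K3.Td δ T) τ P0).re - 2 * (EG (K3.Td δ T) τ P1).re) +
        2 * EG (K3.Td δ T) τ fw := by
      rw [e8, e9]; rfl
    exact h3.trans_eq h4
  set s : ℝ := T / Real.log T with hs_def
  have hs0 : 0 < s := by positivity
  have hsρ : 2 * s ≤ ρ * T := by
    have h3 : T * (1 / Real.log T) ≤ T * (ρ / 2) := mul_le_mul_of_nonneg_left e1 hT0.le
    rw [hs_def, div_eq_mul_one_div]
    linarith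
  have hρT : 0 < ρ * T := by positivity
  have hρT4 : ρ * T ≤ T / 4 := by
    have := mul_le_mul_of_nonneg_right hρ1 hT0.le
    linarith
  set a : ℝ := 2 * ρ * T - s with ha
  set b : ℝ := T + s with hb'
  have ha0 : 0 ≤ a := by rw [ha]; linarith
  have hab : a ≤ b := by rw [ha, hb']; linarith
  have hb2 : b ≤ 2 * T := by rw [hb']; linarith
  obtain ⟨jG, -, kG⟩ := e5 G cG hG0 hGb a b ha0 hab hb2
  obtain ⟨jf, kf, -⟩ := e5 fa cfa hfa0 hfab a b ha0 hab hb2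
  obtain ⟨jw, kw, -⟩ := e5 fw cfw hfw0 hfwb a b ha0 hab hb2
  have ea : a + s = 2 * ρ * T := by rw [ha]; ring
  have eb : b - s = T := by rw [hb']; ring
  rw [ea, eb] at kG
  refine (kG (by linarith)).trans ?_
  have k1 : ρ * T ≤ a - s := by rw [ha]; linarith
  have k2 : a - s ≤ b + s := by linarith
  have k3 : b + s ≤ (1 + ρ) * T := by rw [hb']; linarith
  have kfa : ∫ τ in a..b, EG (K3.Td δ T) τ fa ≤ T * Da + 1 := by
    have h5 : ∫ t in (a - s)..(b + s), fa t ≤ ∫ t in (ρ * T)..((1 + ρ) * T), fa t :=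
      intervalIntegral.integral_mono_interval k1 k2 k3
        (Filter.Eventually.of_forall fun t => hfa0 t) (cfa.intervalIntegrable _ _)
    exact kf.trans (add_le_add_left (h5.trans hA) 1)
  have kfw : ∫ τ in a..b, EG (K3.Td δ T) τ fw ≤ T * Dw + 1 := by
    have h5 : ∫ t in (a - s)..(b + s), fw t ≤ ∫ t in (ρ * T)..((1 + ρ) * T), fw t :=
      intervalIntegral.integral_mono_interval k1 k2 k3
        (Filter.Eventually.of_forall fun t => hfw0 t) (cfw.intervalIntegrable _ _)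
    exact kw.trans (add_le_add_left (h5.trans hW) 1)
  have kP : ∀ τ ∈ Set.Icc a b, 4 * (EG (K3.Td δ T) τ P0).re - 2 * (EG (K3.Td δ T) τ P1).re ≤
      2 * Dp := by
    intro τ hτ
    have hτ0 : 0 ≤ τ := ha0.trans hτ.1
    refine hP τ ?_ ?_
    · rw [abs_of_nonneg hτ0]; linarith [hτ.1]
    · rw [abs_of_nonneg hτ0]; linarith [hτ.2]
  have h5 : ∫ τ in a..b, EG (K3.Td δ T) τ G ≤
      ∫ τ in a..b, (2 * EG (K3.Td δ T) τ fa + 2 * EG (K3.Td δ T) τ fw + 2 * Dp) := by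
    refine intervalIntegral.integral_mono_on hab jG
      (((jf.const_mul 2).add (jw.const_mul 2)).add (by simp)) fun τ hτ => ?_
    have h6 := hEG τ
    have h7 := kP τ hτ
    linarith
  rw [intervalIntegral.integral_add ((jf.const_mul 2).add (jw.const_mul 2)) (by simp),
    intervalIntegral.integral_add (jf.const_mul 2) (jw.const_mul 2),
    intervalIntegral.integral_const_mul, intervalIntegral.integral_const_mul,
    intervalIntegral.integral_const, smul_eq_mul] at h5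
  have h6 : 0 ≤ 2 * Dp := by positivity
  have h7 : b - a ≤ T := by rw [ha, hb']; linarith
  have h8 := mul_le_mul_of_nonneg_right h7 h6
  linarith

/-- the remainder, from dyadic intervals -/
lemma remT {R : ℝ → ℝ} {δ T ρ B' : ℝ} {n : ℕ} (hT1 : 1 < T) (hB' : 0 ≤ B') (hρ0 : 0 < ρ)
    (hρ1 : ρ ≤ 1 / 4) (cR : Continuous R) (hR0 : ∀ t, 0 ≤ R t) (hn : (1 / 2 : ℝ) ^ n < 2 * ρ)
    (e4 : (2 : ℝ) ^ n ≤ T ^ (δ / 8))
    (h5 : ∀ X : ℝ, T ^ (1 - δ / 8) ≤ X → X ≤ T → ∫ t in X..(2 * X), R t ≤ X * B') :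
    ∫ t in (2 * ρ * T)..T, R t ≤ T * B' := by
  have hT0 : 0 < T := by linarith
  have hY : 0 < T ^ (1 - δ / 8) := Real.rpow_pos_of_pos hT0 _
  have h2n : (0 : ℝ) < 2 ^ n := by positivity
  have h6 := K4.Sh4.dyad cR hB' hY h5 n T (by linarith) (by
    rw [le_div_iff₀ h2n]
    calc T ^ (1 - δ / 8) * 2 ^ n ≤ T ^ (1 - δ / 8) * T ^ (δ / 8) := by gcongr
      _ = T := by rw [← Real.rpow_add hT0]; simp)
  have h7 : T / 2 ^ n ≤ 2 * ρ * T := by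
    rw [div_le_iff₀ h2n]
    have h8 : (1 / 2 : ℝ) ^ n * 2 ^ n = 1 := by rw [← mul_pow]; norm_num
    have h9 : (1 / 2 : ℝ) ^ n * 2 ^ n ≤ 2 * ρ * 2 ^ n := by gcongr
    rw [h8] at h9
    have h10 := mul_le_mul_of_nonneg_right h9 hT0.le
    linarith
  have h9 : 2 * ρ * T ≤ T := by
    have := mul_le_mul_of_nonneg_right hρ1 hT0.le
    linarith
  have h8 : ∫ t in (2 * ρ * T)..T, R t ≤ ∫ t in (T / 2 ^ n)..T, R t :=
    intervalIntegral.integral_mono_interval h7 h9 le_rfl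
      (Filter.Eventually.of_forall fun t => hR0 t) (cR.intervalIntegrable _ _)
  exact h8.trans h6

/-- the final combination -/
lemma finT {T ρ e c K y x JF J0 JG JR Tk : ℝ} (hT0 : 0 < T) (he0 : 0 < e) (he1 : e ≤ 1 / 1000)
    (hc0 : 0 < c) (hc1 : c ≤ 1 / 10) (hK1 : 1 ≤ K) (hρ0 : 0 < ρ) (hx : T⁻¹ * x = Tk)
    (hTk : Tk ≤ e) (hρe : 2 * ρ * (y + 1) = e) (hTe : 4 / T ≤ e) (hJG : 0 ≤ JG)
    (hG : (1 - 1 / T) * JG ≤ T * ((c + 16 * e) * K) + 4) (hR : JR ≤ T * (e ^ 2 / 2 * K))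
    (h0 : J0 ≤ 2 * ρ * T * (y * K) + x)
    (hs : JF ≤ J0 + ((1 + e) * JG + (1 + 1 / e) * JR)) : T⁻¹ * JF ≤ (c + 25 * e) * K := by
  have heK : e * 1 ≤ e * K := mul_le_mul_of_nonneg_left hK1 he0.le
  have hK0 : 0 < K := by linarith
  have hg0 : 0 ≤ T⁻¹ * JG := by positivity
  have hg1 : (1 - e) * (T⁻¹ * JG) ≤ (c + 21 * e) * K := by
    have h5 : (1 - 1 / T) * (T⁻¹ * JG) ≤ (c + 16 * e) * K + 4 / T := by
      calc (1 - 1 / T) * (T⁻¹ * JG) = T⁻¹ * ((1 - 1 / T) * JG) := by ring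
        _ ≤ T⁻¹ * (T * ((c + 16 * e) * K) + 4) := mul_le_mul_of_nonneg_left hG (by positivity)
        _ = (c + 16 * e) * K + 4 / T := by field_simp
    have h6 : (1 - e) * (T⁻¹ * JG) ≤ (1 - 1 / T) * (T⁻¹ * JG) := by
      have h7 : 1 / T ≤ 4 / T := by gcongr; norm_num
      exact mul_le_mul_of_nonneg_right (by linarith) hg0
    linarith
  have hg2 := arith1 he0 he1 hc0 hc1 hg0 hK1 hg1
  have p1 : T⁻¹ * J0 ≤ 2 * e * K := by
    refine (mul_le_mul_of_nonneg_left h0 (inv_nonneg.mpr hT0.le)).trans ?_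
    calc T⁻¹ * (2 * ρ * T * (y * K) + x)
      _ = 2 * ρ * y * K + T⁻¹ * x := by
          field_simp
      _ ≤ 2 * ρ * (y + 1) * K + e * K := by
          rw [hx]
          have h6 : Tk ≤ e * K := by linarith
          have h7 : 2 * ρ * y * K ≤ 2 * ρ * (y + 1) * K := by gcongr; linarith
          linarith
      _ = 2 * e * K := by rw [hρe]; ring
  have p3 : (1 + 1 / e) * (T⁻¹ * JR) ≤ e * K := by
    have h5 := mul_le_mul_of_nonneg_left (mul_le_mul_of_nonneg_left hR (inv_nonneg.mpr hT0.le))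
      (show 0 ≤ 1 + 1 / e by positivity)
    refine h5.trans ?_
    calc (1 + 1 / e) * (T⁻¹ * (T * (e ^ 2 / 2 * K)))
      _ = (e + 1) * e / 2 * K := by field_simp
      _ ≤ e * K := by
          have h6 : e * e ≤ e * 1 := mul_le_mul_of_nonneg_left (by linarith) he0.le
          exact mul_le_mul_of_nonneg_right (by linarith) (by linarith)
  exact arith2 (inv_nonneg.mpr hT0.le) hs p1 hg2 p3

end Sh4W

open Sh4W K4.Sh4 in
theorem stSharp4W (hb : StBumpMW) (hs : StSharpG) (hA : StMainA) (hW : StMainW) (hg : StGhC)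
    (hp : StPairTW) (h1 : K4.StS1) (h2 : K4.StS2) (hw : StS1w) (hd : StF4W) (hB : StWB)
    (hK : StAK7) (hr : K5.StRho) : StSharp4W := by
  intro κ hκ0 hκ1 η hη
  set e : ℝ := min η 1 / 1000 with he
  have hη2 : 0 < min η 1 := lt_min hη one_pos
  have he0 : 0 < e := by positivity
  have he1 : e ≤ 1 / 1000 := by have := min_le_right η 1; rw [he]; linarith
  have heη : 1000 * e ≤ η := by have := min_le_left η 1; rw [he]; linarith
  obtain ⟨δ, hδ0, hδ1, Mb, hMb⟩ := hb κ hκ0 hκ1 (e ^ 2 / 2) (by positivity)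
  have hδ8 : δ ≤ 1 / 8 := by linarith
  obtain ⟨cutA, -, cutW, -, -⟩ := hg δ hδ0 hδ1
  obtain ⟨Ma, hMa⟩ := hs κ hκ0 hκ1 (PA δ 0) cutA
    (fun x => ⟨PA_nonneg _ _ _, PA_le_one _ _ _⟩) cA
    (by unfold cA; norm_num) (hA κ δ hκ0 hκ1 hδ0 hδ1) e he0
  obtain ⟨Mw, hMw⟩ := hs κ hκ0 hκ1 (Pw δ) cutW (fun x => ⟨Pw_nonneg hδ0 x, Pw_le_one _ _⟩) cW
    (by unfold cW; norm_num) (hW κ δ hκ0 hκ1 hδ0 hδ1) e he0
  obtain ⟨Mp, hMp⟩ := hp κ δ e hκ0 hκ1 hδ0 hδ1 he0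
  obtain ⟨T₁, -, hS1⟩ := h1 δ e hδ0 hδ8 he0
  obtain ⟨T₂, -, hS2⟩ := h2 δ e hδ0 hδ8 he0
  obtain ⟨T₄, -, hSw⟩ := hw δ e hδ0 hδ1 he0
  obtain ⟨C, κ', hC, hκ', Mc, hMc⟩ := hd κ hκ0 hκ1
  obtain ⟨Mn, -, hMn⟩ := hB κ hκ0 hκ1
  obtain ⟨Cz, hCz, hz⟩ := Lower.zeta_poly_half
  refine ⟨max (max (max Mb Ma) (max Mw Mp)) (max Mc Mn), fun M hM => ?_⟩
  obtain ⟨⟨⟨hM1, hM2⟩, hM3, hM4⟩, hM5, hM6⟩ :
      (((Mb ≤ M ∧ Ma ≤ M) ∧ (Mw ≤ M ∧ Mp ≤ M)) ∧ (Mc ≤ M ∧ Mn ≤ M)) := by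
    simpa only [max_le_iff] using hM
  obtain ⟨Tb, -, hTb⟩ := hMb M hM1
  obtain ⟨Tp, -, hTp⟩ := hMp M hM4
  obtain ⟨Tc, hTc3, hTc⟩ := hMc M hM5
  obtain ⟨Tn, -, hTn⟩ := hMn M hM6
  have hc0 := cM_pos hK hr hκ0 hκ1 M
  set ρ : ℝ := e / (2 * (Real.exp (C * M) / cM κ M + 1)) with hρ
  have hex : 0 < Real.exp (C * M) / cM κ M := by positivity
  have hρ0 : 0 < ρ := by positivity
  have hρe : 2 * ρ * (Real.exp (C * M) / cM κ M + 1) = e := by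
    rw [hρ]
    generalize Real.exp (C * M) / cM κ M = y at hex ⊢
    field_simp
  have hρ1 : ρ ≤ 1 / 4 := by
    have h3 : ρ * 1 ≤ ρ * (Real.exp (C * M) / cM κ M + 1) := by gcongr; linarith
    linarith
  obtain ⟨Ta, -, hTa⟩ := hMa M hM2 ρ (1 + ρ) hρ0 (by linarith) (by linarith)
  obtain ⟨Tw, -, hTw⟩ := hMw M hM3 ρ (1 + ρ) hρ0 (by linarith) (by linarith)
  obtain ⟨n, hn⟩ := exists_pow_lt_of_lt_one (show 0 < 2 * ρ by positivity)
    (show (1 / 2 : ℝ) < 1 by norm_num)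
  have ev1 : ∀ᶠ T : ℝ in atTop, 1 / Real.log T ≤ ρ / 2 := Lower.ev_div_log 1 (ρ / 2) (by positivity)
  have ev2 : ∀ᶠ T : ℝ in atTop, 4 * Cz ^ 2 * T ^ 5 ≤ T ^ 6 := by
    filter_upwards [eventually_ge_atTop (4 * Cz ^ 2), eventually_ge_atTop 0] with T hT hT0
    calc 4 * Cz ^ 2 * T ^ 5 ≤ T * T ^ 5 := by gcongr
      _ = T ^ 6 := by ring
  have ev3 : ∀ᶠ T : ℝ in atTop, T ^ (-κ') ≤ e :=
    (tendsto_rpow_neg_atTop hκ').eventually_le_const he0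
  have ev4 : ∀ᶠ T : ℝ in atTop, (2 : ℝ) ^ n ≤ T ^ (δ / 8) :=
    (tendsto_rpow_atTop (by positivity)).eventually_ge_atTop _
  have ev5 := avg hδ0 hδ8
  have ev7 : ∀ᶠ T : ℝ in atTop, max 1 (cM κ M)⁻¹ ≤ Real.log T :=
    Real.tendsto_log_atTop.eventually_ge_atTop _
  obtain ⟨T₃, hT₃⟩ := eventually_atTop.mp
    ((ev1.and (ev2.and ev3)).and ((ev4.and ev5).and ((eventually_ge_atTop (4 / e)).and ev7)))
  refine ⟨max (max (max (max T₁ T₂) (max T₄ Tn)) (max Tb Tp)) (max (max Tc (max Ta Tw)) T₃),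
    hTc3.trans (((le_max_left _ _).trans (le_max_left _ _)).trans (le_max_right _ _)),
    fun T hT => ?_⟩
  obtain ⟨⟨⟨⟨hTa1, hTa2⟩, hTa4, hTan⟩, hTab, hTap⟩, ⟨hTac, hTaa, hTaw⟩, hTa3⟩ :
      ((((T₁ ≤ T ∧ T₂ ≤ T) ∧ (T₄ ≤ T ∧ Tn ≤ T)) ∧ (Tb ≤ T ∧ Tp ≤ T)) ∧
        ((Tc ≤ T ∧ (Ta ≤ T ∧ Tw ≤ T)) ∧ T₃ ≤ T)) := by
    simpa only [max_le_iff] using hT
  obtain ⟨⟨e1, e2, e3⟩, ⟨e4, e5⟩, e6, e7⟩ := hT₃ T hTa3
  have hT3 : 3 ≤ T := hTc3.trans hTac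
  replace hS1 := hS1 T hTa1
  replace hS2 := hS2 T hTa2
  replace hSw := hSw T hTa4
  replace hTn := hTn T hTan (Finset.range (JJ T + 1)) ∅
  replace hTb := hTb T hTab
  replace hTp := hTp T hTap
  replace hTc := hTc T hTac (Finset.range (JJ T + 1)) ∅ (by simp)
  replace hTa := hTa T hTaa
  replace hTw := hTw T hTaw
  clear hT hT₃ hMb hMa hMw hMp hMc hMn ev1 ev2 ev3 ev4 ev5 ev7 hb hs hA hW hg hp h1 h2 hw hd hB hK
    hr hTa1 hTa2 hTa4 hTan hTab hTap hTac hTaa hTaw hTa3 hTc3 hM1 hM2 hM3 hM4 hM5 hM6 hM cutA cutW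
  have hT0 : 0 < T := by linarith
  have hT1 : 1 < T := by linarith
  have hBFe := BF_eq (κ := κ) (T := T) (M := M) (Real.log_pos hT1)
  set L : ℝ := Real.log T with hL
  have hL0 : 0 < L := Real.log_pos hT1
  have hL1 : 1 ≤ L := (le_max_left _ _).trans e7
  have hLc : (cM κ M)⁻¹ ≤ L := (le_max_right _ _).trans e7
  set B : ℝ := BF κ T M with hBdef
  set K : ℝ := B * L ^ 4 with hKdef
  have hK1 : 1 ≤ K := by
    rw [hBFe]
    have h3 : L ≤ L ^ ((1 + κ) ^ 2) := by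
      calc L = L ^ (1 : ℝ) := (Real.rpow_one L).symm
        _ ≤ L ^ ((1 + κ) ^ 2) := Real.rpow_le_rpow_of_exponent_le hL1 (one_le_pow₀ (by linarith))
    calc 1 = cM κ M * (cM κ M)⁻¹ := by field_simp
      _ ≤ cM κ M * L ^ ((1 + κ) ^ 2) := by
          apply mul_le_mul_of_nonneg_left (hLc.trans h3) hc0.le
  have hK0 : 0 < K := by linarith
  have hB0 : 0 < B := by
    have h3 : 0 < L ^ 4 := by positivity
    exact (pos_iff_pos_of_mul_pos hK0).mpr h3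
  -- the weight
  obtain ⟨hW0, -, hWc, -, hWb, -⟩ := hTn
  set W : ℝ → ℝ := fun t => WF κ T M (Finset.range (JJ T + 1)) ∅ (fs (1 / 2 + t * I)) with hWdef
  have hW0' : ∀ t, 0 ≤ W t := fun t => hW0 _
  have hWb' : ∀ t, W t ≤ T := by
    intro t
    calc W t ≤ T ^ (1 / 100 : ℝ) := hWb t
      _ ≤ T ^ (1 : ℝ) := Real.rpow_le_rpow_of_exponent_le hT1.le (by norm_num)
      _ = T := Real.rpow_one T
  have hzc := Lower.continuous_zeta_half
  set A : ℝ → ℂ := fun t => FourG.SG (PA δ 0) T (fs (1 / 2 + t * I)) with hAdef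
  set A1 : ℝ → ℂ := fun t => FourG.SG (PA δ (1 / 60)) T (fs (1 / 2 + t * I)) with hA1def
  set A2 : ℝ → ℂ := fun t => FourG.SG (Pw δ) T (fs (1 / 2 + t * I)) with hA2def
  have cA0 : Continuous A := SG_cont _ _
  have cA1 : Continuous A1 := SG_cont _ _
  have cA2 : Continuous A2 := SG_cont _ _
  have bA0 : ∀ t, ‖A t‖ ≤ 2 * T := fun t => by
    have := SG_le (PA_nonneg δ 0) (PA_le_one δ 0) hT0.le t
    linarith
  have bA1 : ∀ t, ‖A1 t‖ ≤ 2 * T := fun t => by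
    have := SG_le (PA_nonneg δ (1 / 60)) (PA_le_one δ (1 / 60)) hT0.le t
    linarith
  have bA2 : ∀ t, ‖A2 t‖ ≤ 2 * T := fun t => by
    have := SG_le (Pw_nonneg hδ0) (Pw_le_one δ) hT0.le t
    linarith
  set Fz : ℝ → ℝ := fun t => ‖riemannZeta (1 / 2 + t * I)‖ ^ 4 * W t with hFz
  set G : ℝ → ℝ := fun t => ‖riemannZeta (1 / 2 + t * I)‖ ^ 2 * ‖DA δ T t‖ ^ 2 * W t with hG
  set fa : ℝ → ℝ := fun t => ‖riemannZeta (1 / 2 + t * I)‖ ^ 2 * ‖A t‖ ^ 2 * W t with hfa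
  set fw : ℝ → ℝ := fun t => ‖riemannZeta (1 / 2 + t * I)‖ ^ 2 * ‖A2 t‖ ^ 2 * W t with hfw
  set R : ℝ → ℝ := fun t => ‖riemannZeta (1 / 2 + t * I)‖ ^ 2 * ‖RR δ T t‖ ^ 2 * W t with hR
  set P0 : ℝ → ℂ := fun t => riemannZeta (1 / 2 + t * I) ^ 2 *
    (starRingEnd ℂ) (A1 t * A t) * ((W t : ℝ) : ℂ) with hP0
  set P1 : ℝ → ℂ := fun t => riemannZeta (1 / 2 + t * I) ^ 2 *
    (starRingEnd ℂ) (A1 t * A1 t) * ((W t : ℝ) : ℂ) with hP1
  have cF : Continuous Fz := (hzc.norm.pow 4).mul hWc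
  have cG : Continuous G := ((hzc.norm.pow 2).mul ((DA_cont hδ0 hT1).norm.pow 2)).mul hWc
  have cfa : Continuous fa := ((hzc.norm.pow 2).mul (cA0.norm.pow 2)).mul hWc
  have cfw : Continuous fw := ((hzc.norm.pow 2).mul (cA2.norm.pow 2)).mul hWc
  have cR : Continuous R := ((hzc.norm.pow 2).mul ((RR_cont hδ0 hT1).norm.pow 2)).mul hWc
  have cP0 : Continuous P0 := ((hzc.pow 2).mul (continuous_conj.comp (cA1.mul cA0))).mul
    (continuous_ofReal.comp hWc)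
  have cP1 : Continuous P1 := ((hzc.pow 2).mul (continuous_conj.comp (cA1.mul cA1))).mul
    (continuous_ofReal.comp hWc)
  have hG0 : ∀ t, 0 ≤ G t := fun t => mul_nonneg (by positivity) (hW0' t)
  have hfa0 : ∀ t, 0 ≤ fa t := fun t => mul_nonneg (by positivity) (hW0' t)
  have hfw0 : ∀ t, 0 ≤ fw t := fun t => mul_nonneg (by positivity) (hW0' t)
  have hR0 : ∀ t, 0 ≤ R t := fun t => mul_nonneg (by positivity) (hW0' t)
  have hpoly : ∀ t x y : ℝ, 0 ≤ x → x ≤ 2 * T → 0 ≤ y → y ≤ 2 * T →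
      ‖riemannZeta (1 / 2 + t * I)‖ ^ 2 * (x * y) * W t ≤ T ^ 6 * (1 + |t|) ^ 6 := by
    intro t x y hx0 hx hy0 hy
    have h3 := hz t
    have h4 := hWb' t
    have h8 := hW0' t
    have h5 : (1 + |t|) ^ 4 ≤ (1 + |t|) ^ 6 :=
      pow_le_pow_right₀ (by linarith [abs_nonneg t]) (by norm_num)
    have h6 : T ^ 3 ≤ T ^ 5 := pow_le_pow_right₀ hT1.le (by norm_num)
    calc _ ≤ (Cz * (1 + |t|) ^ 2) ^ 2 * (2 * T * (2 * T)) * T := by gcongr
      _ = 4 * Cz ^ 2 * T ^ 3 * (1 + |t|) ^ 4 := by ring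
      _ ≤ 4 * Cz ^ 2 * T ^ 5 * (1 + |t|) ^ 6 := by gcongr
      _ ≤ T ^ 6 * (1 + |t|) ^ 6 := by gcongr
  have hGb : ∀ t, G t ≤ T ^ 6 * (1 + |t|) ^ 6 := fun t => by
    have h3 := hpoly t _ _ (norm_nonneg (DA δ T t)) (DA_le hδ0 hT1 t) (norm_nonneg (DA δ T t))
      (DA_le hδ0 hT1 t)
    rw [← pow_two] at h3
    exact h3
  have hfab : ∀ t, fa t ≤ T ^ 6 * (1 + |t|) ^ 6 := fun t => by
    have h3 := hpoly t _ _ (norm_nonneg (A t)) (bA0 t) (norm_nonneg (A t)) (bA0 t)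
    rw [← pow_two] at h3
    exact h3
  have hfwb : ∀ t, fw t ≤ T ^ 6 * (1 + |t|) ^ 6 := fun t => by
    have h3 := hpoly t _ _ (norm_nonneg (A2 t)) (bA2 t) (norm_nonneg (A2 t)) (bA2 t)
    rw [← pow_two] at h3
    exact h3
  have hP0b : ∀ t, ‖P0 t‖ ≤ T ^ 6 * (1 + |t|) ^ 6 := by
    intro t
    simp only [hP0]
    rw [norm_mul, norm_mul, norm_pow, norm_conj, norm_mul, norm_real, Real.norm_eq_abs,
      abs_of_nonneg (hW0' t)]
    exact hpoly t _ _ (norm_nonneg _) (bA1 t) (norm_nonneg _) (bA0 t)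
  have hP1b : ∀ t, ‖P1 t‖ ≤ T ^ 6 * (1 + |t|) ^ 6 := by
    intro t
    simp only [hP1]
    rw [norm_mul, norm_mul, norm_pow, norm_conj, norm_mul, norm_real, Real.norm_eq_abs,
      abs_of_nonneg (hW0' t)]
    exact hpoly t _ _ (norm_nonneg _) (bA1 t) (norm_nonneg _) (bA1 t)
  have hGP : ∀ t, G t ≤ 2 * fa t + (4 * (P0 t).re - 2 * (P1 t).re) + 2 * fw t := by
    intro t
    have h3 := ptid δ T t (hW0' t)
    rw [← SG_PA hT1] at h3
    have h4 := re_split (riemannZeta (1 / 2 + t * I)) (A t) (A1 t) (hW0' t)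
    have h5 : A t - A1 t = A2 t := (SG_Pw δ T _).symm
    rw [h5] at h4
    have h6 : G t = 2 * fa t + 2 * (riemannZeta (1 / 2 + t * I) ^ 2 *
        (starRingEnd ℂ) (A t ^ 2) * ((W t : ℝ) : ℂ)).re := h3
    have h7 : (riemannZeta (1 / 2 + t * I) ^ 2 * (starRingEnd ℂ) (A t ^ 2) *
        ((W t : ℝ) : ℂ)).re ≤ 2 * (P0 t).re - (P1 t).re + fw t := h4
    linarith
  have hiF : ∀ u v : ℝ, IntervalIntegrable Fz volume u v := fun u v => cF.intervalIntegrable u v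
  have hiG : ∀ u v : ℝ, IntervalIntegrable G volume u v := fun u v => cG.intervalIntegrable u v
  have hiR : ∀ u v : ℝ, IntervalIntegrable R volume u v := fun u v => cR.intervalIntegrable u v
  have hifa : ∀ u v : ℝ, IntervalIntegrable fa volume u v := fun u v =>
    cfa.intervalIntegrable u v
  have hifw : ∀ u v : ℝ, IntervalIntegrable fw volume u v := fun u v =>
    cfw.intervalIntegrable u v
  obtain ⟨hS10, hS11⟩ := hS1
  obtain ⟨hS20, hS21⟩ := hS2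
  obtain ⟨hSw0, hSw1⟩ := hSw
  set p6 : ℝ := 6 / Real.pi ^ 2 with hp6
  have hpi : 0 < Real.pi := Real.pi_pos
  have hp60 : 0 < p6 := by positivity
  set Da : ℝ := B * (K4.S1 δ T + (1 - κ) * (57 / 25 * cA) * p6 * L ^ 4 + e * L ^ 4) with hDa
  set Dw : ℝ := B * (S1g (Pw δ) T + (1 - κ) * (57 / 25 * cW) * p6 * L ^ 4 + e * L ^ 4) with hDw
  set Dp : ℝ := B * K4.S2 δ T + 3 * (((1 - κ) * c2 * p6 + e) * K) with hDp
  -- the diagonal part
  have hfaI : ∫ t in (ρ * T)..((1 + ρ) * T), fa t ≤ T * Da := by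
    have h6 : ∫ t in (ρ * T)..((1 + ρ) * T), fa t ≤ T * (B * ((1 + ρ - ρ) *
        (S1g (PA δ 0) T + (1 - κ) * (57 / 25 * cA) * p6 * L ^ 4) + e * L ^ 4)) := hTa
    rw [show 1 + ρ - ρ = 1 by ring, one_mul, S1g_PA hT1] at h6
    exact h6
  have hfwI : ∫ t in (ρ * T)..((1 + ρ) * T), fw t ≤ T * Dw := by
    have h6 : ∫ t in (ρ * T)..((1 + ρ) * T), fw t ≤ T * (B * ((1 + ρ - ρ) *
        (S1g (Pw δ) T + (1 - κ) * (57 / 25 * cW) * p6 * L ^ 4) + e * L ^ 4)) := hTw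
    rw [show 1 + ρ - ρ = 1 by ring, one_mul] at h6
    exact h6
  -- the cross part
  have kP : ∀ τ : ℝ, T / Real.log T ≤ |τ| → |τ| ≤ 3 / 2 * T →
      4 * (EG (K3.Td δ T) τ P0).re - 2 * (EG (K3.Td δ T) τ P1).re ≤ 2 * Dp := by
    intro τ h3 h4
    have h5 := (abs_re_le_norm _).trans (hTp τ h3 h4 0 (Or.inl rfl))
    have h6 := (abs_re_le_norm _).trans (hTp τ h3 h4 (1 / 60) (Or.inr rfl))
    rw [sub_re, ofReal_re] at h5 h6
    have h7 := (abs_le.mp h5).2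
    have h8 := (abs_le.mp h6).1
    have h9 : B * (2 * S2g (PA δ (1 / 60)) (PA δ 0) T -
        S2g (PA δ (1 / 60)) (PA δ (1 / 60)) T) ≤ B * K4.S2 δ T := by
      rw [← S2g_PA hT1]
      exact mul_le_mul_of_nonneg_left (S2g_window hδ0 T) hB0.le
    have h7' : (EG (K3.Td δ T) τ P0).re - B * S2g (PA δ (1 / 60)) (PA δ 0) T ≤
        ((1 - κ) * c2 * p6 + e) * K := h7
    have h8' : -(((1 - κ) * c2 * p6 + e) * K) ≤
        (EG (K3.Td δ T) τ P1).re - B * S2g (PA δ (1 / 60)) (PA δ (1 / 60)) T := h8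
    rw [hDp]
    linarith
  have hDp0 : 0 ≤ Dp := by
    have h3 : 0 ≤ 1 - κ := by linarith
    have h4 : 0 ≤ c2 := by unfold c2; norm_num
    positivity
  have hcross := meanT (δ := δ) hT3 hρ0 hρ1 e1 e5 cG cfa cfw cP0 cP1 hG0 hfa0 hfw0 hGb hfab hfwb
    hP0b hP1b hGP hDp0 hfaI hfwI kP
  -- the mean of G
  set c : ℝ := 1 / (2 * Real.pi ^ 2) with hc
  have hc1 : c ≤ 1 / 18 := by
    have := Real.pi_gt_three
    rw [hc]
    apply one_div_le_one_div_of_le (by norm_num)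
    have h3 : (3 : ℝ) ^ 2 ≤ Real.pi ^ 2 := by gcongr
    linarith
  have hc2 : 1 / 20 ≤ c := by
    rw [hc]
    apply one_div_le_one_div_of_le (by positivity)
    have h3 : Real.pi ^ 2 ≤ (3.15 : ℝ) ^ 2 := by
      have := Real.pi_lt_d2
      gcongr
    norm_num at h3
    linarith
  have hcp : 0 < c := by positivity
  set c' : ℝ := c * (1 + eB κ) with hc'
  have heB0 : 0 ≤ eB κ := by
    have h3 : 0 ≤ 1 - κ := by linarith
    unfold eB
    positivity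
  have heB1 : eB κ ≤ 1 / 2 := by unfold eB; linarith
  have hc'0 : 0 < c' := by positivity
  have hc'1 : c' ≤ 1 / 10 := by
    calc c' ≤ 1 / 18 * (1 + 1 / 2) := by rw [hc']; gcongr
      _ ≤ 1 / 10 := by norm_num
  have hSS : 2 * Da + 2 * Dp + 2 * Dw ≤ (c' + 16 * e) * K :=
    SS_bound hκ1 hδ0 hδ1 hB0 hK0 hS11 hS21 hSw1
  have hρT : 2 * ρ * T ≤ T := by
    have := mul_le_mul_of_nonneg_right hρ1 hT0.le
    linarith
  have hJG : 0 ≤ ∫ t in (2 * ρ * T)..T, G t :=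
    intervalIntegral.integral_nonneg hρT fun t _ => hG0 t
  have hTe : 4 / T ≤ e := by
    rw [div_le_iff₀ hT0]
    rw [div_le_iff₀ he0] at e6
    linarith
  have hGT : (1 - 1 / T) * ∫ t in (2 * ρ * T)..T, G t ≤ T * ((c' + 16 * e) * K) + 4 := by
    have h3 := mul_le_mul_of_nonneg_left hSS hT0.le
    linarith
  -- the remainder
  have hRm : ∫ t in (2 * ρ * T)..T, R t ≤ T * (e ^ 2 / 2 * K) := by
    refine remT hT1 (by positivity) hρ0 hρ1 cR hR0 hn e4 fun X hX1 hX2 => ?_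
    calc ∫ t in X..(2 * X), R t ≤ e ^ 2 / 2 * X * K := hTb X hX1 hX2
      _ = _ := by ring
  -- the beginning
  have hLK : L ^ ((1 + κ) ^ 2) = K / cM κ M := by
    rw [eq_div_iff hc0.ne', hBFe]; ring
  have hBeg : ∫ t in (0 : ℝ)..(2 * ρ * T), Fz t ≤
      2 * ρ * T * (Real.exp (C * M) / cM κ M * K) + T ^ (1 - κ') := by
    have h5 := hTc (2 * ρ * T) (by positivity) (by linarith)
    rw [Finset.prod_empty, mul_one] at h5
    rw [div_mul_eq_mul_div, mul_div_assoc, ← hLK]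
    exact h5
  have hsum : ∫ t in (0 : ℝ)..T, Fz t ≤ (∫ t in (0 : ℝ)..(2 * ρ * T), Fz t) +
      ((1 + e) * (∫ t in (2 * ρ * T)..T, G t) + (1 + 1 / e) * ∫ t in (2 * ρ * T)..T, R t) := by
    rw [← intervalIntegral.integral_add_adjacent_intervals (hiF 0 (2 * ρ * T))
      (hiF (2 * ρ * T) T)]
    have h5 : ∫ t in (2 * ρ * T)..T, Fz t ≤
        ∫ t in (2 * ρ * T)..T, ((1 + e) * G t + (1 + 1 / e) * R t) :=
      intervalIntegral.integral_mono_on hρT (hiF _ _)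
        (((hiG _ _).const_mul _).add ((hiR _ _).const_mul _)) fun t _ =>
          Sh4W.split he0 δ T t (hW0' t)
    rw [intervalIntegral.integral_add ((hiG _ _).const_mul _) ((hiR _ _).const_mul _),
      intervalIntegral.integral_const_mul, intervalIntegral.integral_const_mul] at h5
    linarith
  have hTinv : T⁻¹ * T ^ (1 - κ') = T ^ (-κ') := by
    rw [← Real.rpow_neg_one, ← Real.rpow_add hT0]; congr 1; ring
  have hfin : T⁻¹ * ∫ t in (0 : ℝ)..T, Fz t ≤ (c' + 25 * e) * K :=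
    finT hT0 he0 he1 hc'0 hc'1 hK1 hρ0 hTinv e3 hρe hTe hJG hGT hRm hBeg hsum
  refine hfin.trans (mul_le_mul_of_nonneg_right ?_ hK0.le)
  have h20 : 1 / 20 * η ≤ c * η := mul_le_mul_of_nonneg_right hc2 hη.le
  rw [hc']
  linarith

end K7
end Pool.Agent.Lib.MP_973905_nt
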