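import Pool.Agent.Lib.MP_973905_nt.K7.Stmts
import Pool.Agent.Lib.MP_973905_nt.K4.SharpA
import Pool.Agent.Lib.MP_973905_nt.K4.Circ
import Pool.Agent.Lib.MP_973905_nt.F4.Cr4
import Pool.Agent.Lib.MP_973905_nt.K2.Arith2
import Pool.Agent.Lib.MP_973905_nt.K5.Rho

/-! Sharp upper bound for the twisted second moment by a Karamata argument (module A3 of K7). -/

namespace Pool.Agent.Lib.MP_973905_nt
namespace K7

open MeasureTheory ProbabilityTheory Complex Filter Topology K1 K4 K5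

namespace ShG

open ThreeLines

lemma qg_eq {P : ℝ → ℝ} {T : ℝ} {n : ℕ} (hn : 1 ≤ n) :
    qg (fun x => Real.exp x * P x) T 0 n = ((P (Real.log n / Real.log T) : ℝ) : ℂ) := by
  have hn0 : (0 : ℝ) < n := by exact_mod_cast hn
  unfold qg
  have e1 : (-(((1 / Real.log T : ℝ) : ℂ) + ((0 : ℝ) : ℂ) * I)) = ((-(1 / Real.log T) : ℝ) : ℂ) := by
    push_cast; ring
  rw [e1]
  have e2 : ((n : ℂ) ^ ((-(1 / Real.log T) : ℝ) : ℂ)) =
      ((Real.exp (-(Real.log n / Real.log T)) : ℝ) : ℂ) := by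
    have e3 : (n : ℂ) = ((n : ℝ) : ℂ) := by norm_cast
    rw [e3, ← ofReal_cpow hn0.le, Real.rpow_def_of_pos hn0]
    congr 2
    ring
  rw [e2, ← ofReal_mul]
  congr 1
  beta_reduce
  rw [mul_comm (Real.exp _) (P _), mul_assoc, ← Real.exp_add]
  simp

lemma Qp_eq {P : ℝ → ℝ} {T : ℝ} (t : ℝ) :
    Qp (fun x => Real.exp x * P x) T 0 t = FourG.SG P T (fs (1 / 2 + t * I)) := by
  unfold Qp FourG.SG
  refine Finset.sum_congr rfl fun n hn => ?_
  rw [qg_eq (Finset.mem_Icc.mp hn).1]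

lemma Qp_cont (φ : ℝ → ℝ) (T ν : ℝ) : Continuous (Qp φ T ν) := by
  unfold Qp
  refine continuous_finsetSum _ fun n hn => ?_
  rw [Finset.mem_Icc] at hn
  have hn0 : (n : ℂ) ≠ 0 := by exact_mod_cast (by omega : n ≠ 0)
  apply Continuous.mul continuous_const
  unfold fs
  apply Continuous.const_cpow (by fun_prop) (Or.inl hn0)

lemma Rde_one (φ : ℝ → ℝ) (T ν : ℝ) (a : ℂ) :
    Rde φ T ν 1 1 a = RF ⌊T⌋₊ (qg φ T ν) a := by
  unfold Rde RF
  refine Finset.sum_congr rfl fun m hm => Finset.sum_congr rfl fun n hn => ?_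
  rw [mul_one, mul_one, Nat.cast_mul, natCast_mul_natCast_cpow]
  ring

lemma Rde_cont (φ : ℝ → ℝ) (T ν : ℝ) {d e : ℕ} (hd : 1 ≤ d) (he : 1 ≤ e) :
    Continuous (Rde φ T ν d e) := by
  unfold Rde
  refine continuous_finsetSum _ fun m hm => continuous_finsetSum _ fun n hn => ?_
  rw [Finset.mem_Icc] at hm hn
  have h1 : 1 ≤ m * d := Nat.mul_le_mul hm.1 hd
  have h2 : 1 ≤ n * e := Nat.mul_le_mul hn.1 he
  have hg : 0 < (m * d).gcd (n * e) := Nat.gcd_pos_of_pos_left _ h1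
  have h3 : 1 ≤ (m * d) / (m * d).gcd (n * e) := Nat.div_pos (Nat.gcd_le_left _ h1) hg
  have h4 : 1 ≤ (n * e) / (m * d).gcd (n * e) := Nat.div_pos (Nat.gcd_le_right _ h2) hg
  have h5 : 1 ≤ (m * d) / (m * d).gcd (n * e) * ((n * e) / (m * d).gcd (n * e)) :=
    Nat.mul_le_mul h3 h4
  have h6 : (((m * d) / (m * d).gcd (n * e) * ((n * e) / (m * d).gcd (n * e)) : ℕ) : ℂ) ≠ 0 := by
    exact_mod_cast (by omega :
      (m * d) / (m * d).gcd (n * e) * ((n * e) / (m * d).gcd (n * e)) ≠ 0)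
  apply Continuous.mul continuous_const
  apply Continuous.const_cpow (by fun_prop) (Or.inl h6)

lemma RW_cont (φ : ℝ → ℝ) (T ν : ℝ) (N : ℕ) (c : ℕ → ℕ → ℂ) : Continuous (RW φ T ν N c) := by
  unfold RW
  refine continuous_finsetSum _ fun d hd => continuous_finsetSum _ fun e he => ?_
  exact continuous_const.mul
    (Rde_cont φ T ν (Finset.mem_Icc.mp hd).1 (Finset.mem_Icc.mp he).1)

lemma MW_circ {X : ℝ} (hX : 0 < X) {R : ℂ → ℂ} (hR : Continuous R) {r : ℝ} (hr0 : 0 < r)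
    (hr1 : r < 5) : CircleIntegrable (MW X 12 R) 0 r := by
  have hpi := Real.pi_pos
  apply ContinuousOn.circleIntegrable hr0.le
  intro a ha
  rw [mem_sphere_zero_iff_norm] at ha
  have ha0 : a ≠ 0 := by
    intro h
    rw [h, norm_zero] at ha
    linarith
  apply ContinuousAt.continuousWithinAt
  unfold MW
  have c1 : ContinuousAt (fun a : ℂ => riemannZeta (1 + 2 * a)) a := by
    have : DifferentiableAt ℂ riemannZeta (1 + 2 * a) := by
      apply differentiableAt_riemannZeta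
      simpa using ha0
    exact ContinuousAt.comp (f := fun a : ℂ => 1 + 2 * a) this.continuousAt (by fun_prop)
  have c2 : ContinuousAt (fun a : ℂ => riemannZeta (1 - 2 * a)) a := by
    have : DifferentiableAt ℂ riemannZeta (1 - 2 * a) := by
      apply differentiableAt_riemannZeta
      simpa using ha0
    exact ContinuousAt.comp (f := fun a : ℂ => 1 - 2 * a) this.continuousAt (by fun_prop)
  have c3 : ContinuousAt (fun a : ℂ => Gamma (12 - 2 * a)) a := by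
    have : DifferentiableAt ℂ Gamma (12 - 2 * a) := by
      apply differentiableAt_Gamma
      intro m h
      have := congrArg Complex.re h
      simp at this
      have h5 : (0 : ℝ) ≤ m := by positivity
      have h6 := (le_abs_self _).trans (abs_re_le_norm a)
      linarith
    exact ContinuousAt.comp (f := fun a : ℂ => 12 - 2 * a) this.continuousAt (by fun_prop)
  have c4 : ContinuousAt (fun a : ℂ => ((X / (2 * Real.pi) : ℝ) : ℂ) ^ (-(2 * a))) a := by
    apply ContinuousAt.const_cpow (by fun_prop)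
    left
    exact_mod_cast (by positivity : X / (2 * Real.pi) ≠ 0)
  have c5 : ContinuousAt R a := hR.continuousAt
  have c6 : ContinuousAt (fun a : ℂ => R (-a)) a := (hR.comp continuous_neg).continuousAt
  exact (continuousAt_const.mul (c1.mul c5)).add (c4.mul (c3.mul (c2.mul c6)))

/-- the kernel on the circle -/
noncomputable def KKr (T : ℝ) (a : ℂ) : ℝ := ‖Gamma 12‖ * ‖riemannZeta (1 + 2 * a)‖ +
  ‖((T / (2 * Real.pi) : ℝ) : ℂ) ^ (-(2 * a))‖ * (‖Gamma (12 - 2 * a)‖ *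
    ‖riemannZeta (1 - 2 * a)‖)

/-- linearity and the kernel -/
lemma MW_lin (T : ℝ) (a : ℂ) (R R' : ℂ → ℂ) (l : ℂ) {B : ℝ}
    (h1 : ‖R a - l * R' a‖ ≤ B) (h2 : ‖R (-a) - l * R' (-a)‖ ≤ B) :
    ‖MW T 12 R a - l * MW T 12 R' a‖ ≤ KKr T a * B := by
  have e : MW T 12 R a - l * MW T 12 R' a =
      Gamma 12 * (riemannZeta (1 + 2 * a) * (R a - l * R' a)) +
      ((T / (2 * Real.pi) : ℝ) : ℂ) ^ (-(2 * a)) * (Gamma (12 - 2 * a) *
        (riemannZeta (1 - 2 * a) * (R (-a) - l * R' (-a)))) := by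
    rw [MW, MW]; ring
  rw [e]
  calc _ ≤ ‖Gamma 12‖ * (‖riemannZeta (1 + 2 * a)‖ * B) +
        ‖((T / (2 * Real.pi) : ℝ) : ℂ) ^ (-(2 * a))‖ * (‖Gamma (12 - 2 * a)‖ *
          (‖riemannZeta (1 - 2 * a)‖ * B)) := by
        refine (norm_add_le _ _).trans (add_le_add ?_ ?_)
        · rw [norm_mul, norm_mul]
          gcongr
        · rw [norm_mul, norm_mul, norm_mul]
          gcongr
    _ = _ := by rw [KKr]; ring

/-- circle averages and a majorant -/
lemma avg_le {f : ℂ → ℂ} {g : ℂ → ℝ} {r B : ℝ} (hr : 0 < r) (hg : CircleIntegrable g 0 r)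
    (h : ∀ a : ℂ, ‖a‖ = r → ‖f a‖ ≤ g a * B) :
    ‖Real.circleAverage f 0 r‖ ≤ Real.circleAverage g 0 r * B := by
  have hpi := Real.pi_pos
  unfold Real.circleAverage
  rw [norm_smul, smul_eq_mul, mul_assoc, Real.norm_of_nonneg (by positivity)]
  apply mul_le_mul_of_nonneg_left _ (by positivity)
  rw [← intervalIntegral.integral_mul_const]
  refine intervalIntegral.norm_integral_le_of_norm_le (by positivity) ?_ (hg.mul_const B)
  refine Filter.Eventually.of_forall fun θ _ => ?_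
  apply h
  simp [abs_of_pos hr]

/-- constants on the small circle -/
lemma circ_const : ∃ G Cz L₀ : ℝ, 0 < G ∧ 0 < Cz ∧ 4 ≤ L₀ ∧ ∀ T : ℝ, 0 < T → L₀ ≤ Real.log T →
    ∀ a : ℂ, ‖a‖ = 1 / (2 * Real.log T) →
    ‖riemannZeta (1 - 2 * a)‖ ≤ Cz * Real.log T ∧ ‖Gamma (12 - 2 * a)‖ ≤ G ∧
    ‖((T / (2 * Real.pi) : ℝ) : ℂ) ^ (-(2 * a))‖ ≤ Real.exp 2 := by
  obtain ⟨Cz, L₀, hCz, hL₀, hz⟩ := F4.Twist.zeta_circle
  obtain ⟨G, hG, hG1⟩ := F4.Twist.Gamma_bdd (c := 12) (by norm_num)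
  refine ⟨G, 2 * Cz, L₀, hG, by positivity, hL₀, fun T hTpos hL a ha => ?_⟩
  have hL4 : 4 ≤ Real.log T := hL₀.trans hL
  have hL0 : 0 < Real.log T := by linarith
  obtain ⟨z1, z2⟩ := hz (2 * Real.log T) (by linarith) a ha
  have hpi := Real.pi_gt_three
  have hpi4 := Real.pi_lt_four
  have hT8 : 8 ≤ T := by
    have h1 := Real.add_one_le_exp (Real.log T)
    rw [Real.exp_log hTpos] at h1
    have h2 : Real.exp 4 ≤ T := by
      rw [← Real.exp_log hTpos]; exact Real.exp_le_exp.mpr hL4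
    have h3 : (8 : ℝ) ≤ Real.exp 4 := by
      have h4 := Real.add_one_le_exp (1 : ℝ)
      have : Real.exp 4 = Real.exp 1 ^ 4 := by rw [← Real.exp_nat_mul]; norm_num
      rw [this]
      calc (8 : ℝ) ≤ 2 ^ 4 := by norm_num
        _ ≤ _ := by gcongr; linarith
    linarith
  have hre : |a.re| ≤ 1 / (2 * Real.log T) := ha ▸ Complex.abs_re_le_norm a
  have hr : 1 / (2 * Real.log T) ≤ 1 / 8 := one_div_le_one_div_of_le (by norm_num) (by linarith)
  refine ⟨z2.trans (le_of_eq (by ring)), hG1 a (by linarith), ?_⟩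
  have hY1 : 1 ≤ T / (2 * Real.pi) := by
    rw [le_div_iff₀ (by positivity)]; linarith
  have hY0 : 0 < T / (2 * Real.pi) := by linarith
  rw [ThreeLines.norm_X_cpow hY0]
  calc (T / (2 * Real.pi)) ^ (-(2 * a.re)) ≤ (T / (2 * Real.pi)) ^ (2 * (1 / Real.log T)) := by
        apply Real.rpow_le_rpow_of_exponent_le hY1
        have := (abs_le.mp hre).1
        have h7 : 1 / (2 * Real.log T) ≤ 1 / Real.log T :=
          one_div_le_one_div_of_le hL0 (by linarith)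
        linarith
    _ ≤ T ^ (2 * (1 / Real.log T)) := by
        apply Real.rpow_le_rpow hY0.le _ (by positivity)
        apply div_le_self hTpos.le
        linarith
    _ = Real.exp 2 := by
        rw [Real.rpow_def_of_pos hTpos]
        congr 1
        field_simp

lemma MW_shift {G Cz E L : ℝ} (hG : 0 ≤ G) (hCz : 0 ≤ Cz) (hE : 0 ≤ E) (hL : 0 < L) {T : ℝ}
    (hT : 0 < T) {a : ℂ} (ha : ‖a‖ = 1 / (2 * L)) (z2 : ‖riemannZeta (1 - 2 * a)‖ ≤ Cz * L)
    (g2 : ‖Gamma (12 - 2 * a)‖ ≤ G)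
    (y1 : ‖((T / (2 * Real.pi) : ℝ) : ℂ) ^ (-(2 * a))‖ ≤ E) {R : ℂ → ℂ} {B : ℝ}
    (h2 : ‖R (-a)‖ ≤ B) {j : ℕ} (hj : 1 ≤ j) (hjL : 2 * Real.log j ≤ L) :
    ‖MW (T / j) 12 R a - MW T 12 R a‖ ≤ 4 * E * G * Cz * Real.log j * B := by
  have hR : 0 ≤ B := (norm_nonneg _).trans h2
  have hpi := Real.pi_pos
  have hj0 : (0 : ℝ) < j := by exact_mod_cast hj
  have hlj : 0 ≤ Real.log j := Real.log_nonneg (by exact_mod_cast hj)
  have e0 : ((T / j / (2 * Real.pi) : ℝ) : ℂ) ^ (-(2 * a)) =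
      ((T / (2 * Real.pi) : ℝ) : ℂ) ^ (-(2 * a)) * cexp (2 * a * (Real.log j : ℝ)) := by
    have e1 : (T / j / (2 * Real.pi) : ℝ) = T / (2 * Real.pi) * (j : ℝ)⁻¹ := by
      field_simp
    rw [e1, ofReal_mul, mul_cpow_ofReal_nonneg (by positivity) (by positivity)]
    congr 1
    rw [cpow_def_of_ne_zero (by exact_mod_cast (inv_pos.mpr hj0).ne'), ← ofReal_log (by positivity),
      Real.log_inv]
    congr 1
    push_cast
    ring
  have e : MW (T / j) 12 R a - MW T 12 R a =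
      ((T / (2 * Real.pi) : ℝ) : ℂ) ^ (-(2 * a)) * ((cexp (2 * a * (Real.log j : ℝ)) - 1) *
        (Gamma (12 - 2 * a) * (riemannZeta (1 - 2 * a) * R (-a)))) := by
    rw [MW, MW, e0]; ring
  have hn : ‖2 * a * (Real.log j : ℝ)‖ = Real.log j / L := by
    rw [norm_mul, norm_mul, ha, Complex.norm_real, Real.norm_of_nonneg hlj]
    simp only [Complex.norm_ofNat]
    field_simp
  have h3 : ‖cexp (2 * a * (Real.log j : ℝ)) - 1‖ ≤ 4 * Real.log j / L := by
    refine (Complex.norm_exp_sub_one_le ?_).trans ?_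
    · rw [hn, div_le_one hL]; linarith
    · rw [hn, ← mul_div_assoc]
      gcongr
      norm_num
  rw [e, norm_mul, norm_mul, norm_mul, norm_mul]
  calc _ ≤ E * ((4 * Real.log j / L) * (G * (Cz * L * B))) := by gcongr
    _ = _ := by field_simp

/-- the main term `S1g`, crudely -/
lemma S1g_le {P : ℝ → ℝ} (hP : ∀ x, 0 ≤ P x ∧ P x ≤ 1) {T : ℝ} (hT : 3 ≤ T) :
    |S1g P T| ≤ (1 + Real.log T) ^ 3 * Real.log T := by
  have hT0 : 0 < T := by linarith
  have hT1 : 1 < T := by linarith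
  have hL : 0 < Real.log T := Real.log_pos hT1
  have hfl : ((⌊T⌋₊ : ℕ) : ℝ) ≤ T := Nat.floor_le hT0.le
  have hfl1 : 1 ≤ ⌊T⌋₊ := Nat.le_floor (by push_cast; linarith)
  unfold S1g
  calc |∑ m ∈ Finset.Icc 1 ⌊T⌋₊, ∑ n ∈ Finset.Icc 1 ⌊T⌋₊,
      P (Real.log m / Real.log T) * P (Real.log n / Real.log T) * ((m.gcd n : ℝ) / (m * n)) *
        (Real.log T - Real.log (m / m.gcd n : ℕ) - Real.log (n / m.gcd n : ℕ))|
      ≤ ∑ m ∈ Finset.Icc 1 ⌊T⌋₊, ∑ n ∈ Finset.Icc 1 ⌊T⌋₊,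
        (1 : ℝ) / ((m.gcd n : ℕ) * ((m / m.gcd n : ℕ) * (n / m.gcd n : ℕ))) * Real.log T := by
        refine (Finset.abs_sum_le_sum_abs _ _).trans (Finset.sum_le_sum fun m hm => ?_)
        refine (Finset.abs_sum_le_sum_abs _ _).trans (Finset.sum_le_sum fun n hn => ?_)
        rw [Finset.mem_Icc] at hm hn
        obtain ⟨hg, hm', hn', em, en⟩ := Circ.gcd_facts hm.1 hn.1
        have b1 : ((m / m.gcd n : ℕ) : ℝ) ≤ T := by
          have : m / m.gcd n ≤ ⌊T⌋₊ := (Nat.div_le_self _ _).trans hm.2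
          exact le_trans (by exact_mod_cast this) hfl
        have b2 : ((n / m.gcd n : ℕ) : ℝ) ≤ T := by
          have : n / m.gcd n ≤ ⌊T⌋₊ := (Nat.div_le_self _ _).trans hn.2
          exact le_trans (by exact_mod_cast this) hfl
        set g := m.gcd n with hgd
        set m' := m / g with hm'd
        set n' := n / g with hn'd
        have em' : (m : ℝ) = g * m' := by exact_mod_cast em
        have en' : (n : ℝ) = g * n' := by exact_mod_cast en
        have hG : (0 : ℝ) < g := by exact_mod_cast hg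
        have hM : (0 : ℝ) < m' := by exact_mod_cast hm'
        have hN : (0 : ℝ) < n' := by exact_mod_cast hn'
        have e1 : (g : ℝ) / (m * n) = 1 / (g * (m' * n')) := by
          rw [em', en']
          field_simp
        have a1 : 0 ≤ Real.log m' := Real.log_nonneg (by exact_mod_cast hm')
        have a2 : 0 ≤ Real.log n' := Real.log_nonneg (by exact_mod_cast hn')
        have c1 : Real.log m' ≤ Real.log T := Real.log_le_log hM b1
        have c2 : Real.log n' ≤ Real.log T := Real.log_le_log hN b2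
        have h3 : |Real.log T - Real.log m' - Real.log n'| ≤ Real.log T := by
          rw [abs_le]; constructor <;> linarith
        obtain ⟨p1, p2⟩ := hP (Real.log m / Real.log T)
        obtain ⟨q1, q2⟩ := hP (Real.log n / Real.log T)
        rw [abs_mul, e1]
        have h4 : |P (Real.log m / Real.log T) * P (Real.log n / Real.log T) *
            (1 / (g * (m' * n')))| ≤ 1 / (g * (m' * n')) := by
          rw [abs_of_nonneg (by positivity)]
          exact mul_le_of_le_one_left (by positivity) (mul_le_one₀ p2 q1 q2)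
        exact mul_le_mul h4 h3 (abs_nonneg _) (by positivity)
    _ = (∑ m ∈ Finset.Icc 1 ⌊T⌋₊, ∑ n ∈ Finset.Icc 1 ⌊T⌋₊,
        (1 : ℝ) / ((m.gcd n : ℕ) * ((m / m.gcd n : ℕ) * (n / m.gcd n : ℕ)))) * Real.log T := by
        rw [Finset.sum_mul]
        refine Finset.sum_congr rfl fun m _ => ?_
        rw [Finset.sum_mul]
    _ ≤ (1 + Real.log ⌊T⌋₊) ^ 3 * Real.log T := by
        gcongr
        exact F4.Cr4.gcd_sum _
    _ ≤ _ := by
        have h3 : Real.log ⌊T⌋₊ ≤ Real.log T := Real.log_le_log (by exact_mod_cast hfl1) hfl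
        have h4 : 0 ≤ Real.log ⌊T⌋₊ := Real.log_nonneg (by exact_mod_cast hfl1)
        gcongr

/-- the untwisted arithmetic factor, crudely -/
lemma Rde_le {P : ℝ → ℝ} (hP : ∀ x, 0 ≤ P x ∧ P x ≤ 1) {T : ℝ} (hT : 3 ≤ T) {a : ℂ}
    (ha : ‖a‖ = 1 / (2 * Real.log T)) :
    ‖Rde (fun x => Real.exp x * P x) T 0 1 1 a‖ ≤ Real.exp 2 * (1 + 2 * Real.log T) ^ 3 := by
  have hT0 : 0 < T := by linarith
  have e : Real.log (T ^ 2) = 2 * Real.log T := by rw [Real.log_pow]; norm_num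
  rw [Rde_one]
  have h := F4.Cr4.RF_le (T := T ^ 2) (by nlinarith) (N := ⌊T⌋₊)
    ((Nat.floor_le hT0.le).trans (by nlinarith)) (c := qg (fun x => Real.exp x * P x) T 0)
    (fun n hn => by
      rw [qg_eq hn, Complex.norm_real, Real.norm_of_nonneg (hP _).1]
      exact (hP _).2) (a := a) (by rw [e]; exact ha)
  rw [e] at h
  exact h

/-- the main factor is not too small -/
lemma BF_low {κ : ℝ} (h0 : 0 < κ) (h1 : κ < 1) {M : ℕ} (hM : 1 ≤ M) : ∃ β : ℝ, 0 < β ∧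
    ∀ T : ℝ, 3 ≤ T → β * (Real.log T ^ 3)⁻¹ ≤ BF κ T M := by
  obtain ⟨-, -, -, C, hC, hC2, -⟩ := K5.stRho κ h0 h1
  have hC0 : 0 < C⁻¹ := by positivity
  have ha : 0 < aK (1 + κ) := K2.Arith2.aK_pos2 (by linarith) (by linarith)
  have hpi := Real.pi_pos
  have hp : 0 < ∏ i ∈ Finset.range (M - 6), aF κ i :=
    Finset.prod_pos fun i _ => hC0.trans_le (hC2 i).1
  refine ⟨aK (1 + κ) * (Real.pi ^ 2 / 6) * ∏ i ∈ Finset.range (M - 6), aF κ i, by positivity,
    fun T hT => ?_⟩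
  have hT0 : 0 < T := by linarith
  have hL1 : 1 ≤ Real.log T := by
    rw [Real.le_log_iff_exp_le hT0]
    linarith [Real.exp_one_lt_d9]
  have hL0 : 0 < Real.log T := by linarith
  have he : (1 + κ) ^ 2 - 4 ≤ 0 := by nlinarith
  have he3 : -3 ≤ (1 + κ) ^ 2 - 4 := by nlinarith
  have hl : (Real.log T ^ 3)⁻¹ ≤ lM T M ^ ((1 + κ) ^ 2 - 4) := by
    unfold lM
    have hb : Real.exp (Real.eulerMascheroniConstant - M) ≤ 1 := by
      rw [Real.exp_le_one_iff]
      have := Real.eulerMascheroniConstant_lt_two_thirds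
      have hM1 : (1 : ℝ) ≤ M := by exact_mod_cast hM
      linarith
    rw [Real.mul_rpow (Real.exp_pos _).le hL0.le]
    have h3 : 1 ≤ Real.exp (Real.eulerMascheroniConstant - M) ^ ((1 + κ) ^ 2 - 4) :=
      Real.one_le_rpow_of_pos_of_le_one_of_nonpos (Real.exp_pos _) hb he
    have h4 : (Real.log T ^ 3)⁻¹ ≤ Real.log T ^ ((1 + κ) ^ 2 - 4) := by
      rw [← Real.rpow_natCast, ← Real.rpow_neg hL0.le]
      apply Real.rpow_le_rpow_of_exponent_le hL1
      push_cast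
      linarith
    have h5 : 0 ≤ Real.log T ^ ((1 + κ) ^ 2 - 4) := Real.rpow_nonneg hL0.le _
    nlinarith
  unfold BF D4
  calc aK (1 + κ) * (Real.pi ^ 2 / 6) * (∏ i ∈ Finset.range (M - 6), aF κ i) *
        (Real.log T ^ 3)⁻¹
      = aK (1 + κ) * (Real.pi ^ 2 / 6) * (Real.log T ^ 3)⁻¹ *
        ∏ i ∈ Finset.range (M - 6), aF κ i := by ring
    _ ≤ _ := by gcongr

end ShG

open ShG ThreeLines in
/-- (A4) sharp upper bound for the twisted second moment -/
theorem stSharpG (hj : StJW) (hq : StBQ7) (h4 : StCircG) (hk : StKer) (hkar : K4.StKar)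
    (hB : StWB) : StSharpG := by
  intro κ hκ0 hκ1 P hφ hP cc hcc hMB η hη
  set φ : ℝ → ℝ := fun x => Real.exp x * P x with hφd
  obtain ⟨Cj, hCj, Tj, hTj3, hj⟩ := hj φ hφ
  obtain ⟨C4, hC4, T4, hT43, h4⟩ := h4 P hφ (fun x => by
    rw [abs_of_nonneg (hP x).1]; exact (hP x).2)
  obtain ⟨Tk, hTk3, hk⟩ := hk
  obtain ⟨G, Cz, L₀, hG, hCz, hL₀, hcc'⟩ := circ_const
  set E : ℝ := Real.exp 2 with hE
  have hE0 : 0 < E := Real.exp_pos _
  have hpi := Real.pi_pos
  have hpi3 := Real.pi_gt_three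
  obtain ⟨Mm, hMB⟩ := hMB (η / 16) (by positivity)
  obtain ⟨Mq, hMq7, hq⟩ := hq κ hκ0 hκ1
  obtain ⟨Mb, hMb7, hB⟩ := hB κ hκ0 hκ1
  refine ⟨max Mm (max Mq Mb), fun M hM u₀ u₁ hu0 hu hu1 => ?_⟩
  have hM1 : 1 ≤ M := by
    have := (le_max_left Mq Mb).trans ((le_max_right _ _).trans hM)
    omega
  obtain ⟨Tm, hTm3, hMB⟩ := hMB M ((le_max_left _ _).trans hM)
  obtain ⟨Tq, hTq3, hq⟩ := hq M ((le_max_left _ _).trans ((le_max_right _ _).trans hM))
  obtain ⟨Tb, hTb3, hB⟩ := hB M ((le_max_right _ _).trans ((le_max_right _ _).trans hM))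
  obtain ⟨β, hβ, hBF⟩ := BF_low hκ0 hκ1 hM1
  set F : ℝ := ((Nat.factorial 11 : ℕ) : ℝ) with hF
  have hF1 : 1 ≤ F := by
    rw [hF]; exact_mod_cast Nat.one_le_iff_ne_zero.mpr (Nat.factorial_ne_zero 11)
  have hF0 : 0 < F := by linarith
  -- the relative loss
  set θ : ℝ := ((1 - κ) * cc + η / 16) * (6 / Real.pi ^ 2) with hθ
  have hκ1' : 0 ≤ 1 - κ := by linarith
  have hθ0 : 0 < θ := by positivity
  set K1 : ℝ := F * (57 / 25) * θ + 8 * F + C4 with hK1
  have hK10 : 0 < K1 := by positivity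
  set K2 : ℝ := 27 * E + θ with hK2
  have hK20 : 0 < K2 := by positivity
  obtain ⟨n, α, hα0, hα1, hαs⟩ := hkar u₀ u₁ (η / (4 * K1)) hu0 hu (by positivity)
  set A : ℝ := ∑ j ∈ Finset.Icc 1 n, |α j| with hA
  have hA0 : 0 ≤ A := Finset.sum_nonneg fun _ _ => abs_nonneg _
  set Q : ℝ := 4 * E * G * Cz * Real.log (n + 1) * K2 with hQ
  have hln : 0 ≤ Real.log ((n : ℝ) + 1) := Real.log_nonneg (by
    have : (0 : ℝ) ≤ n := Nat.cast_nonneg n
    linarith)
  have hQ0 : 0 ≤ Q := by positivity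
  -- thresholds
  have ev1 : ∀ᶠ T : ℝ in atTop, max (max L₀ (2 * Real.log (n + 1)))
      ((4 * C4 + A * Q) * (4 / η)) ≤ Real.log T :=
    Real.tendsto_log_atTop.eventually_ge_atTop _
  have ev2 : ∀ᶠ T : ℝ in atTop, (n : ℝ) + 1 ≤ T ^ (1 / 1000 : ℝ) :=
    (tendsto_rpow_atTop (by norm_num)).eventually_ge_atTop _
  have ev3 : ∀ᶠ T : ℝ in atTop, (2 + A) * Cj * (4 / (η * β)) + 1 ≤ T ^ (1 / 200 : ℝ) :=
    (tendsto_rpow_atTop (by norm_num)).eventually_ge_atTop _
  obtain ⟨T₁, hT₁⟩ := eventually_atTop.mp (ev1.and (ev2.and ev3))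
  refine ⟨max (max (max Tj T4) (max Tk Tm)) (max (max Tq Tb) T₁),
    hTj3.trans (((le_max_left _ _).trans (le_max_left _ _)).trans (le_max_left _ _)),
    fun T hT => ?_⟩
  have hTj : Tj ≤ T :=
    (((le_max_left _ _).trans (le_max_left _ _)).trans (le_max_left _ _)).trans hT
  have hT4 : T4 ≤ T :=
    (((le_max_right _ _).trans (le_max_left _ _)).trans (le_max_left _ _)).trans hT
  have hTk : Tk ≤ T :=
    (((le_max_left _ _).trans (le_max_right _ _)).trans (le_max_left _ _)).trans hT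
  have hTm : Tm ≤ T :=
    (((le_max_right _ _).trans (le_max_right _ _)).trans (le_max_left _ _)).trans hT
  have hTq : Tq ≤ T :=
    (((le_max_left _ _).trans (le_max_left _ _)).trans (le_max_right _ _)).trans hT
  have hTb : Tb ≤ T :=
    (((le_max_right _ _).trans (le_max_left _ _)).trans (le_max_right _ _)).trans hT
  have hTT1 : T₁ ≤ T := ((le_max_right _ _).trans (le_max_right _ _)).trans hT
  obtain ⟨e1, e2, e3⟩ := hT₁ T hTT1
  have hT3 : 3 ≤ T := hTj3.trans hTj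
  have hT0 : 0 < T := by linarith
  have hT1 : 1 < T := by linarith
  have hBF := hBF T hT3
  obtain ⟨hkc, hka⟩ := hk T hTk
  have h4 := h4 T hT4
  have hS1g := S1g_le hP hT3
  set L : ℝ := Real.log T with hL
  have hLL0 : L₀ ≤ L := ((le_max_left _ _).trans (le_max_left _ _)).trans e1
  have hLn : 2 * Real.log (n + 1) ≤ L := ((le_max_right _ _).trans (le_max_left _ _)).trans e1
  have hLQ : (4 * C4 + A * Q) * (4 / η) ≤ L := (le_max_right _ _).trans e1
  have hL4 : 4 ≤ L := hL₀.trans hLL0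
  have hL0 : 0 < L := by linarith
  have hL1 : 1 ≤ L := by linarith
  set B : ℝ := BF κ T M with hBd
  have hB0 : 0 < B := lt_of_lt_of_le (by positivity) hBF
  -- the coefficients of the weight
  obtain ⟨⟨c, hc1, hc2, hc3⟩, -⟩ := hq T hTq (Finset.range (JJ T + 1)) ∅
  obtain ⟨hW0, -, hWc, -, -, -⟩ := hB T hTb (Finset.range (JJ T + 1)) ∅
  set N : ℕ := ⌊T ^ (1 / 60 : ℝ)⌋₊ with hN
  have hNT : (N : ℝ) ≤ T ^ (1 / 60 : ℝ) := Nat.floor_le (Real.rpow_nonneg hT0.le _)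
  have hc1' : ∀ m n, ‖c m n‖ ≤ T ^ (1 / 1000 : ℝ) := fun m n =>
    (hc1 m n).trans (Real.rpow_le_rpow_of_exponent_le hT1.le (by norm_num))
  set r : ℝ := 1 / (2 * L) with hrdef
  have hr0 : 0 < r := by positivity
  have hr1 : r < 5 := by
    have : 1 / (2 * L) ≤ 1 / 8 := one_div_le_one_div_of_le (by norm_num) (by linarith)
    rw [hrdef]; linarith
  have hna : ∀ a : ℂ, ‖a‖ = r → ‖-a‖ = r := fun a ha => by rw [norm_neg, ha]
  set R : ℂ → ℂ := RW φ T 0 N c with hR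
  set R1 : ℂ → ℂ := Rde φ T 0 1 1 with hR1
  have hRc : Continuous R := RW_cont φ T 0 N c
  have hR1c : Continuous R1 := Rde_cont φ T 0 le_rfl le_rfl
  -- bounds for the arithmetic factor
  have hRed : ∀ a : ℂ, ‖a‖ = r → ‖R a - ((B : ℝ) : ℂ) * R1 a‖ ≤ θ * (B * L ^ 3) := fun a ha =>
    hMB T hTm N c hNT hc3 a ha
  have hR1b : ∀ a : ℂ, ‖a‖ = r → ‖R1 a‖ ≤ 27 * E * L ^ 3 := by
    intro a ha
    refine (Rde_le hP hT3 ha).trans ?_
    have : (1 + 2 * L) ^ 3 ≤ (3 * L) ^ 3 := by gcongr; linarith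
    calc Real.exp 2 * (1 + 2 * Real.log T) ^ 3 ≤ E * (3 * L) ^ 3 := by gcongr
      _ = _ := by ring
  have hRb : ∀ a : ℂ, ‖a‖ = r → ‖R a‖ ≤ K2 * (B * L ^ 3) := by
    intro a ha
    have h5 : R a = (R a - ((B : ℝ) : ℂ) * R1 a) + ((B : ℝ) : ℂ) * R1 a := by ring
    rw [h5]
    refine (norm_add_le _ _).trans ?_
    rw [norm_mul, Complex.norm_real, Real.norm_of_nonneg hB0.le]
    calc _ ≤ θ * (B * L ^ 3) + B * (27 * E * L ^ 3) := by
          gcongr
          · exact hRed a ha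
          · exact hR1b a ha
      _ = _ := by rw [hK2]; ring
  set D : ℂ := Real.circleAverage (MW T 12 R) 0 r with hD
  set D1 : ℂ := Real.circleAverage (MW T 12 R1) 0 r with hD1
  -- comparison with the untwisted main term
  have hcomp : ‖D - ((B : ℝ) : ℂ) * D1‖ ≤ F * (57 / 25) * θ * (B * L ^ 4) := by
    have i1 := MW_circ hT0 hRc hr0 hr1
    have i2 := MW_circ hT0 hR1c hr0 hr1
    have e : D - ((B : ℝ) : ℂ) * D1 =
        Real.circleAverage (fun a => MW T 12 R a - ((B : ℝ) : ℂ) * MW T 12 R1 a) 0 r := by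
      have e5 : (fun a => ((B : ℝ) : ℂ) * MW T 12 R1 a) =
          fun a => ((B : ℝ) : ℂ) • MW T 12 R1 a := by
        funext a; rw [smul_eq_mul]
      have i3 : CircleIntegrable (fun a => ((B : ℝ) : ℂ) * MW T 12 R1 a) 0 r := by
        rw [e5]
        exact i2.const_fun_smul
      rw [Real.circleAverage_fun_sub i1 i3, e5, Real.circleAverage_fun_smul, smul_eq_mul]
    rw [e]
    refine (avg_le (g := KKr T) (B := θ * (B * L ^ 3)) hr0 hkc fun a ha =>
      MW_lin T a R R1 _ (hRed a ha) (hRed (-a) (hna a ha))).trans ?_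
    calc Real.circleAverage (KKr T) 0 r * (θ * (B * L ^ 3)) ≤
          (F * (57 / 25 * L)) * (θ * (B * L ^ 3)) := by
          gcongr
          exact hka
      _ = _ := by ring
  have hD1' : ‖D1 - ((F * S1g P T : ℝ) : ℂ)‖ ≤ C4 * L ^ 3 := h4
  have hS8 : |S1g P T| ≤ 8 * L ^ 4 := by
    refine hS1g.trans ?_
    calc (1 + L) ^ 3 * L ≤ (2 * L) ^ 3 * L := by gcongr; linarith
      _ = _ := by ring
  have hL34 : L ^ 3 ≤ L ^ 4 := pow_le_pow_right₀ hL1 (by norm_num)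
  have hDbd : ‖D‖ ≤ K1 * (B * L ^ 4) := by
    have h5 : D = (D - ((B : ℝ) : ℂ) * D1) + ((B : ℝ) : ℂ) * ((D1 - ((F * S1g P T : ℝ) : ℂ)) +
        ((F * S1g P T : ℝ) : ℂ)) := by ring
    rw [h5]
    refine (norm_add_le _ _).trans ?_
    rw [norm_mul, Complex.norm_real, Real.norm_of_nonneg hB0.le]
    have h6 : ‖(D1 - ((F * S1g P T : ℝ) : ℂ)) + ((F * S1g P T : ℝ) : ℂ)‖ ≤
        C4 * L ^ 4 + F * (8 * L ^ 4) := by
      refine (norm_add_le _ _).trans ?_
      rw [Complex.norm_real, Real.norm_eq_abs, abs_mul, abs_of_pos hF0]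
      gcongr
      exact hD1'.trans (by gcongr)
    calc _ ≤ F * (57 / 25) * θ * (B * L ^ 4) + B * (C4 * L ^ 4 + F * (8 * L ^ 4)) := by
          gcongr
      _ = _ := by rw [hK1]; ring
  set S₀ : ℝ := B * (S1g P T + 57 / 25 * θ * L ^ 4) with hS₀
  set e2' : ℝ := C4 * (B * L ^ 3) with he2'
  have he20 : 0 ≤ e2' := by positivity
  have hDre : D.re ≤ F * S₀ + e2' := by
    have e6 : D.re = (D - ((B : ℝ) : ℂ) * D1).re +
        (((B : ℝ) : ℂ) * (D1 - ((F * S1g P T : ℝ) : ℂ))).re + B * (F * S1g P T) := by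
      have e5 : D = (D - ((B : ℝ) : ℂ) * D1) + ((B : ℝ) : ℂ) * (D1 - ((F * S1g P T : ℝ) : ℂ)) +
        ((B * (F * S1g P T) : ℝ) : ℂ) := by push_cast; ring
      conv_lhs => rw [e5]
      rw [add_re, add_re, ofReal_re]
    have e7 := (Complex.re_le_norm (D - ((B : ℝ) : ℂ) * D1)).trans hcomp
    have e8 : (((B : ℝ) : ℂ) * (D1 - ((F * S1g P T : ℝ) : ℂ))).re ≤ C4 * (B * L ^ 3) := by
      refine (Complex.re_le_norm _).trans ?_
      rw [norm_mul, Complex.norm_real, Real.norm_of_nonneg hB0.le]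
      calc B * ‖D1 - ((F * S1g P T : ℝ) : ℂ)‖ ≤ B * (C4 * L ^ 3) := by gcongr
        _ = _ := by ring
    rw [e6, hS₀, he2']
    refine (add_le_add (add_le_add e7 e8) le_rfl).trans (le_of_eq (by ring))
  -- the integrals
  set f : ℝ → ℝ := fun t => ‖riemannZeta (1 / 2 + t * I)‖ ^ 2 *
    ‖FourG.SG P T (fs (1 / 2 + t * I))‖ ^ 2 *
    WF κ T M (Finset.range (JJ T + 1)) ∅ (fs (1 / 2 + t * I)) with hf
  have hSGc : Continuous fun t : ℝ => FourG.SG P T (fs (1 / 2 + t * I)) := by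
    have : (fun t : ℝ => FourG.SG P T (fs (1 / 2 + t * I))) = Qp φ T 0 := by
      funext t; rw [Qp_eq]
    rw [this]
    exact Qp_cont φ T 0
  have hfc : Continuous f := ((F4.Twist.zeta_cont.norm.pow 2).mul (hSGc.norm.pow 2)).mul hWc
  have hf0 : ∀ t, 0 ≤ f t := fun t => by
    rw [hf]
    exact mul_nonneg (by positivity) (hW0 _)
  have hfe : ∀ (X t : ℝ), ((‖riemannZeta (1 / 2 + t * I)‖ ^ 2 * ‖Qp φ T 0 t‖ ^ 2 : ℝ) : ℂ) *
      GB N c (fs (1 / 2 + t * I)) * ((Wr X t : ℝ) : ℂ) = ((f t * Wr X t : ℝ) : ℂ) := by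
    intro X t
    have h5 : Qp φ T 0 t = FourG.SG P T (fs (1 / 2 + t * I)) := Qp_eq t
    rw [← hc3 _ (cmul_fs _), h5, hf]
    push_cast
    ring
  -- the asymptotic formula
  have hJ : ∀ X : ℝ, T ^ (985 / 1000 : ℝ) ≤ X → X ≤ T ^ (1 + 1 / 10000 : ℝ) →
      IntegrableOn (fun t => f t * Wr X t) (Set.Ioi 0) ∧
      ‖((∫ t in Set.Ioi (0 : ℝ), f t * Wr X t : ℝ) : ℂ) -
        Real.circleAverage (MW X 12 R) 0 r‖ ≤ Cj * T ^ (-(1 / 200) : ℝ) := by
    intro X hX1 hX2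
    obtain ⟨h5, h6⟩ := hj T hTj X hX1 hX2 0 N c hNT hc1' hc2
    simp only [hfe] at h5 h6
    rw [abs_zero, add_zero, mul_one, integral_complex_ofReal] at h6
    exact ⟨h5.re, h6⟩
  have hXj : ∀ j ∈ Finset.Icc 1 n, T ^ (985 / 1000 : ℝ) ≤ T / j ∧
      T / j ≤ T ^ (1 + 1 / 10000 : ℝ) ∧ Real.log j ≤ Real.log (n + 1) ∧ 2 * Real.log j ≤ L := by
    intro j hj
    have hj1 := (Finset.mem_Icc.mp hj).1
    have hj2 := (Finset.mem_Icc.mp hj).2
    have hj0 : (0 : ℝ) < j := by exact_mod_cast hj1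
    have hj1' : (1 : ℝ) ≤ j := by exact_mod_cast hj1
    have hjn : (j : ℝ) ≤ n := by exact_mod_cast hj2
    have hl : Real.log j ≤ Real.log (n + 1) := Real.log_le_log hj0 (by linarith)
    refine ⟨?_, ?_, hl, by linarith⟩
    · rw [le_div_iff₀ hj0]
      calc T ^ (985 / 1000 : ℝ) * j ≤ T ^ (985 / 1000 : ℝ) * T ^ (1 / 1000 : ℝ) := by
            gcongr
            linarith
        _ = T ^ (986 / 1000 : ℝ) := by
            rw [← Real.rpow_add hT0]
            norm_num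
        _ ≤ T ^ (1 : ℝ) := Real.rpow_le_rpow_of_exponent_le hT1.le (by norm_num)
        _ = T := Real.rpow_one T
    · calc T / j ≤ T := div_le_self hT0.le hj1'
        _ = T ^ (1 : ℝ) := (Real.rpow_one T).symm
        _ ≤ _ := Real.rpow_le_rpow_of_exponent_le hT1.le (by norm_num)
  set Ij : ℕ → ℝ := fun j => ∫ t in Set.Ioi (0 : ℝ), f t * Wr (T / j) t with hIj
  set eT : ℝ := Cj * T ^ (-(1 / 200) : ℝ) with heT
  have heT0 : 0 ≤ eT := mul_nonneg hCj.le (Real.rpow_nonneg hT0.le _)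
  have hIerr : ∀ j ∈ Finset.Icc 1 n, |Ij j - D.re| ≤ Q * (B * L ^ 3) + eT := by
    intro j hj'
    obtain ⟨x1, x2, x3, x4⟩ := hXj j hj'
    have hj1 := (Finset.mem_Icc.mp hj').1
    have hj0 : (0 : ℝ) < j := by exact_mod_cast hj1
    have hTj0 : 0 < T / j := by positivity
    obtain ⟨-, h7⟩ := hJ (T / j) x1 x2
    have h6 : ‖Real.circleAverage (MW (T / j) 12 R) 0 r - D‖ ≤ Q * (B * L ^ 3) := by
      rw [hD, ← Real.circleAverage_fun_sub (MW_circ hTj0 hRc hr0 hr1) (MW_circ hT0 hRc hr0 hr1)]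
      refine norm_circleAverage_le hr0 fun a ha => ?_
      obtain ⟨z2, g2, y1⟩ := hcc' T hT0 hLL0 a ha
      refine (MW_shift hG.le hCz.le hE0.le hL0 hT0 ha z2 g2 y1 (hRb (-a) (hna a ha)) hj1 x4).trans ?_
      rw [hQ]
      have : 0 ≤ 4 * E * G * Cz := by positivity
      calc 4 * E * G * Cz * Real.log j * (K2 * (B * L ^ 3)) ≤
            4 * E * G * Cz * Real.log (n + 1) * (K2 * (B * L ^ 3)) := by gcongr
        _ = _ := by ring
    have h9 : Ij j - D.re = ((((Ij j : ℝ) : ℂ) - Real.circleAverage (MW (T / j) 12 R) 0 r) +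
        (Real.circleAverage (MW (T / j) 12 R) 0 r - D)).re := by
      rw [add_re, sub_re, sub_re, ofReal_re]; ring
    rw [h9]
    refine (Complex.abs_re_le_norm _).trans ((norm_add_le _ _).trans ?_)
    linarith
  -- the sign of the main term
  have hDlow : -eT ≤ D.re := by
    obtain ⟨-, h7⟩ := hJ T (by
        calc T ^ (985 / 1000 : ℝ) ≤ T ^ (1 : ℝ) :=
              Real.rpow_le_rpow_of_exponent_le hT1.le (by norm_num)
          _ = T := Real.rpow_one T) (by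
        calc T = T ^ (1 : ℝ) := (Real.rpow_one T).symm
          _ ≤ _ := Real.rpow_le_rpow_of_exponent_le hT1.le (by norm_num))
    have h8 : 0 ≤ ∫ t in Set.Ioi (0 : ℝ), f t * Wr T t := by
      refine setIntegral_nonneg measurableSet_Ioi fun t ht => ?_
      have ht0 : (0 : ℝ) < t := ht
      refine mul_nonneg (hf0 t) ?_
      unfold Wr
      positivity
    have h9 := (Complex.abs_re_le_norm _).trans h7
    rw [sub_re, ofReal_re] at h9
    have h10 := (abs_le.mp h9).2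
    linarith
  have hS₀low : -(e2' + eT) ≤ S₀ := by
    by_contra hcon
    push Not at hcon
    have h5 : F * S₀ ≤ 1 * S₀ := mul_le_mul_of_nonpos_right hF1 (by linarith)
    linarith
  set S : ℝ := max S₀ 0 with hS
  have hS0 : 0 ≤ S := le_max_right _ _
  have hSS : S ≤ S₀ + (e2' + eT) := max_le (by linarith) (by linarith)
  have hmain := SharpA.kar_int hfc hf0 hT0 hu0 hu hα0 hα1 (fun j hj' => by
    obtain ⟨x1, x2, -, -⟩ := hXj j hj'
    exact (hJ (T / j) x1 x2).1)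
  have hU0 : 0 ≤ u₁ - u₀ := by linarith
  have hU2 : u₁ - u₀ ≤ 2 := by linarith
  have hfin := SharpA.finish (n := n) (α := α) (I := Ij) (T := T) (D := D.re)
    (err := Q * (B * L ^ 3) + eT) (U := u₁ - u₀) (S := S)
    (P := K1 * (B * L ^ 4)) (e1 := η / (4 * K1)) (e2 := e2') (F := F)
    hT0 hF1 (by positivity) hIerr (SharpA.kar_nonneg hα0) hαs hU0 hU2 (by positivity)
    hS0 he20 (by positivity)
    (hDre.trans (by
      have : F * S₀ ≤ F * S := mul_le_mul_of_nonneg_left (le_max_left _ _) hF0.le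
      linarith))
    ((Complex.re_le_norm D).trans hDbd)
  have hLBL : β ≤ B * L ^ 3 := by
    rw [mul_inv_le_iff₀ (by positivity)] at hBF
    exact hBF
  have hTpow : (2 + A) * eT ≤ η / 4 * (B * L ^ 4) := by
    have h5 : T ^ (-(1 / 200) : ℝ) = (T ^ (1 / 200 : ℝ))⁻¹ := Real.rpow_neg hT0.le _
    have h6 : 0 < T ^ (1 / 200 : ℝ) := Real.rpow_pos_of_pos hT0 _
    rw [heT, h5]
    have h7 : (2 + A) * (Cj * (T ^ (1 / 200 : ℝ))⁻¹) ≤ η / 4 * β := by
      rw [← mul_assoc, ← div_eq_mul_inv, div_le_iff₀ h6]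
      have h8 : (2 + A) * Cj = ((2 + A) * Cj * (4 / (η * β))) * (η / 4 * β) := by field_simp
      rw [h8, mul_comm (η / 4 * β)]
      exact mul_le_mul_of_nonneg_right (by linarith) (by positivity)
    refine h7.trans ?_
    have h9 : β ≤ B * L ^ 4 := hLBL.trans (by gcongr)
    gcongr
  have hLast : (4 * C4 + A * Q) * (B * L ^ 3) ≤ η / 4 * (B * L ^ 4) := by
    have h5 : (4 * C4 + A * Q) ≤ η / 4 * L := by
      have h8 : 4 * C4 + A * Q = ((4 * C4 + A * Q) * (4 / η)) * (η / 4) := by field_simp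
      rw [h8, mul_comm (η / 4)]
      exact mul_le_mul_of_nonneg_right hLQ (by positivity)
    calc (4 * C4 + A * Q) * (B * L ^ 3) ≤ η / 4 * L * (B * L ^ 3) := by gcongr
      _ = _ := by ring
  have hPe : η / (4 * K1) * (K1 * (B * L ^ 4)) = η / 4 * (B * L ^ 4) := by field_simp
  have hUS : (u₁ - u₀) * S ≤ (u₁ - u₀) * S₀ + 2 * (e2' + eT) := by
    calc (u₁ - u₀) * S ≤ (u₁ - u₀) * (S₀ + (e2' + eT)) := by gcongr
      _ = (u₁ - u₀) * S₀ + (u₁ - u₀) * (e2' + eT) := by ring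
      _ ≤ _ := by gcongr
  have hUS₀ : (u₁ - u₀) * S₀ ≤ B * ((u₁ - u₀) * (S1g P T + (1 - κ) * (57 / 25 * cc) *
      (6 / Real.pi ^ 2) * L ^ 4)) + η / 4 * (B * L ^ 4) := by
    have h5 : (u₁ - u₀) * S₀ = B * ((u₁ - u₀) * (S1g P T + (1 - κ) * (57 / 25 * cc) *
      (6 / Real.pi ^ 2) * L ^ 4)) + (u₁ - u₀) * (57 / 25 * (η / 16) * (6 / Real.pi ^ 2)) *
        (B * L ^ 4) := by
      rw [hS₀, hθ]; ring
    rw [h5]
    have h6 : 6 / Real.pi ^ 2 ≤ 2 / 3 := by
      rw [div_le_div_iff₀ (by positivity) (by norm_num)]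
      have h61 : (3 : ℝ) ^ 2 ≤ Real.pi ^ 2 := by gcongr
      have h62 : (9 : ℝ) ≤ Real.pi ^ 2 := le_trans (by norm_num) h61
      linarith only [h62]
    have h7 : (u₁ - u₀) * (57 / 25 * (η / 16) * (6 / Real.pi ^ 2)) ≤ η / 4 := by
      calc (u₁ - u₀) * (57 / 25 * (η / 16) * (6 / Real.pi ^ 2)) ≤
            2 * (57 / 25 * (η / 16) * (2 / 3)) := by gcongr
        _ ≤ _ := by linarith
    have h8 : 0 ≤ B * L ^ 4 := by positivity
    have h9 := mul_le_mul_of_nonneg_right h7 h8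
    linarith
  calc ∫ t in (u₀ * T)..(u₁ * T), ‖riemannZeta (1 / 2 + t * I)‖ ^ 2 *
      ‖FourG.SG P T (fs (1 / 2 + t * I))‖ ^ 2 *
      WF κ T M (Finset.range (JJ T + 1)) ∅ (fs (1 / 2 + t * I))
      = ∫ t in (u₀ * T)..(u₁ * T), f t := rfl
    _ ≤ _ := hmain.trans hfin
    _ ≤ _ := by
        apply mul_le_mul_of_nonneg_left _ hT0.le
        rw [hPe, ← hA]
        have e10 : A * (Q * (B * L ^ 3) + eT) = A * Q * (B * L ^ 3) + A * eT := by ring
        have e11 : (4 * C4 + A * Q) * (B * L ^ 3) = 4 * e2' + A * Q * (B * L ^ 3) := by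
          rw [he2']; ring
        have e12 : (2 + A) * eT = 2 * eT + A * eT := by ring
        have e13 : B * ((u₁ - u₀) * (S1g P T + (1 - κ) * (57 / 25 * cc) * (6 / Real.pi ^ 2) *
            L ^ 4) + η * L ^ 4) = B * ((u₁ - u₀) * (S1g P T + (1 - κ) * (57 / 25 * cc) *
            (6 / Real.pi ^ 2) * L ^ 4)) + η * (B * L ^ 4) := by ring
        rw [e11] at hLast
        rw [e12] at hTpow
        rw [e10, e13]
        linarith

end K7
end Pool.Agent.Lib.MP_973905_nt
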