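import Pool.Agent.Lib.MP_973905_nt.K7.Stmts
import Pool.Agent.Lib.MP_973905_nt.K1.Crude
import Pool.Agent.Lib.MP_973905_nt.K1.Averages
import Pool.Agent.Lib.MP_973905_nt.K5.Rho
import Pool.Agent.Lib.MP_973905_nt.K2.Arith2

/-! (S13) The side of the second moment on `[0, T]`: `stSideA`. -/

namespace Pool.Agent.Lib.MP_973905_nt
namespace K7

open MeasureTheory ProbabilityTheory Complex Filter Topology K1 K4 K5

namespace SideAAux

lemma AA_zero (T : ℝ) (M J : ℕ) (f : ℕ → ℂ) :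
    AA T M J 0 (Finset.range (J + 1)) ∅ f = 1 := by
  unfold AA
  refine Finset.prod_eq_one fun j hj => ?_
  unfold Fc
  rw [if_pos hj, if_neg (Finset.notMem_empty j), mul_one]
  unfold Ntr
  rw [Finset.sum_range_succ']
  simp

lemma zcont : Continuous fun t : ℝ => riemannZeta (1 / 2 + t * I) := by
  have h := continuous_zeta_line (σ := 1 / 2) (by norm_num)
  have e : ((1 / 2 : ℝ) : ℂ) = 1 / 2 := by push_cast; ring
  simpa only [e] using h

lemma zbd : ∃ C : ℝ, 0 < C ∧ ∀ t : ℝ, ‖riemannZeta (1 / 2 + t * I)‖ ^ 2 ≤ C * (1 + |t|) ^ 4 := by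
  obtain ⟨C, hC, h⟩ := zeta_poly
  refine ⟨C ^ 2, by positivity, fun t => ?_⟩
  have h1 := h (1 / 2) t le_rfl (by norm_num)
  have e : ((1 / 2 : ℝ) : ℂ) = 1 / 2 := by push_cast; ring
  rw [e] at h1
  calc ‖riemannZeta (1 / 2 + t * I)‖ ^ 2 ≤ (C * (1 + |t|) ^ 2) ^ 2 := by gcongr
    _ = _ := by ring

/-- the second moment, crudely -/
lemma second : ∃ C : ℝ, 0 < C ∧ ∃ Y₀ : ℝ, 3 ≤ Y₀ ∧ ∀ Y, Y₀ ≤ Y →
    ∫ t in (0 : ℝ)..Y, ‖riemannZeta (1 / 2 + t * I)‖ ^ 2 ≤ C * (Y * Real.log Y) := by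
  obtain ⟨C, κ, hC, hκ, M₀, h1⟩ := stCrude
  obtain ⟨T₁, hT₁, h1⟩ := h1 M₀ le_rfl
  obtain ⟨Ca, T₂, hCa, hT₂, h2⟩ := stAvgUp
  obtain ⟨Cz, hCz, hz⟩ := zbd
  obtain ⟨T₃, hT₃⟩ := ((tendsto_pow_atTop (α := ℝ) (n := 4)
    (by norm_num)).eventually_ge_atTop Cz).exists_forall_of_atTop
  set K : ℝ := Real.exp (C * M₀) + 1 with hK
  have hK1 : 1 ≤ K := by
    have := Real.exp_pos (C * M₀)
    linarith
  refine ⟨K + 2 * Ca * K, by positivity, max T₁ (max T₂ T₃), hT₁.trans (le_max_left _ _),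
    fun T hT => ?_⟩
  have hTT₁ : T₁ ≤ T := (le_max_left _ _).trans hT
  have hTT₂ : T₂ ≤ T := (le_max_left _ _).trans ((le_max_right _ _).trans hT)
  have hTT₃ : T₃ ≤ T := (le_max_right _ _).trans ((le_max_right _ _).trans hT)
  have hT3 : 3 ≤ T := hT₁.trans hTT₁
  have hT0 : 0 < T := by linarith
  have hL1 : 1 ≤ Real.log T := by
    rw [Real.le_log_iff_exp_le hT0]
    linarith [Real.exp_one_lt_d9]
  have hL0 : 0 < Real.log T := by linarith
  have hE : ∀ τ : ℝ, |τ| ≤ 3 / 2 * T →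
      EG T τ (fun t => ‖riemannZeta (1 / 2 + t * I)‖ ^ 2) ≤ K * Real.log T := by
    intro τ hτ
    have h3 := (h1 T hTT₁ τ (by linarith) 1 one_pos le_rfl (Finset.range (JJ T + 1)) ∅
      (Finset.union_empty _)).1
    rw [sub_self] at h3
    simp only [AA_zero, norm_one, one_pow, mul_one, Finset.prod_empty, Real.rpow_one] at h3
    refine h3.trans ?_
    have h4 : T ^ (-κ) ≤ 1 :=
      Real.rpow_le_one_of_one_le_of_nonpos (by linarith) (by linarith)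
    rw [hK]
    linarith
  have h3 := h2 T hTT₂ (fun t => ‖riemannZeta (1 / 2 + t * I)‖ ^ 2) (zcont.norm.pow 2)
    (fun t => by positivity) (fun t => (hz t).trans (by
      have := hT₃ T hTT₃
      gcongr)) (K * Real.log T) (K * Real.log T) (by positivity) (by nlinarith)
      (fun τ _ hτ => hE τ hτ) hE
  rw [inv_mul_le_iff₀ hT0] at h3
  refine h3.trans ?_
  have e : Ca * (K * Real.log T + K * Real.log T) / Real.log T = 2 * Ca * K := by
    field_simp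
    ring
  have e2 : 2 * Ca * K ≤ 2 * Ca * K * Real.log T := le_mul_of_one_le_right (by positivity) hL1
  rw [e]
  calc T * (K * Real.log T + 2 * Ca * K) ≤ T * (K * Real.log T + 2 * Ca * K * Real.log T) := by
        gcongr
    _ = _ := by ring

/-- from the upper part to the whole interval -/
lemma whole (ha : StAvD) : ∃ C T₀ : ℝ, 0 < C ∧ 3 ≤ T₀ ∧ ∀ T, T₀ ≤ T → ∀ W : ℝ → ℝ, Continuous W →
    (∀ t, 0 ≤ W t) → (∀ t, W t ≤ T ^ (1 / 100 : ℝ)) → ∀ D : ℝ, 0 ≤ D →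
    (∀ T' : ℝ, T ^ (98 / 100 : ℝ) ≤ T' → T' ≤ T → ∀ τ : ℝ, T' / Real.log T' ≤ |τ| →
      |τ| ≤ 3 / 2 * T' → EG T' τ (fun t => ‖riemannZeta (1 / 2 + t * I)‖ ^ 2 * W t) ≤ D) →
    T⁻¹ * ∫ t in (0 : ℝ)..T, ‖riemannZeta (1 / 2 + t * I)‖ ^ 2 * W t ≤
      (1 + C / Real.log T) * D + T ^ (-(1 / 200) : ℝ) := by
  obtain ⟨C, T₁, hC, hT₁, h1⟩ := ha
  obtain ⟨C₂, hC₂, Y₀, hY₀, h2⟩ := second
  obtain ⟨Cz, hCz, hz⟩ := zbd
  have hev : ∀ᶠ T : ℝ in atTop, Y₀ ≤ T ^ (98 / 100 : ℝ) ∧ Cz ≤ T ∧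
      C₂ * Real.log T ≤ T ^ (1 / 200 : ℝ) := by
    have e1 := (tendsto_rpow_atTop (show (0 : ℝ) < 98 / 100 by
      norm_num)).eventually_ge_atTop Y₀
    have e2 := eventually_ge_atTop Cz
    have e3 := (isLittleO_log_rpow_atTop (r := 1 / 200) (by norm_num)).def (c := C₂⁻¹)
      (by positivity)
    filter_upwards [e1, e2, e3, eventually_ge_atTop 1] with T a b c d
    refine ⟨a, b, ?_⟩
    rw [Real.norm_of_nonneg (Real.log_nonneg d), Real.norm_of_nonneg (by positivity)] at c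
    calc C₂ * Real.log T ≤ C₂ * (C₂⁻¹ * T ^ (1 / 200 : ℝ)) := by gcongr
      _ = _ := by field_simp
  obtain ⟨T₂, hT₂⟩ := hev.exists_forall_of_atTop
  refine ⟨C, max T₁ T₂, hC, hT₁.trans (le_max_left _ _), fun T hT W hW hW0 hWb D hD hE => ?_⟩
  have hTT₁ : T₁ ≤ T := (le_max_left _ _).trans hT
  have hTT₂ : T₂ ≤ T := (le_max_right _ _).trans hT
  have hT3 : 3 ≤ T := hT₁.trans hTT₁
  have hT0 : 0 < T := by linarith
  have hT1 : 1 ≤ T := by linarith
  obtain ⟨ha, hb, hc⟩ := hT₂ T hTT₂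
  set Y : ℝ := T ^ (98 / 100 : ℝ) with hY
  have hY0 : 0 < Y := by linarith
  have hYT : Y ≤ T := by
    calc Y ≤ T ^ (1 : ℝ) := Real.rpow_le_rpow_of_exponent_le hT1 (by norm_num)
      _ = T := Real.rpow_one T
  have hFc : Continuous fun t : ℝ => ‖riemannZeta (1 / 2 + t * I)‖ ^ 2 * W t :=
    (zcont.norm.pow 2).mul hW
  have hT100 : T ^ (1 / 100 : ℝ) ≤ T := by
    calc T ^ (1 / 100 : ℝ) ≤ T ^ (1 : ℝ) :=
          Real.rpow_le_rpow_of_exponent_le hT1 (by norm_num)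
      _ = T := Real.rpow_one T
  have hFb : ∀ t : ℝ, ‖riemannZeta (1 / 2 + t * I)‖ ^ 2 * W t ≤ T ^ 4 * (1 + |t|) ^ 4 := by
    intro t
    calc ‖riemannZeta (1 / 2 + t * I)‖ ^ 2 * W t ≤ (Cz * (1 + |t|) ^ 4) * T :=
          mul_le_mul (hz t) ((hWb t).trans hT100) (hW0 t) (by positivity)
      _ = (Cz * T) * (1 + |t|) ^ 4 := by ring
      _ ≤ (T * T) * (1 + |t|) ^ 4 := by gcongr
      _ ≤ T ^ 4 * (1 + |t|) ^ 4 := by
          apply mul_le_mul_of_nonneg_right _ (by positivity)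
          calc T * T = T ^ 2 := by ring
            _ ≤ T ^ 4 := pow_le_pow_right₀ hT1 (by norm_num)
  have hup := h1 T hTT₁ (fun t => ‖riemannZeta (1 / 2 + t * I)‖ ^ 2 * W t) hFc
    (fun t => mul_nonneg (by positivity) (hW0 t)) hFb D hD hE
  have hlow : ∫ t in (0 : ℝ)..Y, ‖riemannZeta (1 / 2 + t * I)‖ ^ 2 * W t ≤
      T * T ^ (-(1 / 200) : ℝ) := by
    have e1 : ∫ t in (0 : ℝ)..Y, ‖riemannZeta (1 / 2 + t * I)‖ ^ 2 * W t ≤
        ∫ t in (0 : ℝ)..Y, ‖riemannZeta (1 / 2 + t * I)‖ ^ 2 * T ^ (1 / 100 : ℝ) := by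
      apply intervalIntegral.integral_mono_on hY0.le (hFc.intervalIntegrable _ _)
        (((zcont.norm.pow 2).mul continuous_const).intervalIntegrable _ _)
      intro t _
      exact mul_le_mul_of_nonneg_left (hWb t) (by positivity)
    rw [intervalIntegral.integral_mul_const] at e1
    have e2 := h2 Y ha
    have e3 : Real.log Y ≤ Real.log T := Real.log_le_log hY0 hYT
    have hlY : 0 ≤ Real.log Y := Real.log_nonneg (by linarith)
    calc _ ≤ (∫ t in (0 : ℝ)..Y, ‖riemannZeta (1 / 2 + t * I)‖ ^ 2) * T ^ (1 / 100 : ℝ) := e1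
      _ ≤ (C₂ * (Y * Real.log Y)) * T ^ (1 / 100 : ℝ) := by gcongr
      _ ≤ (C₂ * (Y * Real.log T)) * T ^ (1 / 100 : ℝ) := by gcongr
      _ = (C₂ * Real.log T) * (Y * T ^ (1 / 100 : ℝ)) := by ring
      _ ≤ T ^ (1 / 200 : ℝ) * (Y * T ^ (1 / 100 : ℝ)) := by gcongr
      _ = T ^ (1 + -(1 / 200) : ℝ) := by
          rw [hY, ← Real.rpow_add hT0, ← Real.rpow_add hT0]
          norm_num
      _ = T * T ^ (-(1 / 200) : ℝ) := by
          rw [Real.rpow_add hT0, Real.rpow_one]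
  have hsplit : ∫ t in (0 : ℝ)..T, ‖riemannZeta (1 / 2 + t * I)‖ ^ 2 * W t =
      (∫ t in (0 : ℝ)..Y, ‖riemannZeta (1 / 2 + t * I)‖ ^ 2 * W t) +
        ∫ t in Y..T, ‖riemannZeta (1 / 2 + t * I)‖ ^ 2 * W t :=
    (intervalIntegral.integral_add_adjacent_intervals (hFc.intervalIntegrable _ _)
      (hFc.intervalIntegrable _ _)).symm
  rw [inv_mul_le_iff₀ hT0, hsplit]
  calc _ ≤ T * T ^ (-(1 / 200) : ℝ) + (1 + C / Real.log T) * (T * D) := add_le_add hlow hup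
    _ = _ := by ring

end SideAAux

open SideAAux in
theorem stSideA (hs : StSecA) (ha : StAvD) (hB : StWB) : StSideA := by
  intro κ hk0 hk1
  obtain ⟨hs1, C₁, κ₁, hC₁, hκ₁, M₁, hs2⟩ := hs κ hk0 hk1
  obtain ⟨C, T₀, hC, hT₀, hw⟩ := whole ha
  obtain ⟨M₂, hM₂, hB⟩ := hB κ hk0 hk1
  obtain ⟨-, -, -, Ca, hCa1, hCa, -, -⟩ := K5.stRho κ hk0 hk1
  have haK : 0 < aK (1 + κ) := K2.Arith2.aK_pos2 (by linarith) (by linarith)
  have hk2 : 0 ≤ (1 + κ) ^ 2 - 1 := by nlinarith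
  have htq : 0 ≤ 2 * κ * tq 0 := by
    have : 0 ≤ tq 0 := by
      unfold tq tb
      split_ifs
      all_goals positivity
    positivity
  constructor
  · intro η hη
    obtain ⟨M₃, hs1⟩ := hs1 (η / 2) (by positivity)
    refine ⟨max M₂ M₃, fun M hM => ?_⟩
    obtain ⟨T₃, hT₃, hs1⟩ := hs1 M ((le_max_right _ _).trans hM)
    obtain ⟨T₂, hT₂, hB⟩ := hB M ((le_max_left _ _).trans hM)
    set PA : ℝ := ∏ i ∈ Finset.range (M - 6), aG κ i with hPA
    have hPA0 : 0 < PA := Finset.prod_pos fun i _ =>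
      lt_of_lt_of_le (by positivity) (hCa i).2.2.1
    have hev : ∀ᶠ T : ℝ in atTop, Real.exp M ≤ Real.log T ∧
        4 * C * (1 + 2 * κ * tq 0 + η / 2) / η ≤ Real.log T ∧
        T ^ (-(1 / 200) : ℝ) ≤ η / 4 * (aK (1 + κ) * PA) := by
      have e1 := Real.tendsto_log_atTop.eventually_ge_atTop (Real.exp M)
      have e2 := Real.tendsto_log_atTop.eventually_ge_atTop
        (4 * C * (1 + 2 * κ * tq 0 + η / 2) / η)
      have e3 : ∀ᶠ T : ℝ in atTop, T ^ (-(1 / 200) : ℝ) < η / 4 * (aK (1 + κ) * PA) :=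
        (tendsto_rpow_neg_atTop (show (0 : ℝ) < 1 / 200 by norm_num)).eventually_lt_const
          (by positivity)
      filter_upwards [e1, e2, e3] with T a b c
      exact ⟨a, b, c.le⟩
    obtain ⟨T₄, hT₄⟩ := hev.exists_forall_of_atTop
    refine ⟨max (max T₀ T₂) (max T₃ T₄), (hT₀.trans (le_max_left _ _)).trans (le_max_left _ _),
      fun T hT => ?_⟩
    have hTT₀ : T₀ ≤ T := ((le_max_left _ _).trans (le_max_left _ _)).trans hT
    have hTT₂ : T₂ ≤ T := ((le_max_right _ _).trans (le_max_left _ _)).trans hT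
    have hTT₃ : T₃ ≤ T := ((le_max_left _ _).trans (le_max_right _ _)).trans hT
    have hTT₄ : T₄ ≤ T := ((le_max_right _ _).trans (le_max_right _ _)).trans hT
    obtain ⟨hLM, hL2, hTe⟩ := hT₄ T hTT₄
    obtain ⟨-, hW0, -, hWc, -, hWb⟩ := hB T hTT₂ (Finset.range (JJ T + 1)) ∅
    set L := Real.log T with hLdef
    have hL1 : 1 ≤ L := (Real.one_le_exp (Nat.cast_nonneg M)).trans hLM
    have hL0 : 0 < L := by linarith
    have hlM1 : 1 ≤ lM T M := by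
      rw [lM]
      calc (1 : ℝ) = Real.exp (-M) * Real.exp M := by
            rw [← Real.exp_add, neg_add_cancel, Real.exp_zero]
        _ ≤ Real.exp (Real.eulerMascheroniConstant - M) * L := by
            apply mul_le_mul _ hLM (Real.exp_nonneg _) (Real.exp_nonneg _)
            have := Real.one_half_lt_eulerMascheroniConstant
            exact Real.exp_le_exp.2 (by linarith)
    have hP1 : 1 ≤ lM T M ^ ((1 + κ) ^ 2 - 1) := Real.one_le_rpow hlM1 hk2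
    set X : ℝ := aK (1 + κ) * lM T M ^ ((1 + κ) ^ 2 - 1) * L * PA with hX
    have hXc : aK (1 + κ) * PA ≤ X := by
      have e1 : 1 ≤ lM T M ^ ((1 + κ) ^ 2 - 1) * L := by
        calc (1 : ℝ) = 1 * 1 := by ring
          _ ≤ _ := mul_le_mul hP1 hL1 zero_le_one (by linarith)
      calc aK (1 + κ) * PA = (aK (1 + κ) * PA) * 1 := by ring
        _ ≤ (aK (1 + κ) * PA) * (lM T M ^ ((1 + κ) ^ 2 - 1) * L) := by gcongr
        _ = X := by rw [hX]; ring
    have hX0 : 0 < X := lt_of_lt_of_le (by positivity) hXc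
    have hmain := hw T hTT₀ (fun t => WG κ T M (Finset.range (JJ T + 1)) ∅ (fs (1 / 2 + t * I)))
      hWc (fun t => hW0 _) hWb (X * (1 + 2 * κ * tq 0 + η / 2)) (by positivity)
      (fun T' hT'1 hT'2 τ hτ1 hτ2 => hs1 T hTT₃ T' hT'1 hT'2 τ hτ1 hτ2)
    refine hmain.trans ?_
    have e1 : C / L * (1 + 2 * κ * tq 0 + η / 2) ≤ η / 4 := by
      rw [div_le_iff₀ hη] at hL2
      rw [div_mul_eq_mul_div, div_le_iff₀ hL0]
      linarith
    have e2 : T ^ (-(1 / 200) : ℝ) ≤ η / 4 * X := hTe.trans (by gcongr)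
    have e3 : X * (C / L * (1 + 2 * κ * tq 0 + η / 2)) ≤ X * (η / 4) := by gcongr
    calc (1 + C / L) * (X * (1 + 2 * κ * tq 0 + η / 2)) + T ^ (-(1 / 200) : ℝ) =
        X * (1 + 2 * κ * tq 0 + η / 2) + X * (C / L * (1 + 2 * κ * tq 0 + η / 2)) +
          T ^ (-(1 / 200) : ℝ) := by ring
      _ ≤ X * (1 + 2 * κ * tq 0 + η / 2) + X * (η / 4) + η / 4 * X := by linarith
      _ = X * (1 + 2 * κ * tq 0 + η) := by ring
  · set κ' : ℝ := min κ₁ (1 / 200) / 2 with hκ'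
    have hmin : 0 < min κ₁ (1 / 200) := lt_min hκ₁ (by norm_num)
    have hκ'0 : 0 < κ' := by positivity
    have hκ'1 : 2 * κ' ≤ κ₁ := by
      have := min_le_left κ₁ (1 / 200)
      rw [hκ']
      linarith
    have hκ'2 : 2 * κ' ≤ 1 / 200 := by
      have := min_le_right κ₁ (1 / 200)
      rw [hκ']
      linarith
    refine ⟨C₁ + 1, κ', by positivity, hκ'0, max (max M₁ M₂) 1, fun M hM => ?_⟩
    have hM1 : (1 : ℝ) ≤ M := by exact_mod_cast (le_max_right _ _).trans hM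
    obtain ⟨T₁, hT₁, hs2⟩ := hs2 M ((le_max_left _ _).trans ((le_max_left _ _).trans hM))
    obtain ⟨T₂, hT₂, hB⟩ := hB M ((le_max_right _ _).trans ((le_max_left _ _).trans hM))
    have hev : ∀ᶠ T : ℝ in atTop, 1 ≤ Real.log T ∧ C ≤ Real.log T ∧ 3 ≤ T ^ κ' := by
      have e1 := Real.tendsto_log_atTop.eventually_ge_atTop 1
      have e2 := Real.tendsto_log_atTop.eventually_ge_atTop C
      have e3 := (tendsto_rpow_atTop hκ'0).eventually_ge_atTop 3
      filter_upwards [e1, e2, e3] with T a b c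
      exact ⟨a, b, c⟩
    obtain ⟨T₄, hT₄⟩ := hev.exists_forall_of_atTop
    refine ⟨max (max T₀ T₂) (max T₁ T₄), (hT₀.trans (le_max_left _ _)).trans (le_max_left _ _),
      fun T hT g h hgh => ?_⟩
    have hTT₀ : T₀ ≤ T := ((le_max_left _ _).trans (le_max_left _ _)).trans hT
    have hTT₂ : T₂ ≤ T := ((le_max_right _ _).trans (le_max_left _ _)).trans hT
    have hTT₁ : T₁ ≤ T := ((le_max_left _ _).trans (le_max_right _ _)).trans hT
    have hTT₄ : T₄ ≤ T := ((le_max_right _ _).trans (le_max_right _ _)).trans hT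
    have hT3 : 3 ≤ T := hT₀.trans hTT₀
    have hT0 : 0 < T := by linarith
    obtain ⟨hL1, hLC, hTκ⟩ := hT₄ T hTT₄
    obtain ⟨-, hW0, -, hWc, -, hWb⟩ := hB T hTT₂ g h
    set L := Real.log T with hLdef
    have hL0 : 0 < L := by linarith
    set P : ℝ := ∏ j ∈ h, ss M (JJ T) j with hP
    have hP0 : 0 ≤ P := Finset.prod_nonneg fun j _ => (Real.exp_pos _).le
    have hLk : 0 < L ^ ((1 + κ) ^ 2) := Real.rpow_pos_of_pos hL0 _
    have ht1 : 0 < T ^ (-κ₁) := Real.rpow_pos_of_pos hT0 _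
    have hmain := hw T hTT₀ (fun t => WG κ T M g h (fs (1 / 2 + t * I)))
      hWc (fun t => hW0 _) hWb (Real.exp (C₁ * M) * L ^ ((1 + κ) ^ 2) * P + T ^ (-κ₁))
      (by positivity)
      (fun T' hT'1 hT'2 τ hτ1 hτ2 => hs2 T hTT₁ T' hT'1 hT'2 τ hτ1 hτ2 g h hgh)
    refine hmain.trans ?_
    have e1 : 1 + C / L ≤ 2 := by
      have : C / L ≤ 1 := by
        rw [div_le_one hL0]
        exact hLC
      linarith
    have e2 : (2 : ℝ) ≤ Real.exp M := by
      have := Real.add_one_le_exp (M : ℝ)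
      linarith
    have e3 : T ^ (-κ₁) ≤ T ^ (-(2 * κ')) :=
      Real.rpow_le_rpow_of_exponent_le (by linarith) (by linarith)
    have e4 : T ^ (-(1 / 200) : ℝ) ≤ T ^ (-(2 * κ')) :=
      Real.rpow_le_rpow_of_exponent_le (by linarith) (by linarith)
    have e5 : 3 * T ^ (-(2 * κ')) ≤ T ^ (-κ') := by
      have h1 : T ^ (-κ') = T ^ κ' * T ^ (-(2 * κ')) := by
        rw [← Real.rpow_add hT0]
        congr 1
        ring
      rw [h1]
      have : 0 < T ^ (-(2 * κ')) := Real.rpow_pos_of_pos hT0 _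
      gcongr
    have e6 : Real.exp ((C₁ + 1) * M) = Real.exp M * Real.exp (C₁ * M) := by
      rw [← Real.exp_add]
      congr 1
      ring
    have e7 : 0 ≤ Real.exp (C₁ * M) * L ^ ((1 + κ) ^ 2) * P := by positivity
    calc (1 + C / L) * (Real.exp (C₁ * M) * L ^ ((1 + κ) ^ 2) * P + T ^ (-κ₁)) +
        T ^ (-(1 / 200) : ℝ) ≤
        2 * (Real.exp (C₁ * M) * L ^ ((1 + κ) ^ 2) * P + T ^ (-κ₁)) +
        T ^ (-(1 / 200) : ℝ) := by gcongr
      _ = 2 * (Real.exp (C₁ * M) * L ^ ((1 + κ) ^ 2) * P) +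
          (2 * T ^ (-κ₁) + T ^ (-(1 / 200) : ℝ)) := by ring
      _ ≤ Real.exp M * (Real.exp (C₁ * M) * L ^ ((1 + κ) ^ 2) * P) + T ^ (-κ') := by
          gcongr
          linarith
      _ = _ := by
          rw [e6]
          ring

end K7
end Pool.Agent.Lib.MP_973905_nt
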