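import Pool.Agent.Lib.MP_973905_nt.K7.Stmts
import Pool.Agent.Lib.MP_973905_nt.F4.Three
import Pool.Agent.Lib.MP_973905_nt.F4.Strip4

/-! (G5) three lines for the pairs `(d, e)`. -/

namespace Pool.Agent.Lib.MP_973905_nt
namespace K7

open MeasureTheory ProbabilityTheory Complex Filter Topology K1 K4 K5

namespace ThreeP

open F4 F4.Strip4

/-- The integral of the two zeta factors against `W`. -/
noncomputable def GJ (X : ℝ) (c : ℂ) (W : ℝ → ℂ) (a : ℂ) : ℂ :=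
  ∫ t in Set.Ioi (0 : ℝ), riemannZeta (1 / 2 + a + t * I) * riemannZeta (1 / 2 + a - t * I) *
    W t * F4.Wt X c t

/-- The same without the poles. -/
noncomputable def GS (X : ℝ) (c : ℂ) (W : ℝ → ℂ) (a : ℂ) : ℂ :=
  ∫ t in Set.Ioi (0 : ℝ), riemannZeta₁ (1 / 2 + a + t * I) * riemannZeta₁ (1 / 2 + a - t * I) *
    W t * ((t : ℂ) ^ 2)⁻¹ * F4.Wt X c t

lemma part1 {X : ℝ} (hX : 1 ≤ X) {c : ℂ} (hc : 8 ≤ c.re) {W : ℝ → ℂ} {B : ℝ}
    (hHc : Continuous W) (hHb : ∀ t, ‖W t‖ ≤ B) :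
    DifferentiableOn ℂ (GS X c W) {a : ℂ | |a.re| < 5 / 8} := by
  have hX0 : 0 < X := by linarith
  obtain ⟨C, hC, hz⟩ := deriv_grow
  have hB : 0 ≤ B := (norm_nonneg _).trans (hHb 0)
  intro a₀ ha₀
  -- the integrands in the form `φ * t⁻² * Wt`
  have hball : Metric.ball a₀ 1 ∩ {a : ℂ | |a.re| < 5 / 8} ∈ 𝓝 a₀ :=
    Filter.inter_mem (Metric.ball_mem_nhds a₀ one_pos) (isOpen_strip.mem_nhds ha₀)
  have him : ∀ a ∈ Metric.ball a₀ 1, 1 + |a.im| ≤ 2 + |a₀.im| := by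
    intro a ha
    rw [Metric.mem_ball, dist_eq_norm] at ha
    have h6 := (abs_im_le_norm (a - a₀)).trans ha.le
    rw [sub_im] at h6
    have h7 := abs_sub_abs_le_abs_sub a.im a₀.im
    linarith
  have hcz : ∀ a : ℂ, Continuous fun t : ℝ =>
      riemannZeta₁ (1 / 2 + a + t * I) * riemannZeta₁ (1 / 2 + a - t * I) * W t := fun a =>
    ((cont_z1 (by fun_prop)).mul (cont_z1 (by fun_prop))).mul hHc
  have hcd : ∀ a : ℂ, Continuous fun t : ℝ =>
      (deriv riemannZeta₁ (1 / 2 + a + t * I) * riemannZeta₁ (1 / 2 + a - t * I) +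
        riemannZeta₁ (1 / 2 + a + t * I) * deriv riemannZeta₁ (1 / 2 + a - t * I)) * W t := fun a =>
    (((cont_d1 (by fun_prop)).mul (cont_z1 (by fun_prop))).add
      ((cont_z1 (by fun_prop)).mul (cont_d1 (by fun_prop)))).mul hHc
  have hbz : ∀ a : ℂ, |a.re| ≤ 5 / 8 → ∀ t : ℝ, 0 < t →
      ‖riemannZeta₁ (1 / 2 + a + t * I) * riemannZeta₁ (1 / 2 + a - t * I) * W t‖ ≤
        (C ^ 2 * (1 + |a.im|) ^ 6 * B) * (1 + t) ^ 6 := by
    intro a ha t ht
    have h1 := pts hC.le (fun s h1 h2 => (hz s h1 h2).1) ha ht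
    rw [norm_mul, norm_mul]
    calc ‖riemannZeta₁ (1 / 2 + a + t * I)‖ * ‖riemannZeta₁ (1 / 2 + a - t * I)‖ * ‖W t‖
        ≤ (C * ((1 + |a.im|) * (1 + t)) ^ 3) * (C * ((1 + |a.im|) * (1 + t)) ^ 3) * B := by
          gcongr
          · exact h1.1
          · exact h1.2
          · exact hHb t
      _ = _ := by ring
  have hbd : ∀ a : ℂ, |a.re| ≤ 5 / 8 → ∀ t : ℝ, 0 < t →
      ‖(deriv riemannZeta₁ (1 / 2 + a + t * I) * riemannZeta₁ (1 / 2 + a - t * I) +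
        riemannZeta₁ (1 / 2 + a + t * I) * deriv riemannZeta₁ (1 / 2 + a - t * I)) * W t‖ ≤
        (2 * C ^ 2 * (1 + |a.im|) ^ 6 * B) * (1 + t) ^ 6 := by
    intro a ha t ht
    have h1 := pts hC.le (fun s h1 h2 => (hz s h1 h2).1) ha ht
    have h2 := pts hC.le (fun s h1 h2 => (hz s h1 h2).2) ha ht
    rw [norm_mul]
    calc ‖deriv riemannZeta₁ (1 / 2 + a + t * I) * riemannZeta₁ (1 / 2 + a - t * I) +
        riemannZeta₁ (1 / 2 + a + t * I) * deriv riemannZeta₁ (1 / 2 + a - t * I)‖ * ‖W t‖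
        ≤ ((C * ((1 + |a.im|) * (1 + t)) ^ 3) * (C * ((1 + |a.im|) * (1 + t)) ^ 3) +
          (C * ((1 + |a.im|) * (1 + t)) ^ 3) * (C * ((1 + |a.im|) * (1 + t)) ^ 3)) * B := by
          have h3 : ‖deriv riemannZeta₁ (1 / 2 + a + t * I) * riemannZeta₁ (1 / 2 + a - t * I) +
              riemannZeta₁ (1 / 2 + a + t * I) * deriv riemannZeta₁ (1 / 2 + a - t * I)‖ ≤
              (C * ((1 + |a.im|) * (1 + t)) ^ 3) * (C * ((1 + |a.im|) * (1 + t)) ^ 3) +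
              (C * ((1 + |a.im|) * (1 + t)) ^ 3) * (C * ((1 + |a.im|) * (1 + t)) ^ 3) := by
            refine (norm_add_le _ _).trans ?_
            rw [norm_mul, norm_mul]
            gcongr
            · exact h2.1
            · exact h1.2
            · exact h1.1
            · exact h2.2
          exact mul_le_mul h3 (hHb t) (norm_nonneg _) (by positivity)
      _ = _ := by ring
  have key := hasDerivAt_integral_of_dominated_loc_of_deriv_le
    (μ := volume.restrict (Set.Ioi (0 : ℝ)))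
    (F := fun a t => riemannZeta₁ (1 / 2 + a + (t : ℝ) * I) * riemannZeta₁ (1 / 2 + a - t * I) *
      (W t * ((t : ℂ) ^ 2)⁻¹ * Wt X c t))
    (F' := fun a t => (deriv riemannZeta₁ (1 / 2 + a + t * I) * riemannZeta₁ (1 / 2 + a - t * I) +
        riemannZeta₁ (1 / 2 + a + t * I) * deriv riemannZeta₁ (1 / 2 + a - t * I)) *
      (W t * ((t : ℂ) ^ 2)⁻¹ * Wt X c t))
    (bound := fun t => (2 * C ^ 2 * (2 + |a₀.im|) ^ 6 * B) * ((1 + t) ^ 6 * (1 + (t ^ 2)⁻¹) *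
      (X⁻¹ * (t / X) ^ (c.re - 1) * Real.exp (-(t / X)))))
    (x₀ := a₀) hball ?_ ?_ ?_ ?_ ?_ ?_
  · have h1 : GS X c W = fun a => ∫ t in Set.Ioi (0 : ℝ),
        riemannZeta₁ (1 / 2 + a + (t : ℝ) * I) * riemannZeta₁ (1 / 2 + a - t * I) *
        (W t * ((t : ℂ) ^ 2)⁻¹ * Wt X c t) := by
      funext a
      unfold GS
      refine setIntegral_congr_fun measurableSet_Ioi fun t _ => ?_
      ring
    rw [h1]
    exact key.2.differentiableAt.differentiableWithinAt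
  · refine Filter.Eventually.of_forall fun a => ?_
    have h := ((hcz a).continuousOn (s := Set.Ioi 0)).aestronglyMeasurable
      (μ := volume) measurableSet_Ioi
    have h2 : ContinuousOn (fun t : ℝ => riemannZeta₁ (1 / 2 + a + (t : ℝ) * I) *
        riemannZeta₁ (1 / 2 + a - t * I) * (W t * ((t : ℂ) ^ 2)⁻¹ * Wt X c t)) (Set.Ioi 0) := by
      refine (((cont_z1 (by fun_prop)).mul (cont_z1 (by fun_prop))).continuousOn).mul
        ((hHc.continuousOn.mul ?_).mul (cont_Wt hX0 c))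
      intro t ht
      have ht0 : (0 : ℝ) < t := ht
      refine ContinuousAt.continuousWithinAt (ContinuousAt.inv₀ (by fun_prop) ?_)
      exact pow_ne_zero _ (by exact_mod_cast ht0.ne')
    exact h2.aestronglyMeasurable measurableSet_Ioi
  · have h := (int_gen hX0 hc ((hcz a₀).continuousOn (s := Set.Ioi 0))
      (hbz a₀ (le_of_lt ha₀))).2
    refine h.congr_fun (fun t _ => ?_) measurableSet_Ioi
    simp only
    ring
  · have h2 : ContinuousOn (fun t : ℝ => (deriv riemannZeta₁ (1 / 2 + a₀ + t * I) *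
        riemannZeta₁ (1 / 2 + a₀ - t * I) +
        riemannZeta₁ (1 / 2 + a₀ + t * I) * deriv riemannZeta₁ (1 / 2 + a₀ - t * I)) *
        (W t * ((t : ℂ) ^ 2)⁻¹ * Wt X c t)) (Set.Ioi 0) := by
      refine ((((cont_d1 (by fun_prop)).mul (cont_z1 (by fun_prop))).add
        ((cont_z1 (by fun_prop)).mul (cont_d1 (by fun_prop)))).continuousOn).mul
        ((hHc.continuousOn.mul ?_).mul (cont_Wt hX0 c))
      intro t ht
      have ht0 : (0 : ℝ) < t := ht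
      refine ContinuousAt.continuousWithinAt (ContinuousAt.inv₀ (by fun_prop) ?_)
      exact pow_ne_zero _ (by exact_mod_cast ht0.ne')
    exact h2.aestronglyMeasurable measurableSet_Ioi
  · rw [ae_restrict_iff' measurableSet_Ioi]
    refine Filter.Eventually.of_forall fun t ht a ha => ?_
    have ht0 : (0 : ℝ) < t := ht
    have h1 := him a ha.1
    have h2 := hbd a (le_of_lt ha.2) t ht0
    have h3 : (2 * C ^ 2 * (1 + |a.im|) ^ 6 * B) * (1 + t) ^ 6 ≤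
        (2 * C ^ 2 * (2 + |a₀.im|) ^ 6 * B) * (1 + t) ^ 6 := by
      have := abs_nonneg a.im
      gcongr
    have h4 : ‖((t : ℂ) ^ 2)⁻¹ * Wt X c t‖ = (t ^ 2)⁻¹ *
        (X⁻¹ * (t / X) ^ (c.re - 1) * Real.exp (-(t / X))) := by
      rw [norm_mul, norm_Wt hX0 c ht0, norm_inv, norm_pow, Complex.norm_real,
        Real.norm_of_nonneg ht0.le]
    have h5 : (deriv riemannZeta₁ (1 / 2 + a + t * I) * riemannZeta₁ (1 / 2 + a - t * I) +
        riemannZeta₁ (1 / 2 + a + t * I) * deriv riemannZeta₁ (1 / 2 + a - t * I)) *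
      (W t * ((t : ℂ) ^ 2)⁻¹ * Wt X c t) =
      ((deriv riemannZeta₁ (1 / 2 + a + t * I) * riemannZeta₁ (1 / 2 + a - t * I) +
        riemannZeta₁ (1 / 2 + a + t * I) * deriv riemannZeta₁ (1 / 2 + a - t * I)) * W t) *
        (((t : ℂ) ^ 2)⁻¹ * Wt X c t) := by ring
    rw [h5, norm_mul, h4]
    have h6 : (t ^ 2)⁻¹ ≤ 1 + (t ^ 2)⁻¹ := by linarith
    calc _ ≤ ((2 * C ^ 2 * (2 + |a₀.im|) ^ 6 * B) * (1 + t) ^ 6) * ((1 + (t ^ 2)⁻¹) *
        (X⁻¹ * (t / X) ^ (c.re - 1) * Real.exp (-(t / X)))) := by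
          gcongr
          exact h2.trans h3
      _ = _ := by ring
  · exact (int_maj hX0 hc).const_mul _
  · refine Filter.Eventually.of_forall fun t a _ => ?_
    exact hasDerivAt_pair a t _

lemma part2 {X : ℝ} (hX : 1 ≤ X) {c : ℂ} (hc : 8 ≤ c.re) {W : ℝ → ℂ} {B : ℝ}
    (hHb : ∀ t, ‖W t‖ ≤ B) :
    ∃ D : ℝ, ∀ a : ℂ, |a.re| ≤ 9 / 16 → ‖GS X c W a‖ ≤ D * Real.exp ‖a‖ := by
  have hX0 : 0 < X := by linarith
  obtain ⟨C, hC, hz⟩ := deriv_grow
  have hB : 0 ≤ B := (norm_nonneg _).trans (hHb 0)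
  set J : ℝ := ∫ t in Set.Ioi (0 : ℝ), (1 + t) ^ 6 * (1 + (t ^ 2)⁻¹) *
      (X⁻¹ * (t / X) ^ (c.re - 1) * Real.exp (-(t / X))) with hJ
  have hJ0 : 0 ≤ J := by
    refine setIntegral_nonneg measurableSet_Ioi fun t ht => ?_
    have ht0 : (0 : ℝ) < t := ht
    positivity
  refine ⟨C ^ 2 * B * J * (720 * Real.exp 1), fun a ha => ?_⟩
  have h1 : ‖GS X c W a‖ ≤ ∫ t in Set.Ioi (0 : ℝ), (C ^ 2 * (1 + |a.im|) ^ 6 * B) *
      ((1 + t) ^ 6 * (1 + (t ^ 2)⁻¹) *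
      (X⁻¹ * (t / X) ^ (c.re - 1) * Real.exp (-(t / X)))) := by
    unfold GS
    refine norm_integral_le_of_norm_le ((int_maj hX0 hc).const_mul _) ?_
    rw [ae_restrict_iff' measurableSet_Ioi]
    refine Filter.Eventually.of_forall fun t ht => ?_
    have ht0 : (0 : ℝ) < t := ht
    have h2 := pts hC.le (fun s h1 h2 => (hz s h1 h2).1) (a := a) (by linarith) ht0
    rw [norm_mul, norm_mul, norm_mul, norm_mul, norm_Wt hX0 c ht0, norm_inv, norm_pow,
      Complex.norm_real, Real.norm_of_nonneg ht0.le]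
    have h6 : (t ^ 2)⁻¹ ≤ 1 + (t ^ 2)⁻¹ := by linarith
    calc _ ≤ (C * ((1 + |a.im|) * (1 + t)) ^ 3) * (C * ((1 + |a.im|) * (1 + t)) ^ 3) * B *
          (1 + (t ^ 2)⁻¹) * (X⁻¹ * (t / X) ^ (c.re - 1) * Real.exp (-(t / X))) := by
          gcongr
          · exact h2.1
          · exact h2.2
          · exact hHb t
      _ = _ := by ring
  rw [integral_const_mul, ← hJ] at h1
  refine h1.trans ?_
  have h2 : (1 + |a.im|) ^ 6 ≤ 720 * Real.exp 1 * Real.exp ‖a‖ := by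
    have h3 := Real.pow_div_factorial_le_exp (1 + |a.im|) (by positivity) 6
    have h4 : ((6 : ℕ).factorial : ℝ) = 720 := by norm_num [Nat.factorial]
    rw [h4, div_le_iff₀ (by norm_num)] at h3
    have h5 : Real.exp (1 + |a.im|) ≤ Real.exp 1 * Real.exp ‖a‖ := by
      rw [← Real.exp_add]
      exact Real.exp_le_exp.2 (by linarith [abs_im_le_norm a])
    linarith
  calc C ^ 2 * (1 + |a.im|) ^ 6 * B * J ≤ C ^ 2 * (720 * Real.exp 1 * Real.exp ‖a‖) * B * J := by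
        gcongr
    _ = _ := by ring

lemma part3 {X : ℝ} (hX : 1 ≤ X) {c : ℂ} (hc : 10 ≤ c.re) {W : ℝ → ℂ} {B : ℝ}
    (hHc : Continuous W) (hHb : ∀ t, ‖W t‖ ≤ B) {a : ℂ}
    (ha : |a.re| ≤ 9 / 16) (ha1 : a.re ≠ 1 / 2) :
    GS X c W a = GJ X c W a + (1 / 2 - a) ^ 2 * ((X : ℂ) ^ 2)⁻¹ * GJ X (c - 2) W a := by
  have hX0 : 0 < X := by linarith
  obtain ⟨C, hC, hz⟩ := deriv_grow
  have hB : 0 ≤ B := (norm_nonneg _).trans (hHb 0)
  have hne1 : ∀ t : ℝ, (1 / 2 + a + t * I : ℂ) ≠ 1 := by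
    intro t h
    have := congrArg re h
    rw [re_add, one_re] at this
    exact ha1 (by linarith)
  have hne2 : ∀ t : ℝ, (1 / 2 + a - t * I : ℂ) ≠ 1 := by
    intro t h
    have := congrArg re h
    rw [re_sub, one_re] at this
    exact ha1 (by linarith)
  set δ : ℝ := |a.re - 1 / 2| with hδ
  have hδ0 : 0 < δ := abs_pos.2 (sub_ne_zero.2 ha1)
  -- bound for zeta
  have hzb : ∀ s : ℂ, s ≠ 1 → δ ≤ ‖s - 1‖ → ‖riemannZeta s‖ ≤ δ⁻¹ * ‖riemannZeta₁ s‖ := by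
    intro s hs h
    rw [riemannZeta_eq_inv_sub_mul hs, norm_mul, norm_inv]
    gcongr
  have hd1 : ∀ t : ℝ, δ ≤ ‖(1 / 2 + a + t * I : ℂ) - 1‖ := by
    intro t
    have h := abs_re_le_norm ((1 / 2 + a + t * I : ℂ) - 1)
    rw [sub_re, re_add, one_re] at h
    rwa [show 1 / 2 + a.re - 1 = a.re - 1 / 2 by ring] at h
  have hd2 : ∀ t : ℝ, δ ≤ ‖(1 / 2 + a - t * I : ℂ) - 1‖ := by
    intro t
    have h := abs_re_le_norm ((1 / 2 + a - t * I : ℂ) - 1)
    rw [sub_re, re_sub, one_re] at h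
    rwa [show 1 / 2 + a.re - 1 = a.re - 1 / 2 by ring] at h
  set φ : ℝ → ℂ := fun t => riemannZeta (1 / 2 + a + t * I) * riemannZeta (1 / 2 + a - t * I) *
    W t with hφ
  have hφc : Continuous φ :=
    ((cont_zeta (by fun_prop) hne1).mul (cont_zeta (by fun_prop) hne2)).mul hHc
  have hφb : ∀ t : ℝ, 0 < t → ‖φ t‖ ≤ (δ⁻¹ ^ 2 * C ^ 2 * (1 + |a.im|) ^ 6 * B) * (1 + t) ^ 6 := by
    intro t ht
    have h2 := pts hC.le (fun s h1 h2 => (hz s h1 h2).1) (a := a) (by linarith) ht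
    rw [hφ]
    simp only
    rw [norm_mul, norm_mul]
    calc _ ≤ (δ⁻¹ * (C * ((1 + |a.im|) * (1 + t)) ^ 3)) *
          (δ⁻¹ * (C * ((1 + |a.im|) * (1 + t)) ^ 3)) * B := by
          gcongr
          · exact (hzb _ (hne1 t) (hd1 t)).trans (by gcongr; exact h2.1)
          · exact (hzb _ (hne2 t) (hd2 t)).trans (by gcongr; exact h2.2)
          · exact hHb t
      _ = _ := by ring
  have hi1 := (int_gen hX0 (by linarith : 8 ≤ c.re) hφc.continuousOn hφb).1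
  have hc2 : 8 ≤ (c - 2).re := by
    rw [sub_re]
    have : (2 : ℂ).re = 2 := by simp
    rw [this]
    linarith
  have hi2 := (int_gen hX0 hc2 hφc.continuousOn hφb).1
  have e1 : GJ X c W a = ∫ t in Set.Ioi (0 : ℝ), φ t * Wt X c t := rfl
  have e2 : GJ X (c - 2) W a = ∫ t in Set.Ioi (0 : ℝ), φ t * Wt X (c - 2) t := rfl
  rw [e1, e2, ← integral_const_mul, ← integral_add hi1 (hi2.const_mul _)]
  unfold GS
  refine setIntegral_congr_fun measurableSet_Ioi fun t ht => ?_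
  have ht0 : (0 : ℝ) < t := ht
  have ht0' : (t : ℂ) ≠ 0 := by exact_mod_cast ht0.ne'
  have hXc : (X : ℂ) ≠ 0 := by exact_mod_cast hX0.ne'
  have e3 : riemannZeta₁ (1 / 2 + a + t * I) =
      (1 / 2 + a + t * I - 1) * riemannZeta (1 / 2 + a + t * I) := by
    rw [riemannZeta_eq_inv_sub_mul (hne1 t), mul_inv_cancel_left₀ (sub_ne_zero.2 (hne1 t))]
  have e4 : riemannZeta₁ (1 / 2 + a - t * I) =
      (1 / 2 + a - t * I - 1) * riemannZeta (1 / 2 + a - t * I) := by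
    rw [riemannZeta_eq_inv_sub_mul (hne2 t), mul_inv_cancel_left₀ (sub_ne_zero.2 (hne2 t))]
  have e5 : Wt X (c - 2) t = (X : ℂ) ^ 2 * ((t : ℂ) ^ 2)⁻¹ * Wt X c t := by
    unfold Wt
    have hpos : ((t / X : ℝ) : ℂ) ≠ 0 := by
      have : t / X ≠ 0 := by positivity
      exact_mod_cast this
    have e6 : ((t / X : ℝ) : ℂ) ^ (c - 2 - 1) = ((t / X : ℝ) : ℂ) ^ (c - 1) *
        (((t / X : ℝ) : ℂ) ^ 2)⁻¹ := by
      rw [show c - 2 - 1 = (c - 1) - (2 : ℕ) by push_cast; ring, cpow_sub _ _ hpos, cpow_natCast]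
      rfl
    rw [e6]
    have e7 : (((t / X : ℝ) : ℂ) ^ 2)⁻¹ = (X : ℂ) ^ 2 * ((t : ℂ) ^ 2)⁻¹ := by
      push_cast
      field_simp
    rw [e7]
    ring
  have e8 : (1 / 2 + a + t * I - 1) * (1 / 2 + a - t * I - 1) = (1 / 2 - a) ^ 2 + (t : ℂ) ^ 2 := by
    have : (I : ℂ) ^ 2 = -1 := I_sq
    linear_combination (-(t : ℂ) ^ 2) * this
  rw [e3, e4, e5, hφ]
  have e9 : (1 / 2 + a + t * I - 1) * riemannZeta (1 / 2 + a + t * I) *
      ((1 / 2 + a - t * I - 1) * riemannZeta (1 / 2 + a - t * I)) *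
      W t * ((t : ℂ) ^ 2)⁻¹ * Wt X c t =
      ((1 / 2 + a + t * I - 1) * (1 / 2 + a - t * I - 1)) * ((t : ℂ) ^ 2)⁻¹ *
      (riemannZeta (1 / 2 + a + t * I) * riemannZeta (1 / 2 + a - t * I) *
      W t) * Wt X c t := by ring
  rw [e9, e8]
  field_simp
  ring


/-- the product of the two polynomials -/
noncomputable def WP (N : ℕ) (b b' : ℕ → ℂ) (t : ℝ) : ℂ :=
  HP N b t * (starRingEnd ℂ) (HP N b' t)

lemma HP_cont (N : ℕ) (b : ℕ → ℂ) : Continuous (HP N b) := by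
  unfold HP
  refine continuous_finsetSum _ fun n hn => continuous_const.mul ?_
  have h0 : (n : ℂ) ≠ 0 := by
    have := (Finset.mem_Icc.1 hn).1
    exact_mod_cast (by omega : n ≠ 0)
  simp only [fs]
  exact Continuous.const_cpow (by fun_prop) (Or.inl h0)

lemma HP_le (N : ℕ) (b : ℕ → ℂ) (t : ℝ) : ‖HP N b t‖ ≤ ∑ n ∈ Finset.Icc 1 N, ‖b n‖ := by
  unfold HP
  refine (norm_sum_le _ _).trans (Finset.sum_le_sum fun n hn => ?_)
  rw [norm_mul]
  refine mul_le_of_le_one_right (norm_nonneg _) ?_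
  simp only [fs]
  exact norm_natCast_cpow_neg_le_one (by simp) (Finset.mem_Icc.1 hn).1

lemma WP_cont (N : ℕ) (b b' : ℕ → ℂ) : Continuous (WP N b b') :=
  (HP_cont N b).mul (Complex.continuous_conj.comp (HP_cont N b'))

lemma WP_le (N : ℕ) (b b' : ℕ → ℂ) (t : ℝ) : ‖WP N b b' t‖ ≤
    (∑ n ∈ Finset.Icc 1 N, ‖b n‖) * ∑ n ∈ Finset.Icc 1 N, ‖b' n‖ := by
  unfold WP
  rw [norm_mul, RCLike.norm_conj]
  exact mul_le_mul (HP_le N b t) (HP_le N b' t) (norm_nonneg _)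
    (Finset.sum_nonneg fun _ _ => norm_nonneg _)

lemma Jd_eq (X : ℝ) (c : ℂ) (φ : ℝ → ℝ) (T ν : ℝ) (d e : ℕ) (a : ℂ) :
    Jd X c φ T ν d e a = GJ X c (WP (Np T) (sg φ T ν d) (sg φ T ν e)) a := rfl

lemma Jds_eq (X : ℝ) (c : ℂ) (φ : ℝ → ℝ) (T ν : ℝ) (d e : ℕ) :
    Jds X c φ T ν d e = GS X c (WP (Np T) (sg φ T ν d) (sg φ T ν e)) := rfl

/-! ### the arithmetic factor -/

lemma q_pos {d e m n : ℕ} (hd : 1 ≤ d) (he : 1 ≤ e) (hm : 1 ≤ m) (hn : 1 ≤ n) :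
    1 ≤ (m * d) / (m * d).gcd (n * e) * ((n * e) / (m * d).gcd (n * e)) := by
  have h1 : 0 < m * d := Nat.mul_pos hm hd
  have h2 : 0 < n * e := Nat.mul_pos hn he
  exact Nat.mul_pos (Nat.div_pos (Nat.gcd_le_left _ h1) (Nat.gcd_pos_of_pos_left _ h1))
    (Nat.div_pos (Nat.gcd_le_right _ h2) (Nat.gcd_pos_of_pos_left _ h1))

lemma Rde_diff (φ : ℝ → ℝ) (T ν : ℝ) {d e : ℕ} (hd : 1 ≤ d) (he : 1 ≤ e) :
    Differentiable ℂ (Rde φ T ν d e) := by
  unfold Rde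
  refine Differentiable.fun_sum fun m hm => Differentiable.fun_sum fun n hn => ?_
  rw [Finset.mem_Icc] at hm hn
  have h0 := q_pos hd he hm.1 hn.1
  refine Differentiable.const_mul (fun a => ?_) _
  refine DifferentiableAt.const_cpow (by fun_prop) (Or.inl ?_)
  exact_mod_cast (by omega : (m * d) / (m * d).gcd (n * e) * ((n * e) / (m * d).gcd (n * e)) ≠ 0)

lemma Rde_bd (φ : ℝ → ℝ) (T ν : ℝ) {d e : ℕ} (hd : 1 ≤ d) (he : 1 ≤ e) :
    ∃ B : ℝ, 0 ≤ B ∧ ∀ a : ℂ, |a.re| ≤ 9 / 16 → ‖Rde φ T ν d e a‖ ≤ B := by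
  refine ⟨∑ m ∈ Finset.Icc 1 ⌊T⌋₊, ∑ n ∈ Finset.Icc 1 ⌊T⌋₊,
    ‖qg φ T ν m * (starRingEnd ℂ) (qg φ T ν n) *
    ((m * d : ℕ) : ℂ) ^ (-(1 / 2 : ℂ)) * ((n * e : ℕ) : ℂ) ^ (-(1 / 2 : ℂ))‖ *
    (((m * d) / (m * d).gcd (n * e) * ((n * e) / (m * d).gcd (n * e)) : ℕ) : ℝ),
    Finset.sum_nonneg fun _ _ => Finset.sum_nonneg fun _ _ => by positivity, fun a ha => ?_⟩
  have hab := abs_le.mp ha
  unfold Rde
  refine (norm_sum_le _ _).trans (Finset.sum_le_sum fun m hm => ?_)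
  refine (norm_sum_le _ _).trans (Finset.sum_le_sum fun n hn => ?_)
  rw [Finset.mem_Icc] at hm hn
  have h0 := q_pos hd he hm.1 hn.1
  rw [norm_mul]
  gcongr
  set q : ℕ := (m * d) / (m * d).gcd (n * e) * ((n * e) / (m * d).gcd (n * e)) with hq
  have hq0 : (0 : ℝ) < q := by exact_mod_cast h0
  rw [show ((q : ℕ) : ℂ) = ((q : ℝ) : ℂ) by simp, norm_cpow_eq_rpow_re_of_pos hq0]
  calc (q : ℝ) ^ (-(1 / 2 + a)).re ≤ (q : ℝ) ^ (1 : ℝ) := by
        apply Real.rpow_le_rpow_of_exponent_le (by exact_mod_cast h0)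
        simp
        linarith
    _ = q := Real.rpow_one _

/-! ### the main term -/

/-- `a` times the full main term -/
noncomputable def HR (X : ℝ) (R : ℂ → ℂ) (a : ℂ) : ℂ :=
  F4.Three.HM4 (X / (2 * Real.pi)) R 12 a +
    (1 / 2 - a) ^ 2 * ((X : ℂ) ^ 2)⁻¹ * F4.Three.HM4 (X / (2 * Real.pi)) R 10 a

lemma HR_eq (X : ℝ) (R : ℂ → ℂ) {a : ℂ} (ha : a ≠ 0) : HR X R a = a * MWs X 12 R a := by
  rw [HR, MWs, F4.Three.HM4_eq _ _ _ ha, F4.Three.HM4_eq _ _ _ ha]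
  have : (12 : ℂ) - 2 = 10 := by norm_num
  rw [this, MW, MW]
  ring

lemma HR_diff {X : ℝ} (hX : 0 < X) {R : ℂ → ℂ} (hR : Differentiable ℂ R) :
    DifferentiableOn ℂ (HR X R) {a : ℂ | |a.re| < 5 / 8} := by
  have hpi := Real.pi_pos
  have h1 := F4.Three.HM4_diff (Y := X / (2 * Real.pi)) (by positivity) hR (c := 12) (by norm_num)
  have h2 := F4.Three.HM4_diff (Y := X / (2 * Real.pi)) (by positivity) hR (c := 10) (by norm_num)
  unfold HR
  refine h1.add (DifferentiableOn.mul ?_ h2)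
  fun_prop

/-- symmetry of the main term -/
lemma MW_neg {X : ℝ} (hX : 0 < X) (c : ℂ) (R : ℂ → ℂ) (a : ℂ) :
    MW X c R (-a) = ((X / (2 * Real.pi) : ℝ) : ℂ) ^ (2 * a) * MW X (c + 2 * a) R a := by
  have hpi := Real.pi_pos
  have hY : ((X / (2 * Real.pi) : ℝ) : ℂ) ≠ 0 := by
    have : 0 < X / (2 * Real.pi) := by positivity
    exact_mod_cast this.ne'
  have e1 : ((X / (2 * Real.pi) : ℝ) : ℂ) ^ (2 * a) * ((X / (2 * Real.pi) : ℝ) : ℂ) ^ (-(2 * a)) = 1 := by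
    rw [← cpow_add _ _ hY]; simp
  rw [MW, MW]
  have k1 : (1 : ℂ) + 2 * -a = 1 - 2 * a := by ring
  have k2 : -(2 * -a) = 2 * a := by ring
  have k3 : c - 2 * -a = c + 2 * a := by ring
  have k4 : (1 : ℂ) - 2 * -a = 1 + 2 * a := by ring
  have k5 : c + 2 * a - 2 * a = c := by ring
  rw [k1, k2, k3, k4, k5, neg_neg]
  linear_combination (-(Gamma c * (riemannZeta (1 - 2 * a) * R (-a)))) * e1

open F4.Three ThreeLines

/-- growth of the main term in the strip -/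
lemma HM4_growth' {C : ℝ} (hC : ∀ s : ℂ, -(1 / 8) ≤ s.re → s.re ≤ 10 →
    ‖riemannZeta₁ s‖ ≤ C * (1 + |s.im|) ^ 3) (hC0 : 0 < C) {X : ℝ} (hX : 1 ≤ X) {R : ℂ → ℂ} {B : ℝ}
    (hB0 : 0 ≤ B) (hRb : ∀ a : ℂ, |a.re| ≤ 9 / 16 → ‖R a‖ ≤ B) {c : ℂ} (hc : 10 ≤ c.re) : ∃ D : ℝ, 0 < D ∧ ∀ a : ℂ, |a.re| ≤ 9 / 16 →
    ‖F4.Three.HM4 (X / (2 * Real.pi)) R c a‖ ≤ D * Real.exp (6 * |a.im|) := by
  have hpi := Real.pi_pos
  obtain ⟨G, hG0, hG⟩ := Gamma_bdd hc
  set Y : ℝ := X / (2 * Real.pi) with hYdef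
  have hY0 : 0 < Y := by positivity
  -- bound for the power of Y
  set P : ℝ := (max Y Y⁻¹) ^ (9 / 8 : ℝ) with hP
  have hP0 : 0 < P := Real.rpow_pos_of_pos (lt_max_of_lt_left hY0) _
  have hPb : ∀ a : ℂ, |a.re| ≤ 9 / 16 → ‖(Y : ℂ) ^ (-(2 * a))‖ ≤ P := by
    intro a ha
    have hab := abs_le.mp ha
    rw [norm_X_cpow hY0]
    have hone : 1 ≤ max Y Y⁻¹ := by
      by_cases h : 1 ≤ Y
      · exact le_max_of_le_left h
      · apply le_max_of_le_right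
        rw [not_le] at h
        exact (one_le_inv₀ hY0).mpr h.le
    by_cases hs : 0 ≤ -(2 * a.re)
    · calc Y ^ (-(2 * a.re)) ≤ (max Y Y⁻¹) ^ (-(2 * a.re)) :=
            Real.rpow_le_rpow hY0.le (le_max_left _ _) hs
        _ ≤ P := Real.rpow_le_rpow_of_exponent_le hone (by linarith)
    · rw [not_le] at hs
      calc Y ^ (-(2 * a.re)) = (Y⁻¹) ^ (2 * a.re) := by
            rw [Real.inv_rpow hY0.le, ← Real.rpow_neg hY0.le]
        _ ≤ (max Y Y⁻¹) ^ (2 * a.re) :=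
            Real.rpow_le_rpow (by positivity) (le_max_right _ _) (by linarith)
        _ ≤ P := Real.rpow_le_rpow_of_exponent_le hone (by linarith)
  refine ⟨1 / 2 * (‖Gamma c‖ * (C * B) + P * (G * (C * B))) + 1, by positivity, fun a ha => ?_⟩
  obtain ⟨h3, h4⟩ := z1_le hC hC0 ha
  have h5 := hRb a ha
  have h6 := hRb (-a) (by simpa using ha)
  have h7 := hG a ha
  have h8 := hPb a ha
  rw [F4.Three.HM4, norm_mul]
  have g4 : ‖(1 / 2 : ℂ)‖ = 1 / 2 := by norm_num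
  rw [g4]
  have hE : 0 < Real.exp (6 * |a.im|) := Real.exp_pos _
  have g1 : ‖Gamma c * (riemannZeta₁ (1 + 2 * a) * R a)‖ ≤
      ‖Gamma c‖ * (C * Real.exp (6 * |a.im|) * B) := by
    rw [norm_mul, norm_mul]
    gcongr
  have g2 : ‖(Y : ℂ) ^ (-(2 * a)) * (Gamma (c - 2 * a) * (riemannZeta₁ (1 - 2 * a) * R (-a)))‖ ≤
      P * (G * (C * Real.exp (6 * |a.im|) * B)) := by
    rw [norm_mul, norm_mul, norm_mul]
    gcongr
  calc 1 / 2 * ‖Gamma c * (riemannZeta₁ (1 + 2 * a) * R a) -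
        (Y : ℂ) ^ (-(2 * a)) * (Gamma (c - 2 * a) * (riemannZeta₁ (1 - 2 * a) * R (-a)))‖
      ≤ 1 / 2 * (‖Gamma c‖ * (C * Real.exp (6 * |a.im|) * B) +
          P * (G * (C * Real.exp (6 * |a.im|) * B))) := by
        gcongr
        exact (norm_sub_le _ _).trans (add_le_add g1 g2)
    _ = (1 / 2 * (‖Gamma c‖ * (C * B) + P * (G * (C * B)))) * Real.exp (6 * |a.im|) := by ring
    _ ≤ _ := by
        gcongr
        linarith

lemma HR_growth {C : ℝ} (hC : ∀ s : ℂ, -(1 / 8) ≤ s.re → s.re ≤ 10 →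
    ‖riemannZeta₁ s‖ ≤ C * (1 + |s.im|) ^ 3) (hC0 : 0 < C) {X : ℝ} (hX : 1 ≤ X) {R : ℂ → ℂ} {B : ℝ}
    (hB0 : 0 ≤ B) (hRb : ∀ a : ℂ, |a.re| ≤ 9 / 16 → ‖R a‖ ≤ B) : ∃ D : ℝ, 0 < D ∧ ∀ a : ℂ, |a.re| ≤ 9 / 16 →
    ‖HR X R a‖ ≤ D * Real.exp (8 * |a.im|) := by
  obtain ⟨D₁, hD₁, h1⟩ := HM4_growth' hC hC0 hX hB0 hRb (c := 12) (by norm_num)
  obtain ⟨D₂, hD₂, h2⟩ := HM4_growth' hC hC0 hX hB0 hRb (c := 10) (by norm_num)
  refine ⟨D₁ + Real.exp 4 * D₂, by positivity, fun a ha => ?_⟩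
  have h3 := norm_le_im ha
  have him : 0 ≤ |a.im| := abs_nonneg _
  have h4 : ‖(1 / 2 - a : ℂ)‖ ≤ Real.exp (2 + |a.im|) := by
    calc ‖(1 / 2 - a : ℂ)‖ ≤ ‖(1 / 2 : ℂ)‖ + ‖a‖ := norm_sub_le _ _
      _ ≤ 1 / 2 + (1 + |a.im|) := by
          have : ‖(1 / 2 : ℂ)‖ = 1 / 2 := by norm_num
          rw [this]; gcongr
      _ ≤ 1 + (2 + |a.im|) := by linarith
      _ ≤ _ := one_add_le_exp _
  have h5 : ‖((X : ℂ) ^ 2)⁻¹‖ ≤ 1 := by
    rw [norm_inv, norm_pow, Complex.norm_real, Real.norm_eq_abs, abs_of_pos (by linarith)]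
    exact inv_le_one_of_one_le₀ (one_le_pow₀ hX)
  calc ‖HR X R a‖ ≤ D₁ * Real.exp (6 * |a.im|) +
        Real.exp (2 + |a.im|) ^ 2 * 1 * (D₂ * Real.exp (6 * |a.im|)) := by
        rw [HR]
        refine (norm_add_le _ _).trans (add_le_add (h1 a ha) ?_)
        rw [norm_mul, norm_mul, norm_pow]
        gcongr
        exact h2 a ha
    _ = D₁ * Real.exp (6 * |a.im|) + Real.exp 4 * D₂ * Real.exp (8 * |a.im|) := by
        have : Real.exp (2 + |a.im|) ^ 2 * Real.exp (6 * |a.im|) =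
            Real.exp 4 * Real.exp (8 * |a.im|) := by
          rw [← Real.exp_nat_mul, ← Real.exp_add, ← Real.exp_add]
          congr 1
          push_cast
          ring
        linear_combination D₂ * this
    _ ≤ D₁ * Real.exp (8 * |a.im|) + Real.exp 4 * D₂ * Real.exp (8 * |a.im|) := by
        gcongr
        linarith
    _ = _ := by ring

/-- the data of the three lines argument; `S` stands for `Js`, `H` for `a Ms`. -/
structure Dat (K V T : ℝ) (S H : ℂ → ℂ) : Prop where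
  K0 : 0 < K
  V0 : 0 < V
  T1 : 1 < T
  Sd : DifferentiableOn ℂ S {a : ℂ | |a.re| < 5 / 8}
  Hd : DifferentiableOn ℂ H {a : ℂ | |a.re| < 5 / 8}
  growth : ∃ D : ℝ, ∀ a : ℂ, |a.re| ≤ 9 / 16 → ‖a * S a - H a‖ ≤ D * Real.exp (8 * |a.im|)
  right : ∀ a : ℂ, a.re = 9 / 16 → ‖a * S a - H a‖ ≤
    V * Real.exp (K * |a.im|) * T ^ (-(58812 / 100000) : ℝ)
  left : ∀ a : ℂ, a.re = -(9 / 16) → ‖a * S a - H a‖ ≤
    V * Real.exp (K * |a.im|) * T ^ (52 / 100 : ℝ)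

variable {K V T : ℝ} {S H : ℂ → ℂ}

lemma exp_sq_le {a : ℂ} (ha : |a.re| ≤ 9 / 16) :
    ‖cexp (a ^ 2)‖ ≤ Real.exp 1 * Real.exp (-a.im ^ 2) := by
  rw [norm_exp_sq, ← Real.exp_add]
  apply Real.exp_le_exp.mpr
  have h1 : a.re ^ 2 ≤ (9 / 16) ^ 2 := by
    rw [← sq_abs]; gcongr
  linarith

lemma mul_gauss {a : ℂ} (ha : |a.re| ≤ 9 / 16) {W : ℂ} {B K : ℝ} (hB : 0 ≤ B)
    (hW : ‖W‖ ≤ B * Real.exp (K * |a.im|)) :
    ‖W * cexp (a ^ 2)‖ ≤ B * (Real.exp 1 * Real.exp (K ^ 2 / 4)) := by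
  rw [norm_mul]
  calc ‖W‖ * ‖cexp (a ^ 2)‖ ≤ (B * Real.exp (K * |a.im|)) *
        (Real.exp 1 * Real.exp (-a.im ^ 2)) := by
        gcongr
        exact exp_sq_le ha
    _ = B * (Real.exp 1 * (Real.exp (K * |a.im|) * Real.exp (-a.im ^ 2))) := by ring
    _ ≤ _ := by
        have := exp_gauss K a.im
        gcongr

lemma Dat.strip (D : Dat K V T S H) {a : ℂ} (h1 : -(9 / 16) ≤ a.re) (h2 : a.re ≤ 9 / 16) :
    ‖(a * S a - H a) * cexp (a ^ 2)‖ * T ^ (985 / 1000 * a.re + 34 / 1000 : ℝ) ≤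
      V * (Real.exp 1 * Real.exp (K ^ 2 / 4)) := by
  have hT1 : 1 ≤ T := D.T1.le
  have hT0 : 0 < T := by linarith
  have hTc : (T : ℂ) ≠ 0 := by exact_mod_cast hT0.ne'
  have hV := D.V0
  have key : ∀ z : ℂ, ‖(T : ℂ) ^ (985 / 1000 * z + 34 / 1000)‖ =
      T ^ (985 / 1000 * z.re + 34 / 1000 : ℝ) := by
    intro z
    rw [norm_cpow_eq_rpow_re_of_pos hT0]
    congr 1
    have e1 : ((34 : ℂ) / 1000) = ((34 / 1000 : ℝ) : ℂ) := by push_cast; rfl
    have e2 : ((985 : ℂ) / 1000) = ((985 / 1000 : ℝ) : ℂ) := by push_cast; rfl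
    rw [e1, e2, add_re, ofReal_re, re_ofReal_mul]
  have g : ‖(fun a : ℂ => (a * S a - H a) * cexp (a ^ 2) *
      (T : ℂ) ^ (985 / 1000 * a + 34 / 1000)) a‖ ≤ V * (Real.exp 1 * Real.exp (K ^ 2 / 4)) := by
    refine PhragmenLindelof.vertical_strip (a := -(9 / 16)) (b := 9 / 16) (z := a)
      (f := fun a : ℂ => (a * S a - H a) * cexp (a ^ 2) *
        (T : ℂ) ^ (985 / 1000 * a + 34 / 1000))
      ?_ ?_ ?_ ?_ h1 h2
    · apply DifferentiableOn.diffContOnCl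
      have hsub : closure (re ⁻¹' Set.Ioo (-(9 / 16) : ℝ) (9 / 16)) ⊆ {a : ℂ | |a.re| < 5 / 8} := by
        refine (closure_minimal (Set.preimage_mono Set.Ioo_subset_Icc_self)
          (isClosed_Icc.preimage continuous_re)).trans ?_
        intro z hz
        have hz' : -(9 / 16) ≤ z.re ∧ z.re ≤ 9 / 16 := hz
        show |z.re| < 5 / 8
        rw [abs_lt]
        constructor <;> linarith [hz'.1, hz'.2]
      have d1 : DifferentiableOn ℂ (fun a : ℂ => a * S a - H a)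
          (closure (re ⁻¹' Set.Ioo (-(9 / 16) : ℝ) (9 / 16))) :=
        (differentiableOn_id.mul (D.Sd.mono hsub)).sub (D.Hd.mono hsub)
      have d2 : Differentiable ℂ (fun a : ℂ => cexp (a ^ 2)) := by fun_prop
      have d3 : Differentiable ℂ (fun a : ℂ => (T : ℂ) ^ (985 / 1000 * a + 34 / 1000)) := by
        intro z
        exact DifferentiableAt.const_cpow (by fun_prop) (Or.inl hTc)
      exact (d1.mul d2.differentiableOn).mul d3.differentiableOn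
    · obtain ⟨D₀, hD₀⟩ := D.growth
      refine ⟨0, by positivity, 0, ?_⟩
      apply Asymptotics.IsBigO.of_bound (|D₀| * (Real.exp 1 * Real.exp (8 ^ 2 / 4)) * T)
      rw [eventually_inf_principal]
      refine Filter.Eventually.of_forall fun z hz => ?_
      have hz' : -(9 / 16) < z.re ∧ z.re < 9 / 16 := hz
      have hz8 : |z.re| ≤ 9 / 16 := by
        rw [abs_le]
        constructor <;> linarith [hz'.1, hz'.2]
      simp only [zero_mul, Real.exp_zero, norm_one, mul_one]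
      rw [norm_mul _ ((T : ℂ) ^ (985 / 1000 * z + 34 / 1000)), key]
      have k0 : ‖z * S z - H z‖ ≤ |D₀| * Real.exp (8 * |z.im|) := by
        refine (hD₀ z hz8).trans ?_
        gcongr
        exact le_abs_self _
      have k1 := mul_gauss hz8 (abs_nonneg D₀) k0
      have k2 : T ^ (985 / 1000 * z.re + 34 / 1000 : ℝ) ≤ T := by
        nth_rewrite 2 [← Real.rpow_one T]
        exact Real.rpow_le_rpow_of_exponent_le hT1 (by linarith [hz'.2])
      exact mul_le_mul k1 k2 (Real.rpow_nonneg hT0.le _) (by positivity)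
    · intro z hz
      have hz8 : |z.re| ≤ 9 / 16 := by
        rw [hz, abs_neg, abs_of_pos] <;> norm_num
      rw [norm_mul _ ((T : ℂ) ^ (985 / 1000 * z + 34 / 1000)), key, hz]
      have k0 := D.left z hz
      have k1 := mul_gauss hz8 (B := V * T ^ (52 / 100 : ℝ)) (K := K)
        (mul_nonneg hV.le (Real.rpow_nonneg hT0.le _)) (k0.trans (le_of_eq (by ring)))
      calc _ ≤ V * T ^ (52 / 100 : ℝ) * (Real.exp 1 * Real.exp (K ^ 2 / 4)) *
            T ^ (985 / 1000 * -(9 / 16) + 34 / 1000 : ℝ) := by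
            gcongr
        _ = V * (Real.exp 1 * Real.exp (K ^ 2 / 4)) * (T ^ (52 / 100 : ℝ) *
            T ^ (985 / 1000 * -(9 / 16) + 34 / 1000 : ℝ)) := by ring
        _ ≤ V * (Real.exp 1 * Real.exp (K ^ 2 / 4)) * 1 := by
            rw [← Real.rpow_add hT0]
            gcongr
            exact Real.rpow_le_one_of_one_le_of_nonpos hT1 (by norm_num)
        _ = _ := mul_one _
    · intro z hz
      have hz8 : |z.re| ≤ 9 / 16 := by
        rw [hz, abs_of_pos] <;> norm_num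
      rw [norm_mul _ ((T : ℂ) ^ (985 / 1000 * z + 34 / 1000)), key, hz]
      have k0 := D.right z hz
      have k1 := mul_gauss hz8 (B := V * T ^ (-(58812 / 100000) : ℝ)) (K := K)
        (mul_nonneg hV.le (Real.rpow_nonneg hT0.le _)) (k0.trans (le_of_eq (by ring)))
      calc _ ≤ V * T ^ (-(58812 / 100000) : ℝ) * (Real.exp 1 * Real.exp (K ^ 2 / 4)) *
            T ^ (985 / 1000 * (9 / 16) + 34 / 1000 : ℝ) := by
            gcongr
        _ = V * (Real.exp 1 * Real.exp (K ^ 2 / 4)) * (T ^ (-(58812 / 100000) : ℝ) *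
            T ^ (985 / 1000 * (9 / 16) + 34 / 1000 : ℝ)) := by ring
        _ ≤ V * (Real.exp 1 * Real.exp (K ^ 2 / 4)) * 1 := by
            rw [← Real.rpow_add hT0]
            gcongr
            exact Real.rpow_le_one_of_one_le_of_nonpos hT1 (by norm_num)
        _ = _ := mul_one _
  simp only at g
  rwa [norm_mul _ ((T : ℂ) ^ (985 / 1000 * a + 34 / 1000)), key] at g

lemma Dat.final (D : Dat K V T S H) (hL : 34 ≤ Real.log T)
    (hfin : 2 * Real.log T ≤ T ^ (4 / 1000 : ℝ)) {M : ℂ → ℂ}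
    (hM : ∀ a : ℂ, a ≠ 0 → H a = a * M a) :
    ‖S 0 - Real.circleAverage M 0 (1 / (2 * Real.log T))‖ ≤
      V * (Real.exp 4 * Real.exp (K ^ 2 / 4)) * T ^ (-(3 / 100) : ℝ) := by
  have hT1 : 1 ≤ T := D.T1.le
  have hT0 : 0 < T := by linarith
  have hV := D.V0
  have hL0 : 0 < Real.log T := by linarith
  set r : ℝ := 1 / (2 * Real.log T) with hr
  have hr0 : 0 < r := by positivity
  have hr1 : r ≤ 3 / 100 := by
    rw [hr, div_le_iff₀ (by positivity)]; linarith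
  have hTr : T ^ r = Real.exp (1 / 2) := by
    rw [Real.rpow_def_of_pos hT0, hr]
    congr 1
    field_simp
  have hsub : Metric.closedBall (0 : ℂ) r ⊆ {a : ℂ | |a.re| < 5 / 8} := by
    intro z hz
    rw [mem_closedBall_zero_iff] at hz
    show |z.re| < 5 / 8
    have := Complex.abs_re_le_norm z
    linarith
  have hFc : ContinuousOn S (Metric.sphere (0 : ℂ) |r|) := by
    rw [abs_of_pos hr0]
    exact (D.Sd.mono (Metric.sphere_subset_closedBall.trans hsub)).continuousOn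
  have hFi : CircleIntegrable S 0 r := hFc.circleIntegrable'
  have hmean : Real.circleAverage S 0 r = S 0 := by
    apply DiffContOnCl.circleAverage
    rw [abs_of_pos hr0]
    apply DifferentiableOn.diffContOnCl
    exact D.Sd.mono (Metric.closure_ball_subset_closedBall.trans hsub)
  have hsph : ∀ z : ℂ, z ∈ Metric.sphere (0 : ℂ) |r| → z ≠ 0 := by
    intro z hz h0
    rw [h0, abs_of_pos hr0] at hz
    simp at hz
    linarith
  have heq : Set.EqOn M (fun a => H a / a) (Metric.sphere (0 : ℂ) |r|) := by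
    intro z hz
    have hz0 := hsph z hz
    simp only
    rw [hM z hz0]
    field_simp
  have hMi : CircleIntegrable (fun a => H a / a) 0 r := by
    apply ContinuousOn.circleIntegrable'
    refine ContinuousOn.div ?_ continuousOn_id ?_
    · rw [abs_of_pos hr0]
      exact (D.Hd.mono (Metric.sphere_subset_closedBall.trans hsub)).continuousOn
    · intro z hz
      exact hsph z hz
  rw [Real.circleAverage_congr_sphere heq, ← hmean, ← Real.circleAverage_fun_sub hFi hMi]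
  refine norm_circleAverage_le hr0 fun z hz => ?_
  have hz0 : z ≠ 0 := by
    rintro rfl; simp at hz; linarith
  have hzre : |z.re| ≤ r := (Complex.abs_re_le_norm z).trans hz.le
  have hab := abs_le.mp hzre
  have h1 := D.strip (a := z) (by linarith) (by linarith)
  have h2 : Real.exp (-1) ≤ ‖cexp (z ^ 2)‖ := by
    rw [norm_exp_sq]
    apply Real.exp_le_exp.mpr
    have e1 : z.re ^ 2 + z.im ^ 2 = r ^ 2 := by
      rw [← hz, ← Complex.normSq_eq_norm_sq, Complex.normSq_apply]; ring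
    nlinarith [sq_nonneg z.re]
  have h3 : T ^ (34 / 1000 : ℝ) * Real.exp (-2) ≤ T ^ (985 / 1000 * z.re + 34 / 1000 : ℝ) := by
    rw [Real.rpow_add hT0, mul_comm]
    have : Real.exp (-2) ≤ T ^ (985 / 1000 * z.re) := by
      calc Real.exp (-2) ≤ Real.exp (-1) := Real.exp_le_exp.mpr (by norm_num)
        _ = T ^ (-(2 * r)) := by
            rw [Real.rpow_neg hT0.le, mul_comm, Real.rpow_mul hT0.le, hTr, ← Real.exp_mul,
              ← Real.exp_neg]
            norm_num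
        _ ≤ _ := Real.rpow_le_rpow_of_exponent_le hT1 (by linarith)
    gcongr
  have h4 : ‖S z - H z / z‖ = 2 * Real.log T * ‖z * S z - H z‖ := by
    have : S z - H z / z = (z * S z - H z) / z := by field_simp
    rw [this, norm_div, hz, hr]
    field_simp
  rw [h4]
  have h5 : ‖z * S z - H z‖ * (Real.exp (-1) * (T ^ (34 / 1000 : ℝ) * Real.exp (-2))) ≤
      V * (Real.exp 1 * Real.exp (K ^ 2 / 4)) := by
    refine le_trans ?_ h1
    rw [norm_mul, mul_assoc]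
    gcongr
  have h6 : 0 < T ^ (34 / 1000 : ℝ) := Real.rpow_pos_of_pos hT0 _
  have h7 : ‖z * S z - H z‖ ≤
      V * (Real.exp 4 * Real.exp (K ^ 2 / 4)) * T ^ (-(34 / 1000) : ℝ) := by
    have e3 : Real.exp (-1) * Real.exp (-2) * Real.exp 3 = 1 := by
      rw [← Real.exp_add, ← Real.exp_add]; norm_num
    have e5 : Real.exp 4 = Real.exp 1 * Real.exp 3 := by
      rw [← Real.exp_add]; norm_num
    have e4 : T ^ (34 / 1000 : ℝ) * T ^ (-(34 / 1000) : ℝ) = 1 := by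
      rw [← Real.rpow_add hT0]; norm_num
    have h8 : 0 ≤ Real.exp 3 * T ^ (-(34 / 1000) : ℝ) :=
      mul_nonneg (Real.exp_nonneg _) (Real.rpow_nonneg hT0.le _)
    calc ‖z * S z - H z‖
        = ‖z * S z - H z‖ * (Real.exp (-1) * (T ^ (34 / 1000 : ℝ) * Real.exp (-2))) *
          (Real.exp 3 * T ^ (-(34 / 1000) : ℝ)) := by
          linear_combination (-‖z * S z - H z‖ * (T ^ (34 / 1000 : ℝ) *
            T ^ (-(34 / 1000) : ℝ))) * e3 - ‖z * S z - H z‖ * e4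
      _ ≤ V * (Real.exp 1 * Real.exp (K ^ 2 / 4)) * (Real.exp 3 * T ^ (-(34 / 1000) : ℝ)) := by
          gcongr
      _ = _ := by rw [e5]; ring
  calc 2 * Real.log T * ‖z * S z - H z‖
      ≤ 2 * Real.log T * (V * (Real.exp 4 * Real.exp (K ^ 2 / 4)) * T ^ (-(34 / 1000) : ℝ)) := by
        gcongr
    _ = V * (Real.exp 4 * Real.exp (K ^ 2 / 4)) * ((2 * Real.log T) *
        T ^ (-(34 / 1000) : ℝ)) := by ring
    _ ≤ V * (Real.exp 4 * Real.exp (K ^ 2 / 4)) * (T ^ (4 / 1000 : ℝ) *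
        T ^ (-(34 / 1000) : ℝ)) := by
        gcongr
    _ = _ := by
        rw [← Real.rpow_add hT0]; norm_num


/-- combine the bounds for `c = 12` and `c = 10` -/
lemma combine' {X : ℝ} (hX : 1 ≤ X) {R : ℂ → ℂ} {a S J₁ J₂ : ℂ} (ha0 : a ≠ 0)
    (hJ : S = J₁ + (1 / 2 - a) ^ 2 * ((X : ℂ) ^ 2)⁻¹ * J₂)
    {B : ℝ} (hB : 0 ≤ B)
    (h12 : ‖J₁ - MW X 12 R a‖ ≤ B) (h10 : ‖J₂ - MW X 10 R a‖ ≤ B) :
    ‖a * S - HR X R a‖ ≤ 2 * Real.exp (3 * ‖a‖) * B := by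
  obtain ⟨f1, f2⟩ := fac_le a hX
  have e10 : (12 : ℂ) - 2 = 10 := by norm_num
  rw [HR_eq X R ha0, hJ, MWs, e10]
  have e : a * (J₁ + (1 / 2 - a) ^ 2 * ((X : ℂ) ^ 2)⁻¹ * J₂) -
      a * (MW X 12 R a + (1 / 2 - a) ^ 2 * ((X : ℂ) ^ 2)⁻¹ * MW X 10 R a) =
      a * ((J₁ - MW X 12 R a) + (1 / 2 - a) ^ 2 * ((X : ℂ) ^ 2)⁻¹ *
        (J₂ - MW X 10 R a)) := by ring
  rw [e, norm_mul]
  have hn : 0 ≤ ‖a‖ := norm_nonneg a
  have g1 : (1 : ℝ) ≤ Real.exp (2 * ‖a‖) := Real.one_le_exp (by positivity)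
  calc ‖a‖ * ‖(J₁ - MW X 12 R a) + (1 / 2 - a) ^ 2 * ((X : ℂ) ^ 2)⁻¹ *
        (J₂ - MW X 10 R a)‖
      ≤ Real.exp ‖a‖ * (B + Real.exp (2 * ‖a‖) * B) := by
        gcongr
        refine (norm_add_le _ _).trans (add_le_add h12 ?_)
        rw [norm_mul]
        gcongr
    _ ≤ Real.exp ‖a‖ * (Real.exp (2 * ‖a‖) * B + Real.exp (2 * ‖a‖) * B) := by
        gcongr
        nlinarith
    _ = 2 * (Real.exp ‖a‖ * Real.exp (2 * ‖a‖)) * B := by ring
    _ = _ := by rw [← Real.exp_add]; ring_nf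

end ThreeP

open ThreeP F4.Three ThreeLines in
/-- (G6) three lines. -/
theorem stThreeP (h3 : StRightP) (h4 : StLeftP) (h5 : F4.StGrow) (_ : F4.StStrip4)
    (_ : StCoP) : StThreeP := by
  intro φ hφ
  obtain ⟨C₃, hC₃, T₃, hT₃, h3⟩ := h3 φ hφ
  obtain ⟨C₄, hC₄, T₄, hT₄, h4⟩ := h4 φ hφ
  obtain ⟨Cg, hCg, hg⟩ := h5
  set C : ℝ := C₃ + C₄ with hCdef
  have hC0 : 0 < C := by positivity
  have hC3 : C₃ ≤ C := by linarith
  have hC4 : C₄ ≤ C := by linarith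
  set K : ℝ := 3 * C + 3 with hK
  set V₀ : ℝ := 4 * Real.exp (15 * C + 3) with hV₀
  obtain ⟨T₁, hT₁⟩ := eventually_atTop.mp
    ((ev_log 2 (e := 4 / 1000) (by norm_num)).and
    (Real.tendsto_log_atTop.eventually_ge_atTop 34))
  refine ⟨V₀ * (Real.exp 4 * Real.exp (K ^ 2 / 4)), by positivity,
    max (max T₄ T₃) (max T₁ 3), le_max_of_le_right (le_max_right _ _),
    fun T hT X hX1 hX2 ν d e hd he hde => ?_⟩
  have hTT4 : T₄ ≤ T := (le_max_left _ _).trans ((le_max_left _ _).trans hT)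
  have hTT3 : T₃ ≤ T := (le_max_right _ _).trans ((le_max_left _ _).trans hT)
  have hTT1 : T₁ ≤ T := (le_max_left _ _).trans ((le_max_right _ _).trans hT)
  have hT3 : 3 ≤ T := (le_max_right _ _).trans ((le_max_right _ _).trans hT)
  obtain ⟨e3, e4⟩ := hT₁ T hTT1
  have hT0 : 0 < T := by linarith
  have hT1 : 1 ≤ T := by linarith
  have hpi := Real.pi_pos
  have hpi3 := Real.pi_gt_three
  have hXone : 1 ≤ X := (Real.one_le_rpow hT1 (by norm_num)).trans hX1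
  have hX0 : 0 < X := by linarith
  have hν : 0 ≤ |ν| := abs_nonneg _
  set R : ℂ → ℂ := Rde φ T ν d e with hR0
  set W : ℝ → ℂ := WP (Np T) (sg φ T ν d) (sg φ T ν e) with hW
  have hWc : Continuous W := WP_cont _ _ _
  obtain ⟨Bw, hWb⟩ : ∃ Bw : ℝ, ∀ t, ‖W t‖ ≤ Bw := ⟨_, WP_le _ _ _⟩
  have hRd : Differentiable ℂ R := Rde_diff φ T ν hd he
  obtain ⟨BR, hBR, hRb⟩ := Rde_bd φ T ν hd he
  set Y : ℝ := X / (2 * Real.pi) with hY
  have hY0 : 0 < Y := by positivity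
  have hYX : Y ≤ X := by
    rw [hY, div_le_iff₀ (by positivity)]
    nlinarith
  have h4' : ∀ a s : ℂ, a.re = 9 / 16 → 8 ≤ s.re → s.re ≤ 14 →
      ‖GJ X s W (-a) - (Y : ℂ) ^ (2 * a) * GJ X (s + 2 * a) W a‖ ≤
        Real.exp (C₄ * (‖a‖ + ‖s‖)) * T ^ (13 / 100 : ℝ) := fun a s h1 h2 h3 =>
    h4 T hTT4 X hX1 hX2 a s h1 h2 h3 ν d e hd he hde
  -- the right edge for one value of `c`
  have hR1 : ∀ a s : ℂ, a.re = 9 / 16 → 8 ≤ s.re → s.re ≤ 16 → ‖s‖ ≤ 12 + 2 * ‖a‖ →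
      ‖GJ X s W a - MW X s R a‖ ≤
        Real.exp (C * (3 * ‖a‖ + 12)) * (1 + |ν|) * (X ^ (-(25 / 8) : ℝ) * T ^ (249 / 100 : ℝ)) := by
    intro a s ha hs1 hs2 hs3
    refine (h3 T hTT3 X hX1 hX2 a s ha hs1 hs2 ν d e hd he hde).trans ?_
    have hn : 0 ≤ ‖a‖ := norm_nonneg a
    have hns : 0 ≤ ‖s‖ := norm_nonneg s
    have : C₃ * (‖a‖ + ‖s‖) ≤ C * (3 * ‖a‖ + 12) := by
      apply mul_le_mul hC3 (by linarith) (by positivity) hC0.le
    gcongr
  have hXR : X ^ (-(25 / 8) : ℝ) * T ^ (249 / 100 : ℝ) ≤ T ^ (-(58812 / 100000) : ℝ) := by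
    calc X ^ (-(25 / 8) : ℝ) * T ^ (249 / 100 : ℝ)
        ≤ (T ^ (985 / 1000 : ℝ)) ^ (-(25 / 8) : ℝ) * T ^ (249 / 100 : ℝ) := by
          gcongr ?_ * _
          exact Real.rpow_le_rpow_of_nonpos (Real.rpow_pos_of_pos hT0 _) hX1 (by norm_num)
      _ = T ^ (985 / 1000 * (-(25 / 8)) + 249 / 100 : ℝ) := by
          rw [← Real.rpow_mul hT0.le, ← Real.rpow_add hT0]
      _ ≤ _ := Real.rpow_le_rpow_of_exponent_le hT1 (by norm_num)
  have hR : ∀ a s : ℂ, a.re = 9 / 16 → 8 ≤ s.re → s.re ≤ 16 → ‖s‖ ≤ 12 + 2 * ‖a‖ →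
      ‖GJ X s W a - MW X s R a‖ ≤
        Real.exp (C * (3 * ‖a‖ + 12)) * (1 + |ν|) * T ^ (-(58812 / 100000) : ℝ) := by
    intro a s ha hs1 hs2 hs3
    exact (hR1 a s ha hs1 hs2 hs3).trans (by gcongr)
  -- the left edge for one value of `c`
  have hL : ∀ a s : ℂ, a.re = 9 / 16 → 10 ≤ s.re → s.re ≤ 12 → ‖s‖ ≤ 12 →
      ‖GJ X s W (-a) - MW X s R (-a)‖ ≤
        2 * Real.exp (C * (3 * ‖a‖ + 12)) * (1 + |ν|) * T ^ (52 / 100 : ℝ) := by
    intro a s ha hs1 hs2 hs3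
    have hn : 0 ≤ ‖a‖ := norm_nonneg a
    have hns : 0 ≤ ‖s‖ := norm_nonneg s
    have g1 := h4' a s ha (by linarith) (by linarith)
    have g2 := hR1 a (s + 2 * a) ha (by simp [ha]; linarith) (by simp [ha]; linarith) (by
      refine (norm_add_le _ _).trans ?_
      have : ‖2 * a‖ = 2 * ‖a‖ := by simp
      rw [this]; linarith)
    have e : GJ X s W (-a) - MW X s R (-a) =
        (GJ X s W (-a) - (Y : ℂ) ^ (2 * a) * GJ X (s + 2 * a) W a) +
        (Y : ℂ) ^ (2 * a) * (GJ X (s + 2 * a) W a - MW X (s + 2 * a) R a) := by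
      rw [MW_neg hX0]
      ring
    have g3 : ‖(Y : ℂ) ^ (2 * a)‖ ≤ X ^ (9 / 8 : ℝ) := by
      rw [norm_cpow_eq_rpow_re_of_pos hY0]
      have e1 : (2 * a).re = 9 / 8 := by simp [ha]; norm_num
      rw [e1]
      exact Real.rpow_le_rpow hY0.le hYX (by norm_num)
    have g4 : T ^ (13 / 100 : ℝ) ≤ T ^ (52 / 100 : ℝ) :=
      Real.rpow_le_rpow_of_exponent_le hT1 (by norm_num)
    have g5 : Real.exp (C₄ * (‖a‖ + ‖s‖)) ≤ Real.exp (C * (3 * ‖a‖ + 12)) := by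
      apply Real.exp_le_exp.mpr
      exact mul_le_mul hC4 (by linarith) (by positivity) hC0.le
    have g6 : X ^ (9 / 8 : ℝ) * (X ^ (-(25 / 8) : ℝ) * T ^ (249 / 100 : ℝ)) ≤
        T ^ (52 / 100 : ℝ) := by
      calc X ^ (9 / 8 : ℝ) * (X ^ (-(25 / 8) : ℝ) * T ^ (249 / 100 : ℝ))
          = X ^ (-2 : ℝ) * T ^ (249 / 100 : ℝ) := by
            rw [← mul_assoc, ← Real.rpow_add hX0]; norm_num
        _ ≤ (T ^ (985 / 1000 : ℝ)) ^ (-2 : ℝ) * T ^ (249 / 100 : ℝ) := by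
            gcongr ?_ * _
            exact Real.rpow_le_rpow_of_nonpos (Real.rpow_pos_of_pos hT0 _) hX1 (by norm_num)
        _ = T ^ (985 / 1000 * (-2) + 249 / 100 : ℝ) := by
            rw [← Real.rpow_mul hT0.le, ← Real.rpow_add hT0]
        _ ≤ _ := Real.rpow_le_rpow_of_exponent_le hT1 (by norm_num)
    have hE : 0 < Real.exp (C * (3 * ‖a‖ + 12)) := Real.exp_pos _
    have hP : 0 < T ^ (52 / 100 : ℝ) := Real.rpow_pos_of_pos hT0 _
    rw [e]
    calc _ ≤ Real.exp (C * (3 * ‖a‖ + 12)) * T ^ (52 / 100 : ℝ) +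
          X ^ (9 / 8 : ℝ) * (Real.exp (C * (3 * ‖a‖ + 12)) * (1 + |ν|) *
            (X ^ (-(25 / 8) : ℝ) * T ^ (249 / 100 : ℝ))) := by
          refine (norm_add_le _ _).trans (add_le_add ?_ ?_)
          · refine g1.trans ?_
            gcongr
          · rw [norm_mul]
            gcongr
      _ = Real.exp (C * (3 * ‖a‖ + 12)) * T ^ (52 / 100 : ℝ) +
          Real.exp (C * (3 * ‖a‖ + 12)) * (1 + |ν|) * (X ^ (9 / 8 : ℝ) *
            (X ^ (-(25 / 8) : ℝ) * T ^ (249 / 100 : ℝ))) := by ring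
      _ ≤ Real.exp (C * (3 * ‖a‖ + 12)) * T ^ (52 / 100 : ℝ) +
          Real.exp (C * (3 * ‖a‖ + 12)) * (1 + |ν|) * T ^ (52 / 100 : ℝ) := by gcongr
      _ ≤ Real.exp (C * (3 * ‖a‖ + 12)) * (1 + |ν|) * T ^ (52 / 100 : ℝ) +
          Real.exp (C * (3 * ‖a‖ + 12)) * (1 + |ν|) * T ^ (52 / 100 : ℝ) := by
          gcongr
          nlinarith
      _ = _ := by ring
  -- the exponentials
  have hexp : ∀ a : ℂ, |a.re| ≤ 9 / 16 →
      Real.exp (3 * ‖a‖) * Real.exp (C * (3 * ‖a‖ + 12)) ≤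
        Real.exp (15 * C + 3) * Real.exp (K * |a.im|) := by
    intro a ha
    rw [← Real.exp_add, ← Real.exp_add]
    apply Real.exp_le_exp.mpr
    have h1 := norm_le_im ha
    have h2 : (3 + 3 * C) * ‖a‖ ≤ (3 + 3 * C) * (1 + |a.im|) :=
      mul_le_mul_of_nonneg_left h1 (by positivity)
    rw [hK]
    linarith
  have n12 : ‖(12 : ℂ)‖ = 12 := by norm_num
  have n10 : ‖(10 : ℂ)‖ = 10 := by norm_num
  have e10 : (12 : ℂ) - 2 = 10 := by norm_num
  have D : ThreeP.Dat K (V₀ * (1 + |ν|)) T (GS X 12 W) (HR X R) := by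
    refine ⟨by positivity, by positivity, by linarith, part1 hXone (by norm_num) hWc hWb,
      HR_diff hX0 hRd, ?_, ?_, ?_⟩
    · obtain ⟨D₁, hD₁⟩ := part2 hXone (c := 12) (by norm_num) hWb
      obtain ⟨D₂, hD₂0, hD₂⟩ := HR_growth hg hCg hXone hBR hRb
      refine ⟨|D₁| * Real.exp 2 + D₂, fun a ha => ?_⟩
      have k1 := hD₁ a ha
      have k2 := hD₂ a ha
      have k3 := norm_le_im ha
      have him : 0 ≤ |a.im| := abs_nonneg _
      have k4 := (fac_le a hXone).1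
      calc ‖a * GS X 12 W a - HR X R a‖ ≤ ‖a‖ * ‖GS X 12 W a‖ + ‖HR X R a‖ := by
            rw [← norm_mul]; exact norm_sub_le _ _
        _ ≤ Real.exp ‖a‖ * (|D₁| * Real.exp ‖a‖) + D₂ * Real.exp (8 * |a.im|) := by
            gcongr
            exact k1.trans (by gcongr; exact le_abs_self _)
        _ = |D₁| * Real.exp (2 * ‖a‖) + D₂ * Real.exp (8 * |a.im|) := by
            have : Real.exp (2 * ‖a‖) = Real.exp ‖a‖ * Real.exp ‖a‖ := by
              rw [← Real.exp_add]; ring_nf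
            rw [this]; ring
        _ ≤ |D₁| * Real.exp (2 + 8 * |a.im|) + D₂ * Real.exp (8 * |a.im|) := by
            gcongr
            linarith
        _ = _ := by rw [Real.exp_add]; ring
    · intro a ha
      have ha8 : |a.re| ≤ 9 / 16 := by rw [ha, abs_of_pos] <;> norm_num
      have ha0 : a ≠ 0 := by rintro rfl; norm_num at ha
      have k0 := part3 hXone (c := 12) (by norm_num) hWc hWb ha8 (by rw [ha]; norm_num)
      rw [e10] at k0
      have k := combine' hXone ha0 k0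
        (B := Real.exp (C * (3 * ‖a‖ + 12)) * (1 + |ν|) * T ^ (-(58812 / 100000) : ℝ))
        (by positivity)
        (hR a 12 ha (by norm_num) (by norm_num) (by rw [n12]; linarith [norm_nonneg a]))
        (hR a 10 ha (by norm_num) (by norm_num) (by rw [n10]; linarith [norm_nonneg a]))
      refine k.trans ?_
      calc 2 * Real.exp (3 * ‖a‖) * (Real.exp (C * (3 * ‖a‖ + 12)) * (1 + |ν|) *
            T ^ (-(58812 / 100000) : ℝ))
          = 2 * (Real.exp (3 * ‖a‖) * Real.exp (C * (3 * ‖a‖ + 12))) * (1 + |ν|) *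
            T ^ (-(58812 / 100000) : ℝ) := by ring
        _ ≤ 4 * (Real.exp (15 * C + 3) * Real.exp (K * |a.im|)) * (1 + |ν|) *
            T ^ (-(58812 / 100000) : ℝ) := by
            have := hexp a ha8
            gcongr
            norm_num
        _ = _ := by rw [hV₀]; ring
    · intro z hz
      have hz8 : |z.re| ≤ 9 / 16 := by rw [hz, abs_neg, abs_of_pos] <;> norm_num
      have hz0 : z ≠ 0 := by rintro rfl; norm_num at hz
      have ha : (-z).re = 9 / 16 := by simp [hz]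
      have k12 := hL (-z) 12 ha (by norm_num) (by norm_num) (by rw [n12])
      have k10 := hL (-z) 10 ha (by norm_num) (by norm_num) (by rw [n10]; norm_num)
      rw [neg_neg, norm_neg] at k12 k10
      have k0 := part3 hXone (c := 12) (by norm_num) hWc hWb hz8 (by rw [hz]; norm_num)
      rw [e10] at k0
      have k := combine' hXone hz0 k0 (by positivity) k12 k10
      refine k.trans ?_
      calc 2 * Real.exp (3 * ‖z‖) * (2 * Real.exp (C * (3 * ‖z‖ + 12)) * (1 + |ν|) *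
            T ^ (52 / 100 : ℝ))
          = 4 * (Real.exp (3 * ‖z‖) * Real.exp (C * (3 * ‖z‖ + 12))) * (1 + |ν|) *
            T ^ (52 / 100 : ℝ) := by ring
        _ ≤ 4 * (Real.exp (15 * C + 3) * Real.exp (K * |z.im|)) * (1 + |ν|) *
            T ^ (52 / 100 : ℝ) := by
            have := hexp z hz8
            gcongr
        _ = _ := by rw [hV₀]; ring
  have hfin := D.final e4 e3 (M := MWs X 12 R) fun a ha => HR_eq X R ha
  refine hfin.trans (le_of_eq ?_)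
  ring

end K7
end Pool.Agent.Lib.MP_973905_nt
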