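import Pool.Agent.Lib.MP_973905_nt.K7.Base
import Pool.Agent.Lib.MP_973905_nt.K5.TopLim

set_option autoImplicit false

/-! Module K7-R9: the limits of the factors of the top blocks, four shifts (compare
`K5.stTopLim`). -/

namespace Pool.Agent.Lib.MP_973905_nt
namespace K7

open MeasureTheory ProbabilityTheory Complex Filter Topology K1 K4 K5

namespace T4

open K5.TLaux

variable {S : Finset ℕ}

/-- the product of the four Euler products -/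
noncomputable def ZP4 (S : Finset ℕ) (a₁ a₂ b₁ b₂ : ℂ) (f : ℕ → ℂ) : ℂ :=
  ZZ S (tw (1 / 2 + a₁) f) * ZZ S (tw (1 / 2 + a₂) f) *
    (starRingEnd ℂ) (ZZ S (tw (1 / 2 + (starRingEnd ℂ) b₁) f) *
      ZZ S (tw (1 / 2 + (starRingEnd ℂ) b₂) f))

lemma bs_one (hS : ∀ p ∈ S, p.Prime) {w : ℂ} (hw : ‖w‖ ≤ 1 / 4) :
    BS S (fun f => ZZ S (tw (1 / 2 + w) f)) := by
  have h1 : |w.re| ≤ 1 / 4 := (Complex.abs_re_le_norm w).trans hw
  have h2 := (abs_le.mp h1).1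
  refine bs_ZZ hS ?_
  simp only [Complex.add_re]
  norm_num
  linarith

lemma bs_ZP4 (hS : ∀ p ∈ S, p.Prime) {a₁ a₂ b₁ b₂ : ℂ} (h1 : ‖a₁‖ ≤ 1 / 4) (h2 : ‖a₂‖ ≤ 1 / 4)
    (h3 : ‖b₁‖ ≤ 1 / 4) (h4 : ‖b₂‖ ≤ 1 / 4) : BS S (ZP4 S a₁ a₂ b₁ b₂) := by
  have h3' : ‖(starRingEnd ℂ) b₁‖ ≤ 1 / 4 := by rwa [Complex.norm_conj]
  have h4' : ‖(starRingEnd ℂ) b₂‖ ≤ 1 / 4 := by rwa [Complex.norm_conj]
  exact ((bs_one hS h1).mul (bs_one hS h2)).mul ((bs_one hS h3').mul (bs_one hS h4')).conj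

lemma E4_lin (hS : ∀ p ∈ S, p.Prime) {a₁ a₂ b₁ b₂ : ℂ} (h1 : ‖a₁‖ ≤ 1 / 4) (h2 : ‖a₂‖ ≤ 1 / 4)
    (h3 : ‖b₁‖ ≤ 1 / 4) (h4 : ‖b₂‖ ≤ 1 / 4) (s : ℝ) (d : ℕ) (a : ℕ → ℝ) :
    E4 S (fun f => ((∑ j ∈ Finset.range d, a j * Y S s j f : ℝ) : ℂ)) a₁ a₂ b₁ b₂ =
      ∑ j ∈ Finset.range d, (a j : ℂ) * E4 S (fun f => ((Y S s j f : ℝ) : ℂ)) a₁ a₂ b₁ b₂ := by
  have e1 : (fun f => ZP4 S a₁ a₂ b₁ b₂ f * ((∑ j ∈ Finset.range d, a j * Y S s j f : ℝ) : ℂ)) =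
      fun f => ∑ j ∈ Finset.range d, (a j : ℂ) * (ZP4 S a₁ a₂ b₁ b₂ f * ((Y S s j f : ℝ) : ℂ)) := by
    funext f
    rw [Complex.ofReal_sum, Finset.mul_sum]
    refine Finset.sum_congr rfl fun j _ => ?_
    push_cast
    ring
  have e2 : ES S (fun f => ZP4 S a₁ a₂ b₁ b₂ f *
      ((∑ j ∈ Finset.range d, a j * Y S s j f : ℝ) : ℂ)) =
      ∑ j ∈ Finset.range d, (a j : ℂ) *
        ES S (fun f => ZP4 S a₁ a₂ b₁ b₂ f * ((Y S s j f : ℝ) : ℂ)) := by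
    rw [e1, ES_sum _ _ fun j _ =>
      (bs_const S (a j : ℂ)).mul ((bs_ZP4 hS h1 h2 h3 h4).mul (bs_ofReal (bs_Y S s j)))]
    refine Finset.sum_congr rfl fun j _ => ?_
    exact integral_const_mul _ _
  change ES S (fun f => ZP4 S a₁ a₂ b₁ b₂ f *
      ((∑ j ∈ Finset.range d, a j * Y S s j f : ℝ) : ℂ)) * NF S a₁ a₂ b₁ b₂ =
    ∑ j ∈ Finset.range d, (a j : ℂ) *
      (ES S (fun f => ZP4 S a₁ a₂ b₁ b₂ f * ((Y S s j f : ℝ) : ℂ)) * NF S a₁ a₂ b₁ b₂)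
  rw [e2, Finset.sum_mul]
  refine Finset.sum_congr rfl fun j _ => ?_
  ring

lemma key4 (h : StGauss4) {lo hi U : ℝ} (s : ℝ) (h0 : 0 < lo) (h1 : lo < hi) (h2 : hi ≤ 1)
    (hU : 0 < U) (d : ℕ) (a : ℕ → ℝ) {ε : ℝ} (hε : 0 < ε) : ∃ T₀ : ℝ, 3 ≤ T₀ ∧ ∀ T, T₀ ≤ T →
    ∀ S : Finset ℕ, S = PS (Real.exp (lo * Real.log T)) (Real.exp (hi * Real.log T)) →
    ∀ u₁ u₂ u₃ u₄ : ℂ, ‖u₁‖ ≤ U → ‖u₂‖ ≤ U → ‖u₃‖ ≤ U → ‖u₄‖ ≤ U →
    ‖E4 S (fun f => ((∑ j ∈ Finset.range d, a j * Y S s j f : ℝ) : ℂ)) (u₁ / Real.log T)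
        (u₂ / Real.log T) (u₃ / Real.log T) (u₄ / Real.log T) -
      ∑ j ∈ Finset.range d, (a j : ℂ) *
        mom j (1 / 2 * (vv lo hi u₁ + vv lo hi u₂ + vv lo hi u₃ + vv lo hi u₄) - s)
          ((Real.log (hi / lo) / 2 : ℝ) : ℂ)‖ ≤ ε := by
  set A : ℝ := 1 + ∑ j ∈ Finset.range d, |a j| with hA
  have hA1 : 1 ≤ A := by
    have : 0 ≤ ∑ j ∈ Finset.range d, |a j| := Finset.sum_nonneg fun j _ => abs_nonneg _
    linarith
  have hε' : 0 < ε / A := by positivity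
  have hAe : (∑ j ∈ Finset.range d, |a j|) * (ε / A) ≤ ε := by
    have : (∑ j ∈ Finset.range d, |a j|) ≤ A := by linarith
    calc (∑ j ∈ Finset.range d, |a j|) * (ε / A) ≤ A * (ε / A) :=
          mul_le_mul_of_nonneg_right this hε'.le
      _ = ε := by field_simp
  choose T₁ hT₁ hT₂ using fun j : ℕ => h lo hi s U h0 h1 h2 hU j (ε / A) hε'
  refine ⟨3 + Real.exp (4 * U) + ∑ j ∈ Finset.range d, T₁ j, ?_, ?_⟩
  · have : 0 ≤ ∑ j ∈ Finset.range d, T₁ j := Finset.sum_nonneg fun j _ => by linarith [hT₁ j]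
    have := Real.exp_pos (4 * U)
    linarith
  intro T hT S hS
  have hsum : 0 ≤ ∑ j ∈ Finset.range d, T₁ j := Finset.sum_nonneg fun j _ => by linarith [hT₁ j]
  have hTj : ∀ j ∈ Finset.range d, T₁ j ≤ T := by
    intro j hj
    have h3 := Finset.single_le_sum (f := T₁) (fun i _ => by linarith [hT₁ i]) hj
    have := Real.exp_pos (4 * U)
    linarith
  have hlog : 4 * U ≤ Real.log T := by
    have h3 : Real.exp (4 * U) ≤ T := by linarith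
    rw [Real.le_log_iff_exp_le (by linarith [Real.exp_pos (4 * U)])]
    exact h3
  have hprime : ∀ p ∈ S, p.Prime := by
    intro p hp
    rw [hS] at hp
    exact PS_prime hp
  have hw : ∀ u : ℂ, ‖u‖ ≤ U → ‖u / (Real.log T : ℂ)‖ ≤ 1 / 4 := by
    intro u hu
    rw [norm_div, Complex.norm_real, Real.norm_eq_abs, abs_of_pos (by linarith)]
    rw [div_le_div_iff₀ (by linarith) (by norm_num)]
    linarith
  intro u₁ u₂ u₃ u₄ g1 g2 g3 g4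
  rw [E4_lin hprime (hw u₁ g1) (hw u₂ g2) (hw u₃ g3) (hw u₄ g4), ← Finset.sum_sub_distrib]
  refine (norm_sum_le _ _).trans (le_trans ?_ hAe)
  rw [Finset.sum_mul]
  refine Finset.sum_le_sum fun j hj => ?_
  have h3 := hT₂ j T (hTj j hj) S hS u₁ u₂ u₃ u₄ g1 g2 g3 g4
  rw [← mul_sub, norm_mul, Complex.norm_real, Real.norm_eq_abs]
  exact mul_le_mul_of_nonneg_left h3 (abs_nonneg _)

lemma tq_lt (i : ℕ) : tq (i + 1) < tq i := mul_lt_mul_of_pos_right (tb_lt i) (Real.exp_pos _)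

lemma tq_le_one (i : ℕ) : tq i ≤ 1 :=
  mul_le_one₀ (tb_le_one i) (Real.exp_pos _).le (Real.exp_le_one_iff.mpr (by norm_num))

end T4

open K5.TLaux T4 in
/-- (R9) -/
theorem stTop4 (h : StGauss4) : StTop4 := by
  intro κ hk hk1 i U ε hU hε
  set s : ℝ := (2 - κ) * Vv i with hs
  set aF' : ℕ → ℝ := fun j => (-(2 * (1 - κ))) ^ j / j.factorial +
    (if j = dg i then K5.eta (1 - κ) (dg i) * 2 ^ dg i else 0) with haF
  obtain ⟨T₁, hT₁, h1⟩ := key4 h s (Blk7.tq_pos (i + 1)) (tq_lt i) (tq_le_one i) hU (dg i + 1)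
    aF' hε
  refine ⟨T₁, hT₁, fun T hT u₁ u₂ u₃ u₄ g1 g2 g3 g4 => ?_⟩
  have h3 := h1 T hT (UQ T i) rfl u₁ u₂ u₃ u₄ g1 g2 g3 g4
  have e1 : ∀ f : ℕ → ℂ, pf κ i (Xq T i (tw (1 / 2) f) - Vv i) =
      ∑ j ∈ Finset.range (dg i + 1), aF' j * Y (UQ T i) s j f := by
    intro f
    have e0 : Xq T i (tw (1 / 2) f) - Vv i - (1 - κ) * Vv i =
        (∑ p ∈ UQ T i, tw (1 / 2) f p).re - s := by
      unfold Xq
      rw [hs]
      ring
    unfold pf Tp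
    rw [haF, e0]
    simp only [add_mul, Finset.sum_add_distrib, ite_mul, zero_mul, Finset.sum_ite_eq',
      Finset.mem_range, Nat.lt_succ_self, if_true]
    congr 1
    · refine Finset.sum_congr rfl fun j _ => ?_
      unfold Y
      rw [← neg_mul, mul_pow]
      ring
    · unfold Y
      rw [mul_pow]
      ring
  have e3 : PhF κ i (1 / 2 * (vv (tq (i + 1)) (tq i) u₁ + vv (tq (i + 1)) (tq i) u₂ +
      vv (tq (i + 1)) (tq i) u₃ + vv (tq (i + 1)) (tq i) u₄) - ((Vv i : ℝ) : ℂ)) =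
      ∑ j ∈ Finset.range (dg i + 1), (aF' j : ℂ) *
        mom j (1 / 2 * (vv (tq (i + 1)) (tq i) u₁ + vv (tq (i + 1)) (tq i) u₂ +
          vv (tq (i + 1)) (tq i) u₃ + vv (tq (i + 1)) (tq i) u₄) - (s : ℂ))
          ((Real.log (tq i / tq (i + 1)) / 2 : ℝ) : ℂ) := by
    rw [Blk7.log_tq]
    unfold PhF
    have e0 : 1 / 2 * (vv (tq (i + 1)) (tq i) u₁ + vv (tq (i + 1)) (tq i) u₂ +
        vv (tq (i + 1)) (tq i) u₃ + vv (tq (i + 1)) (tq i) u₄) - ((Vv i : ℝ) : ℂ) -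
          (((1 - κ) * Vv i : ℝ) : ℂ) =
        1 / 2 * (vv (tq (i + 1)) (tq i) u₁ + vv (tq (i + 1)) (tq i) u₂ +
          vv (tq (i + 1)) (tq i) u₃ + vv (tq (i + 1)) (tq i) u₄) - (s : ℂ) := by
      rw [hs]
      push_cast
      ring
    rw [haF, e0]
    simp only [Complex.ofReal_add, add_mul, Finset.sum_add_distrib, apply_ite Complex.ofReal,
      Complex.ofReal_zero, ite_mul, zero_mul, Finset.sum_ite_eq', Finset.mem_range,
      Nat.lt_succ_self, if_true]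
    congr 1
    refine Finset.sum_congr rfl fun j _ => ?_
    push_cast
    rfl
  unfold ET4
  simp only [e1]
  rw [e3]
  exact h3

end K7
end Pool.Agent.Lib.MP_973905_nt
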