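import Pool.Agent.Lib.MP_973905_nt.K7.Base
import Pool.Agent.Lib.MP_973905_nt.K5.Hold

/-! Module (S9b) of folder K7: positivity, continuity and size of the weights. -/

namespace Pool.Agent.Lib.MP_973905_nt
namespace K7

open MeasureTheory ProbabilityTheory Complex Filter Topology K1 K4 K5

namespace WBm

lemma norm_fs_line {n : ℕ} (hn : 1 ≤ n) (t : ℝ) :
    ‖fs (1 / 2 + t * I) n‖ = (n : ℝ) ^ (-(1 / 2) : ℝ) := by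
  unfold fs
  rw [Complex.norm_natCast_cpow_of_pos hn]
  congr 1
  simp

lemma sum_inv_le (N : ℕ) {T : ℝ} (hN : (N : ℝ) ≤ T) (hT : 1 ≤ T) :
    ∑ m ∈ Finset.Icc 1 N, (m : ℝ)⁻¹ ≤ 1 + Real.log T := by
  have h1 := harmonic_le_one_add_log N
  rw [harmonic_eq_sum_Icc] at h1
  push_cast at h1
  refine h1.trans ?_
  rcases Nat.eq_zero_or_pos N with h0 | h0
  · subst h0
    simp only [Nat.cast_zero, Real.log_zero, add_zero]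
    have := Real.log_nonneg hT
    linarith
  · have h2 : (0 : ℝ) < N := by exact_mod_cast h0
    have := Real.log_le_log h2 hN
    linarith

lemma term_le {Z Q m n c a b : ℝ} (hm : 0 < m) (hn : 0 < n) (hQ : 0 ≤ Q)
    (hc : c ≤ Q) (hmn : m * n ≤ Z) (ha : a = m ^ (-(1 / 2) : ℝ)) (hb : b = n ^ (-(1 / 2) : ℝ)) :
    c * (a * b) ≤ Q * Z ^ (1 / 2 : ℝ) * (m⁻¹ * n⁻¹) := by
  have h1 : a * b = (m * n) ^ (1 / 2 : ℝ) * (m⁻¹ * n⁻¹) := by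
    rw [ha, hb, ← Real.mul_rpow hm.le hn.le, ← mul_inv]
    have h2 : (m * n)⁻¹ = (m * n) ^ (-1 : ℝ) := by rw [Real.rpow_neg_one]
    rw [h2, ← Real.rpow_add (mul_pos hm hn)]
    norm_num
  have h3 : (m * n) ^ (1 / 2 : ℝ) ≤ Z ^ (1 / 2 : ℝ) :=
    Real.rpow_le_rpow (mul_pos hm hn).le hmn (by norm_num)
  rw [h1]
  have h4 : 0 ≤ (m * n) ^ (1 / 2 : ℝ) * (m⁻¹ * n⁻¹) := by positivity
  calc c * ((m * n) ^ (1 / 2 : ℝ) * (m⁻¹ * n⁻¹))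
      ≤ Q * ((m * n) ^ (1 / 2 : ℝ) * (m⁻¹ * n⁻¹)) := mul_le_mul_of_nonneg_right hc h4
    _ ≤ Q * (Z ^ (1 / 2 : ℝ) * (m⁻¹ * n⁻¹)) := by
        apply mul_le_mul_of_nonneg_left _ hQ
        exact mul_le_mul_of_nonneg_right h3 (by positivity)
    _ = _ := by ring

lemma GB_le {Z Q T : ℝ} {c : ℕ → ℕ → ℂ} (hQ : 0 ≤ Q) (hc : ∀ m n, ‖c m n‖ ≤ Q)
    (hz : ∀ m n : ℕ, Z < (m : ℝ) * n → c m n = 0) (hZ : 0 ≤ Z) (hZT : Z ≤ T) (hT : 1 ≤ T)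
    (t : ℝ) :
    ‖GB ⌊Z⌋₊ c (fs (1 / 2 + t * I))‖ ≤ Q * Z ^ (1 / 2 : ℝ) * (1 + Real.log T) ^ 2 := by
  unfold GB
  have h1 : ∀ m ∈ Finset.Icc 1 ⌊Z⌋₊, ∀ n ∈ Finset.Icc 1 ⌊Z⌋₊,
      ‖c m n * (fs (1 / 2 + t * I) m * (starRingEnd ℂ) (fs (1 / 2 + t * I) n))‖ ≤
        Q * Z ^ (1 / 2 : ℝ) * ((m : ℝ)⁻¹ * (n : ℝ)⁻¹) := by
    intro m hm n hn
    rw [Finset.mem_Icc] at hm hn
    have hm0 : (0 : ℝ) < m := by exact_mod_cast hm.1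
    have hn0 : (0 : ℝ) < n := by exact_mod_cast hn.1
    by_cases hmn : Z < (m : ℝ) * n
    · rw [hz m n hmn, zero_mul, norm_zero]
      positivity
    · rw [norm_mul, norm_mul, Complex.norm_conj]
      exact term_le hm0 hn0 hQ (hc m n) (not_lt.mp hmn) (norm_fs_line hm.1 t)
        (norm_fs_line hn.1 t)
  have h2 : ‖∑ m ∈ Finset.Icc 1 ⌊Z⌋₊, ∑ n ∈ Finset.Icc 1 ⌊Z⌋₊,
      c m n * (fs (1 / 2 + t * I) m * (starRingEnd ℂ) (fs (1 / 2 + t * I) n))‖ ≤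
      ∑ m ∈ Finset.Icc 1 ⌊Z⌋₊, ∑ n ∈ Finset.Icc 1 ⌊Z⌋₊,
        Q * Z ^ (1 / 2 : ℝ) * ((m : ℝ)⁻¹ * (n : ℝ)⁻¹) := by
    refine (norm_sum_le _ _).trans (Finset.sum_le_sum fun m hm => ?_)
    exact (norm_sum_le _ _).trans (Finset.sum_le_sum fun n hn => h1 m hm n hn)
  refine h2.trans ?_
  have h3 : ∑ m ∈ Finset.Icc 1 ⌊Z⌋₊, ∑ n ∈ Finset.Icc 1 ⌊Z⌋₊,
        Q * Z ^ (1 / 2 : ℝ) * ((m : ℝ)⁻¹ * (n : ℝ)⁻¹) =
      Q * Z ^ (1 / 2 : ℝ) * (∑ m ∈ Finset.Icc 1 ⌊Z⌋₊, (m : ℝ)⁻¹) ^ 2 := by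
    rw [pow_two, Finset.sum_mul_sum, Finset.mul_sum]
    refine Finset.sum_congr rfl fun m _ => ?_
    rw [Finset.mul_sum]
  rw [h3]
  have h4 : (⌊Z⌋₊ : ℝ) ≤ T := (Nat.floor_le hZ).trans hZT
  have h5 := sum_inv_le ⌊Z⌋₊ h4 hT
  have h6 : 0 ≤ ∑ m ∈ Finset.Icc 1 ⌊Z⌋₊, (m : ℝ)⁻¹ := Finset.sum_nonneg fun m _ => by positivity
  apply mul_le_mul_of_nonneg_left _ (by positivity)
  exact pow_le_pow_left₀ h6 h5 2

lemma large : ∃ T₁ : ℝ, 3 ≤ T₁ ∧ ∀ T : ℝ, T₁ ≤ T →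
    T ^ (1 / 2000 : ℝ) * (T ^ (1 / 60 : ℝ)) ^ (1 / 2 : ℝ) * (1 + Real.log T) ^ 2 ≤
      T ^ (1 / 100 : ℝ) := by
  have h1 : (fun x : ℝ => Real.log x) =o[atTop] fun x : ℝ => x ^ (1 / 2000 : ℝ) :=
    isLittleO_log_rpow_atTop (by norm_num)
  have h2 := h1.bound (show (0 : ℝ) < 1 / 2 by norm_num)
  have h3 : ∀ᶠ x : ℝ in atTop, (2 : ℝ) ≤ x ^ (1 / 2000 : ℝ) :=
    (tendsto_rpow_atTop (by norm_num : (0 : ℝ) < 1 / 2000)).eventually_ge_atTop 2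
  obtain ⟨T₁, hT₁⟩ := Filter.eventually_atTop.mp (h2.and h3)
  refine ⟨max 3 T₁, le_max_left _ _, fun T hT => ?_⟩
  obtain ⟨h4, h5⟩ := hT₁ T ((le_max_right _ _).trans hT)
  have hT3 : 3 ≤ T := (le_max_left _ _).trans hT
  have hT0 : 0 < T := by linarith
  have hL : 0 ≤ Real.log T := Real.log_nonneg (by linarith)
  rw [Real.norm_of_nonneg hL, Real.norm_of_nonneg (by positivity)] at h4
  have h6 : 1 + Real.log T ≤ T ^ (1 / 2000 : ℝ) := by linarith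
  have h7 : (1 + Real.log T) ^ 2 ≤ (T ^ (1 / 2000 : ℝ)) ^ 2 :=
    pow_le_pow_left₀ (by linarith) h6 2
  calc T ^ (1 / 2000 : ℝ) * (T ^ (1 / 60 : ℝ)) ^ (1 / 2 : ℝ) * (1 + Real.log T) ^ 2
      ≤ T ^ (1 / 2000 : ℝ) * (T ^ (1 / 60 : ℝ)) ^ (1 / 2 : ℝ) * (T ^ (1 / 2000 : ℝ)) ^ 2 := by
        gcongr
    _ = T ^ (1 / 2000 + 1 / 60 * (1 / 2) + 1 / 2000 * 2 : ℝ) := by
        rw [← Real.rpow_mul hT0.le, ← Real.rpow_natCast (T ^ (1 / 2000 : ℝ)) 2,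
          ← Real.rpow_mul hT0.le, ← Real.rpow_add hT0, ← Real.rpow_add hT0]
        norm_num
    _ ≤ T ^ (1 / 100 : ℝ) := Real.rpow_le_rpow_of_exponent_le (by linarith) (by norm_num)

lemma gen {T : ℝ} (hT : 3 ≤ T)
    (hl : T ^ (1 / 2000 : ℝ) * (T ^ (1 / 60 : ℝ)) ^ (1 / 2 : ℝ) * (1 + Real.log T) ^ 2 ≤
      T ^ (1 / 100 : ℝ)) (W : (ℕ → ℂ) → ℝ)
    (h : BQ (T ^ (1 / 60 : ℝ)) (T ^ (1 / 2000 : ℝ)) (fun f => ((W f : ℝ) : ℂ))) :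
    (Continuous fun t : ℝ => W (fs (1 / 2 + t * I))) ∧
      ∀ t : ℝ, W (fs (1 / 2 + t * I)) ≤ T ^ (1 / 100 : ℝ) := by
  obtain ⟨c, hc, hz, hG⟩ := h
  have h1 : ∀ t : ℝ, ((W (fs (1 / 2 + t * I)) : ℝ) : ℂ) =
      GB ⌊T ^ (1 / 60 : ℝ)⌋₊ c (fs (1 / 2 + t * I)) := fun t => hG _ (cmul_fs _)
  constructor
  · have h2 : (fun t : ℝ => W (fs (1 / 2 + t * I))) =
        fun t : ℝ => (GB ⌊T ^ (1 / 60 : ℝ)⌋₊ c (fs (1 / 2 + t * I))).re := by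
      funext t
      rw [← h1 t, ofReal_re]
    rw [h2]
    apply Complex.continuous_re.comp
    unfold GB
    refine continuous_finsetSum _ fun m hm => continuous_finsetSum _ fun n hn => ?_
    have hm' : m ≠ 0 := by have := (Finset.mem_Icc.mp hm).1; omega
    have hn' : n ≠ 0 := by have := (Finset.mem_Icc.mp hn).1; omega
    exact continuous_const.mul ((HoldAux.fs_line hm').1.mul
      (Complex.continuous_conj.comp (HoldAux.fs_line hn').1))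
  · intro t
    have h2 : W (fs (1 / 2 + t * I)) ≤ ‖((W (fs (1 / 2 + t * I)) : ℝ) : ℂ)‖ := by
      rw [Complex.norm_real]
      exact le_abs_self _
    rw [h1 t] at h2
    refine h2.trans ((GB_le (by positivity) hc hz (by positivity) ?_ (by linarith) t).trans hl)
    calc T ^ (1 / 60 : ℝ) ≤ T ^ (1 : ℝ) :=
          Real.rpow_le_rpow_of_exponent_le (by linarith) (by norm_num)
      _ = T := Real.rpow_one T

end WBm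

/-- (S9b) positivity, continuity and size of the weights -/
theorem stWB (hq : StBQ7) (hp : K5.StPoint) : StWB := by
  intro κ hκ0 hκ1
  obtain ⟨M₀, hM₀, hq⟩ := hq κ hκ0 hκ1
  obtain ⟨T₁, hT₁3, hT₁⟩ := WBm.large
  refine ⟨M₀, hM₀, fun M hM => ?_⟩
  obtain ⟨T₀, hT₀3, hq⟩ := hq M hM
  refine ⟨max T₀ T₁, hT₀3.trans (le_max_left _ _), fun T hT g h => ?_⟩
  have hTT := (le_max_left _ _).trans hT
  have hl := hT₁ T ((le_max_right _ _).trans hT)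
  have hT3 : 3 ≤ T := hT₀3.trans hTT
  obtain ⟨hF, hG⟩ := hq T hTT g h
  obtain ⟨hFc, hFb⟩ := WBm.gen hT3 hl (fun f => WF κ T M g h f) hF
  obtain ⟨hGc, hGb⟩ := WBm.gen hT3 hl (fun f => WG κ T M g h f) hG
  refine ⟨fun f => ?_, fun f => ?_, hFc, hGc, hFb, hGb⟩
  · unfold WF TFq
    exact mul_nonneg (sq_nonneg _) (Finset.prod_nonneg fun i _ => (hp κ i _ hκ0 hκ1).1.le)
  · unfold WG TGq
    exact mul_nonneg (sq_nonneg _) (Finset.prod_nonneg fun i _ => (hp κ i _ hκ0 hκ1).2.1.le)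

end K7
end Pool.Agent.Lib.MP_973905_nt
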