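import Pool.Agent.Lib.MP_973905_nt.K7.Stmts

/-! Module R16 of folder K7: Young's inequality for three functions. -/

namespace Pool.Agent.Lib.MP_973905_nt
namespace K7

open MeasureTheory
open scoped ENNReal

namespace YoungM

lemma expo (x : ℝ≥0∞) {r u v : ℝ} (hu : 0 ≤ u) (hv : 0 ≤ v)
    (h : r * (u + v) = 1) : (x ^ r) ^ u * (x ^ r) ^ v = x := by
  rw [← ENNReal.rpow_add_of_nonneg _ _ hu hv, ← ENNReal.rpow_mul, h, ENNReal.rpow_one]

lemma meas_prod (K : ℝ → ℝ≥0∞) (hK : Measurable K) :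
    Measurable (fun z : ℝ × ℝ => K (z.1 - z.2)) :=
  hK.comp (measurable_fst.sub measurable_snd)

end YoungM

open YoungM in
theorem stYoung : StYoung := by
  intro p r s hp hr hs hsum a b K ha hb hK
  have hp0 : 0 < p := by linarith
  have hr0 : 0 < r := by linarith
  have hs0 : 0 < s := by linarith
  have hp1 : 1 / p ≤ 1 := by rw [div_le_one hp0]; exact hp
  have hr1 : 1 / r ≤ 1 := by rw [div_le_one hr0]; exact hr
  have hs1 : 1 / s ≤ 1 := by rw [div_le_one hs0]; exact hs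
  set w1 : ℝ := 1 - 1 / p with hw1
  set w2 : ℝ := 1 - 1 / s with hw2
  set w3 : ℝ := 1 - 1 / r with hw3
  have h1 : 0 ≤ w1 := by linarith
  have h2 : 0 ≤ w2 := by linarith
  have h3 : 0 ≤ w3 := by linarith
  have e12 : w1 + w2 = 1 / r := by simp only [hw1, hw2]; linarith
  have e13 : w1 + w3 = 1 / s := by simp only [hw1, hw3]; linarith
  have e23 : w2 + w3 = 1 / p := by simp only [hw2, hw3]; linarith
  set f : Fin 3 → ℝ × ℝ → ℝ≥0∞ := ![fun z => a z.1 ^ r * b z.2 ^ s,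
    fun z => a z.1 ^ r * K (z.1 - z.2) ^ p, fun z => b z.2 ^ s * K (z.1 - z.2) ^ p] with hf
  have hKm := meas_prod K hK
  have ma : Measurable (fun z : ℝ × ℝ => a z.1 ^ r) := (ha.comp measurable_fst).pow_const r
  have mb : Measurable (fun z : ℝ × ℝ => b z.2 ^ s) := (hb.comp measurable_snd).pow_const s
  have mK : Measurable (fun z : ℝ × ℝ => K (z.1 - z.2) ^ p) := hKm.pow_const p
  have mf : ∀ i, Measurable (f i) := by
    intro i
    fin_cases i
    · exact ma.mul mb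
    · exact ma.mul mK
    · exact mb.mul mK
  have key := ENNReal.lintegral_prod_norm_pow_le (μ := (volume : Measure (ℝ × ℝ)))
    (Finset.univ : Finset (Fin 3)) (f := f) (fun i _ => (mf i).aemeasurable)
    (p := ![w1, w2, w3]) (by
      simp only [Fin.sum_univ_three, Matrix.cons_val_zero, Matrix.cons_val_one, Matrix.cons_val]
      simp only [hw1, hw2, hw3]; linarith) (by
      intro i _
      fin_cases i
      · exact h1
      · exact h2
      · exact h3)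
  simp only [Fin.prod_univ_three, Matrix.cons_val_zero, Matrix.cons_val_one, Matrix.cons_val,
    hf] at key
  have hpt : ∀ z : ℝ × ℝ, (a z.1 ^ r * b z.2 ^ s) ^ w1 * (a z.1 ^ r * K (z.1 - z.2) ^ p) ^ w2 *
      (b z.2 ^ s * K (z.1 - z.2) ^ p) ^ w3 = a z.1 * b z.2 * K (z.1 - z.2) := by
    intro z
    rw [ENNReal.mul_rpow_of_nonneg _ _ h1, ENNReal.mul_rpow_of_nonneg _ _ h2,
      ENNReal.mul_rpow_of_nonneg _ _ h3]
    have ea := expo (a z.1) h1 h2 (by rw [e12]; field_simp)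
    have eb := expo (b z.2) h1 h3 (by rw [e13]; field_simp)
    have eK := expo (K (z.1 - z.2)) h2 h3 (by rw [e23]; field_simp)
    calc (a z.1 ^ r) ^ w1 * (b z.2 ^ s) ^ w1 * ((a z.1 ^ r) ^ w2 * (K (z.1 - z.2) ^ p) ^ w2) *
          ((b z.2 ^ s) ^ w3 * (K (z.1 - z.2) ^ p) ^ w3)
        = ((a z.1 ^ r) ^ w1 * (a z.1 ^ r) ^ w2) * ((b z.2 ^ s) ^ w1 * (b z.2 ^ s) ^ w3) *
          ((K (z.1 - z.2) ^ p) ^ w2 * (K (z.1 - z.2) ^ p) ^ w3) := by ring
      _ = _ := by rw [ea, eb, eK]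
  simp_rw [hpt] at key
  have hL : ∫⁻ z : ℝ × ℝ, a z.1 * b z.2 * K (z.1 - z.2) =
      ∫⁻ ξ, ∫⁻ η, a ξ * b η * K (ξ - η) := by
    rw [Measure.volume_eq_prod, lintegral_prod]
    exact (((ha.comp measurable_fst).mul (hb.comp measurable_snd)).mul hKm).aemeasurable
  have hI1 : ∫⁻ z : ℝ × ℝ, a z.1 ^ r * b z.2 ^ s = (∫⁻ ξ, a ξ ^ r) * ∫⁻ η, b η ^ s := by
    rw [Measure.volume_eq_prod, lintegral_prod_mul (ha.pow_const r).aemeasurable
      (hb.pow_const s).aemeasurable]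
  have hI2 : ∫⁻ z : ℝ × ℝ, a z.1 ^ r * K (z.1 - z.2) ^ p = (∫⁻ ξ, a ξ ^ r) * ∫⁻ η, K η ^ p := by
    have hm : Measurable (fun z : ℝ × ℝ => a z.1 ^ r * K (z.1 - z.2) ^ p) := ma.mul mK
    rw [Measure.volume_eq_prod, lintegral_prod _ hm.aemeasurable]
    have : ∀ ξ : ℝ, ∫⁻ η : ℝ, a ξ ^ r * K (ξ - η) ^ p = a ξ ^ r * ∫⁻ η, K η ^ p := by
      intro ξ
      have hc : Measurable (fun η : ℝ => K (ξ - η) ^ p) :=
        (hK.comp (measurable_const.sub measurable_id)).pow_const p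
      rw [lintegral_const_mul _ hc]
      congr 1
      exact lintegral_sub_left_eq_self (fun η => K η ^ p) ξ
    simp_rw [this]
    rw [lintegral_mul_const _ (ha.pow_const r)]
  have hI3 : ∫⁻ z : ℝ × ℝ, b z.2 ^ s * K (z.1 - z.2) ^ p = (∫⁻ η, b η ^ s) * ∫⁻ ξ, K ξ ^ p := by
    have hm : Measurable (fun z : ℝ × ℝ => b z.2 ^ s * K (z.1 - z.2) ^ p) := mb.mul mK
    rw [Measure.volume_eq_prod, lintegral_prod_symm _ hm.aemeasurable]
    have : ∀ η : ℝ, ∫⁻ ξ : ℝ, b η ^ s * K (ξ - η) ^ p = b η ^ s * ∫⁻ ξ, K ξ ^ p := by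
      intro η
      have hc : Measurable (fun ξ : ℝ => K (ξ - η) ^ p) :=
        (hK.comp (measurable_id.sub measurable_const)).pow_const p
      rw [lintegral_const_mul _ hc]
      congr 1
      exact lintegral_sub_right_eq_self (fun ξ => K ξ ^ p) η
    simp_rw [this]
    rw [lintegral_mul_const _ (hb.pow_const s)]
  rw [hL, hI1, hI2, hI3] at key
  refine key.trans (le_of_eq ?_)
  rw [ENNReal.mul_rpow_of_nonneg _ _ h1, ENNReal.mul_rpow_of_nonneg _ _ h2,
    ENNReal.mul_rpow_of_nonneg _ _ h3, ← e12, ← e13, ← e23,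
    ENNReal.rpow_add_of_nonneg _ _ h1 h2, ENNReal.rpow_add_of_nonneg _ _ h1 h3,
    ENNReal.rpow_add_of_nonneg _ _ h2 h3]
  ring

end K7
end Pool.Agent.Lib.MP_973905_nt
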