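import Pool.Agent.Lib.MP_973905_nt.K7.Stmts
import Pool.Agent.Lib.MP_973905_nt.XBound

/-! Module R12b (first part): the product at `2`. -/

namespace Pool.Agent.Lib.MP_973905_nt
namespace K7

open MeasureTheory ProbabilityTheory Complex Filter Topology K1 K4 K5

namespace ZTM

lemma exp_sub_one_le {y : ℝ} : Real.exp y - 1 ≤ y * Real.exp y := by
  have h5 := Real.add_one_le_exp (-y)
  have h6 : Real.exp (-y) * Real.exp y = 1 := by rw [← Real.exp_add]; simp
  have h7 : 0 < Real.exp y := Real.exp_pos y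
  nlinarith

lemma PS_eq (T : ℝ) : PS 0 T = Nat.primesBelow (⌊T⌋₊ + 1) := by
  ext p
  rw [PS, Nat.mem_primesBelow, Finset.mem_filter, Finset.mem_Ioc, Nat.floor_zero]
  constructor
  · rintro ⟨⟨_, h⟩, h2⟩
    exact ⟨by omega, h2⟩
  · rintro ⟨h, h2⟩
    exact ⟨⟨h2.pos, by omega⟩, h2⟩

/-- the product at `2` -/
noncomputable def P2 (T : ℝ) : ℝ := ∏ p ∈ PS 0 T, (1 - ((p : ℝ) ^ 2)⁻¹)

lemma P2_tendsto : Tendsto P2 atTop (𝓝 (6 / Real.pi ^ 2)) := by
  have h1 := riemannZeta_eulerProduct (s := 2) (by norm_num)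
  rw [riemannZeta_two] at h1
  have h2 : Tendsto (fun T : ℝ => (∏ p ∈ PS 0 T, (1 - (p : ℂ) ^ (-(2 : ℂ)))⁻¹)⁻¹) atTop
      (𝓝 ((Real.pi : ℂ) ^ 2 / 6)⁻¹) := by
    refine Tendsto.inv₀ ?_ ?_
    · have h3 : Tendsto (fun T : ℝ => ⌊T⌋₊ + 1) atTop atTop :=
        (tendsto_add_atTop_nat 1).comp tendsto_nat_floor_atTop
      have h4 := h1.comp h3
      refine h4.congr fun T => ?_
      rw [PS_eq]
      rfl
    · have : (Real.pi : ℂ) ≠ 0 := by exact_mod_cast Real.pi_ne_zero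
      exact div_ne_zero (pow_ne_zero _ this) (by norm_num)
  have h4 := (Complex.continuous_re.tendsto _).comp h2
  have h5 : (((Real.pi : ℂ) ^ 2 / 6)⁻¹).re = 6 / Real.pi ^ 2 := by
    have : ((Real.pi : ℂ) ^ 2 / 6)⁻¹ = ((6 / Real.pi ^ 2 : ℝ) : ℂ) := by
      push_cast
      rw [inv_div]
    rw [this, Complex.ofReal_re]
  rw [h5] at h4
  refine h4.congr fun T => ?_
  simp only [Function.comp]
  have h6 : (∏ p ∈ PS 0 T, (1 - (p : ℂ) ^ (-(2 : ℂ)))⁻¹)⁻¹ = ((P2 T : ℝ) : ℂ) := by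
    rw [Finset.prod_inv_distrib, inv_inv, P2, Complex.ofReal_prod]
    refine Finset.prod_congr rfl fun p _ => ?_
    push_cast
    congr 1
    rw [Complex.cpow_neg]
    congr 1
    norm_cast
  rw [h6, Complex.ofReal_re]

/-- one factor -/
lemma factor_le {L U : ℝ} (hL : 1 ≤ L) (hU : 0 < U) {p : ℕ} (hp : p.Prime)
    (hpL : Real.log p ≤ L) {c : ℂ} (hc : ‖c‖ ≤ U) :
    ‖1 - (p : ℂ) ^ (-(2 + c / L))‖ ≤
      (1 - ((p : ℝ) ^ 2)⁻¹) * Real.exp (4 / 3 * (U * Real.exp U / L) * (Real.log p * ((p : ℝ) ^ 2)⁻¹)) := by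
  have hL0 : 0 < L := by linarith
  have hp0 : (0 : ℝ) < p := by exact_mod_cast hp.pos
  have hp2 : (2 : ℝ) ≤ p := by exact_mod_cast hp.two_le
  have hp1 : (1 : ℝ) < p := by linarith
  have hl0 : 0 ≤ Real.log p := Real.log_nonneg hp1.le
  have hpC : (p : ℂ) ≠ 0 := by exact_mod_cast hp.ne_zero
  have e1 : (p : ℂ) ^ (-(2 + c / L)) = ((p : ℂ) ^ 2)⁻¹ * cexp (-(c / L * Real.log p)) := by
    rw [show -(2 + c / L) = -((2 : ℕ) : ℂ) + -(c / L) by push_cast; ring, cpow_add _ _ hpC,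
      cpow_neg, cpow_natCast, cpow_def_of_ne_zero hpC, ← natCast_log]
    congr 2
    ring
  have hn : ‖-(c / L * (Real.log p : ℂ))‖ ≤ U * Real.log p / L := by
    rw [norm_neg, norm_mul, norm_div, norm_real, norm_real, Real.norm_eq_abs, Real.norm_eq_abs,
      abs_of_nonneg hl0, abs_of_pos hL0]
    calc ‖c‖ / L * Real.log p ≤ U / L * Real.log p := by gcongr
      _ = U * Real.log p / L := by ring
  have h2 : U * Real.log p / L ≤ U := by
    rw [div_le_iff₀ hL0]
    gcongr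
  have h3 : ‖cexp (-(c / L * Real.log p)) - 1‖ ≤ U * Real.log p / L * Real.exp U := by
    refine (norm_exp_sub_one_le' _).trans ?_
    refine exp_sub_one_le.trans ?_
    have h4 := hn.trans h2
    gcongr
  set q : ℝ := ((p : ℝ) ^ 2)⁻¹ with hq
  have hq0 : 0 < q := by positivity
  have hq4 : q ≤ 1 / 4 := by
    rw [hq, inv_le_comm₀ (by positivity) (by norm_num)]
    nlinarith
  have h8 : ‖1 - (p : ℂ) ^ (-(2 + c / L))‖ ≤ (1 - q) + q * (U * Real.log p / L * Real.exp U) := by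
    have e2 : 1 - (p : ℂ) ^ (-(2 + c / L)) = ((1 - q : ℝ) : ℂ) -
        (q : ℂ) * (cexp (-(c / L * Real.log p)) - 1) := by
      rw [e1, hq]; push_cast; ring
    rw [e2]
    refine (norm_sub_le _ _).trans ?_
    rw [norm_real, Real.norm_eq_abs, abs_of_nonneg (by linarith), norm_mul, norm_real,
      Real.norm_eq_abs, abs_of_pos hq0]
    gcongr
  refine h8.trans ?_
  have h11 := Real.add_one_le_exp (4 / 3 * (U * Real.exp U / L) * (Real.log p * q))
  have h12 : (1 - q) + q * (U * Real.log p / L * Real.exp U) ≤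
      (1 - q) * (4 / 3 * (U * Real.exp U / L) * (Real.log p * q) + 1) := by
    have e : (1 - q) * (4 / 3 * (U * Real.exp U / L) * (Real.log p * q) + 1) -
        ((1 - q) + q * (U * Real.log p / L * Real.exp U)) =
        (1 / 3 - 4 / 3 * q) * (q * (U * Real.log p / L * Real.exp U)) := by ring
    have : 0 ≤ (1 / 3 - 4 / 3 * q) * (q * (U * Real.log p / L * Real.exp U)) := by
      apply mul_nonneg (by linarith)
      positivity
    linarith
  refine h12.trans ?_
  have : 0 ≤ 1 - q := by linarith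
  gcongr

lemma sum_log_sq (T : ℝ) (hT : 1 ≤ T) : ∑ p ∈ PS 0 T, Real.log p * ((p : ℝ) ^ 2)⁻¹ ≤
    ∑' n : ℕ, (n : ℝ) ^ (-(3 / 2) : ℝ) := by
  have hs : Summable fun n : ℕ => (n : ℝ) ^ (-(3 / 2) : ℝ) :=
    Real.summable_nat_rpow.2 (by norm_num)
  refine le_trans ?_ (hs.sum_le_tsum (PS 0 T) (fun n _ => by positivity))
  refine Finset.sum_le_sum fun p hp => ?_
  rw [mem_PS le_rfl (by linarith)] at hp
  have hp0 : (0 : ℝ) < p := hp.2.1
  have h1 : Real.log p ≤ (p : ℝ) ^ (1 / 2 : ℝ) := by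
    have h2 := Real.log_le_sub_one_of_pos (x := (p : ℝ) ^ (1 / 2 : ℝ) / Real.exp 1) (by positivity)
    have h3 : Real.log ((p : ℝ) ^ (1 / 2 : ℝ) / Real.exp 1) = 1 / 2 * Real.log p - 1 := by
      rw [Real.log_div (by positivity) (Real.exp_pos _).ne', Real.log_rpow hp0, Real.log_exp]
    rw [h3] at h2
    have h4 : 2 < Real.exp 1 := by
      have := Real.exp_one_gt_d9
      linarith
    have h5 : (p : ℝ) ^ (1 / 2 : ℝ) / Real.exp 1 ≤ (p : ℝ) ^ (1 / 2 : ℝ) / 2 := by gcongr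
    linarith
  calc Real.log p * ((p : ℝ) ^ 2)⁻¹ ≤ (p : ℝ) ^ (1 / 2 : ℝ) * ((p : ℝ) ^ 2)⁻¹ := by gcongr
    _ = (p : ℝ) ^ (-(3 / 2) : ℝ) := by
      rw [← Real.rpow_natCast, ← Real.rpow_neg hp0.le, ← Real.rpow_add hp0]
      norm_num

end ZTM

open ZTM in
/-- (R12b) the product at `2` -/
theorem stZT : StZT := by
  refine ⟨fun U ε hU hε => ?_, ?_⟩
  · set S : ℝ := ∑' n : ℕ, (n : ℝ) ^ (-(3 / 2) : ℝ) with hS
    have hS0 : 0 ≤ S := tsum_nonneg fun n => by positivity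
    set K : ℝ := 4 / 3 * (U * Real.exp U) * S with hK
    have hpi : 0 < 6 / Real.pi ^ 2 := by positivity
    have ht : Tendsto (fun T : ℝ => P2 T * Real.exp (K / Real.log T)) atTop
        (𝓝 (6 / Real.pi ^ 2 * Real.exp 0)) := by
      refine P2_tendsto.mul ((Real.continuous_exp.tendsto _).comp ?_)
      exact tendsto_const_nhds.div_atTop Real.tendsto_log_atTop
    rw [Real.exp_zero, mul_one] at ht
    have hlt : 6 / Real.pi ^ 2 < (1 + ε) * (6 / Real.pi ^ 2) := by nlinarith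
    obtain ⟨T₁, hT₁⟩ := eventually_atTop.1 (ht.eventually_lt_const hlt)
    refine ⟨max T₁ 3, le_max_right _ _, fun T hT c hc => ?_⟩
    have hT3 : 3 ≤ T := (le_max_right _ _).trans hT
    have hL : 1 ≤ Real.log T := by
      rw [Real.le_log_iff_exp_le (by linarith)]
      have := Real.exp_one_lt_d9
      linarith
    have hL0 : 0 < Real.log T := by linarith
    refine le_trans ?_ (hT₁ T ((le_max_left _ _).trans hT)).le
    calc ‖ZT T (c / Real.log T)‖ = ∏ p ∈ PS 0 T, ‖1 - (p : ℂ) ^ (-(2 + c / Real.log T))‖ := by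
          rw [ZT, norm_prod]
      _ ≤ ∏ p ∈ PS 0 T, ((1 - ((p : ℝ) ^ 2)⁻¹) *
            Real.exp (4 / 3 * (U * Real.exp U / Real.log T) * (Real.log p * ((p : ℝ) ^ 2)⁻¹))) := by
          refine Finset.prod_le_prod (fun _ _ => norm_nonneg _) fun p hp => ?_
          rw [mem_PS le_rfl (by linarith)] at hp
          exact factor_le hL hU hp.1 (Real.log_le_log hp.2.1 hp.2.2) hc
      _ = P2 T * Real.exp (4 / 3 * (U * Real.exp U / Real.log T) *
            ∑ p ∈ PS 0 T, Real.log p * ((p : ℝ) ^ 2)⁻¹) := by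
          rw [Finset.prod_mul_distrib, P2, ← Real.exp_sum, ← Finset.mul_sum]
      _ ≤ P2 T * Real.exp (K / Real.log T) := by
          have hP : 0 ≤ P2 T := by
            rw [P2]
            refine Finset.prod_nonneg fun p hp => ?_
            rw [mem_PS le_rfl (by linarith)] at hp
            have : (1 : ℝ) ≤ (p : ℝ) ^ 2 := one_le_pow₀ (by exact_mod_cast hp.1.one_lt.le)
            have := inv_le_one_of_one_le₀ this
            linarith
          have h1 := sum_log_sq T (by linarith)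
          have h2 : 4 / 3 * (U * Real.exp U / Real.log T) *
              ∑ p ∈ PS 0 T, Real.log p * ((p : ℝ) ^ 2)⁻¹ ≤ K / Real.log T := by
            calc _ ≤ 4 / 3 * (U * Real.exp U / Real.log T) * S := by gcongr
              _ = K / Real.log T := by rw [hK]; ring
          gcongr
  · have hs : Summable fun n : ℕ => (n : ℝ) ^ (-(3 / 2) : ℝ) :=
      Real.summable_nat_rpow.2 (by norm_num)
    refine ⟨Real.exp (∑' n : ℕ, (n : ℝ) ^ (-(3 / 2) : ℝ)), Real.exp_pos _, fun T hT s hs' => ?_⟩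
    calc ‖ZT T s‖ = ∏ p ∈ PS 0 T, ‖1 - (p : ℂ) ^ (-(2 + s))‖ := by rw [ZT, norm_prod]
      _ ≤ ∏ p ∈ PS 0 T, Real.exp ((p : ℝ) ^ (-(3 / 2) : ℝ)) := by
          refine Finset.prod_le_prod (fun _ _ => norm_nonneg _) fun p hp => ?_
          rw [mem_PS le_rfl (by linarith)] at hp
          have hp1 : (1 : ℝ) ≤ p := by exact_mod_cast hp.1.one_lt.le
          have h1 : ‖(p : ℂ) ^ (-(2 + s))‖ ≤ (p : ℝ) ^ (-(3 / 2) : ℝ) := by
            rw [norm_natCast_cpow_of_pos hp.1.pos]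
            apply Real.rpow_le_rpow_of_exponent_le hp1
            simp only [neg_add_rev, add_re, neg_re]
            norm_num
            linarith
          have h2 := norm_sub_le (1 : ℂ) ((p : ℂ) ^ (-(2 + s)))
          rw [norm_one] at h2
          have h3 := Real.add_one_le_exp ((p : ℝ) ^ (-(3 / 2) : ℝ))
          linarith
      _ = Real.exp (∑ p ∈ PS 0 T, (p : ℝ) ^ (-(3 / 2) : ℝ)) := by rw [← Real.exp_sum]
      _ ≤ _ := by
          apply Real.exp_le_exp.2
          exact hs.sum_le_tsum _ (fun n _ => by positivity)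

end K7
end Pool.Agent.Lib.MP_973905_nt
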