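import Pool.Agent.Lib.MP_973905_nt.F4.AllF4
import Pool.Agent.Lib.MP_973905_nt.K3.Z2Pair
import Pool.Agent.Lib.MP_973905_nt.K4.AfeB
import Pool.Agent.Lib.MP_973905_nt.K4.Kar
import Pool.Agent.Lib.MP_973905_nt.K4.S1
import Pool.Agent.Lib.MP_973905_nt.K4.S2
import Pool.Agent.Lib.MP_973905_nt.K5.AllK5
import Pool.Agent.Lib.MP_973905_nt.K7.AK7
import Pool.Agent.Lib.MP_973905_nt.K7.AvD
import Pool.Agent.Lib.MP_973905_nt.K7.BQ7
import Pool.Agent.Lib.MP_973905_nt.K7.Blk2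
import Pool.Agent.Lib.MP_973905_nt.K7.Blk4
import Pool.Agent.Lib.MP_973905_nt.K7.Bot4
import Pool.Agent.Lib.MP_973905_nt.K7.BotA
import Pool.Agent.Lib.MP_973905_nt.K7.BotAC
import Pool.Agent.Lib.MP_973905_nt.K7.BumpMW
import Pool.Agent.Lib.MP_973905_nt.K7.BumpRW
import Pool.Agent.Lib.MP_973905_nt.K7.CircG
import Pool.Agent.Lib.MP_973905_nt.K7.Cmp4
import Pool.Agent.Lib.MP_973905_nt.K7.CoP
import Pool.Agent.Lib.MP_973905_nt.K7.EP7
import Pool.Agent.Lib.MP_973905_nt.K7.F4W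
import Pool.Agent.Lib.MP_973905_nt.K7.Fact4
import Pool.Agent.Lib.MP_973905_nt.K7.FactA
import Pool.Agent.Lib.MP_973905_nt.K7.G7
import Pool.Agent.Lib.MP_973905_nt.K7.Gauss4
import Pool.Agent.Lib.MP_973905_nt.K7.GhB
import Pool.Agent.Lib.MP_973905_nt.K7.GhC
import Pool.Agent.Lib.MP_973905_nt.K7.Hold7
import Pool.Agent.Lib.MP_973905_nt.K7.J1
import Pool.Agent.Lib.MP_973905_nt.K7.J2
import Pool.Agent.Lib.MP_973905_nt.K7.J3
import Pool.Agent.Lib.MP_973905_nt.K7.JP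
import Pool.Agent.Lib.MP_973905_nt.K7.JW
import Pool.Agent.Lib.MP_973905_nt.K7.Ker
import Pool.Agent.Lib.MP_973905_nt.K7.LF4L
import Pool.Agent.Lib.MP_973905_nt.K7.LFn
import Pool.Agent.Lib.MP_973905_nt.K7.LeftP
import Pool.Agent.Lib.MP_973905_nt.K7.MSP
import Pool.Agent.Lib.MP_973905_nt.K7.Main
import Pool.Agent.Lib.MP_973905_nt.K7.MainC7
import Pool.Agent.Lib.MP_973905_nt.K7.MainG
import Pool.Agent.Lib.MP_973905_nt.K7.Num7
import Pool.Agent.Lib.MP_973905_nt.K7.Om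
import Pool.Agent.Lib.MP_973905_nt.K7.One4
import Pool.Agent.Lib.MP_973905_nt.K7.PB
import Pool.Agent.Lib.MP_973905_nt.K7.PairTW
import Pool.Agent.Lib.MP_973905_nt.K7.PairW
import Pool.Agent.Lib.MP_973905_nt.K7.PhiD0
import Pool.Agent.Lib.MP_973905_nt.K7.PhiD1
import Pool.Agent.Lib.MP_973905_nt.K7.PhiD3
import Pool.Agent.Lib.MP_973905_nt.K7.PhiE
import Pool.Agent.Lib.MP_973905_nt.K7.PrimeU
import Pool.Agent.Lib.MP_973905_nt.K7.RandW
import Pool.Agent.Lib.MP_973905_nt.K7.RemP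
import Pool.Agent.Lib.MP_973905_nt.K7.RepW
import Pool.Agent.Lib.MP_973905_nt.K7.RhoA
import Pool.Agent.Lib.MP_973905_nt.K7.RightP
import Pool.Agent.Lib.MP_973905_nt.K7.S1w
import Pool.Agent.Lib.MP_973905_nt.K7.SecA
import Pool.Agent.Lib.MP_973905_nt.K7.Sharp4W
import Pool.Agent.Lib.MP_973905_nt.K7.SharpG
import Pool.Agent.Lib.MP_973905_nt.K7.SideA
import Pool.Agent.Lib.MP_973905_nt.K7.ThreeP
import Pool.Agent.Lib.MP_973905_nt.K7.Top4
import Pool.Agent.Lib.MP_973905_nt.K7.TopA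
import Pool.Agent.Lib.MP_973905_nt.K7.WB
import Pool.Agent.Lib.MP_973905_nt.K7.WMean
import Pool.Agent.Lib.MP_973905_nt.K7.Young
import Pool.Agent.Lib.MP_973905_nt.K7.ZT
import Pool.Agent.Lib.MP_973905_nt.K7.Final7

/-! Assembly of the upper bound with explicit constants for all orders `1 < k < 2`. -/

namespace Pool.Agent.Lib.MP_973905_nt.K7

/-- The upper bound for every fixed order `1 < k < 2`. -/
theorem final7 : StFinal7 := by
  have n2 : F4.StInc := F4.stInc F4.stKl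
  have n3 : F4.StGz := F4.stGz
  have n4 : F4.StGh := F4.stGh n3
  have n9 : F4.StPair := F4.stPair n4 (F4.stPoi n3 n4) (F4.stZero F4.stBeta) F4.stOff
  have z5 : F4.StGrow := F4.stGrow
  have z6 : F4.StStrip4 := F4.stStrip4 z5
  have l1 : K5.StHalf := K5.stHalf K5.stRect K5.stStripH (K5.stFE K1.stFFpair (K5.stM4 F4.stCr4_all))
  have l2 : K5.StLong := K5.stLong l1 K5.stMove K5.stPairA (K5.stBack K5.stRect) K5.stMS
  have hr : K5.StRho := K5.stRho
  have g1 : StCoP := stCoP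
  have g3 : StMSP := stMSP
  have g4 : StRightP := stRightP n9 (stRemP n2 n4 g1) F4.stExpand g1
  have g6 : StThreeP := stThreeP g4 (stLeftP g3 g1) z5 z6 g1
  have g8 : StJW := stJW (stJP g6 z6 g3 g1)
  have s1 : StAK7 := stAK7 K5.stMertens
  have s2 : StLFn := stLFn
  have lf : StLF4L := stLF4L
  have s4 : StBotA := stBotA (stBlk2 s2) s2 s1
  have s6 : StTopA := stTopA (K5.stGaussBlock K5.stPrimeInt)
  have pe : StPhiE := stPhiE stPhiD0 stPhiD1 stPhiD3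
  have s7 : StRhoA := stRhoA pe stPhiD0 stPhiD1 stPhiD3 hr
  have s9 : StBQ7 := stBQ7 K1.stShort
  have wb : StWB := stWB s9 K5.stPoint
  have wm : StWMean := stWMean s9 wb K5.stMeanG
  have sa : StSecA := stSecA l2 s9 (stFactA K1.stLF) s4 stBotAC s6 s7
  have sd : StSideA := stSideA sa stAvD wb
  have r1 : StRepW := stRepW
  have r2 : StOne4 := stOne4
  have r6 : StBot4 := stBot4 lf (stBlk4 lf) s1 K5.stMertens
  have r9 : StTop4 := stTop4 (stGauss4 stPrimeU)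
  have rc : StCmp4 := stCmp4 r2 (stFact4 r2) r6 r9 pe hr
  have rw' : StRandW := stRandW F4.stRand4
  have rm : StMainC7 := stMainC7 r1 rw' stPB
  have mg : StMainG := stMainG r1 rc r2 stEP7 stZT stPB rw' stOm s1 hr
  have ma : StMainA := stMainA mg stGhC (stJ1 stYoung)
  have mw' : StMainW := stMainW mg stGhC (stJ2 stYoung)
  have br : StBumpRW := stBumpRW r1 rc r2 stEP7 stZT stPB rw' stOm stGhB stYoung s1 hr
  have pw : StPairW := stPairW rc r2 stEP7 stZT stPB rw' stOm stGhC stJ3 s1 hr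
  have sg' : StSharpG := stSharpG g8 s9 stCircG stKer K4.stKar wb
  have pt : StPairTW := stPairTW pw s9 K3.stZ2Pair
  have fw : StF4W := stF4W g8 s9 rm F4.stAfe_all F4.stCr4_all wb
  have bm : StBumpMW := stBumpMW g8 s9 br rm (K4.stAfeB F4.stFFr) fw wm wb
  have s4w : StSharp4W := stSharp4W bm sg' ma mw' stGhC pt K4.stS1 K4.stS2 stS1w fw wb s1 hr
  have h7 : StHold7 := stHold7 K5.stPoint s4w fw sd wb s1 hr
  have nu : StNum7 := stNum7 stG7 K5.stLam0 K5.stLam1 K5.stLam2 K5.stLam3 K5.stSym hr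
  exact stFinal7 h7 nu s1

end Pool.Agent.Lib.MP_973905_nt.K7
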