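import Pool.Agent.Lib.MP_973905_nt.K7.Stmts
import Pool.Agent.Lib.MP_973905_nt.K5.Fact

/-! The blocks `SBq T M` (copy of the first part of `K5.Fact`). -/

namespace Pool.Agent.Lib.MP_973905_nt
namespace K7

open MeasureTheory ProbabilityTheory Complex Filter Topology K1 K4 K5

namespace Blk7

/-! ### the boundaries of the blocks -/

lemma tq_pos (i : ℕ) : 0 < tq i := mul_pos (FactM.tb_pos i) (Real.exp_pos _)

lemma tq_succ_le (i : ℕ) : tq (i + 1) ≤ tq i :=
  mul_le_mul_of_nonneg_right (FactM.tb_succ_le i) (Real.exp_pos _).le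

lemma tq_anti : Antitone tq := antitone_nat_of_succ_le tq_succ_le

lemma tq_zero_le : tq 0 ≤ 1 := by
  have h1 := FactM.tb_zero_le
  have h2 : Real.exp (-4) ≤ 1 := Real.exp_le_one_iff.mpr (by norm_num)
  exact mul_le_one₀ h1 (Real.exp_pos _).le h2

lemma tq_last {M : ℕ} (hM : 7 ≤ M) : tq (M - 6) = Real.exp (-(M : ℝ)) := by
  unfold tq tb
  rw [if_neg (by omega), Nat.cast_sub (by omega), ← Real.exp_add]
  congr 1
  push_cast; ring

/-- `log (tq i / tq (i+1)) = Vv i` -/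
lemma log_tq (i : ℕ) : Real.log (tq i / tq (i + 1)) = Vv i := by
  have h : tq i / tq (i + 1) = Real.exp (Vv i) := by
    unfold tq tb Vv
    rw [if_neg (by omega : ¬ i + 1 = 0)]
    split_ifs with h
    · subst h
      rw [mul_div_mul_right _ _ (Real.exp_pos _).ne', ← Real.exp_sub]
      congr 1
      push_cast
      norm_num
    · rw [mul_div_mul_right _ _ (Real.exp_pos _).ne', ← Real.exp_sub]
      congr 1
      push_cast
      ring
  rw [h, Real.log_exp]

variable {T : ℝ} {M : ℕ}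

lemma bd_mono (hT : 1 < T) {i j : ℕ} (h : i ≤ j) :
    Real.exp (tq j * Real.log T) ≤ Real.exp (tq i * Real.log T) := by
  apply Real.exp_le_exp.mpr
  exact mul_le_mul_of_nonneg_right (tq_anti h) (Real.log_pos hT).le

lemma bd_le (hT : 1 < T) : Real.exp (tq 0 * Real.log T) ≤ T := by
  calc Real.exp (tq 0 * Real.log T) ≤ Real.exp (1 * Real.log T) := by
        apply Real.exp_le_exp.mpr
        exact mul_le_mul_of_nonneg_right tq_zero_le (Real.log_pos hT).le
    _ = T := by rw [one_mul, Real.exp_log (by linarith)]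

lemma mem_UQ {i p : ℕ} : p ∈ UQ T i ↔ p.Prime ∧ Real.exp (tq (i + 1) * Real.log T) < p ∧
    (p : ℝ) ≤ Real.exp (tq i * Real.log T) :=
  mem_PS (Real.exp_pos _).le (Real.exp_pos _).le

lemma mem_top (hT : 1 < T) {p : ℕ} : p ∈ PS (Real.exp (tq 0 * Real.log T)) T ↔
    p.Prime ∧ Real.exp (tq 0 * Real.log T) < p ∧ (p : ℝ) ≤ T :=
  mem_PS (Real.exp_pos _).le (by linarith)

lemma mem_bot (hT : 1 < T) {j p : ℕ} (hj : j ≤ JJ T) (hp : p ∈ Sj T M (JJ T) j) :
    p.Prime ∧ (p : ℝ) ≤ Real.exp (Real.exp (-(M : ℝ)) * Real.log T) := by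
  have h1 : p ∈ (Finset.range (JJ T + 1)).biUnion (fun j => Sj T M (JJ T) j) :=
    Finset.mem_biUnion.mpr ⟨j, Finset.mem_range.mpr (by omega), hp⟩
  rw [RAx.biUnion_eq hT, mem_PS le_rfl (Real.exp_pos _).le] at h1
  exact ⟨h1.1, h1.2.2⟩

lemma BBq_bot {j : ℕ} (hj : j ≤ JJ T) : BBq T M j = Sj T M (JJ T) j := if_pos hj

lemma BBq_mid {j : ℕ} (h1 : ¬ j ≤ JJ T) (h2 : j ≤ JJ T + (M - 6)) :
    BBq T M j = UQ T (j - (JJ T + 1)) := by
  rw [BBq, if_neg h1, if_pos h2]

lemma BBq_top {j : ℕ} (h1 : ¬ j ≤ JJ T) (h2 : ¬ j ≤ JJ T + (M - 6)) :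
    BBq T M j = PS (Real.exp (tq 0 * Real.log T)) T := by
  rw [BBq, if_neg h1, if_neg h2]

lemma BBq_prime (hT : 1 < T) {j p : ℕ} (hp : p ∈ BBq T M j) : p.Prime := by
  by_cases h1 : j ≤ JJ T
  · rw [BBq_bot h1] at hp
    exact (mem_bot hT h1 hp).1
  · by_cases h2 : j ≤ JJ T + (M - 6)
    · rw [BBq_mid h1 h2] at hp
      exact (mem_UQ.mp hp).1
    · rw [BBq_top h1 h2] at hp
      exact ((mem_top hT).mp hp).1

lemma BBq_disj (hT : 1 < T) (hM : 7 ≤ M) {i j : ℕ} (hi : i ≤ JJ T + 1 + (M - 6))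
    (hj : j ≤ JJ T + 1 + (M - 6)) (h : i ≠ j) : Disjoint (BBq T M i) (BBq T M j) := by
  wlog hlt : i < j generalizing i j
  · exact (this hj hi h.symm (by omega)).symm
  rw [Finset.disjoint_left]
  intro p hp hp'
  by_cases i1 : i ≤ JJ T
  · rw [BBq_bot i1] at hp
    by_cases j1 : j ≤ JJ T
    · rw [BBq_bot j1] at hp'
      exact Finset.disjoint_left.mp (disj_Sj hT h) hp hp'
    · have h1 := (mem_bot hT i1 hp).2
      by_cases j2 : j ≤ JJ T + (M - 6)
      · rw [BBq_mid j1 j2] at hp'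
        have h2 := (mem_UQ.mp hp').2.1
        have h3 := bd_mono hT (show j - (JJ T + 1) + 1 ≤ M - 6 by omega)
        rw [tq_last hM] at h3
        linarith
      · rw [BBq_top j1 j2] at hp'
        have h2 := ((mem_top hT).mp hp').2.1
        have h3 := bd_mono hT (show 0 ≤ M - 6 by omega)
        rw [tq_last hM] at h3
        linarith
  · have j1 : ¬ j ≤ JJ T := by omega
    have i2 : i ≤ JJ T + (M - 6) := by omega
    rw [BBq_mid i1 i2] at hp
    have h1 := (mem_UQ.mp hp).2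
    by_cases j2 : j ≤ JJ T + (M - 6)
    · rw [BBq_mid j1 j2] at hp'
      have h2 := (mem_UQ.mp hp').2.2
      have h3 := bd_mono hT (show i - (JJ T + 1) + 1 ≤ j - (JJ T + 1) by omega)
      linarith [h1.1]
    · rw [BBq_top j1 j2] at hp'
      have h2 := ((mem_top hT).mp hp').2.1
      have h3 := bd_mono hT (show 0 ≤ i - (JJ T + 1) by omega)
      linarith [h1.2]

lemma blk_SBq (hT : 1 < T) (hM : 7 ≤ M) : Blk (SBq T M) :=
  ⟨fun _ _ hp => BBq_prime hT hp, fun i j hij => BBq_disj hT hM (by omega) (by omega)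
    (fun h => hij (Fin.ext h))⟩

lemma exists_UQ {p : ℕ} (hp : p.Prime) (h0 : (p : ℝ) ≤ Real.exp (tq 0 * Real.log T)) (n : ℕ)
    (h : Real.exp (tq n * Real.log T) < p) : ∃ i, i < n ∧ p ∈ UQ T i := by
  induction n with
  | zero => linarith
  | succ n ih =>
    by_cases h1 : Real.exp (tq n * Real.log T) < p
    · obtain ⟨i, hi, hpi⟩ := ih h1
      exact ⟨i, by omega, hpi⟩
    · exact ⟨n, by omega, mem_UQ.mpr ⟨hp, h, not_lt.mp h1⟩⟩

lemma exists_BBq (hT : 1 < T) (hM : 7 ≤ M) {p : ℕ} (hp : p.Prime) (hpT : (p : ℝ) ≤ T) :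
    ∃ j, j < JJ T + 1 + (M - 6) + 1 ∧ p ∈ BBq T M j := by
  by_cases h1 : (p : ℝ) ≤ Real.exp (tq 0 * Real.log T)
  · by_cases h2 : Real.exp (tq (M - 6) * Real.log T) < p
    · obtain ⟨i, hi, hpi⟩ := exists_UQ hp h1 _ h2
      refine ⟨JJ T + 1 + i, by omega, ?_⟩
      rw [BBq_mid (by omega) (by omega), show JJ T + 1 + i - (JJ T + 1) = i by omega]
      exact hpi
    · rw [tq_last hM] at h2
      have h3 : p ∈ PS 0 (Real.exp (Real.exp (-(M : ℝ)) * Real.log T)) :=
        (mem_PS le_rfl (Real.exp_pos _).le).mpr ⟨hp, by exact_mod_cast hp.pos, not_lt.mp h2⟩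
      rw [← RAx.biUnion_eq hT, Finset.mem_biUnion] at h3
      obtain ⟨j, hj, hpj⟩ := h3
      have hj' := Finset.mem_range.mp hj
      exact ⟨j, by omega, by rw [BBq_bot (by omega)]; exact hpj⟩
  · refine ⟨JJ T + 1 + (M - 6), by omega, ?_⟩
    rw [BBq_top (by omega) (by omega)]
    exact (mem_top hT).mpr ⟨hp, not_le.mp h1, hpT⟩

lemma mem_factored_SBq (hT : 1 < T) (hM : 7 ≤ M) {n : ℕ} (h1 : 1 ≤ n) (h2 : (n : ℝ) ≤ T) :
    n ∈ Nat.factoredNumbers (UU (SBq T M)) := by
  rw [Nat.mem_factoredNumbers_iff_primeFactors_subset]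
  refine ⟨by omega, fun p hp => ?_⟩
  have hp' := Nat.prime_of_mem_primeFactors hp
  have h3 : p ≤ n := Nat.le_of_mem_primeFactors hp
  have h4 : (p : ℝ) ≤ n := by exact_mod_cast h3
  obtain ⟨j, hj, hpj⟩ := exists_BBq hT hM hp' (h4.trans h2)
  exact mem_UU.mpr ⟨⟨j, hj⟩, hpj⟩

/-! ### products over the blocks -/

lemma split {β : Type*} [CommMonoid β] (n m : ℕ) (H : ℕ → β) :
    ∏ j : Fin (n + m + 1), H j =
      (∏ j ∈ Finset.range n, H j) * (∏ i ∈ Finset.range m, H (n + i)) * H (n + m) := by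
  rw [← Finset.prod_range, Finset.prod_range_succ, Finset.prod_range_add]

lemma prod_UU_SBq {β : Type*} [CommMonoid β] (hT : 1 < T) (hM : 7 ≤ M) (u : ℕ → β) :
    ∏ p ∈ UU (SBq T M), u p = (∏ j ∈ Finset.range (JJ T + 1), ∏ p ∈ Sj T M (JJ T) j, u p) *
      (∏ i ∈ Finset.range (M - 6), ∏ p ∈ UQ T i, u p) *
        ∏ p ∈ PS (Real.exp (tq 0 * Real.log T)) T, u p := by
  unfold UU
  rw [Finset.prod_biUnion (fun i _ j _ hij => (blk_SBq hT hM).2 i j hij)]
  have h1 := split (JJ T + 1) (M - 6) (fun j => ∏ p ∈ BBq T M j, u p)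
  refine h1.trans ?_
  have e1 : ∏ j ∈ Finset.range (JJ T + 1), ∏ p ∈ BBq T M j, u p =
      ∏ j ∈ Finset.range (JJ T + 1), ∏ p ∈ Sj T M (JJ T) j, u p := by
    refine Finset.prod_congr rfl fun j hj => ?_
    have hj' := Finset.mem_range.mp hj
    rw [BBq_bot (by omega)]
  have e2 : ∏ i ∈ Finset.range (M - 6), ∏ p ∈ BBq T M (JJ T + 1 + i), u p =
      ∏ i ∈ Finset.range (M - 6), ∏ p ∈ UQ T i, u p := by
    refine Finset.prod_congr rfl fun i hi => ?_
    have hi' := Finset.mem_range.mp hi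
    rw [BBq_mid (by omega) (by omega), show JJ T + 1 + i - (JJ T + 1) = i by omega]
  rw [e1, e2, BBq_top (by omega) (by omega)]

/-- factorisation of an expectation over the blocks -/
lemma fact_gen {𝕜 : Type*} [RCLike 𝕜] (hT : 1 < T) (hM : 7 ≤ M) (A B : ℕ → (ℕ → ℂ) → 𝕜)
    (C : (ℕ → ℂ) → 𝕜)
    (hA : ∀ j f g, (∀ p ∈ Sj T M (JJ T) j, f p = g p) → A j f = A j g)
    (hB : ∀ i f g, (∀ p ∈ UQ T i, f p = g p) → B i f = B i g)
    (hC : ∀ f g, (∀ p ∈ PS (Real.exp (tq 0 * Real.log T)) T, f p = g p) → C f = C g) :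
    ER (SBq T M) (fun f => (∏ j ∈ Finset.range (JJ T + 1), A j f) *
      (∏ i ∈ Finset.range (M - 6), B i f) * C f) =
    (∏ j ∈ Finset.range (JJ T + 1), ES (Sj T M (JJ T) j) (A j)) *
      (∏ i ∈ Finset.range (M - 6), ES (UQ T i) (B i)) *
        ES (PS (Real.exp (tq 0 * Real.log T)) T) C := by
  set H : ℕ → (ℕ → ℂ) → 𝕜 := fun j f => if j ≤ JJ T then A j f else
    if j ≤ JJ T + (M - 6) then B (j - (JJ T + 1)) f else C f with hH
  have e0 : ∀ f, (∏ j ∈ Finset.range (JJ T + 1), A j f) * (∏ i ∈ Finset.range (M - 6), B i f) * C f =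
      ∏ j : Fin (JJ T + 1 + (M - 6) + 1), H j f := by
    intro f
    rw [split (JJ T + 1) (M - 6) (fun j => H j f)]
    congr 1
    · congr 1
      · refine Finset.prod_congr rfl fun j hj => ?_
        have hj' := Finset.mem_range.mp hj
        simp only [hH]
        rw [if_pos (by omega)]
      · refine Finset.prod_congr rfl fun i hi => ?_
        have hi' := Finset.mem_range.mp hi
        simp only [hH]
        rw [if_neg (by omega), if_pos (by omega), show JJ T + 1 + i - (JJ T + 1) = i by omega]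
    · simp only [hH]
      rw [if_neg (by omega), if_neg (by omega)]
  simp only [e0]
  rw [ER_prod (blk_SBq hT hM) (fun j : Fin (JJ T + 1 + (M - 6) + 1) => H j) (by
    intro j f g hfg
    change ∀ p ∈ BBq T M j, f p = g p at hfg
    simp only [hH]
    split_ifs with h1 h2
    · rw [BBq_bot h1] at hfg
      exact hA _ _ _ hfg
    · rw [BBq_mid h1 h2] at hfg
      exact hB _ _ _ hfg
    · rw [BBq_top h1 h2] at hfg
      exact hC _ _ hfg)]
  refine (split (JJ T + 1) (M - 6) (fun j => ES (BBq T M j) (H j))).trans ?_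
  congr 1
  · congr 1
    · refine Finset.prod_congr rfl fun j hj => ?_
      have hj' := Finset.mem_range.mp hj
      have e1 : H j = A j := by
        funext f; simp only [hH]; rw [if_pos (by omega)]
      rw [e1, BBq_bot (by omega)]
    · refine Finset.prod_congr rfl fun i hi => ?_
      have hi' := Finset.mem_range.mp hi
      have e1 : H (JJ T + 1 + i) = B i := by
        funext f; simp only [hH]
        rw [if_neg (by omega), if_pos (by omega), show JJ T + 1 + i - (JJ T + 1) = i by omega]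
      rw [e1, BBq_mid (by omega) (by omega), show JJ T + 1 + i - (JJ T + 1) = i by omega]
  · have e1 : H (JJ T + 1 + (M - 6)) = C := by
      funext f; simp only [hH]
      rw [if_neg (by omega), if_neg (by omega)]
    rw [e1, BBq_top (by omega) (by omega)]


lemma Xq_dep {i : ℕ} {f g : ℕ → ℂ} (h : ∀ p ∈ UQ T i, f p = g p) (w : ℂ) :
    Xq T i (tw w f) = Xq T i (tw w g) := by
  unfold Xq
  congr 1
  refine Finset.sum_congr rfl fun p hp => ?_
  simp only [tw, h p hp]

end Blk7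

end K7
end Pool.Agent.Lib.MP_973905_nt
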