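import Pool.Agent.Lib.MP_973905_nt.K4.Stmts
import Pool.Agent.Lib.MP_973905_nt.K5.Stmts

/-! Definitions for the upper bounds with explicit constants for all orders `1 < k < 2`
(folder K7). Throughout `k = 1 + κ`. -/

namespace Pool.Agent.Lib.MP_973905_nt
namespace K7

open MeasureTheory ProbabilityTheory Complex Filter Topology K1 K4 K5

/-! ### The top blocks and the weights -/

/-- Upper ends of the top blocks, as exponents of `T`. -/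
noncomputable def tq (i : ℕ) : ℝ := tb i * Real.exp (-4)

/-- The top blocks of primes. -/
noncomputable def UQ (T : ℝ) (i : ℕ) : Finset ℕ :=
  PS (Real.exp (tq (i + 1) * Real.log T)) (Real.exp (tq i * Real.log T))

/-- The real part of the prime sum over a top block. -/
noncomputable def Xq (T : ℝ) (i : ℕ) (f : ℕ → ℂ) : ℝ := (∑ p ∈ UQ T i, f p).re

/-- The product over the top blocks, side of the fourth moment. -/
noncomputable def TFq (κ T : ℝ) (M : ℕ) (f : ℕ → ℂ) : ℝ :=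
  ∏ i ∈ Finset.range (M - 6), pf κ i (Xq T i f - Vv i)

/-- The product over the top blocks, side of the second moment. -/
noncomputable def TGq (κ T : ℝ) (M : ℕ) (f : ℕ → ℂ) : ℝ :=
  ∏ i ∈ Finset.range (M - 6), pg κ i (Xq T i f - Vv i)

/-- The weight on the side of the fourth moment. -/
noncomputable def WF (κ T : ℝ) (M : ℕ) (g h : Finset ℕ) (f : ℕ → ℂ) : ℝ :=
  ‖AA T M (JJ T) (κ - 1) g h f‖ ^ 2 * TFq κ T M f

/-- The weight on the side of the second moment. -/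
noncomputable def WG (κ T : ℝ) (M : ℕ) (g h : Finset ℕ) (f : ℕ → ℂ) : ℝ :=
  ‖AA T M (JJ T) κ g h f‖ ^ 2 * TGq κ T M f

/-- All blocks: the bottom blocks, the top blocks, the rest up to `T`. -/
noncomputable def BBq (T : ℝ) (M j : ℕ) : Finset ℕ :=
  if j ≤ JJ T then Sj T M (JJ T) j else
    if j ≤ JJ T + (M - 6) then UQ T (j - (JJ T + 1)) else PS (Real.exp (tq 0 * Real.log T)) T

/-- The family of all blocks. -/
noncomputable def SBq (T : ℝ) (M : ℕ) : Fin (JJ T + 1 + (M - 6) + 1) → Finset ℕ := fun j => BBq T M j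

/-! ### The twisted second moment -/

/-- Coefficients of the smooth polynomial times `d^{-s}`. -/
noncomputable def sg (φ : ℝ → ℝ) (T ν : ℝ) (d n : ℕ) : ℂ := if d ∣ n then qg φ T ν (n / d) else 0

/-- The length of the polynomials `sg`. -/
noncomputable def Np (T : ℝ) : ℕ := ⌊T ^ (52 / 100 : ℝ)⌋₊

/-- The smooth polynomial at `1/2 + it`. -/
noncomputable def Qp (φ : ℝ → ℝ) (T ν t : ℝ) : ℂ :=
  ∑ n ∈ Finset.Icc 1 ⌊T⌋₊, qg φ T ν n * fs (1 / 2 + t * I) n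

/-- The shifted second moment twisted by a pair `(d, e)`. -/
noncomputable def Jd (X : ℝ) (c : ℂ) (φ : ℝ → ℝ) (T ν : ℝ) (d e : ℕ) (a : ℂ) : ℂ :=
  ∫ t in Set.Ioi (0 : ℝ), riemannZeta (1 / 2 + a + t * I) * riemannZeta (1 / 2 + a - t * I) *
    (F4.HP (Np T) (sg φ T ν d) t * (starRingEnd ℂ) (F4.HP (Np T) (sg φ T ν e) t)) * F4.Wt X c t

/-- The same without the poles of the zeta function. -/
noncomputable def Jds (X : ℝ) (c : ℂ) (φ : ℝ → ℝ) (T ν : ℝ) (d e : ℕ) (a : ℂ) : ℂ :=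
  ∫ t in Set.Ioi (0 : ℝ), riemannZeta₁ (1 / 2 + a + t * I) * riemannZeta₁ (1 / 2 + a - t * I) *
    (F4.HP (Np T) (sg φ T ν d) t * (starRingEnd ℂ) (F4.HP (Np T) (sg φ T ν e) t)) *
    ((t : ℂ) ^ 2)⁻¹ * F4.Wt X c t

/-- The arithmetic factor of a pair `(d, e)`. -/
noncomputable def Rde (φ : ℝ → ℝ) (T ν : ℝ) (d e : ℕ) (a : ℂ) : ℂ :=
  ∑ m ∈ Finset.Icc 1 ⌊T⌋₊, ∑ n ∈ Finset.Icc 1 ⌊T⌋₊, qg φ T ν m * (starRingEnd ℂ) (qg φ T ν n) *
    ((m * d : ℕ) : ℂ) ^ (-(1 / 2 : ℂ)) * ((n * e : ℕ) : ℂ) ^ (-(1 / 2 : ℂ)) *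
    (((m * d) / (m * d).gcd (n * e) * ((n * e) / (m * d).gcd (n * e)) : ℕ) : ℂ) ^ (-(1 / 2 + a))

/-- The arithmetic factor of the smooth polynomial and the twist `GB N c`. -/
noncomputable def RW (φ : ℝ → ℝ) (T ν : ℝ) (N : ℕ) (c : ℕ → ℕ → ℂ) (a : ℂ) : ℂ :=
  ∑ d ∈ Finset.Icc 1 N, ∑ e ∈ Finset.Icc 1 N, c d e * Rde φ T ν d e a

/-- The main term of the twisted second moment with the arithmetic factor `R`. -/
noncomputable def MW (X : ℝ) (c : ℂ) (R : ℂ → ℂ) (a : ℂ) : ℂ :=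
  Gamma c * (riemannZeta (1 + 2 * a) * R a) +
    ((X / (2 * Real.pi) : ℝ) : ℂ) ^ (-(2 * a)) * (Gamma (c - 2 * a) * (riemannZeta (1 - 2 * a) * R (-a)))

/-- The main term of `Jds`. -/
noncomputable def MWs (X : ℝ) (c : ℂ) (R : ℂ → ℂ) (a : ℂ) : ℂ :=
  MW X c R a + (1 / 2 - a) ^ 2 * ((X : ℂ) ^ 2)⁻¹ * MW X (c - 2) R a

/-! ### The random model -/

/-- `∏_{p ≤ T} (1 - p^{-(2+s)})` -/
noncomputable def ZT (T : ℝ) (s : ℂ) : ℂ := ∏ p ∈ PS 0 T, (1 - (p : ℂ) ^ (-(2 + s)))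

/-- Shifted fourth moment of the Euler product over `p ≤ T` with the weight `W`. -/
noncomputable def RW4 (T : ℝ) (M : ℕ) (W : (ℕ → ℂ) → ℝ) (a₁ a₂ b₁ b₂ : ℂ) : ℂ :=
  ER (SBq T M) (fun f => ZZ (PS 0 T) (tw (1 / 2 + a₁) f) * ZZ (PS 0 T) (tw (1 / 2 + a₂) f) *
    (starRingEnd ℂ) (ZZ (PS 0 T) (tw (1 / 2 + (starRingEnd ℂ) b₁) f) *
      ZZ (PS 0 T) (tw (1 / 2 + (starRingEnd ℂ) b₂) f)) * ((W (tw (1 / 2) f) : ℝ) : ℂ))

/-- The shift, without the factor `1 / log T` (as `K4.Red.zn`). -/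
noncomputable def un (x ξ : ℝ) : ℂ := 2 + ((x - 2 * Real.pi * ξ : ℝ) : ℂ) * I

/-- The shifted fourth moment with our shifts. -/
noncomputable def R4W (T : ℝ) (M : ℕ) (W : (ℕ → ℂ) → ℝ) (a : ℂ) (x ξ₂ ξ : ℝ) : ℂ :=
  RW4 T M W ((starRingEnd ℂ) a) (un x ξ₂ / Real.log T) ((starRingEnd ℂ) a)
    ((starRingEnd ℂ) (un x ξ) / Real.log T)

/-- The normalising product of a block. -/
noncomputable def NF (S : Finset ℕ) (a₁ a₂ b₁ b₂ : ℂ) : ℂ :=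
  ∏ p ∈ S, ((1 - (p : ℂ) ^ (-(1 + a₁ + b₁))) * (1 - (p : ℂ) ^ (-(1 + a₁ + b₂))) *
    (1 - (p : ℂ) ^ (-(1 + a₂ + b₁))) * (1 - (p : ℂ) ^ (-(1 + a₂ + b₂))) *
    (1 - (p : ℂ) ^ (-(2 + a₁ + a₂ + b₁ + b₂)))⁻¹)

/-- The normalised factor of a block. -/
noncomputable def E4 (S : Finset ℕ) (W : (ℕ → ℂ) → ℂ) (a₁ a₂ b₁ b₂ : ℂ) : ℂ :=
  ES S (fun f => ZZ S (tw (1 / 2 + a₁) f) * ZZ S (tw (1 / 2 + a₂) f) *
    (starRingEnd ℂ) (ZZ S (tw (1 / 2 + (starRingEnd ℂ) b₁) f) *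
      ZZ S (tw (1 / 2 + (starRingEnd ℂ) b₂) f)) * W f) * NF S a₁ a₂ b₁ b₂

/-- The factor of a bottom block. -/
noncomputable def EB4 (κ T : ℝ) (M : ℕ) (g h : Finset ℕ) (a₁ a₂ b₁ b₂ : ℂ) (j : ℕ) : ℂ :=
  E4 (Sj T M (JJ T) j) (fun f => ((‖Fc T M (JJ T) (κ - 1) g h j (tw (1 / 2) f)‖ ^ 2 : ℝ) : ℂ))
    a₁ a₂ b₁ b₂

/-- The factor of a top block. -/
noncomputable def ET4 (κ T : ℝ) (a₁ a₂ b₁ b₂ : ℂ) (i : ℕ) : ℂ :=
  E4 (UQ T i) (fun f => ((pf κ i (Xq T i (tw (1 / 2) f) - Vv i) : ℝ) : ℂ)) a₁ a₂ b₁ b₂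

/-- The factor of a top block on the side of the second moment. -/
noncomputable def ETG (κ T : ℝ) (w : ℂ) (i : ℕ) : ℂ :=
  ES (UQ T i) (fun f => ZZ (UQ T i) (tw (1 / 2 + w) f) *
    (starRingEnd ℂ) (ZZ (UQ T i) (tw (1 / 2 + (starRingEnd ℂ) w) f)) *
    ((pg κ i (Xq T i (tw (1 / 2) f) - Vv i) : ℝ) : ℂ)) *
    ∏ p ∈ UQ T i, (1 - (p : ℂ) ^ (-(1 + w + w)))

/-- The limit of the product of the `ETG`; the shift is `u / log T`. -/
noncomputable def rhoA (κ : ℝ) (M : ℕ) (u : ℂ) : ℂ :=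
  ∏ i ∈ Finset.range (M - 6), PhF (1 - κ) i (((2 * Vv i : ℝ) : ℂ) - vv (tq (i + 1)) (tq i) u)

/-- The limit of the product of the bottom factors. -/
noncomputable def D4 (κ T : ℝ) (M : ℕ) : ℝ :=
  aK (1 + κ) * (Real.pi ^ 2 / 6) * lM T M ^ ((1 + κ) ^ 2 - 4)

/-- Main factor of the weight `WF`. -/
noncomputable def BF (κ T : ℝ) (M : ℕ) : ℝ := D4 κ T M * ∏ i ∈ Finset.range (M - 6), aF κ i

/-- Distance of the means of the top blocks from their values without shift. -/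
noncomputable def om (M : ℕ) (u : ℂ) : ℝ :=
  ∑ i ∈ Finset.range (M - 6), ‖vv (tq (i + 1)) (tq i) u - ((Vv i : ℝ) : ℂ)‖

/-- Derivatives of `PhF k i` at `Vv i`. -/
noncomputable def dP (k : ℝ) (i m : ℕ) : ℝ :=
  ∑ j ∈ Finset.range (dg i + 1 - m), (-(2 * (1 - k))) ^ (j + m) / j.factorial *
      mom j (k * Vv i) (Vv i / 2) +
    eta (1 - k) (dg i) * 2 ^ dg i * ((dg i).descFactorial m : ℝ) *
      mom (dg i - m) (k * Vv i) (Vv i / 2)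

/-! ### Cutoffs -/

/-- Cutoff: `1` on `[-1.95, 1/2 - θ - 2δ]`, `0` outside `[-2, 1/2 - θ - δ]`. -/
noncomputable def PA (δ θ x : ℝ) : ℝ :=
  Real.smoothTransition ((1 / 2 - δ - θ - x) / δ) * Real.smoothTransition (20 * (x + 2))

/-- The cutoff with `qg (fC δ θ) T 0 n = PA δ θ (log n / log T)`. -/
noncomputable def fC (δ θ x : ℝ) : ℝ := Real.exp x * PA δ θ x

/-- The window. -/
noncomputable def Pw (δ x : ℝ) : ℝ := PA δ 0 x - PA δ (1 / 60) x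

/-- The cutoff of the window. -/
noncomputable def fW (δ x : ℝ) : ℝ := Real.exp x * Pw δ x

/-- The main term of the mean of `|ζ|² |∑ P(log n / log T) n^{-1/2-it}|²`. -/
noncomputable def S1g (P : ℝ → ℝ) (T : ℝ) : ℝ :=
  ∑ m ∈ Finset.Icc 1 ⌊T⌋₊, ∑ n ∈ Finset.Icc 1 ⌊T⌋₊,
    P (Real.log m / Real.log T) * P (Real.log n / Real.log T) * ((m.gcd n : ℝ) / (m * n)) *
      (Real.log T - Real.log (m / m.gcd n : ℕ) - Real.log (n / m.gcd n : ℕ))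

/-- The main term of the pairing with `ζ²`. -/
noncomputable def S2g (P Q : ℝ → ℝ) (T : ℝ) : ℝ :=
  ∑ m ∈ Finset.Icc 1 ⌊T⌋₊, ∑ n ∈ Finset.Icc 1 ⌊T⌋₊,
    P (Real.log m / Real.log T) * Q (Real.log n / Real.log T) * K3.dv (m * n) / (m * n)

/-! ### Numbers -/

/-- Majorant of `exp (om M u)` as a function of `tq 0 * ‖u‖`. -/
noncomputable def qb (y : ℝ) : ℝ := if y ≤ 2 then Real.exp (501 / 500 * y) else 19 * y

/-- Majorant of the transform of the window. -/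
noncomputable def mw (ξ : ℝ) : ℝ := min (1 / 20) (11 / 2 / ‖un 0 ξ‖)

/-- The loss in the arithmetic factor, main cutoff. -/
noncomputable def cA : ℝ := 58 / 10000

/-- The loss in the arithmetic factor, window. -/
noncomputable def cW : ℝ := 65 / 100000

/-- The loss in the pairing. -/
noncomputable def c2 : ℝ := 105 / 100000

/-- The relative loss on the side of the fourth moment. -/
noncomputable def eB (κ : ℝ) : ℝ := (1 - κ) * (43 / 100) + 4 / 1000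

/-- `|R_W - BF R_1| ≤ ((1-κ) c + η) 6/π² BF L³` on the circle. -/
def MB (φ : ℝ → ℝ) (κ cc : ℝ) : Prop := ∀ η : ℝ, 0 < η → ∃ M₀ : ℕ, ∀ M : ℕ, M₀ ≤ M → ∃ T₀ : ℝ,
    3 ≤ T₀ ∧ ∀ T, T₀ ≤ T → ∀ (N : ℕ) (c : ℕ → ℕ → ℂ), (N : ℝ) ≤ T ^ (1 / 60 : ℝ) →
    (∀ f, CMul f → ((WF κ T M (Finset.range (JJ T + 1)) ∅ f : ℝ) : ℂ) = GB N c f) →
    ∀ a : ℂ, ‖a‖ = 1 / (2 * Real.log T) →
    ‖RW φ T 0 N c a - ((BF κ T M : ℝ) : ℂ) * Rde φ T 0 1 1 a‖ ≤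
      ((1 - κ) * cc + η) * (6 / Real.pi ^ 2) * (BF κ T M * Real.log T ^ 3)

/-- The explicit constant of the theorem, `k = 1 + κ`. -/
noncomputable def CC7 (κ : ℝ) : ℝ := min 3 (Real.exp (5 * (κ * (1 - κ)) + κ / 100))

end K7
end Pool.Agent.Lib.MP_973905_nt
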