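import Pool.Agent.Lib.MP_973905_nt.K7.Stmts
import Pool.Agent.Lib.MP_973905_nt.F4.Cr4
import Pool.Agent.Lib.MP_973905_nt.F4.F4
import Pool.Agent.Lib.MP_973905_nt.F4.FB4
import Pool.Agent.Lib.MP_973905_nt.F4.Twist

/-! (A7) crude fourth moment with our weights. -/

namespace Pool.Agent.Lib.MP_973905_nt
namespace K7

open MeasureTheory ProbabilityTheory Complex Filter Topology K1 K4 K5

namespace F4WM

open F4.Cr4

lemma cutK_Vc : CutK F4.Vc where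
  cut := F4.FB4.cut_Vc
  zeroK := fun x hx => by
    rw [F4.Vc, Real.smoothTransition.zero_of_nonpos (by linarith), zero_mul]

lemma Q_cont' (T ν : ℝ) : Continuous fun t : ℝ => Q T ν t :=
  F4.Left4.hp_cont ⌊T⌋₊ (F4.qc T ν)

/-- bound on the small circle -/
lemma circle_bd : ∃ V T₁ : ℝ, 0 < V ∧ 3 ≤ T₁ ∧ ∀ T, T₁ ≤ T → ∀ X : ℝ,
    T ^ (985 / 1000 : ℝ) ≤ X → X ≤ T ^ (1 + 1 / 10000 : ℝ) → ∀ (R : ℂ → ℂ) (B : ℝ),
    0 ≤ B → (∀ a : ℂ, ‖a‖ = 1 / (2 * Real.log T) → ‖R a‖ ≤ B) →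
    ‖Real.circleAverage (MW X 12 R) 0 (1 / (2 * Real.log T))‖ ≤ V * Real.log T * B := by
  obtain ⟨Cz, L₀, hCz, hL₀, hz⟩ := F4.Twist.zeta_circle
  obtain ⟨G, hG, hG1⟩ := F4.Twist.Gamma_bdd (c := 12) (by norm_num)
  set E : ℝ := Real.exp 3 with hE
  have hE0 : 0 < E := Real.exp_pos _
  obtain ⟨T₁, hT₁⟩ := eventually_atTop.mp
    ((ThreeLines.ev_log (2 * Real.pi) (e := 1 / 2) (by norm_num)).and
    (Real.tendsto_log_atTop.eventually_ge_atTop (max L₀ 34)))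
  refine ⟨2 * (G * Cz + E * (G * Cz)), max T₁ 3, by positivity, le_max_right _ _, fun T hT => ?_⟩
  have hTT1 : T₁ ≤ T := (le_max_left _ _).trans hT
  have hT3 : 3 ≤ T := (le_max_right _ _).trans hT
  obtain ⟨e3, e4⟩ := hT₁ T hTT1
  have hLL0 : L₀ ≤ Real.log T := (le_max_left _ _).trans e4
  have hL34 : 34 ≤ Real.log T := (le_max_right _ _).trans e4
  intro X hX1 hX2 R B hBnn hB
  have hT0 : 0 < T := by linarith
  have hT1 : 1 ≤ T := by linarith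
  have hL0 : 0 < Real.log T := by linarith
  have hpi := Real.pi_pos
  have hXone : 1 ≤ X := (Real.one_le_rpow hT1 (by norm_num)).trans hX1
  have hX0 : 0 < X := by linarith
  refine ThreeLines.norm_circleAverage_le (by positivity) fun a ha => ?_
  set Y : ℝ := X / (2 * Real.pi) with hY
  have hY1 : 1 ≤ Y := by
    rw [hY, le_div_iff₀ (by positivity), one_mul]
    refine le_trans ?_ hX1
    calc 2 * Real.pi ≤ 2 * Real.pi * Real.log T := by nlinarith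
      _ ≤ T ^ (1 / 2 : ℝ) := e3
      _ ≤ _ := Real.rpow_le_rpow_of_exponent_le hT1 (by norm_num)
  have hYX : Y ≤ T ^ (1 + 1 / 10000 : ℝ) := by
    refine le_trans ?_ hX2
    rw [hY]
    apply div_le_self hX0.le
    have := Real.pi_gt_three
    linarith
  have hY0 : 0 < Y := by linarith
  obtain ⟨z1, z2⟩ := hz (2 * Real.log T) (by linarith) a ha
  have hr : ‖a‖ ≤ 1 / 34 := by
    rw [ha]; exact one_div_le_one_div_of_le (by norm_num) (by linarith)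
  have hre : |a.re| ≤ 1 / (2 * Real.log T) := ha ▸ Complex.abs_re_le_norm a
  have hre9 : |a.re| ≤ 9 / 16 := (Complex.abs_re_le_norm a).trans (by linarith)
  have hb1 := hB a ha
  have hb2 := hB (-a) (by simpa using ha)
  have hYp : ‖(Y : ℂ) ^ (-(2 * a))‖ ≤ E := by
    rw [ThreeLines.norm_X_cpow hY0]
    calc Y ^ (-(2 * a.re)) ≤ Y ^ (2 * (1 / (2 * Real.log T))) := by
          apply Real.rpow_le_rpow_of_exponent_le hY1
          have := (abs_le.mp hre).1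
          linarith
      _ ≤ (T ^ (1 + 1 / 10000 : ℝ)) ^ (2 * (1 / (2 * Real.log T))) := by
          apply Real.rpow_le_rpow hY0.le hYX
          positivity
      _ = Real.exp (1 + 1 / 10000) := by
          rw [← Real.rpow_mul hT0.le, Real.rpow_def_of_pos hT0]
          congr 1
          field_simp
      _ ≤ E := by
          rw [hE]
          apply Real.exp_le_exp.mpr
          norm_num
  have g1 : ‖Gamma (12 : ℂ)‖ ≤ G := by simpa using hG1 0 (by norm_num)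
  have g2 : ‖Gamma (12 - 2 * a)‖ ≤ G := hG1 a hre9
  rw [MW]
  calc _ ≤ G * (Cz * (2 * Real.log T) * B) + E * (G * (Cz * (2 * Real.log T) * B)) := by
        refine (norm_add_le _ _).trans (add_le_add ?_ ?_)
        · rw [norm_mul, norm_mul]
          gcongr
        · rw [norm_mul, norm_mul, norm_mul]
          gcongr
    _ = _ := by ring

/-- The Tonelli step. -/
theorem mean (hj : StJW) (ha : F4.StAfe) (m : ℕ) : ∃ C : ℝ, 0 < C ∧ ∃ T₀ : ℝ, 3 ≤ T₀ ∧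
    ∀ T, T₀ ≤ T → ∀ X : ℝ, T ^ (985 / 1000 : ℝ) ≤ X → X ≤ T ^ (1 + 1 / 10000 : ℝ) →
    ∀ (N : ℕ) (c : ℕ → ℕ → ℂ), (N : ℝ) ≤ T ^ (1 / 60 : ℝ) →
    (∀ m n, ‖c m n‖ ≤ T ^ (1 / 1000 : ℝ)) →
    (∀ m n : ℕ, T ^ (1 / 60 : ℝ) < (m : ℝ) * n → c m n = 0) →
    ∀ P : ℝ → ℝ, Continuous P → (∀ t, 0 ≤ P t) → (∀ t, P t ≤ T ^ (1 / 100 : ℝ)) →
    (∀ t : ℝ, ((P t : ℝ) : ℂ) = GB N c (fs (1 / 2 + t * I))) →
    ∀ B : ℝ, 0 ≤ B → (∀ (ν : ℝ) (a : ℂ), ‖a‖ = 1 / (2 * Real.log T) →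
      ‖RW F4.Vc T ν N c a‖ ≤ B * (1 + Real.log T * |ν|) ^ m) →
    ∫ t in X..(2 * X), ‖riemannZeta (1 / 2 + t * I)‖ ^ 4 * P t ≤
      X * (C * Real.log T * B + T ^ (-(1 / 400) : ℝ)) := by
  obtain ⟨Cj, hCj, T₁, hT₁, hjw⟩ := hj F4.Vc cutK_Vc
  obtain ⟨Ca, hCa, T₂, hT₂, hafe⟩ := ha (m + 2)
  obtain ⟨V, T₃, hV, hT₃, hcirc⟩ := circle_bd
  obtain ⟨Cz, hCz, hzg⟩ := zeta_growth
  set Ct : ℝ := V + Cj with hCt'
  have hCt : 0 < Ct := by positivity
  set K₁ : ℝ := 8 * Ca * Ct * Real.exp 2 with hK₁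
  set K₂ : ℝ := 16 * (4 * Cz) ^ 2 * 9 ^ 4 with hK₂
  have hK₁0 : 0 < K₁ := by positivity
  have hK₂0 : 0 < K₂ := by positivity
  -- large T
  have hlarge : ∀ᶠ T : ℝ in atTop, K₁ * Real.log T * T ^ (-(1 / 200) : ℝ) + K₂ * T ^ (-1 : ℝ) ≤
      T ^ (-(1 / 400) : ℝ) := by
    have h1 := (isLittleO_log_rpow_atTop (r := 1 / 800) (by norm_num)).def
      (c := (K₁ + 1)⁻¹) (by positivity)
    have h2 : Tendsto (fun T : ℝ => T ^ (1 / 800 : ℝ)) atTop atTop :=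
      tendsto_rpow_atTop (by norm_num)
    filter_upwards [h1, eventually_ge_atTop 1, h2.eventually_ge_atTop (2 + 2 * K₂)] with T hT hT1 hT2
    have hT0 : 0 < T := by linarith
    rw [Real.norm_eq_abs, Real.norm_eq_abs, abs_of_nonneg (Real.log_nonneg hT1),
      abs_of_nonneg (by positivity)] at hT
    set u : ℝ := T ^ (1 / 800 : ℝ) with hu
    have hu0 : 0 < u := Real.rpow_pos_of_pos hT0 _
    have hu1 : 1 ≤ u := by linarith
    have e1 : T ^ (-(1 / 200) : ℝ) = (u ^ 4)⁻¹ := by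
      rw [hu, ← Real.rpow_natCast, ← Real.rpow_mul hT0.le, ← Real.rpow_neg hT0.le]; norm_num
    have e2 : T ^ (-1 : ℝ) ≤ (u ^ 4)⁻¹ := by
      rw [← e1]
      exact Real.rpow_le_rpow_of_exponent_le hT1 (by norm_num)
    have e3 : T ^ (-(1 / 400) : ℝ) = (u ^ 2)⁻¹ := by
      rw [hu, ← Real.rpow_natCast, ← Real.rpow_mul hT0.le, ← Real.rpow_neg hT0.le]; norm_num
    have h3 : K₁ * Real.log T ≤ u := by
      calc K₁ * Real.log T ≤ (K₁ + 1) * ((K₁ + 1)⁻¹ * u) := by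
            refine mul_le_mul (by linarith) hT (Real.log_nonneg hT1) (by positivity)
        _ = u := by rw [← mul_assoc, mul_inv_cancel₀ (by positivity), one_mul]
    rw [e1, e3]
    calc K₁ * Real.log T * (u ^ 4)⁻¹ + K₂ * T ^ (-1 : ℝ) ≤ u * (u ^ 4)⁻¹ + K₂ * (u ^ 4)⁻¹ := by
          gcongr
      _ = (u + K₂) * (u ^ 4)⁻¹ := by ring
      _ ≤ u ^ 2 * (u ^ 4)⁻¹ := by
          gcongr
          nlinarith
      _ = (u ^ 2)⁻¹ := by field_simp
  obtain ⟨T₄, hT₄⟩ := eventually_atTop.1 hlarge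
  refine ⟨K₁, hK₁0, max (max T₁ T₂) (max T₃ T₄), hT₁.trans ((le_max_left _ _).trans (le_max_left _ _)),
    fun T hT X hX1 hX2 N c hN hc hc0 P hPc hP0 hPle hPG B hB hRW => ?_⟩
  have hTT₁ : T₁ ≤ T := ((le_max_left _ _).trans (le_max_left _ _)).trans hT
  have hTT₂ : T₂ ≤ T := ((le_max_right _ _).trans (le_max_left _ _)).trans hT
  have hTT₃ : T₃ ≤ T := ((le_max_left _ _).trans (le_max_right _ _)).trans hT
  have hTT₄ : T₄ ≤ T := ((le_max_right _ _).trans (le_max_right _ _)).trans hT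
  have hT3 : 3 ≤ T := hT₁.trans hTT₁
  have hT1 : 1 < T := by linarith
  have hT0 : 0 < T := by linarith
  have hL1 : 1 ≤ Real.log T := by
    rw [Real.le_log_iff_exp_le hT0]
    have := Real.exp_one_lt_d9
    linarith
  set L := Real.log T with hL
  have hL0 : 0 < L := by linarith
  have hXpos : 1 ≤ X := (Real.one_le_rpow hT1.le (by norm_num)).trans hX1
  have hX0 : 0 < X := by linarith
  set Z : ℝ → ℝ := fun t => ‖riemannZeta (1 / 2 + t * I)‖ with hZ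
  have hZc : Continuous Z := zcont.norm
  have hZle : ∀ t ∈ Set.Ioc X (2 * X), Z t ≤ 4 * Cz * (1 + 2 * X) ^ 2 := by
    intro t ht
    have h1 := hzg (1 / 2 + t * I) (by simp; norm_num) (by simp; norm_num)
    have hs : (1 / 2 + t * I : ℂ) ≠ 1 := by
      intro h
      have := congrArg re h
      simp at this
    have h2 : riemannZeta₁ (1 / 2 + t * I) = (1 / 2 + t * I - 1) * riemannZeta (1 / 2 + t * I) := by
      rw [riemannZeta_eq_inv_sub_mul hs, ← mul_assoc, mul_inv_cancel₀ (sub_ne_zero.2 hs), one_mul]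
    have h3 : (1 / 2 : ℝ) ≤ ‖(1 / 2 + t * I - 1 : ℂ)‖ := by
      refine le_trans ?_ (abs_re_le_norm _)
      simp
      norm_num
    have h4 : (1 / 2 + t * I : ℂ).im = t := by simp
    rw [h2, norm_mul, h4, abs_of_nonneg (by linarith [ht.1] : 0 ≤ t)] at h1
    have h5 : (1 + t) ^ 2 ≤ (1 + 2 * X) ^ 2 := by
      have := ht.2
      have := ht.1
      exact pow_le_pow_left₀ (by linarith) (by linarith) 2
    have h6 : 0 ≤ Cz * (1 + 2 * X) ^ 2 := by positivity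
    have h7 : 1 / 2 * Z t ≤ Cz * (1 + 2 * X) ^ 2 := by
      calc 1 / 2 * Z t ≤ ‖(1 / 2 + t * I - 1 : ℂ)‖ * ‖riemannZeta (1 / 2 + t * I)‖ := by
            gcongr
        _ ≤ Cz * (1 + t) ^ 2 := h1
        _ ≤ _ := by gcongr
    linarith
  -- the joint function
  set F : ℝ × ℝ → ℝ := fun p => Z p.1 ^ 2 * ‖Q T p.2 p.1‖ ^ 2 * P p.1 * w L (m + 2) p.2 with hF
  have hFc : Continuous F := by
    have h1 : Continuous fun p : ℝ × ℝ => Z p.1 := hZc.comp continuous_fst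
    have h2 : Continuous fun p : ℝ × ℝ => P p.1 := hPc.comp continuous_fst
    have h3 : Continuous fun p : ℝ × ℝ => w L (m + 2) p.2 := (w_cont hL0 _).comp continuous_snd
    exact (((h1.pow 2).mul (Q_cont.norm.pow 2)).mul h2).mul h3
  have hF0 : ∀ p, 0 ≤ F p := fun p => by
    have h1 := w_nonneg hL0 (m + 2) p.2
    have h2 := hP0 p.1
    simp only [hF]
    positivity
  set D : ℝ := (4 * Cz * (1 + 2 * X) ^ 2) ^ 2 * T ^ 2 * T ^ (1 / 100 : ℝ) with hD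
  have hFint : Integrable F ((volume.restrict (Set.Ioc X (2 * X))).prod volume) := by
    have h1 : Integrable (fun p : ℝ × ℝ => D * Real.exp (-p.2 ^ 2))
        ((volume.restrict (Set.Ioc X (2 * X))).prod volume) := by
      have := (integrable_const (μ := volume.restrict (Set.Ioc X (2 * X))) D).mul_prod int_exp
      exact this
    refine h1.mono' hFc.aestronglyMeasurable ?_
    have h2 : ∀ᵐ p ∂((volume.restrict (Set.Ioc X (2 * X))).prod (volume : Measure ℝ)),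
        p.1 ∈ Set.Ioc X (2 * X) := by
      have h3 : ∀ᵐ t ∂(volume.restrict (Set.Ioc X (2 * X))), t ∈ Set.Ioc X (2 * X) :=
        ae_restrict_mem measurableSet_Ioc
      exact Measure.quasiMeasurePreserving_fst.ae h3
    filter_upwards [h2] with p hp
    rw [Real.norm_eq_abs, abs_of_nonneg (hF0 p)]
    simp only [hF, hD]
    have h3 := hZle p.1 hp
    have h4 := Q_le hT1 p.2 p.1
    have h5 := hPle p.1
    have h5' := hP0 p.1
    have h6 := w_le hL0 (m + 2) p.2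
    have h7 := w_nonneg hL0 (m + 2) p.2
    have h8 : 0 ≤ Z p.1 := norm_nonneg _
    gcongr
  -- the pointwise bound
  have hpt : ∀ t ∈ Set.Ioc X (2 * X), Z t ^ 4 * P t ≤
      Ca * L * (∫ ν, F (t, ν)) + T ^ (-10 : ℝ) * ((4 * Cz * (1 + 2 * X) ^ 2) ^ 2 *
        T ^ (1 / 100 : ℝ)) := by
    intro t ht
    have ht1 : T ^ (1 / 2 : ℝ) ≤ t := by
      refine le_trans ?_ (hX1.trans ht.1.le)
      exact Real.rpow_le_rpow_of_exponent_le hT1.le (by norm_num)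
    have ht2 : t ≤ 2 * T ^ (1 + 1 / 10000 : ℝ) := ht.2.trans (by linarith)
    have h1 := hafe T hTT₂ t ht1 ht2
    have h8 : 0 ≤ Z t := norm_nonneg _
    have h9 : 0 ≤ P t := hP0 t
    have h2 : ∫ ν, F (t, ν) = Z t ^ 2 * P t * ∫ ν : ℝ, ‖Q T ν t‖ ^ 2 * w L (m + 2) ν := by
      rw [← integral_const_mul]
      congr 1
      funext ν
      simp only [hF]
      ring
    have h3 : Z t ^ 2 ≤ Ca * L * (∫ ν : ℝ, ‖Q T ν t‖ ^ 2 * w L (m + 2) ν) + T ^ (-10 : ℝ) := h1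
    have hTT : 0 < T ^ (-10 : ℝ) := Real.rpow_pos_of_pos hT0 _
    rw [h2]
    calc Z t ^ 4 * P t = (Z t ^ 2 * P t) * Z t ^ 2 := by ring
      _ ≤ (Z t ^ 2 * P t) *
          (Ca * L * (∫ ν : ℝ, ‖Q T ν t‖ ^ 2 * w L (m + 2) ν) + T ^ (-10 : ℝ)) := by gcongr
      _ = Ca * L * (Z t ^ 2 * P t * ∫ ν : ℝ, ‖Q T ν t‖ ^ 2 * w L (m + 2) ν) +
          T ^ (-10 : ℝ) * (Z t ^ 2 * P t) := by ring
      _ ≤ _ := by
          have h5 := hZle t ht
          have h6 := hPle t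
          gcongr
  -- integrate
  have hswap : ∫ t in Set.Ioc X (2 * X), ∫ ν, F (t, ν) = ∫ ν, ∫ t in Set.Ioc X (2 * X), F (t, ν) :=
    integral_integral_swap hFint
  have hinner : ∀ ν, ∫ t in Set.Ioc X (2 * X), F (t, ν) ≤ Real.exp 2 * X * Ct *
      (L * B * (1 + (L * ν) ^ 2)⁻¹ + T ^ (-(1 / 200) : ℝ) * Real.exp (-ν ^ 2)) := by
    intro ν
    set g : ℝ → ℝ := fun t => Z t ^ 2 * ‖Q T ν t‖ ^ 2 * P t * Wr X t with hg
    obtain ⟨hi', hle'⟩ := hjw T hTT₁ X hX1 hX2 ν N c hN hc hc0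
    have hfun : (fun t : ℝ => ((‖riemannZeta (1 / 2 + t * I)‖ ^ 2 * ‖Qp F4.Vc T ν t‖ ^ 2 : ℝ) : ℂ) *
        GB N c (fs (1 / 2 + t * I)) * ((Wr X t : ℝ) : ℂ)) = fun t : ℝ => ((g t : ℝ) : ℂ) := by
      funext t
      rw [← hPG t]
      have hQ : Qp F4.Vc T ν t = Q T ν t := rfl
      rw [hQ]
      simp only [hg, hZ]
      push_cast
      ring
    rw [hfun] at hi' hle'
    have hi : IntegrableOn g (Set.Ioi 0) := by
      have h1 : Integrable (fun t : ℝ => ((g t : ℝ) : ℂ)) (volume.restrict (Set.Ioi 0)) := hi'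
      have h2 := h1.re
      simp only [RCLike.re_to_complex, Complex.ofReal_re] at h2
      exact h2
    rw [integral_complex_ofReal] at hle'
    have hle : ∫ t in Set.Ioi (0 : ℝ), g t ≤
        Ct * L * (B * (1 + L * |ν|) ^ m) + Ct * (1 + |ν|) * T ^ (-(1 / 200) : ℝ) := by
      have h1 := hcirc T hTT₃ X hX1 hX2 (RW F4.Vc T ν N c) (B * (1 + L * |ν|) ^ m)
        (by positivity) (hRW ν)
      have h2 : ‖(((∫ t in Set.Ioi (0 : ℝ), g t : ℝ)) : ℂ)‖ ≤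
          V * L * (B * (1 + L * |ν|) ^ m) + Cj * (1 + |ν|) * T ^ (-(1 / 200) : ℝ) := by
        calc ‖(((∫ t in Set.Ioi (0 : ℝ), g t : ℝ)) : ℂ)‖
            = ‖Real.circleAverage (MW X 12 (RW F4.Vc T ν N c)) 0 (1 / (2 * L)) +
              ((((∫ t in Set.Ioi (0 : ℝ), g t : ℝ)) : ℂ) -
                Real.circleAverage (MW X 12 (RW F4.Vc T ν N c)) 0 (1 / (2 * L)))‖ := by
              congr 1; ring
          _ ≤ _ := (norm_add_le _ _).trans (add_le_add h1 hle')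
      have h3 : ∫ t in Set.Ioi (0 : ℝ), g t ≤ ‖(((∫ t in Set.Ioi (0 : ℝ), g t : ℝ)) : ℂ)‖ := by
        rw [Complex.norm_real]
        exact le_abs_self _
      refine (h3.trans h2).trans ?_
      have h4 : 0 ≤ B * (1 + L * |ν|) ^ m := by positivity
      have h5 : 0 ≤ (1 + |ν|) * T ^ (-(1 / 200) : ℝ) := by positivity
      have h6 : V ≤ Ct := by rw [hCt']; linarith
      have h7 : Cj ≤ Ct := by rw [hCt']; linarith
      rw [mul_assoc Cj, mul_assoc Ct (1 + |ν|)]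
      gcongr
    have hw0 := w_nonneg hL0 (m + 2) ν
    have h1 : ∫ t in Set.Ioc X (2 * X), F (t, ν) =
        w L (m + 2) ν * ∫ t in Set.Ioc X (2 * X), Z t ^ 2 * ‖Q T ν t‖ ^ 2 * P t := by
      rw [← integral_const_mul]
      congr 1
      funext t
      simp only [hF]
      ring
    have hQc := Q_cont' T ν
    have hsub : Set.Ioc X (2 * X) ⊆ Set.Ioi (0 : ℝ) := fun t ht => hX0.trans ht.1
    have h2 : ∫ t in Set.Ioc X (2 * X), Z t ^ 2 * ‖Q T ν t‖ ^ 2 * P t ≤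
        ∫ t in Set.Ioc X (2 * X), Real.exp 2 * X * g t := by
      refine setIntegral_mono_on ?_ ((hi.mono_set hsub).const_mul _) measurableSet_Ioc fun t ht => ?_
      · exact ((((hZc.pow 2).mul (hQc.norm.pow 2)).mul hPc).continuousOn.integrableOn_Icc).mono_set
          Set.Ioc_subset_Icc_self
      · have h3 := wt_ge hX0 ht.1.le ht.2
        have h5 := hP0 t
        simp only [hg]
        have h4 : 0 ≤ Z t ^ 2 * ‖Q T ν t‖ ^ 2 * P t := by positivity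
        calc Z t ^ 2 * ‖Q T ν t‖ ^ 2 * P t
            ≤ Z t ^ 2 * ‖Q T ν t‖ ^ 2 * P t *
              (Real.exp 2 * X * (X⁻¹ * (t / X) ^ 11 * Real.exp (-(t / X)))) :=
              le_mul_of_one_le_right h4 h3
          _ = _ := by rw [Wr]; ring
    have h3 : ∫ t in Set.Ioc X (2 * X), Real.exp 2 * X * g t ≤
        Real.exp 2 * X * ∫ t in Set.Ioi (0 : ℝ), g t := by
      rw [integral_const_mul]
      refine mul_le_mul_of_nonneg_left ?_ (by positivity)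
      refine setIntegral_mono_set hi ?_ (HasSubset.Subset.eventuallyLE hsub)
      rw [EventuallyLE, ae_restrict_iff' measurableSet_Ioi]
      refine Filter.Eventually.of_forall fun t ht => ?_
      have ht0 : (0 : ℝ) < t := ht
      have h5 := hP0 t
      simp only [hg, Pi.zero_apply, Wr]
      positivity
    have h4 : ∫ t in Set.Ioc X (2 * X), Z t ^ 2 * ‖Q T ν t‖ ^ 2 * P t ≤
        Real.exp 2 * X * (Ct * L * (B * (1 + L * |ν|) ^ m) +
          Ct * (1 + |ν|) * T ^ (-(1 / 200) : ℝ)) := by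
      refine (h2.trans h3).trans ?_
      gcongr
    rw [h1]
    have hw1 := w_one hL1 m ν
    have hw2 := w_two hL1 m ν
    have hTT : 0 < T ^ (-(1 / 200) : ℝ) := Real.rpow_pos_of_pos hT0 _
    calc w L (m + 2) ν * ∫ t in Set.Ioc X (2 * X), Z t ^ 2 * ‖Q T ν t‖ ^ 2 * P t
        ≤ w L (m + 2) ν * (Real.exp 2 * X * (Ct * L * (B * (1 + L * |ν|) ^ m) +
          Ct * (1 + |ν|) * T ^ (-(1 / 200) : ℝ))) := by gcongr
      _ = Real.exp 2 * X * Ct * (L * B * ((1 + L * |ν|) ^ m * w L (m + 2) ν) +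
          T ^ (-(1 / 200) : ℝ) * ((1 + |ν|) * w L (m + 2) ν)) := by ring
      _ ≤ _ := by gcongr
  have hLHS : ∫ t in X..(2 * X), ‖riemannZeta (1 / 2 + t * I)‖ ^ 4 * P t =
      ∫ t in Set.Ioc X (2 * X), Z t ^ 4 * P t := by
    rw [intervalIntegral.integral_of_le (by linarith)]
  rw [hLHS]
  set R : ℝ := T ^ (-10 : ℝ) * ((4 * Cz * (1 + 2 * X) ^ 2) ^ 2 * T ^ (1 / 100 : ℝ)) with hR
  have hI1 : IntegrableOn (fun t => Z t ^ 4 * P t) (Set.Ioc X (2 * X)) :=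
    (((hZc.pow 4).mul hPc).continuousOn.integrableOn_Icc).mono_set Set.Ioc_subset_Icc_self
  have hI2 : IntegrableOn (fun t => ∫ ν, F (t, ν)) (Set.Ioc X (2 * X)) := hFint.integral_prod_left
  have hI3 : Integrable (fun ν => ∫ t in Set.Ioc X (2 * X), F (t, ν)) := hFint.integral_prod_right
  have hvol : (volume.restrict (Set.Ioc X (2 * X))).real Set.univ = X := by
    rw [Measure.real, Measure.restrict_apply_univ, Real.volume_Ioc, ENNReal.toReal_ofReal (by linarith)]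
    ring
  have s1 : ∫ t in Set.Ioc X (2 * X), Z t ^ 4 * P t ≤
      Ca * L * (∫ t in Set.Ioc X (2 * X), ∫ ν, F (t, ν)) + X * R := by
    calc ∫ t in Set.Ioc X (2 * X), Z t ^ 4 * P t ≤
          ∫ t in Set.Ioc X (2 * X), (Ca * L * (∫ ν, F (t, ν)) + R) :=
          setIntegral_mono_on hI1 ((hI2.const_mul _).add (integrable_const R)) measurableSet_Ioc hpt
      _ = _ := by
          rw [integral_add (hI2.const_mul _) (integrable_const R), integral_const_mul, integral_const,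
            smul_eq_mul, hvol]
  have hI4 : Integrable (fun ν : ℝ => Real.exp 2 * X * Ct *
      (L * B * (1 + (L * ν) ^ 2)⁻¹ + T ^ (-(1 / 200) : ℝ) * Real.exp (-ν ^ 2))) :=
    (((int_inv hL0).const_mul _).add (int_exp.const_mul _)).const_mul _
  have s2 : ∫ ν, ∫ t in Set.Ioc X (2 * X), F (t, ν) ≤ Real.exp 2 * X * Ct *
      (L * B * (∫ ν : ℝ, (1 + (L * ν) ^ 2)⁻¹) + T ^ (-(1 / 200) : ℝ) * ∫ ν : ℝ, Real.exp (-ν ^ 2)) := by
    refine (integral_mono hI3 hI4 hinner).trans (le_of_eq ?_)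
    rw [integral_const_mul, integral_add ((int_inv hL0).const_mul _) (int_exp.const_mul _),
      integral_const_mul, integral_const_mul]
  rw [hswap] at s1
  have hTT : 0 < T ^ (-(1 / 200) : ℝ) := Real.rpow_pos_of_pos hT0 _
  have v1 := int_inv_val hL0
  have v2 := int_exp_val
  have s3 : Ca * L * (∫ ν, ∫ t in Set.Ioc X (2 * X), F (t, ν)) ≤
      X * (K₁ * L * B + K₁ * L * T ^ (-(1 / 200) : ℝ)) := by
    calc Ca * L * (∫ ν, ∫ t in Set.Ioc X (2 * X), F (t, ν))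
        ≤ Ca * L * (Real.exp 2 * X * Ct *
          (L * B * (∫ ν : ℝ, (1 + (L * ν) ^ 2)⁻¹) +
            T ^ (-(1 / 200) : ℝ) * ∫ ν : ℝ, Real.exp (-ν ^ 2))) := by gcongr
      _ = Ca * Real.exp 2 * X * Ct * (L * B * (L * ∫ ν : ℝ, (1 + (L * ν) ^ 2)⁻¹) +
            L * T ^ (-(1 / 200) : ℝ) * ∫ ν : ℝ, Real.exp (-ν ^ 2)) := by ring
      _ ≤ Ca * Real.exp 2 * X * Ct * (L * B * 4 + L * T ^ (-(1 / 200) : ℝ) * 2) := by gcongr
      _ ≤ Ca * Real.exp 2 * X * Ct * (L * B * 8 + L * T ^ (-(1 / 200) : ℝ) * 8) := by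
          gcongr <;> norm_num
      _ = _ := by rw [hK₁]; ring
  have s4 : R ≤ K₂ * T ^ (-1 : ℝ) := by
    have h1' : (1 : ℝ) ≤ T ^ (1 + 1 / 10000 : ℝ) := Real.one_le_rpow hT1.le (by norm_num)
    have h1 : 1 + 2 * X ≤ 3 * T ^ (1 + 1 / 10000 : ℝ) := by linarith
    have h2 : (1 + 2 * X) ^ 4 ≤ 81 * T ^ (4 + 4 / 10000 : ℝ) := by
      calc (1 + 2 * X) ^ 4 ≤ (3 * T ^ (1 + 1 / 10000 : ℝ)) ^ 4 :=
            pow_le_pow_left₀ (by positivity) h1 4
        _ = 81 * (T ^ (1 + 1 / 10000 : ℝ)) ^ 4 := by ring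
        _ = _ := by
            rw [← Real.rpow_natCast (T ^ (1 + 1 / 10000 : ℝ)), ← Real.rpow_mul hT0.le]
            norm_num
    calc R = T ^ (-10 : ℝ) * ((4 * Cz) ^ 2 * (1 + 2 * X) ^ 4 * T ^ (1 / 100 : ℝ)) := by
          rw [hR]; ring
      _ ≤ T ^ (-10 : ℝ) * ((4 * Cz) ^ 2 * (81 * T ^ (4 + 4 / 10000 : ℝ)) * T ^ (1 / 100 : ℝ)) := by
          gcongr
      _ = (4 * Cz) ^ 2 * 81 * (T ^ (-10 : ℝ) * T ^ (4 + 4 / 10000 : ℝ) * T ^ (1 / 100 : ℝ)) := by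
          ring
      _ = (4 * Cz) ^ 2 * 81 * T ^ (-10 + (4 + 4 / 10000) + 1 / 100 : ℝ) := by
          rw [← Real.rpow_add hT0, ← Real.rpow_add hT0]
      _ ≤ (4 * Cz) ^ 2 * 81 * T ^ (-1 : ℝ) := by
          gcongr
          · exact hT1.le
          · norm_num
      _ ≤ K₂ * T ^ (-1 : ℝ) := by
          gcongr
          rw [hK₂]
          have : 0 ≤ (4 * Cz) ^ 2 := by positivity
          nlinarith
  have s5 := hT₄ T hTT₄
  calc ∫ t in Set.Ioc X (2 * X), Z t ^ 4 * P t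
      ≤ X * (K₁ * L * B + K₁ * L * T ^ (-(1 / 200) : ℝ)) + X * (K₂ * T ^ (-1 : ℝ)) := by
        refine s1.trans ?_
        gcongr
    _ = X * (K₁ * L * B + (K₁ * L * T ^ (-(1 / 200) : ℝ) + K₂ * T ^ (-1 : ℝ))) := by ring
    _ ≤ _ := by gcongr

end F4WM

open F4WM in
/-- (A7) crude fourth moment with our weights -/
theorem stF4W (hj : StJW) (hq : StBQ7) (hm : StMainC7) (ha : F4.StAfe) (hcr : F4.StCr4)
    (hB : StWB) : StF4W := by
  intro κ hκ0 hκ1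
  obtain ⟨Cm, hmain⟩ := hm κ hκ0 hκ1
  obtain ⟨Mm, hmain⟩ := hmain F4.Vc cutK_Vc
  obtain ⟨Mq, hMq7, hq⟩ := hq κ hκ0 hκ1
  obtain ⟨Mb, hMb7, hB⟩ := hB κ hκ0 hκ1
  obtain ⟨C₁, hC₁, T₁, hT₁3, hmean⟩ := mean hj ha Cm
  obtain ⟨T₂, hT₂3, hcr⟩ := hcr
  refine ⟨Cm + C₁ + 1, 1 / 1000, by positivity, by norm_num, max (max Mm Mq) (max Mb 1),
    fun M hM => ?_⟩
  have hMm : Mm ≤ M := ((le_max_left _ _).trans (le_max_left _ _)).trans hM
  have hMq : Mq ≤ M := ((le_max_right _ _).trans (le_max_left _ _)).trans hM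
  have hMb : Mb ≤ M := ((le_max_left _ _).trans (le_max_right _ _)).trans hM
  have hM1 : 1 ≤ M := ((le_max_right _ _).trans (le_max_right _ _)).trans hM
  obtain ⟨Tm, hTm3, hmain⟩ := hmain M hMm
  obtain ⟨Tq, hTq3, hq⟩ := hq M hMq
  obtain ⟨Tb, hTb3, hB⟩ := hB M hMb
  have ev1 : ∀ᶠ T : ℝ in atTop, T₂ ≤ 2 * T ^ (985 / 1000 : ℝ) := by
    filter_upwards [(tendsto_rpow_atTop (show (0 : ℝ) < 985 / 1000 by norm_num)).eventually_ge_atTop
      T₂, eventually_gt_atTop 0] with T hT hT0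
    have := Real.rpow_nonneg hT0.le (985 / 1000)
    linarith
  have ev2 : ∀ᶠ T : ℝ in atTop, 4 ≤ T ^ (1 / 1000 : ℝ) :=
    (tendsto_rpow_atTop (show (0 : ℝ) < 1 / 1000 by norm_num)).eventually_ge_atTop 4
  obtain ⟨T₄, hT₄⟩ := eventually_atTop.mp (ev1.and ev2)
  refine ⟨max (max T₁ Tm) (max (max Tq Tb) T₄), hT₁3.trans ((le_max_left _ _).trans (le_max_left _ _)),
    fun T hT g h hgh Y hY0 hYT => ?_⟩
  have hTa : T₁ ≤ T := ((le_max_left _ _).trans (le_max_left _ _)).trans hT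
  have hTm : Tm ≤ T := ((le_max_right _ _).trans (le_max_left _ _)).trans hT
  have hTq : Tq ≤ T := (((le_max_left _ _).trans (le_max_left _ _)).trans (le_max_right _ _)).trans hT
  have hTb : Tb ≤ T := (((le_max_right _ _).trans (le_max_left _ _)).trans (le_max_right _ _)).trans hT
  have hT4 : T₄ ≤ T := ((le_max_right _ _).trans (le_max_right _ _)).trans hT
  have hT3 : 3 ≤ T := hT₁3.trans hTa
  have hT0 : 0 < T := by linarith
  have hT1 : 1 ≤ T := by linarith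
  have hL0 : 0 < Real.log T := Real.log_pos (by linarith)
  obtain ⟨e1, e2⟩ := hT₄ T hT4
  obtain ⟨⟨c, hc1, hc2, hc3⟩, -⟩ := hq T hTq g h
  obtain ⟨hW0, -, hWc, -, hWle, -⟩ := hB T hTb g h
  set W : ℝ → ℝ := fun t => WF κ T M g h (fs (1 / 2 + t * I)) with hW
  have hP0 : 0 ≤ ∏ j ∈ h, ss M (JJ T) j := Finset.prod_nonneg fun j _ => (Real.exp_pos _).le
  have hLk0 := Real.rpow_nonneg hL0.le ((1 + κ) ^ 2 - 1)
  have hLk1 := Real.rpow_nonneg hL0.le ((1 + κ) ^ 2)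
  have hN : ((⌊T ^ (1 / 60 : ℝ)⌋₊ : ℕ) : ℝ) ≤ T ^ (1 / 60 : ℝ) :=
    Nat.floor_le (Real.rpow_nonneg hT0.le _)
  have hdy : ∀ X : ℝ, T ^ (985 / 1000 : ℝ) ≤ X → X ≤ T →
      ∫ t in X..(2 * X), ‖riemannZeta (1 / 2 + t * I)‖ ^ 4 * W t ≤
        X * (Real.exp ((Cm + C₁ + 1) * M) * Real.log T ^ ((1 + κ) ^ 2) *
          (∏ j ∈ h, ss M (JJ T) j) + T ^ (-(1 / 400) : ℝ)) := by
    intro X hX1 hX2
    have hX2' : X ≤ T ^ (1 + 1 / 10000 : ℝ) := by
      refine hX2.trans ?_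
      calc T = T ^ (1 : ℝ) := (Real.rpow_one T).symm
        _ ≤ _ := Real.rpow_le_rpow_of_exponent_le hT1 (by norm_num)
    have hX0 : 0 < X := lt_of_lt_of_le (Real.rpow_pos_of_pos hT0 _) hX1
    have h1 := hmean T hTa X hX1 hX2' ⌊T ^ (1 / 60 : ℝ)⌋₊ c hN
      (fun m n => (hc1 m n).trans (Real.rpow_le_rpow_of_exponent_le hT1 (by norm_num))) hc2 W hWc
      (fun t => hW0 _) hWle (fun t => hc3 _ (cmul_fs _))
      (Real.exp (Cm * M) * Real.log T ^ ((1 + κ) ^ 2 - 1) * ∏ j ∈ h, ss M (JJ T) j)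
      (by positivity) (fun ν a ha => by
        refine (hmain T hTm g h hgh ⌊T ^ (1 / 60 : ℝ)⌋₊ c hN hc3 ν a ha).trans (le_of_eq ?_)
        ring)
    refine h1.trans ?_
    have hLk : Real.log T * Real.log T ^ ((1 + κ) ^ 2 - 1) = Real.log T ^ ((1 + κ) ^ 2) := by
      rw [Real.rpow_sub_one hL0.ne']; field_simp
    have h3 : C₁ ≤ Real.exp ((C₁ + 1) * M) := by
      have h13 : (1 : ℝ) ≤ M := by exact_mod_cast hM1
      have h14 := Real.add_one_le_exp ((C₁ + 1) * M)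
      nlinarith
    have h4 : Real.exp ((Cm + C₁ + 1) * M) = Real.exp ((C₁ + 1) * M) * Real.exp (Cm * M) := by
      rw [← Real.exp_add]; ring_nf
    have h5 : C₁ * Real.log T * (Real.exp (Cm * M) * Real.log T ^ ((1 + κ) ^ 2 - 1) *
        ∏ j ∈ h, ss M (JJ T) j) ≤
        Real.exp ((Cm + C₁ + 1) * M) * Real.log T ^ ((1 + κ) ^ 2) * ∏ j ∈ h, ss M (JJ T) j := by
      rw [h4, ← hLk]
      calc C₁ * Real.log T * (Real.exp (Cm * M) * Real.log T ^ ((1 + κ) ^ 2 - 1) *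
            ∏ j ∈ h, ss M (JJ T) j) ≤ Real.exp ((C₁ + 1) * M) * Real.log T *
            (Real.exp (Cm * M) * Real.log T ^ ((1 + κ) ^ 2 - 1) * ∏ j ∈ h, ss M (JJ T) j) := by gcongr
        _ = _ := by ring
    gcongr
  have hzc : Continuous fun t : ℝ => ‖riemannZeta (1 / 2 + t * I)‖ ^ 4 := F4.Cr4.zcont.norm.pow 4
  have hFc : Continuous fun t : ℝ => ‖riemannZeta (1 / 2 + t * I)‖ ^ 4 * W t := hzc.mul hWc
  have hF0 : ∀ t : ℝ, 0 ≤ ‖riemannZeta (1 / 2 + t * I)‖ ^ 4 * W t := fun t =>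
    mul_nonneg (by positivity) (hW0 _)
  have hYp : 0 < T ^ (985 / 1000 : ℝ) := Real.rpow_pos_of_pos hT0 _
  have hBn : 0 ≤ Real.exp ((Cm + C₁ + 1) * M) * Real.log T ^ ((1 + κ) ^ 2) *
      (∏ j ∈ h, ss M (JJ T) j) + T ^ (-(1 / 400) : ℝ) := by
    have := Real.rpow_nonneg hT0.le (-(1 / 400))
    positivity
  have hD : ∫ t in (0 : ℝ)..(2 * T ^ (985 / 1000 : ℝ)), ‖riemannZeta (1 / 2 + t * I)‖ ^ 4 * W t ≤
      T ^ (997 / 1000 : ℝ) := by
    have hz0 : 0 ≤ 2 * T ^ (985 / 1000 : ℝ) := by positivity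
    have h2 : ∫ t in (0 : ℝ)..(2 * T ^ (985 / 1000 : ℝ)),
          ‖riemannZeta (1 / 2 + t * I)‖ ^ 4 * W t ≤
        ∫ t in (0 : ℝ)..(2 * T ^ (985 / 1000 : ℝ)),
          T ^ (1 / 100 : ℝ) * ‖riemannZeta (1 / 2 + t * I)‖ ^ 4 := by
      refine intervalIntegral.integral_mono_on hz0 (hFc.intervalIntegrable _ _)
        ((continuous_const.mul hzc).intervalIntegrable _ _) fun t _ => ?_
      rw [mul_comm]
      have h3 := hWle t
      gcongr
    rw [intervalIntegral.integral_const_mul] at h2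
    have h4 := hcr _ e1
    have h5 : (2 * T ^ (985 / 1000 : ℝ)) ^ (1 + 1 / 10000 : ℝ) ≤
        4 * T ^ (985 / 1000 * (1 + 1 / 10000) : ℝ) := by
      rw [Real.mul_rpow (by norm_num) hYp.le, ← Real.rpow_mul hT0.le]
      have : (2 : ℝ) ^ (1 + 1 / 10000 : ℝ) ≤ 2 ^ (2 : ℝ) :=
        Real.rpow_le_rpow_of_exponent_le (by norm_num) (by norm_num)
      have h6 : (2 : ℝ) ^ (2 : ℝ) = 4 := by norm_num
      rw [h6] at this
      gcongr
    have h8 : T ^ (1 / 100 : ℝ) * T ^ (985 / 1000 * (1 + 1 / 10000) : ℝ) * T ^ (1 / 1000 : ℝ) ≤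
        T ^ (997 / 1000 : ℝ) := by
      rw [← Real.rpow_add hT0, ← Real.rpow_add hT0]
      exact Real.rpow_le_rpow_of_exponent_le hT1 (by norm_num)
    have h9 : 0 ≤ T ^ (1 / 100 : ℝ) := Real.rpow_nonneg hT0.le _
    have h10 : 0 ≤ T ^ (985 / 1000 * (1 + 1 / 10000) : ℝ) := Real.rpow_nonneg hT0.le _
    calc ∫ t in (0 : ℝ)..(2 * T ^ (985 / 1000 : ℝ)), ‖riemannZeta (1 / 2 + t * I)‖ ^ 4 * W t ≤ _ := h2
      _ ≤ T ^ (1 / 100 : ℝ) * (4 * T ^ (985 / 1000 * (1 + 1 / 10000) : ℝ)) := by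
          gcongr
          exact h4.trans h5
      _ = T ^ (1 / 100 : ℝ) * T ^ (985 / 1000 * (1 + 1 / 10000) : ℝ) * 4 := by ring
      _ ≤ T ^ (1 / 100 : ℝ) * T ^ (985 / 1000 * (1 + 1 / 10000) : ℝ) * T ^ (1 / 1000 : ℝ) := by
          gcongr
      _ ≤ _ := h8
  have h1 := F4.Sum4.dyadic' hFc hF0 hYp hBn hdy hD hY0.le hYT
  refine h1.trans ?_
  set Pm := Real.exp ((Cm + C₁ + 1) * M) * Real.log T ^ ((1 + κ) ^ 2) *
      ∏ j ∈ h, ss M (JJ T) j with hPm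
  have h5 : Y * T ^ (-(1 / 400) : ℝ) + T ^ (997 / 1000 : ℝ) ≤ T ^ (1 - 1 / 1000 : ℝ) := by
    have h6 : Y * T ^ (-(1 / 400) : ℝ) ≤ 2 * T ^ (998 / 1000 : ℝ) := by
      have h7 : T * T ^ (-(1 / 400) : ℝ) ≤ T ^ (998 / 1000 : ℝ) := by
        calc T * T ^ (-(1 / 400) : ℝ) = T ^ (1 + -(1 / 400) : ℝ) := by
              rw [Real.rpow_add hT0, Real.rpow_one]
          _ ≤ _ := Real.rpow_le_rpow_of_exponent_le hT1 (by norm_num)
      have h8 := Real.rpow_nonneg hT0.le (-(1 / 400))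
      calc Y * T ^ (-(1 / 400) : ℝ) ≤ 2 * T * T ^ (-(1 / 400) : ℝ) := by gcongr
        _ = 2 * (T * T ^ (-(1 / 400) : ℝ)) := by ring
        _ ≤ _ := by gcongr
    have h7 : T ^ (997 / 1000 : ℝ) ≤ T ^ (998 / 1000 : ℝ) :=
      Real.rpow_le_rpow_of_exponent_le hT1 (by norm_num)
    have h8 : T ^ (1 - 1 / 1000 : ℝ) = T ^ (998 / 1000 : ℝ) * T ^ (1 / 1000 : ℝ) := by
      rw [← Real.rpow_add hT0]; norm_num
    have h9 : 0 < T ^ (998 / 1000 : ℝ) := Real.rpow_pos_of_pos hT0 _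
    rw [h8]
    nlinarith
  calc Y * (Pm + T ^ (-(1 / 400) : ℝ)) + T ^ (997 / 1000 : ℝ) =
        Y * Pm + (Y * T ^ (-(1 / 400) : ℝ) + T ^ (997 / 1000 : ℝ)) := by ring
    _ ≤ _ := by linarith

end K7
end Pool.Agent.Lib.MP_973905_nt
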