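import Pool.Agent.Lib.MP_973905_nt.K7.JPB

/-! (G7): asymptotic formula for the second moment twisted by a pair `(d, e)`. -/

namespace Pool.Agent.Lib.MP_973905_nt
namespace K7

open MeasureTheory ProbabilityTheory Complex Filter Topology K1 K4 K5

namespace JP

open F4 F4.Three F4.Twist ThreeLines JPB

/-- bounds on the small circle -/
lemma circle_bd : ∃ V T₁ : ℝ, 0 < V ∧ ∀ T, T₁ ≤ T → 34 ≤ Real.log T ∧ ∀ X : ℝ,
    T ^ (985 / 1000 : ℝ) ≤ X → X ≤ T ^ (1 + 1 / 10000 : ℝ) → ∀ (R : ℂ → ℂ) (B : ℝ),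
    0 ≤ B → (∀ a : ℂ, ‖a‖ = 1 / (2 * Real.log T) → ‖R a‖ ≤ B) → ∀ a : ℂ,
    ‖a‖ = 1 / (2 * Real.log T) →
    ‖MW X 12 R a‖ ≤ V * Real.log T * B ∧ ‖MW X 10 R a‖ ≤ V * Real.log T * B := by
  obtain ⟨Cz, L₀, hCz, hL₀, hz⟩ := zeta_circle
  obtain ⟨G₁, hG₁, hG1⟩ := F4.Twist.Gamma_bdd (c := 12) (by norm_num)
  obtain ⟨G₂, hG₂, hG2⟩ := F4.Twist.Gamma_bdd (c := 10) (by norm_num)
  set G : ℝ := G₁ + G₂ with hG
  set E : ℝ := Real.exp 3 with hE
  have hE0 : 0 < E := Real.exp_pos _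
  obtain ⟨T₁, hT₁⟩ := eventually_atTop.mp
    ((ev_log (2 * Real.pi) (e := 1 / 2) (by norm_num)).and
    (Real.tendsto_log_atTop.eventually_ge_atTop (max L₀ 34)))
  refine ⟨2 * (G * Cz + E * (G * Cz)), max T₁ 3, by positivity, fun T hT => ?_⟩
  have hTT1 : T₁ ≤ T := (le_max_left _ _).trans hT
  have hT3 : 3 ≤ T := (le_max_right _ _).trans hT
  obtain ⟨e3, e4⟩ := hT₁ T hTT1
  have hLL0 : L₀ ≤ Real.log T := (le_max_left _ _).trans e4
  have hL34 : 34 ≤ Real.log T := (le_max_right _ _).trans e4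
  refine ⟨hL34, fun X hX1 hX2 R B hBnn hB a ha => ?_⟩
  have hT0 : 0 < T := by linarith
  have hT1 : 1 ≤ T := by linarith
  have hL0 : 0 < Real.log T := by linarith
  have hpi := Real.pi_pos
  have hXone : 1 ≤ X := (Real.one_le_rpow hT1 (by norm_num)).trans hX1
  have hX0 : 0 < X := by linarith
  set Y : ℝ := X / (2 * Real.pi) with hY
  have hY1 : 1 ≤ Y := by
    rw [hY, le_div_iff₀ (by positivity), one_mul]
    refine le_trans ?_ hX1
    calc 2 * Real.pi ≤ 2 * Real.pi * Real.log T := by nlinarith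
      _ ≤ T ^ (1 / 2 : ℝ) := e3
      _ ≤ _ := Real.rpow_le_rpow_of_exponent_le hT1 (by norm_num)
  have hYX : Y ≤ T ^ (1 + 1 / 10000 : ℝ) := by
    refine le_trans ?_ hX2
    rw [hY]
    apply div_le_self hX0.le
    have := Real.pi_gt_three
    linarith
  have hY0 : 0 < Y := by linarith
  obtain ⟨z1, z2⟩ := hz (2 * Real.log T) (by linarith) a ha
  have hr : ‖a‖ ≤ 1 / 34 := by
    rw [ha]; exact one_div_le_one_div_of_le (by norm_num) (by linarith)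
  have hre : |a.re| ≤ 1 / (2 * Real.log T) := ha ▸ Complex.abs_re_le_norm a
  have hre9 : |a.re| ≤ 9 / 16 := (Complex.abs_re_le_norm a).trans (by linarith)
  have hb1 := hB a ha
  have hb2 := hB (-a) (by simpa using ha)
  have hYp : ‖(Y : ℂ) ^ (-(2 * a))‖ ≤ E := by
    rw [ThreeLines.norm_X_cpow hY0]
    calc Y ^ (-(2 * a.re)) ≤ Y ^ (2 * (1 / (2 * Real.log T))) := by
          apply Real.rpow_le_rpow_of_exponent_le hY1
          have := (abs_le.mp hre).1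
          linarith
      _ ≤ (T ^ (1 + 1 / 10000 : ℝ)) ^ (2 * (1 / (2 * Real.log T))) := by
          apply Real.rpow_le_rpow hY0.le hYX
          positivity
      _ = Real.exp (1 + 1 / 10000) := by
          rw [← Real.rpow_mul hT0.le, Real.rpow_def_of_pos hT0]
          congr 1
          field_simp
      _ ≤ E := by
          rw [hE]
          apply Real.exp_le_exp.mpr
          norm_num
  have hMt : ∀ s : ℂ, ‖Gamma s‖ ≤ G → ‖Gamma (s - 2 * a)‖ ≤ G →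
      ‖MW X s R a‖ ≤ 2 * (G * Cz + E * (G * Cz)) * Real.log T * B := by
    intro s g1 g2
    rw [MW]
    calc _ ≤ G * (Cz * (2 * Real.log T) * B) + E * (G * (Cz * (2 * Real.log T) * B)) := by
          refine (norm_add_le _ _).trans (add_le_add ?_ ?_)
          · rw [norm_mul, norm_mul]
            gcongr
          · rw [norm_mul, norm_mul, norm_mul]
            gcongr
      _ = _ := by ring
  have g12 : ∀ a : ℂ, |a.re| ≤ 9 / 16 → ‖Gamma (12 - 2 * a)‖ ≤ G := fun a ha =>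
    (hG1 a ha).trans (by rw [hG]; linarith)
  have g10 : ∀ a : ℂ, |a.re| ≤ 9 / 16 → ‖Gamma (10 - 2 * a)‖ ≤ G := fun a ha =>
    (hG2 a ha).trans (by rw [hG]; linarith)
  exact ⟨hMt 12 (by simpa using g12 0 (by norm_num)) (g12 a hre9),
    hMt 10 (by simpa using g10 0 (by norm_num)) (g10 a hre9)⟩

lemma norm_fac {a : ℂ} {X : ℝ} (hX : 1 ≤ X) (ha : ‖a‖ ≤ 1 / 34) :
    ‖(1 / 2 - a) ^ 2 * ((X : ℂ) ^ 2)⁻¹‖ ≤ (X ^ 2)⁻¹ := by
  have h4 : ‖(1 / 2 - a : ℂ)‖ ≤ 1 := by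
    calc ‖(1 / 2 - a : ℂ)‖ ≤ ‖(1 / 2 : ℂ)‖ + ‖a‖ := norm_sub_le _ _
      _ ≤ 1 := by
          have : ‖(1 / 2 : ℂ)‖ = 1 / 2 := by norm_num
          rw [this]; linarith
  rw [norm_mul, norm_pow, norm_inv, norm_pow, Complex.norm_real, Real.norm_eq_abs,
    abs_of_pos (by linarith)]
  calc ‖(1 / 2 - a : ℂ)‖ ^ 2 * (X ^ 2)⁻¹ ≤ 1 * (X ^ 2)⁻¹ := by
        gcongr
        exact pow_le_one₀ (norm_nonneg _) h4
    _ = _ := one_mul _

lemma norm_half {q : ℕ} (hq : 1 ≤ q) : ‖((q : ℕ) : ℂ) ^ (-(1 / 2 : ℂ))‖ = (q : ℝ) ^ (-(1 / 2) : ℝ) := by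
  have hq0 : (0 : ℝ) < q := by exact_mod_cast hq
  rw [show ((q : ℕ) : ℂ) = ((q : ℝ) : ℂ) by simp, norm_cpow_eq_rpow_re_of_pos hq0]
  simp

lemma norm_half_le {m d : ℕ} (hm : 1 ≤ m) (hd : 1 ≤ d) :
    ‖((m * d : ℕ) : ℂ) ^ (-(1 / 2 : ℂ))‖ ≤ (m : ℝ) ^ (-(1 / 2) : ℝ) := by
  rw [norm_half (Nat.mul_pos hm hd)]
  apply Real.rpow_le_rpow_of_nonpos (by exact_mod_cast hm) _ (by norm_num)
  exact_mod_cast Nat.le_mul_of_pos_right m hd

lemma norm_Rde_le (φ : ℝ → ℝ) (T ν : ℝ) {d e : ℕ} (hd : 1 ≤ d) (he : 1 ≤ e) {a : ℂ}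
    (ha : ‖a‖ ≤ 1 / 34) :
    ‖Rde φ T ν d e a‖ ≤
      (∑ n ∈ Finset.Icc 1 ⌊T⌋₊, ‖qg φ T ν n‖ * (n : ℝ) ^ (-(1 / 2) : ℝ)) ^ 2 := by
  have hre := Complex.abs_re_le_norm a
  have hab := abs_le.mp (hre.trans ha)
  have key : ∀ q : ℕ, 1 ≤ q → ‖((q : ℕ) : ℂ) ^ (-(1 / 2 + a))‖ ≤ 1 := by
    intro q hq
    have hq0 : (0 : ℝ) < q := by exact_mod_cast hq
    rw [show ((q : ℕ) : ℂ) = ((q : ℝ) : ℂ) by simp, norm_cpow_eq_rpow_re_of_pos hq0]
    apply Real.rpow_le_one_of_one_le_of_nonpos (by exact_mod_cast hq)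
    simp
    linarith
  rw [pow_two, Finset.sum_mul_sum]
  unfold Rde
  refine (norm_sum_le _ _).trans (Finset.sum_le_sum fun m hm => ?_)
  refine (norm_sum_le _ _).trans (Finset.sum_le_sum fun n hn' => ?_)
  rw [Finset.mem_Icc] at hm hn'
  have h1 := quo_pos (m := m * d) (n := n * e) (Nat.mul_pos (by omega) (by omega))
    (Nat.mul_pos (by omega) (by omega))
  rw [norm_mul, norm_mul, norm_mul, norm_mul, RCLike.norm_conj]
  calc _ ≤ ‖qg φ T ν m‖ * ‖qg φ T ν n‖ * (m : ℝ) ^ (-(1 / 2) : ℝ) * (n : ℝ) ^ (-(1 / 2) : ℝ) * 1 := by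
        gcongr
        · exact norm_half_le hm.1 hd
        · exact norm_half_le hn'.1 he
        · exact key _ h1
    _ = _ := by ring

lemma sg_one (φ : ℝ → ℝ) (T ν : ℝ) (n : ℕ) : sg φ T ν 1 n = qg φ T ν n := by
  simp [sg]

/-- the value at zero -/
lemma value {X : ℝ} (hX : 1 ≤ X) (φ : ℝ → ℝ) (T ν : ℝ) (d e : ℕ) :
    Jds X 12 φ T ν d e 0 = (∫ t in Set.Ioi (0 : ℝ), Fm X 11 φ T ν d e t) +
      1 / 4 * ((X : ℂ) ^ 2)⁻¹ * ∫ t in Set.Ioi (0 : ℝ), Fm X 9 φ T ν d e t := by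
  have hX0 : 0 < X := by linarith
  rw [← integral_const_mul, ← integral_add (Fm_int hX 11 φ T ν d e)
    ((Fm_int hX 9 φ T ν d e).const_mul _), Jds]
  apply setIntegral_congr_fun measurableSet_Ioi
  intro t ht
  have ht0 : 0 < t := ht
  have e1 : (1 / 2 + 0 + t * I : ℂ) = 1 / 2 + t * I := by ring
  have e2 : (1 / 2 + 0 - t * I : ℂ) = (starRingEnd ℂ) (1 / 2 + t * I) := by
    rw [map_add, map_mul, conj_I, conj_ofReal]
    have : (starRingEnd ℂ) (1 / 2 : ℂ) = 1 / 2 := by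
      have := Complex.conj_ofReal (1 / 2)
      push_cast at this
      exact this
    rw [this]; ring
  have hs : ∀ s : ℂ, s ≠ 1 → riemannZeta₁ s = (s - 1) * riemannZeta s := by
    intro s hs
    rw [riemannZeta_eq_inv_sub_mul hs, ← mul_assoc, mul_inv_cancel₀ (sub_ne_zero.2 hs), one_mul]
  have n1 := half_ne_one t
  have n2 : (starRingEnd ℂ) (1 / 2 + t * I) ≠ 1 := by
    intro h
    have := congrArg (starRingEnd ℂ) h
    rw [Complex.conj_conj, map_one] at this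
    exact n1 this
  have e3 : (12 - 1 : ℂ) = ((11 : ℕ) : ℂ) := by norm_num
  have hz : riemannZeta (1 / 2 + t * I) * (starRingEnd ℂ) (riemannZeta (1 / 2 + t * I)) =
      ((‖riemannZeta (1 / 2 + t * I)‖ ^ 2 : ℝ) : ℂ) := by
    rw [mul_conj, Complex.normSq_eq_norm_sq]
  have hX' : (X : ℂ) ≠ 0 := by exact_mod_cast hX0.ne'
  have ht' : (t : ℂ) ≠ 0 := by exact_mod_cast ht0.ne'
  simp only
  rw [e1, e2, hs _ n1, hs _ n2, riemannZeta_conj, Wt, e3, cpow_natCast]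
  rw [← e2, e1.symm]
  unfold Fm
  rw [e1, ← hz]
  push_cast
  have hI : (I : ℂ) ^ 2 = -1 := I_sq
  field_simp
  ring_nf
  rw [hI]
  ring

lemma Fm_diag (X : ℝ) (m : ℕ) (φ : ℝ → ℝ) (T ν : ℝ) (d : ℕ) (t : ℝ) :
    Fm X m φ T ν d d t = ((gi X m (Np T) (sg φ T ν d) t : ℝ) : ℂ) := by
  unfold Fm gi
  rw [mul_conj, Complex.normSq_eq_norm_sq]
  push_cast
  ring

lemma value_one {X : ℝ} (hX : 1 ≤ X) (φ : ℝ → ℝ) (T ν : ℝ) :
    Jds X 12 φ T ν 1 1 0 = (((∫ t in Set.Ioi (0 : ℝ), gi X 11 (Np T) (sg φ T ν 1) t) +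
      1 / 4 * (X ^ 2)⁻¹ * (∫ t in Set.Ioi (0 : ℝ), gi X 9 (Np T) (sg φ T ν 1) t) : ℝ) : ℂ) := by
  rw [value hX]
  simp only [Fm_diag]
  rw [integral_complex_ofReal, integral_complex_ofReal]
  push_cast
  ring

lemma gi_nonneg (X : ℝ) (hX : 0 < X) (m N : ℕ) (c : ℕ → ℂ) (t : ℝ) (ht : t ∈ Set.Ioi (0 : ℝ)) :
    0 ≤ gi X m N c t := by
  have ht0 : 0 < t := ht
  unfold gi
  positivity

/-- the pair `(1, 1)` dominates -/
lemma Fm_le_one {X : ℝ} (hX : 0 < X) (m : ℕ) {φ : ℝ → ℝ} {T ν : ℝ} {d e : ℕ} (hd : 1 ≤ d)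
    (he : 1 ≤ e)
    (h1 : ∀ Φ : ℕ → ℂ, ∑ n ∈ Finset.Icc 1 (Np T), sg φ T ν 1 n * Φ n =
      ∑ m ∈ Finset.Icc 1 ⌊T⌋₊, qg φ T ν m * Φ (m * 1))
    (h2 : ∀ Φ : ℕ → ℂ, ∑ n ∈ Finset.Icc 1 (Np T), sg φ T ν d n * Φ n =
      ∑ m ∈ Finset.Icc 1 ⌊T⌋₊, qg φ T ν m * Φ (m * d))
    (h3 : ∀ Φ : ℕ → ℂ, ∑ n ∈ Finset.Icc 1 (Np T), sg φ T ν e n * Φ n =
      ∑ m ∈ Finset.Icc 1 ⌊T⌋₊, qg φ T ν m * Φ (m * e)) {t : ℝ} (ht : 0 < t) :
    ‖Fm X m φ T ν d e t‖ ≤ gi X m (Np T) (sg φ T ν 1) t := by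
  have e1 := HP_sg (le_refl 1) h1 t
  have e2 := HP_sg hd h2 t
  have e3 := HP_sg he h3 t
  have e4 : fs (1 / 2 + t * I) 1 = 1 := (cmul_fs _).1
  rw [e4, one_mul] at e1
  have h0 : 0 ≤ X⁻¹ * (t / X) ^ m * Real.exp (-(t / X)) := by positivity
  have g2 : ‖HP (Np T) (sg φ T ν d) t‖ ≤ ‖Qp φ T ν t‖ := by
    rw [e2, norm_mul]
    exact mul_le_of_le_one_left (norm_nonneg _) (fs_half_le t hd)
  have g3 : ‖HP (Np T) (sg φ T ν e) t‖ ≤ ‖Qp φ T ν t‖ := by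
    rw [e3, norm_mul]
    exact mul_le_of_le_one_left (norm_nonneg _) (fs_half_le t he)
  unfold Fm gi
  rw [norm_mul, norm_mul, norm_mul, RCLike.norm_conj, Complex.norm_real, Complex.norm_real,
    Real.norm_of_nonneg h0, Real.norm_of_nonneg (by positivity), e1]
  calc _ ≤ ‖riemannZeta (1 / 2 + t * I)‖ ^ 2 * (‖Qp φ T ν t‖ * ‖Qp φ T ν t‖) *
        (X⁻¹ * (t / X) ^ m * Real.exp (-(t / X))) := by gcongr
    _ = _ := by ring

end JP

open F4 F4.Three F4.Twist ThreeLines JPB JP in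
theorem stJP (h7 : StThreeP) (_h6 : F4.StStrip4) (_hm : StMSP) (hc : StCoP) : StJP := by
  intro φ hφ
  obtain ⟨V, T₁, hV, hcb⟩ := JP.circle_bd
  obtain ⟨C₇, hC₇, T₇, hT₇, h7⟩ := h7 φ hφ
  obtain ⟨T₂, hT₂, hco⟩ := hc φ hφ
  obtain ⟨Cz, hCz, hzb⟩ := F4.Twist.zeta_bd
  -- powers of `T` against logarithms and constants
  obtain ⟨T₃, hT₃⟩ := eventually_atTop.mp
    (((ev_log (2 * V + C₇) (e := 9 / 100) (by norm_num)).and
    (ev_log (16 * Cz ^ 2 + 1) (e := 1 / 100) (by norm_num))))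
  refine ⟨C₇ + 3, by positivity, max (max T₇ T₁) (max (max T₂ T₃) 3),
    (le_max_right _ _).trans (le_max_right _ _), fun T hT X hX1 hX2 ν d e hd he hde => ?_⟩
  have hTT7 : T₇ ≤ T := (le_max_left _ _).trans ((le_max_left _ _).trans hT)
  have hTT1 : T₁ ≤ T := (le_max_right _ _).trans ((le_max_left _ _).trans hT)
  have hTT2 : T₂ ≤ T :=
    (le_max_left _ _).trans ((le_max_left _ _).trans ((le_max_right _ _).trans hT))
  have hTT3 : T₃ ≤ T :=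
    (le_max_right _ _).trans ((le_max_left _ _).trans ((le_max_right _ _).trans hT))
  have hT3 : 3 ≤ T := (le_max_right _ _).trans ((le_max_right _ _).trans hT)
  obtain ⟨hL34, hcirc⟩ := hcb T hTT1
  obtain ⟨f1, f2⟩ := hT₃ T hTT3
  have hT1 : 1 ≤ T := by linarith
  have hT0 : 0 < T := by linarith
  have hL0 : 0 < Real.log T := by linarith
  have hL1 : 1 ≤ Real.log T := by linarith
  have hXone : 1 ≤ X := (Real.one_le_rpow hT1 (by norm_num)).trans hX1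
  have hX0 : 0 < X := by linarith
  have hν : 0 ≤ |ν| := abs_nonneg _
  have hone : (1 : ℝ) ≤ T ^ (1 / 60 : ℝ) := Real.one_le_rpow hT1 (by norm_num)
  have hd1 : (1 : ℝ) ≤ d := by exact_mod_cast hd
  have he1 : (1 : ℝ) ≤ e := by exact_mod_cast he
  have hdT : (d : ℝ) ≤ T ^ (1 / 60 : ℝ) := le_trans (by nlinarith) hde
  have heT : (e : ℝ) ≤ T ^ (1 / 60 : ℝ) := le_trans (by nlinarith) hde
  obtain ⟨z1, -, s1, -, -, k1⟩ := hco T hTT2 ν 1 (le_refl 1) (by exact_mod_cast hone)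
  obtain ⟨-, -, -, -, -, kd⟩ := hco T hTT2 ν d hd hdT
  obtain ⟨-, -, -, -, -, ke⟩ := hco T hTT2 ν e he heT
  set N : ℕ := Np T with hN
  set c : ℕ → ℂ := sg φ T ν 1 with hc
  have i11 := gi_int hXone 11 N c
  have i9 := gi_int hXone 9 N c
  refine ⟨Fm_int hXone 11 φ T ν d e, ?_⟩
  -- the arithmetic factor
  set B : ℝ := T ^ (504 / 1000 : ℝ) with hBd
  have hB0 : 0 < B := by positivity
  have hBsq : (T ^ (252 / 1000 : ℝ)) ^ 2 = B := by
    rw [hBd, ← Real.rpow_natCast, ← Real.rpow_mul hT0.le]; norm_num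
  have hsum : ∑ n ∈ Finset.Icc 1 ⌊T⌋₊, ‖qg φ T ν n‖ * (n : ℝ) ^ (-(1 / 2) : ℝ) ≤
      T ^ (252 / 1000 : ℝ) := by
    refine le_trans (le_of_eq ?_) s1
    symm
    have hsub : Finset.Icc 1 N ⊆ Finset.Icc 1 ⌊T⌋₊ := by
      apply Finset.Icc_subset_Icc (le_refl 1)
      rw [hN, Np]
      apply Nat.floor_le_floor
      calc T ^ (52 / 100 : ℝ) ≤ T ^ (1 : ℝ) :=
            Real.rpow_le_rpow_of_exponent_le hT1 (by norm_num)
        _ = T := Real.rpow_one T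
    rw [hc]
    simp only [sg_one]
    refine Finset.sum_subset hsub fun n hn1 hn2 => ?_
    have h1 : N < n := by
      rw [Finset.mem_Icc] at hn1 hn2
      by_contra h
      exact hn2 ⟨hn1.1, not_lt.mp h⟩
    have h2 : T ^ (52 / 100 : ℝ) < n := Nat.lt_of_floor_lt h1
    have h3 : T ^ (518 / 1000 : ℝ) < n :=
      lt_of_le_of_lt (Real.rpow_le_rpow_of_exponent_le hT1 (by norm_num)) h2
    have h4 := z1 n h3
    rw [hc, sg_one] at h4
    rw [h4, norm_zero, zero_mul]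
  have hs0 : 0 ≤ ∑ n ∈ Finset.Icc 1 ⌊T⌋₊, ‖qg φ T ν n‖ * (n : ℝ) ^ (-(1 / 2) : ℝ) :=
    Finset.sum_nonneg fun n _ => by positivity
  have hR : ∀ d' e' : ℕ, 1 ≤ d' → 1 ≤ e' → ∀ a : ℂ, ‖a‖ = 1 / (2 * Real.log T) →
      ‖Rde φ T ν d' e' a‖ ≤ B := by
    intro d' e' hd' he' a ha
    have hr : ‖a‖ ≤ 1 / 34 := by
      rw [ha]; exact one_div_le_one_div_of_le (by norm_num) (by linarith)
    refine (norm_Rde_le φ T ν hd' he' hr).trans ?_
    rw [← hBsq]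
    gcongr
  have hval := value_one hXone φ T ν
  rw [← hN, ← hc] at hval
  set P : ℝ := ∫ t in Set.Ioi (0 : ℝ), gi X 11 N c t with hP
  set Q : ℝ := ∫ t in Set.Ioi (0 : ℝ), gi X 9 N c t with hQ
  have hP0 : 0 ≤ P := setIntegral_nonneg measurableSet_Ioi (JP.gi_nonneg X hX0 11 N c)
  have hQ0 : 0 ≤ Q := setIntegral_nonneg measurableSet_Ioi (JP.gi_nonneg X hX0 9 N c)
  have hPle : P ≤ ‖Jds X 12 φ T ν 1 1 0‖ := by
    rw [hval, Complex.norm_real, Real.norm_of_nonneg (by positivity)]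
    have : 0 ≤ 1 / 4 * (X ^ 2)⁻¹ * Q := by positivity
    linarith
  have hthree := h7 T hTT7 X hX1 hX2 ν d e hd he hde
  have hthree1 := h7 T hTT7 X hX1 hX2 ν 1 1 (le_refl 1) (le_refl 1) (by
    push_cast
    rw [one_mul]
    exact hone)
  have e10' : (12 : ℂ) - 2 = 10 := by norm_num
  have hXinv : (X ^ 2)⁻¹ ≤ T ^ (-(197 / 100) : ℝ) := by
    have e1 : T ^ (197 / 100 : ℝ) = (T ^ (985 / 1000 : ℝ)) ^ 2 := by
      rw [← Real.rpow_natCast, ← Real.rpow_mul hT0.le]; norm_num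
    rw [Real.rpow_neg hT0.le, e1]
    gcongr
  have hX2' : (X ^ 2)⁻¹ ≤ 1 := inv_le_one_of_one_le₀ (one_le_pow₀ hXone)
  have hg10 : ∀ d' e' : ℕ, 1 ≤ d' → 1 ≤ e' → ∀ a : ℂ, ‖a‖ = 1 / (2 * Real.log T) →
      ‖(1 / 2 - a) ^ 2 * ((X : ℂ) ^ 2)⁻¹ * MW X 10 (Rde φ T ν d' e') a‖ ≤
        (X ^ 2)⁻¹ * (V * Real.log T * B) := by
    intro d' e' hd' he' a ha
    obtain ⟨m12, m10⟩ := hcirc X hX1 hX2 _ B hB0.le (hR d' e' hd' he') a ha
    have hr : ‖a‖ ≤ 1 / 34 := by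
      rw [ha]; exact one_div_le_one_div_of_le (by norm_num) (by linarith)
    rw [norm_mul]
    exact mul_le_mul (JP.norm_fac hXone hr) m10 (norm_nonneg _) (by positivity)
  have hMs : ∀ a : ℂ, ‖a‖ = 1 / (2 * Real.log T) → ‖MWs X 12 (Rde φ T ν 1 1) a‖ ≤
      2 * V * Real.log T * B := by
    intro a ha
    obtain ⟨m12, m10⟩ := hcirc X hX1 hX2 _ B hB0.le (hR 1 1 (le_refl 1) (le_refl 1)) a ha
    rw [MWs, e10']
    calc _ ≤ V * Real.log T * B + 1 * (V * Real.log T * B) := by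
          refine (norm_add_le _ _).trans (add_le_add m12 ?_)
          refine (hg10 1 1 (le_refl 1) (le_refl 1) a ha).trans ?_
          gcongr
      _ = _ := by ring
  have hr0 : 0 < 1 / (2 * Real.log T) := by positivity
  have havg := norm_circleAverage_le (f := MWs X 12 (Rde φ T ν 1 1)) (r := 1 / (2 * Real.log T))
    hr0 hMs
  -- a crude bound for `P`
  have hPc : P ≤ (1 + |ν|) * T ^ (6 / 10 : ℝ) := by
    have h1 : P ≤ C₇ * (1 + |ν|) * T ^ (-(3 / 100) : ℝ) + 2 * V * Real.log T * B := by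
      calc P ≤ ‖Jds X 12 φ T ν 1 1 0‖ := hPle
        _ = ‖(Jds X 12 φ T ν 1 1 0 - Real.circleAverage (MWs X 12 (Rde φ T ν 1 1)) 0
              (1 / (2 * Real.log T))) +
              Real.circleAverage (MWs X 12 (Rde φ T ν 1 1)) 0 (1 / (2 * Real.log T))‖ := by
            ring_nf
        _ ≤ C₇ * (1 + |ν|) * T ^ (-(3 / 100) : ℝ) + 2 * V * Real.log T * B :=
            (norm_add_le _ _).trans (add_le_add hthree1 havg)
    have h2 : T ^ (-(3 / 100) : ℝ) ≤ B := by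
      rw [hBd]; exact Real.rpow_le_rpow_of_exponent_le hT1 (by norm_num)
    calc P ≤ C₇ * (1 + |ν|) * T ^ (-(3 / 100) : ℝ) + 2 * V * Real.log T * B := h1
      _ ≤ C₇ * (1 + |ν|) * (Real.log T * B) + 2 * V * (1 + |ν|) * (Real.log T * B) := by
          have h3 : B ≤ Real.log T * B := le_mul_of_one_le_left hB0.le hL1
          have h4 : 2 * V * Real.log T * B ≤ 2 * V * (1 + |ν|) * (Real.log T * B) := by
            have : 1 * (2 * V * (Real.log T * B)) ≤ (1 + |ν|) * (2 * V * (Real.log T * B)) := by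
              gcongr
              linarith
            linarith
          have h5 := h2.trans h3
          have h6 : C₇ * (1 + |ν|) * T ^ (-(3 / 100) : ℝ) ≤ C₇ * (1 + |ν|) * (Real.log T * B) := by
            gcongr
          linarith
      _ = (1 + |ν|) * (((2 * V + C₇) * Real.log T) * B) := by ring
      _ ≤ (1 + |ν|) * (T ^ (9 / 100 : ℝ) * B) := by gcongr
      _ = (1 + |ν|) * T ^ (9 / 100 + 504 / 1000 : ℝ) := by rw [hBd, ← Real.rpow_add hT0]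
      _ ≤ (1 + |ν|) * T ^ (6 / 10 : ℝ) := by
          refine mul_le_mul_of_nonneg_left ?_ (by linarith)
          exact Real.rpow_le_rpow_of_exponent_le hT1 (by norm_num)
  -- a bound for `Q`
  set t₀ : ℝ := T ^ (4 / 5 : ℝ) with ht₀
  have ht0 : 0 < t₀ := by positivity
  have ht1 : 1 ≤ t₀ := Real.one_le_rpow hT1 (by norm_num)
  set K : ℝ := Cz ^ 2 * (1 + t₀) ^ 4 * B * (X⁻¹ * (t₀ / X) ^ 9) with hK
  have hK0 : 0 ≤ K := by positivity
  have hHP : ∀ t : ℝ, ‖HP N c t‖ ^ 2 ≤ B := by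
    intro t
    rw [← hBsq]
    have := (F4.Three.norm_HP_le N c t).trans s1
    gcongr
  have hQle : Q ≤ (X / t₀) ^ 2 * P + K * t₀ := by
    have hfin : IntegrableOn (fun t : ℝ => (Set.Ioc 0 t₀).indicator (fun _ => K) t) (Set.Ioi 0) := by
      refine (IntegrableOn.integrable_indicator ?_ measurableSet_Ioc).integrableOn
      exact integrableOn_const (by simp) (by simp)
    have hle : ∀ t ∈ Set.Ioi (0 : ℝ), gi X 9 N c t ≤
        (X / t₀) ^ 2 * gi X 11 N c t + (Set.Ioc 0 t₀).indicator (fun _ => K) t := by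
      intro t ht
      have htp : 0 < t := ht
      by_cases h : t ≤ t₀
      · rw [Set.indicator_of_mem (show t ∈ Set.Ioc 0 t₀ from ⟨htp, h⟩)]
        have h1 : gi X 9 N c t ≤ K := by
          unfold gi
          have z1 : ‖riemannZeta (1 / 2 + t * I)‖ ^ 2 ≤ Cz ^ 2 * (1 + t₀) ^ 4 := by
            have := hzb t
            rw [abs_of_pos htp] at this
            calc ‖riemannZeta (1 / 2 + t * I)‖ ^ 2 ≤ (Cz * (1 + t) ^ 2) ^ 2 := by gcongr
              _ ≤ (Cz * (1 + t₀) ^ 2) ^ 2 := by gcongr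
              _ = _ := by ring
          have z2 : X⁻¹ * (t / X) ^ 9 * Real.exp (-(t / X)) ≤ X⁻¹ * (t₀ / X) ^ 9 := by
            have e1 : Real.exp (-(t / X)) ≤ 1 := by
              apply Real.exp_le_one_iff.mpr
              have : 0 ≤ t / X := by positivity
              linarith
            calc X⁻¹ * (t / X) ^ 9 * Real.exp (-(t / X)) ≤ X⁻¹ * (t₀ / X) ^ 9 * 1 := by gcongr
              _ = _ := mul_one _
          have := hHP t
          rw [hK]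
          gcongr
        have h2 : 0 ≤ (X / t₀) ^ 2 * gi X 11 N c t :=
          mul_nonneg (by positivity) (JP.gi_nonneg X hX0 11 N c t ht)
        linarith
      · rw [not_le] at h
        rw [Set.indicator_of_notMem (by
          rw [Set.mem_Ioc, not_and_or]
          exact Or.inr (not_le.mpr h)), add_zero]
        unfold gi
        have e1 : (t / X) ^ 9 ≤ (X / t₀) ^ 2 * (t / X) ^ 11 := by
          have e2 : (X / t₀) ^ 2 * (t / X) ^ 11 = (t / t₀) ^ 2 * (t / X) ^ 9 := by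
            field_simp
          rw [e2]
          refine le_mul_of_one_le_left (by positivity) (one_le_pow₀ ?_)
          rw [le_div_iff₀ ht0]
          linarith
        calc ‖riemannZeta (1 / 2 + t * I)‖ ^ 2 * ‖HP N c t‖ ^ 2 *
              (X⁻¹ * (t / X) ^ 9 * Real.exp (-(t / X))) ≤
            ‖riemannZeta (1 / 2 + t * I)‖ ^ 2 * ‖HP N c t‖ ^ 2 *
              (X⁻¹ * ((X / t₀) ^ 2 * (t / X) ^ 11) * Real.exp (-(t / X))) := by gcongr
          _ = _ := by ring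
    have h3 : Q ≤ ∫ t in Set.Ioi (0 : ℝ), ((X / t₀) ^ 2 * gi X 11 N c t +
        (Set.Ioc 0 t₀).indicator (fun _ => K) t) :=
      setIntegral_mono_on i9 ((i11.const_mul _).add hfin) measurableSet_Ioi hle
    refine h3.trans (le_of_eq ?_)
    rw [integral_add (i11.const_mul _) hfin, integral_const_mul]
    congr 1
    rw [setIntegral_indicator measurableSet_Ioc]
    have : Set.Ioi (0 : ℝ) ∩ Set.Ioc 0 t₀ = Set.Ioc 0 t₀ := by
      ext x
      simp only [Set.mem_inter_iff, Set.mem_Ioi, Set.mem_Ioc]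
      tauto
    rw [this, setIntegral_const]
    simp [Real.volume_real_Ioc, ht0.le, mul_comm]
  -- the three errors
  have hE1 : (X ^ 2)⁻¹ * ((X / t₀) ^ 2 * P) ≤ (1 + |ν|) * T ^ (-(29 / 1000) : ℝ) := by
    have e1 : (X ^ 2)⁻¹ * ((X / t₀) ^ 2 * P) = T ^ (-(8 / 5) : ℝ) * P := by
      have : T ^ (-(8 / 5) : ℝ) = (t₀ ^ 2)⁻¹ := by
        rw [ht₀, ← Real.rpow_natCast, ← Real.rpow_mul hT0.le, ← Real.rpow_neg hT0.le]
        norm_num
      rw [this]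
      field_simp
    rw [e1]
    calc T ^ (-(8 / 5) : ℝ) * P ≤ T ^ (-(8 / 5) : ℝ) * ((1 + |ν|) * T ^ (6 / 10 : ℝ)) := by gcongr
      _ = (1 + |ν|) * (T ^ (-(8 / 5) : ℝ) * T ^ (6 / 10 : ℝ)) := by ring
      _ = (1 + |ν|) * T ^ (-(8 / 5) + 6 / 10 : ℝ) := by rw [Real.rpow_add hT0]
      _ ≤ _ := by
          refine mul_le_mul_of_nonneg_left ?_ (by linarith)
          exact Real.rpow_le_rpow_of_exponent_le hT1 (by norm_num)
  have hE2 : (X ^ 2)⁻¹ * (K * t₀) ≤ (1 + |ν|) * T ^ (-(29 / 1000) : ℝ) := by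
    have c1 : 16 * Cz ^ 2 ≤ T ^ (1 / 100 : ℝ) := by
      refine le_trans ?_ f2
      have : 0 ≤ 16 * Cz ^ 2 := by positivity
      nlinarith
    have c2 : (1 + t₀) ^ 4 ≤ 16 * t₀ ^ 4 := by
      calc (1 + t₀) ^ 4 ≤ (2 * t₀) ^ 4 := by
            gcongr
            linarith
        _ = _ := by ring
    have c3 : X⁻¹ ≤ T ^ (-(985 / 1000) : ℝ) := by
      rw [Real.rpow_neg hT0.le]
      gcongr
    have c4 : (T ^ (-(985 / 1000) : ℝ)) ^ 12 = T ^ (-(1182 / 100) : ℝ) := by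
      rw [← Real.rpow_natCast, ← Real.rpow_mul hT0.le]; norm_num
    have c5 : t₀ ^ 14 = T ^ (112 / 10 : ℝ) := by
      rw [ht₀, ← Real.rpow_natCast, ← Real.rpow_mul hT0.le]; norm_num
    calc (X ^ 2)⁻¹ * (K * t₀) = Cz ^ 2 * (1 + t₀) ^ 4 * B * (t₀ ^ 10 * X⁻¹ ^ 12) := by
          rw [hK]
          field_simp
      _ ≤ Cz ^ 2 * (16 * t₀ ^ 4) * B * (t₀ ^ 10 * (T ^ (-(985 / 1000) : ℝ)) ^ 12) := by gcongr
      _ = (16 * Cz ^ 2) * (t₀ ^ 14 * B * T ^ (-(1182 / 100) : ℝ)) := by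
          rw [c4]; ring
      _ ≤ T ^ (1 / 100 : ℝ) * (t₀ ^ 14 * B * T ^ (-(1182 / 100) : ℝ)) := by gcongr
      _ = T ^ (1 / 100 + (112 / 10 + 504 / 1000 + -(1182 / 100)) : ℝ) := by
          rw [c5, hBd, Real.rpow_add hT0, Real.rpow_add hT0, Real.rpow_add hT0]
      _ ≤ T ^ (-(29 / 1000) : ℝ) := Real.rpow_le_rpow_of_exponent_le hT1 (by norm_num)
      _ ≤ (1 + |ν|) * T ^ (-(29 / 1000) : ℝ) := by
          refine le_mul_of_one_le_left (by positivity) (by linarith)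
  have hE3 : (X ^ 2)⁻¹ * (V * Real.log T * B) ≤ (1 + |ν|) * T ^ (-(29 / 1000) : ℝ) := by
    have c1 : V * Real.log T ≤ T ^ (9 / 100 : ℝ) := by
      refine le_trans ?_ f1
      gcongr
      linarith
    calc (X ^ 2)⁻¹ * (V * Real.log T * B) ≤ T ^ (-(197 / 100) : ℝ) * (T ^ (9 / 100 : ℝ) * B) := by
          gcongr
      _ = T ^ (-(197 / 100) + (9 / 100 + 504 / 1000) : ℝ) := by
          rw [hBd, Real.rpow_add hT0, Real.rpow_add hT0]
      _ ≤ T ^ (-(29 / 1000) : ℝ) := Real.rpow_le_rpow_of_exponent_le hT1 (by norm_num)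
      _ ≤ (1 + |ν|) * T ^ (-(29 / 1000) : ℝ) := by
          refine le_mul_of_one_le_left (by positivity) (by linarith)
  -- the circle averages
  have hr1 : 1 / (2 * Real.log T) ≤ 1 / 2 := one_div_le_one_div_of_le (by norm_num) (by linarith)
  have hRd := Rde_diff φ T ν hd he
  have j12 : CircleIntegrable (MW X 12 (Rde φ T ν d e)) 0 (1 / (2 * Real.log T)) :=
    (mw_cont hX0 (c := 12) (by norm_num) hRd hr0 hr1).circleIntegrable'
  have j10 : CircleIntegrable (fun a => (1 / 2 - a) ^ 2 * ((X : ℂ) ^ 2)⁻¹ *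
      MW X 10 (Rde φ T ν d e) a) 0 (1 / (2 * Real.log T)) := by
    apply ContinuousOn.circleIntegrable'
    refine ContinuousOn.mul ?_ (mw_cont hX0 (c := 10) (by norm_num) hRd hr0 hr1)
    exact Continuous.continuousOn (by fun_prop)
  have hsplit : Real.circleAverage (MWs X 12 (Rde φ T ν d e)) 0 (1 / (2 * Real.log T)) =
      Real.circleAverage (MW X 12 (Rde φ T ν d e)) 0 (1 / (2 * Real.log T)) +
      Real.circleAverage (fun a => (1 / 2 - a) ^ 2 * ((X : ℂ) ^ 2)⁻¹ *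
        MW X 10 (Rde φ T ν d e) a) 0 (1 / (2 * Real.log T)) := by
    rw [← Real.circleAverage_fun_add j12 j10]
    congr 1
    funext a
    rw [MWs, e10']
  have havg10 := norm_circleAverage_le (r := 1 / (2 * Real.log T)) hr0 (hg10 d e hd he)
  have hQde : ‖∫ t in Set.Ioi (0 : ℝ), Fm X 9 φ T ν d e t‖ ≤ Q := by
    refine (norm_integral_le_integral_norm _).trans ?_
    refine setIntegral_mono_on (Fm_int hXone 9 φ T ν d e).norm i9 measurableSet_Ioi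
      fun t ht => ?_
    exact Fm_le_one hX0 9 hd he k1 kd ke ht
  have hfin : ‖(∫ t in Set.Ioi (0 : ℝ), Fm X 11 φ T ν d e t) -
      Real.circleAverage (MW X 12 (Rde φ T ν d e)) 0 (1 / (2 * Real.log T))‖ ≤
      (C₇ + 3) * (1 + |ν|) * T ^ (-(29 / 1000) : ℝ) := by
    have e1 : (∫ t in Set.Ioi (0 : ℝ), Fm X 11 φ T ν d e t) -
        Real.circleAverage (MW X 12 (Rde φ T ν d e)) 0 (1 / (2 * Real.log T)) =
        (Jds X 12 φ T ν d e 0 - Real.circleAverage (MWs X 12 (Rde φ T ν d e)) 0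
          (1 / (2 * Real.log T))) -
        1 / 4 * ((X : ℂ) ^ 2)⁻¹ * (∫ t in Set.Ioi (0 : ℝ), Fm X 9 φ T ν d e t) +
        Real.circleAverage (fun a => (1 / 2 - a) ^ 2 * ((X : ℂ) ^ 2)⁻¹ *
          MW X 10 (Rde φ T ν d e) a) 0 (1 / (2 * Real.log T)) := by
      rw [value hXone, hsplit]
      ring
    have hTe : T ^ (-(3 / 100) : ℝ) ≤ T ^ (-(29 / 1000) : ℝ) :=
      Real.rpow_le_rpow_of_exponent_le hT1 (by norm_num)
    have hq : ‖1 / 4 * ((X : ℂ) ^ 2)⁻¹ * (∫ t in Set.Ioi (0 : ℝ), Fm X 9 φ T ν d e t)‖ ≤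
        2 * ((1 + |ν|) * T ^ (-(29 / 1000) : ℝ)) := by
      rw [norm_mul, norm_mul, norm_inv, norm_pow, Complex.norm_real, Real.norm_of_nonneg hX0.le]
      have h0 : ‖(1 / 4 : ℂ)‖ = 1 / 4 := by norm_num
      rw [h0]
      have h1 : (X ^ 2)⁻¹ * Q ≤ (X ^ 2)⁻¹ * ((X / t₀) ^ 2 * P + K * t₀) := by gcongr
      have h2 : 0 ≤ (X ^ 2)⁻¹ * Q := by positivity
      have h3 : 1 / 4 * (X ^ 2)⁻¹ * ‖∫ t in Set.Ioi (0 : ℝ), Fm X 9 φ T ν d e t‖ ≤
          1 / 4 * (X ^ 2)⁻¹ * Q := by gcongr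
      refine h3.trans ?_
      nlinarith
    rw [e1]
    refine (norm_add_le _ _).trans ((add_le_add ((norm_sub_le _ _).trans
      (add_le_add hthree hq)) (havg10.trans hE3)).trans ?_)
    have h3 : C₇ * (1 + |ν|) * T ^ (-(3 / 100) : ℝ) ≤ C₇ * (1 + |ν|) * T ^ (-(29 / 1000) : ℝ) := by
      gcongr
    linarith
  exact hfin

end K7
end Pool.Agent.Lib.MP_973905_nt
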