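import Pool.Agent.Lib.MP_973905_nt.K7.Stmts
import Pool.Agent.Lib.MP_973905_nt.F4.Three
import Pool.Agent.Lib.MP_973905_nt.F4.Twist

/-! Common facts for the modules `JP` and `JW` of folder K7. -/

namespace Pool.Agent.Lib.MP_973905_nt
namespace K7

open MeasureTheory ProbabilityTheory Complex Filter Topology K1 K4 K5

namespace JPB

open F4 F4.Three F4.Twist ThreeLines

lemma quo_pos {m n : ℕ} (hm : 0 < m) (hn : 0 < n) : 0 < m / m.gcd n * (n / m.gcd n) :=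
  Nat.mul_pos (Nat.div_pos (Nat.gcd_le_left n hm) (Nat.gcd_pos_of_pos_left n hm))
    (Nat.div_pos (Nat.gcd_le_right m hn) (Nat.gcd_pos_of_pos_left n hm))

lemma Rde_diff (φ : ℝ → ℝ) (T ν : ℝ) {d e : ℕ} (hd : 1 ≤ d) (he : 1 ≤ e) :
    Differentiable ℂ (Rde φ T ν d e) := by
  unfold Rde
  refine Differentiable.fun_sum fun m hm => Differentiable.fun_sum fun n hn => ?_
  rw [Finset.mem_Icc] at hm hn
  have h1 : (((m * d) / (m * d).gcd (n * e) * ((n * e) / (m * d).gcd (n * e)) : ℕ) : ℂ) ≠ 0 := by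
    have := quo_pos (m := m * d) (n := n * e) (Nat.mul_pos (by omega) (by omega))
      (Nat.mul_pos (by omega) (by omega))
    exact_mod_cast this.ne'
  intro a
  refine DifferentiableAt.mul (by fun_prop) ?_
  exact DifferentiableAt.const_cpow (by fun_prop) (Or.inl h1)

lemma mw_cont {X : ℝ} (hX : 0 < X) {c : ℂ} (hc : 10 ≤ c.re) {R : ℂ → ℂ} (hR : Differentiable ℂ R)
    {r : ℝ} (hr0 : 0 < r) (hr1 : r ≤ 1 / 2) :
    ContinuousOn (MW X c R) (Metric.sphere (0 : ℂ) |r|) := by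
  have hpi := Real.pi_pos
  have hsub : Metric.closedBall (0 : ℂ) r ⊆ {a : ℂ | |a.re| < 5 / 8} := by
    intro z hz
    rw [mem_closedBall_zero_iff] at hz
    show |z.re| < 5 / 8
    have := Complex.abs_re_le_norm z
    linarith
  have hsph : ∀ z : ℂ, z ∈ Metric.sphere (0 : ℂ) |r| → z ≠ 0 := by
    intro z hz h0
    rw [h0, abs_of_pos hr0] at hz
    simp at hz
    linarith
  have h1 := HM4_diff (Y := X / (2 * Real.pi)) (by positivity) hR hc
  have h2 : ContinuousOn (fun a => HM4 (X / (2 * Real.pi)) R c a / a)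
      (Metric.sphere (0 : ℂ) |r|) := by
    refine ContinuousOn.div ?_ continuousOn_id fun z hz => hsph z hz
    rw [abs_of_pos hr0]
    exact (h1.mono (Metric.sphere_subset_closedBall.trans hsub)).continuousOn
  refine h2.congr fun z hz => ?_
  have hz0 := hsph z hz
  simp only
  rw [F4.Three.HM4_eq _ _ _ hz0, MW]
  field_simp

lemma HP_sg {φ : ℝ → ℝ} {T ν : ℝ} {d : ℕ} (hd : 1 ≤ d)
    (h : ∀ Φ : ℕ → ℂ, ∑ n ∈ Finset.Icc 1 (Np T), sg φ T ν d n * Φ n =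
      ∑ m ∈ Finset.Icc 1 ⌊T⌋₊, qg φ T ν m * Φ (m * d)) (t : ℝ) :
    HP (Np T) (sg φ T ν d) t = fs (1 / 2 + t * I) d * Qp φ T ν t := by
  rw [HP, h, Qp, Finset.mul_sum]
  refine Finset.sum_congr rfl fun m hm => ?_
  rw [Finset.mem_Icc] at hm
  rw [(cmul_fs (1 / 2 + t * I)).2 m d (by omega) (by omega)]
  ring

lemma fs_half_le (t : ℝ) {n : ℕ} (hn : 1 ≤ n) : ‖fs (1 / 2 + t * I) n‖ ≤ 1 := by
  rw [norm_fs _ (by omega)]
  apply Real.rpow_le_one_of_one_le_of_nonpos (by exact_mod_cast hn)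
  simp

/-- the complex integrand for a pair -/
noncomputable def Fm (X : ℝ) (m : ℕ) (φ : ℝ → ℝ) (T ν : ℝ) (d e : ℕ) (t : ℝ) : ℂ :=
  ((‖riemannZeta (1 / 2 + t * I)‖ ^ 2 : ℝ) : ℂ) *
      (HP (Np T) (sg φ T ν d) t * (starRingEnd ℂ) (HP (Np T) (sg φ T ν e) t)) *
      ((X⁻¹ * (t / X) ^ m * Real.exp (-(t / X)) : ℝ) : ℂ)

lemma Fm_cont (X : ℝ) (m : ℕ) (φ : ℝ → ℝ) (T ν : ℝ) (d e : ℕ) :
    Continuous (Fm X m φ T ν d e) := by
  unfold Fm
  have h1 := zeta_cont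
  have h2 := HP_cont (Np T) (sg φ T ν d)
  have h3 := HP_cont (Np T) (sg φ T ν e)
  have h4 : Continuous fun t : ℝ => X⁻¹ * (t / X) ^ m * Real.exp (-(t / X)) := by fun_prop
  exact ((continuous_ofReal.comp (h1.norm.pow 2)).mul
    (h2.mul (continuous_conj.comp h3))).mul (continuous_ofReal.comp h4)

lemma Fm_le {X : ℝ} (hX : 0 < X) (m : ℕ) (φ : ℝ → ℝ) (T ν : ℝ) (d e : ℕ) {t : ℝ} (ht : 0 < t) :
    ‖Fm X m φ T ν d e t‖ ≤ gi X m (Np T) (sg φ T ν d) t + gi X m (Np T) (sg φ T ν e) t := by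
  unfold Fm gi
  have h0 : 0 ≤ X⁻¹ * (t / X) ^ m * Real.exp (-(t / X)) := by positivity
  rw [norm_mul, norm_mul, norm_mul, RCLike.norm_conj, Complex.norm_real, Complex.norm_real,
    Real.norm_of_nonneg h0, Real.norm_of_nonneg (by positivity), ← add_mul, ← mul_add]
  have h1 : ‖HP (Np T) (sg φ T ν d) t‖ * ‖HP (Np T) (sg φ T ν e) t‖ ≤
      ‖HP (Np T) (sg φ T ν d) t‖ ^ 2 + ‖HP (Np T) (sg φ T ν e) t‖ ^ 2 := by
    nlinarith [norm_nonneg (HP (Np T) (sg φ T ν d) t), norm_nonneg (HP (Np T) (sg φ T ν e) t),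
      sq_nonneg (‖HP (Np T) (sg φ T ν d) t‖ - ‖HP (Np T) (sg φ T ν e) t‖)]
  gcongr

lemma Fm_int {X : ℝ} (hX : 1 ≤ X) (m : ℕ) (φ : ℝ → ℝ) (T ν : ℝ) (d e : ℕ) :
    IntegrableOn (Fm X m φ T ν d e) (Set.Ioi 0) := by
  refine Integrable.mono' ((gi_int hX m (Np T) (sg φ T ν d)).add
    (gi_int hX m (Np T) (sg φ T ν e)))
    (Fm_cont X m φ T ν d e).aestronglyMeasurable ?_
  filter_upwards [ae_restrict_mem measurableSet_Ioi] with t ht
  exact Fm_le (by linarith) m φ T ν d e ht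

end JPB

end K7
end Pool.Agent.Lib.MP_973905_nt
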