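import Pool.Agent.Lib.MP_973905_nt.K7.Stmts

/-! Tools for the numeric integrals of the folder K7 (modules J2, J3). -/

namespace Pool.Agent.Lib.MP_973905_nt
namespace K7
namespace JT

open MeasureTheory ProbabilityTheory Complex Filter Topology K1 K4 K5
open scoped ENNReal

theorem tq_pos : 0 < tq 0 := by
  unfold tq tb
  positivity

theorem tq_le : tq 0 ≤ 11 / 5000 := by
  have h0 : tq 0 = (Real.exp (153 / 25))⁻¹ := by
    rw [tq, tb, if_pos rfl, ← Real.exp_add, ← Real.exp_neg]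
    norm_num
  have h1 : (5000 / 11 : ℝ) ≤ Real.exp (153 / 25) := by
    have h2 : Real.exp (153 / 25) = Real.exp 1 ^ 6 * Real.exp (3 / 25) := by
      rw [← Real.exp_nat_mul, ← Real.exp_add]
      norm_num
    have h3 : (2.7182818283 : ℝ) < Real.exp 1 := Real.exp_one_gt_d9
    have h4 : (1.127 : ℝ) ≤ Real.exp (3 / 25) := by
      have h5 := Real.quadratic_le_exp_of_nonneg (x := 3 / 25) (by norm_num)
      norm_num at h5 ⊢
      linarith
    rw [h2]
    calc (5000 / 11 : ℝ) ≤ 2.7182818283 ^ 6 * 1.127 := by norm_num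
      _ ≤ Real.exp 1 ^ 6 * Real.exp (3 / 25) := by gcongr
  rw [h0]
  calc (Real.exp (153 / 25))⁻¹ ≤ (5000 / 11 : ℝ)⁻¹ := inv_anti₀ (by norm_num) h1
    _ = 11 / 5000 := by norm_num

theorem exp_c_le : Real.exp (501 / 500) ≤ 27238 / 10000 := by
  have h1 : Real.exp (501 / 500) = Real.exp 1 * Real.exp (1 / 500) := by
    rw [← Real.exp_add]
    norm_num
  have h2 : Real.exp 1 < 2.7182818286 := Real.exp_one_lt_d9
  have h3 : Real.exp (1 / 500) ≤ 500 / 499 := by
    have := Real.exp_bound_div_one_sub_of_interval (x := 1 / 500) (by norm_num) (by norm_num)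
    norm_num at this ⊢
    exact this
  rw [h1]
  calc Real.exp 1 * Real.exp (1 / 500) ≤ 2.7182818286 * (500 / 499) := by gcongr
    _ ≤ 27238 / 10000 := by norm_num

theorem one_le_qb {y : ℝ} (hy : 0 ≤ y) : 1 ≤ qb y := by
  unfold qb
  split_ifs with h
  · exact Real.one_le_exp (by positivity)
  · linarith

/-- convexity -/
theorem exp_convex {c t : ℝ} (h0 : 0 ≤ t) (h1 : t ≤ 1) :
    Real.exp (t * c) ≤ 1 + t * (Real.exp c - 1) := by
  have h := convexOn_exp.2 (Set.mem_univ (0 : ℝ)) (Set.mem_univ c) (sub_nonneg.2 h1) h0 (by ring)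
  simp only [smul_eq_mul, mul_zero, zero_add, Real.exp_zero, mul_one] at h
  linarith

theorem measurable_qb : Measurable qb := by
  unfold qb
  exact Measurable.ite measurableSet_Iic (by fun_prop) (by fun_prop)

theorem qb_le_one {y : ℝ} (hy : 0 ≤ y) (h1 : y ≤ 1) : qb y - 1 ≤ 173 / 100 * y := by
  rw [qb, if_pos (by linarith)]
  have h := exp_convex (c := 501 / 500) hy h1
  rw [mul_comm y] at h
  have := exp_c_le
  nlinarith

theorem qb_le_two {y : ℝ} (hy : 0 ≤ y) (h1 : y ≤ 2) : qb y - 1 ≤ 321 / 100 * y := by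
  rw [qb, if_pos h1]
  have h := exp_convex (c := 2 * (501 / 500)) (t := y / 2) (by positivity) (by linarith)
  have h2 : y / 2 * (2 * (501 / 500)) = 501 / 500 * y := by ring
  have h3 : Real.exp (2 * (501 / 500)) = Real.exp (501 / 500) ^ 2 := by
    rw [← Real.exp_nat_mul]
    norm_num
  rw [h2, h3] at h
  have h4 : Real.exp (501 / 500) ^ 2 ≤ (27238 / 10000) ^ 2 := by
    gcongr
    exact exp_c_le
  nlinarith

theorem qb_le {y : ℝ} (hy : 0 ≤ y) : qb y - 1 ≤ 19 * y := by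
  by_cases h : y ≤ 2
  · have := qb_le_two hy h
    nlinarith
  · rw [qb, if_neg h]
    linarith

theorem qb_le_small {y : ℝ} (hy : 0 ≤ y) (h1 : y ≤ 27 / 200) : qb y - 1 ≤ 108 / 100 * y := by
  rw [qb, if_pos (by linarith)]
  have h := exp_convex (c := 27 / 200 * (501 / 500)) (t := y / (27 / 200)) (by positivity)
    (by rw [div_le_one (by norm_num)]; exact h1)
  have h2 : y / (27 / 200) * (27 / 200 * (501 / 500)) = 501 / 500 * y := by ring
  have h3 := Real.exp_bound' (x := 27 / 200 * (501 / 500)) (by norm_num) (by norm_num)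
    (n := 3) (by norm_num)
  norm_num [Finset.sum_range_succ, Nat.factorial] at h3
  rw [h2] at h
  norm_num at h
  nlinarith

/-! ### The shifts -/

/-- `‖un 0 ξ‖` as a function of `w = 2 π |ξ|` -/
noncomputable def vn (w : ℝ) : ℝ := √(4 + w ^ 2)

theorem norm_un (ξ : ℝ) : ‖un 0 ξ‖ = vn |2 * Real.pi * ξ| := by
  rw [un, vn, sq_abs, Complex.norm_eq_sqrt_sq_add_sq]
  congr 1
  simp
  norm_num

theorem norm_un_add (ξ η : ℝ) : ‖un 0 ξ + (starRingEnd ℂ) (un 0 η)‖ =
    √(16 + (2 * Real.pi * (ξ - η)) ^ 2) := by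
  rw [un, un, Complex.norm_eq_sqrt_sq_add_sq]
  congr 1
  simp
  ring

theorem two_le_vn (w : ℝ) : 2 ≤ vn w := by
  rw [vn]
  exact Real.le_sqrt_of_sq_le (by nlinarith [sq_nonneg w])

theorem vn_pos (w : ℝ) : 0 < vn w := by linarith [two_le_vn w]

theorem le_vn (w : ℝ) : w ≤ vn w := Real.le_sqrt_of_sq_le (by nlinarith)

theorem vn_sq (w : ℝ) : vn w ^ 2 = 4 + w ^ 2 := Real.sq_sqrt (by positivity)

theorem vn_le {w W V : ℝ} (h0 : 0 ≤ w) (h : w ≤ W) (hV : 0 ≤ V) (h2 : 4 + W ^ 2 ≤ V ^ 2) :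
    vn w ≤ V := by
  rw [vn]
  exact Real.sqrt_le_iff.2 ⟨hV, by nlinarith⟩

theorem continuous_vn : Continuous vn := by
  unfold vn
  fun_prop

/-! ### Integrals of functions of `|2 π ξ|` -/

theorem lint (F : ℝ → ℝ≥0∞) (hF : Measurable F) :
    ∫⁻ ξ : ℝ, F |2 * Real.pi * ξ| = ENNReal.ofReal (1 / Real.pi) * ∫⁻ w in Set.Ioi (0 : ℝ), F w := by
  have hpi := Real.pi_pos
  have h2 : (2 * Real.pi) ≠ 0 := by positivity
  have hm : Measurable fun w : ℝ => F |w| := hF.comp measurable_norm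
  have h3 : ∫⁻ ξ : ℝ, F |2 * Real.pi * ξ| = ∫⁻ w, F |w| ∂(Measure.map (2 * Real.pi * ·) volume) := by
    rw [lintegral_map hm (by fun_prop)]
  rw [h3, Real.map_volume_mul_left h2, lintegral_smul_measure]
  have h4 : ∫⁻ w : ℝ, F |w| = 2 * ∫⁻ w in Set.Ioi (0 : ℝ), F w := by
    have h5 : ∫⁻ w : ℝ, F |w| = (∫⁻ w in Set.Iic (0 : ℝ), F |w|) + ∫⁻ w in Set.Ioi (0 : ℝ), F |w| := by
      rw [← lintegral_add_compl _ (measurableSet_Iic (a := (0 : ℝ))), Set.compl_Iic]
    have h6 : ∫⁻ w in Set.Ioi (0 : ℝ), F |w| = ∫⁻ w in Set.Ioi (0 : ℝ), F w := by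
      refine setLIntegral_congr_fun measurableSet_Ioi fun w hw => ?_
      simp only [abs_of_pos (Set.mem_Ioi.1 hw)]
    have h7 : ∫⁻ w in Set.Iic (0 : ℝ), F |w| = ∫⁻ w in Set.Ioi (0 : ℝ), F w := by
      have h8 : MeasurePreserving (fun w : ℝ => -w) (volume.restrict (Set.Ici (0 : ℝ)))
          (volume.restrict (Set.Iic (0 : ℝ))) := by
        have h9 := (Measure.measurePreserving_neg (volume : Measure ℝ)).restrict_preimage
          (measurableSet_Iic (a := (0 : ℝ)))
        have h10 : (Neg.neg ⁻¹' Set.Iic (0 : ℝ)) = Set.Ici 0 := by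
          ext w
          simp
        rw [h10] at h9
        exact h9
      rw [← h8.lintegral_comp hm, ← setLIntegral_congr (Ioi_ae_eq_Ici (a := (0 : ℝ))) ]
      refine setLIntegral_congr_fun measurableSet_Ioi fun w hw => ?_
      simp only [abs_neg, abs_of_pos (Set.mem_Ioi.1 hw)]
    rw [h5, h6, h7, two_mul]
  rw [h4, smul_eq_mul, ← mul_assoc]
  congr 1
  rw [show (2 : ℝ≥0∞) = ENNReal.ofReal 2 by simp, ← ENNReal.ofReal_mul (by positivity)]
  congr 1
  rw [abs_of_pos (by positivity)]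
  field_simp

theorem lint_const {X c : ℝ} (hc : 0 ≤ c) :
    ∫⁻ _w in Set.Ioc (0 : ℝ) X, ENNReal.ofReal c = ENNReal.ofReal (c * X) := by
  rw [setLIntegral_const, Real.volume_Ioc, sub_zero, ENNReal.ofReal_mul hc]

/-- `∫_X^∞ w^{-s}` -/
theorem lint_rpow {X s : ℝ} (hX : 0 < X) (hs : 1 < s) :
    ∫⁻ w in Set.Ioi X, ENNReal.ofReal (w ^ (-s)) = ENNReal.ofReal (X ^ (1 - s) / (s - 1)) := by
  have h1 := integral_Ioi_rpow_of_lt (a := -s) (by linarith) hX
  have h2 : IntegrableOn (fun w : ℝ => w ^ (-s)) (Set.Ioi X) :=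
    integrableOn_Ioi_rpow_of_lt (by linarith) hX
  rw [← ofReal_integral_eq_lintegral_ofReal h2, h1]
  · congr 1
    rw [show -s + 1 = 1 - s by ring, neg_div, ← div_neg]
    congr 1
    ring
  · exact (ae_restrict_iff' measurableSet_Ioi).2 (Eventually.of_forall fun w hw =>
      Real.rpow_nonneg (hX.trans (Set.mem_Ioi.1 hw)).le _)

/-- the factor of the main term without shifts -/
theorem lint_vn_sq : ∫⁻ w in Set.Ioi (0 : ℝ), ENNReal.ofReal ((4 + w ^ 2)⁻¹) =
    ENNReal.ofReal (Real.pi / 4) := by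
  have hd : ∀ w ∈ Set.Ici (0 : ℝ), HasDerivAt (fun w => 1 / 2 * Real.arctan (w / 2))
      ((4 + w ^ 2)⁻¹) w := by
    intro w _
    have h1 := (((hasDerivAt_id w).div_const 2).arctan).const_mul (1 / 2 : ℝ)
    refine h1.congr_deriv ?_
    simp only [id]
    field_simp
    ring
  have hlim : Tendsto (fun w : ℝ => 1 / 2 * Real.arctan (w / 2)) atTop (𝓝 (1 / 2 * (Real.pi / 2))) :=
    ((Real.tendsto_arctan_atTop.mono_right nhdsWithin_le_nhds).comp
      (tendsto_id.atTop_div_const (by norm_num))).const_mul _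
  have hnn : ∀ w ∈ Set.Ioi (0 : ℝ), 0 ≤ (4 + w ^ 2)⁻¹ := fun w _ => by positivity
  have h1 := integral_Ioi_of_hasDerivAt_of_nonneg' hd hnn hlim
  have h2 := integrableOn_Ioi_deriv_of_nonneg' hd hnn hlim
  rw [← ofReal_integral_eq_lintegral_ofReal h2, h1]
  · congr 1
    simp
    ring
  · exact (ae_restrict_iff' measurableSet_Ioi).2 (Eventually.of_forall hnn)

theorem lint_vn_cube : ∫⁻ w in Set.Ioi (0 : ℝ), ENNReal.ofReal ((vn w ^ 3)⁻¹) =
    ENNReal.ofReal (1 / 4) := by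
  have hd : ∀ w ∈ Set.Ici (0 : ℝ), HasDerivAt (fun w => w / (4 * vn w)) ((vn w ^ 3)⁻¹) w := by
    intro w _
    have hv := vn_pos w
    have hv2 := vn_sq w
    have h0 : HasDerivAt vn (w / vn w) w := by
      have h1 : HasDerivAt (fun w : ℝ => 4 + w ^ 2) (2 * w) w := by
        have := ((hasDerivAt_id w).pow 2).const_add 4
        simpa using this
      have h2 := h1.sqrt (by positivity)
      refine h2.congr_deriv ?_
      rw [vn]
      field_simp
    have h3 := (hasDerivAt_id w).div (h0.const_mul 4) (by positivity)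
    refine h3.congr_deriv ?_
    simp only [id]
    have h4 : (1 * (4 * vn w) - w * (4 * (w / vn w))) = 16 / vn w := by
      field_simp
      rw [hv2]
      ring
    rw [h4]
    field_simp
    norm_num
  have hlim : Tendsto (fun w : ℝ => w / (4 * vn w)) atTop (𝓝 (1 / 4)) := by
    have h1 : Tendsto (fun w : ℝ => 1 / 4 * √(1 - 4 * (4 + w ^ 2)⁻¹)) atTop
        (𝓝 (1 / 4 * √(1 - 4 * 0))) := by
      refine ((tendsto_const_nhds.sub (Tendsto.const_mul _ ?_)).sqrt).const_mul _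
      refine tendsto_inv_atTop_zero.comp ?_
      exact tendsto_atTop_add_const_left _ _ (tendsto_pow_atTop (by norm_num))
    simp only [mul_zero, sub_zero, Real.sqrt_one, mul_one] at h1
    refine h1.congr' ?_
    filter_upwards [eventually_ge_atTop 0] with w hw
    have hv := vn_pos w
    have hv2 := vn_sq w
    have h2 : 1 - 4 * (4 + w ^ 2)⁻¹ = (w / vn w) ^ 2 := by
      rw [div_pow, hv2]
      field_simp
      ring
    rw [h2, Real.sqrt_sq (by positivity)]
    field_simp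
  have hnn : ∀ w ∈ Set.Ioi (0 : ℝ), 0 ≤ (vn w ^ 3)⁻¹ := fun w _ => by
    have := vn_pos w
    positivity
  have h1 := integral_Ioi_of_hasDerivAt_of_nonneg' hd hnn hlim
  have h2 := integrableOn_Ioi_deriv_of_nonneg' hd hnn hlim
  rw [← ofReal_integral_eq_lintegral_ofReal h2, h1]
  · congr 1
    simp
  · exact (ae_restrict_iff' measurableSet_Ioi).2 (Eventually.of_forall hnn)

end JT
end K7
end Pool.Agent.Lib.MP_973905_nt
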