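import Pool.Agent.Lib.MP_973905_nt.K7.Base
import Pool.Agent.Lib.MP_973905_nt.K5.Rho
import Pool.Agent.Lib.MP_973905_nt.K5.PrimeInt

/-! (R15) Bounds for `om`, the total distance of the means of the top blocks from their values
without shift. -/

namespace Pool.Agent.Lib.MP_973905_nt
namespace K7

open MeasureTheory ProbabilityTheory Complex Filter Topology K1 K4 K5

namespace OmAux

/-- `|e^z - 1| ≤ |z| e^b` for `Re z ≤ b`, `0 ≤ b`. -/
theorem exp_sub_one_le {z : ℂ} {b : ℝ} (hb : 0 ≤ b) (hz : z.re ≤ b) :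
    ‖cexp z - 1‖ ≤ ‖z‖ * Real.exp b := by
  have h := norm_image_sub_le_of_norm_deriv_le_segment_01' (f := fun t : ℝ => cexp (t * z))
    (f' := fun t : ℝ => cexp (t * z) * z) (C := ‖z‖ * Real.exp b) (fun t _ => ?_) (fun t ht => ?_)
  · simpa using h
  · have h1 : HasDerivAt (fun t : ℝ => (t : ℂ) * z) z t := by
      simpa using (Complex.ofRealCLM.hasDerivAt (x := t)).mul_const z
    exact h1.cexp.hasDerivWithinAt
  · rw [norm_mul, Complex.norm_exp, mul_comm]
    refine mul_le_mul_of_nonneg_left (Real.exp_le_exp.2 ?_) (norm_nonneg z)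
    rw [Complex.re_ofReal_mul]
    rcases le_total z.re 0 with h | h
    · exact (mul_nonpos_of_nonneg_of_nonpos ht.1 h).trans hb
    · calc t * z.re ≤ 1 * z.re := mul_le_mul_of_nonneg_right ht.2.le h
        _ ≤ b := by rwa [one_mul]

theorem cont_aux {lo hi : ℝ} (hlo : 0 < lo) (hhi : lo ≤ hi) (u : ℂ) :
    IntervalIntegrable (fun x : ℝ => (cexp (-(u * x)) - 1) / x) volume lo hi := by
  apply ContinuousOn.intervalIntegrable
  apply ContinuousOn.div
  · fun_prop
  · fun_prop
  · intro x hx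
    rw [Set.uIcc_of_le hhi] at hx
    exact_mod_cast (hlo.trans_le hx.1).ne'

theorem vv_sub_eq {lo hi : ℝ} (hlo : 0 < lo) (hhi : lo ≤ hi) (u : ℂ) :
    vv lo hi u - ((Real.log (hi / lo) : ℝ) : ℂ) = ∫ x in lo..hi, (cexp (-(u * x)) - 1) / x := by
  rw [← RhoA.vv_zero hlo hhi]
  have h0 : 0 < hi := hlo.trans_le hhi
  unfold vv
  rw [← intervalIntegral.integral_sub (PrimeIntAux.vv_int u lo hi hlo h0)
    (PrimeIntAux.vv_int 0 lo hi hlo h0)]
  refine intervalIntegral.integral_congr fun x _ => ?_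
  simp only [zero_mul, neg_zero, Complex.exp_zero]
  rw [sub_div]

/-- linear bound -/
theorem vv_lin {lo hi C : ℝ} (hlo : 0 < lo) (hhi : lo ≤ hi) {u : ℂ}
    (h : ∀ x, lo < x → x ≤ hi → ‖cexp (-(u * x)) - 1‖ ≤ C * x) :
    ‖vv lo hi u - ((Real.log (hi / lo) : ℝ) : ℂ)‖ ≤ C * (hi - lo) := by
  rw [vv_sub_eq hlo hhi]
  have h2 := intervalIntegral.norm_integral_le_of_norm_le_const (a := lo) (b := hi)
    (f := fun x : ℝ => (cexp (-(u * x)) - 1) / x) (C := C) (by
      intro x hx
      rw [Set.uIoc_of_le hhi] at hx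
      have hx0 : 0 < x := hlo.trans hx.1
      rw [norm_div, Complex.norm_real, Real.norm_of_nonneg hx0.le, div_le_iff₀ hx0]
      exact h x hx.1 hx.2)
  rwa [abs_of_nonneg (by linarith)] at h2

/-- linear bound for `Re u ≥ 0` -/
theorem vv_lin0 {lo hi : ℝ} (hlo : 0 < lo) (hhi : lo ≤ hi) {u : ℂ} (hu : 0 ≤ u.re) :
    ‖vv lo hi u - ((Real.log (hi / lo) : ℝ) : ℂ)‖ ≤ ‖u‖ * (hi - lo) := by
  refine vv_lin hlo hhi fun x hx _ => ?_
  have hx0 : 0 < x := hlo.trans hx
  have h1 : (-(u * (x : ℂ))).re ≤ 0 := by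
    rw [Complex.neg_re, Complex.re_mul_ofReal]
    have := mul_nonneg hu hx0.le
    linarith
  have h2 := exp_sub_one_le le_rfl h1
  rwa [Real.exp_zero, mul_one, norm_neg, norm_mul, Complex.norm_real,
    Real.norm_of_nonneg hx0.le] at h2

/-- logarithmic bound for `Re u ≥ 0` -/
theorem vv_two {lo hi : ℝ} (hlo : 0 < lo) (hhi : lo ≤ hi) {u : ℂ} (hu : 0 ≤ u.re) :
    ‖vv lo hi u - ((Real.log (hi / lo) : ℝ) : ℂ)‖ ≤ 2 * Real.log (hi / lo) := by
  rw [vv_sub_eq hlo hhi]
  have h0 : 0 < hi := hlo.trans_le hhi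
  have h1 := intervalIntegral.norm_integral_le_of_norm_le hhi
    (f := fun x : ℝ => (cexp (-(u * x)) - 1) / x) (g := fun x : ℝ => 2 * (1 / x)) (μ := volume)
    (Eventually.of_forall fun x hx => ?_) ?_
  · refine h1.trans ?_
    rw [intervalIntegral.integral_const_mul, integral_one_div_of_pos hlo h0]
  · have hx0 : 0 < x := hlo.trans hx.1
    rw [norm_div, Complex.norm_real, Real.norm_of_nonneg hx0.le, mul_one_div]
    refine div_le_div_of_nonneg_right ?_ hx0.le
    have h2 : ‖cexp (-(u * (x : ℂ)))‖ ≤ 1 := by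
      rw [Complex.norm_exp, Real.exp_le_one_iff, Complex.neg_re, Complex.re_mul_ofReal]
      have := mul_nonneg hu hx0.le
      linarith
    calc ‖cexp (-(u * (x : ℂ))) - 1‖ ≤ ‖cexp (-(u * (x : ℂ)))‖ + ‖(1 : ℂ)‖ := norm_sub_le _ _
      _ ≤ 1 + 1 := by rw [norm_one]; linarith
      _ = 2 := by norm_num
  · apply ContinuousOn.intervalIntegrable
    apply ContinuousOn.mul continuousOn_const
    apply ContinuousOn.div continuousOn_const continuousOn_id
    intro x hx
    rw [Set.uIcc_of_le hhi] at hx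
    exact (hlo.trans_le hx.1).ne'

/-- bound by integration by parts -/
theorem vv_osc {lo hi : ℝ} (hlo : 0 < lo) (hhi : lo ≤ hi) {u : ℂ} (hu : 0 ≤ u.re) (hu0 : u ≠ 0) :
    ‖vv lo hi u‖ ≤ 2 / (‖u‖ * lo) := by
  have h0 : 0 < hi := hlo.trans_le hhi
  have hn : 0 < ‖u‖ := norm_pos_iff.2 hu0
  have hpos : ∀ x ∈ Set.uIcc lo hi, 0 < x := by
    intro x hx
    rw [Set.uIcc_of_le hhi] at hx
    exact hlo.trans_le hx.1
  have hexp : ∀ x : ℝ, 0 < x → ‖cexp (-(u * (x : ℂ)))‖ ≤ 1 := by
    intro x hx0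
    rw [Complex.norm_exp, Real.exp_le_one_iff, Complex.neg_re, Complex.re_mul_ofReal]
    have := mul_nonneg hu hx0.le
    linarith
  have hint : IntervalIntegrable (fun x : ℝ => cexp (-(u * x)) / (u * x ^ 2)) volume lo hi := by
    apply ContinuousOn.intervalIntegrable
    apply ContinuousOn.div
    · fun_prop
    · fun_prop
    · intro x hx
      have := (hpos x hx).ne'
      have h2 : (x : ℂ) ≠ 0 := by exact_mod_cast this
      positivity
  have hder : ∀ x ∈ Set.uIcc lo hi, HasDerivAt (fun x : ℝ => -(cexp (-(u * x)) / (u * x)))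
      (cexp (-(u * x)) / x + cexp (-(u * x)) / (u * x ^ 2)) x := by
    intro x hx
    have hx0 : (x : ℂ) ≠ 0 := by exact_mod_cast (hpos x hx).ne'
    have h1 : HasDerivAt (fun x : ℝ => u * (x : ℂ)) u x := by
      simpa using (Complex.ofRealCLM.hasDerivAt (x := x)).const_mul u
    have h2 := ((h1.neg.cexp).div h1 (mul_ne_zero hu0 hx0)).neg
    refine h2.congr_deriv ?_
    simp only [Pi.neg_apply]
    field_simp
    ring
  have hF := intervalIntegral.integral_eq_sub_of_hasDerivAt hder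
    ((PrimeIntAux.vv_int u lo hi hlo h0).add hint)
  rw [intervalIntegral.integral_add (PrimeIntAux.vv_int u lo hi hlo h0) hint] at hF
  have h3 : vv lo hi u = (-(cexp (-(u * hi)) / (u * hi)) - -(cexp (-(u * lo)) / (u * lo))) -
      ∫ x in lo..hi, cexp (-(u * x)) / (u * x ^ 2) := by
    rw [← hF]
    unfold vv
    ring
  have hb1 : ∀ x : ℝ, 0 < x → ‖cexp (-(u * (x : ℂ))) / (u * x)‖ ≤ 1 / (‖u‖ * x) := by
    intro x hx0
    rw [norm_div, norm_mul, Complex.norm_real, Real.norm_of_nonneg hx0.le]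
    exact div_le_div_of_nonneg_right (hexp x hx0) (by positivity)
  have hb2 : ‖∫ x in lo..hi, cexp (-(u * x)) / (u * x ^ 2)‖ ≤ 1 / ‖u‖ * (1 / lo - 1 / hi) := by
    have hd : ∀ x ∈ Set.uIcc lo hi, HasDerivAt (fun x : ℝ => -(1 / ‖u‖ * (1 / x)))
        (1 / (‖u‖ * x ^ 2)) x := by
      intro x hx
      have hx0 := (hpos x hx).ne'
      have h4 := ((hasDerivAt_inv hx0).const_mul (1 / ‖u‖)).neg
      simp only [one_div] at h4 ⊢
      refine h4.congr_deriv ?_
      field_simp
    have hi2 : IntervalIntegrable (fun x : ℝ => 1 / (‖u‖ * x ^ 2)) volume lo hi := by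
      apply ContinuousOn.intervalIntegrable
      apply ContinuousOn.div continuousOn_const
      · fun_prop
      · intro x hx
        have := hpos x hx
        positivity
    have h5 := intervalIntegral.integral_eq_sub_of_hasDerivAt hd hi2
    have h6 := intervalIntegral.norm_integral_le_of_norm_le hhi
      (f := fun x : ℝ => cexp (-(u * x)) / (u * x ^ 2)) (g := fun x : ℝ => 1 / (‖u‖ * x ^ 2))
      (μ := volume) (Eventually.of_forall fun x hx => ?_) hi2
    · refine h6.trans (le_of_eq ?_)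
      rw [h5]
      ring
    · have hx0 : 0 < x := hlo.trans hx.1
      rw [norm_div, norm_mul, norm_pow, Complex.norm_real, Real.norm_of_nonneg hx0.le]
      exact div_le_div_of_nonneg_right (hexp x hx0) (by positivity)
  rw [h3]
  calc ‖(-(cexp (-(u * hi)) / (u * hi)) - -(cexp (-(u * lo)) / (u * lo))) -
      ∫ x in lo..hi, cexp (-(u * x)) / (u * x ^ 2)‖
      ≤ ‖-(cexp (-(u * hi)) / (u * hi)) - -(cexp (-(u * lo)) / (u * lo))‖ +
        ‖∫ x in lo..hi, cexp (-(u * x)) / (u * x ^ 2)‖ := norm_sub_le _ _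
    _ ≤ (‖-(cexp (-(u * hi)) / (u * hi))‖ + ‖-(cexp (-(u * lo)) / (u * lo))‖) +
        1 / ‖u‖ * (1 / lo - 1 / hi) := add_le_add (norm_sub_le _ _) hb2
    _ ≤ (1 / (‖u‖ * hi) + 1 / (‖u‖ * lo)) + 1 / ‖u‖ * (1 / lo - 1 / hi) := by
        rw [norm_neg, norm_neg]
        have := hb1 hi h0
        have := hb1 lo hlo
        linarith
    _ = 2 / (‖u‖ * lo) := by
        field_simp
        ring

/-- a block crossing the point `2 / |u|` -/
theorem vv_cross {lo hi : ℝ} (hlo : 0 < lo) (hhi : lo ≤ hi) {u : ℂ} (hu : 0 ≤ u.re)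
    (h1 : ‖u‖ * lo ≤ 2) (h2 : 2 ≤ ‖u‖ * hi) :
    ‖vv lo hi u - ((Real.log (hi / lo) : ℝ) : ℂ)‖ ≤
      2 * Real.log (‖u‖ * hi / 2) + 2 - ‖u‖ * lo := by
  have h0 : 0 < hi := hlo.trans_le hhi
  have hn : 0 < ‖u‖ := by
    by_contra hne
    have : ‖u‖ = 0 := le_antisymm (not_lt.1 hne) (norm_nonneg u)
    rw [this] at h2
    linarith
  set z : ℝ := 2 / ‖u‖ with hz
  have hz0 : 0 < z := by positivity
  have hlz : lo ≤ z := by rw [hz, le_div_iff₀ hn]; linarith
  have hzh : z ≤ hi := by rw [hz, div_le_iff₀ hn]; linarith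
  have h3 := PrimeIntAux.vv_add u lo z hi hlo hz0 h0
  have h4 : Real.log (hi / lo) = Real.log (z / lo) + Real.log (hi / z) := by
    rw [← Real.log_mul (by positivity) (by positivity)]
    congr 1
    field_simp
  have h5 : vv lo hi u - ((Real.log (hi / lo) : ℝ) : ℂ) =
      (vv lo z u - ((Real.log (z / lo) : ℝ) : ℂ)) + (vv z hi u - ((Real.log (hi / z) : ℝ) : ℂ)) := by
    rw [h3, h4]
    push_cast
    ring
  have h6 := vv_lin0 hlo hlz hu
  have h7 := vv_two hz0 hzh hu
  have h8 : ‖u‖ * (z - lo) = 2 - ‖u‖ * lo := by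
    rw [hz]
    field_simp
  have h9 : hi / z = ‖u‖ * hi / 2 := by
    rw [hz]
    field_simp
  rw [h9] at h7
  rw [h5, h9]
  refine (norm_add_le _ _).trans ?_
  linarith

/-! ### the potential -/

/-- the constant `2 / (1 - 1/e)` -/
noncomputable def cc : ℝ := 2 * Real.exp 1 / (Real.exp 1 - 1)

theorem e_pos : 0 < Real.exp 1 - 1 := by
  have := Real.exp_one_gt_d9
  linarith

theorem cc_eq : cc * (1 - Real.exp (-1)) = 2 := by
  have h := e_pos
  have h1 := Real.exp_pos 1
  unfold cc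
  rw [Real.exp_neg]
  field_simp

theorem cc_two : 2 ≤ cc := by
  have h := e_pos
  unfold cc
  rw [le_div_iff₀ h]
  linarith

theorem cc_le : cc ≤ 32 / 10 := by
  have h := e_pos
  have := Real.exp_one_gt_d9
  unfold cc
  rw [div_le_iff₀ h]
  linarith

/-- the constant `C` -/
noncomputable def C0 : ℝ := cc / 2 + 2 - Real.log 2

theorem exp_C0 : Real.exp C0 ≤ 19 := by
  have h1 : Real.exp C0 = Real.exp (cc / 2 + 2) / 2 := by
    unfold C0
    rw [Real.exp_sub, Real.exp_log (by norm_num)]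
  have h2 : Real.exp (cc / 2 + 2) ≤ Real.exp (36 / 10) := by
    apply Real.exp_le_exp.2
    have := cc_le
    linarith
  have h3 : Real.exp (36 / 10) ≤ 38 := by
    have h4 : Real.exp (36 / 10) ^ 5 = Real.exp 1 ^ 18 := by
      rw [← Real.exp_nat_mul, ← Real.exp_nat_mul]
      congr 1
      norm_num
    have h5 : Real.exp 1 ^ 18 ≤ 2.7182818286 ^ 18 :=
      pow_le_pow_left₀ (Real.exp_pos 1).le Real.exp_one_lt_d9.le 18
    by_contra hne
    push Not at hne
    have h6 : (38 : ℝ) ^ 5 ≤ Real.exp (36 / 10) ^ 5 :=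
      pow_le_pow_left₀ (by norm_num) hne.le 5
    rw [h4] at h6
    have h7 := h6.trans h5
    norm_num at h7
  rw [h1]
  linarith

/-- the potential -/
noncomputable def G (y : ℝ) : ℝ := if y < 2 then y else Real.log y + C0 - cc / y

theorem G_nonneg {y : ℝ} (hy : 0 ≤ y) : 0 ≤ G y := by
  unfold G
  split_ifs with h
  · exact hy
  · push Not at h
    have h1 : Real.log 2 ≤ Real.log y := Real.log_le_log (by norm_num) h
    have h2 : cc / y ≤ cc / 2 := div_le_div_of_nonneg_left (by linarith [cc_two]) (by norm_num) h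
    unfold C0
    linarith

/-- a block of ratio `e` -/
theorem block {lo hi : ℝ} (hlo : 0 < lo) (hhi : hi = Real.exp 1 * lo) {u : ℂ} (hu : 0 ≤ u.re)
    (hu0 : u ≠ 0) :
    ‖vv lo hi u - ((1 : ℝ) : ℂ)‖ ≤ G (‖u‖ * hi) - G (‖u‖ * lo) := by
  have hn : 0 < ‖u‖ := norm_pos_iff.2 hu0
  have he : 1 ≤ Real.exp 1 := by
    have := e_pos
    linarith
  have hle : lo ≤ hi := by
    rw [hhi]
    nlinarith
  have hlog : Real.log (hi / lo) = 1 := by
    rw [hhi, mul_div_assoc, div_self hlo.ne', mul_one, Real.log_exp]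
  have hab : ‖u‖ * lo ≤ ‖u‖ * hi := mul_le_mul_of_nonneg_left hle hn.le
  have h0 : 0 < hi := hlo.trans_le hle
  rw [← hlog]
  by_cases hb : ‖u‖ * hi < 2
  · have ha : ‖u‖ * lo < 2 := hab.trans_lt hb
    unfold G
    rw [if_pos hb, if_pos ha]
    have := vv_lin0 hlo hle hu
    linarith
  · push Not at hb
    by_cases ha : ‖u‖ * lo < 2
    · -- the crossing block
      have h1 := vv_cross hlo hle hu ha.le hb
      refine h1.trans ?_
      unfold G
      rw [if_neg (not_lt.2 hb), if_pos ha]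
      set b := ‖u‖ * hi with hbdef
      have hb0 : 0 < b := by linarith
      have h2 : Real.log (b / 2) = Real.log b - Real.log 2 := Real.log_div hb0.ne' (by norm_num)
      -- `t = log (b / 2) ∈ [0, 1]`
      have ht0 : 0 ≤ Real.log (b / 2) := Real.log_nonneg (by linarith)
      have hb1 : b ≤ Real.exp 1 * 2 := by
        rw [hbdef, hhi]
        have : ‖u‖ * (Real.exp 1 * lo) = Real.exp 1 * (‖u‖ * lo) := by ring
        rw [this]
        exact mul_le_mul_of_nonneg_left ha.le (Real.exp_pos 1).le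
      have ht1 : Real.log (b / 2) ≤ 1 := by
        rw [Real.log_le_iff_le_exp (by positivity)]
        linarith
      have h3 : Real.exp (-Real.log (b / 2)) ≤ 1 - (1 - Real.exp (-1)) * Real.log (b / 2) := by
        have h4 := convexOn_exp.2 (Set.mem_univ (0 : ℝ)) (Set.mem_univ (-1 : ℝ))
          (sub_nonneg.2 ht1) ht0 (by ring)
        simp only [smul_eq_mul, mul_zero, zero_add, mul_neg, mul_one, Real.exp_zero] at h4
        linarith
      have h5 : cc / b = cc / 2 * Real.exp (-Real.log (b / 2)) := by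
        rw [Real.exp_neg, Real.exp_log (by positivity)]
        field_simp
      have h6 : cc / b ≤ cc / 2 * (1 - (1 - Real.exp (-1)) * Real.log (b / 2)) := by
        rw [h5]
        exact mul_le_mul_of_nonneg_left h3 (by linarith [cc_two])
      have h7 : cc / 2 * (1 - (1 - Real.exp (-1)) * Real.log (b / 2)) =
          cc / 2 - Real.log (b / 2) := by
        have := cc_eq
        linear_combination (-(Real.log (b / 2)) / 2) * this
      rw [h7] at h6
      unfold C0
      rw [h2] at h6 ⊢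
      linarith
    · push Not at ha
      have h1 := vv_osc hlo hle hu hu0
      have h2 : ‖vv lo hi u - ((Real.log (hi / lo) : ℝ) : ℂ)‖ ≤ 2 / (‖u‖ * lo) + 1 := by
        refine (norm_sub_le _ _).trans ?_
        rw [hlog, Complex.norm_real, norm_one]
        linarith
      refine h2.trans ?_
      unfold G
      rw [if_neg (not_lt.2 hb), if_neg (not_lt.2 ha)]
      have ha0 : 0 < ‖u‖ * lo := by positivity
      have h3 : ‖u‖ * hi = Real.exp 1 * (‖u‖ * lo) := by
        rw [hhi]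
        ring
      rw [h3, Real.log_mul (Real.exp_pos 1).ne' ha0.ne', Real.log_exp]
      have h4 : cc / (Real.exp 1 * (‖u‖ * lo)) = cc * Real.exp (-1) / (‖u‖ * lo) := by
        rw [Real.exp_neg]
        field_simp
      have h5 : 2 / (‖u‖ * lo) = cc * (1 - Real.exp (-1)) / (‖u‖ * lo) := by rw [cc_eq]
      rw [h4, h5]
      have h6 : cc * (1 - Real.exp (-1)) / (‖u‖ * lo) =
          cc / (‖u‖ * lo) - cc * Real.exp (-1) / (‖u‖ * lo) := by
        rw [← sub_div]
        congr 1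
        ring
      rw [h6]
      linarith

theorem tq_ratio (i : ℕ) : tq (i + 1) = Real.exp 1 * tq (i + 2) := by
  have h := Blk7.log_tq (i + 1)
  have h1 : Vv (i + 1) = 1 := by simp [Vv]
  rw [h1] at h
  have h2 : 0 < tq (i + 1) / tq (i + 1 + 1) := div_pos (Blk7.tq_pos _) (Blk7.tq_pos _)
  have h3 : tq (i + 1) / tq (i + 1 + 1) = Real.exp 1 := by
    rw [← h, Real.exp_log h2]
  have h4 := Blk7.tq_pos (i + 1 + 1)
  rw [div_eq_iff h4.ne'] at h3
  exact h3

theorem tq_zero_small : tq 0 ≤ 1 / 400 := by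
  unfold tq tb
  rw [if_pos rfl, ← Real.exp_add]
  have h1 : Real.exp (-(53 / 25) + -4) ≤ Real.exp (-6) := Real.exp_le_exp.2 (by norm_num)
  refine h1.trans ?_
  have h2 : Real.exp (-6) = (Real.exp 1 ^ 6)⁻¹ := by
    rw [Real.exp_neg, ← Real.exp_nat_mul]
    norm_num
  rw [h2, one_div]
  apply inv_anti₀ (by norm_num)
  have h3 : (2.7182818283 : ℝ) ^ 6 ≤ Real.exp 1 ^ 6 :=
    pow_le_pow_left₀ (by norm_num) Real.exp_one_gt_d9.le 6
  refine le_trans ?_ h3
  norm_num

theorem tail {u : ℂ} (hu : 0 ≤ u.re) (hu0 : u ≠ 0) (k : ℕ) :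
    ∑ i ∈ Finset.range k, ‖vv (tq (i + 1 + 1)) (tq (i + 1)) u - ((Vv (i + 1) : ℝ) : ℂ)‖ ≤
      G (‖u‖ * tq 1) - G (‖u‖ * tq (k + 1)) := by
  induction k with
  | zero => simp
  | succ k ih =>
    rw [Finset.sum_range_succ]
    have h1 : Vv (k + 1) = 1 := by simp [Vv]
    rw [h1]
    have h2 := block (Blk7.tq_pos (k + 2)) (tq_ratio k) hu hu0
    have h3 : k + 1 + 1 = k + 2 := rfl
    rw [h3]
    linarith

theorem log_tq_zero : Real.log (tq 0 / tq 1) = 22 / 25 := by
  have h := Blk7.log_tq 0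
  simpa [Vv] using h

end OmAux

open OmAux in
theorem stOm : StOm := by
  refine ⟨fun M u hu => ?_, fun M u hu hy => ?_⟩
  · -- linear bound
    unfold om
    have h1 : ∀ i, ‖vv (tq (i + 1)) (tq i) u - ((Vv i : ℝ) : ℂ)‖ ≤
        501 / 500 * ‖u‖ * (tq i - tq (i + 1)) := by
      intro i
      rw [← Blk7.log_tq i]
      refine vv_lin (Blk7.tq_pos _) (Blk7.tq_succ_le i) fun x hx hx2 => ?_
      have hx0 : 0 < x := (Blk7.tq_pos _).trans hx
      have hx3 : x ≤ 1 / 400 := (hx2.trans (Blk7.tq_anti (Nat.zero_le i))).trans tq_zero_small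
      have h2 : (-(u * (x : ℂ))).re ≤ 1 / 800 := by
        rw [Complex.neg_re, Complex.re_mul_ofReal]
        have := mul_le_mul_of_nonneg_right hu hx0.le
        linarith
      have h3 := exp_sub_one_le (by norm_num : (0 : ℝ) ≤ 1 / 800) h2
      rw [norm_neg, norm_mul, Complex.norm_real, Real.norm_of_nonneg hx0.le] at h3
      have h4 : Real.exp (1 / 800) ≤ 501 / 500 := by
        have h5 := Real.add_one_le_exp (-(1 / 800) : ℝ)
        have h7 : Real.exp (1 / 800) * Real.exp (-(1 / 800)) = 1 := by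
          rw [← Real.exp_add, add_neg_cancel, Real.exp_zero]
        have h8 := Real.exp_pos (1 / 800)
        nlinarith
      refine h3.trans ?_
      have h6 : 0 ≤ ‖u‖ * x := by positivity
      nlinarith
    refine (Finset.sum_le_sum fun i _ => h1 i).trans ?_
    rw [← Finset.mul_sum, Finset.sum_range_sub']
    have h2 := Blk7.tq_pos (M - 6)
    have h3 := norm_nonneg u
    have h4 : 0 ≤ 501 / 500 * ‖u‖ := by positivity
    calc 501 / 500 * ‖u‖ * (tq 0 - tq (M - 6)) ≤ 501 / 500 * ‖u‖ * tq 0 :=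
          mul_le_mul_of_nonneg_left (by linarith) h4
      _ = 501 / 500 * (tq 0 * ‖u‖) := by ring
  · unfold om
    have hu0 : u ≠ 0 := by
      rintro rfl
      rw [norm_zero, mul_zero] at hy
      linarith
    have hn : 0 < ‖u‖ := norm_pos_iff.2 hu0
    rcases Nat.eq_zero_or_pos (M - 6) with h0 | h0
    · rw [h0, Finset.range_zero, Finset.sum_empty, Real.exp_zero]
      linarith
    obtain ⟨k, hk⟩ := Nat.exists_eq_succ_of_ne_zero h0.ne'
    rw [hk, Nat.succ_eq_add_one, Finset.sum_range_succ']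
    have h1 := tail hu hu0 k
    have h2 : 0 ≤ G (‖u‖ * tq (k + 1)) := G_nonneg (mul_nonneg hn.le (Blk7.tq_pos _).le)
    have hV : Vv 0 = 22 / 25 := by simp [Vv]
    set y := tq 0 * ‖u‖ with hydef
    have hy0 : 0 < y := by linarith
    have hq0 := Blk7.tq_pos 0
    have hq1 := Blk7.tq_pos 1
    have hlogy : Real.log y = Real.log (‖u‖ * tq 1) + 22 / 25 := by
      rw [← log_tq_zero, ← Real.log_mul (by positivity) (by positivity)]
      congr 1
      rw [hydef]
      field_simp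
    have key : ‖vv (tq (0 + 1)) (tq 0) u - ((Vv 0 : ℝ) : ℂ)‖ + G (‖u‖ * tq 1) ≤
        Real.log y + C0 := by
      rw [← Blk7.log_tq 0, zero_add]
      have h2y : 2 ≤ ‖u‖ * tq 0 := by rw [mul_comm]; exact hy
      unfold G
      split_ifs with ha
      · have h3 := vv_cross hq1 (Blk7.tq_succ_le 0) hu ha.le h2y
        have h4 : Real.log (‖u‖ * tq 0 / 2) = Real.log y - Real.log 2 := by
          rw [mul_comm, Real.log_div hy0.ne' (by norm_num)]
        rw [h4] at h3
        have h5 : Real.log (‖u‖ * tq 1) ≤ Real.log 2 := Real.log_le_log (by positivity) ha.le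
        have h6 := cc_two
        unfold C0
        linarith
      · push Not at ha
        have h3 := vv_osc hq1 (Blk7.tq_succ_le 0) hu hu0
        have h4 : ‖vv (tq 1) (tq 0) u - ((Real.log (tq 0 / tq 1) : ℝ) : ℂ)‖ ≤
            2 / (‖u‖ * tq 1) + 22 / 25 := by
          refine (norm_sub_le _ _).trans ?_
          rw [log_tq_zero, Complex.norm_real, Real.norm_of_nonneg (by norm_num)]
          linarith
        have h5 : 2 / (‖u‖ * tq 1) ≤ cc / (‖u‖ * tq 1) :=
          div_le_div_of_nonneg_right cc_two (by positivity)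
        linarith
    have h3 : ∑ i ∈ Finset.range k, ‖vv (tq (i + 1 + 1)) (tq (i + 1)) u -
        ((Vv (i + 1) : ℝ) : ℂ)‖ + ‖vv (tq (0 + 1)) (tq 0) u - ((Vv 0 : ℝ) : ℂ)‖ ≤
        Real.log y + C0 := by linarith
    refine (Real.exp_le_exp.2 h3).trans ?_
    rw [Real.exp_add, Real.exp_log hy0, mul_comm]
    exact mul_le_mul_of_nonneg_right exp_C0 hy0.le

end K7
end Pool.Agent.Lib.MP_973905_nt
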