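import Pool.Agent.Lib.MP_973905_nt.K7.Stmts
import Pool.Agent.Lib.MP_973905_nt.K4.RemG

/-! (G2) the nonzero frequencies of a pair `(d, e)`. -/

namespace Pool.Agent.Lib.MP_973905_nt
namespace K7

open MeasureTheory ProbabilityTheory Complex Filter Topology K1 K4 K5

namespace RemPair

variable {φ : ℝ → ℝ}

/-- The coefficients `qg` vanish beyond `T^{.501}`. -/
theorem qg_zero (hφ : CutK φ) {T ν : ℝ} {n : ℕ} (hT : 3 ≤ T) (hn : T ^ (501 / 1000 : ℝ) ≤ n) :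
    qg φ T ν n = 0 := by
  rw [← K4.RemG.vg_nat]
  exact K4.RemG.vg_zero hφ hT hn

/-- The coefficients `sg` vanish beyond `T^{.501} e`. -/
theorem sg_zero (hφ : CutK φ) {T ν : ℝ} {e k : ℕ} (hT : 3 ≤ T) (he : 1 ≤ e)
    (hk : T ^ (501 / 1000 : ℝ) * e < k) : sg φ T ν e k = 0 := by
  unfold sg
  split_ifs with h
  · obtain ⟨n, rfl⟩ := h
    have he0 : (0 : ℝ) < e := by exact_mod_cast he
    rw [Nat.mul_div_cancel_left n (by omega)]
    apply qg_zero hφ hT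
    push_cast at hk
    have : T ^ (501 / 1000 : ℝ) * e < n * e := by linarith [mul_comm (e : ℝ) n]
    exact (lt_of_mul_lt_mul_right this he0.le).le
  · rfl

end RemPair

open RemPair F4.RemP K4.CoG K4.RemG in
theorem stRemP (h2 : F4.StInc) (h4 : F4.StGh) (hc : StCoP) : StRemP := by
  intro φ hφ
  obtain ⟨CI, hCI, hI⟩ := h2
  obtain ⟨C1, hC1, hGh⟩ := h4
  obtain ⟨T3, hT3, hco⟩ := hc φ hφ
  obtain ⟨K, hK1, hK⟩ := bdd hφ
  obtain ⟨K', hK0', hK'⟩ := bdd_deriv hφ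
  obtain ⟨P, hP⟩ : ∃ P : ℕ, 2 * K0 * (2 * CI) * (K' + 3 * K) ≤ P := exists_nat_ge _
  refine ⟨C1 + 1, by positivity, max T3 (max 16 ((P : ℝ) ^ (1000 : ℝ))), by
    refine hT3.trans (le_max_left _ _), fun T hT X hX1 hX2 a c hae hc1 hc2 ν d e hd1 he1 hde => ?_⟩
  have hTb : T3 ≤ T := (le_max_left _ _).trans hT
  have hT16 : 16 ≤ T := ((le_max_left _ _).trans (le_max_right _ _)).trans hT
  have hTP : (P : ℝ) ^ (1000 : ℝ) ≤ T := ((le_max_right _ _).trans (le_max_right _ _)).trans hT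
  have hT3' : 3 ≤ T := by linarith
  have hT0 : 0 < T := by linarith
  have hT1 : 1 ≤ T := by linarith
  have hXX : 1 ≤ X := (Real.one_le_rpow hT1 (by norm_num)).trans hX1
  have hX0 : 0 < X := by linarith
  have hd1' : (1 : ℝ) ≤ d := by exact_mod_cast hd1
  have he1' : (1 : ℝ) ≤ e := by exact_mod_cast he1
  have hd0 : (0 : ℝ) < d := by linarith
  have he0 : (0 : ℝ) < e := by linarith
  have heT : (e : ℝ) ≤ T ^ (1 / 60 : ℝ) := by nlinarith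
  obtain ⟨-, hs1, -, -, -, hsw⟩ := hco T hTb ν e he1 heT
  have hG : ∀ e : ℤ, e = 1 ∨ e = -1 → ∀ l : ℝ, l ≠ 0 → ‖F4.Gh X a c e l‖ ≤
      Real.exp (C1 * (‖a‖ + ‖c‖)) * X ^ (-(25 / 8) : ℝ) / l ^ 2 := by
    intro e he l hl
    exact ((hGh X hXX a c hae hc1 hc2 e he).2.2 l hl).1
  have hY1 : 1 ≤ T ^ (501 / 1000 : ℝ) := Real.one_le_rpow hT1 (by norm_num)
  have hY0 : 0 < T ^ (501 / 1000 : ℝ) := by linarith
  -- the cutoff lies beyond `Y`
  have hfl : T ^ (501 / 1000 : ℝ) ≤ (⌊T⌋₊ : ℝ) := by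
    have h1 : T ^ (501 / 1000 : ℝ) ≤ T ^ (3 / 4 : ℝ) :=
      Real.rpow_le_rpow_of_exponent_le hT1 (by norm_num)
    have h2 : (2 : ℝ) ≤ T ^ (1 / 4 : ℝ) := by
      calc (2 : ℝ) = ((2 : ℝ) ^ (4 : ℝ)) ^ (1 / 4 : ℝ) := by
            rw [← Real.rpow_mul (by norm_num)]; norm_num
        _ ≤ T ^ (1 / 4 : ℝ) := by
            refine Real.rpow_le_rpow (by positivity) ?_ (by norm_num)
            norm_num
            exact hT16
    have h3 : T ^ (3 / 4 : ℝ) * T ^ (1 / 4 : ℝ) = T := by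
      rw [← Real.rpow_add (by linarith)]
      norm_num
    have h4 : T ^ (3 / 4 : ℝ) * 2 ≤ T := by
      calc T ^ (3 / 4 : ℝ) * 2 ≤ T ^ (3 / 4 : ℝ) * T ^ (1 / 4 : ℝ) :=
            mul_le_mul_of_nonneg_left h2 (by positivity)
        _ = T := h3
    have h5 := Nat.lt_floor_add_one T
    linarith
  -- the sum in the form of `total`
  set b : ℕ → ℂ := fun x => if x = d then 1 else 0 with hb
  have hsum : ∑ m ∈ Finset.Icc 1 ⌊T⌋₊, ∑ n ∈ Finset.Icc 1 ⌊T⌋₊, qg φ T ν m *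
      (starRingEnd ℂ) (qg φ T ν n) * ((m * d * (n * e) : ℕ) : ℂ) ^ (a - 1) *
        F4.Rm X a c (m * d) (n * e) =
      ∑ x ∈ Finset.Icc 1 d, ∑ k ∈ Finset.Icc 1 (Np T), b x *
        (starRingEnd ℂ) (sg φ T ν e k) * ∑ n ∈ Finset.Icc 1 ⌊T⌋₊,
          qg φ T ν n * ((n * x * k : ℕ) : ℂ) ^ (a - 1) * F4.Rm X a c (n * x) k := by
    have h1 : ∑ x ∈ Finset.Icc 1 d, ∑ k ∈ Finset.Icc 1 (Np T), b x *
        (starRingEnd ℂ) (sg φ T ν e k) * ∑ n ∈ Finset.Icc 1 ⌊T⌋₊,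
          qg φ T ν n * ((n * x * k : ℕ) : ℂ) ^ (a - 1) * F4.Rm X a c (n * x) k =
        ∑ k ∈ Finset.Icc 1 (Np T), (starRingEnd ℂ) (sg φ T ν e k) *
          ∑ n ∈ Finset.Icc 1 ⌊T⌋₊,
          qg φ T ν n * ((n * d * k : ℕ) : ℂ) ^ (a - 1) * F4.Rm X a c (n * d) k := by
      rw [Finset.sum_eq_single d]
      · refine Finset.sum_congr rfl fun k _ => ?_
        simp only [hb, if_true, one_mul]
      · intro x _ hx
        refine Finset.sum_eq_zero fun k _ => ?_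
        simp only [hb, if_neg hx, zero_mul]
      · intro h
        exact absurd (Finset.mem_Icc.mpr ⟨hd1, le_rfl⟩) h
    have h2 : ∀ Φ : ℕ → ℂ, ∑ k ∈ Finset.Icc 1 (Np T), (starRingEnd ℂ) (sg φ T ν e k) * Φ k =
        ∑ m ∈ Finset.Icc 1 ⌊T⌋₊, (starRingEnd ℂ) (qg φ T ν m) * Φ (m * e) := by
      intro Φ
      have h3 := congrArg (starRingEnd ℂ) (hsw (fun n => (starRingEnd ℂ) (Φ n)))
      simpa only [map_sum, map_mul, Complex.conj_conj] using h3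
    rw [h1, h2, Finset.sum_comm]
    refine Finset.sum_congr rfl fun n _ => ?_
    rw [Finset.mul_sum]
    refine Finset.sum_congr rfl fun m _ => ?_
    ring
  rw [hsum]
  have hna : 0 ≤ ‖a‖ := norm_nonneg a
  have hν : 0 ≤ |ν| := abs_nonneg ν
  have hK0n := K0_nonneg
  set Z : ℝ := 2 * CI * (Real.exp (C1 * (‖a‖ + ‖c‖)) * X ^ (-(25 / 8) : ℝ)) *
    (K' + K * (1 + |ν|) + K * (‖a - 1‖ + 1)) with hZ
  have htot := total (X := X) (c := c) hae hG (fun n => qg φ T ν n) b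
    (fun k => (starRingEnd ℂ) (sg φ T ν e k)) ⌊T⌋₊ d (Np T) Z (T ^ (501 / 1000 : ℝ))
    (by positivity) (fun e he d k R hd hk hR j hj => by
      have h := F4.RemInP.gen hCI hI (E := Real.exp (C1 * (‖a‖ + ‖c‖)) * X ^ (-(25 / 8) : ℝ))
        (X := X)
        (by positivity) he hae (hGh X hXX a c hae hc1 hc2 e he).1
        (fun l hl => (hGh X hXX a c hae hc1 hc2 e he).2.2 l hl) (v := vg φ T ν) (B := K)
        (D := K' + K * (1 + |ν|)) hY1 (fun y hy => vg_zero hφ hT3' hy)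
        (fun y hy => vg_deriv hφ hK1 hK hK0' hK' hT3' hy)
        (fun y hy => vg_bound hK1 hK hT3' hy) d k R hd hk hR j hj ⌊T⌋₊ hfl
      simp only [vg_nat] at h
      refine h.trans (le_of_eq ?_)
      rw [hZ]
      ring)
  refine htot.trans ?_
  have hZ0 : 0 ≤ Z := by
    rw [hZ]
    positivity
  -- the sums over `d` and `k`
  have hd : ∑ x ∈ Finset.Icc 1 d, ‖b x‖ * (x : ℝ) ^ (41 / 16 : ℝ) = (d : ℝ) ^ (41 / 16 : ℝ) := by
    rw [Finset.sum_eq_single d]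
    · simp [hb]
    · intro x _ hx
      simp [hb, hx]
    · intro h
      exact absurd (Finset.mem_Icc.mpr ⟨hd1, le_rfl⟩) h
  have hk : ∑ k ∈ Finset.Icc 1 (Np T), ‖(starRingEnd ℂ) (sg φ T ν e k)‖ *
      ((T ^ (501 / 1000 : ℝ) / k + 1) * (k : ℝ) ^ (25 / 16 + 3 / 4 + 1 / 500 : ℝ)) ≤
      T ^ (502 / 1000 : ℝ) * (2 * (T ^ (501 / 1000 * (25 / 16 + 3 / 4 + 1 / 500) : ℝ) *
        (e : ℝ) ^ (41 / 16 : ℝ))) := by
    have h1 : ∀ k ∈ Finset.Icc 1 (Np T), ‖(starRingEnd ℂ) (sg φ T ν e k)‖ *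
        ((T ^ (501 / 1000 : ℝ) / k + 1) * (k : ℝ) ^ (25 / 16 + 3 / 4 + 1 / 500 : ℝ)) ≤
        ‖sg φ T ν e k‖ * (2 * (T ^ (501 / 1000 * (25 / 16 + 3 / 4 + 1 / 500) : ℝ) *
          (e : ℝ) ^ (41 / 16 : ℝ))) := by
      intro k hk
      rw [Finset.mem_Icc] at hk
      have hk0 : (0 : ℝ) < k := by exact_mod_cast hk.1
      rw [RCLike.norm_conj]
      by_cases hkT : T ^ (501 / 1000 : ℝ) * e < k
      · rw [sg_zero hφ hT3' he1 hkT]; simp
      · refine mul_le_mul_of_nonneg_left ?_ (norm_nonneg _)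
        rw [not_lt] at hkT
        have hYe : 0 < T ^ (501 / 1000 : ℝ) * e := by positivity
        have e1 : (T ^ (501 / 1000 : ℝ) / k + 1) * (k : ℝ) ^ (25 / 16 + 3 / 4 + 1 / 500 : ℝ) =
            T ^ (501 / 1000 : ℝ) * (k : ℝ) ^ (25 / 16 + 3 / 4 + 1 / 500 - 1 : ℝ) +
              (k : ℝ) ^ (25 / 16 + 3 / 4 + 1 / 500 : ℝ) := by
          rw [Real.rpow_sub hk0, Real.rpow_one]
          field_simp
        have e2 : (k : ℝ) ^ (25 / 16 + 3 / 4 + 1 / 500 : ℝ) ≤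
            (T ^ (501 / 1000 : ℝ) * e) ^ (25 / 16 + 3 / 4 + 1 / 500 : ℝ) :=
          Real.rpow_le_rpow hk0.le hkT (by norm_num)
        have e3 : (k : ℝ) ^ (25 / 16 + 3 / 4 + 1 / 500 - 1 : ℝ) ≤
            (T ^ (501 / 1000 : ℝ) * e) ^ (25 / 16 + 3 / 4 + 1 / 500 - 1 : ℝ) :=
          Real.rpow_le_rpow hk0.le hkT (by norm_num)
        have e4 : T ^ (501 / 1000 : ℝ) *
            (T ^ (501 / 1000 : ℝ) * e) ^ (25 / 16 + 3 / 4 + 1 / 500 - 1 : ℝ) ≤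
            (T ^ (501 / 1000 : ℝ) * e) ^ (25 / 16 + 3 / 4 + 1 / 500 : ℝ) := by
          have h3 : (T ^ (501 / 1000 : ℝ) * e) ^ (25 / 16 + 3 / 4 + 1 / 500 : ℝ) =
              (T ^ (501 / 1000 : ℝ) * e) *
              (T ^ (501 / 1000 : ℝ) * e) ^ (25 / 16 + 3 / 4 + 1 / 500 - 1 : ℝ) := by
            rw [Real.rpow_sub hYe, Real.rpow_one]
            field_simp
          rw [h3]
          refine mul_le_mul_of_nonneg_right ?_ (by positivity)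
          nlinarith
        have e5 : (T ^ (501 / 1000 : ℝ) * e) ^ (25 / 16 + 3 / 4 + 1 / 500 : ℝ) ≤
            T ^ (501 / 1000 * (25 / 16 + 3 / 4 + 1 / 500) : ℝ) * (e : ℝ) ^ (41 / 16 : ℝ) := by
          rw [Real.mul_rpow hY0.le he0.le, ← Real.rpow_mul hT0.le]
          refine mul_le_mul_of_nonneg_left ?_ (by positivity)
          exact Real.rpow_le_rpow_of_exponent_le he1' (by norm_num)
        rw [e1]
        have e6 : T ^ (501 / 1000 : ℝ) * (k : ℝ) ^ (25 / 16 + 3 / 4 + 1 / 500 - 1 : ℝ) ≤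
            T ^ (501 / 1000 : ℝ) *
              (T ^ (501 / 1000 : ℝ) * e) ^ (25 / 16 + 3 / 4 + 1 / 500 - 1 : ℝ) :=
          mul_le_mul_of_nonneg_left e3 (by positivity)
        linarith
    refine (Finset.sum_le_sum h1).trans ?_
    rw [← Finset.sum_mul]
    exact mul_le_mul_of_nonneg_right hs1 (by positivity)
  have hde2 : (d : ℝ) ^ (41 / 16 : ℝ) * (e : ℝ) ^ (41 / 16 : ℝ) ≤ T ^ (41 / 960 : ℝ) := by
    rw [← Real.mul_rpow hd0.le he0.le]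
    calc ((d : ℝ) * e) ^ (41 / 16 : ℝ) ≤ (T ^ (1 / 60 : ℝ)) ^ (41 / 16 : ℝ) :=
          Real.rpow_le_rpow (by positivity) hde (by norm_num)
      _ = T ^ (41 / 960 : ℝ) := by
          rw [← Real.rpow_mul hT0.le]; norm_num
  have hP2 : (P : ℝ) ≤ T ^ (1 / 1000 : ℝ) := by
    calc (P : ℝ) = ((P : ℝ) ^ (1000 : ℝ)) ^ (1 / 1000 : ℝ) := by
          rw [← Real.rpow_mul (Nat.cast_nonneg _)]; norm_num
      _ ≤ T ^ (1 / 1000 : ℝ) := Real.rpow_le_rpow (by positivity) hTP (by norm_num)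
  -- the constant
  have hKK : K' + K * (1 + |ν|) + K * (‖a - 1‖ + 1) ≤
      (K' + 3 * K) * ((1 + |ν|) * Real.exp (‖a‖ + ‖c‖)) := by
    have g1 : ‖a - 1‖ ≤ ‖a‖ + 1 := (norm_sub_le _ _).trans (by simp)
    have g2 : 1 + ‖a‖ ≤ Real.exp (‖a‖ + ‖c‖) := by
      have := Real.add_one_le_exp (‖a‖ + ‖c‖)
      have := norm_nonneg c
      linarith
    have g3 : 0 ≤ 1 + ‖a‖ := by linarith
    calc K' + K * (1 + |ν|) + K * (‖a - 1‖ + 1) ≤ (K' + 3 * K) * ((1 + |ν|) * (1 + ‖a‖)) := by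
          have e1 : 0 ≤ K' * |ν| := by positivity
          have e2 : 0 ≤ K' * ‖a‖ := by positivity
          have e3 : 0 ≤ K' * (|ν| * ‖a‖) := by positivity
          have e4 : 0 ≤ K * |ν| := by positivity
          have e5 : 0 ≤ K * ‖a‖ := by positivity
          have e6 : 0 ≤ K * (|ν| * ‖a‖) := by positivity
          have e7 : K * ‖a - 1‖ ≤ K * (‖a‖ + 1) := by gcongr
          nlinarith
      _ ≤ _ := by gcongr
  have hZb : 2 * K0 * Z ≤ T ^ (1 / 1000 : ℝ) * (Real.exp ((C1 + 1) * (‖a‖ + ‖c‖)) * (1 + |ν|) *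
      X ^ (-(25 / 8) : ℝ)) := by
    calc 2 * K0 * Z ≤ 2 * K0 * (2 * CI * (Real.exp (C1 * (‖a‖ + ‖c‖)) * X ^ (-(25 / 8) : ℝ)) *
          ((K' + 3 * K) * ((1 + |ν|) * Real.exp (‖a‖ + ‖c‖)))) := by
          rw [hZ]
          gcongr
      _ = (2 * K0 * (2 * CI) * (K' + 3 * K)) * (Real.exp (C1 * (‖a‖ + ‖c‖)) *
            Real.exp (‖a‖ + ‖c‖) * (1 + |ν|) * X ^ (-(25 / 8) : ℝ)) := by ring
      _ = (2 * K0 * (2 * CI) * (K' + 3 * K)) * (Real.exp ((C1 + 1) * (‖a‖ + ‖c‖)) * (1 + |ν|) *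
            X ^ (-(25 / 8) : ℝ)) := by
          rw [← Real.exp_add]
          ring_nf
      _ ≤ T ^ (1 / 1000 : ℝ) * (Real.exp ((C1 + 1) * (‖a‖ + ‖c‖)) * (1 + |ν|) *
            X ^ (-(25 / 8) : ℝ)) :=
          mul_le_mul_of_nonneg_right (hP.trans hP2) (by positivity)
  rw [hd]
  calc K0 * Z * (T ^ (501 / 1000 : ℝ)) ^ (25 / 16 : ℝ) *
        ((d : ℝ) ^ (41 / 16 : ℝ) *
        ∑ k ∈ Finset.Icc 1 (Np T), ‖(starRingEnd ℂ) (sg φ T ν e k)‖ *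
          ((T ^ (501 / 1000 : ℝ) / k + 1) *
          (k : ℝ) ^ (25 / 16 + 3 / 4 + 1 / 500 : ℝ))) ≤
      K0 * Z * (T ^ (501 / 1000 : ℝ)) ^ (25 / 16 : ℝ) *
        ((d : ℝ) ^ (41 / 16 : ℝ) *
        (T ^ (502 / 1000 : ℝ) * (2 * (T ^ (501 / 1000 * (25 / 16 + 3 / 4 + 1 / 500) : ℝ) *
        (e : ℝ) ^ (41 / 16 : ℝ))))) := by
        gcongr
    _ = (2 * K0 * Z) * ((T ^ (501 / 1000 : ℝ)) ^ (25 / 16 : ℝ) *
        (T ^ (502 / 1000 : ℝ) * T ^ (501 / 1000 * (25 / 16 + 3 / 4 + 1 / 500) : ℝ)) *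
        ((d : ℝ) ^ (41 / 16 : ℝ) * (e : ℝ) ^ (41 / 16 : ℝ))) := by
        ring
    _ ≤ (T ^ (1 / 1000 : ℝ) * (Real.exp ((C1 + 1) * (‖a‖ + ‖c‖)) * (1 + |ν|) *
        X ^ (-(25 / 8) : ℝ))) * ((T ^ (501 / 1000 : ℝ)) ^ (25 / 16 : ℝ) *
        (T ^ (502 / 1000 : ℝ) * T ^ (501 / 1000 * (25 / 16 + 3 / 4 + 1 / 500) : ℝ)) *
        T ^ (41 / 960 : ℝ)) := by
        refine mul_le_mul hZb (mul_le_mul_of_nonneg_left hde2 (by positivity)) (by positivity)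
          (by positivity)
    _ = Real.exp ((C1 + 1) * (‖a‖ + ‖c‖)) * (1 + |ν|) * (X ^ (-(25 / 8) : ℝ) *
        T ^ (1 / 1000 + (501 / 1000 * (25 / 16) +
          (502 / 1000 + 501 / 1000 * (25 / 16 + 3 / 4 + 1 / 500)) + 41 / 960) : ℝ)) := by
        rw [Real.rpow_add hT0 (1 / 1000), Real.rpow_add hT0, Real.rpow_add hT0,
          Real.rpow_add hT0 (502 / 1000), ← Real.rpow_mul hT0.le]
        ring
    _ ≤ Real.exp ((C1 + 1) * (‖a‖ + ‖c‖)) * (1 + |ν|) * (X ^ (-(25 / 8) : ℝ) *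
        T ^ (2489 / 1000 : ℝ)) := by
        refine mul_le_mul_of_nonneg_left ?_ (by positivity)
        refine mul_le_mul_of_nonneg_left ?_ (by positivity)
        exact Real.rpow_le_rpow_of_exponent_le hT1 (by norm_num)

end K7
end Pool.Agent.Lib.MP_973905_nt
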