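import Pool.Agent.Lib.MP_973905_nt.K7.Defs

/-! Statements (as propositions) of the modules of folder K7 (all orders `1 < k < 2`). -/

namespace Pool.Agent.Lib.MP_973905_nt
namespace K7

open MeasureTheory ProbabilityTheory Complex Filter Topology K1 K4 K5
open scoped ENNReal

/-! ### Part G: the twisted second moment, pairs `(d, e)` with `d e ≤ T^{1/60}` -/

/-- (G1) simple facts on the coefficients (compare `K4.StCoG`) -/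
def StCoP : Prop := ∀ φ : ℝ → ℝ, CutK φ → ∃ T₀ : ℝ, 3 ≤ T₀ ∧ ∀ T, T₀ ≤ T → ∀ (ν : ℝ) (d : ℕ),
    1 ≤ d → (d : ℝ) ≤ T ^ (1 / 60 : ℝ) →
    (∀ n : ℕ, T ^ (518 / 1000 : ℝ) < n → sg φ T ν d n = 0) ∧
    ∑ n ∈ Finset.Icc 1 (Np T), ‖sg φ T ν d n‖ ≤ T ^ (502 / 1000 : ℝ) ∧
    ∑ n ∈ Finset.Icc 1 (Np T), ‖sg φ T ν d n‖ * (n : ℝ) ^ (-(1 / 2) : ℝ) ≤ T ^ (252 / 1000 : ℝ) ∧
    ∑ n ∈ Finset.Icc 1 (Np T), ‖sg φ T ν d n‖ * (n : ℝ) ^ (-(7 / 16) : ℝ) ≤ T ^ (284 / 1000 : ℝ) ∧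
    ∑ n ∈ Finset.Icc 1 (Np T), ‖sg φ T ν d n‖ ^ 2 * (n : ℝ)⁻¹ ≤ T ^ (1 / 1000 : ℝ) ∧
    (∀ Φ : ℕ → ℂ, ∑ n ∈ Finset.Icc 1 (Np T), sg φ T ν d n * Φ n =
      ∑ m ∈ Finset.Icc 1 ⌊T⌋₊, qg φ T ν m * Φ (m * d))

/-- (G2) the nonzero frequencies of a pair (compare `K4.StRemG`) -/
def StRemP : Prop := ∀ φ : ℝ → ℝ, CutK φ → ∃ C : ℝ, 0 < C ∧ ∃ T₀ : ℝ, 3 ≤ T₀ ∧ ∀ T, T₀ ≤ T →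
    ∀ X : ℝ, T ^ (985 / 1000 : ℝ) ≤ X → X ≤ T ^ (1 + 1 / 10000 : ℝ) → ∀ a c : ℂ, a.re = 9 / 16 →
    8 ≤ c.re → c.re ≤ 16 → ∀ (ν : ℝ) (d e : ℕ), 1 ≤ d → 1 ≤ e → (d : ℝ) * e ≤ T ^ (1 / 60 : ℝ) →
    ‖∑ m ∈ Finset.Icc 1 ⌊T⌋₊, ∑ n ∈ Finset.Icc 1 ⌊T⌋₊, qg φ T ν m * (starRingEnd ℂ) (qg φ T ν n) *
      ((m * d * (n * e) : ℕ) : ℂ) ^ (a - 1) * F4.Rm X a c (m * d) (n * e)‖ ≤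
      Real.exp (C * (‖a‖ + ‖c‖)) * (1 + |ν|) * (X ^ (-(25 / 8) : ℝ) * T ^ (2489 / 1000 : ℝ))

/-- (G3) mean square of a Dirichlet polynomial with the weight `Wt`, real exponent -/
def StMSP : Prop := ∃ C : ℝ, 0 < C ∧ ∀ X : ℝ, 1 ≤ X → ∀ c' : ℝ, 8 ≤ c' → c' ≤ 17 → ∀ (N : ℕ)
    (b : ℕ → ℂ),
    IntegrableOn (fun t : ℝ => ‖F4.HP N b t‖ ^ 2 * (X⁻¹ * (t / X) ^ (c' - 1) *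
      Real.exp (-(t / X)))) (Set.Ioi 0) ∧
    ∫ t in Set.Ioi (0 : ℝ), ‖F4.HP N b t‖ ^ 2 * (X⁻¹ * (t / X) ^ (c' - 1) * Real.exp (-(t / X))) ≤
      C * (∑ n ∈ Finset.Icc 1 N, ‖b n‖ ^ 2 * (n : ℝ)⁻¹ +
        (N / X) ^ 8 * (∑ n ∈ Finset.Icc 1 N, ‖b n‖ * (n : ℝ) ^ (-(1 / 2) : ℝ)) ^ 2)

/-- (G4) right edge (compare `K4.StRightG`) -/
def StRightP : Prop := ∀ φ : ℝ → ℝ, CutK φ → ∃ C : ℝ, 0 < C ∧ ∃ T₀ : ℝ, 3 ≤ T₀ ∧ ∀ T, T₀ ≤ T →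
    ∀ X : ℝ, T ^ (985 / 1000 : ℝ) ≤ X → X ≤ T ^ (1 + 1 / 10000 : ℝ) → ∀ a c : ℂ, a.re = 9 / 16 →
    8 ≤ c.re → c.re ≤ 16 → ∀ (ν : ℝ) (d e : ℕ), 1 ≤ d → 1 ≤ e → (d : ℝ) * e ≤ T ^ (1 / 60 : ℝ) →
    ‖Jd X c φ T ν d e a - MW X c (Rde φ T ν d e) a‖ ≤
      Real.exp (C * (‖a‖ + ‖c‖)) * (1 + |ν|) * (X ^ (-(25 / 8) : ℝ) * T ^ (249 / 100 : ℝ))

/-- (G5) left edge (compare `F4.StLeft4`) -/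
def StLeftP : Prop := ∀ φ : ℝ → ℝ, CutK φ → ∃ C : ℝ, 0 < C ∧ ∃ T₀ : ℝ, 3 ≤ T₀ ∧ ∀ T, T₀ ≤ T →
    ∀ X : ℝ, T ^ (985 / 1000 : ℝ) ≤ X → X ≤ T ^ (1 + 1 / 10000 : ℝ) → ∀ a c : ℂ, a.re = 9 / 16 →
    8 ≤ c.re → c.re ≤ 14 → ∀ (ν : ℝ) (d e : ℕ), 1 ≤ d → 1 ≤ e → (d : ℝ) * e ≤ T ^ (1 / 60 : ℝ) →
    ‖Jd X c φ T ν d e (-a) - ((X / (2 * Real.pi) : ℝ) : ℂ) ^ (2 * a) * Jd X (c + 2 * a) φ T ν d e a‖ ≤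
      Real.exp (C * (‖a‖ + ‖c‖)) * T ^ (13 / 100 : ℝ)

/-- (G6) three lines (compare `K4.StThreeG`) -/
def StThreeP : Prop := ∀ φ : ℝ → ℝ, CutK φ → ∃ C : ℝ, 0 < C ∧ ∃ T₀ : ℝ, 3 ≤ T₀ ∧ ∀ T, T₀ ≤ T →
    ∀ X : ℝ, T ^ (985 / 1000 : ℝ) ≤ X → X ≤ T ^ (1 + 1 / 10000 : ℝ) → ∀ (ν : ℝ) (d e : ℕ), 1 ≤ d →
    1 ≤ e → (d : ℝ) * e ≤ T ^ (1 / 60 : ℝ) →
    ‖Jds X 12 φ T ν d e 0 -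
      Real.circleAverage (MWs X 12 (Rde φ T ν d e)) 0 (1 / (2 * Real.log T))‖ ≤
      C * (1 + |ν|) * T ^ (-(3 / 100) : ℝ)

/-- (G7) asymptotic formula for a pair (compare `K4.StJG`) -/
def StJP : Prop := ∀ φ : ℝ → ℝ, CutK φ → ∃ C : ℝ, 0 < C ∧ ∃ T₀ : ℝ, 3 ≤ T₀ ∧ ∀ T, T₀ ≤ T →
    ∀ X : ℝ, T ^ (985 / 1000 : ℝ) ≤ X → X ≤ T ^ (1 + 1 / 10000 : ℝ) → ∀ (ν : ℝ) (d e : ℕ), 1 ≤ d →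
    1 ≤ e → (d : ℝ) * e ≤ T ^ (1 / 60 : ℝ) →
    IntegrableOn (fun t : ℝ => ((‖riemannZeta (1 / 2 + t * I)‖ ^ 2 : ℝ) : ℂ) *
      (F4.HP (Np T) (sg φ T ν d) t * (starRingEnd ℂ) (F4.HP (Np T) (sg φ T ν e) t)) *
      ((Wr X t : ℝ) : ℂ)) (Set.Ioi 0) ∧
    ‖(∫ t in Set.Ioi (0 : ℝ), ((‖riemannZeta (1 / 2 + t * I)‖ ^ 2 : ℝ) : ℂ) *
      (F4.HP (Np T) (sg φ T ν d) t * (starRingEnd ℂ) (F4.HP (Np T) (sg φ T ν e) t)) *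
      ((Wr X t : ℝ) : ℂ)) -
      Real.circleAverage (MW X 12 (Rde φ T ν d e)) 0 (1 / (2 * Real.log T))‖ ≤
      C * (1 + |ν|) * T ^ (-(29 / 1000) : ℝ)

/-- (G8) asymptotic formula for the second moment with the twist `GB N c` -/
def StJW : Prop := ∀ φ : ℝ → ℝ, CutK φ → ∃ C : ℝ, 0 < C ∧ ∃ T₀ : ℝ, 3 ≤ T₀ ∧ ∀ T, T₀ ≤ T →
    ∀ X : ℝ, T ^ (985 / 1000 : ℝ) ≤ X → X ≤ T ^ (1 + 1 / 10000 : ℝ) → ∀ (ν : ℝ) (N : ℕ)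
    (c : ℕ → ℕ → ℂ), (N : ℝ) ≤ T ^ (1 / 60 : ℝ) → (∀ m n, ‖c m n‖ ≤ T ^ (1 / 1000 : ℝ)) →
    (∀ m n : ℕ, T ^ (1 / 60 : ℝ) < (m : ℝ) * n → c m n = 0) →
    IntegrableOn (fun t : ℝ => ((‖riemannZeta (1 / 2 + t * I)‖ ^ 2 * ‖Qp φ T ν t‖ ^ 2 : ℝ) : ℂ) *
      GB N c (fs (1 / 2 + t * I)) * ((Wr X t : ℝ) : ℂ)) (Set.Ioi 0) ∧
    ‖(∫ t in Set.Ioi (0 : ℝ), ((‖riemannZeta (1 / 2 + t * I)‖ ^ 2 * ‖Qp φ T ν t‖ ^ 2 : ℝ) : ℂ) *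
      GB N c (fs (1 / 2 + t * I)) * ((Wr X t : ℝ) : ℂ)) -
      Real.circleAverage (MW X 12 (RW φ T ν N c)) 0 (1 / (2 * Real.log T))‖ ≤
      C * (1 + |ν|) * T ^ (-(1 / 200) : ℝ)

/-! ### Part S: the side of the second moment (compare K5) -/

/-- (S1) compare `K5.StAK` -/
def StAK7 : Prop := ∀ k : ℝ, 1 ≤ k → k ≤ 2 → 0 < aK k ∧
    Tendsto (fun y : ℝ => (∏ p ∈ PS 0 y, Dl k ((p : ℝ) ^ (-(1 / 2) : ℝ))) /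
      (Real.exp Real.eulerMascheroniConstant * Real.log y) ^ (k ^ 2)) atTop (𝓝 (aK k)) ∧
    Tendsto (fun y : ℝ => (∏ p ∈ PS 0 y, (1 - 1 / (p : ℝ)) * Dl k ((p : ℝ) ^ (-(1 / 2) : ℝ))) /
      (Real.exp Real.eulerMascheroniConstant * Real.log y) ^ (k ^ 2 - 1)) atTop (𝓝 (aK k))

/-- (S2) compare `K5.StLFLip` -/
def StLFn : Prop := ∃ C : ℝ, 0 < C ∧ ∀ (u x : ℝ) (x₁ x₂ : ℂ), -1 ≤ u → u ≤ 0 → 0 ≤ x →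
    x ≤ 7072 / 10000 → ‖x₁ - x‖ ≤ x / 50 → ‖x₂ - x‖ ≤ x / 50 →
    ‖(1 - x₁ * x₂) * LF u x x₁ x₂ - (1 - (x : ℂ) * x) * LF u x x x‖ ≤
      C * x * (‖x₁ - x‖ + ‖x₂ - x‖)

/-- (S3) one block with shifts (compare `K1.StBlockShift`) -/
def StBlk2 : Prop := ∃ C₁ c₀ : ℝ, 0 < C₁ ∧ 0 < c₀ ∧ ∀ (A l : ℕ) (S : Finset ℕ) (k : ℝ) (a₁ a₂ : ℂ),
    1 ≤ A → (∀ p ∈ S, p.Prime) → 1 ≤ k → k ≤ 2 →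
    (∀ p ∈ S, ‖a₁‖ * Real.log p ≤ c₀ ∧ ‖a₂‖ * Real.log p ≤ c₀) →
    (‖a₁‖ + ‖a₂‖) * ∑ p ∈ S, Real.log p / p ≤ 1 →
    16 * Real.exp (C₁ * ∑ p ∈ S, 1 / (p : ℝ)) ≤ Real.exp (l / 2) →
    ‖ES S (fun f => ZZ S (tw (1 / 2 + a₁) f) *
        (starRingEnd ℂ) (ZZ S (tw (1 / 2 + (starRingEnd ℂ) a₂) f)) *
        (Ntr l (k - 1) (Pj A S (tw (1 / 2) f)) *
          (starRingEnd ℂ) (Ntr l (k - 1) (Pj A S (tw (1 / 2) f))))) - LP (1 - k) a₁ a₂ S‖ ≤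
      C₁ * (Real.exp (3 * Pool.Agent.Lib.MP_973905_nt.rho A S) - 1 + Real.exp (-(l / 2))) *
        ‖LP (1 - k) a₁ a₂ S‖

/-- (S4) the bottom blocks, main term (compare `K5.StBotMain`) -/
def StBotA : Prop := ∀ κ : ℝ, 0 < κ → κ < 1 → ∀ η : ℝ, 0 < η → ∃ M₀ : ℕ, ∀ M : ℕ, M₀ ≤ M →
    ∃ T₀ : ℝ, 3 ≤ T₀ ∧ ∀ T, T₀ ≤ T → ∀ w : ℂ, ‖w‖ ≤ 1 / Real.log T →
    ‖(∏ j ∈ Finset.range (JJ T + 1), EBo T M (1 + κ) (Finset.range (JJ T + 1)) ∅ w j) -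
      ((aK (1 + κ) * lM T M ^ ((1 + κ) ^ 2 - 1) : ℝ) : ℂ)‖ ≤
      η * (aK (1 + κ) * lM T M ^ ((1 + κ) ^ 2 - 1))

/-- (S5) the bottom blocks, crude bound (compare `K5.StBotCrude`) -/
def StBotAC : Prop := ∀ κ : ℝ, 0 < κ → κ < 1 → ∃ C : ℝ, 0 < C ∧ ∃ M₀ : ℕ, ∀ M : ℕ, M₀ ≤ M →
    ∃ T₀ : ℝ, 3 ≤ T₀ ∧ ∀ T, T₀ ≤ T → ∀ g h : Finset ℕ, g ∪ h = Finset.range (JJ T + 1) →
    ∀ w : ℂ, ‖w‖ ≤ 1 / Real.log T →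
    ‖∏ j ∈ Finset.range (JJ T + 1), EBo T M (1 + κ) g h w j‖ ≤
      Real.exp (C * M) * Real.log T ^ ((1 + κ) ^ 2 - 1) * ∏ j ∈ h, ss M (JJ T) j

/-- (S6) the top blocks (compare `K5.StTopLim`) -/
def StTopA : Prop := ∀ κ : ℝ, 0 < κ → κ < 1 → ∀ i : ℕ, ∀ ε : ℝ, 0 < ε → ∃ T₀ : ℝ, 3 ≤ T₀ ∧
    ∀ T, T₀ ≤ T → ∀ u : ℂ, ‖u‖ ≤ 1 →
      ‖ETG κ T (u / Real.log T) i -
        PhF (1 - κ) i (((2 * Vv i : ℝ) : ℂ) - vv (tq (i + 1)) (tq i) u)‖ ≤ ε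

/-- (S7) facts on the limits (compare `K5.StRho`) -/
def StRhoA : Prop := ∀ κ : ℝ, 0 < κ → κ < 1 → (∀ M, Differentiable ℂ (rhoA κ M)) ∧
    (∀ M, rhoA κ M 0 = ((∏ i ∈ Finset.range (M - 6), aG κ i : ℝ) : ℂ)) ∧
    (∀ M, (deriv (rhoA κ M) 0).re ≤ 2 * κ * tq 0 * ∏ i ∈ Finset.range (M - 6), aG κ i) ∧
    ∃ C : ℝ, 1 ≤ C ∧
      (∀ i, ∀ u : ℂ, ‖u‖ ≤ 1 →
        ‖PhF (1 - κ) i (((2 * Vv i : ℝ) : ℂ) - vv (tq (i + 1)) (tq i) u)‖ ≤ C) ∧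
      ∀ M, ∀ u : ℂ, ‖u‖ ≤ 1 → ‖rhoA κ M u‖ ≤ C * ∏ i ∈ Finset.range (M - 6), aG κ i

/-- (S8) the arithmetic factor is a product over the blocks (compare `K5.StFact`) -/
def StFactA : Prop := ∀ (κ : ℝ) (M : ℕ), 7 ≤ M → ∃ T₀ : ℝ, 3 ≤ T₀ ∧ ∀ T, T₀ ≤ T →
    ∀ g h : Finset ℕ, ∀ (N : ℕ) (c : ℕ → ℕ → ℂ), (N : ℝ) ≤ T →
    (∀ f, CMul f → ((WG κ T M g h f : ℝ) : ℂ) = GB N c f) →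
      ∀ w : ℂ, ‖w‖ ≤ 1 / Real.log T → RB N c w =
        (∏ j ∈ Finset.range (JJ T + 1), EBo T M (1 + κ) g h w j) *
          ∏ i ∈ Finset.range (M - 6), ETG κ T w i

/-- (S9) our weights belong to the class (compare `K5.StBQ`) -/
def StBQ7 : Prop := ∀ κ : ℝ, 0 < κ → κ < 1 → ∃ M₀ : ℕ, 7 ≤ M₀ ∧ ∀ M : ℕ, M₀ ≤ M → ∃ T₀ : ℝ,
    3 ≤ T₀ ∧ ∀ T, T₀ ≤ T → ∀ g h : Finset ℕ,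
    BQ (T ^ (1 / 60 : ℝ)) (T ^ (1 / 2000 : ℝ)) (fun f => ((WF κ T M g h f : ℝ) : ℂ)) ∧
    BQ (T ^ (1 / 60 : ℝ)) (T ^ (1 / 2000 : ℝ)) (fun f => ((WG κ T M g h f : ℝ) : ℂ))

/-- (S9b) positivity, continuity and size of the weights -/
def StWB : Prop := ∀ κ : ℝ, 0 < κ → κ < 1 → ∃ M₀ : ℕ, 7 ≤ M₀ ∧ ∀ M : ℕ, M₀ ≤ M → ∃ T₀ : ℝ,
    3 ≤ T₀ ∧ ∀ T, T₀ ≤ T → ∀ g h : Finset ℕ,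
    (∀ f, 0 ≤ WF κ T M g h f) ∧ (∀ f, 0 ≤ WG κ T M g h f) ∧
    (Continuous fun t : ℝ => WF κ T M g h (fs (1 / 2 + t * I))) ∧
    (Continuous fun t : ℝ => WG κ T M g h (fs (1 / 2 + t * I))) ∧
    (∀ t : ℝ, WF κ T M g h (fs (1 / 2 + t * I)) ≤ T ^ (1 / 100 : ℝ)) ∧
    ∀ t : ℝ, WG κ T M g h (fs (1 / 2 + t * I)) ≤ T ^ (1 / 100 : ℝ)

/-- (S9c) the mean of the weight, crudely -/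
def StWMean : Prop := ∀ κ : ℝ, 0 < κ → κ < 1 → ∃ C : ℝ, 0 < C ∧ ∃ M₀ : ℕ, ∀ M : ℕ, M₀ ≤ M →
    ∃ T₀ : ℝ, 3 ≤ T₀ ∧ ∀ T, T₀ ≤ T → ∀ X : ℝ, T ^ (98 / 100 : ℝ) ≤ X → X ≤ 2 * T →
    ∫ t in X..(2 * X), WF κ T M (Finset.range (JJ T + 1)) ∅ (fs (1 / 2 + t * I)) ≤
      X * Real.log T ^ C

/-- (S10) Gaussian means on scales `T' ≤ T` (compare `K5.StSecF`) -/
def StSecA : Prop := ∀ κ : ℝ, 0 < κ → κ < 1 → (∀ η : ℝ, 0 < η → ∃ M₀ : ℕ, ∀ M : ℕ, M₀ ≤ M →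
      ∃ T₀ : ℝ, 3 ≤ T₀ ∧ ∀ T, T₀ ≤ T → ∀ T' : ℝ, T ^ (98 / 100 : ℝ) ≤ T' → T' ≤ T → ∀ τ : ℝ,
      T' / Real.log T' ≤ |τ| → |τ| ≤ 3 / 2 * T' →
      EG T' τ (fun t => ‖riemannZeta (1 / 2 + t * I)‖ ^ 2 *
        WG κ T M (Finset.range (JJ T + 1)) ∅ (fs (1 / 2 + t * I))) ≤
        aK (1 + κ) * lM T M ^ ((1 + κ) ^ 2 - 1) * Real.log T *
          (∏ i ∈ Finset.range (M - 6), aG κ i) * (1 + 2 * κ * tq 0 + η)) ∧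
    ∃ C κ' : ℝ, 0 < C ∧ 0 < κ' ∧ ∃ M₀ : ℕ, ∀ M : ℕ, M₀ ≤ M → ∃ T₀ : ℝ, 3 ≤ T₀ ∧ ∀ T, T₀ ≤ T →
      ∀ T' : ℝ, T ^ (98 / 100 : ℝ) ≤ T' → T' ≤ T → ∀ τ : ℝ, T' / Real.log T' ≤ |τ| →
      |τ| ≤ 3 / 2 * T' → ∀ g h : Finset ℕ, g ∪ h = Finset.range (JJ T + 1) →
      EG T' τ (fun t => ‖riemannZeta (1 / 2 + t * I)‖ ^ 2 * WG κ T M g h (fs (1 / 2 + t * I))) ≤
        Real.exp (C * M) * Real.log T ^ ((1 + κ) ^ 2) * ∏ j ∈ h, ss M (JJ T) j + T ^ (-κ')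

/-- (S11) from Gaussian means to integrals -/
def StAvD : Prop := ∃ C T₀ : ℝ, 0 < C ∧ 3 ≤ T₀ ∧ ∀ T, T₀ ≤ T → ∀ F : ℝ → ℝ, Continuous F →
    (∀ t, 0 ≤ F t) → (∀ t, F t ≤ T ^ 4 * (1 + |t|) ^ 4) → ∀ D : ℝ, 0 ≤ D →
    (∀ T' : ℝ, T ^ (98 / 100 : ℝ) ≤ T' → T' ≤ T → ∀ τ : ℝ, T' / Real.log T' ≤ |τ| →
      |τ| ≤ 3 / 2 * T' → EG T' τ F ≤ D) →
    ∫ t in (T ^ (98 / 100 : ℝ))..T, F t ≤ (1 + C / Real.log T) * (T * D)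

/-- (S12) the side of the second moment on `[0, T]` -/
def StSideA : Prop := ∀ κ : ℝ, 0 < κ → κ < 1 → (∀ η : ℝ, 0 < η → ∃ M₀ : ℕ, ∀ M : ℕ, M₀ ≤ M →
      ∃ T₀ : ℝ, 3 ≤ T₀ ∧ ∀ T, T₀ ≤ T →
      T⁻¹ * ∫ t in (0 : ℝ)..T, ‖riemannZeta (1 / 2 + t * I)‖ ^ 2 *
        WG κ T M (Finset.range (JJ T + 1)) ∅ (fs (1 / 2 + t * I)) ≤
        aK (1 + κ) * lM T M ^ ((1 + κ) ^ 2 - 1) * Real.log T *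
          (∏ i ∈ Finset.range (M - 6), aG κ i) * (1 + 2 * κ * tq 0 + η)) ∧
    ∃ C κ' : ℝ, 0 < C ∧ 0 < κ' ∧ ∃ M₀ : ℕ, ∀ M : ℕ, M₀ ≤ M → ∃ T₀ : ℝ, 3 ≤ T₀ ∧ ∀ T, T₀ ≤ T →
      ∀ g h : Finset ℕ, g ∪ h = Finset.range (JJ T + 1) →
      T⁻¹ * ∫ t in (0 : ℝ)..T, ‖riemannZeta (1 / 2 + t * I)‖ ^ 2 *
        WG κ T M g h (fs (1 / 2 + t * I)) ≤
        Real.exp (C * M) * Real.log T ^ ((1 + κ) ^ 2) * ∏ j ∈ h, ss M (JJ T) j + T ^ (-κ')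

/-! ### Part R: the random model -/

/-- (R1) the arithmetic factor as a double integral (compare `K4.Red.dbl`, `K4.Red.RF_eq`) -/
def StRepW : Prop := ∀ (φ : ℝ → ℝ) (hφ : CutK φ), ∃ T₀ : ℝ, 3 ≤ T₀ ∧ ∀ T, T₀ ≤ T → ∀ M : ℕ, 7 ≤ M →
    ∀ (W : (ℕ → ℂ) → ℝ) (N : ℕ) (c : ℕ → ℕ → ℂ), (N : ℝ) ≤ T ^ (1 / 60 : ℝ) →
    (∀ f, CMul f → ((W f : ℝ) : ℂ) = GB N c f) → ∀ (ν : ℝ) (a : ℂ), ‖a‖ ≤ 1 / Real.log T →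
    (∀ ξ : ℝ, Integrable (fun ξ₂ : ℝ => FourG.gh hφ.cut ξ₂ * R4W T M W a (Real.log T * ν) ξ₂ ξ)) ∧
    Integrable (fun ξ : ℝ => FourG.gh hφ.cut ξ * (starRingEnd ℂ) (∫ ξ₂ : ℝ,
      FourG.gh hφ.cut ξ₂ * R4W T M W a (Real.log T * ν) ξ₂ ξ)) ∧
    RW φ T ν N c a = (∫ ξ : ℝ, FourG.gh hφ.cut ξ * (starRingEnd ℂ) (∫ ξ₂ : ℝ,
      FourG.gh hφ.cut ξ₂ * R4W T M W a (Real.log T * ν) ξ₂ ξ)) *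
      ∏ p ∈ PS 0 T, (1 - (p : ℂ) ^ (-(1 + a + a)))

/-- (R2) the untwisted model -/
def StOne4 : Prop := ∀ (T : ℝ) (M : ℕ), 3 ≤ T → 7 ≤ M → ∀ a₁ a₂ b₁ b₂ : ℂ,
    -(1 / 100) ≤ a₁.re → -(1 / 100) ≤ a₂.re → -(1 / 100) ≤ b₁.re → -(1 / 100) ≤ b₂.re →
    RW4 T M (fun _ => 1) a₁ a₂ b₁ b₂ = K3.EP T (a₁ + b₁) * K3.EP T (a₁ + b₂) * K3.EP T (a₂ + b₁) *
      K3.EP T (a₂ + b₂) * ZT T (a₁ + a₂ + b₁ + b₂)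

/-- (R3) factorisation over the blocks -/
def StFact4 : Prop := ∀ (κ : ℝ) (M : ℕ), 7 ≤ M → ∃ T₀ : ℝ, 3 ≤ T₀ ∧ ∀ T, T₀ ≤ T →
    ∀ g h : Finset ℕ, ∀ a₁ a₂ b₁ b₂ : ℂ, -(1 / 100) ≤ a₁.re → -(1 / 100) ≤ a₂.re →
    -(1 / 100) ≤ b₁.re → -(1 / 100) ≤ b₂.re → RW4 T M (WF κ T M g h) a₁ a₂ b₁ b₂ =
      (K3.EP T (a₁ + b₁) * K3.EP T (a₁ + b₂) * K3.EP T (a₂ + b₁) * K3.EP T (a₂ + b₂) *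
        ZT T (a₁ + a₂ + b₁ + b₂)) *
      ((∏ j ∈ Finset.range (JJ T + 1), EB4 κ T M g h a₁ a₂ b₁ b₂ j) *
        ∏ i ∈ Finset.range (M - 6), ET4 κ T a₁ a₂ b₁ b₂ i)

/-- (R4) the local factor with four shifts is Lipschitz -/
def StLF4L : Prop := ∃ C : ℝ, 0 < C ∧ ∀ (u x : ℝ) (x₁ x₂ y₁ y₂ : ℂ), 0 ≤ u → u ≤ 1 → 0 ≤ x →
    x ≤ 7072 / 10000 → ‖x₁ - x‖ ≤ x / 50 → ‖x₂ - x‖ ≤ x / 50 → ‖y₁ - x‖ ≤ x / 50 →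
    ‖y₂ - x‖ ≤ x / 50 →
    ‖(1 - x₁ * y₁) * (1 - x₁ * y₂) * (1 - x₂ * y₁) * (1 - x₂ * y₂) * K3.LF4 u x x₁ x₂ y₁ y₂ *
        (1 - x₁ * x₂ * y₁ * y₂)⁻¹ -
      (1 - (x : ℂ) ^ 2) ^ 4 * K3.LF4 u x x x x x * (1 - (x : ℂ) ^ 4)⁻¹‖ ≤
      C * x * (‖x₁ - x‖ + ‖x₂ - x‖ + ‖y₁ - x‖ + ‖y₂ - x‖)

/-- (R5) one block with four shifts (compare `K3.StBlock4`) -/
def StBlk4 : Prop := ∃ C₁ c₀ : ℝ, 0 < C₁ ∧ 0 < c₀ ∧ ∀ (A l : ℕ) (S : Finset ℕ) (k : ℝ)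
    (a₁ a₂ b₁ b₂ : ℂ), 1 ≤ A → (∀ p ∈ S, p.Prime) → 1 ≤ k → k ≤ 2 →
    (∀ p ∈ S, ‖a₁‖ * Real.log p ≤ c₀ ∧ ‖a₂‖ * Real.log p ≤ c₀ ∧
      ‖b₁‖ * Real.log p ≤ c₀ ∧ ‖b₂‖ * Real.log p ≤ c₀) →
    (‖a₁‖ + ‖a₂‖ + ‖b₁‖ + ‖b₂‖) * ∑ p ∈ S, Real.log p / p ≤ 1 →
    16 * Real.exp (C₁ * ∑ p ∈ S, 1 / (p : ℝ)) ≤ Real.exp (l / 2) →
    ‖ES S (fun f => ZZ S (tw (1 / 2 + a₁) f) * ZZ S (tw (1 / 2 + a₂) f) *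
        (starRingEnd ℂ) (ZZ S (tw (1 / 2 + (starRingEnd ℂ) b₁) f) *
          ZZ S (tw (1 / 2 + (starRingEnd ℂ) b₂) f)) *
        (Ntr l (k - 2) (Pj A S (tw (1 / 2) f)) *
          (starRingEnd ℂ) (Ntr l (k - 2) (Pj A S (tw (1 / 2) f))))) - K3.LP4 (2 - k) a₁ a₂ b₁ b₂ S‖ ≤
      C₁ * (Real.exp (3 * Pool.Agent.Lib.MP_973905_nt.rho A S) - 1 + Real.exp (-(l / 2))) *
        ‖K3.LP4 (2 - k) a₁ a₂ b₁ b₂ S‖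

/-- (R6) the bottom blocks with four shifts -/
def StBot4 : Prop := ∀ κ : ℝ, 0 < κ → κ < 1 → ∀ η : ℝ, 0 < η → ∃ M₀ : ℕ, ∀ M : ℕ, M₀ ≤ M →
    ∃ T₀ : ℝ, 3 ≤ T₀ ∧ ∀ T, T₀ ≤ T → ∀ a₁ a₂ b₁ b₂ : ℂ,
    ‖a₁‖ ≤ Real.exp (M / 2) / Real.log T → ‖a₂‖ ≤ Real.exp (M / 2) / Real.log T →
    ‖b₁‖ ≤ Real.exp (M / 2) / Real.log T → ‖b₂‖ ≤ Real.exp (M / 2) / Real.log T →
    ‖(∏ j ∈ Finset.range (JJ T + 1), EB4 κ T M (Finset.range (JJ T + 1)) ∅ a₁ a₂ b₁ b₂ j) -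
      ((D4 κ T M : ℝ) : ℂ)‖ ≤ η * D4 κ T M

/-- (R7) shifted prime sums over long blocks, shifts of any size (compare `K5.StPrimeInt`) -/
def StPrimeU : Prop := ∀ lo hi U : ℝ, 0 < lo → lo < hi → hi ≤ 1 → 0 < U → ∀ ε : ℝ, 0 < ε →
    ∃ T₀ : ℝ, 3 ≤ T₀ ∧ ∀ T, T₀ ≤ T → ∀ u : ℂ, ‖u‖ ≤ U →
    ‖∑ p ∈ PS (Real.exp (lo * Real.log T)) (Real.exp (hi * Real.log T)),
      (p : ℂ) ^ (-(1 + u / Real.log T)) - vv lo hi u‖ ≤ ε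

/-- (R8) the Gaussian limit of one top block, four shifts (compare `K5.StGaussBlock`) -/
def StGauss4 : Prop := ∀ lo hi s U : ℝ, 0 < lo → lo < hi → hi ≤ 1 → 0 < U → ∀ n : ℕ, ∀ ε : ℝ,
    0 < ε → ∃ T₀ : ℝ, 3 ≤ T₀ ∧ ∀ T, T₀ ≤ T → ∀ S : Finset ℕ,
    S = PS (Real.exp (lo * Real.log T)) (Real.exp (hi * Real.log T)) → ∀ u₁ u₂ u₃ u₄ : ℂ,
    ‖u₁‖ ≤ U → ‖u₂‖ ≤ U → ‖u₃‖ ≤ U → ‖u₄‖ ≤ U →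
    ‖E4 S (fun f => (((((∑ p ∈ S, tw (1 / 2) f p).re - s) ^ n : ℝ)) : ℂ)) (u₁ / Real.log T)
        (u₂ / Real.log T) (u₃ / Real.log T) (u₄ / Real.log T) -
      mom n (1 / 2 * (vv lo hi u₁ + vv lo hi u₂ + vv lo hi u₃ + vv lo hi u₄) - s)
        ((Real.log (hi / lo) / 2 : ℝ) : ℂ)‖ ≤ ε

/-- (R9) the limits of the factors of the top blocks -/
def StTop4 : Prop := ∀ κ : ℝ, 0 < κ → κ < 1 → ∀ (i : ℕ) (U ε : ℝ), 0 < U → 0 < ε → ∃ T₀ : ℝ,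
    3 ≤ T₀ ∧ ∀ T, T₀ ≤ T → ∀ u₁ u₂ u₃ u₄ : ℂ, ‖u₁‖ ≤ U → ‖u₂‖ ≤ U → ‖u₃‖ ≤ U → ‖u₄‖ ≤ U →
    ‖ET4 κ T (u₁ / Real.log T) (u₂ / Real.log T) (u₃ / Real.log T) (u₄ / Real.log T) i -
      PhF κ i (1 / 2 * (vv (tq (i + 1)) (tq i) u₁ + vv (tq (i + 1)) (tq i) u₂ +
        vv (tq (i + 1)) (tq i) u₃ + vv (tq (i + 1)) (tq i) u₄) - ((Vv i : ℝ) : ℂ))‖ ≤ ε

/-- (R10a) derivatives of the limit, first block -/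
def StPhiD0 : Prop := ∀ k : ℝ, 0 < k → k < 1 → ∀ m : ℕ, 1 ≤ m → m ≤ 4 →
    |dP k 0 m| ≤ (1 - k) * 2 ^ m * aF k 0

/-- (R10b) derivatives of the limit, next two blocks -/
def StPhiD1 : Prop := ∀ k : ℝ, 0 < k → k < 1 → ∀ i : ℕ, i = 1 ∨ i = 2 → ∀ m : ℕ, 1 ≤ m →
    m ≤ dg i → |dP k i m| ≤ (1 - k) * 2 ^ m * aF k i

/-- (R10c) derivatives of the limit, all other blocks -/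
def StPhiD3 : Prop := ∀ k : ℝ, 0 < k → k < 1 → ∀ i : ℕ, 3 ≤ i → ∀ m : ℕ, 1 ≤ m →
    m ≤ dg i → |dP k i m| ≤ (1 - k) * 2 ^ m * aF k i

/-- (R10) variation of the limit -/
def StPhiE : Prop := ∀ k : ℝ, 0 < k → k < 1 → ∀ (i : ℕ) (δ : ℂ),
    ‖PhF k i (((Vv i : ℝ) : ℂ) + δ) - ((aF k i : ℝ) : ℂ)‖ ≤
      (1 - k) * (Real.exp (2 * ‖δ‖) - 1) * aF k i

/-- (R11) comparison of the twisted and the untwisted model -/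
def StCmp4 : Prop := ∀ κ : ℝ, 0 < κ → κ < 1 → ∀ η : ℝ, 0 < η → ∃ M₀ : ℕ, 7 ≤ M₀ ∧ ∀ M : ℕ,
    M₀ ≤ M → ∃ T₀ : ℝ, 3 ≤ T₀ ∧ ∀ T, T₀ ≤ T → ∀ u₁ u₂ u₃ u₄ : ℂ,
    ‖u₁‖ ≤ Real.exp (M / 2) → ‖u₂‖ ≤ Real.exp (M / 2) → ‖u₃‖ ≤ Real.exp (M / 2) →
    ‖u₄‖ ≤ Real.exp (M / 2) →
    ‖RW4 T M (WF κ T M (Finset.range (JJ T + 1)) ∅) (u₁ / Real.log T) (u₂ / Real.log T)
        (u₃ / Real.log T) (u₄ / Real.log T) -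
      ((BF κ T M : ℝ) : ℂ) * RW4 T M (fun _ => 1) (u₁ / Real.log T) (u₂ / Real.log T)
        (u₃ / Real.log T) (u₄ / Real.log T)‖ ≤
      BF κ T M * ((1 - κ) * (Real.exp (om M u₁ + om M u₂ + om M u₃ + om M u₄) - 1) +
        η * Real.exp (om M u₁ + om M u₂ + om M u₃ + om M u₄)) *
      (‖K3.EP T ((u₁ + u₃) / Real.log T)‖ * ‖K3.EP T ((u₁ + u₄) / Real.log T)‖ *
        ‖K3.EP T ((u₂ + u₃) / Real.log T)‖ * ‖K3.EP T ((u₂ + u₄) / Real.log T)‖) *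
      ‖ZT T ((u₁ + u₂ + u₃ + u₄) / Real.log T)‖

/-- (R12a) the Euler products to the right of the line -/
def StEP7 : Prop := ∀ U : ℝ, 0 < U → ∃ T₀ : ℝ, 3 ≤ T₀ ∧ ∀ T, T₀ ≤ T → ∀ c : ℂ, ‖c‖ ≤ U →
    (3 / 2 ≤ c.re → ‖K3.EP T (c / Real.log T)‖ ≤ 113 / 100 * (Real.log T / ‖c‖)) ∧
    (2 ≤ c.re → ‖K3.EP T (c / Real.log T)‖ ≤ 106 / 100 * (Real.log T / ‖c‖)) ∧
    (4 ≤ c.re → ‖K3.EP T (c / Real.log T)‖ ≤ 101 / 100 * (Real.log T / ‖c‖))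

/-- (R12b) the product at 2 -/
def StZT : Prop := (∀ U ε : ℝ, 0 < U → 0 < ε → ∃ T₀ : ℝ, 3 ≤ T₀ ∧ ∀ T, T₀ ≤ T → ∀ c : ℂ,
      ‖c‖ ≤ U → ‖ZT T (c / Real.log T)‖ ≤ (1 + ε) * (6 / Real.pi ^ 2)) ∧
    ∃ C : ℝ, 0 < C ∧ ∀ T : ℝ, 3 ≤ T → ∀ s : ℂ, -(1 / 2) ≤ s.re → ‖ZT T s‖ ≤ C

/-- (R12c) crude bounds -/
def StPB : Prop := (∃ C T₀ : ℝ, 0 < C ∧ 3 ≤ T₀ ∧ ∀ T : ℝ, T₀ ≤ T →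
      (∀ a : ℂ, -(2 / Real.log T) ≤ a.re → ‖K3.EP T a‖ ≤ C * Real.log T) ∧
      ∀ a : ℂ, ‖a‖ ≤ 1 / Real.log T →
        ‖∏ p ∈ PS 0 T, (1 - (p : ℂ) ^ (-(1 + a + a)))‖ ≤ C / Real.log T) ∧
    ∀ (T : ℝ) (a : ℂ), ‖K3.EP T ((starRingEnd ℂ) a + (starRingEnd ℂ) a)‖ *
      ‖∏ p ∈ PS 0 T, (1 - (p : ℂ) ^ (-(1 + a + a)))‖ ≤ 1

/-- (R13) fourth power of the Euler product against our weights (compare `F4.StRand4`) -/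
def StRandW : Prop := ∀ κ : ℝ, 0 < κ → κ < 1 → ∃ C : ℕ, ∃ M₀ : ℕ, ∀ M : ℕ, M₀ ≤ M → ∃ T₀ : ℝ,
    3 ≤ T₀ ∧ ∀ T, T₀ ≤ T → ∀ g h : Finset ℕ, g ∪ h = Finset.range (JJ T + 1) →
    ∀ z : ℂ, -1 ≤ z.re →
    ER (SBq T M) (fun f => ‖ZZ (PS 0 T) (tw ((1 / 2 : ℂ) + z / Real.log T) f)‖ ^ 4 *
        WF κ T M g h (tw (1 / 2) f)) ≤
      Real.exp (C * M) * (1 + ‖z‖) ^ C * Real.log T ^ ((1 + κ) ^ 2) * ∏ j ∈ h, ss M (JJ T) j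

/-- (R14) crude bound for the arithmetic factor (compare `K4.StMainC`) -/
def StMainC7 : Prop := ∀ κ : ℝ, 0 < κ → κ < 1 → ∃ C : ℕ, ∀ φ : ℝ → ℝ, CutK φ → ∃ M₀ : ℕ,
    ∀ M : ℕ, M₀ ≤ M → ∃ T₀ : ℝ, 3 ≤ T₀ ∧ ∀ T, T₀ ≤ T → ∀ g h : Finset ℕ,
    g ∪ h = Finset.range (JJ T + 1) → ∀ (N : ℕ) (c : ℕ → ℕ → ℂ), (N : ℝ) ≤ T ^ (1 / 60 : ℝ) →
    (∀ f, CMul f → ((WF κ T M g h f : ℝ) : ℂ) = GB N c f) → ∀ (ν : ℝ) (a : ℂ),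
    ‖a‖ = 1 / (2 * Real.log T) →
    ‖RW φ T ν N c a‖ ≤ Real.exp (C * M) * (1 + Real.log T * |ν|) ^ C *
      Real.log T ^ ((1 + κ) ^ 2 - 1) * ∏ j ∈ h, ss M (JJ T) j

/-- (R15) bounds for `om` -/
def StOm : Prop := (∀ (M : ℕ) (u : ℂ), -(1 / 2) ≤ u.re → om M u ≤ 501 / 500 * (tq 0 * ‖u‖)) ∧
    ∀ (M : ℕ) (u : ℂ), 0 ≤ u.re → 2 ≤ tq 0 * ‖u‖ → Real.exp (om M u) ≤ 19 * (tq 0 * ‖u‖)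

/-- (R16) Young's inequality -/
def StYoung : Prop := ∀ p r s : ℝ, 1 ≤ p → 1 ≤ r → 1 ≤ s → 1 / p + 1 / r + 1 / s = 2 →
    ∀ a b K : ℝ → ℝ≥0∞, Measurable a → Measurable b → Measurable K →
    ∫⁻ ξ, ∫⁻ η, a ξ * b η * K (ξ - η) ≤
      (∫⁻ ξ, a ξ ^ r) ^ (1 / r) * (∫⁻ ξ, b ξ ^ s) ^ (1 / s) * (∫⁻ ξ, K ξ ^ p) ^ (1 / p)

/-- (R17a) the integral for the main cutoff -/
def StJ1 : Prop := ∫⁻ ξ : ℝ, ∫⁻ η : ℝ, ENNReal.ofReal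
    ((113 / 100) ^ 2 * (101 / 100) * (11 / 4) ^ 2 * (16 / 9) *
      ((Real.exp (501 / 500 * tq 0) * qb (tq 0 * ‖un 0 ξ‖) * qb (tq 0 * ‖un 0 η‖) - 1) /
        (‖un 0 ξ‖ ^ 2 * ‖un 0 η‖ ^ 2 * ‖un 0 ξ + (starRingEnd ℂ) (un 0 η)‖))) ≤
    ENNReal.ofReal cA

/-- (R17b) the integral for the window -/
def StJ2 : Prop := ∫⁻ ξ : ℝ, ∫⁻ η : ℝ, ENNReal.ofReal
    ((113 / 100) ^ 2 * (101 / 100) * (16 / 9) * (mw ξ * mw η) *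
      ((Real.exp (501 / 500 * tq 0) * qb (tq 0 * ‖un 0 ξ‖) * qb (tq 0 * ‖un 0 η‖) - 1) /
        (‖un 0 ξ‖ * ‖un 0 η‖ * ‖un 0 ξ + (starRingEnd ℂ) (un 0 η)‖))) ≤
    ENNReal.ofReal cW

/-- (R17c) the integral for the pairing -/
def StJ3 : Prop := ∫⁻ ξ : ℝ, ∫⁻ η : ℝ, ENNReal.ofReal
    ((106 / 100) ^ 4 * (11 / 4) ^ 2 *
      ((qb (tq 0 * ‖un 0 ξ‖) * qb (tq 0 * ‖un 0 η‖) - 1) / (‖un 0 ξ‖ ^ 3 * ‖un 0 η‖ ^ 3))) ≤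
    ENNReal.ofReal c2

/-- (R18a) our cutoffs and their transforms -/
def StGhC : Prop := ∀ δ : ℝ, 0 < δ → δ ≤ 1 / 2000 → CutK (fC δ 0) ∧ CutK (fC δ (1 / 60)) ∧
    CutK (fW δ) ∧ (∀ θ : ℝ, θ = 0 ∨ θ = 1 / 60 → ∀ (h : FourG.Cut (fC δ θ)) (ξ : ℝ),
      ‖FourG.gh h ξ‖ ≤ 11 / 4 / ‖un 0 ξ‖) ∧
    ∀ (h : FourG.Cut (fW δ)) (ξ : ℝ), ‖FourG.gh h ξ‖ ≤ mw ξ

/-- (R18b) the transform of the bump -/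
def StGhB : Prop := ∃ C : ℝ, 0 < C ∧ ∀ δ : ℝ, 0 < δ → δ ≤ 1 / 2000 → CutK (fB δ) ∧
    ∀ (h : FourG.Cut (fB δ)) (ξ : ℝ), ‖FourG.gh h ξ‖ ≤ C * δ / (1 + δ * |ξ|) ^ 2

/-- (R19) the arithmetic factor, general cutoff -/
def StMainG : Prop := ∀ κ : ℝ, 0 < κ → κ < 1 → ∀ (φ : ℝ → ℝ) (hφ : CutK φ) (m : ℝ → ℝ) (cc : ℝ),
    Measurable m → (∀ ξ, ‖FourG.gh hφ.cut ξ‖ ≤ m ξ) → 0 ≤ cc →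
    ∫⁻ ξ : ℝ, ∫⁻ η : ℝ, ENNReal.ofReal
      ((113 / 100) ^ 2 * (101 / 100) * (16 / 9) * (m ξ * m η) *
        ((Real.exp (501 / 500 * tq 0) * qb (tq 0 * ‖un 0 ξ‖) * qb (tq 0 * ‖un 0 η‖) - 1) /
          (‖un 0 ξ‖ * ‖un 0 η‖ * ‖un 0 ξ + (starRingEnd ℂ) (un 0 η)‖))) ≤
      ENNReal.ofReal cc → MB φ κ cc

/-- (R19a) the arithmetic factor, main cutoff -/
def StMainA : Prop := ∀ κ δ : ℝ, 0 < κ → κ < 1 → 0 < δ → δ ≤ 1 / 2000 → MB (fC δ 0) κ cA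

/-- (R19b) the arithmetic factor, window -/
def StMainW : Prop := ∀ κ δ : ℝ, 0 < κ → κ < 1 → 0 < δ → δ ≤ 1 / 2000 → MB (fW δ) κ cW

/-- (R20) the arithmetic factor of the bump -/
def StBumpRW : Prop := ∀ κ : ℝ, 0 < κ → κ < 1 → ∃ C : ℝ, 0 < C ∧ ∀ δ : ℝ, 0 < δ → δ ≤ 1 / 2000 →
    ∃ M₀ : ℕ, ∀ M : ℕ, M₀ ≤ M → ∃ T₀ : ℝ, 3 ≤ T₀ ∧ ∀ T, T₀ ≤ T → ∀ (N : ℕ) (c : ℕ → ℕ → ℂ),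
    (N : ℝ) ≤ T ^ (1 / 60 : ℝ) →
    (∀ f, CMul f → ((WF κ T M (Finset.range (JJ T + 1)) ∅ f : ℝ) : ℂ) = GB N c f) →
    ∀ (ν : ℝ) (a : ℂ), |ν| ≤ Real.exp (M / 3) / Real.log T → ‖a‖ = 1 / (2 * Real.log T) →
    ‖RW (fB δ) T ν N c a‖ ≤ C * δ ^ (1 / 2 : ℝ) * (BF κ T M * Real.log T ^ 3)

/-- (R21) the pairing in the random model (compare `K4.StPairR`) -/
def StPairW : Prop := ∀ κ δ η : ℝ, 0 < κ → κ < 1 → 0 < δ → δ ≤ 1 / 2000 → 0 < η → ∃ M₀ : ℕ,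
    ∀ M : ℕ, M₀ ≤ M → ∃ T₀ : ℝ, 3 ≤ T₀ ∧ ∀ T, T₀ ≤ T → ∀ θ : ℝ, θ = 0 ∨ θ = 1 / 60 →
    ‖ER (SBq T M) (fun f => ZZ (PS 0 T) (tw (1 / 2) f) ^ 2 *
        (starRingEnd ℂ) (FourG.SG (PA δ (1 / 60)) T (tw (1 / 2) f) *
          FourG.SG (PA δ θ) T (tw (1 / 2) f)) *
        ((WF κ T M (Finset.range (JJ T + 1)) ∅ (tw (1 / 2) f) : ℝ) : ℂ)) -
      ((BF κ T M * S2g (PA δ (1 / 60)) (PA δ θ) T : ℝ) : ℂ)‖ ≤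
      ((1 - κ) * c2 * (6 / Real.pi ^ 2) + η) * (BF κ T M * Real.log T ^ 4)

/-! ### Part A: analysis -/

/-- (A1) the untwisted main term (compare `K4.StCirc`) -/
def StCircG : Prop := ∀ P : ℝ → ℝ, CutK (fun x => Real.exp x * P x) → (∀ x, |P x| ≤ 1) →
    ∃ C : ℝ, 0 < C ∧ ∃ T₀ : ℝ, 3 ≤ T₀ ∧ ∀ T, T₀ ≤ T →
    ‖Real.circleAverage (MW T 12 (Rde (fun x => Real.exp x * P x) T 0 1 1)) 0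
        (1 / (2 * Real.log T)) - (((Nat.factorial 11 : ℕ) * S1g P T : ℝ) : ℂ)‖ ≤
      C * Real.log T ^ 3

/-- (A2) the main term of the window -/
def StS1w : Prop := ∀ δ η : ℝ, 0 < δ → δ ≤ 1 / 2000 → 0 < η → ∃ T₀ : ℝ, 3 ≤ T₀ ∧ ∀ T, T₀ ≤ T →
    0 ≤ S1g (Pw δ) T ∧
    S1g (Pw δ) T ≤ (6 / Real.pi ^ 2 * ((1 / 60 + 2 * δ) ^ 2 / 2) + η) * Real.log T ^ 4

/-- (A3) the mean of the kernel on the circle -/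
def StKer : Prop := ∃ T₀ : ℝ, 3 ≤ T₀ ∧ ∀ T, T₀ ≤ T →
    CircleIntegrable (fun a : ℂ => ‖Gamma 12‖ * ‖riemannZeta (1 + 2 * a)‖ +
      ‖((T / (2 * Real.pi) : ℝ) : ℂ) ^ (-(2 * a))‖ * (‖Gamma (12 - 2 * a)‖ *
        ‖riemannZeta (1 - 2 * a)‖)) 0 (1 / (2 * Real.log T)) ∧
    Real.circleAverage (fun a : ℂ => ‖Gamma 12‖ * ‖riemannZeta (1 + 2 * a)‖ +
      ‖((T / (2 * Real.pi) : ℝ) : ℂ) ^ (-(2 * a))‖ * (‖Gamma (12 - 2 * a)‖ *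
        ‖riemannZeta (1 - 2 * a)‖)) 0 (1 / (2 * Real.log T)) ≤
      (Nat.factorial 11 : ℕ) * (57 / 25 * Real.log T)

/-- (A4) sharp upper bound for the twisted second moment (compare `K4.StSharpA`) -/
def StSharpG : Prop := ∀ κ : ℝ, 0 < κ → κ < 1 → ∀ P : ℝ → ℝ, CutK (fun x => Real.exp x * P x) →
    (∀ x, 0 ≤ P x ∧ P x ≤ 1) → ∀ cc : ℝ, 0 ≤ cc → MB (fun x => Real.exp x * P x) κ cc →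
    ∀ η : ℝ, 0 < η → ∃ M₀ : ℕ, ∀ M : ℕ, M₀ ≤ M → ∀ u₀ u₁ : ℝ, 0 < u₀ → u₀ < u₁ → u₁ ≤ 2 →
    ∃ T₀ : ℝ, 3 ≤ T₀ ∧ ∀ T, T₀ ≤ T →
    ∫ t in (u₀ * T)..(u₁ * T), ‖riemannZeta (1 / 2 + t * I)‖ ^ 2 *
      ‖FourG.SG P T (fs (1 / 2 + t * I))‖ ^ 2 *
      WF κ T M (Finset.range (JJ T + 1)) ∅ (fs (1 / 2 + t * I)) ≤
      T * (BF κ T M * ((u₁ - u₀) * (S1g P T + (1 - κ) * (57 / 25 * cc) * (6 / Real.pi ^ 2) *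
        Real.log T ^ 4) + η * Real.log T ^ 4))

/-- (A5) the pairing on Gaussian means of variance `T^{2-δ/2}` (compare `K4.StPairT`) -/
def StPairTW : Prop := ∀ κ δ η : ℝ, 0 < κ → κ < 1 → 0 < δ → δ ≤ 1 / 2000 → 0 < η → ∃ M₀ : ℕ,
    ∀ M : ℕ, M₀ ≤ M → ∃ T₀ : ℝ, 3 ≤ T₀ ∧ ∀ T, T₀ ≤ T → ∀ τ : ℝ, T / Real.log T ≤ |τ| →
    |τ| ≤ 3 / 2 * T → ∀ θ : ℝ, θ = 0 ∨ θ = 1 / 60 →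
    ‖EG (K3.Td δ T) τ (fun t => riemannZeta (1 / 2 + t * I) ^ 2 *
        (starRingEnd ℂ) (FourG.SG (PA δ (1 / 60)) T (fs (1 / 2 + t * I)) *
          FourG.SG (PA δ θ) T (fs (1 / 2 + t * I))) *
        ((WF κ T M (Finset.range (JJ T + 1)) ∅ (fs (1 / 2 + t * I)) : ℝ) : ℂ)) -
      ((BF κ T M * S2g (PA δ (1 / 60)) (PA δ θ) T : ℝ) : ℂ)‖ ≤
      ((1 - κ) * c2 * (6 / Real.pi ^ 2) + η) * (BF κ T M * Real.log T ^ 4)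

/-- (A6) the remainder is small in the mean (compare `K4.StBumpMom`) -/
def StBumpMW : Prop := ∀ κ : ℝ, 0 < κ → κ < 1 → ∀ ε : ℝ, 0 < ε → ∃ δ : ℝ, 0 < δ ∧ δ ≤ 1 / 2000 ∧
    ∃ M₀ : ℕ, ∀ M : ℕ, M₀ ≤ M → ∃ T₀ : ℝ, 3 ≤ T₀ ∧ ∀ T, T₀ ≤ T → ∀ X : ℝ,
    T ^ (1 - δ / 8) ≤ X → X ≤ T →
    ∫ t in X..(2 * X), ‖riemannZeta (1 / 2 + t * I)‖ ^ 2 * ‖RR δ T t‖ ^ 2 *
      WF κ T M (Finset.range (JJ T + 1)) ∅ (fs (1 / 2 + t * I)) ≤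
      ε * X * (BF κ T M * Real.log T ^ 4)

/-- (A7) crude fourth moment with our weights (compare `F4.StF4`) -/
def StF4W : Prop := ∀ κ : ℝ, 0 < κ → κ < 1 → ∃ C κ' : ℝ, 0 < C ∧ 0 < κ' ∧ ∃ M₀ : ℕ, ∀ M : ℕ,
    M₀ ≤ M → ∃ T₀ : ℝ, 3 ≤ T₀ ∧ ∀ T, T₀ ≤ T → ∀ g h : Finset ℕ,
    g ∪ h = Finset.range (JJ T + 1) → ∀ Y : ℝ, 0 < Y → Y ≤ 2 * T →
    ∫ t in (0 : ℝ)..Y, ‖riemannZeta (1 / 2 + t * I)‖ ^ 4 * WF κ T M g h (fs (1 / 2 + t * I)) ≤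
      Y * (Real.exp (C * M) * Real.log T ^ ((1 + κ) ^ 2) * ∏ j ∈ h, ss M (JJ T) j) +
        T ^ (1 - κ')

/-- (A8) the side of the fourth moment (compare `K4.StSharp4`) -/
def StSharp4W : Prop := ∀ κ : ℝ, 0 < κ → κ < 1 → ∀ η : ℝ, 0 < η → ∃ M₀ : ℕ, ∀ M : ℕ, M₀ ≤ M →
    ∃ T₀ : ℝ, 3 ≤ T₀ ∧ ∀ T, T₀ ≤ T →
    T⁻¹ * ∫ t in (0 : ℝ)..T, ‖riemannZeta (1 / 2 + t * I)‖ ^ 4 *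
      WF κ T M (Finset.range (JJ T + 1)) ∅ (fs (1 / 2 + t * I)) ≤
      (1 / (2 * Real.pi ^ 2)) * (1 + eB κ + η) * (BF κ T M * Real.log T ^ 4)

/-- (A9) Hoelder (compare `K5.StHold`, `K4.UpperU`) -/
def StHold7 : Prop := ∀ κ : ℝ, 0 < κ → κ < 1 → ∀ ε : ℝ, 0 < ε → ∃ M₁ : ℕ, ∀ M : ℕ, M₁ ≤ M →
    ∃ T₀ : ℝ, 3 ≤ T₀ ∧ ∀ T, T₀ ≤ T →
    T⁻¹ * ∫ t in (0 : ℝ)..T, ‖riemannZeta (1 / 2 + t * I)‖ ^ (2 * (1 + κ)) ≤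
      (1 + ε) * (aK (1 + κ) * Real.log T ^ ((1 + κ) ^ 2) *
        (Real.exp ((M - Real.eulerMascheroniConstant) * (κ * (1 - κ))) *
        ((∏ i ∈ Finset.range (M - 6), aF κ i) * ((1 + eB κ) / 12)) ^ κ *
        ((∏ i ∈ Finset.range (M - 6), aG κ i) * (1 + 2 * κ * tq 0)) ^ (1 - κ)))

/-! ### Part N: numbers -/

/-- (N1) the Barnes quotient between 1 and 2 -/
def StG7 : Prop := ∀ κ : ℝ, 0 < κ → κ < 1 →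
    Real.exp (-(κ * Real.log 12) + κ * (1 - κ) * (162 / 100 + 23 / 100 * κ)) ≤
      barnesG (1 + κ + 1) ^ 2 / barnesG (2 * (1 + κ) + 1)

/-- (N2) all the numbers together -/
def StNum7 : Prop := ∀ κ : ℝ, 0 < κ → κ < 1 → ∀ M : ℕ, 10 ≤ M →
    Real.exp ((M - Real.eulerMascheroniConstant) * (κ * (1 - κ))) *
        ((∏ i ∈ Finset.range (M - 6), aF κ i) * ((1 + eB κ) / 12)) ^ κ *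
        ((∏ i ∈ Finset.range (M - 6), aG κ i) * (1 + 2 * κ * tq 0)) ^ (1 - κ) ≤
      CC7 κ * (barnesG (1 + κ + 1) ^ 2 / barnesG (2 * (1 + κ) + 1))

/-- (F) the upper bound for every fixed order between 1 and 2 -/
def StFinal7 : Prop := ∀ κ : ℝ, 0 < κ → κ < 1 → ∀ ε : ℝ, 0 < ε → ∃ T₀ : ℝ, 3 ≤ T₀ ∧ ∀ T, T₀ ≤ T →
    (T⁻¹ * ∫ t in (0 : ℝ)..T, ‖riemannZeta (1 / 2 + t * I)‖ ^ (2 * (1 + κ))) /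
      (cK (1 + κ) * (Real.log T) ^ ((1 + κ) ^ 2)) ≤ CC7 κ + ε

end K7
end Pool.Agent.Lib.MP_973905_nt
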