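import Pool.Agent.Lib.MP_973905_nt.K7.Base
import Pool.Agent.Lib.MP_973905_nt.K5.TopLim

/-! Module (S6) of K7: the limits of the factors of the top blocks, side of the second moment. -/

namespace Pool.Agent.Lib.MP_973905_nt
namespace K7

open MeasureTheory ProbabilityTheory Complex Filter Topology K1 K4 K5
open scoped ENNReal

namespace TopAM

lemma mom_neg {R : Type*} [CommRing R] (m s : R) : ∀ n : ℕ,
    mom n (-m) s = (-1) ^ n * mom n m s ∧ mom (n + 1) (-m) s = (-1) ^ (n + 1) * mom (n + 1) m s := by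
  intro n
  induction n with
  | zero => simp [mom]
  | succ n ih =>
    refine ⟨ih.2, ?_⟩
    have h1 : mom (n + 1 + 1) (-m) s = -m * mom (n + 1) (-m) s + ((n + 1 : ℕ) : R) * s * mom n (-m) s :=
      rfl
    have h2 : mom (n + 1 + 1) m s = m * mom (n + 1) m s + ((n + 1 : ℕ) : R) * s * mom n m s := rfl
    rw [h1, h2, ih.1, ih.2]
    ring

lemma dg_even (i : ℕ) : Even (dg i) := by
  unfold dg
  split_ifs
  · exact ⟨2, rfl⟩
  · exact ⟨i + 1, by ring⟩

lemma tq_lt (i : ℕ) : tq (i + 1) < tq i := by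
  have h := Blk7.log_tq i
  have h2 := TLaux.Vv_pos i
  by_contra hcon
  push Not at hcon
  have h3 : tq i / tq (i + 1) ≤ 1 := (div_le_one (Blk7.tq_pos _)).mpr hcon
  have h4 := Real.log_nonpos (div_pos (Blk7.tq_pos _) (Blk7.tq_pos _)).le h3
  linarith

lemma tq_le_one (i : ℕ) : tq i ≤ 1 := (Blk7.tq_anti (Nat.zero_le i)).trans Blk7.tq_zero_le

end TopAM

open TopAM TLaux

/-- (S6) the top blocks (compare `K5.StTopLim`) -/
theorem stTopA (h : K5.StGaussBlock) : StTopA := by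
  intro κ hk hk1 i ε hε
  set s : ℝ := (2 - κ) * Vv i with hs
  set aG' : ℕ → ℝ := fun j => (2 * κ) ^ j / j.factorial +
    (if j = dg i then eta κ (dg i) * 2 ^ dg i else 0) with haG
  obtain ⟨T₁, hT₁, h1⟩ := TLaux.key h s (Blk7.tq_pos (i + 1)) (tq_lt i) (tq_le_one i) (dg i + 1)
    aG' hε
  refine ⟨T₁, hT₁, fun T hT u hu => ?_⟩
  have h3 := (h1 T hT (UQ T i) rfl).1 u hu
  have e1 : ∀ f : ℕ → ℂ, pg κ i (Xq T i (tw (1 / 2) f) - Vv i) =
      ∑ j ∈ Finset.range (dg i + 1), aG' j * Y (UQ T i) s j f := by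
    intro f
    unfold pg Tp
    rw [haG]
    simp only [add_mul, Finset.sum_add_distrib, ite_mul, zero_mul, Finset.sum_ite_eq',
      Finset.mem_range, Nat.lt_succ_self, if_true]
    have e : Xq T i (tw (1 / 2) f) - Vv i - (1 - κ) * Vv i = Xq T i (tw (1 / 2) f) - s := by
      rw [hs]; ring
    rw [e]
    congr 1
    · refine Finset.sum_congr rfl fun j _ => ?_
      unfold Y Xq
      rw [mul_pow]
      ring
    · unfold Y Xq
      rw [mul_pow]
      ring
  have e2 : ETG κ T (u / Real.log T) i = ES (UQ T i) (fun f => ZP (UQ T i) (u / Real.log T) f *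
      ((∑ j ∈ Finset.range (dg i + 1), aG' j * Y (UQ T i) s j f : ℝ) : ℂ)) *
        PR (UQ T i) (u / Real.log T) := by
    unfold ETG
    simp only [e1]
    rfl
  have e3 : PhF (1 - κ) i (((2 * Vv i : ℝ) : ℂ) - vv (tq (i + 1)) (tq i) u) =
      ∑ j ∈ Finset.range (dg i + 1), (aG' j : ℂ) *
        mom j (vv (tq (i + 1)) (tq i) u - s) ((Real.log (tq i / tq (i + 1)) / 2 : ℝ) : ℂ) := by
    rw [Blk7.log_tq]
    unfold PhF
    have ek : (1 : ℝ) - (1 - κ) = κ := by ring
    rw [haG, ek]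
    have em : (((2 * Vv i : ℝ) : ℂ) - vv (tq (i + 1)) (tq i) u) - ((κ * Vv i : ℝ) : ℂ) =
        -(vv (tq (i + 1)) (tq i) u - s) := by
      rw [hs]; push_cast; ring
    rw [em]
    simp only [Complex.ofReal_add, add_mul, Finset.sum_add_distrib, apply_ite Complex.ofReal,
      Complex.ofReal_zero, ite_mul, zero_mul, Finset.sum_ite_eq', Finset.mem_range,
      Nat.lt_succ_self, if_true]
    congr 1
    · refine Finset.sum_congr rfl fun j _ => ?_
      rw [(mom_neg _ _ j).1]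
      have e4 : ((-(2 * κ) : ℝ) : ℂ) ^ j * (-1) ^ j = ((2 * κ : ℝ) : ℂ) ^ j := by
        rw [← mul_pow]
        congr 1
        push_cast; ring
      have e5 : ((((2 * κ) ^ j / j.factorial : ℝ)) : ℂ) = ((2 * κ : ℝ) : ℂ) ^ j / j.factorial := by
        push_cast; rfl
      rw [e5, ← e4]
      ring
    · rw [(mom_neg _ _ (dg i)).1, (dg_even i).neg_one_pow, one_mul]
  rw [e2, e3]
  exact h3

end K7
end Pool.Agent.Lib.MP_973905_nt
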